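import Pool.Agent.Parker.Defs

/-!
# MP_6c3636_al, module P01: the group algebra action, basic facts (helper7)
-/

namespace Parker

universe u v w

noncomputable section

variable {Ω : Type} [Field Ω] {G : Type u} [Group G] [Finite G]
  {V : Type v} [AddCommGroup V] [Module Ω V]

theorem act_eq [Fintype G] (ρ : Representation Ω G V) (s : G → Ω) :
    act ρ s = ∑ g, s g • ρ g := by
  have h : Fintype.ofFinite G = ‹Fintype G› := Subsingleton.elim _ _
  unfold act
  rw [h]

theorem act_add (ρ : Representation Ω G V) (s t : G → Ω) :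
    act ρ (s + t) = act ρ s + act ρ t := by
  let _ := Fintype.ofFinite G
  rw [act_eq, act_eq, act_eq, ← Finset.sum_add_distrib]
  exact Finset.sum_congr rfl fun g _ => by rw [Pi.add_apply, add_smul]

theorem act_smul (ρ : Representation Ω G V) (c : Ω) (s : G → Ω) :
    act ρ (c • s) = c • act ρ s := by
  let _ := Fintype.ofFinite G
  rw [act_eq, act_eq, Finset.smul_sum]
  exact Finset.sum_congr rfl fun g _ => by rw [Pi.smul_apply, smul_eq_mul, mul_smul]

theorem act_neg (ρ : Representation Ω G V) (s : G → Ω) : act ρ (-s) = - act ρ s := by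
  let _ := Fintype.ofFinite G
  rw [act_eq, act_eq, ← Finset.sum_neg_distrib]
  exact Finset.sum_congr rfl fun g _ => by rw [Pi.neg_apply, neg_smul]

theorem act_sub (ρ : Representation Ω G V) (s t : G → Ω) :
    act ρ (s - t) = act ρ s - act ρ t := by
  rw [sub_eq_add_neg, act_add, act_neg, sub_eq_add_neg]

theorem act_zero (ρ : Representation Ω G V) : act ρ 0 = 0 := by
  let _ := Fintype.ofFinite G
  rw [act_eq]
  exact Finset.sum_eq_zero fun g _ => by rw [Pi.zero_apply, zero_smul]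

theorem act_sum {ι : Type*} (ρ : Representation Ω G V) (S : Finset ι) (f : ι → G → Ω) :
    act ρ (∑ i ∈ S, f i) = ∑ i ∈ S, act ρ (f i) := by
  classical
  induction S using Finset.induction_on with
  | empty => rw [Finset.sum_empty, Finset.sum_empty, act_zero]
  | insert a S ha ih => rw [Finset.sum_insert ha, Finset.sum_insert ha, act_add, ih]

open Classical in
theorem act_single (ρ : Representation Ω G V) (g : G) : act ρ (Pi.single g 1) = ρ g := by
  let _ := Fintype.ofFinite G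
  rw [act_eq, Finset.sum_eq_single g]
  · rw [Pi.single_eq_same, one_smul]
  · intro h _ hne
    rw [Pi.single_eq_of_ne hne, zero_smul]
  · intro h
    exact absurd (Finset.mem_univ g) h

/-- convolution -/
def conv (s t : G → Ω) : G → Ω :=
  letI := Fintype.ofFinite G
  fun g => ∑ h, s h * t (h⁻¹ * g)

theorem act_conv (ρ : Representation Ω G V) (s t : G → Ω) :
    act ρ (conv s t) = act ρ s * act ρ t := by
  let _ := Fintype.ofFinite G
  rw [act_eq, act_eq, act_eq, Finset.sum_mul_sum]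
  have h1 : ∀ g, conv s t g • ρ g = ∑ h, (s h * t (h⁻¹ * g)) • ρ g := by
    intro g
    rw [conv, Finset.sum_smul]
  rw [Finset.sum_congr rfl fun g _ => h1 g, Finset.sum_comm]
  refine Finset.sum_congr rfl fun h _ => ?_
  rw [← Equiv.sum_comp (Equiv.mulLeft h)]
  refine Finset.sum_congr rfl fun g _ => ?_
  rw [Equiv.coe_mulLeft, inv_mul_cancel_left, map_mul, smul_mul_smul_comm]

/-- push forward of the coefficients along a group homomorphism -/
def push {G' : Type w} [Group G'] [Finite G'] (f : G →* G') (s : G → Ω) : G' → Ω :=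
  letI := Fintype.ofFinite G
  open Classical in
  fun g' => ∑ g, if f g = g' then s g else 0

theorem act_push {G' : Type w} [Group G'] [Finite G'] (f : G →* G')
    (ρ : Representation Ω G' V) (s : G → Ω) :
    act (MonoidHom.comp ρ f : Representation Ω G V) s = act ρ (push f s) := by
  classical
  let _ := Fintype.ofFinite G
  let _ := Fintype.ofFinite G'
  rw [act_eq, act_eq]
  have h1 : ∀ g', push f s g' • ρ g' = ∑ g, (if f g = g' then s g • ρ (f g) else 0) := by
    intro g'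
    rw [push, Finset.sum_smul]
    refine Finset.sum_congr rfl fun g _ => ?_
    by_cases h : f g = g'
    · rw [if_pos h, if_pos h, h]
    · rw [if_neg h, if_neg h, zero_smul]
  rw [Finset.sum_congr rfl fun g' _ => h1 g', Finset.sum_comm]
  refine Finset.sum_congr rfl fun g _ => ?_
  rw [Finset.sum_ite_eq, if_pos (Finset.mem_univ _)]
  rfl

theorem push_skew {G' : Type w} [Group G'] [Finite G'] (f : G →* G') (s : G → Ω)
    (hs : ∀ g, s g⁻¹ = - s g) (g' : G') : push f s g'⁻¹ = - push f s g' := by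
  classical
  let _ := Fintype.ofFinite G
  rw [push, push, ← Finset.sum_neg_distrib, ← Equiv.sum_comp (Equiv.inv G)]
  refine Finset.sum_congr rfl fun g _ => ?_
  rw [Equiv.inv_apply, map_inv]
  by_cases h : f g = g'
  · rw [if_pos (by rw [h]), if_pos h, hs]
  · rw [if_neg (fun h' => h (inv_injective h')), if_neg h, neg_zero]

theorem push_fx {G' : Type w} [Group G'] [Finite G'] (f : G →* G') {Γ : Subgroup (RingAut Ω)}
    {s : G → Ω} (hs : ∀ g, Fx Γ (s g)) (g' : G') : Fx Γ (push f s g') := by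
  intro σ hσ
  rw [push, map_sum]
  refine Finset.sum_congr rfl fun g _ => ?_
  split_ifs
  · exact hs g σ hσ
  · exact map_zero σ

/-- `Fx Γ` is a subfield. -/
theorem fx_natCast (Γ : Subgroup (RingAut Ω)) (n : ℕ) : Fx Γ (n : Ω) := by
  intro σ _
  exact map_natCast σ n

theorem fx_ratCast [CharZero Ω] (Γ : Subgroup (RingAut Ω)) (q : ℚ) : Fx Γ (q : Ω) := by
  intro σ _
  exact map_ratCast σ q

theorem fx_add {Γ : Subgroup (RingAut Ω)} {x y : Ω} (hx : Fx Γ x) (hy : Fx Γ y) :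
    Fx Γ (x + y) := by
  intro σ hσ
  rw [map_add, hx σ hσ, hy σ hσ]

theorem fx_mul {Γ : Subgroup (RingAut Ω)} {x y : Ω} (hx : Fx Γ x) (hy : Fx Γ y) :
    Fx Γ (x * y) := by
  intro σ hσ
  rw [map_mul, hx σ hσ, hy σ hσ]

theorem fx_neg {Γ : Subgroup (RingAut Ω)} {x : Ω} (hx : Fx Γ x) : Fx Γ (-x) := by
  intro σ hσ
  rw [map_neg, hx σ hσ]

theorem fx_sub {Γ : Subgroup (RingAut Ω)} {x y : Ω} (hx : Fx Γ x) (hy : Fx Γ y) :
    Fx Γ (x - y) := by
  intro σ hσ
  rw [map_sub, hx σ hσ, hy σ hσ]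

theorem fx_inv {Γ : Subgroup (RingAut Ω)} {x : Ω} (hx : Fx Γ x) : Fx Γ x⁻¹ := by
  intro σ hσ
  rw [map_inv₀, hx σ hσ]

theorem fx_sum {ι : Type*} {Γ : Subgroup (RingAut Ω)} {S : Finset ι} {f : ι → Ω}
    (h : ∀ i ∈ S, Fx Γ (f i)) : Fx Γ (∑ i ∈ S, f i) := by
  intro σ hσ
  rw [map_sum]
  exact Finset.sum_congr rfl fun i hi => h i hi σ hσ

theorem fx_prod {ι : Type*} {Γ : Subgroup (RingAut Ω)} {S : Finset ι} {f : ι → Ω}
    (h : ∀ i ∈ S, Fx Γ (f i)) : Fx Γ (∏ i ∈ S, f i) := by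
  intro σ hσ
  rw [map_prod]
  exact Finset.prod_congr rfl fun i hi => h i hi σ hσ

theorem fx_pow {Γ : Subgroup (RingAut Ω)} {x : Ω} (hx : Fx Γ x) (n : ℕ) : Fx Γ (x ^ n) := by
  intro σ hσ
  rw [map_pow, hx σ hσ]

theorem fx_mono {Γ Γ' : Subgroup (RingAut Ω)} (h : Γ' ≤ Γ) {x : Ω} (hx : Fx Γ x) : Fx Γ' x := by
  exact fun σ hσ => hx σ (h hσ)

/-- `Rat Γ ρ` is closed under the operations. -/
theorem rat_rho (Γ : Subgroup (RingAut Ω)) (ρ : Representation Ω G V) (g : G) :
    ρ g ∈ Rat Γ ρ := by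
  classical
  refine ⟨Pi.single g 1, fun h => ?_, act_single ρ g⟩
  intro σ _
  by_cases hg : h = g
  · subst hg
    rw [Pi.single_eq_same, map_one]
  · rw [Pi.single_eq_of_ne hg, map_zero]

theorem rat_one (Γ : Subgroup (RingAut Ω)) (ρ : Representation Ω G V) : 1 ∈ Rat Γ ρ := by
  have h := rat_rho Γ ρ 1
  rwa [map_one] at h

theorem rat_add {Γ : Subgroup (RingAut Ω)} {ρ : Representation Ω G V} {S T : Module.End Ω V}
    (hS : S ∈ Rat Γ ρ) (hT : T ∈ Rat Γ ρ) : S + T ∈ Rat Γ ρ := by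
  obtain ⟨s, hs, rfl⟩ := hS
  obtain ⟨t, ht, rfl⟩ := hT
  exact ⟨s + t, fun g => fx_add (hs g) (ht g), act_add ρ s t⟩

theorem rat_neg {Γ : Subgroup (RingAut Ω)} {ρ : Representation Ω G V} {T : Module.End Ω V}
    (hT : T ∈ Rat Γ ρ) : - T ∈ Rat Γ ρ := by
  obtain ⟨t, ht, rfl⟩ := hT
  exact ⟨-t, fun g => fx_neg (ht g), act_neg ρ t⟩

theorem rat_sub {Γ : Subgroup (RingAut Ω)} {ρ : Representation Ω G V} {S T : Module.End Ω V}
    (hS : S ∈ Rat Γ ρ) (hT : T ∈ Rat Γ ρ) : S - T ∈ Rat Γ ρ := by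
  rw [sub_eq_add_neg]
  exact rat_add hS (rat_neg hT)

theorem rat_mul {Γ : Subgroup (RingAut Ω)} {ρ : Representation Ω G V} {S T : Module.End Ω V}
    (hS : S ∈ Rat Γ ρ) (hT : T ∈ Rat Γ ρ) : S * T ∈ Rat Γ ρ := by
  obtain ⟨s, hs, rfl⟩ := hS
  obtain ⟨t, ht, rfl⟩ := hT
  refine ⟨conv s t, fun g => ?_, act_conv ρ s t⟩
  rw [conv]
  exact fx_sum fun h _ => fx_mul (hs h) (ht _)

theorem rat_smul {Γ : Subgroup (RingAut Ω)} {ρ : Representation Ω G V} {c : Ω} (hc : Fx Γ c)
    {T : Module.End Ω V} (hT : T ∈ Rat Γ ρ) : c • T ∈ Rat Γ ρ := by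
  obtain ⟨t, ht, rfl⟩ := hT
  exact ⟨c • t, fun g => fx_mul hc (ht g), act_smul ρ c t⟩

theorem rat_sum {ι : Type*} {Γ : Subgroup (RingAut Ω)} {ρ : Representation Ω G V}
    {S : Finset ι} {f : ι → Module.End Ω V} (h : ∀ i ∈ S, f i ∈ Rat Γ ρ) :
    ∑ i ∈ S, f i ∈ Rat Γ ρ := by
  classical
  induction S using Finset.induction_on with
  | empty =>
    rw [Finset.sum_empty]
    exact ⟨0, fun g σ _ => map_zero σ, act_zero ρ⟩
  | insert a S ha ih =>
    rw [Finset.sum_insert ha]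
    exact rat_add (h a (Finset.mem_insert_self a S))
      (ih fun i hi => h i (Finset.mem_insert_of_mem hi))

theorem rat_mono {Γ Γ' : Subgroup (RingAut Ω)} (h : Γ' ≤ Γ) {ρ : Representation Ω G V}
    {T : Module.End Ω V} (hT : T ∈ Rat Γ ρ) : T ∈ Rat Γ' ρ := by
  obtain ⟨t, ht, rfl⟩ := hT
  exact ⟨t, fun g => fx_mono h (ht g), rfl⟩

theorem rat_res {Γ : Subgroup (RingAut Ω)} {H : Subgroup G} {ρ : Representation Ω G V}
    {T : Module.End Ω V} (hT : T ∈ Rat Γ (rs H ρ)) : T ∈ Rat Γ ρ := by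
  obtain ⟨t, ht, rfl⟩ := hT
  exact ⟨push H.subtype t, fun g => push_fx H.subtype ht g, (act_push H.subtype ρ t).symm⟩

/-- the adjoint of `act ρ s` is `act ρ (du s)` -/
theorem act_adj {ρ : Representation Ω G V} {B : LinearMap.BilinForm Ω V} (hB : InvForm ρ B)
    (s : G → Ω) (x y : V) : B (act ρ s x) y = B x (act ρ (du s) y) := by
  let _ := Fintype.ofFinite G
  have h1 : ∀ g, B (ρ g x) y = B x (ρ g⁻¹ y) := by
    intro g
    have h2 := hB.inv g x (ρ g⁻¹ y)
    have h3 : ρ g (ρ g⁻¹ y) = y := by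
      rw [← Module.End.mul_apply, ← map_mul, mul_inv_cancel, map_one, Module.End.one_apply]
    rw [h3] at h2
    exact h2
  rw [act_eq, act_eq, LinearMap.sum_apply, LinearMap.sum_apply, map_sum, map_sum,
    LinearMap.sum_apply, ← Equiv.sum_comp (Equiv.inv G)]
  refine Finset.sum_congr rfl fun g _ => ?_
  rw [Equiv.inv_apply, LinearMap.smul_apply, LinearMap.smul_apply, map_smul, map_smul,
    LinearMap.smul_apply, h1, inv_inv]
  rfl

theorem skew_of_skew {ρ : Representation Ω G V} {B : LinearMap.BilinForm Ω V}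
    (hB : InvForm ρ B) {s : G → Ω} (hs : ∀ g, s g⁻¹ = - s g) : Skew B (act ρ s) := by
  intro x y
  have h1 : du s = -s := by
    funext g
    exact hs g
  rw [act_adj hB, h1, act_neg, LinearMap.neg_apply, map_neg]

/-- a rational skew operator comes from a rational skew element (`s ↦ (s - du s)/2`) -/
theorem exists_skew [CharZero Ω] {Γ : Subgroup (RingAut Ω)} {ρ : Representation Ω G V}
    {B : LinearMap.BilinForm Ω V} (hB : InvForm ρ B) {T : Module.End Ω V} (hT : T ∈ Rat Γ ρ)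
    (hk : Skew B T) :
    ∃ s : G → Ω, (∀ g, Fx Γ (s g)) ∧ (∀ g, s g⁻¹ = - s g) ∧ act ρ s = T := by
  obtain ⟨s, hs, rfl⟩ := hT
  have h1 : act ρ (du s) = - act ρ s := by
    refine LinearMap.ext fun y => ?_
    rw [LinearMap.neg_apply, ← sub_eq_zero, sub_neg_eq_add]
    refine hB.nondeg _ fun x => ?_
    rw [hB.symm, map_add, ← act_adj hB, hk x y, neg_add_cancel]
  have h2 : (2 : Ω) ≠ 0 := two_ne_zero
  refine ⟨(2 : Ω)⁻¹ • (s - du s), fun g => ?_, fun g => ?_, ?_⟩
  · refine fx_mul (fx_inv ?_) (fx_sub (hs g) (hs g⁻¹))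
    have := fx_natCast Γ 2
    exact_mod_cast this
  · simp only [Pi.smul_apply, Pi.sub_apply, du, inv_inv, smul_eq_mul]
    ring
  · rw [act_smul, act_sub, h1, sub_neg_eq_add, ← two_smul Ω, smul_smul, inv_mul_cancel₀ h2,
      one_smul]

theorem trace_act [Fintype G] (ρ : Representation Ω G V) (s : G → Ω) :
    LinearMap.trace Ω V (act ρ s) = ∑ g, s g * ρ.character g := by
  rw [act_eq, map_sum]
  refine Finset.sum_congr rfl fun g _ => ?_
  rw [map_smul, smul_eq_mul]
  rfl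

theorem trace_rat {Γ : Subgroup (RingAut Ω)} {ρ : Representation Ω G V} (hF : FxC Γ ρ)
    {T : Module.End Ω V} (hT : T ∈ Rat Γ ρ) : Fx Γ (LinearMap.trace Ω V T) := by
  let _ := Fintype.ofFinite G
  obtain ⟨t, ht, rfl⟩ := hT
  rw [trace_act]
  exact fx_sum fun g _ => fx_mul (ht g) (hF g)

end

end Parker
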