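import Pool.Agent.Parker.Defs

/-!
# MP_6c3636_al, module P02: the value groups `V(Γ)` (helper7)
-/

namespace Parker

noncomputable section

variable {Ω : Type} [Field Ω] {c : Ctx Ω} {Γ Γ' : Subgroup (RingAut Ω)} {m : ℕ}

theorem ok_mono (hΓ : Ok c m Γ) (h : Γ' ≤ Γ) : Ok c m Γ' := by
  exact ⟨fun σ hσ => hΓ.pres σ (h hσ), fun σ hσ => hΓ.two σ (h hσ)⟩

theorem ok_one (hΓ : Ok c m Γ) : Ok c 1 Γ := by
  refine ⟨hΓ.pres, fun σ _ => ⟨0, fun ζ hζ => ?_⟩⟩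
  rw [pow_one] at hζ
  rw [hζ, map_one]

theorem inV_pos {r : ℝ} (h : InV c Γ r) : 0 < r := by
  obtain ⟨x, hx, -, rfl⟩ := h
  exact c.av.pos hx

theorem inV_one : InV c Γ 1 := by
  exact ⟨1, one_ne_zero, fun σ _ => map_one σ, map_one c.av⟩

theorem inV_mul {r s : ℝ} (hr : InV c Γ r) (hs : InV c Γ s) : InV c Γ (r * s) := by
  obtain ⟨x, hx, hfx, rfl⟩ := hr
  obtain ⟨y, hy, hfy, rfl⟩ := hs
  exact ⟨x * y, mul_ne_zero hx hy, fun σ hσ => by rw [map_mul, hfx σ hσ, hfy σ hσ],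
    map_mul c.av x y⟩

theorem inV_inv {r : ℝ} (hr : InV c Γ r) : InV c Γ r⁻¹ := by
  obtain ⟨x, hx, hfx, rfl⟩ := hr
  exact ⟨x⁻¹, inv_ne_zero hx, fun σ hσ => by rw [map_inv₀, hfx σ hσ], map_inv₀ c.av x⟩

theorem inV_div {r s : ℝ} (hr : InV c Γ r) (hs : InV c Γ s) : InV c Γ (r / s) := by
  rw [div_eq_mul_inv]
  exact inV_mul hr (inV_inv hs)

theorem inV_pow {r : ℝ} (hr : InV c Γ r) (n : ℕ) : InV c Γ (r ^ n) := by
  induction n with
  | zero =>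
    rw [pow_zero]
    exact inV_one
  | succ n ih =>
    rw [pow_succ]
    exact inV_mul ih hr

theorem inV_mono (h : Γ' ≤ Γ) {r : ℝ} (hr : InV c Γ r) : InV c Γ' r := by
  obtain ⟨x, hx, hfx, he⟩ := hr
  exact ⟨x, hx, fun σ hσ => hfx σ (h hσ), he⟩

theorem inV_of_fx {x : Ω} (hx : x ≠ 0) (hf : Fx Γ x) : InV c Γ (c.av x) := by
  exact ⟨x, hx, hf, rfl⟩

theorem sqV_iff {r : ℝ} : SqV c Γ r ↔ ∃ t, InV c Γ t ∧ t ^ 2 = r := by
  constructor
  · rintro ⟨x, hx, hf, he⟩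
    exact ⟨_, ⟨x, hx, hf, rfl⟩, he⟩
  · rintro ⟨t, ⟨x, hx, hf, rfl⟩, he⟩
    exact ⟨x, hx, hf, he⟩

theorem sqV_sq {r : ℝ} (hr : InV c Γ r) : SqV c Γ (r ^ 2) := by
  exact sqV_iff.2 ⟨r, hr, rfl⟩

theorem sqV_one : SqV c Γ 1 := by
  exact sqV_iff.2 ⟨1, inV_one, one_pow 2⟩

theorem sqV_mul {r s : ℝ} (hr : SqV c Γ r) (hs : SqV c Γ s) : SqV c Γ (r * s) := by
  obtain ⟨a, ha, rfl⟩ := sqV_iff.1 hr
  obtain ⟨b, hb, rfl⟩ := sqV_iff.1 hs
  exact sqV_iff.2 ⟨a * b, inV_mul ha hb, mul_pow a b 2⟩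

theorem sqV_inv {r : ℝ} (hr : SqV c Γ r) : SqV c Γ r⁻¹ := by
  obtain ⟨a, ha, rfl⟩ := sqV_iff.1 hr
  exact sqV_iff.2 ⟨a⁻¹, inV_inv ha, inv_pow a 2⟩

theorem sqV_div {r s : ℝ} (hr : SqV c Γ r) (hs : SqV c Γ s) : SqV c Γ (r / s) := by
  rw [div_eq_mul_inv]
  exact sqV_mul hr (sqV_inv hs)

theorem sqV_pow {r : ℝ} (hr : SqV c Γ r) (n : ℕ) : SqV c Γ (r ^ n) := by
  obtain ⟨a, ha, rfl⟩ := sqV_iff.1 hr
  exact sqV_iff.2 ⟨a ^ n, inV_pow ha n, by rw [← pow_mul, ← pow_mul, mul_comm]⟩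

theorem sqV_mono (h : Γ' ≤ Γ) {r : ℝ} (hr : SqV c Γ r) : SqV c Γ' r := by
  obtain ⟨x, hx, hfx, he⟩ := hr
  exact ⟨x, hx, fun σ hσ => hfx σ (h hσ), he⟩

theorem inV_of_sqV {r : ℝ} (hr : SqV c Γ r) : InV c Γ r := by
  obtain ⟨a, ha, rfl⟩ := sqV_iff.1 hr
  exact inV_pow ha 2

theorem sqV_prod {ι : Type*} {S : Finset ι} {f : ι → ℝ} (h : ∀ i ∈ S, SqV c Γ (f i)) :
    SqV c Γ (∏ i ∈ S, f i) := by
  classical
  induction S using Finset.induction_on with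
  | empty =>
    rw [Finset.prod_empty]
    exact sqV_one
  | insert i S hi ih =>
    rw [Finset.prod_insert hi]
    exact sqV_mul (h i (Finset.mem_insert_self i S))
      (ih fun j hj => h j (Finset.mem_insert_of_mem hj))

/-- (L0) norm from a subgroup of finite index -/
theorem inV_norm (hΓ : Ok c m Γ) (h : Γ' ≤ Γ) (hk : Γ'.relIndex Γ ≠ 0) {r : ℝ}
    (hr : InV c Γ' r) : InV c Γ (r ^ (Γ'.relIndex Γ)) := by
  classical
  obtain ⟨x, hx, hfx, rfl⟩ := hr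
  have hidx : (Γ'.subgroupOf Γ).index ≠ 0 := hk
  have : (Γ'.subgroupOf Γ).FiniteIndex := ⟨hidx⟩
  let _ : Fintype (Γ ⧸ Γ'.subgroupOf Γ) := Fintype.ofFinite _
  let f : Γ ⧸ Γ'.subgroupOf Γ → Ω := Quotient.lift (fun σ : Γ => (σ : RingAut Ω) x) (by
    intro σ τ hστ
    have h1 : σ⁻¹ * τ ∈ Γ'.subgroupOf Γ := QuotientGroup.leftRel_apply.1 hστ
    have h2 : ((σ⁻¹ * τ : Γ) : RingAut Ω) ∈ Γ' := Subgroup.mem_subgroupOf.1 h1
    have h3 := hfx _ h2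
    have h4 : (τ : RingAut Ω) = (σ : RingAut Ω) * ((σ⁻¹ * τ : Γ) : RingAut Ω) := by
      rw [Subgroup.coe_mul, Subgroup.coe_inv, mul_inv_cancel_left]
    show (σ : RingAut Ω) x = (τ : RingAut Ω) x
    rw [h4, RingAut.mul_apply, h3])
  have hf : ∀ σ : Γ, f (σ : Γ ⧸ Γ'.subgroupOf Γ) = (σ : RingAut Ω) x := fun σ => rfl
  have hsm : ∀ (σ : Γ) (q : Γ ⧸ Γ'.subgroupOf Γ), f (σ • q) = (σ : RingAut Ω) (f q) := by
    intro σ q
    induction q using QuotientGroup.induction_on with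
    | H τ =>
      show f ((σ * τ : Γ) : Γ ⧸ Γ'.subgroupOf Γ) = _
      rw [hf, hf, Subgroup.coe_mul, RingAut.mul_apply]
  have hav : ∀ q, c.av (f q) = c.av x := by
    intro q
    induction q using QuotientGroup.induction_on with
    | H τ => rw [hf, hΓ.pres τ τ.2]
  refine ⟨∏ q, f q, ?_, ?_, ?_⟩
  · refine Finset.prod_ne_zero_iff.2 fun q _ => ?_
    intro h0
    have h1 := hav q
    rw [h0, map_zero] at h1
    exact hx (c.av.eq_zero.1 h1.symm)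
  · intro σ hσ
    rw [map_prod]
    have h1 : ∀ q, σ (f q) = f ((⟨σ, hσ⟩ : Γ) • q) := fun q => (hsm ⟨σ, hσ⟩ q).symm
    rw [Finset.prod_congr rfl fun q _ => h1 q]
    exact Equiv.prod_comp (MulAction.toPerm (⟨σ, hσ⟩ : Γ)) f
  · rw [map_prod, Finset.prod_congr rfl fun q _ => hav q, Finset.prod_const, Finset.card_univ,
      ← Nat.card_eq_fintype_card]
    rfl

/-- odd index: squares -/
theorem sqV_odd (hΓ : Ok c m Γ) (h : Γ' ≤ Γ) (hk : Odd (Γ'.relIndex Γ)) {r : ℝ}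
    (hr : SqV c Γ' r) (hr' : InV c Γ r) : SqV c Γ r := by
  obtain ⟨t, ht, htr⟩ := sqV_iff.1 hr
  have hk0 : Γ'.relIndex Γ ≠ 0 := by
    intro h0
    rw [h0] at hk
    exact absurd hk (by decide)
  have h1 := inV_norm hΓ h hk0 ht
  obtain ⟨l, hl⟩ := hk
  have hr0 := (inV_pos hr').ne'
  have h2 : r = (t ^ (Γ'.relIndex Γ) / r ^ l) ^ 2 := by
    rw [div_pow, ← pow_mul, mul_comm (Γ'.relIndex Γ) 2, pow_mul, htr, hl, ← pow_mul,
      eq_div_iff (pow_ne_zero _ hr0)]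
    ring
  rw [h2]
  exact sqV_sq (inV_div h1 (inV_pow hr' l))

/-- odd index: values with square in `V(Γ)` -/
theorem inV_odd (hΓ : Ok c m Γ) (h : Γ' ≤ Γ) (hk : Odd (Γ'.relIndex Γ)) {r : ℝ}
    (hr : InV c Γ' r) (hr' : InV c Γ (r ^ 2)) : InV c Γ r := by
  have hk0 : Γ'.relIndex Γ ≠ 0 := by
    intro h0
    rw [h0] at hk
    exact absurd hk (by decide)
  have h1 := inV_norm hΓ h hk0 hr
  obtain ⟨l, hl⟩ := hk
  have hr0 := (inV_pos hr).ne'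
  have h2 : r = r ^ (Γ'.relIndex Γ) / (r ^ 2) ^ l := by
    rw [hl, ← pow_mul, eq_div_iff (pow_ne_zero _ hr0)]
    ring
  rw [h2]
  exact inV_div h1 (inV_pow hr' l)

/-- the absolute value of a root of unity is `1` -/
theorem av_root (c : Ctx Ω) {ζ : Ω} {n : ℕ} (hn : n ≠ 0) (h : ζ ^ n = 1) : c.av ζ = 1 := by
  have h1 : c.av ζ ^ n = 1 := by rw [← map_pow, h, map_one]
  exact (pow_eq_one_iff_of_nonneg (c.av.nonneg ζ) hn).1 h1

/-- the difference of two distinct roots of unity of odd order is a unit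
(`∏_{0<j<r} (1 - η^j) = r`) -/
theorem av_sub_root (c : Ctx Ω) {ζ ξ : Ω} {r : ℕ} (hr : Odd r) (h : ζ ^ r = 1) (h' : ξ ^ r = 1)
    (hne : ζ ≠ ξ) : c.av (ζ - ξ) = 1 := by
  have hr0 : r ≠ 0 := by
    rintro rfl
    exact absurd hr (by decide)
  have hζ0 : ζ ≠ 0 := by
    rintro rfl
    rw [zero_pow hr0] at h
    exact zero_ne_one h
  obtain ⟨η, hη⟩ : ∃ η, η = ξ / ζ := ⟨_, rfl⟩
  have hη1 : η ^ r = 1 := by rw [hη, div_pow, h, h', div_one]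
  have hηne : η ≠ 1 := by
    intro e
    rw [hη, div_eq_one_iff_eq hζ0] at e
    exact hne e.symm
  have hprim := IsPrimitiveRoot.orderOf η
  have hd : orderOf η ∣ r := orderOf_dvd_of_pow_eq_one hη1
  have hdodd : Odd (orderOf η) := Odd.of_dvd_nat hr hd
  obtain ⟨n, hn⟩ : ∃ n, orderOf η = n + 1 := Nat.exists_eq_succ_of_ne_zero (by
    intro h0
    rw [h0] at hdodd
    exact absurd hdodd (by decide))
  have hn0 : n ≠ 0 := by
    rintro rfl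
    exact hηne (orderOf_eq_one_iff.1 hn)
  rw [hn] at hprim hdodd
  have hprod := hprim.prod_one_sub_pow_eq_order
  have hfac : ∀ k, c.av (1 - η ^ (k + 1)) ≤ 1 := by
    intro k
    have h1 := c.na 1 (-η ^ (k + 1))
    rw [c.av.map_neg, map_one, map_pow, av_root c hr0 hη1, one_pow, max_self,
      ← sub_eq_add_neg] at h1
    exact h1
  have hav := congrArg c.av hprod
  have hodd := c.odd (n + 1) hdodd
  push_cast at hodd
  rw [hodd, map_prod] at hav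
  obtain ⟨l, rfl⟩ := Nat.exists_eq_succ_of_ne_zero hn0
  rw [Nat.succ_eq_add_one, Finset.prod_range_succ'] at hav
  have h2 : ∏ k ∈ Finset.range l, c.av (1 - η ^ (k + 1 + 1)) ≤ 1 :=
    Finset.prod_le_one (fun k _ => c.av.nonneg _) (fun k _ => hfac (k + 1))
  have h3 := hfac 0
  have h4 : 0 ≤ ∏ k ∈ Finset.range l, c.av (1 - η ^ (k + 1 + 1)) :=
    Finset.prod_nonneg fun k _ => c.av.nonneg _
  have h5 : 1 ≤ c.av (1 - η ^ (0 + 1)) := by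
    by_contra hlt
    push Not at hlt
    have h6 := c.av.nonneg (1 - η ^ (0 + 1))
    nlinarith
  have h6 : c.av (1 - η) = 1 := by
    have := le_antisymm h3 h5
    simpa using this
  have h7 : ζ - ξ = ζ * (1 - η) := by
    rw [hη]
    field_simp
  rw [h7, map_mul, av_root c hr0 h, h6, one_mul]

end

end Parker
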