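import Pool.Agent.Parker.Defs

/-!
# MP_6c3636_al, module P03: alternating matrices (helper7)
-/

namespace Parker

noncomputable section

universe v

variable {F : Type} [Field F]

/-- an alternating matrix of odd size is singular (`char F ≠ 2`) -/
theorem det_alt_odd (h2 : (2 : F) ≠ 0) {ι : Type*} [Fintype ι] [DecidableEq ι]
    (hι : Odd (Fintype.card ι)) {M : Matrix ι ι F} (hM : M.transpose = -M) : M.det = 0 := by
  have h1 : M.det = - M.det := by
    have h3 : M.det = (-M).det := by rw [← hM, Matrix.det_transpose]
    rw [Matrix.det_neg, hι.neg_one_pow, neg_one_mul] at h3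
    exact h3
  have h4 : 2 * M.det = 0 := by
    rw [two_mul]
    nth_rewrite 2 [h1]
    exact add_neg_cancel _
  exact (mul_eq_zero.1 h4).resolve_left h2

namespace P03_aux

theorem diag_zero (h2 : (2 : F) ≠ 0) {ι : Type*} {M : Matrix ι ι F} (hM : M.transpose = -M)
    (i : ι) : M i i = 0 := by
  have h1 : M i i = - M i i := congrFun (congrFun hM i) i
  have h4 : 2 * M i i = 0 := by
    rw [two_mul]
    nth_rewrite 2 [h1]
    exact add_neg_cancel _
  exact (mul_eq_zero.1 h4).resolve_left h2

theorem two (h2 : (2 : F) ≠ 0) {κ : Type*} [Fintype κ] [DecidableEq κ]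
    (hκ : Fintype.card κ = 2) {M : Matrix κ κ F} (hM : M.transpose = -M) :
    ∃ a : F, M.det = a ^ 2 ∧ (a = 0 → M = 0) := by
  let e := (Fintype.equivFinOfCardEq hκ).symm
  refine ⟨M (e 0) (e 1), ?_, ?_⟩
  · rw [← Matrix.det_submatrix_equiv_self e M, Matrix.det_fin_two]
    simp only [Matrix.submatrix_apply]
    have h3 : M (e 1) (e 0) = - M (e 0) (e 1) := congrFun (congrFun hM (e 0)) (e 1)
    rw [diag_zero h2 hM, diag_zero h2 hM, h3]
    ring
  · intro h0
    have h3 : M (e 1) (e 0) = - M (e 0) (e 1) := congrFun (congrFun hM (e 0)) (e 1)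
    ext i j
    obtain ⟨i, rfl⟩ := e.surjective i
    obtain ⟨j, rfl⟩ := e.surjective j
    fin_cases i <;> fin_cases j
    · exact diag_zero h2 hM _
    · exact h0
    · show M (e 1) (e 0) = 0
      rw [h3, h0, neg_zero]
    · exact diag_zero h2 hM _

theorem sq_aux (h2 : (2 : F) ≠ 0) (n : ℕ) : ∀ {ι : Type v} [Fintype ι] [DecidableEq ι],
    Fintype.card ι = n → ∀ {M : Matrix ι ι F}, M.transpose = -M → ∃ a : F, M.det = a ^ 2 := by
  induction n using Nat.strong_induction_on with
  | _ n ih =>
    intro ι _ _ hn M hM
    by_cases h0 : M = 0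
    · by_cases he : IsEmpty ι
      · exact ⟨1, by rw [Matrix.det_isEmpty]; simp⟩
      · rw [not_isEmpty_iff] at he
        exact ⟨0, by rw [h0, Matrix.det_zero]; simp⟩
    · obtain ⟨i, j, hij⟩ : ∃ i j, M i j ≠ 0 := by
        by_contra hcon
        push Not at hcon
        exact h0 (by ext i j; exact hcon i j)
      have hne : i ≠ j := by
        rintro rfl
        exact hij (diag_zero h2 hM i)
      let p : ι → Prop := fun x => x = i ∨ x = j
      have hcard : Fintype.card {x // p x} = 2 := by
        rw [Fintype.card_subtype]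
        have : (Finset.univ.filter p) = {i, j} := by
          ext x
          simp [p]
        rw [this, Finset.card_pair hne]
      let e := Equiv.sumCompl p
      let A : Matrix {x // p x} {x // p x} F := fun x y => M x y
      let B : Matrix {x // p x} {x // ¬ p x} F := fun x y => M x y
      let C : Matrix {x // ¬ p x} {x // p x} F := fun x y => M x y
      let D : Matrix {x // ¬ p x} {x // ¬ p x} F := fun x y => M x y
      have hMe : M.submatrix e e = Matrix.fromBlocks A B C D := by
        ext x y
        rcases x with x | x <;> rcases y with y | y <;> rfl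
      have hA : A.transpose = -A := by
        ext x y
        exact congrFun (congrFun hM (x : ι)) (y : ι)
      have hB : B.transpose = -C := by
        ext x y
        exact congrFun (congrFun hM (x : ι)) (y : ι)
      have hC : C.transpose = -B := by
        ext x y
        exact congrFun (congrFun hM (x : ι)) (y : ι)
      have hD : D.transpose = -D := by
        ext x y
        exact congrFun (congrFun hM (x : ι)) (y : ι)
      obtain ⟨a, ha, ha'⟩ := two h2 hcard hA
      have ha0 : a ≠ 0 := by
        intro h
        have h3 := ha' h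
        exact hij (congrFun (congrFun h3 ⟨i, Or.inl rfl⟩) ⟨j, Or.inr rfl⟩)
      have hAu : IsUnit A.det := by
        rw [ha]
        exact (isUnit_iff_ne_zero.2 (pow_ne_zero 2 ha0))
      let _ : Invertible A := A.invertibleOfIsUnitDet hAu
      have hinv : (⅟A : Matrix {x // p x} {x // p x} F).transpose = -⅟A := by
        rw [Matrix.invOf_eq_nonsing_inv, Matrix.transpose_nonsing_inv, hA]
        apply Matrix.inv_eq_left_inv
        rw [neg_mul_neg, Matrix.nonsing_inv_mul _ hAu]
      have hS : (D - C * ⅟A * B).transpose = -(D - C * ⅟A * B) := by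
        rw [Matrix.transpose_sub, Matrix.transpose_mul, Matrix.transpose_mul, hD, hB, hC, hinv]
        simp only [Matrix.neg_mul, Matrix.mul_neg, neg_neg, Matrix.mul_assoc]
        abel
      have hlt : Fintype.card {x // ¬ p x} < n := by
        rw [← hn, ← Fintype.card_congr e, Fintype.card_sum, hcard]
        omega
      obtain ⟨b, hb⟩ := ih _ hlt rfl hS
      refine ⟨a * b, ?_⟩
      rw [← Matrix.det_submatrix_equiv_self e M, hMe, Matrix.det_fromBlocks₁₁, ha, hb]
      ring

end P03_aux

/-- an alternating matrix has a square determinant (`char F ≠ 2`). Induction on the size: if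
`M ≠ 0` choose `i ≠ j` with `M i j ≠ 0`, split off `{i, j}` and use the Schur complement
(`Matrix.det_fromBlocks₁₁`). -/
theorem det_alt_sq (h2 : (2 : F) ≠ 0) {ι : Type*} [Fintype ι] [DecidableEq ι]
    {M : Matrix ι ι F} (hM : M.transpose = -M) : ∃ a : F, M.det = a ^ 2 :=
  P03_aux.sq_aux h2 _ rfl hM

variable {V : Type v} [AddCommGroup V] [Module F V] [FiniteDimensional F V]

/-- a space with a nondegenerate alternating form has even dimension -/
theorem even_of_alt (h2 : (2 : F) ≠ 0) {B : LinearMap.BilinForm F V}
    (halt : ∀ x y, B x y = - B y x) (hnd : ∀ x, (∀ y, B x y = 0) → x = 0) :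
    Even (Module.finrank F V) := by
  rw [← Nat.not_odd_iff_even]
  intro hodd
  let b := Module.finBasis F V
  have hM : (LinearMap.BilinForm.toMatrix b B).transpose = -(LinearMap.BilinForm.toMatrix b B) := by
    ext i j
    rw [Matrix.transpose_apply, Matrix.neg_apply, LinearMap.BilinForm.toMatrix_apply,
      LinearMap.BilinForm.toMatrix_apply]
    exact halt _ _
  have h0 := det_alt_odd h2 (by rw [Fintype.card_fin]; exact hodd) hM
  apply (LinearMap.BilinForm.nondegenerate_iff_det_ne_zero b (B := B)).1 _ h0
  refine ⟨hnd, ?_⟩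
  intro y hy
  apply hnd
  intro x
  rw [halt, hy, neg_zero]

/-- `B` symmetric, `T` skew for `B`: the determinant of the Gram matrix times `det T` is a
square. -/
theorem det_skew_sq (h2 : (2 : F) ≠ 0) {ι : Type*} [Fintype ι] [DecidableEq ι]
    (b : Module.Basis ι F V) {B : LinearMap.BilinForm F V} (hs : ∀ x y, B x y = B y x)
    {T : Module.End F V} (hT : ∀ x y, B (T x) y = - B x (T y)) :
    ∃ a : F, (LinearMap.BilinForm.toMatrix b B).det * LinearMap.det T = a ^ 2 := by
  have h1 := LinearMap.BilinForm.toMatrix_compRight b B T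
  have hM : (LinearMap.BilinForm.toMatrix b (B.compRight T)).transpose =
      -(LinearMap.BilinForm.toMatrix b (B.compRight T)) := by
    ext i j
    rw [Matrix.transpose_apply, Matrix.neg_apply, LinearMap.BilinForm.toMatrix_apply,
      LinearMap.BilinForm.toMatrix_apply]
    show B (b j) (T (b i)) = - B (b i) (T (b j))
    rw [hs, hT]
  obtain ⟨a, ha⟩ := det_alt_sq h2 hM
  refine ⟨a, ?_⟩
  rw [← ha, h1, Matrix.det_mul, LinearMap.det_toMatrix]

/-- matrix version -/
theorem det_skew_sq' (h2 : (2 : F) ≠ 0) {ι : Type*} [Fintype ι] [DecidableEq ι]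
    {A M : Matrix ι ι F} (hA : A.transpose = A) (hM : A * M = - (M.transpose * A)) :
    ∃ a : F, A.det * M.det = a ^ 2 := by
  have h1 : (A * M).transpose = -(A * M) := by
    rw [Matrix.transpose_mul, hA, hM, neg_neg]
  obtain ⟨a, ha⟩ := det_alt_sq h2 h1
  exact ⟨a, by rw [← ha, Matrix.det_mul]⟩

end

end Parker
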