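import Pool.Agent.Parker.Defs
import Pool.Agent.Parker.P01

/-!
# MP_6c3636_al, module P08: irreducible representations and characters, basic facts (helper7)

Everything follows from `Representation.char_orthonormal`,
`Representation.card_inv_mul_sum_char_mul_char_eq_finrank` and Maschke's theorem.
-/

namespace Parker

universe u v w

noncomputable section

section General

variable {Ω : Type} [Field Ω] {G : Type u} [Group G] [Finite G]
  {V : Type v} [AddCommGroup V] [Module Ω V] {W : Type w} [AddCommGroup W] [Module Ω W]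

/-! transport along an equivalence of representations (any field) -/

namespace P08_aux

theorem irr_iff (ρ : Representation Ω G V) :
    ρ.IsIrreducible ↔ (∃ v : V, v ≠ 0) ∧
      ∀ U : Submodule Ω V, (∀ g, ∀ x ∈ U, ρ g x ∈ U) → U = ⊥ ∨ U = ⊤ := by
  constructor
  · intro h
    constructor
    · obtain ⟨a, b, hab⟩ := h.exists_pair_ne
      by_contra hcon
      push Not at hcon
      apply hab
      apply Subrepresentation.toSubmodule_injective
      ext x
      rw [hcon x]
      simp
    · intro U hU
      rcases h.eq_bot_or_eq_top ⟨U, fun g x hx => hU g x hx⟩ with h1 | h1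
      · left; exact congrArg Subrepresentation.toSubmodule h1
      · right; exact congrArg Subrepresentation.toSubmodule h1
  · rintro ⟨⟨v, hv⟩, h⟩
    have : Nontrivial (Subrepresentation ρ) := by
      refine ⟨⟨⊥, ⊤, ?_⟩⟩
      intro hbt
      have : (⊥ : Submodule Ω V) = ⊤ := congrArg Subrepresentation.toSubmodule hbt
      have h2 : v ∈ (⊤ : Submodule Ω V) := trivial
      rw [← this] at h2
      exact hv ((Submodule.mem_bot Ω).1 h2)
    refine ⟨fun U => ?_⟩
    rcases h U.toSubmodule (fun g x hx => U.apply_mem_toSubmodule g hx) with h1 | h1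
    · left; exact Subrepresentation.toSubmodule_injective h1
    · right; exact Subrepresentation.toSubmodule_injective h1

theorem equiv_comm {ρ : Representation Ω G V} {τ : Representation Ω G W} (e : ρ.Equiv τ)
    (g : G) (x : V) : e (ρ g x) = τ g (e x) :=
  Representation.IntertwiningMap.isIntertwining ρ τ e.toIntertwiningMap g x

end P08_aux

open P08_aux

theorem equiv_irr {ρ : Representation Ω G V} {τ : Representation Ω G W} (e : ρ.Equiv τ)
    (h : ρ.IsIrreducible) : τ.IsIrreducible := by
  rw [irr_iff] at h ⊢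
  obtain ⟨⟨v, hv⟩, h⟩ := h
  refine ⟨⟨e v, ?_⟩, ?_⟩
  · intro h0
    apply hv
    exact e.toLinearEquiv.injective (by rw [map_zero]; exact h0)
  · intro U hU
    rcases h (U.comap e.toLinearEquiv.toLinearMap) (fun g x hx => by
      have := hU g _ hx
      change e (ρ g x) ∈ U
      rw [equiv_comm]
      exact this) with h1 | h1
    · left
      rw [eq_bot_iff]
      intro y hy
      have : e.symm y ∈ U.comap e.toLinearEquiv.toLinearMap := by
        change e (e.symm y) ∈ U
        rwa [e.apply_symm_apply]
      rw [h1, Submodule.mem_bot] at this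
      rw [Submodule.mem_bot, ← e.apply_symm_apply y, this]
      exact map_zero e.toLinearEquiv
    · right
      rw [eq_top_iff]
      intro y _
      have : e.symm y ∈ U.comap e.toLinearEquiv.toLinearMap := by rw [h1]; trivial
      change e (e.symm y) ∈ U at this
      rwa [e.apply_symm_apply] at this

theorem equiv_act {ρ : Representation Ω G V} {τ : Representation Ω G W} (e : ρ.Equiv τ)
    (s : G → Ω) (x : V) : e (act ρ s x) = act τ s (e x) := by
  have := Fintype.ofFinite G
  rw [act_eq, act_eq]
  simp only [LinearMap.sum_apply, LinearMap.smul_apply]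
  change e.toLinearEquiv _ = _
  rw [map_sum]
  refine Finset.sum_congr rfl fun g _ => ?_
  rw [map_smul]
  congr 1
  exact equiv_comm e g x

theorem equiv_det {ρ : Representation Ω G V} {τ : Representation Ω G W} (e : ρ.Equiv τ)
    (s : G → Ω) : LinearMap.det (act ρ s) = LinearMap.det (act τ s) := by
  rw [← LinearMap.det_conj (act ρ s) e.toLinearEquiv]
  congr 1
  ext y
  simp only [LinearMap.coe_comp, LinearEquiv.coe_coe, Function.comp_apply]
  have := equiv_act e s (e.symm y)
  rw [e.apply_symm_apply] at this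
  exact this

theorem equiv_orth {ρ : Representation Ω G V} {τ : Representation Ω G W} (e : ρ.Equiv τ)
    (h : Orth ρ) : Orth τ := by
  obtain ⟨B, hB⟩ := h
  refine ⟨B.compl₁₂ e.toLinearEquiv.symm.toLinearMap e.toLinearEquiv.symm.toLinearMap, ?_, ?_, ?_⟩
  · intro x y
    exact hB.symm _ _
  · intro x hx
    have : e.symm x = 0 := by
      apply hB.nondeg
      intro y
      have := hx (e y)
      have h2 : e.toLinearEquiv.symm (e y) = y := e.symm_apply_apply y
      simp only [LinearMap.compl₁₂_apply, LinearEquiv.coe_coe, h2] at this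
      exact this
    rw [← e.apply_symm_apply x, this]
    exact map_zero e.toLinearEquiv
  · intro g x y
    have h1 : ∀ z, e.toLinearEquiv.symm (τ g z) = ρ g (e.toLinearEquiv.symm z) := by
      intro z
      exact equiv_comm e.symm g z
    simp only [LinearMap.compl₁₂_apply, LinearEquiv.coe_coe, h1]
    exact hB.inv g _ _

theorem equiv_good {ρ : Representation Ω G V} {τ : Representation Ω G W} (e : ρ.Equiv τ)
    {c : Ctx Ω} {Γ : Subgroup (RingAut Ω)} (h : GoodV c Γ ρ) : GoodV c Γ τ := by
  obtain ⟨B, hB, T, ⟨s, hs, rfl⟩, hk, hd, hsq⟩ := h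
  have key : ∀ y, e.toLinearEquiv.symm (act τ s y) = act ρ s (e.toLinearEquiv.symm y) := by
    intro y
    exact equiv_act e.symm s y
  refine ⟨B.compl₁₂ e.toLinearEquiv.symm.toLinearMap e.toLinearEquiv.symm.toLinearMap,
    ⟨?_, ?_, ?_⟩, act τ s, ⟨s, hs, rfl⟩, ?_, ?_, ?_⟩
  · intro x y
    exact hB.symm _ _
  · intro x hx
    have : e.symm x = 0 := by
      apply hB.nondeg
      intro y
      have := hx (e y)
      have h2 : e.toLinearEquiv.symm (e y) = y := e.symm_apply_apply y
      simp only [LinearMap.compl₁₂_apply, LinearEquiv.coe_coe, h2] at this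
      exact this
    rw [← e.apply_symm_apply x, this]
    exact map_zero e.toLinearEquiv
  · intro g x y
    have h1 : ∀ z, e.toLinearEquiv.symm (τ g z) = ρ g (e.toLinearEquiv.symm z) := by
      intro z
      exact equiv_comm e.symm g z
    simp only [LinearMap.compl₁₂_apply, LinearEquiv.coe_coe, h1]
    exact hB.inv g _ _
  · intro x y
    simp only [LinearMap.compl₁₂_apply, LinearEquiv.coe_coe, key]
    exact hk _ _
  · rw [← equiv_det e]; exact hd
  · rw [← equiv_det e]; exact hsq

namespace P08_aux

/-- the preimage of a subrepresentation under an equivalence -/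
def pull {ρ : Representation Ω G V} {τ : Representation Ω G W} (e : ρ.Equiv τ)
    (X : Subrepresentation τ) : Subrepresentation ρ where
  toSubmodule := X.toSubmodule.comap e.toLinearEquiv.toLinearMap
  apply_mem_toSubmodule g x hx := by
    have := X.apply_mem_toSubmodule g hx
    change e (ρ g x) ∈ X.toSubmodule
    rw [equiv_comm]
    exact this

/-- the equivalence on the subrepresentations -/
def pullEquiv {ρ : Representation Ω G V} {τ : Representation Ω G W} (e : ρ.Equiv τ)
    (X : Subrepresentation τ) : (pull e X).toRepresentation.Equiv X.toRepresentation :=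
  Representation.Equiv.mk
    (LinearEquiv.ofBijective
      (LinearMap.restrict e.toLinearEquiv.toLinearMap (p := (pull e X).toSubmodule)
        (q := X.toSubmodule) (fun x hx => hx))
      (by
        constructor
        · intro x y hxy
          apply Subtype.ext
          apply e.toLinearEquiv.injective
          exact congrArg Subtype.val hxy
        · intro y
          refine ⟨⟨e.symm y.1, ?_⟩, ?_⟩
          · change e (e.symm y.1) ∈ X.toSubmodule
            rw [e.apply_symm_apply]
            exact y.2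
          · apply Subtype.ext
            exact e.apply_symm_apply y.1))
    (by
      intro g
      ext x
      exact equiv_comm e g x.1)

theorem equiv_sd {ρ : Representation Ω G V} {τ : Representation Ω G W} (e : ρ.Equiv τ)
    (h : SD ρ) : SD τ := by
  intro g
  have := h g
  rw [Representation.char_iso e] at this
  exact this

end P08_aux

theorem equiv_noOdd {ρ : Representation Ω G V} {τ : Representation Ω G W} (e : ρ.Equiv τ)
    (h : NoOdd ρ) : NoOdd τ := by
  intro X hX hodd hsd
  refine h (pull e X) (equiv_irr (pullEquiv e X).symm hX) ?_ (equiv_sd (pullEquiv e X).symm hsd)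
  rw [(pullEquiv e X).toLinearEquiv.finrank_eq]
  exact hodd

theorem equiv_rs {ρ : Representation Ω G V} {τ : Representation Ω G W} (e : ρ.Equiv τ)
    (H : Subgroup G) : Nonempty ((rs H ρ).Equiv (rs H τ)) := by
  refine ⟨Representation.Equiv.mk e.toLinearEquiv ?_⟩
  intro g
  ext x
  exact equiv_comm e (g : G) x

/-- every finite dimensional representation is equivalent to one on `Fin n → Ω` -/
theorem exists_fin [FiniteDimensional Ω V] (ρ : Representation Ω G V) :
    ∃ τ : Representation Ω G (Fin (Module.finrank Ω V) → Ω), Nonempty (ρ.Equiv τ) := by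
  set e : V ≃ₗ[Ω] (Fin (Module.finrank Ω V) → Ω) := (Module.finBasis Ω V).equivFun with he
  refine ⟨{ toFun := fun g => e.conj (ρ g), map_one' := ?_, map_mul' := ?_ }, ⟨?_⟩⟩
  · rw [map_one]
    exact e.conj_id
  · intro x y
    rw [map_mul]
    exact e.conj_comp (ρ y) (ρ x)
  · refine Representation.Equiv.mk e ?_
    intro g
    ext x
    simp

end General

open P08_aux

variable {Ω : Type} [Field Ω] [IsAlgClosed Ω] [CharZero Ω] {G : Type u} [Group G] [Finite G]
  {V : Type v} [AddCommGroup V] [Module Ω V] [FiniteDimensional Ω V]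
  {W : Type w} [AddCommGroup W] [Module Ω W] [FiniteDimensional Ω W]

omit [IsAlgClosed Ω] [CharZero Ω] in
theorem ip_eq [Fintype G] (φ ψ : G → Ω) :
    ip φ ψ = (Nat.card G : Ω)⁻¹ * ∑ g, φ g * ψ g⁻¹ := by
  unfold ip
  congr 1
  refine Finset.sum_congr ?_ fun _ _ => rfl
  ext; simp

theorem ip_comm (φ ψ : G → Ω) : ip φ ψ = ip ψ φ := by
  have := Fintype.ofFinite G
  rw [ip_eq, ip_eq]
  congr 1
  refine Fintype.sum_equiv (Equiv.inv G) _ _ fun g => ?_
  simp [mul_comm]

theorem ip_add_left (φ φ' ψ : G → Ω) : ip (φ + φ') ψ = ip φ ψ + ip φ' ψ := by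
  have := Fintype.ofFinite G
  rw [ip_eq, ip_eq, ip_eq, ← mul_add, ← Finset.sum_add_distrib]
  congr 1
  refine Finset.sum_congr rfl fun g _ => ?_
  simp [add_mul]

theorem ip_sum_left {ι : Type*} (S : Finset ι) (f : ι → G → Ω) (ψ : G → Ω) :
    ip (∑ i ∈ S, f i) ψ = ∑ i ∈ S, ip (f i) ψ := by
  classical
  induction S using Finset.induction_on with
  | empty =>
    have := Fintype.ofFinite G
    simp [ip_eq]
  | insert a S ha ih => rw [Finset.sum_insert ha, ip_add_left, ih, Finset.sum_insert ha]

theorem ip_smul_left (a : Ω) (φ ψ : G → Ω) : ip (a • φ) ψ = a * ip φ ψ := by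
  have := Fintype.ofFinite G
  rw [ip_eq, ip_eq, mul_left_comm]
  congr 1
  rw [Finset.mul_sum]
  refine Finset.sum_congr rfl fun g _ => ?_
  simp [mul_assoc]

/-- `⟨τ, ρ⟩` is the dimension of the space of intertwining maps (a natural number) -/
theorem ip_eq_finrank (ρ : Representation Ω G V) (τ : Representation Ω G W) :
    ip τ.character ρ.character = (Module.finrank Ω (ρ.IntertwiningMap τ) : Ω) := by
  have := Fintype.ofFinite G
  have : Invertible (Nat.card G : Ω) := invertibleOfNonzero (by
    exact_mod_cast Nat.card_pos.ne')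
  rw [ip_eq]
  exact Representation.card_inv_mul_sum_char_mul_char_eq_finrank ρ τ

theorem ip_self_irr (ρ : Representation Ω G V) (h : ρ.IsIrreducible) :
    ip ρ.character ρ.character = 1 := by
  rw [ip_eq_finrank, Representation.IsIrreducible.finrank_intertwiningMap_self]
  simp

/-- irreducibility criterion -/
theorem irr_iff_ip (ρ : Representation Ω G V) :
    ρ.IsIrreducible ↔ ip ρ.character ρ.character = 1 := by
  refine ⟨ip_self_irr ρ, fun h => ?_⟩
  rw [ip_eq_finrank] at h
  have h1 : Module.finrank Ω (ρ.IntertwiningMap ρ) = 1 := by exact_mod_cast h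
  have : NeZero (Nat.card G : Ω) := ⟨by exact_mod_cast Nat.card_pos.ne'⟩
  rw [irr_iff]
  constructor
  · by_contra hcon
    push Not at hcon
    have : Subsingleton (ρ.IntertwiningMap ρ) := by
      refine ⟨fun f g => ?_⟩
      apply Representation.IntertwiningMap.ext
      ext x
      rw [hcon x]
      simp
    rw [Module.finrank_zero_of_subsingleton] at h1
    exact zero_ne_one h1
  · intro U hU
    obtain ⟨U', hc⟩ := exists_isCompl (⟨U, fun g x hx => hU g x hx⟩ : Subrepresentation ρ)
    have hc' : IsCompl U U'.toSubmodule := by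
      constructor
      · rw [disjoint_iff]
        have := disjoint_iff.1 hc.1
        exact congrArg Subrepresentation.toSubmodule this
      · rw [codisjoint_iff]
        have := codisjoint_iff.1 hc.2
        exact congrArg Subrepresentation.toSubmodule this
    -- the projection
    set P : V →ₗ[Ω] V := U.subtype ∘ₗ U.projectionOnto U'.toSubmodule hc' with hP
    have hPU : ∀ x ∈ U, P x = x := by
      intro x hx
      simp only [hP, LinearMap.comp_apply]
      rw [Submodule.projectionOnto_apply_left hc' ⟨x, hx⟩]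
      rfl
    have hPU' : ∀ x ∈ U'.toSubmodule, P x = 0 := by
      intro x hx
      simp only [hP, LinearMap.comp_apply]
      rw [(Submodule.projectionOnto_apply_eq_zero_iff hc').2 hx]
      simp
    have hcomm : ∀ g x, P (ρ g x) = ρ g (P x) := by
      intro g x
      obtain ⟨y, z, hy, hz, rfl⟩ := Submodule.codisjoint_iff_exists_add_eq.mp hc'.codisjoint x
      rw [map_add, map_add, map_add, hPU _ (hU g y hy),
        hPU' _ (U'.apply_mem_toSubmodule g hz), hPU y hy, hPU' z hz, add_zero, add_zero]
    let F : ρ.IntertwiningMap ρ := ⟨P, fun g => by ext x; exact hcomm g x⟩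
    obtain ⟨e, he, hspan⟩ := finrank_eq_one_iff'.1 h1
    obtain ⟨a, ha⟩ := hspan (Representation.IntertwiningMap.id ρ)
    obtain ⟨b, hb⟩ := hspan F
    have hb' : ∀ x, P x = b • e x := by
      intro x
      have := congrArg (fun f : ρ.IntertwiningMap ρ => f x) hb
      exact this.symm
    have ha' : ∀ x, x = a • e x := by
      intro x
      have := congrArg (fun f : ρ.IntertwiningMap ρ => f x) ha
      exact this.symm
    by_cases hb0 : b = 0
    · left
      rw [eq_bot_iff]
      intro x hx
      rw [Submodule.mem_bot, ← hPU x hx, hb' x, hb0, zero_smul]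
    · right
      rw [eq_top_iff]
      intro x _
      have h3 : x = (a * b⁻¹) • P x := by
        rw [hb' x, smul_smul, mul_assoc, inv_mul_cancel₀ hb0, mul_one]
        exact ha' x
      rw [h3]
      apply U.smul_mem
      simp only [hP, LinearMap.comp_apply]
      exact Submodule.coe_mem _

/-- irreducible representations with the same character are equivalent -/
theorem equiv_of_char {ρ : Representation Ω G V} {τ : Representation Ω G W}
    (hρ : ρ.IsIrreducible) (hτ : τ.IsIrreducible) (h : ρ.character = τ.character) :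
    Nonempty (ρ.Equiv τ) := by
  have := Fintype.ofFinite G
  have : Invertible (Nat.card G : Ω) := invertibleOfNonzero (by
    exact_mod_cast Nat.card_pos.ne')
  by_contra hcon
  have h1 := Representation.char_orthonormal τ ρ
  rw [if_neg hcon] at h1
  have h2 := ip_self_irr ρ hρ
  rw [ip_eq] at h2
  rw [← h] at h1
  rw [h1] at h2
  exact zero_ne_one h2

/-- irreducible representations with different characters: orthogonality -/
theorem ip_of_ne {ρ : Representation Ω G V} {τ : Representation Ω G W}
    (hρ : ρ.IsIrreducible) (hτ : τ.IsIrreducible) (h : ρ.character ≠ τ.character) :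
    ip ρ.character τ.character = 0 := by
  have := Fintype.ofFinite G
  have : Invertible (Nat.card G : Ω) := invertibleOfNonzero (by
    exact_mod_cast Nat.card_pos.ne')
  have h1 := Representation.char_orthonormal ρ τ
  rw [if_neg] at h1
  · rw [ip_eq]; exact h1
  · rintro ⟨e⟩
    exact h (Representation.char_iso e).symm

/-- irreducible characters: membership in `IrrSet` -/
theorem mem_irrSet {ρ : Representation Ω G V} (hρ : ρ.IsIrreducible) :
    ρ.character ∈ IrrSet Ω G := by
  obtain ⟨τ, ⟨e⟩⟩ := exists_fin ρ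
  exact ⟨_, τ, equiv_irr e hρ, (Representation.char_iso e).symm⟩

namespace P08_aux

theorem ip_irrSet_self {φ : G → Ω} (hφ : φ ∈ IrrSet Ω G) : ip φ φ = 1 := by
  obtain ⟨n, ρ, hρ, rfl⟩ := hφ
  exact ip_self_irr ρ hρ

theorem ip_irrSet_ne {φ ψ : G → Ω} (hφ : φ ∈ IrrSet Ω G) (hψ : ψ ∈ IrrSet Ω G) (h : φ ≠ ψ) :
    ip φ ψ = 0 := by
  obtain ⟨n, ρ, hρ, rfl⟩ := hφ
  obtain ⟨n', τ, hτ, rfl⟩ := hψ
  exact ip_of_ne hρ hτ h

end P08_aux

theorem irrSet_finite : (IrrSet Ω G).Finite := by
  classical
  have hli : LinearIndependent Ω (fun φ : IrrSet Ω G => (φ : G → Ω)) := by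
    rw [linearIndependent_iff']
    intro s a hs i hi
    have h1 : ip (∑ j ∈ s, a j • (j : G → Ω)) (i : G → Ω) = a i := by
      rw [ip_sum_left]
      rw [Finset.sum_eq_single i]
      · rw [ip_smul_left, ip_irrSet_self i.2, mul_one]
      · intro j _ hji
        rw [ip_smul_left, ip_irrSet_ne j.2 i.2 (fun h => hji (Subtype.ext h)), mul_zero]
      · intro h; exact absurd hi h
    rw [hs] at h1
    rw [← h1]
    have := Fintype.ofFinite G
    simp [ip_eq]
  have : FiniteDimensional Ω (G → Ω) := by
    have := Fintype.ofFinite G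
    infer_instance
  have := hli.finite_of_isNoetherian
  exact Set.toFinite _

theorem mem_irr {φ : G → Ω} : φ ∈ irr Ω G ↔ φ ∈ IrrSet Ω G := by
  unfold irr
  rw [dif_pos irrSet_finite]
  exact Set.Finite.mem_toFinset _

theorem ip_irr {φ ψ : G → Ω} (hφ : φ ∈ irr Ω G) (hψ : ψ ∈ irr Ω G) [Decidable (φ = ψ)] :
    ip φ ψ = if φ = ψ then 1 else 0 := by
  rw [mem_irr] at hφ hψ
  split_ifs with h
  · subst h
    exact ip_irrSet_self hφ
  · exact ip_irrSet_ne hφ hψ h

/-- the dual of an irreducible character -/
theorem du_mem_irr {φ : G → Ω} (hφ : φ ∈ irr Ω G) : du φ ∈ irr Ω G := by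
  rw [mem_irr] at hφ ⊢
  obtain ⟨n, ρ, hρ, rfl⟩ := hφ
  have h1 : (Representation.dual ρ).character = du ρ.character := by
    ext g
    exact Representation.char_dual ρ g
  have h2 : (Representation.dual ρ).IsIrreducible := by
    rw [irr_iff_ip, h1]
    have h3 := ip_self_irr ρ hρ
    have := Fintype.ofFinite G
    rw [ip_eq] at h3 ⊢
    rw [← h3]
    congr 1
    refine Fintype.sum_equiv (Equiv.inv G) _ _ fun g => ?_
    simp [du]
  rw [← h1]
  exact mem_irrSet h2

theorem du_du (φ : G → Ω) : du (du φ) = φ := by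
  ext g
  simp [du]

theorem dg_spec {φ : G → Ω} (hφ : φ ∈ irr Ω G) : (dg φ : Ω) = φ 1 ∧ 0 < dg φ := by
  rw [mem_irr] at hφ
  obtain ⟨n, ρ, hρ, rfl⟩ := hφ
  have h : ∃ k : ℕ, (k : Ω) = ρ.character 1 := ⟨_, (Representation.char_one ρ).symm⟩
  have h1 : (dg ρ.character : Ω) = ρ.character 1 := by
    unfold dg
    rw [dif_pos h]
    exact h.choose_spec
  refine ⟨h1, ?_⟩
  rw [Representation.char_one] at h1
  have h2 : dg ρ.character = Module.finrank Ω (Fin n → Ω) := by exact_mod_cast h1
  rw [h2]
  obtain ⟨⟨v, hv⟩, -⟩ := (irr_iff ρ).1 hρ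
  exact Module.finrank_pos_iff_exists_ne_zero.2 ⟨v, hv⟩

theorem dg_char (ρ : Representation Ω G V) : dg ρ.character = Module.finrank Ω V := by
  have h : ∃ k : ℕ, (k : Ω) = ρ.character 1 := ⟨_, (Representation.char_one ρ).symm⟩
  have h1 : (dg ρ.character : Ω) = ρ.character 1 := by
    unfold dg
    rw [dif_pos h]
    exact h.choose_spec
  rw [Representation.char_one] at h1
  exact_mod_cast h1

theorem dg_du (φ : G → Ω) : dg (du φ) = dg φ := by
  classical
  have key : ∀ a b : Ω, a = b → (if h : ∃ k : ℕ, (k : Ω) = a then h.choose else 0) =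
      if h : ∃ k : ℕ, (k : Ω) = b then h.choose else 0 := by
    rintro a _ rfl
    rfl
  unfold dg
  exact key _ _ (by simp [du])

/-- Schur: an operator commuting with an irreducible representation is a scalar -/
theorem schur {ρ : Representation Ω G V} (hρ : ρ.IsIrreducible) {T : Module.End Ω V}
    (hT : ∀ g, T * ρ g = ρ g * T) : ∃ a : Ω, T = a • 1 := by
  let F : ρ.IntertwiningMap ρ := ⟨T, fun g => hT g⟩
  obtain ⟨a, ha⟩ :=
    (Representation.IsIrreducible.algebraMap_intertwiningMap_bijective_of_isAlgClosed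
      (ρ := ρ)).surjective F
  refine ⟨a, ?_⟩
  ext x
  have h1 := congrArg (fun f : ρ.IntertwiningMap ρ => f x) ha
  have h2 : F x = T x := rfl
  rw [← h2, ← h1]
  rw [Algebra.algebraMap_eq_smul_one]
  rfl

/-- an irreducible representation has positive dimension -/
theorem irr_pos {ρ : Representation Ω G V} (hρ : ρ.IsIrreducible) :
    0 < Module.finrank Ω V := by
  obtain ⟨⟨v, hv⟩, -⟩ := (irr_iff ρ).1 hρ
  exact Module.finrank_pos_iff_exists_ne_zero.2 ⟨v, hv⟩

/-- an invariant subspace of an irreducible representation is `⊥` or `⊤` -/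
theorem irr_sub {ρ : Representation Ω G V} (hρ : ρ.IsIrreducible) {U : Submodule Ω V}
    (hU : ∀ g, ∀ x ∈ U, ρ g x ∈ U) : U = ⊥ ∨ U = ⊤ :=
  ((irr_iff ρ).1 hρ).2 U hU

theorem irr_of_sub {ρ : Representation Ω G V} (hV : 0 < Module.finrank Ω V)
    (h : ∀ U : Submodule Ω V, (∀ g, ∀ x ∈ U, ρ g x ∈ U) → U = ⊥ ∨ U = ⊤) :
    ρ.IsIrreducible :=
  (irr_iff ρ).2 ⟨Module.finrank_pos_iff_exists_ne_zero.1 hV, h⟩

namespace P08_aux

/-- the character is the sum of the roots of the characteristic polynomial, which are roots of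
unity -/
theorem char_sum (ρ : Representation Ω G V) {n : ℕ} {g : G} (hg : g ^ n = 1) :
    ρ.character g = (ρ g).charpoly.roots.sum ∧ ∀ ζ ∈ (ρ g).charpoly.roots, ζ ^ n = 1 := by
  constructor
  · exact Module.End.trace_eq_sum_roots_charpoly_of_splits (IsAlgClosed.splits _)
  · intro ζ hζ
    have h1 : (ρ g).charpoly.IsRoot ζ := Polynomial.isRoot_of_mem_roots hζ
    rw [← Module.End.hasEigenvalue_iff_isRoot_charpoly] at h1
    obtain ⟨v, hv⟩ := h1.exists_hasEigenvector
    have h2 : ((ρ g) ^ n) v = ζ ^ n • v := hv.pow_apply n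
    rw [← map_pow, hg, map_one] at h2
    have h3 : (ζ ^ n - 1) • v = 0 := by
      rw [sub_smul, one_smul, ← h2]
      simp
    rcases smul_eq_zero.1 h3 with h4 | h4
    · exact sub_eq_zero.1 h4
    · exact absurd h4 hv.2

theorem map_sum_roots (σ : RingAut Ω) (s : Multiset Ω) : σ s.sum = (s.map σ).sum :=
  map_multiset_sum σ s

end P08_aux

/-- the values of a character: if `σ` fixes all `n`-th roots of unity, `g ^ n = 1`, then `σ` fixes
`ρ.character g` (the trace is the sum of the roots of the characteristic polynomial, which are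
`n`-th roots of unity). -/
theorem char_fixed (ρ : Representation Ω G V) {n : ℕ} (hn : n ≠ 0) {g : G} (hg : g ^ n = 1)
    {σ : RingAut Ω} (hσ : ∀ ζ : Ω, ζ ^ n = 1 → σ ζ = ζ) :
    σ (ρ.character g) = ρ.character g := by
  obtain ⟨h1, h2⟩ := char_sum ρ hg
  rw [h1, map_sum_roots]
  congr 1
  conv_rhs => rw [← Multiset.map_id (ρ g).charpoly.roots]
  exact Multiset.map_congr rfl fun ζ hζ => hσ ζ (h2 ζ hζ)

/-- two automorphisms commute on character values (both act on the roots of unity by powers) -/
theorem char_comm (ρ : Representation Ω G V) (g : G) (σ τ : RingAut Ω) :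
    σ (τ (ρ.character g)) = τ (σ (ρ.character g)) := by
  have hn : Nat.card G ≠ 0 := Nat.card_pos.ne'
  have : NeZero (Nat.card G) := ⟨hn⟩
  obtain ⟨h1, h2⟩ := char_sum ρ (pow_card_eq_one' (x := g))
  obtain ⟨ζ, hζ⟩ := HasEnoughRootsOfUnity.exists_primitiveRoot Ω (Nat.card G)
  have key : ∀ α : RingAut Ω, ∃ k : ℕ, ∀ ξ : Ω, ξ ^ Nat.card G = 1 → α ξ = ξ ^ k := by
    intro α
    have h3 : (α ζ) ^ Nat.card G = 1 := by rw [← map_pow, hζ.pow_eq_one, map_one]
    obtain ⟨k, -, hk⟩ := hζ.eq_pow_of_pow_eq_one h3
    refine ⟨k, fun ξ hξ => ?_⟩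
    obtain ⟨j, -, hj⟩ := hζ.eq_pow_of_pow_eq_one hξ
    rw [← hj, map_pow, ← hk, ← pow_mul, ← pow_mul, mul_comm]
  obtain ⟨a, ha⟩ := key σ
  obtain ⟨b, hb⟩ := key τ
  rw [h1, map_sum_roots, map_sum_roots, map_sum_roots, map_sum_roots, Multiset.map_map,
    Multiset.map_map]
  congr 1
  refine Multiset.map_congr rfl fun ξ hξ => ?_
  simp only [Function.comp_apply]
  have h4 := h2 ξ hξ
  have h5 : (ξ ^ b) ^ Nat.card G = 1 := by rw [← pow_mul, mul_comm, pow_mul, h4, one_pow]
  have h6 : (ξ ^ a) ^ Nat.card G = 1 := by rw [← pow_mul, mul_comm, pow_mul, h4, one_pow]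
  rw [hb ξ h4, ha ξ h4, ha _ h5, hb _ h6, ← pow_mul, ← pow_mul, mul_comm]

end

end Parker
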