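import Pool.Agent.Parker.Defs
import Pool.Agent.Parker.P01
import Pool.Agent.Parker.P08

/-!
# MP_6c3636_al, module N03: irreducible representations in characteristic two (helper7)

`k` algebraically closed of characteristic two, `ρ` irreducible and not trivial. Then there is an
element `y` of the group algebra such that `y - y*` acts as the identity.
-/

namespace Parker

universe u v w

noncomputable section

variable {k : Type} [Field k] {G : Type u} [Group G] [Finite G]
  {V : Type v} [AddCommGroup V] [Module k V] [FiniteDimensional k V]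

/-- the dual representation on `V → k`: `(g φ)(x) = φ (g⁻¹ x)` -/
def dua (ρ : Representation k G V) : Representation k G (Module.Dual k V) where
  toFun g := (ρ g⁻¹).dualMap
  map_one' := by
    ext φ x
    simp
  map_mul' g h := by
    ext φ x
    simp [mul_inv_rev]

open P08_aux

namespace N03_aux

open scoped MonoidAlgebra

omit [FiniteDimensional k V] in
theorem act_of_alg (ρ : Representation k G V) (r : k[G]) :
    act ρ (fun g => r.coeff g) = ρ.asAlgebraHom r := by
  let _ := Fintype.ofFinite G
  rw [act_eq, Representation.asAlgebraHom_def, MonoidAlgebra.lift_apply, Finsupp.sum_fintype]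
  intro g
  rw [zero_smul]

end N03_aux

open N03_aux

/-- density theorem (Burnside): `act ρ` is surjective onto the endomorphisms. (`jacobson_density`
with `R = MonoidAlgebra k G` or directly; `V` is a simple module, its endomorphisms are scalars.) -/
theorem act_surj [IsAlgClosed k] {ρ : Representation k G V} (hρ : ρ.IsIrreducible)
    (T : Module.End k V) : ∃ y : G → k, act ρ y = T := by
  classical
  have hs : IsSimpleModule (MonoidAlgebra k G) ρ.asModule :=
    (Representation.irreducible_iff_isSimpleModule_asModule ρ).mp hρ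
  have : FiniteDimensional k ρ.asModule := inferInstance
  let T' : ρ.asModule → ρ.asModule := fun m => ρ.asModuleEquiv.symm (T (ρ.asModuleEquiv m))
  let f : Module.End (Module.End (MonoidAlgebra k G) ρ.asModule) ρ.asModule :=
    { toFun := T'
      map_add' := fun x y => by simp only [T', map_add]
      map_smul' := fun e m => by
        obtain ⟨c, hc⟩ := (IsSimpleModule.algebraMap_end_bijective_of_isAlgClosed
          (A := MonoidAlgebra k G) (V := ρ.asModule) k).2 e
        have h1 : ∀ x : ρ.asModule, e • x = c • x := by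
          intro x
          rw [← hc]
          rfl
        rw [h1 m]
        simp only [T', map_smul, RingHom.id_apply]
        rw [h1] }
  let b := Module.finBasis k V
  obtain ⟨r, hr⟩ := jacobson_density f (Finset.univ.image fun i => ρ.asModuleEquiv.symm (b i))
  refine ⟨fun g => r.coeff g, ?_⟩
  rw [act_of_alg]
  refine b.ext fun i => ?_
  have h1 := hr (ρ.asModuleEquiv.symm (b i)) (Finset.mem_image_of_mem _ (Finset.mem_univ i))
  have h2 := congrArg ρ.asModuleEquiv h1
  rw [Representation.asModuleEquiv_map_smul, LinearEquiv.apply_symm_apply] at h2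
  rw [← h2]
  change _ = T (b i)
  simp [f, T']

namespace N03_aux

/-- the endomorphism ring is simple: an operator `act ρ y₀` that is not zero generates `1` -/
theorem exists_simple [IsAlgClosed k] {ρ : Representation k G V} (hρ : ρ.IsIrreducible)
    {y₀ : G → k} (h0 : act ρ y₀ ≠ 0) : ∃ (n : ℕ) (α β : Fin n → G → k),
      act ρ (∑ i, conv (conv (α i) y₀) (β i)) = 1 := by
  obtain ⟨w, hw⟩ : ∃ w, act ρ y₀ w ≠ 0 := by
    by_contra hcon
    push Not at hcon
    exact h0 (LinearMap.ext hcon)
  let b := Module.finBasis k V
  obtain ⟨φ, hφ⟩ : ∃ φ : Module.Dual k V, φ (act ρ y₀ w) = 1 := by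
    obtain ⟨φ, hφ⟩ : ∃ φ : Module.Dual k V, φ (act ρ y₀ w) ≠ 0 := by
      by_contra hcon
      push Not at hcon
      exact hw ((Module.forall_dual_apply_eq_zero_iff k _).1 hcon)
    refine ⟨(φ (act ρ y₀ w))⁻¹ • φ, ?_⟩
    rw [LinearMap.smul_apply, smul_eq_mul, inv_mul_cancel₀ hφ]
  choose α hα using fun i => act_surj hρ (LinearMap.smulRight φ (b i))
  choose β hβ using fun i => act_surj hρ (LinearMap.smulRight (b.coord i) w)
  refine ⟨_, α, β, ?_⟩
  rw [act_sum]
  refine LinearMap.ext fun x => ?_
  have h1 : ∀ i, (act ρ (conv (conv (α i) y₀) (β i))) x = b.coord i x • b i := by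
    intro i
    rw [act_conv, act_conv, hα, hβ, Module.End.mul_apply, Module.End.mul_apply]
    simp only [LinearMap.smulRight_apply, map_smul, hφ, one_smul]
  rw [LinearMap.sum_apply, Finset.sum_congr rfl fun i _ => h1 i]
  exact b.sum_repr x

/-- two irreducible representations which are not isomorphic are separated -/
theorem exists_zero_one [IsAlgClosed k] {W : Type w} [AddCommGroup W] [Module k W]
    [FiniteDimensional k W] {ρ : Representation k G V} (hρ : ρ.IsIrreducible)
    {τ : Representation k G W} (hτ : τ.IsIrreducible)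
    (hne : ¬ ∃ e : V ≃ₗ[k] W, ∀ g x, e (ρ g x) = τ g (e x)) :
    ∃ y : G → k, act ρ y = 0 ∧ act τ y = 1 := by
  classical
  by_cases hcase : ∃ y₀ : G → k, act ρ y₀ = 0 ∧ act τ y₀ ≠ 0
  · obtain ⟨y₀, h1, h2⟩ := hcase
    obtain ⟨n, α, β, h3⟩ := exists_simple hτ h2
    refine ⟨_, ?_, h3⟩
    rw [act_sum]
    refine Finset.sum_eq_zero fun i _ => ?_
    rw [act_conv, act_conv, h1, mul_zero, zero_mul]
  · exfalso
    push Not at hcase
    have hker : ∀ y y' : G → k, act ρ y = act ρ y' → act τ y = act τ y' := by
      intro y y' h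
      have h1 := hcase (y - y') (by rw [act_sub, h, sub_self])
      rw [act_sub] at h1
      exact sub_eq_zero.1 h1
    obtain ⟨⟨v, hv⟩, hV⟩ := (irr_iff ρ).1 hρ
    obtain ⟨⟨w₀, hw₀⟩, hW⟩ := (irr_iff τ).1 hτ
    obtain ⟨φ, hφ⟩ : ∃ φ : Module.Dual k V, φ v ≠ 0 := by
      by_contra hcon
      push Not at hcon
      exact hv ((Module.forall_dual_apply_eq_zero_iff k _).1 hcon)
    choose Y hY using fun x : V => act_surj hρ (LinearMap.smulRight φ x)
    have hYv : act τ (Y v) ≠ 0 := by
      intro h0
      have h1 : act ρ (Y v) ≠ 0 := by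
        intro h2
        have h3 := congrArg (fun T : Module.End k V => T v) h2
        simp only [hY, LinearMap.smulRight_apply, LinearMap.zero_apply] at h3
        rcases smul_eq_zero.1 h3 with h4 | h4
        · exact hφ h4
        · exact hv h4
      obtain ⟨n, α, β, h3⟩ := exists_simple hρ h1
      have h4 : act ρ (∑ i, conv (conv (α i) (Y v)) (β i)) = act ρ (Pi.single 1 1) := by
        rw [h3, act_single, map_one]
      have h5 := hker _ _ h4
      rw [act_single, map_one, act_sum] at h5
      have h6 : ∑ i, act τ (conv (conv (α i) (Y v)) (β i)) = 0 := by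
        refine Finset.sum_eq_zero fun i _ => ?_
        rw [act_conv, act_conv, h0, mul_zero, zero_mul]
      rw [h6] at h5
      have h7 := congrArg (fun T : Module.End k W => T w₀) h5
      simp only [LinearMap.zero_apply, Module.End.one_apply] at h7
      exact hw₀ h7.symm
    obtain ⟨w', hw'⟩ : ∃ w', act τ (Y v) w' ≠ 0 := by
      by_contra hcon
      push Not at hcon
      exact hYv (LinearMap.ext hcon)
    let f : V →ₗ[k] W :=
      { toFun := fun x => act τ (Y x) w'
        map_add' := fun x x' => by
          have h1 : act τ (Y (x + x')) = act τ (Y x + Y x') := by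
            apply hker
            rw [act_add, hY, hY, hY]
            refine LinearMap.ext fun z => ?_
            simp
          rw [h1, act_add, LinearMap.add_apply]
        map_smul' := fun c x => by
          have h1 : act τ (Y (c • x)) = act τ (c • Y x) := by
            apply hker
            rw [act_smul, hY, hY]
            refine LinearMap.ext fun z => ?_
            rw [LinearMap.smul_apply, LinearMap.smulRight_apply, LinearMap.smulRight_apply,
              smul_comm]
          rw [h1, act_smul, LinearMap.smul_apply, RingHom.id_apply] }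
    have hf : ∀ g x, f (ρ g x) = τ g (f x) := by
      intro g x
      have h1 : act τ (Y (ρ g x)) = act τ (conv (Pi.single g 1) (Y x)) := by
        apply hker
        rw [act_conv, act_single, hY, hY]
        refine LinearMap.ext fun z => ?_
        simp
      change act τ (Y (ρ g x)) w' = τ g (act τ (Y x) w')
      rw [h1, act_conv, act_single, Module.End.mul_apply]
    have hinj : LinearMap.ker f = ⊥ := by
      rcases hV (LinearMap.ker f) (fun g x hx => by
        rw [LinearMap.mem_ker] at hx ⊢
        rw [hf, hx, map_zero]) with h | h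
      · exact h
      · exfalso
        have : v ∈ LinearMap.ker f := by rw [h]; trivial
        exact hw' (LinearMap.mem_ker.1 this)
    have hsurj : LinearMap.range f = ⊤ := by
      rcases hW (LinearMap.range f) (fun g x hx => by
        obtain ⟨z, rfl⟩ := hx
        exact ⟨ρ g z, hf g z⟩) with h | h
      · exfalso
        have : f v ∈ LinearMap.range f := ⟨v, rfl⟩
        rw [h] at this
        exact hw' ((Submodule.mem_bot k).1 this)
      · exact h
    exact hne ⟨LinearEquiv.ofBijective f ⟨LinearMap.ker_eq_bot.1 hinj, LinearMap.range_eq_top.1 hsurj⟩,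
      hf⟩

end N03_aux

/-- density for two irreducible representations which are not isomorphic -/
theorem act_surj₂ [IsAlgClosed k] {W : Type w} [AddCommGroup W] [Module k W]
    [FiniteDimensional k W] {ρ : Representation k G V} (hρ : ρ.IsIrreducible)
    {τ : Representation k G W} (hτ : τ.IsIrreducible)
    (hne : ¬ ∃ e : V ≃ₗ[k] W, ∀ g x, e (ρ g x) = τ g (e x))
    (T : Module.End k V) (T' : Module.End k W) :
    ∃ y : G → k, act ρ y = T ∧ act τ y = T' := by
  obtain ⟨y₁, h1, h2⟩ := N03_aux.exists_zero_one hρ hτ hne
  have hne' : ¬ ∃ e : W ≃ₗ[k] V, ∀ g x, e (τ g x) = ρ g (e x) := by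
    rintro ⟨e, he⟩
    apply hne
    refine ⟨e.symm, fun g x => ?_⟩
    apply e.injective
    rw [he, LinearEquiv.apply_symm_apply, LinearEquiv.apply_symm_apply]
  obtain ⟨y₂, h3, h4⟩ := N03_aux.exists_zero_one hτ hρ hne'
  obtain ⟨a, ha⟩ := act_surj hρ T
  obtain ⟨b, hb⟩ := act_surj hτ T'
  refine ⟨conv y₂ a + conv y₁ b, ?_, ?_⟩
  · rw [act_add, act_conv, act_conv, h4, ha, h1, one_mul, zero_mul, add_zero]
  · rw [act_add, act_conv, act_conv, h3, h2, hb, one_mul, zero_mul, zero_add]

/-- the dual of an irreducible representation is irreducible -/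
theorem dua_irr {ρ : Representation k G V} (hρ : ρ.IsIrreducible) : (dua ρ).IsIrreducible := by
  obtain ⟨⟨v, hv⟩, hV⟩ := (irr_iff ρ).1 hρ
  rw [irr_iff]
  constructor
  · obtain ⟨φ, hφ⟩ : ∃ φ : Module.Dual k V, φ v ≠ 0 := by
      by_contra hcon
      push Not at hcon
      exact hv ((Module.forall_dual_apply_eq_zero_iff k _).1 hcon)
    refine ⟨φ, fun h => hφ ?_⟩
    rw [h, LinearMap.zero_apply]
  · intro U hU
    have h1 : ∀ g, ∀ x ∈ U.dualCoannihilator, ρ g x ∈ U.dualCoannihilator := by
      intro g x hx
      rw [Submodule.mem_dualCoannihilator] at hx ⊢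
      intro φ hφ
      have h2 := hx _ (hU g⁻¹ φ hφ)
      simpa [dua] using h2
    have h3 : U.dualCoannihilator.dualAnnihilator = U :=
      Subspace.dualCoannihilator_dualAnnihilator_eq
    rcases hV _ h1 with h | h
    · right
      rw [← h3, h, Submodule.dualAnnihilator_bot]
    · left
      rw [← h3, h, Submodule.dualAnnihilator_top]

/-- the action of `y*` is the transpose of the action of `y` on the dual -/
theorem act_dua (ρ : Representation k G V) (y : G → k) (φ : Module.Dual k V) (x : V) :
    (act (dua ρ) y φ) x = φ (act ρ (du y) x) := by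
  let _ := Fintype.ofFinite G
  rw [act_eq, act_eq, LinearMap.sum_apply, LinearMap.sum_apply, LinearMap.sum_apply, map_sum,
    ← Equiv.sum_comp (Equiv.inv G)]
  refine Finset.sum_congr rfl fun g _ => ?_
  simp [dua, du]

/-- the case that `ρ` is not self dual: choose `y` acting as `1` on `V` and as `0` on the dual; then
`du y` acts as `0` on `V` -/
theorem exists_one_of_not_dual [IsAlgClosed k] {ρ : Representation k G V}
    (hρ : ρ.IsIrreducible)
    (hne : ¬ ∃ e : V ≃ₗ[k] Module.Dual k V, ∀ g x, e (ρ g x) = dua ρ g (e x)) :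
    ∃ y : G → k, act ρ (y - du y) = 1 := by
  obtain ⟨y, h1, h2⟩ := act_surj₂ hρ (dua_irr hρ) hne 1 0
  refine ⟨y, ?_⟩
  have h3 : act ρ (du y) = 0 := by
    refine LinearMap.ext fun x => ?_
    rw [LinearMap.zero_apply]
    refine (Module.forall_dual_apply_eq_zero_iff k _).1 fun φ => ?_
    rw [← act_dua, h2, LinearMap.zero_apply, LinearMap.zero_apply]
  rw [act_sub, h1, h3, sub_zero]

namespace N03_aux

omit [FiniteDimensional k V] in
theorem form_act (ρ : Representation k G V) {B : LinearMap.BilinForm k V}
    (hB : ∀ g x y, B (ρ g x) (ρ g y) = B x y) (s : G → k) (x y : V) :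
    B (act ρ s x) y = B x (act ρ (du s) y) := by
  let _ := Fintype.ofFinite G
  have h1 : ∀ g, B (ρ g x) y = B x (ρ g⁻¹ y) := by
    intro g
    rw [← hB g x (ρ g⁻¹ y), ← Module.End.mul_apply, ← map_mul, mul_inv_cancel, map_one,
      Module.End.one_apply]
  rw [act_eq, act_eq, LinearMap.sum_apply, LinearMap.sum_apply, map_sum, LinearMap.sum_apply,
    map_sum, ← Equiv.sum_comp (Equiv.inv G) fun g => B x ((du s g • ρ g) y)]
  refine Finset.sum_congr rfl fun g _ => ?_
  rw [LinearMap.smul_apply, LinearMap.smul_apply, map_smul, LinearMap.smul_apply, h1, map_smul]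
  simp [du]

omit [FiniteDimensional k V] in
/-- a nonzero invariant form is nondegenerate -/
theorem form_nondeg {ρ : Representation k G V} (hρ : ρ.IsIrreducible)
    {B : LinearMap.BilinForm k V} (hB : ∀ g x y, B (ρ g x) (ρ g y) = B x y) (h0 : B ≠ 0) {z : V}
    (hz : ∀ x, B x z = 0) : z = 0 := by
  obtain ⟨-, hV⟩ := (irr_iff ρ).1 hρ
  let U : Submodule k V :=
    { carrier := {z | ∀ x, B x z = 0}
      add_mem' := fun {a b} ha hb x => by rw [map_add, ha x, hb x, add_zero]
      zero_mem' := fun x => by rw [map_zero]
      smul_mem' := fun c a ha x => by rw [map_smul, ha x, smul_zero] }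
  have hU : ∀ g, ∀ a ∈ U, ρ g a ∈ U := by
    intro g a ha x
    rw [← hB g⁻¹ x (ρ g a), ← Module.End.mul_apply (ρ g⁻¹) (ρ g), ← map_mul, inv_mul_cancel,
      map_one, Module.End.one_apply]
    exact ha _
  rcases hV U hU with h | h
  · have : z ∈ U := hz
    rw [h] at this
    exact (Submodule.mem_bot k).1 this
  · exfalso
    apply h0
    refine LinearMap.ext fun x => LinearMap.ext fun y => ?_
    have : y ∈ U := by rw [h]; trivial
    exact this x

/-- two invariant forms are proportional -/
theorem form_prop [IsAlgClosed k] {ρ : Representation k G V} (hρ : ρ.IsIrreducible)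
    {B B' : LinearMap.BilinForm k V} (hB : ∀ g x y, B (ρ g x) (ρ g y) = B x y)
    (hB' : ∀ g x y, B' (ρ g x) (ρ g y) = B' x y) (h0 : B ≠ 0) :
    ∃ c : k, ∀ x y, B' x y = c * B x y := by
  obtain ⟨v, y, hvy⟩ : ∃ v y, B v y ≠ 0 := by
    by_contra hcon
    push Not at hcon
    exact h0 (LinearMap.ext fun x => LinearMap.ext fun y => hcon x y)
  refine ⟨B' v y / B v y, fun x z => ?_⟩
  obtain ⟨s, hs⟩ := act_surj hρ (LinearMap.smulRight (LinearMap.flip B z) v)
  have h1 : ∀ x, B x z * B v y = B x (act ρ (du s) y) := by
    intro x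
    rw [← form_act ρ hB, hs, LinearMap.smulRight_apply, map_smul, LinearMap.smul_apply,
      LinearMap.flip_apply, smul_eq_mul]
  have h2 : ∀ x, B x z * B' v y = B' x (act ρ (du s) y) := by
    intro x
    rw [← form_act ρ hB', hs, LinearMap.smulRight_apply, map_smul, LinearMap.smul_apply,
      LinearMap.flip_apply, smul_eq_mul]
  have h3 : act ρ (du s) y - B v y • z = 0 := by
    refine form_nondeg hρ hB h0 fun x => ?_
    rw [map_sub, map_smul, ← h1, smul_eq_mul, mul_comm, sub_self]
  have h4 := h2 x
  rw [sub_eq_zero.1 h3, map_smul, smul_eq_mul] at h4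
  field_simp
  linear_combination -h4

end N03_aux

/-- (Fong) an invariant bilinear form `B` of a nontrivial irreducible representation in
characteristic two satisfies `B x x = 0`: it is symmetric or zero by Schur (`B x y` and `B y x` are
proportional with factor `c`, `c² = 1`, `c = 1`), `x ↦ B x x` is additive and
`B (a x) (a x) = a² B x x`, so `{x | B x x = 0}` is an invariant subspace; if it is zero, then
`ρ g x - x` is in it for all `x` (`B (gx - x) (gx - x) = 2 B x x - 2 B (gx) x = 0`), so `ρ g = 1`. -/
theorem form_alt [IsAlgClosed k] (h2 : (2 : k) = 0) {ρ : Representation k G V}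
    (hρ : ρ.IsIrreducible) (hn : ∃ g, ρ g ≠ 1) {B : LinearMap.BilinForm k V}
    (hB : ∀ g x y, B (ρ g x) (ρ g y) = B x y) (x : V) : B x x = 0 := by
  by_cases h0 : B = 0
  · rw [h0, LinearMap.zero_apply, LinearMap.zero_apply]
  obtain ⟨c, hc⟩ := form_prop hρ hB (B' := LinearMap.flip B)
    (fun g x y => by rw [LinearMap.flip_apply, LinearMap.flip_apply, hB]) h0
  simp only [LinearMap.flip_apply] at hc
  by_cases hc1 : c = 1
  · have hsymm : ∀ x y, B y x = B x y := by
      intro x y
      rw [hc x y, hc1, one_mul]
    obtain ⟨-, hV⟩ := (irr_iff ρ).1 hρ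
    let U : Submodule k V :=
      { carrier := {z | B z z = 0}
        add_mem' := fun {a b} ha hb => by
          change B a a = 0 at ha
          change B b b = 0 at hb
          change B (a + b) (a + b) = 0
          rw [map_add, map_add, LinearMap.add_apply, LinearMap.add_apply, ha, hb,
            hsymm a b]
          linear_combination B a b * h2
        zero_mem' := by
          change B 0 0 = 0
          rw [map_zero]
        smul_mem' := fun c a ha => by
          change B a a = 0 at ha
          change B (c • a) (c • a) = 0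
          rw [map_smul, map_smul, LinearMap.smul_apply, ha, smul_zero, smul_zero] }
    have hU : ∀ g, ∀ a ∈ U, ρ g a ∈ U := by
      intro g a ha
      change B a a = 0 at ha
      change B (ρ g a) (ρ g a) = 0
      rw [hB, ha]
    rcases hV U hU with h | h
    · exfalso
      obtain ⟨g, hg⟩ := hn
      apply hg
      refine LinearMap.ext fun a => ?_
      have h1 : ρ g a - a ∈ U := by
        change B (ρ g a - a) (ρ g a - a) = 0
        rw [map_sub, map_sub, LinearMap.sub_apply, LinearMap.sub_apply, hB, hsymm (ρ g a) a]
        linear_combination (B a a - B (ρ g a) a) * h2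
      rw [h] at h1
      rw [Module.End.one_apply]
      exact sub_eq_zero.1 ((Submodule.mem_bot k).1 h1)
    · have : x ∈ U := by rw [h]; trivial
      exact this
  · have h1 := hc x x
    have h3 : (1 - c) * B x x = 0 := by linear_combination h1
    rcases mul_eq_zero.1 h3 with h4 | h4
    · exact absurd (sub_eq_zero.1 h4).symm hc1
    · exact h4

/-- an alternating form is `τ(x,y) - τ(y,x)` for a bilinear form `τ` (upper triangular part of the
Gram matrix in some basis) -/
theorem alt_split {B : LinearMap.BilinForm k V} (hB : ∀ x, B x x = 0) :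
    ∃ τ : LinearMap.BilinForm k V, ∀ x y, B x y = τ x y - τ y x := by
  classical
  let b := Module.finBasis k V
  let M : Matrix (Fin (Module.finrank k V)) (Fin (Module.finrank k V)) k :=
    Matrix.of fun i j => if i < j then B (b i) (b j) else 0
  let τ : LinearMap.BilinForm k V := Matrix.toBilin b M
  have hτ : ∀ i j, τ (b i) (b j) = if i < j then B (b i) (b j) else 0 := by
    intro i j
    have h1 := LinearMap.BilinForm.toMatrix_apply b (Matrix.toBilin b M) i j
    rw [LinearMap.BilinForm.toMatrix_toBilin] at h1
    exact h1.symm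
  have hanti : ∀ x y, B x y = - B y x := by
    intro x y
    have h1 := hB (x + y)
    rw [map_add, map_add, LinearMap.add_apply, LinearMap.add_apply, hB x, hB y] at h1
    linear_combination h1
  have h2 : B = τ - LinearMap.flip τ := by
    refine LinearMap.BilinForm.ext_basis b fun i j => ?_
    rw [LinearMap.sub_apply, LinearMap.sub_apply, LinearMap.flip_apply, hτ, hτ]
    rcases lt_trichotomy i j with h | h | h
    · rw [if_pos h, if_neg (not_lt_of_gt h), sub_zero]
    · rw [h, if_neg (lt_irrefl _), sub_zero, hB]
    · rw [if_neg (not_lt_of_gt h), if_pos h, zero_sub]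
      exact hanti _ _
  refine ⟨τ, fun x y => ?_⟩
  conv_lhs => rw [h2]
  rw [LinearMap.sub_apply, LinearMap.sub_apply, LinearMap.flip_apply]

/-- the self dual case: the isomorphism gives a nondegenerate invariant form `B`, alternating by
`form_alt`; write `B x y = τ x y - τ y x`, `τ x y = B (T x) y`, choose `y` with `act ρ y = T`
(`act_surj`). Then `act ρ (du y)` is the adjoint `T†` of `T`, `B (T† x) y = B x (T y)` and
`B ((T - T†) x) y = B x y` (`B` is symmetric since `-1 = 1`), so `T - T† = 1`. -/
theorem exists_one_of_dual [IsAlgClosed k] (h2 : (2 : k) = 0) {ρ : Representation k G V}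
    (hρ : ρ.IsIrreducible) (hn : ∃ g, ρ g ≠ 1)
    (he : ∃ e : V ≃ₗ[k] Module.Dual k V, ∀ g x, e (ρ g x) = dua ρ g (e x)) :
    ∃ y : G → k, act ρ (y - du y) = 1 := by
  obtain ⟨e, he⟩ := he
  let B : LinearMap.BilinForm k V := e.toLinearMap
  have hBe : ∀ x y, B x y = e x y := fun _ _ => rfl
  have hB : ∀ g x y, B (ρ g x) (ρ g y) = B x y := by
    intro g x y
    rw [hBe, hBe, he]
    simp [dua]
  have halt := form_alt h2 hρ hn hB
  obtain ⟨τ, hτ⟩ := alt_split halt
  obtain ⟨s, hs⟩ := act_surj hρ (e.symm.toLinearMap ∘ₗ τ)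
  have h1 : ∀ x y, B (act ρ s x) y = τ x y := by
    intro x y
    rw [hs, hBe, LinearMap.comp_apply, LinearEquiv.coe_coe, LinearEquiv.apply_symm_apply]
  have hanti : ∀ x y, B x y = - B y x := by
    intro x y
    rw [hτ x y, hτ y x]
    ring
  refine ⟨s, LinearMap.ext fun x => e.injective (LinearMap.ext fun y => ?_)⟩
  have h3 : B (act ρ (du s) x) y = - τ y x := by
    rw [hanti, ← form_act ρ hB, h1]
  rw [Module.End.one_apply, ← hBe, ← hBe, act_sub, LinearMap.sub_apply, map_sub,
    LinearMap.sub_apply, h1, h3, hτ x y]
  linear_combination τ y x * h2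

theorem exists_one [IsAlgClosed k] (h2 : (2 : k) = 0) {ρ : Representation k G V}
    (hρ : ρ.IsIrreducible) (hn : ∃ g, ρ g ≠ 1) : ∃ y : G → k, act ρ (y - du y) = 1 := by
  by_cases h : ∃ e : V ≃ₗ[k] Module.Dual k V, ∀ g x, e (ρ g x) = dua ρ g (e x)
  · exact exists_one_of_dual h2 hρ hn h
  · exact exists_one_of_not_dual hρ h

end

end Parker
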