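import Pool.Agent.Parker.Defs
import Pool.Agent.Parker.P01
import Pool.Agent.Parker.P08

/-!
# MP_6c3636_al, module P05: twisting a representation by an automorphism of `Ω` (helper7)
-/

namespace Parker

universe u v

noncomputable section

variable {Ω : Type} [Field Ω] {G : Type u} [Group G] {n : ℕ}

/-- the representation `ρ` on `Fin n → Ω` with `σ` applied to the matrix entries -/
def tw (σ : RingAut Ω) (ρ : Representation Ω G (Fin n → Ω)) :
    Representation Ω G (Fin n → Ω) where
  toFun g := Matrix.toLin' ((LinearMap.toMatrix' (ρ g)).map σ)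
  map_one' := by
    rw [map_one]
    have h : (LinearMap.toMatrix' (1 : (Fin n → Ω) →ₗ[Ω] (Fin n → Ω))) = 1 :=
      LinearMap.toMatrix'_id
    rw [h, Matrix.map_one _ (map_zero σ) (map_one σ), Matrix.toLin'_one]
    rfl
  map_mul' x y := by
    rw [map_mul, LinearMap.toMatrix'_mul, Matrix.map_mul, Matrix.toLin'_mul]
    rfl

theorem tw_apply (σ : RingAut Ω) (ρ : Representation Ω G (Fin n → Ω)) (g : G) :
    tw σ ρ g = Matrix.toLin' ((LinearMap.toMatrix' (ρ g)).map σ) := rfl

namespace P05_aux

/-- applying `σ` to the entries of a matrix, semilinearity -/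
theorem map_mulVec (σ : RingAut Ω) (A : Matrix (Fin n) (Fin n) Ω) (x : Fin n → Ω) :
    (A.map σ).mulVec (fun i => σ (x i)) = fun i => σ (A.mulVec x i) := by
  funext i
  simp only [Matrix.mulVec, dotProduct, Matrix.map_apply, map_sum, map_mul]

end P05_aux

/-- semilinearity -/
theorem tw_apply_comp (σ : RingAut Ω) (ρ : Representation Ω G (Fin n → Ω)) (g : G)
    (x : Fin n → Ω) : tw σ ρ g (fun i => σ (x i)) = fun i => σ (ρ g x i) := by
  rw [tw_apply, Matrix.toLin'_apply, P05_aux.map_mulVec]
  funext i
  rw [LinearMap.toMatrix'_mulVec]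

theorem tw_char (σ : RingAut Ω) (ρ : Representation Ω G (Fin n → Ω)) (g : G) :
    (tw σ ρ).character g = σ (ρ.character g) := by
  have h1 : (tw σ ρ).character g =
      LinearMap.trace Ω (Fin n → Ω) (Matrix.toLin' ((LinearMap.toMatrix' (ρ g)).map σ)) := rfl
  have h2 : ρ.character g =
      LinearMap.trace Ω (Fin n → Ω) (Matrix.toLin' (LinearMap.toMatrix' (ρ g))) := by
    rw [Matrix.toLin'_toMatrix']
    rfl
  rw [h1, h2, Matrix.trace_toLin'_eq, Matrix.trace_toLin'_eq]
  simp only [Matrix.trace, Matrix.diag_apply, Matrix.map_apply, map_sum]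

namespace P05_aux

theorem act_tw [Finite G] (σ : RingAut Ω) (ρ : Representation Ω G (Fin n → Ω)) (s : G → Ω) :
    act (tw σ ρ) (fun g => σ (s g)) =
      Matrix.toLin' ((LinearMap.toMatrix' (act ρ s)).map σ) := by
  apply LinearMap.toMatrix'.injective
  rw [LinearMap.toMatrix'_toLin']
  unfold act
  rw [map_sum, map_sum]
  ext i j
  simp only [Matrix.sum_apply, Matrix.map_apply, map_sum, map_smul, Matrix.smul_apply, tw_apply,
    LinearMap.toMatrix'_toLin', smul_eq_mul, map_mul]

end P05_aux

theorem tw_det [Finite G] (σ : RingAut Ω) (ρ : Representation Ω G (Fin n → Ω)) (s : G → Ω) :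
    LinearMap.det (act (tw σ ρ) (fun g => σ (s g))) = σ (LinearMap.det (act ρ s)) := by
  rw [P05_aux.act_tw, LinearMap.det_toLin', ← LinearMap.det_toMatrix' (f := act ρ s)]
  exact ((σ : Ω →+* Ω).map_det _).symm

namespace P05_aux

/-- pull back along `x ↦ σ ∘ x` -/
def down (σ : RingAut Ω) {ρ : Representation Ω G (Fin n → Ω)}
    (U : Subrepresentation (tw σ ρ)) : Subrepresentation ρ where
  toSubmodule :=
    { carrier := {x | (fun i => σ (x i)) ∈ U.toSubmodule}
      add_mem' := by
        intro a b ha hb
        have := U.toSubmodule.add_mem ha hb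
        show (fun i => σ ((a + b) i)) ∈ U.toSubmodule
        have e : (fun i => σ ((a + b) i)) = (fun i => σ (a i)) + (fun i => σ (b i)) := by
          funext i
          simp
        rw [e]
        exact this
      zero_mem' := by
        show (fun i => σ ((0 : Fin n → Ω) i)) ∈ U.toSubmodule
        have e : (fun i => σ ((0 : Fin n → Ω) i)) = 0 := by
          funext i
          simp
        rw [e]
        exact U.toSubmodule.zero_mem
      smul_mem' := by
        intro c a ha
        show (fun i => σ ((c • a) i)) ∈ U.toSubmodule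
        have e : (fun i => σ ((c • a) i)) = σ c • (fun i => σ (a i)) := by
          funext i
          simp
        rw [e]
        exact U.toSubmodule.smul_mem _ ha }
  apply_mem_toSubmodule g v hv := by
    show (fun i => σ (ρ g v i)) ∈ U.toSubmodule
    rw [← tw_apply_comp]
    exact U.apply_mem_toSubmodule g hv

theorem mem_down (σ : RingAut Ω) {ρ : Representation Ω G (Fin n → Ω)}
    (U : Subrepresentation (tw σ ρ)) (x : Fin n → Ω) :
    x ∈ (down σ U).toSubmodule ↔ (fun i => σ (x i)) ∈ U.toSubmodule := Iff.rfl

theorem tw_apply_symm (σ : RingAut Ω) (ρ : Representation Ω G (Fin n → Ω)) (g : G)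
    (x : Fin n → Ω) :
    (fun i => σ.symm (tw σ ρ g x i)) = ρ g (fun i => σ.symm (x i)) := by
  have h := tw_apply_comp σ ρ g (fun i => σ.symm (x i))
  have e : (fun i => σ (σ.symm (x i))) = x := by
    funext i
    simp
  rw [e] at h
  rw [h]
  funext i
  simp

/-- the inverse -/
def up (σ : RingAut Ω) {ρ : Representation Ω G (Fin n → Ω)}
    (U : Subrepresentation ρ) : Subrepresentation (tw σ ρ) where
  toSubmodule :=
    { carrier := {x | (fun i => σ.symm (x i)) ∈ U.toSubmodule}
      add_mem' := by
        intro a b ha hb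
        have := U.toSubmodule.add_mem ha hb
        show (fun i => σ.symm ((a + b) i)) ∈ U.toSubmodule
        have e : (fun i => σ.symm ((a + b) i)) =
            (fun i => σ.symm (a i)) + (fun i => σ.symm (b i)) := by
          funext i
          simp
        rw [e]
        exact this
      zero_mem' := by
        show (fun i => σ.symm ((0 : Fin n → Ω) i)) ∈ U.toSubmodule
        have e : (fun i => σ.symm ((0 : Fin n → Ω) i)) = 0 := by
          funext i
          simp
        rw [e]
        exact U.toSubmodule.zero_mem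
      smul_mem' := by
        intro c a ha
        show (fun i => σ.symm ((c • a) i)) ∈ U.toSubmodule
        have e : (fun i => σ.symm ((c • a) i)) = σ.symm c • (fun i => σ.symm (a i)) := by
          funext i
          simp
        rw [e]
        exact U.toSubmodule.smul_mem _ ha }
  apply_mem_toSubmodule g v hv := by
    show (fun i => σ.symm (tw σ ρ g v i)) ∈ U.toSubmodule
    rw [tw_apply_symm]
    exact U.apply_mem_toSubmodule g hv

theorem mem_up (σ : RingAut Ω) {ρ : Representation Ω G (Fin n → Ω)}
    (U : Subrepresentation ρ) (x : Fin n → Ω) :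
    x ∈ (up σ U).toSubmodule ↔ (fun i => σ.symm (x i)) ∈ U.toSubmodule := Iff.rfl

/-- the order isomorphism of the lattices of subrepresentations -/
def iso (σ : RingAut Ω) (ρ : Representation Ω G (Fin n → Ω)) :
    Subrepresentation (tw σ ρ) ≃o Subrepresentation ρ where
  toFun := down σ
  invFun := up σ
  left_inv U := by
    apply Subrepresentation.toSubmodule_injective
    ext x
    rw [mem_up, mem_down]
    have e : (fun i => σ (σ.symm (x i))) = x := by
      funext i
      simp
    rw [e]
  right_inv U := by
    apply Subrepresentation.toSubmodule_injective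
    ext x
    rw [mem_down, mem_up]
    have e : (fun i => σ.symm (σ (x i))) = x := by
      funext i
      simp
    rw [e]
  map_rel_iff' := by
    intro U W
    constructor
    · intro h x hx
      have e : (fun i => σ (σ.symm (x i))) = x := by
        funext i
        simp
      have h1 : (fun i => σ.symm (x i)) ∈ (down σ U).toSubmodule := by
        rw [mem_down, e]
        exact hx
      have h2 := h h1
      have h3 : (fun i => σ (σ.symm (x i))) ∈ W.toSubmodule := h2
      rw [e] at h3
      exact h3
    · intro h x hx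
      exact h hx

end P05_aux

theorem tw_irr (σ : RingAut Ω) {ρ : Representation Ω G (Fin n → Ω)} (h : ρ.IsIrreducible) :
    (tw σ ρ).IsIrreducible :=
  (OrderIso.isSimpleOrder_iff (P05_aux.iso σ ρ)).mpr h

/-- an invariant form of the twist -/
theorem tw_orth (σ : RingAut Ω) {ρ : Representation Ω G (Fin n → Ω)} (h : Orth ρ) :
    Orth (tw σ ρ) := by
  obtain ⟨B, hB⟩ := h
  refine ⟨LinearMap.mk₂ Ω (fun x y => σ (B (fun i => σ.symm (x i)) (fun i => σ.symm (y i))))
    ?_ ?_ ?_ ?_, ?_, ?_, ?_⟩
  · intro x x' y
    have e : (fun i => σ.symm ((x + x') i)) =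
        (fun i => σ.symm (x i)) + (fun i => σ.symm (x' i)) := by
      funext i
      simp
    rw [e, map_add, LinearMap.add_apply, map_add]
  · intro c x y
    have e : (fun i => σ.symm ((c • x) i)) = σ.symm c • (fun i => σ.symm (x i)) := by
      funext i
      simp
    rw [e, map_smul, LinearMap.smul_apply, smul_eq_mul, map_mul, smul_eq_mul,
      RingEquiv.apply_symm_apply]
  · intro x y y'
    have e : (fun i => σ.symm ((y + y') i)) =
        (fun i => σ.symm (y i)) + (fun i => σ.symm (y' i)) := by
      funext i
      simp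
    rw [e, map_add, map_add]
  · intro c x y
    have e : (fun i => σ.symm ((c • y) i)) = σ.symm c • (fun i => σ.symm (y i)) := by
      funext i
      simp
    rw [e, map_smul, smul_eq_mul, map_mul, smul_eq_mul, RingEquiv.apply_symm_apply]
  · intro x y
    rw [LinearMap.mk₂_apply, LinearMap.mk₂_apply, hB.symm]
  · intro x hx
    have h0 : (fun i => σ.symm (x i)) = 0 := by
      apply hB.nondeg
      intro y
      have h1 := hx (fun i => σ (y i))
      rw [LinearMap.mk₂_apply] at h1
      have e : (fun i => σ.symm (σ (y i))) = y := by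
        funext i
        simp
      rw [e] at h1
      exact (map_eq_zero_iff σ σ.injective).mp h1
    funext i
    have h2 := congrFun h0 i
    have h3 : σ.symm (x i) = 0 := h2
    exact (map_eq_zero_iff σ.symm σ.symm.injective).mp h3
  · intro g x y
    rw [LinearMap.mk₂_apply, LinearMap.mk₂_apply, P05_aux.tw_apply_symm, P05_aux.tw_apply_symm,
      hB.inv]

variable [IsAlgClosed Ω] [CharZero Ω] [Finite G]
  {V : Type v} [AddCommGroup V] [Module Ω V] [FiniteDimensional Ω V]

/-- (L3) -/
theorem det_fixes {ρ : Representation Ω G V} (hρ : ρ.IsIrreducible) {σ : RingAut Ω}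
    (hσ : Fixes σ ρ) (s : G → Ω) :
    σ (LinearMap.det (act ρ s)) = LinearMap.det (act ρ (fun g => σ (s g))) := by
  obtain ⟨τ, ⟨e⟩⟩ := exists_fin ρ
  have hτ : τ.IsIrreducible := equiv_irr e hρ
  have hc : ρ.character = τ.character := Representation.char_iso e
  have h1 : (tw σ τ).character = τ.character := by
    funext g
    rw [tw_char, ← hc]
    exact hσ g
  obtain ⟨e'⟩ := equiv_of_char (tw_irr σ hτ) hτ h1
  rw [equiv_det e s, ← tw_det, equiv_det e', ← equiv_det e]

theorem det_fx {ρ : Representation Ω G V} (hρ : ρ.IsIrreducible) {Γ : Subgroup (RingAut Ω)}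
    (hF : FxC Γ ρ) {T : Module.End Ω V} (hT : T ∈ Rat Γ ρ) : Fx Γ (LinearMap.det T) := by
  obtain ⟨s, hs, rfl⟩ := hT
  intro σ hσ
  rw [det_fixes hρ (fun g => hF g σ hσ) s]
  congr 2
  funext g
  exact hs g σ hσ

/-- twists of irreducible characters are irreducible characters -/
theorem sigma_mem_irr {φ : G → Ω} (hφ : φ ∈ irr Ω G) (σ : RingAut Ω) :
    (fun g => σ (φ g)) ∈ irr Ω G := by
  obtain ⟨n, ρ, h1, h2⟩ := mem_irr.mp hφ
  refine mem_irr.mpr ⟨n, tw σ ρ, tw_irr σ h1, ?_⟩
  funext g
  rw [tw_char, h2]

end

end Parker
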