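import Pool.Agent.Parker.Defs
import Pool.Agent.Parker.P03

/-!
# MP_6c3636_al, module P04: operators which are self adjoint for an alternating form (helper7)
-/

namespace Parker

noncomputable section

universe v

open Polynomial

variable {Ω : Type} [Field Ω] [IsAlgClosed Ω] [CharZero Ω]
  {V : Type v} [AddCommGroup V] [Module Ω V] [FiniteDimensional Ω V]

namespace P04_aux

omit [IsAlgClosed Ω] [CharZero Ω] [FiniteDimensional Ω V] in
theorem orth_aux {b : LinearMap.BilinForm Ω V} {R : Module.End Ω V}
    (hR : ∀ x y, b (R x) y = b x (R y)) {μ ν : Ω} (hμν : μ ≠ ν) :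
    ∀ n k l : ℕ, k + l = n → ∀ x y : V, ((R - μ • (1 : Module.End Ω V)) ^ k) x = 0 →
      ((R - ν • (1 : Module.End Ω V)) ^ l) y = 0 → b x y = 0 := by
  intro n
  induction n with
  | zero =>
    intro k l hkl x y hx _
    have hk : k = 0 := by omega
    subst hk
    rw [pow_zero, Module.End.one_apply] at hx
    rw [hx, map_zero, LinearMap.zero_apply]
  | succ n ih =>
    intro k l hkl x y hx hy
    rcases Nat.eq_zero_or_pos k with hk | hk
    · subst hk
      rw [pow_zero, Module.End.one_apply] at hx
      rw [hx, map_zero, LinearMap.zero_apply]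
    rcases Nat.eq_zero_or_pos l with hl | hl
    · subst hl
      rw [pow_zero, Module.End.one_apply] at hy
      rw [hy, map_zero]
    obtain ⟨k', rfl⟩ : ∃ k', k = k' + 1 := ⟨k - 1, by omega⟩
    obtain ⟨l', rfl⟩ : ∃ l', l = l' + 1 := ⟨l - 1, by omega⟩
    have h1 : b ((R - μ • (1 : Module.End Ω V)) x) y = 0 := by
      apply ih k' (l' + 1) (by omega) _ _ _ hy
      rw [pow_succ, Module.End.mul_apply] at hx
      exact hx
    have h2 : b x ((R - ν • (1 : Module.End Ω V)) y) = 0 := by
      apply ih (k' + 1) l' (by omega) _ _ hx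
      rw [pow_succ, Module.End.mul_apply] at hy
      exact hy
    have e1 : (R - μ • (1 : Module.End Ω V)) x = R x - μ • x := by
      simp
    have e2 : (R - ν • (1 : Module.End Ω V)) y = R y - ν • y := by
      simp
    rw [e1, map_sub, LinearMap.sub_apply, map_smul, LinearMap.smul_apply, hR, smul_eq_mul] at h1
    rw [e2, map_sub, map_smul, smul_eq_mul] at h2
    have h3 : (μ - ν) * b x y = 0 := by
      linear_combination h2 - h1
    rcases mul_eq_zero.1 h3 with h4 | h4
    · exact absurd (sub_eq_zero.1 h4) hμν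
    · exact h4

omit [IsAlgClosed Ω] [CharZero Ω] [FiniteDimensional Ω V] in
theorem orth {b : LinearMap.BilinForm Ω V} {R : Module.End Ω V}
    (hR : ∀ x y, b (R x) y = b x (R y)) {μ ν : Ω} (hμν : μ ≠ ν) {x y : V}
    (hx : x ∈ R.maxGenEigenspace μ) (hy : y ∈ R.maxGenEigenspace ν) : b x y = 0 := by
  rw [Module.End.mem_maxGenEigenspace] at hx hy
  obtain ⟨k, hk⟩ := hx
  obtain ⟨l, hl⟩ := hy
  exact orth_aux hR hμν (k + l) k l rfl x y hk hl

theorem even_mult {b : LinearMap.BilinForm Ω V} (halt : ∀ x y, b x y = - b y x)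
    (hnd : ∀ x, (∀ y, b x y = 0) → x = 0) {R : Module.End Ω V}
    (hR : ∀ x y, b (R x) y = b x (R y)) (μ : Ω) : Even (R.charpoly.rootMultiplicity μ) := by
  rw [← LinearMap.finrank_maxGenEigenspace_eq]
  let B : LinearMap.BilinForm Ω (R.maxGenEigenspace μ) :=
    b.compl₁₂ (R.maxGenEigenspace μ).subtype (R.maxGenEigenspace μ).subtype
  have hB : ∀ x y, B x y = b x.1 y.1 := fun x y => rfl
  refine even_of_alt (two_ne_zero) (B := B) (fun x y => ?_) (fun x hx => ?_)
  · rw [hB, hB]
    exact halt _ _
  · have h0 : (x : V) = 0 := by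
      apply hnd
      intro y
      have hy : y ∈ ⨆ ν, R.maxGenEigenspace ν := by
        rw [Module.End.iSup_maxGenEigenspace_eq_top]
        exact Submodule.mem_top
      refine Submodule.iSup_induction _ (motive := fun y => b x.1 y = 0) hy ?_ ?_ ?_
      · intro ν y hy
        by_cases hν : μ = ν
        · subst hν
          exact hx ⟨y, hy⟩
        · exact orth hR hν x.2 hy
      · exact map_zero _
      · intro y z hy hz
        rw [map_add, hy, hz, add_zero]
    exact Subtype.ext h0

end P04_aux

/-- (L2) Let `b` be nondegenerate alternating and `b (R x) y = b x (R y)`. Then the characteristic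
polynomial of `R` is the square of a monic polynomial.  (The generalized eigenspaces of `R` for
different eigenvalues are `b`-orthogonal, so `b` is nondegenerate on each of them and each has even
dimension, `even_of_alt`; the multiplicity of `λ` in the characteristic polynomial is the dimension
of the generalized eigenspace, `LinearMap.finrank_maxGenEigenspace_eq`-type lemma.) -/
theorem charpoly_sq {b : LinearMap.BilinForm Ω V} (halt : ∀ x y, b x y = - b y x)
    (hnd : ∀ x, (∀ y, b x y = 0) → x = 0) {R : Module.End Ω V}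
    (hR : ∀ x y, b (R x) y = b x (R y)) :
    ∃ q : Polynomial Ω, q.Monic ∧ R.charpoly = q ^ 2 := by
  classical
  refine ⟨∏ μ ∈ R.charpoly.roots.toFinset, (X - C μ) ^ (R.charpoly.rootMultiplicity μ / 2), ?_, ?_⟩
  · exact monic_prod_of_monic _ _ fun μ _ => (monic_X_sub_C μ).pow _
  · have h1 := (IsAlgClosed.splits R.charpoly).eq_prod_roots_of_monic (LinearMap.charpoly_monic R)
    conv_lhs => rw [h1]
    rw [Finset.prod_multiset_map_count, ← Finset.prod_pow]
    refine Finset.prod_congr rfl fun μ _ => ?_
    rw [count_roots, ← pow_mul, Nat.div_mul_cancel (even_iff_two_dvd.1 (P04_aux.even_mult halt hnd hR μ))]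

/-- uniqueness of the monic square root -/
theorem monic_sqrt_unique {K : Type} [Field K] {p q : Polynomial K} (hp : p.Monic) (hq : q.Monic)
    (h : p ^ 2 = q ^ 2) : p = q := by
  rcases sq_eq_sq_iff_eq_or_eq_neg.1 h with h1 | h1
  · exact h1
  · have h2 : (1 : K) = -1 := by
      have h3 := congrArg leadingCoeff h1
      rw [hp.leadingCoeff, leadingCoeff_neg, hq.leadingCoeff] at h3
      exact h3
    have h4 : (-1 : Polynomial K) = 1 := by
      rw [← C_1, ← C_neg, ← h2]
    rw [h1, ← neg_one_mul, h4, one_mul]

end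

end Parker
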