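import Pool.Agent.Parker.Defs
import Pool.Agent.Parker.P01
import Pool.Agent.Parker.P02
import Pool.Agent.Parker.P03
import Pool.Agent.Parker.P04
import Pool.Agent.Parker.P05
import Pool.Agent.Parker.P08

/-!
# MP_6c3636_al, module P06: the class of the determinant is well defined (helper7)
-/

namespace Parker

universe u v

noncomputable section

variable {Ω : Type} [Field Ω] [IsAlgClosed Ω] [CharZero Ω] {G : Type u} [Group G] [Finite G]
  {V : Type v} [AddCommGroup V] [Module Ω V] [FiniteDimensional Ω V]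

/-- (L4) `R = T₂⁻¹ T₁` is self adjoint for the alternating form `b x y = B (T₂ x) y`, so its
characteristic polynomial is `q²` (`charpoly_sq`).  By `det_fixes`, `σ (det (x • T₂ - T₁)) =
det (σ x • T₂ - T₁)` for all `x`, so `charpoly R` and hence `q` (`monic_sqrt_unique`) has
`Γ`-fixed coefficients. `det R = q(0)²`. -/
theorem det_ratio {ρ : Representation Ω G V} (hρ : ρ.IsIrreducible)
    {Γ : Subgroup (RingAut Ω)} (hF : FxC Γ ρ) {B : LinearMap.BilinForm Ω V}
    (hB : InvForm ρ B) {T₁ T₂ : Module.End Ω V} (h1 : T₁ ∈ Rat Γ ρ) (h2 : T₂ ∈ Rat Γ ρ)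
    (k1 : Skew B T₁) (k2 : Skew B T₂) (d1 : LinearMap.det T₁ ≠ 0) (d2 : LinearMap.det T₂ ≠ 0) :
    ∃ x : Ω, x ≠ 0 ∧ Fx Γ x ∧ LinearMap.det T₁ = x ^ 2 * LinearMap.det T₂ := by
  obtain ⟨u, hu⟩ : IsUnit T₂ := (LinearMap.isUnit_iff_isUnit_det T₂).2 (isUnit_iff_ne_zero.2 d2)
  set R : Module.End Ω V := ((u⁻¹ : (Module.End Ω V)ˣ) : Module.End Ω V) * T₁ with hR
  have hR2 : T₂ * R = T₁ := by
    rw [hR, ← hu, ← mul_assoc, Units.mul_inv, one_mul]
  have hR2' : ∀ x, T₂ (R x) = T₁ x := fun x => by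
    have := congrArg (fun f : Module.End Ω V => f x) hR2
    simpa using this
  set b : LinearMap.BilinForm Ω V := B ∘ₗ T₂ with hb
  have hbv : ∀ x y, b x y = B (T₂ x) y := fun x y => rfl
  have halt : ∀ x y, b x y = - b y x := fun x y => by
    rw [hbv, hbv, k2, hB.symm (T₂ y) x]
  have hinj : ∀ x, T₂ x = 0 → x = 0 := fun x hx => by
    have h3 : ((u⁻¹ : (Module.End Ω V)ˣ) : Module.End Ω V) (T₂ x) = x := by
      have h4 : ((u⁻¹ : (Module.End Ω V)ˣ) : Module.End Ω V) * T₂ = 1 := by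
        rw [← hu, Units.inv_mul]
      have := congrArg (fun f : Module.End Ω V => f x) h4
      simpa using this
    rw [← h3, hx, map_zero]
  have hnd : ∀ x, (∀ y, b x y = 0) → x = 0 := fun x hx => hinj x (hB.nondeg _ hx)
  have hsa : ∀ x y, b (R x) y = b x (R y) := fun x y => by
    rw [hbv, hbv, hR2', k1, k2, hR2']
  obtain ⟨q, hqm, hq⟩ := charpoly_sq halt hnd hsa
  have heven : Even (Module.finrank Ω V) := even_of_alt (two_ne_zero) halt hnd
  have hdetR : LinearMap.det R = q.eval 0 ^ 2 := by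
    rw [LinearMap.det_eq_sign_charpoly_coeff, heven.neg_one_pow, one_mul, hq,
      Polynomial.coeff_zero_eq_eval_zero, Polynomial.eval_pow]
  have hdet : LinearMap.det T₁ = q.eval 0 ^ 2 * LinearMap.det T₂ := by
    rw [← hdetR, ← hR2, map_mul, mul_comm]
  have hq0 : q.eval 0 ≠ 0 := fun h => d1 (by rw [hdet, h]; ring)
  refine ⟨q.eval 0, hq0, fun σ hσ => ?_, hdet⟩
  -- the characteristic polynomial is fixed
  obtain ⟨s1, hs1, rfl⟩ := h1
  obtain ⟨s2, hs2, rfl⟩ := h2
  have hfix : Fixes σ ρ := fun g => hF g σ hσ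
  have hd2 : σ (LinearMap.det (act ρ s2)) = LinearMap.det (act ρ s2) :=
    det_fx hρ hF ⟨s2, hs2, rfl⟩ σ hσ
  have hev : ∀ x : Ω, LinearMap.det (act ρ (x • s2 - s1)) =
      LinearMap.det (act ρ s2) * R.charpoly.eval x := by
    intro x
    rw [act_sub, act_smul, LinearMap.eval_charpoly, ← map_mul, mul_sub, hR2]
    have h3 : x • act ρ s2 = act ρ s2 * algebraMap Ω (Module.End Ω V) x := by
      apply LinearMap.ext
      intro y
      show x • act ρ s2 y = act ρ s2 (x • y)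
      rw [map_smul]
    rw [h3]
  have hcp : R.charpoly.map (σ : Ω →+* Ω) = R.charpoly := by
    apply Polynomial.funext
    intro y
    obtain ⟨x, rfl⟩ := σ.surjective y
    have h4 := det_fixes hρ hfix (x • s2 - s1)
    have h5 : (fun g => σ ((x • s2 - s1) g)) = (σ x) • s2 - s1 := by
      funext g
      simp only [Pi.sub_apply, Pi.smul_apply, smul_eq_mul, map_sub, map_mul]
      rw [hs2 g σ hσ, hs1 g σ hσ]
    rw [h5, hev x, hev (σ x), map_mul, hd2] at h4
    have h6 := mul_left_cancel₀ d2 h4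
    have h7 : (R.charpoly.map (σ : Ω →+* Ω)).eval (σ x) = σ (R.charpoly.eval x) :=
      Polynomial.eval_map_apply (σ : Ω →+* Ω) x
    rw [h7, h6]
  have hqσ : q.map (σ : Ω →+* Ω) = q := by
    apply monic_sqrt_unique (hqm.map _) hqm
    rw [← Polynomial.map_pow, ← hq, hcp]
  have h8 : (q.map (σ : Ω →+* Ω)).eval (σ 0) = σ (q.eval 0) :=
    Polynomial.eval_map_apply (σ : Ω →+* Ω) 0
  rw [hqσ, map_zero] at h8
  exact h8.symm

/-- invariant forms of an irreducible representation are proportional -/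
theorem form_unique {ρ : Representation Ω G V} (hρ : ρ.IsIrreducible)
    {B B' : LinearMap.BilinForm Ω V} (hB : InvForm ρ B) (hB' : ∀ g x y, B' (ρ g x) (ρ g y) = B' x y) :
    ∃ a : Ω, B' = a • B := by
  have hinj : Function.Injective (B : V →ₗ[Ω] (V →ₗ[Ω] Ω)) := by
    rw [← LinearMap.ker_eq_bot, LinearMap.ker_eq_bot']
    intro x hx
    exact hB.nondeg x fun y => by rw [hx]; rfl
  have hfr : Module.finrank Ω V = Module.finrank Ω (V →ₗ[Ω] Ω) :=
    (Subspace.dual_finrank_eq (K := Ω) (V := V)).symm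
  set e : V ≃ₗ[Ω] (V →ₗ[Ω] Ω) := LinearEquiv.ofInjectiveOfFinrankEq B hinj hfr with he
  have hee : ∀ x, e x = B x := fun x => rfl
  set T : Module.End Ω V := e.symm.toLinearMap ∘ₗ B' with hT
  have hTB : ∀ x y, B (T x) y = B' x y := fun x y => by
    rw [← hee]
    simp [hT]
  have hcomm : ∀ g, T * ρ g = ρ g * T := by
    intro g
    apply LinearMap.ext
    intro x
    apply hinj
    apply LinearMap.ext
    intro y
    have h3 : ρ g (ρ g⁻¹ y) = y := by
      have h4 : ρ g * ρ g⁻¹ = 1 := by rw [← map_mul, mul_inv_cancel, map_one]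
      have := congrArg (fun f : Module.End Ω V => f y) h4
      exact this
    show B (T (ρ g x)) y = B (ρ g (T x)) y
    rw [hTB]
    conv_lhs => rw [← h3]
    conv_rhs => rw [← h3]
    rw [hB', hB.inv, hTB]
  obtain ⟨a, ha⟩ := schur hρ hcomm
  refine ⟨a, ?_⟩
  apply LinearMap.ext
  intro x
  apply LinearMap.ext
  intro y
  rw [← hTB, ha]
  simp

/-- if `ρ` is good then every invertible rational skew element has determinant in `V(Γ)²` -/
theorem sqV_of_good {ρ : Representation Ω G V} (hρ : ρ.IsIrreducible) {c : Ctx Ω}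
    {Γ : Subgroup (RingAut Ω)} (hF : FxC Γ ρ) (hg : GoodV c Γ ρ) {s : G → Ω}
    (hs : ∀ g, Fx Γ (s g)) (hk : ∀ g, s g⁻¹ = - s g) (hd : LinearMap.det (act ρ s) ≠ 0) :
    SqV c Γ (c.av (LinearMap.det (act ρ s))) := by
  obtain ⟨B, hB, T, hT, hTk, hTd, hTs⟩ := hg
  obtain ⟨x, hx0, hxf, hx⟩ := det_ratio hρ hF hB (T₁ := act ρ s) ⟨s, hs, rfl⟩ hT
    (skew_of_skew hB hk) hTk hd hTd
  rw [hx, map_mul, map_pow]
  exact sqV_mul (sqV_sq (inV_of_fx hx0 hxf)) hTs

/-- (A) follows if all relevant representations are good -/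
theorem propA_of_good {c : Ctx Ω} {m : ℕ}
    (h : ∀ Γ : Subgroup (RingAut Ω), Ok c m Γ → ∀ (n : ℕ)
      (ρ : Representation Ω G (Fin n → Ω)), ρ.IsIrreducible → Even n → Orth ρ → FxC Γ ρ →
      GoodV c Γ ρ) : PropA c m G := by
  intro Γ hΓ n ρ hρ hn hO hF s hs hk hd
  exact sqV_of_good hρ hF (h Γ hΓ n ρ hρ hn hO hF) hs hk hd

end

end Parker
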