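import Pool.Agent.Parker.Defs
import Pool.Agent.Parker.P01
import Pool.Agent.Parker.P08
import Pool.Agent.Parker.P05

/-!
# MP_6c3636_al, module P09: decomposition into irreducible characters (helper7)
-/

namespace Parker

universe u v

noncomputable section

variable {Ω : Type} [Field Ω] [IsAlgClosed Ω] [CharZero Ω] {G : Type u} [Group G] [Finite G]
  {V : Type v} [AddCommGroup V] [Module Ω V] [FiniteDimensional Ω V]

namespace P09_aux

omit [IsAlgClosed Ω] [CharZero Ω] in
theorem conj_prod {p q : Submodule Ω V} (h : IsCompl p q) (T : Module.End Ω V)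
    (A : Module.End Ω p) (B : Module.End Ω q) (hA : ∀ x : p, T x = A x)
    (hB : ∀ x : q, T x = B x) :
    LinearMap.trace Ω V T = LinearMap.trace Ω p A + LinearMap.trace Ω q B ∧
      LinearMap.det T = LinearMap.det A * LinearMap.det B := by
  have key : T = (Submodule.prodEquivOfIsCompl p q h).conj (LinearMap.prodMap A B) := by
    ext x
    obtain ⟨⟨a, b⟩, rfl⟩ := (Submodule.prodEquivOfIsCompl p q h).surjective x
    rw [LinearEquiv.conj_apply]
    simp only [LinearMap.comp_apply, LinearEquiv.coe_coe, LinearEquiv.symm_apply_apply,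
      LinearMap.prodMap_apply]
    rw [Submodule.coe_prodEquivOfIsCompl', Submodule.coe_prodEquivOfIsCompl', map_add]
    simp only [hA, hB]
  constructor
  · rw [key, LinearMap.trace_conj', LinearMap.trace_prodMap']
  · rw [key, LinearEquiv.conj_apply]
    have := LinearMap.det_conj (LinearMap.prodMap A B) (Submodule.prodEquivOfIsCompl p q h)
    rw [LinearMap.comp_assoc]
    rw [this, LinearMap.det_prodMap]

omit [IsAlgClosed Ω] [CharZero Ω] [FiniteDimensional Ω V] in
theorem act_sub_apply {ρ : Representation Ω G V} (W : Subrepresentation ρ) (s : G → Ω)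
    (x : W.toSubmodule) : act ρ s x = (act W.toRepresentation s x : V) := by
  letI := Fintype.ofFinite G
  rw [act_eq, act_eq, LinearMap.sum_apply, LinearMap.sum_apply, Submodule.coe_sum]
  rfl

omit [IsAlgClosed Ω] [CharZero Ω] in
theorem split {ρ : Representation Ω G V} (W U : Subrepresentation ρ)
    (h : IsCompl W.toSubmodule U.toSubmodule) :
    ρ.character = W.toRepresentation.character + U.toRepresentation.character ∧
      ∀ s, LinearMap.det (act ρ s) =
        LinearMap.det (act W.toRepresentation s) * LinearMap.det (act U.toRepresentation s) := by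
  constructor
  · funext g
    exact (conj_prod h (ρ g) (W.toRepresentation g) (U.toRepresentation g) (fun x => rfl)
      (fun x => rfl)).1
  · intro s
    exact (conj_prod h (act ρ s) (act W.toRepresentation s) (act U.toRepresentation s)
      (act_sub_apply W s) (act_sub_apply U s)).2

omit [IsAlgClosed Ω] [FiniteDimensional Ω V] in
theorem exists_compl {ρ : Representation Ω G V} (W : Subrepresentation ρ) :
    ∃ U : Subrepresentation ρ, IsCompl W.toSubmodule U.toSubmodule := by
  haveI : NeZero (Nat.card G : Ω) := ⟨by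
    have : Nat.card G ≠ 0 := Nat.card_pos.ne'
    exact_mod_cast this⟩
  have hs : Representation.IsSemisimpleRepresentation ρ := inferInstance
  obtain ⟨U, hU⟩ := hs.exists_isCompl W
  refine ⟨U, ?_⟩
  rw [isCompl_iff, disjoint_iff, codisjoint_iff]
  constructor
  · rw [← Subrepresentation.toSubmodule_inf, hU.inf_eq_bot]
    rfl
  · rw [← Subrepresentation.toSubmodule_sup, hU.sup_eq_top]
    rfl

theorem detc_of_irr {ρ : Representation Ω G V} (hρ : ρ.IsIrreducible) (s : G → Ω) :
    detc ρ.character s = LinearMap.det (act ρ s) := by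
  have h : ∃ (n : ℕ) (τ : Representation Ω G (Fin n → Ω)), τ.IsIrreducible ∧
      τ.character = ρ.character := mem_irrSet hρ
  unfold detc
  rw [dif_pos h]
  obtain ⟨e⟩ := equiv_of_char h.choose_spec.choose_spec.1 hρ h.choose_spec.choose_spec.2
  exact equiv_det e s

theorem exists_mult : ∀ (n : ℕ) (V : Type v) [AddCommGroup V] [Module Ω V]
    [FiniteDimensional Ω V] (ρ : Representation Ω G V), Module.finrank Ω V = n →
    ∃ k : (G → Ω) → ℕ, ρ.character = ∑ φ ∈ irr Ω G, (k φ : Ω) • φ ∧
      ∀ s : G → Ω, LinearMap.det (act ρ s) = ∏ φ ∈ irr Ω G, detc φ s ^ k φ := by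
  classical
  intro n
  induction n using Nat.strong_induction_on with
  | _ n ih =>
    intro V _ _ _ ρ hn
    by_cases h0 : Module.finrank Ω V = 0
    · refine ⟨fun _ => 0, ?_, ?_⟩
      · haveI : Subsingleton V := Module.finrank_zero_iff.1 h0
        funext g
        have : ρ g = 0 := Subsingleton.elim _ _
        simp [Representation.character, this]
      · intro s
        rw [LinearMap.det_eq_one_of_finrank_eq_zero h0]
        simp
    by_cases hir : ρ.IsIrreducible
    · refine ⟨fun φ => if φ = ρ.character then 1 else 0, ?_, ?_⟩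
      · rw [Finset.sum_eq_single ρ.character]
        · simp
        · intro b _ hb
          simp [hb]
        · intro h
          exact absurd (mem_irr.2 (mem_irrSet hir)) h
      · intro s
        rw [Finset.prod_eq_single ρ.character]
        · simp [detc_of_irr hir s]
        · intro b _ hb
          simp [hb]
        · intro h
          exact absurd (mem_irr.2 (mem_irrSet hir)) h
    · have hex : ∃ U : Submodule Ω V, (∀ g, ∀ x ∈ U, ρ g x ∈ U) ∧ U ≠ ⊥ ∧ U ≠ ⊤ := by
        by_contra hcon
        push Not at hcon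
        refine hir (irr_of_sub (Nat.pos_of_ne_zero h0) ?_)
        intro U hU
        by_cases hb : U = ⊥
        · exact Or.inl hb
        · exact Or.inr (hcon U hU hb)
      obtain ⟨W0, hW0, hWb, hWt⟩ := hex
      let W : Subrepresentation ρ := ⟨W0, fun g v hv => hW0 g v hv⟩
      obtain ⟨U, hU⟩ := exists_compl W
      have hlt1 : Module.finrank Ω W.toSubmodule < n := by
        rw [← hn]
        exact Submodule.finrank_lt hWt
      have hUt : U.toSubmodule ≠ ⊤ := by
        intro h
        rw [h] at hU
        exact hWb (by simpa using hU.disjoint)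
      have hlt2 : Module.finrank Ω U.toSubmodule < n := by
        rw [← hn]
        exact Submodule.finrank_lt hUt
      obtain ⟨k1, hk1, hd1⟩ := ih _ hlt1 W.toSubmodule W.toRepresentation rfl
      obtain ⟨k2, hk2, hd2⟩ := ih _ hlt2 U.toSubmodule U.toRepresentation rfl
      obtain ⟨hc, hd⟩ := split W U hU
      refine ⟨fun φ => k1 φ + k2 φ, ?_, ?_⟩
      · rw [hc, hk1, hk2, ← Finset.sum_add_distrib]
        refine Finset.sum_congr rfl fun φ _ => ?_
        push_cast
        rw [add_smul]
      · intro s
        rw [hd s, hd1 s, hd2 s, ← Finset.prod_mul_distrib]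
        refine Finset.prod_congr rfl fun φ _ => ?_
        rw [pow_add]

end P09_aux

theorem mul_spec (ρ : Representation Ω G V) {φ : G → Ω} (hφ : φ ∈ irr Ω G) :
    (mul ρ.character φ : Ω) = ip ρ.character φ := by
  obtain ⟨n, τ, hτ, rfl⟩ := mem_irr.1 hφ
  have h : ∃ k : ℕ, (k : Ω) = ip ρ.character τ.character :=
    ⟨Module.finrank Ω (τ.IntertwiningMap ρ), (ip_eq_finrank τ ρ).symm⟩
  unfold mul
  rw [dif_pos h]
  exact h.choose_spec

theorem detc_char {ρ : Representation Ω G V} (hρ : ρ.IsIrreducible) (s : G → Ω) :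
    detc ρ.character s = LinearMap.det (act ρ s) :=
  P09_aux.detc_of_irr hρ s

namespace P09_aux

theorem mult_eq (ρ : Representation Ω G V) {k : (G → Ω) → ℕ}
    (hk : ρ.character = ∑ φ ∈ irr Ω G, (k φ : Ω) • φ) {φ : G → Ω} (hφ : φ ∈ irr Ω G) :
    k φ = mul ρ.character φ := by
  classical
  have h1 : ip ρ.character φ = (k φ : Ω) := by
    rw [hk, ip_sum_left]
    rw [Finset.sum_eq_single φ]
    · rw [ip_smul_left, ip_irr hφ hφ, if_pos rfl, mul_one]
    · intro b hb hne
      rw [ip_smul_left, ip_irr hb hφ, if_neg hne, mul_zero]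
    · intro h
      exact absurd hφ h
  have h2 := mul_spec ρ hφ
  rw [h1] at h2
  exact_mod_cast h2.symm

end P09_aux

/-- (L8) a character is the sum of the irreducible characters, with multiplicities -/
theorem char_eq_sum (ρ : Representation Ω G V) :
    ρ.character = ∑ φ ∈ irr Ω G, (mul ρ.character φ : Ω) • φ := by
  obtain ⟨k, hk, -⟩ := P09_aux.exists_mult (Module.finrank Ω V) V ρ rfl
  conv_lhs => rw [hk]
  refine Finset.sum_congr rfl fun φ hφ => ?_
  rw [P09_aux.mult_eq ρ hk hφ]

/-- (L8) the determinant of `act ρ s` is the product over the irreducible characters. (Strong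
induction on `finrank V`: an irreducible subrepresentation and a complement.) -/
theorem det_eq_prod (ρ : Representation Ω G V) (s : G → Ω) :
    LinearMap.det (act ρ s) = ∏ φ ∈ irr Ω G, detc φ s ^ mul ρ.character φ := by
  obtain ⟨k, hk, hd⟩ := P09_aux.exists_mult (Module.finrank Ω V) V ρ rfl
  rw [hd s]
  refine Finset.prod_congr rfl fun φ hφ => ?_
  rw [P09_aux.mult_eq ρ hk hφ]

/-- representations with the same character have the same determinants -/
theorem det_of_char {W : Type*} [AddCommGroup W] [Module Ω W] [FiniteDimensional Ω W]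
    {ρ : Representation Ω G V} {τ : Representation Ω G W} (h : ρ.character = τ.character)
    (s : G → Ω) : LinearMap.det (act ρ s) = LinearMap.det (act τ s) := by
  rw [det_eq_prod ρ s, det_eq_prod τ s, h]

theorem exists_sub_of_mul {ρ : Representation Ω G V} {φ : G → Ω} (hφ : φ ∈ irr Ω G)
    (h : mul ρ.character φ ≠ 0) :
    ∃ W : Subrepresentation ρ, W.toRepresentation.IsIrreducible ∧
      W.toRepresentation.character = φ := by
  obtain ⟨n, τ, hτ, rfl⟩ := mem_irr.1 hφ
  have h1 : Module.finrank Ω (τ.IntertwiningMap ρ) ≠ 0 := by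
    intro h0
    apply h
    have h2 := mul_spec ρ hφ
    rw [ip_eq_finrank τ ρ, h0] at h2
    exact_mod_cast h2
  have h2 : ∃ f : τ.IntertwiningMap ρ, f ≠ 0 := by
    by_contra hcon
    push Not at hcon
    haveI : Subsingleton (τ.IntertwiningMap ρ) := ⟨fun a b => by rw [hcon a, hcon b]⟩
    exact h1 (Module.finrank_zero_of_subsingleton)
  obtain ⟨f, hf⟩ := h2
  have hinj : Function.Injective f := by
    haveI := hτ
    rcases Representation.IsIrreducible.injective_or_eq_zero f with h | h
    · exact h
    · exact absurd h hf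
  let e0 : (Fin n → Ω) ≃ₗ[Ω] f.range.toSubmodule :=
    LinearEquiv.ofInjective f.toLinearMap hinj
  have he : ∀ g, e0.toLinearMap ∘ₗ (τ g) = (f.range.toRepresentation g) ∘ₗ e0.toLinearMap := by
    intro g
    refine LinearMap.ext fun x => Subtype.ext ?_
    exact congrArg (fun F : (Fin n → Ω) →ₗ[Ω] V => F x) (f.isIntertwining' g)
  let e : τ.Equiv f.range.toRepresentation := Representation.Equiv.mk e0 he
  exact ⟨f.range, equiv_irr e hτ, (Representation.char_iso e).symm⟩

theorem mul_ne_of_sub {ρ : Representation Ω G V} (W : Subrepresentation ρ)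
    (hW : W.toRepresentation.IsIrreducible) :
    W.toRepresentation.character ∈ irr Ω G ∧
      mul ρ.character W.toRepresentation.character ≠ 0 := by
  have hm : W.toRepresentation.character ∈ irr Ω G := mem_irr.2 (mem_irrSet hW)
  refine ⟨hm, ?_⟩
  intro h0
  have h2 := mul_spec ρ hm
  rw [ip_eq_finrank W.toRepresentation ρ, h0] at h2
  have h3 : Module.finrank Ω (W.toRepresentation.IntertwiningMap ρ) = 0 := by
    exact_mod_cast h2.symm
  haveI hfin : Module.Finite Ω (W.toRepresentation.IntertwiningMap ρ) := inferInstance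
  haveI : Subsingleton (W.toRepresentation.IntertwiningMap ρ) := Module.finrank_zero_iff.1 h3
  let f : W.toRepresentation.IntertwiningMap ρ :=
    { W.toSubmodule.subtype with
      isIntertwining' := fun g => by
        ext x
        rfl }
  have hf : f = 0 := Subsingleton.elim _ _
  have hpos := irr_pos hW
  haveI := Module.nontrivial_of_finrank_pos hpos
  obtain ⟨x, hx⟩ := exists_ne (0 : W.toSubmodule)
  apply hx
  apply Subtype.ext
  have h4 : (f x : V) = 0 := by rw [hf]; rfl
  exact h4

namespace P09_aux

omit [IsAlgClosed Ω] [CharZero Ω] [Finite G] [FiniteDimensional Ω V] in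
theorem sd_iff (ρ : Representation Ω G V) : SD ρ ↔ du ρ.character = ρ.character := by
  constructor
  · intro h
    funext g
    exact h g
  · intro h g
    exact congrFun h g

end P09_aux

theorem noOdd_iff (ρ : Representation Ω G V) :
    NoOdd ρ ↔ ∀ φ ∈ irr Ω G, mul ρ.character φ ≠ 0 → du φ = φ → Even (dg φ) := by
  constructor
  · intro h φ hφ hm hd
    obtain ⟨W, hW, hc⟩ := exists_sub_of_mul hφ hm
    by_contra hne
    rw [Nat.not_even_iff_odd] at hne
    rw [← hc, dg_char] at hne
    exact h W hW hne ((P09_aux.sd_iff _).2 (by rw [hc]; exact hd))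
  · intro h W hW hodd hsd
    obtain ⟨h1, h2⟩ := mul_ne_of_sub W hW
    have h3 := h _ h1 h2 ((P09_aux.sd_iff _).1 hsd)
    rw [dg_char] at h3
    exact (Nat.not_even_iff_odd.2 hodd) h3

theorem mul_self {ρ : Representation Ω G V} (hρ : ρ.IsIrreducible) :
    mul ρ.character ρ.character = 1 := by
  have h := mul_spec ρ (mem_irr.2 (mem_irrSet hρ))
  rw [ip_self_irr ρ hρ] at h
  exact_mod_cast h

/-- multiplicities are invariant under an automorphism fixing the character -/
theorem mul_sigma {ρ : Representation Ω G V} {σ : RingAut Ω} (hσ : Fixes σ ρ) {φ : G → Ω}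
    (hφ : φ ∈ irr Ω G) : mul ρ.character (fun g => σ (φ g)) = mul ρ.character φ := by
  letI := Fintype.ofFinite G
  have h1 := mul_spec ρ (sigma_mem_irr hφ σ)
  have h2 := mul_spec ρ hφ
  have h3 : ip ρ.character (fun g => σ (φ g)) = σ (ip ρ.character φ) := by
    rw [ip_eq, ip_eq, map_mul, map_inv₀, map_natCast, map_sum]
    congr 1
    refine Finset.sum_congr rfl fun g _ => ?_
    rw [map_mul, hσ g]
  rw [h3, ← h2, map_natCast] at h1
  exact_mod_cast h1

theorem mul_du {ρ : Representation Ω G V} (hρ : SD ρ) {φ : G → Ω} (hφ : φ ∈ irr Ω G) :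
    mul ρ.character (du φ) = mul ρ.character φ := by
  letI := Fintype.ofFinite G
  have h1 := mul_spec ρ (du_mem_irr hφ)
  have h2 := mul_spec ρ hφ
  have h3 : ip ρ.character (du φ) = ip ρ.character φ := by
    rw [ip_eq, ip_eq]
    congr 1
    refine Fintype.sum_equiv (Equiv.inv G) _ _ fun g => ?_
    simp only [Equiv.inv_apply, du, inv_inv]
    rw [hρ g]
  rw [h3, ← h2] at h1
  exact_mod_cast h1

theorem detc_sigma {φ : G → Ω} (hφ : φ ∈ irr Ω G) (σ : RingAut Ω) (s : G → Ω) :
    detc (fun g => σ (φ g)) (fun g => σ (s g)) = σ (detc φ s) := by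
  obtain ⟨n, τ, hτ, rfl⟩ := mem_irr.1 hφ
  have h1 : (fun g => σ (τ.character g)) = (tw σ τ).character := by
    funext g
    exact (tw_char σ τ g).symm
  rw [h1, detc_char (tw_irr σ hτ), detc_char hτ, tw_det]

/-- the dual character -/
theorem detc_du {φ : G → Ω} (hφ : φ ∈ irr Ω G) (s : G → Ω) :
    detc (du φ) s = detc φ (du s) := by
  letI := Fintype.ofFinite G
  obtain ⟨n, τ, hτ, rfl⟩ := mem_irr.1 hφ
  have h1 : du τ.character = τ.dual.character := by
    funext g
    exact (Representation.char_dual τ g).symm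
  have h2 : τ.dual.IsIrreducible := by
    rw [irr_iff_ip]
    rw [← h1, ip_eq]
    have h3 := ip_self_irr τ hτ
    rw [ip_eq] at h3
    rw [← h3]
    congr 1
    refine Fintype.sum_equiv (Equiv.inv G) _ _ fun g => ?_
    simp only [Equiv.inv_apply, du]
  rw [h1, detc_char h2, detc_char hτ]
  have h4 : act τ.dual s = Module.Dual.transpose (R := Ω) (act τ (du s)) := by
    rw [act_eq, act_eq, map_sum]
    refine Fintype.sum_equiv (Equiv.inv G) _ _ fun g => ?_
    rw [map_smul, Representation.dual_apply]
    simp [du]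
  rw [h4]
  exact LinearMap.det_dualMap _

theorem detc_neg {φ : G → Ω} (hφ : φ ∈ irr Ω G) (s : G → Ω) :
    detc φ (-s) = (-1) ^ dg φ * detc φ s := by
  obtain ⟨n, τ, hτ, rfl⟩ := mem_irr.1 hφ
  rw [detc_char hτ, detc_char hτ, act_neg, dg_char]
  have h1 : -act τ s = (-1 : Ω) • act τ s := (neg_one_smul Ω _).symm
  rw [h1, LinearMap.det_smul]

/-- degree formula -/
theorem finrank_eq_sum (ρ : Representation Ω G V) :
    Module.finrank Ω V = ∑ φ ∈ irr Ω G, mul ρ.character φ * dg φ := by
  have h1 := congrFun (char_eq_sum ρ) 1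
  rw [Representation.char_one, Finset.sum_apply] at h1
  have h2 : ((Module.finrank Ω V : ℕ) : Ω) =
      ((∑ φ ∈ irr Ω G, mul ρ.character φ * dg φ : ℕ) : Ω) := by
    rw [h1]
    push_cast
    refine Finset.sum_congr rfl fun φ hφ => ?_
    rw [(dg_spec hφ).1]
    rfl
  exact_mod_cast h2

end

end Parker
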