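import Pool.Agent.Parker.Defs
import Pool.Agent.Parker.P01
import Pool.Agent.Parker.P03
import Pool.Agent.Parker.P08
import Pool.Agent.Parker.P09

/-!
# MP_6c3636_al, module P10: types of self dual irreducible representations (helper7)
-/

namespace Parker

universe u v w

noncomputable section

variable {Ω : Type} [Field Ω] [IsAlgClosed Ω] [CharZero Ω] {G : Type u} [Group G] [Finite G]
  {V : Type v} [AddCommGroup V] [Module Ω V] [FiniteDimensional Ω V]
  {U : Type w} [AddCommGroup U] [Module Ω U] [FiniteDimensional Ω U]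

namespace P10_aux

omit [IsAlgClosed Ω] [CharZero Ω] [Finite G] [FiniteDimensional Ω V] in
theorem inv_apply {ρ : Representation Ω G V} {B : LinearMap.BilinForm Ω V}
    (hinv : ∀ g x y, B (ρ g x) (ρ g y) = B x y) (g : G) (x y : V) :
    B (ρ g x) y = B x (ρ g⁻¹ y) := by
  have h := hinv g x (ρ g⁻¹ y)
  rw [Representation.self_inv_apply] at h
  exact h

omit [IsAlgClosed Ω] [CharZero Ω] in
/-- the linear equivalence given by a form which is nondegenerate on the left -/
def toDual {B : LinearMap.BilinForm Ω V} (hnd : ∀ x, (∀ y, B x y = 0) → x = 0) :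
    V ≃ₗ[Ω] Module.Dual Ω V :=
  LinearEquiv.ofInjectiveOfFinrankEq B (by
    rw [← LinearMap.ker_eq_bot, LinearMap.ker_eq_bot']
    intro x hx
    exact hnd x (fun y => by rw [hx]; rfl)) (by
    rw [Subspace.dual_finrank_eq])

theorem toDual_apply {B : LinearMap.BilinForm Ω V} (hnd : ∀ x, (∀ y, B x y = 0) → x = 0)
    (x y : V) : toDual hnd x y = B x y := rfl

/-- if `B` is a nondegenerate invariant form and `C` is an invariant form on an irreducible
representation, then `C` is a multiple of `B` -/
theorem prop_form {ρ : Representation Ω G V} (hρ : ρ.IsIrreducible)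
    {B C : LinearMap.BilinForm Ω V} (hnd : ∀ x, (∀ y, B x y = 0) → x = 0)
    (hB : ∀ g x y, B (ρ g x) (ρ g y) = B x y) (hC : ∀ g x y, C (ρ g x) (ρ g y) = C x y) :
    ∃ a : Ω, ∀ x y, C x y = a * B x y := by
  let T : Module.End Ω V := (toDual hnd).symm.toLinearMap ∘ₗ C
  have hT : ∀ x y, B (T x) y = C x y := by
    intro x y
    have : toDual hnd (T x) = C x := by simp [T]
    rw [← toDual_apply hnd, this]
  obtain ⟨a, ha⟩ := schur hρ (T := T) (by
    intro g
    ext x
    have key : B (T (ρ g x) - ρ g (T x)) = 0 := by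
      ext y
      rw [map_sub, LinearMap.sub_apply, hT, inv_apply hC, inv_apply hB, hT]
      simp
    have := hnd (T (ρ g x) - ρ g (T x)) (fun y => by rw [key]; rfl)
    rw [sub_eq_zero] at this
    simpa [Module.End.mul_apply] using this)
  refine ⟨a, fun x y => ?_⟩
  rw [← hT, ha]
  simp

end P10_aux

open P10_aux

/-- an orthogonal representation is self dual -/
theorem sd_of_orth {ρ : Representation Ω G V} (h : Orth ρ) : SD ρ := by
  obtain ⟨B, hB⟩ := h
  intro g
  have e : ρ.Equiv ρ.dual := Representation.Equiv.mk (toDual hB.nondeg) (by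
    intro g
    ext x y
    simp only [LinearMap.coe_comp, Function.comp_apply, LinearEquiv.coe_coe]
    rw [toDual_apply, inv_apply hB.inv]
    rfl)
  have := Representation.char_iso e
  rw [← Representation.char_dual, ← this]

/-- (L6) a self dual irreducible representation has a nondegenerate invariant form which is
symmetric or alternating -/
theorem exists_form {ρ : Representation Ω G V} (hρ : ρ.IsIrreducible) (h : SD ρ) :
    Orth ρ ∨ ∃ B : LinearMap.BilinForm Ω V, (∀ x y, B x y = - B y x) ∧
      (∀ x, (∀ y, B x y = 0) → x = 0) ∧ ∀ g x y, B (ρ g x) (ρ g y) = B x y := by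
  have hc : ρ.character = ρ.dual.character := by
    ext g
    rw [Representation.char_dual, h g]
  have hd : ρ.dual.IsIrreducible := by
    rw [irr_iff_ip, ← hc]
    exact ip_self_irr ρ hρ
  obtain ⟨e⟩ := equiv_of_char hρ hd hc
  let B : LinearMap.BilinForm Ω V := e.toIntertwiningMap.toLinearMap
  have hBe : ∀ x y, B x y = e x y := fun x y => rfl
  have hnd : ∀ x, (∀ y, B x y = 0) → x = 0 := by
    intro x hx
    have h1 : e x = 0 := by
      ext y
      exact hx y
    have h2 : e x = e 0 := by rw [h1]; exact (map_zero e.toIntertwiningMap).symm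
    exact EquivLike.injective e h2
  have hinv : ∀ g x y, B (ρ g x) (ρ g y) = B x y := by
    intro g x y
    have h1 : e (ρ g x) = ρ.dual g (e x) := Representation.IntertwiningMap.isIntertwining _ _ e.toIntertwiningMap g x
    rw [hBe, h1]
    change (e x) (ρ g⁻¹ (ρ g y)) = _
    rw [Representation.inv_self_apply]
    rfl
  obtain ⟨a, ha⟩ := prop_form hρ (B := B) (C := LinearMap.flip B) hnd hinv (by
    intro g x y
    simp only [LinearMap.flip_apply]
    exact hinv g y x)
  simp only [LinearMap.flip_apply] at ha
  have hpos := irr_pos hρ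
  have : Nontrivial V := Module.finrank_pos_iff.mp hpos
  obtain ⟨x0, hx0⟩ := exists_ne (0 : V)
  obtain ⟨y0, hy0⟩ : ∃ y, B x0 y ≠ 0 := by
    by_contra hcon
    push Not at hcon
    exact hx0 (hnd x0 hcon)
  have ha2 : a * a = 1 := by
    have h1 : B x0 y0 = a * (a * B x0 y0) := by
      rw [← ha x0 y0, ← ha y0 x0]
    have h2 : (a * a) * B x0 y0 = 1 * B x0 y0 := by rw [one_mul, mul_assoc]; exact h1.symm
    exact mul_right_cancel₀ hy0 h2
  rcases mul_self_eq_one_iff.mp ha2 with h1 | h1
  · left
    refine ⟨B, ⟨fun x y => ?_, hnd, hinv⟩⟩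
    rw [ha y x, h1, one_mul]
  · right
    refine ⟨B, fun x y => ?_, hnd, hinv⟩
    rw [ha y x, h1, neg_one_mul]

theorem orth_of_odd {ρ : Representation Ω G V} (hρ : ρ.IsIrreducible) (h : SD ρ)
    (hodd : Odd (Module.finrank Ω V)) : Orth ρ := by
  rcases exists_form hρ h with h1 | ⟨B, h1, h2, -⟩
  · exact h1
  · exact absurd (even_of_alt (two_ne_zero) h1 h2) (Nat.not_even_iff_odd.mpr hodd)

/-- an irreducible representation cannot be orthogonal and symplectic -/
theorem not_both {ρ : Representation Ω G V} (hρ : ρ.IsIrreducible) (h : Orth ρ)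
    {B : LinearMap.BilinForm Ω V} (hB : ∀ x y, B x y = - B y x)
    (hinv : ∀ g x y, B (ρ g x) (ρ g y) = B x y) : B = 0 := by
  obtain ⟨B0, h0⟩ := h
  obtain ⟨a, ha⟩ := prop_form hρ (B := B0) (C := B) h0.nondeg h0.inv hinv
  ext x y
  have h1 : B x y = - B x y := by
    conv_rhs => rw [ha x y, h0.symm x y, ← ha y x, ← hB x y]
  have h2 : (2 : Ω) * B x y = 0 := by linear_combination h1
  rcases mul_eq_zero.mp h2 with h3 | h3
  · exact absurd h3 two_ne_zero
  · exact h3

/-- (L7) an irreducible symplectic representation `τ` has even multiplicity in an orthogonal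
representation -/
theorem even_mul {ρ : Representation Ω G V} (h : Orth ρ) {τ : Representation Ω G U}
    (hτ : τ.IsIrreducible) {b : LinearMap.BilinForm Ω U} (hb : ∀ x y, b x y = - b y x)
    (hnd : ∀ x, (∀ y, b x y = 0) → x = 0) (hinv : ∀ g x y, b (τ g x) (τ g y) = b x y) :
    Even (mul ρ.character τ.character) := by
  obtain ⟨B, hB⟩ := h
  have hmul : mul ρ.character τ.character = Module.finrank Ω (τ.IntertwiningMap ρ) := by
    have h1 := mul_spec ρ (mem_irr.mpr (mem_irrSet hτ))
    rw [ip_eq_finrank τ ρ] at h1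
    exact_mod_cast h1
  rw [hmul]
  have hpos := irr_pos hτ
  have : Nontrivial U := Module.finrank_pos_iff.mp hpos
  obtain ⟨x0, hx0⟩ := exists_ne (0 : U)
  obtain ⟨y0, hy0⟩ : ∃ y, b x0 y ≠ 0 := by
    by_contra hcon
    push Not at hcon
    exact hx0 (hnd x0 hcon)
  have hfin : FiniteDimensional Ω (τ.IntertwiningMap ρ) := by
    let L : τ.IntertwiningMap ρ →ₗ[Ω] (U →ₗ[Ω] V) :=
      { toFun := fun f => f.toLinearMap
        map_add' := fun f g => rfl
        map_smul' := fun a f => rfl }
    exact Module.Finite.of_injective L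
      (Representation.IntertwiningMap.toLinearMap_injective τ ρ)
  let c : LinearMap.BilinForm Ω (τ.IntertwiningMap ρ) :=
    LinearMap.mk₂ Ω (fun f f' => B (f x0) (f' y0) * (b x0 y0)⁻¹)
      (by
        intro f f' f''
        simp [Representation.IntertwiningMap.coe_add, add_mul])
      (by
        intro a f f'
        simp [Representation.IntertwiningMap.coe_smul, mul_assoc])
      (by
        intro f f' f''
        simp [Representation.IntertwiningMap.coe_add, add_mul])
      (by
        intro a f f'
        simp [Representation.IntertwiningMap.coe_smul, mul_assoc])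
  have hcdef : ∀ f f' : τ.IntertwiningMap ρ, c f f' = B (f x0) (f' y0) * (b x0 y0)⁻¹ :=
    fun f f' => rfl
  have hc : ∀ (f f' : τ.IntertwiningMap ρ) (x y : U), B (f x) (f' y) = c f f' * b x y := by
    intro f f' x y
    obtain ⟨a, ha⟩ := prop_form hτ (B := b)
      (C := B.compl₁₂ f.toLinearMap f'.toLinearMap) hnd hinv (by
        intro g x y
        simp only [LinearMap.compl₁₂_apply]
        have e1 : f.toLinearMap (τ g x) = ρ g (f.toLinearMap x) := Representation.IntertwiningMap.isIntertwining _ _ f g x
        have e2 : f'.toLinearMap (τ g y) = ρ g (f'.toLinearMap y) := Representation.IntertwiningMap.isIntertwining _ _ f' g y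
        rw [e1, e2, hB.inv])
    simp only [LinearMap.compl₁₂_apply] at ha
    have h1 : c f f' = a := by
      rw [hcdef]
      have h2 : B (f x0) (f' y0) = a * b x0 y0 := ha x0 y0
      rw [h2, mul_assoc, mul_inv_cancel₀ hy0, mul_one]
    rw [h1]
    exact ha x y
  refine even_of_alt (two_ne_zero) (B := c) ?_ ?_
  · intro f f'
    have h1 := hc f f' x0 y0
    rw [hB.symm, hc f' f y0 x0, hb y0 x0] at h1
    have h2 : (- c f' f) * b x0 y0 = c f f' * b x0 y0 := by rw [← h1]; ring
    exact (mul_right_cancel₀ hy0 h2).symm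
  · intro f hf
    by_contra hf0
    -- the map `Φ : V → U` with `b (x, Φ v) = B (f x, v)`
    have hnd' : ∀ x, (∀ y, (LinearMap.flip b) x y = 0) → x = 0 := by
      intro x hx
      refine hnd x (fun y => ?_)
      rw [hb]
      have := hx y
      rw [LinearMap.flip_apply] at this
      rw [this, neg_zero]
    let Φ : V →ₗ[Ω] U := (toDual (B := (LinearMap.flip b)) hnd').symm.toLinearMap ∘ₗ
      ((LinearMap.flip B).compl₁₂ LinearMap.id f.toLinearMap)
    have hΦ : ∀ v x, b x (Φ v) = B (f x) v := by
      intro v x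
      have h1 : toDual (B := (LinearMap.flip b)) hnd' (Φ v) = ((LinearMap.flip B).compl₁₂ LinearMap.id f.toLinearMap) v := by
        simp [Φ]
      have h2 := congrArg (fun l : Module.Dual Ω U => l x) h1
      simpa [toDual_apply] using h2
    have hnd2 : ∀ u u' : U, (∀ x, b x u = b x u') → u = u' := by
      intro u u' hu
      have := hnd' (u - u') (fun y => by
        rw [LinearMap.flip_apply, map_sub, hu y, sub_self])
      exact sub_eq_zero.mp this
    have hΦg : ∀ g v, Φ (ρ g v) = τ g (Φ v) := by
      intro g v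
      apply hnd2
      intro x
      rw [hΦ]
      have h1 : b x (τ g (Φ v)) = b (τ g⁻¹ x) (Φ v) := by
        rw [inv_apply hinv g⁻¹ x (Φ v), inv_inv]
      rw [h1, hΦ]
      have h2 : f (τ g⁻¹ x) = ρ g⁻¹ (f x) := Representation.IntertwiningMap.isIntertwining _ _ f g⁻¹ x
      rw [h2, inv_apply hB.inv g⁻¹ (f x) v, inv_inv]
    let Φi : ρ.IntertwiningMap τ := LinearMap.intertwiningMap_of_isIntertwiningMap ρ τ Φ hΦg
    have hΦ0 : Φi ≠ 0 := by
      intro h0
      apply hf0
      ext x
      apply hB.nondeg
      intro v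
      have h1 : Φ v = 0 := by
        have := congrArg (fun l : ρ.IntertwiningMap τ => l v) h0
        exact this
      have h2 := hΦ v x
      rw [h1, map_zero] at h2
      exact h2.symm
    have hsurj : Function.Surjective Φ := by
      have := hτ
      rcases Representation.IsIrreducible.surjective_or_eq_zero Φi with h1 | h1
      · exact h1
      · exact absurd h1 hΦ0
    obtain ⟨s, hs⟩ := LinearMap.exists_rightInverse_of_surjective Φ (LinearMap.range_eq_top.mpr hsurj)
    have hs' : ∀ u, Φ (s u) = u := fun u => by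
      have := congrArg (fun l : U →ₗ[Ω] U => l u) hs
      exact this
    let _ := Fintype.ofFinite G
    let F : U →ₗ[Ω] V := ((Nat.card G : Ω)⁻¹) • ∑ g : G, (ρ g) ∘ₗ s ∘ₗ (τ g⁻¹)
    have hF : ∀ u, F u = ((Nat.card G : Ω)⁻¹) • ∑ g : G, ρ g (s (τ g⁻¹ u)) := by
      intro u
      simp [F, LinearMap.sum_apply]
    have hFg : ∀ g u, F (τ g u) = ρ g (F u) := by
      intro h u
      rw [hF, hF, map_smul, map_sum]
      congr 1
      rw [← Equiv.sum_comp (Equiv.mulLeft h)]
      refine Finset.sum_congr rfl (fun k _ => ?_)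
      simp only [Equiv.coe_mulLeft, mul_inv_rev, map_mul, Module.End.mul_apply]
      rw [Representation.inv_self_apply]
    let f' : τ.IntertwiningMap ρ := LinearMap.intertwiningMap_of_isIntertwiningMap τ ρ F hFg
    have hcard : (Nat.card G : Ω) ≠ 0 := by
      exact_mod_cast Nat.card_pos.ne'
    have hΦF : ∀ u, Φ (F u) = u := by
      intro u
      rw [hF, map_smul, map_sum]
      have : ∀ g : G, Φ (ρ g (s (τ g⁻¹ u))) = u := by
        intro g
        rw [hΦg, hs', Representation.self_inv_apply]
      rw [Finset.sum_congr rfl (fun g _ => this g), Finset.sum_const, Finset.card_univ,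
        ← Nat.card_eq_fintype_card, ← Nat.cast_smul_eq_nsmul Ω, smul_smul,
        inv_mul_cancel₀ hcard, one_smul]
    have h1 := hc f f' x0 y0
    rw [hf f', zero_mul] at h1
    have h2 : B (f x0) (f' y0) = b x0 y0 := by
      have h3 : f' y0 = F y0 := rfl
      rw [h3, ← hΦ, hΦF]
    rw [h2] at h1
    exact hy0 h1

/-- restriction of the form to a subrepresentation: if the irreducible `W` is self dual and its
multiplicity is one, the form is nondegenerate on it; more generally an operator `E` which is a
self adjoint idempotent gives a nondegenerate form on its range. -/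
theorem nondeg_range {B : LinearMap.BilinForm Ω V} (hs : ∀ x y, B x y = B y x)
    (hnd : ∀ x, (∀ y, B x y = 0) → x = 0) {E : Module.End Ω V} (hE : E * E = E)
    (hadj : SelfAdj B E) (x : V) (hx : E x = x) (h : ∀ y, E y = y → B x y = 0) : x = 0 := by
  apply hnd
  intro y
  rw [← hx, hadj]
  apply h
  have := congrArg (fun f : Module.End Ω V => f y) hE
  simpa [Module.End.mul_apply] using this

end

end Parker
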