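import Pool.Agent.Parker.Defs
import Pool.Agent.Parker.P01
import Pool.Agent.Parker.P08

/-!
# MP_6c3636_al, module P07: Fourier inversion (helper7)
-/

namespace Parker

universe u v

noncomputable section

variable {Ω : Type} [Field Ω] [IsAlgClosed Ω] [CharZero Ω] {G : Type u} [Group G] [Finite G]
  {V : Type v} [AddCommGroup V] [Module Ω V] [FiniteDimensional Ω V]

/-- `∑ ρ(g) X ρ(g⁻¹) = (|G| tr X / n) 1` (Schur) -/
theorem sum_conj [Fintype G] {ρ : Representation Ω G V} (hρ : ρ.IsIrreducible)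
    (X : Module.End Ω V) :
    ∑ g, ρ g * X * ρ g⁻¹ =
      ((Nat.card G : Ω) * LinearMap.trace Ω V X / (Module.finrank Ω V : Ω)) • 1 := by
  classical
  have hcard : Nat.card G = Fintype.card G := Nat.card_eq_fintype_card
  have hn : (Module.finrank Ω V : Ω) ≠ 0 := by
    exact_mod_cast (irr_pos hρ).ne'
  set S : Module.End Ω V := ∑ g, ρ g * X * ρ g⁻¹ with hS
  have hcomm : ∀ h, S * ρ h = ρ h * S := by
    intro h
    rw [hS, Finset.sum_mul, Finset.mul_sum]
    rw [← Equiv.sum_comp (Equiv.mulLeft h) (fun g => ρ g * X * ρ g⁻¹ * ρ h)]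
    refine Finset.sum_congr rfl fun g _ => ?_
    simp only [Equiv.coe_mulLeft, mul_inv_rev, map_mul]
    have h1 : ρ h⁻¹ * ρ h = 1 := by rw [← map_mul, inv_mul_cancel, map_one]
    simp only [mul_assoc, h1, mul_one]
  obtain ⟨a, ha⟩ := schur hρ hcomm
  have htr : LinearMap.trace Ω V S = (Nat.card G : Ω) * LinearMap.trace Ω V X := by
    rw [hS, map_sum]
    have : ∀ g, LinearMap.trace Ω V (ρ g * X * ρ g⁻¹) = LinearMap.trace Ω V X := by
      intro g
      rw [LinearMap.trace_mul_comm, ← mul_assoc]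
      have h1 : ρ g⁻¹ * ρ g = 1 := by rw [← map_mul, inv_mul_cancel, map_one]
      rw [h1, one_mul]
    rw [Finset.sum_congr rfl fun g _ => this g, Finset.sum_const, Finset.card_univ, hcard,
      nsmul_eq_mul]
  have htr2 : LinearMap.trace Ω V S = a * (Module.finrank Ω V : Ω) := by
    rw [ha, map_smul, LinearMap.trace_one, smul_eq_mul]
  have : a = (Nat.card G : Ω) * LinearMap.trace Ω V X / (Module.finrank Ω V : Ω) := by
    rw [eq_div_iff hn, ← htr2, htr]
  rw [ha, this]

/-- (L5) Fourier inversion: `T = act ρ s` with `s g = (n/|G|) tr (T ρ(g⁻¹))`. (Take matrices in a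
basis and apply `sum_conj` to the matrix units.) -/
theorem act_inversion {ρ : Representation Ω G V} (hρ : ρ.IsIrreducible)
    (T : Module.End Ω V) :
    act ρ (fun g => (Module.finrank Ω V : Ω) * (Nat.card G : Ω)⁻¹ *
      LinearMap.trace Ω V (T * ρ g⁻¹)) = T := by
  classical
  letI := Fintype.ofFinite G
  have hn : (Module.finrank Ω V : Ω) ≠ 0 := by
    exact_mod_cast (irr_pos hρ).ne'
  have hG : (Nat.card G : Ω) ≠ 0 := by
    exact_mod_cast (Nat.card_pos (α := G)).ne'
  rw [act_eq]
  set b := Module.finBasis Ω V with hb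
  have key : ∀ (y x : V) (f : V →ₗ[Ω] Ω), ∑ g, f (ρ g⁻¹ x) • ρ g y =
      ((Nat.card G : Ω) * f y / (Module.finrank Ω V : Ω)) • x := by
    intro y x f
    have h := congrArg (fun A : Module.End Ω V => A x)
      (sum_conj hρ (LinearMap.toSpanSingleton Ω V y ∘ₗ f : Module.End Ω V))
    have ht : LinearMap.trace Ω V (LinearMap.toSpanSingleton Ω V y ∘ₗ f) = f y := by
      rw [LinearMap.trace_comp_comm']
      have : f ∘ₗ LinearMap.toSpanSingleton Ω V y = (f y) • (1 : Module.End Ω Ω) := by
        ext; simp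
      rw [this, map_smul, LinearMap.trace_one]
      simp
    rw [ht] at h
    simp only [LinearMap.sum_apply, Module.End.mul_apply, LinearMap.comp_apply,
      LinearMap.toSpanSingleton_apply, map_smul, LinearMap.smul_apply, Module.End.one_apply] at h
    exact h
  have htr : ∀ A : Module.End Ω V, LinearMap.trace Ω V A = ∑ i, b.coord i (A (b i)) := by
    intro A
    rw [LinearMap.trace_eq_matrix_trace Ω b, Matrix.trace]
    refine Finset.sum_congr rfl fun i _ => ?_
    simp [LinearMap.toMatrix_apply]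
  ext y
  simp only [LinearMap.sum_apply, LinearMap.smul_apply]
  have h1 : ∀ g, LinearMap.trace Ω V (T * ρ g⁻¹) = ∑ i, b.coord i (ρ g⁻¹ (T (b i))) := by
    intro g
    rw [LinearMap.trace_mul_comm, htr]
    rfl
  calc ∑ g, ((Module.finrank Ω V : Ω) * (Nat.card G : Ω)⁻¹ *
        LinearMap.trace Ω V (T * ρ g⁻¹)) • ρ g y
      = ((Module.finrank Ω V : Ω) * (Nat.card G : Ω)⁻¹) •
          ∑ i, ∑ g, b.coord i (ρ g⁻¹ (T (b i))) • ρ g y := by
        rw [Finset.sum_comm, Finset.smul_sum]
        refine Finset.sum_congr rfl fun g _ => ?_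
        rw [h1 g, mul_smul, Finset.sum_smul]
    _ = ((Module.finrank Ω V : Ω) * (Nat.card G : Ω)⁻¹) •
          ∑ i, ((Nat.card G : Ω) * b.coord i y / (Module.finrank Ω V : Ω)) • T (b i) := by
        congr 1
        exact Finset.sum_congr rfl fun i _ => key y (T (b i)) (b.coord i)
    _ = ∑ i, b.coord i y • T (b i) := by
        rw [Finset.smul_sum]
        refine Finset.sum_congr rfl fun i _ => ?_
        rw [smul_smul]
        congr 1
        field_simp
    _ = T y := by
        conv_rhs => rw [← b.sum_repr y]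
        rw [map_sum]
        refine Finset.sum_congr rfl fun i _ => ?_
        rw [map_smul, Module.Basis.coord_apply]

/-- rational operators are those with rational traces -/
theorem rat_iff {ρ : Representation Ω G V} (hρ : ρ.IsIrreducible)
    {Γ : Subgroup (RingAut Ω)} (hF : FxC Γ ρ) (T : Module.End Ω V) :
    T ∈ Rat Γ ρ ↔ ∀ g, Fx Γ (LinearMap.trace Ω V (T * ρ g)) := by
  constructor
  · intro hT g
    exact trace_rat hF (rat_mul hT (rat_rho Γ ρ g))
  · intro h
    exact ⟨_, fun g => fx_mul (fx_mul (fx_natCast Γ _) (fx_inv (fx_natCast Γ _))) (h g⁻¹),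
      act_inversion hρ T⟩

/-- every operator is `act ρ s`; a skew one comes from a skew `s` -/
theorem exists_act {ρ : Representation Ω G V} (hρ : ρ.IsIrreducible)
    (T : Module.End Ω V) : ∃ s : G → Ω, act ρ s = T := by
  exact ⟨_, act_inversion hρ T⟩

/-- for any nondegenerate invariant form (symmetric or not): if `B (T x) y = - B x (T y)`, then the
coefficients of `act_inversion` are skew -/
theorem inversion_skew {ρ : Representation Ω G V} {B : LinearMap.BilinForm Ω V}
    (hnd : ∀ x, (∀ y, B x y = 0) → x = 0) (hinv : ∀ g x y, B (ρ g x) (ρ g y) = B x y)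
    {T : Module.End Ω V} (hT : ∀ x y, B (T x) y = - B x (T y)) (g : G) :
    LinearMap.trace Ω V (T * ρ g) = - LinearMap.trace Ω V (T * ρ g⁻¹) := by
  have hinj : Function.Injective (B : V →ₗ[Ω] (V →ₗ[Ω] Ω)) := by
    rw [injective_iff_map_eq_zero]
    intro x hx
    exact hnd x fun y => by rw [hx]; rfl
  let e : V ≃ₗ[Ω] (Module.Dual Ω V) :=
    LinearEquiv.ofBijective (B : V →ₗ[Ω] (V →ₗ[Ω] Ω))
      ⟨hinj, (LinearMap.injective_iff_surjective_of_finrank_eq_finrank
        (Subspace.dual_finrank_eq (K := Ω) (V := V)).symm).1 hinj⟩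
  have he : ∀ x y, e x y = B x y := fun x y => rfl
  have hadj : ∀ x y, B ((T * ρ g) x) y = B x ((-(ρ g⁻¹ * T)) y) := by
    intro x y
    simp only [Module.End.mul_apply, LinearMap.neg_apply, map_neg]
    rw [hT, ← hinv g x (ρ g⁻¹ (T y))]
    have : ρ g (ρ g⁻¹ (T y)) = T y := by
      rw [← Module.End.mul_apply, ← map_mul, mul_inv_cancel, map_one, Module.End.one_apply]
    rw [this]
  have hconj : e.conj (T * ρ g) = Module.Dual.transpose (R := Ω) (-(ρ g⁻¹ * T)) := by
    refine LinearMap.ext fun f => LinearMap.ext fun y => ?_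
    obtain ⟨x, rfl⟩ := e.surjective f
    rw [LinearEquiv.conj_apply_apply, LinearEquiv.symm_apply_apply, he, hadj]
    rfl
  have h1 : LinearMap.trace Ω V (T * ρ g) = LinearMap.trace Ω V (-(ρ g⁻¹ * T)) := by
    rw [← LinearMap.trace_conj' (T * ρ g) e, hconj, LinearMap.trace_transpose']
  rw [h1, map_neg, LinearMap.trace_mul_comm]

end

end Parker
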