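import Pool.Agent.Parker.Defs
import Pool.Agent.Parker.P01
import Pool.Agent.Parker.P07
import Pool.Agent.Parker.P08
import Pool.Agent.Parker.P09
import Pool.Agent.Parker.P10

/-!
# MP_6c3636_al, module P11: density (helper7)
-/

namespace Parker

universe u v

noncomputable section

variable {Ω : Type} [Field Ω] [IsAlgClosed Ω] [CharZero Ω] {G : Type u} [Group G] [Finite G]
  {V : Type v} [AddCommGroup V] [Module Ω V] [FiniteDimensional Ω V]

/-- a nonzero polynomial function of finitely many variables does not vanish at some rational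
point. Version for determinants: if `det (T₀ + ...)`: let `f : ι → End V` (`ι` finite) and suppose
`det (∑ x i • f i) ≠ 0` for some `x : ι → Ω`. Then it is nonzero for some rational `x`.  Version for
a finite family of spaces/determinants simultaneously. -/
theorem exists_rat_point {ι κ : Type*} [Fintype ι] [Fintype κ] {n : κ → ℕ}
    (f : ∀ k : κ, ι → Module.End Ω (Fin (n k) → Ω))
    (h : ∀ k, ∃ x : ι → Ω, LinearMap.det (∑ i, x i • f k i) ≠ 0) :
    ∃ q : ι → ℚ, ∀ k, LinearMap.det (∑ i, (q i : Ω) • f k i) ≠ 0 := by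
  classical
  set P : κ → MvPolynomial ι Ω := fun k =>
    (∑ i, (MvPolynomial.X i : MvPolynomial ι Ω) •
      (LinearMap.toMatrix' (f k i)).map (MvPolynomial.C : Ω →+* MvPolynomial ι Ω)).det with hP
  have ev : ∀ (k : κ) (x : ι → Ω),
      MvPolynomial.eval x (P k) = LinearMap.det (∑ i, x i • f k i) := by
    intro k x
    rw [hP]
    simp only
    rw [RingHom.map_det, ← LinearMap.det_toMatrix']
    congr 1
    ext a b
    simp only [RingHom.mapMatrix_apply, Matrix.map_apply, Matrix.sum_apply, Matrix.smul_apply,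
      smul_eq_mul, map_sum, map_mul, MvPolynomial.eval_X, MvPolynomial.eval_C,
      LinearMap.toMatrix'_apply, LinearMap.sum_apply, LinearMap.smul_apply, Finset.sum_apply,
      Pi.smul_apply]
  have hne : ∀ k, P k ≠ 0 := by
    intro k h0
    obtain ⟨x, hx⟩ := h k
    apply hx
    rw [← ev, h0, map_zero]
  have hprod : (∏ k, P k) ≠ 0 := Finset.prod_ne_zero_iff.2 fun k _ => hne k
  by_contra hcon
  push Not at hcon
  apply hprod
  refine MvPolynomial.funext_set (fun _ => Set.range (fun q : ℚ => (q : Ω)))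
    (fun _ => Set.infinite_range_of_injective Rat.cast_injective) ?_
  intro x hx
  choose q hq using fun i => hx i (Set.mem_univ i)
  obtain ⟨k, hk⟩ := hcon q
  rw [map_zero, map_prod]
  refine Finset.prod_eq_zero (Finset.mem_univ k) ?_
  rw [ev, ← hk]
  congr 1
  exact Finset.sum_congr rfl fun i _ => by rw [← hq i]

namespace P11_aux

/-- nondegenerate forms are perfect: every form is `B (T x) y` -/
theorem exists_op {B J : LinearMap.BilinForm Ω V} (hB : ∀ x, (∀ y, B x y = 0) → x = 0) :
    ∃ T : Module.End Ω V, ∀ x y, B (T x) y = J x y := by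
  have hinj : Function.Injective B := by
    rw [← LinearMap.ker_eq_bot, LinearMap.ker_eq_bot']
    intro x hx
    exact hB x fun y => by rw [hx]; rfl
  have hsurj : Function.Surjective B :=
    (LinearMap.injective_iff_surjective_of_finrank_eq_finrank
      (Subspace.dual_finrank_eq (K := Ω) (V := V)).symm).1 hinj
  let e : V ≃ₗ[Ω] (V →ₗ[Ω] Ω) := LinearEquiv.ofBijective B ⟨hinj, hsurj⟩
  refine ⟨e.symm.toLinearMap ∘ₗ J, fun x y => ?_⟩
  have : B (e.symm (J x)) = J x := e.apply_symm_apply (J x)
  show B (e.symm (J x)) y = J x y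
  rw [this]

theorem det_ne {B J : LinearMap.BilinForm Ω V} {T : Module.End Ω V}
    (hT : ∀ x y, B (T x) y = J x y) (hJ : ∀ x, (∀ y, J x y = 0) → x = 0) :
    LinearMap.det T ≠ 0 := by
  intro h0
  have hk := LinearMap.bot_lt_ker_of_det_eq_zero h0
  obtain ⟨x, hx, hx0⟩ := Submodule.exists_mem_ne_zero_of_ne_bot hk.ne'
  apply hx0
  apply hJ
  intro y
  rw [← hT, LinearMap.mem_ker.1 hx]
  simp

/-- a nondegenerate symmetric form -/
theorem exists_symm_form : ∃ J : LinearMap.BilinForm Ω V, (∀ x y, J x y = J y x) ∧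
    ∀ x, (∀ y, J x y = 0) → x = 0 := by
  classical
  let b := Module.finBasis Ω V
  refine ⟨LinearMap.mk₂ Ω (fun x y => ∑ i, b.repr x i * b.repr y i) ?_ ?_ ?_ ?_, ?_, ?_⟩
  · intro x x' y
    simp [add_mul, Finset.sum_add_distrib]
  · intro c x y
    simp [Finset.mul_sum, mul_assoc]
  · intro x y y'
    simp [mul_add, Finset.sum_add_distrib]
  · intro c x y
    simp only [map_smul, Finsupp.smul_apply, smul_eq_mul, Finset.mul_sum]
    exact Finset.sum_congr rfl fun i _ => by ring
  · intro x y
    simp only [LinearMap.mk₂_apply]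
    exact Finset.sum_congr rfl fun i _ => mul_comm _ _
  · intro x hx
    apply b.repr.injective
    rw [map_zero]
    ext j
    have := hx (b j)
    simp only [LinearMap.mk₂_apply, Module.Basis.repr_self, Finsupp.single_apply] at this
    simpa using this

/-- a nondegenerate alternating form in even dimension -/
theorem exists_alt_form (he : Even (Module.finrank Ω V)) :
    ∃ J : LinearMap.BilinForm Ω V, (∀ x y, J x y = - J y x) ∧
      ∀ x, (∀ y, J x y = 0) → x = 0 := by
  classical
  obtain ⟨m, hm⟩ := he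
  let b : Module.Basis (Fin m ⊕ Fin m) Ω V :=
    (Module.finBasisOfFinrankEq Ω V hm).reindex finSumFinEquiv.symm
  refine ⟨LinearMap.mk₂ Ω (fun x y => ∑ i, (b.repr x (Sum.inl i) * b.repr y (Sum.inr i) -
    b.repr x (Sum.inr i) * b.repr y (Sum.inl i))) ?_ ?_ ?_ ?_, ?_, ?_⟩
  · intro x x' y
    simp only [map_add, Finsupp.add_apply, ← Finset.sum_add_distrib]
    exact Finset.sum_congr rfl fun i _ => by ring
  · intro c x y
    simp only [map_smul, Finsupp.smul_apply, smul_eq_mul, Finset.mul_sum]
    exact Finset.sum_congr rfl fun i _ => by ring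
  · intro x y y'
    simp only [map_add, Finsupp.add_apply, ← Finset.sum_add_distrib]
    exact Finset.sum_congr rfl fun i _ => by ring
  · intro c x y
    simp only [map_smul, Finsupp.smul_apply, smul_eq_mul, Finset.mul_sum]
    exact Finset.sum_congr rfl fun i _ => by ring
  · intro x y
    simp only [LinearMap.mk₂_apply, ← Finset.sum_neg_distrib]
    exact Finset.sum_congr rfl fun i _ => by ring
  · intro x hx
    apply b.repr.injective
    rw [map_zero]
    ext j
    cases j with
    | inl j =>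
      have := hx (b (Sum.inr j))
      simp only [LinearMap.mk₂_apply, Module.Basis.repr_self, Finsupp.single_apply] at this
      simpa using this
    | inr j =>
      have := hx (b (Sum.inl j))
      simp only [LinearMap.mk₂_apply, Module.Basis.repr_self, Finsupp.single_apply] at this
      simpa using this

theorem skew_of_op {ρ : Representation Ω G V} (hρ : ρ.IsIrreducible)
    {B : LinearMap.BilinForm Ω V} (hnd : ∀ x, (∀ y, B x y = 0) → x = 0)
    (hinv : ∀ g x y, B (ρ g x) (ρ g y) = B x y) {T : Module.End Ω V}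
    (hT : ∀ x y, B (T x) y = - B x (T y)) (hd : LinearMap.det T ≠ 0) :
    ∃ s : G → Ω, (∀ g, s g⁻¹ = - s g) ∧ LinearMap.det (act ρ s) ≠ 0 := by
  refine ⟨fun g => (Module.finrank Ω V : Ω) * (Nat.card G : Ω)⁻¹ *
    LinearMap.trace Ω V (T * ρ g⁻¹), fun g => ?_, ?_⟩
  · have := inversion_skew hnd hinv hT g⁻¹
    rw [inv_inv] at this
    simp only [inv_inv]
    rw [this]
    ring
  · rw [act_inversion hρ]
    exact hd

end P11_aux

/-- an irreducible representation which is not (self dual of odd dimension) has an invertible skew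
element over `Ω` -/
theorem exists_skew_irr {ρ : Representation Ω G V} (hρ : ρ.IsIrreducible)
    (h : ¬ (SD ρ ∧ Odd (Module.finrank Ω V))) :
    ∃ s : G → Ω, (∀ g, s g⁻¹ = - s g) ∧ LinearMap.det (act ρ s) ≠ 0 := by
  classical
  by_cases hSD : SD ρ
  · have he : Even (Module.finrank Ω V) := by
      rw [← Nat.not_odd_iff_even]
      exact fun ho => h ⟨hSD, ho⟩
    rcases exists_form hρ hSD with ⟨B, hB⟩ | ⟨B, hBa, hnd, hinv⟩
    · obtain ⟨J, hJa, hJn⟩ := P11_aux.exists_alt_form (Ω := Ω) (V := V) he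
      obtain ⟨T, hT⟩ := P11_aux.exists_op (J := J) hB.nondeg
      refine P11_aux.skew_of_op hρ hB.nondeg hB.inv (T := T) (fun x y => ?_)
        (P11_aux.det_ne hT hJn)
      rw [hT, hB.symm x, hT, hJa]
    · obtain ⟨J, hJs, hJn⟩ := P11_aux.exists_symm_form (Ω := Ω) (V := V)
      obtain ⟨T, hT⟩ := P11_aux.exists_op (J := J) hnd
      refine P11_aux.skew_of_op hρ hnd hinv (T := T) (fun x y => ?_)
        (P11_aux.det_ne hT hJn)
      rw [hT, hBa x, neg_neg, hT, hJs]
  · letI := Fintype.ofFinite G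
    set φ := ρ.character with hφ
    have hmem : φ ∈ irr Ω G := mem_irr.2 (mem_irrSet hρ)
    have hne : φ ≠ du φ := by
      intro h0
      apply hSD
      intro g
      exact (congrFun h0 g).symm
    set c : Ω := (Module.finrank Ω V : Ω) * (Nat.card G : Ω)⁻¹ with hc
    -- `∑ φ g ρ g = 0`
    have hz : act ρ φ = 0 := by
      have hcomm : ∀ h, act ρ φ * ρ h = ρ h * act ρ φ := by
        intro h
        rw [act_eq, Finset.sum_mul, Finset.mul_sum]
        refine Finset.sum_bij' (fun g _ => h⁻¹ * g * h) (fun g _ => h * g * h⁻¹) (by simp)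
          (by simp) (by intros; group) (by intros; group) ?_
        intro g _
        have hch : φ (h⁻¹ * g * h) = φ g := by
          rw [hφ]
          have := ρ.char_conj g h⁻¹
          rw [inv_inv] at this
          exact this
        rw [hch, smul_mul_assoc, mul_smul_comm, ← map_mul, ← map_mul]
        congr 2
        group
      obtain ⟨a, ha⟩ := schur hρ hcomm
      have htr : LinearMap.trace Ω V (act ρ φ) = 0 := by
        rw [trace_act]
        have h1 := ip_irr hmem (du_mem_irr hmem)
        rw [if_neg hne, ip_eq] at h1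
        have hcard : (Nat.card G : Ω)⁻¹ ≠ 0 :=
          inv_ne_zero (Nat.cast_ne_zero.2 Nat.card_pos.ne')
        have h2 := (mul_eq_zero.1 h1).resolve_left hcard
        rw [← h2]
        refine Finset.sum_congr rfl fun g _ => ?_
        simp only [du, inv_inv]
        rfl
      rw [ha] at htr ⊢
      rw [map_smul, LinearMap.trace_one, smul_eq_mul] at htr
      have hpos := irr_pos hρ
      have : a = 0 := (mul_eq_zero.1 htr).resolve_right (Nat.cast_ne_zero.2 hpos.ne')
      rw [this, zero_smul]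
    have h1 : act ρ (fun g => c * φ g⁻¹) = 1 := by
      have := act_inversion hρ (1 : Module.End Ω V)
      rw [← this]
      congr 1
    refine ⟨fun g => c * φ g⁻¹ - c * φ g, fun g => by simp only [inv_inv]; ring, ?_⟩
    have h2 : act ρ (fun g => c * φ g⁻¹ - c * φ g) = 1 := by
      have e1 : (fun g => c * φ g⁻¹ - c * φ g) = (fun g => c * φ g⁻¹) - c • φ := by
        funext g
        simp
      rw [e1, act_sub, act_smul, hz, h1, smul_zero, sub_zero]
    rw [h2, map_one]
    exact one_ne_zero

/-- (L9) density -/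
theorem exists_skew_rat {ρ : Representation Ω G V} (h : NoOdd ρ) :
    ∃ s : G → ℚ, (∀ g, s g⁻¹ = - s g) ∧ LinearMap.det (act ρ (fun g => (s g : Ω))) ≠ 0 := by
  classical
  letI := Fintype.ofFinite G
  let K := {φ // φ ∈ (irr Ω G).filter fun φ => mul ρ.character φ ≠ 0}
  have hK : ∀ k : K, k.1 ∈ irr Ω G ∧ mul ρ.character k.1 ≠ 0 := fun k => Finset.mem_filter.1 k.2
  have hex : ∀ k : K, ∃ (n : ℕ) (τ : Representation Ω G (Fin n → Ω)), τ.IsIrreducible ∧
      τ.character = k.1 := fun k => mem_irr.1 (hK k).1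
  choose n τ hτ hch using hex
  have hpt : ∀ k : K, ∃ x : G → Ω,
      LinearMap.det (∑ g, x g • (τ k g - τ k g⁻¹)) ≠ 0 := by
    intro k
    have hno : ¬ (SD (τ k) ∧ Odd (Module.finrank Ω (Fin (n k) → Ω))) := by
      rintro ⟨h1, h2⟩
      have h3 : du k.1 = k.1 := by
        funext g
        rw [← hch k]
        exact h1 g
      have h4 := (noOdd_iff ρ).1 h k.1 (hK k).1 (hK k).2 h3
      rw [← hch k, dg_char] at h4
      exact (Nat.not_even_iff_odd.2 h2) h4
    obtain ⟨s, hs, hd⟩ := exists_skew_irr (hτ k) hno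
    refine ⟨fun g => (2 : Ω)⁻¹ * s g, ?_⟩
    have e : ∑ g, ((2 : Ω)⁻¹ * s g) • (τ k g - τ k g⁻¹) = act (τ k) s := by
      rw [act_eq]
      have e2 : ∑ g, ((2 : Ω)⁻¹ * s g) • τ k g⁻¹ = - ∑ g, ((2 : Ω)⁻¹ * s g) • τ k g := by
        rw [← Finset.sum_neg_distrib]
        refine Fintype.sum_equiv (Equiv.inv G) _ _ fun g => ?_
        simp only [Equiv.inv_apply, hs, mul_neg]
        rw [neg_smul (2⁻¹ * s g) (τ k g⁻¹), neg_neg]
      simp only [smul_sub, Finset.sum_sub_distrib]
      rw [e2, sub_neg_eq_add, ← Finset.sum_add_distrib]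
      refine Finset.sum_congr rfl fun g _ => ?_
      rw [← add_smul]
      congr 1
      ring
    rw [e]
    exact hd
  obtain ⟨q, hq⟩ := exists_rat_point (fun k g => τ k g - τ k g⁻¹) hpt
  refine ⟨fun g => q g - q g⁻¹, fun g => by simp, ?_⟩
  rw [det_eq_prod, Finset.prod_ne_zero_iff]
  intro φ hφ
  by_cases hm : mul ρ.character φ = 0
  · rw [hm, pow_zero]
    exact one_ne_zero
  apply pow_ne_zero
  let k : K := ⟨φ, Finset.mem_filter.2 ⟨hφ, hm⟩⟩
  have h1 : detc φ (fun g => ((q g - q g⁻¹ : ℚ) : Ω)) =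
      LinearMap.det (act (τ k) (fun g => ((q g - q g⁻¹ : ℚ) : Ω))) := by
    rw [← detc_char (hτ k), hch k]
  rw [h1]
  have e : act (τ k) (fun g => ((q g - q g⁻¹ : ℚ) : Ω)) =
      ∑ g, (q g : Ω) • (τ k g - τ k g⁻¹) := by
    rw [act_eq]
    have e2 : ∑ g, (q g : Ω) • τ k g⁻¹ = ∑ g, (q g⁻¹ : Ω) • τ k g := by
      refine Fintype.sum_equiv (Equiv.inv G) _ _ fun g => ?_
      simp only [Equiv.inv_apply, inv_inv]
    simp only [smul_sub, Finset.sum_sub_distrib]
    rw [e2, ← Finset.sum_sub_distrib]
    refine Finset.sum_congr rfl fun g _ => ?_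
    rw [← sub_smul, Rat.cast_sub]
  rw [e]
  exact hq k

/-- density for a subset of coefficients: let `P : G → Prop` be stable under inversion. If there is
`u : G → Ω` symmetric, supported on `P`, with `det (act ρ u) ≠ 0`, then there is a rational one. -/
theorem exists_symm_rat (ρ : Representation Ω G V) (P : G → Prop) (hP : ∀ g, P g → P g⁻¹)
    {u : G → Ω} (hu : ∀ g, u g⁻¹ = u g) (huP : ∀ g, ¬ P g → u g = 0)
    (hd : LinearMap.det (act ρ u) ≠ 0) :
    ∃ t : G → ℚ, (∀ g, t g⁻¹ = t g) ∧ (∀ g, ¬ P g → t g = 0) ∧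
      LinearMap.det (act ρ (fun g => (t g : Ω))) ≠ 0 := by
  classical
  letI := Fintype.ofFinite G
  obtain ⟨τ, ⟨e⟩⟩ := exists_fin ρ
  have hP' : ∀ g, P g⁻¹ ↔ P g := fun g =>
    ⟨fun h => by simpa using hP _ h, hP g⟩
  have hpt : ∀ _ : Unit, ∃ x : G → Ω,
      LinearMap.det (∑ g, x g • (if P g then τ g + τ g⁻¹ else 0)) ≠ 0 := by
    intro _
    refine ⟨fun g => (2 : Ω)⁻¹ * u g, ?_⟩
    have e1 : ∑ g, ((2 : Ω)⁻¹ * u g) • (if P g then τ g + τ g⁻¹ else 0) = act τ u := by
      rw [act_eq]
      have e3 : ∀ g, ((2 : Ω)⁻¹ * u g) • (if P g then τ g + τ g⁻¹ else 0) =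
          ((2 : Ω)⁻¹ * u g) • τ g + ((2 : Ω)⁻¹ * u g) • τ g⁻¹ := by
        intro g
        by_cases hg : P g
        · rw [if_pos hg, smul_add]
        · rw [huP g hg]
          simp
      rw [Finset.sum_congr rfl fun g _ => e3 g, Finset.sum_add_distrib]
      have e2 : ∑ g, ((2 : Ω)⁻¹ * u g) • τ g⁻¹ = ∑ g, ((2 : Ω)⁻¹ * u g) • τ g := by
        refine Fintype.sum_equiv (Equiv.inv G) _ _ fun g => ?_
        simp only [Equiv.inv_apply, hu]
      rw [e2, ← Finset.sum_add_distrib]
      refine Finset.sum_congr rfl fun g _ => ?_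
      rw [← add_smul]
      congr 1
      ring
    rw [e1, ← equiv_det e]
    exact hd
  obtain ⟨q, hq⟩ := exists_rat_point (κ := Unit)
    (fun _ g => if P g then τ g + τ g⁻¹ else 0) hpt
  refine ⟨fun g => if P g then q g + q g⁻¹ else 0, fun g => ?_, fun g hg => if_neg hg, ?_⟩
  · simp only [hP', inv_inv]
    by_cases hg : P g
    · rw [if_pos hg, if_pos hg, add_comm]
    · rw [if_neg hg, if_neg hg]
  · rw [equiv_det e]
    have e1 : act τ (fun g => ((if P g then q g + q g⁻¹ else 0 : ℚ) : Ω)) =
        ∑ g, (q g : Ω) • (if P g then τ g + τ g⁻¹ else 0) := by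
      rw [act_eq]
      have e3 : ∀ g, (q g : Ω) • (if P g then τ g + τ g⁻¹ else 0) =
          (if P g then (q g : Ω) • τ g else 0) + (if P g then (q g : Ω) • τ g⁻¹ else 0) := by
        intro g
        by_cases hg : P g
        · rw [if_pos hg, if_pos hg, if_pos hg, smul_add]
        · rw [if_neg hg, if_neg hg, if_neg hg]
          simp
      rw [Finset.sum_congr rfl fun g _ => e3 g, Finset.sum_add_distrib]
      have e2 : ∑ g, (if P g then (q g : Ω) • τ g⁻¹ else 0) =
          ∑ g, (if P g then (q g⁻¹ : Ω) • τ g else 0) := by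
        refine Fintype.sum_equiv (Equiv.inv G) _ _ fun g => ?_
        simp only [Equiv.inv_apply, inv_inv, hP']
      rw [e2, ← Finset.sum_add_distrib]
      refine Finset.sum_congr rfl fun g _ => ?_
      by_cases hg : P g
      · rw [if_pos hg, if_pos hg, if_pos hg, ← add_smul, Rat.cast_add]
      · rw [if_neg hg, if_neg hg, if_neg hg]
        simp
    rw [e1]
    exact hq ()

/-- an irreducible representation of even dimension has no self dual constituent of odd dimension -/
theorem noOdd_of_even {ρ : Representation Ω G V} (hρ : ρ.IsIrreducible)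
    (h : Even (Module.finrank Ω V)) : NoOdd ρ := by
  intro W _ hodd _
  rcases irr_sub hρ (U := W.toSubmodule) (fun g x hx => W.apply_mem_toSubmodule g hx) with h0 | h0
  · rw [h0, finrank_bot] at hodd
    exact absurd hodd (by decide)
  · rw [h0, finrank_top] at hodd
    exact (Nat.not_even_iff_odd.2 hodd) h

end

end Parker
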