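import Pool.Agent.Parker.Defs
import Pool.Agent.Parker.P01
import Pool.Agent.Parker.P02
import Pool.Agent.Parker.P05
import Pool.Agent.Parker.P08
import Pool.Agent.Parker.P09
import Pool.Agent.Parker.P10

/-!
# MP_6c3636_al, module P12: (STAR) (helper7)
-/

namespace Parker

universe u v

noncomputable section

variable {Ω : Type} [Field Ω] [IsAlgClosed Ω] [CharZero Ω] {G : Type u} [Group G] [Finite G]
  {V : Type v} [AddCommGroup V] [Module Ω V] [FiniteDimensional Ω V]

/-- the stabilizer in `Γ` of a function -/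
def stab (Γ : Subgroup (RingAut Ω)) (φ : G → Ω) : Subgroup (RingAut Ω) where
  carrier := {σ | σ ∈ Γ ∧ ∀ g, σ (φ g) = φ g}
  mul_mem' := by
    rintro a b ⟨ha, ha'⟩ ⟨hb, hb'⟩
    exact ⟨Γ.mul_mem ha hb, fun g => by rw [RingAut.mul_apply, hb', ha']⟩
  one_mem' := ⟨Γ.one_mem, fun g => rfl⟩
  inv_mem' := by
    rintro a ⟨ha, ha'⟩
    refine ⟨Γ.inv_mem ha, fun g => ?_⟩
    conv_lhs => rw [← ha' g]
    exact RingEquiv.symm_apply_apply a _


namespace P12_aux

/-- the orbit -/
def orb (Γ : Subgroup (RingAut Ω)) (φ : G → Ω) : Set (G → Ω) :=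
  {ψ | ∃ σ ∈ Γ, ψ = fun g => σ (φ g)}

omit [IsAlgClosed Ω] [CharZero Ω] [Finite G] in
theorem relIndex_eq (Γ : Subgroup (RingAut Ω)) (φ : G → Ω) :
    (stab Γ φ).relIndex Γ = (orb Γ φ).ncard := by
  have h1 : (stab Γ φ).subgroupOf Γ = MulAction.stabilizer Γ φ := by
    ext σ
    rw [Subgroup.mem_subgroupOf, MulAction.mem_stabilizer_iff]
    constructor
    · intro h
      funext g
      exact h.2 g
    · intro h
      exact ⟨σ.2, fun g => congrFun h g⟩
  have h2 : MulAction.orbit Γ φ = orb Γ φ := by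
    ext ψ
    constructor
    · rintro ⟨σ, rfl⟩
      exact ⟨σ.1, σ.2, rfl⟩
    · rintro ⟨σ, hσ, rfl⟩
      exact ⟨⟨σ, hσ⟩, rfl⟩
  rw [Subgroup.relIndex, h1, MulAction.index_stabilizer, h2]

omit [IsAlgClosed Ω] [CharZero Ω] [Finite G] in
theorem mem_orb_self (Γ : Subgroup (RingAut Ω)) (φ : G → Ω) : φ ∈ orb Γ φ :=
  ⟨1, Γ.one_mem, rfl⟩

theorem orb_finite {Γ : Subgroup (RingAut Ω)} {φ : G → Ω} (hφ : φ ∈ irr Ω G) :
    (orb Γ φ).Finite := by
  refine Set.Finite.subset (irr Ω G).finite_toSet ?_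
  rintro ψ ⟨σ, -, rfl⟩
  exact sigma_mem_irr hφ σ

end P12_aux

open P12_aux

/-- stabilizers of irreducible characters have finite index; the index is the orbit size -/
theorem stab_relIndex {Γ : Subgroup (RingAut Ω)} {φ : G → Ω} (hφ : φ ∈ irr Ω G) :
    (stab Γ φ).relIndex Γ ≠ 0 := by
  rw [relIndex_eq]
  rw [ne_eq, Set.ncard_eq_zero (orb_finite hφ)]
  intro h
  have := mem_orb_self Γ φ
  rw [h] at this
  exact this

namespace P12_aux

/-- the stabilizer of the pair `{φ, φ*}` -/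
def stab2 (Γ : Subgroup (RingAut Ω)) (φ : G → Ω) : Subgroup (RingAut Ω) where
  carrier := {σ | σ ∈ Γ ∧ ((∀ g, σ (φ g) = φ g) ∨ ∀ g, σ (φ g) = φ g⁻¹)}
  mul_mem' := by
    rintro a b ⟨ha, ha'⟩ ⟨hb, hb'⟩
    refine ⟨Γ.mul_mem ha hb, ?_⟩
    rcases ha' with ha' | ha' <;> rcases hb' with hb' | hb'
    · exact Or.inl fun g => by rw [RingAut.mul_apply, hb', ha']
    · exact Or.inr fun g => by rw [RingAut.mul_apply, hb', ha']
    · exact Or.inr fun g => by rw [RingAut.mul_apply, hb', ha']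
    · exact Or.inl fun g => by rw [RingAut.mul_apply, hb', ha', inv_inv]
  one_mem' := ⟨Γ.one_mem, Or.inl fun g => rfl⟩
  inv_mem' := by
    rintro a ⟨ha, ha'⟩
    refine ⟨Γ.inv_mem ha, ?_⟩
    rcases ha' with ha' | ha'
    · left
      intro g
      conv_lhs => rw [← ha' g]
      exact RingEquiv.symm_apply_apply a _
    · right
      intro g
      have := ha' g⁻¹
      rw [inv_inv] at this
      conv_lhs => rw [← this]
      exact RingEquiv.symm_apply_apply a _

omit [IsAlgClosed Ω] [CharZero Ω] [Finite G] in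
theorem stab_le (Γ : Subgroup (RingAut Ω)) (φ : G → Ω) : stab Γ φ ≤ Γ := fun _ h => h.1

omit [IsAlgClosed Ω] [CharZero Ω] [Finite G] in
theorem stab2_le (Γ : Subgroup (RingAut Ω)) (φ : G → Ω) : stab2 Γ φ ≤ Γ := fun _ h => h.1

omit [IsAlgClosed Ω] [CharZero Ω] [Finite G] in
theorem stab_le_stab2 (Γ : Subgroup (RingAut Ω)) (φ : G → Ω) : stab Γ φ ≤ stab2 Γ φ :=
  fun _ h => ⟨h.1, Or.inl h.2⟩

omit [IsAlgClosed Ω] [CharZero Ω] [Finite G] in
theorem stab_stab2 (Γ : Subgroup (RingAut Ω)) (φ : G → Ω) : stab (stab2 Γ φ) φ = stab Γ φ := by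
  ext σ
  constructor
  · rintro ⟨h1, h2⟩
    exact ⟨h1.1, h2⟩
  · rintro ⟨h1, h2⟩
    exact ⟨⟨h1, Or.inl h2⟩, h2⟩

theorem detc_fix {Γ : Subgroup (RingAut Ω)} {s : G → Ω} (hs : ∀ g, Fx Γ (s g)) {φ : G → Ω}
    (hφ : φ ∈ irr Ω G) {σ : RingAut Ω} (hσ : σ ∈ Γ) :
    detc (fun g => σ (φ g)) s = σ (detc φ s) := by
  rw [← detc_sigma hφ]
  congr 1
  funext g
  exact (hs g σ hσ).symm

theorem detc_dual {s : G → Ω} (hk : ∀ g, s g⁻¹ = - s g) {φ : G → Ω} (hφ : φ ∈ irr Ω G) :
    detc (du φ) s = (-1) ^ dg φ * detc φ s := by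
  rw [detc_du hφ]
  have : du s = -s := funext hk
  rw [this, detc_neg hφ]

omit [IsAlgClosed Ω] [CharZero Ω] in
theorem av_neg_one_pow (c : Ctx Ω) (n : ℕ) (x : Ω) : c.av ((-1) ^ n * x) = c.av x := by
  rcases neg_one_pow_eq_or Ω n with h | h
  · rw [h, one_mul]
  · rw [h, neg_one_mul, map_neg_eq_map]

theorem sqV_pow_card {c : Ctx Ω} {m : ℕ} (hA : PropA c m G) (hB : PropB c m G)
    {Γ : Subgroup (RingAut Ω)} (hΓ : Ok c m Γ) {ρ : Representation Ω G V} (hO : Orth ρ)
    (hF : FxC Γ ρ) {s : G → Ω} (hs : ∀ g, Fx Γ (s g)) (hk : ∀ g, s g⁻¹ = - s g)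
    {φ : G → Ω} (hφ : φ ∈ irr Ω G) (hb : detc φ s ≠ 0) (O : Finset (G → Ω))
    (hOrb : ∀ ψ, ψ ∈ O ↔ ∃ σ ∈ Γ, ψ = (fun g => σ (φ g)) ∨ ψ = du (fun g => σ (φ g))) :
    Even (mul ρ.character φ) ∨ SqV c Γ (c.av (detc φ s) ^ O.card) := by
  classical
  obtain ⟨n, τ, hτ, hτφ⟩ := mem_irr.1 hφ
  have hdet : detc φ s = LinearMap.det (act τ s) := by
    rw [← hτφ, detc_char hτ]
  have hdg : dg φ = n := by
    rw [← hτφ, dg_char]
    simp
  have hOk : Ok c m (stab Γ φ) := ok_mono hΓ (stab_le Γ φ)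
  have hrel := stab_relIndex (Γ := Γ) hφ
  have hfix : Fx (stab Γ φ) (detc φ s) := by
    intro σ hσ
    rw [← detc_fix hs hφ hσ.1]
    congr 1
    funext g
    exact hσ.2 g
  by_cases hsd : du φ = φ
  · -- self dual
    have hSD : SD τ := by
      intro g
      rw [hτφ]
      exact congrFun hsd g
    have hcard : O.card = (stab Γ φ).relIndex Γ := by
      rw [relIndex_eq, ← Set.ncard_coe_finset]
      congr 1
      ext ψ
      rw [Finset.mem_coe, hOrb]
      constructor
      · rintro ⟨σ, hσ, h | h⟩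
        · exact ⟨σ, hσ, h⟩
        · refine ⟨σ, hσ, ?_⟩
          rw [h]
          funext g
          show σ (φ g⁻¹) = σ (φ g)
          congr 1
          exact congrFun hsd g
      · rintro ⟨σ, hσ, h⟩
        exact ⟨σ, hσ, Or.inl h⟩
    rcases exists_form hτ hSD with hor | ⟨b, hb1, hb2, hb3⟩
    · right
      have heven : Even n := by
        by_contra hodd
        rw [Nat.not_even_iff_odd] at hodd
        have h1 := detc_dual hk hφ
        rw [hsd, hdg, hodd.neg_one_pow, neg_one_mul] at h1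
        exact hb (self_eq_neg.1 h1)
      have h1 : SqV c (stab Γ φ) (c.av (detc φ s)) := by
        rw [hdet]
        refine hA (stab Γ φ) hOk n τ hτ heven hor ?_ s (fun g => fx_mono (stab_le Γ φ) (hs g)) hk ?_
        · intro g σ hσ
          rw [hτφ]
          exact hσ.2 g
        · rw [← hdet]
          exact hb
      rw [sqV_iff] at h1
      obtain ⟨t, ht, htr⟩ := h1
      rw [← htr, hcard, ← pow_mul, mul_comm, pow_mul]
      exact sqV_sq (inV_norm hΓ (stab_le Γ φ) hrel ht)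
    · left
      have := even_mul hO hτ hb1 hb2 hb3
      rwa [hτφ] at this
  · right
    by_cases hγ : ∃ γ ∈ Γ, ∀ g, γ (φ g) = φ g⁻¹
    · -- the dual is in the orbit
      obtain ⟨γ, hγΓ, hγ⟩ := hγ
      have hcard : O.card = (stab Γ φ).relIndex Γ := by
        rw [relIndex_eq, ← Set.ncard_coe_finset]
        congr 1
        ext ψ
        rw [Finset.mem_coe, hOrb]
        constructor
        · rintro ⟨σ, hσ, h | h⟩
          · exact ⟨σ, hσ, h⟩
          · refine ⟨σ * γ, Γ.mul_mem hσ hγΓ, ?_⟩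
            rw [h]
            funext g
            show σ (φ g⁻¹) = σ (γ (φ g))
            rw [hγ]
        · rintro ⟨σ, hσ, h⟩
          exact ⟨σ, hσ, Or.inl h⟩
      have h2 : (stab Γ φ).relIndex (stab2 Γ φ) = 2 := by
        rw [← stab_stab2, relIndex_eq]
        have : orb (stab2 Γ φ) φ = {φ, du φ} := by
          ext ψ
          constructor
          · rintro ⟨σ, hσ, rfl⟩
            rcases hσ.2 with h | h
            · left
              exact funext h
            · right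
              exact funext h
          · rintro (h | h)
            · exact ⟨1, Subgroup.one_mem _, h⟩
            · refine ⟨γ, ⟨hγΓ, Or.inr hγ⟩, ?_⟩
              rw [h]
              funext g
              exact (hγ g).symm
        rw [this, Set.ncard_pair (Ne.symm hsd)]
      have h3 := Subgroup.relIndex_mul_relIndex (stab Γ φ) (stab2 Γ φ) Γ (stab_le_stab2 Γ φ)
        (stab2_le Γ φ)
      rw [h2, ← hcard] at h3
      have hOk2 : Ok c m (stab2 Γ φ) := ok_mono hΓ (stab2_le Γ φ)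
      have hrel2 : (stab2 Γ φ).relIndex Γ ≠ 0 := by
        intro h0
        rw [h0, mul_zero, hcard] at h3
        exact hrel h3.symm
      have h4 : InV c (stab2 Γ φ) (c.av (detc φ s)) := by
        have hσb : ∀ σ ∈ stab2 Γ φ, (∀ g, σ (φ g) = φ g⁻¹) →
            σ (detc φ s) = (-1) ^ dg φ * detc φ s := by
          intro σ hσ h
          rw [← detc_fix hs hφ hσ.1, ← detc_dual hk hφ]
          congr 1
          exact funext h
        rcases Nat.even_or_odd n with hn | hn
        · apply inV_of_fx hb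
          intro σ hσ
          rcases hσ.2 with h | h
          · exact hfix σ ⟨hσ.1, h⟩
          · rw [hσb σ hσ h, hdg, hn.neg_one_pow, one_mul]
        · refine hB (stab2 Γ φ) hOk2 n τ hτ hn ⟨γ, ⟨hγΓ, Or.inr hγ⟩, ?_⟩ _ hb ?_
          · rw [hτφ]
            exact hγ
          · intro σ hσ
            by_cases hfx : Fixes σ τ
            · rw [if_pos hfx]
              refine hfix σ ⟨hσ.1, ?_⟩
              intro g
              have := hfx g
              rwa [hτφ] at this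
            · rw [if_neg hfx]
              rcases hσ.2 with h | h
              · exfalso
                apply hfx
                intro g
                rw [hτφ]
                exact h g
              · rw [hσb σ hσ h, hdg, hn.neg_one_pow, neg_one_mul]
      rw [← h3, mul_comm, pow_mul]
      exact sqV_sq (inV_norm hΓ (stab2_le Γ φ) hrel2 h4)
    · -- the dual is not in the orbit
      have hcard : O.card = 2 * (stab Γ φ).relIndex Γ := by
        have hfin := orb_finite (Γ := Γ) hφ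
        have hO2 : (O : Set (G → Ω)) = orb Γ φ ∪ du '' orb Γ φ := by
          ext ψ
          rw [Finset.mem_coe, hOrb]
          constructor
          · rintro ⟨σ, hσ, h | h⟩
            · exact Or.inl ⟨σ, hσ, h⟩
            · exact Or.inr ⟨_, ⟨σ, hσ, rfl⟩, h.symm⟩
          · rintro (⟨σ, hσ, h⟩ | ⟨_, ⟨σ, hσ, rfl⟩, h⟩)
            · exact ⟨σ, hσ, Or.inl h⟩
            · exact ⟨σ, hσ, Or.inr h.symm⟩
        have hdisj : Disjoint (orb Γ φ) (du '' orb Γ φ) := by
          rw [Set.disjoint_left]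
          rintro ψ ⟨σ, hσ, h1⟩ ⟨_, ⟨σ', hσ', rfl⟩, h2⟩
          apply hγ
          refine ⟨σ'⁻¹ * σ, Γ.mul_mem (Γ.inv_mem hσ') hσ, fun g => ?_⟩
          have h3 : σ' (φ g⁻¹) = σ (φ g) := by
            rw [h1] at h2
            exact congrFun h2 g
          rw [RingAut.mul_apply, ← h3]
          exact RingEquiv.symm_apply_apply σ' _
        have hinj : Function.Injective (du : (G → Ω) → (G → Ω)) :=
          Function.LeftInverse.injective (g := du) fun φ => du_du φ
        rw [relIndex_eq, ← Set.ncard_coe_finset, hO2,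
          Set.ncard_union_eq hdisj hfin (hfin.image _), Set.ncard_image_of_injective _ hinj]
        ring
      have h4 : InV c (stab Γ φ) (c.av (detc φ s)) := inV_of_fx hb hfix
      rw [hcard, mul_comm, pow_mul]
      exact sqV_sq (inV_norm hΓ (stab_le Γ φ) hrel h4)

end P12_aux

/-- one orbit of the product -/
theorem orbit_sq {c : Ctx Ω} {m : ℕ} (hA : PropA c m G) (hB : PropB c m G)
    {Γ : Subgroup (RingAut Ω)} (hΓ : Ok c m Γ) {ρ : Representation Ω G V} (hO : Orth ρ)
    (hF : FxC Γ ρ) {s : G → Ω} (hs : ∀ g, Fx Γ (s g)) (hk : ∀ g, s g⁻¹ = - s g)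
    (hd : LinearMap.det (act ρ s) ≠ 0) {φ : G → Ω} (hφ : φ ∈ irr Ω G)
    (hm : mul ρ.character φ ≠ 0) (O : Finset (G → Ω))
    (hOrb : ∀ ψ, ψ ∈ O ↔ ∃ σ ∈ Γ, ψ = (fun g => σ (φ g)) ∨ ψ = du (fun g => σ (φ g))) :
    SqV c Γ (c.av (∏ ψ ∈ O, detc ψ s ^ mul ρ.character ψ)) := by
  classical
  have hb : detc φ s ≠ 0 := by
    intro h0
    apply hd
    rw [det_eq_prod]
    apply Finset.prod_eq_zero hφ
    rw [h0, zero_pow hm]
  have hfixρ : ∀ σ ∈ Γ, Fixes σ ρ := fun σ hσ g => hF g σ hσ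
  have hSD : SD ρ := sd_of_orth hO
  -- the value on every member of the orbit
  have hval : ∀ ψ ∈ O, c.av (detc ψ s) = c.av (detc φ s) ∧
      mul ρ.character ψ = mul ρ.character φ := by
    intro ψ hψ
    rw [hOrb] at hψ
    obtain ⟨σ, hσ, h | h⟩ := hψ
    · subst h
      refine ⟨?_, mul_sigma (hfixρ σ hσ) hφ⟩
      rw [detc_fix hs hφ hσ, hΓ.pres σ hσ]
    · subst h
      have h1 := sigma_mem_irr hφ σ
      refine ⟨?_, ?_⟩
      · rw [detc_dual hk h1, av_neg_one_pow, detc_fix hs hφ hσ, hΓ.pres σ hσ]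
      · rw [mul_du hSD h1, mul_sigma (hfixρ σ hσ) hφ]
  have hprod : c.av (∏ ψ ∈ O, detc ψ s ^ mul ρ.character ψ) =
      (c.av (detc φ s) ^ O.card) ^ mul ρ.character φ := by
    rw [map_prod]
    have : ∀ ψ ∈ O, c.av (detc ψ s ^ mul ρ.character ψ) =
        c.av (detc φ s) ^ mul ρ.character φ := by
      intro ψ hψ
      rw [map_pow, (hval ψ hψ).1, (hval ψ hψ).2]
    rw [Finset.prod_congr rfl this, Finset.prod_const, ← pow_mul, ← pow_mul, mul_comm]
  rw [hprod]
  rcases sqV_pow_card hA hB hΓ hO hF hs hk hφ hb O hOrb with he | he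
  · -- even multiplicity
    have h1 : InV c Γ (c.av (detc φ s) ^ O.card) := by
      have h2 : c.av (∏ ψ ∈ O, detc ψ s) = c.av (detc φ s) ^ O.card := by
        rw [map_prod, Finset.prod_congr rfl fun ψ hψ => (hval ψ hψ).1, Finset.prod_const]
      rw [← h2]
      have hne : ∏ ψ ∈ O, detc ψ s ≠ 0 := by
        rw [Finset.prod_ne_zero_iff]
        intro ψ hψ h0
        have := (hval ψ hψ).1
        rw [h0, map_zero] at this
        exact hb (c.av.eq_zero.1 this.symm)
      apply inV_of_fx hne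
      intro σ hσ
      rw [map_prod]
      have hmem : ∀ τ ∈ Γ, ∀ ψ ∈ O, (fun g => τ (ψ g)) ∈ O := by
        intro τ hτ ψ hψ
        rw [hOrb] at hψ ⊢
        obtain ⟨σ', hσ', h | h⟩ := hψ
        · exact ⟨τ * σ', Γ.mul_mem hτ hσ', Or.inl (by rw [h]; rfl)⟩
        · exact ⟨τ * σ', Γ.mul_mem hτ hσ', Or.inr (by rw [h]; rfl)⟩
      have hirr : ∀ ψ ∈ O, ψ ∈ irr Ω G := by
        intro ψ hψ
        rw [hOrb] at hψ
        obtain ⟨σ', hσ', h | h⟩ := hψ
        · rw [h]; exact sigma_mem_irr hφ σ'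
        · rw [h]; exact du_mem_irr (sigma_mem_irr hφ σ')
      refine Finset.prod_bij' (fun ψ _ => fun g => σ (ψ g)) (fun ψ _ => fun g => σ⁻¹ (ψ g))
        (fun ψ hψ => hmem σ hσ ψ hψ) (fun ψ hψ => hmem σ⁻¹ (Γ.inv_mem hσ) ψ hψ) ?_ ?_ ?_
      · intro ψ _
        funext g
        exact RingEquiv.symm_apply_apply σ _
      · intro ψ _
        funext g
        exact RingEquiv.apply_symm_apply σ _
      · intro ψ hψ
        exact (detc_fix hs (hirr ψ hψ) hσ).symm
    obtain ⟨k, hk'⟩ := he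
    rw [hk', ← two_mul, mul_comm, pow_mul]
    exact sqV_sq (inV_pow h1 k)
  · exact sqV_pow he _

/-- (STAR) -/
theorem star {c : Ctx Ω} {m : ℕ} (hA : PropA c m G) (hB : PropB c m G)
    {Γ : Subgroup (RingAut Ω)} (hΓ : Ok c m Γ) {ρ : Representation Ω G V} (hO : Orth ρ)
    (hF : FxC Γ ρ) {s : G → Ω} (hs : ∀ g, Fx Γ (s g)) (hk : ∀ g, s g⁻¹ = - s g)
    (hd : LinearMap.det (act ρ s) ≠ 0) : SqV c Γ (c.av (LinearMap.det (act ρ s))) := by
  classical
  rw [det_eq_prod]
  let R : Setoid (G → Ω) :=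
    { r := fun φ ψ => ∃ σ ∈ Γ, ψ = (fun g => σ (φ g)) ∨ ψ = du (fun g => σ (φ g))
      iseqv := by
        refine ⟨fun φ => ⟨1, Γ.one_mem, Or.inl rfl⟩, ?_, ?_⟩
        · rintro φ ψ ⟨σ, hσ, h | h⟩
          · refine ⟨σ⁻¹, Γ.inv_mem hσ, Or.inl ?_⟩
            rw [h]
            funext g
            exact (RingEquiv.symm_apply_apply σ _).symm
          · refine ⟨σ⁻¹, Γ.inv_mem hσ, Or.inr ?_⟩
            rw [h]
            funext g
            show φ g = σ⁻¹ (σ (φ (g⁻¹)⁻¹))
            rw [inv_inv]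
            exact (RingEquiv.symm_apply_apply σ _).symm
        · rintro φ ψ χ ⟨σ, hσ, h⟩ ⟨τ, hτ, h'⟩
          refine ⟨τ * σ, Γ.mul_mem hτ hσ, ?_⟩
          rcases h with h | h <;> rcases h' with h' | h'
          · left; rw [h', h]; rfl
          · right; rw [h', h]; rfl
          · right; rw [h', h]; rfl
          · left
            rw [h', h]
            funext g
            show τ (σ (φ (g⁻¹)⁻¹)) = _
            rw [inv_inv]
            rfl }
  rw [Finset.prod_partition R, map_prod]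
  apply sqV_prod
  intro x hx
  rw [Finset.mem_image] at hx
  obtain ⟨φ, hφ, rfl⟩ := hx
  have hOrb : ∀ ψ, ψ ∈ (irr Ω G).filter (fun y => (Quotient.mk R y) = Quotient.mk R φ) ↔
      ∃ σ ∈ Γ, ψ = (fun g => σ (φ g)) ∨ ψ = du (fun g => σ (φ g)) := by
    intro ψ
    rw [Finset.mem_filter]
    constructor
    · rintro ⟨-, h⟩
      exact Quotient.exact h.symm
    · intro h
      refine ⟨?_, (Quotient.sound (s := R) h).symm⟩
      obtain ⟨σ, -, h | h⟩ := h
      · rw [h]; exact sigma_mem_irr hφ σ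
      · rw [h]; exact du_mem_irr (sigma_mem_irr hφ σ)
  by_cases hm : mul ρ.character φ = 0
  · have : ∀ ψ ∈ (irr Ω G).filter (fun y => (Quotient.mk R y) = Quotient.mk R φ),
        detc ψ s ^ mul ρ.character ψ = 1 := by
      intro ψ hψ
      rw [hOrb] at hψ
      obtain ⟨σ, hσ, h | h⟩ := hψ
      · rw [h, mul_sigma (fun g => hF g σ hσ) hφ, hm, pow_zero]
      · rw [h, mul_du (sd_of_orth hO) (sigma_mem_irr hφ σ), mul_sigma (fun g => hF g σ hσ) hφ, hm,
          pow_zero]
    rw [Finset.prod_congr rfl this, Finset.prod_const_one, map_one]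
    exact sqV_one
  · exact orbit_sq hA hB hΓ hO hF hs hk hd hφ hm _ hOrb

end

end Parker
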