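import Pool.Agent.Parker.Defs
import Pool.Agent.Parker.P01
import Pool.Agent.Parker.P02
import Pool.Agent.Parker.P05
import Pool.Agent.Parker.P06
import Pool.Agent.Parker.P08
import Pool.Agent.Parker.P09
import Pool.Agent.Parker.P10
import Pool.Agent.Parker.P11
import Pool.Agent.Parker.P12

/-!
# MP_6c3636_al, module P13: using (A) and (B) for subgroups, quotients, isomorphic groups (helper7)
-/

namespace Parker

universe u v w

noncomputable section

namespace P13_aux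

variable {Ω : Type} [Field Ω] {G : Type u} [Group G] {G' : Type w} [Group G']
  {V : Type v} [AddCommGroup V] [Module Ω V]

/-- pull back along a homomorphism -/
def pb (f : G →* G') (ρ : Representation Ω G' V) : Representation Ω G V := MonoidHom.comp ρ f

theorem pb_char (f : G →* G') (ρ : Representation Ω G' V) (g : G) :
    (pb f ρ).character g = ρ.character (f g) := rfl

theorem pb_orth (f : G →* G') {ρ : Representation Ω G' V} (h : Orth ρ) : Orth (pb f ρ) := by
  obtain ⟨B, hB⟩ := h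
  exact ⟨B, hB.symm, hB.nondeg, fun g x y => hB.inv (f g) x y⟩

theorem orth_of_pb {f : G →* G'} (hf : Function.Surjective f) {ρ : Representation Ω G' V}
    (h : Orth (pb f ρ)) : Orth ρ := by
  obtain ⟨B, hB⟩ := h
  refine ⟨B, hB.symm, hB.nondeg, fun g x y => ?_⟩
  obtain ⟨a, rfl⟩ := hf g
  exact hB.inv a x y

theorem pb_fxC (f : G →* G') {ρ : Representation Ω G' V} {Γ : Subgroup (RingAut Ω)}
    (h : FxC Γ ρ) : FxC Γ (pb f ρ) := fun g => h (f g)

theorem fxC_of_pb {f : G →* G'} (hf : Function.Surjective f) {ρ : Representation Ω G' V}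
    {Γ : Subgroup (RingAut Ω)} (h : FxC Γ (pb f ρ)) : FxC Γ ρ := by
  intro g
  obtain ⟨a, rfl⟩ := hf g
  exact h a

theorem pb_fixes {f : G →* G'} (hf : Function.Surjective f) {ρ : Representation Ω G' V}
    {σ : RingAut Ω} : Fixes σ (pb f ρ) ↔ Fixes σ ρ := by
  constructor
  · intro h g
    obtain ⟨a, rfl⟩ := hf g
    exact h a
  · exact fun h g => h (f g)

theorem fixes_iff {W : Type*} [AddCommGroup W] [Module Ω W] {ρ : Representation Ω G V}
    {τ : Representation Ω G W} (h : ρ.character = τ.character) {σ : RingAut Ω} :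
    Fixes σ τ ↔ Fixes σ ρ := by
  unfold Fixes
  rw [h]

open Classical in
theorem ite_iff {p q : Prop} (h : p ↔ q) {d : Ω} (x : Ω) (hx : x = if q then d else - d) :
    x = if p then d else - d := by
  rw [hx]
  by_cases hp : p
  · rw [if_pos hp, if_pos (h.mp hp)]
  · rw [if_neg hp, if_neg (fun hq => hp (h.mpr hq))]

variable [IsAlgClosed Ω] [CharZero Ω] [Finite G] [Finite G'] [FiniteDimensional Ω V]

theorem pb_irr {f : G →* G'} (hf : Function.Surjective f) {ρ : Representation Ω G' V}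
    (h : ρ.IsIrreducible) : (pb f ρ).IsIrreducible := by
  refine irr_of_sub (irr_pos h) fun U hU => irr_sub h fun g x hx => ?_
  obtain ⟨a, rfl⟩ := hf g
  exact hU a x hx

theorem irr_of_pb {f : G →* G'} {ρ : Representation Ω G' V}
    (h : (pb f ρ).IsIrreducible) : ρ.IsIrreducible :=
  irr_of_sub (irr_pos h) fun _ hU => irr_sub h fun g x hx => hU (f g) x hx

end P13_aux

open P13_aux

variable {Ω : Type} [Field Ω] [IsAlgClosed Ω] [CharZero Ω] {G : Type u} [Group G] [Finite G]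
  {V : Type v} [AddCommGroup V] [Module Ω V] [FiniteDimensional Ω V]
  {c : Ctx Ω} {m : ℕ} {Γ : Subgroup (RingAut Ω)}

theorem orth_rs {ρ : Representation Ω G V} (h : Orth ρ) (H : Subgroup G) : Orth (rs H ρ) := by
  obtain ⟨B, hB⟩ := h
  exact ⟨B, hB.symm, hB.nondeg, fun g x y => hB.inv g x y⟩

theorem fxC_rs {ρ : Representation Ω G V} (h : FxC Γ ρ) (H : Subgroup G) : FxC Γ (rs H ρ) := by
  exact fun g => h g

/-- (A) for representations on arbitrary spaces: they are good (`exists_skew_rat`, `noOdd_of_even`,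
`exists_fin`, `equiv_good`) -/
theorem good_of_propA (hA : PropA c m G) (hΓ : Ok c m Γ) {ρ : Representation Ω G V}
    (hρ : ρ.IsIrreducible) (hev : Even (Module.finrank Ω V)) (hO : Orth ρ) (hF : FxC Γ ρ) :
    GoodV c Γ ρ := by
  obtain ⟨τ, ⟨e⟩⟩ := exists_fin ρ
  refine equiv_good e.symm ?_
  have hch : ρ.character = τ.character := Representation.char_iso e
  have hτ := equiv_irr e hρ
  have hτO := equiv_orth e hO
  have hτF : FxC Γ τ := by
    intro g
    rw [← hch]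
    exact hF g
  have hfr : Module.finrank Ω (Fin (Module.finrank Ω V) → Ω) = Module.finrank Ω V :=
    Module.finrank_fin_fun Ω
  obtain ⟨s, hs, hd⟩ := exists_skew_rat (noOdd_of_even hτ (by rw [hfr]; exact hev))
  have hs1 : ∀ g, Fx Γ ((s g : ℚ) : Ω) := fun g => fx_ratCast Γ (s g)
  have hs2 : ∀ g, (((s g⁻¹ : ℚ)) : Ω) = - ((s g : ℚ) : Ω) := fun g => by
    rw [hs g, Rat.cast_neg]
  have hsq := hA Γ hΓ _ τ hτ hev hτO hτF (fun g => (s g : Ω)) hs1 hs2 hd
  obtain ⟨B, hB⟩ := hτO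
  exact ⟨B, hB, act τ (fun g => (s g : Ω)), ⟨_, hs1, rfl⟩, skew_of_skew hB hs2, hd, hsq⟩

open Classical in
/-- (B) for representations on arbitrary spaces -/
theorem propB_gen (hB : PropB c m G) (hΓ : Ok c m Γ) {ρ : Representation Ω G V}
    (hρ : ρ.IsIrreducible) (hodd : Odd (Module.finrank Ω V))
    (hγ : ∃ γ ∈ Γ, ∀ g, γ (ρ.character g) = ρ.character g⁻¹) {d : Ω} (hd : d ≠ 0)
    (hσ : ∀ σ ∈ Γ, σ d = if Fixes σ ρ then d else - d) : InV c Γ (c.av d) := by
  obtain ⟨τ, ⟨e⟩⟩ := exists_fin ρ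
  have hch : ρ.character = τ.character := Representation.char_iso e
  obtain ⟨γ, hγ1, hγ2⟩ := hγ
  refine hB Γ hΓ _ τ (equiv_irr e hρ) hodd ⟨γ, hγ1, ?_⟩ d hd fun σ hs =>
    ite_iff (fixes_iff hch) _ (hσ σ hs)
  rw [← hch]
  exact hγ2

/-- 3(1): restriction to a subgroup satisfying (A) and (B) without self dual constituents of odd
dimension -/
theorem good_of_res (H : Subgroup G) (hA : PropA c m H) (hB : PropB c m H) (hΓ : Ok c m Γ)
    {ρ : Representation Ω G V} (hO : Orth ρ) (hF : FxC Γ ρ) (hN : NoOdd (rs H ρ)) :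
    GoodV c Γ ρ := by
  obtain ⟨s, hs, hd⟩ := exists_skew_rat hN
  have hs1 : ∀ g, Fx Γ ((s g : ℚ) : Ω) := fun g => fx_ratCast Γ (s g)
  have hs2 : ∀ g, (((s g⁻¹ : ℚ)) : Ω) = - ((s g : ℚ) : Ω) := fun g => by
    rw [hs g, Rat.cast_neg]
  have hsq := star hA hB hΓ (orth_rs hO H) (fxC_rs hF H) hs1 hs2 hd
  obtain ⟨B, hB'⟩ := hO
  have hB'' : InvForm (rs H ρ) B := ⟨hB'.symm, hB'.nondeg, fun g x y => hB'.inv g x y⟩
  exact ⟨B, hB', act (rs H ρ) (fun g => (s g : Ω)), rat_res ⟨_, hs1, rfl⟩,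
    skew_of_skew hB'' hs2, hd, hsq⟩

/-- (A) passes to isomorphic groups -/
theorem propA_congr {G' : Type w} [Group G'] [Finite G'] (e : G ≃* G') (hA : PropA c m G) :
    PropA c m G' := by
  intro Γ hΓ n ρ hρ hn hO hF s hs hk hd
  let _ := Fintype.ofFinite G
  let _ := Fintype.ofFinite G'
  have hf : Function.Surjective (e : G →* G') := e.surjective
  have hact : act (pb (e : G →* G') ρ) (fun g => s (e g)) = act ρ s := by
    rw [act_eq, act_eq]
    exact Equiv.sum_comp e.toEquiv (fun g' => s g' • ρ g')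
  have h := hA Γ hΓ n (pb (e : G →* G') ρ) (pb_irr hf hρ) hn (pb_orth _ hO) (pb_fxC _ hF)
    (fun g => s (e g)) (fun g => hs (e g)) (fun g => by rw [map_inv]; exact hk (e g))
    (by rw [hact]; exact hd)
  rwa [hact] at h

theorem propB_congr {G' : Type w} [Group G'] [Finite G'] (e : G ≃* G') (hB : PropB c m G) :
    PropB c m G' := by
  intro Γ hΓ n ρ hρ hn hγ d hd hσ
  have hf : Function.Surjective (e : G →* G') := e.surjective
  obtain ⟨γ, hγ1, hγ2⟩ := hγ
  refine hB Γ hΓ n (pb (e : G →* G') ρ) (pb_irr hf hρ) hn ⟨γ, hγ1, fun g => ?_⟩ d hd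
    fun σ hs => ite_iff (pb_fixes hf) _ (hσ σ hs)
  rw [pb_char, pb_char, map_inv]
  exact hγ2 _

/-- 3(1'): a representation which is trivial on the normal subgroup `N` -/
theorem good_of_quot (N : Subgroup G) [N.Normal] (hA : PropA c m (G ⧸ N)) (hΓ : Ok c m Γ)
    {ρ : Representation Ω G V} (hρ : ρ.IsIrreducible) (hev : Even (Module.finrank Ω V))
    (hO : Orth ρ) (hF : FxC Γ ρ) (hN : ∀ n ∈ N, ρ n = 1) : GoodV c Γ ρ := by
  let τ : Representation Ω (G ⧸ N) V := QuotientGroup.lift N ρ hN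
  have hτρ : pb (QuotientGroup.mk' N) τ = ρ := rfl
  have hf : Function.Surjective (QuotientGroup.mk' N) := QuotientGroup.mk'_surjective N
  have hτ : τ.IsIrreducible := irr_of_pb (f := QuotientGroup.mk' N) (by rw [hτρ]; exact hρ)
  have hτO : Orth τ := orth_of_pb hf (by rw [hτρ]; exact hO)
  have hτF : FxC Γ τ := fxC_of_pb hf (by rw [hτρ]; exact hF)
  obtain ⟨B, hB, T, hT, hk, hd, hsq⟩ := good_of_propA hA hΓ hτ hev hτO hτF
  refine ⟨B, ⟨hB.symm, hB.nondeg, fun g x y => hB.inv (QuotientGroup.mk' N g) x y⟩, T, ?_, hk, hd,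
    hsq⟩
  obtain ⟨s, hs, rfl⟩ := hT
  let _ := Fintype.ofFinite (G ⧸ N)
  rw [act_eq]
  refine rat_sum fun q _ => rat_smul (hs q) ?_
  obtain ⟨g, rfl⟩ := hf q
  exact rat_rho Γ ρ g

open Classical in
theorem propB_of_quot (N : Subgroup G) [N.Normal] (hB : PropB c m (G ⧸ N)) (hΓ : Ok c m Γ)
    {ρ : Representation Ω G V} (hρ : ρ.IsIrreducible) (hodd : Odd (Module.finrank Ω V))
    (hN : ∀ n ∈ N, ρ n = 1)
    (hγ : ∃ γ ∈ Γ, ∀ g, γ (ρ.character g) = ρ.character g⁻¹) {d : Ω} (hd : d ≠ 0)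
    (hσ : ∀ σ ∈ Γ, σ d = if Fixes σ ρ then d else - d) : InV c Γ (c.av d) := by
  let τ : Representation Ω (G ⧸ N) V := QuotientGroup.lift N ρ hN
  have hτρ : pb (QuotientGroup.mk' N) τ = ρ := rfl
  have hf : Function.Surjective (QuotientGroup.mk' N) := QuotientGroup.mk'_surjective N
  have hτ : τ.IsIrreducible := irr_of_pb (f := QuotientGroup.mk' N) (by rw [hτρ]; exact hρ)
  obtain ⟨γ, hγ1, hγ2⟩ := hγ
  have hfx : ∀ σ, Fixes σ τ ↔ Fixes σ ρ := fun σ => by
    rw [← pb_fixes (ρ := τ) hf, hτρ]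
  refine propB_gen hB hΓ hτ hodd ⟨γ, hγ1, fun q => ?_⟩ hd fun σ hs =>
    ite_iff (hfx σ) _ (hσ σ hs)
  obtain ⟨g, rfl⟩ := hf q
  exact hγ2 g

end

end Parker
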