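import Pool.Agent.Parker.Defs
import Pool.Agent.Parker.P01
import Pool.Agent.Parker.P05
import Pool.Agent.Parker.P08
import Pool.Agent.Parker.P09

/-!
# MP_6c3636_al, module P15: central idempotents and Clifford theory (helper7)
-/

namespace Parker

universe u v

noncomputable section

section Idem

variable {Ω : Type} [Field Ω] [IsAlgClosed Ω] [CharZero Ω] {G : Type u} [Group G] [Finite G]
  {V : Type v} [AddCommGroup V] [Module Ω V] [FiniteDimensional Ω V]

namespace P15_aux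

omit [IsAlgClosed Ω] [CharZero Ω] [FiniteDimensional Ω V] in
/-- class functions act centrally -/
theorem act_comm (ρ : Representation Ω G V) {s : G → Ω} {g : G}
    (hs : ∀ x, s (g * x * g⁻¹) = s x) : ρ g * act ρ s = act ρ s * ρ g := by
  have _ := Fintype.ofFinite G
  rw [act_eq, Finset.mul_sum, Finset.sum_mul]
  refine Fintype.sum_equiv (MulAut.conj g).toEquiv _ _ fun x => ?_
  have e : (MulAut.conj g).toEquiv x = g * x * g⁻¹ := rfl
  rw [e, hs, mul_smul_comm, smul_mul_assoc, ← map_mul, ← map_mul]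
  congr 2
  group

theorem irr_class {φ : G → Ω} (hφ : φ ∈ irr Ω G) (g x : G) : φ (g * x * g⁻¹) = φ x := by
  obtain ⟨n, τ, -, rfl⟩ := mem_irr.1 hφ
  exact τ.char_conj x g

theorem es_class {φ : G → Ω} (hφ : φ ∈ irr Ω G) (g x : G) :
    es φ (g * x * g⁻¹) = es φ x := by
  unfold es
  have e : (g * x * g⁻¹)⁻¹ = g * x⁻¹ * g⁻¹ := by group
  rw [e, irr_class hφ]

omit [IsAlgClosed Ω] [CharZero Ω] [FiniteDimensional Ω V] in
theorem trace_rho_act [Fintype G] (ρ : Representation Ω G V) (s : G → Ω) (g : G) :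
    LinearMap.trace Ω V (ρ g * act ρ s) = ∑ x, s x * ρ.character (g * x) := by
  rw [act_eq, Finset.mul_sum, map_sum]
  refine Finset.sum_congr rfl fun x _ => ?_
  rw [mul_smul_comm, map_smul, ← map_mul, smul_eq_mul]
  rfl

omit [IsAlgClosed Ω] [CharZero Ω] in
/-- a nonzero subrepresentation contains an irreducible one -/
theorem exists_irr_le (ρ : Representation Ω G V) (L : Subrepresentation ρ)
    (hirr : ∀ (W : Subrepresentation ρ), 0 < Module.finrank Ω W.toSubmodule →
      (∀ U : Submodule Ω W.toSubmodule, (∀ g, ∀ x ∈ U, W.toRepresentation g x ∈ U) →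
        U = ⊥ ∨ U = ⊤) → W.toRepresentation.IsIrreducible)
    (hL : L.toSubmodule ≠ ⊥) : ∃ W : Subrepresentation ρ, W.toSubmodule ≤ L.toSubmodule ∧
      W.toRepresentation.IsIrreducible := by
  classical
  have hex : ∃ k, ∃ W : Subrepresentation ρ, W.toSubmodule ≤ L.toSubmodule ∧
      W.toSubmodule ≠ ⊥ ∧ Module.finrank Ω W.toSubmodule = k := ⟨_, L, le_rfl, hL, rfl⟩
  obtain ⟨W, h1, h2, h3⟩ := Nat.find_spec hex
  refine ⟨W, h1, hirr W ?_ ?_⟩
  · rw [Nat.pos_iff_ne_zero, ne_eq, Submodule.finrank_eq_zero]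
    exact h2
  · intro U hU
    by_cases hU0 : U = ⊥
    · exact Or.inl hU0
    · right
      have hfr : Module.finrank Ω (U.map W.toSubmodule.subtype) = Module.finrank Ω U :=
        Submodule.finrank_map_subtype_eq _ _
      let U' : Subrepresentation ρ := ⟨U.map W.toSubmodule.subtype, by
        rintro g _ ⟨x, hx, rfl⟩
        exact ⟨W.toRepresentation g x, hU g x hx, rfl⟩⟩
      have h4 : U'.toSubmodule ≤ L.toSubmodule := by
        rintro _ ⟨x, -, rfl⟩
        exact h1 x.2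
      have h5 : U'.toSubmodule ≠ ⊥ := by
        intro h
        have h6 : Module.finrank Ω (U.map W.toSubmodule.subtype) = 0 := by
          rw [Submodule.finrank_eq_zero]
          exact h
        rw [hfr, Submodule.finrank_eq_zero] at h6
        exact hU0 h6
      have h6 := Nat.find_min' hex ⟨U', h4, h5, rfl⟩
      have h7 : Module.finrank Ω U'.toSubmodule = Module.finrank Ω U := hfr
      rw [h7, ← h3] at h6
      exact Submodule.eq_top_of_finrank_eq (le_antisymm (Submodule.finrank_le U) h6)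

/-- a linear map which vanishes on all irreducible subrepresentations is zero -/
theorem eq_zero_of_irr (ρ : Representation Ω G V) (T : Module.End Ω V)
    (h : ∀ W : Subrepresentation ρ, W.toRepresentation.IsIrreducible →
      ∀ x ∈ W.toSubmodule, T x = 0) : T = 0 := by
  let K : Subrepresentation ρ := ⟨
    { carrier := {x | ∀ g, T (ρ g x) = 0}
      add_mem' := by
        intro a b ha hb g
        rw [map_add, map_add, ha g, hb g, add_zero]
      zero_mem' := by
        intro g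
        rw [map_zero, map_zero]
      smul_mem' := by
        intro a x hx g
        rw [map_smul, map_smul, hx g, smul_zero] }, by
    intro g x hx k
    have e : ρ k (ρ g x) = ρ (k * g) x := by rw [map_mul]; rfl
    rw [e]
    exact hx (k * g)⟩
  have hNZ : NeZero (Nat.card G : Ω) := ⟨by
    rw [Nat.cast_ne_zero]
    exact Nat.card_pos.ne'⟩
  have hss : Representation.IsSemisimpleRepresentation ρ := inferInstance
  obtain ⟨L, hKL⟩ := exists_isCompl K
  have hL : L.toSubmodule = ⊥ := by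
    by_contra hL
    obtain ⟨W, hWL, hW⟩ := exists_irr_le ρ L (fun W h1 h2 => irr_of_sub h1 h2) hL
    have hWK : W.toSubmodule ≤ K.toSubmodule := by
      intro x hx g
      exact h W hW _ (W.apply_mem_toSubmodule g hx)
    have hd : K ⊓ L = ⊥ := hKL.inf_eq_bot
    have hd' : K.toSubmodule ⊓ L.toSubmodule = ⊥ := congrArg Subrepresentation.toSubmodule hd
    have hWb : W.toSubmodule = ⊥ := by
      rw [← le_bot_iff, ← hd']
      exact le_inf hWK hWL
    have hpos := irr_pos hW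
    rw [hWb, finrank_bot] at hpos
    exact lt_irrefl 0 hpos
  have hsup : K.toSubmodule ⊔ L.toSubmodule = ⊤ := by
    have h1 : K ⊔ L = ⊤ := hKL.sup_eq_top
    have h2 := congrArg Subrepresentation.toSubmodule h1
    rwa [Subrepresentation.toSubmodule_sup] at h2
  rw [hL, sup_bot_eq] at hsup
  apply LinearMap.ext
  intro x
  have hx : x ∈ K.toSubmodule := by rw [hsup]; trivial
  have h1 : T (ρ 1 x) = 0 := hx 1
  rw [map_one] at h1
  exact h1

omit [IsAlgClosed Ω] [CharZero Ω] [FiniteDimensional Ω V] in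
theorem act_sub_apply {ρ : Representation Ω G V} (W : Subrepresentation ρ) (s : G → Ω)
    (x : W.toSubmodule) : ((act W.toRepresentation s x : W.toSubmodule) : V) = act ρ s x := by
  have _ := Fintype.ofFinite G
  rw [act_eq, act_eq, LinearMap.sum_apply, LinearMap.sum_apply, Submodule.coe_sum]
  rfl

open Classical in
/-- the idempotents on an irreducible representation -/
theorem act_es_irr {ρ : Representation Ω G V} (hρ : ρ.IsIrreducible) {φ : G → Ω}
    (hφ : φ ∈ irr Ω G) : act ρ (es φ) = (if φ = ρ.character then (1 : Ω) else 0) • 1 := by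
  have _ := Fintype.ofFinite G
  obtain ⟨a, ha⟩ := schur hρ (T := act ρ (es φ)) fun g =>
    (act_comm ρ (g := g) (es_class hφ g)).symm
  have hn : (Module.finrank Ω V : Ω) ≠ 0 := by
    rw [Nat.cast_ne_zero]
    exact (irr_pos hρ).ne'
  have hχ : ρ.character ∈ irr Ω G := mem_irr.2 (mem_irrSet hρ)
  have ht := congrArg (LinearMap.trace Ω V) ha
  rw [trace_act, map_smul, LinearMap.trace_one, smul_eq_mul] at ht
  have h1 : ∑ g, es φ g * ρ.character g = φ 1 * ip ρ.character φ := by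
    rw [ip_eq, Finset.mul_sum, Finset.mul_sum]
    refine Finset.sum_congr rfl fun g _ => ?_
    unfold es
    ring
  rw [h1] at ht
  rw [ha]
  congr 1
  rw [ip_irr hχ hφ] at ht
  by_cases h : φ = ρ.character
  · rw [if_pos h.symm, mul_one] at ht
    rw [if_pos h]
    have h2 : φ 1 = (Module.finrank Ω V : Ω) := by rw [h, ρ.char_one]
    rw [h2] at ht
    exact (mul_right_cancel₀ hn (by rw [one_mul]; exact ht)).symm
  · rw [if_neg (fun e => h e.symm), mul_zero] at ht
    rw [if_neg h]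
    rcases mul_eq_zero.1 ht.symm with h3 | h3
    · exact h3
    · exact absurd h3 hn

open Classical in
/-- the idempotents on an irreducible subrepresentation -/
theorem es_apply {ρ : Representation Ω G V} {W : Subrepresentation ρ}
    (hW : W.toRepresentation.IsIrreducible) {φ : G → Ω} (hφ : φ ∈ irr Ω G) {x : V}
    (hx : x ∈ W.toSubmodule) :
    act ρ (es φ) x = (if φ = W.toRepresentation.character then (1 : Ω) else 0) • x := by
  have h := act_sub_apply W (es φ) ⟨x, hx⟩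
  rw [act_es_irr hW hφ] at h
  exact h.symm

end P15_aux

open P15_aux

/-- `act ρ (es φ)` commutes with `ρ` -/
theorem idem_comm (ρ : Representation Ω G V) {φ : G → Ω} (hφ : φ ∈ irr Ω G) (g : G) :
    ρ g * act ρ (es φ) = act ρ (es φ) * ρ g :=
  act_comm ρ (es_class hφ g)

theorem idem_idem (ρ : Representation Ω G V) {φ : G → Ω} (hφ : φ ∈ irr Ω G) :
    act ρ (es φ) * act ρ (es φ) = act ρ (es φ) := by
  classical
  rw [← sub_eq_zero]
  refine eq_zero_of_irr ρ _ fun W hW x hx => ?_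
  rw [LinearMap.sub_apply, Module.End.mul_apply, es_apply hW hφ hx, map_smul,
    es_apply hW hφ hx, smul_smul]
  split_ifs <;> simp

theorem idem_orth (ρ : Representation Ω G V) {φ ψ : G → Ω} (hφ : φ ∈ irr Ω G)
    (hψ : ψ ∈ irr Ω G) (h : φ ≠ ψ) : act ρ (es φ) * act ρ (es ψ) = 0 := by
  classical
  refine eq_zero_of_irr ρ _ fun W hW x hx => ?_
  rw [Module.End.mul_apply, es_apply hW hψ hx, map_smul, es_apply hW hφ hx, smul_smul]
  by_cases h1 : ψ = W.toRepresentation.character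
  · have h2 : ¬ φ = W.toRepresentation.character := fun h2 => h (h2.trans h1.symm)
    simp only [if_neg h2, mul_zero, zero_mul, zero_smul]
  · simp only [if_neg h1, mul_zero, zero_mul, zero_smul]

theorem idem_sum (ρ : Representation Ω G V) : ∑ φ ∈ irr Ω G, act ρ (es φ) = 1 := by
  classical
  rw [← sub_eq_zero]
  refine eq_zero_of_irr ρ _ fun W hW x hx => ?_
  have hχ : W.toRepresentation.character ∈ irr Ω G := mem_irr.2 (mem_irrSet hW)
  rw [LinearMap.sub_apply, LinearMap.sum_apply, Finset.sum_congr rfl fun φ hφ => es_apply hW hφ hx,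
    ← Finset.sum_smul, Finset.sum_ite_eq', if_pos hχ, one_smul, Module.End.one_apply, sub_self]

/-- on an irreducible representation -/
theorem idem_irr {ρ : Representation Ω G V} (hρ : ρ.IsIrreducible) :
    act ρ (es ρ.character) = 1 := by
  rw [act_es_irr hρ (mem_irr.2 (mem_irrSet hρ)), if_pos rfl, one_smul]

theorem idem_trace (ρ : Representation Ω G V) {φ : G → Ω} (hφ : φ ∈ irr Ω G) (g : G) :
    LinearMap.trace Ω V (ρ g * act ρ (es φ)) = (mul ρ.character φ : Ω) * φ g := by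
  classical
  have _ := Fintype.ofFinite G
  rw [trace_rho_act]
  have h1 : ∀ x, es φ x * ρ.character (g * x) =
      ∑ ψ ∈ irr Ω G, (mul ρ.character ψ : Ω) * (es φ x * ψ (g * x)) := by
    intro x
    have h2 := congrFun (char_eq_sum ρ) (g * x)
    rw [Finset.sum_apply] at h2
    rw [h2, Finset.mul_sum]
    refine Finset.sum_congr rfl fun ψ _ => ?_
    rw [Pi.smul_apply, smul_eq_mul]
    ring
  have h3 : ∀ ψ ∈ irr Ω G, ∑ x, es φ x * ψ (g * x) = if φ = ψ then ψ g else 0 := by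
    intro ψ hψ
    obtain ⟨n, τ, hτ, rfl⟩ := mem_irr.1 hψ
    rw [← trace_rho_act, act_es_irr hτ hφ, mul_smul_comm, mul_one, map_smul, smul_eq_mul]
    split_ifs
    · rw [one_mul]; rfl
    · rw [zero_mul]
  rw [Finset.sum_congr rfl fun x _ => h1 x, Finset.sum_comm,
    Finset.sum_congr rfl fun ψ hψ => by rw [← Finset.mul_sum, h3 ψ hψ, mul_ite, mul_zero],
    Finset.sum_ite_eq, if_pos hφ]

theorem idem_finrank (ρ : Representation Ω G V) {φ : G → Ω} (hφ : φ ∈ irr Ω G) :
    Module.finrank Ω (LinearMap.range (act ρ (es φ))) = mul ρ.character φ * dg φ := by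
  have h1 : IsIdempotentElem (act ρ (es φ)) := idem_idem ρ hφ
  have h2 := (LinearMap.IsIdempotentElem.isProj_range _ h1).trace
  have h3 := idem_trace ρ hφ 1
  rw [map_one, one_mul, h2, ← (dg_spec hφ).1, ← Nat.cast_mul] at h3
  exact Nat.cast_injective h3

theorem idem_ne_zero_iff (ρ : Representation Ω G V) {φ : G → Ω} (hφ : φ ∈ irr Ω G) :
    act ρ (es φ) ≠ 0 ↔ mul ρ.character φ ≠ 0 := by
  rw [not_iff_not]
  have h1 := idem_finrank ρ hφ
  have h2 := (dg_spec hφ).2
  constructor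
  · intro h
    rw [h, LinearMap.range_zero, finrank_bot] at h1
    rcases mul_eq_zero.1 h1.symm with h3 | h3
    · exact h3
    · omega
  · intro h
    rw [h, zero_mul, Submodule.finrank_eq_zero, LinearMap.range_eq_bot] at h1
    exact h1

theorem idem_adj {ρ : Representation Ω G V} {B : LinearMap.BilinForm Ω V} (hB : InvForm ρ B)
    {φ : G → Ω} (hφ : φ ∈ irr Ω G) (x y : V) :
    B (act ρ (es φ) x) y = B x (act ρ (es (du φ)) y) := by
  have _ := hφ
  rw [act_adj hB]
  congr 3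
  funext g
  simp [du, es]

/-- a sum of idempotents over a set of characters stable under `Γ` is rational -/
theorem idem_rat (ρ : Representation Ω G V) {Γ : Subgroup (RingAut Ω)} {O : Finset (G → Ω)}
    (hO : ∀ φ ∈ O, φ ∈ irr Ω G) (hΓ : ∀ σ ∈ Γ, ∀ φ ∈ O, (fun g => σ (φ g)) ∈ O) :
    ∑ φ ∈ O, act ρ (es φ) ∈ Rat Γ ρ := by
  have _ := hO
  refine ⟨∑ φ ∈ O, es φ, ?_, act_sum ρ O _⟩
  intro g σ hσ
  rw [Finset.sum_apply, map_sum]
  have inv1 : ∀ x : Ω, σ⁻¹ (σ x) = x := fun x => RingEquiv.symm_apply_apply σ x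
  have inv2 : ∀ x : Ω, σ (σ⁻¹ x) = x := fun x => RingEquiv.apply_symm_apply σ x
  refine Finset.sum_nbij' (fun φ g => σ (φ g)) (fun φ g => σ⁻¹ (φ g)) (fun φ hφ => hΓ σ hσ φ hφ)
    (fun φ hφ => hΓ σ⁻¹ (Γ.inv_mem hσ) φ hφ) (fun φ _ => ?_) (fun φ _ => ?_) (fun φ _ => ?_)
  · funext x
    exact inv1 _
  · funext x
    exact inv2 _
  · unfold es
    rw [map_mul, map_mul, map_inv₀, map_natCast]

/-- sum of idempotents over a set of characters -/
theorem idem_sum_idem (ρ : Representation Ω G V) {O : Finset (G → Ω)}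
    (hO : ∀ φ ∈ O, φ ∈ irr Ω G) :
    (∑ φ ∈ O, act ρ (es φ)) * (∑ φ ∈ O, act ρ (es φ)) = ∑ φ ∈ O, act ρ (es φ) := by
  rw [Finset.sum_mul]
  refine Finset.sum_congr rfl fun φ hφ => ?_
  rw [Finset.mul_sum, Finset.sum_eq_single_of_mem φ hφ, idem_idem ρ (hO φ hφ)]
  intro ψ hψ hne
  exact idem_orth ρ (hO φ hφ) (hO ψ hψ) hne.symm

end Idem

section Clifford

variable {Ω : Type} [Field Ω] [IsAlgClosed Ω] [CharZero Ω] {G : Type u} [Group G] [Finite G]
  {V : Type v} [AddCommGroup V] [Module Ω V] [FiniteDimensional Ω V]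
  (N : Subgroup G) [N.Normal]

namespace P15_aux

theorem idem_mul_sum (ρ : Representation Ω G V) {O : Finset (G → Ω)}
    (hO : ∀ φ ∈ O, φ ∈ irr Ω G) {ψ : G → Ω} (hψ : ψ ∈ irr Ω G) [Decidable (ψ ∈ O)] :
    act ρ (es ψ) * (∑ φ ∈ O, act ρ (es φ)) = if ψ ∈ O then act ρ (es ψ) else 0 := by
  rw [Finset.mul_sum]
  split_ifs with h
  · rw [Finset.sum_eq_single_of_mem ψ h, idem_idem ρ hψ]
    intro φ hφ hne
    exact idem_orth ρ hψ (hO φ hφ) hne.symm
  · refine Finset.sum_eq_zero fun φ hφ => idem_orth ρ hψ (hO φ hφ) ?_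
    rintro rfl
    exact h hφ

theorem idem_sum_mul (ρ : Representation Ω G V) {O : Finset (G → Ω)}
    (hO : ∀ φ ∈ O, φ ∈ irr Ω G) {ψ : G → Ω} (hψ : ψ ∈ irr Ω G) [Decidable (ψ ∈ O)] :
    (∑ φ ∈ O, act ρ (es φ)) * act ρ (es ψ) = if ψ ∈ O then act ρ (es ψ) else 0 := by
  rw [Finset.sum_mul]
  split_ifs with h
  · rw [Finset.sum_eq_single_of_mem ψ h, idem_idem ρ hψ]
    intro φ hφ hne
    exact idem_orth ρ (hO φ hφ) hψ hne
  · refine Finset.sum_eq_zero fun φ hφ => idem_orth ρ (hO φ hφ) hψ ?_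
    rintro rfl
    exact h hφ

end P15_aux

open P15_aux

theorem cj_mem_irr {φ : N → Ω} (hφ : φ ∈ irr Ω N) (g : G) : cj N g φ ∈ irr Ω N := by
  obtain ⟨n, τ, hτ, rfl⟩ := mem_irr.1 hφ
  let τ' : Representation Ω N (Fin n → Ω) :=
    MonoidHom.comp τ (MulAut.conjNormal g⁻¹ : N ≃* N).toMonoidHom
  have hτ' : ∀ x, τ' x = τ (MulAut.conjNormal g⁻¹ x) := fun x => rfl
  have h1 : τ'.IsIrreducible := by
    refine irr_of_sub (irr_pos hτ) fun U hU => irr_sub hτ fun k x hx => ?_
    have h2 := hU ((MulAut.conjNormal g⁻¹ : N ≃* N).symm k) x hx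
    rw [hτ', MulEquiv.apply_symm_apply] at h2
    exact h2
  have h2 : τ'.character = cj N g τ.character := rfl
  rw [← h2]
  exact mem_irr.2 (mem_irrSet h1)

theorem cj_one (φ : N → Ω) : cj N 1 φ = φ := by
  funext n
  simp [cj]

theorem cj_mul (g h : G) (φ : N → Ω) : cj N (g * h) φ = cj N g (cj N h φ) := by
  funext n
  simp [cj, mul_inv_rev]

/-- elements of `N` fix the characters of `N` -/
theorem cj_self {φ : N → Ω} (hφ : φ ∈ irr Ω N) (n : N) : cj N (n : G) φ = φ := by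
  funext x
  have e : MulAut.conjNormal (n : G)⁻¹ x = n⁻¹ * x * (n⁻¹)⁻¹ := by
    apply Subtype.ext
    rw [MulAut.conjNormal_apply]
    simp
  show φ (MulAut.conjNormal (n : G)⁻¹ x) = φ x
  rw [e, irr_class hφ]

theorem dg_cj (g : G) (φ : N → Ω) : dg (cj N g φ) = dg φ := by
  have h : cj N g φ 1 = φ 1 := by simp [cj]
  unfold dg
  rw [h]

theorem du_cj (g : G) (φ : N → Ω) : du (cj N g φ) = cj N g (du φ) := by
  funext n
  simp [du, cj]

/-- `ρ(g) E_φ ρ(g)⁻¹ = E_{gφ}` -/
theorem idem_cj (ρ : Representation Ω G V) {φ : N → Ω} (hφ : φ ∈ irr Ω N) (g : G) :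
    ρ g * act (rs N ρ) (es φ) = act (rs N ρ) (es (cj N g φ)) * ρ g := by
  have _ := hφ
  have _ := Fintype.ofFinite N
  rw [act_eq, act_eq, Finset.mul_sum, Finset.sum_mul]
  refine Fintype.sum_equiv (MulAut.conjNormal g : N ≃* N).toEquiv _ _ fun x => ?_
  have e0 : (MulAut.conjNormal g : N ≃* N).toEquiv x = (MulAut.conjNormal g : N ≃* N) x := rfl
  have e1 : es (cj N g φ) ((MulAut.conjNormal g : N ≃* N) x) = es φ x := by
    unfold es cj
    have e2 : MulAut.conjNormal g⁻¹ ((MulAut.conjNormal g : N ≃* N) x)⁻¹ = x⁻¹ := by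
      apply Subtype.ext
      simp [MulAut.conjNormal_apply, mul_assoc]
    rw [e2, map_one]
  rw [e0, e1, mul_smul_comm, smul_mul_assoc]
  congr 1
  show ρ g * ρ (x : G) = ρ (((MulAut.conjNormal g : N ≃* N) x : N) : G) * ρ g
  rw [← map_mul, ← map_mul, MulAut.conjNormal_apply]
  congr 1
  group

theorem mul_cj (ρ : Representation Ω G V) {φ : N → Ω} (hφ : φ ∈ irr Ω N) (g : G) :
    mul (rs N ρ).character (cj N g φ) = mul (rs N ρ).character φ := by
  have _ := Fintype.ofFinite N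
  have h1 := mul_spec (rs N ρ) hφ
  have h2 := mul_spec (rs N ρ) (cj_mem_irr N hφ g)
  have h3 : ip (rs N ρ).character (cj N g φ) = ip (rs N ρ).character φ := by
    rw [ip_eq, ip_eq]
    congr 1
    symm
    refine Fintype.sum_equiv (MulAut.conjNormal g : N ≃* N).toEquiv _ _ fun x => ?_
    have e0 : (MulAut.conjNormal g : N ≃* N).toEquiv x = (MulAut.conjNormal g : N ≃* N) x := rfl
    have e1 : cj N g φ ((MulAut.conjNormal g : N ≃* N) x)⁻¹ = φ x⁻¹ := by
      unfold cj
      have e2 : MulAut.conjNormal g⁻¹ ((MulAut.conjNormal g : N ≃* N) x)⁻¹ = x⁻¹ := by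
        apply Subtype.ext
        simp [MulAut.conjNormal_apply, mul_assoc]
      rw [e2]
    have e3 : (rs N ρ).character ((MulAut.conjNormal g : N ≃* N) x) = (rs N ρ).character x := by
      show ρ.character (((MulAut.conjNormal g : N ≃* N) x : N) : G) = ρ.character (x : G)
      rw [MulAut.conjNormal_apply]
      exact ρ.char_conj (x : G) g
    rw [e0, e1, e3]
  rw [h3, ← h1] at h2
  exact Nat.cast_injective h2

namespace P15_aux

/-- sums over stable sets commute with the group -/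
theorem sum_comm_of_stable (ρ : Representation Ω G V) {O : Finset (N → Ω)}
    (hO : ∀ φ ∈ O, φ ∈ irr Ω N) {g : G} (hg : ∀ φ ∈ O, cj N g φ ∈ O)
    (hg' : ∀ φ ∈ O, cj N g⁻¹ φ ∈ O) :
    ρ g * (∑ φ ∈ O, act (rs N ρ) (es φ)) = (∑ φ ∈ O, act (rs N ρ) (es φ)) * ρ g := by
  rw [Finset.mul_sum, Finset.sum_mul]
  refine Finset.sum_nbij' (cj N g) (cj N g⁻¹) hg hg' (fun φ _ => ?_) (fun φ _ => ?_)
    (fun φ hφ => idem_cj N ρ (hO φ hφ) g)
  · rw [← cj_mul, inv_mul_cancel, cj_one]
  · rw [← cj_mul, mul_inv_cancel, cj_one]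

theorem sum_ne_zero (ρ : Representation Ω G V) {O : Finset (G → Ω)}
    (hO : ∀ φ ∈ O, φ ∈ irr Ω G) (hne : ∃ φ ∈ O, mul ρ.character φ ≠ 0) :
    ∑ φ ∈ O, act ρ (es φ) ≠ 0 := by
  classical
  obtain ⟨φ, hφ, h⟩ := hne
  intro h0
  have h1 := idem_mul_sum ρ hO (hO φ hφ)
  rw [h0, mul_zero, if_pos hφ] at h1
  exact (idem_ne_zero_iff ρ (hO φ hφ)).2 h h1.symm

end P15_aux

/-- Clifford: if `O` is a `G`-stable set of irreducible characters of `N` with `E_φ ≠ 0` for some
`φ ∈ O`, `ρ` irreducible, then `∑_{φ ∈ O} E_φ = 1` -/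
theorem clifford_one {ρ : Representation Ω G V} (hρ : ρ.IsIrreducible) {O : Finset (N → Ω)}
    (hO : ∀ φ ∈ O, φ ∈ irr Ω N) (hG : ∀ g : G, ∀ φ ∈ O, cj N g φ ∈ O)
    (hne : ∃ φ ∈ O, mul (rs N ρ).character φ ≠ 0) :
    ∑ φ ∈ O, act (rs N ρ) (es φ) = 1 := by
  obtain ⟨a, ha⟩ := schur hρ (T := ∑ φ ∈ O, act (rs N ρ) (es φ)) fun g =>
    (sum_comm_of_stable N ρ hO (hG g) (hG g⁻¹)).symm
  have h1 := sum_ne_zero (rs N ρ) hO hne
  have h2 := idem_sum_idem (rs N ρ) hO
  rw [ha] at h1 h2 ⊢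
  have h3 : a ≠ 0 := by
    rintro rfl
    exact h1 (zero_smul _ _)
  rw [smul_mul_smul_comm, one_mul, mul_smul] at h2
  have h4 : a • (1 : Module.End Ω V) = 1 := smul_right_injective _ h3 h2
  exact h4

/-- Clifford: the constituents of the restriction are conjugate -/
theorem clifford_trans {ρ : Representation Ω G V} (hρ : ρ.IsIrreducible) {φ ψ : N → Ω}
    (hφ : φ ∈ irr Ω N) (hψ : ψ ∈ irr Ω N) (h : mul (rs N ρ).character φ ≠ 0)
    (h' : mul (rs N ρ).character ψ ≠ 0) : ∃ g : G, ψ = cj N g φ := by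
  classical
  by_contra hcon
  set O : Finset (N → Ω) := (irr Ω N).filter fun χ => ∃ g : G, χ = cj N g φ with hOdef
  have hO : ∀ χ ∈ O, χ ∈ irr Ω N := fun χ hχ => (Finset.mem_filter.1 hχ).1
  have hφO : φ ∈ O := Finset.mem_filter.2 ⟨hφ, 1, (cj_one N φ).symm⟩
  have hG : ∀ g : G, ∀ χ ∈ O, cj N g χ ∈ O := by
    intro g χ hχ
    obtain ⟨h1, k, rfl⟩ := Finset.mem_filter.1 hχ
    exact Finset.mem_filter.2 ⟨cj_mem_irr N h1 g, g * k, (cj_mul N g k φ).symm⟩
  have h1 := clifford_one N hρ hO hG ⟨φ, hφO, h⟩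
  have h2 := idem_mul_sum (rs N ρ) hO hψ
  have hψO : ψ ∉ O := fun hm => hcon (Finset.mem_filter.1 hm).2
  rw [h1, mul_one, if_neg hψO] at h2
  exact (idem_ne_zero_iff (rs N ρ) hψ).2 h' h2

/-- block structure: let `O` be a nonempty set of constituents of `ρ|N` with
`cj N g O ∩ O = ∅` for `g ∉ H` and `cj N h O = O` for `h ∈ H`. -/
theorem clifford_blk {ρ : Representation Ω G V} (H : Subgroup G)
    {O : Finset (N → Ω)} (hO : ∀ φ ∈ O, φ ∈ irr Ω N) (hH : ∀ h ∈ H, ∀ φ ∈ O, cj N h φ ∈ O)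
    (hoff : ∀ g, g ∉ H → ∀ φ ∈ O, cj N g φ ∉ O)
    (hne : ∃ φ ∈ O, mul (rs N ρ).character φ ≠ 0) :
    Blk ρ H (∑ φ ∈ O, act (rs N ρ) (es φ)) := by
  classical
  refine ⟨idem_sum_idem (rs N ρ) hO, sum_ne_zero (rs N ρ) hO hne, fun h hh =>
    sum_comm_of_stable N ρ hO (hH h hh) (hH h⁻¹ (H.inv_mem hh)), fun g hg => ?_⟩
  rw [mul_assoc, Finset.mul_sum, Finset.mul_sum]
  refine Finset.sum_eq_zero fun φ hφ => ?_
  rw [idem_cj N ρ (hO φ hφ), ← mul_assoc, idem_sum_mul (rs N ρ) hO (cj_mem_irr N (hO φ hφ) g),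
    if_neg (hoff g hg φ hφ), zero_mul]

end Clifford

end

end Parker
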