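import Pool.Agent.Parker.Defs
import Pool.Agent.Parker.P01
import Pool.Agent.Parker.P08
import Pool.Agent.Parker.P10

/-!
# MP_6c3636_al, module P16: block idempotents (helper7)
-/

namespace Parker

universe u v

noncomputable section

namespace P16_aux

section

variable {Ω : Type} [Field Ω] {G : Type u} [Group G] {V : Type v} [AddCommGroup V] [Module Ω V]
  {ρ : Representation Ω G V} {H : Subgroup G} {E : Module.End Ω V}

theorem rho_inv_mul (x : G) : ρ x⁻¹ * ρ x = 1 := by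
  rw [← map_mul, inv_mul_cancel, map_one]

theorem rho_mul_inv (x : G) : ρ x * ρ x⁻¹ = 1 := by
  rw [← map_mul, mul_inv_cancel, map_one]

theorem orth (h : Blk ρ H E) {g g' : G} (hg : g⁻¹ * g' ∉ H) :
    (ρ g * E * ρ g⁻¹) * (ρ g' * E * ρ g'⁻¹) = 0 := by
  calc (ρ g * E * ρ g⁻¹) * (ρ g' * E * ρ g'⁻¹)
      = ρ g * (E * (ρ g⁻¹ * ρ g') * E) * ρ g'⁻¹ := by simp only [mul_assoc]
    _ = 0 := by rw [← map_mul, h.off _ hg, mul_zero, zero_mul]

theorem same (h : Blk ρ H E) {g g' : G} (hg : g⁻¹ * g' ∈ H) :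
    ρ g * E * ρ g⁻¹ = ρ g' * E * ρ g'⁻¹ := by
  have h1 : ρ g' = ρ g * ρ (g⁻¹ * g') := by rw [← map_mul, mul_inv_cancel_left]
  have h2 : ρ g'⁻¹ = ρ (g⁻¹ * g')⁻¹ * ρ g⁻¹ := by
    rw [← map_mul, mul_inv_rev, inv_inv, mul_assoc, mul_inv_cancel, mul_one]
  rw [h1, h2]
  calc ρ g * E * ρ g⁻¹ = ρ g * (E * (ρ (g⁻¹ * g') * ρ (g⁻¹ * g')⁻¹)) * ρ g⁻¹ := by
        rw [rho_mul_inv, mul_one]
    _ = ρ g * (E * ρ (g⁻¹ * g')) * ρ (g⁻¹ * g')⁻¹ * ρ g⁻¹ := by simp only [mul_assoc]
    _ = ρ g * ρ (g⁻¹ * g') * E * (ρ (g⁻¹ * g')⁻¹ * ρ g⁻¹) := by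
        rw [← h.comm _ hg]
        simp only [mul_assoc]

theorem sq (h : Blk ρ H E) (g : G) :
    (ρ g * E * ρ g⁻¹) * (ρ g * E * ρ g⁻¹) = ρ g * E * ρ g⁻¹ := by
  calc (ρ g * E * ρ g⁻¹) * (ρ g * E * ρ g⁻¹) = ρ g * (E * (ρ g⁻¹ * ρ g) * E) * ρ g⁻¹ := by
        simp only [mul_assoc]
    _ = _ := by rw [rho_inv_mul, mul_one, h.idem]

theorem out_mem (H : Subgroup G) (g : G) : (QuotientGroup.mk g : G ⧸ H).out⁻¹ * g ∈ H := by
  rw [← QuotientGroup.eq, QuotientGroup.out_eq']

theorem out_notMem {q : G ⧸ H} {g : G} (hq : q ≠ QuotientGroup.mk g) : q.out⁻¹ * g ∉ H := by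
  intro hm
  apply hq
  rw [← QuotientGroup.eq, QuotientGroup.out_eq'] at hm
  exact hm

theorem out_ne {q q' : G ⧸ H} (hq : q ≠ q') : q.out⁻¹ * q'.out ∉ H := by
  apply out_notMem
  rwa [QuotientGroup.out_eq']

theorem off_mul (h : Blk ρ H E) {g : G} (hg : g ∉ H) (A : Module.End Ω V) (hA : A * E = E * A) :
    E * (ρ g * (A * E)) = 0 := by
  have h1 : A * E = E * (A * E) := by rw [hA, ← mul_assoc, h.idem]
  rw [h1]
  calc E * (ρ g * (E * (A * E))) = (E * ρ g * E) * (A * E) := by simp only [mul_assoc]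
    _ = 0 := by rw [h.off g hg, zero_mul]

theorem mem_iff (h : Blk ρ H E) {x : V} : x ∈ LinearMap.range E ↔ E x = x := by
  constructor
  · rintro ⟨y, rfl⟩
    exact congrArg (fun f : Module.End Ω V => f y) h.idem
  · intro hx
    exact ⟨x, hx⟩

theorem rep_coe (h : Blk ρ H E) (x : H) (y : LinearMap.range E) :
    ((h.rep x y : LinearMap.range E) : V) = ρ x y := rfl

theorem act_comm [Finite G] (h : Blk ρ H E) (s : H → Ω) :
    act (rs H ρ) s * E = E * act (rs H ρ) s := by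
  letI := Fintype.ofFinite H
  unfold act
  rw [Finset.sum_mul, Finset.mul_sum]
  refine Finset.sum_congr rfl fun x _ => ?_
  rw [smul_mul_assoc, mul_smul_comm]
  have h1 : rs H ρ x = ρ x := rfl
  rw [h1, h.comm x x.2]

theorem act_coe [Finite G] (h : Blk ρ H E) (s : H → Ω) (y : LinearMap.range E) :
    ((act h.rep s y : LinearMap.range E) : V) = act (rs H ρ) s y := by
  letI := Fintype.ofFinite H
  unfold act
  rw [LinearMap.sum_apply, LinearMap.sum_apply, AddSubmonoidClass.coe_finsetSum]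
  rfl

end

variable {Ω : Type} [Field Ω] [IsAlgClosed Ω] [CharZero Ω] {G : Type u} [Group G] [Finite G]
  {V : Type v} [AddCommGroup V] [Module Ω V] [FiniteDimensional Ω V]
  {ρ : Representation Ω G V} {H : Subgroup G} {E : Module.End Ω V}

theorem sum_mul_blk [Fintype (G ⧸ H)] (h : Blk ρ H E) (g : G) :
    (∑ q : G ⧸ H, ρ q.out * E * ρ q.out⁻¹) * (ρ g * E * ρ g⁻¹) = ρ g * E * ρ g⁻¹ := by
  rw [Finset.sum_mul, Finset.sum_eq_single (QuotientGroup.mk g : G ⧸ H)]
  · rw [same h (out_mem H g), sq h]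
  · intro q _ hq
    exact orth h (out_notMem hq)
  · intro hn
    exact absurd (Finset.mem_univ _) hn

theorem sum_comm [Fintype (G ⧸ H)] (h : Blk ρ H E) (x : G) :
    (∑ q : G ⧸ H, ρ q.out * E * ρ q.out⁻¹) * ρ x =
      ρ x * ∑ q : G ⧸ H, ρ q.out * E * ρ q.out⁻¹ := by
  rw [Finset.mul_sum, Finset.sum_mul]
  symm
  refine Fintype.sum_equiv (MulAction.toPerm x) _ _ fun q => ?_
  show ρ x * (ρ q.out * E * ρ q.out⁻¹) = ρ (x • q).out * E * ρ (x • q).out⁻¹ * ρ x
  have h1 : (x • q).out⁻¹ * (x * q.out) ∈ H := by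
    rw [← QuotientGroup.eq, QuotientGroup.out_eq']
    conv_lhs => rw [← QuotientGroup.out_eq' q]
    rfl
  rw [same h h1, mul_inv_rev, map_mul, map_mul]
  calc ρ x * (ρ q.out * E * ρ q.out⁻¹)
      = ρ x * ρ q.out * E * ρ q.out⁻¹ * (ρ x⁻¹ * ρ x) := by
        rw [rho_inv_mul, mul_one]; simp only [mul_assoc]
    _ = ρ x * ρ q.out * E * (ρ q.out⁻¹ * ρ x⁻¹) * ρ x := by simp only [mul_assoc]

theorem sum_one [Fintype (G ⧸ H)] (h : Blk ρ H E) (hρ : ρ.IsIrreducible) :
    ∑ q : G ⧸ H, ρ q.out * E * ρ q.out⁻¹ = 1 := by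
  obtain ⟨a, ha⟩ := schur hρ (sum_comm h)
  have h1 := sum_mul_blk h (1 : G)
  rw [inv_one, map_one, one_mul, mul_one, ha, smul_mul_assoc, one_mul] at h1
  have h2 : (a - 1) • E = 0 := by rw [sub_smul, one_smul, h1, sub_self]
  rcases smul_eq_zero.1 h2 with h3 | h3
  · rw [ha, sub_eq_zero.1 h3, one_smul]
  · exact absurd h3 h.ne

theorem trace_conj (g : G) (T : Module.End Ω V) :
    LinearMap.trace Ω V (ρ g * T * ρ g⁻¹) = LinearMap.trace Ω V T := by
  rw [LinearMap.trace_mul_comm, ← mul_assoc, rho_inv_mul, one_mul]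

end P16_aux

variable {Ω : Type} [Field Ω] [IsAlgClosed Ω] [CharZero Ω] {G : Type u} [Group G] [Finite G]
  {V : Type v} [AddCommGroup V] [Module Ω V] [FiniteDimensional Ω V]
  {ρ : Representation Ω G V} {H : Subgroup G} {E : Module.End Ω V}

/-- the blocks `ρ(r) E ρ(r)⁻¹` (`r` coset representatives) are orthogonal idempotents -/
theorem blk_orth (h : Blk ρ H E) {g g' : G} (hg : g⁻¹ * g' ∉ H) :
    (ρ g * E * ρ g⁻¹) * (ρ g' * E * ρ g'⁻¹) = 0 :=
  P16_aux.orth h hg

theorem blk_same (h : Blk ρ H E) {g g' : G} (hg : g⁻¹ * g' ∈ H) :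
    ρ g * E * ρ g⁻¹ = ρ g' * E * ρ g'⁻¹ :=
  P16_aux.same h hg

/-- the sum of the blocks is `1` (Schur, `ρ` irreducible) -/
theorem blk_sum [Fintype (G ⧸ H)] (h : Blk ρ H E) (hρ : ρ.IsIrreducible) :
    ∑ q : G ⧸ H, ρ q.out * E * ρ q.out⁻¹ = 1 :=
  P16_aux.sum_one h hρ

theorem blk_irr (h : Blk ρ H E) (hρ : ρ.IsIrreducible) : h.rep.IsIrreducible := by
  have hpos : 0 < Module.finrank Ω (LinearMap.range E) := by
    rw [Module.finrank_pos_iff_exists_ne_zero]
    by_contra hcon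
    push Not at hcon
    apply h.ne
    apply LinearMap.ext
    intro v
    exact congrArg Subtype.val (hcon ⟨E v, v, rfl⟩)
  refine irr_of_sub hpos fun U' hU' => ?_
  have hinv : ∀ x : G, ∀ y ∈ (⨆ g : G, (U'.map (LinearMap.range E).subtype).map (ρ g)),
      ρ x y ∈ (⨆ g : G, (U'.map (LinearMap.range E).subtype).map (ρ g)) := by
    intro x y hy
    induction hy using Submodule.iSup_induction' with
    | mem g y hy =>
      obtain ⟨z, hz, rfl⟩ := hy
      refine Submodule.mem_iSup_of_mem (x * g) ⟨z, hz, ?_⟩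
      rw [map_mul]
      rfl
    | zero => rw [map_zero]; exact Submodule.zero_mem _
    | add y y' _ _ h1 h2 => rw [map_add]; exact Submodule.add_mem _ h1 h2
  rcases irr_sub hρ hinv with hb | ht
  · left
    rw [eq_bot_iff]
    intro y hy
    have h1 : (y : V) ∈ (⨆ g : G, (U'.map (LinearMap.range E).subtype).map (ρ g)) := by
      refine Submodule.mem_iSup_of_mem 1 ⟨y, ⟨y, hy, rfl⟩, ?_⟩
      rw [map_one]
      rfl
    rw [hb] at h1
    exact (Submodule.mem_bot Ω).2 (Subtype.ext ((Submodule.mem_bot Ω).1 h1))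
  · right
    rw [eq_top_iff]
    intro y _
    have key : ∀ v ∈ (⨆ g : G, (U'.map (LinearMap.range E).subtype).map (ρ g)),
        E v ∈ U'.map (LinearMap.range E).subtype := by
      intro v hv
      induction hv using Submodule.iSup_induction' with
      | mem g y hy =>
        obtain ⟨_, ⟨z, hz, rfl⟩, rfl⟩ := hy
        have hz1 : E (z : V) = z := (P16_aux.mem_iff h).1 z.2
        by_cases hg : g ∈ H
        · refine ⟨h.rep ⟨g, hg⟩ z, hU' _ z hz, ?_⟩
          show ρ g (z : V) = E (ρ g (z : V))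
          have h2 := congrArg (fun f : Module.End Ω V => f (z : V)) (h.comm g hg)
          have h3 : ρ g (E (z : V)) = E (ρ g (z : V)) := h2
          rw [← h3, hz1]
        · have h2 := congrArg (fun f : Module.End Ω V => f (z : V)) (h.off g hg)
          have h3 : E (ρ g (E (z : V))) = 0 := h2
          rw [hz1] at h3
          show E (ρ g (z : V)) ∈ _
          rw [h3]
          exact Submodule.zero_mem _
      | zero => rw [map_zero]; exact Submodule.zero_mem _
      | add y y' _ _ h1 h2 => rw [map_add]; exact Submodule.add_mem _ h1 h2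
    have h1 : E (y : V) ∈ U'.map (LinearMap.range E).subtype := key _ (by
      rw [ht]; exact Submodule.mem_top)
    rw [(P16_aux.mem_iff h).1 y.2] at h1
    obtain ⟨z, hz, hzy⟩ := h1
    have h2 : z = y := Subtype.ext hzy
    rwa [← h2]

theorem blk_char (h : Blk ρ H E) (x : H) :
    h.rep.character x = LinearMap.trace Ω V (ρ x * E) := by
  have h1 : ∀ v, (ρ x * E) v ∈ LinearMap.range E := fun v =>
    ⟨ρ x v, (congrArg (fun f : Module.End Ω V => f v) (h.comm x x.2)).symm⟩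
  rw [← LinearMap.trace_restrict_eq_of_forall_mem (LinearMap.range E) (ρ x * E) h1]
  show LinearMap.trace Ω _ (h.rep x) = _
  congr 1
  apply LinearMap.ext
  intro y
  apply Subtype.ext
  show ρ x (y : V) = ρ x (E (y : V))
  rw [(P16_aux.mem_iff h).1 y.2]

theorem blk_finrank (h : Blk ρ H E) (hρ : ρ.IsIrreducible) :
    Module.finrank Ω V = H.index * Module.finrank Ω (LinearMap.range E) := by
  classical
  haveI : Fintype (G ⧸ H) := Fintype.ofFinite _
  have h1 := congrArg (LinearMap.trace Ω V) (blk_sum h hρ)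
  rw [map_sum, LinearMap.trace_one] at h1
  have h2 := blk_char h 1
  rw [Representation.char_one] at h2
  have h3 : LinearMap.trace Ω V E = (Module.finrank Ω (LinearMap.range E) : Ω) := by
    rw [h2]
    show LinearMap.trace Ω V E = LinearMap.trace Ω V (ρ 1 * E)
    rw [map_one, one_mul]
  have h5 : ∑ q : G ⧸ H, LinearMap.trace Ω V (ρ q.out * E * ρ q.out⁻¹) =
      ∑ _q : G ⧸ H, (Module.finrank Ω (LinearMap.range E) : Ω) :=
    Finset.sum_congr rfl fun q _ => by rw [P16_aux.trace_conj, h3]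
  rw [h5, Finset.sum_const, Finset.card_univ, nsmul_eq_mul, ← Nat.cast_mul] at h1
  have h4 := Nat.cast_injective h1
  rw [Subgroup.index_eq_card, Nat.card_eq_fintype_card]
  exact h4.symm

/-- the character of `ρ` is determined by the character of the block -/
theorem blk_induced [Fintype (G ⧸ H)] (h : Blk ρ H E) (hρ : ρ.IsIrreducible) (g : G) :
    ρ.character g = ∑ q : G ⧸ H,
      (open Classical in if hq : q.out⁻¹ * g * q.out ∈ H then
        h.rep.character ⟨q.out⁻¹ * g * q.out, hq⟩ else 0) := by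
  classical
  have h1 : ρ.character g = LinearMap.trace Ω V (ρ g * 1) := by rw [mul_one]; rfl
  rw [h1, ← blk_sum h hρ, Finset.mul_sum, map_sum]
  refine Finset.sum_congr rfl fun q _ => ?_
  have h2 : LinearMap.trace Ω V (ρ g * (ρ q.out * E * ρ q.out⁻¹)) =
      LinearMap.trace Ω V (ρ (q.out⁻¹ * g * q.out) * E) := by
    rw [← mul_assoc, LinearMap.trace_mul_comm]
    congr 1
    rw [map_mul, map_mul]
    simp only [mul_assoc]
  rw [h2]
  split_ifs with hq
  · rw [blk_char h]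
  · rw [← h.idem, ← mul_assoc, LinearMap.trace_mul_comm, ← mul_assoc, h.off _ hq, map_zero]

/-- restriction of an invariant form -/
theorem blk_orthRep (h : Blk ρ H E) {B : LinearMap.BilinForm Ω V} (hB : InvForm ρ B)
    (hE : SelfAdj B E) : Orth h.rep := by
  refine ⟨B.restrict (LinearMap.range E), ?_, ?_, ?_⟩
  · intro x y
    exact hB.symm x y
  · intro x hx
    apply Subtype.ext
    refine nondeg_range hB.symm hB.nondeg h.idem hE (x : V) ((P16_aux.mem_iff h).1 x.2)
      fun y hy => ?_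
    exact hx ⟨y, (P16_aux.mem_iff h).2 hy⟩
  · intro g x y
    exact hB.inv g x y

/-- the operator acting blockwise through the element `s` of the group algebra of `H` -/
theorem blk_det [Fintype (G ⧸ H)] (h : Blk ρ H E) (hρ : ρ.IsIrreducible) (s : H → Ω) :
    LinearMap.det (∑ q : G ⧸ H, ρ q.out * (act (rs H ρ) s * E) * ρ q.out⁻¹) =
      LinearMap.det (act h.rep s) ^ H.index := by
  classical
  set A := act (rs H ρ) s with hA
  have hAE : A * E = E * A := P16_aux.act_comm h s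
  let toF : V →ₗ[Ω] (G ⧸ H → LinearMap.range E) :=
    LinearMap.pi fun q => E.rangeRestrict ∘ₗ ρ q.out⁻¹
  let inF : (G ⧸ H → LinearMap.range E) →ₗ[Ω] V :=
    ∑ q : G ⧸ H, ρ q.out ∘ₗ (LinearMap.range E).subtype ∘ₗ LinearMap.proj q
  have htoF : ∀ v q, ((toF v q : LinearMap.range E) : V) = E (ρ q.out⁻¹ v) := fun _ _ => rfl
  have hinF : ∀ f, inF f = ∑ q : G ⧸ H, ρ q.out (f q : V) := fun f => by
    show (∑ q : G ⧸ H, ρ q.out ∘ₗ (LinearMap.range E).subtype ∘ₗ LinearMap.proj q) f = _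
    rw [LinearMap.sum_apply]
    rfl
  have hleft : ∀ v, inF (toF v) = v := by
    intro v
    rw [hinF]
    have h1 := congrArg (fun f : Module.End Ω V => f v) (blk_sum h hρ)
    have h2 : (∑ q : G ⧸ H, ρ q.out * E * ρ q.out⁻¹) v = v := h1
    rw [LinearMap.sum_apply] at h2
    exact h2
  have hEf : ∀ (q q' : G ⧸ H) (w : LinearMap.range E), q ≠ q' →
      E (ρ q.out⁻¹ (ρ q'.out (w : V))) = 0 := by
    intro q q' w hq
    have h1 := congrArg (fun f : Module.End Ω V => f (w : V)) (h.off _ (P16_aux.out_ne hq))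
    have h2 : E (ρ (q.out⁻¹ * q'.out) (E (w : V))) = 0 := h1
    rw [(P16_aux.mem_iff h).1 w.2, map_mul] at h2
    exact h2
  have hEs : ∀ (q : G ⧸ H) (w : LinearMap.range E), E (ρ q.out⁻¹ (ρ q.out (w : V))) = w := by
    intro q w
    have h1 : ρ q.out⁻¹ (ρ q.out (w : V)) = w :=
      congrArg (fun f : Module.End Ω V => f (w : V)) (P16_aux.rho_inv_mul (ρ := ρ) (Quotient.out q))
    rw [h1, (P16_aux.mem_iff h).1 w.2]
  have hright : ∀ f, toF (inF f) = f := by
    intro f
    funext q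
    apply Subtype.ext
    rw [htoF, hinF, map_sum, map_sum, Finset.sum_eq_single q]
    · exact hEs q (f q)
    · intro q' _ hq'
      exact hEf q q' (f q') (Ne.symm hq')
    · intro hn
      exact absurd (Finset.mem_univ _) hn
  let e : V ≃ₗ[Ω] (G ⧸ H → LinearMap.range E) :=
    LinearEquiv.ofLinearMap toF inF (LinearMap.ext hright) (LinearMap.ext hleft)
  have hD : (∑ q : G ⧸ H, ρ q.out * (A * E) * ρ q.out⁻¹ : Module.End Ω V) =
      (e.symm : (G ⧸ H → LinearMap.range E) →ₗ[Ω] V) ∘ₗ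
        (LinearMap.pi fun i => (act h.rep s).comp (LinearMap.proj i)) ∘ₗ
          ((e.symm.symm : V ≃ₗ[Ω] (G ⧸ H → LinearMap.range E)) :
            V →ₗ[Ω] (G ⧸ H → LinearMap.range E)) := by
    apply LinearMap.ext
    intro v
    rw [LinearMap.sum_apply]
    show _ = inF (fun q => act h.rep s (toF v q))
    rw [hinF]
    refine Finset.sum_congr rfl fun q _ => ?_
    rw [P16_aux.act_coe h s, htoF]
    rfl
  rw [hD, LinearMap.det_conj, LinearMap.det_pi, Finset.prod_const, Finset.card_univ,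
    Subgroup.index_eq_card, Nat.card_eq_fintype_card]

end

end Parker
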