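import Pool.Agent.Parker.Defs
import Pool.Agent.Parker.P01
import Pool.Agent.Parker.P02
import Pool.Agent.Parker.P08
import Pool.Agent.Parker.P13
import Pool.Agent.Parker.P16

/-!
# MP_6c3636_al, module P17: 3(3), rational self adjoint block idempotents give good
representations (helper7)
-/

namespace Parker

universe u v

noncomputable section

variable {Ω : Type} [Field Ω] [IsAlgClosed Ω] [CharZero Ω] {G : Type u} [Group G] [Finite G]
  {V : Type v} [AddCommGroup V] [Module Ω V] [FiniteDimensional Ω V]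
  {ρ : Representation Ω G V} {H : Subgroup G} {E : Module.End Ω V} {c : Ctx Ω} {m : ℕ}
  {Γ : Subgroup (RingAut Ω)}

/-- an operator with `T² = -1` has determinant `±1` up to sign, absolute value one -/
theorem av_det_of_sq (c : Ctx Ω) {T : Module.End Ω V} (hT : T * T = -1) :
    LinearMap.det T ≠ 0 ∧ c.av (LinearMap.det T) = 1 := by
  have h1 : LinearMap.det T * LinearMap.det T = (-1) ^ Module.finrank Ω V := by
    rw [← map_mul, hT]
    have h2 : (-1 : Module.End Ω V) = (-1 : Ω) • (1 : Module.End Ω V) := by simp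
    rw [h2, LinearMap.det_smul, map_one, mul_one]
  have h3 : c.av (LinearMap.det T) * c.av (LinearMap.det T) = 1 := by
    rw [← map_mul, h1, map_pow, AbsoluteValue.map_neg, map_one, one_pow]
  have h4 : 0 ≤ c.av (LinearMap.det T) := c.av.nonneg _
  have h5 : c.av (LinearMap.det T) = 1 := by nlinarith
  refine ⟨?_, h5⟩
  intro h6
  rw [h6, map_zero] at h5
  exact zero_ne_one h5

/-- the character of the block is `Γ`-fixed -/
theorem blk_fxC (h : Blk ρ H E) (hF : FxC Γ ρ) (hE : E ∈ Rat Γ ρ) : FxC Γ h.rep := by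
  intro x
  rw [blk_char h x]
  exact trace_rat hF (rat_mul (rat_rho Γ ρ x) hE)

namespace P17_aux

omit [IsAlgClosed Ω] [CharZero Ω] [Finite G] [FiniteDimensional Ω V] in
theorem rho_adj {B : LinearMap.BilinForm Ω V} (hB : InvForm ρ B) (g : G) (x y : V) :
    B (ρ g x) y = B x (ρ g⁻¹ y) := by
  have h1 := hB.inv g⁻¹ (ρ g x) y
  rw [← h1, Representation.inv_self_apply]

omit [IsAlgClosed Ω] [CharZero Ω] [Finite G] [FiniteDimensional Ω V] in
theorem rho_adj' {B : LinearMap.BilinForm Ω V} (hB : InvForm ρ B) (g : G) (x y : V) :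
    B (ρ g⁻¹ x) y = B x (ρ g y) := by
  have h1 := rho_adj hB g⁻¹ x y
  rwa [inv_inv] at h1

omit [IsAlgClosed Ω] [CharZero Ω] [FiniteDimensional Ω V] in
/-- a fixed point free involution and signs -/
theorem exists_inv (hev : Even H.index) :
    ∃ (π : G ⧸ H → G ⧸ H) (ε : G ⧸ H → Ω), (∀ q, π (π q) = q) ∧ (∀ q, ε (π q) = - ε q) ∧
      (∀ q, ε q = 1 ∨ ε q = -1) := by
  classical
  obtain ⟨k, hk⟩ := hev
  let _ : Fintype (G ⧸ H) := Fintype.ofFinite _
  have hcard : Fintype.card (G ⧸ H) = Fintype.card (Fin k × Bool) := by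
    rw [Fintype.card_prod, Fintype.card_fin, Fintype.card_bool, ← Nat.card_eq_fintype_card]
    rw [Subgroup.index] at hk
    omega
  obtain ⟨e⟩ : Nonempty (G ⧸ H ≃ Fin k × Bool) := ⟨Fintype.equivOfCardEq hcard⟩
  refine ⟨fun q => e.symm ((e q).1, !(e q).2), fun q => if (e q).2 then 1 else -1, ?_, ?_, ?_⟩
  · intro q
    simp
  · intro q
    cases hq : (e q).2 <;> simp [hq]
  · intro q
    cases hq : (e q).2 <;> simp [hq]

omit [IsAlgClosed Ω] [CharZero Ω] [Finite G] [FiniteDimensional Ω V] in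
theorem conj_skew {B : LinearMap.BilinForm Ω V} (hB : InvForm ρ B) {M : Module.End Ω V}
    (hM : ∀ x y, B (M x) y = - B x (M y)) (g : G) (x y : V) :
    B ((ρ g * M * ρ g⁻¹) x) y = - B x ((ρ g * M * ρ g⁻¹) y) := by
  rw [Module.End.mul_apply, Module.End.mul_apply, Module.End.mul_apply, Module.End.mul_apply,
    rho_adj hB, hM, rho_adj' hB]

end P17_aux

open P17_aux

/-- (3a) `W` odd dimensional, `[G:H]` even: `T = ∑_q ε(q) r_q E r_{π q}⁻¹` for a fixed point free
involution `π` of `G ⧸ H` and signs with `ε (π q) = - ε q`; `T² = -1`. -/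
theorem good_blk_odd (h : Blk ρ H E) (hρ : ρ.IsIrreducible) {B : LinearMap.BilinForm Ω V}
    (hB : InvForm ρ B) (hadj : SelfAdj B E) (hE : E ∈ Rat Γ ρ) (hev : Even H.index) :
    GoodV c Γ ρ := by
  classical
  let _ : Fintype (G ⧸ H) := Fintype.ofFinite _
  obtain ⟨π, ε, hπ, hε, hε1⟩ := exists_inv (Ω := Ω) hev
  let A : G ⧸ H → G ⧸ H → Module.End Ω V := fun q q' => ρ q.out * E * ρ q'.out⁻¹
  have hAA : ∀ q q' p p' : G ⧸ H, A q q' * A p p' = if p = q' then A q p' else 0 := by
    intro q q' p p'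
    have h1 : A q q' * A p p' = ρ q.out * (E * ρ (q'.out⁻¹ * p.out) * E) * ρ p'.out⁻¹ := by
      simp only [A, map_mul, mul_assoc]
    rw [h1]
    split_ifs with hp
    · subst hp
      rw [inv_mul_cancel, map_one, mul_one, h.idem]
    · rw [h.off, mul_zero, zero_mul]
      intro hmem
      apply hp
      have h2 : (q'.out : G ⧸ H) = (p.out : G ⧸ H) := QuotientGroup.eq.mpr hmem
      rw [QuotientGroup.out_eq', QuotientGroup.out_eq'] at h2
      exact h2.symm
  have hbij : Function.Bijective π := by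
    constructor
    · intro a b hab
      rw [← hπ a, hab, hπ b]
    · intro a
      exact ⟨π a, hπ a⟩
  let T : Module.End Ω V := ∑ q, ε q • A q (π q)
  have hTT : T * T = -1 := by
    have h1 : T * T = ∑ q, (ε q * ε (π q)) • A q q := by
      simp only [T]
      rw [Finset.sum_mul]
      apply Finset.sum_congr rfl
      intro q _
      rw [Finset.mul_sum, Finset.sum_eq_single (π q)]
      · rw [smul_mul_smul_comm, hAA, if_pos rfl, hπ]
      · intro p _ hp
        rw [smul_mul_smul_comm, hAA, if_neg hp, smul_zero]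
      · intro hq
        exact absurd (Finset.mem_univ _) hq
    have h2 : ∀ q, (ε q * ε (π q)) • A q q = - (ρ q.out * E * ρ q.out⁻¹) := by
      intro q
      have h3 : ε q * ε (π q) = -1 := by
        rw [hε]
        rcases hε1 q with h4 | h4 <;> rw [h4] <;> ring
      rw [h3, neg_one_smul]
    rw [h1, Finset.sum_congr rfl (fun q _ => h2 q), Finset.sum_neg_distrib, blk_sum h hρ]
  have hA1 : ∀ q q' x y, B (A q q' x) y = B x (A q' q y) := by
    intro q q' x y
    simp only [A, Module.End.mul_apply]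
    rw [rho_adj hB, hadj, rho_adj' hB]
  have hskew : Skew B T := by
    intro x y
    have h1 : B (T x) y = ∑ q, ε q * B (A q (π q) x) y := by
      simp only [T, LinearMap.sum_apply, map_sum, LinearMap.smul_apply, map_smul, smul_eq_mul]
    have h2 : B x (T y) = ∑ q, ε q * B x (A q (π q) y) := by
      simp only [T, LinearMap.sum_apply, map_sum, LinearMap.smul_apply, map_smul, smul_eq_mul]
    rw [h1, h2, ← Finset.sum_neg_distrib]
    have h3 : ∑ q, ε q * B (A q (π q) x) y = ∑ q, ε (π q) * B (A (π q) (π (π q)) x) y :=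
      (Function.Bijective.sum_comp hbij (fun q => ε q * B (A q (π q) x) y)).symm
    rw [h3]
    apply Finset.sum_congr rfl
    intro q _
    rw [hε, hπ, hA1]
    ring
  have hrat : T ∈ Rat Γ ρ := by
    apply rat_sum
    intro q _
    apply rat_smul
    · rcases hε1 q with h4 | h4 <;> rw [h4]
      · intro σ _
        exact map_one σ
      · intro σ _
        rw [map_neg, map_one]
    · exact rat_mul (rat_mul (rat_rho Γ ρ _) hE) (rat_rho Γ ρ _)
  obtain ⟨hd0, hd1⟩ := av_det_of_sq c hTT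
  refine ⟨B, hB, T, hrat, hskew, hd0, ?_⟩
  rw [hd1]
  exact sqV_one

/-- (3b) `W` even dimensional: `T = ∑_q r_q s₀ E r_q⁻¹`. -/
theorem good_blk_even (h : Blk ρ H E) (hρ : ρ.IsIrreducible) {B : LinearMap.BilinForm Ω V}
    (hB : InvForm ρ B) (hadj : SelfAdj B E) (hE : E ∈ Rat Γ ρ) (hF : FxC Γ ρ)
    (hΓ : Ok c m Γ) (hA : PropA c m H) (hev : Even (Module.finrank Ω (LinearMap.range E))) :
    GoodV c Γ ρ := by
  classical
  let _ : Fintype (G ⧸ H) := Fintype.ofFinite _
  obtain ⟨B', hB', T', hT', hsk', hd', hsq'⟩ :=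
    good_of_propA hA hΓ (blk_irr h hρ) hev (blk_orthRep h hB hadj) (blk_fxC h hF hE)
  obtain ⟨s, hs1, hs2, hs3⟩ := exists_skew hB' hT' hsk'
  have hBH : InvForm (rs H ρ) B := ⟨hB.symm, hB.nondeg, fun g x y => hB.inv g x y⟩
  have hskA : Skew B (act (rs H ρ) s) := skew_of_skew hBH hs2
  have hcomm : act (rs H ρ) s * E = E * act (rs H ρ) s := by
    let _ := Fintype.ofFinite H
    rw [act_eq, Finset.sum_mul, Finset.mul_sum]
    apply Finset.sum_congr rfl
    intro x _
    rw [smul_mul_assoc, mul_smul_comm]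
    have h1 : (rs H ρ) x * E = E * (rs H ρ) x := h.comm x x.2
    rw [h1]
  have hskE : ∀ x y, B ((act (rs H ρ) s * E) x) y = - B x ((act (rs H ρ) s * E) y) := by
    intro x y
    rw [Module.End.mul_apply, hskA, hadj]
    have h1 : E (act (rs H ρ) s y) = (act (rs H ρ) s * E) y := by
      rw [hcomm]; rfl
    rw [h1]
  refine ⟨B, hB, ∑ q : G ⧸ H, ρ q.out * (act (rs H ρ) s * E) * ρ q.out⁻¹, ?_, ?_, ?_, ?_⟩
  · apply rat_sum
    intro q _
    exact rat_mul (rat_mul (rat_rho Γ ρ _) (rat_mul (rat_res ⟨s, hs1, rfl⟩) hE))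
      (rat_rho Γ ρ _)
  · intro x y
    simp only [LinearMap.sum_apply, map_sum]
    rw [← Finset.sum_neg_distrib]
    apply Finset.sum_congr rfl
    intro q _
    exact conj_skew hB hskE _ x y
  · rw [blk_det h hρ, hs3]
    exact pow_ne_zero _ hd'
  · rw [blk_det h hρ, hs3, map_pow]
    exact sqV_pow hsq' _

/-- combination -/
theorem good_blk (h : Blk ρ H E) (hρ : ρ.IsIrreducible) {B : LinearMap.BilinForm Ω V}
    (hB : InvForm ρ B) (hadj : SelfAdj B E) (hE : E ∈ Rat Γ ρ) (hF : FxC Γ ρ)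
    (hΓ : Ok c m Γ) (hA : PropA c m H) (hev : Even (Module.finrank Ω V)) :
    GoodV c Γ ρ := by
  rw [blk_finrank h hρ, Nat.even_mul] at hev
  rcases hev with hev | hev
  · exact good_blk_odd h hρ hB hadj hE hev
  · exact good_blk_even h hρ hB hadj hE hF hΓ hA hev

end

end Parker
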