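import Pool.Agent.Parker.Defs
import Pool.Agent.Parker.P01
import Pool.Agent.Parker.P02
import Pool.Agent.Parker.P08
import Pool.Agent.Parker.P11
import Pool.Agent.Parker.P13
import Pool.Agent.Parker.P15
import Pool.Agent.Parker.P16
import Pool.Agent.Parker.P17

/-!
# MP_6c3636_al, module P18: 3(2), subgroups of index two (helper7; proofs by helper74)
-/

namespace Parker

universe u v

noncomputable section

set_option linter.unusedSectionVars false

variable {Ω : Type} [Field Ω] [IsAlgClosed Ω] [CharZero Ω] {G : Type u} [Group G] [Finite G]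
  {V : Type v} [AddCommGroup V] [Module Ω V] [FiniteDimensional Ω V]
  {ρ : Representation Ω G V} {H : Subgroup G} {c : Ctx Ω} {m : ℕ}
  {Γ : Subgroup (RingAut Ω)}

namespace P18_aux

section tw
variable (Ω)

open Classical in
/-- the sign character of a subgroup of index two -/
def sg (H : Subgroup G) (g : G) : Ω := if g ∈ H then 1 else -1

theorem sg_mul (hH : H.index = 2) (a b : G) : sg Ω H (a * b) = sg Ω H a * sg Ω H b := by
  have := Subgroup.mul_mem_iff_of_index_two hH (a := a) (b := b)
  by_cases ha : a ∈ H <;> by_cases hb : b ∈ H <;> simp [sg, ha, hb, this]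

theorem sg_one : sg Ω H 1 = 1 := by simp [sg, H.one_mem]

theorem sg_sq (g : G) : sg Ω H g * sg Ω H g = 1 := by
  by_cases hg : g ∈ H <;> simp [sg, hg]

theorem sg_inv (g : G) : sg Ω H g⁻¹ = sg Ω H g := by
  by_cases hg : g ∈ H <;> simp [sg, hg]

end tw

/-- the twist by the sign character -/
def twist (ρ : Representation Ω G V) (H : Subgroup G) (hH : H.index = 2) :
    Representation Ω G V where
  toFun g := sg Ω H g • ρ g
  map_one' := by simp [sg_one]
  map_mul' a b := by
    rw [sg_mul Ω hH, map_mul]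
    ext v
    simp only [LinearMap.smul_apply, Module.End.mul_apply, map_smul, mul_smul]
    rw [smul_comm]

theorem twist_char (ρ : Representation Ω G V) (hH : H.index = 2) (g : G) :
    (twist ρ H hH).character g = sg Ω H g * ρ.character g := by
  simp [Representation.character, twist]

theorem twist_irr (hρ : ρ.IsIrreducible) (hH : H.index = 2) : (twist ρ H hH).IsIrreducible := by
  have := Fintype.ofFinite G
  rw [irr_iff_ip, ip_eq]
  have h1 := (irr_iff_ip ρ).1 hρ
  rw [ip_eq] at h1
  rw [← h1]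
  congr 1
  refine Finset.sum_congr rfl fun g _ => ?_
  rw [twist_char, twist_char, sg_inv]
  calc _ = (sg Ω H g * sg Ω H g) * (ρ.character g * ρ.character g⁻¹) := by ring
    _ = _ := by rw [sg_sq, one_mul]

/-- the norm of the restriction to a subgroup of index two -/
theorem ip_rs (hρ : ρ.IsIrreducible) (hH : H.index = 2) :
    ip (rs H ρ).character (rs H ρ).character = 1 ∨
      ip (rs H ρ).character (rs H ρ).character = 2 := by
  classical
  have := Fintype.ofFinite G
  have : Fintype H := Fintype.ofFinite H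
  have h1 := (irr_iff_ip ρ).1 hρ
  have h2 : ip ρ.character (twist ρ H hH).character = 1 ∨
      ip ρ.character (twist ρ H hH).character = 0 := by
    by_cases h : ρ.character = (twist ρ H hH).character
    · left; rw [← h]; exact h1
    · right; exact ip_of_ne hρ (twist_irr hρ hH) h
  have hcard : (Nat.card G : Ω) = 2 * (Nat.card H : Ω) := by
    have := H.card_mul_index
    rw [hH] at this
    rw [← this]; push_cast; ring
  have hH0 : (Nat.card H : Ω) ≠ 0 := by
    have : Nat.card H ≠ 0 := Nat.card_pos.ne'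
    exact_mod_cast this
  have key : ip ρ.character ρ.character + ip ρ.character (twist ρ H hH).character =
      ip (rs H ρ).character (rs H ρ).character := by
    rw [ip_eq, ip_eq, ip_eq, ← mul_add, ← Finset.sum_add_distrib, hcard]
    have h3 : ∑ g : G, (ρ.character g * ρ.character g⁻¹ +
        ρ.character g * (twist ρ H hH).character g⁻¹) =
        ∑ g : G, if g ∈ H then 2 * (ρ.character g * ρ.character g⁻¹) else 0 := by
      refine Finset.sum_congr rfl fun g _ => ?_
      rw [twist_char, sg_inv]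
      by_cases hg : g ∈ H
      · simp [sg, hg]; ring
      · simp [sg, hg]
    rw [h3, ← Finset.sum_filter]
    have h4 : ∑ g ∈ Finset.univ.filter (fun g : G => g ∈ H),
        2 * (ρ.character g * ρ.character g⁻¹) =
        ∑ y : H, 2 * ((rs H ρ).character y * (rs H ρ).character y⁻¹) := by
      symm
      refine Finset.sum_bij (fun (y : H) _ => (y : G)) ?_ ?_ ?_ ?_
      · intro y _; simp
      · intro y _ y' _ h; exact Subtype.ext h
      · intro g hg
        simp only [Finset.mem_filter, Finset.mem_univ, true_and] at hg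
        exact ⟨⟨g, hg⟩, Finset.mem_univ _, rfl⟩
      · intro y _; rfl
    rw [h4, ← Finset.mul_sum]
    field_simp
  rw [h1] at key
  rcases h2 with h2 | h2
  · right; rw [← key, h2]; norm_num
  · left; rw [← key, h2]; norm_num

theorem sum_mul_sq (τ : Representation Ω G V) :
    ip τ.character τ.character = ((∑ φ ∈ irr Ω G, mul τ.character φ ^ 2 : ℕ) : Ω) := by
  conv_lhs => rw [char_eq_sum τ]
  rw [ip_sum_left]
  push_cast
  refine Finset.sum_congr rfl fun φ hφ => ?_
  rw [← char_eq_sum τ, ip_smul_left, ip_comm, ← mul_spec τ hφ, sq]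

theorem mul_eq_one (hρ : ρ.IsIrreducible) (hH : H.index = 2) {θ : H → Ω} (hθ : θ ∈ irr Ω H)
    (hm : mul (rs H ρ).character θ ≠ 0) : mul (rs H ρ).character θ = 1 := by
  have h1 := sum_mul_sq (rs H ρ)
  have h2 : (∑ φ ∈ irr Ω H, mul (rs H ρ).character φ ^ 2) ≤ 2 := by
    rcases ip_rs hρ hH with h | h
    · rw [h1] at h
      have : (∑ φ ∈ irr Ω H, mul (rs H ρ).character φ ^ 2) = 1 := by exact_mod_cast h
      omega
    · rw [h1] at h
      have : (∑ φ ∈ irr Ω H, mul (rs H ρ).character φ ^ 2) = 2 := by exact_mod_cast h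
      omega
  have h3 : mul (rs H ρ).character θ ^ 2 ≤ 2 :=
    le_trans (Finset.single_le_sum (f := fun φ => mul (rs H ρ).character φ ^ 2)
      (fun _ _ => Nat.zero_le _) hθ) h2
  have h4 : mul (rs H ρ).character θ < 2 := by nlinarith
  omega

end P18_aux

open P18_aux

/-- Clifford theory for a subgroup `H` of index two, `dim V` even, and a self dual constituent `θ`
of odd degree of `V|H`: with `E` the idempotent of `θ` (in the image of the group algebra of `H`),
`ρ(x) E ρ(x)⁻¹ = 1 - E` for `x ∉ H`, `E` self adjoint, `finrank (range E) = dg θ`.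
Hint: with `ε : G → {±1}` of kernel `H`, `⟨χ_H, χ_H⟩ = ⟨χ, χ⟩ + ⟨χ, χ ε⟩ ∈ {1, 2}`, so `∑ m_φ² ≤ 2`:
the constituents of `V|H` are `θ` and one other one, with multiplicity one (`V|H = θ` is excluded by
parity); the other one is `cj H x θ` (`clifford_one` for the orbit). -/
theorem index_two_clifford (hρ : ρ.IsIrreducible) (hev : Even (Module.finrank Ω V))
    {B : LinearMap.BilinForm Ω V} (hB : InvForm ρ B) [H.Normal] (hH : H.index = 2)
    {θ : H → Ω} (hθ : θ ∈ irr Ω H) (hm : mul (rs H ρ).character θ ≠ 0) (hsd : du θ = θ)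
    (hodd : Odd (dg θ)) :
    (∀ x, x ∉ H → ρ x * act (rs H ρ) (es θ) = (1 - act (rs H ρ) (es θ)) * ρ x) ∧
      SelfAdj B (act (rs H ρ) (es θ)) ∧ Blk ρ H (act (rs H ρ) (es θ)) ∧
      Module.finrank Ω (LinearMap.range (act (rs H ρ) (es θ))) = dg θ := by
  classical
  have hm1 := mul_eq_one hρ hH hθ hm
  have hfin : Module.finrank Ω (LinearMap.range (act (rs H ρ) (es θ))) = dg θ := by
    rw [idem_finrank (rs H ρ) hθ, hm1, one_mul]
  have hself : ∀ (φ : H → Ω), φ ∈ irr Ω H → ∀ g ∈ H, cj H g φ = φ := by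
    intro φ hφ g hg
    exact cj_self H hφ ⟨g, hg⟩
  -- all elements outside `H` act in the same way
  have hout : ∀ x, x ∉ H → ∀ g, g ∉ H → cj H g θ = cj H x θ := by
    intro x hx g hg
    have hxg : x⁻¹ * g ∈ H := by
      rw [Subgroup.mul_mem_iff_of_index_two hH]
      simp [hx, hg]
    have : g = x * (x⁻¹ * g) := by group
    rw [this, cj_mul, hself θ hθ _ hxg]
  have hE : ∀ x, x ∉ H → act (rs H ρ) (es θ) + act (rs H ρ) (es (cj H x θ)) = 1 := by
    intro x hx
    have hne : cj H x θ ≠ θ := by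
      intro he
      have hO := clifford_one H hρ (O := {θ}) (by simpa using hθ) (by
        intro g φ hφ
        rw [Finset.mem_singleton] at hφ ⊢
        subst hφ
        by_cases hg : g ∈ H
        · exact hself _ hθ g hg
        · rw [hout x hx g hg, he]) ⟨θ, by simp, hm⟩
      rw [Finset.sum_singleton] at hO
      rw [hO] at hfin
      have : Module.finrank Ω (LinearMap.range (1 : Module.End Ω V)) = Module.finrank Ω V := by
        have : LinearMap.range (1 : Module.End Ω V) = ⊤ := LinearMap.range_id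
        rw [this]; exact finrank_top Ω V
      rw [this] at hfin
      rw [hfin] at hev
      exact (Nat.not_even_iff_odd.2 hodd) hev
    have hθ' := cj_mem_irr H hθ x
    have hO := clifford_one H hρ (O := {θ, cj H x θ}) (by
        intro φ hφ
        rw [Finset.mem_insert, Finset.mem_singleton] at hφ
        rcases hφ with rfl | rfl
        · exact hθ
        · exact hθ') (by
        intro g φ hφ
        rw [Finset.mem_insert, Finset.mem_singleton] at hφ ⊢
        rcases hφ with rfl | rfl
        · by_cases hg : g ∈ H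
          · left; exact hself _ hθ g hg
          · right; exact hout x hx g hg
        · by_cases hg : g ∈ H
          · right; exact hself _ hθ' g hg
          · left
            rw [← cj_mul]
            refine hself _ hθ _ ?_
            rw [Subgroup.mul_mem_iff_of_index_two hH]
            simp [hx, hg]) ⟨θ, by simp, hm⟩
    rwa [Finset.sum_pair (Ne.symm hne)] at hO
  have hx : ∀ x, x ∉ H → ρ x * act (rs H ρ) (es θ) = (1 - act (rs H ρ) (es θ)) * ρ x := by
    intro x hx
    rw [idem_cj H ρ hθ x]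
    have := hE x hx
    rw [eq_sub_of_add_eq' this]
  have hii := idem_idem (rs H ρ) hθ
  refine ⟨hx, ?_, ?_, hfin⟩
  · intro a b
    have hB' : InvForm (rs H ρ) B := ⟨hB.symm, hB.nondeg, fun g x y => hB.inv g x y⟩
    have := idem_adj hB' hθ a b
    rw [hsd] at this
    exact this
  · refine ⟨hii, (idem_ne_zero_iff (rs H ρ) hθ).2 hm, ?_, ?_⟩
    · intro h hh
      exact idem_comm (rs H ρ) hθ ⟨h, hh⟩
    · intro g hg
      rw [mul_assoc, hx g hg, ← mul_assoc, mul_sub, mul_one, hii, sub_self, zero_mul]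


namespace P18_aux

omit [IsAlgClosed Ω] [CharZero Ω] in
theorem det_swap_mat (n : Type) [Fintype n] [DecidableEq n] :
    (Matrix.fromBlocks (0 : Matrix n n Ω) (1 : Matrix n n Ω) (1 : Matrix n n Ω)
      (0 : Matrix n n Ω)).det = (-1) ^ Fintype.card n := by
  have h1 : Matrix.fromBlocks (1 : Matrix n n Ω) (1 : Matrix n n Ω) (0 : Matrix n n Ω)
      (1 : Matrix n n Ω) * Matrix.fromBlocks (0 : Matrix n n Ω) (1 : Matrix n n Ω)
      (1 : Matrix n n Ω) (0 : Matrix n n Ω) =
      Matrix.fromBlocks (1 : Matrix n n Ω) (1 : Matrix n n Ω) (1 : Matrix n n Ω)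
      (0 : Matrix n n Ω) := by
    rw [Matrix.fromBlocks_multiply]; simp
  have h2 := congrArg Matrix.det h1
  rw [Matrix.det_mul, Matrix.det_fromBlocks_zero₂₁, Matrix.det_fromBlocks_one₁₁] at h2
  simpa [Matrix.det_neg] using h2

omit [IsAlgClosed Ω] [CharZero Ω] in
theorem det_anti_mat (n : Type) [Fintype n] [DecidableEq n] (A D : Matrix n n Ω) :
    (Matrix.fromBlocks 0 D A 0).det = (-1) ^ Fintype.card n * (A.det * D.det) := by
  have h1 : Matrix.fromBlocks (0 : Matrix n n Ω) (1 : Matrix n n Ω) (1 : Matrix n n Ω)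
      (0 : Matrix n n Ω) * Matrix.fromBlocks A 0 0 D = Matrix.fromBlocks 0 D A 0 := by
    rw [Matrix.fromBlocks_multiply]; simp
  rw [← h1, Matrix.det_mul, det_swap_mat, Matrix.det_fromBlocks_zero₂₁]

omit [IsAlgClosed Ω] [CharZero Ω] in
theorem det_anti {W : Type v} [AddCommGroup W] [Module Ω W] [FiniteDimensional Ω W]
    (S S' : Module.End Ω W) (f : (W × W) →ₗ[Ω] (W × W))
    (hf : ∀ a b, f (a, b) = (S' b, S a)) :
    LinearMap.det f = (-1) ^ Module.finrank Ω W * (LinearMap.det S * LinearMap.det S') := by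
  classical
  let b := Module.finBasis Ω W
  rw [← LinearMap.det_toMatrix (b.prod b) f, ← LinearMap.det_toMatrix b S,
    ← LinearMap.det_toMatrix b S']
  have : LinearMap.toMatrix (b.prod b) (b.prod b) f =
      Matrix.fromBlocks 0 (LinearMap.toMatrix b b S') (LinearMap.toMatrix b b S) 0 := by
    ext i j
    rcases i with i | i <;> rcases j with j | j <;>
      simp [LinearMap.toMatrix_apply, hf]
  rw [this, det_anti_mat, Fintype.card_fin]

theorem act_rep_coe {E : Module.End Ω V} (h : Blk ρ H E) (s : H → Ω) (a : LinearMap.range E) :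
    ((act h.rep s a : LinearMap.range E) : V) = act (rs H ρ) s a := by
  have := Fintype.ofFinite H
  rw [act_eq, act_eq]
  simp only [LinearMap.sum_apply, LinearMap.smul_apply, Submodule.coe_sum,
    Submodule.coe_smul]
  rfl

theorem act_left (hH : H.index = 2) {x : G} (hx : x ∉ H) {t : G → Ω}
    (htH : ∀ g ∈ H, t g = 0) :
    act ρ t = ρ x * act (rs H ρ) (fun y => t (x * y)) := by
  classical
  have := Fintype.ofFinite G
  have : Fintype H := Fintype.ofFinite H
  rw [act_eq, act_eq, Finset.mul_sum]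
  have h1 : ∑ g : G, t g • ρ g = ∑ g ∈ Finset.univ.filter (fun g : G => g ∉ H), t g • ρ g := by
    rw [Finset.sum_filter]
    refine Finset.sum_congr rfl fun g _ => ?_
    by_cases hg : g ∈ H
    · simp [htH g hg]
    · simp [hg]
  rw [h1]
  symm
  refine Finset.sum_bij (fun (y : H) _ => x * (y : G)) ?_ ?_ ?_ ?_
  · intro y _
    simp only [Finset.mem_filter, Finset.mem_univ, true_and]
    rw [Subgroup.mul_mem_iff_of_index_two hH]
    simp [hx]
  · intro y _ y' _ h
    exact Subtype.ext (mul_left_cancel h)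
  · intro g hg
    simp only [Finset.mem_filter, Finset.mem_univ, true_and] at hg
    refine ⟨⟨x⁻¹ * g, ?_⟩, Finset.mem_univ _, ?_⟩
    · rw [Subgroup.mul_mem_iff_of_index_two hH]
      simp [hx, hg]
    · simp
  · intro y _
    rw [mul_smul_comm, map_mul]
    rfl

theorem act_right (hH : H.index = 2) {x : G} (hx : x ∉ H) {t : G → Ω}
    (ht : ∀ g, t g⁻¹ = t g) (htH : ∀ g ∈ H, t g = 0) :
    act ρ t = act (rs H ρ) (du (fun y : H => t (x * y))) * ρ x⁻¹ := by
  classical
  have := Fintype.ofFinite G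
  have : Fintype H := Fintype.ofFinite H
  rw [act_eq, act_eq, Finset.sum_mul]
  have h1 : ∑ g : G, t g • ρ g = ∑ g ∈ Finset.univ.filter (fun g : G => g ∉ H), t g • ρ g := by
    rw [Finset.sum_filter]
    refine Finset.sum_congr rfl fun g _ => ?_
    by_cases hg : g ∈ H
    · simp [htH g hg]
    · simp [hg]
  rw [h1]
  symm
  refine Finset.sum_bij (fun (y : H) _ => (y : G) * x⁻¹) ?_ ?_ ?_ ?_
  · intro y _
    simp only [Finset.mem_filter, Finset.mem_univ, true_and]
    rw [Subgroup.mul_mem_iff_of_index_two hH]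
    simp [hx]
  · intro y _ y' _ h
    exact Subtype.ext (mul_right_cancel h)
  · intro g hg
    simp only [Finset.mem_filter, Finset.mem_univ, true_and] at hg
    refine ⟨⟨g * x, ?_⟩, Finset.mem_univ _, ?_⟩
    · rw [Subgroup.mul_mem_iff_of_index_two hH]
      simp [hx, hg]
    · simp
  · intro y _
    have : t ((y : G) * x⁻¹) = t (x * ((y⁻¹ : H) : G)) := by
      rw [← ht]; congr 1; simp
    rw [smul_mul_assoc, map_mul, this]
    rfl

end P18_aux

/-- (2b), determinant of an operator `u` which exchanges the two blocks and is symmetric: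
`det u = -b²` with `b = det (ρ(x)⁻¹ u | W)`; here `u = act ρ t`, `t` supported on `H x`. The block
`b` is `det (act h.rep t')` with `t' h = t (x h)`-like coefficients; statement with an abstract
description of `b`. -/
theorem det_swap (hρ : ρ.IsIrreducible) {B : LinearMap.BilinForm Ω V}
    (hB : InvForm ρ B) [H.Normal] {x : G} (hx : x ∉ H) (hH : H.index = 2)
    {E : Module.End Ω V} (h : Blk ρ H E) (hadj : SelfAdj B E)
    (hxE : ρ x * E = (1 - E) * ρ x) (hodd : Odd (Module.finrank Ω (LinearMap.range E)))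
    {t : G → Ω} (ht : ∀ g, t g⁻¹ = t g) (htH : ∀ g ∈ H, t g = 0) :
    LinearMap.det (act ρ t) = -(LinearMap.det (act h.rep (fun y => t (x * y)))) ^ 2 := by
  classical
  set s : H → Ω := fun y => t (x * y) with hs
  have hirr := blk_irr h hρ
  have horth := blk_orthRep h hB hadj
  -- the determinants of `s` and `du s` agree
  have hdu : LinearMap.det (act h.rep (du s)) = LinearMap.det (act h.rep s) := by
    have hmem : h.rep.character ∈ irr Ω H := mem_irr.2 (mem_irrSet hirr)
    have hself : du h.rep.character = h.rep.character := by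
      funext g
      exact sd_of_orth horth g
    rw [← detc_char hirr, ← detc_char hirr, ← detc_du hmem, hself]
  have hEE := h.idem
  have hxi : E * ρ x⁻¹ = ρ x⁻¹ * (1 - E) := by
    have h1 : ρ x⁻¹ * ρ x = 1 := by rw [← map_mul]; simp
    have h2 : ρ x * ρ x⁻¹ = 1 := by rw [← map_mul]; simp
    calc E * ρ x⁻¹ = ρ x⁻¹ * (ρ x * E) * ρ x⁻¹ := by rw [← mul_assoc, h1, one_mul]
      _ = ρ x⁻¹ * (1 - E) := by rw [hxE, mul_assoc, mul_assoc, h2, mul_one]
  have e1 : E * ρ x * E = 0 := by
    rw [mul_assoc, hxE, ← mul_assoc, mul_sub, mul_one, hEE, sub_self, zero_mul]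
  have e2 : E * ρ x⁻¹ * E = 0 := by
    rw [hxi, mul_assoc, sub_mul, one_mul, hEE, sub_self, mul_zero]
  have e3 : ρ x * E * ρ x⁻¹ = 1 - E := by
    rw [hxE, mul_assoc, ← map_mul]; simp
  have hW : ∀ a : LinearMap.range E, E (a : V) = a := by
    rintro ⟨_, v, rfl⟩
    exact congrArg (fun f : Module.End Ω V => f v) hEE
  let W := LinearMap.range E
  let Φ : (W × W) ≃ₗ[Ω] V :=
    LinearEquiv.ofLinearMap
      ((W.subtype ∘ₗ LinearMap.fst Ω W W) + (ρ x ∘ₗ W.subtype ∘ₗ LinearMap.snd Ω W W))
      (LinearMap.prod E.rangeRestrict (E.rangeRestrict ∘ₗ ρ x⁻¹))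
      (by
        ext v
        have := congrArg (fun f : Module.End Ω V => f v) e3
        simp only [Module.End.mul_apply] at this
        simp [this])
      (by
        apply LinearMap.ext
        rintro ⟨a, b⟩
        have h1 : E (ρ x b) = 0 := by
          have := congrArg (fun f : Module.End Ω V => f b) e1
          simpa [hW b] using this
        have h2 : E (ρ x⁻¹ a) = 0 := by
          have := congrArg (fun f : Module.End Ω V => f a) e2
          simpa [hW a] using this
        apply Prod.ext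
        · apply Subtype.ext
          simp [hW a, h1]
        · apply Subtype.ext
          simp [h2, hW b])
  have hΦ : ∀ a b : W, Φ (a, b) = (a : V) + ρ x b := fun a b => rfl
  have key := LinearMap.det_conj (act ρ t) Φ.symm
  rw [LinearEquiv.symm_symm] at key
  rw [← key, det_anti (act h.rep s) (act h.rep (du s)), hdu, hodd.neg_one_pow]
  · ring
  · intro a b
    apply Φ.injective
    have h1 : act ρ t (a : V) = ρ x (act h.rep s a : W) := by
      rw [act_rep_coe, act_left hH hx htH]; rfl
    have h2 : act ρ t (ρ x b) = (act h.rep (du s) b : W) := by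
      rw [act_rep_coe, act_right hH hx ht htH]
      simp [hs]
    simp only [LinearMap.comp_apply, LinearEquiv.coe_coe, LinearEquiv.apply_symm_apply]
    rw [hΦ, hΦ, map_add, h1, h2, add_comm]

/-- (2a) `E` rational -/
theorem good_index_two_a (hρ : ρ.IsIrreducible) {B : LinearMap.BilinForm Ω V}
    (hB : InvForm ρ B) {x : G} {E : Module.End Ω V} (hE : E ∈ Rat Γ ρ) (hidem : E * E = E)
    (hadj : SelfAdj B E) (hx : ρ x * E = (1 - E) * ρ x) :
    GoodV c Γ ρ := by
  have h1 : ρ x⁻¹ * ρ x = 1 := by rw [← map_mul]; simp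
  have h2 : ρ x * ρ x⁻¹ = 1 := by rw [← map_mul]; simp
  have hxi : E * ρ x⁻¹ = ρ x⁻¹ * (1 - E) := by
    calc E * ρ x⁻¹ = ρ x⁻¹ * (ρ x * E) * ρ x⁻¹ := by rw [← mul_assoc, h1, one_mul]
      _ = ρ x⁻¹ * (1 - E) := by rw [hx, mul_assoc, mul_assoc, h2, mul_one]
  have e1 : E * ρ x * E = 0 := by
    rw [mul_assoc, hx, ← mul_assoc, mul_sub, mul_one, hidem, sub_self, zero_mul]
  have e2 : E * ρ x⁻¹ * E = 0 := by
    rw [hxi, mul_assoc, sub_mul, one_mul, hidem, sub_self, mul_zero]
  have e3 : ρ x * E * ρ x⁻¹ = 1 - E := by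
    rw [hx, mul_assoc, h2, mul_one]
  have hT2 : (ρ x * E - E * ρ x⁻¹) * (ρ x * E - E * ρ x⁻¹) = -1 := by
    have f1 : (ρ x * E) * (ρ x * E) = 0 := by
      calc (ρ x * E) * (ρ x * E) = ρ x * (E * ρ x * E) := by noncomm_ring
        _ = 0 := by rw [e1, mul_zero]
    have f2 : (E * ρ x⁻¹) * (E * ρ x⁻¹) = 0 := by
      calc (E * ρ x⁻¹) * (E * ρ x⁻¹) = (E * ρ x⁻¹ * E) * ρ x⁻¹ := by noncomm_ring
        _ = 0 := by rw [e2, zero_mul]
    have f3 : (ρ x * E) * (E * ρ x⁻¹) = 1 - E := by
      calc (ρ x * E) * (E * ρ x⁻¹) = ρ x * (E * E) * ρ x⁻¹ := by noncomm_ring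
        _ = 1 - E := by rw [hidem, e3]
    have f4 : (E * ρ x⁻¹) * (ρ x * E) = E := by
      calc (E * ρ x⁻¹) * (ρ x * E) = E * (ρ x⁻¹ * ρ x) * E := by noncomm_ring
        _ = E := by rw [h1, mul_one, hidem]
    rw [sub_mul, mul_sub, mul_sub, f1, f2, f3, f4]
    abel
  obtain ⟨hd, hav⟩ := av_det_of_sq c hT2
  refine ⟨B, hB, ρ x * E - E * ρ x⁻¹, ?_, ?_, hd, ?_⟩
  · exact rat_sub (rat_mul (rat_rho Γ ρ x) hE) (rat_mul hE (rat_rho Γ ρ x⁻¹))
  · intro a b
    have g1 : B (ρ x (E a)) b = B a (E (ρ x⁻¹ b)) := by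
      have := hB.inv x⁻¹ (ρ x (E a)) b
      rw [← this, ← Module.End.mul_apply (ρ x⁻¹) (ρ x), h1, Module.End.one_apply, hadj]
    have g2 : B (E (ρ x⁻¹ a)) b = B a (ρ x (E b)) := by
      have := hB.inv x (ρ x⁻¹ a) (E b)
      rw [hadj, ← this, ← Module.End.mul_apply (ρ x) (ρ x⁻¹), h2, Module.End.one_apply]
    simp only [LinearMap.sub_apply, Module.End.mul_apply, map_sub, g1, g2]
    ring
  · rw [hav]; exact sqV_one

namespace P18_aux

/-- an invertible symmetric element supported off `H` -/
theorem exists_symm (hH : H.index = 2) {B : LinearMap.BilinForm Ω V} (hB : InvForm ρ B)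
    {x : G} (hx : x ∉ H) {e : H → Ω} (hidem : act (rs H ρ) e * act (rs H ρ) e = act (rs H ρ) e)
    (hadj : SelfAdj B (act (rs H ρ) e))
    (hxE : ρ x * act (rs H ρ) e = (1 - act (rs H ρ) e) * ρ x) :
    ∃ u : G → Ω, (∀ g, u g⁻¹ = u g) ∧ (∀ g, ¬ (g ∉ H) → u g = 0) ∧
      LinearMap.det (act ρ u) ≠ 0 := by
  classical
  let s : G → Ω := fun g => if hg : x⁻¹ * g ∈ H then e ⟨x⁻¹ * g, hg⟩ else 0
  have hs : ∀ g ∈ H, s g = 0 := by
    intro g hg
    have : ¬ x⁻¹ * g ∈ H := by
      rw [Subgroup.mul_mem_iff_of_index_two hH]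
      simp [hx, hg]
    simp [s, this]
  have hact : act ρ s = ρ x * act (rs H ρ) e := by
    rw [act_left hH hx hs]
    congr 2
    funext y
    simp [s]
  set E := act (rs H ρ) e with hE
  have h1 : ρ x⁻¹ * ρ x = 1 := by rw [← map_mul]; simp
  have h2 : ρ x * ρ x⁻¹ = 1 := by rw [← map_mul]; simp
  have hdu : act ρ (du s) = E * ρ x⁻¹ := by
    apply LinearMap.ext
    intro b
    apply sub_eq_zero.1
    apply hB.nondeg
    intro a
    rw [hB.symm, map_sub, ← act_adj hB, hact, sub_eq_zero]
    have := hB.inv x⁻¹ (ρ x (E a)) b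
    rw [Module.End.mul_apply, ← this, ← Module.End.mul_apply (ρ x⁻¹) (ρ x), h1,
      Module.End.one_apply, hadj, Module.End.mul_apply]
  refine ⟨s + du s, ?_, ?_, ?_⟩
  · intro g
    simp [du, add_comm]
  · intro g hg
    rw [not_not] at hg
    simp [du, hs g hg, hs g⁻¹ (H.inv_mem hg)]
  · rw [act_add, hact, hdu]
    have hxi : E * ρ x⁻¹ = ρ x⁻¹ * (1 - E) := by
      calc E * ρ x⁻¹ = ρ x⁻¹ * (ρ x * E) * ρ x⁻¹ := by rw [← mul_assoc, h1, one_mul]
        _ = ρ x⁻¹ * (1 - E) := by rw [hxE, mul_assoc, mul_assoc, h2, mul_one]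
    have e1 : E * ρ x * E = 0 := by
      rw [mul_assoc, hxE, ← mul_assoc, mul_sub, mul_one, hidem, sub_self, zero_mul]
    have e2 : E * ρ x⁻¹ * E = 0 := by
      rw [hxi, mul_assoc, sub_mul, one_mul, hidem, sub_self, mul_zero]
    have e3 : ρ x * E * ρ x⁻¹ = 1 - E := by
      rw [hxE, mul_assoc, h2, mul_one]
    have hT2 : (ρ x * E + E * ρ x⁻¹) * (ρ x * E + E * ρ x⁻¹) = 1 := by
      have f1 : (ρ x * E) * (ρ x * E) = 0 := by
        calc (ρ x * E) * (ρ x * E) = ρ x * (E * ρ x * E) := by noncomm_ring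
          _ = 0 := by rw [e1, mul_zero]
      have f2 : (E * ρ x⁻¹) * (E * ρ x⁻¹) = 0 := by
        calc (E * ρ x⁻¹) * (E * ρ x⁻¹) = (E * ρ x⁻¹ * E) * ρ x⁻¹ := by noncomm_ring
          _ = 0 := by rw [e2, zero_mul]
      have f3 : (ρ x * E) * (E * ρ x⁻¹) = 1 - E := by
        calc (ρ x * E) * (E * ρ x⁻¹) = ρ x * (E * E) * ρ x⁻¹ := by noncomm_ring
          _ = 1 - E := by rw [hidem, e3]
      have f4 : (E * ρ x⁻¹) * (ρ x * E) = E := by
        calc (E * ρ x⁻¹) * (ρ x * E) = E * (ρ x⁻¹ * ρ x) * E := by noncomm_ring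
          _ = E := by rw [h1, mul_one, hidem]
      rw [add_mul, mul_add, mul_add, f1, f2, f3, f4]
      abel
    intro h0
    have := congrArg LinearMap.det hT2
    rw [map_mul, h0, map_one, zero_mul] at this
    exact zero_ne_one this

/-- an involution has a determinant of absolute value one -/
theorem av_det_invol (c : Ctx Ω) {T : Module.End Ω V} (hT : T * T = 1) :
    LinearMap.det T ≠ 0 ∧ c.av (LinearMap.det T) = 1 := by
  have h1 : LinearMap.det T * LinearMap.det T = 1 := by rw [← map_mul, hT, map_one]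
  refine ⟨fun h => by rw [h, zero_mul] at h1; exact zero_ne_one h1, ?_⟩
  exact av_root c (n := 2) two_ne_zero (by rw [sq]; exact h1)

/-- the coefficients of the idempotents -/
theorem es_sigma (σ : RingAut Ω) (φ : H → Ω) (y : H) :
    σ (es φ y) = es (fun g => σ (φ g)) y := by
  simp [es]

end P18_aux

/-- 3(2): a subgroup of index two satisfying (A), (B) -/
theorem good_index_two (hρ : ρ.IsIrreducible) (hev : Even (Module.finrank Ω V))
    (hO : Orth ρ) (hF : FxC Γ ρ) (hΓ : Ok c m Γ) (hH : H.index = 2)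
    (hA : PropA c m H) (hB : PropB c m H) : GoodV c Γ ρ := by
  classical
  have hn : H.Normal := Subgroup.normal_of_index_eq_two hH
  by_cases hN : NoOdd (rs H ρ)
  · exact good_of_res H hA hB hΓ hO hF hN
  rw [noOdd_iff] at hN
  push Not at hN
  obtain ⟨θ, hθ, hm, hsd, hodd⟩ := hN
  rw [Nat.not_even_iff_odd] at hodd
  obtain ⟨β, hβ⟩ := hO
  obtain ⟨hxE, hadj, hblk, hfin⟩ := index_two_clifford hρ hev hβ hH hθ hm hsd hodd
  obtain ⟨x, hx⟩ : ∃ x, x ∉ H := by
    by_contra hcon
    push Not at hcon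
    have : H = ⊤ := (Subgroup.eq_top_iff' H).2 hcon
    rw [this, Subgroup.index_top] at hH
    omega
  have hm1 : mul (rs H ρ).character θ = 1 := mul_eq_one hρ hH hθ hm
  set E := act (rs H ρ) (es θ) with hEdef
  have hidem : E * E = E := hblk.idem
  by_cases hfix : ∀ σ ∈ Γ, ∀ g, σ (θ g) = θ g
  · -- (2a)
    have hE : E ∈ Rat Γ ρ := by
      have := idem_rat (rs H ρ) (Γ := Γ) (O := {θ}) (by simpa using hθ) (by
        intro σ hσ φ hφ
        rw [Finset.mem_singleton] at hφ ⊢
        subst hφ
        funext g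
        exact hfix σ hσ g)
      rw [Finset.sum_singleton] at this
      exact rat_res this
    exact good_index_two_a hρ hβ hE hidem hadj (hxE x hx)
  -- (2b)
  push Not at hfix
  set θ' := cj H x θ with hθ'def
  have hθ' : θ' ∈ irr Ω H := cj_mem_irr H hθ x
  have hself : ∀ (φ : H → Ω), φ ∈ irr Ω H → ∀ g ∈ H, cj H g φ = φ := by
    intro φ hφ g hg
    exact cj_self H hφ ⟨g, hg⟩
  have hor : ∀ σ ∈ Γ, (fun g => σ (θ g)) = θ ∨ (fun g => σ (θ g)) = θ' := by
    intro σ hσ
    have hfx : Fixes σ (rs H ρ) := fun g => fxC_rs hF H g σ hσ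
    have hmem := sigma_mem_irr hθ σ
    have hmul : mul (rs H ρ).character (fun g => σ (θ g)) ≠ 0 := by
      rw [mul_sigma hfx hθ]; exact hm
    obtain ⟨g, hg⟩ := clifford_trans H hρ hθ hmem hm hmul
    by_cases hgH : g ∈ H
    · left; rw [hg, hself θ hθ g hgH]
    · right
      have hxg : x⁻¹ * g ∈ H := by
        rw [Subgroup.mul_mem_iff_of_index_two hH]
        simp [hx, hgH]
      have : g = x * (x⁻¹ * g) := by group
      rw [hg, this, cj_mul, hself θ hθ _ hxg]
  have hinv : ∀ σ ∈ Γ, (fun g => σ (θ g)) = θ → (fun g => σ (θ' g)) = θ' := by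
    intro σ _ h
    funext g
    exact congrFun h _
  have hinv' : ∀ σ ∈ Γ, (fun g => σ (θ g)) = θ' → (fun g => σ (θ' g)) = θ := by
    intro σ _ h
    have h1 : (fun g => σ (θ' g)) = cj H x θ' := by
      funext g
      exact congrFun h _
    rw [h1, hθ'def, ← cj_mul]
    refine hself _ hθ _ ?_
    rw [Subgroup.mul_mem_iff_of_index_two hH]
  have hne : θ' ≠ θ := by
    intro he
    obtain ⟨σ, hσ, g, hg⟩ := hfix
    apply hg
    rcases hor σ hσ with h | h
    · exact congrFun h g
    · rw [he] at h; exact congrFun h g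
  -- the representation on the block
  have hirr := blk_irr hblk hρ
  have hchar : ∀ y, hblk.rep.character y = θ y := by
    intro y
    rw [blk_char]
    have := idem_trace (rs H ρ) hθ y
    rw [hm1, Nat.cast_one, one_mul] at this
    exact this
  have hFixes : ∀ σ : RingAut Ω, Fixes σ hblk.rep ↔ (fun g => σ (θ g)) = θ := by
    intro σ
    constructor
    · intro h; funext g; have := h g; rwa [hchar] at this
    · intro h g; rw [hchar]; exact congrFun h g
  have hoddW : Odd (Module.finrank Ω (LinearMap.range E)) := by rw [hfin]; exact hodd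
  have hγ : ∃ γ ∈ Γ, ∀ g, γ (hblk.rep.character g) = hblk.rep.character g⁻¹ := by
    refine ⟨1, Γ.one_mem, fun g => ?_⟩
    rw [hchar, hchar]
    have := congrFun hsd g
    rw [← this]; rfl
  obtain ⟨y₀, hy₀⟩ : ∃ y, θ y - θ' y ≠ 0 := by
    by_contra hcon
    push Not at hcon
    exact hne (by funext y; exact (sub_eq_zero.1 (hcon y)).symm)
  set d := θ y₀ - θ' y₀ with hd
  have hσd : ∀ σ ∈ Γ, σ d = if Fixes σ hblk.rep then d else -d := by
    intro σ hσ
    by_cases hf : Fixes σ hblk.rep
    · rw [if_pos hf]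
      have h1 := (hFixes σ).1 hf
      have h2 := hinv σ hσ h1
      rw [hd, map_sub, congrFun h1 y₀, congrFun h2 y₀]
    · rw [if_neg hf]
      have h1 := (hor σ hσ).resolve_left (fun h => hf ((hFixes σ).2 h))
      have h2 := hinv' σ hσ h1
      rw [hd, map_sub, congrFun h1 y₀, congrFun h2 y₀]
      ring
  have hVd : InV c Γ (c.av d) := propB_gen hB hΓ hirr hoddW hγ hy₀ hσd
  -- the operator `z`
  set z : Module.End Ω V := d • (E - act (rs H ρ) (es θ')) with hz
  have hE' : act (rs H ρ) (es θ') = 1 - E := by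
    have h1 := idem_cj H ρ hθ x
    rw [hxE x hx] at h1
    have h2 : ρ x * ρ x⁻¹ = 1 := by rw [← map_mul]; simp
    have := congrArg (fun f => f * ρ x⁻¹) h1
    simp only [mul_assoc, h2, mul_one] at this
    exact this.symm
  have hz' : z = d • (2 * E - 1) := by
    rw [hz, hE']; congr 1; noncomm_ring
  have hzrat : z ∈ Rat Γ ρ := by
    apply rat_res
    refine ⟨d • (es θ - es θ'), ?_, ?_⟩
    · intro y σ hσ
      simp only [Pi.smul_apply, Pi.sub_apply, smul_eq_mul, map_mul, map_sub, es_sigma]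
      rw [hσd σ hσ]
      by_cases hf : Fixes σ hblk.rep
      · rw [if_pos hf]
        have h1 := (hFixes σ).1 hf
        rw [h1, hinv σ hσ h1]
      · rw [if_neg hf]
        have h1 := (hor σ hσ).resolve_left (fun h => hf ((hFixes σ).2 h))
        rw [h1, hinv' σ hσ h1]
        ring
    · rw [act_smul, act_sub]
  have hzadj : ∀ a b, β (z a) b = β a (z b) := by
    intro a b
    rw [hz']
    simp only [LinearMap.smul_apply, LinearMap.sub_apply, Module.End.mul_apply,
      Module.End.one_apply, map_smul, map_sub, smul_eq_mul]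
    have h2 : ∀ v : V, (2 : Module.End Ω V) v = (2 : Ω) • v := by
      intro v
      rw [show (2 : Module.End Ω V) = 1 + 1 by norm_num, LinearMap.add_apply,
        Module.End.one_apply, two_smul]
    rw [h2, h2]
    simp only [map_smul, LinearMap.smul_apply, smul_eq_mul]
    rw [hadj]
  have hzg : ∀ g, g ∉ H → ρ g * z = - (z * ρ g) := by
    intro g hg
    rw [hz', mul_smul_comm, smul_mul_assoc, ← smul_neg]
    congr 1
    calc ρ g * (2 * E - 1) = 2 * (ρ g * E) - ρ g := by noncomm_ring
      _ = 2 * ((1 - E) * ρ g) - ρ g := by rw [hxE g hg]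
      _ = -((2 * E - 1) * ρ g) := by noncomm_ring
  -- the operator `u`
  obtain ⟨u0, hu0, hu0P, hu0d⟩ := exists_symm hH hβ hx hidem hadj (hxE x hx)
  obtain ⟨t, ht, htP, htd⟩ := exists_symm_rat ρ (fun g => g ∉ H)
    (fun g hg hg' => hg (by simpa using H.inv_mem hg')) hu0 hu0P hu0d
  set tt : G → Ω := fun g => (t g : Ω) with htt
  have htt1 : ∀ g, tt g⁻¹ = tt g := fun g => by simp [htt, ht]
  have htt0 : ∀ g ∈ H, tt g = 0 := fun g hg => by
    have := htP g (by simpa using hg)
    simp [htt, this]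
  set u := act ρ tt with hu
  have hurat : u ∈ Rat Γ ρ := ⟨tt, fun g => fx_ratCast Γ _, rfl⟩
  have hadju : ∀ a b, β (u a) b = β a (u b) := by
    intro a b
    rw [hu, act_adj hβ]
    have : du tt = tt := by funext g; exact htt1 g
    rw [this]
  have huz : u * z = - (z * u) := by
    have := Fintype.ofFinite G
    rw [hu, act_eq, Finset.sum_mul, Finset.mul_sum, ← Finset.sum_neg_distrib]
    refine Finset.sum_congr rfl fun g _ => ?_
    by_cases hg : g ∈ H
    · rw [htt0 g hg]; simp
    · rw [smul_mul_assoc (tt g) (ρ g) z, mul_smul_comm (tt g) z (ρ g), hzg g hg, smul_neg]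
  have hdetu := det_swap hρ hβ hx hH hblk hadj (hxE x hx) hoddW htt1 htt0
  set b := LinearMap.det (act hblk.rep (fun y => tt (x * y))) with hb
  have hb0 : b ≠ 0 := by
    intro h0
    rw [h0] at hdetu
    apply htd
    rw [show LinearMap.det (act ρ fun g => (t g : Ω)) = LinearMap.det (act ρ tt) from rfl, hdetu]
    simp
  have hσb : ∀ σ : RingAut Ω, Fixes σ hblk.rep → σ b = b := by
    intro σ hf
    rw [hb, det_fixes hirr hf]
    congr 2
    funext y
    simp [htt]
  have hσb2 : ∀ σ ∈ Γ, σ b = b ∨ σ b = -b := by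
    intro σ hσ
    have h1 : Fx Γ (LinearMap.det (act ρ tt)) := det_fx hρ hF hurat
    have h2 := h1 σ hσ
    rw [hdetu, map_neg, map_pow, neg_inj] at h2
    exact sq_eq_sq_iff_eq_or_eq_neg.1 h2
  have hVb : InV c Γ (c.av b) := by
    by_cases hall : Fx Γ b
    · exact inV_of_fx hb0 hall
    · have : ∃ σ ∈ Γ, σ b ≠ b := by
        by_contra hcon
        push Not at hcon
        exact hall hcon
      obtain ⟨σ₁, hσ₁, hne₁⟩ := this
      refine propB_gen hB hΓ hirr hoddW hγ hb0 ?_
      intro σ hσ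
      by_cases hf : Fixes σ hblk.rep
      · rw [if_pos hf]; exact hσb σ hf
      · rw [if_neg hf]
        rcases hσb2 σ hσ with h | h
        · exfalso
          have h1 := (hor σ hσ).resolve_left (fun h => hf ((hFixes σ).2 h))
          have hf₁ : ¬ Fixes σ₁ hblk.rep := fun hh => hne₁ (hσb σ₁ hh)
          have h2 := (hor σ₁ hσ₁).resolve_left (fun h => hf₁ ((hFixes σ₁).2 h))
          have h3 : Fixes (σ⁻¹ * σ₁) hblk.rep := by
            rw [hFixes]
            funext g
            have h4 : σ (θ g) = θ' g := congrFun h1 g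
            have h5 : σ₁ (θ g) = θ' g := congrFun h2 g
            rw [RingAut.mul_apply, h5, ← h4]
            exact RingEquiv.symm_apply_apply σ _
          have h6 := hσb _ h3
          rw [RingAut.mul_apply] at h6
          apply hne₁
          have h7 := congrArg σ h6
          have h8 : σ (σ⁻¹ (σ₁ b)) = σ₁ b := RingEquiv.apply_symm_apply σ _
          rw [h8, h] at h7
          exact h7
        · exact h
  -- conclusion
  have hdim : Module.finrank Ω V = 2 * Module.finrank Ω (LinearMap.range E) := by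
    rw [blk_finrank hblk hρ, hH]
  have hinvol : (2 * E - 1) * (2 * E - 1) = (1 : Module.End Ω V) := by
    calc (2 * E - 1) * (2 * E - 1) = 4 * (E * E) - 4 * E + 1 := by noncomm_ring
      _ = 1 := by rw [hidem, sub_self, zero_add]
  obtain ⟨hv0, hv1⟩ := av_det_invol c hinvol
  have hdz : LinearMap.det z = d ^ Module.finrank Ω V * LinearMap.det (2 * E - 1) := by
    rw [hz', LinearMap.det_smul]
  have hdT : LinearMap.det (z * u) = LinearMap.det z * LinearMap.det u := map_mul _ _ _
  have hz0 : LinearMap.det z ≠ 0 := by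
    rw [hdz]; exact mul_ne_zero (pow_ne_zero _ hy₀) hv0
  have hu0' : LinearMap.det u ≠ 0 := htd
  refine ⟨β, hβ, z * u, rat_mul hzrat hurat, ?_, ?_, ?_⟩
  · intro a b'
    have h1 : u (z b') = - (z (u b')) := by
      have := congrArg (fun f : Module.End Ω V => f b') huz
      simpa using this
    rw [Module.End.mul_apply, hzadj, hadju, h1, map_neg]
    rfl
  · rw [hdT]; exact mul_ne_zero hz0 hu0'
  · rw [hdT, hdz, map_mul, map_mul, hv1, mul_one, map_pow, hdim, hu, hdetu]
    have h1 : c.av (-b ^ 2) = c.av b ^ 2 := by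
      rw [AbsoluteValue.map_neg, map_pow]
    rw [h1, pow_mul']
    exact sqV_mul (sqV_sq (inV_pow hVd _)) (sqV_sq hVb)

end

end Parker
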