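import Pool.Agent.Parker.Defs

/-!
# MP_6c3636_al, module P19: 2-groups (helper7)
-/

namespace Parker

universe u v w

/-- the restricted action -/
private def act19 {E : Type u} {X : Type v} [Group E] [MulAction E X] (Θ : Finset X)
    (hst : ∀ (e : E), ∀ x ∈ Θ, e • x ∈ Θ) : MulAction E {x // x ∈ Θ} where
  smul e x := ⟨e • (x : X), hst e x x.2⟩
  one_smul x := Subtype.ext (one_smul E (x : X))
  mul_smul a b x := Subtype.ext (mul_smul a b (x : X))

private theorem act19_coe {E : Type u} {X : Type v} [Group E] [MulAction E X] (Θ : Finset X)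
    (hst : ∀ (e : E), ∀ x ∈ Θ, e • x ∈ Θ) (e : E) (x : {x // x ∈ Θ}) :
    (((@MulAction.toPermHom E {x // x ∈ Θ} _ (act19 Θ hst)) e x : {x // x ∈ Θ}) : X) = e • (x : X) :=
  rfl

private theorem pg19 {E : Type u} {X : Type v} [Group E] [MulAction E X] (Θ : Finset X)
    (hst : ∀ (e : E), ∀ x ∈ Θ, e • x ∈ Θ)
    (h2 : ∀ e : E, ∃ j : ℕ, ∀ x ∈ Θ, (e ^ (2 ^ j)) • x = x) :
    IsPGroup 2 (@MulAction.toPermHom E {x // x ∈ Θ} _ (act19 Θ hst)).range := by
  rintro ⟨g, e, rfl⟩
  obtain ⟨j, hj⟩ := h2 e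
  refine ⟨j, Subtype.ext ?_⟩
  change (@MulAction.toPermHom E {x // x ∈ Θ} _ (act19 Θ hst)) e ^ 2 ^ j = 1
  rw [← map_pow]
  refine Equiv.ext fun x => Subtype.ext ?_
  rw [act19_coe, hj x x.2]
  rfl

/-- A group `E` acts on `X`, `Θ` a finite stable subset of odd cardinality such that every element
of `E` has a power `e ^ (2 ^ j)` acting trivially on `Θ`. Then there is a common fixed point.
(`IsPGroup.card_modEq_card_fixedPoints` for the image of `E` in `Equiv.Perm Θ`.) -/
theorem exists_fixed_of_odd {E : Type u} {X : Type v} [Group E] [MulAction E X] (Θ : Finset X)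
    (hst : ∀ (e : E), ∀ x ∈ Θ, e • x ∈ Θ)
    (h2 : ∀ e : E, ∃ j : ℕ, ∀ x ∈ Θ, (e ^ (2 ^ j)) • x = x) (hodd : Odd Θ.card) :
    ∃ x ∈ Θ, ∀ e : E, e • x = x := by
  have hP := pg19 Θ hst h2
  have hmod := hP.card_modEq_card_fixedPoints {x // x ∈ Θ}
  rw [Nat.card_eq_fintype_card, Fintype.card_coe] at hmod
  have hne : Nat.card (MulAction.fixedPoints
      (@MulAction.toPermHom E {x // x ∈ Θ} _ (act19 Θ hst)).range {x // x ∈ Θ}) ≠ 0 := by
    intro h0
    rw [h0] at hmod
    have h1 : Θ.card % 2 = 0 := hmod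
    rw [Nat.odd_iff] at hodd
    omega
  have hnonempty : Nonempty (MulAction.fixedPoints
      (@MulAction.toPermHom E {x // x ∈ Θ} _ (act19 Θ hst)).range {x // x ∈ Θ}) := by
    by_contra hcon
    rw [not_nonempty_iff] at hcon
    exact hne Nat.card_of_isEmpty
  obtain ⟨x, hx⟩ := hnonempty
  refine ⟨x, x.2, fun e => ?_⟩
  have h1 := hx ⟨_, e, rfl⟩
  have h2 := congrArg Subtype.val h1
  exact h2

/-- transitive action through a `2`-group: the cardinality is a power of two -/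
theorem card_two_pow {E : Type u} {X : Type v} [Group E] [MulAction E X] (Θ : Finset X)
    (hst : ∀ (e : E), ∀ x ∈ Θ, e • x ∈ Θ)
    (h2 : ∀ e : E, ∃ j : ℕ, ∀ x ∈ Θ, (e ^ (2 ^ j)) • x = x) (hne : Θ.Nonempty)
    (htrans : ∀ x ∈ Θ, ∀ y ∈ Θ, ∃ e : E, e • x = y) : ∃ k : ℕ, Θ.card = 2 ^ k := by
  have hP := pg19 Θ hst h2
  obtain ⟨x, hx⟩ := hne
  have htr : MulAction.IsPretransitive
      (@MulAction.toPermHom E {x // x ∈ Θ} _ (act19 Θ hst)).range {x // x ∈ Θ} := by
    refine ⟨fun a b => ?_⟩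
    obtain ⟨e, he⟩ := htrans a a.2 b b.2
    exact ⟨⟨_, e, rfl⟩, Subtype.ext he⟩
  have hi := MulAction.index_stabilizer_of_transitive
    (@MulAction.toPermHom E {x // x ∈ Θ} _ (act19 Θ hst)).range (⟨x, hx⟩ : {x // x ∈ Θ})
  rw [Nat.card_eq_fintype_card, Fintype.card_coe] at hi
  obtain ⟨n, hn⟩ := hP.index (MulAction.stabilizer
    (@MulAction.toPermHom E {x // x ∈ Θ} _ (act19 Θ hst)).range (⟨x, hx⟩ : {x // x ∈ Θ}))
  exact ⟨n, by rw [← hi, hn]⟩

/-- a normal subgroup of index a power of two, not the whole group, is contained in a subgroup of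
index two -/
theorem exists_index_two {G : Type u} [Group G] [Finite G] (T : Subgroup G) [T.Normal] {k : ℕ}
    (h : T.index = 2 ^ k) (hne : T ≠ ⊤) : ∃ H : Subgroup G, T ≤ H ∧ H.index = 2 := by
  have hk : k ≠ 0 := by
    rintro rfl
    rw [pow_zero, Subgroup.index_eq_one] at h
    exact hne h
  obtain ⟨l, rfl⟩ := Nat.exists_eq_succ_of_ne_zero hk
  have hcard : Nat.card (G ⧸ T) = 2 ^ (l + 1) := h
  have : Fact (Nat.Prime 2) := ⟨Nat.prime_two⟩
  obtain ⟨K, hK⟩ := Sylow.exists_subgroup_card_pow_prime (G := G ⧸ T) 2 (n := l)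
    (by rw [hcard]; exact pow_dvd_pow 2 (Nat.le_succ l))
  have hKi : K.index = 2 := by
    have h1 := K.card_mul_index
    rw [hK, hcard, pow_succ] at h1
    exact Nat.eq_of_mul_eq_mul_left (by positivity) h1
  refine ⟨K.comap (QuotientGroup.mk' T), ?_, ?_⟩
  · intro g hg
    rw [Subgroup.mem_comap]
    have : QuotientGroup.mk' T g = 1 := by
      rw [QuotientGroup.mk'_apply, QuotientGroup.eq_one_iff]
      exact hg
    rw [this]
    exact K.one_mem
  · rw [Subgroup.index_comap_of_surjective _ (QuotientGroup.mk'_surjective T), hKi]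

/-- `G` acts on `X`, `Θ` a finite subset on which `G` is transitive; a second group `E` acts,
commuting with `G`, also transitive on `Θ`, every element of `E` has a power `e ^ (2^j)` acting
trivially on `Θ`, and the action of `E` on `Θ` is commutative. If `G` has no subgroup of index two,
then `Θ` has one element. (The stabilizer of a point of `Θ` in `G` is normal of index `|Θ|`.) -/
theorem card_eq_one {G : Type w} [Group G] [Finite G] {E : Type u} {X : Type v} [Group E]
    [MulAction E X] [MulAction G X] (Θ : Finset X)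
    (hG : ∀ (g : G), ∀ x ∈ Θ, g • x ∈ Θ)
    (hst : ∀ (e : E), ∀ x ∈ Θ, e • x ∈ Θ)
    (hcomm : ∀ (g : G) (e : E) (x : X), g • e • x = e • g • x)
    (h2 : ∀ e : E, ∃ j : ℕ, ∀ x ∈ Θ, (e ^ (2 ^ j)) • x = x) (hne : Θ.Nonempty)
    (htrans : ∀ x ∈ Θ, ∀ y ∈ Θ, ∃ e : E, e • x = y)
    (htransG : ∀ x ∈ Θ, ∀ y ∈ Θ, ∃ g : G, g • x = y)
    (hno : ∀ H : Subgroup G, H.index ≠ 2) : Θ.card = 1 := by
  obtain ⟨k, hk⟩ := card_two_pow Θ hst h2 hne htrans
  obtain ⟨x, hx⟩ := hne
  have horb : MulAction.orbit G x = (Θ : Set X) := by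
    ext y
    constructor
    · rintro ⟨g, rfl⟩
      exact hG g x hx
    · intro hy
      obtain ⟨g, hg⟩ := htransG x hx y hy
      exact ⟨g, hg⟩
  have hidx : (MulAction.stabilizer G x).index = Θ.card := by
    rw [MulAction.index_stabilizer, horb, Set.ncard_coe_finset]
  have hfix : ∀ g ∈ MulAction.stabilizer G x, ∀ y ∈ Θ, g • y = y := by
    intro g hg y hy
    obtain ⟨e, rfl⟩ := htrans x hx y hy
    rw [hcomm, MulAction.mem_stabilizer_iff.mp hg]
  have hnormal : (MulAction.stabilizer G x).Normal := by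
    refine ⟨fun n hn g => ?_⟩
    rw [MulAction.mem_stabilizer_iff, mul_smul, mul_smul, hfix n hn _ (hG g⁻¹ x hx),
      smul_inv_smul]
  by_cases htop : MulAction.stabilizer G x = ⊤
  · rw [← hidx, htop, Subgroup.index_top]
  · obtain ⟨H, -, hH⟩ := exists_index_two (MulAction.stabilizer G x) (hidx.trans hk) htop
    exact absurd hH (hno H)

end Parker
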