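import Pool.Agent.Parker.Defs
import Pool.Agent.Parker.P01
import Pool.Agent.Parker.P05
import Pool.Agent.Parker.P08
import Pool.Agent.Parker.P09
import Pool.Agent.Parker.P10
import Pool.Agent.Parker.P13
import Pool.Agent.Parker.P15
import Pool.Agent.Parker.P17
import Pool.Agent.Parker.P18
import Pool.Agent.Parker.P19

/-!
# MP_6c3636_al, module P20: 3(3), normal subgroups (helper7)
-/

namespace Parker

universe u v

noncomputable section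

namespace P20_aux

variable {Ω : Type} [Field Ω] {G : Type u} [Group G] (N : Subgroup G) [N.Normal]

/-- conjugation and field automorphisms commute -/
theorem cj_sigma (g : G) (σ : RingAut Ω) (φ : N → Ω) :
    cj N g (fun n => σ (φ n)) = fun n => σ (cj N g φ n) := rfl

omit [Field Ω] in
theorem cj_inv_cj (g : G) (φ : N → Ω) : cj N g⁻¹ (cj N g φ) = φ := by
  funext n
  simp only [cj, inv_inv]
  congr 1
  rw [← MulAut.mul_apply, ← map_mul, inv_mul_cancel, map_one, MulAut.one_apply]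

theorem sigma_inv (σ : RingAut Ω) (x : Ω) : σ⁻¹ (σ x) = x :=
  RingEquiv.symm_apply_apply σ x

theorem sigma_inv' (σ : RingAut Ω) (x : Ω) : σ (σ⁻¹ x) = x :=
  RingEquiv.apply_symm_apply σ x

/-- the elements of `G` which map `θ` into its orbit under `Γ` -/
def orbStab (Γ : Subgroup (RingAut Ω)) (θ : N → Ω)
    (h1 : ∀ φ : N → Ω, cj N 1 φ = φ)
    (hmul : ∀ (g h : G) (φ : N → Ω), cj N (g * h) φ = cj N g (cj N h φ)) : Subgroup G where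
  carrier := {g | ∃ σ ∈ Γ, cj N g θ = fun n => σ (θ n)}
  mul_mem' := by
    rintro a b ⟨σ, hσ, ha⟩ ⟨τ, hτ, hb⟩
    refine ⟨τ * σ, Γ.mul_mem hτ hσ, ?_⟩
    rw [hmul, hb, cj_sigma, ha]
    rfl
  one_mem' := ⟨1, Γ.one_mem, by rw [h1]; rfl⟩
  inv_mem' := by
    rintro a ⟨σ, hσ, ha⟩
    refine ⟨σ⁻¹, Γ.inv_mem hσ, ?_⟩
    have h2 : θ = fun n => σ (cj N a⁻¹ θ n) := by
      rw [← cj_sigma, ← ha, cj_inv_cj]
    funext n
    conv_rhs => rw [h2]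
    exact (sigma_inv σ _).symm

end P20_aux

variable {Ω : Type} [Field Ω] [IsAlgClosed Ω] [CharZero Ω] {G : Type u} [Group G] [Finite G]
  {V : Type v} [AddCommGroup V] [Module Ω V] [FiniteDimensional Ω V]
  {ρ : Representation Ω G V} {c : Ctx Ω} {m : ℕ} {Γ : Subgroup (RingAut Ω)}

/-- elements of `Γ` have 2-power order on the irreducible characters of a group of order dividing
`m` -/
theorem two_irr (hΓ : Ok c m Γ) (hm : m ≠ 0) (hG : Nat.card G ∣ m) {σ : RingAut Ω} (hσ : σ ∈ Γ) :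
    ∃ j : ℕ, ∀ φ ∈ irr Ω G, ∀ g, (σ ^ (2 ^ j)) (φ g) = φ g := by
  obtain ⟨j, hj⟩ := hΓ.two σ hσ
  refine ⟨j, fun φ hφ g => ?_⟩
  obtain ⟨n, τ, hτ, rfl⟩ := mem_irr.1 hφ
  have hg : g ^ m = 1 := by
    obtain ⟨k, rfl⟩ := hG
    rw [pow_mul, pow_card_eq_one', one_pow]
  exact char_fixed τ hm hg hj

/-- two automorphisms commute on irreducible characters -/
theorem comm_irr {φ : G → Ω} (hφ : φ ∈ irr Ω G) (g : G) (σ τ : RingAut Ω) :
    σ (τ (φ g)) = τ (σ (φ g)) := by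
  obtain ⟨n, ρ, hρ, rfl⟩ := mem_irr.1 hφ
  exact char_comm ρ g σ τ

/-- 3(3): the orbit `O = Γ θ` and its stabilizer `H` in `G`: if `H ≠ ⊤` then `ρ` is good -/
theorem good_of_orbit (hρ : ρ.IsIrreducible) (hev : Even (Module.finrank Ω V)) (hO : Orth ρ)
    (hF : FxC Γ ρ) (hΓ : Ok c m Γ) (hsub : ∀ H : Subgroup G, H ≠ ⊤ → PropA c m H ∧ PropB c m H)
    (N : Subgroup G) [N.Normal] {θ : N → Ω} (hθ : θ ∈ irr Ω N)
    (hmul : mul (rs N ρ).character θ ≠ 0) (hsd : du θ = θ) {g : G}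
    (hg : ∀ σ ∈ Γ, cj N g θ ≠ fun n => σ (θ n)) : GoodV c Γ ρ := by
  classical
  obtain ⟨B, hB⟩ := hO
  set H : Subgroup G := P20_aux.orbStab N Γ θ (cj_one N) (cj_mul N) with hH
  have memH : ∀ x : G, x ∈ H ↔ ∃ σ ∈ Γ, cj N x θ = fun n => σ (θ n) := fun x => Iff.rfl
  have hHt : H ≠ ⊤ := by
    intro h
    have h1 : g ∈ H := by rw [h]; exact Subgroup.mem_top g
    obtain ⟨σ, hσ, h2⟩ := (memH g).1 h1
    exact hg σ hσ h2
  set O : Finset (N → Ω) := (irr Ω N).filter fun φ => ∃ σ ∈ Γ, φ = fun n => σ (θ n) with hOdef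
  have memO : ∀ φ, φ ∈ O ↔ ∃ σ ∈ Γ, φ = fun n => σ (θ n) := by
    intro φ
    rw [hOdef, Finset.mem_filter]
    constructor
    · exact fun h => h.2
    · rintro ⟨σ, hσ, rfl⟩
      exact ⟨sigma_mem_irr hθ σ, σ, hσ, rfl⟩
  have hOirr : ∀ φ ∈ O, φ ∈ irr Ω N := fun φ hφ => (Finset.mem_filter.1 hφ).1
  have hstab : ∀ h ∈ H, ∀ φ ∈ O, cj N h φ ∈ O := by
    intro h hh φ hφ
    obtain ⟨σ, hσ, h1⟩ := (memH h).1 hh
    obtain ⟨τ, hτ, rfl⟩ := (memO φ).1 hφ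
    refine (memO _).2 ⟨τ * σ, Γ.mul_mem hτ hσ, ?_⟩
    rw [P20_aux.cj_sigma, h1]
    rfl
  have hoff : ∀ x, x ∉ H → ∀ φ ∈ O, cj N x φ ∉ O := by
    intro x hx φ hφ hcon
    obtain ⟨σ, hσ, rfl⟩ := (memO φ).1 hφ
    obtain ⟨τ, hτ, h1⟩ := (memO _).1 hcon
    refine hx ((memH x).2 ⟨σ⁻¹ * τ, Γ.mul_mem (Γ.inv_mem hσ) hτ, ?_⟩)
    rw [P20_aux.cj_sigma] at h1
    funext n
    have h2 : σ (cj N x θ n) = τ (θ n) := congrFun h1 n
    have h3 : cj N x θ n = σ⁻¹ (τ (θ n)) := by rw [← h2, P20_aux.sigma_inv]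
    rw [h3]
    rfl
  have hθO : θ ∈ O := (memO θ).2 ⟨1, Γ.one_mem, rfl⟩
  have hblk : Blk ρ H (∑ φ ∈ O, act (rs N ρ) (es φ)) :=
    clifford_blk N H hOirr hstab hoff ⟨θ, hθO, hmul⟩
  have hBN : InvForm (rs N ρ) B := ⟨hB.symm, hB.nondeg, fun n => hB.inv n⟩
  have hadj : SelfAdj B (∑ φ ∈ O, act (rs N ρ) (es φ)) := by
    intro x y
    rw [LinearMap.sum_apply, LinearMap.sum_apply, map_sum, map_sum, LinearMap.sum_apply]
    refine Finset.sum_congr rfl fun φ hφ => ?_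
    rw [idem_adj hBN (hOirr φ hφ)]
    obtain ⟨σ, hσ, rfl⟩ := (memO φ).1 hφ
    have h1 : du (fun n => σ (θ n)) = fun n => σ (θ n) := by
      funext n
      have h2 := congrFun hsd n
      simp only [du] at h2 ⊢
      rw [h2]
    rw [h1]
  have hE : (∑ φ ∈ O, act (rs N ρ) (es φ)) ∈ Rat Γ ρ := by
    refine rat_res (H := N) (idem_rat (rs N ρ) hOirr ?_)
    intro σ hσ φ hφ
    obtain ⟨τ, hτ, rfl⟩ := (memO φ).1 hφ
    exact (memO _).2 ⟨σ * τ, Γ.mul_mem hσ hτ, rfl⟩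
  exact good_blk hblk hρ hB hadj hE hF hΓ (hsub H hHt).1 hev

/-- 3(3): in a minimal counterexample, the restriction to every proper normal subgroup is isotypic
of odd, self dual, `Γ`-fixed type -/
theorem step3 (hρ : ρ.IsIrreducible) (hev : Even (Module.finrank Ω V)) (hO : Orth ρ)
    (hF : FxC Γ ρ) (hΓ : Ok c m Γ) (hm : m ≠ 0) (hG : Nat.card G ∣ m)
    (hsub : ∀ H : Subgroup G, H ≠ ⊤ → PropA c m H ∧ PropB c m H) (hbad : ¬ GoodV c Γ ρ)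
    (N : Subgroup G) [N.Normal] (hN : N ≠ ⊤) :
    ∃ θ ∈ irr Ω N, act (rs N ρ) (es θ) = 1 ∧ (∀ g : G, cj N g θ = θ) ∧
      (∀ σ ∈ Γ, ∀ n, σ (θ n) = θ n) ∧ du θ = θ ∧ Odd (dg θ) := by
  classical
  have h1 : ¬ NoOdd (rs N ρ) := fun h =>
    hbad (good_of_res N (hsub N hN).1 (hsub N hN).2 hΓ hO hF h)
  rw [noOdd_iff] at h1
  push Not at h1
  obtain ⟨θ, hθ, hmul, hsd, hodd⟩ := h1
  rw [Nat.not_even_iff_odd] at hodd
  have hconj : ∀ g : G, ∃ σ ∈ Γ, cj N g θ = fun n => σ (θ n) := by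
    intro g
    by_contra hcon
    push Not at hcon
    exact hbad (good_of_orbit hρ hev hO hF hΓ hsub N hθ hmul hsd hcon)
  set Θ : Finset (N → Ω) := (irr Ω N).filter fun φ => ∃ σ ∈ Γ, φ = fun n => σ (θ n) with hΘdef
  have memΘ : ∀ φ, φ ∈ Θ ↔ ∃ σ ∈ Γ, φ = fun n => σ (θ n) := by
    intro φ
    rw [hΘdef, Finset.mem_filter]
    constructor
    · exact fun h => h.2
    · rintro ⟨σ, hσ, rfl⟩
      exact ⟨sigma_mem_irr hθ σ, σ, hσ, rfl⟩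
  have hΘirr : ∀ φ ∈ Θ, φ ∈ irr Ω N := fun φ hφ => (Finset.mem_filter.1 hφ).1
  have hθΘ : θ ∈ Θ := (memΘ θ).2 ⟨1, Γ.one_mem, rfl⟩
  have hFN : ∀ σ ∈ Γ, Fixes σ (rs N ρ) := fun σ hσ n => hF n σ hσ
  have hmulΘ : ∀ φ ∈ Θ, mul (rs N ρ).character φ ≠ 0 := by
    intro φ hφ
    obtain ⟨σ, hσ, rfl⟩ := (memΘ φ).1 hφ
    rw [mul_sigma (hFN σ hσ) hθ]
    exact hmul
  have hGst : ∀ (g : G), ∀ φ ∈ Θ, cj N g φ ∈ Θ := by
    intro g φ hφ
    obtain ⟨σ, hσ, rfl⟩ := (memΘ φ).1 hφ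
    obtain ⟨τ, hτ, h2⟩ := hconj g
    refine (memΘ _).2 ⟨σ * τ, Γ.mul_mem hσ hτ, ?_⟩
    rw [P20_aux.cj_sigma, h2]
    rfl
  let instE : MulAction Γ (N → Ω) :=
    { smul := fun σ φ n => (σ : RingAut Ω) (φ n)
      one_smul := fun φ => rfl
      mul_smul := fun σ τ φ => rfl }
  let instG : MulAction G (N → Ω) :=
    { smul := fun g φ => cj N g φ
      one_smul := fun φ => cj_one N φ
      mul_smul := fun g h φ => cj_mul N g h φ }
  have hcard : Θ.card = 1 := by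
    refine @card_eq_one G _ _ Γ (N → Ω) _ instE instG Θ hGst ?_ ?_ ?_ ⟨θ, hθΘ⟩ ?_ ?_ ?_
    · intro σ φ hφ
      obtain ⟨τ, hτ, rfl⟩ := (memΘ φ).1 hφ
      exact (memΘ _).2 ⟨σ * τ, Γ.mul_mem σ.2 hτ, rfl⟩
    · intro g σ φ
      rfl
    · intro σ
      obtain ⟨j, hj⟩ := two_irr (G := N) hΓ hm ((Subgroup.card_subgroup_dvd_card N).trans hG) σ.2
      refine ⟨j, fun φ hφ => ?_⟩
      funext n
      exact hj φ (hΘirr φ hφ) n
    · intro φ hφ ψ hψ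
      obtain ⟨σ, hσ, rfl⟩ := (memΘ φ).1 hφ
      obtain ⟨τ, hτ, rfl⟩ := (memΘ ψ).1 hψ
      refine ⟨⟨τ * σ⁻¹, Γ.mul_mem hτ (Γ.inv_mem hσ)⟩, ?_⟩
      funext n
      show τ (σ⁻¹ (σ (θ n))) = τ (θ n)
      rw [P20_aux.sigma_inv]
    · intro φ hφ ψ hψ
      obtain ⟨g, hg⟩ := clifford_trans N hρ (hΘirr φ hφ) (hΘirr ψ hψ) (hmulΘ φ hφ) (hmulΘ ψ hψ)
      exact ⟨g, hg.symm⟩
    · intro H hH
      have hHt : H ≠ ⊤ := by
        rintro rfl
        rw [Subgroup.index_top] at hH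
        exact absurd hH (by norm_num)
      exact hbad (good_index_two hρ hev hO hF hΓ hH (hsub H hHt).1 (hsub H hHt).2)
  obtain ⟨a, ha⟩ := Finset.card_eq_one.1 hcard
  have hΘ : ∀ φ ∈ Θ, φ = θ := by
    intro φ hφ
    rw [ha, Finset.mem_singleton] at hφ hθΘ
    rw [hφ, hθΘ]
  have hfix : ∀ g : G, cj N g θ = θ := fun g => hΘ _ (hGst g θ hθΘ)
  refine ⟨θ, hθ, ?_, hfix, ?_, hsd, hodd⟩
  · have h2 := clifford_one N hρ (O := {θ}) (fun φ hφ => by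
      rw [Finset.mem_singleton] at hφ
      rw [hφ]
      exact hθ) (fun g φ hφ => by
      rw [Finset.mem_singleton] at hφ ⊢
      rw [hφ]
      exact hfix g) ⟨θ, Finset.mem_singleton_self θ, hmul⟩
    rw [Finset.sum_singleton] at h2
    exact h2
  · intro σ hσ n
    exact congrFun (hΘ _ ((memΘ _).2 ⟨σ, hσ, rfl⟩)) n

end

end Parker
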