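import Pool.Agent.Parker.Defs
import Pool.Agent.Parker.P01
import Pool.Agent.Parker.P05
import Pool.Agent.Parker.P08
import Pool.Agent.Parker.P10

/-!
# MP_6c3636_al, module P21: the canonical extension, (4.1) and (4.2) (helper7)
-/

namespace Parker

universe u v

noncomputable section

variable {Ω : Type} [Field Ω] [IsAlgClosed Ω] [CharZero Ω] {G : Type u} [Group G] [Finite G]

namespace P21_aux

variable {V : Type v} [AddCommGroup V] [Module Ω V] [FiniteDimensional Ω V]

omit [IsAlgClosed Ω] [CharZero Ω] [FiniteDimensional Ω V] in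
theorem nd {B : LinearMap.BilinForm Ω V} (hs : ∀ x y, B x y = B y x)
    (hn : ∀ x, (∀ y, B x y = 0) → x = 0) : B.Nondegenerate :=
  ⟨fun x h => hn x h, fun y h => hn y (fun x => by rw [hs]; exact h x)⟩

omit [IsAlgClosed Ω] [CharZero Ω] in
/-- isometries have determinant with square one -/
theorem det_sq {B : LinearMap.BilinForm Ω V} (hs : ∀ x y, B x y = B y x)
    (hn : ∀ x, (∀ y, B x y = 0) → x = 0) {S : Module.End Ω V}
    (h : ∀ x y, B (S x) (S y) = B x y) : LinearMap.det S * LinearMap.det S = 1 := by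
  classical
  let bs := Module.finBasis Ω V
  have hM : (LinearMap.BilinForm.toMatrix bs B).det ≠ 0 :=
    (LinearMap.BilinForm.nondegenerate_iff_det_ne_zero bs).mp (nd hs hn)
  have h1 : B.comp S S = B := by
    refine LinearMap.ext fun x => LinearMap.ext fun y => ?_
    rw [LinearMap.BilinForm.comp_apply]
    exact h x y
  have h2 := LinearMap.BilinForm.toMatrix_comp bs bs B S S
  rw [h1] at h2
  have h3 := congrArg Matrix.det h2
  rw [Matrix.det_mul, Matrix.det_mul, Matrix.det_transpose, LinearMap.det_toMatrix] at h3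
  have h4 : (LinearMap.BilinForm.toMatrix bs B).det * (LinearMap.det S * LinearMap.det S)
      = (LinearMap.BilinForm.toMatrix bs B).det * 1 := by
    rw [mul_one]
    calc _ = _ := by ring
      _ = _ := h3.symm
  exact mul_left_cancel₀ hM h4

omit [IsAlgClosed Ω] [CharZero Ω] [FiniteDimensional Ω V] in
theorem sep {B : LinearMap.BilinForm Ω V} (hn : ∀ x, (∀ y, B x y = 0) → x = 0) {u v : V}
    (h : ∀ y, B u y = B v y) : u = v := by
  have := hn (u - v) (fun y => by rw [map_sub, LinearMap.sub_apply, h y, sub_self])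
  exact sub_eq_zero.mp this

/-- uniqueness of the invariant form up to scalars -/
theorem form_unique {H : Type u} [Group H] [Finite H] {θ : Representation Ω H V}
    (hθ : θ.IsIrreducible) {b b' : LinearMap.BilinForm Ω V} (hs : ∀ x y, b x y = b y x)
    (hn : ∀ x, (∀ y, b x y = 0) → x = 0) (hi : ∀ g x y, b (θ g x) (θ g y) = b x y)
    (hi' : ∀ g x y, b' (θ g x) (θ g y) = b' x y) : ∃ c : Ω, ∀ x y, b' x y = c * b x y := by
  let T : Module.End Ω V := (b.toDual (nd hs hn)).symm.toLinearMap ∘ₗ b'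
  have hT : ∀ x y, b (T x) y = b' x y := fun x y => by
    change b ((b.toDual (nd hs hn)).symm (b' x)) y = _
    rw [LinearMap.BilinForm.apply_toDual_symm_apply]
  have hc : ∀ g, T * θ g = θ g * T := by
    intro g
    refine LinearMap.ext fun x => ?_
    refine sep hn fun y => ?_
    rw [Module.End.mul_apply, Module.End.mul_apply, hT]
    have hy : y = θ g (θ g⁻¹ y) := by
      rw [← Module.End.mul_apply, ← map_mul, mul_inv_cancel, map_one, Module.End.one_apply]
    rw [hy, hi, hi', hT]
  obtain ⟨c, hc⟩ := schur hθ hc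
  refine ⟨c, fun x y => ?_⟩
  rw [← hT, hc, LinearMap.smul_apply, Module.End.one_apply, map_smul, LinearMap.smul_apply,
    smul_eq_mul]

/-- the conjugate representation -/
def cr (N : Subgroup G) [N.Normal] (g : G) (θ : Representation Ω N V) : Representation Ω N V :=
  MonoidHom.comp θ (MulAut.conjNormal g : MulAut N).toMonoidHom

omit [IsAlgClosed Ω] [CharZero Ω] [Finite G] [FiniteDimensional Ω V] in
theorem cr_apply (N : Subgroup G) [N.Normal] (g : G) (θ : Representation Ω N V) (n : N) :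
    cr N g θ n = θ (MulAut.conjNormal g n) := rfl

theorem cr_irr (N : Subgroup G) [N.Normal] (g : G) {θ : Representation Ω N V}
    (h : θ.IsIrreducible) : (cr N g θ).IsIrreducible := by
  refine irr_of_sub (irr_pos h) fun U hU => irr_sub h fun n x hx => ?_
  have h1 := hU ((MulAut.conjNormal g : MulAut N).symm n) x hx
  rw [cr_apply, MulEquiv.apply_symm_apply] at h1
  exact h1

omit [IsAlgClosed Ω] [CharZero Ω] [FiniteDimensional Ω V] in
/-- a nondegenerate form on a nonzero space is nonzero -/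
theorem exists_nz {b : LinearMap.BilinForm Ω V} (hn : ∀ x, (∀ y, b x y = 0) → x = 0)
    (hV : 0 < Module.finrank Ω V) : ∃ x y, b x y ≠ 0 := by
  by_contra hcon
  push Not at hcon
  have : Nontrivial V := Module.nontrivial_of_finrank_pos hV
  obtain ⟨x, hx⟩ := exists_ne (0 : V)
  exact hx (hn x (hcon x))

omit [IsAlgClosed Ω] [CharZero Ω] in
/-- `t ^ a = 1` and `t * t = 1` with `a` odd -/
theorem one_of {t : Ω} {a : ℕ} (ha : Odd a) (h1 : t ^ a = 1) (h2 : t * t = 1) : t = 1 := by
  obtain ⟨k, rfl⟩ := ha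
  rw [pow_succ, pow_mul, pow_two, h2, one_pow, one_mul] at h1
  exact h1

omit [IsAlgClosed Ω] [CharZero Ω] in
theorem pow_lem {d : Ω} {a : ℕ} (ha : Odd a) (h2 : d * d = 1) : d ^ a * d = 1 := by
  obtain ⟨k, rfl⟩ := ha
  rw [pow_succ, pow_mul, pow_two, h2, one_pow, one_mul, h2]

/-- existence -/
theorem iso_exists {H : Type u} [Group H] [Finite H] {a : ℕ} (ha : Odd a)
    {θ θ' : Representation Ω H (Fin a → Ω)} (hθ : θ.IsIrreducible) (hθ' : θ'.IsIrreducible)
    {b : LinearMap.BilinForm Ω (Fin a → Ω)} (hb : InvForm θ b) (hb' : InvForm θ' b)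
    (hchar : θ.character = θ'.character) :
    ∃ S : Module.End Ω (Fin a → Ω), (∀ x y, b (S x) (S y) = b x y) ∧ LinearMap.det S = 1 ∧
      ∀ n, S * θ n = θ' n * S := by
  obtain ⟨e⟩ := equiv_of_char hθ hθ' hchar
  set P : Module.End Ω (Fin a → Ω) := e.toLinearEquiv.toLinearMap with hP
  have hPe : ∀ x, P x = e x := fun x => rfl
  have hint : ∀ n x, P (θ n x) = θ' n (P x) := fun n x =>
    Representation.IntertwiningMap.isIntertwining _ _ e.toIntertwiningMap n x
  have hPi : Function.Surjective P := e.toLinearEquiv.surjective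
  -- the pulled back form
  obtain ⟨c, hc⟩ := form_unique (b' := b.comp P P) hθ hb.symm hb.nondeg hb.inv
    (fun g x y => by
      rw [LinearMap.BilinForm.comp_apply, LinearMap.BilinForm.comp_apply, hint, hint, hb'.inv])
  have hc' : ∀ x y, b (P x) (P y) = c * b x y := fun x y => by
    rw [← hc, LinearMap.BilinForm.comp_apply]
  have hpos : 0 < Module.finrank Ω (Fin a → Ω) := irr_pos hθ
  have hc0 : c ≠ 0 := by
    rintro rfl
    obtain ⟨x, y, hxy⟩ := exists_nz hb.nondeg hpos
    obtain ⟨x', rfl⟩ := hPi x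
    obtain ⟨y', rfl⟩ := hPi y
    rw [hc', zero_mul] at hxy
    exact hxy rfl
  obtain ⟨r, hr⟩ := IsAlgClosed.exists_pow_nat_eq c (n := 2) (by norm_num)
  have hr0 : r ≠ 0 := by
    rintro rfl
    exact hc0 (by rw [← hr]; simp)
  obtain ⟨S0, hS0i, hS0n⟩ : ∃ S0 : Module.End Ω (Fin a → Ω),
      (∀ x y, b (S0 x) (S0 y) = b x y) ∧ ∀ n, S0 * θ n = θ' n * S0 := by
    refine ⟨r⁻¹ • P, fun x y => ?_, fun n => LinearMap.ext fun x => ?_⟩
    · rw [LinearMap.smul_apply, LinearMap.smul_apply, map_smul, map_smul,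
        LinearMap.smul_apply, hc', smul_eq_mul, smul_eq_mul, ← hr]
      field_simp
    · rw [Module.End.mul_apply, Module.End.mul_apply, LinearMap.smul_apply,
        LinearMap.smul_apply, hint, map_smul]
  have hd := det_sq hb.symm hb.nondeg hS0i
  refine ⟨LinearMap.det S0 • S0, ?_, ?_, ?_⟩
  · intro x y
    rw [LinearMap.smul_apply, LinearMap.smul_apply, map_smul, map_smul,
      LinearMap.smul_apply, hS0i, smul_eq_mul, smul_eq_mul, ← mul_assoc, hd, one_mul]
  · rw [LinearMap.det_smul, Module.finrank_fin_fun]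
    exact pow_lem ha hd
  · intro n
    rw [smul_mul_assoc, mul_smul_comm, hS0n]

/-- uniqueness -/
theorem iso_unique {H : Type u} [Group H] [Finite H] {a : ℕ} (ha : Odd a)
    {θ θ' : Representation Ω H (Fin a → Ω)} (hθ : θ.IsIrreducible)
    {b : LinearMap.BilinForm Ω (Fin a → Ω)} (hb : InvForm θ b)
    {S T : Module.End Ω (Fin a → Ω)}
    (hS : (∀ x y, b (S x) (S y) = b x y) ∧ LinearMap.det S = 1 ∧ ∀ n, S * θ n = θ' n * S)
    (hT : (∀ x y, b (T x) (T y) = b x y) ∧ LinearMap.det T = 1 ∧ ∀ n, T * θ n = θ' n * T) :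
    S = T := by
  obtain ⟨hS1, hS2, hS3⟩ := hS
  obtain ⟨hT1, hT2, hT3⟩ := hT
  have hu : IsUnit (LinearMap.det T) := by rw [hT2]; exact isUnit_one
  set Te := LinearMap.equivOfIsUnitDet hu with hTe
  have hTe1 : ∀ x, Te x = T x := fun x => LinearMap.equivOfIsUnitDet_apply hu x
  set Q : Module.End Ω (Fin a → Ω) := Te.symm.toLinearMap ∘ₗ S with hQ
  have hTQ : ∀ x, T (Q x) = S x := fun x => by
    rw [hQ, LinearMap.comp_apply, ← hTe1]
    exact Te.apply_symm_apply _
  have hTQ' : T * Q = S := LinearMap.ext hTQ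
  have hTinj : ∀ x y, T x = T y → x = y := fun x y h =>
    Te.injective (by rw [hTe1, hTe1]; exact h)
  have hcomm : ∀ n, Q * θ n = θ n * Q := by
    intro n
    refine LinearMap.ext fun x => ?_
    apply hTinj
    have h3 := congrArg (fun f : Module.End Ω (Fin a → Ω) => f x) (hS3 n)
    have h4 := congrArg (fun f : Module.End Ω (Fin a → Ω) => f (Q x)) (hT3 n)
    simp only [Module.End.mul_apply] at h3 h4 ⊢
    rw [hTQ, h3, h4, hTQ]
  obtain ⟨t, ht⟩ := schur hθ hcomm
  have hSt : S = t • T := by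
    rw [← hTQ', ht, mul_smul_comm, mul_one]
  have h1 : t ^ a = 1 := by
    have := hS2
    rw [hSt, LinearMap.det_smul, hT2, mul_one, Module.finrank_fin_fun] at this
    exact this
  have h2 : t * t = 1 := by
    obtain ⟨x, y, hxy⟩ := exists_nz hb.nondeg (irr_pos hθ)
    have := hS1 x y
    rw [hSt, LinearMap.smul_apply, LinearMap.smul_apply, map_smul, map_smul,
      LinearMap.smul_apply, hT1, smul_eq_mul, smul_eq_mul, ← mul_assoc] at this
    exact mul_right_cancel₀ hxy (by rw [this, one_mul])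
  rw [hSt, one_of ha h1 h2, one_smul]

omit [IsAlgClosed Ω] [CharZero Ω] [Finite G] in
theorem cr_char {N : Subgroup G} [N.Normal] {a : ℕ} {θ : Representation Ω N (Fin a → Ω)}
    (hinv : ∀ g : G, cj N g θ.character = θ.character) (g : G) :
    θ.character = (cr N g θ).character := by
  have h := hinv g⁻¹
  rw [← h]
  funext n
  rw [cj, inv_inv]
  rfl

omit [IsAlgClosed Ω] [CharZero Ω] [Finite G] [FiniteDimensional Ω V] in
theorem cr_form {N : Subgroup G} [N.Normal] {θ : Representation Ω N V}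
    {b : LinearMap.BilinForm Ω V} (hb : InvForm θ b) (g : G) : InvForm (cr N g θ) b :=
  ⟨hb.symm, hb.nondeg, fun _ x y => hb.inv _ x y⟩

omit [IsAlgClosed Ω] [CharZero Ω] in
/-- twisted operator -/
def twm {a : ℕ} (σ : RingAut Ω) (T : Module.End Ω (Fin a → Ω)) : Module.End Ω (Fin a → Ω) :=
  Matrix.toLin' ((LinearMap.toMatrix' T).map σ)

omit [IsAlgClosed Ω] [CharZero Ω] in
theorem twm_mul {a : ℕ} (σ : RingAut Ω) (S T : Module.End Ω (Fin a → Ω)) :
    twm σ (S * T) = twm σ S * twm σ T := by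
  rw [twm, twm, twm, LinearMap.toMatrix'_mul, Matrix.map_mul, Matrix.toLin'_mul]
  rfl

omit [IsAlgClosed Ω] [CharZero Ω] in
theorem twm_det {a : ℕ} (σ : RingAut Ω) (T : Module.End Ω (Fin a → Ω)) :
    LinearMap.det (twm σ T) = σ (LinearMap.det T) := by
  rw [twm, LinearMap.det_toLin', ← LinearMap.det_toMatrix']
  exact (RingEquiv.map_det σ _).symm

omit [IsAlgClosed Ω] [CharZero Ω] in
theorem twm_smul {a : ℕ} (σ : RingAut Ω) (c : Ω) (T : Module.End Ω (Fin a → Ω)) :
    twm σ (c • T) = σ c • twm σ T := by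
  have h : (LinearMap.toMatrix' (c • T)).map σ = σ c • (LinearMap.toMatrix' T).map σ := by
    ext i j
    rw [Matrix.map_apply, Matrix.smul_apply, Matrix.map_apply, map_smul, Matrix.smul_apply,
      smul_eq_mul, smul_eq_mul, map_mul]
  rw [twm, twm, h, map_smul]

end P21_aux

open P21_aux

/-- (4.1), existence and uniqueness for one `g`: `A = Fin a → Ω`, `θ` irreducible of odd degree
with invariant symmetric form `b`, `g : G` such that `n ↦ θ (g n g⁻¹)` has the same character.
There is a unique isometry `S` of determinant one with `S θ(n) = θ(g n g⁻¹) S`. -/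
theorem exists_unique_iso (N : Subgroup G) [N.Normal] {a : ℕ} (ha : Odd a)
    {θ : Representation Ω N (Fin a → Ω)} (hθ : θ.IsIrreducible)
    {b : LinearMap.BilinForm Ω (Fin a → Ω)} (hb : InvForm θ b)
    (hinv : ∀ g : G, cj N g θ.character = θ.character) (g : G) :
    ∃! S : Module.End Ω (Fin a → Ω), (∀ x y, b (S x) (S y) = b x y) ∧ LinearMap.det S = 1 ∧
      ∀ n : N, S * θ n = θ (MulAut.conjNormal g n) * S := by
  obtain ⟨S, hS⟩ := iso_exists ha hθ (cr_irr N g hθ) hb (cr_form hb g) (cr_char hinv g)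
  exact ⟨S, hS, fun T hT => iso_unique (θ' := cr N g θ) ha hθ hb hT hS⟩

/-- for an orthogonal representation, `det (θ n) = ±1` -/
theorem det_orth {V : Type v} [AddCommGroup V] [Module Ω V] [FiniteDimensional Ω V]
    {θ : Representation Ω G V} (h : Orth θ) (g : G) :
    LinearMap.det (θ g) = 1 ∨ LinearMap.det (θ g) = -1 := by
  obtain ⟨B, hB⟩ := h
  have := det_sq hB.symm hB.nondeg (S := θ g) (fun x y => hB.inv g x y)
  exact mul_self_eq_one_iff.mp this

/-- (4.1), (4.2): the canonical extension `S` of `θ`: `S n = det (θ n) • θ n` for `n ∈ N`,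
orthogonal, determinant one, and `Γ`-fixed if `θ` is. -/
theorem canonical_extension (N : Subgroup G) [N.Normal] {a : ℕ} (ha : Odd a)
    {θ : Representation Ω N (Fin a → Ω)} (hθ : θ.IsIrreducible) (hsd : SD θ)
    (hinv : ∀ g : G, cj N g θ.character = θ.character) :
    ∃ S : Representation Ω G (Fin a → Ω), (∀ n : N, S n = LinearMap.det (θ n) • θ n) ∧
      Orth S ∧ (∀ g, LinearMap.det (S g) = 1) ∧
      (∀ (g : G) (n : N), S g * θ n = θ (MulAut.conjNormal g n) * S g) ∧
      ∀ Γ : Subgroup (RingAut Ω), FxC Γ θ → FxC Γ S := by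
  obtain ⟨b, hb⟩ := orth_of_odd hθ hsd (by rw [Module.finrank_fin_fun]; exact ha)
  have hex := exists_unique_iso N ha hθ hb hinv
  choose S0 hS0 hS0u using hex
  have huniq : ∀ (g : G) (T : Module.End Ω (Fin a → Ω)), (∀ x y, b (T x) (T y) = b x y) →
      LinearMap.det T = 1 → (∀ n : N, T * θ n = θ (MulAut.conjNormal g n) * T) → T = S0 g :=
    fun g T h1 h2 h3 => hS0u g T ⟨h1, h2, h3⟩
  have hone : S0 1 = 1 := by
    symm
    refine huniq 1 1 (fun x y => rfl) (map_one _) fun n => ?_
    rw [map_one, MulAut.one_apply, one_mul, mul_one]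
  have hmul : ∀ x y, S0 (x * y) = S0 x * S0 y := by
    intro x y
    symm
    refine huniq (x * y) _ (fun u v => ?_) ?_ fun n => ?_
    · rw [Module.End.mul_apply, Module.End.mul_apply, (hS0 x).1, (hS0 y).1]
    · rw [map_mul, (hS0 x).2.1, (hS0 y).2.1, one_mul]
    · rw [map_mul, MulAut.mul_apply, mul_assoc, (hS0 y).2.2, ← mul_assoc, (hS0 x).2.2, mul_assoc]
  let S : Representation Ω G (Fin a → Ω) :=
    { toFun := S0
      map_one' := hone
      map_mul' := hmul }
  have hSa : ∀ g, S g = S0 g := fun g => rfl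
  have hform : InvForm S b := ⟨hb.symm, hb.nondeg, fun g x y => (hS0 g).1 x y⟩
  have hdet1 : ∀ n : N, LinearMap.det (θ n) * LinearMap.det (θ n) = 1 := fun n =>
    det_sq hb.symm hb.nondeg (fun x y => hb.inv n x y)
  have hN : ∀ n : N, S n = LinearMap.det (θ n) • θ n := by
    intro n
    rw [hSa]
    symm
    refine huniq n _ (fun x y => ?_) ?_ fun m => ?_
    · rw [LinearMap.smul_apply, LinearMap.smul_apply, map_smul, map_smul, LinearMap.smul_apply,
        hb.inv, smul_eq_mul, smul_eq_mul, ← mul_assoc, hdet1, one_mul]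
    · rw [LinearMap.det_smul, Module.finrank_fin_fun]
      exact pow_lem ha (hdet1 n)
    · rw [smul_mul_assoc, mul_smul_comm, ← map_mul, ← map_mul]
      congr 2
      ext
      simp [MulAut.conjNormal_apply]
  refine ⟨S, hN, ⟨b, hform⟩, fun g => (hS0 g).2.1, fun g n => (hS0 g).2.2 n, ?_⟩
  intro Γ hF g σ hσ
  -- the twist
  have hirr' := tw_irr σ hθ
  have hchar : θ.character = (tw σ θ).character := by
    funext n
    rw [tw_char, hF n σ hσ]
  obtain ⟨e⟩ := equiv_of_char hθ hirr' hchar
  obtain ⟨B1, hB1⟩ := tw_orth σ (⟨b, hform⟩ : Orth S)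
  have hint : ∀ n x, e (θ n x) = tw σ θ n (e x) := fun n x =>
    Representation.IntertwiningMap.isIntertwining _ _ e.toIntertwiningMap n x
  have htwS : ∀ g, tw σ S g = twm σ (S g) := fun g => tw_apply σ S g
  have htwθ : ∀ n, tw σ θ n = twm σ (θ n) := fun n => tw_apply σ θ n
  -- `B1` is invariant under the twist of `θ`
  have hB1θ : ∀ n x y, B1 (tw σ θ n x) (tw σ θ n y) = B1 x y := by
    intro n x y
    have h1 := hB1.inv (n : G) x y
    rw [htwS, hN, twm_smul, LinearMap.smul_apply, LinearMap.smul_apply, map_smul, map_smul,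
      LinearMap.smul_apply, smul_eq_mul, smul_eq_mul, ← mul_assoc, ← map_mul, hdet1, map_one,
      one_mul] at h1
    rw [htwθ]
    exact h1
  obtain ⟨c, hc⟩ := form_unique (b' := B1.comp e.toLinearEquiv.toLinearMap
    e.toLinearEquiv.toLinearMap) hθ hb.symm hb.nondeg hb.inv
    (fun n x y => by
      rw [LinearMap.BilinForm.comp_apply, LinearMap.BilinForm.comp_apply]
      change B1 (e (θ n x)) (e (θ n y)) = B1 (e x) (e y)
      rw [hint, hint, hB1θ])
  have hc' : ∀ x y, B1 (e x) (e y) = c * b x y := fun x y => by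
    rw [← hc, LinearMap.BilinForm.comp_apply]
    rfl
  have hsurj : Function.Surjective e := e.toLinearEquiv.surjective
  have hc0 : c ≠ 0 := by
    rintro rfl
    obtain ⟨x, y, hxy⟩ := exists_nz hB1.nondeg (irr_pos hθ)
    obtain ⟨x', rfl⟩ := hsurj x
    obtain ⟨y', rfl⟩ := hsurj y
    rw [hc', zero_mul] at hxy
    exact hxy rfl
  set T : Module.End Ω (Fin a → Ω) :=
    e.toLinearEquiv.symm.toLinearMap ∘ₗ tw σ S g ∘ₗ e.toLinearEquiv.toLinearMap with hT
  have heT : ∀ x, e (T x) = tw σ S g (e x) := fun x => e.toLinearEquiv.apply_symm_apply _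
  have heinj : Function.Injective e := e.toLinearEquiv.injective
  have hTS : T = S0 g := by
    refine huniq g T (fun x y => ?_) ?_ fun n => ?_
    · have h1 := hc' (T x) (T y)
      rw [heT, heT, hB1.inv, hc'] at h1
      exact (mul_left_cancel₀ hc0 h1).symm
    · have h1 : LinearMap.det T = LinearMap.det (tw σ S g) := by
        rw [hT]
        exact LinearMap.det_conj (tw σ S g) e.toLinearEquiv.symm
      rw [h1, htwS, twm_det, hSa, (hS0 g).2.1, map_one]
    · refine LinearMap.ext fun x => heinj ?_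
      rw [Module.End.mul_apply, Module.End.mul_apply, heT, hint, hint, heT, htwθ, htwθ, htwS,
        ← Module.End.mul_apply, ← Module.End.mul_apply, ← twm_mul, ← twm_mul, hSa,
        (hS0 g).2.2]
  have h2 : LinearMap.trace Ω _ T = LinearMap.trace Ω _ (tw σ S g) := by
    rw [hT]
    exact LinearMap.trace_conj' (tw σ S g) e.toLinearEquiv.symm
  have h3 := tw_char σ S g
  have h4 : (tw σ S).character g = S.character g := by
    change LinearMap.trace Ω _ (tw σ S g) = LinearMap.trace Ω _ (S0 g)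
    rw [← h2, hTS]
  rw [← h3, h4]

end

end Parker
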