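import Pool.Agent.Parker.Defs
import Pool.Agent.Parker.P01
import Pool.Agent.Parker.P06
import Pool.Agent.Parker.P07
import Pool.Agent.Parker.P08
import Pool.Agent.Parker.P09
import Pool.Agent.Parker.P10
import Pool.Agent.Parker.P15
import Pool.Agent.Parker.P21

/-!
# MP_6c3636_al, module P22: tensor decomposition, (4.3) (helper7)
-/

namespace Parker

universe u v

noncomputable section

namespace P22_aux

open scoped TensorProduct

variable {Ω : Type} [Field Ω] {G : Type u} [Group G]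
  {V : Type v} [AddCommGroup V] [Module Ω V]

/-- the space of `N`-maps -/
def homB (N : Subgroup G) {a : ℕ} (θ : Representation Ω N (Fin a → Ω))
    (ρ : Representation Ω G V) : Submodule Ω ((Fin a → Ω) →ₗ[Ω] V) where
  carrier := {f | ∀ n : N, ρ n ∘ₗ f = f ∘ₗ θ n}
  zero_mem' := by intro n; simp
  add_mem' := by
    intro f g hf hg n
    rw [LinearMap.comp_add, hf n, hg n, LinearMap.add_comp]
  smul_mem' := by
    intro c f hf n
    rw [LinearMap.comp_smul, hf n, LinearMap.smul_comp]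

/-- `homB` as intertwining maps -/
def homBequiv (N : Subgroup G) {a : ℕ} (θ : Representation Ω N (Fin a → Ω))
    (ρ : Representation Ω G V) : homB N θ ρ ≃ₗ[Ω] θ.IntertwiningMap (rs N ρ) where
  toFun f := ⟨f.1, fun n => (f.2 n).symm⟩
  invFun f := ⟨f.toLinearMap, fun n => (f.isIntertwining' n).symm⟩
  left_inv f := rfl
  right_inv f := rfl
  map_add' f g := rfl
  map_smul' c f := rfl

/-- the action -/
def betaRep (N : Subgroup G) {a : ℕ} (θ : Representation Ω N (Fin a → Ω))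
    (S : Representation Ω G (Fin a → Ω)) (ρ : Representation Ω G V)
    (hst : ∀ (g : G), ∀ f ∈ homB N θ ρ, ρ g ∘ₗ f ∘ₗ S g⁻¹ ∈ homB N θ ρ) :
    Representation Ω G (homB N θ ρ) where
  toFun g :=
    { toFun := fun f => ⟨ρ g ∘ₗ f.1 ∘ₗ S g⁻¹, hst g f.1 f.2⟩
      map_add' := by
        intro f f'
        apply Subtype.ext
        simp [LinearMap.comp_add, LinearMap.add_comp]
      map_smul' := by
        intro c f
        apply Subtype.ext
        simp [LinearMap.comp_smul, LinearMap.smul_comp] }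
  map_one' := by
    ext f : 2
    simp
    rfl
  map_mul' := by
    intro g h
    ext f : 2
    simp only [mul_inv_rev, map_mul]
    rfl

/-- evaluation -/
def ev (N : Subgroup G) {a : ℕ} (θ : Representation Ω N (Fin a → Ω))
    (ρ : Representation Ω G V) : (Fin a → Ω) ⊗[Ω] (homB N θ ρ) →ₗ[Ω] V :=
  TensorProduct.lift ((homB N θ ρ).subtype.flip)

theorem ev_tmul (N : Subgroup G) {a : ℕ} (θ : Representation Ω N (Fin a → Ω))
    (ρ : Representation Ω G V) (x : Fin a → Ω) (f : homB N θ ρ) :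
    ev N θ ρ (x ⊗ₜ f) = f.1 x := rfl


theorem betaRep_apply (N : Subgroup G) {a : ℕ} (θ : Representation Ω N (Fin a → Ω))
    (S : Representation Ω G (Fin a → Ω)) (ρ : Representation Ω G V)
    (hst : ∀ (g : G), ∀ f ∈ homB N θ ρ, ρ g ∘ₗ f ∘ₗ S g⁻¹ ∈ homB N θ ρ) (g : G)
    (f : homB N θ ρ) (x : Fin a → Ω) :
    (betaRep N θ S ρ hst g f).1 x = ρ g (f.1 (S g⁻¹ x)) := rfl

theorem betaRep_apply' (N : Subgroup G) {a : ℕ} (θ : Representation Ω N (Fin a → Ω))
    (S : Representation Ω G (Fin a → Ω)) (ρ : Representation Ω G V)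
    (hst : ∀ (g : G), ∀ f ∈ homB N θ ρ, ρ g ∘ₗ f ∘ₗ S g⁻¹ ∈ homB N θ ρ) (g : G)
    (f : homB N θ ρ) (x : Fin a → Ω) :
    (betaRep N θ S ρ hst g f).1 (S g x) = ρ g (f.1 x) := by
  rw [betaRep_apply]
  congr 2
  rw [← Module.End.mul_apply, ← map_mul, inv_mul_cancel, map_one]
  rfl

/-- evaluation is equivariant -/
theorem ev_equiv (N : Subgroup G) {a : ℕ} (θ : Representation Ω N (Fin a → Ω))
    (S : Representation Ω G (Fin a → Ω)) (ρ : Representation Ω G V)
    (hst : ∀ (g : G), ∀ f ∈ homB N θ ρ, ρ g ∘ₗ f ∘ₗ S g⁻¹ ∈ homB N θ ρ) (g : G) :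
    ev N θ ρ ∘ₗ (S.tprod (betaRep N θ S ρ hst)) g = ρ g ∘ₗ ev N θ ρ := by
  apply TensorProduct.ext'
  intro x f
  rw [LinearMap.comp_apply, LinearMap.comp_apply]
  change ev N θ ρ (S g x ⊗ₜ betaRep N θ S ρ hst g f) = _
  rw [ev_tmul, ev_tmul, betaRep_apply']

variable [FiniteDimensional Ω V]

/-- an invariant subspace `U ≠ ⊥` of `homB` evaluates onto `V` -/
theorem ev_surj [IsAlgClosed Ω] [CharZero Ω] [Finite G] (N : Subgroup G) {a : ℕ}
    (θ : Representation Ω N (Fin a → Ω))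
    (S : Representation Ω G (Fin a → Ω)) {ρ : Representation Ω G V} (hρ : ρ.IsIrreducible)
    (hst : ∀ (g : G), ∀ f ∈ homB N θ ρ, ρ g ∘ₗ f ∘ₗ S g⁻¹ ∈ homB N θ ρ)
    (U : Submodule Ω (homB N θ ρ)) (hU : ∀ g, ∀ f ∈ U, betaRep N θ S ρ hst g f ∈ U)
    (hne : U ≠ ⊥) :
    LinearMap.range (ev N θ ρ ∘ₗ LinearMap.lTensor (Fin a → Ω) U.subtype) = ⊤ := by
  have hinv : ∀ g, ∀ x ∈ LinearMap.range
      (ev N θ ρ ∘ₗ LinearMap.lTensor (Fin a → Ω) U.subtype), ρ g x ∈ LinearMap.range
      (ev N θ ρ ∘ₗ LinearMap.lTensor (Fin a → Ω) U.subtype) := by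
    rintro g _ ⟨t, rfl⟩
    induction t with
    | zero => simp
    | add t t' h h' =>
      rw [map_add, map_add]
      exact Submodule.add_mem _ h h'
    | tmul x f =>
      refine ⟨S g x ⊗ₜ ⟨betaRep N θ S ρ hst g f.1, hU g f.1 f.2⟩, ?_⟩
      rw [LinearMap.comp_apply, LinearMap.comp_apply, LinearMap.lTensor_tmul,
        LinearMap.lTensor_tmul, ev_tmul, ev_tmul]
      exact betaRep_apply' N θ S ρ hst g f.1 x
  rcases irr_sub hρ hinv with h | h
  · exfalso
    obtain ⟨f, hf, hf0⟩ := U.exists_mem_ne_zero_of_ne_bot hne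
    apply hf0
    apply Subtype.ext
    apply LinearMap.ext
    intro x
    have hx : f.1 x ∈ LinearMap.range
      (ev N θ ρ ∘ₗ LinearMap.lTensor (Fin a → Ω) U.subtype) := ⟨x ⊗ₜ ⟨f, hf⟩, rfl⟩
    rw [h, Submodule.mem_bot] at hx
    exact hx
  · exact h

theorem det_sq [IsAlgClosed Ω] [CharZero Ω] [Finite G] (N : Subgroup G) {a : ℕ}
    {θ : Representation Ω N (Fin a → Ω)} (hO : Orth θ) (n : N) :
    LinearMap.det (θ n) * LinearMap.det (θ n) = 1 := by
  rcases det_orth hO n with h | h <;> rw [h] <;> ring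

theorem det_inv [IsAlgClosed Ω] [CharZero Ω] [Finite G] (N : Subgroup G) {a : ℕ}
    {θ : Representation Ω N (Fin a → Ω)} (hO : Orth θ) (n : N) :
    LinearMap.det (θ n⁻¹) = LinearMap.det (θ n) := by
  have h1 : LinearMap.det (θ n⁻¹) * LinearMap.det (θ n) = 1 := by
    rw [← map_mul, ← map_mul, inv_mul_cancel, map_one, map_one]
  have h2 := det_sq N hO n
  have h3 : LinearMap.det (θ n) ≠ 0 := by
    intro h
    rw [h, mul_zero] at h2
    exact zero_ne_one h2
  exact mul_right_cancel₀ h3 (h1.trans h2.symm)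

/-- invariance of the determinant -/
theorem det_conj [IsAlgClosed Ω] [CharZero Ω] [Finite G] (N : Subgroup G) [N.Normal] {a : ℕ}
    {θ : Representation Ω N (Fin a → Ω)} (hθ : θ.IsIrreducible)
    {ρ : Representation Ω G V} (hρ : ρ.IsIrreducible)
    (hiso : act (rs N ρ) (es θ.character) = 1) (g : G) (n : N) :
    LinearMap.det (θ (MulAut.conjNormal g⁻¹ n)) = LinearMap.det (θ n) := by
  classical
  have hφ : θ.character ∈ irr Ω N := mem_irr.2 (mem_irrSet hθ)
  have hcj : θ.character = cj N g θ.character := by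
    by_contra hne
    have h1 := idem_cj N ρ hφ g
    rw [hiso, mul_one] at h1
    have h2 : act (rs N ρ) (es (cj N g θ.character)) = 1 := by
      have h3 := congrArg (fun T => T * ρ g⁻¹) h1
      beta_reduce at h3
      rw [mul_assoc, ← map_mul, mul_inv_cancel, map_one, mul_one] at h3
      exact h3.symm
    have h4 := idem_orth (rs N ρ) hφ (cj_mem_irr N hφ g) hne
    rw [hiso, h2, mul_one] at h4
    have hpos := irr_pos hρ
    have : Nontrivial V := Module.nontrivial_of_finrank_pos hpos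
    exact one_ne_zero h4
  let θ' : Representation Ω N (Fin a → Ω) := MonoidHom.comp θ
    (MulAut.conjNormal (H := N) g⁻¹).toMonoidHom
  have hch : θ'.character = θ.character := by
    rw [hcj]
    rfl
  change LinearMap.det (θ' n) = _
  rw [← act_single θ n, ← act_single θ' n]
  exact det_of_char hch _

/-- `homB` is stable -/
theorem stable [IsAlgClosed Ω] [CharZero Ω] [Finite G] (N : Subgroup G) [N.Normal] {a : ℕ}
    {θ : Representation Ω N (Fin a → Ω)} (hθ : θ.IsIrreducible) (hO : Orth θ)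
    {S : Representation Ω G (Fin a → Ω)} (hS : ∀ n : N, S n = LinearMap.det (θ n) • θ n)
    {ρ : Representation Ω G V} (hρ : ρ.IsIrreducible)
    (hiso : act (rs N ρ) (es θ.character) = 1) (g : G) (f : (Fin a → Ω) →ₗ[Ω] V)
    (hf : f ∈ homB N θ ρ) : ρ g ∘ₗ f ∘ₗ S g⁻¹ ∈ homB N θ ρ := by
  intro n
  have hθS : ∀ n : N, θ n = LinearMap.det (θ n) • S n := by
    intro n
    rw [hS, smul_smul, det_sq N hO, one_smul]
  have hn : (n : G) * g = g * (MulAut.conjNormal g⁻¹ n : N) := by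
    rw [MulAut.conjNormal_apply]
    group
  have h1 : ρ n ∘ₗ ρ g = ρ g ∘ₗ ρ (MulAut.conjNormal g⁻¹ n : N) := by
    change ρ n * ρ g = ρ g * ρ (MulAut.conjNormal g⁻¹ n : N)
    rw [← map_mul, ← map_mul, hn]
  have h2 : θ (MulAut.conjNormal g⁻¹ n) ∘ₗ S g⁻¹ = S g⁻¹ ∘ₗ θ n := by
    rw [hθS (MulAut.conjNormal g⁻¹ n), det_conj N hθ hρ hiso g n, hθS n, LinearMap.smul_comp,
      LinearMap.comp_smul]
    have h3 : S (MulAut.conjNormal g⁻¹ n : N) ∘ₗ S g⁻¹ = S g⁻¹ ∘ₗ S n := by
      change S (MulAut.conjNormal g⁻¹ n : N) * S g⁻¹ = S g⁻¹ * S n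
      rw [← map_mul, ← map_mul]
      congr 1
      rw [MulAut.conjNormal_apply]
      group
    rw [h3, ← hθS n]
  calc ρ n ∘ₗ ρ g ∘ₗ f ∘ₗ S g⁻¹ = (ρ n ∘ₗ ρ g) ∘ₗ f ∘ₗ S g⁻¹ := rfl
    _ = ρ g ∘ₗ (ρ (MulAut.conjNormal g⁻¹ n : N) ∘ₗ f) ∘ₗ S g⁻¹ := by rw [h1]; rfl
    _ = ρ g ∘ₗ (f ∘ₗ θ (MulAut.conjNormal g⁻¹ n)) ∘ₗ S g⁻¹ := by rw [hf]
    _ = ρ g ∘ₗ f ∘ₗ (θ (MulAut.conjNormal g⁻¹ n) ∘ₗ S g⁻¹) := rfl
    _ = ρ g ∘ₗ f ∘ₗ (S g⁻¹ ∘ₗ θ n) := by rw [h2]
    _ = (ρ g ∘ₗ f ∘ₗ S g⁻¹) ∘ₗ θ n := rfl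

theorem finrank_eq [IsAlgClosed Ω] [CharZero Ω] [Finite G] (N : Subgroup G) {a : ℕ}
    {θ : Representation Ω N (Fin a → Ω)} (hθ : θ.IsIrreducible)
    {ρ : Representation Ω G V}
    (hiso : act (rs N ρ) (es θ.character) = 1) :
    Module.finrank Ω V = a * Module.finrank Ω (homB N θ ρ) := by
  have hφ : θ.character ∈ irr Ω N := mem_irr.2 (mem_irrSet hθ)
  have h1 := idem_finrank (rs N ρ) hφ
  rw [hiso, dg_char, Module.finrank_fin_fun] at h1
  have h2 : Module.finrank Ω (LinearMap.range (1 : Module.End Ω V)) = Module.finrank Ω V := by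
    have : LinearMap.range (1 : Module.End Ω V) = ⊤ := LinearMap.range_id
    rw [this, finrank_top]
  rw [h2] at h1
  have h3 : mul (rs N ρ).character θ.character = Module.finrank Ω (homB N θ ρ) := by
    have h4 := mul_spec (rs N ρ) hφ
    rw [ip_eq_finrank θ (rs N ρ)] at h4
    rw [(homBequiv N θ ρ).finrank_eq]
    exact_mod_cast h4
  rw [h1, h3, mul_comm]


theorem schur_sum [IsAlgClosed Ω] [CharZero Ω] [Finite G] {N : Subgroup G} [Fintype N] {a : ℕ}
    {θ : Representation Ω N (Fin a → Ω)} (hθ : θ.IsIrreducible)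
    (T Y : Module.End Ω (Fin a → Ω)) :
    (a : Ω) * ((Nat.card N : Ω)⁻¹ * ∑ n : N, LinearMap.trace Ω _ (T * θ n⁻¹) *
      LinearMap.trace Ω _ (θ n * Y)) = LinearMap.trace Ω _ (T * Y) := by
  have h := act_inversion hθ T
  rw [act_eq] at h
  have h2 := congrArg (fun X => LinearMap.trace Ω (Fin a → Ω) (X * Y)) h
  beta_reduce at h2
  rw [Finset.sum_mul, map_sum] at h2
  rw [← h2, ← mul_assoc, Finset.mul_sum]
  refine Finset.sum_congr rfl fun n _ => ?_
  rw [smul_mul_assoc, map_smul, smul_eq_mul, Module.finrank_fin_fun]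
  ring

theorem char_sum [IsAlgClosed Ω] [CharZero Ω] [Finite G] {N : Subgroup G} [Fintype N] {a : ℕ}
    (ha : a ≠ 0) {θ : Representation Ω N (Fin a → Ω)} (hθ : θ.IsIrreducible) (hO : Orth θ)
    {S : Representation Ω G (Fin a → Ω)} (hS : ∀ n : N, S n = LinearMap.det (θ n) • θ n)
    (g : G) :
    (Nat.card N : Ω)⁻¹ * ∑ n : N, S.character (g * n) * S.character ((g * n)⁻¹) = 1 := by
  have h := schur_sum hθ (S g⁻¹) (S g)
  have h1 : LinearMap.trace Ω (Fin a → Ω) (S g⁻¹ * S g) = (a : Ω) := by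
    rw [← map_mul, inv_mul_cancel, map_one, LinearMap.trace_one, Module.finrank_fin_fun]
  rw [h1] at h
  have ha' : (a : Ω) ≠ 0 := Nat.cast_ne_zero.2 ha
  apply mul_left_cancel₀ ha'
  rw [mul_one, ← h]
  congr 2
  refine Finset.sum_congr rfl fun n _ => ?_
  have e1 : S.character (g * n) =
      LinearMap.det (θ n) * LinearMap.trace Ω _ (θ n * S g) := by
    rw [Representation.char_mul_comm]
    change LinearMap.trace Ω _ (S (n * g)) = _
    rw [map_mul, hS, smul_mul_assoc, map_smul, smul_eq_mul]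
  have e2 : S.character ((g * n)⁻¹) =
      LinearMap.det (θ n) * LinearMap.trace Ω _ (S g⁻¹ * θ n⁻¹) := by
    rw [mul_inv_rev, Representation.char_mul_comm]
    change LinearMap.trace Ω _ (S (g⁻¹ * (n : G)⁻¹)) = _
    have : ((n : G)⁻¹) = ((n⁻¹ : N) : G) := rfl
    rw [map_mul, this, hS, det_inv N hO, mul_smul_comm, map_smul, smul_eq_mul]
  rw [e1, e2]
  calc _ = (LinearMap.det (θ n) * LinearMap.det (θ n)) * (LinearMap.trace Ω _ (S g⁻¹ * θ n⁻¹) *
      LinearMap.trace Ω _ (θ n * S g)) := by ring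
    _ = _ := by rw [det_sq N hO, one_mul]

/-- the form on `homB` -/
theorem orth_beta [IsAlgClosed Ω] [CharZero Ω] [Finite G] (N : Subgroup G) {a : ℕ}
    (ha : a ≠ 0) {θ : Representation Ω N (Fin a → Ω)} (hθ : θ.IsIrreducible) (hO : Orth θ)
    {S : Representation Ω G (Fin a → Ω)} (hS : ∀ n : N, S n = LinearMap.det (θ n) • θ n)
    (hSO : Orth S) {ρ : Representation Ω G V}
    (hst : ∀ (g : G), ∀ f ∈ homB N θ ρ, ρ g ∘ₗ f ∘ₗ S g⁻¹ ∈ homB N θ ρ)
    (hsurj : LinearMap.range (ev N θ ρ) = ⊤) (hρO : Orth ρ) :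
    Orth (betaRep N θ S ρ hst) := by
  obtain ⟨b, hb⟩ := hSO
  obtain ⟨B, hB⟩ := hρO
  have hbθ : InvForm θ b := by
    refine ⟨hb.symm, hb.nondeg, ?_⟩
    intro n x y
    have h1 := hb.inv n x y
    rw [hS] at h1
    simp only [LinearMap.smul_apply, map_smul, smul_eq_mul] at h1
    rw [← mul_assoc, det_sq N hO, one_mul] at h1
    exact h1
  have hFin : ∀ f f' : homB N θ ρ, ∃ c : Ω, ∀ x y, B (f.1 x) (f'.1 y) = c * b x y := by
    intro f f'
    obtain ⟨c, hc⟩ := form_unique hθ hbθ (B' := B.compl₁₂ f.1 f'.1) (by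
      intro n x y
      simp only [LinearMap.compl₁₂_apply]
      have h1 : f.1 (θ n x) = ρ n (f.1 x) := (congrArg (fun T => T x) (f.2 n)).symm
      have h2 : f'.1 (θ n y) = ρ n (f'.1 y) := (congrArg (fun T => T y) (f'.2 n)).symm
      rw [h1, h2, hB.inv])
    refine ⟨c, fun x y => ?_⟩
    have := congrArg (fun T : LinearMap.BilinForm Ω (Fin a → Ω) => T x y) hc
    simpa using this
  have hxy : ∃ x0 y0, b x0 y0 ≠ 0 := by
    by_contra hcon
    push Not at hcon
    have : Nontrivial (Fin a → Ω) := by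
      have : Nonempty (Fin a) := ⟨⟨0, Nat.pos_of_ne_zero ha⟩⟩
      infer_instance
    obtain ⟨x, hx⟩ := exists_ne (0 : Fin a → Ω)
    exact hx (hb.nondeg x (hcon x))
  obtain ⟨x0, y0, h0⟩ := hxy
  let e0 : (Fin a → Ω) → (homB N θ ρ →ₗ[Ω] V) := fun x =>
    (homB N θ ρ).subtype.flip x
  let c : LinearMap.BilinForm Ω (homB N θ ρ) := (b x0 y0)⁻¹ • B.compl₁₂ (e0 x0) (e0 y0)
  have hcdef : ∀ f f', c f f' = (b x0 y0)⁻¹ * B (f.1 x0) (f'.1 y0) := fun f f' => rfl
  have hc : ∀ f f' x y, B (f.1 x) (f'.1 y) = c f f' * b x y := by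
    intro f f' x y
    obtain ⟨k, hk⟩ := hFin f f'
    rw [hcdef, hk, hk]
    field_simp
  have hc' : ∀ f f' k, (∀ x y, B (f.1 x) (f'.1 y) = k * b x y) → c f f' = k := by
    intro f f' k hk
    rw [hcdef, hk]
    field_simp
  refine ⟨c, ?_, ?_, ?_⟩
  · intro f f'
    apply hc'
    intro x y
    rw [hB.symm, hc, hb.symm]
  · intro f hf
    apply Subtype.ext
    apply LinearMap.ext
    intro x
    apply hB.nondeg
    intro v
    have hv : v ∈ LinearMap.range (ev N θ ρ) := by rw [hsurj]; trivial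
    obtain ⟨t, rfl⟩ := hv
    induction t with
    | zero => simp
    | add t t' h h' => rw [map_add, map_add, h, h', add_zero]
    | tmul y f' => rw [ev_tmul, hc, hf, zero_mul]
  · intro g f f'
    apply hc'
    intro x y
    rw [betaRep_apply, betaRep_apply, hB.inv, hc, hb.inv]

end P22_aux

open P22_aux

variable {Ω : Type} [Field Ω] [IsAlgClosed Ω] [CharZero Ω] {G : Type u} [Group G] [Finite G]
  {V : Type v} [AddCommGroup V] [Module Ω V] [FiniteDimensional Ω V]

/-- (4.3) `B = {f : A → V | ρ(n) f S(n)⁻¹ = det θ(n) f}` with `g • f = ρ(g) f S(g)⁻¹`. -/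
theorem tensor_decomposition (N : Subgroup G) [N.Normal] {a : ℕ} (ha : Odd a)
    {θ : Representation Ω N (Fin a → Ω)} (hθ : θ.IsIrreducible) (hO : Orth θ)
    {S : Representation Ω G (Fin a → Ω)} (hS : ∀ n : N, S n = LinearMap.det (θ n) • θ n)
    (hSO : Orth S) {ρ : Representation Ω G V} (hρ : ρ.IsIrreducible)
    (hiso : act (rs N ρ) (es θ.character) = 1) :
    ∃ (b : ℕ) (β : Representation Ω G (Fin b → Ω)), β.IsIrreducible ∧
      Module.finrank Ω V = a * b ∧
      (∀ n : N, β n = LinearMap.det (θ n) • 1) ∧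
      (∀ g, ρ.character g = S.character g * β.character g) ∧
      (∀ [Fintype N] (g : G), β.character g = (Nat.card N : Ω)⁻¹ *
        ∑ n : N, ρ.character (g * n) * S.character ((g * n)⁻¹) * LinearMap.det (θ n)) ∧
      (Orth ρ → Orth β) := by
  have ha0 : a ≠ 0 := by
    rintro rfl
    exact absurd ha (by decide)
  have hst : ∀ (g : G), ∀ f ∈ homB N θ ρ, ρ g ∘ₗ f ∘ₗ S g⁻¹ ∈ homB N θ ρ :=
    fun g f hf => stable N hθ hO hS hρ hiso g f hf
  let β₀ := betaRep N θ S ρ hst
  have hfr := finrank_eq N hθ hiso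
  have hVpos := irr_pos hρ
  have hbpos : 0 < Module.finrank Ω (homB N θ ρ) := by
    rw [hfr] at hVpos
    exact Nat.pos_of_mul_pos_left hVpos
  have hnt : Nontrivial (homB N θ ρ) := Module.nontrivial_of_finrank_pos hbpos
  -- irreducible
  have hirr : β₀.IsIrreducible := by
    apply irr_of_sub hbpos
    intro U hU
    by_cases hne : U = ⊥
    · exact Or.inl hne
    right
    have h1 := ev_surj N θ S hρ hst U hU hne
    have h2 := LinearMap.finrank_range_le (ev N θ ρ ∘ₗ LinearMap.lTensor (Fin a → Ω) U.subtype)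
    have : Module.Free Ω U := Module.Free.of_divisionRing Ω U
    rw [h1, finrank_top, Module.finrank_tensorProduct, Module.finrank_fin_fun, hfr] at h2
    apply Submodule.eq_top_of_finrank_eq
    apply le_antisymm (Submodule.finrank_le U)
    exact Nat.le_of_mul_le_mul_left h2 (Nat.pos_of_ne_zero ha0)
  -- evaluation is an isomorphism
  have hsurj : LinearMap.range (ev N θ ρ) = ⊤ := by
    have h1 := ev_surj N θ S hρ hst ⊤ (fun g f _ => Submodule.mem_top) top_ne_bot
    rw [eq_top_iff, ← h1]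
    exact LinearMap.range_comp_le_range _ _
  have hinj : Function.Injective (ev N θ ρ) := by
    rw [LinearMap.injective_iff_surjective_of_finrank_eq_finrank]
    · exact LinearMap.range_eq_top.1 hsurj
    · rw [Module.finrank_tensorProduct, Module.finrank_fin_fun, hfr]
  let e : TensorProduct Ω (Fin a → Ω) (homB N θ ρ) ≃ₗ[Ω] V :=
    LinearEquiv.ofBijective (ev N θ ρ) ⟨hinj, LinearMap.range_eq_top.1 hsurj⟩
  let E : (S.tprod β₀).Equiv ρ := Representation.Equiv.mk e
    (fun g => ev_equiv N θ S ρ hst g)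
  have hchar : ∀ g, ρ.character g = S.character g * β₀.character g := by
    intro g
    rw [← Representation.char_iso E, Representation.char_tensor]
    rfl
  have hN : ∀ n : N, ∀ f, β₀ n f = LinearMap.det (θ n) • f := by
    intro n f
    apply Subtype.ext
    apply LinearMap.ext
    intro x
    rw [betaRep_apply]
    have h1 : ((n : G)⁻¹) = ((n⁻¹ : N) : G) := rfl
    rw [h1, hS, det_inv N hO, LinearMap.smul_apply, map_smul, map_smul]
    have h2 : ρ n (f.1 (θ n⁻¹ x)) = f.1 (θ n (θ n⁻¹ x)) := congrArg (fun T => T (θ n⁻¹ x)) (f.2 n)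
    rw [h2, ← Module.End.mul_apply, ← map_mul, mul_inv_cancel, map_one]
    rfl
  obtain ⟨β, ⟨eβ⟩⟩ := exists_fin β₀
  have hβN : ∀ n : N, β n = LinearMap.det (θ n) • 1 := by
    intro n
    apply LinearMap.ext
    intro x
    obtain ⟨f, rfl⟩ : ∃ f, eβ f = x := ⟨eβ.symm x, eβ.apply_symm_apply x⟩
    have h1 : β n (eβ f) = eβ (β₀ n f) := (Representation.IntertwiningMap.isIntertwining _ _
      eβ.toIntertwiningMap (n : G) f).symm
    rw [h1, hN]
    have h2 : eβ (LinearMap.det (θ n) • f) = LinearMap.det (θ n) • eβ f :=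
      eβ.toLinearEquiv.map_smul _ _
    rw [h2]
    rfl
  have hβchar : β₀.character = β.character := Representation.char_iso eβ
  have hchar' : ∀ g, ρ.character g = S.character g * β.character g := by
    intro g
    rw [hchar, hβchar]
  refine ⟨_, β, equiv_irr eβ hirr, hfr, hβN, hchar', ?_, ?_⟩
  · intro _ g
    have h1 := char_sum ha0 hθ hO hS g
    have h2 : ∀ n : N, ρ.character (g * n) * S.character ((g * n)⁻¹) * LinearMap.det (θ n) =
        β.character g * (S.character (g * n) * S.character ((g * n)⁻¹)) := by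
      intro n
      have h3 : β.character (g * n) = LinearMap.det (θ n) * β.character g := by
        change LinearMap.trace Ω _ (β (g * n)) = _
        rw [map_mul, hβN, mul_smul_comm, mul_one, map_smul, smul_eq_mul]
        rfl
      rw [hchar', h3]
      calc _ = (LinearMap.det (θ n) * LinearMap.det (θ n)) * (β.character g *
          (S.character (g * n) * S.character ((g * n)⁻¹))) := by ring
        _ = _ := by rw [det_sq N hO, one_mul]
    rw [Finset.sum_congr rfl fun n _ => h2 n, ← Finset.mul_sum, mul_left_comm, h1, mul_one]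
  · intro hρO
    exact equiv_orth eβ (orth_beta N ha0 hθ hO hS hSO hst hsurj hρO)

/-- consequences of the two character formulas: an automorphism `σ` fixing the character of `S`
fixes the character of `ρ` iff it fixes the character of `β` -/
theorem fixes_iff (N : Subgroup G) [N.Normal] [Fintype N] {a b : ℕ}
    {θ : Representation Ω N (Fin a → Ω)} {S : Representation Ω G (Fin a → Ω)}
    {ρ : Representation Ω G V} {β : Representation Ω G (Fin b → Ω)}
    (hdet : ∀ n : N, LinearMap.det (θ n) = 1 ∨ LinearMap.det (θ n) = -1)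
    (h1 : ∀ g, ρ.character g = S.character g * β.character g)
    (h2 : ∀ g : G, β.character g = (Nat.card N : Ω)⁻¹ *
      ∑ n : N, ρ.character (g * n) * S.character ((g * n)⁻¹) * LinearMap.det (θ n))
    {σ : RingAut Ω} (hσ : Fixes σ S) : Fixes σ ρ ↔ Fixes σ β := by
  constructor
  · intro h g
    rw [h2, map_mul, map_inv₀, map_natCast, map_sum]
    congr 1
    refine Finset.sum_congr rfl fun n _ => ?_
    rw [map_mul, map_mul, h, hσ]
    congr 1
    rcases hdet n with hd | hd <;> rw [hd] <;> simp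
  · intro h g
    rw [h1, map_mul, hσ, h]

/-- the same for `σ ψ = ψ*` -/
theorem conj_fixes (N : Subgroup G) [N.Normal] [Fintype N] {a b : ℕ}
    {θ : Representation Ω N (Fin a → Ω)} {S : Representation Ω G (Fin a → Ω)}
    {ρ : Representation Ω G V} {β : Representation Ω G (Fin b → Ω)}
    (hdet : ∀ n : N, LinearMap.det (θ n) = 1 ∨ LinearMap.det (θ n) = -1)
    (hSD : SD S)
    (h2 : ∀ g : G, β.character g = (Nat.card N : Ω)⁻¹ *
      ∑ n : N, ρ.character (g * n) * S.character ((g * n)⁻¹) * LinearMap.det (θ n))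
    {σ : RingAut Ω} (hσ : Fixes σ S) (hρ : ∀ g, σ (ρ.character g) = ρ.character g⁻¹) (g : G) :
    σ (β.character g) = β.character g⁻¹ := by
  rw [h2 g, h2 g⁻¹, map_mul, map_inv₀, map_natCast, map_sum]
  congr 1
  refine Fintype.sum_equiv (Equiv.inv N) _ _ fun n => ?_
  have hdi : LinearMap.det (θ n⁻¹) = LinearMap.det (θ n) := by
    have h3 : LinearMap.det (θ n⁻¹) * LinearMap.det (θ n) = 1 := by
      rw [← map_mul, ← map_mul, inv_mul_cancel, map_one, map_one]
    rcases hdet n with hd | hd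
    · rw [hd, mul_one] at h3
      rw [hd, h3]
    · rw [hd] at h3
      rw [hd]
      linear_combination -h3
  have e1 : σ (LinearMap.det (θ n)) = LinearMap.det (θ n) := by
    rcases hdet n with hd | hd <;> rw [hd] <;> simp
  have e2 : ρ.character ((g * n)⁻¹) = ρ.character (g⁻¹ * (n : G)⁻¹) := by
    rw [mul_inv_rev, Representation.char_mul_comm]
  have e3 : S.character ((g * n)⁻¹) = S.character ((g⁻¹ * (n : G)⁻¹)⁻¹) := by
    rw [hSD, mul_inv_rev, inv_inv, inv_inv, Representation.char_mul_comm]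
  rw [map_mul, map_mul, hρ, hσ, e1, e2, e3]
  simp only [Equiv.inv_apply, InvMemClass.coe_inv]
  rw [hdi]

end

end Parker
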