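import Pool.Agent.Parker.Defs
import Pool.Agent.Parker.P01
import Pool.Agent.Parker.P02
import Pool.Agent.Parker.P07
import Pool.Agent.Parker.P08
import Pool.Agent.Parker.P13
import Pool.Agent.Parker.P15
import Pool.Agent.Parker.P20
import Pool.Agent.Parker.P21
import Pool.Agent.Parker.P22

/-!
# MP_6c3636_al, module P23: 3(4), the tensor step (helper7)
-/

namespace Parker

universe u v

noncomputable section

namespace P23_aux

open TensorProduct

section Form

variable {Ω : Type} [Field Ω] {A : Type*} [AddCommGroup A] [Module Ω A] {B : Type*}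
  [AddCommGroup B] [Module Ω B]

/-- the tensor product of two forms -/
def tform (b₁ : LinearMap.BilinForm Ω A) (b₂ : LinearMap.BilinForm Ω B) :
    LinearMap.BilinForm Ω (A ⊗[Ω] B) :=
  (TensorProduct.dualDistrib Ω A B).comp (TensorProduct.map b₁ b₂)

theorem tform_tmul (b₁ : LinearMap.BilinForm Ω A) (b₂ : LinearMap.BilinForm Ω B) (x x' : A)
    (y y' : B) : tform b₁ b₂ (x ⊗ₜ y) (x' ⊗ₜ y') = b₁ x x' * b₂ y y' := rfl

theorem bil_ext {P Q : (A ⊗[Ω] B) →ₗ[Ω] (A ⊗[Ω] B) →ₗ[Ω] Ω}
    (h : ∀ a b a' b', P (a ⊗ₜ b) (a' ⊗ₜ b') = Q (a ⊗ₜ b) (a' ⊗ₜ b')) : P = Q :=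
  TensorProduct.ext' fun a b => TensorProduct.ext' fun a' b' => h a b a' b'

theorem tform_nondeg [FiniteDimensional Ω A] [FiniteDimensional Ω B]
    {b₁ : LinearMap.BilinForm Ω A} {b₂ : LinearMap.BilinForm Ω B}
    (h1 : ∀ x, (∀ y, b₁ x y = 0) → x = 0) (h2 : ∀ x, (∀ y, b₂ x y = 0) → x = 0)
    (x : A ⊗[Ω] B) (hx : ∀ y, tform b₁ b₂ x y = 0) : x = 0 := by
  have i1 : Function.Injective b₁ := (injective_iff_map_eq_zero b₁).2 fun a ha =>
    h1 a fun y => by rw [ha]; rfl
  have i2 : Function.Injective b₂ := (injective_iff_map_eq_zero b₂).2 fun a ha =>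
    h2 a fun y => by rw [ha]; rfl
  let e1 : A ≃ₗ[Ω] Module.Dual Ω A :=
    LinearMap.linearEquivOfInjective b₁ i1 Subspace.dual_finrank_eq.symm
  let e2 : B ≃ₗ[Ω] Module.Dual Ω B :=
    LinearMap.linearEquivOfInjective b₂ i2 Subspace.dual_finrank_eq.symm
  have h : TensorProduct.dualDistrib Ω A B (TensorProduct.map b₁ b₂ x) = 0 := LinearMap.ext hx
  have hd : Function.Injective (TensorProduct.dualDistrib Ω A B) :=
    (TensorProduct.dualDistribEquiv Ω A B).injective
  have h3 : TensorProduct.map b₁ b₂ x = 0 := hd (h.trans (map_zero _).symm)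
  have h4 : (TensorProduct.congr e1 e2) x = 0 := h3
  exact (TensorProduct.congr e1 e2).map_eq_zero_iff.1 h4

end Form

theorem det_one_tensor {Ω : Type} [Field Ω] {a b : ℕ} (T : Module.End Ω (Fin b → Ω)) :
    LinearMap.det (TensorProduct.map (1 : Module.End Ω (Fin a → Ω)) T) =
      LinearMap.det T ^ a := by
  rw [← LinearMap.det_toMatrix ((Pi.basisFun Ω (Fin a)).tensorProduct (Pi.basisFun Ω (Fin b))),
    TensorProduct.toMatrix_map, Matrix.det_kronecker, LinearMap.det_toMatrix,
    LinearMap.det_toMatrix, map_one, one_pow, one_mul, Fintype.card_fin]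

end P23_aux

open TensorProduct P23_aux

variable {Ω : Type} [Field Ω] [IsAlgClosed Ω] [CharZero Ω] {G : Type u} [Group G] [Finite G]
  {V : Type v} [AddCommGroup V] [Module Ω V] [FiniteDimensional Ω V]
  {c : Ctx Ω} {m : ℕ} {Γ : Subgroup (RingAut Ω)}

/-- (4.4) if `ρ` has character `α β`, `S` orthogonal of odd degree `a` with `Γ`-fixed character
`α`, and `β` is good, then `ρ` is good: take `T = 1 ⊗ T_β` on `(Fin a → Ω) ⊗ (Fin b → Ω)`
(`Representation.tprod`, `char_tensor`, `equiv_of_char`, `equiv_good`); it is rational by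
`rat_iff`; `det T = (det T_β) ^ a`. -/
theorem good_tensor {a b : ℕ} {S : Representation Ω G (Fin a → Ω)}
    {β : Representation Ω G (Fin b → Ω)} {ρ : Representation Ω G V} (hρ : ρ.IsIrreducible)
    (h1 : ∀ g, ρ.character g = S.character g * β.character g)
    (hSO : Orth S) (hSF : FxC Γ S) (hβF : FxC Γ β) (hβ : GoodV c Γ β) (hF : FxC Γ ρ) :
    GoodV c Γ ρ := by
  have hchar : ρ.character = (S.tprod β).character := by
    rw [Representation.char_tensor]
    funext g
    exact h1 g
  have hτ : (S.tprod β).IsIrreducible := by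
    rw [irr_iff_ip, ← hchar]
    exact ip_self_irr ρ hρ
  obtain ⟨e⟩ := equiv_of_char hτ hρ hchar.symm
  refine equiv_good e ?_
  obtain ⟨bS, hbS⟩ := hSO
  obtain ⟨bβ, hbβ, T, hTr, hTk, hTd, hTv⟩ := hβ
  have hτF : FxC Γ (S.tprod β) := by
    intro g
    rw [← hchar]
    exact hF g
  have hinv : InvForm (S.tprod β) (tform bS bβ) := by
    refine ⟨?_, ?_, ?_⟩
    · have h : tform bS bβ = (tform bS bβ).flip := bil_ext fun x y x' y' => by
        rw [tform_tmul]
        change _ = tform bS bβ (x' ⊗ₜ y') (x ⊗ₜ y)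
        rw [tform_tmul, hbS.symm x x', hbβ.symm y y']
      intro x y
      exact congrArg (fun f : LinearMap.BilinForm Ω _ => f x y) h
    · exact tform_nondeg hbS.nondeg hbβ.nondeg
    · intro g
      have h : (tform bS bβ).compl₁₂ ((S.tprod β) g) ((S.tprod β) g) = tform bS bβ :=
        bil_ext fun x y x' y' => by
          rw [LinearMap.compl₁₂_apply, Representation.tprod_apply, TensorProduct.map_tmul,
            TensorProduct.map_tmul, tform_tmul, tform_tmul, hbS.inv, hbβ.inv]
      intro x y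
      exact congrArg (fun f : LinearMap.BilinForm Ω _ => f x y) h
  refine ⟨tform bS bβ, hinv, TensorProduct.map 1 T, ?_, ?_, ?_, ?_⟩
  · rw [rat_iff hτ hτF]
    intro g
    have h : TensorProduct.map (1 : Module.End Ω (Fin a → Ω)) T * (S.tprod β) g
        = TensorProduct.map (S g) (T * β g) := by
      rw [Representation.tprod_apply, ← TensorProduct.map_mul, one_mul]
    rw [h, LinearMap.trace_tensorProduct']
    exact fx_mul (hSF g) (trace_rat hβF (rat_mul hTr (rat_rho Γ β g)))
  · have h : (tform bS bβ).compl₁₂ (TensorProduct.map 1 T) LinearMap.id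
        = - (tform bS bβ).compl₁₂ LinearMap.id (TensorProduct.map 1 T) :=
      bil_ext fun x y x' y' => by
        rw [LinearMap.neg_apply, LinearMap.neg_apply, LinearMap.compl₁₂_apply,
          LinearMap.compl₁₂_apply, TensorProduct.map_tmul, TensorProduct.map_tmul,
          LinearMap.id_apply, LinearMap.id_apply, tform_tmul, tform_tmul, hTk y y']
        simp
    intro x y
    exact congrArg (fun f : LinearMap.BilinForm Ω _ => f x y) h
  · rw [det_one_tensor]
    exact pow_ne_zero _ hTd
  · rw [det_one_tensor, map_pow]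
    exact sqV_pow hTv a

/-- 3(4): in a minimal counterexample to (A) every proper normal subgroup has order at most two -/
theorem step4 {ρ : Representation Ω G V} (hρ : ρ.IsIrreducible)
    (hev : Even (Module.finrank Ω V)) (hO : Orth ρ)
    (hF : FxC Γ ρ) (hΓ : Ok c m Γ) (hm : m ≠ 0) (hG : Nat.card G ∣ m)
    (hsub : ∀ H : Subgroup G, H ≠ ⊤ → PropA c m H ∧ PropB c m H)
    (hquot : ∀ (M : Subgroup G) [M.Normal], M ≠ ⊥ → PropA c m (G ⧸ M))
    (hbad : ¬ GoodV c Γ ρ) (N : Subgroup G) [N.Normal] (hN : N ≠ ⊤) : Nat.card N ≤ 2 := by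
  classical
  by_contra hcard
  rw [not_le] at hcard
  obtain ⟨θ, hθ, hact, hcj, hθF, hdu, hodd⟩ := step3 hρ hev hO hF hΓ hm hG hsub hbad N hN
  obtain ⟨a, θr, hθr, rfl⟩ := mem_irr.1 hθ
  have ha : Odd a := by
    rw [dg_char, Module.finrank_fin_fun] at hodd
    exact hodd
  have hsd : SD θr := fun g => congrFun hdu g
  have hθO : Orth θr := orth_of_odd hθr hsd (by rw [Module.finrank_fin_fun]; exact ha)
  obtain ⟨S, hS, hSO, hSdet, hSconj, hSF⟩ := canonical_extension N ha hθr hsd hcj
  obtain ⟨b, β, hβ, hdim, hβN, hβ1, hβ2, hβO⟩ :=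
    tensor_decomposition N ha hθr hθO hS hSO hρ hact
  let _ : Fintype N := Fintype.ofFinite N
  have hSF' : FxC Γ S := hSF Γ (fun g σ hσ => hθF σ hσ g)
  have hβF : FxC Γ β := by
    intro g σ hσ
    have h := (fixes_iff (θ := θr) (S := S) (ρ := ρ) (β := β) N (fun n => det_orth hθO n) hβ1
      (fun g => hβ2 g) (σ := σ) (fun g => hSF' g σ hσ)).1 (fun g => hF g σ hσ)
    exact h g
  have hb : Even (Module.finrank Ω (Fin b → Ω)) := by
    rw [Module.finrank_fin_fun]
    rw [hdim, Nat.even_mul] at hev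
    rcases hev with h | h
    · exact absurd h (Nat.not_even_iff_odd.2 ha)
    · exact h
  -- the kernel of the determinant
  let D : N →* Ω := (LinearMap.det : Module.End Ω (Fin a → Ω) →* Ω).comp θr
  have hD : ∀ n, D n = LinearMap.det (θr n) := fun n => rfl
  let M : Subgroup G := (MonoidHom.ker D).map N.subtype
  have hM : ∀ g : G, g ∈ M ↔ ∃ n : N, LinearMap.det (θr n) = 1 ∧ (n : G) = g := by
    intro g
    simp only [M, Subgroup.mem_map, MonoidHom.mem_ker, Subgroup.coe_subtype]
    rfl
  have hMn : M.Normal := by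
    refine ⟨fun x hx g => ?_⟩
    obtain ⟨n, hn, rfl⟩ := (hM x).1 hx
    refine (hM _).2 ⟨MulAut.conjNormal g n, ?_, MulAut.conjNormal_apply g n⟩
    have h := congrArg LinearMap.det (hSconj g n)
    rw [map_mul, map_mul, hSdet, one_mul, mul_one, hn] at h
    exact h.symm
  have hM1 : M ≠ ⊥ := by
    intro hbot
    have hinj : Function.Injective (fun n : N => if LinearMap.det (θr n) = 1 then (0 : Fin 2) else 1) := by
      have hk : ∀ n : N, LinearMap.det (θr n) = 1 → n = 1 := by
        intro n hn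
        have : (n : G) ∈ M := (hM _).2 ⟨n, hn, rfl⟩
        rw [hbot, Subgroup.mem_bot] at this
        exact Subtype.ext this
      have hDinj : ∀ n n' : N, LinearMap.det (θr n) = LinearMap.det (θr n') → n = n' := by
        intro n n' h
        have h1 : LinearMap.det (θr (n * n'⁻¹)) = 1 := by
          rw [← hD, map_mul, hD, hD, h, ← hD, ← hD, ← map_mul, mul_inv_cancel, map_one]
        have := hk _ h1
        exact mul_inv_eq_one.1 this
      intro n n' h
      apply hDinj
      have hne : ¬ ((-1 : Ω) = 1) := by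
        intro h3
        have h4 : (2 : Ω) = 0 := by linear_combination -h3
        exact two_ne_zero h4
      change (if LinearMap.det (θr n) = 1 then (0 : Fin 2) else 1)
        = (if LinearMap.det (θr n') = 1 then (0 : Fin 2) else 1) at h
      rcases det_orth hθO n with h1 | h1 <;> rcases det_orth hθO n' with h2 | h2
      · rw [h1, h2]
      · rw [h1, h2, if_pos rfl, if_neg hne] at h
        exact absurd h (by decide)
      · rw [h1, h2, if_pos rfl, if_neg hne] at h
        exact absurd h (by decide)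
      · rw [h1, h2]
    have := Fintype.card_le_of_injective _ hinj
    rw [Fintype.card_fin, ← Nat.card_eq_fintype_card] at this
    omega
  have hβM : ∀ n ∈ M, β n = 1 := by
    intro n hn
    obtain ⟨n, hn1, rfl⟩ := (hM n).1 hn
    rw [hβN, hn1, one_smul]
  have hgood : GoodV c Γ β := good_of_quot M (hquot M hM1) hΓ hβ hb (hβO hO) hβF hβM
  exact hbad (good_tensor hρ hβ1 hSO hSF' hβF hgood hF)

end

end Parker
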