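import Pool.Agent.Parker.Defs
import Mathlib.GroupTheory.Transfer
import Mathlib.GroupTheory.SpecificGroups.Cyclic

/-!
# MP_6c3636_al, module P24: transfer and groups whose proper normal subgroups have order at most
two (helper7)
-/

namespace Parker

universe u v

/-- transfer: a homomorphism of a subgroup `P` to a commutative group gives a homomorphism of `G`
whose value at a central element `z ∈ P` is the `[G:P]`-th power (`MonoidHom.transfer`,
`MonoidHom.transfer_eq_pow`-type lemma; `z` central). -/
theorem transfer_central {G : Type u} [Group G] [Finite G] {A : Type v} [CommGroup A]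
    (P : Subgroup G) (lam : P →* A) (z : P) (hz : ∀ g : G, g * z = z * g) :
    ∃ τ : G →* A, τ (z : G) = lam z ^ P.index := by
  have key : ∀ (k : ℕ) (g₀ : G), g₀⁻¹ * (z : G) ^ k * g₀ ∈ P →
      g₀⁻¹ * (z : G) ^ k * g₀ = (z : G) ^ k := by
    intro k g₀ _
    have hc : Commute g₀ ((z : G) ^ k) := (show Commute g₀ (z : G) from hz g₀).pow_right k
    rw [mul_assoc, ← hc.eq, inv_mul_cancel_left]
  refine ⟨lam.transfer, ?_⟩
  rw [MonoidHom.transfer_eq_pow lam (z : G) key, ← map_pow]
  congr 1

/-- structure: all proper normal subgroups have order `≤ 2`. Then `G` is commutative, or simple, or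
has a central subgroup `Z` of order two with `G ⧸ Z` simple and not commutative. -/
theorem structure_small {G : Type u} [Group G] [Finite G]
    (h : ∀ (N : Subgroup G) [N.Normal], N ≠ ⊤ → Nat.card N ≤ 2) :
    (∀ x y : G, x * y = y * x) ∨ (IsSimpleGroup G ∧ ¬ ∀ x y : G, x * y = y * x) ∨
      ∃ (Z : Subgroup G) (_ : Z.Normal), Nat.card Z = 2 ∧ (∀ z ∈ Z, ∀ g, g * z = z * g) ∧
        IsSimpleGroup (G ⧸ Z) ∧ ¬ (∀ x y : G ⧸ Z, x * y = y * x) ∧
        ∀ (A : Type v) [CommGroup A] (τ : G →* A), ∀ z ∈ Z, τ z = 1 := by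
  classical
  by_cases hcomm : ∀ x y : G, x * y = y * x
  · exact Or.inl hcomm
  right
  have hnt : Nontrivial G := by
    by_contra hn
    rw [not_nontrivial_iff_subsingleton] at hn
    exact hcomm fun x y => Subsingleton.elim _ _
  by_cases hsimp : ∀ H : Subgroup G, H.Normal → H = ⊥ ∨ H = ⊤
  · exact Or.inl ⟨⟨hsimp⟩, hcomm⟩
  right
  push Not at hsimp
  obtain ⟨Z, hZn, hZb, hZt⟩ := hsimp
  have hcard1 : 1 < Nat.card Z := by
    rw [Subgroup.one_lt_card_iff_ne_bot]
    exact hZb
  have hcard : Nat.card Z = 2 := le_antisymm (h Z hZt) hcard1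
  -- central
  have hcent : ∀ z ∈ Z, ∀ g, g * z = z * g := by
    intro z hz g
    by_cases hz1 : z = 1
    · simp [hz1]
    have hconj : g * z * g⁻¹ ∈ Z := hZn.conj_mem z hz g
    have hne : g * z * g⁻¹ ≠ 1 := by
      intro h1
      apply hz1
      have : g * z = g := by
        have := congrArg (· * g) h1
        simpa using this
      simpa using this
    have huniq : ∀ a b : Z, a ≠ 1 → b ≠ 1 → a = b := by
      intro a b ha hb
      have h2 := (Nat.card_eq_two_iff' (1 : Z)).1 hcard
      obtain ⟨w, hw, hw'⟩ := h2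
      rw [hw' a ha, hw' b hb]
    have heq := huniq ⟨g * z * g⁻¹, hconj⟩ ⟨z, hz⟩ (fun e => hne (congrArg Subtype.val e))
      (fun e => hz1 (congrArg Subtype.val e))
    have heq' : g * z * g⁻¹ = z := congrArg Subtype.val heq
    calc g * z = g * z * g⁻¹ * g := by group
      _ = z * g := by rw [heq']
  -- the quotient is not trivial
  have hqnt : Nontrivial (G ⧸ Z) := by
    rw [QuotientGroup.nontrivial_iff]
    exact hZt
  -- subgroups of the quotient
  have hqs : ∀ H : Subgroup (G ⧸ Z), H.Normal → H = ⊥ ∨ H = ⊤ := by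
    intro H hH
    by_cases ht : H.comap (QuotientGroup.mk' Z) = ⊤
    · right
      have := congrArg (Subgroup.map (QuotientGroup.mk' Z)) ht
      rw [Subgroup.map_comap_eq_self_of_surjective (QuotientGroup.mk'_surjective Z),
        Subgroup.map_top_of_surjective _ (QuotientGroup.mk'_surjective Z)] at this
      exact this
    · left
      have hn : (H.comap (QuotientGroup.mk' Z)).Normal := inferInstance
      have hle := h _ ht
      have hZle : Z ≤ H.comap (QuotientGroup.mk' Z) := by
        intro z hz
        rw [Subgroup.mem_comap]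
        have : (QuotientGroup.mk' Z) z = 1 := by
          rw [QuotientGroup.mk'_apply, QuotientGroup.eq_one_iff]
          exact hz
        rw [this]
        exact H.one_mem
      have heq : Z = H.comap (QuotientGroup.mk' Z) := by
        apply Subgroup.eq_of_le_of_card_ge hZle
        rw [hcard]
        exact hle
      rw [eq_bot_iff]
      intro x hx
      obtain ⟨g, rfl⟩ := QuotientGroup.mk'_surjective Z x
      have hg : g ∈ Z := by
        rw [heq]
        exact hx
      rw [Subgroup.mem_bot, QuotientGroup.mk'_apply, QuotientGroup.eq_one_iff]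
      exact hg
  have hqsimple : IsSimpleGroup (G ⧸ Z) := ⟨hqs⟩
  have hqnc : ¬ (∀ x y : G ⧸ Z, x * y = y * x) := by
    intro hc
    apply hcomm
    let _ : CommGroup (G ⧸ Z) := { (inferInstance : Group (G ⧸ Z)) with mul_comm := hc }
    have : IsSimpleGroup (G ⧸ Z) := hqsimple
    have : IsCyclic (G ⧸ Z) := inferInstance
    have hcen : (QuotientGroup.mk' Z).ker ≤ Subgroup.center G := by
      rw [QuotientGroup.ker_mk']
      intro z hz
      rw [Subgroup.mem_center_iff]
      exact hcent z hz
    have hmc := MonoidHom.isMulCommutative_of_isCyclic_of_ker_le_center (QuotientGroup.mk' Z) hcen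
    exact fun x y => hmc.is_comm.comm x y
  refine ⟨Z, hZn, hcard, hcent, hqsimple, hqnc, ?_⟩
  intro A _ τ z hz
  by_cases hk : τ.ker = ⊤
  · have : z ∈ τ.ker := by rw [hk]; exact Subgroup.mem_top z
    exact this
  · exfalso
    have hkc := h τ.ker hk
    have hmap : (τ.ker.map (QuotientGroup.mk' Z)).Normal :=
      Subgroup.Normal.map inferInstance _ (QuotientGroup.mk'_surjective Z)
    rcases hqs _ hmap with hb | ht
    · apply hqnc
      intro x y
      obtain ⟨a, rfl⟩ := QuotientGroup.mk'_surjective Z x
      obtain ⟨b, rfl⟩ := QuotientGroup.mk'_surjective Z y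
      have hcm : a * b * (b * a)⁻¹ ∈ τ.ker := by
        rw [MonoidHom.mem_ker]
        simp only [map_mul, map_inv]
        rw [mul_comm (τ a) (τ b)]
        exact mul_inv_cancel _
      have h1 : (QuotientGroup.mk' Z) (a * b * (b * a)⁻¹) ∈ τ.ker.map (QuotientGroup.mk' Z) :=
        Subgroup.mem_map_of_mem _ hcm
      rw [hb, Subgroup.mem_bot, map_mul, map_inv, mul_inv_eq_one, map_mul, map_mul] at h1
      exact h1
    · have hle : Nat.card (τ.ker.map (QuotientGroup.mk' Z)) ≤ 2 :=
        (Nat.card_le_card_of_surjective ((QuotientGroup.mk' Z).subgroupMap τ.ker)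
          (MonoidHom.subgroupMap_surjective _ _)).trans hkc
      rw [ht, Subgroup.card_top] at hle
      apply hqnc
      have h1 : 1 < Nat.card (G ⧸ Z) := Finite.one_lt_card
      have h2 : Nat.card (G ⧸ Z) = 2 := le_antisymm hle h1
      obtain ⟨w, hw, hw'⟩ := (Nat.card_eq_two_iff' (1 : G ⧸ Z)).1 h2
      intro x y
      by_cases hx : x = 1
      · simp [hx]
      by_cases hy : y = 1
      · simp [hy]
      rw [hw' x hx, hw' y hy]

end Parker
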