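import Pool.Agent.Parker.Defs
import Pool.Agent.Parker.P01
import Pool.Agent.Parker.P06
import Pool.Agent.Parker.P08
import Pool.Agent.Parker.P10
import Pool.Agent.Parker.P13
import Pool.Agent.Parker.P23
import Pool.Agent.Parker.P24

/-!
# MP_6c3636_al, module P25: Claim A (helper7)
-/

namespace Parker

universe u v

noncomputable section

variable {Ω : Type} [Field Ω] [IsAlgClosed Ω] [CharZero Ω] {G : Type u} [Group G] [Finite G]
  {V : Type v} [AddCommGroup V] [Module Ω V] [FiniteDimensional Ω V]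
  {c : Ctx Ω} {m : ℕ} {Γ : Subgroup (RingAut Ω)}

/-- an irreducible representation of a commutative group has dimension one -/
theorem finrank_of_comm (h : ∀ x y : G, x * y = y * x) {ρ : Representation Ω G V}
    (hρ : ρ.IsIrreducible) : Module.finrank Ω V = 1 := by
  have hpos := irr_pos hρ
  have : Nontrivial V := Module.finrank_pos_iff.1 hpos
  obtain ⟨x, hx⟩ := exists_ne (0 : V)
  have hsc : ∀ g, ∃ a : Ω, ρ g = a • 1 := by
    intro g
    refine schur hρ fun k => ?_
    rw [← map_mul, ← map_mul, h]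
  have hU := irr_sub hρ (U := Submodule.span Ω {x}) (by
    intro g y hy
    obtain ⟨a, ha⟩ := hsc g
    rw [ha]
    exact Submodule.smul_mem _ a hy)
  rcases hU with hU | hU
  · exact absurd (Submodule.span_singleton_eq_bot.1 hU) hx
  · have h1 := finrank_span_singleton (K := Ω) hx
    rw [hU, finrank_top] at h1
    exact h1

/-- 3(5), the case `ρ(z) = -1`: `Z` central of order two on which every homomorphism of `G` to a
commutative group is trivial, `ρ` nontrivial on `Z`, `dim V` even: for a Sylow `2`-subgroup `P`,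
`V|P` has no self dual constituent of odd dimension (its determinant would be a homomorphism
`P → Ωˣ` with value `-1` at `z`). -/
theorem noOdd_sylow (Z : Subgroup G) (hZc : ∀ z ∈ Z, ∀ g, g * z = z * g)
    (hZ : Nat.card Z = 2) (hτ : ∀ (τ : G →* Ωˣ), ∀ z ∈ Z, τ z = 1)
    {ρ : Representation Ω G V} (hρ : ρ.IsIrreducible) (hZρ : ¬ ∀ z ∈ Z, ρ z = 1)
    (P : Sylow 2 G) : NoOdd (rs (P : Subgroup G) ρ) := by
  intro W hW hodd _
  have : Fact (Nat.Prime 2) := ⟨Nat.prime_two⟩
  push Not at hZρ
  obtain ⟨z, hz, hz1⟩ := hZρ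
  -- `z` is an involution
  have hzz : z * z = 1 := by
    have h1 : (⟨z, hz⟩ : Z) ^ Nat.card Z = 1 := pow_card_eq_one'
    rw [hZ] at h1
    have h2 := congrArg Subtype.val h1
    simpa [pow_two] using h2
  have hcomm : ∀ g : G, g * z = z * g := hZc z hz
  -- `z ∈ P`
  have hZp : IsPGroup 2 Z := IsPGroup.of_card (n := 1) (by rw [hZ, pow_one])
  have hzP : z ∈ (P : Subgroup G) := by
    obtain ⟨Q, hQ⟩ := hZp.exists_le_sylow
    obtain ⟨g, hg⟩ := MulAction.exists_smul_eq G Q P
    have h1 : g * z * g⁻¹ ∈ (P : Subgroup G) := by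
      rw [← hg, Sylow.coe_subgroup_smul]
      exact Subgroup.smul_mem_pointwise_smul z (MulAut.conj g) (Q : Subgroup G) (hQ hz)
    rwa [hcomm, mul_inv_cancel_right] at h1
  -- `ρ z = - 1`
  obtain ⟨a, ha⟩ : ∃ a : Ω, ρ z = a • 1 := by
    refine schur hρ fun k => ?_
    rw [← map_mul, ← map_mul, hcomm]
  have hpos := irr_pos hρ
  have : Nontrivial V := Module.finrank_pos_iff.1 hpos
  have haa : a * a = 1 := by
    have h1 : ρ z * ρ z = 1 := by rw [← map_mul, hzz, map_one]
    rw [ha, smul_mul_smul_comm, one_mul] at h1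
    obtain ⟨x, hx⟩ := exists_ne (0 : V)
    have h2 := congrArg (fun f : Module.End Ω V => f x) h1
    have h3 : (a * a) • x = x := h2
    have h4 : (a * a - 1) • x = 0 := by rw [sub_smul, one_smul, h3, sub_self]
    rcases smul_eq_zero.1 h4 with h5 | h5
    · exact sub_eq_zero.1 h5
    · exact absurd h5 hx
  have ha1 : a = -1 := by
    rcases mul_self_eq_one_iff.1 haa with h1 | h1
    · exfalso
      apply hz1
      rw [ha, h1, one_smul]
    · exact h1
  -- the determinant of `W`
  let lam : (P : Subgroup G) →* Ωˣ :=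
    MonoidHom.toHomUnits ((LinearMap.det (M := W.toSubmodule) (A := Ω)).comp W.toRepresentation)
  have hlam : ((lam ⟨z, hzP⟩ : Ωˣ) : Ω) = -1 := by
    have h1 : W.toRepresentation ⟨z, hzP⟩ = (-1 : Ω) • 1 := by
      apply LinearMap.ext
      intro w
      apply Subtype.ext
      have h2 : ((W.toRepresentation ⟨z, hzP⟩ w : W.toSubmodule) : V) = ρ z w := rfl
      rw [h2, ha, ha1]
      rfl
    have h3 : ((lam ⟨z, hzP⟩ : Ωˣ) : Ω) = LinearMap.det (W.toRepresentation ⟨z, hzP⟩) := rfl
    rw [h3, h1, LinearMap.det_smul, hodd.neg_one_pow, map_one, mul_one]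
  obtain ⟨τ, hτz⟩ := transfer_central (P : Subgroup G) lam ⟨z, hzP⟩ hcomm
  have h1 := hτ τ z hz
  have h2 : τ z = lam ⟨z, hzP⟩ ^ (P : Subgroup G).index := hτz
  have hoi : Odd (P : Subgroup G).index := by
    rw [← Nat.not_even_iff_odd, even_iff_two_dvd]
    exact P.not_dvd_index
  rw [h1] at h2
  have h3 := congrArg (fun u : Ωˣ => (u : Ω)) h2
  simp only [Units.val_one, Units.val_pow_eq_pow_val, hlam, hoi.neg_one_pow] at h3
  have h4 : (2 : Ω) = 0 := by
    linear_combination h3
  exact two_ne_zero h4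

/-- Claim A -/
theorem claimA (hm : m ≠ 0) (hG : Nat.card G ∣ m)
    (hsimple : IsSimpleGroup G → ¬ (∀ x y : G, x * y = y * x) → PropA c m G)
    (hsub : ∀ H : Subgroup G, H ≠ ⊤ → PropA c m H ∧ PropB c m H)
    (hquot : ∀ (M : Subgroup G) [M.Normal], M ≠ ⊥ → PropA c m (G ⧸ M)) : PropA c m G := by
  refine propA_of_good fun Γ hΓ n ρ hρ hn hO hF => ?_
  by_contra hbad
  have hfr : Module.finrank Ω (Fin n → Ω) = n := Module.finrank_fin_fun Ω
  have hev : Even (Module.finrank Ω (Fin n → Ω)) := by rw [hfr]; exact hn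
  have h4 : ∀ (N : Subgroup G) [N.Normal], N ≠ ⊤ → Nat.card N ≤ 2 := fun N _ hN =>
    step4 hρ hev hO hF hΓ hm hG hsub hquot hbad N hN
  rcases structure_small.{u, 0} h4 with hc | ⟨hs, hc⟩ | ⟨Z, hZn, hZ, hZc, hs, hc, hτ⟩
  · have h1 := finrank_of_comm hc hρ
    rw [hfr] at h1
    rw [h1] at hn
    exact absurd hn (by decide)
  · exact hbad (good_of_propA (hsimple hs hc) hΓ hρ hev hO hF)
  · by_cases hZρ : ∀ z ∈ Z, ρ z = 1
    · have hZb : Z ≠ ⊥ := by
        rintro rfl
        rw [Subgroup.card_bot] at hZ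
        omega
      exact hbad (good_of_quot Z (hquot Z hZb) hΓ hρ hev hO hF hZρ)
    · have : Fact (Nat.Prime 2) := ⟨Nat.prime_two⟩
      obtain ⟨P⟩ : Nonempty (Sylow 2 G) := inferInstance
      have hPt : (P : Subgroup G) ≠ ⊤ := by
        intro hP
        apply hc
        have h1 : IsPGroup 2 G := by
          have h2 := P.2
          change IsPGroup 2 (P : Subgroup G) at h2
          rw [hP] at h2
          exact h2.of_equiv Subgroup.topEquiv
        have h2 : IsPGroup 2 (G ⧸ Z) := h1.to_quotient Z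
        have := hs.toNontrivial
        have h3 : Nontrivial (Subgroup.center (G ⧸ Z)) := h2.center_nontrivial
        have h4 : Subgroup.center (G ⧸ Z) = ⊤ := by
          rcases hs.eq_bot_or_eq_top_of_normal (Subgroup.center (G ⧸ Z)) inferInstance with h | h
          · rw [h] at h3
            exact absurd h3 (not_nontrivial_iff_subsingleton.2 inferInstance)
          · exact h
        intro x y
        have h5 : y ∈ Subgroup.center (G ⧸ Z) := by rw [h4]; trivial
        exact Subgroup.mem_center_iff.1 h5 x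
      have hno := noOdd_sylow Z hZc hZ (fun τ => hτ Ωˣ τ) hρ hZρ P
      exact hbad (good_of_res (P : Subgroup G) (hsub _ hPt).1 (hsub _ hPt).2 hΓ hO hF hno)

end

end Parker
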