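import Pool.Agent.Parker.Defs
import Pool.Agent.Parker.P01
import Pool.Agent.Parker.P02
import Pool.Agent.Parker.P08
import Pool.Agent.Parker.P12

/-!
# MP_6c3636_al, module P26: (5.3), linear characters (helper7)
-/

namespace Parker

universe u v

noncomputable section

variable {Ω : Type} [Field Ω] [IsAlgClosed Ω] [CharZero Ω] {G : Type u} [Group G] [Finite G]
  {V : Type v} [AddCommGroup V] [Module Ω V] [FiniteDimensional Ω V]
  {c : Ctx Ω} {m : ℕ} {Γ : Subgroup (RingAut Ω)}

namespace P26_aux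

theorem rho_eq {ρ : Representation Ω G V} (h1 : Module.finrank Ω V = 1) (g : G) :
    ρ g = ρ.character g • (1 : Module.End Ω V) := by
  obtain ⟨a, ha, -⟩ := LinearMap.existsUnique_eq_smul_id_of_finrank_eq_one h1 (ρ g)
  have h2 : ρ.character g = a := by
    have h3 : ρ.character g = LinearMap.trace Ω V (ρ g) := rfl
    rw [h3, ha, map_smul, LinearMap.trace_id, h1]
    simp
  rw [h2, ha]
  rfl

theorem char_mul' {ρ : Representation Ω G V} (h1 : Module.finrank Ω V = 1) (g h : G) :
    ρ.character (g * h) = ρ.character g * ρ.character h := by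
  have h3 : ρ.character (g * h) = LinearMap.trace Ω V (ρ (g * h)) := rfl
  rw [h3, map_mul, rho_eq h1 g, rho_eq h1 h, smul_mul_smul_comm, mul_one, map_smul,
    LinearMap.trace_one, h1]
  simp

theorem char_one' {ρ : Representation Ω G V} (h1 : Module.finrank Ω V = 1) :
    ρ.character 1 = 1 := by
  have h3 : ρ.character 1 = LinearMap.trace Ω V (ρ 1) := rfl
  rw [h3, map_one, LinearMap.trace_one, h1]
  simp

/-- the character as a homomorphism -/
def chi {ρ : Representation Ω G V} (h1 : Module.finrank Ω V = 1) : G →* Ω where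
  toFun g := ρ.character g
  map_one' := char_one' h1
  map_mul' := char_mul' h1

end P26_aux

open P26_aux in
/-- the character of a one dimensional representation is multiplicative; its values are the powers
of one root of unity -/
theorem linear_values {ρ : Representation Ω G V} (h1 : Module.finrank Ω V = 1) :
    ∃ (g₀ : G) (n : ℕ), 0 < n ∧ IsPrimitiveRoot (ρ.character g₀) n ∧
      ∀ g, ∃ k : ℕ, ρ.character g = ρ.character g₀ ^ k := by
  set f : G →* Ωˣ := (chi (ρ := ρ) h1).toHomUnits with hf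
  have hfin : Finite f.range := by
    have : Finite (Set.range f) := Set.finite_range f
    exact this
  obtain ⟨⟨u, g₀, hg₀⟩, hu⟩ := IsCyclic.exists_generator (α := f.range)
  have hval : ∀ g, ((f g : Ωˣ) : Ω) = ρ.character g := fun g => rfl
  have hfo : IsOfFinOrder u := by
    have h2 : IsOfFinOrder (⟨u, g₀, hg₀⟩ : f.range) := isOfFinOrder_of_finite _
    exact MonoidHom.isOfFinOrder f.range.subtype h2
  have hu0 : 0 < orderOf u := orderOf_pos_iff.2 hfo
  refine ⟨g₀, orderOf u, hu0, ?_, ?_⟩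
  · rw [← hval, hg₀]
    exact (IsPrimitiveRoot.orderOf u).map_of_injective (f := Units.coeHom Ω) Units.val_injective
  · intro g
    have h3 := hu ⟨f g, g, rfl⟩
    obtain ⟨k, hk⟩ := Subgroup.mem_zpowers_iff.1 h3
    have hk' : u ^ k = f g := by
      have := congrArg Subtype.val hk
      simpa using this
    have h4 : f g ∈ Submonoid.powers u := by
      rw [← hk']
      have h5 : u ^ k ∈ Subgroup.zpowers u := ⟨k, rfl⟩
      exact hfo.mem_powers_iff_mem_zpowers.2 h5
    obtain ⟨j, hj⟩ := h4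
    refine ⟨j, ?_⟩
    rw [← hval g, ← hval g₀, hg₀, ← hj]
    simp

namespace P26_aux

theorem flip_sign {d y : Ω} (hd : d ≠ 0) {P : RingAut Ω → Prop} [DecidablePred P]
    (hσ : ∀ σ ∈ Γ, σ d = if P σ then d else - d) (hy : ∀ σ ∈ Γ, P σ → σ y = y)
    {τ : RingAut Ω} (hτ : τ ∈ Γ) (hτy : τ y ≠ y) :
    ∀ σ ∈ Γ, σ (y - τ y) = if P σ then y - τ y else -(y - τ y) := by
  have hP : ∀ σ ∈ Γ, σ d = d → P σ := by
    intro σ hs h
    by_contra hn
    have h2 := hσ σ hs
    rw [if_neg hn, h] at h2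
    exact hd (self_eq_neg.1 h2)
  have hτn : ¬ P τ := fun h => hτy (hy τ hτ h)
  have hτd : τ d = - d := by
    rw [hσ τ hτ, if_neg hτn]
  have hτi : τ⁻¹ d = - d := by
    have h2 : τ⁻¹ (τ d) = d := RingEquiv.symm_apply_apply τ d
    rw [hτd, map_neg] at h2
    exact neg_eq_iff_eq_neg.1 h2
  intro σ hs
  by_cases h : P σ
  · rw [if_pos h]
    have hsd : σ d = d := by rw [hσ σ hs, if_pos h]
    have hmem : τ⁻¹ * σ * τ ∈ Γ := Γ.mul_mem (Γ.mul_mem (Γ.inv_mem hτ) hs) hτ
    have h3 : (τ⁻¹ * σ * τ) d = d := by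
      rw [RingAut.mul_apply, RingAut.mul_apply, hτd, map_neg, hsd, map_neg, hτi, neg_neg]
    have h4 := hy _ hmem (hP _ hmem h3)
    rw [RingAut.mul_apply, RingAut.mul_apply] at h4
    have h5 : σ (τ y) = τ y := by
      have h6 := congrArg τ h4
      have h7 : τ (τ⁻¹ (σ (τ y))) = σ (τ y) := RingEquiv.apply_symm_apply τ _
      rw [h7] at h6
      exact h6
    rw [map_sub, hy σ hs h, h5]
  · rw [if_neg h]
    have hsd : σ d = - d := by rw [hσ σ hs, if_neg h]
    have hmem : τ⁻¹ * σ ∈ Γ := Γ.mul_mem (Γ.inv_mem hτ) hs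
    have h3 : (τ⁻¹ * σ) d = d := by
      rw [RingAut.mul_apply, hsd, map_neg, hτi, neg_neg]
    have h4 := hy _ hmem (hP _ hmem h3)
    rw [RingAut.mul_apply] at h4
    have h5 : σ y = τ y := by
      have h6 := congrArg τ h4
      have h7 : τ (τ⁻¹ (σ y)) = σ y := RingEquiv.apply_symm_apply τ _
      rw [h7] at h6
      exact h6
    have hmem2 : σ * τ ∈ Γ := Γ.mul_mem hs hτ
    have h8 : (σ * τ) d = d := by
      rw [RingAut.mul_apply, hτd, map_neg, hsd, neg_neg]
    have h9 := hy _ hmem2 (hP _ hmem2 h8)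
    rw [RingAut.mul_apply] at h9
    rw [map_sub, h5, h9]
    ring

/-- comparison of `d` with an element of absolute value `1` with the same signs -/
theorem compare {d e : Ω} (hd : d ≠ 0) (he : e ≠ 0) {P : RingAut Ω → Prop} [DecidablePred P]
    (hσ : ∀ σ ∈ Γ, σ d = if P σ then d else - d) (hσ' : ∀ σ ∈ Γ, σ e = if P σ then e else - e)
    (hav : c.av e = 1) : InV c Γ (c.av d) := by
  have h1 : InV c Γ (c.av (d / e)) := by
    refine inV_of_fx (div_ne_zero hd he) ?_
    intro σ hs
    rw [map_div₀, hσ σ hs, hσ' σ hs]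
    by_cases h : P σ
    · rw [if_pos h, if_pos h]
    · rw [if_neg h, if_neg h, neg_div_neg_eq]
  rwa [map_div₀, hav, div_one] at h1

end P26_aux

open P26_aux in
open Classical in
/-- (5.3) -/
theorem propB_linear (hΓ : Ok c m Γ) {ρ : Representation Ω G V}
    (h1 : Module.finrank Ω V = 1)
    (hγ : ∃ γ ∈ Γ, ∀ g, γ (ρ.character g) = ρ.character g⁻¹) {d : Ω} (hd : d ≠ 0)
    (hσ : ∀ σ ∈ Γ, σ d = if Fixes σ ρ then d else - d) : InV c Γ (c.av d) := by
  obtain ⟨g₀, n, hn, hprim, hval⟩ := linear_values (ρ := ρ) h1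
  obtain ⟨γ, hγm, hγ⟩ := hγ
  set ζ := ρ.character g₀ with hζ
  have hζ0 : ζ ≠ 0 := hprim.ne_zero hn.ne'
  have hfix : ∀ σ : RingAut Ω, Fixes σ ρ → σ ζ = ζ := fun σ h => h g₀
  have hfix' : ∀ σ : RingAut Ω, σ ζ = ζ → Fixes σ ρ := by
    intro σ h g
    obtain ⟨k, hk⟩ := hval g
    rw [hk, map_pow, h]
  have hγζ : γ ζ = ζ⁻¹ := by
    rw [hζ, hγ g₀]
    have h2 : ρ.character g₀⁻¹ * ρ.character g₀ = 1 := by
      rw [← char_mul' h1, inv_mul_cancel, char_one' h1]
    exact eq_inv_of_mul_eq_one_left h2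
  obtain ⟨a, r, hr, hnr⟩ := Nat.exists_eq_two_pow_mul_odd hn.ne'
  have hr0 : r ≠ 0 := by
    rintro rfl
    simp at hr
  -- the odd part
  set ξ := ζ ^ (2 ^ a) with hξ
  have hξprim : IsPrimitiveRoot ξ r := hprim.pow hn hnr
  by_cases hodd : ∃ τ ∈ Γ, τ ξ ≠ ξ
  · obtain ⟨τ, hτ, hτξ⟩ := hodd
    have h3 := flip_sign hd hσ (y := ξ) (fun σ _ h => by rw [hξ, map_pow, hfix σ h]) hτ hτξ
    refine compare hd (sub_ne_zero.2 (Ne.symm hτξ)) hσ h3 ?_
    refine av_sub_root c hr hξprim.pow_eq_one ?_ (Ne.symm hτξ)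
    rw [← map_pow, hξprim.pow_eq_one, map_one]
  · push Not at hodd
    -- the odd part is trivial
    have hξ1 : ξ = 1 := by
      have h2 : γ ξ = ξ⁻¹ := by
        rw [hξ, map_pow, hγζ, inv_pow]
      rw [hodd γ hγm] at h2
      have hξ0 : ξ ≠ 0 := hξprim.ne_zero hr0
      have h3 : ξ ^ 2 = 1 := by
        rw [pow_two]
        nth_rewrite 2 [h2]
        exact mul_inv_cancel₀ hξ0
      have h4 := (hξprim.dvd_of_pow_eq_one 2 h3)
      have h5 : r = 1 := by
        obtain ⟨t, ht⟩ := hr
        have := Nat.le_of_dvd (by norm_num) h4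
        omega
      have := hξprim.pow_eq_one
      rwa [h5, pow_one] at this
    by_cases hall : ∀ σ ∈ Γ, σ ζ = ζ
    · refine inV_of_fx hd ?_
      intro σ hs
      rw [hσ σ hs, if_pos (hfix' σ (hall σ hs))]
    · push Not at hall
      obtain ⟨τ, hτ, hτζ⟩ := hall
      have h2 : ζ ^ (2 ^ a) = 1 := hξ1
      -- `a ≥ 2`
      have hr1 : r = 1 := by
        have h6 := hξprim
        rw [hξ1] at h6
        exact Nat.dvd_one.1 (h6.dvd_of_pow_eq_one 1 (one_pow 1))
      have hn2 : n = 2 ^ a := by rw [hnr, hr1, mul_one]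
      have ha : 2 ≤ a := by
        by_contra hlt
        have h6 : ζ ^ 2 = 1 := by
          have : 2 ^ a ∣ 2 := by
            have h7 : a = 0 ∨ a = 1 := by omega
            rcases h7 with h | h <;> simp [h]
          obtain ⟨t, ht⟩ := this
          rw [ht, pow_mul, h2, one_pow]
        have h8 : ζ = 1 ∨ ζ = -1 := by
          have h9 : (ζ - 1) * (ζ + 1) = 0 := by linear_combination h6
          rcases mul_eq_zero.1 h9 with h | h
          · exact Or.inl (sub_eq_zero.1 h)
          · exact Or.inr (eq_neg_of_add_eq_zero_left h)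
        rcases h8 with h | h
        · exact hτζ (by rw [h, map_one])
        · exact hτζ (by rw [h, map_neg, map_one])
      set i := ζ ^ (2 ^ (a - 2)) with hi
      have hi0 : i ≠ 0 := pow_ne_zero _ hζ0
      have hi4 : i ^ 4 = 1 := by
        rw [hi, ← pow_mul, show (4 : ℕ) = 2 ^ 2 by norm_num, ← pow_add, Nat.sub_add_cancel ha, h2]
      have hi2 : i ^ 2 = -1 := by
        have h6 : i ^ 2 ≠ 1 := by
          intro h7
          rw [hi, ← pow_mul, ← pow_succ] at h7
          have h8 := hprim.dvd_of_pow_eq_one _ h7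
          rw [hn2] at h8
          have h9 := (Nat.pow_dvd_pow_iff_le_right (by norm_num : 1 < 2)).1 h8
          omega
        have h9 : (i ^ 2 - 1) * (i ^ 2 + 1) = 0 := by linear_combination hi4
        rcases mul_eq_zero.1 h9 with h | h
        · exact absurd (sub_eq_zero.1 h) h6
        · exact eq_neg_of_add_eq_zero_left h
      have hγi : γ i = - i := by
        have h6 : γ i = i⁻¹ := by
          rw [hi, map_pow, hγζ, inv_pow]
        rw [h6]
        refine inv_eq_of_mul_eq_one_left ?_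
        linear_combination -hi2
      have h2i : i - γ i = 2 * i := by
        rw [hγi]
        ring
      have hne : γ i ≠ i := by
        rw [hγi]
        intro h6
        exact hi0 (neg_eq_self.1 h6)
      have h3 := flip_sign hd hσ (y := i) (fun σ _ h => by rw [hi, map_pow, hfix σ h]) hγm hne
      refine compare hd hi0 hσ ?_ (av_root c (by norm_num : 4 ≠ 0) hi4)
      intro σ hs
      have h4 := h3 σ hs
      rw [h2i, map_mul, map_ofNat] at h4
      have h20 : (2 : Ω) ≠ 0 := two_ne_zero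
      by_cases h : Fixes σ ρ
      · rw [if_pos h] at h4 ⊢
        exact mul_left_cancel₀ h20 h4
      · rw [if_neg h] at h4 ⊢
        refine mul_left_cancel₀ h20 ?_
        rw [h4]
        ring

end

end Parker
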