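import Pool.Agent.Parker.Defs
import Pool.Agent.Parker.P01
import Pool.Agent.Parker.P05
import Pool.Agent.Parker.P08
import Pool.Agent.Parker.P09
import Pool.Agent.Parker.P10
import Pool.Agent.Parker.P12
import Pool.Agent.Parker.P13
import Pool.Agent.Parker.P15
import Pool.Agent.Parker.P16
import Pool.Agent.Parker.P19
import Pool.Agent.Parker.P20
import Pool.Agent.Parker.P21
import Pool.Agent.Parker.P22

/-!
# MP_6c3636_al, module P27: (5.1), Clifford step for (B) (helper7)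
-/

namespace Parker

universe u v

noncomputable section

namespace P27_aux

/-- the action of `(σ, ε)`: `φ ↦ (n ↦ σ (φ (n ^ ε)))` -/
@[reducible] def actX (Ω : Type) [Field Ω] (K : Type u) [Group K] :
    MulAction (RingAut Ω × ℤˣ) (K → Ω) where
  smul e φ := fun n => e.1 (φ (n ^ ((e.2 : ℤˣ) : ℤ)))
  one_smul φ := by
    funext n
    change (1 : RingAut Ω) (φ (n ^ (((1 : RingAut Ω × ℤˣ).2 : ℤˣ) : ℤ))) = φ n
    simp
  mul_smul e f φ := by
    funext n
    change (e * f).1 (φ (n ^ (((e * f).2 : ℤˣ) : ℤ)))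
      = e.1 (f.1 (φ ((n ^ ((e.2 : ℤˣ) : ℤ)) ^ ((f.2 : ℤˣ) : ℤ))))
    rw [Prod.fst_mul, Prod.snd_mul, Units.val_mul, zpow_mul, RingAut.mul_apply]

theorem actX_apply {Ω : Type} [Field Ω] {K : Type u} [Group K] (e : RingAut Ω × ℤˣ)
    (φ : K → Ω) (n : K) :
    ((actX Ω K).smul e φ) n = e.1 (φ (n ^ ((e.2 : ℤˣ) : ℤ))) := rfl

variable {Ω : Type} [Field Ω] [IsAlgClosed Ω] [CharZero Ω]

theorem irr_stable {K : Type u} [Group K] [Finite K] {φ : K → Ω} (hφ : φ ∈ irr Ω K)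
    (e : RingAut Ω × ℤˣ) : (fun n => e.1 (φ (n ^ ((e.2 : ℤˣ) : ℤ)))) ∈ irr Ω K := by
  rcases Int.units_eq_one_or e.2 with h | h
  · rw [h]
    simpa using sigma_mem_irr hφ e.1
  · rw [h]
    have h1 := sigma_mem_irr (du_mem_irr hφ) e.1
    simpa [du] using h1

theorem mul_stable {K : Type u} [Group K] [Finite K] {V : Type v} [AddCommGroup V] [Module Ω V]
    [FiniteDimensional Ω V] (ρ : Representation Ω K V) {φ : K → Ω} (hφ : φ ∈ irr Ω K)
    (e : RingAut Ω × ℤˣ) (he : ∀ n, e.1 (ρ.character (n ^ ((e.2 : ℤˣ) : ℤ))) = ρ.character n) :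
    mul ρ.character (fun n => e.1 (φ (n ^ ((e.2 : ℤˣ) : ℤ)))) = mul ρ.character φ := by
  haveI := Fintype.ofFinite K
  have h1 := mul_spec ρ (irr_stable hφ e)
  have h2 := mul_spec ρ hφ
  have h3 : ip ρ.character (fun n => e.1 (φ (n ^ ((e.2 : ℤˣ) : ℤ))))
      = e.1 (ip ρ.character φ) := by
    rw [ip_eq, ip_eq, map_mul, map_sum, map_inv₀, map_natCast]
    congr 1
    rcases Int.units_eq_one_or e.2 with h | h
    · refine Finset.sum_congr rfl fun n _ => ?_
      have h4 := he n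
      rw [h] at h4 ⊢
      simp only [Units.val_one, zpow_one] at h4 ⊢
      rw [map_mul, h4]
    · rw [← Equiv.sum_comp (Equiv.inv K) (fun n => e.1 (ρ.character n * φ n⁻¹))]
      refine Finset.sum_congr rfl fun n _ => ?_
      have h4 := he n
      rw [h] at h4 ⊢
      simp only [Units.val_neg, Units.val_one, zpow_neg, zpow_one, inv_inv,
        Equiv.inv_apply] at h4 ⊢
      rw [map_mul, h4]
  rw [← h1, ← h2] at h3
  rw [map_natCast] at h3
  exact_mod_cast h3

theorem fixes_rs {G : Type u} [Group G] {V : Type v} [AddCommGroup V] [Module Ω V]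
    (N : Subgroup G) (ρ : Representation Ω G V) (n : N) :
    (rs N ρ).character n = ρ.character (n : G) := rfl

/-- the trace of `ρ x` times an element of the group algebra of `N` -/
theorem trace_mul_act {G : Type u} [Group G] {V : Type v} [AddCommGroup V] [Module Ω V]
    [FiniteDimensional Ω V] (N : Subgroup G) [Fintype N] (ρ : Representation Ω G V) (x : G)
    (t : N → Ω) : LinearMap.trace Ω V (ρ x * act (rs N ρ) t)
      = ∑ n : N, t n * ρ.character (x * n) := by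
  rw [act_eq, Finset.mul_sum, map_sum]
  refine Finset.sum_congr rfl fun n _ => ?_
  have h1 : ρ x * (t n • (rs N ρ) n) = t n • ρ (x * n) := by
    rw [mul_smul_comm, map_mul]
    rfl
  rw [h1, map_smul, smul_eq_mul]
  rfl

end P27_aux

open P27_aux

variable {Ω : Type} [Field Ω] [IsAlgClosed Ω] [CharZero Ω] {G : Type u} [Group G] [Finite G]
  {V : Type v} [AddCommGroup V] [Module Ω V] [FiniteDimensional Ω V]
  {c : Ctx Ω} {m : ℕ} {Γ : Subgroup (RingAut Ω)}

/-- (5.1) there is a constituent `θ` of `V|N` fixed by every `σ ∈ Γ` fixing `ψ` and with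
`γ θ = θ*` for all `γ ∈ Γ` with `γ ψ = ψ*`. (The group `Γ × {1, *}` acts on the functions; the
stabilizer of `ψ` acts on the odd set of constituents through a `2`-group, `exists_fixed_of_odd`.) -/
theorem exists_theta (hΓ : Ok c m Γ) (hm : m ≠ 0) (hG : Nat.card G ∣ m)
    {ρ : Representation Ω G V} (hρ : ρ.IsIrreducible) (hodd : Odd (Module.finrank Ω V))
    (N : Subgroup G) [N.Normal] :
    ∃ θ ∈ irr Ω N, mul (rs N ρ).character θ ≠ 0 ∧ Odd (dg θ) ∧
      (∀ σ ∈ Γ, Fixes σ ρ → ∀ n, σ (θ n) = θ n) ∧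
      (∀ γ ∈ Γ, (∀ g, γ (ρ.character g) = ρ.character g⁻¹) → ∀ n, γ (θ n) = θ n⁻¹) := by
  classical
  set Θ : Finset (N → Ω) := (irr Ω N).filter (fun φ => mul (rs N ρ).character φ ≠ 0) with hΘ
  have hmem : ∀ φ, φ ∈ Θ ↔ φ ∈ irr Ω N ∧ mul (rs N ρ).character φ ≠ 0 := by
    intro φ
    rw [hΘ, Finset.mem_filter]
  -- degrees
  have hsum : Module.finrank Ω V = ∑ φ ∈ Θ, mul (rs N ρ).character φ * dg φ := by
    rw [finrank_eq_sum (rs N ρ), hΘ, Finset.sum_filter_of_ne]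
    intro φ _ h h0
    exact h (by rw [h0, zero_mul])
  have hne : Θ.Nonempty := by
    by_contra hcon
    rw [Finset.not_nonempty_iff_eq_empty] at hcon
    rw [hcon, Finset.sum_empty] at hsum
    rw [hsum] at hodd
    exact absurd hodd (by decide)
  obtain ⟨φ₀, hφ₀⟩ := hne
  have hconst : ∀ φ ∈ Θ, mul (rs N ρ).character φ * dg φ
      = mul (rs N ρ).character φ₀ * dg φ₀ := by
    intro φ hφ
    obtain ⟨g, rfl⟩ := clifford_trans N hρ ((hmem φ₀).1 hφ₀).1 ((hmem φ).1 hφ).1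
      ((hmem φ₀).1 hφ₀).2 ((hmem φ).1 hφ).2
    rw [mul_cj N ρ ((hmem φ₀).1 hφ₀).1, dg_cj]
  have hsum2 : Module.finrank Ω V
      = Θ.card * (mul (rs N ρ).character φ₀ * dg φ₀) := by
    rw [hsum, Finset.sum_congr rfl hconst, Finset.sum_const, smul_eq_mul]
  rw [hsum2, Nat.odd_mul, Nat.odd_mul] at hodd
  have hdg : ∀ φ ∈ Θ, Odd (dg φ) := by
    intro φ hφ
    obtain ⟨g, rfl⟩ := clifford_trans N hρ ((hmem φ₀).1 hφ₀).1 ((hmem φ).1 hφ).1
      ((hmem φ₀).1 hφ₀).2 ((hmem φ).1 hφ).2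
    rw [dg_cj]
    exact hodd.2.2
  -- the group
  letI := actX Ω N
  letI := actX Ω G
  set S : Subgroup (RingAut Ω × ℤˣ) :=
    Γ.comap (MonoidHom.fst _ _) ⊓ MulAction.stabilizer (RingAut Ω × ℤˣ) ρ.character with hS
  have hSmem : ∀ e : S, (e : RingAut Ω × ℤˣ).1 ∈ Γ ∧
      ∀ g, (e : RingAut Ω × ℤˣ).1 (ρ.character (g ^ (((e : RingAut Ω × ℤˣ).2 : ℤˣ) : ℤ)))
        = ρ.character g := by
    intro e
    obtain ⟨h1, h2⟩ := Subgroup.mem_inf.1 e.2
    exact ⟨h1, fun g => congrFun (MulAction.mem_stabilizer_iff.1 h2) g⟩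
  have hNm : Nat.card N ∣ m := (Subgroup.card_subgroup_dvd_card N).trans hG
  obtain ⟨θ, hθ, hfix⟩ := exists_fixed_of_odd (E := S) (X := N → Ω) Θ (by
      intro e φ hφ
      rw [hmem] at hφ
      rw [hmem]
      refine ⟨irr_stable hφ.1 (e : RingAut Ω × ℤˣ), ?_⟩
      have h1 := mul_stable (rs N ρ) hφ.1 (e : RingAut Ω × ℤˣ) (fun n => by
        have h2 := (hSmem e).2 (n : G)
        rw [fixes_rs, fixes_rs, Subgroup.coe_zpow]
        exact h2)
      intro h0
      exact hφ.2 (h1.symm.trans h0)) (by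
      intro e
      obtain ⟨j, hj⟩ := two_irr hΓ hm hNm (hSmem e).1
      refine ⟨j + 1, fun φ hφ => ?_⟩
      funext n
      have h3 : ((e ^ (2 ^ (j + 1)) : S) : RingAut Ω × ℤˣ)
          = ((e : RingAut Ω × ℤˣ).1 ^ (2 ^ (j + 1)), 1) := by
        rw [Subgroup.coe_pow]
        refine Prod.ext rfl ?_
        change (e : RingAut Ω × ℤˣ).2 ^ (2 ^ (j + 1)) = 1
        rw [pow_succ, mul_comm, pow_mul, Int.units_sq, one_pow]
      change ((e ^ (2 ^ (j + 1)) : S) : RingAut Ω × ℤˣ).1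
        (φ (n ^ ((((e ^ (2 ^ (j + 1)) : S) : RingAut Ω × ℤˣ).2 : ℤˣ) : ℤ))) = φ n
      rw [h3]
      simp only [Units.val_one, zpow_one]
      rw [pow_succ, pow_mul, pow_two, RingAut.mul_apply,
        hj φ ((hmem φ).1 hφ).1, hj φ ((hmem φ).1 hφ).1]) hodd.1
  refine ⟨θ, ((hmem θ).1 hθ).1, ((hmem θ).1 hθ).2, hdg θ hθ, ?_, ?_⟩
  · intro σ hσ hσρ n
    have hmemS : ((σ, 1) : RingAut Ω × ℤˣ) ∈ S := by
      rw [hS, Subgroup.mem_inf, Subgroup.mem_comap, MulAction.mem_stabilizer_iff]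
      refine ⟨hσ, ?_⟩
      funext g
      change σ (ρ.character (g ^ (((1 : ℤˣ) : ℤˣ) : ℤ))) = ρ.character g
      rw [Units.val_one, zpow_one, hσρ g]
    have h4 := congrFun (hfix ⟨_, hmemS⟩) n
    change σ (θ (n ^ (((1 : ℤˣ) : ℤˣ) : ℤ))) = θ n at h4
    rw [Units.val_one, zpow_one] at h4
    exact h4
  · intro γ hγ hγρ n
    have hmemS : ((γ, -1) : RingAut Ω × ℤˣ) ∈ S := by
      rw [hS, Subgroup.mem_inf, Subgroup.mem_comap, MulAction.mem_stabilizer_iff]
      refine ⟨hγ, ?_⟩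
      funext g
      change γ (ρ.character (g ^ (((-1 : ℤˣ) : ℤˣ) : ℤ))) = ρ.character g
      rw [Units.val_neg, Units.val_one, zpow_neg, zpow_one, hγρ, inv_inv]
    have h4 := congrFun (hfix ⟨_, hmemS⟩) n⁻¹
    change γ (θ (n⁻¹ ^ (((-1 : ℤˣ) : ℤˣ) : ℤ))) = θ n⁻¹ at h4
    rw [Units.val_neg, Units.val_one, zpow_neg, zpow_one, inv_inv] at h4
    exact h4

open Classical in
/-- the case where the inertia group `T` of `θ` is not `G` -/
theorem propB_inertia (hΓ : Ok c m Γ) {ρ : Representation Ω G V} (hρ : ρ.IsIrreducible)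
    (hodd : Odd (Module.finrank Ω V)) (N : Subgroup G) [N.Normal] {θ : N → Ω}
    (hθ : θ ∈ irr Ω N) (hmul : mul (rs N ρ).character θ ≠ 0)
    (h1 : ∀ σ ∈ Γ, Fixes σ ρ → ∀ n, σ (θ n) = θ n)
    (h2 : ∀ γ ∈ Γ, (∀ g, γ (ρ.character g) = ρ.character g⁻¹) → ∀ n, γ (θ n) = θ n⁻¹)
    (hT : ∃ g : G, cj N g θ ≠ θ) (hsub : ∀ H : Subgroup G, H ≠ ⊤ → PropB c m H)
    (hγ : ∃ γ ∈ Γ, ∀ g, γ (ρ.character g) = ρ.character g⁻¹) {d : Ω} (hd : d ≠ 0)
    (hσ : ∀ σ ∈ Γ, σ d = if Fixes σ ρ then d else - d) : InV c Γ (c.av d) := by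
  classical
  haveI := Fintype.ofFinite N
  set H : Subgroup G :=
    { carrier := {g | cj N g θ = θ}
      mul_mem' := by
        intro a b ha hb
        rw [Set.mem_setOf_eq] at ha hb ⊢
        rw [cj_mul, hb, ha]
      one_mem' := cj_one N θ
      inv_mem' := by
        intro a ha
        rw [Set.mem_setOf_eq] at ha ⊢
        conv_lhs => rw [← ha]
        rw [← cj_mul, inv_mul_cancel, cj_one] } with hH
  have hmemH : ∀ g, g ∈ H ↔ cj N g θ = θ := fun g => Iff.rfl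
  have hHtop : H ≠ ⊤ := by
    obtain ⟨g, hg⟩ := hT
    intro h
    apply hg
    rw [← hmemH, h]
    trivial
  haveI := Fintype.ofFinite (G ⧸ H)
  have hblk : Blk ρ H (act (rs N ρ) (es θ)) := by
    have h := clifford_blk N (ρ := ρ) H (O := {θ})
      (by
        intro φ hφ
        rw [Finset.mem_singleton] at hφ
        rw [hφ]
        exact hθ)
      (by
        intro h hh φ hφ
        rw [Finset.mem_singleton] at hφ ⊢
        rw [hφ]
        exact (hmemH h).1 hh)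
      (by
        intro g hg φ hφ hc
        rw [Finset.mem_singleton] at hφ hc
        rw [hφ] at hc
        exact hg ((hmemH g).2 hc))
      ⟨θ, Finset.mem_singleton_self θ, hmul⟩
    rwa [Finset.sum_singleton] at h
  have hirr := blk_irr hblk hρ
  have hodd' : Odd (Module.finrank Ω (LinearMap.range (act (rs N ρ) (es θ)))) := by
    have h := blk_finrank hblk hρ
    rw [h, Nat.odd_mul] at hodd
    exact hodd.2
  have hch : ∀ x : H, hblk.rep.character x = ∑ n : N, es θ n * ρ.character ((x : G) * n) := by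
    intro x
    rw [blk_char hblk x, trace_mul_act]
  have hfix : ∀ σ ∈ Γ, (Fixes σ ρ ↔ Fixes σ hblk.rep) := by
    intro σ hσΓ
    constructor
    · intro hf x
      have hes : ∀ n : N, σ (es θ n) = es θ n := by
        intro n
        unfold es
        rw [map_mul, map_mul, map_inv₀, map_natCast, h1 σ hσΓ hf, h1 σ hσΓ hf]
      rw [hch, map_sum]
      refine Finset.sum_congr rfl fun n _ => ?_
      rw [map_mul, hes, hf]
    · intro hf g
      rw [blk_induced hblk hρ g, map_sum]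
      refine Finset.sum_congr rfl fun q _ => ?_
      split_ifs with hq
      · exact hf _
      · exact map_zero σ
  obtain ⟨γ, hγΓ, hγρ⟩ := hγ
  refine propB_gen (hsub H hHtop) hΓ hirr hodd' ⟨γ, hγΓ, fun x => ?_⟩ hd (fun σ hσΓ => ?_)
  · have hθγ := h2 γ hγΓ hγρ
    have hes : ∀ n : N, γ (es θ n) = es θ n⁻¹ := by
      intro n
      unfold es
      rw [map_mul, map_mul, map_inv₀, map_natCast, hθγ, hθγ, inv_one]
    rw [hch, map_sum]
    have h5 : hblk.rep.character x⁻¹ = ∑ n : N, es θ n * ρ.character ((n : G) * (x : G)⁻¹) := by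
      rw [hch]
      refine Finset.sum_congr rfl fun n _ => ?_
      congr 1
      rw [Subgroup.coe_inv]
      change LinearMap.trace Ω V (ρ ((x : G)⁻¹ * (n : G)))
        = LinearMap.trace Ω V (ρ ((n : G) * (x : G)⁻¹))
      rw [ρ.map_mul, ρ.map_mul, LinearMap.trace_mul_comm]
    rw [h5, ← Equiv.sum_comp (Equiv.inv N) (fun n : N => es θ n * ρ.character ((n : G) * (x : G)⁻¹))]
    refine Finset.sum_congr rfl fun n _ => ?_
    rw [map_mul, hes, hγρ]
    simp only [Equiv.inv_apply, Subgroup.coe_inv, mul_inv_rev]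
  · rw [hσ σ hσΓ]
    by_cases hf : Fixes σ ρ
    · rw [if_pos hf, if_pos ((hfix σ hσΓ).1 hf)]
    · rw [if_neg hf, if_neg (fun h => hf ((hfix σ hσΓ).2 h))]

open Classical in
/-- `θ` invariant in `G` but not `Γ`-fixed: use (B) for `N` -/
theorem propB_normal (hΓ : Ok c m Γ) {ρ : Representation Ω G V} (hρ : ρ.IsIrreducible)
    (N : Subgroup G) [N.Normal] (hN : N ≠ ⊤) {θ : N → Ω}
    (hθ : θ ∈ irr Ω N) (hθo : Odd (dg θ))
    (h1 : ∀ σ ∈ Γ, Fixes σ ρ → ∀ n, σ (θ n) = θ n)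
    (h2 : ∀ γ ∈ Γ, (∀ g, γ (ρ.character g) = ρ.character g⁻¹) → ∀ n, γ (θ n) = θ n⁻¹)
    (hnf : ∃ σ ∈ Γ, ∃ n, σ (θ n) ≠ θ n) (hsub : ∀ H : Subgroup G, H ≠ ⊤ → PropB c m H)
    (hγ : ∃ γ ∈ Γ, ∀ g, γ (ρ.character g) = ρ.character g⁻¹) {d : Ω} (hd : d ≠ 0)
    (hσ : ∀ σ ∈ Γ, σ d = if Fixes σ ρ then d else - d) : InV c Γ (c.av d) := by
  classical
  rw [mem_irr] at hθ
  obtain ⟨n, τ, hτ, hτc⟩ := hθ
  have hodd : Odd n := by
    have h := dg_char τ
    rw [hτc] at h
    rw [h] at hθo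
    simpa using hθo
  have hd2 : d ≠ -d := by
    intro h
    apply hd
    have h3 : (2 : Ω) * d = 0 := by linear_combination h
    rcases mul_eq_zero.1 h3 with h4 | h4
    · exact absurd h4 two_ne_zero
    · exact h4
  have hfix : ∀ σ ∈ Γ, (Fixes σ ρ ↔ Fixes σ τ) := by
    intro σ hσΓ
    constructor
    · intro hf x
      rw [hτc]
      exact h1 σ hσΓ hf x
    · intro hf
      by_contra hcon
      obtain ⟨σ₀, hσ₀, x, hx⟩ := hnf
      have h3 : ¬ Fixes σ₀ ρ := fun h => hx (h1 σ₀ hσ₀ h x)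
      have h4 : σ₀ d = -d := by rw [hσ σ₀ hσ₀, if_neg h3]
      have h5 : σ d = -d := by rw [hσ σ hσΓ, if_neg hcon]
      have h6 : (σ₀ * σ) d = d := by
        rw [RingAut.mul_apply, h5, map_neg, h4, neg_neg]
      have h7 : Fixes (σ₀ * σ) ρ := by
        by_contra h8
        have h9 := hσ (σ₀ * σ) (Γ.mul_mem hσ₀ hσΓ)
        rw [if_neg h8, h6] at h9
        exact hd2 h9
      have h8 := h1 (σ₀ * σ) (Γ.mul_mem hσ₀ hσΓ) h7 x
      have h9 := hf x
      rw [hτc] at h9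
      rw [RingAut.mul_apply, h9] at h8
      exact hx h8
  obtain ⟨γ, hγΓ, hγρ⟩ := hγ
  refine hsub N hN Γ hΓ n τ hτ hodd ⟨γ, hγΓ, fun x => ?_⟩ d hd (fun σ hσΓ => ?_)
  · rw [hτc]
    exact h2 γ hγΓ hγρ x
  · rw [hσ σ hσΓ]
    by_cases hf : Fixes σ ρ
    · rw [if_pos hf, if_pos ((hfix σ hσΓ).1 hf)]
    · rw [if_neg hf, if_neg (fun h => hf ((hfix σ hσΓ).2 h))]

open Classical in
/-- `θ` invariant in `G` and `Γ`-fixed: tensor decomposition and (B) for `G ⧸ M`,
`M = ker (det θ)` (if `|N| > 2` then `M ≠ ⊥`) -/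
theorem propB_tensor (hΓ : Ok c m Γ) {ρ : Representation Ω G V} (hρ : ρ.IsIrreducible)
    (hodd : Odd (Module.finrank Ω V)) (N : Subgroup G) [N.Normal] (hN : 2 < Nat.card N)
    {θ : N → Ω} (hθ : θ ∈ irr Ω N) (hθo : Odd (dg θ)) (hmul : mul (rs N ρ).character θ ≠ 0)
    (hT : ∀ g : G, cj N g θ = θ) (hf : ∀ σ ∈ Γ, ∀ n, σ (θ n) = θ n) (hsd : du θ = θ)
    (hquot : ∀ (M : Subgroup G) [M.Normal], M ≠ ⊥ → PropB c m (G ⧸ M))
    (hγ : ∃ γ ∈ Γ, ∀ g, γ (ρ.character g) = ρ.character g⁻¹) {d : Ω} (hd : d ≠ 0)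
    (hσ : ∀ σ ∈ Γ, σ d = if Fixes σ ρ then d else - d) : InV c Γ (c.av d) := by
  classical
  haveI := Fintype.ofFinite N
  have hone : act (rs N ρ) (es θ) = 1 := by
    have h := clifford_one N hρ (O := {θ})
      (by
        intro φ hφ
        rw [Finset.mem_singleton] at hφ
        rw [hφ]
        exact hθ)
      (by
        intro g φ hφ
        rw [Finset.mem_singleton] at hφ ⊢
        rw [hφ]
        exact hT g)
      ⟨θ, Finset.mem_singleton_self θ, hmul⟩
    rwa [Finset.sum_singleton] at h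
  have hθ' := hθ
  rw [mem_irr] at hθ'
  obtain ⟨a, τ, hτ, hτc⟩ := hθ'
  have ha : Odd a := by
    have h := dg_char τ
    rw [hτc] at h
    rw [h] at hθo
    simpa using hθo
  have hSDτ : SD τ := by
    intro x
    rw [hτc]
    exact congrFun hsd x
  have hOτ : Orth τ := orth_of_odd hτ hSDτ (by simpa using ha)
  obtain ⟨S, hS1, hSO, hSdet, hS2, hS3⟩ := canonical_extension N ha hτ hSDτ
    (fun g => by rw [hτc]; exact hT g)
  have hSF : FxC Γ S := hS3 Γ (fun x σ hσΓ => by rw [hτc]; exact hf σ hσΓ x)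
  obtain ⟨b, β, hβ, hdim, hβN, hc1, hc2, -⟩ := tensor_decomposition N ha hτ hOτ hS1 hSO hρ
    (by rw [hτc]; exact hone)
  have hdet : ∀ n : N, LinearMap.det (τ n) = 1 ∨ LinearMap.det (τ n) = -1 :=
    fun n => det_orth hOτ n
  have hb : Odd b := by
    rw [hdim, Nat.odd_mul] at hodd
    exact hodd.2
  -- the kernel of the determinant
  have hdconj : ∀ (g : G) (n : N),
      LinearMap.det (τ (MulAut.conjNormal g n)) = LinearMap.det (τ n) := by
    intro g n
    have h := congrArg LinearMap.det (hS2 g n)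
    rw [map_mul, map_mul, hSdet, one_mul, mul_one] at h
    exact h.symm
  set f : N →* Ω := (LinearMap.det : Module.End Ω (Fin a → Ω) →* Ω).comp τ with hfdef
  have hfn : ∀ n : N, f n = LinearMap.det (τ n) := fun n => rfl
  set M : Subgroup G := f.ker.map N.subtype with hM
  have hMmem : ∀ g, g ∈ M ↔ ∃ n : N, LinearMap.det (τ n) = 1 ∧ (n : G) = g := by
    intro g
    rw [hM, Subgroup.mem_map]
    constructor
    · rintro ⟨n, hn, rfl⟩
      exact ⟨n, hn, rfl⟩
    · rintro ⟨n, hn, rfl⟩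
      exact ⟨n, hn, rfl⟩
  haveI hMn : M.Normal := by
    refine ⟨fun x hx g => ?_⟩
    rw [hMmem] at hx ⊢
    obtain ⟨n, hn, rfl⟩ := hx
    exact ⟨MulAut.conjNormal g n, by rw [hdconj, hn], MulAut.conjNormal_apply g n⟩
  have hMbot : M ≠ ⊥ := by
    intro hbot
    have hinj : Function.Injective f := by
      rw [← MonoidHom.ker_eq_bot_iff]
      rw [hM, Subgroup.map_eq_bot_iff_of_injective _ N.subtype_injective] at hbot
      exact hbot
    have hcard : Nat.card N ≤ 2 := by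
      have h3 : Set.range f ⊆ {1, -1} := by
        rintro _ ⟨n, rfl⟩
        rcases hdet n with h | h
        · exact Or.inl h
        · exact Or.inr h
      calc Nat.card N = Nat.card (Set.range f) :=
            Nat.card_congr (Equiv.ofInjective f hinj)
        _ = (Set.range f).ncard := Nat.card_coe_set_eq _
        _ ≤ ({1, -1} : Set Ω).ncard := Set.ncard_le_ncard h3 (Set.toFinite _)
        _ ≤ 2 := by
            refine (Set.ncard_insert_le 1 ({-1} : Set Ω)).trans ?_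
            rw [Set.ncard_singleton]
    omega
  obtain ⟨γ, hγΓ, hγρ⟩ := hγ
  refine propB_of_quot M (hquot M hMbot) hΓ hβ (by simpa using hb) ?_
    ⟨γ, hγΓ, fun g => ?_⟩ hd (fun σ hσΓ => ?_)
  · intro x hx
    obtain ⟨n, hn, rfl⟩ := (hMmem x).1 hx
    rw [hβN, hn, one_smul]
  · exact conj_fixes N hdet (sd_of_orth hSO) (fun g => hc2 g) (fun g => hSF g γ hγΓ) hγρ g
  · have hiff : Fixes σ ρ ↔ Fixes σ β :=
      fixes_iff N hdet hc1 (fun g => hc2 g) (fun g => hSF g σ hσΓ)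
    rw [hσ σ hσΓ]
    by_cases hf' : Fixes σ ρ
    · rw [if_pos hf', if_pos (hiff.1 hf')]
    · rw [if_neg hf', if_neg (fun h => hf' (hiff.2 h))]

end

end Parker
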