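import Pool.Agent.Parker.Defs
import Pool.Agent.Parker.P01
import Pool.Agent.Parker.P08
import Pool.Agent.Parker.P13
import Pool.Agent.Parker.P24
import Pool.Agent.Parker.P25
import Pool.Agent.Parker.P26
import Pool.Agent.Parker.P27

/-!
# MP_6c3636_al, module P28: Claim B (helper7)
-/

namespace Parker

universe u v

noncomputable section

variable {Ω : Type} [Field Ω] [IsAlgClosed Ω] [CharZero Ω] {G : Type u} [Group G] [Finite G]
  {c : Ctx Ω} {m : ℕ}

/-- a representation of odd dimension is trivial on a central subgroup of order two on which every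
homomorphism to `Ωˣ` is trivial -/
private theorem trivial_central (Z : Subgroup G) (hZ : Nat.card Z = 2)
    (hZc : ∀ z ∈ Z, ∀ g, g * z = z * g) (hτ : ∀ (τ : G →* Ωˣ), ∀ z ∈ Z, τ z = 1)
    {n : ℕ} {ρ : Representation Ω G (Fin n → Ω)} (hρ : ρ.IsIrreducible) (hodd : Odd n) :
    ∀ z ∈ Z, ρ z = 1 := by
  intro z hz
  obtain ⟨a, ha⟩ := schur hρ (T := ρ z) (fun g => by
    rw [← map_mul, ← map_mul, hZc z hz g])
  have hz2 : z ^ 2 = 1 := by
    have h := pow_card_eq_one' (x := (⟨z, hz⟩ : Z))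
    rw [hZ] at h
    exact congrArg Subtype.val h
  have hn : 0 < n := hodd.pos
  have ha2 : a ^ 2 = 1 := by
    have h1 : ρ z ^ 2 = 1 := by rw [← map_pow, hz2, map_one]
    rw [ha, smul_pow, one_pow] at h1
    have h2 := congrArg (fun f : Module.End Ω (Fin n → Ω) => f (fun _ => 1) ⟨0, hn⟩) h1
    simpa using h2
  have hdet : a ^ n = 1 := by
    have h1 := hτ (MonoidHom.toHomUnits (LinearMap.det.comp ρ)) z hz
    have h2 := congrArg (fun u : Ωˣ => (u : Ω)) h1
    simp only [MonoidHom.coe_toHomUnits, MonoidHom.coe_comp, Function.comp_apply,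
      Units.val_one] at h2
    rw [ha, LinearMap.det_smul, map_one, mul_one, Module.finrank_fin_fun] at h2
    exact h2
  obtain ⟨k, rfl⟩ := hodd
  have ha1 : a = 1 := by
    rw [pow_succ, pow_mul, ha2, one_pow, one_mul] at hdet
    exact hdet
  rw [ha, ha1, one_smul]

/-- Claim B -/
theorem claimB (hm : m ≠ 0) (hG : Nat.card G ∣ m)
    (hsimple : IsSimpleGroup G → ¬ (∀ x y : G, x * y = y * x) → PropB c m G)
    (hsub : ∀ H : Subgroup G, H ≠ ⊤ → PropB c m H)
    (hquot : ∀ (M : Subgroup G) [M.Normal], M ≠ ⊥ → PropB c m (G ⧸ M)) : PropB c m G := by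
  classical
  by_cases hbig : ∃ N : Subgroup G, N.Normal ∧ N ≠ ⊤ ∧ 2 < Nat.card N
  · obtain ⟨N, hNn, hNt, hNc⟩ := hbig
    intro Γ hΓ n ρ hρ hodd hγ d hd hσ
    have hodd' : Odd (Module.finrank Ω (Fin n → Ω)) := by
      rw [Module.finrank_fin_fun]
      exact hodd
    obtain ⟨θ, hθ, hmul, hθo, h1, h2⟩ := exists_theta hΓ hm hG hρ hodd' N
    by_cases hT : ∃ g : G, cj N g θ ≠ θ
    · exact propB_inertia hΓ hρ hodd' N hθ hmul h1 h2 hT hsub hγ hd hσ
    · by_cases hnf : ∃ σ ∈ Γ, ∃ x, σ (θ x) ≠ θ x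
      · exact propB_normal hΓ hρ N hNt hθ hθo h1 h2 hnf hsub hγ hd hσ
      · have hT' : ∀ g : G, cj N g θ = θ := fun g => by
          by_contra h
          exact hT ⟨g, h⟩
        have hf : ∀ σ ∈ Γ, ∀ x, σ (θ x) = θ x := fun σ hs x => by
          by_contra h
          exact hnf ⟨σ, hs, x, h⟩
        have hsd : du θ = θ := by
          obtain ⟨γ, hγm, hγe⟩ := hγ
          funext x
          have h3 := h2 γ hγm hγe x
          rw [hf γ hγm x] at h3
          exact h3.symm
        exact propB_tensor hΓ hρ hodd' N hNc hθ hθo hmul hT' hf hsd hquot hγ hd hσ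
  · have hsmall : ∀ (N : Subgroup G) [N.Normal], N ≠ ⊤ → Nat.card N ≤ 2 := by
      intro N hNn hNt
      by_contra h
      exact hbig ⟨N, hNn, hNt, not_le.mp h⟩
    rcases structure_small.{u, 0} hsmall with hc | ⟨hs, hnc⟩ | ⟨Z, hZn, hZ, hZc, -, -, hτ⟩
    · intro Γ hΓ n ρ hρ hodd hγ d hd hσ
      exact propB_linear hΓ (finrank_of_comm hc hρ) hγ hd hσ
    · exact hsimple hs hnc
    · intro Γ hΓ n ρ hρ hodd hγ d hd hσ
      have hodd' : Odd (Module.finrank Ω (Fin n → Ω)) := by
        rw [Module.finrank_fin_fun]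
        exact hodd
      have hZb : Z ≠ ⊥ := by
        rintro rfl
        rw [Subgroup.card_bot] at hZ
        exact absurd hZ (by norm_num)
      exact propB_of_quot Z (hquot Z hZb) hΓ hρ hodd'
        (trivial_central Z hZ hZc (fun τ => hτ Ωˣ τ) hρ hodd) hγ hd hσ

end

end Parker
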