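import Pool.Agent.Parker.Defs
import Pool.Agent.Parker.P02
import Pool.Agent.Parker.P05
import Pool.Agent.Parker.P13
import Pool.Agent.Parker.P25
import Pool.Agent.Parker.P28

/-!
# MP_6c3636_al, module P29: the reduction theorem (helper7)
-/

namespace Parker

universe u v w

noncomputable section

variable {Ω : Type} [Field Ω] [IsAlgClosed Ω] [CharZero Ω] {c : Ctx Ω} {m : ℕ}

namespace P29_aux

omit [IsAlgClosed Ω] [CharZero Ω] in
/-- the action on the `m`-th roots of unity, as a homomorphism to a finite commutative group -/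
theorem exists_chi (Ω : Type) [Field Ω] {m : ℕ} (hm : m ≠ 0) :
    ∃ (C : Type) (_ : CommGroup C) (_ : Finite C) (χ : RingAut Ω →* C),
      ∀ σ, χ σ = 1 → ∀ ζ : Ω, ζ ^ m = 1 → σ ζ = ζ := by
  have : NeZero m := ⟨hm⟩
  have hne : NeZero (Nat.card {x // x ∈ rootsOfUnity m Ω}) := ⟨Nat.card_pos.ne'⟩
  refine ⟨(ZMod (Nat.card {x // x ∈ rootsOfUnity m Ω}))ˣ, inferInstance, inferInstance,
    modularCyclotomicCharacter' Ω m, ?_⟩
  intro σ h1 ζ hζ
  have hζ0 : ζ ≠ 0 := by
    rintro rfl
    rw [zero_pow hm] at hζ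
    exact zero_ne_one hζ
  have hmem : Units.mk0 ζ hζ0 ∈ rootsOfUnity m Ω := by
    rw [mem_rootsOfUnity]; ext; simpa using hζ
  have h2 := modularCyclotomicCharacter'.spec' Ω σ (n := m) hmem
  rw [h1, Units.val_mk0] at h2
  rw [h2]
  by_cases h3 : Nat.card {x // x ∈ rootsOfUnity m Ω} = 1
  · have h4 : (Units.mk0 ζ hζ0 : Ωˣ) = 1 := by
      have h5 := (Nat.card_eq_one_iff_unique.mp h3).1
      have h6 : (⟨Units.mk0 ζ hζ0, hmem⟩ :
          {x // x ∈ rootsOfUnity m Ω}) = ⟨1, one_mem _⟩ := Subsingleton.elim _ _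
      exact congrArg Subtype.val h6
    have h7 : ζ = 1 := by
      have := congrArg Units.val h4
      simpa using this
    simp [h7]
  · have h4 : 1 < Nat.card {x // x ∈ rootsOfUnity m Ω} := by
      have := Nat.card_pos (α := {x // x ∈ rootsOfUnity m Ω})
      omega
    have : Fact (1 < Nat.card {x // x ∈ rootsOfUnity m Ω}) := ⟨h4⟩
    rw [Units.val_one, ZMod.val_one]
    simp

omit [IsAlgClosed Ω] [CharZero Ω] in
/-- a subgroup of odd index acting through a `2`-group on the `m`-th roots of unity -/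
theorem exists_two {Γ : Subgroup (RingAut Ω)} (hΓ : Ok c 1 Γ) (hm : m ≠ 0) :
    ∃ Γ' ≤ Γ, Odd (Γ'.relIndex Γ) ∧ Ok c m Γ' ∧ ∃ b : ℕ, Odd b ∧ ∀ σ ∈ Γ, σ ^ b ∈ Γ' := by
  obtain ⟨C, _, _, χ, hχ⟩ := exists_chi Ω hm
  obtain ⟨P⟩ : Nonempty (Sylow 2 C) := inferInstance
  have hP : Odd (P : Subgroup C).index := by
    rw [← Nat.not_even_iff_odd, even_iff_two_dvd]
    exact P.not_dvd_index
  refine ⟨Γ ⊓ (P : Subgroup C).comap χ, inf_le_left, ?_, ⟨fun σ hσ x => hΓ.pres σ hσ.1 x, ?_⟩,
    (P : Subgroup C).index, hP, fun σ hσ => ⟨Γ.pow_mem hσ _, ?_⟩⟩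
  · rw [Subgroup.inf_relIndex_left, Subgroup.relIndex_comap]
    exact Odd.of_dvd_nat hP (Subgroup.relIndex_dvd_index_of_normal _ _)
  · rintro σ ⟨-, hσ⟩
    obtain ⟨j, hj⟩ := P.2 ⟨χ σ, hσ⟩
    refine ⟨j, hχ _ ?_⟩
    rw [map_pow]
    exact congrArg Subtype.val hj
  · change χ (σ ^ _) ∈ (P : Subgroup C)
    rw [map_pow]
    exact Subgroup.pow_index_mem _ _

/-- a group onto which a subgroup of `G` maps -/
theorem onSimple_apply {P : ∀ (S : Type u) [Group S] [Finite S], Prop}
    (hP : ∀ (S S' : Type u) [Group S] [Finite S] [Group S'] [Finite S'], S ≃* S' → P S → P S')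
    {G : Type u} [Group G] [Finite G] (h : OnSimple P G) {S : Type u} [Group S] [Finite S]
    (hS : IsSimpleGroup S) (hn : ¬ ∀ x y : S, x * y = y * x) (K : Subgroup G) (φ : K →* S)
    (hφ : Function.Surjective φ) : P S := by
  set e := QuotientGroup.quotientKerEquivOfSurjective φ hφ with he
  refine hP _ _ e (h K φ.ker (e.isSimpleGroup) ?_)
  intro hc
  apply hn
  intro x y
  have := hc (e.symm x) (e.symm y)
  have h2 := congrArg e this
  simpa using h2

end P29_aux

/-- a weaker condition on the automorphism groups gives a stronger property -/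
theorem propA_mono {G : Type u} [Group G] [Finite G] (h : PropA c 1 G) : PropA c m G :=
  fun Γ hΓ => h Γ (ok_one hΓ)

theorem propB_mono {G : Type u} [Group G] [Finite G] (h : PropB c 1 G) : PropB c m G :=
  fun Γ hΓ => h Γ (ok_one hΓ)

/-- (L0') -/
theorem propA_one {G : Type u} [Group G] [Finite G] (hm : m ≠ 0) (hG : Nat.card G ∣ m)
    (h : PropA c m G) : PropA c 1 G := by
  intro Γ hΓ n ρ hρ hn hO hF s hs hsk hdet
  obtain ⟨Γ', hle, hodd, hok, -⟩ := P29_aux.exists_two hΓ hm
  have h1 := h Γ' hok n ρ hρ hn hO (fun g σ hσ => hF g σ (hle hσ))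
    s (fun g σ hσ => hs g σ (hle hσ)) hsk hdet
  have h2 : InV c Γ (c.av (LinearMap.det (act ρ s))) :=
    inV_of_fx hdet (det_fx hρ hF ⟨s, hs, rfl⟩)
  exact sqV_odd hΓ hle hodd h1 h2

theorem propB_one {G : Type u} [Group G] [Finite G] (hm : m ≠ 0) (hG : Nat.card G ∣ m)
    (h : PropB c m G) : PropB c 1 G := by
  intro Γ hΓ n ρ hρ hn hγ d hd hσ
  obtain ⟨Γ', hle, hodd, hok, b, hb, hpow⟩ := P29_aux.exists_two hΓ hm
  obtain ⟨γ, hγΓ, hγ⟩ := hγ
  have hγ2 : ∀ (k : ℕ) (g : G), (γ ^ (2 * k)) (ρ.character g) = ρ.character g := by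
    intro k
    induction k with
    | zero => intro g; simp
    | succ k ih =>
      intro g
      rw [mul_add, mul_one, pow_add, pow_two]
      change (γ ^ (2 * k)) (γ (γ (ρ.character g))) = _
      rw [hγ, hγ, inv_inv, ih]
  have hγb : ∀ g, (γ ^ b) (ρ.character g) = ρ.character g⁻¹ := by
    intro g
    obtain ⟨k, rfl⟩ := hb
    rw [pow_add, pow_one]
    change (γ ^ (2 * k)) (γ (ρ.character g)) = _
    rw [hγ, hγ2]
  have h1 := h Γ' hok n ρ hρ hn ⟨γ ^ b, hpow γ hγΓ, hγb⟩ d hd (fun σ hσ' => hσ σ (hle hσ'))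
  refine inV_odd hΓ hle hodd h1 ?_
  rw [← map_pow]
  refine inV_of_fx (pow_ne_zero 2 hd) ?_
  intro σ hσ'
  rw [map_pow, hσ σ hσ']
  split_ifs <;> simp

/-- properties of all nonabelian simple sections pass to subgroups and quotients -/
theorem onSimple_sub {P : ∀ (S : Type u) [Group S] [Finite S], Prop}
    (hP : ∀ (S S' : Type u) [Group S] [Finite S] [Group S'] [Finite S'], S ≃* S' → P S → P S')
    {G : Type u} [Group G] [Finite G] (h : OnSimple P G) (H : Subgroup G) : OnSimple P H := by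
  intro K N _ hS hn
  refine P29_aux.onSimple_apply hP h hS hn (K.map H.subtype)
    ((QuotientGroup.mk' N).comp
      (K.equivMapOfInjective H.subtype H.subtype_injective).symm.toMonoidHom) ?_
  exact (QuotientGroup.mk'_surjective N).comp
    (K.equivMapOfInjective H.subtype H.subtype_injective).symm.surjective

theorem onSimple_quot {P : ∀ (S : Type u) [Group S] [Finite S], Prop}
    (hP : ∀ (S S' : Type u) [Group S] [Finite S] [Group S'] [Finite S'], S ≃* S' → P S → P S')
    {G : Type u} [Group G] [Finite G] (h : OnSimple P G) (N : Subgroup G) [N.Normal] :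
    OnSimple P (G ⧸ N) := by
  intro K M _ hS hn
  refine P29_aux.onSimple_apply hP h hS hn (K.comap (QuotientGroup.mk' N))
    ((QuotientGroup.mk' M).comp ((QuotientGroup.mk' N).subgroupComap K)) ?_
  exact (QuotientGroup.mk'_surjective M).comp
    ((QuotientGroup.mk' N).subgroupComap_surjective_of_surjective K
      (QuotientGroup.mk'_surjective N))

theorem onSimple_self {P : ∀ (S : Type u) [Group S] [Finite S], Prop}
    (hP : ∀ (S S' : Type u) [Group S] [Finite S] [Group S'] [Finite S'], S ≃* S' → P S → P S')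
    {G : Type u} [Group G] [Finite G] (h : OnSimple P G) (hs : IsSimpleGroup G)
    (hn : ¬ ∀ x y : G, x * y = y * x) : P G :=
  P29_aux.onSimple_apply hP h hs hn ⊤ (Subgroup.topEquiv (G := G)).toMonoidHom
    (Subgroup.topEquiv (G := G)).surjective

namespace P29_aux

theorem congr_prop (S S' : Type u) [Group S] [Finite S] [Group S'] [Finite S'] (e : S ≃* S')
    (h : PropA c 1 S ∧ PropB c 1 S) : PropA c 1 S' ∧ PropB c 1 S' :=
  ⟨propA_congr e h.1, propB_congr e h.2⟩

theorem main_aux (hm : m ≠ 0) : ∀ (k : ℕ) (G : Type u) [Group G] [Finite G], Nat.card G = k →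
    Nat.card G ∣ m → OnSimple (fun S _ _ => PropA c 1 S ∧ PropB c 1 S) G →
    PropA c m G ∧ PropB c m G := by
  intro k
  induction k using Nat.strong_induction_on with
  | _ k ih =>
    intro G _ _ hk hG h
    have hsub : ∀ H : Subgroup G, H ≠ ⊤ → PropA c m H ∧ PropB c m H := by
      intro H hH
      refine ih (Nat.card H) ?_ H rfl ((Subgroup.card_subgroup_dvd_card H).trans hG)
        (onSimple_sub congr_prop h H)
      rw [← hk]
      refine lt_of_le_of_ne (Subgroup.card_le_card_group H) fun h1 => hH ?_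
      exact Subgroup.eq_top_of_card_eq H h1
    have hquot : ∀ (M : Subgroup G) [M.Normal], M ≠ ⊥ → PropA c m (G ⧸ M) ∧ PropB c m (G ⧸ M) := by
      intro M _ hM
      refine ih (Nat.card (G ⧸ M)) ?_ (G ⧸ M) rfl
        ((Subgroup.card_quotient_dvd_card M).trans hG) (onSimple_quot congr_prop h M)
      rw [← hk, Subgroup.card_eq_card_quotient_mul_card_subgroup M]
      have h1 : 1 < Nat.card M := by
        rw [Subgroup.one_lt_card_iff_ne_bot]
        exact hM
      have h2 : 0 < Nat.card (G ⧸ M) := Nat.card_pos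
      nlinarith
    have hsimple : IsSimpleGroup G → ¬ (∀ x y : G, x * y = y * x) →
        PropA c 1 G ∧ PropB c 1 G := fun hs hn => onSimple_self congr_prop h hs hn
    exact ⟨claimA hm hG (fun hs hn => propA_mono (hsimple hs hn).1) hsub
        (fun M _ hM => (hquot M hM).1),
      claimB hm hG (fun hs hn => propB_mono (hsimple hs hn).2) (fun H hH => (hsub H hH).2)
        (fun M _ hM => (hquot M hM).2)⟩

end P29_aux

/-- MAIN THEOREM 1: (A) and (B) for all nonabelian simple sections imply (A) and (B) -/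
theorem main_reduction (G : Type u) [Group G] [Finite G]
    (h : OnSimple (fun S _ _ => PropA c 1 S ∧ PropB c 1 S) G) : PropA c 1 G ∧ PropB c 1 G := by
  have hm : Nat.card G ≠ 0 := Nat.card_pos.ne'
  obtain ⟨h1, h2⟩ := P29_aux.main_aux hm (Nat.card G) G rfl dvd_rfl h
  exact ⟨propA_one hm dvd_rfl h1, propB_one hm dvd_rfl h2⟩

/-- solvable groups have no nonabelian simple sections -/
theorem of_solvable (G : Type u) [Group G] [Finite G] [Group.IsSolvable G] :
    PropA c 1 G ∧ PropB c 1 G := by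
  refine main_reduction G ?_
  intro H N _ hS hn
  exact absurd (IsSimpleGroup.comm_iff_isSolvable.mpr inferInstance) hn

end

end Parker
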