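import Pool.Agent.Parker.Defs
import Pool.Agent.Parker.P01
import Pool.Agent.Parker.P02

/-!
# MP_6c3636_al, module N01: value groups do not change under unramified extensions (helper7)

Proof of `inV_unram`. Let `ζ` be a primitive `r`-th root of unity (`HasEnoughRootsOfUnity` or
`IsAlgClosed` and `CharZero`), `x ≠ 0` fixed by `Γ'`, `av x = t`. The orbit `{σ ζ : σ ∈ Γ}` is
finite: a `Finset` (or `Fin d`-indexed family) of `r`-th roots of unity `ζ_j`; choose `σ_j ∈ Γ` with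
`σ_j ζ = ζ_j`. If `σ ζ = τ ζ` with `σ, τ ∈ Γ`, then `τ⁻¹ σ ∈ Γ` fixes `ζ`, hence all `r`-th roots of
unity, hence it is in `Γ'` and `σ x = τ x`. So `x_j := σ_j x` depends only on `ζ_j`. For
`i = 0, ..., d - 1` put `y_i = ∑_j ζ_j ^ i * x_j`. Each `τ ∈ Γ` permutes the `ζ_j` and
`τ x_j = x_l` if `τ ζ_j = ζ_l`, so `y_i` is fixed by `Γ`. All `av y_i ≤ t` (`av x_j = t`).
Vandermonde: `M_{ij} = ζ_j ^ i` has `det M = ∏ (ζ_l - ζ_j)` of absolute value one (`av_sub_root`) and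
entries of absolute value `1`, so by `x = M⁻¹ y` (adjugate: entries of absolute value `≤ 1`)
`t ≤ max_i av y_i`. So some `y_i` has `av y_i = t` and is nonzero.
(Alternative to the matrix: if `av y_i < t` for all `i < d`, use the Lagrange polynomial
`L(X) = ∏_{j ≠ 0} (X - ζ_j) / (ζ_0 - ζ_j) = ∑_{i<d} a_i X^i`, `av a_i ≤ 1`, `L(ζ_j) = δ_{0j}`:
`x_0 = ∑_i a_i y_i`, contradiction.)
-/

namespace Parker

noncomputable section

variable {Ω : Type} [Field Ω] [IsAlgClosed Ω] [CharZero Ω] {c : Ctx Ω}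
  {Γ Γ' : Subgroup (RingAut Ω)}

/-- nonarchimedean estimate for finite sums -/
private theorem n01_sum_le {Ω : Type} [Field Ω] (c : Ctx Ω) {ι : Type*} (S : Finset ι) (f : ι → Ω)
    {M : ℝ} (hM : 0 ≤ M) (h : ∀ i ∈ S, c.av (f i) ≤ M) : c.av (∑ i ∈ S, f i) ≤ M := by
  classical
  induction S using Finset.induction_on with
  | empty => simpa using hM
  | insert a S ha ih =>
    rw [Finset.sum_insert ha]
    exact (c.na _ _).trans (max_le (h a (Finset.mem_insert_self a S))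
      (ih fun i hi => h i (Finset.mem_insert_of_mem hi)))

/-- strict nonarchimedean estimate for finite sums -/
private theorem n01_sum_lt {Ω : Type} [Field Ω] (c : Ctx Ω) {ι : Type*} (S : Finset ι) (f : ι → Ω)
    {M : ℝ} (hM : 0 < M) (h : ∀ i ∈ S, c.av (f i) < M) : c.av (∑ i ∈ S, f i) < M := by
  classical
  induction S using Finset.induction_on with
  | empty => simpa using hM
  | insert a S ha ih =>
    rw [Finset.sum_insert ha]
    exact (c.na _ _).trans_lt (max_lt (h a (Finset.mem_insert_self a S))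
      (ih fun i hi => h i (Finset.mem_insert_of_mem hi)))

/-- the coefficients of `∏ (X - ξ)` have absolute value at most one -/
private theorem n01_coeff {Ω : Type} [Field Ω] (c : Ctx Ω) (S : Finset Ω)
    (h : ∀ ξ ∈ S, c.av ξ ≤ 1) (i : ℕ) :
    c.av ((∏ ξ ∈ S, (Polynomial.X - Polynomial.C ξ)).coeff i) ≤ 1 := by
  classical
  induction S using Finset.induction_on generalizing i with
  | empty =>
    rw [Finset.prod_empty, Polynomial.coeff_one]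
    split_ifs
    · rw [map_one]
    · rw [map_zero]
      exact zero_le_one
  | insert a S ha ih =>
    rw [Finset.prod_insert ha, sub_mul, Polynomial.coeff_sub, Polynomial.coeff_C_mul, sub_eq_add_neg]
    have ih' := ih fun ξ hξ => h ξ (Finset.mem_insert_of_mem hξ)
    refine (c.na _ _).trans (max_le ?_ ?_)
    · cases i with
      | zero =>
        rw [Polynomial.coeff_X_mul_zero, map_zero]
        exact zero_le_one
      | succ i =>
        rw [Polynomial.coeff_X_mul]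
        exact ih' i
    · rw [c.av.map_neg, map_mul]
      exact mul_le_one₀ (h a (Finset.mem_insert_self a S)) (c.av.nonneg _) (ih' i)

theorem inV_unram (hp : ∀ σ ∈ Γ, ∀ x : Ω, c.av (σ x) = c.av x) {r : ℕ} (hr : Odd r)
    (h : ∀ σ ∈ Γ, (∀ ζ : Ω, ζ ^ r = 1 → σ ζ = ζ) → σ ∈ Γ') {t : ℝ} (ht : InV c Γ' t) :
    InV c Γ t := by
  classical
  obtain ⟨x, hx0, hfx, rfl⟩ := ht
  have hr0 : r ≠ 0 := by
    rintro rfl
    exact absurd hr (by decide)
  have : NeZero r := ⟨hr0⟩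
  have : NeZero (r : Ω) := ⟨Nat.cast_ne_zero.2 hr0⟩
  obtain ⟨ζ, hζ⟩ := HasEnoughRootsOfUnity.exists_primitiveRoot Ω r
  have hx : 0 < c.av x := c.av.pos hx0
  -- the orbit of the root of unity
  obtain ⟨O, hO⟩ : ∃ O : Finset Ω, ∀ ξ, ξ ∈ O ↔ ∃ σ ∈ Γ, σ ζ = ξ := by
    refine ⟨(Polynomial.nthRootsFinset r (1 : Ω)).filter (fun ξ => ∃ σ ∈ Γ, σ ζ = ξ), fun ξ => ?_⟩
    rw [Finset.mem_filter, Polynomial.mem_nthRootsFinset (Nat.pos_of_ne_zero hr0)]
    refine ⟨fun h1 => h1.2, fun h1 => ⟨?_, h1⟩⟩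
    obtain ⟨σ, _, rfl⟩ := h1
    rw [← map_pow, hζ.pow_eq_one, map_one]
  have hOr : ∀ ξ ∈ O, ξ ^ r = 1 := by
    intro ξ hξ
    obtain ⟨σ, _, rfl⟩ := (hO ξ).1 hξ
    rw [← map_pow, hζ.pow_eq_one, map_one]
  have hOmem : ∀ σ ∈ Γ, ∀ ξ ∈ O, σ ξ ∈ O := by
    intro σ hσ ξ hξ
    obtain ⟨τ, hτ, rfl⟩ := (hO ξ).1 hξ
    exact (hO _).2 ⟨σ * τ, Γ.mul_mem hσ hτ, RingAut.mul_apply σ τ ζ⟩
  have hζO : ζ ∈ O := (hO ζ).2 ⟨1, Γ.one_mem, RingAut.one_apply ζ⟩
  -- the conjugates of `x`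
  have hchoose : ∀ ξ : Ω, ∃ y : Ω, ∀ σ ∈ Γ, σ ζ = ξ → σ x = y := by
    intro ξ
    by_cases hξ : ∃ σ ∈ Γ, σ ζ = ξ
    · obtain ⟨τ, hτ, hτξ⟩ := hξ
      refine ⟨τ x, fun σ hσ hσξ => ?_⟩
      have h1 : τ⁻¹ * σ ∈ Γ' := by
        refine h _ (Γ.mul_mem (Γ.inv_mem hτ) hσ) fun ζ' hζ' => ?_
        obtain ⟨i, _, rfl⟩ := hζ.eq_pow_of_pow_eq_one hζ'
        rw [map_pow]
        congr 1
        rw [RingAut.mul_apply, hσξ, ← hτξ, ← RingAut.mul_apply, inv_mul_cancel, RingAut.one_apply]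
      have h2 := hfx _ h1
      have h3 : σ = τ * (τ⁻¹ * σ) := by rw [mul_inv_cancel_left]
      rw [h3, RingAut.mul_apply, h2]
    · exact ⟨0, fun σ hσ hσξ => absurd ⟨σ, hσ, hσξ⟩ hξ⟩
  choose g hg using hchoose
  have hgσ : ∀ σ ∈ Γ, g (σ ζ) = σ x := fun σ hσ => (hg _ σ hσ rfl).symm
  have hgζ : g ζ = x := by
    have h1 := hgσ 1 Γ.one_mem
    rwa [RingAut.one_apply, RingAut.one_apply] at h1
  have hgτ : ∀ τ ∈ Γ, ∀ ξ ∈ O, g (τ ξ) = τ (g ξ) := by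
    intro τ hτ ξ hξ
    obtain ⟨σ, hσ, rfl⟩ := (hO ξ).1 hξ
    rw [← RingAut.mul_apply, hgσ _ (Γ.mul_mem hτ hσ), hgσ σ hσ, RingAut.mul_apply]
  have hgav : ∀ ξ ∈ O, c.av (g ξ) = c.av x := by
    intro ξ hξ
    obtain ⟨σ, hσ, rfl⟩ := (hO ξ).1 hξ
    rw [hgσ σ hσ, hp σ hσ]
  -- the fixed elements
  obtain ⟨y, hy⟩ : ∃ y : ℕ → Ω, ∀ i, y i = ∑ ξ ∈ O, ξ ^ i * g ξ := ⟨_, fun i => rfl⟩
  have hyfx : ∀ i, Fx Γ (y i) := by
    intro i τ hτ
    rw [hy, map_sum]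
    refine Finset.sum_nbij' (fun ξ => τ ξ) (fun ξ => τ⁻¹ ξ) (fun ξ hξ => hOmem τ hτ ξ hξ)
      (fun ξ hξ => hOmem τ⁻¹ (Γ.inv_mem hτ) ξ hξ) (fun ξ _ => ?_) (fun ξ _ => ?_)
      (fun ξ hξ => ?_)
    · rw [← RingAut.mul_apply, inv_mul_cancel, RingAut.one_apply]
    · rw [← RingAut.mul_apply, mul_inv_cancel, RingAut.one_apply]
    · rw [map_mul, map_pow, hgτ τ hτ ξ hξ]
  have hyle : ∀ i, c.av (y i) ≤ c.av x := by
    intro i
    rw [hy]
    refine n01_sum_le c O _ hx.le fun ξ hξ => ?_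
    rw [map_mul, map_pow, av_root c hr0 (hOr ξ hξ), one_pow, one_mul, hgav ξ hξ]
  -- interpolation
  obtain ⟨p, hpdef⟩ : ∃ p : Polynomial Ω, p = ∏ ξ ∈ O.erase ζ, (Polynomial.X - Polynomial.C ξ) :=
    ⟨_, rfl⟩
  have hpc : ∀ i, c.av (p.coeff i) ≤ 1 := by
    intro i
    rw [hpdef]
    exact n01_coeff c _ (fun ξ hξ => (av_root c hr0 (hOr ξ (Finset.mem_of_mem_erase hξ))).le) i
  have hpζ : c.av (p.eval ζ) = 1 := by
    rw [hpdef, Polynomial.eval_prod, map_prod]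
    refine Finset.prod_eq_one fun ξ hξ => ?_
    rw [Polynomial.eval_sub, Polynomial.eval_X, Polynomial.eval_C]
    exact av_sub_root c hr hζ.pow_eq_one (hOr ξ (Finset.mem_of_mem_erase hξ))
      (Finset.ne_of_mem_erase hξ).symm
  have hp0 : ∀ ξ ∈ O, ξ ≠ ζ → p.eval ξ = 0 := by
    intro ξ hξ hne
    rw [hpdef, Polynomial.eval_prod]
    refine Finset.prod_eq_zero (Finset.mem_erase.2 ⟨hne, hξ⟩) ?_
    rw [Polynomial.eval_sub, Polynomial.eval_X, Polynomial.eval_C, sub_self]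
  have hsum : ∑ i ∈ Finset.range (p.natDegree + 1), p.coeff i * y i = x * p.eval ζ := by
    have h1 : ∀ i, p.coeff i * y i = ∑ ξ ∈ O, g ξ * (p.coeff i * ξ ^ i) := by
      intro i
      rw [hy, Finset.mul_sum]
      exact Finset.sum_congr rfl fun ξ _ => by ring
    rw [Finset.sum_congr rfl fun i _ => h1 i, Finset.sum_comm]
    have h2 : ∀ ξ, ∑ i ∈ Finset.range (p.natDegree + 1), g ξ * (p.coeff i * ξ ^ i) =
        g ξ * p.eval ξ := by
      intro ξ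
      rw [← Finset.mul_sum, ← Polynomial.eval_eq_sum_range]
    rw [Finset.sum_congr rfl fun ξ _ => h2 ξ, Finset.sum_eq_single_of_mem ζ hζO, hgζ]
    intro ξ hξ hne
    rw [hp0 ξ hξ hne, mul_zero]
  obtain ⟨i, hi⟩ : ∃ i, c.av x ≤ c.av (y i) := by
    by_contra hcon
    push Not at hcon
    have h1 : c.av (∑ i ∈ Finset.range (p.natDegree + 1), p.coeff i * y i) < c.av x := by
      refine n01_sum_lt c _ _ hx fun i _ => ?_
      rw [map_mul]
      calc c.av (p.coeff i) * c.av (y i) ≤ 1 * c.av (y i) :=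
            mul_le_mul_of_nonneg_right (hpc i) (c.av.nonneg _)
        _ = c.av (y i) := one_mul _
        _ < c.av x := hcon i
    rw [hsum, map_mul, hpζ, mul_one] at h1
    exact lt_irrefl _ h1
  have hyi := le_antisymm (hyle i) hi
  refine ⟨y i, ?_, hyfx i, hyi⟩
  intro h0
  rw [h0, map_zero] at hyi
  exact hx.ne hyi

theorem sqV_unram (hp : ∀ σ ∈ Γ, ∀ x : Ω, c.av (σ x) = c.av x) {r : ℕ} (hr : Odd r)
    (h : ∀ σ ∈ Γ, (∀ ζ : Ω, ζ ^ r = 1 → σ ζ = ζ) → σ ∈ Γ') {t : ℝ} (ht : SqV c Γ' t) :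
    SqV c Γ t := by
  obtain ⟨u, hu, rfl⟩ := sqV_iff.1 ht
  exact sqV_iff.2 ⟨u, inV_unram hp hr h hu, rfl⟩

end

end Parker
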