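import Pool.Agent.Parker.Defs
import Pool.Agent.Parker.P01
import Pool.Agent.Parker.P03

/-!
# MP_6c3636_al, module P40: matrix representations, the statement of Parker's conjecture (helper7)
-/

namespace Parker

open Matrix

universe u v w

noncomputable section

variable {G : Type u} [Group G] {K : Type} [Field K] {n : ℕ}

/-- `B` is the Gram matrix of a nondegenerate symmetric bilinear form on `K^n` which is invariant
under the representation `R`. -/
def IsInvGram (R : G →* GL (Fin n) K) (B : Matrix (Fin n) (Fin n) K) : Prop :=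
  B.transpose = B ∧ B.det ≠ 0 ∧
    ∀ g, ((R g : Matrix (Fin n) (Fin n) K)).transpose * B * (R g : Matrix (Fin n) (Fin n) K) = B

/-- `R` is orthogonally stable: all invariant forms have the same determinant modulo squares. -/
def OrthStable (R : G →* GL (Fin n) K) : Prop :=
  ∀ B B' : Matrix (Fin n) (Fin n) K, IsInvGram R B → IsInvGram R B' →
    ∃ c : K, c ≠ 0 ∧ B'.det = B.det * c ^ 2

/-- the representation `R` affords the rational valued function `χ` -/
def Affords (R : G →* GL (Fin n) K) (χ : G → ℚ) : Prop :=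
  ∀ g, (R g : Matrix (Fin n) (Fin n) K).trace = (χ g : K)

/-- Parker's conjecture for the group `G`. -/
def ParkerOdd (G : Type u) [Group G] : Prop :=
  ∀ χ : G → ℚ,
    (∃ (K : Subfield ℝ) (n : ℕ) (R : G →* GL (Fin n) K), Affords R χ ∧ OrthStable R) →
    ∃ a : ℕ, Squarefree a ∧ Odd a ∧
      ∀ (K : Subfield ℝ) (n : ℕ) (R : G →* GL (Fin n) K), Affords R χ →
        ∀ B : Matrix (Fin n) (Fin n) K, IsInvGram R B →
          ∃ c : K, c ≠ 0 ∧ B.det = (a : K) * c ^ 2

/-- the representation on `Fin n → K` -/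
def mrep (R : G →* GL (Fin n) K) : Representation K G (Fin n → K) where
  toFun g := Matrix.toLin' (R g : Matrix (Fin n) (Fin n) K)
  map_one' := by
    rw [map_one, Matrix.GeneralLinearGroup.coe_one, Matrix.toLin'_one]
    rfl
  map_mul' x y := by
    rw [map_mul, Matrix.GeneralLinearGroup.coe_mul, Matrix.toLin'_mul]
    rfl

/-- extension of scalars -/
def mmap {L : Type} [Field L] (f : K →+* L) (R : G →* GL (Fin n) K) : G →* GL (Fin n) L :=
  (Matrix.GeneralLinearGroup.map f).comp R

theorem mrep_char (R : G →* GL (Fin n) K) (g : G) :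
    (mrep R).character g = (R g : Matrix (Fin n) (Fin n) K).trace :=
  Matrix.trace_toLin'_eq (R g : Matrix (Fin n) (Fin n) K)

theorem det_mrep [Finite G] [Fintype G] (R : G →* GL (Fin n) K) (s : G → K) :
    LinearMap.det (act (mrep R) s) =
      (∑ g, s g • (R g : Matrix (Fin n) (Fin n) K)).det := by
  have h1 : (∑ g, s g • mrep R g : Module.End K (Fin n → K)) =
      Matrix.toLin' (∑ g, s g • (R g : Matrix (Fin n) (Fin n) K)) := by
    rw [map_sum]
    refine Finset.sum_congr rfl fun g _ => ?_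
    rw [map_smul]
    rfl
  rw [act_eq, h1, LinearMap.det_toLin']

theorem mmap_affords {L : Type} [Field L] (f : K →+* L) {R : G →* GL (Fin n) K}
    {χ : G → ℚ} [CharZero K] [CharZero L] (h : Affords R χ) : Affords (mmap f R) χ := by
  intro g
  have h1 : (mmap f R g : Matrix (Fin n) (Fin n) L) =
      (R g : Matrix (Fin n) (Fin n) K).map f := rfl
  rw [h1, ← map_ratCast f (χ g), ← h g, Matrix.trace, Matrix.trace, map_sum]
  rfl

theorem mmap_det {L : Type} [Field L] (f : K →+* L) [Fintype G] (R : G →* GL (Fin n) K)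
    (s : G → K) :
    (∑ g, f (s g) • (mmap f R g : Matrix (Fin n) (Fin n) L)).det =
      f (∑ g, s g • (R g : Matrix (Fin n) (Fin n) K)).det := by
  rw [RingHom.map_det, map_sum]
  congr 1
  refine Finset.sum_congr rfl fun g _ => ?_
  ext i j
  have h1 : (mmap f R g : Matrix (Fin n) (Fin n) L) =
      (R g : Matrix (Fin n) (Fin n) K).map f := rfl
  rw [h1]
  simp only [Matrix.smul_apply, Matrix.map_apply, smul_eq_mul, RingHom.mapMatrix_apply, map_mul]

theorem mmap_gram {L : Type} [Field L] (f : K →+* L) {R : G →* GL (Fin n) K}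
    {B : Matrix (Fin n) (Fin n) K} (h : IsInvGram R B) : IsInvGram (mmap f R) (B.map f) := by
  obtain ⟨h1, h2, h3⟩ := h
  refine ⟨?_, ?_, ?_⟩
  · rw [← Matrix.transpose_map, h1]
  · have h4 : (B.map f).det = f B.det := (RingHom.map_det f B).symm
    rw [h4]
    exact (map_ne_zero f).2 h2
  · intro g
    have h5 : (mmap f R g : Matrix (Fin n) (Fin n) L) =
        (R g : Matrix (Fin n) (Fin n) K).map f := rfl
    rw [h5, ← Matrix.transpose_map, ← Matrix.map_mul, ← Matrix.map_mul, h3 g]

/-- an invariant Gram matrix gives an orthogonal representation -/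
theorem orth_of_gram {R : G →* GL (Fin n) K} {B : Matrix (Fin n) (Fin n) K}
    (h : IsInvGram R B) : Orth (mrep R) := by
  obtain ⟨h1, h2, h3⟩ := h
  refine ⟨Matrix.toBilin' B, ?_, ?_, ?_⟩
  · intro x y
    rw [Matrix.toBilin'_apply', Matrix.toBilin'_apply']
    rw [Matrix.dotProduct_mulVec, dotProduct_comm, ← Matrix.mulVec_transpose, h1]
  · intro x hx
    have h4 : ∀ y, (B *ᵥ x) ⬝ᵥ y = 0 := by
      intro y
      have h5 := hx y
      rw [Matrix.toBilin'_apply', Matrix.dotProduct_mulVec, ← Matrix.mulVec_transpose, h1] at h5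
      exact h5
    have h6 : B *ᵥ x = 0 := by
      ext i
      have h7 := h4 (Pi.single i 1)
      rw [dotProduct_single, mul_one] at h7
      exact h7
    exact Matrix.eq_zero_of_mulVec_eq_zero h2 h6
  · intro g x y
    have h8 : ∀ z, mrep R g z = (R g : Matrix (Fin n) (Fin n) K) *ᵥ z := fun z => rfl
    rw [Matrix.toBilin'_apply', Matrix.toBilin'_apply', h8, h8]
    rw [← Matrix.vecMul_transpose, ← Matrix.dotProduct_mulVec, Matrix.mulVec_mulVec,
      Matrix.mulVec_mulVec, h3 g]

/-- over a subfield of `ℝ` there is a positive definite invariant Gram matrix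
(`∑ g, (R g)ᵀ * R g`), with positive determinant -/
theorem exists_pos_gram [Finite G] (K : Subfield ℝ) (R : G →* GL (Fin n) K) :
    ∃ B : Matrix (Fin n) (Fin n) K, IsInvGram R B ∧ 0 < ((B.det : K) : ℝ) ∧
      ∀ x : Fin n → ℝ, x ≠ 0 → 0 < x ⬝ᵥ (B.map (algebraMap K ℝ)).mulVec x := by
  classical
  let _ := Fintype.ofFinite G
  set B : Matrix (Fin n) (Fin n) K :=
    ∑ g : G, ((R g : Matrix (Fin n) (Fin n) K)).transpose * (R g : Matrix (Fin n) (Fin n) K)
    with hB
  have hBs : B.transpose = B := by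
    rw [hB, Matrix.transpose_sum]
    refine Finset.sum_congr rfl fun g _ => ?_
    rw [Matrix.transpose_mul, Matrix.transpose_transpose]
  have hinv : ∀ g, ((R g : Matrix (Fin n) (Fin n) K)).transpose * B *
      (R g : Matrix (Fin n) (Fin n) K) = B := by
    intro g
    rw [hB, Finset.mul_sum, Finset.sum_mul]
    refine Fintype.sum_equiv (Equiv.mulRight g) _ _ fun h => ?_
    rw [Equiv.coe_mulRight, map_mul, Matrix.GeneralLinearGroup.coe_mul, Matrix.transpose_mul]
    simp only [Matrix.mul_assoc]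
  have hmap : B.map (algebraMap K ℝ) = ∑ g : G,
      ((mmap (algebraMap K ℝ) R g : Matrix (Fin n) (Fin n) ℝ)).transpose *
        (mmap (algebraMap K ℝ) R g : Matrix (Fin n) (Fin n) ℝ) := by
    have h1 : B.map (algebraMap K ℝ) = (algebraMap K ℝ).mapMatrix B := rfl
    rw [h1, hB, map_sum]
    refine Finset.sum_congr rfl fun g _ => ?_
    rw [map_mul]
    rfl
  have hpos : ∀ x : Fin n → ℝ, x ≠ 0 → 0 < x ⬝ᵥ (B.map (algebraMap K ℝ)).mulVec x := by
    intro x hx
    rw [hmap, Matrix.sum_mulVec, dotProduct_sum]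
    have hterm : ∀ g : G, x ⬝ᵥ (((mmap (algebraMap K ℝ) R g :
        Matrix (Fin n) (Fin n) ℝ)).transpose *
        (mmap (algebraMap K ℝ) R g : Matrix (Fin n) (Fin n) ℝ)) *ᵥ x =
        ((mmap (algebraMap K ℝ) R g : Matrix (Fin n) (Fin n) ℝ) *ᵥ x) ⬝ᵥ
        ((mmap (algebraMap K ℝ) R g : Matrix (Fin n) (Fin n) ℝ) *ᵥ x) := by
      intro g
      rw [← Matrix.mulVec_mulVec, Matrix.dotProduct_mulVec, Matrix.vecMul_transpose]
    have hnn : ∀ y : Fin n → ℝ, 0 ≤ y ⬝ᵥ y := fun y =>
      Finset.sum_nonneg fun i _ => mul_self_nonneg (y i)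
    refine Finset.sum_pos' (fun g _ => ?_) ⟨1, Finset.mem_univ _, ?_⟩
    · rw [hterm g]
      exact hnn _
    · rw [hterm 1, map_one, Matrix.GeneralLinearGroup.coe_one, Matrix.one_mulVec]
      refine lt_of_le_of_ne (hnn x) fun h => hx ?_
      exact (dotProduct_self_eq_zero.1 h.symm)
  have hpd : (B.map (algebraMap K ℝ)).PosDef := by
    refine Matrix.PosDef.of_dotProduct_mulVec_pos ?_ ?_
    · rw [Matrix.IsHermitian, Matrix.conjTranspose_eq_transpose_of_trivial,
        ← Matrix.transpose_map, hBs]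
    · intro x hx
      rw [star_trivial]
      exact hpos x hx
  have hdet : 0 < ((B.det : K) : ℝ) := by
    have h1 : ((B.det : K) : ℝ) = (B.map (algebraMap K ℝ)).det :=
      RingHom.map_det (algebraMap K ℝ) B
    rw [h1]
    exact hpd.det_pos
  refine ⟨B, ⟨hBs, ?_, hinv⟩, hdet, hpos⟩
  intro h0
  rw [h0] at hdet
  exact lt_irrefl _ hdet

/-- a skew element `s` (rational coefficients) and an invariant Gram matrix:
`det B * det (∑ s g R g)` is a square (`det_skew_sq'`) -/
theorem gram_mul_skew [Fintype G] [CharZero K] (R : G →* GL (Fin n) K)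
    {B : Matrix (Fin n) (Fin n) K} (hB : IsInvGram R B) {s : G → ℚ} (hs : ∀ g, s g⁻¹ = - s g) :
    ∃ a : K, B.det * (∑ g, (s g : K) • (R g : Matrix (Fin n) (Fin n) K)).det = a ^ 2 := by
  obtain ⟨h1, h2, h3⟩ := hB
  refine det_skew_sq' two_ne_zero h1 ?_
  have key : ∀ g, ((R g⁻¹ : Matrix (Fin n) (Fin n) K)).transpose * B =
      B * (R g : Matrix (Fin n) (Fin n) K) := by
    intro g
    have h4 : (R g⁻¹ : Matrix (Fin n) (Fin n) K) * (R g : Matrix (Fin n) (Fin n) K) = 1 := by
      rw [← Matrix.GeneralLinearGroup.coe_mul, ← map_mul, inv_mul_cancel, map_one,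
        Matrix.GeneralLinearGroup.coe_one]
    calc ((R g⁻¹ : Matrix (Fin n) (Fin n) K)).transpose * B
        = ((R g⁻¹ : Matrix (Fin n) (Fin n) K)).transpose * B *
          ((R g⁻¹ : Matrix (Fin n) (Fin n) K) * (R g : Matrix (Fin n) (Fin n) K)) := by
            rw [h4, Matrix.mul_one]
      _ = ((R g⁻¹ : Matrix (Fin n) (Fin n) K)).transpose * B *
          (R g⁻¹ : Matrix (Fin n) (Fin n) K) * (R g : Matrix (Fin n) (Fin n) K) := by
            rw [Matrix.mul_assoc _ (R g⁻¹ : Matrix (Fin n) (Fin n) K)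
              (R g : Matrix (Fin n) (Fin n) K)]
      _ = B * (R g : Matrix (Fin n) (Fin n) K) := by rw [h3 g⁻¹]
  rw [Matrix.transpose_sum, Finset.sum_mul, Finset.mul_sum, ← Finset.sum_neg_distrib]
  refine Fintype.sum_equiv (Equiv.inv G) _ _ fun g => ?_
  rw [Equiv.inv_apply, Matrix.transpose_smul, Matrix.smul_mul, Matrix.mul_smul, key g, hs g,
    Rat.cast_neg, neg_smul, neg_neg]

end

end Parker
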