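import Pool.Agent.Parker.Defs
import Pool.Agent.Parker.P01
import Pool.Agent.Parker.P08
import Pool.Agent.Parker.P09
import Pool.Agent.Parker.P15
import Pool.Agent.Parker.P40

/-!
# MP_6c3636_al, module P41: (6.1), odd self dual constituents over `ℂ` and submodules over `ℝ`
(helper7)
-/

namespace Parker

open Matrix

universe u v w

noncomputable section

variable {G : Type u} [Group G] [Finite G] {n : ℕ}

open ComplexOrder in
private theorem char_conj_aux {V : Type v} [AddCommGroup V] [Module ℂ V] [FiniteDimensional ℂ V]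
    (ρ : Representation ℂ G V) (g : G) :
    ρ.character g⁻¹ = (starRingEnd ℂ) (ρ.character g) := by
  classical
  let _ := Fintype.ofFinite G
  let b := Module.finBasis ℂ V
  let R : G → Matrix (Fin (Module.finrank ℂ V)) (Fin (Module.finrank ℂ V)) ℂ :=
    fun g => LinearMap.toMatrix b b (ρ g)
  have hR1 : R 1 = 1 := by simp [R]
  have hRm : ∀ x y, R (x * y) = R x * R y := by
    intro x y
    simp only [R, map_mul]
    exact LinearMap.toMatrix_mul b (ρ x) (ρ y)
  have hch : ∀ x, ρ.character x = (R x).trace := fun x =>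
    LinearMap.trace_eq_matrix_trace ℂ b (ρ x)
  set B : Matrix (Fin (Module.finrank ℂ V)) (Fin (Module.finrank ℂ V)) ℂ :=
    ∑ h, (R h)ᴴ * R h with hB
  have hBinv : (R g)ᴴ * B * R g = B := by
    rw [hB, Finset.mul_sum, Finset.sum_mul]
    rw [← Equiv.sum_comp (Equiv.mulRight g) (fun h => (R h)ᴴ * R h)]
    refine Finset.sum_congr rfl fun h _ => ?_
    simp only [Equiv.coe_mulRight, hRm, Matrix.conjTranspose_mul]
    simp only [Matrix.mul_assoc]
  have hpd : B.PosDef := by
    rw [hB, ← Finset.add_sum_erase _ _ (Finset.mem_univ (1 : G))]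
    refine Matrix.PosDef.add_posSemidef ?_ ?_
    · rw [hR1]
      simpa using (Matrix.PosDef.one : (1 : Matrix (Fin (Module.finrank ℂ V))
        (Fin (Module.finrank ℂ V)) ℂ).PosDef)
    · exact Matrix.posSemidef_sum _ fun h _ => Matrix.posSemidef_conjTranspose_mul_self _
  have hu : IsUnit B := hpd.isUnit
  have hdet : IsUnit B.det := (Matrix.isUnit_iff_isUnit_det B).mp hu
  have hgg : R g * R g⁻¹ = 1 := by rw [← hRm]; simpa using hR1
  have h1 : B * R g⁻¹ = (R g)ᴴ * B := by
    calc B * R g⁻¹ = ((R g)ᴴ * B * R g) * R g⁻¹ := by rw [hBinv]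
      _ = (R g)ᴴ * B * (R g * R g⁻¹) := by simp only [Matrix.mul_assoc]
      _ = (R g)ᴴ * B := by rw [hgg, Matrix.mul_one]
  have h2 : R g⁻¹ = B⁻¹ * ((R g)ᴴ * B) := by
    rw [← h1, ← Matrix.mul_assoc, Matrix.nonsing_inv_mul B hdet, Matrix.one_mul]
  rw [hch, hch, h2, Matrix.trace_mul_comm, Matrix.mul_assoc, Matrix.mul_nonsing_inv B hdet,
    Matrix.mul_one, Matrix.trace_conjTranspose]
  rfl

/-- over `ℂ`, `χ(g⁻¹)` is the complex conjugate of `χ(g)` -/
theorem char_conj_complex {V : Type v} [AddCommGroup V] [Module ℂ V] [FiniteDimensional ℂ V]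
    (ρ : Representation ℂ G V) (g : G) :
    ρ.character g⁻¹ = (starRingEnd ℂ) (ρ.character g) :=
  char_conj_aux ρ g


namespace P41_aux

section

variable {G : Type u} [Group G] {V : Type v} [AddCommGroup V] [Module ℝ V]
  {ι : Type} [Fintype ι] [DecidableEq ι]

/-- the complex matrix of a real operator -/
def cxm (b : Module.Basis ι ℝ V) : Module.End ℝ V →+* Matrix ι ι ℂ :=
  ((algebraMap ℝ ℂ).mapMatrix).comp (LinearMap.toMatrixAlgEquiv b).toRingEquiv.toRingHom

theorem cxm_apply (b : Module.Basis ι ℝ V) (T : Module.End ℝ V) :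
    cxm b T = (LinearMap.toMatrix b b T).map (algebraMap ℝ ℂ) := rfl

theorem cxm_inj (b : Module.Basis ι ℝ V) : Function.Injective (cxm b) := by
  intro S T h
  rw [cxm_apply, cxm_apply] at h
  have h2 : LinearMap.toMatrix b b S = LinearMap.toMatrix b b T :=
    Matrix.map_injective (algebraMap ℝ ℂ).injective h
  exact (LinearMap.toMatrix b b).injective h2

theorem cxm_smul (b : Module.Basis ι ℝ V) (a : ℝ) (T : Module.End ℝ V) :
    cxm b (a • T) = (a : ℂ) • cxm b T := by
  ext i j
  simp [cxm_apply]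

/-- complexification -/
def cx (b : Module.Basis ι ℝ V) (τ : Representation ℝ G V) : Representation ℂ G (ι → ℂ) where
  toFun g := Matrix.toLin' (cxm b (τ g))
  map_one' := by
    rw [map_one, map_one, Matrix.toLin'_one]
    rfl
  map_mul' x y := by
    rw [map_mul, map_mul, Matrix.toLin'_mul]
    rfl

theorem cx_apply (b : Module.Basis ι ℝ V) (τ : Representation ℝ G V) (g : G) :
    cx b τ g = Matrix.toLin' (cxm b (τ g)) := rfl

theorem act_cx [Finite G] (b : Module.Basis ι ℝ V) (τ : Representation ℝ G V) (s : G → ℝ)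
    (t : G → ℂ) (h : ∀ g, t g = (s g : ℂ)) :
    act (cx b τ) t = Matrix.toLin' (cxm b (act τ s)) := by
  let _ := Fintype.ofFinite G
  rw [act_eq, act_eq, map_sum, map_sum]
  refine Finset.sum_congr rfl fun g _ => ?_
  rw [cx_apply, cxm_smul, h, map_smul]

theorem char_cx (b : Module.Basis ι ℝ V) (τ : Representation ℝ G V) (g : G) :
    (cx b τ).character g = ((τ.character g : ℝ) : ℂ) := by
  have h1 : τ.character g = (LinearMap.toMatrix b b (τ g)).trace :=
    LinearMap.trace_eq_matrix_trace ℝ b (τ g)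
  have h2 : (cx b τ).character g = (cxm b (τ g)).trace := by
    show LinearMap.trace ℂ (ι → ℂ) (Matrix.toLin' (cxm b (τ g))) = _
    exact Matrix.trace_toLin'_eq _
  rw [h1, h2, cxm_apply]
  simp [Matrix.trace]



/-- the commutant -/
def Cm (τ : Representation ℝ G V) : Subalgebra ℝ (Module.End ℝ V) :=
  Subalgebra.centralizer ℝ (Set.range τ)

theorem mem_Cm {τ : Representation ℝ G V} {T : Module.End ℝ V} :
    T ∈ Cm τ ↔ ∀ g, τ g * T = T * τ g := by
  rw [Cm, Subalgebra.mem_centralizer_iff]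
  constructor
  · intro h g
    exact h _ ⟨g, rfl⟩
  · rintro h _ ⟨g, rfl⟩
    exact h g

/-- the commutant is the space of intertwining maps -/
def cmEquiv (τ : Representation ℝ G V) : Cm τ ≃ₗ[ℝ] τ.IntertwiningMap τ where
  toFun T := ⟨T.1, fun g => (mem_Cm.mp T.2 g).symm⟩
  invFun f := ⟨f.toLinearMap, mem_Cm.mpr fun g => (f.isIntertwining' g).symm⟩
  left_inv _ := rfl
  right_inv _ := rfl
  map_add' _ _ := rfl
  map_smul' _ _ := rfl

theorem cm_inj {τ : Representation ℝ G V}
    (hirr : ∀ U : Submodule ℝ V, (∀ g, ∀ x ∈ U, τ g x ∈ U) → U = ⊥ ∨ U = ⊤)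
    {T : Module.End ℝ V} (hT : T ∈ Cm τ) (h0 : T ≠ 0) : Function.Injective T := by
  rw [← LinearMap.ker_eq_bot]
  rcases hirr (LinearMap.ker T) (by
    intro g x hx
    rw [LinearMap.mem_ker] at hx ⊢
    have := congrArg (fun f : Module.End ℝ V => f x) (mem_Cm.mp hT g)
    simp only [Module.End.mul_apply, hx, map_zero] at this
    exact this.symm) with h | h
  · exact h
  · exact absurd (LinearMap.ker_eq_top.mp h) h0

theorem end_dvd [FiniteDimensional ℝ V] [Nontrivial V] (τ : Representation ℝ G V)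
    (hirr : ∀ U : Submodule ℝ V, (∀ g, ∀ x ∈ U, τ g x ∈ U) → U = ⊥ ∨ U = ⊤) :
    Module.finrank ℝ (τ.IntertwiningMap τ) ∣ Module.finrank ℝ V := by
  rw [← (cmEquiv τ).finrank_eq]
  have hnz : NoZeroDivisors (Cm τ) := by
    constructor
    intro S T hST
    by_contra hne
    rw [not_or] at hne
    have hS : (S : Module.End ℝ V) ≠ 0 := fun h => hne.1 (Subtype.ext h)
    have hT : (T : Module.End ℝ V) ≠ 0 := fun h => hne.2 (Subtype.ext h)
    have hSi := cm_inj hirr S.2 hS
    have hTi := cm_inj hirr T.2 hT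
    obtain ⟨x, hx⟩ := exists_ne (0 : V)
    have h1 : (S : Module.End ℝ V) ((T : Module.End ℝ V) x) = 0 := by
      have := congrArg (fun f : Cm τ => (f : Module.End ℝ V) x) hST
      simpa using this
    have h2 : (T : Module.End ℝ V) x = 0 := hSi (by rw [h1, map_zero])
    exact hx (hTi (by rw [h2, map_zero]))
  have hdom : IsDomain (Cm τ) := { hnz with
    toNontrivial := inferInstance
    mul_left_cancel_of_ne_zero := fun {a} ha b c h => by
      have : a * (b - c) = 0 := by rw [mul_sub, sub_eq_zero]; exact h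
      rcases hnz.eq_zero_or_eq_zero_of_mul_eq_zero this with h' | h'
      · exact absurd h' ha
      · exact sub_eq_zero.mp h'
    mul_right_cancel_of_ne_zero := fun {a} ha b c h => by
      have : (b - c) * a = 0 := by rw [sub_mul, sub_eq_zero]; exact h
      rcases hnz.eq_zero_or_eq_zero_of_mul_eq_zero this with h' | h'
      · exact sub_eq_zero.mp h'
      · exact absurd h' ha }
  let hd := divisionRingOfFiniteDimensional ℝ (Cm τ)
  have hfree : Module.Free (Cm τ) V := @Module.Free.of_divisionRing (Cm τ) V hd _ _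
  exact Module.finrank_dvd_finrank_right ℝ (Cm τ) V

theorem odd_sub [Finite G] [FiniteDimensional ℝ V] (b : Module.Basis ι ℝ V)
    (ρ : Representation ℝ G V) (h : ¬ NoOdd (cx b ρ)) :
    ∃ W : Subrepresentation ρ, Odd (Module.finrank ℝ W.toSubmodule) := by
  classical
  let _ := Fintype.ofFinite G
  simp only [NoOdd, not_forall, not_not] at h
  obtain ⟨U, hU, hodd, hsd⟩ := h
  obtain ⟨hφ, hmul⟩ := mul_ne_of_sub U hU
  have hdg : dg U.toRepresentation.character = Module.finrank ℂ U.toSubmodule := dg_char _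
  have hreal : ∀ g, (starRingEnd ℂ) (U.toRepresentation.character g) =
      U.toRepresentation.character g := by
    intro g
    rw [← char_conj_complex]
    exact hsd g
  generalize U.toRepresentation.character = φ at hφ hmul hdg hreal
  rw [← hdg] at hodd
  clear hsd hdg hU
  -- the real coefficients of the central idempotent
  obtain ⟨e, he⟩ : ∃ e : G → ℝ, ∀ g, es φ g = (e g : ℂ) := by
    refine ⟨fun g => (es φ g).re, fun g => ?_⟩
    refine (Complex.conj_eq_iff_re.mp ?_).symm
    simp only [es, map_mul, map_inv₀, map_natCast, hreal]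
  have hPact := act_cx b ρ e (es φ) he
  obtain ⟨P, hP⟩ : ∃ P, P = act ρ e := ⟨_, rfl⟩
  rw [← hP] at hPact
  have hP0 : P ≠ 0 := by
    intro h0
    have := (idem_ne_zero_iff (cx b ρ) hφ).mpr hmul
    rw [hPact, h0, map_zero, map_zero] at this
    exact this rfl
  have hPP : P * P = P := by
    apply cxm_inj b
    apply (Matrix.toLin' : Matrix ι ι ℂ ≃ₗ[ℂ] _).injective
    rw [map_mul (cxm b), Matrix.toLin'_mul, ← hPact]
    exact idem_idem (cx b ρ) hφ
  have hPc : ∀ g, ρ g * P = P * ρ g := by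
    intro g
    apply cxm_inj b
    apply (Matrix.toLin' : Matrix ι ι ℂ ≃ₗ[ℂ] _).injective
    rw [map_mul (cxm b), map_mul (cxm b), Matrix.toLin'_mul, Matrix.toLin'_mul, ← hPact]
    exact idem_comm (cx b ρ) hφ g
  -- the minimal subrepresentation of the range of `P`
  have hex : ∃ k : ℕ, ∃ W : Subrepresentation ρ, W.toSubmodule ≠ ⊥ ∧
      W.toSubmodule ≤ LinearMap.range P ∧ Module.finrank ℝ W.toSubmodule = k := by
    refine ⟨_, ⟨LinearMap.range P, ?_⟩, ?_, le_refl _, rfl⟩
    · rintro g _ ⟨v, rfl⟩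
      refine ⟨ρ g v, ?_⟩
      have := congrArg (fun f : Module.End ℝ V => f v) (hPc g)
      simpa using this.symm
    · intro h0
      exact hP0 (LinearMap.range_eq_bot.mp h0)
  obtain ⟨W, hW0, hWP, hWk⟩ := Nat.find_spec hex
  have hmin : ∀ W' : Subrepresentation ρ, W'.toSubmodule ≠ ⊥ →
      W'.toSubmodule ≤ LinearMap.range P →
      Module.finrank ℝ W.toSubmodule ≤ Module.finrank ℝ W'.toSubmodule := by
    intro W' h1 h2
    rw [hWk]
    exact Nat.find_min' hex ⟨W', h1, h2, rfl⟩
  clear hWk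
  refine ⟨W, ?_⟩
  have hnt : Nontrivial W.toSubmodule := Submodule.nontrivial_iff_ne_bot.mpr hW0
  have hirr : ∀ X : Submodule ℝ W.toSubmodule,
      (∀ g, ∀ x ∈ X, W.toRepresentation g x ∈ X) → X = ⊥ ∨ X = ⊤ := by
    intro X hX
    by_cases hX0 : X = ⊥
    · exact Or.inl hX0
    right
    let W' : Subrepresentation ρ := ⟨X.map W.toSubmodule.subtype, by
      rintro g _ ⟨x, hx, rfl⟩
      exact ⟨W.toRepresentation g x, hX g x hx, rfl⟩⟩
    have h1 : W'.toSubmodule ≠ ⊥ := by
      intro h0
      apply hX0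
      refine Submodule.map_injective_of_injective W.toSubmodule.injective_subtype ?_
      rw [Submodule.map_bot]
      exact h0
    have h2 : W'.toSubmodule ≤ W.toSubmodule := by
      rintro _ ⟨x, _, rfl⟩
      exact x.2
    have h3 := hmin W' h1 (h2.trans hWP)
    have h4 : Module.finrank ℝ W'.toSubmodule = Module.finrank ℝ X :=
      (X.equivMapOfInjective _ W.toSubmodule.injective_subtype).finrank_eq.symm
    rw [h4] at h3
    exact Submodule.eq_top_of_finrank_eq (le_antisymm (Submodule.finrank_le X) h3)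
  obtain ⟨τ, hτ⟩ : ∃ τ, τ = W.toRepresentation := ⟨_, rfl⟩
  rw [← hτ] at hirr
  have hdvd := end_dvd τ hirr
  have hact : act τ e = 1 := by
    rw [act_eq]
    ext x
    have hx : P (x : V) = x := by
      obtain ⟨y, hy⟩ := hWP x.2
      rw [← hy]
      exact congrArg (fun f : Module.End ℝ V => f y) hPP
    rw [hP, act_eq] at hx
    have : (((∑ g, e g • τ g) x : W.toSubmodule) : V) = (∑ g, e g • ρ g) (x : V) := by
      rw [hτ]
      simp only [LinearMap.sum_apply, LinearMap.smul_apply]
      rw [AddSubmonoidClass.coe_finsetSum]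
      rfl
    rw [this, hx]
    rfl
  let bW := Module.finBasis ℝ W.toSubmodule
  have hactC : act (cx bW τ) (es φ) = 1 := by
    rw [act_cx bW τ e (es φ) he, hact, map_one, Matrix.toLin'_one]
    rfl
  obtain ⟨m, hm⟩ : ∃ m, m = mul (cx bW τ).character φ := ⟨_, rfl⟩
  have hz : ∀ ψ ∈ irr ℂ G, ψ ≠ φ → mul (cx bW τ).character ψ = 0 := by
    intro ψ hψ hne
    by_contra hc
    refine (idem_ne_zero_iff (cx bW τ) hψ).mpr hc ?_
    have := idem_orth (cx bW τ) hψ hφ hne
    rwa [hactC, mul_one] at this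
  have hchar : ∀ g, (cx bW τ).character g = (m : ℂ) * φ g := by
    intro g
    have := congrFun (char_eq_sum (cx bW τ)) g
    rw [this, Finset.sum_apply, Finset.sum_eq_single φ]
    · rw [hm]
      rfl
    · intro ψ hψ hne
      rw [hz ψ hψ hne]
      simp
    · intro hn
      exact absurd hφ hn
  have hrank : Module.finrank ℝ W.toSubmodule = m * dg φ := by
    have h1 := finrank_eq_sum (cx bW τ)
    rw [Finset.sum_eq_single φ (fun ψ hψ hne => by rw [hz ψ hψ hne, zero_mul])
      (fun hn => absurd hφ hn), ← hm] at h1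
    simpa using h1
  have hfin : Module.finrank ℝ (τ.IntertwiningMap τ) = m ^ 2 := by
    have hcard : (Nat.card G : ℝ) ≠ 0 := by
      exact_mod_cast Nat.card_pos.ne'
    let _ : Invertible (Nat.card G : ℝ) := invertibleOfNonzero hcard
    have h1 := Representation.card_inv_mul_sum_char_mul_char_eq_finrank τ τ
    have h2 := ip_irr hφ hφ
    rw [if_pos rfl, ip_eq] at h2
    have h3 : (((Nat.card G : ℝ)⁻¹ * ∑ g : G, τ.character g * τ.character g⁻¹ : ℝ) : ℂ) =
        (m : ℂ) ^ 2 := by
      push_cast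
      have : ∀ g, ((τ.character g : ℝ) : ℂ) * ((τ.character g⁻¹ : ℝ) : ℂ) =
          (m : ℂ) ^ 2 * (φ g * φ g⁻¹) := by
        intro g
        rw [← char_cx bW, ← char_cx bW, hchar, hchar]
        ring
      simp_rw [this]
      rw [← Finset.mul_sum]
      calc (Nat.card G : ℂ)⁻¹ * ((m : ℂ) ^ 2 * ∑ g, φ g * φ g⁻¹)
          = (m : ℂ) ^ 2 * ((Nat.card G : ℂ)⁻¹ * ∑ g, φ g * φ g⁻¹) := by ring
        _ = (m : ℂ) ^ 2 := by rw [h2, mul_one]
    rw [h1] at h3
    exact_mod_cast h3
  have hdpos : 0 < Module.finrank ℝ W.toSubmodule := Module.finrank_pos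
  have hm0 : 0 < m := by
    rcases Nat.eq_zero_or_pos m with h0 | h0
    · rw [hrank, h0, zero_mul] at hdpos
      exact absurd hdpos (lt_irrefl 0)
    · exact h0
  rw [hfin, hrank, sq] at hdvd
  have hmd : m ∣ dg φ := Nat.dvd_of_mul_dvd_mul_left hm0 hdvd
  rw [hrank]
  exact (Odd.of_dvd_nat hodd hmd).mul hodd

end

end P41_aux

/-- (6.1) if the complexification of the real representation `R` has a self dual irreducible
constituent of odd degree, then `R` has a subrepresentation of odd dimension.  Let `φ` be the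
character of the constituent, `P = act (es φ)`, an operator over `ℝ`; choose an irreducible `W` with
`P W ≠ 0`, then `P = 1` on `W`, `χ_W = m φ`, `dim End_G(W) = m²` divides
`dim W = m φ(1)` (`W` is a vector space over the division ring `End_G(W)`), so `m` is odd. -/
theorem exists_odd_sub (R : G →* GL (Fin n) ℝ)
    (h : ¬ NoOdd (mrep (mmap (algebraMap ℝ ℂ) R))) :
    ∃ W : Subrepresentation (mrep R), Odd (Module.finrank ℝ W.toSubmodule) := by
  have heq : P41_aux.cx (Pi.basisFun ℝ (Fin n)) (mrep R) = mrep (mmap (algebraMap ℝ ℂ) R) := by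
    ext g : 1
    rw [P41_aux.cx_apply, P41_aux.cxm_apply]
    show Matrix.toLin' ((LinearMap.toMatrix (Pi.basisFun ℝ (Fin n)) (Pi.basisFun ℝ (Fin n))
      (Matrix.toLin' (R g : Matrix (Fin n) (Fin n) ℝ))).map (algebraMap ℝ ℂ)) =
      Matrix.toLin' (mmap (algebraMap ℝ ℂ) R g : Matrix (Fin n) (Fin n) ℂ)
    rw [LinearMap.toMatrix_eq_toMatrix', LinearMap.toMatrix'_toLin']
    rfl
  rw [← heq] at h
  exact P41_aux.odd_sub _ _ h

end

end Parker
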