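import Pool.Agent.Parker.Defs
import Pool.Agent.Parker.P40
import Pool.Agent.Parker.P41

/-!
# MP_6c3636_al, module P42: (6.1), orthogonal stability (helper7)
-/

namespace Parker

open Matrix

universe u v w

noncomputable section

variable {G : Type u} [Group G] [Finite G] {n : ℕ}

/-- a real representation with an invariant positive definite Gram matrix `B₀` and a
subrepresentation of odd dimension has an invariant Gram matrix `B₁` with `det B₁ < 0`
(change the sign on `W`, keep it on the orthogonal complement) -/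
theorem exists_neg_gram (R : G →* GL (Fin n) ℝ) (W : Subrepresentation (mrep R))
    (hW : Odd (Module.finrank ℝ W.toSubmodule)) {B₀ : Matrix (Fin n) (Fin n) ℝ}
    (h : IsInvGram R B₀) (hpos : ∀ x : Fin n → ℝ, x ≠ 0 → 0 < x ⬝ᵥ B₀.mulVec x) :
    ∃ B₁ : Matrix (Fin n) (Fin n) ℝ, IsInvGram R B₁ ∧ B₁.det < 0 := by
  obtain ⟨hsym, hdet, hinv⟩ := h
  rcases lt_or_gt_of_ne hdet with hlt | hgt
  · exact ⟨B₀, ⟨hsym, hdet, hinv⟩, hlt⟩
  obtain ⟨b, hb⟩ : ∃ b : LinearMap.BilinForm ℝ (Fin n → ℝ), ∀ x y, b x y = x ⬝ᵥ B₀.mulVec y :=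
    ⟨Matrix.toBilin' B₀, fun x y => Matrix.toBilin'_apply' B₀ x y⟩
  have hbsymm : ∀ x y, b x y = b y x := by
    intro x y
    rw [hb, hb, Matrix.dotProduct_mulVec, ← Matrix.mulVec_transpose, hsym, dotProduct_comm]
  have hmr : ∀ g x, mrep R g x = (R g : Matrix (Fin n) (Fin n) ℝ).mulVec x := fun g x => rfl
  have hbinv : ∀ g x y, b (mrep R g x) (mrep R g y) = b x y := by
    intro g x y
    rw [hb, hb, hmr, hmr]
    conv_rhs => rw [← hinv g]
    rw [← Matrix.mulVec_mulVec, ← Matrix.mulVec_mulVec, Matrix.dotProduct_mulVec x,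
      ← Matrix.mulVec_transpose, Matrix.transpose_transpose]
  have hrefl : b.IsRefl := fun x y hxy => by rw [hbsymm]; exact hxy
  have hcompl : IsCompl W.toSubmodule (b.orthogonal W.toSubmodule) := by
    rw [LinearMap.BilinForm.isCompl_orthogonal_iff_disjoint hrefl, Submodule.disjoint_def]
    intro x hx hx'
    by_contra hne
    have h1 := hpos x hne
    have h2 : b x x = 0 := LinearMap.BilinForm.mem_orthogonal_iff.1 hx' x hx
    rw [hb] at h2
    exact absurd h2 h1.ne'
  obtain ⟨E, hE⟩ : ∃ E : (W.toSubmodule × b.orthogonal W.toSubmodule) ≃ₗ[ℝ] (Fin n → ℝ),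
      ∀ p, E p = p.1 + p.2 := ⟨Submodule.prodEquivOfIsCompl _ _ hcompl, fun p => rfl⟩
  have horth : ∀ (w : W.toSubmodule) (w' : b.orthogonal W.toSubmodule), b w w' = 0 :=
    fun w w' => LinearMap.BilinForm.mem_orthogonal_iff.1 w'.2 w w.2
  have horth' : ∀ (w : W.toSubmodule) (w' : b.orthogonal W.toSubmodule), b w' w = 0 :=
    fun w w' => by rw [hbsymm]; exact horth w w'
  obtain ⟨S, hS, hSdet⟩ : ∃ S : (Fin n → ℝ) →ₗ[ℝ] (Fin n → ℝ),
      (∀ w w', S (E (w, w')) = E (-w, w')) ∧ LinearMap.det S = -1 := by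
    refine ⟨E.toLinearMap ∘ₗ (LinearMap.prodMap (-LinearMap.id) LinearMap.id) ∘ₗ
      E.symm.toLinearMap, fun w w' => ?_, ?_⟩
    · simp
    · rw [LinearMap.det_conj, LinearMap.det_prodMap, LinearMap.det_id, mul_one,
        ← neg_one_smul ℝ (LinearMap.id : W.toSubmodule →ₗ[ℝ] W.toSubmodule), LinearMap.det_smul,
        LinearMap.det_id, mul_one, hW.neg_one_pow]
  have hSsym : ∀ x y, b (S x) y = b x (S y) := by
    intro x y
    obtain ⟨⟨w₁, w₁'⟩, rfl⟩ := E.surjective x
    obtain ⟨⟨w₂, w₂'⟩, rfl⟩ := E.surjective y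
    rw [hS, hS, hE, hE, hE, hE]
    simp only [map_add, LinearMap.add_apply, horth, horth', NegMemClass.coe_neg, map_neg,
      LinearMap.neg_apply, neg_zero, add_zero, zero_add]
  have hScomm : ∀ g x, S (mrep R g x) = mrep R g (S x) := by
    intro g x
    obtain ⟨⟨w, w'⟩, rfl⟩ := E.surjective x
    have h1 : mrep R g w' ∈ b.orthogonal W.toSubmodule := by
      rw [LinearMap.BilinForm.mem_orthogonal_iff]
      intro u hu
      have h2 : mrep R g (mrep R g⁻¹ u) = u := by
        rw [← Module.End.mul_apply, ← map_mul, mul_inv_cancel, map_one, Module.End.one_apply]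
      show b u (mrep R g w') = 0
      rw [← h2, hbinv]
      exact horth ⟨mrep R g⁻¹ u, W.apply_mem_toSubmodule g⁻¹ hu⟩ w'
    have h3 : mrep R g (E (w, w')) =
        E (⟨mrep R g w, W.apply_mem_toSubmodule g w.2⟩, ⟨mrep R g w', h1⟩) := by
      rw [hE, hE, map_add]
    have h4 : mrep R g (E (-w, w')) =
        E (-⟨mrep R g w, W.apply_mem_toSubmodule g w.2⟩, ⟨mrep R g w', h1⟩) := by
      rw [hE, hE, map_add]
      simp
    rw [h3, hS, hS, h4]
  obtain ⟨M, hM, hMdet⟩ : ∃ M : Matrix (Fin n) (Fin n) ℝ, (∀ x, M.mulVec x = S x) ∧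
      M.det = -1 := by
    refine ⟨LinearMap.toMatrix' S, fun x => ?_, ?_⟩
    · rw [← Matrix.toLin'_apply, Matrix.toLin'_toMatrix']
    · rw [LinearMap.det_toMatrix', hSdet]
  have hext : ∀ A C : Matrix (Fin n) (Fin n) ℝ, (∀ x, A.mulVec x = C.mulVec x) → A = C := by
    intro A C hAC
    apply Matrix.toLin'.injective
    exact LinearMap.ext fun x => by rw [Matrix.toLin'_apply, Matrix.toLin'_apply, hAC]
  have hMcomm : ∀ g, M * (R g : Matrix (Fin n) (Fin n) ℝ) =
      (R g : Matrix (Fin n) (Fin n) ℝ) * M := by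
    intro g
    apply hext
    intro x
    rw [← Matrix.mulVec_mulVec, ← Matrix.mulVec_mulVec, hM, hM, ← hmr, ← hmr, hScomm]
  have hMsym : (B₀ * M).transpose = B₀ * M := by
    rw [Matrix.transpose_mul, hsym]
    ext i j
    have h5 := hSsym (Pi.single i 1) (Pi.single j 1)
    rw [hb, hb, ← hM, ← hM, Matrix.mulVec_mulVec, Matrix.dotProduct_mulVec,
      ← Matrix.mulVec_transpose, Matrix.mulVec_mulVec, hsym, dotProduct_comm] at h5
    simp only [Matrix.mulVec_single_one, single_one_dotProduct, Matrix.col_apply] at h5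
    have h6 := congrFun (congrFun (Matrix.transpose_mul B₀ M) i) j
    rw [hsym] at h6
    rw [← h6, Matrix.transpose_apply]
    exact h5
  refine ⟨B₀ * M, ⟨hMsym, ?_, ?_⟩, ?_⟩
  · rw [Matrix.det_mul, hMdet]
    exact mul_ne_zero hdet (by norm_num)
  · intro g
    rw [Matrix.mul_assoc, Matrix.mul_assoc, hMcomm, ← Matrix.mul_assoc, ← Matrix.mul_assoc, hinv]
  · rw [Matrix.det_mul, hMdet]
    linarith

/-- approximation: an invariant Gram matrix over `ℝ` with negative determinant can be approximated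
by one over the subfield `K` (average a rational matrix close to `B₁`) -/
theorem exists_neg_gram_sub (K : Subfield ℝ) (R : G →* GL (Fin n) K)
    {B₁ : Matrix (Fin n) (Fin n) ℝ} (h : IsInvGram (mmap (algebraMap K ℝ) R) B₁)
    (hneg : B₁.det < 0) :
    ∃ B : Matrix (Fin n) (Fin n) K, IsInvGram R B ∧ ((B.det : K) : ℝ) < 0 := by
  classical
  let _ := Fintype.ofFinite G
  obtain ⟨hsym, hdet, hinv⟩ := h
  let Q : G → Matrix (Fin n) (Fin n) ℝ := fun g => (mmap (algebraMap K ℝ) R g : _)
  let F : (Fin n → Fin n → ℝ) → Matrix (Fin n) (Fin n) ℝ := fun C =>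
    ∑ g, (Q g).transpose * (Matrix.of C + (Matrix.of C).transpose) * Q g
  have hFc : Continuous fun C => (F C).det := by
    refine Continuous.matrix_det ?_
    refine continuous_finsetSum _ fun g _ => ?_
    refine Continuous.matrix_mul (Continuous.matrix_mul continuous_const ?_) continuous_const
    exact Continuous.add continuous_id (Continuous.matrix_transpose continuous_id)
  have hF1 : F B₁ = (2 * (Fintype.card G : ℝ)) • B₁ := by
    show ∑ g, (Q g).transpose * (B₁ + B₁.transpose) * Q g = _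
    rw [hsym]
    have : ∀ g ∈ Finset.univ, (Q g).transpose * (B₁ + B₁) * Q g = (2 : ℝ) • B₁ := by
      intro g _
      rw [Matrix.mul_add, Matrix.add_mul, hinv g, two_smul]
    rw [Finset.sum_congr rfl this, Finset.sum_const, Finset.card_univ, ← Nat.cast_smul_eq_nsmul ℝ,
      smul_smul, mul_comm]
  have hcard : (0 : ℝ) < 2 * (Fintype.card G : ℝ) := by
    have : 0 < Fintype.card G := Fintype.card_pos
    positivity
  have hmem : (B₁ : Fin n → Fin n → ℝ) ∈ {C | (F C).det < 0} := by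
    show (F B₁).det < 0
    rw [hF1, Matrix.det_smul]
    exact mul_neg_of_pos_of_neg (pow_pos hcard _) hneg
  have hopen : IsOpen {C : Fin n → Fin n → ℝ | (F C).det < 0} := isOpen_Iio.preimage hFc
  have hdense : DenseRange (Pi.map fun _ : Fin n => Pi.map fun _ : Fin n => ((↑) : ℚ → ℝ)) :=
    DenseRange.piMap fun _ => DenseRange.piMap fun _ => Rat.denseRange_cast
  obtain ⟨C, hC⟩ := hdense.exists_mem_open hopen ⟨_, hmem⟩
  let C' : Matrix (Fin n) (Fin n) K := Matrix.of fun i j => ((C i j : ℚ) : K)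
  let B : Matrix (Fin n) (Fin n) K := ∑ g, ((R g : Matrix (Fin n) (Fin n) K)).transpose *
    (C' + C'.transpose) * (R g : Matrix (Fin n) (Fin n) K)
  have hBF : B.map (algebraMap K ℝ) = F (Pi.map (fun _ : Fin n => Pi.map fun _ : Fin n =>
      ((↑) : ℚ → ℝ)) C) := by
    have h1 : C'.map (algebraMap K ℝ) = Matrix.of (Pi.map (fun _ : Fin n => Pi.map
        fun _ : Fin n => ((↑) : ℚ → ℝ)) C) := by
      ext i j
      simp [C']
    show (algebraMap K ℝ).mapMatrix B = _
    simp only [B, F, map_sum, map_mul, map_add]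
    refine Finset.sum_congr rfl fun g _ => ?_
    have h2 : (algebraMap K ℝ).mapMatrix (R g : Matrix (Fin n) (Fin n) K) = Q g := rfl
    have h3 : (algebraMap K ℝ).mapMatrix (R g : Matrix (Fin n) (Fin n) K).transpose =
        (Q g).transpose := rfl
    have h4 : (algebraMap K ℝ).mapMatrix C' = Matrix.of (Pi.map (fun _ : Fin n => Pi.map
        fun _ : Fin n => ((↑) : ℚ → ℝ)) C) := h1
    have h5 : (algebraMap K ℝ).mapMatrix C'.transpose = (Matrix.of (Pi.map (fun _ : Fin n =>
        Pi.map fun _ : Fin n => ((↑) : ℚ → ℝ)) C)).transpose := by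
      rw [← h4]; rfl
    rw [h2, h3, h4, h5]
  have hBdet : ((B.det : K) : ℝ) < 0 := by
    have h6 : ((B.det : K) : ℝ) = (B.map (algebraMap K ℝ)).det :=
      RingHom.map_det (algebraMap K ℝ) B
    rw [h6, hBF]
    exact hC
  refine ⟨B, ⟨?_, ?_, ?_⟩, hBdet⟩
  · simp only [B, Matrix.transpose_sum, Matrix.transpose_mul, Matrix.transpose_add,
      Matrix.transpose_transpose]
    refine Finset.sum_congr rfl fun g _ => ?_
    rw [add_comm C'.transpose C', Matrix.mul_assoc]
  · intro h0
    rw [h0] at hBdet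
    simp at hBdet
  · intro a
    simp only [B, Finset.mul_sum, Finset.sum_mul]
    refine Fintype.sum_equiv (Equiv.mulRight a) _ _ fun g => ?_
    rw [Equiv.coe_mulRight, map_mul, Units.val_mul, Matrix.transpose_mul]
    simp only [Matrix.mul_assoc]

/-- an orthogonally stable representation over `K ⊆ ℝ` has no self dual constituent of odd degree
over `ℂ` -/
theorem noOdd_of_stable (K : Subfield ℝ) (R : G →* GL (Fin n) K) (h : OrthStable R) :
    NoOdd (mrep (mmap ((algebraMap ℝ ℂ).comp (algebraMap K ℝ)) R)) := by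
  by_contra hno
  have hno' : ¬ NoOdd (mrep (mmap (algebraMap ℝ ℂ) (mmap (algebraMap K ℝ) R))) := hno
  obtain ⟨W, hW⟩ := exists_odd_sub (mmap (algebraMap K ℝ) R) hno'
  obtain ⟨B, hB, hBpos, hBdef⟩ := exists_pos_gram K R
  obtain ⟨B₁, hB₁, hneg⟩ := exists_neg_gram (mmap (algebraMap K ℝ) R) W hW
    (mmap_gram (algebraMap K ℝ) hB) hBdef
  obtain ⟨B', hB', hneg'⟩ := exists_neg_gram_sub K R hB₁ hneg
  obtain ⟨c, -, hc⟩ := h B B' hB hB'
  rw [hc] at hneg'
  push_cast at hneg'
  have := mul_nonneg hBpos.le (sq_nonneg (c : ℝ))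
  linarith

end

end Parker
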