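import Pool.Agent.Parker.Defs
import Pool.Agent.Parker.P01
import Pool.Agent.Parker.P05
import Pool.Agent.Parker.P09
import Pool.Agent.Parker.P40

/-!
# MP_6c3636_al, module P43: (6.3), realization over the algebraic numbers (helper7)
-/

namespace Parker

open Matrix

universe u v w

noncomputable section

variable {G : Type u} [Group G] [Finite G] {n : ℕ}

/-- a finitely generated `ℚ`-algebra which is a domain has a homomorphism to `AlgebraicClosure ℚ`
which does not kill a given nonzero element (Nullstellensatz,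
`finite_of_finite_type_of_isJacobsonRing`; invert the element) -/
theorem exists_hom_algebraic (A : Type) [CommRing A] [IsDomain A] [Algebra ℚ A]
    [Algebra.FiniteType ℚ A] {x : A} (hx : x ≠ 0) :
    ∃ f : A →+* AlgebraicClosure ℚ, f x ≠ 0 := by
  have hle : Submonoid.powers x ≤ nonZeroDivisors A :=
    powers_le_nonZeroDivisors_of_noZeroDivisors hx
  have : Nontrivial (Localization.Away x) :=
    (IsLocalization.injective (Localization.Away x) hle).nontrivial
  obtain ⟨m, hm⟩ := Ideal.exists_maximal (Localization.Away x)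
  let := Ideal.Quotient.field m
  have : Module.Finite ℚ (Localization.Away x ⧸ m) :=
    finite_of_finite_type_of_isJacobsonRing ℚ (Localization.Away x ⧸ m)
  let i : (Localization.Away x ⧸ m) →ₐ[ℚ] AlgebraicClosure ℚ := IsAlgClosed.lift
  refine ⟨(i.toRingHom.comp (Ideal.Quotient.mk m)).comp (algebraMap A (Localization.Away x)), ?_⟩
  have hu : IsUnit (algebraMap A (Localization.Away x) x) :=
    IsLocalization.Away.algebraMap_isUnit x
  exact (hu.map (i.toRingHom.comp (Ideal.Quotient.mk m))).ne_zero

/-- (6.3) realization over the algebraic numbers, together with an invariant form -/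
theorem exists_algebraic {K : Type} [Field K] [CharZero K] (R : G →* GL (Fin n) K) {χ : G → ℚ}
    (hR : Affords R χ) {B : Matrix (Fin n) (Fin n) K} (hB : IsInvGram R B) :
    ∃ (R' : G →* GL (Fin n) (AlgebraicClosure ℚ))
      (B' : Matrix (Fin n) (Fin n) (AlgebraicClosure ℚ)), Affords R' χ ∧ IsInvGram R' B' := by
  classical
  obtain ⟨hBs, hBd, hBi⟩ := hB
  set S : Set K := (Set.range fun p : G × Fin n × Fin n =>
    (R p.1 : Matrix (Fin n) (Fin n) K) p.2.1 p.2.2) ∪
    (Set.range fun p : Fin n × Fin n => B p.1 p.2) with hS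
  have hSfin : S.Finite := (Set.finite_range _).union (Set.finite_range _)
  let A : Subalgebra ℚ K := Algebra.adjoin ℚ S
  have : Algebra.FiniteType ℚ A :=
    (Subalgebra.fg_iff_finiteType A).1 (Subalgebra.fg_def.2 ⟨S, hSfin, rfl⟩)
  have hRm : ∀ g i j, (R g : Matrix (Fin n) (Fin n) K) i j ∈ A := fun g i j =>
    Algebra.subset_adjoin (Or.inl ⟨(g, i, j), rfl⟩)
  have hBm : ∀ i j, B i j ∈ A := fun i j => Algebra.subset_adjoin (Or.inr ⟨(i, j), rfl⟩)
  let φ : A →+* K := (A.val : A →+* K)
  have hφ : Function.Injective φ := Subtype.val_injective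
  have hinj : Function.Injective (φ.mapMatrix : Matrix (Fin n) (Fin n) A →+* _) :=
    Matrix.map_injective hφ
  let RA0 : G → Matrix (Fin n) (Fin n) A := fun g =>
    Matrix.of fun i j => ⟨(R g : Matrix (Fin n) (Fin n) K) i j, hRm g i j⟩
  have hRA0 : ∀ g, φ.mapMatrix (RA0 g) = (R g : Matrix (Fin n) (Fin n) K) := fun g => by
    ext i j; rfl
  let RA : G →* Matrix (Fin n) (Fin n) A :=
    { toFun := RA0
      map_one' := by
        apply hinj
        rw [hRA0, map_one, map_one]
        rfl
      map_mul' := fun x y => by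
        apply hinj
        rw [map_mul, hRA0, hRA0, hRA0, map_mul]
        rfl }
  have hRA : ∀ g, φ.mapMatrix (RA g) = (R g : Matrix (Fin n) (Fin n) K) := hRA0
  let BA : Matrix (Fin n) (Fin n) A := Matrix.of fun i j => ⟨B i j, hBm i j⟩
  have hBA : φ.mapMatrix BA = B := by ext i j; rfl
  have hx : BA.det ≠ 0 := by
    intro h0
    apply hBd
    rw [← hBA, ← RingHom.map_det, h0, map_zero]
  obtain ⟨f, hf⟩ := exists_hom_algebraic A hx
  have hR' : ∀ g, ((MonoidHom.toHomUnits ((f.mapMatrix : Matrix (Fin n) (Fin n) A →+*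
      Matrix (Fin n) (Fin n) (AlgebraicClosure ℚ)).toMonoidHom.comp RA) g :
      GL (Fin n) (AlgebraicClosure ℚ)) : Matrix (Fin n) (Fin n) (AlgebraicClosure ℚ)) =
      f.mapMatrix (RA g) := fun g => rfl
  refine ⟨MonoidHom.toHomUnits ((f.mapMatrix : Matrix (Fin n) (Fin n) A →+*
      Matrix (Fin n) (Fin n) (AlgebraicClosure ℚ)).toMonoidHom.comp RA), f.mapMatrix BA,
      ?_, ?_, ?_, ?_⟩
  · intro g
    rw [hR' g]
    have h1 : (RA g).trace = algebraMap ℚ A (χ g) := by
      apply hφ
      have h2 : φ (RA g).trace = (φ.mapMatrix (RA g)).trace := by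
        simp [Matrix.trace, map_sum]
      rw [h2, hRA, hR g]
      simp [φ]
    have h3 : (f.mapMatrix (RA g)).trace = f (RA g).trace := by
      simp [Matrix.trace, map_sum]
    rw [h3, h1]
    exact eq_ratCast (f.comp (algebraMap ℚ A)) (χ g)
  · have h1 : BA.transpose = BA := by
      apply hinj
      rw [hBA]
      conv_rhs => rw [← hBs]
      rw [← hBA]
      rfl
    change (BA.map f).transpose = BA.map f
    rw [← Matrix.transpose_map, h1]
  · rw [← RingHom.map_det]
    exact hf
  · intro g
    rw [hR' g]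
    have h1 : (RA g).transpose * BA * RA g = BA := by
      apply hinj
      rw [map_mul, map_mul, hBA, hRA]
      have h2 : φ.mapMatrix (RA g).transpose =
          (R g : Matrix (Fin n) (Fin n) K).transpose := by
        rw [← hRA]; rfl
      rw [h2]
      exact hBi g
    have h2 : (f.mapMatrix (RA g)).transpose = f.mapMatrix (RA g).transpose := rfl
    rw [h2, ← map_mul, ← map_mul, h1]

private theorem qbar_algebraic : Algebra.IsAlgebraic ℚ (AlgebraicClosure ℚ) := by
  have key : ∀ (inst : Algebra ℚ (AlgebraicClosure ℚ)),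
      @Algebra.IsAlgebraic ℚ (AlgebraicClosure ℚ) _ _ inst := by
    intro inst
    obtain rfl : inst = @AlgebraicClosure.instAlgebra ℚ _ ℚ _ (Algebra.id ℚ) :=
      Subsingleton.elim _ _
    exact AlgebraicClosure.isAlgebraic ℚ
  exact key _

private theorem qbar_galois : IsGalois ℚ (AlgebraicClosure ℚ) := by
  have key : ∀ (inst : Algebra ℚ (AlgebraicClosure ℚ)),
      @IsGalois ℚ _ (AlgebraicClosure ℚ) _ inst := by
    intro inst
    obtain rfl : inst = @AlgebraicClosure.instAlgebra ℚ _ ℚ _ (Algebra.id ℚ) :=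
      Subsingleton.elim _ _
    exact @IsSepClosure.isGalois ℚ _ (AlgebraicClosure ℚ) _
      (@AlgebraicClosure.instAlgebra ℚ _ ℚ _ (Algebra.id ℚ))
      (@IsSepClosure.of_isAlgClosure_of_perfectField _ _ _ _ _ _ _)
  exact key _

/-- an element of `AlgebraicClosure ℚ` fixed by all automorphisms is rational; the determinant of a
rational group algebra element is rational -/
theorem det_rational [Fintype G] (R' : G →* GL (Fin n) (AlgebraicClosure ℚ)) {χ : G → ℚ}
    (h : Affords R' χ) (s : G → ℚ) :
    ∃ a : ℚ, (∑ g, ((s g : ℚ) : AlgebraicClosure ℚ) •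
      (R' g : Matrix (Fin n) (Fin n) (AlgebraicClosure ℚ))).det = a := by
  have := qbar_galois
  set D := (∑ g, ((s g : ℚ) : AlgebraicClosure ℚ) •
      (R' g : Matrix (Fin n) (Fin n) (AlgebraicClosure ℚ))).det with hD
  have hfix : ∀ σ : Gal((AlgebraicClosure ℚ)/ℚ), σ D = D := by
    intro σ
    have hA' : Affords (mmap (σ : AlgebraicClosure ℚ →+* AlgebraicClosure ℚ) R') χ :=
      mmap_affords _ h
    have hchar : (mrep R').character =
        (mrep (mmap (σ : AlgebraicClosure ℚ →+* AlgebraicClosure ℚ) R')).character := by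
      ext g
      rw [mrep_char, mrep_char, h g, hA' g]
    have h1 := det_of_char hchar (fun g => ((s g : ℚ) : AlgebraicClosure ℚ))
    rw [det_mrep, det_mrep] at h1
    have h2 := mmap_det (σ : AlgebraicClosure ℚ →+* AlgebraicClosure ℚ) R'
      (fun g => ((s g : ℚ) : AlgebraicClosure ℚ))
    simp only [map_ratCast] at h2
    rw [← h1] at h2
    exact h2.symm
  have := (InfiniteGalois.mem_range_algebraMap_iff_fixed (k := ℚ) D).2 hfix
  obtain ⟨a, ha⟩ := this
  exact ⟨a, by rw [← ha]; simp⟩

/-- (6.3) the determinant of a rational group algebra element is the same rational number for all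
representations affording `χ`, over all fields of characteristic zero -/
theorem det_const [Fintype G] {K₀ : Type} [Field K₀] [CharZero K₀] {n₀ : ℕ}
    (R₀ : G →* GL (Fin n₀) K₀) {χ : G → ℚ} (h₀ : Affords R₀ χ)
    {B₀ : Matrix (Fin n₀) (Fin n₀) K₀} (hB₀ : IsInvGram R₀ B₀) (s : G → ℚ) :
    ∃ a : ℚ, ∀ (L : Type) [Field L] [CharZero L] (n : ℕ) (R : G →* GL (Fin n) L),
      Affords R χ → (∑ g, ((s g : ℚ) : L) • (R g : Matrix (Fin n) (Fin n) L)).det = (a : L) := by
  have := qbar_algebraic
  obtain ⟨R', B', hR', hB'⟩ := exists_algebraic R₀ h₀ hB₀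
  obtain ⟨a, ha⟩ := det_rational R' hR' s
  refine ⟨a, fun L _ _ n R hR => ?_⟩
  let Ω := AlgebraicClosure L
  have : CharZero Ω := charZero_of_injective_algebraMap (algebraMap L Ω).injective
  let ι : AlgebraicClosure ℚ →ₐ[ℚ] Ω := IsAlgClosed.lift
  have h1 : Affords (mmap (algebraMap L Ω) R) χ := mmap_affords _ hR
  have h2 : Affords (mmap (ι : AlgebraicClosure ℚ →+* Ω) R') χ := mmap_affords _ hR'
  have hchar : (mrep (mmap (algebraMap L Ω) R)).character =
      (mrep (mmap (ι : AlgebraicClosure ℚ →+* Ω) R')).character := by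
    ext g
    rw [mrep_char, mrep_char, h1 g, h2 g]
  have h3 := det_of_char hchar (fun g => ((s g : ℚ) : Ω))
  rw [det_mrep, det_mrep] at h3
  have h4 := mmap_det (algebraMap L Ω) R (fun g => ((s g : ℚ) : L))
  have h5 := mmap_det (ι : AlgebraicClosure ℚ →+* Ω) R'
    (fun g => ((s g : ℚ) : AlgebraicClosure ℚ))
  simp only [map_ratCast] at h4 h5
  rw [h3, h5, ha, map_ratCast] at h4
  apply (algebraMap L Ω).injective
  rw [← h4, map_ratCast]

end

end Parker
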