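import Pool.Agent.Parker.Defs

/-!
# MP_6c3636_al, module P45: the `2`-adic field (helper7)
-/

namespace Parker

universe u v w

noncomputable section

/-- the absolute value of the algebraic closure of `ℚ_2` -/
def ctx2 : Ctx (PadicAlgCl 2) where
  av := NormedField.toAbsoluteValue (PadicAlgCl 2)
  na := PadicAlgCl.isNonarchimedean 2
  odd := by
    intro n hn
    have h1 : ((n : ℚ_[2]) : PadicAlgCl 2) = (n : PadicAlgCl 2) :=
      map_natCast (algebraMap ℚ_[2] (PadicAlgCl 2)) n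
    have h2 : ‖((n : ℚ_[2]) : PadicAlgCl 2)‖ = 1 := by
      rw [PadicAlgCl.norm_extends, Padic.norm_natCast_eq_one_iff]
      exact Nat.coprime_two_left.2 hn
    rw [h1] at h2
    exact h2

theorem ctx2_av (x : PadicAlgCl 2) : ctx2.av x = ‖x‖ := rfl

/-- the Galois group of `PadicAlgCl 2` over `ℚ_2`, as a group of ring automorphisms -/
def gal2 : Subgroup (RingAut (PadicAlgCl 2)) where
  carrier := {σ | ∀ x : ℚ_[2], σ (algebraMap ℚ_[2] (PadicAlgCl 2) x) = algebraMap _ _ x}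
  mul_mem' := by
    intro σ τ hσ hτ x
    rw [RingAut.mul_apply, hτ x, hσ x]
  one_mem' := fun _ => rfl
  inv_mem' := by
    intro σ hσ x
    have h2 : σ⁻¹ (σ (algebraMap ℚ_[2] (PadicAlgCl 2) x)) = algebraMap ℚ_[2] (PadicAlgCl 2) x :=
      σ.symm_apply_apply _
    rwa [hσ x] at h2

/-- automorphisms over `ℚ_2` preserve the norm -/
theorem ok_gal2 : Ok ctx2 1 gal2 where
  pres := by
    intro σ hσ x
    rw [ctx2_av, ctx2_av]
    have h := spectralNorm_eq_of_equiv (K := ℚ_[2]) (L := PadicAlgCl 2)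
      (AlgEquiv.ofRingEquiv (f := σ) hσ) x
    exact h.symm
  two := by
    intro σ _
    refine ⟨0, fun ζ hζ => ?_⟩
    rw [pow_one] at hζ
    rw [hζ, map_one]

/-- the fixed field is `ℚ_2` -/
theorem fx_gal2 {x : PadicAlgCl 2} (h : Fx gal2 x) :
    ∃ y : ℚ_[2], x = algebraMap ℚ_[2] (PadicAlgCl 2) y := by
  have h1 : x ∈ Set.range (algebraMap ℚ_[2] (PadicAlgCl 2)) := by
    rw [InfiniteGalois.mem_range_algebraMap_iff_fixed]
    intro f
    exact h f.toRingEquiv fun y => f.commutes y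
  obtain ⟨y, hy⟩ := h1
  exact ⟨y, hy.symm⟩

/-- `|a|` is a square of a value of `ℚ_2` iff the `2`-adic valuation of `a` is even -/
theorem even_of_sqV {a : ℚ} (ha : a ≠ 0) (h : SqV ctx2 gal2 (ctx2.av (a : PadicAlgCl 2))) :
    Even (padicValRat 2 a) := by
  obtain ⟨x, hx0, hx, h⟩ := h
  obtain ⟨y, rfl⟩ := fx_gal2 hx
  have hy0 : y ≠ 0 := by
    rintro rfl
    exact hx0 (map_zero _)
  have ha' : (a : ℚ_[2]) ≠ 0 := by exact_mod_cast ha
  have h1 : ((a : ℚ_[2]) : PadicAlgCl 2) = (a : PadicAlgCl 2) :=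
    map_ratCast (algebraMap ℚ_[2] (PadicAlgCl 2)) a
  have h2 : ctx2.av (a : PadicAlgCl 2) = ‖(a : ℚ_[2])‖ := by
    rw [ctx2_av, ← h1, PadicAlgCl.norm_extends]
  have h3 : ctx2.av (algebraMap ℚ_[2] (PadicAlgCl 2) y) = ‖y‖ := by
    rw [ctx2_av]
    exact PadicAlgCl.norm_extends 2 y
  rw [h2, h3, Padic.norm_eq_zpow_neg_valuation ha', Padic.norm_eq_zpow_neg_valuation hy0,
    Padic.valuation_ratCast, ← zpow_natCast, ← zpow_mul] at h
  have h4 := zpow_right_injective₀ (by norm_num : (0 : ℝ) < ((2 : ℕ) : ℝ)) (by norm_num) h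
  refine ⟨y.valuation, ?_⟩
  push_cast at h4
  linarith

/-- squarefree part: a positive rational number of even `2`-adic valuation is an odd squarefree
natural number times a square -/
theorem exists_squarefree {a : ℚ} (ha : 0 < a) (h : Even (padicValRat 2 a)) :
    ∃ (b : ℕ) (c : ℚ), Squarefree b ∧ Odd b ∧ c ≠ 0 ∧ a = (b : ℚ) * c ^ 2 := by
  have hnum : 0 < a.num := Rat.num_pos.2 ha
  have hN : 0 < a.num.toNat * a.den := Nat.mul_pos (by omega) a.den_pos
  obtain ⟨b, c, hb, hc, hbc, hsq⟩ := Nat.sq_mul_squarefree_of_pos hN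
  have hden : (a.den : ℚ) ≠ 0 := by exact_mod_cast a.den_pos.ne'
  have hc0 : (c : ℚ) ≠ 0 := by exact_mod_cast hc.ne'
  have hb0 : (b : ℚ) ≠ 0 := by exact_mod_cast hb.ne'
  have h1 : ((a.num.toNat : ℕ) : ℚ) = (a.num : ℚ) := by
    have : ((a.num.toNat : ℕ) : ℤ) = a.num := Int.toNat_of_nonneg hnum.le
    exact_mod_cast this
  have h2 : (c : ℚ) ^ 2 * b = a.num * a.den := by
    rw [← h1]
    exact_mod_cast hbc
  have h3 : a = (b : ℚ) * ((c : ℚ) / a.den) ^ 2 := by
    rw [div_pow, ← mul_div_assoc, mul_comm (b : ℚ), h2]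
    conv_lhs => rw [← Rat.num_div_den a]
    field_simp
  refine ⟨b, c / a.den, hsq, ?_, div_ne_zero hc0 hden, h3⟩
  rw [h3, padicValRat.mul hb0 (pow_ne_zero _ (div_ne_zero hc0 hden)),
    padicValRat.pow] at h
  have h4 : Even (padicValRat 2 (b : ℚ)) := by
    have h5 : Even (((2 : ℕ) : ℤ) * padicValRat 2 ((c : ℚ) / a.den)) :=
      Even.mul_right (by norm_num) _
    exact (Int.even_add.1 h).2 h5
  rw [padicValRat.of_nat, Int.even_coe_nat] at h4
  rw [← Nat.not_even_iff_odd, even_iff_two_dvd]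
  intro h5
  have h6 : padicValNat 2 b ≤ 1 := by
    by_contra hcon
    have h7 : 2 ^ 2 ∣ b := (padicValNat_dvd_iff_le hb.ne').2 (by omega)
    have h8 : 2 * 2 ∣ b := by simpa using h7
    have := hsq 2 h8
    rw [Nat.isUnit_iff] at this
    omega
  have h7 : 1 ≤ padicValNat 2 b := one_le_padicValNat_of_dvd hb.ne' h5
  have h8 : padicValNat 2 b = 1 := le_antisymm h6 h7
  rw [h8] at h4
  exact absurd h4 (by decide)

end

end Parker
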