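import Pool.Agent.Parker.Defs
import Pool.Agent.Parker.P01
import Pool.Agent.Parker.P10
import Pool.Agent.Parker.P11
import Pool.Agent.Parker.P12
import Pool.Agent.Parker.P40
import Pool.Agent.Parker.P41
import Pool.Agent.Parker.P42
import Pool.Agent.Parker.P43
import Pool.Agent.Parker.P45

/-!
# MP_6c3636_al, module P46: Theorem 2, final transfer (helper7)
-/

namespace Parker

open Matrix

universe u v w

noncomputable section

variable {G : Type u} [Group G] [Finite G]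

/-- THEOREM 2: (A) and (B) imply Parker's conjecture -/
theorem parker_of_AB (hA : PropA ctx2 1 G) (hB : PropB ctx2 1 G) : ParkerOdd G := by
  classical
  let _ := Fintype.ofFinite G
  intro χ hχ
  obtain ⟨K₀, n₀, R₀, hA₀, hS₀⟩ := hχ
  have hNO := noOdd_of_stable K₀ R₀ hS₀
  obtain ⟨s, hs, hsd⟩ := exists_skew_rat hNO
  obtain ⟨B₀, hB₀, hpos, -⟩ := exists_pos_gram K₀ R₀
  obtain ⟨a, ha⟩ := det_const R₀ hA₀ hB₀ s
  -- `a ≠ 0`
  have ha0 : a ≠ 0 := by
    rw [det_mrep, ha ℂ n₀ _ (mmap_affords _ hA₀)] at hsd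
    exact_mod_cast hsd
  -- `a > 0`
  have hapos : 0 < a := by
    obtain ⟨b, hb⟩ := gram_mul_skew R₀ hB₀ hs
    rw [ha K₀ n₀ R₀ hA₀] at hb
    have hb' : ((B₀.det : K₀) : ℝ) * (a : ℝ) = ((b : K₀) : ℝ) ^ 2 := by
      have := congrArg (fun x : K₀ => (x : ℝ)) hb
      push_cast at this
      exact this
    have h1 : 0 ≤ ((B₀.det : K₀) : ℝ) * (a : ℝ) := by rw [hb']; positivity
    have h2 : 0 ≤ (a : ℝ) := nonneg_of_mul_nonneg_right h1 hpos
    have h3 : (0 : ℚ) ≤ a := by exact_mod_cast h2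
    exact lt_of_le_of_ne h3 (Ne.symm ha0)
  -- even valuation
  have hev : Even (padicValRat 2 a) := by
    obtain ⟨R', B', hR', hB'⟩ := exists_algebraic R₀ hA₀ hB₀
    have : Algebra.IsAlgebraic ℚ (AlgebraicClosure ℚ) := AlgebraicClosure.isAlgebraic ℚ
    let f : AlgebraicClosure ℚ →+* PadicAlgCl 2 :=
      (IsAlgClosed.lift : AlgebraicClosure ℚ →ₐ[ℚ] PadicAlgCl 2).toRingHom
    have hO : Orth (mrep (mmap f R')) := orth_of_gram (mmap_gram f hB')
    have hAf : Affords (mmap f R') χ := mmap_affords f hR'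
    have hF : FxC gal2 (mrep (mmap f R')) := by
      intro g
      rw [mrep_char, hAf g]
      exact fx_ratCast _ _
    have hdet : LinearMap.det (act (mrep (mmap f R')) (fun g => ((s g : ℚ) : PadicAlgCl 2))) =
        (a : PadicAlgCl 2) := by
      rw [det_mrep, ha (PadicAlgCl 2) n₀ _ hAf]
    have hne : LinearMap.det (act (mrep (mmap f R')) (fun g => ((s g : ℚ) : PadicAlgCl 2))) ≠ 0 := by
      rw [hdet]
      exact_mod_cast ha0
    have h := star hA hB ok_gal2 hO hF (s := fun g => ((s g : ℚ) : PadicAlgCl 2))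
      (fun g => fx_ratCast _ _) (fun g => by rw [hs g]; push_cast; rfl) hne
    rw [hdet] at h
    exact even_of_sqV ha0 h
  obtain ⟨b, c, hbsf, hbodd, hc, habc⟩ := exists_squarefree hapos hev
  refine ⟨b, hbsf, hbodd, ?_⟩
  intro K n R hR B hB
  obtain ⟨d, hd⟩ := gram_mul_skew R hB hs
  rw [ha K n R hR] at hd
  have hBne : B.det ≠ 0 := hB.2.1
  have hb0 : (b : K) ≠ 0 := by
    have : b ≠ 0 := hbsf.ne_zero
    exact_mod_cast this
  have hc0 : (c : K) ≠ 0 := by exact_mod_cast hc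
  have haK : (a : K) = (b : K) * (c : K) ^ 2 := by rw [habc]; push_cast; rfl
  have ha0K : (a : K) ≠ 0 := by rw [haK]; exact mul_ne_zero hb0 (pow_ne_zero 2 hc0)
  have hd0 : d ≠ 0 := by
    rintro rfl
    rw [zero_pow two_ne_zero] at hd
    exact (mul_ne_zero hBne ha0K) hd
  refine ⟨d / ((b : K) * (c : K)), div_ne_zero hd0 (mul_ne_zero hb0 hc0), ?_⟩
  rw [haK] at hd
  field_simp
  rw [← hd]
  ring

end

end Parker
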