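import Pool.Agent.Parker.Defs
import Pool.Agent.Parker.P01
import Pool.Agent.Parker.P08

/-!
# MP_6c3636_al, module P33: rank one data in characteristic two: definition, the action on the
cosets, multiplicity one (helper7)
-/

namespace Parker

universe u v w

noncomputable section

/-- Rank one data in characteristic two (satisfied by `PSL_2(2^n)`, `Sz(2^{2n+1})`): `U` is a
nontrivial `2`-group normalized by the group `T` of odd order, `w` is an involution inverting `T`,
`S = U T ∪ U T w U`, `U ∩ w U T w = 1`, all squares of elements of `U` are in the commutator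
subgroup of `U`, and `T` acts simply transitively on the nontrivial homomorphisms `U → {±1}`. -/
structure RankOne {S : Type u} [Group S] (U T : Subgroup S) (w : S) : Prop where
  two : ∃ k : ℕ, Nat.card U = 2 ^ k
  ne : U ≠ ⊥
  odd : Odd (Nat.card T)
  norm : ∀ t ∈ T, ∀ u ∈ U, t * u * t⁻¹ ∈ U
  bruhat : ∀ g : S, (∃ u ∈ U, ∃ t ∈ T, g = u * t) ∨
    ∃ u ∈ U, ∃ t ∈ T, ∃ u' ∈ U, g = u * t * w * u'
  ww : w * w = 1
  inv : ∀ t ∈ T, w * t * w = t⁻¹
  triv : ∀ u ∈ U, ∀ u' ∈ U, ∀ t ∈ T, u = w * (u' * t) * w → u = 1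
  sq : ∀ x : U, x * x ∈ commutator U
  trans : ∀ lam mu : U →* ℤˣ, lam ≠ 1 → mu ≠ 1 →
    ∃! t : T, ∀ x y : U, (y : S) = (t : S)⁻¹ * x * t → mu x = lam y

variable {S : Type u} [Group S] [Finite S] {U T : Subgroup S} {w : S}

/-- the Borel subgroup `U T` -/
def RankOne.borel (h : RankOne U T w) : Subgroup S where
  carrier := {g | ∃ u ∈ U, ∃ t ∈ T, g = u * t}
  mul_mem' := by
    rintro _ _ ⟨u, hu, t, ht, rfl⟩ ⟨u', hu', t', ht', rfl⟩
    exact ⟨u * (t * u' * t⁻¹), U.mul_mem hu (h.norm t ht u' hu'), t * t', T.mul_mem ht ht',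
      by group⟩
  one_mem' := ⟨1, U.one_mem, 1, T.one_mem, by simp⟩
  inv_mem' := by
    rintro _ ⟨u, hu, t, ht, rfl⟩
    refine ⟨t⁻¹ * u⁻¹ * t, ?_, t⁻¹, T.inv_mem ht, by group⟩
    have := h.norm t⁻¹ (T.inv_mem ht) u⁻¹ (U.inv_mem hu)
    simpa using this

omit [Finite S] in
private theorem U_le (h : RankOne U T w) : U ≤ h.borel := fun u hu =>
  ⟨u, hu, 1, T.one_mem, by simp⟩

omit [Finite S] in
private theorem T_le (h : RankOne U T w) : T ≤ h.borel := fun t ht =>
  ⟨1, U.one_mem, t, ht, by simp⟩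

omit [Finite S] in
private theorem T_comm (h : RankOne U T w) {s t : S} (hs : s ∈ T) (ht : t ∈ T) :
    s * t = t * s := by
  have h1 := h.inv _ (T.mul_mem hs ht)
  have h2 := h.inv _ hs
  have h3 := h.inv _ ht
  have h4 : w * (s * t) * w = (w * s * w) * (w * t * w) := by
    have : (w * s * w) * (w * t * w) = w * s * (w * w) * t * w := by group
    rw [this, h.ww]; group
  rw [h1, h2, h3, ← mul_inv_rev] at h4
  exact inv_injective h4

theorem RankOne.borel_solvable (h : RankOne U T w) : Group.IsSolvable h.borel := by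
  have : Fact (Nat.Prime 2) := ⟨Nat.prime_two⟩
  obtain ⟨k, hk⟩ := h.two
  have hp : IsPGroup 2 U := IsPGroup.of_card hk
  have : Group.IsNilpotent U := hp.isNilpotent
  have hUs : Group.IsSolvable U := inferInstance
  set N : Subgroup h.borel := U.subgroupOf h.borel with hN
  have hnorm : N.Normal := by
    constructor
    rintro ⟨n, _⟩ hn ⟨g, hg⟩
    obtain ⟨u, hu, t, ht, rfl⟩ := hg
    rw [hN, Subgroup.mem_subgroupOf] at hn ⊢
    change u * t * n * (u * t)⁻¹ ∈ U
    have : u * t * n * (u * t)⁻¹ = u * (t * n * t⁻¹) * u⁻¹ := by group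
    rw [this]
    exact U.mul_mem (U.mul_mem hu (h.norm t ht n hn)) (U.inv_mem hu)
  have hNs : Group.IsSolvable N :=
    Group.isSolvable_of_surjective (f := (Subgroup.subgroupOfEquivOfLe (U_le h)).symm.toMonoidHom)
      (Subgroup.subgroupOfEquivOfLe (U_le h)).symm.surjective
  rw [Group.isSolvable_iff_subgroup_quotient N]
  refine ⟨hNs, Group.isSolvable_of_comm ?_⟩
  have key : ∀ a : h.borel ⧸ N, ∃ t : h.borel, (t : S) ∈ T ∧ a = ((t : h.borel) : h.borel ⧸ N) := by
    intro a
    obtain ⟨⟨x, hx⟩, rfl⟩ := QuotientGroup.mk_surjective a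
    have hx' := hx
    obtain ⟨u, hu, t, ht, e⟩ := hx'
    refine ⟨⟨t, T_le h ht⟩, ht, ?_⟩
    rw [QuotientGroup.eq, hN, Subgroup.mem_subgroupOf]
    change x⁻¹ * t ∈ U
    have : x⁻¹ * t = t⁻¹ * u⁻¹ * (t⁻¹)⁻¹ := by rw [e]; group
    rw [this]
    exact h.norm _ (T.inv_mem ht) _ (U.inv_mem hu)
  intro a b
  obtain ⟨s, hs, rfl⟩ := key a
  obtain ⟨t, ht, rfl⟩ := key b
  rw [← QuotientGroup.mk_mul, ← QuotientGroup.mk_mul]
  congr 1
  apply Subtype.ext
  exact T_comm h hs ht

omit [Finite S] in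
private theorem w_inv (h : RankOne U T w) : w⁻¹ = w := by
  rw [inv_eq_iff_mul_eq_one]; exact h.ww

omit [Finite S] in
private theorem w_not_mem (h : RankOne U T w) : w ∉ h.borel := by
  intro hw
  apply h.ne
  rw [Subgroup.eq_bot_iff_forall]
  intro u hu
  have h1 : w * u * w ∈ h.borel :=
    h.borel.mul_mem (h.borel.mul_mem hw (U_le h hu)) hw
  obtain ⟨u', hu', t, ht, e⟩ := h1
  refine h.triv u hu u' hu' t ht ?_
  rw [← e]
  have : w * (w * u * w) * w = (w * w) * u * (w * w) := by group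
  rw [this, h.ww]; group

/-- the map `Option U → S / B`. -/
private def quo (h : RankOne U T w) : Option U → S ⧸ h.borel
  | none => ((1 : S) : S ⧸ h.borel)
  | some u => (((u : S) * w : S) : S ⧸ h.borel)

omit [Finite S] in
private theorem quo_some (h : RankOne U T w) (u : U) :
    quo h (some u) = (((u : S) * w : S) : S ⧸ h.borel) := rfl

private theorem uw_not_mem (h : RankOne U T w) {u : S} (hu : u ∈ U) : u * w ∉ h.borel := by
  intro hw
  apply w_not_mem h
  have := h.borel.mul_mem (h.borel.inv_mem (U_le h hu)) hw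
  simpa using this

private theorem quo_bij (h : RankOne U T w) : Function.Bijective (quo h) := by
  constructor
  · intro a b hab
    rcases a with _ | a <;> rcases b with _ | b
    · rfl
    · exfalso
      change ((1 : S) : S ⧸ h.borel) = (((b : S) * w : S) : S ⧸ h.borel) at hab
      rw [QuotientGroup.eq] at hab
      apply uw_not_mem h b.2
      simpa using hab
    · exfalso
      change (((a : S) * w : S) : S ⧸ h.borel) = ((1 : S) : S ⧸ h.borel) at hab
      have hab := hab.symm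
      rw [QuotientGroup.eq] at hab
      apply uw_not_mem h a.2
      simpa using hab
    · change (((a : S) * w : S) : S ⧸ h.borel) = (((b : S) * w : S) : S ⧸ h.borel) at hab
      rw [QuotientGroup.eq] at hab
      obtain ⟨u', hu', t, ht, e⟩ := hab
      have h1 : (a : S)⁻¹ * b = 1 := by
        refine h.triv _ (U.mul_mem (U.inv_mem a.2) b.2) u' hu' t ht ?_
        rw [← e, mul_inv_rev, w_inv h]
        have : w * (w * (a : S)⁻¹ * (b * w)) * w = (w * w) * ((a : S)⁻¹ * b) * (w * w) := by group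
        rw [this, h.ww]; group
      congr 1
      apply Subtype.ext
      exact inv_mul_eq_one.mp h1
  · intro x
    obtain ⟨g, rfl⟩ := QuotientGroup.mk_surjective x
    rcases h.bruhat g⁻¹ with ⟨u, hu, t, ht, e⟩ | ⟨u, hu, t, ht, u', hu', e⟩
    · refine ⟨none, ?_⟩
      change ((1 : S) : S ⧸ h.borel) = _
      rw [QuotientGroup.eq]
      have : g⁻¹ ∈ h.borel := ⟨u, hu, t, ht, e⟩
      simpa using this
    · refine ⟨some ⟨u'⁻¹, U.inv_mem hu'⟩, ?_⟩
      change (((u'⁻¹ : S) * w : S) : S ⧸ h.borel) = _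
      rw [QuotientGroup.eq]
      have hg : g = u'⁻¹ * w⁻¹ * t⁻¹ * u⁻¹ := by
        have := congrArg (fun x => x⁻¹) e
        simp only [inv_inv] at this
        rw [this]; group
      have : (u'⁻¹ * w)⁻¹ * g = t⁻¹ * u⁻¹ := by
        rw [hg, w_inv h, mul_inv_rev, inv_inv, w_inv h]
        have : w * u' * (u'⁻¹ * w * t⁻¹ * u⁻¹) = (w * w) * (t⁻¹ * u⁻¹) := by group
        rw [this, h.ww, one_mul]
      rw [this]
      exact h.borel.mul_mem (h.borel.inv_mem (T_le h ht)) (h.borel.inv_mem (U_le h hu))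

/-- `|S / B| = 1 + |U|` is odd -/
theorem RankOne.card_quot (h : RankOne U T w) :
    Nat.card (S ⧸ h.borel) = 1 + Nat.card U := by
  rw [← Nat.card_eq_of_bijective _ (quo_bij h), Finite.card_option, add_comm]

theorem RankOne.two_trans (h : RankOne U T w) :
    ∀ x y x' y' : S ⧸ h.borel, x ≠ y → x' ≠ y' → ∃ g : S, g • x = x' ∧ g • y = y' := by
  have key : ∀ x y : S ⧸ h.borel, x ≠ y → ∃ g : S, g • x = ((1 : S) : S ⧸ h.borel) ∧
      g • y = (w : S ⧸ h.borel) := by
    intro x y hxy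
    obtain ⟨a, rfl⟩ := QuotientGroup.mk_surjective x
    obtain ⟨z, hz⟩ := (quo_bij h).2 (a⁻¹ • y)
    rcases z with _ | u
    · exfalso
      apply hxy
      change ((1 : S) : S ⧸ h.borel) = a⁻¹ • y at hz
      have : y = a • ((1 : S) : S ⧸ h.borel) := by rw [hz, smul_inv_smul]
      rw [this, MulAction.Quotient.smul_coe, smul_eq_mul, mul_one]
    · refine ⟨(u : S)⁻¹ * a⁻¹, ?_, ?_⟩
      · rw [MulAction.Quotient.smul_coe, smul_eq_mul, QuotientGroup.eq]
        have : ((u : S)⁻¹ * a⁻¹ * a)⁻¹ * 1 = u := by group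
        rw [this]
        exact U_le h u.2
      · rw [mul_smul, ← hz, quo_some, MulAction.Quotient.smul_coe, smul_eq_mul,
          inv_mul_cancel_left]
  intro x y x' y' hxy hxy'
  obtain ⟨g, hg1, hg2⟩ := key x y hxy
  obtain ⟨g', hg1', hg2'⟩ := key x' y' hxy'
  refine ⟨g'⁻¹ * g, ?_, ?_⟩
  · rw [mul_smul, hg1, ← hg1', inv_smul_smul]
  · rw [mul_smul, hg2, ← hg2', inv_smul_smul]

variable {Ω : Type} [Field Ω] [IsAlgClosed Ω] [CharZero Ω]
  {V : Type v} [AddCommGroup V] [Module Ω V] [FiniteDimensional Ω V]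

section GG

omit [Finite S] [IsAlgClosed Ω] [CharZero Ω] [FiniteDimensional Ω V]

/-- the character with values in `Ω` -/
private def LL (Ω : Type) [Field Ω] (lam : U →* ℤˣ) (u : U) : Ω := ((lam u : ℤ) : Ω)

private theorem LL_mul (lam : U →* ℤˣ) (x y : U) : LL Ω lam (x * y) = LL Ω lam x * LL Ω lam y := by
  simp [LL]

private theorem LL_one (lam : U →* ℤˣ) : LL Ω lam 1 = 1 := by
  simp [LL]

private theorem LL_sq (lam : U →* ℤˣ) (x : U) : LL Ω lam x * LL Ω lam x = 1 := by
  rcases Int.units_eq_one_or (lam x) with h | h <;> simp [LL, h]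

private theorem LL_inv (lam : U →* ℤˣ) (x : U) : LL Ω lam x⁻¹ = LL Ω lam x := by
  have h1 : LL Ω lam x⁻¹ * LL Ω lam x = 1 := by
    rw [← LL_mul, inv_mul_cancel, LL_one]
  have h2 := LL_sq (Ω := Ω) lam x
  calc LL Ω lam x⁻¹ = LL Ω lam x⁻¹ * (LL Ω lam x * LL Ω lam x) := by rw [h2, mul_one]
    _ = LL Ω lam x := by rw [← mul_assoc, h1, one_mul]

/-- the idempotent -/
private def EE (ρ : Representation Ω S V) (lam : U →* ℤˣ) [Fintype U] : Module.End Ω V :=
  (Fintype.card U : Ω)⁻¹ • ∑ u : U, LL Ω lam u • ρ u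

variable [Fintype U]

private theorem EE_right (ρ : Representation Ω S V) (lam : U →* ℤˣ) (x : U) :
    EE ρ lam * ρ x = LL Ω lam x • EE ρ lam := by
  unfold EE
  have key : ∑ u : U, (LL Ω lam u • ρ u) * ρ x = ∑ u : U, LL Ω lam x • (LL Ω lam u • ρ u) := by
    refine Fintype.sum_equiv (Equiv.mulRight x) _ _ (fun u => ?_)
    rw [Equiv.coe_mulRight, smul_mul_assoc, ← map_mul, smul_smul, LL_mul, mul_comm (LL Ω lam u),
      ← mul_assoc, LL_sq, one_mul]
    rfl
  rw [smul_mul_assoc, Finset.sum_mul, key, ← Finset.smul_sum, smul_comm]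

private theorem EE_left (ρ : Representation Ω S V) (lam : U →* ℤˣ) (x : U) :
    ρ x * EE ρ lam = LL Ω lam x • EE ρ lam := by
  unfold EE
  have key : ∑ u : U, ρ x * (LL Ω lam u • ρ u) = ∑ u : U, LL Ω lam x • (LL Ω lam u • ρ u) := by
    refine Fintype.sum_equiv (Equiv.mulLeft x) _ _ (fun u => ?_)
    rw [Equiv.coe_mulLeft, mul_smul_comm, ← map_mul, smul_smul, LL_mul,
      ← mul_assoc, LL_sq, one_mul]
    rfl
  rw [mul_smul_comm, Finset.mul_sum, key, ← Finset.smul_sum, smul_comm]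

private theorem EE_fix [CharZero Ω] (ρ : Representation Ω S V) (lam : U →* ℤˣ) {v : V}
    (h1 : ∀ u : U, ρ u v = ((lam u : ℤ) : Ω) • v) : EE ρ lam v = v := by
  have hc : (Fintype.card U : Ω) ≠ 0 := Nat.cast_ne_zero.mpr Fintype.card_ne_zero
  unfold EE
  rw [LinearMap.smul_apply, LinearMap.sum_apply]
  have : ∀ u : U, (LL Ω lam u • ρ u) v = v := by
    intro u
    rw [LinearMap.smul_apply, h1 u, smul_smul]
    change (LL Ω lam u * LL Ω lam u) • v = v
    rw [LL_sq, one_smul]
  rw [Finset.sum_congr rfl fun u _ => this u, Finset.sum_const, Finset.card_univ,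
    ← Nat.cast_smul_eq_nsmul Ω, smul_smul, inv_mul_cancel₀ hc, one_smul]

private theorem EE_idem [CharZero Ω] (ρ : Representation Ω S V) (lam : U →* ℤˣ) :
    EE ρ lam * EE ρ lam = EE ρ lam := by
  ext v
  rw [Module.End.mul_apply]
  apply EE_fix
  intro u
  have := congrArg (fun f : Module.End Ω V => f v) (EE_left ρ lam u)
  simpa [LL] using this

omit [Fintype U] in
private theorem LL_inj [CharZero Ω] {lam : U →* ℤˣ} {x y : U} (h : LL Ω lam x = LL Ω lam y) :
    lam x = lam y := by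
  unfold LL at h
  exact Units.ext (by exact_mod_cast h)

private theorem E_t [CharZero Ω] (h : RankOne U T w) {lam : U →* ℤˣ} (hl : lam ≠ 1)
    (ρ : Representation Ω S V) {t : S} (ht : t ∈ T) (ht1 : t ≠ 1) :
    EE ρ lam * ρ t * EE ρ lam = 0 := by
  have hconj : ∀ u ∈ U, t⁻¹ * u * t ∈ U := by
    intro u hu
    have := h.norm t⁻¹ (T.inv_mem ht) u hu
    simpa using this
  obtain ⟨u, hu⟩ : ∃ u : U, lam ⟨t⁻¹ * u * t, hconj u u.2⟩ ≠ lam u := by
    by_contra hcon
    push Not at hcon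
    obtain ⟨t0, -, ht0⟩ := h.trans lam lam hl hl
    apply ht1
    have e1 := ht0 ⟨t, ht⟩ (by
      intro x y hxy
      have : y = ⟨t⁻¹ * x * t, hconj x x.2⟩ := Subtype.ext hxy
      rw [this, hcon x])
    have e2 := ht0 1 (by
      intro x y hxy
      have : y = x := Subtype.ext (by rw [hxy]; simp)
      rw [this])
    have := e1.trans e2.symm
    exact congrArg Subtype.val this
  have h1 : EE ρ lam * ρ (u * t : S) * EE ρ lam = LL Ω lam u • (EE ρ lam * ρ t * EE ρ lam) := by
    rw [map_mul, ← mul_assoc, EE_right, smul_mul_assoc, smul_mul_assoc]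
  have h2 : EE ρ lam * ρ (u * t : S) * EE ρ lam =
      LL Ω lam ⟨t⁻¹ * u * t, hconj u u.2⟩ • (EE ρ lam * ρ t * EE ρ lam) := by
    have : (u * t : S) = t * ((⟨t⁻¹ * u * t, hconj u u.2⟩ : U) : S) := by
      change (u * t : S) = t * (t⁻¹ * u * t); group
    rw [this, map_mul, mul_assoc, mul_assoc, EE_left, mul_smul_comm, mul_smul_comm, ← mul_assoc]
  rw [h1] at h2
  have h3 : (LL Ω lam u - LL Ω lam ⟨t⁻¹ * u * t, hconj u u.2⟩) •
      (EE ρ lam * ρ t * EE ρ lam) = 0 := by
    rw [sub_smul, h2, sub_self]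
  rcases smul_eq_zero.mp h3 with h4 | h4
  · exact absurd (LL_inj (sub_eq_zero.mp h4)).symm hu
  · exact h4

private theorem E_g (ρ : Representation Ω S V) (lam : U →* ℤˣ) (u u' : U) (g : S) :
    EE ρ lam * ρ (u * g * u' : S) * EE ρ lam =
      (LL Ω lam u * LL Ω lam u') • (EE ρ lam * ρ g * EE ρ lam) := by
  rw [map_mul, map_mul, ← mul_assoc, ← mul_assoc, EE_right, mul_assoc (_ * _) (ρ u'), EE_left,
    smul_mul_assoc, smul_mul_assoc, mul_smul_comm, smul_smul]

private theorem E_inv [CharZero Ω] (h : RankOne U T w) {lam : U →* ℤˣ} (hl : lam ≠ 1)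
    (ρ : Representation Ω S V) (g : S) :
    EE ρ lam * ρ g⁻¹ * EE ρ lam = EE ρ lam * ρ g * EE ρ lam := by
  rcases h.bruhat g with ⟨u, hu, t, ht, rfl⟩ | ⟨u, hu, t, ht, u', hu', rfl⟩
  · have e1 := E_g ρ lam ⟨u, hu⟩ 1 t
    have e2 := E_g ρ lam 1 ⟨u⁻¹, U.inv_mem hu⟩ t⁻¹
    simp only [Subgroup.coe_one, mul_one, one_mul] at e1 e2
    rw [mul_inv_rev, e1, e2]
    by_cases h1 : t = 1
    · subst h1
      rw [inv_one, LL_one, one_mul, mul_one]
      have := LL_inv (Ω := Ω) lam ⟨u, hu⟩
      rw [← this]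
      rfl
    · rw [E_t h hl ρ ht h1, E_t h hl ρ (T.inv_mem ht) (by simpa using h1), smul_zero, smul_zero]
  · have e1 := E_g ρ lam ⟨u, hu⟩ ⟨u', hu'⟩ (t * w)
    have e2 := E_g ρ lam ⟨u'⁻¹, U.inv_mem hu'⟩ ⟨u⁻¹, U.inv_mem hu⟩ (t * w)
    have e3 : (u * t * w * u')⁻¹ = u'⁻¹ * (t * w) * u⁻¹ := by
      have h1 := h.inv _ (T.inv_mem ht)
      have h2 : w * t⁻¹ = t * w := by
        have : w * t⁻¹ * w * w = t * w := by rw [h1, inv_inv]
        rw [mul_assoc, h.ww, mul_one] at this
        exact this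
      rw [← h2, mul_inv_rev, mul_inv_rev, mul_inv_rev, w_inv h]; group
    have e4 : (((⟨u, hu⟩ : U) : S) * (t * w) * ((⟨u', hu'⟩ : U) : S)) = u * t * w * u' := by
      change u * (t * w) * u' = u * t * w * u'; group
    rw [e4] at e1
    rw [e3, e1]
    refine e2.trans ?_
    congr 1
    have h5 : (⟨u⁻¹, U.inv_mem hu⟩ : U) = (⟨u, hu⟩ : U)⁻¹ := rfl
    have h6 : (⟨u'⁻¹, U.inv_mem hu'⟩ : U) = (⟨u', hu'⟩ : U)⁻¹ := rfl
    rw [h5, h6, LL_inv, LL_inv, mul_comm]

private theorem E_comm [CharZero Ω] (h : RankOne U T w) {lam : U →* ℤˣ} (hl : lam ≠ 1)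
    (ρ : Representation Ω S V) (g k : S) :
    EE ρ lam * ρ g * EE ρ lam * ρ k * EE ρ lam = EE ρ lam * ρ k * EE ρ lam * ρ g * EE ρ lam := by
  have expand : ∀ g k : S, EE ρ lam * ρ g * EE ρ lam * ρ k * EE ρ lam =
      (Fintype.card U : Ω)⁻¹ • ∑ u : U, LL Ω lam u • (EE ρ lam * ρ (g * u * k) * EE ρ lam) := by
    intro g k
    have : EE ρ lam * ρ g * EE ρ lam * ρ k * EE ρ lam =
        EE ρ lam * (ρ g * ((Fintype.card U : Ω)⁻¹ • ∑ u : U, LL Ω lam u • ρ u) * ρ k) *
          EE ρ lam := by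
      change _ = EE ρ lam * (ρ g * EE ρ lam * ρ k) * EE ρ lam
      simp only [mul_assoc]
    rw [this, mul_smul_comm, smul_mul_assoc, mul_smul_comm, smul_mul_assoc, Finset.mul_sum,
      Finset.sum_mul, Finset.mul_sum, Finset.sum_mul]
    congr 1
    refine Finset.sum_congr rfl (fun u _ => ?_)
    rw [mul_smul_comm, smul_mul_assoc, mul_smul_comm, smul_mul_assoc, map_mul, map_mul]
  have step : EE ρ lam * ρ g * EE ρ lam * ρ k * EE ρ lam =
      EE ρ lam * ρ k⁻¹ * EE ρ lam * ρ g⁻¹ * EE ρ lam := by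
    rw [expand, expand]
    congr 1
    refine Fintype.sum_equiv (Equiv.inv U) _ _ (fun u => ?_)
    rw [Equiv.inv_apply, LL_inv, ← E_inv h hl ρ (g * u * k)]
    have e1 : (g * (u : S) * k)⁻¹ = k⁻¹ * ((u⁻¹ : U) : S) * g⁻¹ := by
      rw [Subgroup.coe_inv]; group
    rw [e1]
  have fin : ∀ g k : S, EE ρ lam * ρ g * EE ρ lam * ρ k * EE ρ lam =
      (EE ρ lam * ρ g * EE ρ lam) * (EE ρ lam * ρ k * EE ρ lam) := by
    intro g k
    have e2 := EE_idem ρ lam
    calc EE ρ lam * ρ g * EE ρ lam * ρ k * EE ρ lam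
        = EE ρ lam * ρ g * (EE ρ lam * EE ρ lam) * ρ k * EE ρ lam := by rw [e2]
      _ = _ := by simp only [mul_assoc]
  rw [step, fin, E_inv h hl ρ g, E_inv h hl ρ k, ← fin]

end GG

/-- multiplicity one (Gelfand-Graev): for a nontrivial `lam : U → {±1}` the `lam`-eigenspace of an
irreducible representation has dimension at most one.  With `e = |U|⁻¹ ∑ lam(u) u`: `e g e` is
`0` or a multiple of `e` for `g ∈ UT` (`trans`: `lam^t ≠ lam` for `t ≠ 1`), and a multiple of
`e (t w) e` for `g = u t w u'`, where `(t w)⁻¹ = t w`. So the anti-automorphism `g ↦ g⁻¹` fixes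
`e Ω[S] e` pointwise, hence `e Ω[S] e` is commutative; it acts irreducibly on `e V`. -/
theorem RankOne.mult_one (h : RankOne U T w) {lam : U →* ℤˣ} (hl : lam ≠ 1)
    {ρ : Representation Ω S V} (hρ : ρ.IsIrreducible) {v v' : V} (hv : v ≠ 0)
    (h1 : ∀ u : U, ρ u v = ((lam u : ℤ) : Ω) • v)
    (h2 : ∀ u : U, ρ u v' = ((lam u : ℤ) : Ω) • v') : ∃ a : Ω, v' = a • v := by
  classical
  have : Fintype U := Fintype.ofFinite U
  set E := EE ρ lam with hE
  have hEv : E v = v := EE_fix ρ lam h1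
  have hEv' : E v' = v' := EE_fix ρ lam h2
  have hid : ∀ x, E (E x) = E x := by
    intro x
    have := congrArg (fun f : Module.End Ω V => f x) (EE_idem ρ lam)
    simpa [hE] using this
  -- the orbit of a nonzero vector spans
  have hspan : ∀ x : V, x ≠ 0 → Submodule.span Ω (Set.range fun g : S => ρ g x) = ⊤ := by
    intro x hx
    let W : Subrepresentation ρ :=
      { toSubmodule := Submodule.span Ω (Set.range fun g : S => ρ g x)
        apply_mem_toSubmodule := by
          intro g y hy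
          induction hy using Submodule.span_induction with
          | mem y hy =>
            obtain ⟨k, rfl⟩ := hy
            refine Submodule.subset_span ⟨g * k, ?_⟩
            simp
          | zero => simp
          | add y z _ _ hy hz => rw [map_add]; exact Submodule.add_mem _ hy hz
          | smul a y _ hy => rw [map_smul]; exact Submodule.smul_mem _ a hy }
    rcases hρ.eq_bot_or_eq_top W with hW | hW
    · exfalso
      apply hx
      have h3 : x ∈ W.toSubmodule := Submodule.subset_span ⟨1, by simp⟩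
      rw [hW] at h3
      exact (Submodule.mem_bot Ω).mp h3
    · have := congrArg Subrepresentation.toSubmodule hW
      exact this
  -- every element of the range of E is a combination of E ρ g x
  have hspan' : ∀ x : V, x ≠ 0 → ∀ y : V, E y = y →
      y ∈ Submodule.span Ω (Set.range fun g : S => E (ρ g x)) := by
    intro x hx y hy
    have h3 : y ∈ Submodule.span Ω (Set.range fun g : S => ρ g x) := by
      rw [hspan x hx]; trivial
    rw [← hy]
    have h4 := Submodule.mem_map_of_mem (f := E) h3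
    rw [Submodule.map_span, ← Set.range_comp] at h4
    exact h4
  -- the operators E ρ g act as scalars on the range of E
  have hscal : ∀ g : S, ∃ c : Ω, ∀ y : V, E y = y → E (ρ g y) = c • y := by
    intro g
    let M := LinearMap.range E
    have hM : ∀ y : V, y ∈ M ↔ E y = y := by
      intro y
      constructor
      · rintro ⟨z, rfl⟩; exact hid z
      · intro hy; exact ⟨y, hy⟩
    let X : M →ₗ[Ω] M := LinearMap.restrict (E * ρ g) (p := M) (q := M) (by
      intro y _
      exact ⟨ρ g y, rfl⟩)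
    have : Nontrivial M := ⟨⟨⟨v, (hM v).2 hEv⟩, 0, by
      intro h0
      exact hv (congrArg Subtype.val h0)⟩⟩
    obtain ⟨c, hc⟩ := Module.End.exists_eigenvalue X
    obtain ⟨x, hx⟩ := hc.exists_hasEigenvector
    have hx0 : (x : V) ≠ 0 := fun h0 => hx.2 (Subtype.ext h0)
    have hxE : E x = x := (hM x).1 x.2
    have hxg : E (ρ g x) = c • (x : V) := by
      have := congrArg Subtype.val hx.apply_eq_smul
      exact this
    refine ⟨c, fun y hy => ?_⟩
    have h3 := hspan' x hx0 y hy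
    have key : ∀ z ∈ Submodule.span Ω (Set.range fun k : S => E (ρ k x)),
        E (ρ g z) = c • z := by
      intro z hz
      induction hz using Submodule.span_induction with
      | mem z hz =>
        obtain ⟨k, rfl⟩ := hz
        have h4 := congrArg (fun f : Module.End Ω V => f x) (E_comm h hl ρ g k)
        simp only [Module.End.mul_apply] at h4
        rw [← hE, hxE, hxg, map_smul, map_smul] at h4
        exact h4
      | zero => simp
      | add a b _ _ ha hb => rw [map_add, map_add, ha, hb, smul_add]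
      | smul a b _ hb => rw [map_smul, map_smul, hb, smul_comm]
    exact key y h3
  have h5 := hspan' v hv v' hEv'
  have h6 : Submodule.span Ω (Set.range fun g : S => E (ρ g v)) ≤ Submodule.span Ω {v} := by
    rw [Submodule.span_le]
    rintro _ ⟨g, rfl⟩
    obtain ⟨c, hc⟩ := hscal g
    change E (ρ g v) ∈ Submodule.span Ω {v}
    rw [hc v hEv]
    exact Submodule.smul_mem _ _ (Submodule.mem_span_singleton_self v)
  obtain ⟨a, ha⟩ := Submodule.mem_span_singleton.mp (h6 h5)
  exact ⟨a, ha.symm⟩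

end

end Parker
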