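import Pool.Agent.Parker.Defs
import Pool.Agent.Parker.P01
import Pool.Agent.Parker.P02
import Pool.Agent.Parker.P08
import Pool.Agent.Parker.P12

/-!
# MP_6c3636_al, module P30: unramified extensions, Lemma U (helper7)
-/

namespace Parker

universe u v

noncomputable section

variable {Ω : Type} [Field Ω] [IsAlgClosed Ω] [CharZero Ω] {c : Ctx Ω}

namespace P30_aux

open Polynomial

omit [IsAlgClosed Ω] [CharZero Ω] in
theorem av_sum_le (c : Ctx Ω) {ι : Type*} (s : Finset ι) (f : ι → Ω) {B : ℝ} (hB : 0 ≤ B)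
    (h : ∀ i ∈ s, c.av (f i) ≤ B) : c.av (∑ i ∈ s, f i) ≤ B := by
  classical
  induction s using Finset.induction_on with
  | empty => simpa using hB
  | insert a s ha ih =>
    rw [Finset.sum_insert ha]
    refine (c.na _ _).trans (max_le (h a (Finset.mem_insert_self a s)) (ih ?_))
    exact fun i hi => h i (Finset.mem_insert_of_mem hi)

/-- the coefficients are bounded by `B` -/
def Bd (c : Ctx Ω) (B : ℝ) (p : Polynomial Ω) : Prop := ∀ n, c.av (p.coeff n) ≤ B

omit [IsAlgClosed Ω] [CharZero Ω] in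
theorem bd_mul {c : Ctx Ω} {B B' : ℝ} {p q : Polynomial Ω} (hB : 0 ≤ B) (hB' : 0 ≤ B')
    (hp : Bd c B p) (hq : Bd c B' q) : Bd c (B * B') (p * q) := by
  intro n
  rw [Polynomial.coeff_mul]
  apply av_sum_le c _ _ (mul_nonneg hB hB')
  intro i _
  rw [map_mul]
  exact mul_le_mul (hp _) (hq _) (c.av.nonneg _) hB

omit [IsAlgClosed Ω] [CharZero Ω] in
theorem bd_sum {c : Ctx Ω} {ι : Type*} {s : Finset ι} {f : ι → Polynomial Ω} {B : ℝ}
    (hB : 0 ≤ B) (h : ∀ i ∈ s, Bd c B (f i)) : Bd c B (∑ i ∈ s, f i) := by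
  intro n
  rw [Polynomial.finsetSum_coeff]
  exact av_sum_le c _ _ hB fun i hi => h i hi n

omit [IsAlgClosed Ω] [CharZero Ω] in
theorem bd_C {c : Ctx Ω} (a : Ω) : Bd c (c.av a) (C a) := by
  intro n
  rw [Polynomial.coeff_C]
  split_ifs
  · exact le_rfl
  · rw [map_zero]; exact c.av.nonneg _

omit [IsAlgClosed Ω] [CharZero Ω] in
theorem bd_prod {c : Ctx Ω} {ι : Type*} {s : Finset ι} {f : ι → Polynomial Ω}
    (h : ∀ i ∈ s, Bd c 1 (f i)) : Bd c 1 (∏ i ∈ s, f i) := by
  classical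
  induction s using Finset.induction_on with
  | empty =>
    rw [Finset.prod_empty]
    have := bd_C (c := c) (1 : Ω)
    rwa [map_one, map_one] at this
  | insert a s ha ih =>
    rw [Finset.prod_insert ha]
    have h1 := bd_mul zero_le_one zero_le_one (h a (Finset.mem_insert_self a s))
      (ih fun i hi => h i (Finset.mem_insert_of_mem hi))
    rwa [one_mul] at h1

omit [IsAlgClosed Ω] [CharZero Ω] in
theorem bd_X_sub {c : Ctx Ω} {y : Ω} (hy : c.av y ≤ 1) : Bd c 1 (X - C y) := by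
  intro n
  rw [Polynomial.coeff_sub, sub_eq_add_neg]
  refine (c.na _ _).trans (max_le ?_ ?_)
  · rw [Polynomial.coeff_X]
    split_ifs
    · rw [map_one]
    · rw [map_zero]; exact zero_le_one
  · rw [map_neg_eq_map, Polynomial.coeff_C]
    split_ifs
    · exact hy
    · rw [map_zero]; exact zero_le_one

omit [CharZero Ω] in
theorem exists_prim [CharZero Ω] {r : ℕ} (hr : r ≠ 0) : ∃ ζ : Ω, IsPrimitiveRoot ζ r := by
  have : NeZero r := ⟨hr⟩
  have : NeZero (r : Ω) := ⟨Nat.cast_ne_zero.2 hr⟩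
  obtain ⟨ζ, h⟩ := IsAlgClosed.exists_root (cyclotomic r Ω)
    (by rw [degree_cyclotomic]; exact_mod_cast (Nat.totient_pos.2 (Nat.pos_of_ne_zero hr)).ne')
  exact ⟨ζ, (isRoot_cyclotomic_iff).1 h⟩

end P30_aux

open P30_aux in
/-- the value groups of `Γ` and of the stabilizer of the `r`-th roots of unity, `r` odd, agree:
let `Γr` be the stabilizer of a primitive `r`-th root of unity `ζ`, `ζ₁ … ζ_k` its conjugates under
`Γ`, `σ_i` coset representatives. If `x` is fixed by `Γr`, solve `∑_j c_j ζ_i^j = σ_i x`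
(Vandermonde, whose determinant has absolute value one by `av_sub_root`): `c_j` is `Γ`-fixed and
`|x| = max |c_j|`. -/
theorem inV_unramified {Γ : Subgroup (RingAut Ω)} (hΓ : Ok c 1 Γ) {r : ℕ} (hr : Odd r) {x : Ω}
    (hx : x ≠ 0) (hfix : ∀ σ ∈ Γ, (∀ ζ : Ω, ζ ^ r = 1 → σ ζ = ζ) → σ x = x) :
    InV c Γ (c.av x) := by
  classical
  have hr0 : r ≠ 0 := fun h => by rw [h] at hr; exact (by decide : ¬ Odd 0) hr
  have : NeZero r := ⟨hr0⟩
  obtain ⟨ζ, hζ⟩ := exists_prim (Ω := Ω) hr0
  -- the conjugates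
  set Z : Finset Ω := (Polynomial.nthRootsFinset r (1 : Ω)).filter (fun z => ∃ σ ∈ Γ, σ ζ = z)
    with hZ
  have hZm : ∀ σ ∈ Γ, σ ζ ∈ Z := by
    intro σ hσ
    rw [hZ, Finset.mem_filter]
    refine ⟨?_, σ, hσ, rfl⟩
    rw [Polynomial.mem_nthRootsFinset (Nat.pos_of_ne_zero hr0), ← map_pow, hζ.pow_eq_one, map_one]
  have hZr : ∀ z ∈ Z, z ^ r = 1 := by
    intro z hz
    rw [hZ, Finset.mem_filter, Polynomial.mem_nthRootsFinset (Nat.pos_of_ne_zero hr0)] at hz
    exact hz.1
  have hdep : ∀ σ ∈ Γ, ∀ τ ∈ Γ, σ ζ = τ ζ → σ x = τ x := by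
    intro σ hσ τ hτ h
    have h1 : (τ⁻¹ * σ) x = x := by
      apply hfix _ (Γ.mul_mem (Γ.inv_mem hτ) hσ)
      intro ξ hξ
      obtain ⟨i, _, rfl⟩ := hζ.eq_pow_of_pow_eq_one hξ
      have h2 : (τ⁻¹ * σ) ζ = ζ := by
        rw [RingAut.mul_apply, h]
        exact RingEquiv.symm_apply_apply τ ζ
      rw [map_pow, h2]
    have h3 : τ ((τ⁻¹ * σ) x) = σ x := by
      rw [RingAut.mul_apply]
      exact RingEquiv.apply_symm_apply τ (σ x)
    rw [← h3, h1]
  set f : Ω → Ω := fun z => if h : ∃ σ ∈ Γ, σ ζ = z then h.choose x else 0 with hf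
  have hfσ : ∀ σ ∈ Γ, f (σ ζ) = σ x := by
    intro σ hσ
    have h : ∃ τ ∈ Γ, τ ζ = σ ζ := ⟨σ, hσ, rfl⟩
    rw [hf]
    simp only [dif_pos h]
    exact hdep _ h.choose_spec.1 _ hσ h.choose_spec.2
  have hinj : Set.InjOn (id : Ω → Ω) Z := fun a _ b _ h => h
  set P : Polynomial Ω := Lagrange.interpolate Z id f with hP
  have hdeg : P.degree < Z.card := Lagrange.degree_interpolate_lt _ hinj
  -- the coefficients are fixed
  have hPfix : ∀ τ ∈ Γ, P.map (τ : Ω →+* Ω) = P := by
    intro τ hτ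
    apply Lagrange.eq_interpolate_of_eval_eq f hinj
    · exact lt_of_le_of_lt Polynomial.degree_map_le hdeg
    · intro z hz
      rw [hZ, Finset.mem_filter] at hz
      obtain ⟨_, σ, hσ, rfl⟩ := hz
      -- `σ ζ = τ (τ⁻¹ σ ζ)`
      have h1 : (σ ζ : Ω) = (τ : Ω →+* Ω) ((τ⁻¹ * σ) ζ) := by
        rw [RingAut.mul_apply]
        exact (RingEquiv.apply_symm_apply τ (σ ζ)).symm
      have h2 : (τ⁻¹ * σ) ∈ Γ := Γ.mul_mem (Γ.inv_mem hτ) hσ
      have h3 : P.eval ((τ⁻¹ * σ) ζ) = (τ⁻¹ * σ) x := by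
        have := Lagrange.eval_interpolate_at_node f hinj (hZm _ h2)
        rw [← hfσ _ h2]
        exact this
      show Polynomial.eval (σ ζ) _ = _
      rw [hfσ σ hσ]
      conv_lhs => rw [h1]
      rw [Polynomial.eval_map, Polynomial.eval₂_hom, h3, RingAut.mul_apply]
      exact RingEquiv.apply_symm_apply τ (σ x)
  have hcfix : ∀ n, Fx Γ (P.coeff n) := by
    intro n τ hτ
    have := congrArg (fun p => Polynomial.coeff p n) (hPfix τ hτ)
    simp only [Polynomial.coeff_map] at this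
    exact this
  -- bounds
  have hbd : Bd c (c.av x) P := by
    rw [hP, Lagrange.interpolate_apply]
    apply bd_sum (c.av.nonneg x)
    intro z hz
    have hz' := hz
    rw [hZ, Finset.mem_filter] at hz'
    obtain ⟨_, σ, hσ, rfl⟩ := hz'
    have h1 : Bd c (c.av x) (Polynomial.C (f (σ ζ))) := by
      rw [hfσ σ hσ, ← hΓ.pres σ hσ x]
      exact bd_C _
    have h2 : Bd c 1 (Lagrange.basis Z id (σ ζ)) := by
      unfold Lagrange.basis
      apply bd_prod
      intro y hy
      rw [Finset.mem_erase] at hy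
      unfold Lagrange.basisDivisor
      have h3 : c.av ((id (σ ζ) - id y)⁻¹) = 1 := by
        rw [map_inv₀, id, id, av_sub_root c hr (hZr _ hz) (hZr _ hy.2) hy.1.symm, inv_one]
      have h4 := bd_mul (c.av.nonneg _) zero_le_one (bd_C (c := c) ((id (σ ζ) - id y)⁻¹))
        (bd_X_sub (c := c) (y := y) (av_root c hr0 (hZr _ hy.2)).le)
      rw [h3, one_mul] at h4
      exact h4
    have h5 := bd_mul (c.av.nonneg _) zero_le_one h1 h2
    rwa [mul_one] at h5
  -- `x = P(ζ)`
  have hev : P.eval ζ = x := by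
    have h1 := Lagrange.eval_interpolate_at_node f hinj (hZm 1 Γ.one_mem)
    have h2 := hfσ 1 Γ.one_mem
    have h3 : ((1 : RingAut Ω) ζ : Ω) = ζ := rfl
    have h4 : ((1 : RingAut Ω) x : Ω) = x := rfl
    rw [h3] at h1 h2
    rw [h4] at h2
    rw [h2] at h1
    exact h1
  by_contra hcon
  -- all coefficients are smaller
  have hlt : ∀ n, c.av (P.coeff n) < c.av x := by
    intro n
    refine lt_of_le_of_ne (hbd n) fun h => ?_
    by_cases h0 : P.coeff n = 0
    · rw [h0, map_zero] at h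
      exact hx ((c.av.eq_zero).1 h.symm)
    · exact hcon ⟨P.coeff n, h0, hcfix n, h⟩
  have hmax : c.av (P.eval ζ) < c.av x := by
    rw [Polynomial.eval_eq_sum_range]
    have hlt' : ∀ (s : Finset ℕ), c.av (∑ i ∈ s, P.coeff i * ζ ^ i) < c.av x := by
      intro s
      induction s using Finset.induction_on with
      | empty => simpa using c.av.pos hx
      | insert a s ha ih =>
        rw [Finset.sum_insert ha]
        refine lt_of_le_of_lt (c.na _ _) (max_lt ?_ ih)
        rw [map_mul, map_pow, av_root c hr0 hζ.pow_eq_one, one_pow, mul_one]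
        exact hlt a
    exact hlt' _
  rw [hev] at hmax
  exact lt_irrefl _ hmax

variable {G : Type u} [Group G] [Finite G]
  {V : Type v} [AddCommGroup V] [Module Ω V] [FiniteDimensional Ω V]

open Classical in
/-- Lemma U: if some `σ ∈ Γ` moves the value of the character at an element `g` with
`g ^ (2 r) = 1`, `r` odd, then `|d| ∈ V(Γ)`. -/
theorem lemma_U {Γ : Subgroup (RingAut Ω)} (hΓ : Ok c 1 Γ) {ρ : Representation Ω G V}
    {r : ℕ} (hr : Odd r) {g : G} (hg : g ^ (2 * r) = 1) {σ : RingAut Ω} (hσ : σ ∈ Γ)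
    (hne : σ (ρ.character g) ≠ ρ.character g) {d : Ω} (hd : d ≠ 0)
    (hd' : ∀ σ ∈ Γ, σ d = if Fixes σ ρ then d else - d) : InV c Γ (c.av d) := by
  have hr0 : r ≠ 0 := fun h => by rw [h] at hr; exact (by decide : ¬ Odd 0) hr
  have hdd : d ≠ -d := fun h => by
    have : d + d = 0 := by
      nth_rewrite 2 [h]
      exact add_neg_cancel d
    rw [← two_mul] at this
    rcases mul_eq_zero.1 this with h2 | h2
    · exact two_ne_zero h2
    · exact hd h2
  have hσd : σ d = -d := by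
    rw [hd' σ hσ, if_neg]
    exact fun h => hne (h g)
  have hσinv : σ⁻¹ d = -d := by
    have h1 : σ⁻¹ (σ d) = d := RingEquiv.symm_apply_apply σ d
    rw [hσd, map_neg] at h1
    rw [← h1, neg_neg, h1]
  -- fixing
  have hfixes : ∀ τ ∈ Γ, τ d = d → Fixes τ ρ := by
    intro τ hτ h
    by_contra hcon
    have := hd' τ hτ
    rw [if_neg hcon, h] at this
    exact hdd this
  -- behaviour of the character value
  have hA : ∀ τ ∈ Γ, Fixes τ ρ → τ (ρ.character g) = ρ.character g := fun τ _ h => h g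
  have hB : ∀ τ ∈ Γ, ¬ Fixes τ ρ → τ (ρ.character g) = σ (ρ.character g) := by
    intro τ hτ h
    have h1 : Fixes (τ * σ⁻¹) ρ := by
      apply hfixes _ (Γ.mul_mem hτ (Γ.inv_mem hσ))
      rw [RingAut.mul_apply, hσinv, map_neg, hd' τ hτ, if_neg h, neg_neg]
    have h2 : (τ * σ⁻¹) (σ (ρ.character g)) = τ (ρ.character g) := by
      rw [RingAut.mul_apply]
      exact congrArg τ (RingEquiv.symm_apply_apply σ _)
    rw [← h2, char_comm ρ g (τ * σ⁻¹) σ, h1 g]
  have hσσ : σ (σ (ρ.character g)) = ρ.character g := by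
    have h1 : Fixes (σ * σ) ρ := by
      apply hfixes _ (Γ.mul_mem hσ hσ)
      rw [RingAut.mul_apply, hσd, map_neg, hσd, neg_neg]
    exact h1 g
  set D : Ω := ρ.character g - σ (ρ.character g) with hD
  have hD0 : D ≠ 0 := fun h => hne (sub_eq_zero.1 h).symm
  have hτD : ∀ τ ∈ Γ, τ D = if Fixes τ ρ then D else -D := by
    intro τ hτ
    have h1 : τ (σ (ρ.character g)) = σ (τ (ρ.character g)) := char_comm ρ g τ σ
    split_ifs with h
    · rw [hD, map_sub, h1, hA τ hτ h]
    · rw [hD, map_sub, h1, hB τ hτ h, hσσ]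
      ring
  have h1 : InV c Γ (c.av D) := by
    apply inV_unramified hΓ hr hD0
    intro τ hτ hroots
    have h2 : τ (ρ.character g) = ρ.character g := by
      apply char_fixed ρ (Nat.mul_ne_zero two_ne_zero hr0) hg
      intro ξ hξ
      have h3 : (ξ ^ r - 1) * (ξ ^ r + 1) = 0 := by
        have : ξ ^ (2 * r) = ξ ^ r * ξ ^ r := by rw [two_mul, pow_add]
        rw [this] at hξ
        linear_combination hξ
      rcases mul_eq_zero.1 h3 with h4 | h4
      · exact hroots ξ (sub_eq_zero.1 h4)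
      · have h5 : (-ξ) ^ r = 1 := by
          rw [hr.neg_pow]
          linear_combination -h4
        have h6 := hroots _ h5
        rw [map_neg] at h6
        exact neg_injective h6
    rw [hD, map_sub, char_comm ρ g τ σ, h2]
  have h2 : InV c Γ (c.av (d / D)) := by
    apply inV_of_fx (div_ne_zero hd hD0)
    intro τ hτ
    rw [map_div₀, hd' τ hτ, hτD τ hτ]
    split_ifs
    · rfl
    · rw [neg_div_neg_eq]
  have h3 : c.av d = c.av (d / D) * c.av D := by
    rw [← map_mul, div_mul_cancel₀ d hD0]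
  rw [h3]
  exact inV_mul h2 h1

/-- if the exponent of `G` divides `4 r` with `r` odd, then (B) holds -/
theorem propB_exp4 {r : ℕ} (hr : Odd r) (h : ∀ g : G, g ^ (4 * r) = 1) : PropB c 1 G := by
  classical
  intro Γ hΓ n ρ _ _ _ d hd hd'
  have hr0 : r ≠ 0 := fun h => by rw [h] at hr; exact (by decide : ¬ Odd 0) hr
  obtain ⟨i, hi⟩ : ∃ i : Ω, i ^ 2 = -1 := IsAlgClosed.exists_pow_nat_eq (-1 : Ω) (by norm_num)
  have hi4 : i ^ 4 = 1 := by
    have : i ^ 4 = (i ^ 2) ^ 2 := by ring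
    rw [this, hi]; ring
  have hi0 : i ≠ 0 := fun h0 => by rw [h0] at hi; norm_num at hi
  -- automorphisms which fix `i` and the `r`-th roots of unity fix `d`
  have key : ∀ τ ∈ Γ, (∀ ζ : Ω, ζ ^ r = 1 → τ ζ = ζ) → τ i = i → τ d = d := by
    intro τ hτ h1 h2
    have h3 : Fixes τ ρ := by
      intro g
      apply char_fixed ρ (Nat.mul_ne_zero four_ne_zero hr0) (h g)
      intro ζ hζ
      obtain ⟨k, rfl⟩ := hr
      set r := 2 * k + 1 with hrdef
      have e1 : ζ ^ (4 * (3 * k ^ 2 + 3 * k + 1)) * ζ ^ (r * r) = ζ := by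
        have : 4 * (3 * k ^ 2 + 3 * k + 1) + r * r = (4 * r) * r + 1 := by
          rw [hrdef]; ring
        rw [← pow_add, this, pow_add, pow_mul, hζ, one_pow, one_mul, pow_one]
      have e2 : τ (ζ ^ 4) = ζ ^ 4 := h1 _ (by rw [← pow_mul]; exact hζ)
      have e3 : τ (ζ ^ r) = ζ ^ r := by
        set w := ζ ^ r with hw
        have hw4 : w ^ 4 = 1 := by rw [hw, ← pow_mul, mul_comm]; exact hζ
        have e4 : (w - 1) * (w + 1) * ((w - i) * (w + i)) = 0 := by
          linear_combination hw4 + (1 - w ^ 2) * hi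
        rcases mul_eq_zero.1 e4 with e5 | e5
        · rcases mul_eq_zero.1 e5 with e6 | e6
          · rw [sub_eq_zero.1 e6, map_one]
          · rw [eq_neg_of_add_eq_zero_left e6, map_neg, map_one]
        · rcases mul_eq_zero.1 e5 with e6 | e6
          · rw [sub_eq_zero.1 e6, h2]
          · rw [eq_neg_of_add_eq_zero_left e6, map_neg, h2]
      have e7 : τ (ζ ^ (4 * (3 * k ^ 2 + 3 * k + 1)) * ζ ^ (r * r)) =
          ζ ^ (4 * (3 * k ^ 2 + 3 * k + 1)) * ζ ^ (r * r) := by
        rw [pow_mul, pow_mul ζ r r, map_mul, map_pow τ (ζ ^ 4), map_pow τ (ζ ^ r), e2, e3]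
      rwa [e1] at e7
    rw [hd' τ hτ, if_pos h3]
  have hsq : ∀ τ : RingAut Ω, τ i = i ∨ τ i = -i := by
    intro τ
    have h1 : (τ i) ^ 2 = -1 := by rw [← map_pow, hi, map_neg, map_one]
    have h2 : (τ i - i) * (τ i + i) = 0 := by linear_combination h1 - hi
    rcases mul_eq_zero.1 h2 with h3 | h3
    · exact Or.inl (sub_eq_zero.1 h3)
    · exact Or.inr (eq_neg_of_add_eq_zero_left h3)
  have hpm : ∀ τ ∈ Γ, τ d = d ∨ τ d = -d := by
    intro τ hτ
    have := hd' τ hτ
    split_ifs at this with h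
    · exact Or.inl this
    · exact Or.inr this
  by_cases hall : ∀ τ ∈ Γ, (∀ ζ : Ω, ζ ^ r = 1 → τ ζ = ζ) → τ d = d
  · exact inV_unramified hΓ hr hd hall
  · push Not at hall
    obtain ⟨τ₀, hτ₀, hroot₀, hne₀⟩ := hall
    have hd₀ : τ₀ d = -d := (hpm τ₀ hτ₀).resolve_left hne₀
    have hi₀ : τ₀ i = -i := (hsq τ₀).resolve_left fun h => hne₀ (key τ₀ hτ₀ hroot₀ h)
    have h1 : InV c Γ (c.av (d / i)) := by
      apply inV_unramified hΓ hr (div_ne_zero hd hi0)
      intro τ hτ hroot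
      rcases hsq τ with h2 | h2
      · rw [map_div₀, key τ hτ hroot h2, h2]
      · have h3 : (τ₀ * τ) d = d := by
          apply key _ (Γ.mul_mem hτ₀ hτ)
          · intro ζ hζ
            rw [RingAut.mul_apply, hroot ζ hζ, hroot₀ ζ hζ]
          · rw [RingAut.mul_apply, h2, map_neg, hi₀, neg_neg]
        have h4 : τ d = -d := by
          rcases hpm τ hτ with h5 | h5
          · rw [RingAut.mul_apply, h5, hd₀] at h3
            exact absurd (h3.symm.trans (by rw [hd₀.symm])) (by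
              intro h6
              exact hne₀ (by rw [hd₀, h3]))
          · exact h5
        rw [map_div₀, h4, h2, neg_div_neg_eq]
    have h2 : c.av d = c.av (d / i) := by
      rw [map_div₀, av_root c four_ne_zero hi4, div_one]
    rw [h2]
    exact h1

end

end Parker
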