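import Pool.Agent.Parker.Defs
import Pool.Agent.Parker.P01
import Pool.Agent.Parker.P02
import Pool.Agent.Parker.P03
import Pool.Agent.Parker.P08
import Pool.Agent.Parker.P09
import Pool.Agent.Parker.P11

/-!
# MP_6c3636_al, module P31: (7.1), permutation characters of odd degree; (F4) (helper7)
-/

namespace Parker

universe u v w

noncomputable section

variable {Ω : Type} [Field Ω] [IsAlgClosed Ω] [CharZero Ω] {c : Ctx Ω}
  {G : Type u} [Group G] [Finite G]
  {V : Type v} [AddCommGroup V] [Module Ω V] [FiniteDimensional Ω V]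

/-- the number of fixed points -/
def fixp (X : Type w) [Finite X] [MulAction G X] (g : G) : ℕ := Nat.card {x : X // g • x = x}

namespace P31_aux

variable {X : Type w} [Fintype X] [DecidableEq X]

theorem sum_ne {F : Type} [Field F] (x₀ : X) (f : X → F) :
    ∑ z : {x : X // x ≠ x₀}, f z = ∑ z, f z - f x₀ := by
  rw [← Finset.sum_subtype (Finset.univ.erase x₀) (by simp) f,
    Finset.sum_erase_eq_sub (Finset.mem_univ _)]

section

variable {G : Type u} [Group G] [MulAction G X]

/-- entries of the matrix of `g` in the basis `e_x - e_{x₀}` -/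
def r (F : Type) [Field F] (x₀ : X) (g : G) (y x : X) : F :=
  (if g • x = y then 1 else 0) - (if g • x₀ = y then 1 else 0)

theorem r_x₀ (F : Type) [Field F] (x₀ : X) (g : G) (y : X) : r F x₀ g y x₀ = 0 := by
  simp [r]

theorem sum_r (F : Type) [Field F] (x₀ : X) (g : G) (x : X) : ∑ y, r F x₀ g y x = 0 := by
  simp [r]

theorem sum_r_mul (F : Type) [Field F] (x₀ : X) (g : G) (x : X) (f : X → F) :
    ∑ z, f z * r F x₀ g z x = f (g • x) - f (g • x₀) := by
  simp [r, mul_sub]

/-- the matrix of `g` -/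
def R (F : Type) [Field F] (x₀ : X) (g : G) :
    Matrix {x : X // x ≠ x₀} {x : X // x ≠ x₀} F :=
  Matrix.of fun y x => r F x₀ g y x

theorem R_one (F : Type) [Field F] (x₀ : X) : R F x₀ (1 : G) = 1 := by
  ext y x
  simp only [R, Matrix.of_apply, r, one_smul, Matrix.one_apply]
  rw [if_neg (fun h : x₀ = (y : X) => y.2 h.symm), sub_zero]
  by_cases h : y = x
  · rw [if_pos h, if_pos (by rw [h])]
  · rw [if_neg h, if_neg (fun h' => h (Subtype.ext h'.symm))]

theorem R_mul (F : Type) [Field F] (x₀ : X) (g h : G) :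
    R F x₀ (g * h) = R F x₀ g * R F x₀ h := by
  ext y x
  rw [Matrix.mul_apply]
  simp only [R, Matrix.of_apply]
  rw [sum_ne x₀ (fun z => r F x₀ g y z * r F x₀ h z x), sum_r_mul, r_x₀, zero_mul, sub_zero]
  simp only [r, mul_smul]
  ring

/-- the Gram matrix of the standard form -/
def A (F : Type) [Field F] (x₀ : X) : Matrix {x : X // x ≠ x₀} {x : X // x ≠ x₀} F :=
  Matrix.of fun y z => (if y = z then 1 else 0) + 1

theorem A_apply (F : Type) [Field F] (x₀ : X) (y z : {x : X // x ≠ x₀}) :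
    A F x₀ y z = (if y = z then 1 else 0) + 1 := rfl

theorem A_symm (F : Type) [Field F] (x₀ : X) : (A F x₀).transpose = A F x₀ := by
  ext y z
  rw [Matrix.transpose_apply, A_apply, A_apply]
  simp only [eq_comm]

theorem A_det (F : Type) [Field F] (x₀ : X) : (A F x₀).det = (Fintype.card X : F) := by
  have hA := Matrix.det_one_add_replicateCol_mul_replicateRow (ι := Unit)
    (fun _ : {x : X // x ≠ x₀} => (1 : F)) (fun _ => 1)
  have hA' : A F x₀ = 1 + Matrix.replicateCol Unit (fun _ : {x : X // x ≠ x₀} => (1 : F)) *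
      Matrix.replicateRow Unit (fun _ : {x : X // x ≠ x₀} => (1 : F)) := by
    ext y z
    rw [A_apply, Matrix.add_apply, Matrix.one_apply, Matrix.mul_apply]
    simp
  rw [hA', hA]
  have h := sum_ne x₀ (fun _ : X => (1 : F))
  simp only [Finset.sum_const, Finset.card_univ, nsmul_eq_mul, mul_one] at h
  simp only [dotProduct, mul_one, Finset.sum_const, Finset.card_univ, nsmul_eq_mul]
  rw [h]
  ring

theorem A_inv (F : Type) [Field F] (x₀ : X) (g : G) :
    (R F x₀ g).transpose * A F x₀ * R F x₀ g = A F x₀ := by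
  have hc : ∀ x : X, ∑ y : {x : X // x ≠ x₀}, r F x₀ g y x = - r F x₀ g x₀ x := by
    intro x
    rw [sum_ne x₀ (fun y => r F x₀ g y x), sum_r, zero_sub]
  have h1 : (R F x₀ g).transpose * A F x₀ =
      Matrix.of fun x z : {x : X // x ≠ x₀} => r F x₀ g z x - r F x₀ g x₀ x := by
    ext x z
    rw [Matrix.mul_apply]
    simp only [Matrix.transpose_apply, R, Matrix.of_apply, A_apply, mul_add, mul_one,
      Finset.sum_add_distrib, mul_ite, mul_zero, Finset.sum_ite_eq', Finset.mem_univ, if_true]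
    rw [hc]
    ring
  ext x w
  rw [h1, Matrix.mul_apply, A_apply]
  simp only [R, Matrix.of_apply, sub_mul, Finset.sum_sub_distrib, ← Finset.mul_sum, hc]
  rw [sum_ne x₀ (fun z => r F x₀ g z x * r F x₀ g z w), sum_r_mul]
  have e1 : g • (w : X) ≠ g • x₀ := fun h => w.2 (MulAction.injective g h)
  have e2 : g • (x : X) ≠ g • x₀ := fun h => x.2 (MulAction.injective g h)
  have e3 : (g • (x : X) = g • (w : X)) ↔ x = w :=
    ⟨fun h => Subtype.ext (MulAction.injective g h), fun h => by rw [h]⟩
  simp only [r, e3, if_neg e1.symm, if_neg e2, if_true]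
  ring

theorem A_R (F : Type) [Field F] (x₀ : X) (g : G) :
    A F x₀ * R F x₀ g = (R F x₀ g⁻¹).transpose * A F x₀ := by
  have h : (R F x₀ g⁻¹).transpose * (R F x₀ g).transpose = 1 := by
    rw [← Matrix.transpose_mul, ← R_mul, mul_inv_cancel, R_one, Matrix.transpose_one]
  conv_rhs => rw [← A_inv F x₀ g]
  rw [← Matrix.mul_assoc, ← Matrix.mul_assoc, h, Matrix.one_mul]

/-- the representation on the functions with sum zero -/
def tau (F : Type) [Field F] (x₀ : X) : Representation F G ({x : X // x ≠ x₀} → F) where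
  toFun g := Matrix.toLin' (R F x₀ g)
  map_one' := by rw [R_one, Matrix.toLin'_one]; rfl
  map_mul' g h := by rw [R_mul, Matrix.toLin'_mul]; rfl

theorem fixp_eq (g : G) : fixp X g = (Finset.univ.filter fun x : X => g • x = x).card := by
  rw [fixp, Nat.card_eq_fintype_card, Fintype.card_subtype]

theorem tau_char (F : Type) [Field F] (x₀ : X) (g : G) :
    (tau F x₀).character g = (fixp X g : F) - 1 := by
  have h1 : (tau F x₀).character g = (R F x₀ g).trace := Matrix.trace_toLin'_eq _
  rw [h1, Matrix.trace]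
  simp only [Matrix.diag_apply, R, Matrix.of_apply]
  rw [sum_ne x₀ (fun x => r F x₀ g x x), r_x₀, sub_zero, fixp_eq]
  simp [r]

theorem tau_orth (F : Type) [Field F] [CharZero F] (x₀ : X) : Orth (tau (G := G) F x₀) := by
  have hdet : (A F x₀).det ≠ 0 := by
    rw [A_det]
    have : Nonempty X := ⟨x₀⟩
    exact_mod_cast Fintype.card_ne_zero
  obtain ⟨b, hb⟩ : ∃ b : LinearMap.BilinForm F ({x : X // x ≠ x₀} → F),
      ∀ x y, b x y = x ⬝ᵥ (A F x₀).mulVec y :=
    ⟨Matrix.toBilin' (A F x₀), fun x y => Matrix.toBilin'_apply' _ x y⟩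
  refine ⟨b, fun x y => ?_, fun x hx => ?_, fun g x y => ?_⟩
  · rw [hb, hb, Matrix.dotProduct_mulVec, ← Matrix.mulVec_transpose, A_symm, dotProduct_comm]
  · have h1 : Matrix.vecMul x (A F x₀) = 0 := by
      apply dotProduct_eq_zero
      intro y
      rw [← Matrix.dotProduct_mulVec, ← hb]
      exact hx y
    exact Matrix.eq_zero_of_vecMul_eq_zero hdet h1
  · have hm : ∀ z, tau F x₀ g z = (R F x₀ g).mulVec z := fun z => rfl
    rw [hb, hb, hm, hm]
    conv_rhs => rw [← A_inv F x₀ g]
    rw [← Matrix.mulVec_mulVec, ← Matrix.mulVec_mulVec, Matrix.dotProduct_mulVec x,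
      ← Matrix.mulVec_transpose, Matrix.transpose_transpose]

theorem tau_det [Fintype G] {Ω : Type} [Field Ω] [CharZero Ω] (x₀ : X) (s : G → ℚ) :
    LinearMap.det (act (tau Ω x₀) fun g => (s g : Ω)) =
      (((∑ g, s g • R ℚ x₀ g).det : ℚ) : Ω) := by
  have h1 : act (tau Ω x₀) (fun g => (s g : Ω)) = Matrix.toLin' (∑ g, (s g : Ω) • R Ω x₀ g) := by
    rw [act_eq, map_sum]
    refine Finset.sum_congr rfl fun g _ => ?_
    rw [map_smul]
    rfl
  rw [h1, LinearMap.det_toLin']
  have h2 : ∑ g, (s g : Ω) • R Ω x₀ g =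
      (algebraMap ℚ Ω).mapMatrix (∑ g, s g • R ℚ x₀ g) := by
    ext y x
    simp only [Matrix.sum_apply, Matrix.smul_apply, RingHom.mapMatrix_apply, Matrix.map_apply,
      map_sum, smul_eq_mul, map_mul, eq_ratCast]
    refine Finset.sum_congr rfl fun g _ => ?_
    congr 1
    simp only [R, Matrix.of_apply, r]
    split_ifs <;> simp
  rw [h2, ← RingHom.map_det]
  rfl

end

end P31_aux

/-- (7.1): `G` acts on a finite set `X` of odd cardinality, `ρ` irreducible of even degree with
character `(number of fixed points) - 1`: `ρ` is good for every `Γ`. (`ρ` is equivalent to the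
representation on the functions with sum zero, in the basis `e_x - e_{x₀}` the matrices of rational
operators have `Γ`-fixed entries, the Gram matrix of the standard form is `1 + J` with determinant
`|X|`; `det_skew_sq'` over the fixed field of `Γ`; existence of the skew operator:
`exists_skew_rat`.) -/
theorem good_perm (X : Type w) [Finite X] [MulAction G X] (hX : Odd (Nat.card X))
    {Γ : Subgroup (RingAut Ω)} {ρ : Representation Ω G V} (hρ : ρ.IsIrreducible)
    (hev : Even (Module.finrank Ω V))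
    (hchar : ∀ g, ρ.character g = (fixp X g : Ω) - 1) : GoodV c Γ ρ := by
  classical
  let _ := Fintype.ofFinite X
  let _ := Fintype.ofFinite G
  obtain ⟨x₀⟩ : Nonempty X := (Nat.card_pos_iff.1 hX.pos).1
  have hchar' : ρ.character = (P31_aux.tau (G := G) Ω x₀).character := by
    funext g
    rw [hchar, P31_aux.tau_char]
  have hτ : (P31_aux.tau (G := G) Ω x₀).IsIrreducible :=
    (irr_iff_ip _).2 (hchar' ▸ ip_self_irr ρ hρ)
  obtain ⟨e⟩ := equiv_of_char hρ hτ hchar'
  obtain ⟨B, hB⟩ := equiv_orth e.symm (P31_aux.tau_orth Ω x₀)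
  obtain ⟨s, hs, hd⟩ := exists_skew_rat (noOdd_of_even hρ hev)
  refine ⟨B, hB, act ρ (fun g => (s g : Ω)), ⟨_, fun g => fx_ratCast Γ _, rfl⟩,
    skew_of_skew hB (fun g => by rw [hs]; push_cast; rfl), hd, ?_⟩
  set M : Matrix {x : X // x ≠ x₀} {x : X // x ≠ x₀} ℚ := ∑ g, s g • P31_aux.R ℚ x₀ g with hM
  have h1 : LinearMap.det (act ρ (fun g => (s g : Ω))) = ((M.det : ℚ) : Ω) := by
    rw [equiv_det e, P31_aux.tau_det]
  have h2 : P31_aux.A ℚ x₀ * M = - (M.transpose * P31_aux.A ℚ x₀) := by
    rw [hM, Finset.mul_sum, Matrix.transpose_sum, Finset.sum_mul, ← Finset.sum_neg_distrib]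
    refine Fintype.sum_equiv (Equiv.inv G) _ _ fun g => ?_
    rw [Equiv.inv_apply, Matrix.transpose_smul, Matrix.mul_smul, Matrix.smul_mul, P31_aux.A_R, hs,
      neg_smul, neg_neg]
  obtain ⟨a, ha⟩ := det_skew_sq' (F := ℚ) (by norm_num) (P31_aux.A_symm ℚ x₀) h2
  rw [P31_aux.A_det] at ha
  have h3 : ((Fintype.card X : ℕ) : Ω) * LinearMap.det (act ρ (fun g => (s g : Ω))) =
      (a : Ω) ^ 2 := by
    rw [h1]
    exact_mod_cast congrArg (fun q : ℚ => (q : Ω)) ha
  have hN : c.av ((Fintype.card X : ℕ) : Ω) = 1 :=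
    c.odd _ (by rw [← Nat.card_eq_fintype_card]; exact hX)
  have hN0 : ((Fintype.card X : ℕ) : Ω) ≠ 0 := by
    intro h0
    rw [h0, map_zero] at hN
    exact zero_ne_one hN
  refine ⟨(a : Ω), ?_, fx_ratCast Γ a, ?_⟩
  · intro h0
    rw [h0, zero_pow two_ne_zero] at h3
    exact (mul_ne_zero hN0 hd) h3
  · rw [← map_pow, ← h3, map_mul, hN, one_mul]

namespace P31_aux

variable {X : Type w} [Fintype X] [DecidableEq X] [MulAction G X]

theorem fixp_inv (g : G) : fixp X g⁻¹ = fixp X g := by
  unfold fixp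
  refine Nat.card_congr (Equiv.subtypeEquivRight fun x => ?_)
  rw [inv_smul_eq_iff, eq_comm]

theorem fixp_fixedBy [Fintype G] (g : G) :
    Fintype.card (MulAction.fixedBy X g) = fixp X g := by
  rw [← Nat.card_eq_fintype_card]
  rfl

theorem sum_fixp [Fintype G] (hX : ∀ x y : X, ∃ g : G, g • x = y) (x₀ : X) :
    ∑ g : G, fixp X g = Fintype.card G := by
  let _ := Fintype.ofFinite (Quotient (MulAction.orbitRel G X))
  have h := MulAction.sum_card_fixedBy_eq_card_orbits_mul_card_group G X
  have h1 : Fintype.card (Quotient (MulAction.orbitRel G X)) = 1 := by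
    rw [Fintype.card_eq_one_iff]
    refine ⟨Quotient.mk _ x₀, fun q => ?_⟩
    induction q using Quotient.inductionOn with
    | h x =>
      apply Quotient.sound
      obtain ⟨g, hg⟩ := hX x₀ x
      exact ⟨g, hg⟩
  rw [h1, one_mul] at h
  rw [← h]
  exact Finset.sum_congr rfl fun g _ => (fixp_fixedBy g).symm

theorem sum_fixp_sq [Fintype G] (hX : ∀ x y : X, ∃ g : G, g • x = y)
    (ht : ∀ x y x' y' : X, x ≠ y → x' ≠ y' → ∃ g : G, g • x = x' ∧ g • y = y') {x₀ x₁ : X}
    (hne : x₁ ≠ x₀) : ∑ g : G, fixp X g ^ 2 = 2 * Fintype.card G := by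
  let _ := Fintype.ofFinite (Quotient (MulAction.orbitRel G (X × X)))
  have h := MulAction.sum_card_fixedBy_eq_card_orbits_mul_card_group G (X × X)
  have h1 : Fintype.card (Quotient (MulAction.orbitRel G (X × X))) = 2 := by
    rw [← Nat.card_eq_fintype_card, Nat.card_eq_two_iff]
    refine ⟨Quotient.mk _ (x₀, x₀), Quotient.mk _ (x₀, x₁), ?_, ?_⟩
    · intro h2
      obtain ⟨g, hg⟩ := Quotient.exact h2
      have h3 : g • x₀ = x₀ := congrArg Prod.fst hg
      have h4 : g • x₁ = x₀ := congrArg Prod.snd hg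
      exact hne (MulAction.injective g (h4.trans h3.symm))
    · rw [Set.eq_univ_iff_forall]
      intro q
      induction q using Quotient.inductionOn with
      | h p =>
        obtain ⟨x, y⟩ := p
        by_cases hxy : x = y
        · left
          apply Quotient.sound
          obtain ⟨g, hg⟩ := hX x₀ x
          exact ⟨g, Prod.ext hg (hg.trans hxy)⟩
        · right
          apply Quotient.sound
          obtain ⟨g, hg, hg'⟩ := ht x₀ x₁ x y hne.symm hxy
          exact ⟨g, Prod.ext hg hg'⟩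
  rw [h1] at h
  rw [← h]
  refine Finset.sum_congr rfl fun g _ => ?_
  rw [← Nat.card_eq_fintype_card, sq]
  unfold fixp
  rw [← Nat.card_prod]
  refine Nat.card_congr ⟨fun p => ⟨(p.1.1, p.2.1), Prod.ext p.1.2 p.2.2⟩,
    fun p => (⟨p.1.1, congrArg Prod.fst p.2⟩, ⟨p.1.2, congrArg Prod.snd p.2⟩),
    fun p => rfl, fun p => rfl⟩

theorem sum_stab [Fintype G] (ρ : Representation Ω G V) (x : X) :
    ∑ g : G, (if g • x = x then ρ.character g else 0) =
      ((Nat.card (MulAction.stabilizer G x) *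
        Module.finrank Ω (Representation.invariants (rs (MulAction.stabilizer G x) ρ)) : ℕ) : Ω) := by
  let _ : Fintype (MulAction.stabilizer G x) := Fintype.ofFinite _
  have hne : (Nat.card (MulAction.stabilizer G x) : Ω) ≠ 0 := by
    exact_mod_cast Nat.card_pos.ne'
  let _ : Invertible (Nat.card (MulAction.stabilizer G x) : Ω) := invertibleOfNonzero hne
  have h1 := Representation.card_inv_mul_sum_char_eq_finrank
    (rs (MulAction.stabilizer G x) ρ)
  push_cast
  rw [← h1, mul_inv_cancel_left₀ hne, ← Finset.sum_filter,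
    Finset.sum_subtype (p := fun g => g ∈ MulAction.stabilizer G x) (Finset.univ.filter fun g => g • x = x)
      (by simp [MulAction.mem_stabilizer_iff])]
  rfl

theorem sum_char_fixp [Fintype G] (ρ : Representation Ω G V) :
    ∑ g : G, ρ.character g * (fixp X g : Ω) =
      ((∑ x : X, Nat.card (MulAction.stabilizer G x) *
        Module.finrank Ω (Representation.invariants (rs (MulAction.stabilizer G x) ρ)) : ℕ) : Ω) := by
  rw [Nat.cast_sum]
  simp only [← sum_stab]
  rw [Finset.sum_comm]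
  refine Finset.sum_congr rfl fun g _ => ?_
  rw [fixp_eq, ← Finset.sum_filter, Finset.sum_const, nsmul_eq_mul, mul_comm]

theorem tau_irr (x₀ : X) (hX : ∀ x y : X, ∃ g : G, g • x = y)
    (ht : ∀ x y x' y' : X, x ≠ y → x' ≠ y' → ∃ g : G, g • x = x' ∧ g • y = y') {x₁ : X}
    (hne : x₁ ≠ x₀) : (tau (G := G) Ω x₀).IsIrreducible := by
  classical
  let _ := Fintype.ofFinite G
  have hG : (Nat.card G : Ω) ≠ 0 := by exact_mod_cast Nat.card_pos.ne'
  rw [irr_iff_ip, ip_eq]
  simp only [tau_char, fixp_inv]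
  have h1 : ∑ g : G, ((fixp X g : Ω) - 1) * ((fixp X g : Ω) - 1) =
      ((∑ g : G, fixp X g ^ 2 : ℕ) : Ω) - 2 * ((∑ g : G, fixp X g : ℕ) : Ω) +
        (Fintype.card G : Ω) := by
    push_cast
    rw [Finset.mul_sum, ← Finset.sum_sub_distrib]
    have h2 : (Fintype.card G : Ω) = ∑ _g : G, (1 : Ω) := by simp
    rw [h2, ← Finset.sum_add_distrib]
    exact Finset.sum_congr rfl fun g _ => by ring
  rw [h1, sum_fixp_sq hX ht hne, sum_fixp hX x₀, ← Nat.card_eq_fintype_card]
  push_cast
  rw [show 2 * (Nat.card G : Ω) - 2 * (Nat.card G : Ω) + (Nat.card G : Ω) = Nat.card G by ring]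
  exact inv_mul_cancel₀ hG

end P31_aux

/-- (F4) let `G` act transitively on `X`, the stabilizer of `x₀` having exactly one further orbit
(2-transitivity). If `ρ` is irreducible with a nonzero vector fixed by the stabilizer of `x₀`, then
the character of `ρ` is `1` or `(number of fixed points) - 1`. -/
theorem char_two_trans (X : Type w) [Finite X] [MulAction G X]
    (ht : ∀ x y x' y' : X, x ≠ y → x' ≠ y' → ∃ g : G, g • x = x' ∧ g • y = y')
    (h2 : 2 ≤ Nat.card X) {x₀ : X} {ρ : Representation Ω G V} (hρ : ρ.IsIrreducible) {v : V}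
    (hv : v ≠ 0) (hfix : ∀ g : G, g • x₀ = x₀ → ρ g v = v) :
    (∀ g, ρ.character g = 1) ∨ (∀ g, ρ.character g = (fixp X g : Ω) - 1) := by
  classical
  let _ := Fintype.ofFinite X
  let _ := Fintype.ofFinite G
  have hG : (Nat.card G : Ω) ≠ 0 := by exact_mod_cast Nat.card_pos.ne'
  have hex : ∀ x : X, ∃ y : X, y ≠ x := by
    intro x
    have : Nontrivial X := by
      rw [← Fintype.one_lt_card_iff_nontrivial, ← Nat.card_eq_fintype_card]
      omega
    exact exists_ne x
  have htr : ∀ x y : X, ∃ g : G, g • x = y := by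
    intro x y
    obtain ⟨x', hx'⟩ := hex x
    obtain ⟨y', hy'⟩ := hex y
    obtain ⟨g, hg, -⟩ := ht x x' y y' hx'.symm hy'.symm
    exact ⟨g, hg⟩
  obtain ⟨x₁, hne⟩ := hex x₀
  have hτ := P31_aux.tau_irr (Ω := Ω) x₀ htr ht hne
  by_contra hcon
  rw [not_or] at hcon
  obtain ⟨hc1, hc2⟩ := hcon
  have h1 : ip ρ.character (P31_aux.tau (G := G) Ω x₀).character = 0 := by
    refine ip_of_ne hρ hτ fun h => hc2 fun g => ?_
    rw [h, P31_aux.tau_char]
  obtain ⟨σ, hσ, hσ1⟩ : ∃ σ : Representation Ω G Ω, σ.IsIrreducible ∧ ∀ g, σ.character g = 1 := by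
    refine ⟨1, ?_, ?_⟩
    · refine irr_of_sub (by rw [Module.finrank_self]; exact one_pos) fun U _ => ?_
      exact eq_bot_or_eq_top U
    · intro g
      show LinearMap.trace Ω Ω (1 : Module.End Ω Ω) = 1
      rw [LinearMap.trace_one, Module.finrank_self, Nat.cast_one]
  have h2 : ip ρ.character σ.character = 0 := by
    refine ip_of_ne hρ hσ fun h => hc1 fun g => ?_
    rw [h, hσ1]
  have h3 : ∑ g : G, ρ.character g * (fixp X g : Ω) = 0 := by
    rw [ip_eq] at h1 h2
    have h4 := (mul_eq_zero.1 h1).resolve_left (inv_ne_zero hG)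
    have h5 := (mul_eq_zero.1 h2).resolve_left (inv_ne_zero hG)
    have h6 : ∑ g : G, ρ.character g * (fixp X g : Ω) =
        ∑ g : G, ρ.character g * (P31_aux.tau (G := G) Ω x₀).character g⁻¹ +
        ∑ g : G, ρ.character g * σ.character g⁻¹ := by
      rw [← Finset.sum_add_distrib]
      refine Finset.sum_congr rfl fun g _ => ?_
      rw [P31_aux.tau_char, hσ1, P31_aux.fixp_inv]
      ring
    rw [h6, h4, h5, add_zero]
  rw [P31_aux.sum_char_fixp, Nat.cast_eq_zero, Finset.sum_eq_zero_iff] at h3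
  have h7 := h3 x₀ (Finset.mem_univ _)
  rcases Nat.mul_eq_zero.1 h7 with h8 | h8
  · exact absurd h8 Nat.card_pos.ne'
  · rw [Submodule.finrank_eq_zero] at h8
    have h9 : v ∈ Representation.invariants (rs (MulAction.stabilizer G x₀) ρ) := by
      rw [Representation.mem_invariants]
      intro g
      exact hfix g g.2
    rw [h8, Submodule.mem_bot] at h9
    exact hv h9

end

end Parker
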