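import Pool.Agent.Parker.Defs
import Pool.Agent.Parker.P01
import Pool.Agent.Parker.P08
import Pool.Agent.Parker.P09
import Pool.Agent.Parker.P10

/-!
# MP_6c3636_al, module P32: parity of invariants (helper7)
-/

namespace Parker

universe u v w

noncomputable section

set_option linter.unusedSectionVars false

namespace P32_aux

section basic

variable {Ω : Type} [Field Ω] [IsAlgClosed Ω] [CharZero Ω]
  {G : Type u} [Group G] [Finite G]
  {V : Type v} [AddCommGroup V] [Module Ω V] [FiniteDimensional Ω V]

theorem char_integral (ρ : Representation Ω G V) (g : G) : IsIntegral ℤ (ρ.character g) := by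
  have hn : 0 < orderOf g := orderOf_pos g
  rw [Representation.character,
    Module.End.trace_eq_sum_roots_charpoly_of_splits (IsAlgClosed.splits _)]
  refine Multiset.sum_induction (fun x => IsIntegral ℤ x) _
    (fun a b ha hb => ha.add hb) isIntegral_zero ?_
  intro μ hμ
  have hroot : (LinearMap.charpoly (ρ g)).IsRoot μ := Polynomial.isRoot_of_mem_roots hμ
  have hev := (Module.End.hasEigenvalue_iff_isRoot_charpoly (ρ g) μ).2 hroot
  obtain ⟨v, hv⟩ := hev.exists_hasEigenvector
  have hpow : ∀ n : ℕ, ((ρ g) ^ n) v = μ ^ n • v := by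
    intro n
    induction n with
    | zero => simp
    | succ n ih =>
      rw [pow_succ', Module.End.mul_apply, ih, map_smul, hv.apply_eq_smul, smul_smul, pow_succ]
  have h1 : (ρ g) ^ orderOf g = 1 := by
    rw [← map_pow, pow_orderOf_eq_one, map_one]
  have h2 := hpow (orderOf g)
  rw [h1, Module.End.one_apply] at h2
  have h3 : (μ ^ orderOf g - 1) • v = 0 := by
    rw [sub_smul, one_smul, ← h2, sub_self]
  have h4 : μ ^ orderOf g = 1 := by
    rcases smul_eq_zero.1 h3 with h | h
    · exact sub_eq_zero.1 h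
    · exact absurd h hv.2
  refine IsIntegral.of_pow hn ?_
  rw [h4]
  exact isIntegral_one

theorem exists_int_of_two_mul {s : Ω} (hs : IsIntegral ℤ s) {m : ℤ} (h : 2 * s = (m : Ω)) :
    ∃ k : ℤ, m = 2 * k := by
  have hq : s = algebraMap ℚ Ω ((m : ℚ) / 2) := by
    have h2 : (2 : Ω) ≠ 0 := two_ne_zero
    rw [map_div₀, map_intCast, map_ofNat, eq_div_iff h2, mul_comm, h]
  rw [hq] at hs
  have hs' : IsIntegral ℤ ((m : ℚ) / 2) :=
    (isIntegral_algebraMap_iff (algebraMap ℚ Ω).injective).1 hs
  obtain ⟨k, hk⟩ := (IsIntegrallyClosed.isIntegral_iff (R := ℤ) (K := ℚ)).1 hs'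
  refine ⟨k, ?_⟩
  have h3 : (m : ℚ) = 2 * (k : ℚ) := by
    have : (algebraMap ℤ ℚ) k = (k : ℚ) := rfl
    rw [← this, hk]
    ring
  exact_mod_cast h3

theorem sum_odd_group [Fintype G] (hG : Odd (Nat.card G)) (f : G → Ω) (hf : ∀ g, f g⁻¹ = f g)
    (hint : ∀ g, IsIntegral ℤ (f g)) :
    ∃ s : Ω, IsIntegral ℤ s ∧ ∑ g, f g = f 1 + 2 * s := by
  classical
  have hne : ∀ g : G, g ≠ 1 → g⁻¹ ≠ g := by
    intro g hg h
    have h2 : g ^ 2 = 1 := by
      rw [pow_two]
      calc g * g = g⁻¹ * g := by rw [h]
        _ = 1 := inv_mul_cancel g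
    have h3 : orderOf g ∣ 2 := orderOf_dvd_of_pow_eq_one h2
    have h4 : orderOf g ∣ Nat.card G := orderOf_dvd_natCard g
    have h5 : orderOf g ∣ Nat.gcd 2 (Nat.card G) := Nat.dvd_gcd h3 h4
    have h6 : Nat.gcd 2 (Nat.card G) = 1 := by
      have := Nat.Coprime.symm (Nat.Coprime.symm ((Nat.coprime_two_left).2 hG))
      exact this
    rw [h6, Nat.dvd_one, orderOf_eq_one_iff] at h5
    exact hg h5
  let e := Fintype.equivFin G
  let P : Finset G := Finset.univ.filter (fun g => e g < e g⁻¹)
  let Q : Finset G := Finset.univ.filter (fun g => e g⁻¹ < e g)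
  have hPQ : ∑ g ∈ Q, f g = ∑ g ∈ P, f g := by
    refine Finset.sum_bij (fun g _ => g⁻¹) ?_ ?_ ?_ ?_
    · intro g hg
      simp only [Q, P, Finset.mem_filter, Finset.mem_univ, true_and] at hg ⊢
      rw [inv_inv]
      exact hg
    · intro a _ b _ h
      exact inv_injective h
    · intro b hb
      refine ⟨b⁻¹, ?_, inv_inv b⟩
      simp only [Q, P, Finset.mem_filter, Finset.mem_univ, true_and] at hb ⊢
      rw [inv_inv]
      exact hb
    · intro g _
      exact (hf g).symm
  have hdisj : Disjoint P Q := by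
    rw [Finset.disjoint_filter]
    intro g _ h1 h2
    exact lt_asymm h1 h2
  have hU : (Finset.univ : Finset G) = insert 1 (P ∪ Q) := by
    ext g
    simp only [Finset.mem_univ, Finset.mem_insert, Finset.mem_union, P, Q, Finset.mem_filter,
      true_and, true_iff]
    by_cases hg : g = 1
    · exact Or.inl hg
    · right
      rcases lt_trichotomy (e g) (e g⁻¹) with h | h | h
      · exact Or.inl h
      · exact absurd (e.injective h).symm (hne g hg)
      · exact Or.inr h
  have h1n : (1 : G) ∉ P ∪ Q := by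
    simp [P, Q]
  refine ⟨∑ g ∈ P, f g, IsIntegral.sum _ (fun g _ => hint g), ?_⟩
  rw [hU, Finset.sum_insert h1n, Finset.sum_union hdisj, hPQ]
  ring

end basic

end P32_aux

variable {Ω : Type} [Field Ω] [IsAlgClosed Ω] [CharZero Ω]
  {G : Type u} [Group G] [Finite G]
  {V : Type v} [AddCommGroup V] [Module Ω V] [FiniteDimensional Ω V]

/-- a self dual representation of a group of odd order: `dim V ≡ dim V^G` mod `2`.
(`|G| dim V^G = χ(1) + 2 ∑ (pairs) χ(g)`, and the sum over the pairs is a rational algebraic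
integer.) -/
theorem parity_odd (hG : Odd (Nat.card G)) {ρ : Representation Ω G V} (hsd : SD ρ) :
    (Odd (Module.finrank Ω V) ↔ Odd (Module.finrank Ω ρ.invariants)) := by
  classical
  let _ := Fintype.ofFinite G
  have hc : (Nat.card G : Ω) ≠ 0 := Nat.cast_ne_zero.2 Nat.card_pos.ne'
  let _ : Invertible (Nat.card G : Ω) := invertibleOfNonzero hc
  obtain ⟨s, hs, hsum⟩ := P32_aux.sum_odd_group hG ρ.character hsd
    (fun g => P32_aux.char_integral ρ g)
  have h1 := Representation.card_inv_mul_sum_char_eq_finrank (ρ := ρ)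
  have h2 : ∑ g, ρ.character g = (Nat.card G : Ω) * (Module.finrank Ω ρ.invariants : Ω) := by
    rw [← h1, ← mul_assoc, mul_inv_cancel₀ hc, one_mul]
  rw [hsum, Representation.char_one] at h2
  have h3 : 2 * s = (((Nat.card G : ℤ) * (Module.finrank Ω ρ.invariants : ℤ)
      - (Module.finrank Ω V : ℤ) : ℤ) : Ω) := by
    push_cast
    rw [← h2]
    ring
  obtain ⟨k, hk⟩ := P32_aux.exists_int_of_two_mul hs h3
  obtain ⟨c, hc'⟩ := hG
  rw [hc'] at hk
  rw [Nat.odd_iff, Nat.odd_iff]
  push_cast at hk
  have hk' : (Module.finrank Ω ρ.invariants : ℤ) - (Module.finrank Ω V : ℤ)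
      = 2 * (k - c * (Module.finrank Ω ρ.invariants : ℤ)) := by linarith
  omega

/-- an irreducible self dual representation of odd dimension of a group of odd order is trivial -/
theorem trivial_of_odd (hG : Odd (Nat.card G)) {ρ : Representation Ω G V}
    (hρ : ρ.IsIrreducible) (hsd : SD ρ) : ∀ g, ρ g = 1 := by
  classical
  let _ := Fintype.ofFinite G
  have hc : (Nat.card G : Ω) ≠ 0 := Nat.cast_ne_zero.2 Nat.card_pos.ne'
  have hodd : Odd (Module.finrank Ω V) := by
    obtain ⟨s, hs, hsum⟩ := P32_aux.sum_odd_group hG (fun g => ρ.character g * ρ.character g⁻¹)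
      (fun g => by simp only [inv_inv]; ring)
      (fun g => (P32_aux.char_integral ρ g).mul (P32_aux.char_integral ρ g⁻¹))
    have h1 := ip_self_irr ρ hρ
    rw [ip_eq, hsum] at h1
    have h2 : ρ.character 1 * ρ.character 1⁻¹ + 2 * s = (Nat.card G : Ω) := by
      rw [← mul_one (Nat.card G : Ω), ← h1, ← mul_assoc, mul_inv_cancel₀ hc, one_mul]
    rw [inv_one, Representation.char_one] at h2
    have h3 : 2 * s = (((Nat.card G : ℤ) - (Module.finrank Ω V : ℤ) * (Module.finrank Ω V : ℤ) : ℤ)
        : Ω) := by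
      push_cast
      rw [← h2]
      ring
    obtain ⟨k, hk⟩ := P32_aux.exists_int_of_two_mul hs h3
    by_contra hne
    rw [Nat.not_odd_iff_even] at hne
    obtain ⟨a, ha⟩ := hne
    obtain ⟨c, hc'⟩ := hG
    rw [ha, hc'] at hk
    push_cast at hk
    have : (1 : ℤ) = 2 * (k - c + (a + a) * a) := by linarith
    omega
  have h1 := (parity_odd hG hsd).1 hodd
  rcases irr_sub (U := ρ.invariants) hρ (fun g x hx => by
      rw [Representation.mem_invariants] at hx ⊢
      intro h
      rw [hx g, hx h]) with h | h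
  · rw [h] at h1
    simp at h1
  · intro g
    ext v
    have : v ∈ ρ.invariants := by rw [h]; trivial
    exact this g

namespace P32_aux

omit [IsAlgClosed Ω] [CharZero Ω] [Finite G] [FiniteDimensional Ω V] in
/-- restriction of a representation to an invariant submodule -/
theorem exists_sub (ρ : Representation Ω G V) (U : Submodule Ω V)
    (hU : ∀ g, ∀ x ∈ U, ρ g x ∈ U) :
    ∃ τ : Representation Ω G U, ∀ g (x : U), ((τ g x : U) : V) = ρ g x :=
  ⟨(⟨U, fun g x hx => hU g x hx⟩ : Subrepresentation ρ).toRepresentation, fun _ _ => rfl⟩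

end P32_aux

/-- a representation of odd dimension of a `2`-group has a linear constituent (central element `z`
of order two; `V = V₊ ⊕ V₋`; if `V₋` is odd dimensional twist it by its determinant). -/
theorem linear_of_two_group {k : ℕ} (hG : Nat.card G = 2 ^ k) {ρ : Representation Ω G V}
    (hodd : Odd (Module.finrank Ω V)) :
    ∃ v : V, v ≠ 0 ∧ ∀ g, ∃ a : Ω, ρ g v = a • v := by
  induction k generalizing G V with
  | zero =>
    have hpos : 0 < Module.finrank Ω V := hodd.pos
    have : Nontrivial V := Module.nontrivial_of_finrank_pos hpos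
    obtain ⟨v, hv⟩ := exists_ne (0 : V)
    refine ⟨v, hv, fun g => ⟨1, ?_⟩⟩
    have hs : Subsingleton G := by
      rw [pow_zero, Nat.card_eq_one_iff_unique] at hG
      exact hG.1
    rw [Subsingleton.elim g 1, map_one, one_smul, Module.End.one_apply]
  | succ k ih =>
    classical
    -- a central involution
    have hnt : Nontrivial G := by
      rw [← Finite.one_lt_card_iff_nontrivial, hG]
      exact Nat.one_lt_two_pow (Nat.succ_ne_zero k)
    have : Fact (Nat.Prime 2) := ⟨Nat.prime_two⟩
    have hp : IsPGroup 2 G := IsPGroup.of_card hG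
    have hcn : Nontrivial (Subgroup.center G) := hp.center_nontrivial
    obtain ⟨z, hz⟩ : ∃ z : Subgroup.center G, orderOf z = 2 := by
      refine exists_prime_orderOf_dvd_card' 2 ?_
      have hp' : IsPGroup 2 (Subgroup.center G) := hp.to_subgroup _
      obtain ⟨n, hn⟩ := IsPGroup.iff_card.1 hp'
      rw [hn]
      have : n ≠ 0 := by
        rintro rfl
        rw [pow_zero] at hn
        have := Finite.one_lt_card_iff_nontrivial.2 hcn
        omega
      exact dvd_pow_self 2 this
    have hzo : orderOf (z : G) = 2 := by rw [Subgroup.orderOf_coe, hz]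
    have hz2 : (z : G) * z = 1 := by
      rw [← pow_two, ← hzo, pow_orderOf_eq_one]
    have hcomm : ∀ g : G, (z : G) * g = g * z := fun g =>
      (Subgroup.mem_center_iff.1 z.2 g).symm
    have hnorm : (Subgroup.zpowers (z : G)).Normal := by
      refine ⟨fun n hn g => ?_⟩
      obtain ⟨j, rfl⟩ := Subgroup.mem_zpowers_iff.1 hn
      have hzc : (z : G) ^ j ∈ Subgroup.center G := Subgroup.zpow_mem _ z.2 j
      have := Subgroup.mem_center_iff.1 hzc g
      rw [this, mul_assoc, mul_inv_cancel, mul_one]
      exact hn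
    have hcard : Nat.card (G ⧸ Subgroup.zpowers (z : G)) = 2 ^ k := by
      have h1 := Subgroup.card_eq_card_quotient_mul_card_subgroup (Subgroup.zpowers (z : G))
      rw [Nat.card_zpowers, hzo, hG, pow_succ] at h1
      exact (Nat.eq_of_mul_eq_mul_right two_pos h1).symm
    -- the quotient step
    have key : ∀ (U : Submodule Ω V) (σ : Representation Ω G U), Odd (Module.finrank Ω U) →
        σ z = 1 → ∃ v : U, v ≠ 0 ∧ ∀ g, ∃ a : Ω, σ g v = a • v := by
      intro U σ hU h1
      have hker : ∀ n ∈ Subgroup.zpowers (z : G), σ n = 1 := by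
        intro n hn
        obtain ⟨j, rfl⟩ := Subgroup.mem_zpowers_iff.1 hn
        have h2 : ∀ m : ℕ, σ ((z : G) ^ m) = 1 := fun m => by rw [map_pow, h1, one_pow]
        rcases Int.eq_nat_or_neg j with ⟨m, rfl | rfl⟩
        · rw [zpow_natCast]; exact h2 m
        · have h3 : σ ((z : G) ^ (-(m : ℤ))) * σ ((z : G) ^ m) = 1 := by
            rw [← map_mul, zpow_neg, zpow_natCast, inv_mul_cancel, map_one]
          rw [h2 m, mul_one] at h3
          exact h3
      let τ : Representation Ω (G ⧸ Subgroup.zpowers (z : G)) U :=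
        QuotientGroup.lift (Subgroup.zpowers (z : G)) σ (fun n hn => hker n hn)
      obtain ⟨v, hv, h⟩ := ih (G := G ⧸ Subgroup.zpowers (z : G)) (V := U) hcard (ρ := τ) hU
      refine ⟨v, hv, fun g => ?_⟩
      obtain ⟨a, ha⟩ := h (g : G ⧸ Subgroup.zpowers (z : G))
      exact ⟨a, ha⟩
    have hP : ρ z * ρ z = 1 := by rw [← map_mul, hz2, map_one]
    have hP' : ∀ x, ρ z (ρ z x) = x := fun x => by
      rw [← Module.End.mul_apply, hP, Module.End.one_apply]
    have hPc : ∀ (g : G) x, ρ z (ρ g x) = ρ g (ρ z x) := fun g x => by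
      rw [← Module.End.mul_apply, ← Module.End.mul_apply, ← map_mul, ← map_mul, hcomm g]
    let A : Submodule Ω V := LinearMap.ker (ρ z - 1)
    let B : Submodule Ω V := LinearMap.ker (ρ z + 1)
    have hA : ∀ x, x ∈ A ↔ ρ z x = x := fun x => by
      simp only [A, LinearMap.mem_ker, LinearMap.sub_apply, Module.End.one_apply, sub_eq_zero]
    have hB : ∀ x, x ∈ B ↔ ρ z x = - x := fun x => by
      simp only [B, LinearMap.mem_ker, LinearMap.add_apply, Module.End.one_apply,
        add_eq_zero_iff_eq_neg]
    have hcompl : IsCompl A B := by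
      constructor
      · rw [Submodule.disjoint_def]
        intro x h1 h2
        rw [hA] at h1
        rw [hB, h1] at h2
        have h3 : (2 : Ω) • x = 0 := by
          rw [two_smul]
          nth_rewrite 2 [h2]
          exact add_neg_cancel x
        exact (smul_eq_zero.1 h3).resolve_left two_ne_zero
      · rw [codisjoint_iff, eq_top_iff]
        intro x _
        rw [Submodule.mem_sup]
        refine ⟨(2⁻¹ : Ω) • (x + ρ z x), ?_, (2⁻¹ : Ω) • (x - ρ z x), ?_, ?_⟩
        · rw [hA, map_smul, map_add, hP', add_comm]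
        · rw [hB, map_smul, map_sub, hP', ← smul_neg, neg_sub]
        · rw [← smul_add, add_add_sub_cancel, ← two_smul Ω x, smul_smul, inv_mul_cancel₀ two_ne_zero,
            one_smul]
    have hdim : Module.finrank Ω A + Module.finrank Ω B = Module.finrank Ω V :=
      Submodule.finrank_add_eq_of_isCompl hcompl
    obtain ⟨σA, hσA⟩ := P32_aux.exists_sub ρ A (fun g x hx => by
      rw [hA] at hx ⊢; rw [hPc, hx])
    obtain ⟨σB, hσB⟩ := P32_aux.exists_sub ρ B (fun g x hx => by
      rw [hB] at hx ⊢; rw [hPc, hx, map_neg])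
    rw [← hdim] at hodd
    rcases Nat.even_or_odd (Module.finrank Ω A) with hev | hod
    · have hBo : Odd (Module.finrank Ω B) := by
        rcases Nat.even_or_odd (Module.finrank Ω B) with h | h
        · exact absurd (hev.add h) (Nat.not_even_iff_odd.2 hodd)
        · exact h
      -- twist by the determinant
      let lam : G →* Ω := (LinearMap.det : Module.End Ω B →* Ω).comp σB
      have hlam : ∀ g, lam g ≠ 0 := fun g h => by
        have : lam g * lam g⁻¹ = 1 := by rw [← map_mul, mul_inv_cancel, map_one]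
        rw [h, zero_mul] at this
        exact zero_ne_one this
      let σ' : Representation Ω G B :=
        { toFun := fun g => lam g⁻¹ • σB g
          map_one' := by rw [inv_one, map_one, map_one, one_smul]
          map_mul' := fun x y => by
            rw [mul_inv_rev, map_mul, map_mul, smul_mul_smul_comm, mul_comm (lam y⁻¹)] }
      have hσz : σB z = -1 := by
        ext x
        rw [hσB]
        have := (hB x).1 x.2
        rw [this]
        rfl
      have hz1 : σ' z = 1 := by
        change lam (z : G)⁻¹ • σB z = 1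
        have h2 : (z : G)⁻¹ = z := inv_eq_of_mul_eq_one_right hz2
        have h3 : lam z = -1 := by
          change LinearMap.det (σB z) = -1
          rw [hσz]
          have : (-1 : Module.End Ω B) = (-1 : Ω) • (1 : Module.End Ω B) :=
            (neg_one_smul Ω _).symm
          rw [this, LinearMap.det_smul, map_one, mul_one, hBo.neg_one_pow]
        rw [h2, h3, hσz]
        exact (neg_one_smul Ω (-1 : Module.End Ω B)).trans (neg_neg _)
      obtain ⟨v, hv, h⟩ := key B σ' hBo hz1
      refine ⟨v, fun h0 => hv (Subtype.ext h0), fun g => ?_⟩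
      obtain ⟨a, ha⟩ := h g
      refine ⟨lam g * a, ?_⟩
      have h4 : lam g⁻¹ • σB g v = a • v := ha
      have h5 : σB g v = (lam g * a) • v := by
        rw [mul_smul, ← h4, smul_smul, ← map_mul, mul_inv_cancel, map_one, one_smul]
      have h6 := congrArg (fun x : B => (x : V)) h5
      simp only [hσB] at h6
      rw [h6]
      rfl
    · have hz1 : σA z = 1 := by
        ext x
        rw [hσA]
        exact (hA x).1 x.2
      obtain ⟨v, hv, h⟩ := key A σA hod hz1
      refine ⟨v, fun h0 => hv (Subtype.ext h0), fun g => ?_⟩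
      obtain ⟨a, ha⟩ := h g
      refine ⟨a, ?_⟩
      have h6 := congrArg (fun x : A => (x : V)) ha
      simp only [hσA] at h6
      rw [h6]
      rfl

/-- the averaging idempotent `e_U` of a subgroup and its trace: `tr (ρ g e_U)` -/
def av_idem (U : Subgroup G) (ρ : Representation Ω G V) : Module.End Ω V :=
  act (rs U ρ) (fun _ => (Nat.card U : Ω)⁻¹)

namespace P32_aux

theorem av_proj (U : Subgroup G) (ρ : Representation Ω G V) :
    LinearMap.IsProj (rs U ρ).invariants (av_idem U ρ) := by
  classical
  let _ := Fintype.ofFinite U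
  have hc : (Fintype.card U : Ω) ≠ 0 := by
    rw [Fintype.card_eq_nat_card]
    exact Nat.cast_ne_zero.2 Nat.card_pos.ne'
  let _ : Invertible (Fintype.card U : Ω) := invertibleOfNonzero hc
  have h : av_idem U ρ = (rs U ρ).averageMap := by
    rw [av_idem, act_eq, Representation.averageMap, GroupAlgebra.average, map_smul, map_sum,
      ← Finset.smul_sum, invOf_eq_inv, Fintype.card_eq_nat_card]
    congr 1
    refine Finset.sum_congr rfl fun g _ => ?_
    simp
  rw [h]
  exact (rs U ρ).isProj_averageMap

end P32_aux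

theorem av_idem_range (U : Subgroup G) (ρ : Representation Ω G V) :
    LinearMap.range (av_idem U ρ) = (rs U ρ).invariants := by
  exact (P32_aux.av_proj U ρ).range

theorem av_idem_idem (U : Subgroup G) (ρ : Representation Ω G V) :
    av_idem U ρ * av_idem U ρ = av_idem U ρ := by
  ext v
  have h := P32_aux.av_proj U ρ
  rw [Module.End.mul_apply]
  exact h.map_id _ (h.map_mem v)

namespace P32_aux

/-- the averaging idempotent commutes with the normalizer -/
theorem av_comm (U : Subgroup G) (ρ : Representation Ω G V) (t : G)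
    (hn : ∀ u : G, u ∈ U ↔ t * u * t⁻¹ ∈ U) : ρ t * av_idem U ρ = av_idem U ρ * ρ t := by
  classical
  let _ := Fintype.ofFinite U
  rw [av_idem, act_eq, Finset.mul_sum, Finset.sum_mul]
  refine Finset.sum_bij (fun u _ => (⟨t * u * t⁻¹, (hn u).1 u.2⟩ : U)) (fun _ _ => Finset.mem_univ _)
    ?_ ?_ ?_
  · intro a _ b _ h
    have := congrArg Subtype.val h
    simp only [mul_left_inj, mul_right_inj] at this
    exact Subtype.ext this
  · intro b _
    refine ⟨⟨t⁻¹ * b * t, (hn _).2 ?_⟩, Finset.mem_univ _, ?_⟩
    · have : t * (t⁻¹ * (b : G) * t) * t⁻¹ = b := by group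
      rw [this]; exact b.2
    · apply Subtype.ext
      change t * (t⁻¹ * (b : G) * t) * t⁻¹ = b
      group
  · intro u _
    have h1 : rs U ρ u = ρ (u : G) := rfl
    have h2 : rs U ρ (⟨t * u * t⁻¹, (hn u).1 u.2⟩ : U) = ρ (t * u * t⁻¹) := rfl
    rw [h1, h2, mul_smul_comm, smul_mul_assoc, ← map_mul, ← map_mul, inv_mul_cancel_right]

end P32_aux

/-- the sum over all linear characters of a `2`-group of the multiplicities is congruent to the
dimension mod `2`: `E` the idempotent of the commutator subgroup. -/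
theorem parity_two_group {k : ℕ} (hG : Nat.card G = 2 ^ k) (ρ : Representation Ω G V) :
    (Odd (Module.finrank Ω V) ↔
      Odd (Module.finrank Ω (rs (commutator G) ρ).invariants)) := by
  classical
  have hP := P32_aux.av_proj (commutator G) ρ
  have hcompl := hP.isCompl
  have hdim := Submodule.finrank_add_eq_of_isCompl hcompl
  have hcomm : ∀ g, ρ g * av_idem (commutator G) ρ = av_idem (commutator G) ρ * ρ g := by
    intro g
    refine P32_aux.av_comm _ ρ g (fun u => ⟨fun h => ?_, fun h => ?_⟩)
    · exact (inferInstance : (commutator G).Normal).conj_mem u h g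
    · have := (inferInstance : (commutator G).Normal).conj_mem _ h g⁻¹
      have h2 : g⁻¹ * (g * u * g⁻¹) * g⁻¹⁻¹ = u := by group
      rwa [h2] at this
  have hker : ∀ g, ∀ x ∈ LinearMap.ker (av_idem (commutator G) ρ),
      ρ g x ∈ LinearMap.ker (av_idem (commutator G) ρ) := by
    intro g x hx
    rw [LinearMap.mem_ker] at hx ⊢
    rw [← Module.End.mul_apply, ← hcomm g, Module.End.mul_apply, hx, map_zero]
  have hev : Even (Module.finrank Ω (LinearMap.ker (av_idem (commutator G) ρ))) := by
    by_contra hne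
    rw [Nat.not_even_iff_odd] at hne
    obtain ⟨τ, hτ⟩ := P32_aux.exists_sub ρ _ hker
    obtain ⟨v, hv, h⟩ := linear_of_two_group hG (ρ := τ) hne
    have hv' : (v : V) ≠ 0 := fun h0 => hv (Subtype.ext h0)
    have h' : ∀ g, ∃ a : Ω, ρ g v = a • (v : V) := by
      intro g
      obtain ⟨a, ha⟩ := h g
      refine ⟨a, ?_⟩
      rw [← hτ, ha]
      rfl
    choose a ha using h'
    have hinj : ∀ x y : Ω, x • (v : V) = y • (v : V) → x = y := by
      intro x y hxy
      have h0 : (x - y) • (v : V) = 0 := by rw [sub_smul, hxy, sub_self]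
      exact sub_eq_zero.1 ((smul_eq_zero.1 h0).resolve_right hv')
    have hmul : ∀ g h, a (g * h) = a g * a h := by
      intro g h
      have h1 : ρ (g * h) v = (a g * a h) • (v : V) := by
        rw [map_mul, Module.End.mul_apply, ha h, map_smul, ha g, smul_smul, mul_comm]
      rw [ha] at h1
      exact hinj _ _ h1
    have hone : a 1 = 1 := by
      have h1 := ha 1
      rw [map_one, Module.End.one_apply] at h1
      have h2 : (1 : Ω) • (v : V) = a 1 • (v : V) := by rw [one_smul]; exact h1
      exact (hinj _ _ h2).symm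
    let α : G →* Ω := { toFun := a, map_one' := hone, map_mul' := hmul }
    have hα : ∀ u ∈ commutator G, a u = 1 := by
      intro u hu
      let β : G →* Ωˣ := α.toHomUnits
      have h1 : u ∈ β.ker := Abelianization.commutator_subset_ker β hu
      have h2 : β u = 1 := h1
      have h3 := congrArg (fun x : Ωˣ => (x : Ω)) h2
      exact h3
    have hinv : (v : V) ∈ (rs (commutator G) ρ).invariants := by
      intro u
      have h2 : rs (commutator G) ρ u = ρ (u : G) := rfl
      rw [h2, ha, hα u u.2, one_smul]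
    have h4 := hP.map_id _ hinv
    have h5 : av_idem (commutator G) ρ v = 0 := v.2
    exact hv' (by rw [← h4, h5])
  rw [← hdim]
  constructor
  · intro h
    by_contra hne
    rw [Nat.not_odd_iff_even] at hne
    exact (Nat.not_odd_iff_even.2 (hne.add hev)) h
  · intro h
    exact h.add_even hev

/-- `T` normalizes `U`: the representation of `T` on `V^U`; it is self dual if `ρ` is. -/
theorem exists_inv_rep (U T : Subgroup G) (hn : ∀ t ∈ T, ∀ u ∈ U, t * u * t⁻¹ ∈ U)
    (ρ : Representation Ω G V) :
    ∃ τ : Representation Ω T (rs U ρ).invariants,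
      (∀ (t : T) (v : (rs U ρ).invariants), ((τ t v : (rs U ρ).invariants) : V) = ρ t v) ∧
      (SD ρ → SD τ) := by
  classical
  let _ := Fintype.ofFinite U
  have hn' : ∀ t : T, ∀ u : G, u ∈ U ↔ (t : G) * u * (t : G)⁻¹ ∈ U := by
    intro t u
    refine ⟨fun h => hn t t.2 u h, fun h => ?_⟩
    have := hn ((t : G)⁻¹) (T.inv_mem t.2) _ h
    have h2 : (t : G)⁻¹ * ((t : G) * u * (t : G)⁻¹) * (t : G)⁻¹⁻¹ = u := by group
    rwa [h2] at this
  have hinv : ∀ t : T, ∀ x ∈ (rs U ρ).invariants, rs T ρ t x ∈ (rs U ρ).invariants := by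
    intro t x hx u
    have h1 : rs T ρ t = ρ (t : G) := rfl
    have h2 : rs U ρ u = ρ (u : G) := rfl
    rw [h1, h2, ← Module.End.mul_apply, ← map_mul]
    have h3 : (u : G) * t = t * ((t : G)⁻¹ * u * t) := by group
    have h4 : (t : G)⁻¹ * u * t ∈ U := by
      rw [hn' t]
      have : (t : G) * ((t : G)⁻¹ * u * t) * (t : G)⁻¹ = u := by group
      rw [this]; exact u.2
    rw [h3, map_mul, Module.End.mul_apply]
    have h5 := hx ⟨_, h4⟩
    have h6 : rs U ρ ⟨_, h4⟩ = ρ ((t : G)⁻¹ * u * t) := rfl
    rw [h6] at h5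
    rw [h5]
  obtain ⟨τ, hτ⟩ := P32_aux.exists_sub (rs T ρ) _ hinv
  have hP := P32_aux.av_proj U ρ
  have htr : ∀ t : T, τ.character t = (Nat.card U : Ω)⁻¹ * ∑ u : U, ρ.character ((t : G) * u) := by
    intro t
    have hf : ∀ x, (ρ (t : G) * av_idem U ρ) x ∈ (rs U ρ).invariants := by
      intro x
      exact hinv t _ (hP.map_mem x)
    have h1 := LinearMap.trace_restrict_eq_of_forall_mem (rs U ρ).invariants
      (ρ (t : G) * av_idem U ρ) hf
    have h2 : (ρ (t : G) * av_idem U ρ).restrict (fun x _ => hf x) = τ t := by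
      ext x
      rw [hτ]
      change (ρ (t : G)) (av_idem U ρ x) = ρ (t : G) x
      rw [hP.map_id _ x.2]
    rw [h2] at h1
    rw [Representation.character, h1, av_idem, act_eq, Finset.mul_sum, map_sum, Finset.mul_sum]
    refine Finset.sum_congr rfl fun u _ => ?_
    have h3 : rs U ρ u = ρ (u : G) := rfl
    rw [h3, mul_smul_comm, map_smul, ← map_mul, smul_eq_mul]
    rfl
  refine ⟨τ, hτ, fun hsd t => ?_⟩
  rw [htr, htr]
  congr 1
  have h1 : ∀ u : U, ρ.character (((t⁻¹ : T) : G) * u) = ρ.character ((t : G) * ((u⁻¹ : U) : G)) := by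
    intro u
    rw [← hsd, Representation.char_mul_comm]
    congr 1
    rw [Subgroup.coe_inv, Subgroup.coe_inv, mul_inv_rev, inv_inv]
  rw [Finset.sum_congr rfl (fun u _ => h1 u)]
  exact Equiv.sum_comp (Equiv.inv U) (fun u : U => ρ.character ((t : G) * (u : G)))

end

end Parker
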