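import Pool.Agent.Parker.Defs
import Pool.Agent.Parker.P01
import Pool.Agent.Parker.P06
import Pool.Agent.Parker.P08
import Pool.Agent.Parker.P09
import Pool.Agent.Parker.P10
import Pool.Agent.Parker.P13
import Pool.Agent.Parker.P29
import Pool.Agent.Parker.P30
import Pool.Agent.Parker.P31
import Pool.Agent.Parker.P32
import Pool.Agent.Parker.P33

/-!
# MP_6c3636_al, module P34: (7.3), groups with rank one data in characteristic two (helper7)
-/

namespace Parker

universe u v w

noncomputable section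

namespace P34_aux

/-! characters with values `±1` -/

section Grp

variable {H : Type u} [Group H] [Finite H]

instance : Finite (H →* ℤˣ) := DFunLike.finite _

theorem hom_comm (lam : H →* ℤˣ) {x : H} (hx : x ∈ commutator H) : lam x = 1 := by
  have := Abelianization.commutator_subset_ker lam hx
  exact this

theorem enough (hsq : ∀ x : H, x * x ∈ commutator H) :
    HasEnoughRootsOfUnity ℤ (Monoid.exponent (Abelianization H)) := by
  have h1 : Monoid.exponent (Abelianization H) ∣ 2 := by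
    rw [Monoid.exponent_dvd_iff_forall_pow_eq_one]
    intro x
    obtain ⟨g, rfl⟩ : ∃ g, Abelianization.of g = x := QuotientGroup.mk_surjective x
    rw [← map_pow, pow_two]
    exact (QuotientGroup.eq_one_iff _).mpr (hsq g)
  rcases (Nat.dvd_prime Nat.prime_two).mp h1 with h | h
  · rw [h]
    exact ⟨⟨1, IsPrimitiveRoot.one⟩, inferInstance⟩
  · rw [h]
    refine ⟨⟨-1, ?_⟩, inferInstance⟩
    exact IsPrimitiveRoot.neg_one 0 (by norm_num)

theorem exists_sep (hsq : ∀ x : H, x * x ∈ commutator H) {x : H} (hx : x ∉ commutator H) :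
    ∃ lam : H →* ℤˣ, lam x = -1 := by
  have := enough hsq
  obtain ⟨φ, hφ⟩ := CommGroup.exists_apply_ne_one_of_hasEnoughRootsOfUnity (Abelianization H) ℤ
    (a := Abelianization.of x) (fun h => hx ((QuotientGroup.eq_one_iff _).mp h))
  refine ⟨φ.comp Abelianization.of, ?_⟩
  rcases Int.units_eq_one_or (φ (Abelianization.of x)) with h | h
  · exact absurd h hφ
  · exact h

theorem card_hom (hsq : ∀ x : H, x * x ∈ commutator H) :
    Nat.card (H →* ℤˣ) * Nat.card (commutator H) = Nat.card H := by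
  have := enough hsq
  have h1 : Nat.card (H →* ℤˣ) = Nat.card (Abelianization H →* ℤˣ) :=
    Nat.card_congr Abelianization.lift
  have h2 := CommGroup.card_monoidHom_of_hasEnoughRootsOfUnity (Abelianization H) ℤ
  rw [h1, h2]
  exact (Subgroup.card_eq_card_quotient_mul_card_subgroup (commutator H)).symm

open Classical in
theorem char_sum [Fintype (H →* ℤˣ)] (hsq : ∀ x : H, x * x ∈ commutator H) (x : H) :
    ∑ lam : H →* ℤˣ, ((lam x : ℤˣ) : ℤ) =
      if x ∈ commutator H then (Nat.card (H →* ℤˣ) : ℤ) else 0 := by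
  split_ifs with hx
  · rw [Finset.sum_congr rfl fun lam _ => by rw [hom_comm lam hx]]
    simp [Nat.card_eq_fintype_card]
  · obtain ⟨l0, hl0⟩ := exists_sep hsq hx
    have h1 : ∑ lam : H →* ℤˣ, ((lam x : ℤˣ) : ℤ) = ∑ lam : H →* ℤˣ, (((l0 * lam) x : ℤˣ) : ℤ) :=
      (Equiv.sum_comp (Equiv.mulLeft l0) (fun lam : H →* ℤˣ => ((lam x : ℤˣ) : ℤ))).symm
    have h2 : ∑ lam : H →* ℤˣ, (((l0 * lam) x : ℤˣ) : ℤ) = - ∑ lam : H →* ℤˣ, ((lam x : ℤˣ) : ℤ) := by
      rw [← Finset.sum_neg_distrib]
      refine Finset.sum_congr rfl fun lam _ => ?_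
      rw [MonoidHom.mul_apply, hl0]
      simp
    rw [h2] at h1
    omega

end Grp

section Rep

variable {Ω : Type} [Field Ω] [IsAlgClosed Ω] [CharZero Ω]
  {H : Type u} [Group H] [Finite H]
  {V : Type v} [AddCommGroup V] [Module Ω V] [FiniteDimensional Ω V]

/-- the eigenspace of a `±1`-valued character -/
def eig (R : Representation Ω H V) (lam : H →* ℤˣ) : Submodule Ω V where
  carrier := {v | ∀ u, R u v = ((lam u : ℤ) : Ω) • v}
  add_mem' := by
    intro a b ha hb u
    rw [map_add, ha u, hb u, smul_add]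
  zero_mem' := by
    intro u
    simp
  smul_mem' := by
    intro c x hx u
    rw [map_smul, hx u, smul_comm]

theorem mem_eig {R : Representation Ω H V} {lam : H →* ℤˣ} {v : V} :
    v ∈ eig R lam ↔ ∀ u, R u v = ((lam u : ℤ) : Ω) • v := Iff.rfl

/-- the projection to the eigenspace -/
def pr (R : Representation Ω H V) (lam : H →* ℤˣ) : Module.End Ω V :=
  act R (fun u => (Nat.card H : Ω)⁻¹ * ((lam u : ℤ) : Ω))

theorem sq_one (lam : H →* ℤˣ) (u : H) : (((lam u : ℤˣ) : ℤ) : Ω) * ((lam u : ℤ) : Ω) = 1 := by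
  rcases Int.units_eq_one_or (lam u) with h | h <;> simp [h]

theorem pr_proj (R : Representation Ω H V) (lam : H →* ℤˣ) :
    LinearMap.IsProj (eig R lam) (pr R lam) := by
  classical
  have := Fintype.ofFinite H
  have hcard : (Nat.card H : Ω) ≠ 0 := Nat.cast_ne_zero.mpr Nat.card_pos.ne'
  constructor
  · intro x
    rw [mem_eig]
    intro u
    unfold pr
    rw [act_eq, LinearMap.sum_apply, map_sum, Finset.smul_sum]
    rw [← Equiv.sum_comp (Equiv.mulLeft u) (fun g : H => ((lam u : ℤ) : Ω) •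
      (((Nat.card H : Ω)⁻¹ * ((lam g : ℤ) : Ω)) • R g) x)]
    refine Finset.sum_congr rfl fun g _ => ?_
    rw [Equiv.coe_mulLeft, LinearMap.smul_apply, LinearMap.smul_apply, map_smul, smul_smul,
      map_mul, map_mul]
    simp only [Module.End.mul_apply, Units.val_mul, Int.cast_mul]
    congr 1
    have := sq_one (Ω := Ω) lam u
    linear_combination (-(Nat.card H : Ω)⁻¹ * ((lam g : ℤ) : Ω)) * this
  · intro x hx
    unfold pr
    rw [act_eq, LinearMap.sum_apply]
    have h1 : ∀ g : H, (((Nat.card H : Ω)⁻¹ * ((lam g : ℤ) : Ω)) • R g) x =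
        (Nat.card H : Ω)⁻¹ • x := by
      intro g
      rw [LinearMap.smul_apply, hx g, smul_smul, mul_assoc, sq_one, mul_one]
    rw [Finset.sum_congr rfl fun g _ => h1 g, Finset.sum_const, Finset.card_univ,
      ← Nat.card_eq_fintype_card, ← Nat.cast_smul_eq_nsmul Ω, smul_smul, mul_inv_cancel₀ hcard,
      one_smul]

theorem sum_eig [Fintype (H →* ℤˣ)] (hsq : ∀ x : H, x * x ∈ commutator H)
    (R : Representation Ω H V) :
    Module.finrank Ω (rs (commutator H) R).invariants =
      ∑ lam : H →* ℤˣ, Module.finrank Ω (eig R lam) := by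
  classical
  have := Fintype.ofFinite H
  have hcard : (Nat.card H : Ω) ≠ 0 := Nat.cast_ne_zero.mpr Nat.card_pos.ne'
  have h1 : ∀ lam : H →* ℤˣ, (Module.finrank Ω (eig R lam) : Ω) =
      LinearMap.trace Ω V (pr R lam) := fun lam => (pr_proj R lam).trace.symm
  have h2 : LinearMap.IsProj (rs (commutator H) R).invariants (av_idem (commutator H) R) := by
    rw [← av_idem_range]
    refine ⟨fun x => ⟨x, rfl⟩, ?_⟩
    rintro _ ⟨x, rfl⟩
    exact congrArg (fun f : Module.End Ω V => f x) (av_idem_idem (commutator H) R)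
  have h3 : (Module.finrank Ω (rs (commutator H) R).invariants : Ω) =
      LinearMap.trace Ω V (av_idem (commutator H) R) := h2.trace.symm
  have h4 : av_idem (commutator H) R = ∑ lam : H →* ℤˣ, pr R lam := by
    have h5 : ∑ lam : H →* ℤˣ, pr R lam = act R (fun u => (Nat.card H : Ω)⁻¹ *
        ((∑ lam : H →* ℤˣ, ((lam u : ℤˣ) : ℤ) : ℤ) : Ω)) := by
      unfold pr
      rw [← act_sum]
      congr 1
      ext u
      rw [Finset.sum_apply, ← Finset.mul_sum, Int.cast_sum]
    rw [h5]
    unfold av_idem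
    have := Fintype.ofFinite (commutator H)
    rw [act_eq, act_eq]
    have h6 : (Nat.card (H →* ℤˣ) : Ω) * (Nat.card (commutator H) : Ω) = (Nat.card H : Ω) := by
      exact_mod_cast congrArg (Nat.cast (R := Ω)) (card_hom hsq)
    have h7 : (Nat.card (commutator H) : Ω) ≠ 0 := Nat.cast_ne_zero.mpr Nat.card_pos.ne'
    have h8 : ∀ u : H, ((Nat.card H : Ω)⁻¹ *
        ((∑ lam : H →* ℤˣ, ((lam u : ℤˣ) : ℤ) : ℤ) : Ω)) • R u =
        if u ∈ commutator H then (Nat.card (commutator H) : Ω)⁻¹ • R u else 0 := by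
      intro u
      rw [char_sum hsq]
      split_ifs with h
      · congr 1
        rw [← h6]
        have h9 : (Nat.card (H →* ℤˣ) : Ω) ≠ 0 := by
          intro h0
          rw [h0, zero_mul] at h6
          exact hcard h6.symm
        push_cast
        field_simp
      · simp
    rw [Finset.sum_congr rfl fun u _ => h8 u, ← Finset.sum_filter]
    symm
    refine Finset.sum_bij' (fun u hu => ⟨u, (Finset.mem_filter.mp hu).2⟩) (fun k _ => k.1)
      (fun _ _ => Finset.mem_univ _) (fun k _ => Finset.mem_filter.mpr ⟨Finset.mem_univ _, k.2⟩)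
      (fun _ _ => rfl) (fun _ _ => rfl) (fun _ _ => rfl)
  have h10 : (Module.finrank Ω (rs (commutator H) R).invariants : Ω) =
      ((∑ lam : H →* ℤˣ, Module.finrank Ω (eig R lam) : ℕ) : Ω) := by
    rw [h3, h4, map_sum, Nat.cast_sum]
    exact Finset.sum_congr rfl fun lam _ => (h1 lam).symm
  exact_mod_cast h10

end Rep

section Rank

variable {Ω : Type} [Field Ω] [IsAlgClosed Ω] [CharZero Ω]
  {S : Type u} [Group S] [Finite S] {U T : Subgroup S} {w : S}
  {V : Type v} [AddCommGroup V] [Module Ω V] [FiniteDimensional Ω V]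

omit [Finite S] in
theorem norm_inv (h : RankOne U T w) {t : S} (ht : t ∈ T) {u : S} (hu : u ∈ U) :
    t⁻¹ * u * t ∈ U := by
  have := h.norm t⁻¹ (T.inv_mem ht) u hu
  rwa [inv_inv] at this

omit [IsAlgClosed Ω] [CharZero Ω] in
theorem finrank_eig_le (h : RankOne U T w) (ρ : Representation Ω S V) {lam mu : U →* ℤˣ}
    (t : T) (ht : ∀ x y : U, (y : S) = (t : S)⁻¹ * x * t → mu x = lam y) :
    Module.finrank Ω (eig (rs U ρ) lam) ≤ Module.finrank Ω (eig (rs U ρ) mu) := by
  have hinj : Function.Injective (ρ (t : S)) := by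
    intro x y hxy
    have := congrArg (ρ (t : S)⁻¹) hxy
    rw [← Module.End.mul_apply, ← Module.End.mul_apply, ← map_mul, inv_mul_cancel, map_one] at this
    exact this
  have hmap : ∀ v ∈ eig (rs U ρ) lam, ρ (t : S) v ∈ eig (rs U ρ) mu := by
    intro v hv x
    have hy : (t : S)⁻¹ * x * t ∈ U := norm_inv h t.2 x.2
    have h1 := ht x ⟨_, hy⟩ rfl
    have h2 := hv ⟨_, hy⟩
    change ρ (x : S) (ρ (t : S) v) = _
    change ρ ((t : S)⁻¹ * x * t) v = _ at h2
    rw [h1, ← map_smul, ← h2, ← Module.End.mul_apply, ← Module.End.mul_apply, ← map_mul, ← map_mul]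
    congr 2
    group
  exact LinearMap.finrank_le_finrank_of_injective
    (f := (ρ (t : S)).restrict hmap) (fun x y hxy => Subtype.ext (hinj (congrArg Subtype.val hxy)))

theorem card_ne_one (h : RankOne U T w) {lam : U →* ℤˣ} (hl : lam ≠ 1) :
    Nat.card {mu : U →* ℤˣ // mu ≠ 1} = Nat.card T := by
  have ht : ∀ mu : {mu : U →* ℤˣ // mu ≠ 1}, ∃! t : T, ∀ x y : U,
      (y : S) = (t : S)⁻¹ * x * t → mu.1 x = lam y := fun mu => h.trans lam mu.1 hl mu.2
  choose f hf hfu using ht
  refine Nat.card_congr (Equiv.ofBijective f ⟨?_, ?_⟩)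
  · intro mu mu' hmu
    refine Subtype.ext (MonoidHom.ext fun x => ?_)
    have hy : (f mu : S)⁻¹ * x * (f mu) ∈ U := norm_inv h (f mu).2 x.2
    have h1 := hf mu x ⟨_, hy⟩ rfl
    have h2 := hf mu' x ⟨_, hy⟩ (congrArg (fun s : T => (s : S)⁻¹ * x * s) hmu)
    rw [h1, h2]
  · intro t
    let mu : U →* ℤˣ := MonoidHom.mk' (fun x => lam ⟨(t : S)⁻¹ * x * t, norm_inv h t.2 x.2⟩)
      (by
        intro a b
        rw [← map_mul]
        congr 1
        refine Subtype.ext ?_
        simp only [Subgroup.coe_mul]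
        group)
    have hmu : mu ≠ 1 := by
      intro h1
      apply hl
      refine MonoidHom.ext fun x => ?_
      have h2 : mu ⟨(t : S) * x * (t : S)⁻¹, h.norm t t.2 x x.2⟩ = 1 := by rw [h1]; rfl
      change lam ⟨(t : S)⁻¹ * ((t : S) * x * (t : S)⁻¹) * t, _⟩ = 1 at h2
      rw [MonoidHom.one_apply, ← h2]
      congr 1
      refine Subtype.ext ?_
      simp only
      group
    refine ⟨⟨mu, hmu⟩, ?_⟩
    refine (hfu ⟨mu, hmu⟩ t ?_).symm
    intro x y hxy
    change lam ⟨(t : S)⁻¹ * x * t, _⟩ = lam y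
    congr 1
    exact Subtype.ext hxy.symm

theorem sum_rank [Fintype (U →* ℤˣ)] (h : RankOne U T w) (ρ : Representation Ω S V)
    {lam : U →* ℤˣ} (hl : lam ≠ 1) :
    ∑ mu : U →* ℤˣ, Module.finrank Ω (eig (rs U ρ) mu) =
      Module.finrank Ω (eig (rs U ρ) 1) + Nat.card T * Module.finrank Ω (eig (rs U ρ) lam) := by
  classical
  rw [← Finset.add_sum_erase Finset.univ _ (Finset.mem_univ (1 : U →* ℤˣ))]
  congr 1
  have h1 : ∀ mu ∈ (Finset.univ.erase (1 : U →* ℤˣ)),
      Module.finrank Ω (eig (rs U ρ) mu) = Module.finrank Ω (eig (rs U ρ) lam) := by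
    intro mu hmu
    have hmu' : mu ≠ 1 := (Finset.mem_erase.mp hmu).1
    obtain ⟨t, ht, -⟩ := h.trans lam mu hl hmu'
    obtain ⟨t', ht', -⟩ := h.trans mu lam hmu' hl
    exact le_antisymm (finrank_eig_le h ρ t' ht') (finrank_eig_le h ρ t ht)
  rw [Finset.sum_congr rfl h1, Finset.sum_const, smul_eq_mul]
  congr 1
  rw [← card_ne_one h hl, Nat.card_eq_fintype_card, Fintype.card_subtype]
  congr 1
  ext mu
  simp

theorem even_inv (h : RankOne U T w) {ρ : Representation Ω S V} (hsd : SD ρ)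
    (hB : ∀ v : V, (∀ b ∈ h.borel, ρ b v = v) → v = 0) :
    Even (Module.finrank Ω (rs U ρ).invariants) := by
  obtain ⟨τ, h1, h2⟩ := exists_inv_rep U T h.norm ρ
  rw [← Nat.not_odd_iff_even, parity_odd h.odd (h2 hsd)]
  have h3 : τ.invariants = ⊥ := by
    rw [Submodule.eq_bot_iff]
    intro v hv
    refine Subtype.ext ?_
    refine hB v ?_
    rintro _ ⟨u, hu, t, ht, rfl⟩
    have h4 : ρ t (v : V) = v := by
      rw [← h1 ⟨t, ht⟩ v, (Representation.mem_invariants τ v).mp hv ⟨t, ht⟩]
    have h5 : ρ u (v : V) = v := (Representation.mem_invariants (rs U ρ) v).mp v.2 ⟨u, hu⟩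
    rw [map_mul, Module.End.mul_apply, h4, h5]
  rw [h3, finrank_bot]
  simp

end Rank

end P34_aux

variable {Ω : Type} [Field Ω] [IsAlgClosed Ω] [CharZero Ω] {c : Ctx Ω}
  {S : Type u} [Group S] [Finite S] {U T : Subgroup S} {w : S}
  {V : Type v} [AddCommGroup V] [Module Ω V] [FiniteDimensional Ω V]

open P34_aux

/-- no vector fixed by the Borel subgroup, `V` self dual of even dimension: no eigenvector for a
nontrivial linear character of `U`: `dim V ≡ dim V^{[U,U]} ≡ dim V^U + β |T| ≡ β` mod `2` where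
`β ≤ 1` is the common multiplicity of the nontrivial linear characters of `U`
(`parity_two_group`, `parity_odd` for `T` acting on `V^U`, `RankOne.mult_one`). -/
theorem RankOne.no_linear (h : RankOne U T w) {ρ : Representation Ω S V}
    (hρ : ρ.IsIrreducible) (hev : Even (Module.finrank Ω V)) (hsd : SD ρ)
    (hB : ∀ v : V, (∀ b ∈ h.borel, ρ b v = v) → v = 0) {lam : U →* ℤˣ} (hl : lam ≠ 1) {v : V}
    (hv : ∀ u : U, ρ u v = ((lam u : ℤ) : Ω) • v) : v = 0 := by
  by_contra hv0
  have := Fintype.ofFinite (U →* ℤˣ)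
  obtain ⟨k, hk⟩ := h.two
  have h1 := parity_two_group hk (rs U ρ)
  rw [sum_eig h.sq (rs U ρ), sum_rank h ρ hl] at h1
  have h2 : Module.finrank Ω (eig (rs U ρ) lam) = 1 := by
    rw [finrank_eq_one_iff_of_nonzero' (⟨v, hv⟩ : eig (rs U ρ) lam)
      (fun h0 => hv0 (congrArg Subtype.val h0))]
    rintro ⟨v', hv'⟩
    obtain ⟨a, ha⟩ := h.mult_one hl hρ hv0 hv hv'
    exact ⟨a, Subtype.ext ha.symm⟩
  have h3 : eig (rs U ρ) 1 = (rs U ρ).invariants := by
    ext x
    rw [mem_eig, Representation.mem_invariants]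
    simp
  rw [h3, h2, mul_one] at h1
  have h4 := even_inv h hsd hB
  have h5 : Odd (Module.finrank Ω (rs U ρ).invariants + Nat.card T) := h4.add_odd h.odd
  exact (Nat.not_odd_iff_even.mpr hev) (h1.mpr h5)

/-- then the restriction to the Borel subgroup has no self dual constituent of odd dimension -/
theorem RankOne.noOdd (h : RankOne U T w) {ρ : Representation Ω S V}
    (hρ : ρ.IsIrreducible) (hev : Even (Module.finrank Ω V)) (hsd : SD ρ)
    (hB : ∀ v : V, (∀ b ∈ h.borel, ρ b v = v) → v = 0) : NoOdd (rs h.borel ρ) := by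
  intro W hW hodd hWsd
  have hUB : U ≤ h.borel := fun u hu => ⟨u, hu, 1, T.one_mem, (mul_one u).symm⟩
  have hTB : T ≤ h.borel := fun t ht => ⟨1, U.one_mem, t, ht, (one_mul t).symm⟩
  have hval : ∀ (b : h.borel) (x : W.toSubmodule), ((W.toRepresentation b x : W.toSubmodule) : V) =
      ρ (b : S) (x : V) := fun b x => rfl
  let σU : Representation Ω U W.toSubmodule := MonoidHom.comp W.toRepresentation (Subgroup.inclusion hUB)
  obtain ⟨k, hk⟩ := h.two
  obtain ⟨v, hv0, hv⟩ := linear_of_two_group hk (ρ := σU) hodd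
  choose a ha using hv
  have ha1 : a 1 = 1 := by
    have h1 := ha 1
    rw [map_one, Module.End.one_apply] at h1
    have h2 : (a 1 - 1) • v = 0 := by rw [sub_smul, one_smul, ← h1, sub_self]
    rcases smul_eq_zero.mp h2 with h3 | h3
    · exact sub_eq_zero.mp h3
    · exact absurd h3 hv0
  have hamul : ∀ x y, a (x * y) = a x * a y := by
    intro x y
    have h1 := ha (x * y)
    rw [map_mul, Module.End.mul_apply, ha y, map_smul, ha x, smul_smul] at h1
    have h2 : (a y * a x - a (x * y)) • v = 0 := by rw [sub_smul, h1, sub_self]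
    rcases smul_eq_zero.mp h2 with h3 | h3
    · rw [← sub_eq_zero.mp h3, mul_comm]
    · exact absurd h3 hv0
  let A : U →* Ω := ⟨⟨a, ha1⟩, hamul⟩
  have hsq : ∀ x : U, a x = 1 ∨ a x = -1 := by
    intro x
    have h1 : A (x * x) = 1 := by
      have h2 := Abelianization.commutator_subset_ker A.toHomUnits (h.sq x)
      have h3 : A.toHomUnits (x * x) = 1 := h2
      have h4 := congrArg Units.val h3
      rwa [MonoidHom.coe_toHomUnits, Units.val_one] at h4
    have h5 : a x * a x = 1 := by rw [← hamul]; exact h1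
    exact mul_self_eq_one_iff.mp h5
  have hne : (1 : Ω) ≠ -1 := by
    intro h0
    have : (2 : Ω) = 0 := by linear_combination h0
    exact two_ne_zero this
  classical
  let lam : U →* ℤˣ := MonoidHom.mk' (fun x => if a x = 1 then 1 else -1) (by
    intro x y
    rcases hsq x with hx | hx <;> rcases hsq y with hy | hy <;>
      simp [hamul, hx, hy, hne.symm])
  have hlam : ∀ x, ((lam x : ℤ) : Ω) = a x := by
    intro x
    change (((if a x = 1 then 1 else -1 : ℤˣ) : ℤ) : Ω) = a x
    rcases hsq x with hx | hx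
    · rw [if_pos hx, hx]; simp
    · rw [if_neg (by rw [hx]; exact hne.symm), hx]; simp
  have hl1 : lam = 1 := by
    by_contra hl
    apply hv0
    refine Subtype.ext (h.no_linear hρ hev hsd hB hl (v := (v : V)) ?_)
    intro u
    rw [hlam]
    have := congrArg Subtype.val (ha u)
    exact this
  have ha' : ∀ x, a x = 1 := by
    intro x
    rw [← hlam, hl1]
    simp
  -- `U` acts trivially on `W`
  have hUtriv : ∀ (u : U) (x : W.toSubmodule), ρ (u : S) (x : V) = x := by
    have h1 := irr_sub hW (U := σU.invariants) (by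
      rintro ⟨b, u, hu, t, ht, rfl⟩ x hx
      rw [Representation.mem_invariants] at hx ⊢
      intro u'
      refine Subtype.ext ?_
      change ρ (u' : S) (ρ (u * t) (x : V)) = ρ (u * t) (x : V)
      have hy : (u * t)⁻¹ * u' * (u * t) ∈ U := by
        have h2 := norm_inv h ht (U.mul_mem (U.mul_mem (U.inv_mem hu) u'.2) hu)
        have h3 : (u * t)⁻¹ * (u' : S) * (u * t) = t⁻¹ * (u⁻¹ * u' * u) * t := by group
        rwa [h3]
      have h4 := congrArg Subtype.val (hx ⟨_, hy⟩)
      change ρ ((u * t)⁻¹ * u' * (u * t)) (x : V) = x at h4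
      conv_rhs => rw [← h4]
      rw [← Module.End.mul_apply, ← Module.End.mul_apply, ← map_mul, ← map_mul]
      congr 2
      group)
    rcases h1 with h1 | h1
    · exfalso
      apply hv0
      have h2 : v ∈ σU.invariants := by
        rw [Representation.mem_invariants]
        intro u
        rw [ha u, ha', one_smul]
      rw [h1] at h2
      exact (Submodule.mem_bot Ω).mp h2
    · intro u x
      have h2 : x ∈ σU.invariants := by rw [h1]; trivial
      exact congrArg Subtype.val ((Representation.mem_invariants σU x).mp h2 u)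
  -- the representation of `T` on `W`
  let σT : Representation Ω T W.toSubmodule := MonoidHom.comp W.toRepresentation (Subgroup.inclusion hTB)
  have hpos : 0 < Module.finrank Ω W.toSubmodule := irr_pos hW
  have hTirr : σT.IsIrreducible := by
    refine irr_of_sub hpos ?_
    intro X hX
    refine irr_sub hW ?_
    rintro ⟨b, u, hu, t, ht, rfl⟩ x hx
    have h1 := hX ⟨t, ht⟩ x hx
    have h2 : W.toRepresentation ⟨u * t, u, hu, t, ht, rfl⟩ x = σT ⟨t, ht⟩ x := by
      refine Subtype.ext ?_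
      change ρ (u * t) (x : V) = ρ t (x : V)
      have h3 : ρ u (ρ t (x : V)) = ρ t (x : V) := hUtriv ⟨u, hu⟩ (σT ⟨t, ht⟩ x)
      rw [map_mul, Module.End.mul_apply, h3]
    rw [h2]
    exact h1
  have hTsd : SD σT := fun t => hWsd (Subgroup.inclusion hTB t)
  have hTtriv := trivial_of_odd h.odd hTirr hTsd
  have hall : ∀ x : W.toSubmodule, x = 0 := by
    intro x
    refine Subtype.ext (hB x ?_)
    rintro _ ⟨u, hu, t, ht, rfl⟩
    have h1 : ρ t (x : V) = x := by
      have := congrArg Subtype.val (congrArg (fun f : Module.End Ω W.toSubmodule => f x) (hTtriv ⟨t, ht⟩))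
      exact this
    rw [map_mul, Module.End.mul_apply, h1]
    exact hUtriv ⟨u, hu⟩ x
  exact hv0 (hall v)

/-- (A) for groups with rank one data -/
theorem RankOne.propA (h : RankOne U T w) : PropA c 1 S := by
  refine propA_of_good ?_
  intro Γ hΓ n ρ hρ hn hO hF
  have hev : Even (Module.finrank Ω (Fin n → Ω)) := by
    rwa [Module.finrank_fin_fun]
  by_cases hB : ∀ v : Fin n → Ω, (∀ b ∈ h.borel, ρ b v = v) → v = 0
  · have h1 := h.noOdd hρ hev (sd_of_orth hO) hB
    have := h.borel_solvable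
    obtain ⟨hA, hB'⟩ := of_solvable (c := c) h.borel
    exact good_of_res h.borel hA hB' hΓ hO hF h1
  · push Not at hB
    obtain ⟨v, hv, hv0⟩ := hB
    have hcard := h.card_quot
    obtain ⟨k, hk⟩ := h.two
    have hU1 : 1 < Nat.card U := by
      rw [Subgroup.one_lt_card_iff_ne_bot]
      exact h.ne
    have heven : Even (Nat.card U) := by
      rw [hk]
      rw [hk] at hU1
      have hk0 : k ≠ 0 := by
        rintro rfl
        simp at hU1
      exact (Nat.even_pow.mpr ⟨even_two, hk0⟩)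
    have hodd : Odd (Nat.card (S ⧸ h.borel)) := by
      rw [hcard]
      exact odd_one.add_even heven
    have h2 : 2 ≤ Nat.card (S ⧸ h.borel) := by omega
    rcases char_two_trans (S ⧸ h.borel) h.two_trans h2 (x₀ := ((1 : S) : S ⧸ h.borel)) hρ hv0 (by
      intro g hg
      refine hv g ?_
      have h3 : ((g * 1 : S) : S ⧸ h.borel) = ((1 : S) : S ⧸ h.borel) := hg
      rw [mul_one] at h3
      have h4 := QuotientGroup.eq.mp h3.symm
      rwa [inv_one, one_mul] at h4) with h3 | h3
    · exfalso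
      have h4 := h3 1
      rw [Representation.char_one, Module.finrank_fin_fun] at h4
      have h5 : n = 1 := by exact_mod_cast h4
      rw [h5] at hn
      exact (by decide : ¬ Even 1) hn
    · exact good_perm (S ⧸ h.borel) hodd hρ hev h3

theorem P34_aux.card_borel (h : RankOne U T w) : Nat.card h.borel = Nat.card U * Nat.card T := by
  obtain ⟨k, hk⟩ := h.two
  have hcop : Nat.Coprime (Nat.card U) (Nat.card T) := by
    rw [hk]
    exact Nat.Coprime.pow_left k (Nat.coprime_two_left.mpr h.odd)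
  have hdis : U ⊓ T = ⊥ := Subgroup.inf_eq_bot_of_coprime hcop
  rw [← Nat.card_prod]
  symm
  refine Nat.card_congr (Equiv.ofBijective
    (fun p : U × T => (⟨(p.1 : S) * p.2, p.1, p.1.2, p.2, p.2.2, rfl⟩ : h.borel)) ⟨?_, ?_⟩)
  · rintro ⟨u, t⟩ ⟨u', t'⟩ hut
    have h1 : (u : S) * t = u' * t' := congrArg Subtype.val hut
    have h2 : (u' : S)⁻¹ * u = t' * (t : S)⁻¹ := by
      rw [eq_mul_inv_iff_mul_eq, mul_assoc, h1, inv_mul_cancel_left]
    have h3 : (u' : S)⁻¹ * u ∈ U ⊓ T :=
      ⟨U.mul_mem (U.inv_mem u'.2) u.2, by rw [h2]; exact T.mul_mem t'.2 (T.inv_mem t.2)⟩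
    rw [hdis, Subgroup.mem_bot] at h3
    have h4 : (u : S) = u' := (inv_mul_eq_one.mp h3).symm
    rw [h3] at h2
    have h5 : (t' : S) = t := mul_inv_eq_one.mp h2.symm
    exact Prod.ext (Subtype.ext h4) (Subtype.ext h5.symm)
  · rintro ⟨_, u, hu, t, ht, rfl⟩
    exact ⟨(⟨u, hu⟩, ⟨t, ht⟩), rfl⟩

/-- (B) for groups with rank one data if the exponent of `U` divides four -/
theorem RankOne.propB (h : RankOne U T w) (h4 : ∀ u ∈ U, u ^ 4 = 1) : PropB c 1 S := by
  have hcardS : Nat.card S = (1 + Nat.card U) * (Nat.card U * Nat.card T) := by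
    rw [← P34_aux.card_borel h, ← h.card_quot]
    exact Subgroup.card_eq_card_quotient_mul_card_subgroup h.borel
  obtain ⟨k, hk⟩ := h.two
  have hU1 : 1 < Nat.card U := by
    rw [Subgroup.one_lt_card_iff_ne_bot]
    exact h.ne
  have heven : Even (Nat.card U) := by
    rw [hk]
    rw [hk] at hU1
    have hk0 : k ≠ 0 := by
      rintro rfl
      simp at hU1
    exact (Nat.even_pow.mpr ⟨even_two, hk0⟩)
  have hidx : U.index = (1 + Nat.card U) * Nat.card T := by
    have h1 := Subgroup.card_mul_index U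
    have h2 : 0 < Nat.card U := Nat.card_pos
    apply Nat.eq_of_mul_eq_mul_left h2
    rw [h1, hcardS]
    ring
  have hodd : ¬ 2 ∣ U.index := by
    rw [hidx, ← even_iff_two_dvd, Nat.not_even_iff_odd]
    exact (odd_one.add_even heven).mul h.odd
  have hUp : IsPGroup 2 U := IsPGroup.of_card hk
  have hfact : Fact (Nat.Prime 2) := ⟨Nat.prime_two⟩
  let P : Sylow 2 S := hUp.toSylow hodd
  obtain ⟨a, r, hr, har⟩ := Nat.exists_eq_two_pow_mul_odd (n := Nat.card S) Nat.card_pos.ne'
  refine propB_exp4 hr ?_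
  intro g
  have h1 : (g ^ r) ^ (2 ^ a) = 1 := by
    rw [← pow_mul, mul_comm r, ← har]
    exact pow_card_eq_one'
  have h2 : IsPGroup 2 (Subgroup.zpowers (g ^ r)) := by
    rw [IsPGroup.iff_orderOf]
    rintro ⟨x, hx⟩
    obtain ⟨i, rfl⟩ := Subgroup.mem_zpowers_iff.mp hx
    have h3 : orderOf (⟨(g ^ r) ^ i, hx⟩ : Subgroup.zpowers (g ^ r)) ∣ 2 ^ a := by
      rw [orderOf_dvd_iff_pow_eq_one]
      refine Subtype.ext ?_
      change ((g ^ r) ^ i) ^ (2 ^ a) = 1
      rw [← zpow_natCast, ← zpow_mul, mul_comm, zpow_mul, zpow_natCast, h1, one_zpow]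
    exact ((Nat.dvd_prime_pow Nat.prime_two).mp h3).imp fun j hj => hj.2
  obtain ⟨Q, hQ⟩ := h2.exists_le_sylow
  obtain ⟨x, hx⟩ := MulAction.exists_smul_eq S Q P
  have h5 : x * (g ^ r) * x⁻¹ ∈ U := by
    have h6 : x * (g ^ r) * x⁻¹ ∈ ((x • Q : Sylow 2 S) : Subgroup S) :=
      Subgroup.smul_mem_pointwise_smul _ (MulAut.conj x) (Q : Subgroup S)
        (hQ (Subgroup.mem_zpowers _))
    rw [hx] at h6
    exact h6
  have h6 := h4 _ h5
  have h7 : x * (g ^ r) ^ 4 * x⁻¹ = 1 := by
    rw [← h6, ← conj_pow]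
  have h8 : (g ^ r) ^ 4 = 1 := by
    have := congrArg (fun y => x⁻¹ * y * x) h7
    simpa [mul_assoc] using this
  rw [mul_comm, pow_mul, h8]

end

end Parker
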