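import Pool.Agent.Parker.Defs

/-!
# MP_6c3636_al, module P35: `SL_2` over a finite field (helper7)
-/

namespace Parker

open Matrix

noncomputable section

variable {F : Type} [Field F]

/-- upper unipotent -/
def ux (x : F) : SpecialLinearGroup (Fin 2) F :=
  ⟨!![1, x; 0, 1], by simp [Matrix.det_fin_two]⟩

/-- torus -/
def tx (a : Fˣ) : SpecialLinearGroup (Fin 2) F :=
  ⟨!![(a : F), 0; 0, ((a⁻¹ : Fˣ) : F)], by simp [Matrix.det_fin_two]⟩

/-- Weyl element -/
def wx (F : Type) [Field F] : SpecialLinearGroup (Fin 2) F :=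
  ⟨!![0, 1; -1, 0], by simp [Matrix.det_fin_two]⟩

namespace P35_aux

theorem ext4 {g h : SpecialLinearGroup (Fin 2) F} (h00 : g.1 0 0 = h.1 0 0)
    (h01 : g.1 0 1 = h.1 0 1) (h10 : g.1 1 0 = h.1 1 0) (h11 : g.1 1 1 = h.1 1 1) : g = h := by
  apply Subtype.ext
  ext i j
  fin_cases i <;> fin_cases j
  · exact h00
  · exact h01
  · exact h10
  · exact h11

theorem coe_mul' (g h : SpecialLinearGroup (Fin 2) F) : (g * h).1 = g.1 * h.1 := rfl

theorem coe_inv' (g : SpecialLinearGroup (Fin 2) F) : (g⁻¹).1 = Matrix.adjugate g.1 := rfl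

theorem mul00 (g h : SpecialLinearGroup (Fin 2) F) :
    (g * h).1 0 0 = g.1 0 0 * h.1 0 0 + g.1 0 1 * h.1 1 0 := by
  rw [coe_mul', Matrix.mul_apply, Fin.sum_univ_two]

theorem mul01 (g h : SpecialLinearGroup (Fin 2) F) :
    (g * h).1 0 1 = g.1 0 0 * h.1 0 1 + g.1 0 1 * h.1 1 1 := by
  rw [coe_mul', Matrix.mul_apply, Fin.sum_univ_two]

theorem mul10 (g h : SpecialLinearGroup (Fin 2) F) :
    (g * h).1 1 0 = g.1 1 0 * h.1 0 0 + g.1 1 1 * h.1 1 0 := by
  rw [coe_mul', Matrix.mul_apply, Fin.sum_univ_two]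

theorem mul11 (g h : SpecialLinearGroup (Fin 2) F) :
    (g * h).1 1 1 = g.1 1 0 * h.1 0 1 + g.1 1 1 * h.1 1 1 := by
  rw [coe_mul', Matrix.mul_apply, Fin.sum_univ_two]

theorem ux00 (x : F) : (ux x).1 0 0 = 1 := rfl
theorem ux01 (x : F) : (ux x).1 0 1 = x := rfl
theorem ux10 (x : F) : (ux x).1 1 0 = 0 := rfl
theorem ux11 (x : F) : (ux x).1 1 1 = 1 := rfl
theorem tx00 (a : Fˣ) : (tx a).1 0 0 = a := rfl
theorem tx01 (a : Fˣ) : (tx a).1 0 1 = 0 := rfl
theorem tx10 (a : Fˣ) : (tx a).1 1 0 = 0 := rfl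
theorem tx11 (a : Fˣ) : (tx a).1 1 1 = ((a⁻¹ : Fˣ) : F) := rfl
theorem wx00 : (wx F).1 0 0 = 0 := rfl
theorem wx01 : (wx F).1 0 1 = 1 := rfl
theorem wx10 : (wx F).1 1 0 = -1 := rfl
theorem wx11 : (wx F).1 1 1 = 0 := rfl

theorem det' (g : SpecialLinearGroup (Fin 2) F) :
    g.1 0 0 * g.1 1 1 - g.1 0 1 * g.1 1 0 = 1 := by
  have := g.2
  rwa [Matrix.det_fin_two] at this

theorem inv_coe (g : SpecialLinearGroup (Fin 2) F) :
    (g⁻¹).1 = !![g.1 1 1, -g.1 0 1; -g.1 1 0, g.1 0 0] := by
  rw [coe_inv', Matrix.adjugate_fin_two]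

theorem inv00 (g : SpecialLinearGroup (Fin 2) F) : (g⁻¹).1 0 0 = g.1 1 1 := by
  rw [inv_coe]; rfl
theorem inv01 (g : SpecialLinearGroup (Fin 2) F) : (g⁻¹).1 0 1 = -g.1 0 1 := by
  rw [inv_coe]; rfl
theorem inv10 (g : SpecialLinearGroup (Fin 2) F) : (g⁻¹).1 1 0 = -g.1 1 0 := by
  rw [inv_coe]; rfl
theorem inv11 (g : SpecialLinearGroup (Fin 2) F) : (g⁻¹).1 1 1 = g.1 0 0 := by
  rw [inv_coe]; rfl

theorem one00 : (1 : SpecialLinearGroup (Fin 2) F).1 0 0 = 1 := rfl
theorem one01 : (1 : SpecialLinearGroup (Fin 2) F).1 0 1 = 0 := by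
  simp
theorem one10 : (1 : SpecialLinearGroup (Fin 2) F).1 1 0 = 0 := by
  simp
theorem one11 : (1 : SpecialLinearGroup (Fin 2) F).1 1 1 = 1 := by
  simp

end P35_aux

open P35_aux

theorem ux_add (x y : F) : ux (x + y) = ux x * ux y := by
  apply ext4 <;> simp only [mul00, mul01, mul10, mul11, ux00, ux01, ux10, ux11] <;> ring

theorem ux_zero : ux (0 : F) = 1 := by
  apply ext4 <;> simp only [one00, one01, one10, one11, ux00, ux01, ux10, ux11]

theorem ux_neg (x : F) : ux (-x) = (ux x)⁻¹ := by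
  apply ext4 <;> simp only [inv00, inv01, inv10, inv11, ux00, ux01, ux10, ux11, neg_zero]

theorem ux_injective : Function.Injective (ux : F → SpecialLinearGroup (Fin 2) F) := by
  intro x y h
  have := congrArg (fun g : SpecialLinearGroup (Fin 2) F => g.1 0 1) h
  exact this

theorem tx_mul (a b : Fˣ) : tx (a * b) = tx a * tx b := by
  apply ext4 <;> simp only [mul00, mul01, mul10, mul11, tx00, tx01, tx10, tx11, mul_inv,
    Units.val_mul] <;> ring

theorem tx_inv (a : Fˣ) : (tx a)⁻¹ = tx a⁻¹ := by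
  apply ext4 <;> simp only [inv00, inv01, inv10, inv11, tx00, tx01, tx10, tx11, neg_zero, inv_inv]

theorem tx_conj (a : Fˣ) (x : F) : tx a * ux x * (tx a)⁻¹ = ux ((a : F) ^ 2 * x) := by
  have ha : (a : F) * ((a⁻¹ : Fˣ) : F) = 1 := Units.mul_inv a
  rw [tx_inv]
  apply ext4 <;> simp only [mul00, mul01, mul10, mul11, tx00, tx01, tx10, tx11, ux00, ux01,
    ux10, ux11, inv_inv]
  · linear_combination ha
  · ring
  · ring
  · linear_combination ha

theorem wx_sq : wx F * wx F = -1 := by
  apply ext4 <;> simp only [mul00, mul01, mul10, mul11, wx00, wx01, wx10, wx11,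
    SpecialLinearGroup.coe_neg, Matrix.neg_apply, one00, one01, one10, one11] <;> ring

theorem wx_conj (a : Fˣ) : wx F * tx a * (wx F)⁻¹ = tx a⁻¹ := by
  apply ext4 <;> simp only [mul00, mul01, mul10, mul11, wx00, wx01, wx10, wx11, inv00, inv01,
    inv10, inv11, tx00, tx01, tx10, tx11, inv_inv] <;> ring

theorem tx_neg_one : tx (-1 : Fˣ) = -1 := by
  apply ext4 <;> simp only [tx00, tx01, tx10, tx11,
    SpecialLinearGroup.coe_neg, Matrix.neg_apply, one00, one01, one10, one11] <;> simp

theorem bruhat (g : SpecialLinearGroup (Fin 2) F) :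
    (∃ x a, g = ux x * tx a) ∨ ∃ x a y, g = ux x * tx a * wx F * ux y := by
  have hd := det' g
  by_cases hr : g.1 1 0 = 0
  · left
    have hps : g.1 0 0 * g.1 1 1 = 1 := by
      rw [hr, mul_zero, sub_zero] at hd
      exact hd
    have hp : g.1 0 0 ≠ 0 := left_ne_zero_of_mul_eq_one hps
    refine ⟨g.1 0 1 * g.1 0 0, Units.mk0 _ hp, ?_⟩
    have h1 : ((Units.mk0 (g.1 0 0) hp)⁻¹ : Fˣ).val = g.1 1 1 := by
      rw [Units.val_inv_eq_inv_val, Units.val_mk0]
      exact (eq_inv_of_mul_eq_one_right hps).symm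
    apply ext4 <;> simp only [mul00, mul01, mul10, mul11, tx00, tx01, tx10, tx11, ux00, ux01,
      ux10, ux11, h1, Units.val_mk0]
    · ring
    · linear_combination -(g.1 0 1) * hps
    · rw [hr]; ring
    · ring
  · right
    have hr' : -(g.1 1 0) ≠ 0 := neg_ne_zero.mpr hr
    refine ⟨g.1 0 0 / g.1 1 0, (Units.mk0 _ hr')⁻¹, g.1 1 1 / g.1 1 0, ?_⟩
    apply ext4 <;> simp only [mul00, mul01, mul10, mul11, tx00, tx01, tx10, tx11, ux00, ux01,
      ux10, ux11, wx00, wx01, wx10, wx11, inv_inv, Units.val_mk0, Units.val_inv_eq_inv_val]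
    · field_simp
      ring
    · field_simp
      linear_combination (-(g.1 1 0)) * hd
    · ring
    · field_simp
      ring

/-- `w u(x) w⁻¹ = u(-1/x) t w u(-1/x)` for some torus element `t` -/
theorem w_u_w (x : F) (hx : x ≠ 0) : ∃ a : Fˣ,
    wx F * ux x * (wx F)⁻¹ = ux (-x⁻¹) * tx a * wx F * ux (-x⁻¹) := by
  refine ⟨(Units.mk0 x hx)⁻¹, ?_⟩
  apply ext4 <;> simp only [mul00, mul01, mul10, mul11, tx00, tx01, tx10, tx11, ux00, ux01,
      ux10, ux11, wx00, wx01, wx10, wx11, inv00, inv01, inv10, inv11, inv_inv, Units.val_mk0,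
      Units.val_inv_eq_inv_val]
  · field_simp
    ring
  · field_simp
    ring
  · ring
  · field_simp
    ring

/-- `SL_2(F)` is generated by the upper unipotent elements and `w`; more precisely the normal
closure of the upper unipotent elements is everything -/
theorem normalClosure_ux :
    Subgroup.normalClosure (Set.range (ux : F → SpecialLinearGroup (Fin 2) F)) = ⊤ := by
  set N := Subgroup.normalClosure (Set.range (ux : F → SpecialLinearGroup (Fin 2) F)) with hN
  have hu : ∀ x : F, ux x ∈ N := fun x => Subgroup.subset_normalClosure ⟨x, rfl⟩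
  have hl : ∀ x : F, wx F * ux x * (wx F)⁻¹ ∈ N := fun x =>
    Subgroup.normalClosure_normal.conj_mem _ (hu x) _
  have htw : ∀ a : Fˣ, tx a * wx F ∈ N := by
    intro a
    have h : tx a * wx F = ux (a : F) * (wx F * ux ((a⁻¹ : Fˣ) : F) * (wx F)⁻¹) * ux (a : F) := by
      have ha : (a : F) * ((a⁻¹ : Fˣ) : F) = 1 := Units.mul_inv a
      apply ext4 <;> simp only [mul00, mul01, mul10, mul11, tx00, tx01, tx10, tx11, ux00, ux01,
        ux10, ux11, wx00, wx01, wx10, wx11, inv00, inv01, inv10, inv11]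
      · linear_combination ha
      · linear_combination (a : F) * ha
      · ring
      · linear_combination ha
    rw [h]
    exact N.mul_mem (N.mul_mem (hu _) (hl _)) (hu _)
  have hw : wx F ∈ N := by
    have h := htw 1
    have h1 : tx (1 : Fˣ) = 1 := by
      apply ext4 <;> simp only [tx00, tx01, tx10, tx11, one00, one01, one10, one11] <;> simp
    rwa [h1, one_mul] at h
  have ht : ∀ a : Fˣ, tx a ∈ N := fun a => by
    have := N.mul_mem (htw a) (N.inv_mem hw)
    rwa [mul_assoc, mul_inv_cancel, mul_one] at this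
  rw [eq_top_iff]
  intro g _
  rcases bruhat g with ⟨x, a, rfl⟩ | ⟨x, a, y, rfl⟩
  · exact N.mul_mem (hu _) (ht _)
  · exact N.mul_mem (N.mul_mem (N.mul_mem (hu _) (ht _)) hw) (hu _)

/-- a homomorphism to a commutative group which is trivial on `ux` is trivial on the torus -/
theorem hom_trivial {A : Type*} [CommGroup A] (f : SpecialLinearGroup (Fin 2) F →* A)
    (h : ∀ x, f (ux x) = 1) (g : SpecialLinearGroup (Fin 2) F) : f g = 1 := by
  have h1 : Subgroup.normalClosure (Set.range (ux : F → SpecialLinearGroup (Fin 2) F)) ≤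
      f.ker := by
    apply Subgroup.normalClosure_le_normal
    rintro _ ⟨x, rfl⟩
    exact h x
  rw [normalClosure_ux] at h1
  exact h1 (Subgroup.mem_top g)

/-- the Borel subgroup: lower left entry zero -/
def bor (F : Type) [Field F] : Subgroup (SpecialLinearGroup (Fin 2) F) where
  carrier := {g | g.1 1 0 = 0}
  mul_mem' := by
    intro g h hg hh
    change (g * h).1 1 0 = 0
    have hg' : g.1 1 0 = 0 := hg
    have hh' : h.1 1 0 = 0 := hh
    rw [mul10, hg', hh', zero_mul, mul_zero, add_zero]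
  one_mem' := by
    exact one10
  inv_mem' := by
    intro g hg
    change (g⁻¹).1 1 0 = 0
    have hg' : g.1 1 0 = 0 := hg
    rw [inv10, hg', neg_zero]

theorem mem_bor {g : SpecialLinearGroup (Fin 2) F} :
    g ∈ bor F ↔ ∃ x a, g = ux x * tx a := by
  constructor
  · intro hg
    rcases bruhat g with h | ⟨x, a, y, h⟩
    · exact h
    · exfalso
      have h10 : g.1 1 0 = 0 := hg
      rw [h] at h10
      simp only [mul10, mul11, tx00, tx01, tx10, tx11, ux00,
        ux10, ux11, wx00, wx01, wx10, wx11] at h10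
      have ha : ((a⁻¹ : Fˣ) : F) = 0 := by linear_combination -h10
      exact Units.ne_zero _ ha
  · rintro ⟨x, a, rfl⟩
    change (ux x * tx a).1 1 0 = 0
    simp only [mul10, ux10, ux11, tx00, tx10]
    ring

theorem bor_solvable : Group.IsSolvable (bor F) := by
  -- the character `g ↦ g 1 1`
  have hu : ∀ g : bor F, g.1.1 0 0 * g.1.1 1 1 = 1 := by
    intro g
    have hd := det' g.1
    have hg : g.1.1 1 0 = 0 := g.2
    rw [hg, mul_zero, sub_zero] at hd
    exact hd
  let f : bor F →* Fˣ :=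
    { toFun := fun g => ⟨g.1.1 0 0, g.1.1 1 1, hu g, by rw [mul_comm]; exact hu g⟩
      map_one' := by
        apply Units.ext
        exact one00
      map_mul' := by
        intro g h
        apply Units.ext
        change (g.1 * h.1).1 0 0 = g.1.1 0 0 * h.1.1 0 0
        have hh : h.1.1 1 0 = 0 := h.2
        rw [mul00, hh, mul_zero, add_zero] }
  let k : Multiplicative F →* bor F :=
    { toFun := fun x => ⟨ux (Multiplicative.toAdd x), by
        change (ux _).1 1 0 = 0
        exact ux10 _⟩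
      map_one' := by
        apply Subtype.ext
        exact ux_zero
      map_mul' := by
        intro x y
        apply Subtype.ext
        exact ux_add _ _ }
  refine Group.isSolvable_of_ker_le_range k f ?_
  intro g hg
  have hf : f g = 1 := hg
  have h00 : g.1.1 0 0 = 1 := congrArg Units.val hf
  have h11 : g.1.1 1 1 = 1 := by
    have := hu g
    rwa [h00, one_mul] at this
  have h10 : g.1.1 1 0 = 0 := g.2
  refine ⟨Multiplicative.ofAdd (g.1.1 0 1), ?_⟩
  apply Subtype.ext
  change ux (g.1.1 0 1) = g.1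
  apply ext4
  · rw [ux00, h00]
  · rw [ux01]
  · rw [ux10, h10]
  · rw [ux11, h11]

theorem bor_ne_top : bor F ≠ ⊤ := by
  intro h
  have hw : wx F ∈ bor F := by
    rw [h]
    exact Subgroup.mem_top _
  have h1 : (wx F).1 1 0 = 0 := hw
  rw [wx10] at h1
  exact one_ne_zero (neg_eq_zero.mp h1)

namespace P35_aux

theorem rel_iff (g h : SpecialLinearGroup (Fin 2) F) :
    g⁻¹ * h ∈ bor F ↔ g.1 0 0 * h.1 1 0 = g.1 1 0 * h.1 0 0 := by
  change (g⁻¹ * h).1 1 0 = 0 ↔ _
  rw [mul10, inv10, inv11]
  constructor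
  · intro h'
    linear_combination h'
  · intro h'
    linear_combination h'

/-- the point of the projective line -/
def pt (g : SpecialLinearGroup (Fin 2) F) : Option F :=
  open Classical in if g.1 1 0 = 0 then none else some (g.1 0 0 / g.1 1 0)

theorem pt_eq_iff (g h : SpecialLinearGroup (Fin 2) F) :
    pt g = pt h ↔ g⁻¹ * h ∈ bor F := by
  rw [rel_iff]
  have hg := det' g
  have hh := det' h
  unfold pt
  by_cases h1 : g.1 1 0 = 0
  · rw [if_pos h1, h1, zero_mul]
    rw [h1, mul_zero, sub_zero] at hg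
    have hp : g.1 0 0 ≠ 0 := left_ne_zero_of_mul_eq_one hg
    by_cases h2 : h.1 1 0 = 0
    · rw [if_pos h2, h2, mul_zero]
      simp
    · rw [if_neg h2]
      constructor
      · intro h3
        exact absurd h3 (by simp)
      · intro h3
        exact absurd h3 (mul_ne_zero hp h2)
  · rw [if_neg h1]
    by_cases h2 : h.1 1 0 = 0
    · rw [if_pos h2, h2, mul_zero]
      rw [h2, mul_zero, sub_zero] at hh
      have hp : h.1 0 0 ≠ 0 := left_ne_zero_of_mul_eq_one hh
      constructor
      · intro h3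
        exact absurd h3 (by simp)
      · intro h3
        exact absurd h3.symm (mul_ne_zero h1 hp)
    · rw [if_neg h2, Option.some_inj, div_eq_div_iff h1 h2, mul_comm (h.1 0 0)]

theorem pt_surj : Function.Surjective (pt : SpecialLinearGroup (Fin 2) F → Option F) := by
  intro o
  cases o with
  | none =>
    refine ⟨1, ?_⟩
    unfold pt
    rw [if_pos one10]
  | some x =>
    refine ⟨ux x * wx F, ?_⟩
    unfold pt
    have h10 : (ux x * wx F).1 1 0 = -1 := by
      simp only [mul10, ux10, ux11, wx00, wx10]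
      ring
    have h00 : (ux x * wx F).1 0 0 = -x := by
      simp only [mul00, ux00, ux01, wx00, wx10]
      ring
    have hne : (ux x * wx F).1 1 0 ≠ 0 := by
      rw [h10]
      exact neg_ne_zero.mpr one_ne_zero
    rw [if_neg hne, h10, h00, neg_div_neg_eq, div_one]

end P35_aux

variable [Fintype F]

/-- the coset space of the Borel subgroup is the projective line; two-transitive -/
theorem card_quot_bor : Nat.card (SpecialLinearGroup (Fin 2) F ⧸ bor F) = Fintype.card F + 1 := by
  let f : SpecialLinearGroup (Fin 2) F ⧸ bor F → Option F :=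
    Quotient.lift pt (by
      intro g h hgh
      rw [pt_eq_iff]
      exact QuotientGroup.leftRel_apply.mp hgh)
  have hf : Function.Bijective f := by
    constructor
    · intro x y
      induction x using QuotientGroup.induction_on with
      | H g =>
        induction y using QuotientGroup.induction_on with
        | H h =>
          intro hgh
          have : pt g = pt h := hgh
          rw [pt_eq_iff] at this
          exact QuotientGroup.eq.mpr this
    · intro o
      obtain ⟨g, hg⟩ := pt_surj o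
      exact ⟨(g : SpecialLinearGroup (Fin 2) F ⧸ bor F), hg⟩
  rw [Nat.card_congr (Equiv.ofBijective f hf), Nat.card_eq_fintype_card, Fintype.card_option]

theorem bor_two_trans : ∀ x y x' y' : SpecialLinearGroup (Fin 2) F ⧸ bor F,
    x ≠ y → x' ≠ y' → ∃ g : SpecialLinearGroup (Fin 2) F, g • x = x' ∧ g • y = y' := by
  have key : ∀ x y : SpecialLinearGroup (Fin 2) F ⧸ bor F, x ≠ y →
      ∃ g : SpecialLinearGroup (Fin 2) F,
        g • ((1 : SpecialLinearGroup (Fin 2) F) : SpecialLinearGroup (Fin 2) F ⧸ bor F) = x ∧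
        g • ((wx F : SpecialLinearGroup (Fin 2) F) : SpecialLinearGroup (Fin 2) F ⧸ bor F) = y := by
    intro x y
    induction x using QuotientGroup.induction_on with
    | H g =>
      induction y using QuotientGroup.induction_on with
      | H h =>
        intro hgh
        have hn : g⁻¹ * h ∉ bor F := fun hm => hgh (QuotientGroup.eq.mpr hm)
        rcases bruhat (g⁻¹ * h) with hb | ⟨a, t, b, hb⟩
        · exact absurd (mem_bor.mpr hb) hn
        · refine ⟨g * (ux a * tx t), ?_, ?_⟩
          · change ((g * (ux a * tx t) * 1 : SpecialLinearGroup (Fin 2) F) :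
              SpecialLinearGroup (Fin 2) F ⧸ bor F) = _
            apply QuotientGroup.eq.mpr
            have : (g * (ux a * tx t) * 1)⁻¹ * g = (ux a * tx t)⁻¹ := by group
            rw [this]
            exact (bor F).inv_mem (mem_bor.mpr ⟨a, t, rfl⟩)
          · change ((g * (ux a * tx t) * wx F : SpecialLinearGroup (Fin 2) F) :
              SpecialLinearGroup (Fin 2) F ⧸ bor F) = _
            apply QuotientGroup.eq.mpr
            have : (g * (ux a * tx t) * wx F)⁻¹ * h = ux b := by
              have h1 : h = g * (ux a * tx t * wx F * ux b) := by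
                rw [← hb]; group
              rw [h1]; group
            rw [this]
            exact ux10 b
  intro x y x' y' h h'
  obtain ⟨g, hg1, hg2⟩ := key x y h
  obtain ⟨g', hg1', hg2'⟩ := key x' y' h'
  refine ⟨g' * g⁻¹, ?_, ?_⟩
  · rw [← hg1, ← hg1', mul_smul, inv_smul_smul]
  · rw [← hg2, ← hg2', mul_smul, inv_smul_smul]

end

end Parker
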