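import Pool.Agent.Parker.Defs
import Pool.Agent.Parker.P01
import Pool.Agent.Parker.P08
import Pool.Agent.Parker.P31
import Pool.Agent.Parker.P32
import Pool.Agent.Parker.P35

/-!
# MP_6c3636_al, module P36: (7.2), facts (F1)-(F4) on representations of `SL_2(q)` (helper7)
-/

namespace Parker

open Matrix

universe u v w

noncomputable section

variable {F : Type} [Field F] [Fintype F] {Ω : Type} [Field Ω] [IsAlgClosed Ω] [CharZero Ω]
  {V : Type v} [AddCommGroup V] [Module Ω V] [FiniteDimensional Ω V]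
  {ρ : Representation Ω (SpecialLinearGroup (Fin 2) F) V}

/-- the average over `U` -/
def eU (ρ : Representation Ω (SpecialLinearGroup (Fin 2) F) V) : Module.End Ω V :=
  (Fintype.card F : Ω)⁻¹ • ∑ x : F, ρ (ux x)

/-- `v` is an eigenvector of the Borel subgroup, trivial for `U` -/
structure BVec (ρ : Representation Ω (SpecialLinearGroup (Fin 2) F) V) (lam : Fˣ →* Ωˣ) (v : V) :
    Prop where
  ne : v ≠ 0
  u : ∀ x : F, ρ (ux x) v = v
  t : ∀ a : Fˣ, ρ (tx a) v = (lam a : Ω) • v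

namespace P36_aux

theorem mul_ap (g h : SpecialLinearGroup (Fin 2) F) (v : V) : ρ (g * h) v = ρ g (ρ h v) := by
  rw [map_mul]; rfl

theorem card_ne : (Fintype.card F : Ω) ≠ 0 := by
  have : Fintype.card F ≠ 0 := Fintype.card_ne_zero
  exact_mod_cast this

theorem eU_apply (v : V) : eU ρ v = (Fintype.card F : Ω)⁻¹ • ∑ x : F, ρ (ux x) v := by
  unfold eU
  rw [LinearMap.smul_apply, LinearMap.sum_apply]

theorem eU_ux (x : F) (v : V) : eU ρ (ρ (ux x) v) = eU ρ v := by
  rw [eU_apply, eU_apply]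
  congr 1
  refine Fintype.sum_equiv (Equiv.addRight x) _ _ fun y => ?_
  rw [← mul_ap, ← ux_add]
  rfl

/-- `T` commutes with `e_U` -/
theorem eU_tx (a : Fˣ) (v : V) : ρ (tx a) (eU ρ v) = eU ρ (ρ (tx a) v) := by
  rw [eU_apply, eU_apply, map_smul, map_sum]
  congr 1
  have ha : (a : F) ^ 2 ≠ 0 := pow_ne_zero 2 a.ne_zero
  refine Fintype.sum_equiv (Equiv.mulLeft₀ ((a : F) ^ 2) ha) _ _ fun y => ?_
  rw [← mul_ap, ← mul_ap]
  have h1 := tx_conj a y
  have h2 : tx a * ux y = ux ((a : F) ^ 2 * y) * tx a := by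
    rw [← h1, inv_mul_cancel_right]
  rw [h2]
  rfl

theorem tx_wx (a : Fˣ) : tx a * wx F = wx F * tx a⁻¹ := by
  have h := wx_conj a⁻¹
  rw [inv_inv] at h
  rw [← h, inv_mul_cancel_right]

end P36_aux

open P36_aux

theorem eU_mem {v : V} (x : F) : ρ (ux x) (eU ρ v) = eU ρ v := by
  rw [eU_apply, map_smul, map_sum]
  congr 1
  refine Fintype.sum_equiv (Equiv.addLeft x) _ _ fun y => ?_
  rw [← mul_ap, ← ux_add]
  rfl

theorem eU_fix {v : V} (h : ∀ x : F, ρ (ux x) v = v) : eU ρ v = v := by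
  rw [eU_apply, Finset.sum_congr rfl fun x _ => h x, Finset.sum_const, Finset.card_univ,
    ← Nat.cast_smul_eq_nsmul Ω, smul_smul, inv_mul_cancel₀ card_ne, one_smul]

namespace P36_aux

/-- the fixed space of `U` -/
def VU (ρ : Representation Ω (SpecialLinearGroup (Fin 2) F) V) : Submodule Ω V where
  carrier := {v | ∀ x : F, ρ (ux x) v = v}
  add_mem' := fun {a b} ha hb x => by rw [map_add, ha x, hb x]
  zero_mem' := fun x => map_zero _
  smul_mem' := fun c a ha x => by rw [map_smul, ha x]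

theorem mem_VU {v : V} : v ∈ VU ρ ↔ ∀ x : F, ρ (ux x) v = v := Iff.rfl

theorem tx_mem {v : V} (hv : v ∈ VU ρ) (a : Fˣ) : ρ (tx a) v ∈ VU ρ := by
  have h1 : ρ (tx a) (eU ρ v) = ρ (tx a) v := by rw [eU_fix hv]
  rw [← h1, eU_tx]
  exact fun x => eU_mem x

/-- an eigenvector in an invariant subspace -/
theorem exists_eig {E : Submodule Ω V} (f : Module.End Ω V) (hf : ∀ x ∈ E, f x ∈ E)
    (hE : E ≠ ⊥) : ∃ v ∈ E, v ≠ 0 ∧ ∃ μ : Ω, f v = μ • v := by
  have hn : Nontrivial E := (Submodule.nontrivial_iff_ne_bot).2 hE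
  obtain ⟨μ, hμ⟩ := Module.End.exists_eigenvalue (f.restrict hf)
  obtain ⟨v, hv⟩ := hμ.exists_hasEigenvector
  refine ⟨v, v.2, fun h => hv.2 (Subtype.ext h), μ, ?_⟩
  have h1 := hv.apply_eq_smul
  have h2 := congrArg (fun z : E => (z : V)) h1
  simpa using h2

end P36_aux

/-- if `V^U ≠ 0` there is a Borel eigenvector in it -/
theorem exists_bvec {v : V} (hv : v ≠ 0) (h : ∀ x : F, ρ (ux x) v = v) :
    ∃ (lam : Fˣ →* Ωˣ) (v' : V), BVec ρ lam v' := by
  classical
  obtain ⟨g, hg⟩ := IsCyclic.exists_generator (α := Fˣ)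
  have hE : VU ρ ≠ ⊥ := fun hb => hv (by
    have : v ∈ VU ρ := h
    rwa [hb, Submodule.mem_bot] at this)
  obtain ⟨v', hv'E, hv', μ, hμ⟩ := exists_eig (ρ (tx g)) (fun x hx => tx_mem hx g) hE
  have hμ0 : μ ≠ 0 := by
    rintro rfl
    rw [zero_smul] at hμ
    apply hv'
    have h1 : ρ ((tx g)⁻¹) (ρ (tx g) v') = v' := by
      rw [← mul_ap, inv_mul_cancel, map_one]; rfl
    rw [← h1, hμ, map_zero]
  -- all torus elements act by scalars
  have hs : ∀ a : Fˣ, ∃ c : Ωˣ, ρ (tx a) v' = (c : Ω) • v' := by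
    have hone : ρ (tx (1 : Fˣ)) v' = v' := by
      have h1 : (tx (1 : Fˣ) : SpecialLinearGroup (Fin 2) F) = 1 := by
        have := tx_mul (1 : Fˣ) 1
        rw [mul_one] at this
        exact (mul_eq_left.1 this.symm)
      rw [h1, map_one]; rfl
    have hpow : ∀ k : ℕ, ρ (tx (g ^ k)) v' = μ ^ k • v' := by
      intro k
      induction k with
      | zero => rw [pow_zero, pow_zero, one_smul, hone]
      | succ k ih =>
        rw [pow_succ, tx_mul, mul_ap, hμ, map_smul, ih, smul_smul, pow_succ, mul_comm]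
    intro a
    obtain ⟨k, hk⟩ := (mem_powers_iff_mem_zpowers.2 (hg a) : a ∈ Submonoid.powers g)
    refine ⟨(Units.mk0 μ hμ0) ^ k, ?_⟩
    rw [← hk, hpow k]
    simp
  choose c hc using hs
  have hinj : ∀ s t : Ω, s • v' = t • v' → s = t := fun s t hst => by
    by_contra hne
    apply hv'
    have h1 : (s - t) • v' = 0 := by rw [sub_smul, hst, sub_self]
    exact (smul_eq_zero.1 h1).resolve_left (sub_ne_zero.2 hne)
  refine ⟨MonoidHom.mk' c fun a b => ?_, v', ⟨hv', hv'E, fun a => hc a⟩⟩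
  apply Units.ext
  apply hinj
  rw [← hc, tx_mul, mul_ap, hc b, map_smul, hc a, smul_smul, Units.val_mul, mul_comm]

/-- (F1') `V` is spanned by `v` and the `u w v` -/
theorem F1' (hρ : ρ.IsIrreducible) {lam : Fˣ →* Ωˣ} {v : V} (h : BVec ρ lam v) (y : V) :
    ∃ (a : Ω) (b : F → Ω), y = a • v + ∑ x, b x • ρ (ux x * wx F) v := by
  classical
  have key : ∀ g, ∃ (a : Ω) (b : F → Ω), ρ g v = a • v + ∑ x, b x • ρ (ux x * wx F) v := by
    intro g
    rcases bruhat g with ⟨x, a, rfl⟩ | ⟨x, a, y, rfl⟩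
    · refine ⟨(lam a : Ω), 0, ?_⟩
      rw [mul_ap, h.t a, map_smul, h.u x]
      simp
    · refine ⟨0, Pi.single x ((lam a⁻¹ : Ωˣ) : Ω), ?_⟩
      rw [mul_ap, h.u y, mul_assoc, tx_wx, ← mul_assoc, mul_ap, h.t a⁻¹, map_smul, zero_smul,
        zero_add, Finset.sum_eq_single x]
      · rw [Pi.single_eq_same]
      · intro z _ hz
        rw [Pi.single_eq_of_ne hz, zero_smul]
      · intro hx
        exact absurd (Finset.mem_univ x) hx
  have hspan : Submodule.span Ω (Set.range fun g => ρ g v) = ⊤ := by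
    refine (irr_sub hρ fun g x hx => ?_).resolve_left fun hb => h.ne ?_
    · refine Submodule.span_induction (p := fun x _ => ρ g x ∈
        Submodule.span Ω (Set.range fun g => ρ g v)) ?_ ?_ ?_ ?_ hx
      · rintro _ ⟨g', rfl⟩
        exact Submodule.subset_span ⟨g * g', mul_ap g g' v⟩
      · rw [map_zero]; exact Submodule.zero_mem _
      · intro x y _ _ hx hy
        rw [map_add]; exact Submodule.add_mem _ hx hy
      · intro c x _ hx
        rw [map_smul]; exact Submodule.smul_mem _ c hx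
    · have h1 : v ∈ Submodule.span Ω (Set.range fun g => ρ g v) :=
        Submodule.subset_span ⟨1, by show ρ 1 v = v; rw [map_one]; rfl⟩
      rwa [hb, Submodule.mem_bot] at h1
  have hy : y ∈ Submodule.span Ω (Set.range fun g => ρ g v) := by
    rw [hspan]; exact Submodule.mem_top
  refine Submodule.span_induction (p := fun y _ => ∃ (a : Ω) (b : F → Ω),
    y = a • v + ∑ x, b x • ρ (ux x * wx F) v) ?_ ?_ ?_ ?_ hy
  · rintro _ ⟨g, rfl⟩
    exact key g
  · exact ⟨0, 0, by simp⟩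
  · rintro x y _ _ ⟨a, b, h1⟩ ⟨a', b', h2⟩
    refine ⟨a + a', b + b', ?_⟩
    rw [h1, h2, add_smul]
    simp only [Pi.add_apply, add_smul, Finset.sum_add_distrib]
    abel
  · rintro c x _ ⟨a, b, h1⟩
    refine ⟨c * a, fun x => c * b x, ?_⟩
    rw [h1, smul_add, smul_smul, Finset.smul_sum]
    simp only [smul_smul]

/-- (F1) `V^U` is spanned by `v` and `e_U w v` -/
theorem F1 (hρ : ρ.IsIrreducible) {lam : Fˣ →* Ωˣ} {v : V} (h : BVec ρ lam v) {y : V}
    (hy : ∀ x : F, ρ (ux x) y = y) : ∃ a b : Ω, y = a • v + b • eU ρ (ρ (wx F) v) := by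
  obtain ⟨a, b, hab⟩ := F1' hρ h y
  refine ⟨a, ∑ x, b x, ?_⟩
  have h1 : y = eU ρ y := (eU_fix hy).symm
  rw [h1]
  conv_lhs => rw [hab]
  rw [map_add, map_smul, eU_fix h.u, map_sum, Finset.sum_smul]
  congr 1
  refine Finset.sum_congr rfl fun x _ => ?_
  rw [map_smul, mul_ap, eU_ux]

/-- (F2) `e_U w v ≠ 0` (`ρ(-1) = 1`): by `w_u_w`, if `e_U w v = 0` then `v` is a combination of
the `u(y) w v`, `y ≠ 0`, and `e_U v = 0`. -/
theorem F2 (hneg : ρ (-1) = 1) {lam : Fˣ →* Ωˣ} {v : V} (h : BVec ρ lam v) :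
    eU ρ (ρ (wx F) v) ≠ 0 := by
  classical
  intro h0
  apply h.ne
  have h1 : ∑ y : F, ρ (ux y) (ρ (wx F) v) = 0 := by
    rw [eU_apply] at h0
    exact (smul_eq_zero.1 h0).resolve_left (inv_ne_zero card_ne)
  -- apply `w`
  have h2 : ∑ y : F, ρ (wx F * ux y * wx F) v = 0 := by
    have h3 := congrArg (ρ (wx F)) h1
    rw [map_zero, map_sum] at h3
    rw [← h3]
    refine Finset.sum_congr rfl fun y _ => ?_
    rw [mul_ap, mul_ap]
  have hw2 : ρ (wx F * wx F) v = v := by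
    rw [wx_sq, hneg]; rfl
  have h4 : ∀ y : F, y ≠ 0 → ∃ c : Ω, eU ρ (ρ (wx F * ux y * wx F) v) =
      c • eU ρ (ρ (wx F) v) := by
    intro y hy
    obtain ⟨a, ha⟩ := w_u_w y hy
    refine ⟨((lam a⁻¹ : Ωˣ) : Ω), ?_⟩
    have h5 : wx F * ux y * wx F = ux (-y⁻¹) * (tx a * wx F) * ux (-y⁻¹) * (wx F * wx F) := by
      have h6 : wx F * ux y = ux (-y⁻¹) * tx a * wx F * ux (-y⁻¹) * wx F := by
        rw [← ha, inv_mul_cancel_right]
      rw [h6]
      simp only [mul_assoc]
    rw [h5, mul_ap, hw2, mul_ap, h.u, mul_ap, eU_ux, tx_wx, mul_ap, h.t, map_smul, map_smul]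
  have h7 : eU ρ (∑ y : F, ρ (wx F * ux y * wx F) v) = 0 := by rw [h2, map_zero]
  rw [map_sum, Fintype.sum_eq_add_sum_subtype_ne _ (0 : F)] at h7
  rw [ux_zero, mul_one, hw2, eU_fix h.u] at h7
  have h8 : ∑ y : {y : F // y ≠ 0}, eU ρ (ρ (wx F * ux (y : F) * wx F) v) = 0 := by
    refine Finset.sum_eq_zero fun y _ => ?_
    obtain ⟨c, hc⟩ := h4 y y.2
    rw [hc, h0, smul_zero]
  rw [h8, add_zero] at h7
  exact h7

theorem F2t (hneg : ρ (-1) = 1) {lam : Fˣ →* Ωˣ} {v : V} (h : BVec ρ lam v) (a : Fˣ) :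
    ρ (tx a) (eU ρ (ρ (wx F) v)) = ((lam a)⁻¹ : Ωˣ) • eU ρ (ρ (wx F) v) := by
  rw [eU_tx, ← mul_ap, tx_wx, mul_ap, h.t, map_smul, map_smul, map_inv]
  rfl

/-- (F3) if `lam² = 1` then `V^U` is one dimensional -/
theorem F3 (hρ : ρ.IsIrreducible) (hneg : ρ (-1) = 1) {lam : Fˣ →* Ωˣ} (hl : ∀ a, lam a ^ 2 = 1)
    {v : V} (h : BVec ρ lam v) {y : V} (hy : ∀ x : F, ρ (ux x) y = y) : ∃ a : Ω, y = a • v := by
  have hinv : ∀ a, (lam a)⁻¹ = lam a := fun a => by
    have h1 := hl a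
    rw [pow_two] at h1
    exact inv_eq_of_mul_eq_one_left h1
  -- all elements of `V^U` are eigenvectors for `lam`
  have hall : ∀ z ∈ VU ρ, ∀ a : Fˣ, ρ (tx a) z = (lam a : Ω) • z := by
    intro z hz a
    obtain ⟨c, d, hcd⟩ := F1 hρ h hz
    rw [hcd, map_add, map_smul, map_smul, h.t, F2t hneg h, hinv, smul_add, smul_smul, smul_smul,
      mul_comm c, Units.smul_def, smul_smul, mul_comm d, smul_smul]
  have hv : v ∈ VU ρ := h.u
  have hE : VU ρ ≠ ⊥ := fun hb => h.ne (by rwa [hb, Submodule.mem_bot] at hv)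
  obtain ⟨v', hv'E, hv', μ, hμ⟩ := exists_eig (E := VU ρ) (eU ρ * ρ (wx F))
    (fun x _ y => eU_mem y) hE
  have hμ' : eU ρ (ρ (wx F) v') = μ • v' := hμ
  have hB : BVec ρ lam v' := ⟨hv', hv'E, hall v' hv'E⟩
  have hone : ∀ z ∈ VU ρ, ∃ a : Ω, z = a • v' := by
    intro z hz
    obtain ⟨a, b, hab⟩ := F1 hρ hB hz
    exact ⟨a + b * μ, by rw [hab, hμ', smul_smul, add_smul]⟩
  obtain ⟨a, ha⟩ := hone v hv
  obtain ⟨b, hb⟩ := hone y hy
  have ha0 : a ≠ 0 := by
    rintro rfl
    rw [zero_smul] at ha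
    exact h.ne ha
  refine ⟨b * a⁻¹, ?_⟩
  rw [hb, ha, smul_smul, mul_assoc, inv_mul_cancel₀ ha0, mul_one]

/-- (F4) if `lam = 1` the character is `1` or `(fixed points on the projective line) - 1`;
in both cases it is rational and the degree is `1` or `q` -/
theorem F4 (hρ : ρ.IsIrreducible) {v : V} (h : BVec ρ 1 v) :
    (∀ g, ∃ k : ℤ, ρ.character g = (k : Ω)) ∧
      (Module.finrank Ω V = 1 ∨ Module.finrank Ω V = Fintype.card F) := by
  classical
  have hfix : ∀ g : SpecialLinearGroup (Fin 2) F,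
      g • ((1 : SpecialLinearGroup (Fin 2) F) : SpecialLinearGroup (Fin 2) F ⧸ bor F) =
        ((1 : SpecialLinearGroup (Fin 2) F) : SpecialLinearGroup (Fin 2) F ⧸ bor F) →
      ρ g v = v := by
    intro g hg
    have h1 : g ∈ bor F := by
      have h2 : ((g * 1 : SpecialLinearGroup (Fin 2) F) :
          SpecialLinearGroup (Fin 2) F ⧸ bor F) = ((1 : SpecialLinearGroup (Fin 2) F)) := hg
      rw [mul_one] at h2
      have h3 := (QuotientGroup.eq).1 h2.symm
      rwa [inv_one, one_mul] at h3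
    obtain ⟨x, a, rfl⟩ := mem_bor.1 h1
    rw [mul_ap, h.t, MonoidHom.one_apply, Units.val_one, one_smul, h.u]
  have hcard := card_quot_bor (F := F)
  have h2 : 2 ≤ Nat.card (SpecialLinearGroup (Fin 2) F ⧸ bor F) := by
    rw [hcard]
    have : 1 ≤ Fintype.card F := Fintype.card_pos
    omega
  rcases char_two_trans (SpecialLinearGroup (Fin 2) F ⧸ bor F) bor_two_trans h2 hρ h.ne hfix
    with h3 | h3
  · refine ⟨fun g => ⟨1, by rw [h3 g, Int.cast_one]⟩, Or.inl ?_⟩
    have h4 := ρ.char_one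
    rw [h3 1] at h4
    exact_mod_cast h4.symm
  · refine ⟨fun g => ⟨(fixp (SpecialLinearGroup (Fin 2) F ⧸ bor F) g : ℤ) - 1, ?_⟩, Or.inr ?_⟩
    · rw [h3 g]
      push_cast
      rfl
    · have h4 := ρ.char_one
      rw [h3 1] at h4
      have h5 : fixp (SpecialLinearGroup (Fin 2) F ⧸ bor F) (1 : SpecialLinearGroup (Fin 2) F) =
          Fintype.card F + 1 := by
        unfold fixp
        rw [← hcard]
        exact Nat.card_congr (Equiv.subtypeUnivEquiv fun x => one_smul _ x)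
      rw [h5] at h4
      push_cast at h4
      rw [add_sub_cancel_right] at h4
      exact_mod_cast h4.symm

namespace P36_aux

theorem eU_idem : eU ρ * eU ρ = eU ρ := by
  ext v
  exact eU_fix fun x => eU_mem x

theorem trace_idem {T : Module.End Ω V} (hT : T * T = T) :
    LinearMap.trace Ω V T = (Module.finrank Ω (LinearMap.range T) : Ω) := by
  have h1 : IsIdempotentElem T := hT
  exact (LinearMap.IsIdempotentElem.isProj_range T h1).trace

end P36_aux

/-- parity: if `-1` is a square in `F` (odd characteristic), `dim V ≡ dim V^U` mod `2`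
(`t₀ = diag(i, -i)`, `t₀² = -1` acts trivially, all `u t₀` are conjugate to `t₀`, so `t₀` has trace
zero on `(1 - e_U) V`). -/
theorem parity_square (h2 : (2 : F) ≠ 0) (hneg : ρ (-1) = 1) {i : F} (hi : i ^ 2 = -1) :
    (Odd (Module.finrank Ω V) ↔ Odd (Module.finrank Ω (LinearMap.range (eU ρ)))) := by
  classical
  have hi0 : i ≠ 0 := by
    rintro rfl
    rw [zero_pow two_ne_zero] at hi
    exact one_ne_zero (neg_eq_zero.1 hi.symm)
  set a : Fˣ := Units.mk0 i hi0 with ha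
  have ha2 : a * a = -1 := by
    apply Units.ext
    rw [Units.val_mul, ha, Units.val_mk0, Units.val_neg, Units.val_one, ← hi, pow_two]
  set τ : Module.End Ω V := ρ (tx a) with hτ
  have hττ : τ * τ = 1 := by
    rw [hτ, ← map_mul, ← tx_mul, ha2, tx_neg_one, hneg]
  have hcomm : τ * eU ρ = eU ρ * τ := by
    ext v
    exact eU_tx a v
  -- all traces are equal
  have htr : ∀ x : F, LinearMap.trace Ω V (ρ (ux x) * τ) = LinearMap.trace Ω V τ := by
    intro x
    have h3 : ux x * tx a = ux (x / 2) * tx a * (ux (x / 2))⁻¹ := by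
      have h4 := tx_conj a (x / 2)
      have h5 : ((a : F) ^ 2) * (x / 2) = -(x / 2) := by
        rw [ha, Units.val_mk0, hi, neg_one_mul]
      rw [h5] at h4
      have h7 : (tx a) * ux (x / 2) = (ux (x / 2))⁻¹ * tx a := by
        rw [← ux_neg, ← h4, inv_mul_cancel_right]
      have h6 : tx a * (ux (x / 2))⁻¹ = ux (x / 2) * tx a := by
        calc tx a * (ux (x / 2))⁻¹ = ux (x / 2) * ((ux (x / 2))⁻¹ * tx a) * (ux (x / 2))⁻¹ := by
              rw [mul_inv_cancel_left]
          _ = ux (x / 2) * (tx a * ux (x / 2)) * (ux (x / 2))⁻¹ := by rw [h7]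
          _ = ux (x / 2) * tx a := by rw [← mul_assoc, mul_inv_cancel_right]
      have : NeZero (2 : F) := ⟨h2⟩
      rw [mul_assoc, h6, ← mul_assoc, ← ux_add, add_halves]
    have h8 : ρ (ux x) * τ = (ρ (ux (x / 2)) * ρ (tx a)) * ρ (ux (x / 2))⁻¹ := by
      rw [hτ, ← map_mul ρ, h3, map_mul ρ, map_mul ρ]
    rw [h8, LinearMap.trace_mul_comm, ← mul_assoc, ← map_mul ρ, inv_mul_cancel, map_one ρ,
      one_mul, hτ]
  have htrE : LinearMap.trace Ω V (eU ρ * τ) = LinearMap.trace Ω V τ := by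
    unfold eU
    rw [smul_mul_assoc, map_smul, Finset.sum_mul, map_sum, Finset.sum_congr rfl fun x _ => htr x,
      Finset.sum_const, Finset.card_univ, ← Nat.cast_smul_eq_nsmul Ω, smul_smul,
      inv_mul_cancel₀ card_ne, one_smul]
  -- the idempotent
  set P : Module.End Ω V := (2 : Ω)⁻¹ • ((1 + τ) * (1 - eU ρ)) with hP
  have h20 : (2 : Ω) ≠ 0 := two_ne_zero
  have hE1 : (1 - eU ρ) * (1 - eU ρ) = 1 - eU ρ := by
    rw [mul_sub, mul_one, sub_mul, one_mul, eU_idem, sub_self, sub_zero]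
  have hcomm' : (1 - eU ρ) * (1 + τ) = (1 + τ) * (1 - eU ρ) := by
    rw [sub_mul, mul_sub, one_mul, mul_one, mul_add, add_mul, mul_one, one_mul, hcomm]
  have hPP : P * P = P := by
    rw [hP, smul_mul_smul_comm]
    have h3 : (1 + τ) * (1 - eU ρ) * ((1 + τ) * (1 - eU ρ)) =
        (2 : Ω) • ((1 + τ) * (1 - eU ρ)) := by
      calc (1 + τ) * (1 - eU ρ) * ((1 + τ) * (1 - eU ρ))
          = (1 + τ) * ((1 - eU ρ) * (1 + τ)) * (1 - eU ρ) := by simp only [mul_assoc]
        _ = ((1 + τ) * (1 + τ)) * ((1 - eU ρ) * (1 - eU ρ)) := by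
            rw [hcomm']; simp only [mul_assoc]
        _ = ((2 : Ω) • (1 + τ)) * (1 - eU ρ) := by
            rw [hE1]
            congr 1
            rw [mul_add, mul_one, add_mul, one_mul, hττ, two_smul]
            abel
        _ = _ := by rw [smul_mul_assoc]
    rw [h3, smul_smul, mul_assoc, inv_mul_cancel₀ h20, mul_one]
  have hone : LinearMap.trace Ω V (1 : Module.End Ω V) = (Module.finrank Ω V : Ω) :=
    LinearMap.trace_one Ω V
  have h5 : LinearMap.trace Ω V P = (2 : Ω)⁻¹ * ((Module.finrank Ω V : Ω) -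
      (Module.finrank Ω (LinearMap.range (eU ρ)) : Ω)) := by
    have h6 : (1 + τ) * (1 - eU ρ) = 1 - eU ρ + (τ - eU ρ * τ) := by
      rw [add_mul, one_mul, mul_sub, mul_one, hcomm]
    rw [hP, map_smul, h6, map_add, map_sub, map_sub, htrE, sub_self, add_zero, hone,
      trace_idem eU_idem, smul_eq_mul]
  rw [trace_idem hPP] at h5
  have h6 : Module.finrank Ω V =
      2 * Module.finrank Ω (LinearMap.range P) + Module.finrank Ω (LinearMap.range (eU ρ)) := by
    have h7 : (Module.finrank Ω V : Ω) = 2 * (Module.finrank Ω (LinearMap.range P) : Ω) +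
        (Module.finrank Ω (LinearMap.range (eU ρ)) : Ω) := by
      rw [h5, ← mul_assoc, mul_inv_cancel₀ h20, one_mul, sub_add_cancel]
    exact_mod_cast h7
  rw [h6, Nat.odd_add']
  simp [Nat.odd_iff]

/-- if `lam² = 1`, `lam ≠ 1`, `lam(-1) = 1` then `-1` is a square -/
theorem neg_one_square {lam : Fˣ →* Ωˣ} (hl : ∀ a, lam a ^ 2 = 1) (hne : lam ≠ 1)
    (h1 : lam (-1) = 1) : ∃ i : F, i ^ 2 = -1 := by
  classical
  obtain ⟨g, hg⟩ := IsCyclic.exists_generator (α := Fˣ)
  have hgl : lam g ≠ 1 := by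
    intro h
    apply hne
    ext a
    obtain ⟨k, hk⟩ := (mem_powers_iff_mem_zpowers.2 (hg a) : a ∈ Submonoid.powers g)
    rw [← hk]
    simp [h]
  obtain ⟨k, hk⟩ := (mem_powers_iff_mem_zpowers.2 (hg (-1)) : (-1 : Fˣ) ∈ Submonoid.powers g)
  have hk' : g ^ k = -1 := hk
  rcases Nat.even_or_odd k with ⟨m, hm⟩ | ⟨m, hm⟩
  · refine ⟨((g ^ m : Fˣ) : F), ?_⟩
    have h3 : (g ^ m) ^ 2 = -1 := by rw [← hk', hm, pow_two, pow_add]
    have h4 := congrArg (fun z : Fˣ => (z : F)) h3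
    simpa using h4
  · exfalso
    apply hgl
    have h3 : lam g ^ k = 1 := by rw [← map_pow, hk', h1]
    rw [hm, pow_succ, pow_mul, hl, one_pow, one_mul] at h3
    exact h3

/-- parity for `U` (odd characteristic): if the character is self dual on `U`, then
`dim V ≡ dim V^U` mod `2` (`parity_odd`) -/
theorem parity_U (h2 : (2 : F) ≠ 0)
    (hsd : ∀ x : F, ρ.character (ux (-x)) = ρ.character (ux x)) :
    (Odd (Module.finrank Ω V) ↔ Odd (Module.finrank Ω (LinearMap.range (eU ρ)))) := by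
  classical
  let j : Multiplicative F →* SpecialLinearGroup (Fin 2) F :=
    MonoidHom.mk' (fun x => ux (Multiplicative.toAdd x)) fun x y => ux_add _ _
  let τ : Representation Ω (Multiplicative F) V := MonoidHom.comp ρ j
  have hodd : Odd (Nat.card (Multiplicative F)) := by
    rw [Nat.card_eq_fintype_card, Fintype.card_multiplicative]
    have hc : ringChar F ≠ 2 := by
      intro h
      apply h2
      have h3 := ringChar.Nat.cast_ringChar (R := F)
      rw [h] at h3
      exact_mod_cast h3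
    exact Nat.odd_iff.2 (FiniteField.odd_card_of_char_ne_two hc)
  have hsd' : SD τ := fun g => hsd (Multiplicative.toAdd g)
  have h3 := parity_odd hodd hsd'
  have h4 : τ.invariants = LinearMap.range (eU ρ) := by
    ext v
    rw [Representation.mem_invariants]
    constructor
    · intro h
      exact ⟨v, eU_fix fun x => h (Multiplicative.ofAdd x)⟩
    · rintro ⟨v', rfl⟩ g
      exact eU_mem (Multiplicative.toAdd g)
  rw [h4] at h3
  exact h3

end

end Parker
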