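import Pool.Agent.Parker.Defs
import Pool.Agent.Parker.P01
import Pool.Agent.Parker.P06
import Pool.Agent.Parker.P08
import Pool.Agent.Parker.P10
import Pool.Agent.Parker.P13
import Pool.Agent.Parker.P29
import Pool.Agent.Parker.P32
import Pool.Agent.Parker.P35
import Pool.Agent.Parker.P36

/-!
# MP_6c3636_al, module P37: (A) for `PSL_2(q)`, `q` odd (helper7)
-/

namespace Parker

open Matrix

universe u v w

noncomputable section

variable {F : Type} [Field F] [Fintype F] {Ω : Type} [Field Ω] [IsAlgClosed Ω] [CharZero Ω]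
  {V : Type v} [AddCommGroup V] [Module Ω V] [FiniteDimensional Ω V]
  {ρ : Representation Ω (SpecialLinearGroup (Fin 2) F) V}

namespace P37_aux

theorem odd_card {F : Type} [Field F] [Fintype F] (h2 : (2 : F) ≠ 0) : Odd (Fintype.card F) := by
  have hc : ringChar F ≠ 2 := by
    intro hc
    apply h2
    have h := ringChar.Nat.cast_ringChar (R := F)
    rw [hc] at h
    simpa using h
  exact Nat.odd_iff.2 (FiniteField.odd_card_of_char_ne_two hc)

/-- the unipotent radical inside the Borel subgroup -/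
def uu (F : Type) [Field F] : Subgroup (bor F) where
  carrier := {g | ∃ x : F, (g : SpecialLinearGroup (Fin 2) F) = ux x}
  mul_mem' := by
    rintro a b ⟨x, hx⟩ ⟨y, hy⟩
    exact ⟨x + y, by rw [Subgroup.coe_mul, hx, hy, ux_add]⟩
  one_mem' := ⟨0, by rw [ux_zero]; rfl⟩
  inv_mem' := by
    rintro a ⟨x, hx⟩
    exact ⟨-x, by rw [Subgroup.coe_inv, hx, ux_neg]⟩

theorem ux_mem_bor {F : Type} [Field F] (x : F) : ux x ∈ bor F :=
  mem_bor.2 ⟨x, 1, by
    have : tx (1 : Fˣ) = 1 := by
      have h := tx_mul (1 : Fˣ) 1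
      rw [mul_one] at h
      have h' : tx (1 : Fˣ) * 1 = tx 1 * tx 1 := by rw [mul_one]; exact h
      exact (mul_left_cancel h').symm
    rw [this, mul_one]⟩

theorem tx_mem_bor {F : Type} [Field F] (a : Fˣ) : tx a ∈ bor F :=
  mem_bor.2 ⟨0, a, by rw [ux_zero, one_mul]⟩

theorem card_uu {F : Type} [Field F] [Fintype F] (h2 : (2 : F) ≠ 0) :
    Odd (Nat.card (uu F)) := by
  have e : F ≃ uu F := Equiv.ofBijective
    (fun x : F => (⟨⟨ux x, ux_mem_bor x⟩, ⟨x, rfl⟩⟩ : uu F)) (by
      constructor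
      · intro x y h
        apply ux_injective
        have h1 := congrArg (fun z : uu F => ((z : bor F) : SpecialLinearGroup (Fin 2) F)) h
        exact h1
      · rintro ⟨⟨g, hg⟩, ⟨x, hx⟩⟩
        refine ⟨x, ?_⟩
        apply Subtype.ext
        apply Subtype.ext
        exact hx.symm)
  rw [← Nat.card_congr e, Nat.card_eq_fintype_card]
  exact odd_card h2

theorem conj_uu {F : Type} [Field F] (g : bor F) {u : bor F} (hu : u ∈ uu F) :
    g * u * g⁻¹ ∈ uu F := by
  obtain ⟨x, hx⟩ := hu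
  obtain ⟨y, a, hy⟩ := mem_bor.1 g.2
  refine ⟨(a : F) ^ 2 * x, ?_⟩
  rw [Subgroup.coe_mul, Subgroup.coe_mul, Subgroup.coe_inv, hx, hy, ← tx_conj]
  have hc : ux y * (tx a * ux x * (tx a)⁻¹) = (tx a * ux x * (tx a)⁻¹) * ux y := by
    rw [tx_conj, ← ux_add, ← ux_add, add_comm]
  calc ux y * tx a * ux x * (ux y * tx a)⁻¹
      = (ux y * (tx a * ux x * (tx a)⁻¹)) * (ux y)⁻¹ := by group
    _ = tx a * ux x * (tx a)⁻¹ := by rw [hc]; group

end P37_aux

open P37_aux

/-- a representation with a Borel eigenvector with `lam² = 1` has odd degree -/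
theorem odd_of_bvec (h2 : (2 : F) ≠ 0) (hρ : ρ.IsIrreducible) (hneg : ρ (-1) = 1)
    {lam : Fˣ →* Ωˣ} (hl : ∀ a, lam a ^ 2 = 1) {v : V} (h : BVec ρ lam v) :
    Odd (Module.finrank Ω V) := by
  have hr : LinearMap.range (eU ρ) = Submodule.span Ω {v} := by
    apply le_antisymm
    · rintro _ ⟨w, rfl⟩
      obtain ⟨a, ha⟩ := F3 hρ hneg hl h (y := eU ρ w) (fun x => eU_mem x)
      rw [ha]
      exact Submodule.smul_mem _ _ (Submodule.mem_span_singleton_self v)
    · rw [Submodule.span_singleton_le_iff_mem]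
      exact ⟨v, eU_fix h.u⟩
  have hr1 : Module.finrank Ω (LinearMap.range (eU ρ)) = 1 := by
    rw [hr]
    exact finrank_span_singleton h.ne
  by_cases h1 : lam = 1
  · subst h1
    rcases (F4 hρ h).2 with h' | h'
    · rw [h']; exact odd_one
    · rw [h']; exact odd_card h2
  · have hm : lam (-1) = 1 := by
      have ht := h.t (-1)
      rw [tx_neg_one, hneg] at ht
      have ht' : (((lam (-1) : Ωˣ) : Ω) - 1) • v = 0 := by
        rw [sub_smul, one_smul, ← ht]
        simp
      rcases smul_eq_zero.1 ht' with h' | h'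
      · apply Units.ext
        rw [Units.val_one]
        exact sub_eq_zero.1 h'
      · exact absurd h' h.ne
    obtain ⟨i, hi⟩ := neg_one_square hl h1 hm
    rw [parity_square h2 hneg hi, hr1]
    exact odd_one

/-- a self dual irreducible representation of odd degree of the Borel subgroup, inside `V`, gives a
Borel eigenvector with `lam² = 1` -/
theorem noOdd_bor (h2 : (2 : F) ≠ 0) (hρ : ρ.IsIrreducible) (hneg : ρ (-1) = 1)
    (hev : Even (Module.finrank Ω V)) : NoOdd (rs (bor F) ρ) := by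
  intro W hW hodd hsd
  set τ := W.toRepresentation with hτ
  have hact : ∀ (g : bor F) (x : W.toSubmodule),
      ((τ g x : W.toSubmodule) : V) = ρ (g : SpecialLinearGroup (Fin 2) F) (x : V) := by
    intro g x
    rfl
  -- the invariants of the unipotent radical
  have hsdU : SD (rs (uu F) τ) := by
    intro g
    exact hsd (g : bor F)
  have hU := (parity_odd (card_uu h2) hsdU).1 hodd
  have hinv : ∀ g : bor F, ∀ x ∈ (rs (uu F) τ).invariants, τ g x ∈ (rs (uu F) τ).invariants := by
    intro g x hx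
    rw [Representation.mem_invariants] at hx ⊢
    intro u
    have hmem : g⁻¹ * (u : bor F) * g ∈ uu F := by
      have := conj_uu g⁻¹ u.2
      rwa [inv_inv] at this
    have h1 := hx ⟨g⁻¹ * (u : bor F) * g, hmem⟩
    have h1' : τ (g⁻¹ * (u : bor F) * g) x = x := h1
    have h2' : (rs (uu F) τ) u (τ g x) = τ (u : bor F) (τ g x) := rfl
    rw [h2']
    have h3 : (u : bor F) * g = g * (g⁻¹ * (u : bor F) * g) := by group
    calc τ (u : bor F) (τ g x) = τ ((u : bor F) * g) x := by rw [map_mul]; rfl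
      _ = τ (g * (g⁻¹ * (u : bor F) * g)) x := by rw [← h3]
      _ = τ g (τ (g⁻¹ * (u : bor F) * g) x) := by rw [map_mul]; rfl
      _ = τ g x := by rw [h1']
  have htop : (rs (uu F) τ).invariants = ⊤ := by
    rcases irr_sub hW hinv with h' | h'
    · exfalso
      rw [h'] at hU
      rw [finrank_bot] at hU
      exact (by decide : ¬ Odd 0) hU
    · exact h'
  have hfix : ∀ (x : F) (y : W.toSubmodule), τ ⟨ux x, ux_mem_bor x⟩ y = y := by
    intro x y
    have hy : y ∈ (rs (uu F) τ).invariants := by rw [htop]; exact Submodule.mem_top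
    rw [Representation.mem_invariants] at hy
    exact hy ⟨⟨ux x, ux_mem_bor x⟩, ⟨x, rfl⟩⟩
  -- the torus acts by scalars
  have hT : ∀ a : Fˣ, ∃ c : Ω, τ ⟨tx a, tx_mem_bor a⟩ = c • 1 := by
    intro a
    apply schur hW
    intro g
    obtain ⟨y, b, hy⟩ := mem_bor.1 g.2
    have hg : g = ⟨ux y, ux_mem_bor y⟩ * ⟨tx b, tx_mem_bor b⟩ := Subtype.ext hy
    have hg' : τ g = τ ⟨tx b, tx_mem_bor b⟩ := by
      apply LinearMap.ext
      intro z
      rw [hg, map_mul]
      exact hfix y _
    rw [hg', ← map_mul, ← map_mul]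
    congr 1
    apply Subtype.ext
    show tx a * tx b = tx b * tx a
    rw [← tx_mul, ← tx_mul, mul_comm]
  choose c hc using hT
  have hpos : 0 < Module.finrank Ω W.toSubmodule := irr_pos hW
  haveI : Nontrivial W.toSubmodule := Module.nontrivial_of_finrank_pos hpos
  obtain ⟨w, hw⟩ := exists_ne (0 : W.toSubmodule)
  have hcw : ∀ a, τ ⟨tx a, tx_mem_bor a⟩ w = c a • w := by
    intro a
    rw [hc a]
    rfl
  have htx1 : tx (1 : Fˣ) = 1 := by
    have h := tx_mul (1 : Fˣ) 1
    rw [mul_one] at h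
    have h' : tx (1 : Fˣ) * 1 = tx 1 * tx 1 := by rw [mul_one]; exact h
    exact (mul_left_cancel h').symm
  have hinj : ∀ a b : Ω, a • w = b • w → a = b := by
    intro a b hab
    have : (a - b) • w = 0 := by rw [sub_smul, hab, sub_self]
    rcases smul_eq_zero.1 this with h' | h'
    · exact sub_eq_zero.1 h'
    · exact absurd h' hw
  have hc1 : c 1 = 1 := by
    apply hinj
    rw [← hcw 1, one_smul]
    have : (⟨tx 1, tx_mem_bor 1⟩ : bor F) = 1 := Subtype.ext htx1
    rw [this, map_one]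
    rfl
  have hcm : ∀ a b, c (a * b) = c a * c b := by
    intro a b
    apply hinj
    rw [← hcw (a * b)]
    have : (⟨tx (a * b), tx_mem_bor (a * b)⟩ : bor F)
        = ⟨tx a, tx_mem_bor a⟩ * ⟨tx b, tx_mem_bor b⟩ := Subtype.ext (tx_mul a b)
    rw [this, map_mul]
    show τ ⟨tx a, tx_mem_bor a⟩ (τ ⟨tx b, tx_mem_bor b⟩ w) = _
    rw [hcw b, map_smul, hcw a, smul_smul, mul_comm]
  let f : Fˣ →* Ω := { toFun := c, map_one' := hc1, map_mul' := hcm }
  have hchar : ∀ a, τ.character ⟨tx a, tx_mem_bor a⟩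
      = c a * (Module.finrank Ω W.toSubmodule : Ω) := by
    intro a
    show LinearMap.trace Ω _ (τ ⟨tx a, tx_mem_bor a⟩) = _
    rw [hc a, map_smul, LinearMap.trace_one, smul_eq_mul]
  have hcinv : ∀ a, c a⁻¹ = c a := by
    intro a
    have h1 := hsd ⟨tx a, tx_mem_bor a⟩
    have h2' : (⟨tx a, tx_mem_bor a⟩ : bor F)⁻¹ = ⟨tx a⁻¹, tx_mem_bor a⁻¹⟩ :=
      Subtype.ext (tx_inv a)
    rw [h2', hchar, hchar] at h1
    have h3 : (Module.finrank Ω W.toSubmodule : Ω) ≠ 0 := by
      exact_mod_cast hpos.ne'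
    exact mul_right_cancel₀ h3 h1
  have hl : ∀ a, f.toHomUnits a ^ 2 = 1 := by
    intro a
    apply Units.ext
    rw [Units.val_pow_eq_pow_val, Units.val_one]
    show c a ^ 2 = 1
    rw [sq]
    nth_rewrite 1 [← hcinv a]
    rw [← hcm, inv_mul_cancel, hc1]
  have hb : BVec ρ f.toHomUnits (w : V) := by
    refine ⟨?_, ?_, ?_⟩
    · intro h0
      exact hw (Subtype.ext h0)
    · intro x
      have := congrArg (fun z : W.toSubmodule => (z : V)) (hfix x w)
      exact this
    · intro a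
      have := congrArg (fun z : W.toSubmodule => (z : V)) (hcw a)
      exact this
  have := odd_of_bvec h2 hρ hneg hl hb
  exact (Nat.not_even_iff_odd.2 this) hev

/-- (A) for representations of `SL_2(q)` trivial on `-1` -/
theorem good_sl2_odd (h2 : (2 : F) ≠ 0) {c : Ctx Ω} {Γ : Subgroup (RingAut Ω)} (hΓ : Ok c 1 Γ)
    (hρ : ρ.IsIrreducible) (hneg : ρ (-1) = 1) (hev : Even (Module.finrank Ω V)) (hO : Orth ρ)
    (hF : FxC Γ ρ) : GoodV c Γ ρ := by
  haveI := bor_solvable (F := F)
  obtain ⟨hA, hB⟩ := of_solvable (c := c) (bor F)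
  exact good_of_res (bor F) hA hB hΓ hO hF (noOdd_bor h2 hρ hneg hev)

end

end Parker
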