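import Pool.Agent.Parker.Defs
import Pool.Agent.Parker.P01
import Pool.Agent.Parker.P02
import Pool.Agent.Parker.P05
import Pool.Agent.Parker.P08
import Pool.Agent.Parker.P09
import Pool.Agent.Parker.P15
import Pool.Agent.Parker.P30
import Pool.Agent.Parker.P35
import Pool.Agent.Parker.P36

/-!
# MP_6c3636_al, module P38: (B) for `PSL_2(q)`, `q` odd (helper7)
-/

namespace Parker

open Matrix

universe u v w

noncomputable section

namespace P38_aux

section Comm

variable {Ω : Type} [Field Ω] [IsAlgClosed Ω] [CharZero Ω] {A : Type} [CommGroup A] [Finite A]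
  {V : Type v} [AddCommGroup V] [Module Ω V] [FiniteDimensional Ω V]

theorem comm_eig {φ : A → Ω} (hφ : φ ∈ irr Ω A) :
    ∃ a : A → Ω, ∀ x g, φ (x * g) = a x * φ g := by
  rw [mem_irr] at hφ
  obtain ⟨n, r, hr, rfl⟩ := hφ
  have h : ∀ x : A, ∃ a : Ω, r x = a • 1 := by
    intro x
    apply schur hr
    intro g
    rw [← map_mul, ← map_mul, mul_comm]
  choose a ha using h
  refine ⟨a, fun x g => ?_⟩
  simp only [Representation.character]
  rw [map_mul, ha x, smul_mul_assoc, one_mul, map_smul, smul_eq_mul]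

theorem eig_mul (R : Representation Ω A V) {φ : A → Ω} {a : A → Ω}
    (ha : ∀ x g, φ (x * g) = a x * φ g) (x : A) :
    R x * act R (es φ) = a x • act R (es φ) := by
  letI := Fintype.ofFinite A
  rw [act_eq, Finset.mul_sum, Finset.smul_sum]
  refine Fintype.sum_equiv (Equiv.mulLeft x) _ _ ?_
  intro g
  simp only [Equiv.coe_mulLeft, es]
  have h1 : a x * φ (x * g)⁻¹ = φ g⁻¹ := by
    rw [← ha]
    congr 1
    rw [_root_.mul_inv_rev, mul_comm g⁻¹ x⁻¹, mul_inv_cancel_left]
  rw [smul_smul, mul_smul_comm, ← map_mul]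
  congr 1
  rw [← h1]
  ring

end Comm

section Orb

variable {F : Type} [Field F] [Fintype F] {Ω : Type} [Field Ω] [IsAlgClosed Ω] [CharZero Ω]
  {V : Type v} [AddCommGroup V] [Module Ω V] [FiniteDimensional Ω V]
  {W : Type w} [AddCommGroup W] [Module Ω W] [FiniteDimensional Ω W]

theorem tw_comm (a : Fˣ) : tx a * wx F = wx F * tx a⁻¹ := by
  have h := wx_conj (a⁻¹ : Fˣ)
  rw [inv_inv] at h
  rw [← h, inv_mul_cancel_right]

/-- the coefficients -/
def OK1 (ρ : Representation Ω (SpecialLinearGroup (Fin 2) F) V) (v : V) (y : V) (a : Ω)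
    (b : F → Ω) : Prop := y = a • v + ∑ x, b x • ρ (ux x * wx F) v

open Classical in
theorem coef_g (lam : Fˣ →* Ωˣ) (g : SpecialLinearGroup (Fin 2) F) :
    (∃ a : Ω, ∃ b : F → Ω, ∀ (z : ULift.{max v w} Unit), 
      (∀ (V : Type v) [AddCommGroup V] [Module Ω V]
        (ρ : Representation Ω (SpecialLinearGroup (Fin 2) F) V) (v : V), BVec ρ lam v →
          OK1 ρ v (ρ g v) a b) ∧
      (∀ (V : Type w) [AddCommGroup V] [Module Ω V]
        (ρ : Representation Ω (SpecialLinearGroup (Fin 2) F) V) (v : V), BVec ρ lam v →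
          OK1 ρ v (ρ g v) a b)) := by
  rcases bruhat g with ⟨x, a, rfl⟩ | ⟨x, a, y, rfl⟩
  · refine ⟨(lam a : Ω), 0, fun _ => ⟨?_, ?_⟩⟩
    · intro V _ _ ρ v h
      simp only [OK1, Pi.zero_apply, zero_smul, Finset.sum_const_zero, add_zero]
      rw [map_mul, Module.End.mul_apply, h.t, map_smul, h.u]
    · intro V _ _ ρ v h
      simp only [OK1, Pi.zero_apply, zero_smul, Finset.sum_const_zero, add_zero]
      rw [map_mul, Module.End.mul_apply, h.t, map_smul, h.u]
  · refine ⟨0, Pi.single x ((lam a⁻¹ : Ωˣ) : Ω), fun _ => ⟨?_, ?_⟩⟩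
    · intro V _ _ ρ v h
      simp only [OK1, zero_smul, zero_add]
      rw [Finset.sum_eq_single x, Pi.single_eq_same]
      · rw [map_mul, Module.End.mul_apply, h.u, mul_assoc, tw_comm, ← mul_assoc, map_mul,
          Module.End.mul_apply, h.t, map_smul]
      · intro b _ hb
        rw [Pi.single_eq_of_ne hb, zero_smul]
      · intro hx
        exact absurd (Finset.mem_univ x) hx
    · intro V _ _ ρ v h
      simp only [OK1, zero_smul, zero_add]
      rw [Finset.sum_eq_single x, Pi.single_eq_same]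
      · rw [map_mul, Module.End.mul_apply, h.u, mul_assoc, tw_comm, ← mul_assoc, map_mul,
          Module.End.mul_apply, h.t, map_smul]
      · intro b _ hb
        rw [Pi.single_eq_of_ne hb, zero_smul]
      · intro hx
        exact absurd (Finset.mem_univ x) hx

theorem coef {lam : Fˣ →* Ωˣ} {ρ : Representation Ω (SpecialLinearGroup (Fin 2) F) V}
    {τ : Representation Ω (SpecialLinearGroup (Fin 2) F) W} {v : V} {v' : W}
    (hv : BVec ρ lam v) (hv' : BVec τ lam v') (s : SpecialLinearGroup (Fin 2) F → Ω) :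
    ∃ (a : Ω) (b : F → Ω), OK1 ρ v (act ρ s v) a b ∧ OK1 τ v' (act τ s v') a b := by
  letI := Fintype.ofFinite (SpecialLinearGroup (Fin 2) F)
  have h : ∀ g : SpecialLinearGroup (Fin 2) F, ∃ (a : Ω) (b : F → Ω),
      OK1 ρ v (ρ g v) a b ∧ OK1 τ v' (τ g v') a b := by
    intro g
    obtain ⟨a, b, h⟩ := coef_g.{v, w} lam g
    exact ⟨a, b, (h ⟨()⟩).1 V ρ v hv, (h ⟨()⟩).2 W τ v' hv'⟩
  choose a b hab using h
  refine ⟨∑ g, s g * a g, fun x => ∑ g, s g * b g x, ?_, ?_⟩
  · rw [OK1, act_eq, LinearMap.sum_apply]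
    have h1 : ∀ g, (s g • ρ g) v = (s g * a g) • v + ∑ x, (s g * b g x) • ρ (ux x * wx F) v := by
      intro g
      rw [LinearMap.smul_apply]
      have h2 := (hab g).1
      rw [OK1] at h2
      rw [h2, smul_add, smul_smul, Finset.smul_sum]
      simp only [smul_smul]
    simp only [h1]
    rw [Finset.sum_add_distrib, Finset.sum_comm]
    simp only [Finset.sum_smul]
  · rw [OK1, act_eq, LinearMap.sum_apply]
    have h1 : ∀ g, (s g • τ g) v' = (s g * a g) • v' + ∑ x, (s g * b g x) • τ (ux x * wx F) v' := by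
      intro g
      rw [LinearMap.smul_apply]
      have h2 := (hab g).2
      rw [OK1] at h2
      rw [h2, smul_add, smul_smul, Finset.smul_sum]
      simp only [smul_smul]
    simp only [h1]
    rw [Finset.sum_add_distrib, Finset.sum_comm]
    simp only [Finset.sum_smul]

/-- the group `U` -/
def uh (F : Type) [Field F] : Multiplicative F →* SpecialLinearGroup (Fin 2) F where
  toFun x := ux x.toAdd
  map_one' := ux_zero
  map_mul' x y := ux_add _ _

end Orb

/-- the orbit of a nonzero vector under the group algebra -/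
theorem orb_act {G : Type u} [Group G] [Finite G] {Ω : Type} [Field Ω] [IsAlgClosed Ω]
    [CharZero Ω] {V : Type v} [AddCommGroup V] [Module Ω V] [FiniteDimensional Ω V]
    {ρ : Representation Ω G V} (hρ : ρ.IsIrreducible) {v : V} (hv : v ≠ 0) (y : V) :
    ∃ s : G → Ω, act ρ s v = y := by
  classical
  let U : Submodule Ω V :=
    { carrier := {y | ∃ s : G → Ω, act ρ s v = y}
      add_mem' := by
        rintro _ _ ⟨s, rfl⟩ ⟨t, rfl⟩
        exact ⟨s + t, by rw [act_add, LinearMap.add_apply]⟩
      zero_mem' := ⟨0, by rw [act_zero, LinearMap.zero_apply]⟩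
      smul_mem' := by
        rintro c _ ⟨s, rfl⟩
        exact ⟨c • s, by rw [act_smul, LinearMap.smul_apply]⟩ }
  have hU : ∀ g, ∀ x ∈ U, ρ g x ∈ U := by
    rintro g _ ⟨s, rfl⟩
    exact ⟨conv (Pi.single g 1) s, by rw [act_conv, act_single, Module.End.mul_apply]⟩
  have hvU : v ∈ U := ⟨Pi.single 1 1, by rw [act_single, map_one, Module.End.one_apply]⟩
  rcases irr_sub hρ hU with h | h
  · exfalso
    rw [h, Submodule.mem_bot] at hvU
    exact hv hvU
  · have : y ∈ U := by rw [h]; exact Submodule.mem_top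
    exact this

end P38_aux

variable {F : Type} [Field F] [Fintype F] {Ω : Type} [Field Ω] [IsAlgClosed Ω] [CharZero Ω]
  {V : Type v} [AddCommGroup V] [Module Ω V] [FiniteDimensional Ω V]
  {W : Type w} [AddCommGroup W] [Module Ω W] [FiniteDimensional Ω W]

open P38_aux in
/-- two inequivalent irreducible representations with Borel eigenvectors for the same `lam`, and
the same character on `U`: then `U` acts trivially on both. (`M = V × W` is generated by
`(v, v')`, so each nontrivial irreducible character of `U` has multiplicity at most one in `M`.) -/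
theorem trivial_U (ρ : Representation Ω (SpecialLinearGroup (Fin 2) F) V)
    (τ : Representation Ω (SpecialLinearGroup (Fin 2) F) W) (hρ : ρ.IsIrreducible)
    (hτ : τ.IsIrreducible) (hne : ρ.character ≠ τ.character) {lam : Fˣ →* Ωˣ} {v : V} {v' : W}
    (hv : BVec ρ lam v) (hv' : BVec τ lam v')
    (hU : ∀ x : F, ρ.character (ux x) = τ.character (ux x)) (x : F) : ρ (ux x) = 1 := by
  classical
  haveI : Finite (Multiplicative F) := inferInstanceAs (Finite F)
  set R : Representation Ω (Multiplicative F) V := MonoidHom.comp ρ (uh F) with hR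
  set R' : Representation Ω (Multiplicative F) W := MonoidHom.comp τ (uh F) with hR'
  have hRa : ∀ z : F, R (Multiplicative.ofAdd z) = ρ (ux z) := fun z => rfl
  have hRa' : ∀ z : F, R' (Multiplicative.ofAdd z) = τ (ux z) := fun z => rfl
  have hRc : R.character = R'.character := by
    funext z
    exact hU z.toAdd
  -- the central idempotent of `ρ` acts by zero on `W`
  have hes : act τ (es ρ.character) = 0 := by
    have h1 := idem_orth τ (mem_irr.2 (mem_irrSet hρ)) (mem_irr.2 (mem_irrSet hτ)) hne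
    rwa [idem_irr hτ, mul_one] at h1
  have key : ∀ φ ∈ irr Ω (Multiplicative F),
      R (Multiplicative.ofAdd x) * act R (es φ) = act R (es φ) := by
    intro φ hφ
    obtain ⟨a, ha⟩ := comm_eig hφ
    have e1 := fun z => eig_mul R ha z
    have e1' := fun z => eig_mul R' ha z
    by_cases hall : ∀ z, a z = 1
    · rw [e1, hall, one_smul]
    push Not at hall
    obtain ⟨z0, hz0⟩ := hall
    have e2 : ∀ z, act R (es φ) * R z = a z • act R (es φ) := fun z => by
      rw [← idem_comm R hφ, e1]
    have e2' : ∀ z, act R' (es φ) * R' z = a z • act R' (es φ) := fun z => by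
      rw [← idem_comm R' hφ, e1']
    have hv0 : act R (es φ) v = 0 := by
      have h1 : act R (es φ) (R z0 v) = a z0 • act R (es φ) v := by
        rw [← Module.End.mul_apply, e2, LinearMap.smul_apply]
      have h2 : R z0 v = v := hv.u z0.toAdd
      rw [h2] at h1
      have h3 : (a z0 - 1) • act R (es φ) v = 0 := by
        rw [sub_smul, one_smul, ← h1, sub_self]
      rcases smul_eq_zero.1 h3 with h | h
      · exact absurd (sub_eq_zero.1 h) hz0
      · exact h
    have hv0' : act R' (es φ) v' = 0 := by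
      have h1 : act R' (es φ) (R' z0 v') = a z0 • act R' (es φ) v' := by
        rw [← Module.End.mul_apply, e2', LinearMap.smul_apply]
      have h2 : R' z0 v' = v' := hv'.u z0.toAdd
      rw [h2] at h1
      have h3 : (a z0 - 1) • act R' (es φ) v' = 0 := by
        rw [sub_smul, one_smul, ← h1, sub_self]
      rcases smul_eq_zero.1 h3 with h | h
      · exact absurd (sub_eq_zero.1 h) hz0
      · exact h
    -- the image of `OK1` vectors
    have im : ∀ (y : V) (c : Ω) (b : F → Ω), OK1 ρ v y c b →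
        act R (es φ) y = (∑ z, b z * a (Multiplicative.ofAdd z)) • act R (es φ) (ρ (wx F) v) := by
      intro y c b h
      rw [OK1] at h
      rw [h, map_add, map_smul, hv0, smul_zero, zero_add, map_sum, Finset.sum_smul]
      refine Finset.sum_congr rfl fun z _ => ?_
      rw [map_smul, map_mul, Module.End.mul_apply, ← hRa, ← Module.End.mul_apply, e2,
        LinearMap.smul_apply, smul_smul]
    have im' : ∀ (y : W) (c : Ω) (b : F → Ω), OK1 τ v' y c b →
        act R' (es φ) y = (∑ z, b z * a (Multiplicative.ofAdd z)) • act R' (es φ) (τ (wx F) v') := by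
      intro y c b h
      rw [OK1] at h
      rw [h, map_add, map_smul, hv0', smul_zero, zero_add, map_sum, Finset.sum_smul]
      refine Finset.sum_congr rfl fun z _ => ?_
      rw [map_smul, map_mul, Module.End.mul_apply, ← hRa', ← Module.End.mul_apply, e2',
        LinearMap.smul_apply, smul_smul]
    suffices hz : act R (es φ) = 0 by rw [hz, mul_zero]
    by_contra hnz
    have hnz' : act R' (es φ) ≠ 0 := by
      rw [idem_ne_zero_iff R' hφ, ← hRc, ← idem_ne_zero_iff R hφ]
      exact hnz
    obtain ⟨y, hy⟩ : ∃ y, act R (es φ) y ≠ 0 := by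
      by_contra hcon
      push Not at hcon
      exact hnz (LinearMap.ext hcon)
    obtain ⟨y', hy'⟩ : ∃ y, act R' (es φ) y ≠ 0 := by
      by_contra hcon
      push Not at hcon
      exact hnz' (LinearMap.ext hcon)
    obtain ⟨s, hs⟩ := orb_act hρ hv.ne y
    obtain ⟨s', hs'⟩ := orb_act hτ hv'.ne y'
    obtain ⟨c, b, h1, h2⟩ := coef hv hv' (conv (es ρ.character) s)
    obtain ⟨c', b', h1', h2'⟩ := coef hv hv' s'
    rw [act_conv, idem_irr hρ, one_mul, hs] at h1
    rw [act_conv, hes, zero_mul, LinearMap.zero_apply] at h2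
    rw [hs'] at h2'
    have k1 := im _ _ _ h1
    have k2 := im' _ _ _ h2
    have k3 := im' _ _ _ h2'
    rw [map_zero] at k2
    rcases smul_eq_zero.1 k2.symm with h | h
    · rw [h, zero_smul] at k1
      exact hy k1
    · rw [h, smul_zero] at k3
      exact hy' k3
  have h1 := idem_sum R
  rw [← hRa]
  calc R (Multiplicative.ofAdd x) = R (Multiplicative.ofAdd x) * 1 := (mul_one _).symm
    _ = ∑ φ ∈ irr Ω (Multiplicative F), R (Multiplicative.ofAdd x) * act R (es φ) := by
        rw [← h1, Finset.mul_sum]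
    _ = ∑ φ ∈ irr Ω (Multiplicative F), act R (es φ) := Finset.sum_congr rfl key
    _ = 1 := h1

open Classical in
/-- (B) for representations of `SL_2(q)` trivial on `-1`, `q` odd -/
theorem propB_sl2_odd (h2 : (2 : F) ≠ 0) {c : Ctx Ω} {Γ : Subgroup (RingAut Ω)}
    (hΓ : Ok c 1 Γ) {ρ : Representation Ω (SpecialLinearGroup (Fin 2) F) V}
    (hρ : ρ.IsIrreducible) (hneg : ρ (-1) = 1) (hodd : Odd (Module.finrank Ω V))
    (hγ : ∃ γ ∈ Γ, ∀ g, γ (ρ.character g) = ρ.character g⁻¹) {d : Ω} (hd : d ≠ 0)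
    (hσ : ∀ σ ∈ Γ, σ d = if Fixes σ ρ then d else - d) : InV c Γ (c.av d) := by
  by_cases hall : ∀ σ ∈ Γ, Fixes σ ρ
  · refine inV_of_fx hd ?_
    intro σ hs
    rw [hσ σ hs, if_pos (hall σ hs)]
  push Not at hall
  obtain ⟨σ, hσΓ, hσn⟩ := hall
  obtain ⟨γ, hγΓ, hγ⟩ := hγ
  have hcard : Odd (Fintype.card F) := by
    have hch : ringChar F ≠ 2 := by
      intro h
      apply h2
      have h3 := CharP.cast_eq_zero F (ringChar F)
      rw [h] at h3
      exact_mod_cast h3
    exact Nat.odd_iff.2 (FiniteField.odd_card_of_char_ne_two hch)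
  have hpow : ∀ x : F, (ux x : SpecialLinearGroup (Fin 2) F) ^ (2 * Fintype.card F) = 1 := by
    intro x
    have h3 : ∀ n : ℕ, (ux x : SpecialLinearGroup (Fin 2) F) ^ n = ux ((n : F) * x) := by
      intro n
      induction n with
      | zero => rw [pow_zero, Nat.cast_zero, zero_mul, ux_zero]
      | succ n ih => rw [pow_succ, ih, ← ux_add, Nat.cast_succ, add_mul, one_mul]
    rw [h3, Nat.cast_mul, FiniteField.cast_card_eq_zero, mul_zero, zero_mul, ux_zero]
  by_cases hsd : ∀ x : F, ρ.character (ux (-x)) = ρ.character (ux x)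
  swap
  · push Not at hsd
    obtain ⟨x, hx⟩ := hsd
    refine lemma_U hΓ hcard (hpow x) hγΓ ?_ hd hσ
    rw [hγ, ← ux_neg]
    exact hx
  have hp := (parity_U h2 hsd).1 hodd
  have hpos : 0 < Module.finrank Ω (LinearMap.range (eU ρ)) := hp.pos
  obtain ⟨⟨v0, y0, hy0⟩, hv0⟩ := Module.finrank_pos_iff_exists_ne_zero.1 hpos
  have hv0' : v0 ≠ 0 := fun h => hv0 (Subtype.ext h)
  have hfix0 : ∀ x : F, ρ (ux x) v0 = v0 := by
    intro x
    rw [← hy0]
    exact eU_mem x
  obtain ⟨lam, v, hv⟩ := exists_bvec hv0' hfix0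
  set w' : V := eU ρ (ρ (wx F) v) with hw'
  have hw0 : w' ≠ 0 := F2 hneg hv
  have hone : Module.finrank Ω (LinearMap.range (eU ρ)) = 1 := by
    have hle : Module.finrank Ω (LinearMap.range (eU ρ)) ≤ 2 := by
      have h3 : LinearMap.range (eU ρ) ≤ Submodule.span Ω (Set.range ![v, w']) := by
        rintro _ ⟨y, rfl⟩
        obtain ⟨a, b, hab⟩ := F1 hρ hv (y := eU ρ y) (fun x => eU_mem x)
        rw [hab]
        refine Submodule.add_mem _ (Submodule.smul_mem _ _ (Submodule.subset_span ⟨0, rfl⟩))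
          (Submodule.smul_mem _ _ (Submodule.subset_span ⟨1, rfl⟩))
      refine (Submodule.finrank_mono h3).trans ?_
      have h4 := finrank_range_le_card (R := Ω) ![v, w']
      simpa [Set.finrank] using h4
    obtain ⟨k, hk⟩ := hp
    omega
  have hvr : v ∈ LinearMap.range (eU ρ) := ⟨v, eU_fix hv.u⟩
  have hwr : w' ∈ LinearMap.range (eU ρ) := ⟨_, rfl⟩
  obtain ⟨e, he⟩ : ∃ e : Ω, e • v = w' := by
    have h3 : (⟨v, hvr⟩ : LinearMap.range (eU ρ)) ≠ 0 := fun h => hv.ne (congrArg Subtype.val h)
    obtain ⟨e, he⟩ := (finrank_eq_one_iff_of_nonzero' _ h3).1 hone ⟨w', hwr⟩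
    exact ⟨e, congrArg Subtype.val he⟩
  have he0 : e ≠ 0 := by
    rintro rfl
    rw [zero_smul] at he
    exact hw0 he.symm
  have hl : ∀ a : Fˣ, (lam a : Ω) = 1 ∨ (lam a : Ω) = -1 := by
    intro a
    have h3 := F2t hneg hv a
    rw [← hw', ← he, map_smul, hv.t, Units.smul_def, smul_smul, smul_smul] at h3
    have h4 : (e * (lam a : Ω) - ((lam a)⁻¹ : Ωˣ) * e) • v = 0 := by
      rw [sub_smul, h3, sub_self]
    rcases smul_eq_zero.1 h4 with h | h
    swap
    · exact absurd h hv.ne
    have h5 : (lam a : Ω) * (((lam a)⁻¹ : Ωˣ) : Ω) = 1 := Units.mul_inv _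
    have h6 : (((lam a)⁻¹ : Ωˣ) : Ω) = lam a := by
      have h7 : e * (((lam a : Ω)) - (((lam a)⁻¹ : Ωˣ) : Ω)) = 0 := by linear_combination h
      rcases mul_eq_zero.1 h7 with h8 | h8
      · exact absurd h8 he0
      · exact (sub_eq_zero.1 h8).symm
    rw [h6] at h5
    exact mul_self_eq_one_iff.1 h5
  -- the twist
  obtain ⟨τ0, ⟨E⟩⟩ := exists_fin ρ
  have hchar : ρ.character = τ0.character := Representation.char_iso E
  have hτ0 : τ0.IsIrreducible := equiv_irr E hρ
  have hτ : (tw σ τ0).IsIrreducible := tw_irr σ hτ0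
  have hE : ∀ g y, E (ρ g y) = τ0 g (E y) := fun g y => by
    have h3 := LinearMap.congr_fun (E.isIntertwining' g) y
    exact h3
  have hne : ρ.character ≠ (tw σ τ0).character := by
    intro h
    apply hσn
    intro g
    rw [hchar, ← tw_char, ← h, hchar]
  have hBV : BVec (tw σ τ0) lam (fun i => σ (E v i)) := by
    refine ⟨?_, ?_, ?_⟩
    · intro h
      apply hv.ne
      apply E.toLinearEquiv.injective
      rw [map_zero]
      funext i
      have h3 := congrFun h i
      simp only [Pi.zero_apply, map_eq_zero] at h3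
      exact h3
    · intro x
      rw [tw_apply_comp, ← hE, hv.u]
    · intro a
      rw [tw_apply_comp, ← hE, hv.t, map_smul]
      funext i
      simp only [Pi.smul_apply, smul_eq_mul, map_mul]
      congr 1
      rcases hl a with h | h
      · rw [h, map_one]
      · rw [h, map_neg, map_one]
  by_cases hU : ∀ x : F, ρ.character (ux x) = (tw σ τ0).character (ux x)
  · exfalso
    have htr := trivial_U ρ (tw σ τ0) hρ hτ hne hv hBV hU
    have htop : (⊤ : Subgroup (SpecialLinearGroup (Fin 2) F)) ≤ MonoidHom.ker ρ := by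
      rw [← normalClosure_ux]
      apply Subgroup.normalClosure_le_normal
      rintro _ ⟨x, rfl⟩
      exact htr x
    apply hσn
    intro g
    have hg : ρ g = 1 := htop (Subgroup.mem_top g)
    rw [Representation.character, hg, LinearMap.trace_one, map_natCast]
  · push Not at hU
    obtain ⟨x, hx⟩ := hU
    refine lemma_U hΓ hcard (hpow x) hσΓ ?_ hd hσ
    rw [hchar, ← tw_char, ← hchar]
    exact hx.symm

end

end Parker
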