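import Pool.Agent.Parker.Defs
import Pool.Agent.Parker.P06
import Pool.Agent.Parker.P13
import Pool.Agent.Parker.P33
import Pool.Agent.Parker.P34
import Pool.Agent.Parker.P35
import Pool.Agent.Parker.P37
import Pool.Agent.Parker.P38

/-!
# MP_6c3636_al, module P39: (A) and (B) for `PSL_2(q)` (helper7)
-/

namespace Parker

open Matrix

universe u v w

noncomputable section

variable {F : Type} [Field F] [Fintype F] {Ω : Type} [Field Ω] [IsAlgClosed Ω] [CharZero Ω]
  {c : Ctx Ω}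

namespace P39_aux

/-- signs as elements of the field with two elements -/
def gs (e : ℤˣ) : ZMod 2 := if e = 1 then 0 else 1

theorem gs_mul : ∀ e e' : ℤˣ, gs (e * e') = gs e + gs e' := by decide

theorem gs_inj : ∀ e e' : ℤˣ, gs e = gs e' → e = e' := by decide

theorem gs_one : gs 1 = 0 := rfl

/-- the unipotent elements -/
def uh (F : Type) [Field F] : Multiplicative F →* SpecialLinearGroup (Fin 2) F where
  toFun x := ux (Multiplicative.toAdd x)
  map_one' := ux_zero
  map_mul' _ _ := ux_add _ _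

/-- the torus -/
def th (F : Type) [Field F] : Fˣ →* SpecialLinearGroup (Fin 2) F where
  toFun a := tx a
  map_one' := by
    apply Subtype.ext
    ext i j
    fin_cases i <;> fin_cases j <;> simp [tx]
  map_mul' a b := tx_mul a b

theorem tx_injective : Function.Injective (tx : Fˣ → SpecialLinearGroup (Fin 2) F) := by
  intro a b h
  have h1 := congrArg (fun g : SpecialLinearGroup (Fin 2) F => g.1 0 0) h
  simp only [tx] at h1
  exact Units.ext (by simpa using h1)

/-- duality: every additive map is a translate of a given nonzero one -/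
theorem dual_surj [CharP F 2] (L M : F → ZMod 2) (hL : ∀ x y, L (x + y) = L x + L y)
    (hM : ∀ x y, M (x + y) = M x + M y) (hL0 : ∃ x, L x ≠ 0) :
    ∃ c : F, (∀ x, M x = L (c * x)) ∧ ∀ c' : F, (∀ x, M x = L (c' * x)) → c' = c := by
  classical
  let _ : Algebra (ZMod 2) F := ZMod.algebra F 2
  have : Fact (Nat.Prime 2) := ⟨Nat.prime_two⟩
  set L' : F →+ ZMod 2 := AddMonoidHom.mk' L hL with hL'
  set M' : F →+ ZMod 2 := AddMonoidHom.mk' M hM with hM'
  set Ll : F →ₗ[ZMod 2] ZMod 2 := L'.toZModLinearMap 2 with hLl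
  set Ml : F →ₗ[ZMod 2] ZMod 2 := M'.toZModLinearMap 2 with hMl
  set Φ : F →ₗ[ZMod 2] Module.Dual (ZMod 2) F := (LinearMap.mul (ZMod 2) F).compr₂ Ll with hΦ
  have hΦa : ∀ c x, Φ c x = L (c * x) := fun c x => rfl
  have hinj : Function.Injective Φ := by
    rw [← LinearMap.ker_eq_bot, LinearMap.ker_eq_bot']
    intro c hc
    by_contra hc0
    obtain ⟨x, hx⟩ := hL0
    apply hx
    have h1 := hΦa c (c⁻¹ * x)
    rw [hc, ← mul_assoc, mul_inv_cancel₀ hc0, one_mul] at h1
    rw [← h1]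
    rfl
  have hsurj : Function.Surjective Φ :=
    (LinearMap.injective_iff_surjective_of_finrank_eq_finrank
      (Subspace.dual_finrank_eq (K := ZMod 2) (V := F)).symm).1 hinj
  obtain ⟨c, hc⟩ := hsurj Ml
  refine ⟨c, fun x => ?_, fun c' hc' => ?_⟩
  · rw [← hΦa, hc]
    rfl
  · apply hinj
    rw [hc]
    apply LinearMap.ext
    intro x
    rw [hΦa, ← hc' x]
    rfl

end P39_aux

open P39_aux

/-- rank one data for `SL_2(q)`, `q` even, `q > 2` or `q = 2` -/
theorem rankOne_sl2 (h2 : (2 : F) = 0) :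
    ∃ (U T : Subgroup (SpecialLinearGroup (Fin 2) F)), RankOne U T (wx F) ∧
      ∀ u ∈ U, u ^ 4 = 1 := by
  classical
  have : CharP F 2 := CharTwo.of_one_ne_zero_of_two_eq_zero one_ne_zero h2
  have hcard := FiniteField.card F 2
  obtain ⟨k, -, hk⟩ := hcard
  have hneg : (-1 : SpecialLinearGroup (Fin 2) F) = 1 := by
    apply Subtype.ext
    ext i j
    fin_cases i <;> fin_cases j <;> simp [CharTwo.neg_eq]
  have hww : wx F * wx F = 1 := by rw [wx_sq, hneg]
  have hwinv : (wx F)⁻¹ = wx F := inv_eq_of_mul_eq_one_left hww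
  have huu : ∀ x : F, ux x * ux x = 1 := fun x => by
    rw [← ux_add, CharTwo.add_self_eq_zero, ux_zero]
  have hmemU : ∀ g, g ∈ (uh F).range ↔ ∃ x, g = ux x := fun g =>
    ⟨fun ⟨x, hx⟩ => ⟨Multiplicative.toAdd x, hx.symm⟩,
      fun ⟨x, hx⟩ => ⟨Multiplicative.ofAdd x, hx.symm⟩⟩
  have hmemT : ∀ g, g ∈ (th F).range ↔ ∃ a, g = tx a := fun g =>
    ⟨fun ⟨x, hx⟩ => ⟨x, hx.symm⟩, fun ⟨x, hx⟩ => ⟨x, hx.symm⟩⟩
  have huinj : Function.Injective (uh F) := fun x y h =>
    Multiplicative.toAdd.injective (ux_injective (F := F) h)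
  have hcU : Nat.card (uh F).range = Fintype.card F := by
    rw [← Nat.card_congr (MonoidHom.ofInjective huinj).toEquiv,
      Nat.card_congr Multiplicative.toAdd, Nat.card_eq_fintype_card]
  refine ⟨(uh F).range, (th F).range, ⟨⟨k, by rw [hcU, hk]⟩, ?_, ?_, ?_, ?_, hww, ?_, ?_, ?_, ?_⟩,
    ?_⟩
  · intro h
    have h1 : ux (1 : F) ∈ (uh F).range := (hmemU _).2 ⟨1, rfl⟩
    rw [h, Subgroup.mem_bot, ← ux_zero] at h1
    exact one_ne_zero (ux_injective h1)
  · have h1 : Nat.card (th F).range ∣ Nat.card Fˣ := Subgroup.card_range_dvd (th F)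
    rw [Nat.card_units, Nat.card_eq_fintype_card (α := F), hk] at h1
    refine Odd.of_dvd_nat ?_ h1
    have h3 : Even (2 ^ (k : ℕ)) := (Nat.even_pow.2 ⟨even_two, k.pos.ne'⟩)
    have h4 : 1 ≤ 2 ^ (k : ℕ) := Nat.one_le_two_pow
    exact Nat.Even.sub_odd h4 h3 odd_one
  · intro t ht u hu
    obtain ⟨a, rfl⟩ := (hmemT t).1 ht
    obtain ⟨x, rfl⟩ := (hmemU u).1 hu
    rw [tx_conj]
    exact (hmemU _).2 ⟨_, rfl⟩
  · intro g
    rcases bruhat g with ⟨x, a, h⟩ | ⟨x, a, y, h⟩
    · exact Or.inl ⟨ux x, (hmemU _).2 ⟨x, rfl⟩, tx a, (hmemT _).2 ⟨a, rfl⟩, h⟩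
    · exact Or.inr ⟨ux x, (hmemU _).2 ⟨x, rfl⟩, tx a, (hmemT _).2 ⟨a, rfl⟩, ux y,
        (hmemU _).2 ⟨y, rfl⟩, h⟩
  · intro t ht
    obtain ⟨a, rfl⟩ := (hmemT t).1 ht
    have := wx_conj a
    rw [hwinv] at this
    rw [this, tx_inv]
  · intro u hu u' hu' t ht h
    obtain ⟨a, rfl⟩ := (hmemT t).1 ht
    obtain ⟨x, rfl⟩ := (hmemU u).1 hu
    obtain ⟨y, rfl⟩ := (hmemU u').1 hu'
    have h1 := congrArg (fun g : SpecialLinearGroup (Fin 2) F => g.1 0 1) h
    have h3 : x = 0 := by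
      simp only [Matrix.SpecialLinearGroup.coe_mul] at h1
      simpa [ux, tx, wx, Matrix.mul_apply, Fin.sum_univ_two] using h1
    rw [h3, ux_zero]
  · rintro ⟨x, hx⟩
    obtain ⟨y, rfl⟩ := (hmemU x).1 hx
    have : (⟨ux y, hx⟩ : (uh F).range) * ⟨ux y, hx⟩ = 1 := Subtype.ext (huu y)
    rw [this]
    exact Subgroup.one_mem _
  · intro lam mu hlam hmu
    set el : F → (uh F).range := fun x => ⟨ux x, (hmemU _).2 ⟨x, rfl⟩⟩ with hel
    have hela : ∀ x y, el (x + y) = el x * el y := fun x y => Subtype.ext (ux_add x y)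
    have hels : ∀ u : (uh F).range, ∃ x, u = el x := fun u => by
      obtain ⟨x, hx⟩ := (hmemU u).1 u.2
      exact ⟨x, Subtype.ext hx⟩
    have hadd : ∀ (nu : (uh F).range →* ℤˣ) (x y : F),
        gs (nu (el (x + y))) = gs (nu (el x)) + gs (nu (el y)) := fun nu x y => by
      rw [hela, map_mul, gs_mul]
    have hne : ∀ nu : (uh F).range →* ℤˣ, nu ≠ 1 → ∃ x, gs (nu (el x)) ≠ 0 := by
      intro nu hnu
      by_contra hcon
      push Not at hcon
      apply hnu
      ext u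
      obtain ⟨x, rfl⟩ := hels u
      have h3 := hcon x
      rw [← gs_one] at h3
      rw [gs_inj _ _ h3]
      rfl
    obtain ⟨c, hc, hcu⟩ := dual_surj (fun x => gs (lam (el x))) (fun x => gs (mu (el x)))
      (hadd lam) (hadd mu) (hne lam hlam)
    have hc0 : c ≠ 0 := by
      rintro rfl
      obtain ⟨x, hx⟩ := hne mu hmu
      apply hx
      have h3 := hc x
      beta_reduce at h3
      rw [h3, zero_mul]
      have h4 : el 0 = 1 := Subtype.ext ux_zero
      rw [h4, map_one, gs_one]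
    obtain ⟨b, hb⟩ := FiniteField.isSquare_of_char_two (F := F) (ringChar.eq F 2) c
    have hb0 : b ≠ 0 := by
      rintro rfl
      rw [mul_zero] at hb
      exact hc0 hb
    -- the condition for the torus element `a`
    have key : ∀ a : Fˣ, (∀ x y : (uh F).range,
        (y : SpecialLinearGroup (Fin 2) F) = (tx a)⁻¹ * x * tx a → mu x = lam y) ↔
        ∀ ξ : F, gs (mu (el ξ)) = gs (lam (el (((a⁻¹ : Fˣ) : F) ^ 2 * ξ))) := by
      intro a
      have h3 : ∀ ξ : F, (tx a)⁻¹ * ux ξ * tx a = ux (((a⁻¹ : Fˣ) : F) ^ 2 * ξ) := by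
        intro ξ
        have h4 := tx_conj a⁻¹ ξ
        rw [← tx_inv, inv_inv] at h4
        exact h4
      constructor
      · intro h ξ
        rw [h (el ξ) (el (((a⁻¹ : Fˣ) : F) ^ 2 * ξ)) (h3 ξ).symm]
      · intro h x y hxy
        obtain ⟨ξ, rfl⟩ := hels x
        have h4 : y = el (((a⁻¹ : Fˣ) : F) ^ 2 * ξ) := Subtype.ext (hxy.trans (h3 ξ))
        rw [h4]
        exact gs_inj _ _ (h ξ)
    have hbu : (((Units.mk0 b hb0)⁻¹)⁻¹ : Fˣ) = Units.mk0 b hb0 := inv_inv _
    refine ⟨⟨tx (Units.mk0 b hb0)⁻¹, (hmemT _).2 ⟨_, rfl⟩⟩, ?_, ?_⟩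
    · refine (key _).2 fun ξ => ?_
      rw [hbu, Units.val_mk0, sq, ← hb]
      exact hc ξ
    · rintro ⟨t, ht⟩ h
      obtain ⟨a, rfl⟩ := (hmemT t).1 ht
      have h3 := (key a).1 h
      have h4 : ((a⁻¹ : Fˣ) : F) ^ 2 = c := hcu _ h3
      have h5 : ((a⁻¹ : Fˣ) : F) = b := by
        rw [hb, ← sq] at h4
        exact frobenius_inj F 2 (by simpa [frobenius_def] using h4)
      have h6 : a = (Units.mk0 b hb0)⁻¹ := by
        rw [← _root_.inv_inj, inv_inv]
        exact Units.ext h5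
      exact Subtype.ext (congrArg tx h6)
  · intro u hu
    obtain ⟨x, rfl⟩ := (hmemU u).1 hu
    have : ux x ^ 4 = (ux x * ux x) ^ 2 := by rw [← sq, ← pow_mul]
    rw [this, huu, one_pow]

/-- the isomorphism with the image -/
def P39_aux.sm {S S' : Type u} [Group S] [Group S'] (e : S ≃* S') (U : Subgroup S) :
    U ≃* U.map e.toMonoidHom := e.subgroupMap U

theorem rankOne_congr {S S' : Type u} [Group S] [Group S'] (e : S ≃* S') {U T : Subgroup S}
    {w : S} (h : RankOne U T w) :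
    RankOne (U.map e.toMonoidHom) (T.map e.toMonoidHom) (e w) := by
  obtain ⟨h1, h2, h3, h4, h5, h6, h7, h8, h9, h10⟩ := h
  refine ⟨?_, ?_, ?_, ?_, ?_, ?_, ?_, ?_, ?_, ?_⟩
  · obtain ⟨k, hk⟩ := h1
    exact ⟨k, by rw [← Nat.card_congr (sm e U).toEquiv, hk]⟩
  · intro h
    apply h2
    rw [eq_bot_iff]
    intro u hu
    have h11 : e u ∈ U.map e.toMonoidHom := ⟨u, hu, rfl⟩
    rw [h, Subgroup.mem_bot] at h11
    rw [Subgroup.mem_bot]
    exact e.injective (h11.trans (map_one e).symm)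
  · rw [← Nat.card_congr (sm e T).toEquiv]
    exact h3
  · rintro _ ⟨t, ht, rfl⟩ _ ⟨u, hu, rfl⟩
    exact ⟨t * u * t⁻¹, h4 t ht u hu, by simp⟩
  · intro g
    rcases h5 (e.symm g) with ⟨u, hu, t, ht, hg⟩ | ⟨u, hu, t, ht, u', hu', hg⟩
    · exact Or.inl ⟨e u, ⟨u, hu, rfl⟩, e t, ⟨t, ht, rfl⟩, by
        rw [← map_mul, ← hg, MulEquiv.apply_symm_apply]⟩
    · exact Or.inr ⟨e u, ⟨u, hu, rfl⟩, e t, ⟨t, ht, rfl⟩, e u', ⟨u', hu', rfl⟩, by
        rw [← map_mul, ← map_mul, ← map_mul, ← hg, MulEquiv.apply_symm_apply]⟩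
  · rw [← map_mul, h6, map_one]
  · rintro _ ⟨t, ht, rfl⟩
    show e w * e t * e w = (e t)⁻¹
    rw [← map_mul, ← map_mul, h7 t ht, map_inv]
  · rintro _ ⟨u, hu, rfl⟩ _ ⟨u', hu', rfl⟩ _ ⟨t, ht, rfl⟩ h
    have h' : e u = e w * (e u' * e t) * e w := h
    rw [← map_mul, ← map_mul, ← map_mul] at h'
    show e u = 1
    rw [h8 u hu u' hu' t ht (e.injective h'), map_one]
  · intro x
    obtain ⟨y, rfl⟩ := (sm e U).surjective x
    have h11 := Subgroup.mem_map_of_mem (sm e U).toMonoidHom (h9 y)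
    rw [commutator_def, Subgroup.map_commutator] at h11
    have h12 : (sm e U) y * (sm e U) y = (sm e U).toMonoidHom (y * y) :=
      (map_mul (sm e U) y y).symm
    rw [h12, commutator_def]
    exact Subgroup.commutator_mono le_top le_top h11
  · intro lam mu hlam hmu
    have hne : ∀ nu : U.map e.toMonoidHom →* ℤˣ, nu ≠ 1 →
        nu.comp (sm e U).toMonoidHom ≠ 1 := by
      intro nu hnu h
      apply hnu
      ext x
      obtain ⟨y, rfl⟩ := (sm e U).surjective x
      have h11 := congrArg (fun f : U →* ℤˣ => f y) h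
      have h12 : nu ((sm e U) y) = 1 := h11
      rw [h12]
      rfl
    obtain ⟨t, ht, htu⟩ := h10 _ _ (hne lam hlam) (hne mu hmu)
    have hval : ∀ y : U, (((sm e U) y : U.map e.toMonoidHom) : S') = e y := fun y => rfl
    refine ⟨⟨e t, ⟨t, t.2, rfl⟩⟩, ?_, ?_⟩
    · intro x y hxy
      obtain ⟨x, rfl⟩ := (sm e U).surjective x
      obtain ⟨y, rfl⟩ := (sm e U).surjective y
      refine ht x y ?_
      apply e.injective
      rw [map_mul, map_mul, map_inv, ← hval, ← hval]
      exact hxy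
    · rintro ⟨_, ⟨t', ht', rfl⟩⟩ h
      have h13 := htu ⟨t', ht'⟩ (by
        intro x y hxy
        refine h ((sm e U) x) ((sm e U) y) ?_
        rw [hval, hval, hxy, map_mul, map_mul, map_inv]
        rfl)
      apply Subtype.ext
      show e t' = e t
      rw [← h13]

namespace P39_aux

/-- pull back -/
def pl {G G' : Type} [Group G] [Group G'] {V : Type v} [AddCommGroup V] [Module Ω V]
    (f : G →* G') (ρ : Representation Ω G' V) : Representation Ω G V := MonoidHom.comp ρ f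

/-- in characteristic two the center is trivial -/
theorem center_bot (h2 : (2 : F) = 0) :
    Subgroup.center (SpecialLinearGroup (Fin 2) F) = ⊥ := by
  have : CharP F 2 := CharTwo.of_one_ne_zero_of_two_eq_zero one_ne_zero h2
  rw [eq_bot_iff]
  intro g hg
  rw [Matrix.SpecialLinearGroup.mem_center_iff] at hg
  obtain ⟨r, hr, hrg⟩ := hg
  rw [Fintype.card_fin] at hr
  have h1 : r = 1 := by
    have h3 : (r - 1) ^ 2 = 0 := by
      have h4 : (r - 1) ^ 2 = r ^ 2 + 1 - 2 * r := by ring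
      rw [h4, hr, h2, zero_mul, sub_zero, ← two_mul, h2, zero_mul]
    have := pow_eq_zero_iff (two_ne_zero) |>.1 h3
    exact sub_eq_zero.1 this
  rw [Subgroup.mem_bot]
  apply Subtype.ext
  rw [← hrg, h1]
  simp

/-- the projective group in characteristic two -/
def pslEquiv (h2 : (2 : F) = 0) :
    SpecialLinearGroup (Fin 2) F ≃* ProjectiveSpecialLinearGroup (Fin 2) F :=
  (QuotientGroup.quotientBot.symm.trans
    (QuotientGroup.quotientMulEquivOfEq (center_bot h2).symm) :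
      SpecialLinearGroup (Fin 2) F ≃* SpecialLinearGroup (Fin 2) F ⧸ Subgroup.center _)

theorem pull_neg {V : Type v} [AddCommGroup V] [Module Ω V]
    (ρ : Representation Ω (ProjectiveSpecialLinearGroup (Fin 2) F) V) :
    pl (QuotientGroup.mk' (Subgroup.center (SpecialLinearGroup (Fin 2) F))) ρ (-1) = 1 := by
  have h : QuotientGroup.mk' (Subgroup.center (SpecialLinearGroup (Fin 2) F)) (-1) = 1 := by
    rw [QuotientGroup.mk'_apply, QuotientGroup.eq_one_iff, Subgroup.mem_center_iff]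
    intro g
    rw [mul_neg, neg_mul, mul_one, one_mul]
  show ρ (QuotientGroup.mk' (Subgroup.center (SpecialLinearGroup (Fin 2) F)) (-1)) = 1
  rw [h, map_one]

end P39_aux

namespace P39_aux

section

variable {G G' : Type} [Group G] [Finite G] [Group G'] [Finite G'] {V : Type v} [AddCommGroup V]
  [Module Ω V] [FiniteDimensional Ω V]

theorem irr_comp (f : G →* G') (hf : Function.Surjective f) {ρ : Representation Ω G' V}
    (h : ρ.IsIrreducible) : (pl f ρ).IsIrreducible := by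
  refine irr_of_sub (irr_pos h) fun U hU => irr_sub h fun g x hx => ?_
  obtain ⟨g, rfl⟩ := hf g
  exact hU g x hx

theorem orth_comp (f : G →* G') {ρ : Representation Ω G' V} (h : Orth ρ) :
    Orth (pl f ρ) := by
  obtain ⟨B, h1, h2, h3⟩ := h
  exact ⟨B, h1, h2, fun g x y => h3 (f g) x y⟩

theorem good_comp (f : G →* G') (hf : Function.Surjective f) {ρ : Representation Ω G' V}
    {Γ : Subgroup (RingAut Ω)}
    (h : GoodV c Γ (pl f ρ)) : GoodV c Γ ρ := by
  obtain ⟨B, ⟨h1, h2, h3⟩, T, ⟨s, hs, hT⟩, h4, h5, h6⟩ := h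
  refine ⟨B, ⟨h1, h2, fun g x y => ?_⟩, T, ⟨push f s, push_fx f hs, ?_⟩, h4, h5, h6⟩
  · obtain ⟨g, rfl⟩ := hf g
    exact h3 g x y
  · rw [← act_push]
    exact hT

end

end P39_aux

theorem psl2_propA (F : Type) [Field F] [Finite F] (c : Ctx Ω) :
    PropA c 1 (ProjectiveSpecialLinearGroup (Fin 2) F) := by
  classical
  have := Fintype.ofFinite F
  by_cases h2 : (2 : F) = 0
  · obtain ⟨U, T, hR, h4⟩ := rankOne_sl2 h2
    exact propA_congr (pslEquiv h2) hR.propA
  · refine propA_of_good fun Γ hΓ n ρ hρ hn hO hF => ?_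
    have hsurj : Function.Surjective (QuotientGroup.mk' (Subgroup.center
        (SpecialLinearGroup (Fin 2) F))) := QuotientGroup.mk'_surjective _
    have hg := good_sl2_odd (V := Fin n → Ω) h2 hΓ (irr_comp _ hsurj hρ) (pull_neg ρ)
      (by rwa [Module.finrank_fin_fun]) (orth_comp _ hO) (fun g => hF _)
    exact good_comp _ hsurj hg

theorem psl2_propB (F : Type) [Field F] [Finite F] (c : Ctx Ω) :
    PropB c 1 (ProjectiveSpecialLinearGroup (Fin 2) F) := by
  classical
  have := Fintype.ofFinite F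
  by_cases h2 : (2 : F) = 0
  · obtain ⟨U, T, hR, h4⟩ := rankOne_sl2 h2
    exact propB_congr (pslEquiv h2) (hR.propB h4)
  · intro Γ hΓ n ρ hρ hn hγ d hd hσ
    have hsurj : Function.Surjective (QuotientGroup.mk' (Subgroup.center
        (SpecialLinearGroup (Fin 2) F))) := QuotientGroup.mk'_surjective _
    refine propB_sl2_odd (V := Fin n → Ω) h2 hΓ (irr_comp _ hsurj hρ) (pull_neg ρ)
      (by rwa [Module.finrank_fin_fun]) ?_ hd ?_
    · obtain ⟨γ, hγ1, hγ2⟩ := hγ
      exact ⟨γ, hγ1, fun g => hγ2 _⟩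
    · intro σ hσΓ
      rw [hσ σ hσΓ]
      have h3 : Fixes σ ρ ↔ Fixes σ (pl (QuotientGroup.mk' (Subgroup.center
          (SpecialLinearGroup (Fin 2) F))) ρ) := by
        constructor
        · intro h g
          exact h _
        · intro h g
          obtain ⟨g, rfl⟩ := hsurj g
          exact h g
      by_cases h4 : Fixes σ ρ
      · rw [if_pos h4, if_pos (h3.1 h4)]
      · rw [if_neg h4, if_neg fun h => h4 (h3.2 h)]

end

end Parker
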