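import Pool.Agent.Parker.P29
import Pool.Agent.Parker.P39
import Pool.Agent.Parker.P46

/-!
# MP_6c3636_al, module P50: assembly (helper7)
-/

namespace Parker

open Matrix

/-- reduction theorem -/
theorem parker_reduction (G : Type) [Group G] [Finite G]
    (h : OnSimple (fun S _ _ => PropA ctx2 1 S ∧ PropB ctx2 1 S) G) : ParkerOdd G := by
  obtain ⟨hA, hB⟩ := main_reduction G h
  exact parker_of_AB hA hB

/-- groups all of whose nonabelian simple sections are `PSL_2(q)` -/
theorem parker_psl2 (G : Type) [Group G] [Finite G]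
    (h : OnSimple (fun S _ _ => ∃ (F : Type) (_ : Field F) (_ : Finite F),
      Nonempty (S ≃* ProjectiveSpecialLinearGroup (Fin 2) F)) G) : ParkerOdd G := by
  apply parker_reduction G
  intro H N hN hs hn
  obtain ⟨F, hF, hFin, ⟨e⟩⟩ := h H N hs hn
  exact ⟨propA_congr e.symm (psl2_propA F ctx2), propB_congr e.symm (psl2_propB F ctx2)⟩

end Parker
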