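import Pool.Agent.Parker.Defs
import Pool.Agent.Parker.P01
import Pool.Agent.Parker.P02

/-!
# MP_6c3636_al, module N02: reduction modulo the maximal ideal of the valuation ring (helper7)
-/

namespace Parker

universe u

noncomputable section

variable {Ω : Type} [Field Ω]

/-- the valuation ring `{x : av x ≤ 1}` -/
def vr (c : Ctx Ω) : ValuationSubring Ω where
  carrier := {x | c.av x ≤ 1}
  zero_mem' := by simp
  one_mem' := by simp
  add_mem' := by
    intro a b ha hb
    exact (c.na a b).trans (max_le ha hb)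
  neg_mem' := by
    intro a ha
    simpa using ha
  mul_mem' := by
    intro a b ha hb
    simp only [Set.mem_setOf_eq, map_mul] at ha hb ⊢
    exact mul_le_one₀ ha (c.av.nonneg b) hb
  mem_or_inv_mem' := by
    intro x
    simp only [Set.mem_setOf_eq, map_inv₀]
    by_cases h : c.av x ≤ 1
    · exact Or.inl h
    · right
      push Not at h
      exact inv_le_one_of_one_le₀ h.le

/-- the residue field -/
abbrev rf (c : Ctx Ω) : Type := IsLocalRing.ResidueField (vr c)

theorem mem_vr {c : Ctx Ω} {x : Ω} : x ∈ vr c ↔ c.av x ≤ 1 := Iff.rfl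

/-- an element of the valuation ring has residue `0` exactly if its absolute value is less than
one -/
theorem residue_eq_zero {c : Ctx Ω} (x : vr c) :
    IsLocalRing.residue (vr c) x = 0 ↔ c.av (x : Ω) < 1 := by
  rw [IsLocalRing.residue_eq_zero_iff, IsLocalRing.mem_maximalIdeal, mem_nonunits_iff]
  constructor
  · intro h
    by_contra hne
    push Not at hne
    apply h
    have hx0 : (x : Ω) ≠ 0 := by
      intro h0
      rw [h0, map_zero] at hne
      linarith
    have hinv : ((x : Ω)⁻¹) ∈ vr c := by
      rw [mem_vr, map_inv₀]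
      exact inv_le_one_of_one_le₀ hne
    refine IsUnit.of_mul_eq_one ⟨(x : Ω)⁻¹, hinv⟩ ?_
    apply Subtype.ext
    change (x : Ω) * (x : Ω)⁻¹ = 1
    exact mul_inv_cancel₀ hx0
  · intro h hu
    obtain ⟨y, hy⟩ := isUnit_iff_exists_inv.1 hu
    have h1 : (x : Ω) * (y : Ω) = 1 := by
      have := congrArg (fun z : vr c => (z : Ω)) hy
      exact this
    have h2 : c.av (x : Ω) * c.av (y : Ω) = 1 := by rw [← map_mul, h1, map_one]
    have h3 := mem_vr.1 y.2
    have h4 := c.av.nonneg (x : Ω)
    have h5 := c.av.nonneg (y : Ω)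
    nlinarith

theorem residue_ne_zero {c : Ctx Ω} (x : vr c) :
    IsLocalRing.residue (vr c) x ≠ 0 ↔ c.av (x : Ω) = 1 := by
  rw [Ne, residue_eq_zero]
  have := mem_vr.1 x.2
  constructor
  · intro h
    exact le_antisymm this (not_lt.1 h)
  · intro h
    rw [h]
    exact lt_irrefl 1

/-- the residue field has characteristic two -/
theorem rf_two {c : Ctx Ω} (h2 : c.av 2 < 1) : (2 : rf c) = 0 := by
  have h : IsLocalRing.residue (vr c) 2 = 0 := by
    rw [residue_eq_zero]
    exact h2
  rw [← h, map_ofNat]

/-- the residue field is algebraically closed (lift a monic polynomial; its roots are integral and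
lie in the valuation ring, which is integrally closed) -/
theorem rf_algClosed [IsAlgClosed Ω] (c : Ctx Ω) : IsAlgClosed (rf c) := by
  refine IsAlgClosed.of_exists_root _ fun p hp hirr => ?_
  have hl : p ∈ Polynomial.lifts (IsLocalRing.residue (vr c)) := by
    rw [Polynomial.mem_lifts]
    exact Polynomial.map_surjective _ IsLocalRing.residue_surjective p
  obtain ⟨q, hq1, hq2, hq3⟩ := Polynomial.lifts_and_natDegree_eq_and_monic hl hp
  have hdeg : (q.map (algebraMap (vr c) Ω)).degree ≠ 0 := by
    rw [hq3.degree_map, Polynomial.degree_eq_natDegree hq3.ne_zero, hq2]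
    have := hirr.natDegree_pos
    exact_mod_cast this.ne'
  obtain ⟨α, hα⟩ := IsAlgClosed.exists_root _ hdeg
  have hα' : Polynomial.eval₂ (algebraMap (vr c) Ω) α q = 0 := by
    rw [Polynomial.IsRoot, Polynomial.eval_map] at hα
    exact hα
  have hint : IsIntegral (vr c) α := ⟨q, hq3, hα'⟩
  obtain ⟨β, hβ⟩ := IsIntegrallyClosed.isIntegral_iff.1 hint
  refine ⟨IsLocalRing.residue (vr c) β, ?_⟩
  have h1 : Polynomial.eval β q = 0 := by
    have h2 : algebraMap (vr c) Ω (Polynomial.eval β q) = 0 := by
      rw [← Polynomial.eval₂_at_apply, hβ]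
      exact hα'
    exact (map_eq_zero_iff _ (IsFractionRing.injective (vr c) Ω)).1 h2
  rw [← hq1, Polynomial.eval_map, Polynomial.eval₂_at_apply, h1, map_zero]

/-- distinct roots of unity of odd order have distinct residues, so that there are infinitely many
residues of roots of unity of odd order (`av_sub_root`) -/
theorem rf_infinite [IsAlgClosed Ω] [CharZero Ω] (c : Ctx Ω) :
    {a : rf c | ∃ x : vr c, (∃ r : ℕ, Odd r ∧ (x : Ω) ^ r = 1) ∧
      IsLocalRing.residue (vr c) x = a}.Infinite := by
  have hex : ∀ k : ℕ, ∃ x : vr c, IsPrimitiveRoot (x : Ω) (3 ^ k) := by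
    intro k
    have : NeZero (3 ^ k) := ⟨by positivity⟩
    obtain ⟨ζ, hζ⟩ := HasEnoughRootsOfUnity.exists_primitiveRoot Ω (3 ^ k)
    have h1 : c.av ζ = 1 := av_root c (by positivity) hζ.pow_eq_one
    exact ⟨⟨ζ, mem_vr.2 h1.le⟩, hζ⟩
  choose x hx using hex
  refine Set.infinite_of_injective_forall_mem (f := fun k => IsLocalRing.residue (vr c) (x k))
    ?_ fun k => ⟨x k, ⟨3 ^ k, Odd.pow (by decide), (hx k).pow_eq_one⟩, rfl⟩
  intro k l hkl
  by_contra hne
  have hkl' : IsLocalRing.residue (vr c) (x k) = IsLocalRing.residue (vr c) (x l) := hkl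
  have h1 : IsLocalRing.residue (vr c) (x k - x l) = 0 := by rw [map_sub, hkl', sub_self]
  rw [residue_eq_zero] at h1
  have h2 : (x k : Ω) ≠ x l := by
    intro h3
    have h4 := (hx k).eq_orderOf
    have h5 := (hx l).eq_orderOf
    rw [h3, ← h5] at h4
    exact hne (Nat.pow_right_injective (le_refl 2 |>.trans (by norm_num)) h4)
  have h3 : c.av ((x k : Ω) - x l) = 1 := by
    refine av_sub_root c (r := 3 ^ (k + l)) (Odd.pow (by decide)) ?_ ?_ h2
    · rw [pow_add, pow_mul, (hx k).pow_eq_one, one_pow]
    · rw [pow_add, mul_comm, pow_mul, (hx l).pow_eq_one, one_pow]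
  have h4 : c.av ((x k - x l : vr c) : Ω) = c.av ((x k : Ω) - x l) := rfl
  rw [h4, h3] at h1
  exact lt_irrefl 1 h1

private theorem N02_basis (c : Ctx Ω) {n : ℕ} (L : Submodule (vr c) (Fin n → Ω))
    (hfg : L.FG) (he : ∀ i : Fin n, Pi.single i (1 : Ω) ∈ L) :
    ∃ (b : Module.Basis (Fin n) (vr c) L) (B : Module.Basis (Fin n) Ω (Fin n → Ω)),
      ∀ i, B i = (b i : Fin n → Ω) := by
  classical
  have : Module.Finite (vr c) L := Module.Finite.iff_fg.2 hfg
  have hTF : Module.IsTorsionFree (vr c) (Fin n → Ω) := by infer_instance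
  have : Module.IsTorsionFree (vr c) L := by infer_instance
  have : Module.Flat (vr c) L := by
    rw [Module.Flat.flat_iff_torsion_eq_bot_of_isBezout,
      ← Submodule.isTorsionFree_iff_torsion_eq_bot]
    infer_instance
  have : Module.Free (vr c) L := Module.free_of_flat_of_isLocalRing
  obtain ⟨m, ⟨b⟩⟩ : ∃ m : ℕ, Nonempty (Module.Basis (Fin m) (vr c) L) :=
    ⟨_, ⟨Module.finBasis (vr c) L⟩⟩
  have hli : LinearIndependent (vr c) (fun i => (b i : Fin n → Ω)) := by
    have h := b.linearIndependent
    exact h.map' L.subtype (Submodule.ker_subtype L)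
  have hli' : LinearIndependent Ω (fun i => (b i : Fin n → Ω)) :=
    (LinearIndependent.iff_fractionRing (vr c) Ω).1 hli
  have hspan : ⊤ ≤ Submodule.span Ω (Set.range fun i => (b i : Fin n → Ω)) := by
    have h1 : ∀ x : L, (x : Fin n → Ω) ∈ Submodule.span Ω (Set.range fun i =>
        (b i : Fin n → Ω)) := by
      intro x
      have h2 := b.sum_repr x
      have h3 : (x : Fin n → Ω) = ∑ i, (b.repr x i) • (b i : Fin n → Ω) := by
        have h4 := congrArg L.subtype h2
        rw [map_sum] at h4
        exact h4.symm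
      rw [h3]
      refine Submodule.sum_mem _ fun i _ => ?_
      have h4 : (b.repr x i) • (b i : Fin n → Ω) = ((b.repr x i : vr c) : Ω) •
          (b i : Fin n → Ω) := rfl
      rw [h4]
      exact Submodule.smul_mem _ _ (Submodule.subset_span ⟨i, rfl⟩)
    intro v _
    have h5 : v = ∑ i, v i • (Pi.single i (1 : Ω) : Fin n → Ω) := by
      funext j
      simp [Finset.sum_apply, Pi.single_apply]
    rw [h5]
    exact Submodule.sum_mem _ fun i _ => Submodule.smul_mem _ _ (h1 ⟨_, he i⟩)
  have hm : m = n := by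
    have h1 := Module.finrank_eq_card_basis (Module.Basis.mk hli' hspan)
    rw [Module.finrank_fin_fun, Fintype.card_fin] at h1
    exact h1.symm
  subst hm
  exact ⟨b, Module.Basis.mk hli' hspan, fun i => by rw [Module.Basis.mk_apply]⟩

/-- Reduction of a representation. The `vr c`-span `L` of the images `ρ g e_i` of the standard
basis is a finitely generated torsion free module over the valuation ring `vr c`, hence free
(torsion free over a Bezout domain is flat, `Module.Flat.flat_iff_torsion_eq_bot_of_isBezout`;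
finite flat over a local ring is free, `Module.free_of_flat_of_isLocalRing`), and a basis of it is a
basis of `Ω^n` (rank `n`). In this basis the `ρ g` have entries in `vr c`; reduce them. The
determinant of `∑ y_g ρ(g)`, `y_g ∈ vr c`, reduces to the determinant of the reduction. -/
theorem exists_reduction (c : Ctx Ω) {G : Type u} [Group G] [Finite G] {n : ℕ}
    (ρ : Representation Ω G (Fin n → Ω)) :
    ∃ ρ' : Representation (rf c) G (Fin n → rf c), ∀ y : G → vr c, ∃ D : vr c,
      (D : Ω) = LinearMap.det (act ρ (fun g => (y g : Ω))) ∧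
      IsLocalRing.residue (vr c) D =
        LinearMap.det (act ρ' (fun g => IsLocalRing.residue (vr c) (y g))) := by
  classical
  let _ := Fintype.ofFinite G
  let S : Set (Fin n → Ω) := Set.range (fun u : G × Fin n => ρ u.1 (Pi.single u.2 (1 : Ω)))
  let L : Submodule (vr c) (Fin n → Ω) := Submodule.span (vr c) S
  have hfg : L.FG := Submodule.fg_span (Set.finite_range _)
  have he : ∀ i : Fin n, Pi.single i (1 : Ω) ∈ L := fun i =>
    Submodule.subset_span ⟨(1, i), by simp⟩
  obtain ⟨b, B, hbB⟩ := N02_basis c L hfg he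
  have hstab : ∀ (g : G) (x : Fin n → Ω), x ∈ L → ρ g x ∈ L := by
    intro g x hx
    have h1 : L ≤ L.comap ((ρ g).restrictScalars (vr c)) := by
      refine Submodule.span_le.2 ?_
      rintro _ ⟨u, rfl⟩
      change ρ g (ρ u.1 (Pi.single u.2 (1 : Ω))) ∈ L
      refine Submodule.subset_span ⟨(g * u.1, u.2), ?_⟩
      simp
    exact h1 hx
  have hrepr : ∀ (x : L) (i : Fin n), B.repr (x : Fin n → Ω) i = ((b.repr x i : vr c) : Ω) := by
    intro x i
    have h2 := b.sum_repr x
    have h3 : (x : Fin n → Ω) = ∑ i, ((b.repr x i : vr c) : Ω) • B i := by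
      conv_lhs => rw [← h2]
      rw [Submodule.coe_sum]
      refine Finset.sum_congr rfl fun i _ => ?_
      rw [hbB]
      rfl
    rw [h3, B.repr_sum_self]
  let M : G → Matrix (Fin n) (Fin n) (vr c) := fun g i j => b.repr ⟨ρ g (b j), hstab g _ (b j).2⟩ i
  have hM : ∀ g, (algebraMap (vr c) Ω).mapMatrix (M g) = LinearMap.toMatrix B B (ρ g) := by
    intro g
    ext i j
    rw [RingHom.mapMatrix_apply, Matrix.map_apply, LinearMap.toMatrix_apply, hbB,
      hrepr ⟨ρ g (b j), hstab g _ (b j).2⟩ i]
    rfl
  have hinj : ∀ A A' : Matrix (Fin n) (Fin n) (vr c), (algebraMap (vr c) Ω).mapMatrix A =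
      (algebraMap (vr c) Ω).mapMatrix A' → A = A' := by
    intro A A' h
    ext i j
    exact congrFun (congrFun h i) j
  have hM1 : M 1 = 1 := by
    apply hinj
    rw [hM, map_one ρ, LinearMap.toMatrix_one, map_one]
  have hMm : ∀ g h, M (g * h) = M g * M h := by
    intro g h
    apply hinj
    rw [hM, map_mul ρ, LinearMap.toMatrix_mul, map_mul, hM, hM]
  let ρ' : Representation (rf c) G (Fin n → rf c) :=
    { toFun := fun g => Matrix.toLin' ((IsLocalRing.residue (vr c)).mapMatrix (M g))
      map_one' := by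
        rw [hM1, map_one]
        exact Matrix.toLin'_one
      map_mul' := by
        intro g h
        rw [hMm, map_mul]
        exact Matrix.toLin'_mul _ _ }
  refine ⟨ρ', fun y => ⟨(∑ g, y g • M g).det, ?_, ?_⟩⟩
  · change algebraMap (vr c) Ω (∑ g, y g • M g).det = _
    rw [RingHom.map_det, ← LinearMap.det_toMatrix B, act_eq, map_sum, map_sum]
    congr 1
    refine Finset.sum_congr rfl fun g _ => ?_
    rw [LinearEquiv.map_smul, ← hM g]
    ext i j
    rw [RingHom.mapMatrix_apply, Matrix.map_apply, Matrix.smul_apply, Matrix.smul_apply,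
      RingHom.mapMatrix_apply, Matrix.map_apply, smul_eq_mul, smul_eq_mul, map_mul]
    rfl
  · rw [RingHom.map_det, act_eq, map_sum]
    have h2 : (∑ g, IsLocalRing.residue (vr c) (y g) • ρ' g) = Matrix.toLin'
        (∑ g, (IsLocalRing.residue (vr c)).mapMatrix (y g • M g)) := by
      rw [map_sum]
      refine Finset.sum_congr rfl fun g _ => ?_
      have h3 : (IsLocalRing.residue (vr c)).mapMatrix (y g • M g) =
          IsLocalRing.residue (vr c) (y g) • (IsLocalRing.residue (vr c)).mapMatrix (M g) := by
        ext i j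
        simp
      rw [h3, LinearEquiv.map_smul]
      rfl
    rw [h2, LinearMap.det_toLin']

end

end Parker
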