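import Pool.Agent.Parker.Defs
import Pool.Agent.Parker.P01
import Pool.Agent.Parker.P02
import Pool.Agent.Parker.P06
import Pool.Agent.Parker.P08
import Pool.Agent.Parker.P11
import Pool.Agent.Parker.P45

/-!
# MP_6c3636_al, module R01: (A) and (B) in terms of the fields `ℚ_2(ψ)` (helper7)
-/

namespace Parker

universe u

noncomputable section

/-- the field `ℚ_2(ψ)` generated by the values of the character of `ρ` -/
def chf {S : Type u} [Group S] {n : ℕ}
    (ρ : Representation (PadicAlgCl 2) S (Fin n → PadicAlgCl 2)) :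
    IntermediateField ℚ_[2] (PadicAlgCl 2) :=
  IntermediateField.adjoin ℚ_[2] (Set.range ρ.character)

/-- the local form of the conjecture for the irreducible orthogonal characters of even degree -/
def LocA (S : Type u) [Group S] [Finite S] : Prop :=
  ∀ (n : ℕ) (ρ : Representation (PadicAlgCl 2) S (Fin n → PadicAlgCl 2)), ρ.IsIrreducible →
    Even n → Orth ρ → ∀ s : S → ℚ, (∀ g, s g⁻¹ = - s g) →
      LinearMap.det (act ρ (fun g => (s g : PadicAlgCl 2))) ≠ 0 →
      ∃ x ∈ chf ρ, ‖LinearMap.det (act ρ (fun g => (s g : PadicAlgCl 2)))‖ = ‖x‖ ^ 2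

/-- the condition on the fields of values of the irreducible characters of odd degree -/
def LocB (S : Type u) [Group S] [Finite S] : Prop :=
  ∀ (n : ℕ) (ρ : Representation (PadicAlgCl 2) S (Fin n → PadicAlgCl 2)), ρ.IsIrreducible →
    Odd n → ∀ γ : PadicAlgCl 2 ≃ₐ[ℚ_[2]] PadicAlgCl 2,
      (∃ g, γ (ρ.character g) ≠ ρ.character g) → (∀ g, γ (γ (ρ.character g)) = ρ.character g) →
      ((∀ g, ρ.character g⁻¹ = ρ.character g) ∨ ∀ g, ρ.character g⁻¹ = γ (ρ.character g)) →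
      ∃ d ∈ chf ρ, γ d = - d ∧ ‖d‖ = 1

/-- norm preserving automorphisms fix `ℚ_2` -/
theorem fix_of_pres {σ : RingAut (PadicAlgCl 2)} (h : ∀ x, ctx2.av (σ x) = ctx2.av x)
    (x : ℚ_[2]) : σ (algebraMap ℚ_[2] (PadicAlgCl 2) x) = algebraMap _ _ x := by
  have key : ∀ ε : ℝ, 0 < ε →
      ‖σ (algebraMap ℚ_[2] (PadicAlgCl 2) x) - algebraMap _ _ x‖ ≤ ε := by
    intro ε hε
    obtain ⟨r, hr⟩ := Padic.rat_dense 2 x hε
    have h1 : σ (algebraMap ℚ_[2] (PadicAlgCl 2) (r : ℚ_[2])) = algebraMap _ _ (r : ℚ_[2]) := by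
      rw [map_ratCast, map_ratCast]
    have h2 : ‖algebraMap ℚ_[2] (PadicAlgCl 2) (x - (r : ℚ_[2]))‖ ≤ ε := by
      rw [show ‖algebraMap ℚ_[2] (PadicAlgCl 2) (x - (r : ℚ_[2]))‖ = ‖x - (r : ℚ_[2])‖ from
        PadicAlgCl.norm_extends 2 _]
      exact hr.le
    have h3 : ‖σ (algebraMap ℚ_[2] (PadicAlgCl 2) (x - (r : ℚ_[2])))‖ ≤ ε := by
      have := h (algebraMap ℚ_[2] (PadicAlgCl 2) (x - (r : ℚ_[2])))
      rw [ctx2_av, ctx2_av] at this
      rw [this]
      exact h2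
    have h4 : σ (algebraMap ℚ_[2] (PadicAlgCl 2) x) - algebraMap _ _ x =
        σ (algebraMap ℚ_[2] (PadicAlgCl 2) (x - (r : ℚ_[2]))) -
          algebraMap ℚ_[2] (PadicAlgCl 2) (x - (r : ℚ_[2])) := by
      rw [map_sub, map_sub, h1]
      ring
    rw [h4]
    have h5 := PadicAlgCl.isNonarchimedean 2
      (σ (algebraMap ℚ_[2] (PadicAlgCl 2) (x - (r : ℚ_[2]))))
      (-(algebraMap ℚ_[2] (PadicAlgCl 2) (x - (r : ℚ_[2]))))
    rw [← sub_eq_add_neg, norm_neg] at h5
    exact h5.trans (max_le h3 h2)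
  have h0 : ‖σ (algebraMap ℚ_[2] (PadicAlgCl 2) x) - algebraMap _ _ x‖ ≤ 0 :=
    le_of_forall_pos_le_add (by simpa using key)
  exact sub_eq_zero.1 (norm_le_zero_iff.1 h0)

/-- a norm preserving automorphism as an automorphism over `ℚ_2` -/
def toAlg {σ : RingAut (PadicAlgCl 2)} (h : ∀ x, ctx2.av (σ x) = ctx2.av x) :
    PadicAlgCl 2 ≃ₐ[ℚ_[2]] PadicAlgCl 2 :=
  AlgEquiv.ofRingEquiv (f := σ) (fix_of_pres h)

theorem toAlg_apply {σ : RingAut (PadicAlgCl 2)} (h : ∀ x, ctx2.av (σ x) = ctx2.av x)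
    (x : PadicAlgCl 2) : toAlg h x = σ x := rfl

/-- automorphisms fixing the character fix its field -/
theorem fix_chf {S : Type u} [Group S] {n : ℕ}
    {ρ : Representation (PadicAlgCl 2) S (Fin n → PadicAlgCl 2)} {σ : RingAut (PadicAlgCl 2)}
    (h : ∀ x, ctx2.av (σ x) = ctx2.av x) (hf : Fixes σ ρ) {x : PadicAlgCl 2} (hx : x ∈ chf ρ) :
    σ x = x := by
  have h1 : chf ρ ≤ IntermediateField.fixedField (Subgroup.zpowers (toAlg h)) := by
    rw [chf, IntermediateField.adjoin_le_iff]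
    rintro _ ⟨g, rfl⟩
    rw [SetLike.mem_coe, IntermediateField.mem_fixedField_iff]
    intro f hf'
    obtain ⟨k, rfl⟩ := Subgroup.mem_zpowers_iff.1 hf'
    have h2 : toAlg h (ρ.character g) = ρ.character g := hf g
    have h3 : ∀ k : ℕ, (toAlg h ^ k) (ρ.character g) = ρ.character g := by
      intro k
      induction k with
      | zero => simp
      | succ k ih => rw [pow_succ, AlgEquiv.mul_apply, h2, ih]
    cases k with
    | ofNat k => simpa using h3 k
    | negSucc k =>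
      rw [zpow_negSucc]
      have h4 := h3 (k + 1)
      have h5 : (toAlg h ^ (k + 1))⁻¹ ((toAlg h ^ (k + 1)) (ρ.character g)) = ρ.character g :=
        AlgEquiv.symm_apply_apply _ _
      rwa [h4] at h5
  have h2 := h1 hx
  rw [IntermediateField.mem_fixedField_iff] at h2
  exact h2 (toAlg h) (Subgroup.mem_zpowers _)

/-- (A) from the local form of the conjecture -/
theorem locA_propA {S : Type u} [Group S] [Finite S] (h : LocA S) : PropA ctx2 1 S := by
  intro Γ hΓ n ρ hρ hn hO hF s hs hk hd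
  have hNo : NoOdd ρ := by
    intro W hW hodd _
    rcases irr_sub hρ (U := W.toSubmodule) (fun g x hx => W.apply_mem_toSubmodule g hx) with h1 | h1
    · have := irr_pos hW
      have h2 : Module.finrank (PadicAlgCl 2) W.toSubmodule = 0 := by
        rw [h1]
        exact finrank_bot _ _
      rw [h2] at hodd
      exact absurd hodd (by decide)
    · have h2 : Module.finrank (PadicAlgCl 2) W.toSubmodule = n := by
        rw [h1, finrank_top]
        simp
      rw [h2] at hodd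
      exact (Nat.not_even_iff_odd.2 hodd) hn
  obtain ⟨s₀, hs₀, hd₀⟩ := exists_skew_rat hNo
  obtain ⟨x, hx, hxn⟩ := h n ρ hρ hn hO s₀ hs₀ hd₀
  obtain ⟨B, hB⟩ := hO
  have hs₀' : ∀ g, ((s₀ g⁻¹ : ℚ) : PadicAlgCl 2) = - ((s₀ g : ℚ) : PadicAlgCl 2) := by
    intro g
    rw [hs₀ g]
    push_cast
    rfl
  have hx0 : x ≠ 0 := by
    rintro rfl
    rw [norm_zero] at hxn
    exact hd₀ (norm_eq_zero.1 (by rw [hxn]; norm_num))
  have hgood : GoodV ctx2 Γ ρ := by
    refine ⟨B, hB, act ρ (fun g => (s₀ g : PadicAlgCl 2)), ⟨_, fun g => fx_ratCast Γ _, rfl⟩,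
      skew_of_skew hB hs₀', hd₀, x, hx0, ?_, ?_⟩
    · intro σ hσ
      exact fix_chf (hΓ.pres σ hσ) (fun g => hF g σ hσ) hx
    · rw [ctx2_av, ctx2_av]
      exact hxn.symm
  exact sqV_of_good hρ hF hgood hs hk hd

/-- (B) from the condition on the fields of values -/
theorem locB_propB {S : Type u} [Group S] [Finite S] (h : LocB S) : PropB ctx2 1 S := by
  intro Γ hΓ n ρ hρ hn hγ d hd hσ
  by_cases hall : ∀ σ ∈ Γ, Fixes σ ρ
  · refine ⟨d, hd, fun σ hs => ?_, rfl⟩
    rw [hσ σ hs, if_pos (hall σ hs)]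
  push Not at hall
  obtain ⟨σ₀, hσ₀, hnf⟩ := hall
  have hd0 : σ₀ d = - d := by rw [hσ σ₀ hσ₀, if_neg hnf]
  have hne : ¬ (d = - d) := by
    intro h1
    exact hd (self_eq_neg.1 h1)
  -- elements of `Γ` which fix `d` fix the character
  have hfix : ∀ τ ∈ Γ, τ d = d → Fixes τ ρ := by
    intro τ hτ h1
    by_contra h2
    rw [hσ τ hτ, if_neg h2] at h1
    exact hne h1.symm
  have hsq : Fixes (σ₀ * σ₀) ρ := by
    apply hfix _ (mul_mem hσ₀ hσ₀)
    rw [RingAut.mul_apply, hd0, map_neg, hd0, neg_neg]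
  obtain ⟨γ, hγm, hγ⟩ := hγ
  have hdual : (∀ g, ρ.character g⁻¹ = ρ.character g) ∨
      ∀ g, ρ.character g⁻¹ = σ₀ (ρ.character g) := by
    by_cases h1 : Fixes γ ρ
    · left
      intro g
      rw [← hγ g, h1 g]
    · right
      intro g
      have h2 : Fixes (σ₀⁻¹ * γ) ρ := by
        apply hfix _ (mul_mem (inv_mem hσ₀) hγm)
        rw [RingAut.mul_apply, hσ γ hγm, if_neg h1, ← hd0]
        exact σ₀.symm_apply_apply d
      have h3 := h2 g
      rw [RingAut.mul_apply] at h3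
      rw [← hγ g]
      have h4 : σ₀ (σ₀⁻¹ (γ (ρ.character g))) = γ (ρ.character g) := σ₀.apply_symm_apply _
      rw [← h4, h3]
  obtain ⟨e, he, he1, he2⟩ := h n ρ hρ hn (toAlg (hΓ.pres σ₀ hσ₀))
    (by
      by_contra hcon
      push Not at hcon
      exact hnf fun g => hcon g)
    (fun g => hsq g)
    (by
      rcases hdual with h1 | h1
      · exact Or.inl h1
      · exact Or.inr h1)
  have he0 : e ≠ 0 := by
    rintro rfl
    rw [norm_zero] at he2
    exact zero_ne_one he2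
  have he1' : σ₀ e = - e := he1
  refine ⟨d / e, div_ne_zero hd he0, ?_, ?_⟩
  · intro τ hτ
    rw [map_div₀]
    by_cases h1 : Fixes τ ρ
    · rw [hσ τ hτ, if_pos h1, fix_chf (hΓ.pres τ hτ) h1 he]
    · have h2 : Fixes (σ₀⁻¹ * τ) ρ := by
        apply hfix _ (mul_mem (inv_mem hσ₀) hτ)
        rw [RingAut.mul_apply, hσ τ hτ, if_neg h1, ← hd0]
        exact σ₀.symm_apply_apply d
      have h3 := fix_chf (hΓ.pres _ (mul_mem (inv_mem hσ₀) hτ)) h2 he
      rw [RingAut.mul_apply] at h3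
      have h4 : σ₀ (σ₀⁻¹ (τ e)) = τ e := σ₀.apply_symm_apply _
      rw [h3, he1'] at h4
      rw [hσ τ hτ, if_neg h1, ← h4, neg_div_neg_eq]
  · rw [map_div₀]
    have : ctx2.av e = 1 := he2
    rw [this, div_one]

end

end Parker
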