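import Pool.Agent.Parker.Defs
import Pool.Agent.Parker.P01
import Pool.Agent.Parker.P02
import Pool.Agent.Parker.P05
import Pool.Agent.Parker.P08
import Pool.Agent.Parker.P09
import Pool.Agent.Parker.P12
import Pool.Agent.Parker.P13
import Pool.Agent.Parker.P19
import Pool.Agent.Parker.P20
import Pool.Agent.Parker.P27
import Pool.Agent.Parker.P29

/-!
# MP_6c3636_al, module Q01: (B) by restriction to a subgroup (helper7)
-/

namespace Parker

universe u v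

noncomputable section

variable {Ω : Type} [Field Ω] [IsAlgClosed Ω] [CharZero Ω] {G : Type u} [Group G] [Finite G]
  {V : Type v} [AddCommGroup V] [Module Ω V] [FiniteDimensional Ω V]
  {c : Ctx Ω} {m : ℕ} {Γ : Subgroup (RingAut Ω)}

namespace Q01_aux

open P27_aux

/-- the degree is invariant under `(σ, ε)` -/
theorem dg_stable {K : Type u} [Group K] [Finite K] {φ : K → Ω} (hφ : φ ∈ irr Ω K)
    (e : RingAut Ω × ℤˣ) : dg (fun n => e.1 (φ (n ^ ((e.2 : ℤˣ) : ℤ)))) = dg φ := by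
  have h1 := (dg_spec (irr_stable hφ e)).1
  have h2 := (dg_spec hφ).1
  rw [one_zpow, ← h2, map_natCast] at h1
  exact_mod_cast h1

/-- a constituent `θ` of `V|H` of odd degree, fixed by every `σ ∈ Γ` fixing `ψ` and with
`γ θ = θ*` for all `γ ∈ Γ` with `γ ψ = ψ*` -/
theorem exists_theta_res (H : Subgroup G) (hΓ : Ok c m Γ) (hm : m ≠ 0) (hG : Nat.card G ∣ m)
    {ρ : Representation Ω G V} (hodd : Odd (Module.finrank Ω V)) :
    ∃ θ ∈ irr Ω H, mul (rs H ρ).character θ ≠ 0 ∧ Odd (dg θ) ∧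
      (∀ σ ∈ Γ, Fixes σ ρ → ∀ n, σ (θ n) = θ n) ∧
      (∀ γ ∈ Γ, (∀ g, γ (ρ.character g) = ρ.character g⁻¹) → ∀ n, γ (θ n) = θ n⁻¹) := by
  classical
  set Θ : Finset (H → Ω) :=
    (irr Ω H).filter (fun φ => Odd (mul (rs H ρ).character φ * dg φ)) with hΘ
  have hmem : ∀ φ, φ ∈ Θ ↔ φ ∈ irr Ω H ∧ Odd (mul (rs H ρ).character φ * dg φ) := by
    intro φ
    rw [hΘ, Finset.mem_filter]
  have hcard : Odd Θ.card := by
    rw [finrank_eq_sum (rs H ρ)] at hodd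
    exact (Finset.odd_sum_iff_odd_card_odd _).1 hodd
  letI := actX Ω H
  letI := actX Ω G
  set S : Subgroup (RingAut Ω × ℤˣ) :=
    Γ.comap (MonoidHom.fst _ _) ⊓ MulAction.stabilizer (RingAut Ω × ℤˣ) ρ.character with hS
  have hSmem : ∀ e : S, (e : RingAut Ω × ℤˣ).1 ∈ Γ ∧
      ∀ g, (e : RingAut Ω × ℤˣ).1 (ρ.character (g ^ (((e : RingAut Ω × ℤˣ).2 : ℤˣ) : ℤ)))
        = ρ.character g := by
    intro e
    obtain ⟨h1, h2⟩ := Subgroup.mem_inf.1 e.2
    exact ⟨h1, fun g => congrFun (MulAction.mem_stabilizer_iff.1 h2) g⟩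
  have hNm : Nat.card H ∣ m := (Subgroup.card_subgroup_dvd_card H).trans hG
  obtain ⟨θ, hθ, hfix⟩ := exists_fixed_of_odd (E := S) (X := H → Ω) Θ (by
      intro e φ hφ
      rw [hmem] at hφ
      rw [hmem]
      refine ⟨irr_stable hφ.1 (e : RingAut Ω × ℤˣ), ?_⟩
      have h1 := mul_stable (rs H ρ) hφ.1 (e : RingAut Ω × ℤˣ) (fun n => by
        have h2 := (hSmem e).2 (n : G)
        rw [fixes_rs, fixes_rs, Subgroup.coe_zpow]
        exact h2)
      have h3 := dg_stable hφ.1 (e : RingAut Ω × ℤˣ)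
      have h4 : mul (rs H ρ).character (e • φ) = mul (rs H ρ).character φ := h1
      have h5 : dg (e • φ) = dg φ := h3
      rw [h4, h5]
      exact hφ.2) (by
      intro e
      obtain ⟨j, hj⟩ := two_irr hΓ hm hNm (hSmem e).1
      refine ⟨j + 1, fun φ hφ => ?_⟩
      funext n
      have h3 : ((e ^ (2 ^ (j + 1)) : S) : RingAut Ω × ℤˣ)
          = ((e : RingAut Ω × ℤˣ).1 ^ (2 ^ (j + 1)), 1) := by
        rw [Subgroup.coe_pow]
        refine Prod.ext rfl ?_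
        change (e : RingAut Ω × ℤˣ).2 ^ (2 ^ (j + 1)) = 1
        rw [pow_succ, mul_comm, pow_mul, Int.units_sq, one_pow]
      change ((e ^ (2 ^ (j + 1)) : S) : RingAut Ω × ℤˣ).1
        (φ (n ^ ((((e ^ (2 ^ (j + 1)) : S) : RingAut Ω × ℤˣ).2 : ℤˣ) : ℤ))) = φ n
      rw [h3]
      simp only [Units.val_one, zpow_one]
      rw [pow_succ, pow_mul, pow_two, RingAut.mul_apply,
        hj φ ((hmem φ).1 hφ).1, hj φ ((hmem φ).1 hφ).1]) hcard
  have hθo := Nat.odd_mul.1 ((hmem θ).1 hθ).2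
  refine ⟨θ, ((hmem θ).1 hθ).1, fun h0 => ?_, hθo.2, ?_, ?_⟩
  · rw [h0] at hθo
    exact absurd hθo.1 (by decide)
  · intro σ hσ hσρ n
    have hmemS : ((σ, 1) : RingAut Ω × ℤˣ) ∈ S := by
      rw [hS, Subgroup.mem_inf, Subgroup.mem_comap, MulAction.mem_stabilizer_iff]
      refine ⟨hσ, ?_⟩
      funext g
      change σ (ρ.character (g ^ (((1 : ℤˣ) : ℤˣ) : ℤ))) = ρ.character g
      rw [Units.val_one, zpow_one, hσρ g]
    have h4 := congrFun (hfix ⟨_, hmemS⟩) n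
    change σ (θ (n ^ (((1 : ℤˣ) : ℤˣ) : ℤ))) = θ n at h4
    rw [Units.val_one, zpow_one] at h4
    exact h4
  · intro γ hγ hγρ n
    have hmemS : ((γ, -1) : RingAut Ω × ℤˣ) ∈ S := by
      rw [hS, Subgroup.mem_inf, Subgroup.mem_comap, MulAction.mem_stabilizer_iff]
      refine ⟨hγ, ?_⟩
      funext g
      change γ (ρ.character (g ^ (((-1 : ℤˣ) : ℤˣ) : ℤ))) = ρ.character g
      rw [Units.val_neg, Units.val_one, zpow_neg, zpow_one, hγρ, inv_inv]
    have h4 := congrFun (hfix ⟨_, hmemS⟩) n⁻¹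
    change γ (θ (n⁻¹ ^ (((-1 : ℤˣ) : ℤˣ) : ℤ))) = θ n⁻¹ at h4
    rw [Units.val_neg, Units.val_one, zpow_neg, zpow_one, inv_inv] at h4
    exact h4

open Classical in
/-- `θ` not `Γ`-fixed: use (B) for `H` -/
theorem propB_notfixed (H : Subgroup G) (hB : PropB c m H) (hΓ : Ok c m Γ)
    {ρ : Representation Ω G V} {θ : H → Ω}
    (hθ : θ ∈ irr Ω H) (hθo : Odd (dg θ))
    (h1 : ∀ σ ∈ Γ, Fixes σ ρ → ∀ n, σ (θ n) = θ n)
    (h2 : ∀ γ ∈ Γ, (∀ g, γ (ρ.character g) = ρ.character g⁻¹) → ∀ n, γ (θ n) = θ n⁻¹)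
    (hnf : ∃ σ ∈ Γ, ∃ n, σ (θ n) ≠ θ n)
    (hγ : ∃ γ ∈ Γ, ∀ g, γ (ρ.character g) = ρ.character g⁻¹) {d : Ω} (hd : d ≠ 0)
    (hσ : ∀ σ ∈ Γ, σ d = if Fixes σ ρ then d else - d) : InV c Γ (c.av d) := by
  classical
  rw [mem_irr] at hθ
  obtain ⟨n, τ, hτ, hτc⟩ := hθ
  have hodd : Odd n := by
    have h := dg_char τ
    rw [hτc] at h
    rw [h] at hθo
    simpa using hθo
  have hd2 : d ≠ -d := by
    intro h
    apply hd
    have h3 : (2 : Ω) * d = 0 := by linear_combination h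
    rcases mul_eq_zero.1 h3 with h4 | h4
    · exact absurd h4 two_ne_zero
    · exact h4
  have hfix : ∀ σ ∈ Γ, (Fixes σ ρ ↔ Fixes σ τ) := by
    intro σ hσΓ
    constructor
    · intro hf x
      rw [hτc]
      exact h1 σ hσΓ hf x
    · intro hf
      by_contra hcon
      obtain ⟨σ₀, hσ₀, x, hx⟩ := hnf
      have h3 : ¬ Fixes σ₀ ρ := fun h => hx (h1 σ₀ hσ₀ h x)
      have h4 : σ₀ d = -d := by rw [hσ σ₀ hσ₀, if_neg h3]
      have h5 : σ d = -d := by rw [hσ σ hσΓ, if_neg hcon]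
      have h6 : (σ₀ * σ) d = d := by
        rw [RingAut.mul_apply, h5, map_neg, h4, neg_neg]
      have h7 : Fixes (σ₀ * σ) ρ := by
        by_contra h8
        have h9 := hσ (σ₀ * σ) (Γ.mul_mem hσ₀ hσΓ)
        rw [if_neg h8, h6] at h9
        exact hd2 h9
      have h8 := h1 (σ₀ * σ) (Γ.mul_mem hσ₀ hσΓ) h7 x
      have h9 := hf x
      rw [hτc] at h9
      rw [RingAut.mul_apply, h9] at h8
      exact hx h8
  obtain ⟨γ, hγΓ, hγρ⟩ := hγ
  refine hB Γ hΓ n τ hτ hodd ⟨γ, hγΓ, fun x => ?_⟩ d hd (fun σ hσΓ => ?_)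
  · rw [hτc]
    exact h2 γ hγΓ hγρ x
  · rw [hσ σ hσΓ]
    by_cases hf : Fixes σ ρ
    · rw [if_pos hf, if_pos ((hfix σ hσΓ).1 hf)]
    · rw [if_neg hf, if_neg (fun h => hf ((hfix σ hσΓ).2 h))]

end Q01_aux

open Classical in
/-- (B') Let `H` be a subgroup satisfying (B). Either `|d| ∈ V(Γ)` or the restriction of `ρ` to
`H` has an irreducible self dual constituent of odd degree.  (The set `Θ` of the irreducible
characters `φ` of `H` for which `mul φ * dg φ` is odd has odd cardinality, `finrank_eq_sum`; the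
stabilizer of the character of `ρ` in `Γ × {1, *}` acts on it through a `2`-group, so it fixes some
`φ ∈ Θ` (`exists_fixed_of_odd`, as in `exists_theta`): `σ ρ = ρ` implies `σ φ = φ`, and
`γ φ = φ*`. If `φ` is `Γ`-fixed it is self dual; otherwise `Fixes σ φ ↔ Fixes σ ρ` for `σ ∈ Γ`
(index two) and (B) for `H`, `φ` applies.) -/
theorem propB_res (H : Subgroup G) (hB : PropB c m H) (hΓ : Ok c m Γ) (hm : m ≠ 0)
    (hG : Nat.card G ∣ m) {ρ : Representation Ω G V} (hodd : Odd (Module.finrank Ω V))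
    (hγ : ∃ γ ∈ Γ, ∀ g, γ (ρ.character g) = ρ.character g⁻¹) {d : Ω} (hd : d ≠ 0)
    (hσ : ∀ σ ∈ Γ, σ d = if Fixes σ ρ then d else - d) :
    InV c Γ (c.av d) ∨ ∃ W : Subrepresentation (rs H ρ), W.toRepresentation.IsIrreducible ∧
      Odd (Module.finrank Ω W.toSubmodule) ∧ SD W.toRepresentation := by
  obtain ⟨θ, hθ, hmul, hθo, h1, h2⟩ := Q01_aux.exists_theta_res H hΓ hm hG (ρ := ρ) hodd
  by_cases hf : ∀ σ ∈ Γ, ∀ n, σ (θ n) = θ n
  · right
    obtain ⟨W, hW, hWc⟩ := exists_sub_of_mul hθ hmul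
    refine ⟨W, hW, ?_, ?_⟩
    · rw [← hWc, dg_char] at hθo
      exact hθo
    · obtain ⟨γ, hγΓ, hγρ⟩ := hγ
      intro x
      rw [hWc, ← h2 γ hγΓ hγρ x, hf γ hγΓ x]
  · left
    push Not at hf
    exact Q01_aux.propB_notfixed H hB hΓ hθ hθo h1 h2 hf hγ hd hσ

end

end Parker
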