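import Pool.Agent.Parker.Defs
import Pool.Agent.Parker.P01
import Pool.Agent.Parker.P02
import Pool.Agent.Parker.P03
import Pool.Agent.Parker.P08
import Pool.Agent.Parker.P09
import Pool.Agent.Parker.P10
import Pool.Agent.Parker.P11
import Pool.Agent.Parker.P31
import Pool.Agent.Parker.P32

/-!
# MP_6c3636_al, module Q02: rank one data in odd characteristic, representations generated by a
vector on which the point stabilizer acts by signs (helper7)
-/

namespace Parker

universe u v

noncomputable section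

/-- Rank one data in odd characteristic: `Q` is a subgroup of odd order, normal in the subgroup
`B` of index `> 2`, `B / Q` is abelian, and `S = B ∪ Q w B`; so `S` acts doubly transitively on
`S / B`, `Q` being transitive on the points different from `B`. Satisfied by `PSL_2(q)`,
`PSU_3(q)`, `Ree(q)`, `q` odd. -/
structure RankOneOdd {S : Type u} [Group S] (B Q : Subgroup S) (w : S) : Prop where
  le : Q ≤ B
  odd : Odd (Nat.card Q)
  norm : ∀ b ∈ B, ∀ q ∈ Q, b * q * b⁻¹ ∈ Q
  comm : ∀ b ∈ B, ∀ b' ∈ B, b * b' * b⁻¹ * b'⁻¹ ∈ Q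
  cover : ∀ g : S, g ∉ B → ∃ q ∈ Q, ∃ b ∈ B, g = q * w * b
  index : 2 < B.index

variable {Ω : Type} [Field Ω] [IsAlgClosed Ω] [CharZero Ω] {S : Type u} [Group S] [Finite S]
  {V : Type v} [AddCommGroup V] [Module Ω V] [FiniteDimensional Ω V]
  {B Q : Subgroup S} {w : S}

namespace Q02_aux

omit [Finite S] in
theorem w_notin (h : RankOneOdd B Q w) : w ∉ B := by
  intro hw
  have h1 : B = ⊤ := by
    rw [Subgroup.eq_top_iff']
    intro g
    by_contra hg
    obtain ⟨q, hq, b, hb, rfl⟩ := h.cover g hg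
    exact hg (B.mul_mem (B.mul_mem (h.le hq) hw) hb)
  have h2 := h.index
  rw [h1, Subgroup.index_top] at h2
  omega

omit [IsAlgClosed Ω] [FiniteDimensional Ω V] in
theorem av_fix (Q : Subgroup S) (ρ : Representation Ω S V) {y : V} (hy : ∀ q ∈ Q, ρ q y = y) :
    av_idem Q ρ y = y := by
  classical
  let _ := Fintype.ofFinite Q
  have hc : (Nat.card Q : Ω) ≠ 0 := Nat.cast_ne_zero.2 Nat.card_pos.ne'
  rw [av_idem, act_eq, LinearMap.sum_apply]
  have h1 : ∀ q : Q, ((Nat.card Q : Ω)⁻¹ • rs Q ρ q) y = (Nat.card Q : Ω)⁻¹ • y := by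
    intro q
    have h2 : rs Q ρ q = ρ (q : S) := rfl
    rw [LinearMap.smul_apply, h2, hy q q.2]
  rw [Finset.sum_congr rfl (fun q _ => h1 q), Finset.sum_const, Finset.card_univ,
    ← Nat.card_eq_fintype_card, ← Nat.cast_smul_eq_nsmul Ω, smul_smul, mul_inv_cancel₀ hc, one_smul]

omit [IsAlgClosed Ω] [FiniteDimensional Ω V] [CharZero Ω] in
theorem av_mul (Q : Subgroup S) (ρ : Representation Ω S V) {q : S} (hq : q ∈ Q) (y : V) :
    av_idem Q ρ (ρ q y) = av_idem Q ρ y := by
  classical
  let _ := Fintype.ofFinite Q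
  rw [av_idem, act_eq, LinearMap.sum_apply, LinearMap.sum_apply]
  refine Fintype.sum_equiv (Equiv.mulRight (⟨q, hq⟩ : Q)) _ _ fun x => ?_
  have h1 : rs Q ρ x = ρ (x : S) := rfl
  have h2 : rs Q ρ (Equiv.mulRight (⟨q, hq⟩ : Q) x) = ρ ((x : S) * q) := rfl
  rw [LinearMap.smul_apply, LinearMap.smul_apply, h1, h2, map_mul, Module.End.mul_apply]

theorem v_fix {ρ : Representation Ω S V} {v : V}
    {lam : B →* ℤˣ} (hle : Q ≤ B) (hv : ∀ b : B, ρ b v = ((lam b : ℤ) : Ω) • v)
    (hl : ∀ b : B, (b : S) ∈ Q → lam b = 1) : ∀ q ∈ Q, ρ q v = v := by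
  intro q hq
  have h1 := hv ⟨q, hle hq⟩
  rw [hl ⟨q, hle hq⟩ hq] at h1
  simpa using h1

/-- `e_Q g v` for `g ∉ B` -/
theorem av_off (h : RankOneOdd B Q w) {ρ : Representation Ω S V} {v : V}
    {lam : B →* ℤˣ} (hv : ∀ b : B, ρ b v = ((lam b : ℤ) : Ω) • v) {g : S} (hg : g ∉ B) :
    ∃ a : Ω, av_idem Q ρ (ρ g v) = a • av_idem Q ρ (ρ w v) := by
  obtain ⟨q, hq, b, hb, rfl⟩ := h.cover g hg
  refine ⟨((lam ⟨b, hb⟩ : ℤ) : Ω), ?_⟩
  have h1 := hv ⟨b, hb⟩
  rw [map_mul, map_mul, Module.End.mul_apply, Module.End.mul_apply, av_mul Q ρ hq]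
  have h2 : ρ b v = ((lam ⟨b, hb⟩ : ℤ) : Ω) • v := h1
  rw [h2, map_smul, map_smul]

end Q02_aux

open Q02_aux

/-- `B` is a proper subgroup of even index (`Q` is transitive on the other cosets) -/
theorem RankOneOdd.index_even (h : RankOneOdd B Q w) : Even B.index := by
  classical
  have hw := w_notin h
  set x₀ : S ⧸ B := ((1 : S) : S ⧸ B) with hx₀
  set x₁ : S ⧸ B := ((w : S) : S ⧸ B) with hx₁
  have h1 : (MulAction.orbit Q x₁) = {x : S ⧸ B | x ≠ x₀} := by
    ext x
    constructor
    · rintro ⟨q, rfl⟩ h2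
      have h3 : ((((q : S) * w : S)) : S ⧸ B) = ((1 : S) : S ⧸ B) := h2
      rw [QuotientGroup.eq] at h3
      apply hw
      have h4 : (q : S) * w ∈ B := by
        have := B.inv_mem h3
        simpa using this
      have h5 : w = (q : S)⁻¹ * ((q : S) * w) := by group
      rw [h5]
      exact B.mul_mem (B.inv_mem (h.le q.2)) h4
    · intro hx
      induction x using QuotientGroup.induction_on with
      | H g =>
        have hg : g ∉ B := by
          intro hg
          apply hx
          show ((g : S) : S ⧸ B) = ((1 : S) : S ⧸ B)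
          rw [QuotientGroup.eq]
          simpa using hg
        obtain ⟨q, hq, b, hb, rfl⟩ := h.cover g hg
        refine ⟨⟨q, hq⟩, ?_⟩
        show (((q * w : S)) : S ⧸ B) = ((q * w * b : S) : S ⧸ B)
        rw [QuotientGroup.eq]
        have h5 : (q * w)⁻¹ * (q * w * b) = b := by group
        rw [h5]
        exact hb
  have h2 : (MulAction.orbit Q x₁).ncard ∣ Nat.card Q := by
    rw [← MulAction.index_stabilizer]
    exact Subgroup.index_dvd_card _
  have h3 : Odd (MulAction.orbit Q x₁).ncard := Odd.of_dvd_nat h.odd h2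
  have h4 : B.index = (MulAction.orbit Q x₁).ncard + 1 := by
    rw [h1, Subgroup.index, ← Set.ncard_univ]
    have h5 : (Set.univ : Set (S ⧸ B)) = insert x₀ {x : S ⧸ B | x ≠ x₀} := by
      ext x
      simp only [Set.mem_univ, Set.mem_insert_iff, Set.mem_ofPred_eq, true_iff]
      exact em _
    rw [h5, Set.ncard_insert_of_notMem (by simp) (Set.toFinite _)]
  rw [h4]
  exact h3.add_odd odd_one

/-- an irreducible self dual constituent of odd dimension of `V|B` is a line on which `B` acts by
signs, `Q` trivially -/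
theorem RankOneOdd.exists_line (h : RankOneOdd B Q w) {ρ : Representation Ω S V}
    (W : Subrepresentation (rs B ρ)) (hW : W.toRepresentation.IsIrreducible)
    (hodd : Odd (Module.finrank Ω W.toSubmodule)) (hsd : SD W.toRepresentation) :
    ∃ (v : V) (lam : B →* ℤˣ), v ≠ 0 ∧ (∀ b : B, ρ b v = ((lam b : ℤ) : Ω) • v) ∧
      ∀ b : B, (b : S) ∈ Q → lam b = 1 := by
  classical
  set τ : Representation Ω B W.toSubmodule := W.toRepresentation with hτ
  set Q' : Subgroup B := Q.subgroupOf B with hQ'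
  have hmem : ∀ b : B, b ∈ Q' ↔ (b : S) ∈ Q := fun b => Iff.rfl
  have hcard : Nat.card Q' = Nat.card Q :=
    Nat.card_congr (Subgroup.subgroupOfEquivOfLe h.le).toEquiv
  have hnorm : ∀ b : B, ∀ q ∈ Q', b * q * b⁻¹ ∈ Q' := by
    intro b q hq
    exact h.norm b b.2 q hq
  -- the invariants of `Q'`
  have hinv_ne : (rs Q' τ).invariants ≠ ⊥ := by
    have h1 : Odd (Module.finrank Ω (rs Q' τ).invariants) := by
      rw [← parity_odd (G := Q') (ρ := rs Q' τ) (by rw [hcard]; exact h.odd)
        (fun g => hsd (g : B))]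
      exact hodd
    intro h0
    rw [h0, finrank_bot] at h1
    exact absurd h1 (by decide)
  have hinv_top : (rs Q' τ).invariants = ⊤ := by
    rcases irr_sub hW (U := (rs Q' τ).invariants) (by
      intro g x hx q
      have h1 : (rs Q' τ) q = τ (q : B) := rfl
      rw [h1, ← Module.End.mul_apply, ← map_mul]
      have h2 : (q : B) * g = g * (g⁻¹ * q * g) := by group
      have h3 : g⁻¹ * (q : B) * g ∈ Q' := by
        have := hnorm g⁻¹ q q.2
        rwa [inv_inv] at this
      rw [h2, map_mul, Module.End.mul_apply]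
      congr 1
      exact hx ⟨_, h3⟩) with h0 | h0
    · exact absurd h0 hinv_ne
    · exact h0
  have hQ1 : ∀ b : B, b ∈ Q' → ∀ x, τ b x = x := by
    intro b hb x
    have h1 : x ∈ (rs Q' τ).invariants := by rw [hinv_top]; exact Submodule.mem_top
    exact h1 ⟨b, hb⟩
  have hcomm : ∀ b b' : B, τ b * τ b' = τ b' * τ b := by
    intro b b'
    ext x
    have h1 : b * b' = (b * b' * b⁻¹ * b'⁻¹) * (b' * b) := by group
    have h2 : b * b' * b⁻¹ * b'⁻¹ ∈ Q' := h.comm b b.2 b' b'.2
    rw [← map_mul, ← map_mul, h1, map_mul, Module.End.mul_apply, hQ1 _ h2]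
  have hsc : ∀ b : B, ∃ a : Ω, τ b = a • 1 := fun b => schur hW (fun g => hcomm b g)
  choose a ha using hsc
  have hpos := irr_pos hW
  have hmul : ∀ b b' : B, a (b * b') = a b * a b' := by
    intro b b'
    obtain ⟨x, hx⟩ : ∃ x : W.toSubmodule, x ≠ 0 := by
      have := Module.nontrivial_of_finrank_pos hpos
      exact exists_ne 0
    have h1 : a (b * b') • x = (a b * a b') • x := by
      have h2 := congrArg (fun T : Module.End Ω W.toSubmodule => T x) (ha (b * b'))
      have h3 : τ (b * b') x = (a b * a b') • x := by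
        rw [map_mul, Module.End.mul_apply, ha b', ha b]
        simp only [LinearMap.smul_apply, Module.End.one_apply, smul_smul]
      rw [← h3]
      simpa using h2.symm
    have h2 : (a (b * b') - a b * a b') • x = 0 := by rw [sub_smul, h1, sub_self]
    exact sub_eq_zero.1 ((smul_eq_zero.1 h2).resolve_right hx)
  have hfin : (Module.finrank Ω W.toSubmodule : Ω) ≠ 0 := Nat.cast_ne_zero.2 hpos.ne'
  have hchar : ∀ b : B, τ.character b = a b * Module.finrank Ω W.toSubmodule := by
    intro b
    show LinearMap.trace Ω _ (τ b) = _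
    rw [ha b, map_smul, LinearMap.trace_one, smul_eq_mul]
  have hone : a 1 = 1 := by
    have h1 := hchar 1
    rw [Representation.char_one] at h1
    have h2 : (1 : Ω) * Module.finrank Ω W.toSubmodule = a 1 * Module.finrank Ω W.toSubmodule := by
      rw [one_mul]; exact h1
    exact (mul_right_cancel₀ hfin h2).symm
  have hsq : ∀ b : B, a b = 1 ∨ a b = -1 := by
    intro b
    have h1 : a b⁻¹ = a b := by
      have h2 := hsd b
      change τ.character b⁻¹ = τ.character b at h2
      rw [hchar, hchar] at h2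
      exact mul_right_cancel₀ hfin h2
    have h2 : a b * a b = 1 := by
      have h3 := hmul b b⁻¹
      rw [mul_inv_cancel, hone, h1] at h3
      exact h3.symm
    exact mul_self_eq_one_iff.1 h2
  have hneg : (1 : Ω) ≠ -1 := by
    intro h0
    have h1 : (2 : Ω) = 0 := by linear_combination h0
    exact two_ne_zero h1
  let lam : B →* ℤˣ :=
    { toFun := fun b => if a b = 1 then 1 else -1
      map_one' := by rw [if_pos hone]
      map_mul' := by
        intro b b'
        rw [hmul]
        rcases hsq b with h1 | h1 <;> rcases hsq b' with h2 | h2 <;> rw [h1, h2] <;>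
          simp [hneg.symm] }
  have hlam : ∀ b : B, ((lam b : ℤ) : Ω) = a b := by
    intro b
    show (((if a b = 1 then (1 : ℤˣ) else -1 : ℤˣ) : ℤ) : Ω) = a b
    rcases hsq b with h1 | h1
    · rw [if_pos h1, h1]; simp
    · rw [if_neg (by rw [h1]; exact hneg.symm), h1]; simp
  obtain ⟨x, hx⟩ : ∃ x : W.toSubmodule, x ≠ 0 := by
    have := Module.nontrivial_of_finrank_pos hpos
    exact exists_ne 0
  refine ⟨x, lam, fun h0 => hx (Subtype.ext h0), fun b => ?_, fun b hb => ?_⟩
  · have h1 : ρ (b : S) (x : V) = ((τ b x : W.toSubmodule) : V) := rfl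
    rw [hlam, h1, ha b]
    rfl
  · have h1 : a b = 1 := by
      have h2 := congrArg (fun T : Module.End Ω W.toSubmodule => T x) (ha b)
      have h3 := hQ1 b hb x
      simp only [LinearMap.smul_apply, Module.End.one_apply] at h2
      rw [h3] at h2
      have h4 : (a b - 1) • x = 0 := by rw [sub_smul, one_smul, ← h2, sub_self]
      exact sub_eq_zero.1 ((smul_eq_zero.1 h4).resolve_right hx)
    show (if a b = 1 then (1 : ℤˣ) else -1) = 1
    rw [if_pos h1]

/-- `V^Q` is spanned by `v` and `e_Q w v` if `V` is spanned by the orbit of `v` -/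
theorem RankOneOdd.fixed_span (h : RankOneOdd B Q w) {ρ : Representation Ω S V} {v : V}
    {lam : B →* ℤˣ} (hv : ∀ b : B, ρ b v = ((lam b : ℤ) : Ω) • v)
    (hl : ∀ b : B, (b : S) ∈ Q → lam b = 1)
    (hspan : Submodule.span Ω (Set.range fun g => ρ g v) = ⊤) {y : V}
    (hy : ∀ q ∈ Q, ρ q y = y) : ∃ a b : Ω, y = a • v + b • av_idem Q ρ (ρ w v) := by
  have h1 : Submodule.span Ω (Set.range fun g => ρ g v) ≤
      (Submodule.span Ω {v, av_idem Q ρ (ρ w v)}).comap (av_idem Q ρ) := by
    rw [Submodule.span_le]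
    rintro _ ⟨g, rfl⟩
    show av_idem Q ρ (ρ g v) ∈ Submodule.span Ω {v, av_idem Q ρ (ρ w v)}
    by_cases hg : g ∈ B
    · have h2 : ρ g v = ((lam ⟨g, hg⟩ : ℤ) : Ω) • v := hv ⟨g, hg⟩
      rw [h2, map_smul, av_fix Q ρ (v_fix h.le hv hl)]
      exact Submodule.smul_mem _ _ (Submodule.subset_span (Set.mem_insert _ _))
    · obtain ⟨a, ha⟩ := av_off h hv hg
      rw [ha]
      exact Submodule.smul_mem _ _ (Submodule.subset_span (Set.mem_insert_of_mem _ rfl))
  have h2 : y ∈ (Submodule.span Ω {v, av_idem Q ρ (ρ w v)}).comap (av_idem Q ρ) :=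
    h1 (by rw [hspan]; exact Submodule.mem_top)
  have h3 : av_idem Q ρ y ∈ Submodule.span Ω {v, av_idem Q ρ (ρ w v)} := h2
  rw [av_fix Q ρ hy, Submodule.mem_span_pair] at h3
  obtain ⟨a, b, hab⟩ := h3
  exact ⟨a, b, hab.symm⟩

/-- if `v` and `e_Q w v` are linearly independent, then the vectors `x v`, `x` in a system of
representatives of the cosets of `B`, are linearly independent; they are permuted up to signs -/
theorem RankOneOdd.independent (h : RankOneOdd B Q w) {ρ : Representation Ω S V} {v : V}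
    {lam : B →* ℤˣ} (hv : ∀ b : B, ρ b v = ((lam b : ℤ) : Ω) • v)
    (hl : ∀ b : B, (b : S) ∈ Q → lam b = 1)
    (hind : ∀ a b : Ω, a • v + b • av_idem Q ρ (ρ w v) = 0 → a = 0 ∧ b = 0) :
    LinearIndependent Ω (fun x : S ⧸ B => ρ x.out v) := by
  classical
  let _ := Fintype.ofFinite (S ⧸ B)
  rw [Fintype.linearIndependent_iff]
  intro c hc x₀
  have h1 : ∀ x : S ⧸ B, x ≠ x₀ → ∃ a : Ω,
      av_idem Q ρ (ρ (x₀.out⁻¹ * x.out) v) = a • av_idem Q ρ (ρ w v) := by
    intro x hx
    refine av_off h hv ?_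
    intro hB
    apply hx
    rw [← QuotientGroup.out_eq' x, ← QuotientGroup.out_eq' x₀]
    exact (QuotientGroup.eq.2 hB).symm
  choose! a ha using h1
  have h2 : av_idem Q ρ (ρ x₀.out⁻¹ (∑ x : S ⧸ B, c x • ρ x.out v)) = 0 := by
    rw [hc, map_zero, map_zero]
  rw [map_sum, map_sum, ← Finset.add_sum_erase _ _ (Finset.mem_univ x₀)] at h2
  have h3 : ∀ x : S ⧸ B, av_idem Q ρ (ρ x₀.out⁻¹ (c x • ρ x.out v)) =
      c x • av_idem Q ρ (ρ (x₀.out⁻¹ * x.out) v) := by
    intro x
    rw [map_smul, map_smul, map_mul, Module.End.mul_apply]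
  have h4 : ∑ x ∈ Finset.univ.erase x₀, av_idem Q ρ (ρ x₀.out⁻¹ (c x • ρ x.out v)) =
      (∑ x ∈ Finset.univ.erase x₀, c x * a x) • av_idem Q ρ (ρ w v) := by
    rw [Finset.sum_smul]
    refine Finset.sum_congr rfl fun x hx => ?_
    rw [h3, ha x (Finset.ne_of_mem_erase hx), smul_smul]
  rw [h4, h3, inv_mul_cancel, map_one, Module.End.one_apply, av_fix Q ρ (v_fix h.le hv hl)] at h2
  exact (hind _ _ h2).1

/-- spanning -/
theorem RankOneOdd.spanning {ρ : Representation Ω S V} {v : V}
    {lam : B →* ℤˣ} (hv : ∀ b : B, ρ b v = ((lam b : ℤ) : Ω) • v)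
    (hspan : Submodule.span Ω (Set.range fun g => ρ g v) = ⊤) :
    Submodule.span Ω (Set.range (fun x : S ⧸ B => ρ x.out v)) = ⊤ := by
  rw [eq_top_iff, ← hspan, Submodule.span_le]
  rintro _ ⟨g, rfl⟩
  obtain ⟨b, hb⟩ := QuotientGroup.mk_out_eq_mul B g
  have h1 : g = ((g : S ⧸ B)).out * ((b⁻¹ : B) : S) := by
    rw [hb, Subgroup.coe_inv, mul_inv_cancel_right]
  have h2 : ρ g v = ((lam b⁻¹ : ℤ) : Ω) • ρ ((g : S ⧸ B)).out v := by
    conv_lhs => rw [h1]
    rw [map_mul, Module.End.mul_apply, hv, map_smul]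
  show ρ g v ∈ Submodule.span Ω (Set.range (fun x : S ⧸ B => ρ x.out v))
  rw [h2]
  exact Submodule.smul_mem _ _ (Submodule.subset_span ⟨_, rfl⟩)

/-- a representation with a basis permuted up to signs: if it is irreducible of even degree it is
good for every `Γ` (the form with this orthonormal basis is invariant; take a rational skew `s` with
`det ≠ 0`, `exists_skew_rat`; the matrix of `act ρ s` in the basis is rational and skew symmetric,
so its determinant is a rational square, `det_alt_sq` over `ℚ`). -/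
theorem good_of_monomial {ι : Type u} [Fintype ι] {ρ : Representation Ω S V}
    (hρ : ρ.IsIrreducible) (hev : Even (Module.finrank Ω V)) (b : Module.Basis ι Ω V)
    (hb : ∀ (g : S) (i : ι), ∃ j : ι, ρ g (b i) = b j ∨ ρ g (b i) = - b j)
    {c : Ctx Ω} {Γ : Subgroup (RingAut Ω)} : GoodV c Γ ρ := by
  classical
  let _ := Fintype.ofFinite S
  -- the form
  obtain ⟨β, hβ⟩ : ∃ β : LinearMap.BilinForm Ω V, ∀ x y, β x y = ∑ i, b.repr x i * b.repr y i := by
    refine ⟨LinearMap.mk₂ Ω (fun x y => ∑ i, b.repr x i * b.repr y i) ?_ ?_ ?_ ?_, fun x y => rfl⟩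
    · intro x y z
      rw [← Finset.sum_add_distrib]
      refine Finset.sum_congr rfl fun i _ => ?_
      rw [map_add, Finsupp.add_apply]; ring
    · intro a x y
      rw [smul_eq_mul, Finset.mul_sum]
      refine Finset.sum_congr rfl fun i _ => ?_
      rw [map_smul, Finsupp.smul_apply, smul_eq_mul]; ring
    · intro x y z
      rw [← Finset.sum_add_distrib]
      refine Finset.sum_congr rfl fun i _ => ?_
      rw [map_add, Finsupp.add_apply]; ring
    · intro a x y
      rw [smul_eq_mul, Finset.mul_sum]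
      refine Finset.sum_congr rfl fun i _ => ?_
      rw [map_smul, Finsupp.smul_apply, smul_eq_mul]; ring
  have hβb : ∀ i j, β (b i) (b j) = if i = j then 1 else 0 := by
    intro i j
    rw [hβ]
    simp only [Module.Basis.repr_self, Finsupp.single_apply, mul_ite, mul_one, mul_zero]
    rw [Finset.sum_eq_single j]
    · simp
    · intro k _ hk
      rw [if_neg hk.symm]
    · intro h0
      exact absurd (Finset.mem_univ _) h0
  have hβr : ∀ i y, β (b i) y = b.repr y i := by
    intro i y
    rw [hβ]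
    simp only [Module.Basis.repr_self, Finsupp.single_apply, ite_mul, one_mul, zero_mul]
    simp
  choose f hf using hb
  have hinj : ∀ g i j, f g i = f g j → i = j := by
    intro g i j hij
    have h1 : b i = b j ∨ b i = - b j := by
      have hg : ∀ x y : V, ρ g x = ρ g y → x = y := by
        intro x y hxy
        have h2 := congrArg (ρ g⁻¹) hxy
        simpa [← Module.End.mul_apply, ← map_mul] using h2
      rcases hf g i with h2 | h2 <;> rcases hf g j with h3 | h3
      · left; apply hg; rw [h2, h3, hij]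
      · right; apply hg; rw [map_neg, h2, h3, hij, neg_neg]
      · right; apply hg; rw [map_neg, h2, h3, hij]
      · left; apply hg; rw [h2, h3, hij]
    by_contra hne
    have h4 := hβb i j
    have h5 := hβb i i
    rw [if_neg hne] at h4
    rw [if_pos rfl] at h5
    rcases h1 with h1 | h1
    · rw [← h1, h5] at h4
      exact one_ne_zero h4
    · have h6 : β (b i) (b j) = - β (b i) (b i) := by
        conv_rhs => rw [h1]
        rw [map_neg, neg_neg]
        conv_lhs => rw [h1]
      rw [h6, h5] at h4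
      exact one_ne_zero (neg_eq_zero.1 h4)
  have hsgn : ∀ g i, ∃ e : ℚ, (e = 1 ∨ e = -1) ∧ ρ g (b i) = (e : Ω) • b (f g i) := by
    intro g i
    rcases hf g i with h1 | h1
    · exact ⟨1, Or.inl rfl, by rw [h1]; simp⟩
    · exact ⟨-1, Or.inr rfl, by rw [h1]; simp⟩
  choose e he hfe using hsgn
  have hsymm : ∀ x y, β x y = β y x := by
    intro x y
    rw [hβ, hβ]
    exact Finset.sum_congr rfl fun i _ => mul_comm _ _
  have hInv : InvForm ρ β := by
    refine ⟨hsymm, ?_, ?_⟩
    · intro x hx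
      have h1 : b.repr x = 0 := by
        ext i
        rw [← hβr, hsymm, hx]
        rfl
      exact b.repr.map_eq_zero_iff.1 h1
    · intro g
      have h1 : β.compl₁₂ (ρ g) (ρ g) = β := by
        refine b.ext fun i => b.ext fun j => ?_
        rw [LinearMap.compl₁₂_apply, hfe, hfe, map_smul, map_smul, LinearMap.smul_apply, hβb, hβb]
        by_cases hij : i = j
        · subst hij
          rw [if_pos rfl, if_pos rfl]
          rcases he g i with h | h <;> rw [h] <;> simp
        · rw [if_neg hij, if_neg (fun h => hij (hinj g i j h))]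
          simp
      intro x y
      exact congrArg (fun L : LinearMap.BilinForm Ω V => L x y) h1
  obtain ⟨s, hs, hd⟩ := exists_skew_rat (noOdd_of_even hρ hev)
  have hsk : Skew β (act ρ (fun g => (s g : Ω))) :=
    skew_of_skew hInv (fun g => by rw [hs]; push_cast; rfl)
  set M₀ : Matrix ι ι ℚ := Matrix.of fun i j => ∑ g, s g * (if i = f g j then e g j else 0) with hM₀
  have hent : ∀ i j, β (b i) (act ρ (fun g => (s g : Ω)) (b j)) = (M₀ i j : Ω) := by
    intro i j
    rw [act_eq, LinearMap.sum_apply, map_sum, hM₀, Matrix.of_apply]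
    push_cast
    refine Finset.sum_congr rfl fun g _ => ?_
    rw [LinearMap.smul_apply, hfe, map_smul, map_smul, hβb]
    by_cases hi : i = f g j
    · rw [if_pos hi, if_pos hi, smul_eq_mul, smul_eq_mul, mul_one]
    · rw [if_neg hi, if_neg hi, smul_zero, smul_zero, Rat.cast_zero, mul_zero]
  have hskM : M₀.transpose = - M₀ := by
    ext i j
    rw [Matrix.transpose_apply, Matrix.neg_apply]
    have h1 : ((M₀ j i : ℚ) : Ω) = ((- M₀ i j : ℚ) : Ω) := by
      push_cast
      rw [← hent, ← hent, hsymm, hsk]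
    exact_mod_cast h1
  obtain ⟨a, haM⟩ := det_alt_sq (F := ℚ) (by norm_num) hskM
  have hdet : LinearMap.det (act ρ (fun g => (s g : Ω))) = ((a : Ω)) ^ 2 := by
    rw [← LinearMap.det_toMatrix b]
    have h1 : LinearMap.toMatrix b b (act ρ (fun g => (s g : Ω))) =
        (algebraMap ℚ Ω).mapMatrix M₀ := by
      ext i j
      rw [LinearMap.toMatrix_apply, ← hβr, hent]
      rfl
    rw [h1, ← RingHom.map_det, haM, map_pow]
    rfl
  refine ⟨β, hInv, act ρ (fun g => (s g : Ω)), ⟨_, fun g => fx_ratCast Γ _, rfl⟩, hsk, hd,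
    ⟨(a : Ω), ?_, fx_ratCast Γ a, ?_⟩⟩
  · intro h0
    rw [h0, zero_pow two_ne_zero] at hdet
    exact hd hdet
  · rw [hdet, map_pow]

/-- the trace of an element `g ∈ Q` on a space with the basis `x v` is the number of its fixed
points on `S / B` -/
theorem RankOneOdd.trace_eq (h : RankOneOdd B Q w) {ρ : Representation Ω S V} {v : V}
    {lam : B →* ℤˣ} (hv : ∀ b : B, ρ b v = ((lam b : ℤ) : Ω) • v)
    (hl : ∀ b : B, (b : S) ∈ Q → lam b = 1)
    (hind : LinearIndependent Ω (fun x : S ⧸ B => ρ x.out v))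
    (hspan : Submodule.span Ω (Set.range (fun x : S ⧸ B => ρ x.out v)) = ⊤) {g : S}
    (hg : g ∈ Q) : ρ.character g = (fixp (S ⧸ B) g : Ω) := by
  classical
  let _ := Fintype.ofFinite (S ⧸ B)
  let bs : Module.Basis (S ⧸ B) Ω V := Module.Basis.mk hind (by rw [hspan])
  have hbs : ∀ x, bs x = ρ x.out v := fun x => by rw [Module.Basis.mk_apply]
  have hact : ∀ x : S ⧸ B, ∃ β : B, g * x.out = (g • x).out * β := by
    intro x
    refine ⟨⟨(g • x).out⁻¹ * (g * x.out), ?_⟩, ?_⟩
    · rw [← QuotientGroup.eq, QuotientGroup.out_eq']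
      conv_lhs => rw [← QuotientGroup.out_eq' x]
      rfl
    · show g * x.out = (g • x).out * ((g • x).out⁻¹ * (g * x.out))
      group
  choose β hβ using hact
  have h1 : ∀ x, ρ g (bs x) = ((lam (β x) : ℤ) : Ω) • bs (g • x) := by
    intro x
    rw [hbs, hbs, ← Module.End.mul_apply, ← map_mul, hβ, map_mul, Module.End.mul_apply, hv,
      map_smul]
  have h2 : ∀ x : S ⧸ B, g • x = x → lam (β x) = 1 := by
    intro x hx
    have h3 : ((β x : B) : S) = x.out⁻¹ * g * x.out := by
      have h4 := hβ x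
      rw [hx] at h4
      rw [mul_assoc, h4, inv_mul_cancel_left]
    have h5 : (β x) ^ (Nat.card Q) = 1 := by
      apply Subtype.ext
      rw [Subgroup.coe_pow, h3]
      have h6 : (x.out⁻¹ * g * x.out) ^ (Nat.card Q) = x.out⁻¹ * g ^ (Nat.card Q) * x.out := by
        have := conj_pow (a := x.out⁻¹) (b := g) (i := Nat.card Q)
        rwa [inv_inv] at this
      have h7 : g ^ (Nat.card Q) = 1 := by
        have h8 : (⟨g, hg⟩ : Q) ^ (Nat.card Q) = 1 := pow_card_eq_one'
        exact congrArg Subtype.val h8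
      rw [h6, h7]
      simp
    have h6 : (lam (β x)) ^ (Nat.card Q) = 1 := by rw [← map_pow, h5, map_one]
    rcases Int.units_eq_one_or (lam (β x)) with h7 | h7
    · exact h7
    · rw [h7, h.odd.neg_one_pow] at h6
      exact absurd h6 (by decide)
  show LinearMap.trace Ω V (ρ g) = _
  rw [LinearMap.trace_eq_matrix_trace Ω bs, Matrix.trace, P31_aux.fixp_eq, Finset.card_filter]
  push_cast
  refine Finset.sum_congr rfl fun x _ => ?_
  rw [Matrix.diag_apply, LinearMap.toMatrix_apply, h1, map_smul, Finsupp.smul_apply,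
    Module.Basis.repr_self, Finsupp.single_apply]
  by_cases hx : g • x = x
  · rw [if_pos hx, h2 x hx]
    simp
  · rw [if_neg hx, smul_zero]

end

end Parker
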