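import Pool.Agent.Parker.Defs
import Pool.Agent.Parker.P05
import Pool.Agent.Parker.P06
import Pool.Agent.Parker.P08
import Pool.Agent.Parker.P10
import Pool.Agent.Parker.P13
import Pool.Agent.Parker.P15
import Pool.Agent.Parker.P29
import Pool.Agent.Parker.P30
import Pool.Agent.Parker.P31
import Pool.Agent.Parker.P32
import Pool.Agent.Parker.Q01
import Pool.Agent.Parker.Q02

/-!
# MP_6c3636_al, module Q03: (A) and (B) for groups with rank one data in odd characteristic
(helper7)
-/

namespace Parker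

universe u v w

noncomputable section

variable {Ω : Type} [Field Ω] [IsAlgClosed Ω] [CharZero Ω] {S : Type u} [Group S] [Finite S]
  {V : Type v} [AddCommGroup V] [Module Ω V] [FiniteDimensional Ω V]
  {W : Type w} [AddCommGroup W] [Module Ω W] [FiniteDimensional Ω W]
  {B Q : Subgroup S} {x : S} {c : Ctx Ω}

namespace Q03_aux

theorem span_orbit {ρ : Representation Ω S V} (hρ : ρ.IsIrreducible) {v : V} (hv : v ≠ 0) :
    Submodule.span Ω (Set.range fun g => ρ g v) = ⊤ := by
  rcases irr_sub hρ (U := Submodule.span Ω (Set.range fun g => ρ g v)) (by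
    intro g y hy
    induction hy using Submodule.span_induction with
    | mem y hy =>
      obtain ⟨h, rfl⟩ := hy
      change ρ g (ρ h v) ∈ _
      rw [← Module.End.mul_apply, ← map_mul]
      exact Submodule.subset_span ⟨g * h, rfl⟩
    | zero => rw [map_zero]; exact zero_mem _
    | add y z _ _ hy hz => rw [map_add]; exact add_mem hy hz
    | smul a y _ hy => rw [map_smul]; exact Submodule.smul_mem _ _ hy) with h | h
  · exfalso
    apply hv
    have h1 : v ∈ Submodule.span Ω (Set.range fun g => ρ g v) :=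
      Submodule.subset_span ⟨1, by simp⟩
    rw [h, Submodule.mem_bot] at h1
    exact h1
  · exact h

theorem dep {y z : V} (hy : y ≠ 0)
    (hind : ¬ ∀ a b : Ω, a • y + b • z = 0 → a = 0 ∧ b = 0) : ∃ α : Ω, z = α • y := by
  push Not at hind
  obtain ⟨a, b, h0, h1⟩ := hind
  have hb : b ≠ 0 := by
    rintro rfl
    rw [zero_smul, add_zero, smul_eq_zero] at h0
    rcases h0 with h0 | h0
    · exact h1 h0 rfl
    · exact hy h0
  refine ⟨-(b⁻¹ * a), ?_⟩
  have h2 : z = b⁻¹ • (b • z) := by rw [smul_smul, inv_mul_cancel₀ hb, one_smul]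
  rw [h2, eq_neg_of_add_eq_zero_right h0, smul_neg, smul_smul, neg_smul]

variable {lam : B →* ℤˣ}

theorem fixed_v {ρ : Representation Ω S V} {v : V} (h : RankOneOdd B Q x)
    (hv : ∀ b : B, ρ b v = ((lam b : ℤ) : Ω) • v) (hl : ∀ b : B, (b : S) ∈ Q → lam b = 1) :
    ∀ q ∈ Q, ρ q v = v := by
  intro q hq
  have h1 := hv ⟨q, h.le hq⟩
  rw [hl ⟨q, h.le hq⟩ hq] at h1
  simpa using h1

theorem not_ind (h : RankOneOdd B Q x) {ρ : Representation Ω S V} (hρ : ρ.IsIrreducible)
    (hodd : Odd (Module.finrank Ω V)) {v : V} (hv0 : v ≠ 0)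
    (hv : ∀ b : B, ρ b v = ((lam b : ℤ) : Ω) • v) (hl : ∀ b : B, (b : S) ∈ Q → lam b = 1) :
    ¬ ∀ a b : Ω, a • v + b • av_idem Q ρ (ρ x v) = 0 → a = 0 ∧ b = 0 := by
  classical
  intro hind
  have h1 := h.independent hv hl hind
  have h2 := RankOneOdd.spanning hv (span_orbit hρ hv0)
  let b : Module.Basis (S ⧸ B) Ω V := Module.Basis.mk h1 (by rw [h2])
  have h3 : Module.finrank Ω V = Nat.card (S ⧸ B) := Module.finrank_eq_nat_card_basis b
  have h4 := h.index_even
  rw [Subgroup.index, ← h3] at h4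
  exact (Nat.not_even_iff_odd.2 hodd) h4

/-- the fixed space of `Q` is the line spanned by `v` -/
theorem finrank_one (h : RankOneOdd B Q x) {ρ : Representation Ω S V}
    (hρ : ρ.IsIrreducible) {v : V} (hv0 : v ≠ 0)
    (hv : ∀ b : B, ρ b v = ((lam b : ℤ) : Ω) • v) (hl : ∀ b : B, (b : S) ∈ Q → lam b = 1)
    (hind : ¬ ∀ a b : Ω, a • v + b • av_idem Q ρ (ρ x v) = 0 → a = 0 ∧ b = 0) :
    Module.finrank Ω (rs Q ρ).invariants = 1 := by
  obtain ⟨α, hα⟩ := dep hv0 hind
  have h1 : (rs Q ρ).invariants = Submodule.span Ω {v} := by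
    ext y
    rw [Submodule.mem_span_singleton]
    constructor
    · intro hy
      obtain ⟨a, b, hab⟩ := h.fixed_span hv hl (span_orbit hρ hv0) (y := y)
        (fun q hq => hy ⟨q, hq⟩)
      refine ⟨a + b * α, ?_⟩
      rw [hab, hα, smul_smul, ← add_smul]
    · rintro ⟨a, rfl⟩
      intro q
      change ρ (q : S) (a • v) = a • v
      rw [map_smul, fixed_v h hv hl q q.2]
  rw [h1]
  exact finrank_span_singleton hv0

theorem act_prod {G : Type u} [Group G] [Finite G] (ρ : Representation Ω G V)
    (τ : Representation Ω G W) (s : G → Ω) (p : V × W) :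
    act (ρ.prod τ) s p = (act ρ s p.1, act τ s p.2) := by
  classical
  let _ := Fintype.ofFinite G
  rw [act_eq, act_eq, act_eq]
  simp only [LinearMap.sum_apply, LinearMap.smul_apply]
  apply Prod.ext
  · rw [Prod.fst_sum]
    rfl
  · rw [Prod.snd_sum]
    rfl

theorem char_prod {G : Type u} [Group G] (ρ : Representation Ω G V)
    (τ : Representation Ω G W) (g : G) :
    (ρ.prod τ).character g = ρ.character g + τ.character g := by
  change LinearMap.trace Ω (V × W) ((ρ g).prodMap (τ g)) = _
  rw [LinearMap.trace_prodMap']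
  rfl

theorem av_prod (ρ : Representation Ω S V) (τ : Representation Ω S W) (p : V × W) :
    av_idem Q (ρ.prod τ) p = (av_idem Q ρ p.1, av_idem Q τ p.2) :=
  act_prod (rs Q ρ) (rs Q τ) _ p

/-- a representation stable under the group is stable under the group algebra -/
theorem act_mem {G : Type u} [Group G] [Finite G] {ρ : Representation Ω G V}
    {U : Submodule Ω V} (hU : ∀ g, ∀ y ∈ U, ρ g y ∈ U) (s : G → Ω) {y : V} (hy : y ∈ U) :
    act ρ s y ∈ U := by
  classical
  let _ := Fintype.ofFinite G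
  rw [act_eq, LinearMap.sum_apply]
  exact Submodule.sum_mem _ fun g _ => Submodule.smul_mem _ _ (hU g y hy)

theorem span_prod {ρ : Representation Ω S V} {τ : Representation Ω S W}
    (hρ : ρ.IsIrreducible) (hτ : τ.IsIrreducible) (hne : ρ.character ≠ τ.character)
    {v : V} (hv0 : v ≠ 0) {v' : W} (hv0' : v' ≠ 0) :
    Submodule.span Ω (Set.range fun g => (ρ.prod τ) g (v, v')) = ⊤ := by
  classical
  set N := Submodule.span Ω (Set.range fun g => (ρ.prod τ) g (v, v')) with hN
  have hinv : ∀ g, ∀ y ∈ N, (ρ.prod τ) g y ∈ N := by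
    intro g y hy
    induction hy using Submodule.span_induction with
    | mem y hy =>
      obtain ⟨h, rfl⟩ := hy
      change (ρ.prod τ) g ((ρ.prod τ) h (v, v')) ∈ _
      rw [← Module.End.mul_apply, ← map_mul]
      exact Submodule.subset_span ⟨g * h, rfl⟩
    | zero => rw [map_zero]; exact zero_mem _
    | add y z _ _ hy hz => rw [map_add]; exact add_mem hy hz
    | smul a y _ hy => rw [map_smul]; exact Submodule.smul_mem _ _ hy
  have hm0 : ((v, v') : V × W) ∈ N := Submodule.subset_span ⟨1, by simp⟩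
  have hφ : ρ.character ∈ irr Ω S := mem_irr.2 (mem_irrSet hρ)
  have e1 := P15_aux.act_es_irr hρ hφ
  have e2 := P15_aux.act_es_irr hτ hφ
  rw [if_pos rfl, one_smul] at e1
  rw [if_neg hne, zero_smul] at e2
  have h1 : ((v, 0) : V × W) ∈ N := by
    have := act_mem hinv (es ρ.character) hm0
    rw [act_prod, e1, e2] at this
    exact this
  have h2 : ((0, v') : V × W) ∈ N := by
    have := N.sub_mem hm0 h1
    simpa using this
  have h3 : ∀ a : V, ((a, 0) : V × W) ∈ N := by
    intro a
    have h4 : Submodule.span Ω (Set.range fun g => ρ g v) ≤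
        N.comap (LinearMap.inl Ω V W) := by
      rw [Submodule.span_le]
      rintro _ ⟨g, rfl⟩
      change ((ρ g v, (0 : W)) : V × W) ∈ N
      have := hinv g _ h1
      have e : (ρ.prod τ) g (v, 0) = (ρ g v, τ g 0) := rfl
      rwa [e, map_zero] at this
    rw [span_orbit hρ hv0] at h4
    exact h4 (Submodule.mem_top (x := a))
  have h5 : ∀ a : W, ((0, a) : V × W) ∈ N := by
    intro a
    have h4 : Submodule.span Ω (Set.range fun g => τ g v') ≤
        N.comap (LinearMap.inr Ω V W) := by
      rw [Submodule.span_le]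
      rintro _ ⟨g, rfl⟩
      change (((0 : V), τ g v') : V × W) ∈ N
      have := hinv g _ h2
      have e : (ρ.prod τ) g (0, v') = (ρ g 0, τ g v') := rfl
      rwa [e, map_zero] at this
    rw [span_orbit hτ hv0'] at h4
    exact h4 (Submodule.mem_top (x := a))
  rw [eq_top_iff]
  rintro ⟨a, b⟩ -
  have := N.add_mem (h3 a) (h5 b)
  simpa using this

end Q03_aux

open Q03_aux

/-- (A): if `V|B` has no self dual constituent of odd dimension use `good_of_res`. Otherwise let
`v` be as in `exists_line`. If `v`, `e_Q w v` are dependent, `V^Q` is a line and `dim V` is odd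
(`parity_odd`): contradiction. Otherwise the `x v` form a basis permuted up to signs
(`good_of_monomial`). -/
theorem RankOneOdd.propA (h : RankOneOdd B Q x) (hA : PropA c 1 B) (hB : PropB c 1 B) :
    PropA c 1 S := by
  classical
  let _ : Fintype (S ⧸ B) := Fintype.ofFinite _
  refine propA_of_good fun Γ hΓ n ρ hρ hn hO hF => ?_
  have hfr : Module.finrank Ω (Fin n → Ω) = n := by simp
  by_cases hN : NoOdd (rs B ρ)
  · exact good_of_res B hA hB hΓ hO hF hN
  unfold NoOdd at hN
  push Not at hN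
  obtain ⟨W, hW, hodd, hsd⟩ := hN
  obtain ⟨v, lam, hv0, hv, hl⟩ := h.exists_line W hW hodd hsd
  have hsp := span_orbit hρ hv0
  by_cases hind : ∀ a b : Ω, a • v + b • av_idem Q ρ (ρ x v) = 0 → a = 0 ∧ b = 0
  · have h1 := h.independent hv hl hind
    have h2 := RankOneOdd.spanning hv hsp
    let b : Module.Basis (S ⧸ B) Ω (Fin n → Ω) := Module.Basis.mk h1 (by rw [h2])
    have hb : ∀ i, b i = ρ i.out v := fun i => Module.Basis.mk_apply _ _ i
    refine good_of_monomial (ι := S ⧸ B) hρ (by rw [hfr]; exact hn) b fun g i => ?_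
    obtain ⟨j, β, hβ⟩ : ∃ (j : S ⧸ B) (β : B), j.out = g * i.out * β :=
      ⟨((g * i.out : S) : S ⧸ B), QuotientGroup.mk_out_eq_mul B (g * i.out)⟩
    refine ⟨j, ?_⟩
    rw [hb, hb]
    have h3 : ρ g (ρ i.out v) = ((lam β⁻¹ : ℤ) : Ω) • ρ j.out v := by
      have h4 : g * i.out = j.out * ((β⁻¹ : B) : S) := by
        rw [hβ, InvMemClass.coe_inv, mul_inv_cancel_right]
      rw [← Module.End.mul_apply, ← map_mul, h4, map_mul, Module.End.mul_apply, hv, map_smul]
    rw [h3]
    rcases Int.units_eq_one_or (lam β⁻¹) with h5 | h5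
    · left
      rw [h5]
      simp
    · right
      rw [h5]
      simp
  · exfalso
    have h1 := finrank_one h hρ hv0 hv hl hind
    have hsdρ : SD (rs Q ρ) := fun q => sd_of_orth hO (q : S)
    have h2 := parity_odd h.odd hsdρ
    rw [h1, hfr] at h2
    exact (Nat.not_even_iff_odd.2 (h2.2 odd_one)) hn

/-- Let `ρ`, `τ` be irreducible of odd degree with different characters, with vectors `v`, `v'` on
which `B` acts by the same signs `lam` (trivial on `Q`). Then the characters of `ρ` and `τ` differ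
at some element of `Q`.  (`V^Q` and `W^Q` are lines, since otherwise the degree would be the even
number `[S:B]`. `M = V × W` is spanned by the orbit of `m₀ = (v, v')` (Goursat). `M^Q` is two
dimensional, so `m₀` and `e_Q w m₀` are independent and the trace of `g ∈ Q` on `M` is the number
`f(g)` of fixed points on `S/B`. If the characters agree on `Q` then `f(g) = 2 ρ(g)`, so `f(g)` is
even (algebraic integers) and positive, and `∑_{g ∈ Q} f(g) = 2 |Q|` (Burnside) gives `f(1) = 2`,
i.e. `[S:B] = 2`.) -/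
theorem RankOneOdd.differ (h : RankOneOdd B Q x) {ρ : Representation Ω S V}
    {τ : Representation Ω S W} (hρ : ρ.IsIrreducible) (hτ : τ.IsIrreducible)
    (hodd : Odd (Module.finrank Ω V)) (hodd' : Odd (Module.finrank Ω W))
    (hne : ρ.character ≠ τ.character) {lam : B →* ℤˣ}
    (hl : ∀ b : B, (b : S) ∈ Q → lam b = 1) {v : V} (hv0 : v ≠ 0)
    (hv : ∀ b : B, ρ b v = ((lam b : ℤ) : Ω) • v) {v' : W} (hv0' : v' ≠ 0)
    (hv' : ∀ b : B, τ b v' = ((lam b : ℤ) : Ω) • v') :
    ∃ g ∈ Q, ρ.character g ≠ τ.character g := by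
  classical
  let _ : Fintype (S ⧸ B) := Fintype.ofFinite _
  let _ : Fintype Q := Fintype.ofFinite _
  by_contra hcon
  push Not at hcon
  have ni := not_ind h hρ hodd hv0 hv hl
  have ni' := not_ind h hτ hodd' hv0' hv' hl
  obtain ⟨α, hα⟩ := dep hv0 ni
  obtain ⟨β, hβ⟩ := dep hv0' ni'
  have hsp := span_prod hρ hτ hne hv0 hv0'
  have hm : ∀ b : B, (ρ.prod τ) b ((v, v') : V × W) = ((lam b : ℤ) : Ω) • ((v, v') : V × W) := by
    intro b
    have e : (ρ.prod τ) b (v, v') = (ρ b v, τ b v') := rfl
    rw [e, hv, hv']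
    rfl
  have hav : av_idem Q (ρ.prod τ) ((ρ.prod τ) x (v, v')) = (α • v, β • v') := by
    rw [av_prod]
    have e : (ρ.prod τ) x (v, v') = (ρ x v, τ x v') := rfl
    rw [e]
    simp only
    rw [hα, hβ]
  have hfix : ∀ q ∈ Q, (ρ.prod τ) q ((v, 0) : V × W) = (v, 0) := by
    intro q hq
    have e : (ρ.prod τ) q ((v, 0) : V × W) = (ρ q v, τ q 0) := rfl
    rw [e, map_zero, fixed_v h hv hl q hq]
  obtain ⟨a, b, hab⟩ := h.fixed_span hm hl hsp hfix
  rw [hav] at hab
  have e1 : v = (a + b * α) • v := by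
    have := congrArg Prod.fst hab
    simp only [Prod.smul_mk, Prod.mk_add_mk] at this
    rw [smul_smul, ← add_smul] at this
    exact this
  have e2 : (0 : W) = (a + b * β) • v' := by
    have := congrArg Prod.snd hab
    simp only [Prod.smul_mk, Prod.mk_add_mk] at this
    rw [smul_smul, ← add_smul] at this
    exact this
  have e3 : a + b * α = 1 := by
    have h1 : (a + b * α - 1) • v = 0 := by
      rw [sub_smul, one_smul, ← e1, sub_self]
    rcases smul_eq_zero.1 h1 with h2 | h2
    · linear_combination h2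
    · exact absurd h2 hv0
  have e4 : a + b * β = 0 := by
    rcases smul_eq_zero.1 e2.symm with h2 | h2
    · exact h2
    · exact absurd h2 hv0'
  have hαβ : α - β ≠ 0 := by
    intro h0
    have : b * (α - β) = 1 := by linear_combination e3 - e4
    rw [h0, mul_zero] at this
    exact zero_ne_one this
  have hind : ∀ a b : Ω, a • ((v, v') : V × W) +
      b • av_idem Q (ρ.prod τ) ((ρ.prod τ) x (v, v')) = 0 → a = 0 ∧ b = 0 := by
    intro a b h0
    rw [hav] at h0
    have f1 : (a + b * α) • v = 0 := by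
      have := congrArg Prod.fst h0
      simp only [Prod.smul_mk, Prod.mk_add_mk] at this
      rw [smul_smul, ← add_smul] at this
      exact this
    have f2 : (a + b * β) • v' = 0 := by
      have := congrArg Prod.snd h0
      simp only [Prod.smul_mk, Prod.mk_add_mk] at this
      rw [smul_smul, ← add_smul] at this
      exact this
    have g1 : a + b * α = 0 := (smul_eq_zero.1 f1).resolve_right hv0
    have g2 : a + b * β = 0 := (smul_eq_zero.1 f2).resolve_right hv0'
    have g3 : b * (α - β) = 0 := by linear_combination g1 - g2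
    have g4 : b = 0 := (mul_eq_zero.1 g3).resolve_right hαβ
    refine ⟨?_, g4⟩
    rw [g4, zero_mul, add_zero] at g1
    exact g1
  have hI := h.independent hm hl hind
  have hS := RankOneOdd.spanning hm hsp
  have htr : ∀ g ∈ Q, 2 * ρ.character g = (fixp (S ⧸ B) g : Ω) := by
    intro g hg
    rw [← h.trace_eq hm hl hI hS hg, char_prod, ← hcon g hg]
    ring
  -- the numbers of fixed points are even and positive
  have hge : ∀ g ∈ Q, 2 ≤ fixp (S ⧸ B) g := by
    intro g hg
    obtain ⟨k, hk⟩ := P32_aux.exists_int_of_two_mul (P32_aux.char_integral ρ g)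
      (m := (fixp (S ⧸ B) g : ℤ)) (by rw [htr g hg]; simp)
    have hpos : 0 < fixp (S ⧸ B) g := by
      unfold fixp
      have : Nonempty {y : S ⧸ B // g • y = y} := by
        refine ⟨⟨((1 : S) : S ⧸ B), ?_⟩⟩
        change ((g * 1 : S) : S ⧸ B) = ((1 : S) : S ⧸ B)
        rw [mul_one, QuotientGroup.eq]
        simpa using h.le hg
      exact Nat.card_pos
    omega
  -- the sum over `Q`
  have hone := finrank_one h hρ hv0 hv hl ni
  have hc : (Nat.card Q : Ω) ≠ 0 := Nat.cast_ne_zero.2 Nat.card_pos.ne'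
  let _ : Invertible (Nat.card Q : Ω) := invertibleOfNonzero hc
  have hsum := Representation.card_inv_mul_sum_char_eq_finrank (ρ := rs Q ρ)
  rw [hone, Nat.cast_one, inv_mul_eq_iff_eq_mul₀ hc, mul_one] at hsum
  have hsum2 : ∑ q : Q, (fixp (S ⧸ B) (q : S) : Ω) = 2 * (Nat.card Q : Ω) := by
    rw [← hsum, Finset.mul_sum]
    refine Finset.sum_congr rfl fun q _ => ?_
    rw [← htr q q.2]
    rfl
  have hsum3 : ∑ q : Q, fixp (S ⧸ B) (q : S) = 2 * Nat.card Q := by
    have : ((∑ q : Q, fixp (S ⧸ B) (q : S) : ℕ) : Ω) = ((2 * Nat.card Q : ℕ) : Ω) := by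
      push_cast
      exact hsum2
    exact_mod_cast this
  have hall : ∑ q : Q, fixp (S ⧸ B) (q : S) = ∑ _q : Q, 2 := by
    rw [hsum3, Finset.sum_const, Finset.card_univ, ← Nat.card_eq_fintype_card, smul_eq_mul,
      mul_comm]
  have hone' := (Finset.sum_eq_sum_iff_of_le (fun (q : Q) _ => hge (q : S) q.2)).1 hall.symm
    (1 : Q) (Finset.mem_univ _)
  have hidx : fixp (S ⧸ B) (((1 : Q) : Q) : S) = B.index := by
    unfold fixp Subgroup.index
    refine Nat.card_congr (Equiv.subtypeUnivEquiv fun y => ?_)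
    change (1 : S) • y = y
    rw [one_smul]
  rw [hidx] at hone'
  have := h.index
  omega

/-- (B): `propB_res` for `B`, then `exists_line`, `differ` for `ρ` and its twist `tw σ ρ`, and
`lemma_U`. (`propB_one` with `m = |S|`; `propB_mono` for the hypothesis on `B`.) -/
theorem RankOneOdd.propB (h : RankOneOdd B Q x) (hB : PropB c 1 B) : PropB c 1 S := by
  have hm : Nat.card S ≠ 0 := Nat.card_pos.ne'
  refine propB_one hm (dvd_refl _) ?_
  intro Γ hΓ n ρ hρ hn hγ d hd hσ
  have hfr : Module.finrank Ω (Fin n → Ω) = n := by simp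
  rcases propB_res B (propB_mono hB) hΓ hm (dvd_refl _) (by rw [hfr]; exact hn) hγ hd hσ
    with h1 | ⟨W, hW, hodd, hsd⟩
  · exact h1
  obtain ⟨v, lam, hv0, hv, hl⟩ := h.exists_line W hW hodd hsd
  by_cases hall : ∀ σ ∈ Γ, Fixes σ ρ
  · refine inV_of_fx hd fun σ hs => ?_
    rw [hσ σ hs, if_pos (hall σ hs)]
  push Not at hall
  obtain ⟨σ, hs, hnf⟩ := hall
  have hne : ρ.character ≠ (tw σ ρ).character := by
    intro h0
    apply hnf
    intro g
    rw [← tw_char, ← h0]
  have hv0' : (fun i => σ (v i)) ≠ (0 : Fin n → Ω) := by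
    intro h0
    apply hv0
    funext i
    have h1 := congrFun h0 i
    simp only [Pi.zero_apply] at h1
    exact (map_eq_zero σ).1 h1
  have hv' : ∀ b : B, tw σ ρ b (fun i => σ (v i)) = ((lam b : ℤ) : Ω) • (fun i => σ (v i)) := by
    intro b
    rw [tw_apply_comp, hv b]
    funext i
    simp only [Pi.smul_apply, smul_eq_mul, map_mul, map_intCast]
  obtain ⟨g, hg, hgne⟩ := h.differ hρ (tw_irr σ hρ) (by rw [hfr]; exact hn)
    (by rw [hfr]; exact hn) hne hl hv0 hv hv0' hv'
  rw [tw_char] at hgne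
  refine lemma_U (ok_one hΓ) h.odd (g := g) ?_ hs (fun h0 => hgne h0.symm) hd hσ
  have h1 : g ^ Nat.card Q = 1 := by
    have := pow_card_eq_one' (x := (⟨g, hg⟩ : Q))
    exact congrArg Subtype.val this
  rw [mul_comm, pow_mul, h1, one_pow]

end

end Parker
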