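import Pool.Agent.Parker.Defs
import Pool.Agent.Parker.P01
import Pool.Agent.Parker.P02
import Pool.Agent.Parker.P13
import Pool.Agent.Parker.P19
import Pool.Agent.Parker.P25
import Pool.Agent.Parker.P28
import Pool.Agent.Parker.P29

/-!
# MP_6c3636_al, module Q04: the reduction theorem for minimal counterexamples (helper7)
-/

namespace Parker

universe u v

noncomputable section

variable {Ω : Type} [Field Ω] [IsAlgClosed Ω] [CharZero Ω] {c : Ctx Ω}

/-- the property that (A) and (B) for all proper subgroups imply (A) and (B) for `S` -/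
def PropAB' (c : Ctx Ω) (S : Type u) [Group S] [Finite S] : Prop :=
  (∀ H : Subgroup S, H ≠ ⊤ → PropA c 1 H ∧ PropB c 1 H) → PropA c 1 S ∧ PropB c 1 S

/-- the property passes to isomorphic groups -/
theorem propAB'_congr {S S' : Type u} [Group S] [Finite S] [Group S'] [Finite S'] (e : S ≃* S')
    (h : PropAB' c S) : PropAB' c S' := by
  intro hsub
  have h1 : PropA c 1 S ∧ PropB c 1 S := by
    apply h
    intro H hH
    have hH' : H.map e.toMonoidHom ≠ ⊤ := by
      intro ht
      apply hH
      rw [eq_top_iff]
      intro x _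
      have hx : e x ∈ H.map e.toMonoidHom := by
        rw [ht]
        exact Subgroup.mem_top _
      obtain ⟨y, hy, hyx⟩ := hx
      have : y = x := e.injective hyx
      rw [← this]
      exact hy
    obtain ⟨ha, hb⟩ := hsub _ hH'
    have e' : (H.map e.toMonoidHom : Subgroup S') ≃* H := (e.subgroupMap H).symm
    exact ⟨propA_congr e' ha, propB_congr e' hb⟩
  exact ⟨propA_congr e h1.1, propB_congr e h1.2⟩

namespace Q04_aux

theorem main_aux' {m : ℕ} (hm : m ≠ 0) : ∀ (k : ℕ) (G : Type u) [Group G] [Finite G],
    Nat.card G = k → Nat.card G ∣ m → OnSimple (fun S _ _ => PropAB' c S) G →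
    PropA c m G ∧ PropB c m G := by
  intro k
  induction k using Nat.strong_induction_on with
  | _ k ih =>
    intro G _ _ hk hG h
    have hP : ∀ (S S' : Type u) [Group S] [Finite S] [Group S'] [Finite S'], S ≃* S' →
        PropAB' c S → PropAB' c S' := fun S S' _ _ _ _ e => propAB'_congr e
    have hsub : ∀ H : Subgroup G, H ≠ ⊤ → PropA c m H ∧ PropB c m H := by
      intro H hH
      refine ih (Nat.card H) ?_ H rfl ((Subgroup.card_subgroup_dvd_card H).trans hG)
        (onSimple_sub hP h H)
      rw [← hk]
      refine lt_of_le_of_ne (Subgroup.card_le_card_group H) fun h1 => hH ?_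
      exact Subgroup.eq_top_of_card_eq H h1
    have hquot : ∀ (M : Subgroup G) [M.Normal], M ≠ ⊥ → PropA c m (G ⧸ M) ∧ PropB c m (G ⧸ M) := by
      intro M _ hM
      refine ih (Nat.card (G ⧸ M)) ?_ (G ⧸ M) rfl
        ((Subgroup.card_quotient_dvd_card M).trans hG) (onSimple_quot hP h M)
      rw [← hk, Subgroup.card_eq_card_quotient_mul_card_subgroup M]
      have h1 : 1 < Nat.card M := by
        rw [Subgroup.one_lt_card_iff_ne_bot]
        exact hM
      have h2 : 0 < Nat.card (G ⧸ M) := Nat.card_pos
      nlinarith
    have hsimple : IsSimpleGroup G → ¬ (∀ x y : G, x * y = y * x) →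
        PropA c 1 G ∧ PropB c 1 G := by
      intro hs hn
      refine onSimple_self hP h hs hn ?_
      intro H hH
      have hd : Nat.card H ∣ m := (Subgroup.card_subgroup_dvd_card H).trans hG
      exact ⟨propA_one hm hd (hsub H hH).1, propB_one hm hd (hsub H hH).2⟩
    exact ⟨claimA hm hG (fun hs hn => propA_mono (hsimple hs hn).1) hsub
        (fun M _ hM => (hquot M hM).1),
      claimB hm hG (fun hs hn => propB_mono (hsimple hs hn).2) (fun H hH => (hsub H hH).2)
        (fun M _ hM => (hquot M hM).2)⟩

end Q04_aux

/-- MAIN THEOREM 1': a minimal counterexample to (A) and (B) is a nonabelian simple group. (Same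
induction as `main_reduction`, with `claimA`, `claimB`; in the simple case use the induction
hypothesis for the proper subgroups.) -/
theorem main_reduction' (G : Type u) [Group G] [Finite G]
    (h : OnSimple (fun S _ _ => PropAB' c S) G) : PropA c 1 G ∧ PropB c 1 G := by
  have hm : Nat.card G ≠ 0 := Nat.card_pos.ne'
  obtain ⟨h1, h2⟩ := Q04_aux.main_aux' hm (Nat.card G) G rfl dvd_rfl h
  exact ⟨propA_one hm dvd_rfl h1, propB_one hm dvd_rfl h2⟩

end

end Parker
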