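import Pool.Agent.Parker.Defs
import Pool.Agent.Parker.P01
import Pool.Agent.Parker.P06
import Pool.Agent.Parker.P08
import Pool.Agent.Parker.P09
import Pool.Agent.Parker.P10
import Pool.Agent.Parker.P13
import Pool.Agent.Parker.P15
import Pool.Agent.Parker.P29
import Pool.Agent.Parker.P30
import Pool.Agent.Parker.P31
import Pool.Agent.Parker.P32
import Pool.Agent.Parker.P34
import Pool.Agent.Parker.Q05

/-!
# MP_6c3636_al, module Q06: (A) and (B) for normal subgroups of odd index of groups with rank one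
data in characteristic two (helper7); generalizes P34
-/

namespace Parker

universe u v w

noncomputable section

variable {Ω : Type} [Field Ω] [IsAlgClosed Ω] [CharZero Ω] {c : Ctx Ω}

namespace Q06_aux

/-- the regular representation on functions -/
def reg (Ω : Type) [Field Ω] (G : Type u) [Group G] : Representation Ω G (G → Ω) where
  toFun g :=
    { toFun := fun f x => f (g⁻¹ * x)
      map_add' := fun _ _ => rfl
      map_smul' := fun _ _ => rfl }
  map_one' := by
    ext f x
    simp
  map_mul' g h := by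
    ext f x
    simp [mul_assoc]

omit [IsAlgClosed Ω] [CharZero Ω] in
theorem reg_apply {G : Type u} [Group G] (g : G) (f : G → Ω) (x : G) :
    reg Ω G g f x = f (g⁻¹ * x) := rfl

theorem act_reg_ne {G : Type u} [Group G] [Finite G] (N : Subgroup G) {φ : N → Ω}
    (hφ : φ ∈ irr Ω N) : act (rs N (reg Ω G)) (es φ) ≠ 0 := by
  classical
  intro h0
  have := Fintype.ofFinite N
  have h1 := congrArg (fun f : Module.End Ω (G → Ω) => f (Pi.single 1 1) 1) h0
  simp only [act_eq, LinearMap.sum_apply, LinearMap.smul_apply, LinearMap.zero_apply,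
    Finset.sum_apply, Pi.smul_apply, Pi.zero_apply, smul_eq_mul] at h1
  rw [Finset.sum_eq_single (1 : N)] at h1
  · have h2 : rs N (reg Ω G) 1 (Pi.single 1 1) 1 = (1 : Ω) := by
      rw [map_one, Module.End.one_apply, Pi.single_eq_same]
    rw [h2, mul_one] at h1
    unfold es at h1
    have h3 := dg_spec hφ
    have h4 : φ 1 ≠ 0 := by
      rw [← h3.1]
      exact Nat.cast_ne_zero.mpr h3.2.ne'
    have h5 : (Nat.card N : Ω)⁻¹ ≠ 0 := inv_ne_zero (Nat.cast_ne_zero.mpr Nat.card_pos.ne')
    rw [inv_one] at h1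
    exact mul_ne_zero (mul_ne_zero h4 h5) h4 h1
  · intro b _ hb
    have h2 : rs N (reg Ω G) b (Pi.single 1 1) 1 = (0 : Ω) := by
      change (Pi.single 1 1 : G → Ω) ((b : G)⁻¹ * 1) = 0
      rw [Pi.single_eq_of_ne]
      intro h3
      apply hb
      rw [mul_one, inv_eq_one] at h3
      exact Subtype.ext h3
    rw [h2, mul_zero]
  · intro h
    exact absurd (Finset.mem_univ _) h

end Q06_aux

open Q06_aux

/-- every irreducible character of a subgroup lies under an irreducible representation of the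
group -/
theorem exists_over {G : Type u} [Group G] [Finite G] (N : Subgroup G) {φ : N → Ω}
    (hφ : φ ∈ irr Ω N) : ∃ (n : ℕ) (ρ : Representation Ω G (Fin n → Ω)), ρ.IsIrreducible ∧
      mul (rs N ρ).character φ ≠ 0 := by
  by_contra hcon
  push Not at hcon
  apply act_reg_ne (Ω := Ω) N hφ
  refine P15_aux.eq_zero_of_irr (reg Ω G) _ ?_
  intro W hW x hx
  obtain ⟨τ, ⟨e⟩⟩ := exists_fin W.toRepresentation
  have hτ : τ.IsIrreducible := equiv_irr e hW
  have h1 := hcon _ τ hτ
  have h2 : (rs N W.toRepresentation).character = (rs N τ).character := by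
    funext n
    exact congrFun (Representation.char_iso e) (n : G)
  rw [← h2] at h1
  have h3 : act (rs N W.toRepresentation) (es φ) = 0 := by
    by_contra h4
    exact (idem_ne_zero_iff (rs N W.toRepresentation) hφ).mp h4 h1
  have h4 : act (rs N (reg Ω G)) (es φ) x =
      ((act (rs N W.toRepresentation) (es φ) ⟨x, hx⟩ : W.toSubmodule) : G → Ω) := by
    have := Fintype.ofFinite N
    rw [act_eq, act_eq, LinearMap.sum_apply, LinearMap.sum_apply]
    rw [AddSubmonoidClass.coe_finsetSum]
    rfl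
  rw [h4, h3]
  rfl

variable {S : Type u} [Group S] [Finite S] {U T : Subgroup S} {w : S} {F : S ≃* S}
  {V : Type v} [AddCommGroup V] [Module Ω V] [FiniteDimensional Ω V]

namespace Q06_aux

open P34_aux

omit [Finite S] in
theorem norm_inv (h : RankOneEven U T w F) {t : S} (ht : t ∈ T) {u : S} (hu : u ∈ U) :
    t⁻¹ * u * t ∈ U := by
  have := h.norm t⁻¹ (T.inv_mem ht) u hu
  rwa [inv_inv] at this

omit [IsAlgClosed Ω] [CharZero Ω] in
theorem finrank_eig_le (h : RankOneEven U T w F) (ρ : Representation Ω S V) {lam mu : U →* ℤˣ}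
    (t : T) (ht : ∀ x y : U, (y : S) = (t : S)⁻¹ * x * t → mu x = lam y) :
    Module.finrank Ω (eig (rs U ρ) lam) ≤ Module.finrank Ω (eig (rs U ρ) mu) := by
  have hinj : Function.Injective (ρ (t : S)) := by
    intro x y hxy
    have := congrArg (ρ (t : S)⁻¹) hxy
    rw [← Module.End.mul_apply, ← Module.End.mul_apply, ← map_mul, inv_mul_cancel, map_one] at this
    exact this
  have hmap : ∀ v ∈ eig (rs U ρ) lam, ρ (t : S) v ∈ eig (rs U ρ) mu := by
    intro v hv x
    have hy : (t : S)⁻¹ * x * t ∈ U := norm_inv h t.2 x.2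
    have h1 := ht x ⟨_, hy⟩ rfl
    have h2 := hv ⟨_, hy⟩
    change ρ (x : S) (ρ (t : S) v) = _
    change ρ ((t : S)⁻¹ * x * t) v = _ at h2
    rw [h1, ← map_smul, ← h2, ← Module.End.mul_apply, ← Module.End.mul_apply, ← map_mul, ← map_mul]
    congr 2
    group
  exact LinearMap.finrank_le_finrank_of_injective
    (f := (ρ (t : S)).restrict hmap) (fun x y hxy => Subtype.ext (hinj (congrArg Subtype.val hxy)))

theorem card_ne_one (h : RankOneEven U T w F) {lam : U →* ℤˣ} (hl : lam ≠ 1) :
    Nat.card {mu : U →* ℤˣ // mu ≠ 1} = Nat.card T := by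
  have ht : ∀ mu : {mu : U →* ℤˣ // mu ≠ 1}, ∃! t : T, ∀ x y : U,
      (y : S) = (t : S)⁻¹ * x * t → mu.1 x = lam y := fun mu => h.trans lam mu.1 hl mu.2
  choose f hf hfu using ht
  refine Nat.card_congr (Equiv.ofBijective f ⟨?_, ?_⟩)
  · intro mu mu' hmu
    refine Subtype.ext (MonoidHom.ext fun x => ?_)
    have hy : (f mu : S)⁻¹ * x * (f mu) ∈ U := norm_inv h (f mu).2 x.2
    have h1 := hf mu x ⟨_, hy⟩ rfl
    have h2 := hf mu' x ⟨_, hy⟩ (congrArg (fun s : T => (s : S)⁻¹ * x * s) hmu)
    rw [h1, h2]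
  · intro t
    let mu : U →* ℤˣ := MonoidHom.mk' (fun x => lam ⟨(t : S)⁻¹ * x * t, norm_inv h t.2 x.2⟩)
      (by
        intro a b
        rw [← map_mul]
        congr 1
        refine Subtype.ext ?_
        simp only [Subgroup.coe_mul]
        group)
    have hmu : mu ≠ 1 := by
      intro h1
      apply hl
      refine MonoidHom.ext fun x => ?_
      have h2 : mu ⟨(t : S) * x * (t : S)⁻¹, h.norm t t.2 x x.2⟩ = 1 := by rw [h1]; rfl
      change lam ⟨(t : S)⁻¹ * ((t : S) * x * (t : S)⁻¹) * t, _⟩ = 1 at h2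
      rw [MonoidHom.one_apply, ← h2]
      congr 1
      refine Subtype.ext ?_
      simp only
      group
    refine ⟨⟨mu, hmu⟩, ?_⟩
    refine (hfu ⟨mu, hmu⟩ t ?_).symm
    intro x y hxy
    change lam ⟨(t : S)⁻¹ * x * t, _⟩ = lam y
    congr 1
    exact Subtype.ext hxy.symm

theorem sum_rank [Fintype (U →* ℤˣ)] (h : RankOneEven U T w F) (ρ : Representation Ω S V)
    {lam : U →* ℤˣ} (hl : lam ≠ 1) :
    ∑ mu : U →* ℤˣ, Module.finrank Ω (eig (rs U ρ) mu) =
      Module.finrank Ω (eig (rs U ρ) 1) + Nat.card T * Module.finrank Ω (eig (rs U ρ) lam) := by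
  classical
  rw [← Finset.add_sum_erase Finset.univ _ (Finset.mem_univ (1 : U →* ℤˣ))]
  congr 1
  have h1 : ∀ mu ∈ (Finset.univ.erase (1 : U →* ℤˣ)),
      Module.finrank Ω (eig (rs U ρ) mu) = Module.finrank Ω (eig (rs U ρ) lam) := by
    intro mu hmu
    have hmu' : mu ≠ 1 := (Finset.mem_erase.mp hmu).1
    obtain ⟨t, ht, -⟩ := h.trans lam mu hl hmu'
    obtain ⟨t', ht', -⟩ := h.trans mu lam hmu' hl
    exact le_antisymm (finrank_eig_le h ρ t' ht') (finrank_eig_le h ρ t ht)
  rw [Finset.sum_congr rfl h1, Finset.sum_const, smul_eq_mul]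
  congr 1
  rw [← card_ne_one h hl, Nat.card_eq_fintype_card, Fintype.card_subtype]
  congr 1
  ext mu
  simp

open Classical in
/-- the coefficients of the difference of the averages over `[U,U]` and `U` -/
def coef (Ω : Type) [Field Ω] {H : Type u} [Group H] (u : H) : Ω :=
  (if u ∈ commutator H then (Nat.card (commutator H) : Ω)⁻¹ else 0) - (Nat.card H : Ω)⁻¹

omit [IsAlgClosed Ω] in
theorem diff_eq {H : Type u} [Group H] [Fintype H] {W : Type v} [AddCommGroup W] [Module Ω W]
    [FiniteDimensional Ω W] (σ : Representation Ω H W) :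
    (Module.finrank Ω (rs (commutator H) σ).invariants : Ω) -
      (Module.finrank Ω σ.invariants : Ω) = ∑ u : H, coef Ω u * σ.character u := by
  classical
  have := Fintype.ofFinite (commutator H)
  have hne : (Nat.card H : Ω) ≠ 0 := Nat.cast_ne_zero.mpr Nat.card_pos.ne'
  have hne' : (Nat.card (commutator H) : Ω) ≠ 0 := Nat.cast_ne_zero.mpr Nat.card_pos.ne'
  let _ : Invertible (Nat.card H : Ω) := invertibleOfNonzero hne
  let _ : Invertible (Nat.card (commutator H) : Ω) := invertibleOfNonzero hne'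
  rw [← Representation.card_inv_mul_sum_char_eq_finrank (rs (commutator H) σ),
    ← Representation.card_inv_mul_sum_char_eq_finrank σ]
  unfold coef
  simp only [sub_mul, Finset.sum_sub_distrib]
  congr 1
  · rw [Finset.mul_sum]
    simp only [ite_mul, zero_mul]
    rw [← Finset.sum_filter,
      Finset.sum_subtype (p := fun g => g ∈ commutator H)
        (Finset.univ.filter fun g => g ∈ commutator H) (by simp)]
    rfl
  · rw [Finset.mul_sum]

omit [IsAlgClosed Ω] [CharZero Ω] in
theorem coef_equiv {H : Type u} [Group H] (e : H ≃* H) (u : H) : coef Ω (e u) = coef Ω u := by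
  classical
  have h1 : e u ∈ commutator H ↔ u ∈ commutator H := by
    have h2 : (commutator H).comap e.toMonoidHom = commutator H :=
      Subgroup.characteristic_iff_comap_eq.mp inferInstance e
    constructor
    · intro h3
      rw [← h2]
      exact h3
    · intro h3
      rw [← h2] at h3
      exact h3
  unfold coef
  simp only [h1]

/-- the difference functional on class functions of `N` -/
def Lc {N : Subgroup S} (hUN : U ≤ N) [Fintype U] (χ : N → Ω) : Ω :=
  ∑ u : U, coef Ω u * χ ⟨u, hUN u.2⟩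

theorem Lc_cj (h : RankOneEven U T w F) (N : Subgroup S) [N.Normal] (hN : Odd N.index)
    (hUN : U ≤ N) [Fintype U] {φ : N → Ω} (hφ : φ ∈ irr Ω N) (g : S) :
    Lc hUN (cj N g φ) = Lc hUN φ := by
  obtain ⟨-, -, hd, -⟩ := h.normal_odd N hN
  obtain ⟨n, hn, t, ht, rfl⟩ := hd g
  rw [cj_mul, cj_self N (cj_mem_irr N hφ t) ⟨n, hn⟩]
  let e : U ≃* U :=
    { toFun := fun u => ⟨t⁻¹ * u * t, norm_inv h ht u.2⟩
      invFun := fun u => ⟨t * u * t⁻¹, h.norm t ht u u.2⟩
      left_inv := fun u => Subtype.ext (by simp only; group)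
      right_inv := fun u => Subtype.ext (by simp only; group)
      map_mul' := fun u u' => Subtype.ext (by simp only [Subgroup.coe_mul]; group) }
  unfold Lc
  rw [← Equiv.sum_comp e.toEquiv (fun u : U => coef Ω u * φ ⟨u, hUN u.2⟩)]
  refine Finset.sum_congr rfl fun u _ => ?_
  have h1 : coef Ω (e.toEquiv u) = coef Ω u := coef_equiv e u
  rw [h1]
  congr 1
  unfold cj
  congr 1
  refine Subtype.ext ?_
  simp [e, MulAut.conjNormal_apply]

end Q06_aux

open P34_aux in
/-- for an irreducible representation of `S` with an eigenvector for a nontrivial linear character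
of `U`: `dim V^{[U,U]} - dim V^U = |T|` (each nontrivial linear character of `U` has multiplicity
one: `mult_one`, `trans`; there are `|T|` of them, all `±1`-valued by `sq`) -/
theorem RankOneEven.linear_part (h : RankOneEven U T w F) {ρ : Representation Ω S V}
    (hρ : ρ.IsIrreducible) {lam : U →* ℤˣ} (hl : lam ≠ 1) {v : V} (hv0 : v ≠ 0)
    (hv : ∀ u : U, ρ u v = ((lam u : ℤ) : Ω) • v) :
    Module.finrank Ω (rs (commutator U) (rs U ρ)).invariants =
      Module.finrank Ω (rs U ρ).invariants + Nat.card T := by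
  have := Fintype.ofFinite (U →* ℤˣ)
  rw [sum_eig h.sq (rs U ρ), Q06_aux.sum_rank h ρ hl]
  have h2 : Module.finrank Ω (eig (rs U ρ) lam) = 1 := by
    rw [finrank_eq_one_iff_of_nonzero' (⟨v, hv⟩ : eig (rs U ρ) lam)
      (fun h0 => hv0 (congrArg Subtype.val h0))]
    rintro ⟨v', hv'⟩
    obtain ⟨a, ha⟩ := h.mult_one hl hρ hv0 hv hv'
    exact ⟨a, Subtype.ext ha.symm⟩
  have h3 : eig (rs U ρ) 1 = (rs U ρ).invariants := by
    ext x
    rw [mem_eig, Representation.mem_invariants]
    simp
  rw [h3, h2, mul_one]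

/-- `N` normal of odd index in `S`, `ρ` an irreducible self dual representation of `N` of even
degree without nonzero vectors fixed by `N ∩ B`: there is no eigenvector for a nontrivial linear
character of `U`. (`L(ρ) = dim V^{[U,U]} - dim V^U` is even: `parity_two_group`, `parity_odd` for
`T ∩ N` on `V^U`. Let `ρ'` be irreducible over `ρ` (`exists_over`). `L` is additive and invariant
under conjugation by `S = N T`, so `|T| = L(ρ') = k L(ρ)` by Clifford, and `L(ρ)` is odd.) -/
theorem RankOneEven.no_linear (h : RankOneEven U T w F) (N : Subgroup S) [N.Normal]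
    (hN : Odd N.index) (hUN : U ≤ N) {ρ : Representation Ω N V}
    (hρ : ρ.IsIrreducible) (hev : Even (Module.finrank Ω V)) (hsd : SD ρ)
    (hB : ∀ v : V, (∀ b : N, (b : S) ∈ h.borel → ρ b v = v) → v = 0) {lam : U →* ℤˣ}
    (hl : lam ≠ 1) {v : V} (hv : ∀ u : U, ρ ⟨u, hUN u.2⟩ v = ((lam u : ℤ) : Ω) • v) : v = 0 := by
  classical
  by_contra hv0
  have := Fintype.ofFinite U
  obtain ⟨k, hk⟩ := h.two
  -- the representation of `U` on `V`
  let σ : Representation Ω U V := MonoidHom.comp ρ (Subgroup.inclusion hUN)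
  have hA : Even (Module.finrank Ω (rs (commutator U) σ).invariants) := by
    rw [← Nat.not_odd_iff_even, ← parity_two_group hk σ, Nat.not_odd_iff_even]
    exact hev
  have hT' : Odd (Nat.card (T.subgroupOf N)) := by
    have h1 : Nat.card (T.subgroupOf N) ∣ Nat.card T := by
      have h2 : Nat.card (T.subgroupOf N) = Nat.card ((N.subtype.comp (T.subgroupOf N).subtype).range) := by
        refine Nat.card_congr (MonoidHom.ofInjective ?_).toEquiv
        exact (Subtype.val_injective).comp Subtype.val_injective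
      rw [h2]
      refine Subgroup.card_dvd_of_le ?_
      rintro _ ⟨x, rfl⟩
      exact x.2
    exact Odd.of_dvd_nat h.odd h1
  have hnorm : ∀ t ∈ T.subgroupOf N, ∀ u ∈ U.subgroupOf N, t * u * t⁻¹ ∈ U.subgroupOf N := by
    intro t ht u hu
    exact h.norm t ht u hu
  have hBev : Even (Module.finrank Ω σ.invariants) := by
    obtain ⟨τ, h1, h2⟩ := exists_inv_rep (U.subgroupOf N) (T.subgroupOf N) hnorm ρ
    have h5 : (rs (U.subgroupOf N) ρ).invariants = σ.invariants := by
      ext x
      rw [Representation.mem_invariants, Representation.mem_invariants]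
      constructor
      · intro hx u
        exact hx ⟨⟨u, hUN u.2⟩, u.2⟩
      · intro hx u
        exact hx ⟨(u : N), u.2⟩
    rw [← h5, ← Nat.not_odd_iff_even, parity_odd hT' (h2 hsd)]
    have h3 : τ.invariants = ⊥ := by
      rw [Submodule.eq_bot_iff]
      intro x hx
      refine Subtype.ext ?_
      refine hB x ?_
      rintro b ⟨u, hu, t, ht, hb⟩
      have htN : t ∈ N := by
        have h6 : t = u⁻¹ * b := by rw [hb]; group
        rw [h6]
        exact N.mul_mem (N.inv_mem (hUN hu)) b.2
      have h4 : ρ ⟨t, htN⟩ (x : V) = x := by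
        have h6 := h1 ⟨⟨t, htN⟩, ht⟩ x
        rw [← h6, (Representation.mem_invariants τ x).mp hx ⟨⟨t, htN⟩, ht⟩]
      have h7 : ρ ⟨u, hUN hu⟩ (x : V) = x :=
        (Representation.mem_invariants (rs (U.subgroupOf N) ρ) x).mp x.2 ⟨⟨u, hUN hu⟩, hu⟩
      have h8 : b = ⟨u, hUN hu⟩ * ⟨t, htN⟩ := Subtype.ext hb
      rw [h8, map_mul, Module.End.mul_apply, h4, h7]
    rw [h3, finrank_bot]
    simp
  -- an irreducible representation of `S` over `ρ`
  have hφ : ρ.character ∈ irr Ω N := mem_irr.mpr (mem_irrSet hρ)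
  obtain ⟨m, ρ', hρ', hmul⟩ := exists_over N hφ
  obtain ⟨W, hW, hWc⟩ := exists_sub_of_mul hφ hmul
  obtain ⟨e⟩ := equiv_of_char hρ hW hWc.symm
  let v' : Fin m → Ω := ((e v : W.toSubmodule) : Fin m → Ω)
  have hv'0 : v' ≠ 0 := by
    intro h0
    apply hv0
    have h1 : e v = 0 := Subtype.ext h0
    exact (map_eq_zero_iff e.toLinearEquiv e.toLinearEquiv.injective).mp h1
  have hv' : ∀ u : U, ρ' u v' = ((lam u : ℤ) : Ω) • v' := by
    intro u
    have h1 := P08_aux.equiv_comm e ⟨u, hUN u.2⟩ v
    rw [hv u] at h1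
    have h2 : e (((lam u : ℤ) : Ω) • v) = ((lam u : ℤ) : Ω) • e v := map_smul e.toLinearEquiv _ _
    rw [h2] at h1
    have h3 := congrArg Subtype.val h1
    exact h3.symm
  have hlin := h.linear_part hρ' hl hv'0 hv'
  -- compare the functionals
  have e1 := diff_eq (Ω := Ω) σ
  have e2 := diff_eq (Ω := Ω) (rs U ρ')
  have e1' : ∑ u : U, coef Ω u * σ.character u = Lc hUN ρ.character := rfl
  have e2' : ∑ u : U, coef Ω u * (rs U ρ').character u = Lc hUN (rs N ρ').character := rfl
  have e3 : Lc hUN (rs N ρ').character =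
      ((∑ ψ ∈ irr Ω N, mul (rs N ρ').character ψ : ℕ) : Ω) * Lc hUN ρ.character := by
    have h1 : Lc hUN (rs N ρ').character =
        ∑ ψ ∈ irr Ω N, (mul (rs N ρ').character ψ : Ω) * Lc hUN ψ := by
      conv_lhs => rw [char_eq_sum (rs N ρ')]
      unfold Lc
      simp only [Finset.sum_apply, Pi.smul_apply, smul_eq_mul, Finset.mul_sum]
      rw [Finset.sum_comm]
      refine Finset.sum_congr rfl fun ψ _ => Finset.sum_congr rfl fun u _ => ?_
      ring
    rw [h1, Nat.cast_sum, Finset.sum_mul]
    refine Finset.sum_congr rfl fun ψ hψ => ?_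
    by_cases hm : mul (rs N ρ').character ψ = 0
    · rw [hm]
      simp
    · obtain ⟨g, rfl⟩ := clifford_trans N hρ' hφ hψ hmul hm
      rw [Lc_cj h N hN hUN hφ g]
  rw [e1'] at e1
  rw [e2', e3, ← e1, hlin] at e2
  set K : ℕ := ∑ ψ ∈ irr Ω N, mul (rs N ρ').character ψ with hK
  have e4 : ((Nat.card T : ℤ) : Ω) = (((K : ℤ) * ((Module.finrank Ω (rs (commutator U) σ).invariants : ℤ)
      - (Module.finrank Ω σ.invariants : ℤ)) : ℤ) : Ω) := by
    push_cast
    push_cast at e2
    linear_combination e2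
  have e5 := Int.cast_injective (α := Ω) e4
  have e6 : Even (Nat.card T : ℤ) := by
    rw [e5]
    refine Even.mul_left ?_ _
    exact Even.sub (by exact_mod_cast hA) (by exact_mod_cast hBev)
  have e7 : Odd (Nat.card T : ℤ) := by exact_mod_cast h.odd
  exact (Int.not_even_iff_odd.mpr e7) e6

end

end Parker
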