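import Pool.Agent.Parker.Defs
import Pool.Agent.Parker.P01
import Pool.Agent.Parker.P06
import Pool.Agent.Parker.P08
import Pool.Agent.Parker.P09
import Pool.Agent.Parker.P10
import Pool.Agent.Parker.P13
import Pool.Agent.Parker.P15
import Pool.Agent.Parker.P29
import Pool.Agent.Parker.P30
import Pool.Agent.Parker.P31
import Pool.Agent.Parker.P32
import Pool.Agent.Parker.P34
import Pool.Agent.Parker.Q05
import Pool.Agent.Parker.Q06

/-!
# MP_6c3636_al, module Q07: (A) and (B) for normal subgroups of odd index of groups with rank one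
data in characteristic two (helper7); generalizes P34
-/

namespace Parker

universe u v w

noncomputable section

variable {Ω : Type} [Field Ω] [IsAlgClosed Ω] [CharZero Ω] {c : Ctx Ω}
  {S : Type u} [Group S] [Finite S] {U T : Subgroup S} {w : S} {F : S ≃* S}
  {V : Type v} [AddCommGroup V] [Module Ω V] [FiniteDimensional Ω V]

namespace Q07_aux

omit [Finite S] in
theorem norm_inv (h : RankOneEven U T w F) {t : S} (ht : t ∈ T) {u : S} (hu : u ∈ U) :
    t⁻¹ * u * t ∈ U := by
  have := h.norm t⁻¹ (T.inv_mem ht) u hu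
  rwa [inv_inv] at this

omit [Finite S] in
theorem card_borel (h : RankOneEven U T w F) :
    Nat.card h.borel = Nat.card U * Nat.card T := by
  obtain ⟨k, hk⟩ := h.two
  have hcop : Nat.Coprime (Nat.card U) (Nat.card T) := by
    rw [hk]
    exact Nat.Coprime.pow_left k (Nat.coprime_two_left.mpr h.odd)
  have hdis : U ⊓ T = ⊥ := (Subgroup.disjoint_of_coprime_natCard hcop).eq_bot
  rw [← Nat.card_prod]
  symm
  refine Nat.card_congr (Equiv.ofBijective
    (fun p : U × T => (⟨(p.1 : S) * p.2, p.1, p.1.2, p.2, p.2.2, rfl⟩ : h.borel)) ⟨?_, ?_⟩)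
  · rintro ⟨u, t⟩ ⟨u', t'⟩ hut
    have h1 : (u : S) * t = u' * t' := congrArg Subtype.val hut
    have h2 : (u' : S)⁻¹ * u = t' * (t : S)⁻¹ := by
      rw [eq_mul_inv_iff_mul_eq, mul_assoc, h1, inv_mul_cancel_left]
    have h3 : (u' : S)⁻¹ * u ∈ U ⊓ T :=
      ⟨U.mul_mem (U.inv_mem u'.2) u.2, by rw [h2]; exact T.mul_mem t'.2 (T.inv_mem t.2)⟩
    rw [hdis, Subgroup.mem_bot] at h3
    have h4 : (u : S) = u' := (inv_mul_eq_one.mp h3).symm
    rw [h3] at h2
    have h5 : (t' : S) = t := mul_inv_eq_one.mp h2.symm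
    exact Prod.ext (Subtype.ext h4) (Subtype.ext h5.symm)
  · rintro ⟨_, u, hu, t, ht, rfl⟩
    exact ⟨(⟨u, hu⟩, ⟨t, ht⟩), rfl⟩

omit [Finite S] in
theorem even_card (h : RankOneEven U T w F) [Finite U] : Even (Nat.card U) ∧ 1 < Nat.card U := by
  obtain ⟨k, hk⟩ := h.two
  have hU1 : 1 < Nat.card U := by
    rw [Subgroup.one_lt_card_iff_ne_bot]
    exact h.ne
  refine ⟨?_, hU1⟩
  rw [hk] at hU1 ⊢
  have hk0 : k ≠ 0 := by
    rintro rfl
    simp at hU1
  exact (Nat.even_pow.mpr ⟨even_two, hk0⟩)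

/-- the exponent of `S` divides `4 r` with `r` odd -/
theorem exp4 (h : RankOneEven U T w F) (h4 : ∀ u ∈ U, u ^ 4 = 1) :
    ∃ r : ℕ, Odd r ∧ ∀ g : S, g ^ (4 * r) = 1 := by
  have hcardS : Nat.card S = (1 + Nat.card U) * (Nat.card U * Nat.card T) := by
    rw [← card_borel h, ← h.card_quot]
    exact Subgroup.card_eq_card_quotient_mul_card_subgroup h.borel
  obtain ⟨heven, hU1⟩ := even_card h
  obtain ⟨k, hk⟩ := h.two
  have hidx : U.index = (1 + Nat.card U) * Nat.card T := by
    have h1 := Subgroup.card_mul_index U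
    have h2 : 0 < Nat.card U := Nat.card_pos
    apply Nat.eq_of_mul_eq_mul_left h2
    rw [h1, hcardS]
    ring
  have hodd : ¬ 2 ∣ U.index := by
    rw [hidx, ← even_iff_two_dvd, Nat.not_even_iff_odd]
    exact (odd_one.add_even heven).mul h.odd
  have hUp : IsPGroup 2 U := IsPGroup.of_card hk
  have hfact : Fact (Nat.Prime 2) := ⟨Nat.prime_two⟩
  let P : Sylow 2 S := hUp.toSylow hodd
  obtain ⟨a, r, hr, har⟩ := Nat.exists_eq_two_pow_mul_odd (n := Nat.card S) Nat.card_pos.ne'
  refine ⟨r, hr, ?_⟩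
  intro g
  have h1 : (g ^ r) ^ (2 ^ a) = 1 := by
    rw [← pow_mul, mul_comm r, ← har]
    exact pow_card_eq_one'
  have h2 : IsPGroup 2 (Subgroup.zpowers (g ^ r)) := by
    rw [IsPGroup.iff_orderOf]
    rintro ⟨x, hx⟩
    obtain ⟨i, rfl⟩ := Subgroup.mem_zpowers_iff.mp hx
    have h3 : orderOf (⟨(g ^ r) ^ i, hx⟩ : Subgroup.zpowers (g ^ r)) ∣ 2 ^ a := by
      rw [orderOf_dvd_iff_pow_eq_one]
      refine Subtype.ext ?_
      change ((g ^ r) ^ i) ^ (2 ^ a) = 1
      rw [← zpow_natCast, ← zpow_mul, mul_comm, zpow_mul, zpow_natCast, h1, one_zpow]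
    exact ((Nat.dvd_prime_pow Nat.prime_two).mp h3).imp fun j hj => hj.2
  obtain ⟨Q, hQ⟩ := h2.exists_le_sylow
  obtain ⟨x, hx⟩ := MulAction.exists_smul_eq S Q P
  have h5 : x * (g ^ r) * x⁻¹ ∈ U := by
    have h6 : x * (g ^ r) * x⁻¹ ∈ ((x • Q : Sylow 2 S) : Subgroup S) :=
      Subgroup.smul_mem_pointwise_smul _ (MulAut.conj x) (Q : Subgroup S)
        (hQ (Subgroup.mem_zpowers _))
    rw [hx] at h6
    exact h6
  have h6 := h4 _ h5
  have h7 : x * (g ^ r) ^ 4 * x⁻¹ = 1 := by
    rw [← h6, ← conj_pow]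
  have h8 : (g ^ r) ^ 4 = 1 := by
    have := congrArg (fun y => x⁻¹ * y * x) h7
    simpa [mul_assoc] using this
  rw [mul_comm, pow_mul, h8]

/-- a normal subgroup of odd index is doubly transitive on the cosets of the Borel subgroup -/
theorem two_trans (h : RankOneEven U T w F) (N : Subgroup S) [N.Normal] (hN : Odd N.index) :
    ∀ x y x' y' : S ⧸ h.borel, x ≠ y → x' ≠ y' → ∃ g : N, g • x = x' ∧ g • y = y' := by
  obtain ⟨hUN, hwN, hNT, hNB⟩ := h.normal_odd N hN
  have hUB : U ≤ h.borel := fun u hu => ⟨u, hu, 1, T.one_mem, (mul_one u).symm⟩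
  have hTB : T ≤ h.borel := fun t ht => ⟨1, U.one_mem, t, ht, (one_mul t).symm⟩
  -- every coset has a representative in `N`
  have hrep : ∀ x : S ⧸ h.borel, ∃ n : N, x = ((n : S) : S ⧸ h.borel) := by
    intro x
    obtain ⟨g, rfl⟩ := QuotientGroup.mk_surjective x
    obtain ⟨n, hn, t, ht, rfl⟩ := hNT g
    refine ⟨⟨n, hn⟩, ?_⟩
    rw [QuotientGroup.eq]
    have : (n * t)⁻¹ * n = t⁻¹ := by group
    rw [this]
    exact h.borel.inv_mem (hTB ht)
  have key : ∀ x y : S ⧸ h.borel, x ≠ y → ∃ g : N, g • x = ((1 : S) : S ⧸ h.borel) ∧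
      g • y = ((w : S) : S ⧸ h.borel) := by
    intro x y hxy
    obtain ⟨n, rfl⟩ := hrep x
    obtain ⟨n', rfl⟩ := hrep y
    have hnb : (((n⁻¹ * n' : N) : S)) ∉ h.borel := by
      intro hb
      exact hxy (QuotientGroup.eq.mpr hb)
    obtain ⟨u, hu, b, hb, hbN, hub⟩ := hNB _ (n⁻¹ * n').2 hnb
    refine ⟨⟨u⁻¹, N.inv_mem (hUN hu)⟩ * n⁻¹, ?_, ?_⟩
    · change (((u⁻¹ * (n : S)⁻¹) * n : S) : S ⧸ h.borel) = ((1 : S) : S ⧸ h.borel)
      rw [QuotientGroup.eq]
      have : ((u⁻¹ * (n : S)⁻¹) * n)⁻¹ * 1 = u := by group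
      rw [this]
      exact hUB hu
    · change (((u⁻¹ * (n : S)⁻¹) * n' : S) : S ⧸ h.borel) = ((w : S) : S ⧸ h.borel)
      have h1 : (n : S)⁻¹ * n' = u * w * b := hub
      have h2 : (u⁻¹ * (n : S)⁻¹) * n' = w * b := by
        rw [mul_assoc, h1]
        group
      rw [h2, QuotientGroup.eq]
      have : (w * b)⁻¹ * w = b⁻¹ := by group
      rw [this]
      exact h.borel.inv_mem hb
  intro x y x' y' hxy hxy'
  obtain ⟨g, hg1, hg2⟩ := key x y hxy
  obtain ⟨g', hg1', hg2'⟩ := key x' y' hxy'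
  refine ⟨g'⁻¹ * g, ?_, ?_⟩
  · rw [mul_smul, hg1, ← hg1', inv_smul_smul]
  · rw [mul_smul, hg2, ← hg2', inv_smul_smul]

end Q07_aux

open Q07_aux

/-- then the restriction to `N ∩ B` has no self dual constituent of odd dimension -/
theorem RankOneEven.noOdd (h : RankOneEven U T w F) (N : Subgroup S) [N.Normal]
    (hN : Odd N.index) {ρ : Representation Ω N V}
    (hρ : ρ.IsIrreducible) (hev : Even (Module.finrank Ω V)) (hsd : SD ρ)
    (hB : ∀ v : V, (∀ b : N, (b : S) ∈ h.borel → ρ b v = v) → v = 0) :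
    NoOdd (rs (h.borel.subgroupOf N) ρ) := by
  intro W hW hodd hWsd
  obtain ⟨hUN, hwN, hNT, hNB⟩ := h.normal_odd N hN
  have hUB : ∀ u ∈ U, u ∈ h.borel := fun u hu => ⟨u, hu, 1, T.one_mem, (mul_one u).symm⟩
  have hTB : ∀ t ∈ T, t ∈ h.borel := fun t ht => ⟨1, U.one_mem, t, ht, (one_mul t).symm⟩
  let iU : U →* h.borel.subgroupOf N :=
    { toFun := fun u => ⟨⟨u, hUN u.2⟩, hUB u u.2⟩
      map_one' := rfl
      map_mul' := fun _ _ => rfl }
  let iT : (T ⊓ N : Subgroup S) →* h.borel.subgroupOf N :=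
    { toFun := fun t => ⟨⟨t, t.2.2⟩, hTB t t.2.1⟩
      map_one' := rfl
      map_mul' := fun _ _ => rfl }
  have hdec : ∀ b : h.borel.subgroupOf N, ∃ (u : U) (t : (T ⊓ N : Subgroup S)),
      b = iU u * iT t := by
    rintro ⟨⟨b, hbN⟩, hb⟩
    obtain ⟨u, hu, t, ht, hut⟩ : ∃ u ∈ U, ∃ t ∈ T, b = u * t := hb
    subst hut
    refine ⟨⟨u, hu⟩, ⟨t, ht, ?_⟩, rfl⟩
    have := N.mul_mem (N.inv_mem (hUN hu)) hbN
    rwa [inv_mul_cancel_left] at this
  let R := W.toRepresentation
  let σU : Representation Ω U W.toSubmodule := MonoidHom.comp R iU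
  obtain ⟨k, hk⟩ := h.two
  obtain ⟨v, hv0, hv⟩ := linear_of_two_group hk (ρ := σU) hodd
  choose a ha using hv
  have ha1 : a 1 = 1 := by
    have h1 := ha 1
    rw [map_one, Module.End.one_apply] at h1
    have h2 : (a 1 - 1) • v = 0 := by rw [sub_smul, one_smul, ← h1, sub_self]
    rcases smul_eq_zero.mp h2 with h3 | h3
    · exact sub_eq_zero.mp h3
    · exact absurd h3 hv0
  have hamul : ∀ x y, a (x * y) = a x * a y := by
    intro x y
    have h1 := ha (x * y)
    rw [map_mul, Module.End.mul_apply, ha y, map_smul, ha x, smul_smul] at h1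
    have h2 : (a y * a x - a (x * y)) • v = 0 := by rw [sub_smul, h1, sub_self]
    rcases smul_eq_zero.mp h2 with h3 | h3
    · rw [← sub_eq_zero.mp h3, mul_comm]
    · exact absurd h3 hv0
  let A : U →* Ω := ⟨⟨a, ha1⟩, hamul⟩
  have hsq : ∀ x : U, a x = 1 ∨ a x = -1 := by
    intro x
    have h1 : A (x * x) = 1 := by
      have h2 := Abelianization.commutator_subset_ker A.toHomUnits (h.sq x)
      have h3 : A.toHomUnits (x * x) = 1 := h2
      have h4 := congrArg Units.val h3
      rwa [MonoidHom.coe_toHomUnits, Units.val_one] at h4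
    have h5 : a x * a x = 1 := by rw [← hamul]; exact h1
    exact mul_self_eq_one_iff.mp h5
  have hne : (1 : Ω) ≠ -1 := by
    intro h0
    have : (2 : Ω) = 0 := by linear_combination h0
    exact two_ne_zero this
  classical
  let lam : U →* ℤˣ := MonoidHom.mk' (fun x => if a x = 1 then 1 else -1) (by
    intro x y
    rcases hsq x with hx | hx <;> rcases hsq y with hy | hy <;>
      simp [hamul, hx, hy, hne.symm])
  have hlam : ∀ x, ((lam x : ℤ) : Ω) = a x := by
    intro x
    change (((if a x = 1 then 1 else -1 : ℤˣ) : ℤ) : Ω) = a x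
    rcases hsq x with hx | hx
    · rw [if_pos hx, hx]; simp
    · rw [if_neg (by rw [hx]; exact hne.symm), hx]; simp
  have hl1 : lam = 1 := by
    by_contra hl
    apply hv0
    refine Subtype.ext (h.no_linear N hN hUN hρ hev hsd hB hl (v := (v : V)) ?_)
    intro u
    rw [hlam]
    have := congrArg Subtype.val (ha u)
    exact this
  have ha' : ∀ x, a x = 1 := by
    intro x
    rw [← hlam, hl1]
    simp
  -- `U` acts trivially on `W`
  have hUtriv : ∀ (u : U) (x : W.toSubmodule), R (iU u) x = x := by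
    have h1 := irr_sub hW (U := σU.invariants) (by
      intro b x hx
      obtain ⟨u, t, rfl⟩ := hdec b
      rw [Representation.mem_invariants] at hx ⊢
      intro u'
      change R (iU u') (R (iU u * iT t) x) = R (iU u * iT t) x
      have hy : ((u : S) * t)⁻¹ * u' * (u * t) ∈ U := by
        have h2 := norm_inv h t.2.1 (U.mul_mem (U.mul_mem (U.inv_mem u.2) u'.2) u.2)
        have h3 : ((u : S) * t)⁻¹ * (u' : S) * (u * t) = (t : S)⁻¹ * ((u : S)⁻¹ * u' * u) * t := by
          group
        rwa [h3]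
      have h4 : R (iU ⟨_, hy⟩) x = x := hx ⟨_, hy⟩
      have h5 : iU u' * (iU u * iT t) = (iU u * iT t) * iU ⟨_, hy⟩ := by
        refine Subtype.ext (Subtype.ext ?_)
        change (u' : S) * (u * t) = (u * t) * (((u : S) * t)⁻¹ * u' * (u * t))
        group
      rw [← Module.End.mul_apply, ← map_mul, h5, map_mul, Module.End.mul_apply, h4])
    rcases h1 with h1 | h1
    · exfalso
      apply hv0
      have h2 : v ∈ σU.invariants := by
        rw [Representation.mem_invariants]
        intro u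
        rw [ha u, ha', one_smul]
      rw [h1] at h2
      exact (Submodule.mem_bot Ω).mp h2
    · intro u x
      have h2 : x ∈ σU.invariants := by rw [h1]; trivial
      exact (Representation.mem_invariants σU x).mp h2 u
  -- the representation of `T ∩ N` on `W`
  let σT : Representation Ω (T ⊓ N : Subgroup S) W.toSubmodule := MonoidHom.comp R iT
  have hpos : 0 < Module.finrank Ω W.toSubmodule := irr_pos hW
  have hTirr : σT.IsIrreducible := by
    refine irr_of_sub hpos ?_
    intro X hX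
    refine irr_sub hW ?_
    intro b x hx
    obtain ⟨u, t, rfl⟩ := hdec b
    have h1 := hX t x hx
    have h2 : W.toRepresentation (iU u * iT t) x = σT t x := by
      change R (iU u * iT t) x = R (iT t) x
      rw [map_mul, Module.End.mul_apply, hUtriv]
    rw [h2]
    exact h1
  have hTsd : SD σT := fun t => hWsd (iT t)
  have hTodd : Odd (Nat.card (T ⊓ N : Subgroup S)) :=
    h.odd.of_dvd_nat (Subgroup.card_dvd_of_le inf_le_left)
  have hTtriv := trivial_of_odd hTodd hTirr hTsd
  have hall : ∀ x : W.toSubmodule, x = 0 := by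
    intro x
    refine Subtype.ext (hB x ?_)
    intro b hb
    obtain ⟨u, t, hut⟩ := hdec ⟨b, hb⟩
    have h1 : R (iT t) x = x := by
      have := congrArg (fun f : Module.End Ω W.toSubmodule => f x) (hTtriv t)
      exact this
    have h2 : R ⟨b, hb⟩ x = x := by
      rw [hut, map_mul, Module.End.mul_apply, h1]
      exact hUtriv u x
    exact congrArg Subtype.val h2
  exact hv0 (hall v)

/-- (A) -/
theorem RankOneEven.propA (h : RankOneEven U T w F) (N : Subgroup S) [N.Normal]
    (hN : Odd N.index) : PropA c 1 N := by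
  refine propA_of_good ?_
  intro Γ hΓ n ρ hρ hn hO hF
  have hev : Even (Module.finrank Ω (Fin n → Ω)) := by
    rwa [Module.finrank_fin_fun]
  by_cases hB : ∀ v : Fin n → Ω, (∀ b : N, (b : S) ∈ h.borel → ρ b v = v) → v = 0
  · have h1 := h.noOdd N hN hρ hev (sd_of_orth hO) hB
    have := h.borel_solvable
    have hsol : Group.IsSolvable (h.borel.subgroupOf N) := by
      let f : h.borel.subgroupOf N →* h.borel :=
        { toFun := fun b => ⟨((b : N) : S), b.2⟩
          map_one' := rfl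
          map_mul' := fun _ _ => rfl }
      refine Group.isSolvable_of_isSolvable_injective (f := f) fun x y hxy => ?_
      have h0 : ((f x : h.borel) : S) = (f y : h.borel) := congrArg Subtype.val hxy
      exact Subtype.ext (Subtype.ext h0)
    obtain ⟨hA, hB'⟩ := of_solvable (c := c) (h.borel.subgroupOf N)
    exact good_of_res (h.borel.subgroupOf N) hA hB' hΓ hO hF h1
  · push Not at hB
    obtain ⟨v, hv, hv0⟩ := hB
    have hcard := h.card_quot
    obtain ⟨heven, hU1⟩ := even_card h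
    have hodd : Odd (Nat.card (S ⧸ h.borel)) := by
      rw [hcard]
      exact odd_one.add_even heven
    have h2 : 2 ≤ Nat.card (S ⧸ h.borel) := by omega
    rcases char_two_trans (S ⧸ h.borel) (Q07_aux.two_trans h N hN) h2
      (x₀ := ((1 : S) : S ⧸ h.borel)) hρ hv0 (by
      intro g hg
      refine hv g ?_
      have h3 : (((g : S) * 1 : S) : S ⧸ h.borel) = ((1 : S) : S ⧸ h.borel) := hg
      rw [mul_one] at h3
      have h4 := QuotientGroup.eq.mp h3.symm
      rwa [inv_one, one_mul] at h4) with h3 | h3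
    · exfalso
      have h4 := h3 1
      rw [Representation.char_one, Module.finrank_fin_fun] at h4
      have h5 : n = 1 := by exact_mod_cast h4
      rw [h5] at hn
      exact (by decide : ¬ Even 1) hn
    · exact good_perm (S ⧸ h.borel) hodd hρ hev h3

/-- (B) if the exponent of `U` divides four -/
theorem RankOneEven.propB (h : RankOneEven U T w F) (h4 : ∀ u ∈ U, u ^ 4 = 1) (N : Subgroup S)
    [N.Normal] (hN : Odd N.index) : PropB c 1 N := by
  obtain ⟨r, hr, hg⟩ := exp4 h h4
  exact propB_exp4 hr fun g => Subtype.ext (hg g)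

end

end Parker
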