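import Mathlib

/-!
# MP_6c3636_al, module U01: the unitary groups in dimension three (helper7)

`F` is a field with an automorphism `σ` of order two; the hermitian form is
`x₁ σ(y₃) + x₂ σ(y₂) + x₃ σ(y₁)`.
-/

namespace Parker

open Matrix

noncomputable section

variable {F : Type} [Field F] (σ : F ≃+* F)

/-- the Gram matrix of the hermitian form -/
def J3 (F : Type) [Field F] : Matrix (Fin 3) (Fin 3) F := !![0, 0, 1; 0, 1, 0; 1, 0, 0]

/-- `g` preserves the hermitian form -/
def IsU (g : Matrix (Fin 3) (Fin 3) F) : Prop := (g.map σ).transpose * J3 F * g = J3 F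

private lemma isU_iff (g : Matrix (Fin 3) (Fin 3) F) : IsU σ g ↔ ∀ i j : Fin 3,
    σ (g 0 i) * g 2 j + σ (g 1 i) * g 1 j + σ (g 2 i) * g 0 j = J3 F i j := by
  have h : ∀ i j : Fin 3, ((g.map σ).transpose * J3 F * g) i j =
      σ (g 0 i) * g 2 j + σ (g 1 i) * g 1 j + σ (g 2 i) * g 0 j := by
    intro i j
    simp only [Matrix.mul_apply, Fin.sum_univ_three, Matrix.transpose_apply, Matrix.map_apply]
    have e00 : J3 F 0 0 = 0 := rfl
    have e01 : J3 F 0 1 = 0 := rfl
    have e02 : J3 F 0 2 = 1 := rfl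
    have e10 : J3 F 1 0 = 0 := rfl
    have e11 : J3 F 1 1 = 1 := rfl
    have e12 : J3 F 1 2 = 0 := rfl
    have e20 : J3 F 2 0 = 1 := rfl
    have e21 : J3 F 2 1 = 0 := rfl
    have e22 : J3 F 2 2 = 0 := rfl
    rw [e00, e01, e02, e10, e11, e12, e20, e21, e22]
    ring
  unfold IsU
  constructor
  · intro hg i j
    rw [← h i j, hg]
  · intro hg
    ext i j
    rw [h i j, hg i j]

theorem isU_one : IsU σ (1 : Matrix (Fin 3) (Fin 3) F) := by
  unfold IsU
  rw [Matrix.map_one _ (map_zero σ) (map_one σ), Matrix.transpose_one, one_mul, mul_one]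

theorem isU_mul {g h : Matrix (Fin 3) (Fin 3) F} (hg : IsU σ g) (hh : IsU σ h) :
    IsU σ (g * h) := by
  unfold IsU at hg hh ⊢
  have h1 : ((g * h).map σ) = g.map σ * h.map σ := Matrix.map_mul (f := σ)
  rw [h1, Matrix.transpose_mul]
  calc (h.map σ).transpose * (g.map σ).transpose * J3 F * (g * h) =
        (h.map σ).transpose * ((g.map σ).transpose * J3 F * g) * h := by
          simp only [Matrix.mul_assoc]
    _ = J3 F := by rw [hg, hh]

theorem isU_inv {g h : Matrix (Fin 3) (Fin 3) F} (hg : IsU σ g) (hgh : g * h = 1) :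
    IsU σ h := by
  unfold IsU at hg ⊢
  have h1 : g.map σ * h.map σ = 1 := by
    have h2 : ((g * h).map σ) = g.map σ * h.map σ := Matrix.map_mul (f := σ)
    rw [← h2, hgh, Matrix.map_one _ (map_zero σ) (map_one σ)]
  have h3 : (h.map σ).transpose * (g.map σ).transpose = 1 := by
    rw [← Matrix.transpose_mul, h1, Matrix.transpose_one]
  calc (h.map σ).transpose * J3 F * h =
        (h.map σ).transpose * ((g.map σ).transpose * J3 F * g) * h := by rw [hg]
    _ = ((h.map σ).transpose * (g.map σ).transpose) * J3 F * (g * h) := by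
          simp only [Matrix.mul_assoc]
    _ = J3 F := by rw [h3, hgh, one_mul, mul_one]

/-- the general unitary group -/
def gu3 : Subgroup (GL (Fin 3) F) where
  carrier := {g | IsU σ (g : Matrix (Fin 3) (Fin 3) F)}
  mul_mem' := by
    intro a b ha hb
    exact isU_mul σ ha hb
  one_mem' := isU_one σ
  inv_mem' := by
    intro a ha
    refine isU_inv σ ha ?_
    exact congrArg Units.val (mul_inv_cancel a)

/-- the special unitary group -/
def su3 : Subgroup (Matrix.SpecialLinearGroup (Fin 3) F) where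
  carrier := {g | IsU σ (g : Matrix (Fin 3) (Fin 3) F)}
  mul_mem' := by
    intro a b ha hb
    have : ((a * b : Matrix.SpecialLinearGroup (Fin 3) F) : Matrix (Fin 3) (Fin 3) F) = a * b :=
      Matrix.SpecialLinearGroup.coe_mul a b
    show IsU σ ((a * b : Matrix.SpecialLinearGroup (Fin 3) F) : Matrix (Fin 3) (Fin 3) F)
    rw [this]
    exact isU_mul σ ha hb
  one_mem' := by
    show IsU σ ((1 : Matrix.SpecialLinearGroup (Fin 3) F) : Matrix (Fin 3) (Fin 3) F)
    rw [Matrix.SpecialLinearGroup.coe_one]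
    exact isU_one σ
  inv_mem' := by
    intro a ha
    refine isU_inv σ ha ?_
    rw [← Matrix.SpecialLinearGroup.coe_mul, mul_inv_cancel, Matrix.SpecialLinearGroup.coe_one]

variable {σ} (hσ : ∀ x, σ (σ x) = x)
include hσ

/-- the unipotent matrix with last column `(b, a, 1)` -/
theorem isU_unip {a b : F} (h : b + σ b + a * σ a = 0) :
    IsU σ !![1, -σ a, b; 0, 1, a; 0, 0, 1] := by
  rw [isU_iff]
  intro i j
  fin_cases i <;> fin_cases j <;> simp [J3, hσ]
  linear_combination h

/-- the torus -/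
theorem isU_diag {x y z : F} (h1 : σ x * z = 1) (h2 : σ y * y = 1) :
    IsU σ !![x, 0, 0; 0, y, 0; 0, 0, z] := by
  have h3 : σ z * x = 1 := by
    have h4 := congrArg σ h1
    rw [map_mul, hσ, map_one] at h4
    rw [mul_comm]; exact h4
  rw [isU_iff]
  intro i j
  fin_cases i <;> fin_cases j <;> simp [J3, h1, h2, h3]

omit hσ in
theorem isU_J : IsU σ (J3 F) := by
  rw [isU_iff]
  intro i j
  fin_cases i <;> fin_cases j <;> simp [J3]

/-- a unitary matrix with lower left entry `0` is upper triangular: a product of a unipotent and a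
diagonal unitary matrix -/
theorem isU_upper {g : Matrix (Fin 3) (Fin 3) F} (hg : IsU σ g) (h0 : g 2 0 = 0) :
    ∃ a b x y z : F, b + σ b + a * σ a = 0 ∧ σ x * z = 1 ∧ σ y * y = 1 ∧
      g = !![1, -σ a, b; 0, 1, a; 0, 0, 1] * !![x, 0, 0; 0, y, 0; 0, 0, z] := by
  rw [isU_iff] at hg
  have e00 := hg 0 0
  have e01 := hg 0 1
  have e02 := hg 0 2
  have e11 := hg 1 1
  have e12 := hg 1 2
  have e22 := hg 2 2
  have j00 : J3 F 0 0 = 0 := rfl
  have j01 : J3 F 0 1 = 0 := rfl
  have j02 : J3 F 0 2 = 1 := rfl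
  have j11 : J3 F 1 1 = 1 := rfl
  have j12 : J3 F 1 2 = 0 := rfl
  have j22 : J3 F 2 2 = 0 := rfl
  rw [h0, map_zero, j00] at e00
  have h10 : g 1 0 = 0 := by
    have h1 : σ (g 1 0) * g 1 0 = 0 := by linear_combination e00
    rcases mul_eq_zero.1 h1 with h2 | h2
    · exact (map_eq_zero σ).1 h2
    · exact h2
  rw [h0, h10, map_zero, j01] at e01
  rw [h0, h10, map_zero, j02] at e02
  have hxz : σ (g 0 0) * g 2 2 = 1 := by linear_combination e02
  have hx : σ (g 0 0) ≠ 0 := left_ne_zero_of_mul_eq_one hxz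
  have hz : g 2 2 ≠ 0 := right_ne_zero_of_mul_eq_one hxz
  have h21 : g 2 1 = 0 := by
    have h1 : σ (g 0 0) * g 2 1 = 0 := by linear_combination e01
    exact (mul_eq_zero.1 h1).resolve_left hx
  rw [h21, map_zero, j11] at e11
  have hyy : σ (g 1 1) * g 1 1 = 1 := by linear_combination e11
  have hy : g 1 1 ≠ 0 := right_ne_zero_of_mul_eq_one hyy
  rw [h21, map_zero, j12] at e12
  rw [j22] at e22
  have hσz : σ (g 2 2) ≠ 0 := (map_ne_zero σ).2 hz
  have h01 : g 0 1 = -σ (g 1 2 / g 2 2) * g 1 1 := by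
    have h1 : σ (g 0 1) * g 2 2 = -(σ (g 1 1) * g 1 2) := by linear_combination e12
    have h2 := congrArg σ h1
    rw [map_mul, map_neg, map_mul, hσ, hσ] at h2
    rw [map_div₀]
    field_simp
    linear_combination h2
  refine ⟨g 1 2 / g 2 2, g 0 2 / g 2 2, g 0 0, g 1 1, g 2 2, ?_, hxz, hyy, ?_⟩
  · rw [map_div₀, map_div₀]
    field_simp
    linear_combination e22
  · ext i j
    fin_cases i <;> fin_cases j <;> simp [Matrix.mul_apply, Fin.sum_univ_three, h0, h10, h21, h01, hz]

/-- Bruhat decomposition: if the lower left entry is not zero, then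
`g = u J (u' t)` with `u`, `u'` unipotent, `t` diagonal (look at the first column of `g`, an
isotropic vector) -/
theorem isU_bruhat {g : Matrix (Fin 3) (Fin 3) F} (hg : IsU σ g) (h0 : g 2 0 ≠ 0) :
    ∃ a b a' b' x y z : F, b + σ b + a * σ a = 0 ∧ b' + σ b' + a' * σ a' = 0 ∧
      σ x * z = 1 ∧ σ y * y = 1 ∧
      g = !![1, -σ a, b; 0, 1, a; 0, 0, 1] * J3 F *
        (!![1, -σ a', b'; 0, 1, a'; 0, 0, 1] * !![x, 0, 0; 0, y, 0; 0, 0, z]) := by
  have e00 := (isU_iff σ g).1 hg 0 0
  have j00 : J3 F 0 0 = 0 := rfl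
  rw [j00] at e00
  have hσs : σ (g 2 0) ≠ 0 := (map_ne_zero σ).2 h0
  set a : F := g 1 0 / g 2 0 with ha
  set b : F := g 0 0 / g 2 0 with hb
  have hab : b + σ b + a * σ a = 0 := by
    rw [ha, hb, map_div₀, map_div₀]
    field_simp
    linear_combination e00
  have hab' : σ b + σ (σ b) + (-a) * σ (-a) = 0 := by
    rw [hσ, map_neg]
    linear_combination hab
  have hu := isU_unip hσ hab'
  have huu : (!![1, -σ a, b; 0, 1, a; 0, 0, 1] : Matrix (Fin 3) (Fin 3) F) *
      !![1, -σ (-a), σ b; 0, 1, -a; 0, 0, 1] = 1 := by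
    ext i j
    fin_cases i <;> fin_cases j <;>
      simp [Matrix.mul_apply, Fin.sum_univ_three]
    linear_combination hab
  have hJJ : J3 F * J3 F = 1 := by
    ext i j
    fin_cases i <;> fin_cases j <;> simp [J3, Matrix.mul_apply, Fin.sum_univ_three]
  set u' : Matrix (Fin 3) (Fin 3) F := !![1, -σ (-a), σ b; 0, 1, -a; 0, 0, 1] with hu'
  have hh : IsU σ (J3 F * (u' * g)) := isU_mul σ isU_J (isU_mul σ hu hg)
  have hh0 : (J3 F * (u' * g)) 2 0 = 0 := by
    have h1 : (J3 F * (u' * g)) 2 0 = (u' * g) 0 0 := by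
      simp [J3, Matrix.mul_apply, Fin.sum_univ_three]
    have h2 : (u' * g) 0 0 = g 0 0 + σ a * g 1 0 + σ b * g 2 0 := by
      simp [hu', Matrix.mul_apply, Fin.sum_univ_three]
    have h3 : g 0 0 = b * g 2 0 := by rw [hb]; field_simp
    have h4 : g 1 0 = a * g 2 0 := by rw [ha]; field_simp
    rw [h1, h2, h3, h4]
    linear_combination (g 2 0) * hab
  obtain ⟨a', b', x, y, z, h1, h2, h3, h4⟩ := isU_upper hσ hh hh0
  refine ⟨a, b, a', b', x, y, z, hab, h1, h2, h3, ?_⟩
  rw [← h4]
  calc g = (!![1, -σ a, b; 0, 1, a; 0, 0, 1] * u') * g := by rw [huu, one_mul]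
    _ = !![1, -σ a, b; 0, 1, a; 0, 0, 1] * (1 * (u' * g)) := by
        rw [one_mul, Matrix.mul_assoc]
    _ = !![1, -σ a, b; 0, 1, a; 0, 0, 1] * J3 F * (J3 F * (u' * g)) := by
        rw [← hJJ]; simp only [Matrix.mul_assoc]

/-- for every `a` there is `b` with `b + σ b + a σ(a) = 0` if the trace `x + σ x` is not
identically zero or `σ ≠ 1` -/
theorem exists_b (h1 : ∃ x, σ x ≠ x) (a : F) : ∃ b : F, b + σ b + a * σ a = 0 := by
  obtain ⟨c, hc⟩ : ∃ c : F, c + σ c ≠ 0 := by
    by_contra hno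
    push Not at hno
    obtain ⟨x, hx⟩ := h1
    have h2 := hno 1
    rw [map_one] at h2
    have h3 := hno x
    apply hx
    linear_combination h3 - x * h2
  have ht : σ (c + σ c) = c + σ c := by rw [map_add, hσ, add_comm]
  refine ⟨-(a * σ a) * c / (c + σ c), ?_⟩
  rw [map_div₀, ht, map_mul, map_neg, map_mul, hσ]
  field_simp
  ring

end

end Parker
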