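import Pool.Agent.Parker.Defs
import Pool.Agent.Parker.P29
import Pool.Agent.Parker.Q02
import Pool.Agent.Parker.Q03
import Pool.Agent.Parker.U01

/-!
# MP_6c3636_al, module U02: (A) and (B) for `SU_3(q)`, `q` odd (helper7)
-/

namespace Parker

open Matrix

noncomputable section

variable {F : Type} [Field F] [Finite F] {σ : F ≃+* F} {Ω : Type} [Field Ω] [IsAlgClosed Ω]
  [CharZero Ω] {c : Ctx Ω}

namespace U02_aux

variable {F : Type} [Field F] {σ : F ≃+* F}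

/-- the matrix of an element of `SU_3` -/
def mt (g : su3 σ) : Matrix (Fin 3) (Fin 3) F := ((g : SpecialLinearGroup (Fin 3) F) : Matrix (Fin 3) (Fin 3) F)

theorem mt_mul (g h : su3 σ) : mt (g * h) = mt g * mt h :=
  Matrix.SpecialLinearGroup.coe_mul _ _

theorem mt_one : mt (1 : su3 σ) = 1 := Matrix.SpecialLinearGroup.coe_one

theorem mt_inj {g h : su3 σ} (e : mt g = mt h) : g = h := Subtype.ext (Subtype.ext e)

theorem mt_U (g : su3 σ) : IsU σ (mt g) := g.2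

theorem mt_det (g : su3 σ) : (mt g).det = 1 := g.1.2

/-- an element of `SU_3` from a matrix -/
def mk (g : Matrix (Fin 3) (Fin 3) F) (hU : IsU σ g) (hd : g.det = 1) : su3 σ := ⟨⟨g, hd⟩, hU⟩

theorem mt_mk (g : Matrix (Fin 3) (Fin 3) F) (hU : IsU σ g) (hd : g.det = 1) :
    mt (mk g hU hd) = g := rfl

/-- upper triangular matrices -/
def UT (g : Matrix (Fin 3) (Fin 3) F) : Prop := g 1 0 = 0 ∧ g 2 0 = 0 ∧ g 2 1 = 0

theorem ut_one : UT (1 : Matrix (Fin 3) (Fin 3) F) := by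
  refine ⟨?_, ?_, ?_⟩ <;> simp

theorem ut_mul {g h : Matrix (Fin 3) (Fin 3) F} (hg : UT g) (hh : UT h) : UT (g * h) := by
  obtain ⟨a1, a2, a3⟩ := hg
  obtain ⟨b1, b2, b3⟩ := hh
  refine ⟨?_, ?_, ?_⟩ <;> simp [Matrix.mul_apply, Fin.sum_univ_three, a1, a2, a3, b1, b2, b3]

theorem ut_diag {g h : Matrix (Fin 3) (Fin 3) F} (hg : UT g) (hh : UT h) (i : Fin 3) :
    (g * h) i i = g i i * h i i := by
  obtain ⟨a1, a2, a3⟩ := hg
  obtain ⟨b1, b2, b3⟩ := hh
  fin_cases i <;> simp [Matrix.mul_apply, Fin.sum_univ_three, a1, a2, a3, b1, b2, b3]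

theorem ut_det {g : Matrix (Fin 3) (Fin 3) F} (hg : UT g) : g.det = g 0 0 * g 1 1 * g 2 2 := by
  obtain ⟨a1, a2, a3⟩ := hg
  rw [Matrix.det_fin_three, a1, a2, a3]
  ring

theorem ut_inv {g h : Matrix (Fin 3) (Fin 3) F} (hg : UT g) (hd : g.det = 1) (e : h * g = 1) :
    UT h := by
  rw [ut_det hg] at hd
  obtain ⟨a1, a2, a3⟩ := hg
  have h0 : g 0 0 ≠ 0 := by
    intro h; rw [h] at hd; simp at hd
  have h1 : g 1 1 ≠ 0 := by
    intro h; rw [h] at hd; simp at hd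
  have e10 := congrFun (congrFun e 1) 0
  have e20 := congrFun (congrFun e 2) 0
  have e21 := congrFun (congrFun e 2) 1
  simp [Matrix.mul_apply, Fin.sum_univ_three, a1, a2, h0] at e10
  simp [Matrix.mul_apply, Fin.sum_univ_three, a1, a2, h0] at e20
  simp [Matrix.mul_apply, Fin.sum_univ_three, a3, h1, e20] at e21
  exact ⟨e10, e20, e21⟩

/-- the Borel subgroup -/
def BB (σ : F ≃+* F) : Subgroup (su3 σ) where
  carrier := {g | UT (mt g)}
  mul_mem' := by
    intro a b ha hb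
    change UT (mt (a * b))
    rw [mt_mul]
    exact ut_mul ha hb
  one_mem' := by
    change UT (mt 1)
    rw [mt_one]
    exact ut_one
  inv_mem' := by
    intro a ha
    refine ut_inv (g := mt a) ha (mt_det a) ?_
    rw [← mt_mul, inv_mul_cancel, mt_one]

theorem mem_BB {g : su3 σ} : g ∈ BB σ ↔ UT (mt g) := Iff.rfl

theorem diag_inv {a : su3 σ} (ha : a ∈ BB σ) (i : Fin 3) : mt a i i * mt a⁻¹ i i = 1 := by
  rw [← ut_diag ha ((BB σ).inv_mem ha), ← mt_mul, mul_inv_cancel, mt_one, Matrix.one_apply_eq]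

/-- the unipotent radical -/
def QQ (σ : F ≃+* F) : Subgroup (su3 σ) where
  carrier := {g | g ∈ BB σ ∧ ∀ i, mt g i i = 1}
  mul_mem' := by
    rintro a b ⟨ha, ha'⟩ ⟨hb, hb'⟩
    refine ⟨(BB σ).mul_mem ha hb, fun i => ?_⟩
    rw [mt_mul, ut_diag ha hb, ha', hb', one_mul]
  one_mem' := by
    refine ⟨(BB σ).one_mem, fun i => ?_⟩
    rw [mt_one, Matrix.one_apply_eq]
  inv_mem' := by
    rintro a ⟨ha, ha'⟩
    refine ⟨(BB σ).inv_mem ha, fun i => ?_⟩
    have := diag_inv ha i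
    rwa [ha', one_mul] at this

theorem mem_QQ {g : su3 σ} : g ∈ QQ σ ↔ g ∈ BB σ ∧ ∀ i, mt g i i = 1 := Iff.rfl

theorem Q_le : QQ σ ≤ BB σ := fun _ h => h.1

theorem norm {b q : su3 σ} (hb : b ∈ BB σ) (hq : q ∈ QQ σ) : b * q * b⁻¹ ∈ QQ σ := by
  have hb' := (BB σ).inv_mem hb
  refine ⟨(BB σ).mul_mem ((BB σ).mul_mem hb hq.1) hb', fun i => ?_⟩
  rw [mt_mul, ut_diag ((BB σ).mul_mem hb hq.1) hb', mt_mul, ut_diag hb hq.1, hq.2, mul_one,
    diag_inv hb]

theorem comm {b c : su3 σ} (hb : b ∈ BB σ) (hc : c ∈ BB σ) : b * c * b⁻¹ * c⁻¹ ∈ QQ σ := by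
  have hb' := (BB σ).inv_mem hb
  have hc' := (BB σ).inv_mem hc
  have h1 := (BB σ).mul_mem hb hc
  have h2 := (BB σ).mul_mem h1 hb'
  refine ⟨(BB σ).mul_mem h2 hc', fun i => ?_⟩
  rw [mt_mul, ut_diag h2 hc', mt_mul, ut_diag h1 hb', mt_mul, ut_diag hb hc]
  have e1 := diag_inv hb i
  have e2 := diag_inv hc i
  calc mt b i i * mt c i i * mt b⁻¹ i i * mt c⁻¹ i i =
      (mt b i i * mt b⁻¹ i i) * (mt c i i * mt c⁻¹ i i) := by ring
    _ = 1 := by rw [e1, e2, one_mul]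

/-- entries of products of unitriangular matrices -/
theorem q_mul01 {a b : su3 σ} (ha : a ∈ QQ σ) (hb : b ∈ QQ σ) :
    mt (a * b) 0 1 = mt a 0 1 + mt b 0 1 := by
  have h1 := ha.2 0
  have h2 := hb.2 1
  have h3 := hb.1.2.2
  rw [mt_mul, Matrix.mul_apply, Fin.sum_univ_three, h1, h2, h3]
  ring

theorem q_mul12 {a b : su3 σ} (ha : a ∈ QQ σ) (hb : b ∈ QQ σ) :
    mt (a * b) 1 2 = mt a 1 2 + mt b 1 2 := by
  have h1 := ha.2 1
  have h2 := hb.2 2
  have h3 := ha.1.1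
  rw [mt_mul, Matrix.mul_apply, Fin.sum_univ_three, h1, h2, h3]
  ring

theorem q_mul02 {a b : su3 σ} (ha : a ∈ QQ σ) (hb : b ∈ QQ σ) :
    mt (a * b) 0 2 = mt a 0 2 + mt b 0 2 + mt a 0 1 * mt b 1 2 := by
  have h1 := ha.2 0
  have h2 := hb.2 2
  rw [mt_mul, Matrix.mul_apply, Fin.sum_univ_three, h1, h2]
  ring

theorem q_ext {a b : su3 σ} (ha : a ∈ QQ σ) (hb : b ∈ QQ σ) (h1 : mt a 0 1 = mt b 0 1)
    (h2 : mt a 1 2 = mt b 1 2) (h3 : mt a 0 2 = mt b 0 2) : a = b := by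
  apply mt_inj
  obtain ⟨⟨a1, a2, a3⟩, a4⟩ := ha
  obtain ⟨⟨b1, b2, b3⟩, b4⟩ := hb
  have a5 := a4 0
  have a6 := a4 1
  have a7 := a4 2
  have b5 := b4 0
  have b6 := b4 1
  have b7 := b4 2
  ext i j
  fin_cases i <;> fin_cases j <;> simp [*]

theorem odd_Q [Finite F] (h2 : (2 : F) ≠ 0) : Odd (Nat.card (QQ σ)) := by
  by_contra hodd
  rw [Nat.not_odd_iff_even, even_iff_two_dvd] at hodd
  haveI : Fact (Nat.Prime 2) := ⟨Nat.prime_two⟩
  obtain ⟨x, hx⟩ := exists_prime_orderOf_dvd_card' 2 hodd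
  have hx1 : x ≠ 1 := by
    rintro rfl
    rw [orderOf_one] at hx
    omega
  have hx2 : x * x = 1 := by
    have := pow_orderOf_eq_one x
    rwa [hx, pow_two] at this
  apply hx1
  have e : (x : su3 σ) * x = 1 := congrArg Subtype.val hx2
  have m := x.2
  have two : ∀ y : F, y + y = 0 → y = 0 := by
    intro y hy
    rw [← two_mul] at hy
    exact (mul_eq_zero.1 hy).resolve_left h2
  have e01 := q_mul01 m m
  have e12 := q_mul12 m m
  have e02 := q_mul02 m m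
  rw [e, mt_one] at e01 e12 e02
  have f01 : mt (x : su3 σ) 0 1 = 0 := two _ (by rw [← e01]; simp)
  have f12 : mt (x : su3 σ) 1 2 = 0 := two _ (by rw [← e12]; simp)
  have f02 : mt (x : su3 σ) 0 2 = 0 := by
    rw [f01, zero_mul, add_zero] at e02
    exact two _ (by rw [← e02]; simp)
  apply Subtype.ext
  refine q_ext m (QQ σ).one_mem ?_ ?_ ?_
  · rw [f01]; change _ = mt (1 : su3 σ) 0 1; rw [mt_one]; simp
  · rw [f12]; change _ = mt (1 : su3 σ) 1 2; rw [mt_one]; simp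
  · rw [f02]; change _ = mt (1 : su3 σ) 0 2; rw [mt_one]; simp

theorem mt_upper (hσ : ∀ x, σ (σ x) = x) {g : su3 σ} (h : mt g 2 0 = 0) : g ∈ BB σ := by
  obtain ⟨a, b, x, y, z, -, -, -, e⟩ := isU_upper hσ (mt_U g) h
  rw [mem_BB, e]
  refine ut_mul ?_ ?_ <;> refine ⟨?_, ?_, ?_⟩ <;> simp

theorem isU_neg {g : Matrix (Fin 3) (Fin 3) F} (hg : IsU σ g) : IsU σ (-g) := by
  unfold IsU at hg ⊢
  have : (-g).map σ = -(g.map σ) := by
    ext i j
    simp
  rw [this, Matrix.transpose_neg, Matrix.neg_mul, Matrix.neg_mul, Matrix.mul_neg, neg_neg, hg]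

theorem det_neg3 (g : Matrix (Fin 3) (Fin 3) F) : (-g).det = -g.det := by
  rw [Matrix.det_neg, Fintype.card_fin]
  ring

theorem det_J : (J3 F).det = -1 := by
  unfold J3
  rw [Matrix.det_fin_three]
  simp

/-- the Weyl element -/
def ww (σ : F ≃+* F) : su3 σ := mk (-J3 F) (isU_neg (isU_J)) (by rw [det_neg3, det_J, neg_neg])

theorem mt_ww : mt (ww σ) = -J3 F := rfl

theorem det_unip (a b c : F) : (!![1, a, b; 0, 1, c; 0, 0, 1] : Matrix (Fin 3) (Fin 3) F).det = 1 := by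
  rw [Matrix.det_fin_three]
  simp

/-- the unipotent elements -/
def un (hσ : ∀ x, σ (σ x) = x) (a b : F) (h : b + σ b + a * σ a = 0) : su3 σ :=
  mk _ (isU_unip hσ h) (det_unip _ _ _)

theorem un_mem (hσ : ∀ x, σ (σ x) = x) (a b : F) (h : b + σ b + a * σ a = 0) :
    un hσ a b h ∈ QQ σ := by
  refine ⟨⟨?_, ?_, ?_⟩, fun i => ?_⟩
  · simp [un, mt_mk]
  · simp [un, mt_mk]
  · simp [un, mt_mk]
  · fin_cases i <;> simp [un, mt_mk]

theorem cover (hσ : ∀ x, σ (σ x) = x) {g : su3 σ} (hg : g ∉ BB σ) :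
    ∃ q ∈ QQ σ, ∃ b ∈ BB σ, g = q * ww σ * b := by
  have h0 : mt g 2 0 ≠ 0 := fun h => hg (mt_upper hσ h)
  obtain ⟨a, b, a', b', x, y, z, h1, h2, h3, h4, e⟩ := isU_bruhat hσ (mt_U g) h0
  set u : Matrix (Fin 3) (Fin 3) F := !![1, -σ a, b; 0, 1, a; 0, 0, 1] with hu
  set u' : Matrix (Fin 3) (Fin 3) F := !![1, -σ a', b'; 0, 1, a'; 0, 0, 1] with hu'
  set t : Matrix (Fin 3) (Fin 3) F := !![x, 0, 0; 0, y, 0; 0, 0, z] with ht
  have hdet := congrArg Matrix.det e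
  have hdu : u.det = 1 := det_unip _ _ _
  have hdu' : u'.det = 1 := det_unip _ _ _
  rw [mt_det, Matrix.det_mul, Matrix.det_mul, Matrix.det_mul, hdu, hdu', det_J] at hdet
  have hdt : (-(u' * t)).det = 1 := by
    rw [det_neg3, Matrix.det_mul, hdu']
    linear_combination -hdet
  have hU : IsU σ (-(u' * t)) := isU_neg (isU_mul σ (isU_unip hσ h2) (isU_diag hσ h3 h4))
  refine ⟨un hσ a b h1, un_mem hσ a b h1, mk (-(u' * t)) hU hdt, ?_, ?_⟩
  · rw [mem_BB, mt_mk]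
    have h5 : UT (u' * t) := by
      refine ut_mul ?_ ?_ <;> refine ⟨?_, ?_, ?_⟩ <;> simp [hu', ht]
    obtain ⟨c1, c2, c3⟩ := h5
    refine ⟨?_, ?_, ?_⟩
    · rw [Matrix.neg_apply, c1, neg_zero]
    · rw [Matrix.neg_apply, c2, neg_zero]
    · rw [Matrix.neg_apply, c3, neg_zero]
  · apply mt_inj
    rw [mt_mul, mt_mul, mt_mk, mt_ww, e]
    change _ = u * -J3 F * -(u' * t)
    rw [Matrix.mul_neg, Matrix.mul_neg, Matrix.neg_mul, neg_neg]

theorem ww_notin : ww σ ∉ BB σ := by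
  intro h
  have := h.2.1
  rw [mt_ww] at this
  simp [J3] at this

theorem index [Finite F] (hσ : ∀ x, σ (σ x) = x) (h1 : ∃ x, σ x ≠ x) : 2 < (BB σ).index := by
  obtain ⟨b, hb⟩ := exists_b hσ h1 (1 : F)
  have hb0 : b ≠ 0 := by
    rintro rfl
    simp at hb
  have hne : (BB σ).index ≠ 0 := Subgroup.index_ne_zero_of_finite
  by_contra hlt
  have hcases : (BB σ).index = 1 ∨ (BB σ).index = 2 := by omega
  rcases hcases with h | h
  · rw [Subgroup.index_eq_one] at h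
    exact ww_notin (σ := σ) (by rw [h]; exact Subgroup.mem_top _)
  · have hu := un_mem hσ 1 b hb
    have huw : un hσ 1 b hb * ww σ ∉ BB σ := by
      intro h'
      apply ww_notin (σ := σ)
      have := (BB σ).mul_mem ((BB σ).inv_mem hu.1) h'
      rwa [inv_mul_cancel_left] at this
    have h3 : ww σ * (un hσ 1 b hb * ww σ) ∈ BB σ := by
      rw [Subgroup.mul_mem_iff_of_index_two h]
      exact ⟨fun h' => absurd h' ww_notin, fun h' => absurd h' huw⟩
    have h4 := h3.2.1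
    rw [mt_mul, mt_mul, mt_ww] at h4
    apply hb0
    simpa [J3, un, mt_mk, Matrix.mul_apply, Fin.sum_univ_three] using h4

theorem solvable_Q : Group.IsSolvable (QQ σ) := by
  let f : QQ σ →* Multiplicative (F × F) :=
    { toFun := fun q => Multiplicative.ofAdd (mt (q : su3 σ) 0 1, mt (q : su3 σ) 1 2)
      map_one' := by
        change Multiplicative.ofAdd (mt (1 : su3 σ) 0 1, mt (1 : su3 σ) 1 2) = 1
        rw [mt_one]
        simp
      map_mul' := by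
        intro a b
        change Multiplicative.ofAdd (mt ((a : su3 σ) * (b : su3 σ)) 0 1, mt ((a : su3 σ) * (b : su3 σ)) 1 2) = _
        rw [q_mul01 a.2 b.2, q_mul12 a.2 b.2]
        rfl }
  haveI : Group.IsSolvable f.ker := by
    apply Group.isSolvable_of_comm
    intro a b
    have key : ∀ a : f.ker, mt ((a : QQ σ) : su3 σ) 0 1 = 0 ∧ mt ((a : QQ σ) : su3 σ) 1 2 = 0 := by
      intro a
      have h1 : f a = 1 := a.2
      have h2 : (mt ((a : QQ σ) : su3 σ) 0 1, mt ((a : QQ σ) : su3 σ) 1 2) = ((0 : F), (0 : F)) := h1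
      exact ⟨congrArg Prod.fst h2, congrArg Prod.snd h2⟩
    apply Subtype.ext
    apply Subtype.ext
    obtain ⟨a1, a2⟩ := key a
    obtain ⟨b1, b2⟩ := key b
    have ma := (a : QQ σ).2
    have mb := (b : QQ σ).2
    change ((a : QQ σ) : su3 σ) * ((b : QQ σ) : su3 σ) = ((b : QQ σ) : su3 σ) * ((a : QQ σ) : su3 σ)
    refine q_ext ((QQ σ).mul_mem ma mb) ((QQ σ).mul_mem mb ma) ?_ ?_ ?_
    · rw [q_mul01 ma mb, q_mul01 mb ma, a1, b1]
    · rw [q_mul12 ma mb, q_mul12 mb ma, a2, b2]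
    · rw [q_mul02 ma mb, q_mul02 mb ma, a1, b1, zero_mul, zero_mul, add_zero, add_zero, add_comm]
  exact Group.isSolvable_of_ker_le_range f.ker.subtype f (by rw [Subgroup.range_subtype])

theorem solvable_B : Group.IsSolvable (BB σ) := by
  haveI : Group.IsSolvable (QQ σ) := solvable_Q
  let un1 : ∀ (b : BB σ) (i : Fin 3), Fˣ := fun b i =>
    ⟨mt (b : su3 σ) i i, mt (b : su3 σ)⁻¹ i i, diag_inv b.2 i, by rw [mul_comm]; exact diag_inv b.2 i⟩
  let f : BB σ →* (Fin 3 → Fˣ) :=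
    { toFun := fun b => un1 b
      map_one' := by
        funext i
        apply Units.ext
        change mt (1 : su3 σ) i i = 1
        rw [mt_one, Matrix.one_apply_eq]
      map_mul' := by
        intro a b
        funext i
        apply Units.ext
        change mt ((a : su3 σ) * (b : su3 σ)) i i = mt (a : su3 σ) i i * mt (b : su3 σ) i i
        rw [mt_mul, ut_diag a.2 b.2] }
  refine Group.isSolvable_of_ker_le_range (Subgroup.inclusion (Q_le (σ := σ))) f ?_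
  intro b hb
  have h1 : ∀ i, mt (b : su3 σ) i i = 1 := by
    intro i
    have h2 : f b = 1 := hb
    exact congrArg Units.val (congrFun h2 i)
  exact ⟨⟨b, b.2, h1⟩, rfl⟩

end U02_aux

open U02_aux

/-- `SU_3(q)`, `q` odd, has rank one data in odd characteristic with a solvable Borel subgroup:
`B` the elements with lower left entry `0` (then upper triangular), `Q` the unitriangular elements
(an element of order two of `Q` is trivial, so `|Q|` is odd), `w = - J3`. The index of `B` is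
`> 2`: `B`, `w B`, `u w B` are different cosets for `1 ≠ u ∈ Q`. -/
theorem su3_rankOneOdd (h2 : (2 : F) ≠ 0) (hσ : ∀ x, σ (σ x) = x) (h1 : ∃ x, σ x ≠ x) :
    ∃ (B Q : Subgroup (su3 σ)) (w : su3 σ), RankOneOdd B Q w ∧ Group.IsSolvable B := by
  exact ⟨BB σ, QQ σ, ww σ, ⟨Q_le, odd_Q h2, fun b hb q hq => norm hb hq,
    fun b hb b' hb' => comm hb hb', fun g hg => cover hσ hg, index hσ h1⟩, solvable_B⟩

theorem su3_propA_odd (h2 : (2 : F) ≠ 0) (hσ : ∀ x, σ (σ x) = x) (h1 : ∃ x, σ x ≠ x) :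
    PropA c 1 (su3 σ) := by
  obtain ⟨B, Q, w, h, hs⟩ := su3_rankOneOdd h2 hσ h1
  haveI := hs
  obtain ⟨hA, hB⟩ := of_solvable (c := c) B
  exact h.propA hA hB

theorem su3_propB_odd (h2 : (2 : F) ≠ 0) (hσ : ∀ x, σ (σ x) = x) (h1 : ∃ x, σ x ≠ x) :
    PropB c 1 (su3 σ) := by
  obtain ⟨B, Q, w, h, hs⟩ := su3_rankOneOdd h2 hσ h1
  haveI := hs
  obtain ⟨hA, hB⟩ := of_solvable (c := c) B
  exact h.propB hB

end

end Parker
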