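import Pool.Agent.Parker.Defs
import Pool.Agent.Parker.P39
import Pool.Agent.Parker.Q05
import Pool.Agent.Parker.U01

/-!
# MP_6c3636_al, module U03: `PGU_3(q)`, `q` even (helper7)
-/

namespace Parker

open Matrix

noncomputable section

variable {F : Type} [Field F] (σ : F ≃+* F)

/-- the scalars in `GU_3` -/
def zgu : Subgroup (gu3 σ) where
  carrier := {g | ∃ μ : F, ((g : GL (Fin 3) F) : Matrix (Fin 3) (Fin 3) F) = μ • 1}
  mul_mem' := by
    rintro a b ⟨μ, ha⟩ ⟨ν, hb⟩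
    refine ⟨μ * ν, ?_⟩
    have h1 : (((a * b : gu3 σ) : GL (Fin 3) F) : Matrix (Fin 3) (Fin 3) F) =
        ((a : GL (Fin 3) F) : Matrix (Fin 3) (Fin 3) F) *
          ((b : GL (Fin 3) F) : Matrix (Fin 3) (Fin 3) F) := rfl
    rw [h1, ha, hb, smul_mul_smul_comm, mul_one]
  one_mem' := ⟨1, by rw [one_smul]; rfl⟩
  inv_mem' := by
    rintro a ⟨μ, ha⟩
    refine ⟨μ⁻¹, ?_⟩
    have h1 : (((a⁻¹ : gu3 σ) : GL (Fin 3) F) : Matrix (Fin 3) (Fin 3) F) *
          ((a : GL (Fin 3) F) : Matrix (Fin 3) (Fin 3) F) = 1 := by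
      have h2 : (a⁻¹ : gu3 σ) * a = 1 := inv_mul_cancel a
      exact congrArg (fun g : gu3 σ => ((g : GL (Fin 3) F) : Matrix (Fin 3) (Fin 3) F)) h2
    rw [ha, mul_smul_comm, mul_one] at h1
    have hμ : μ ≠ 0 := by
      rintro rfl
      rw [zero_smul] at h1
      exact zero_ne_one h1
    rw [← h1, smul_smul, inv_mul_cancel₀ hμ, one_smul]

instance zgu_normal : (zgu σ).Normal := by
  constructor
  rintro n ⟨μ, hn⟩ g
  refine ⟨μ, ?_⟩
  have h1 : (((g * n * g⁻¹ : gu3 σ) : GL (Fin 3) F) : Matrix (Fin 3) (Fin 3) F) =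
      ((g : GL (Fin 3) F) : Matrix (Fin 3) (Fin 3) F) *
        ((n : GL (Fin 3) F) : Matrix (Fin 3) (Fin 3) F) *
        (((g⁻¹ : gu3 σ) : GL (Fin 3) F) : Matrix (Fin 3) (Fin 3) F) := rfl
  have h2 : ((g : GL (Fin 3) F) : Matrix (Fin 3) (Fin 3) F) *
      (((g⁻¹ : gu3 σ) : GL (Fin 3) F) : Matrix (Fin 3) (Fin 3) F) = 1 := by
    have h3 : g * (g⁻¹ : gu3 σ) = 1 := mul_inv_cancel g
    exact congrArg (fun g : gu3 σ => ((g : GL (Fin 3) F) : Matrix (Fin 3) (Fin 3) F)) h3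
  rw [h1, hn, mul_smul_comm, mul_one, smul_mul_assoc, h2]

/-- `PGU_3` -/
abbrev PGU : Type := gu3 σ ⧸ zgu σ

/-- `SU_3 → PGU_3` -/
def suPG : su3 σ →* PGU σ :=
  (QuotientGroup.mk' (zgu σ)).comp
    (MonoidHom.codRestrict ((Matrix.SpecialLinearGroup.toGL (n := Fin 3) (R := F)).comp
      (su3 σ).subtype) (gu3 σ) (fun g => g.2))

namespace U03_aux

/-- the determinant -/
def dt : gu3 σ →* Fˣ := Matrix.GeneralLinearGroup.det.comp (gu3 σ).subtype

variable {σ}

theorem dt_mem {g : gu3 σ} (hg : dt σ g = 1) : (QuotientGroup.mk' (zgu σ)) g ∈ (suPG σ).range := by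
  have h1 : ((g : GL (Fin 3) F) : Matrix (Fin 3) (Fin 3) F).det = 1 := congrArg Units.val hg
  refine ⟨⟨⟨((g : GL (Fin 3) F) : Matrix (Fin 3) (Fin 3) F), h1⟩, g.2⟩, ?_⟩
  refine congrArg (QuotientGroup.mk' (zgu σ)) ?_
  apply Subtype.ext
  apply Units.ext
  rfl

theorem mem_dt {x : PGU σ} (hx : x ∈ (suPG σ).range) :
    ∃ g : gu3 σ, dt σ g = 1 ∧ (QuotientGroup.mk' (zgu σ)) g = x := by
  obtain ⟨s, rfl⟩ := hx
  refine ⟨MonoidHom.codRestrict ((Matrix.SpecialLinearGroup.toGL (n := Fin 3) (R := F)).comp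
      (su3 σ).subtype) (gu3 σ) (fun g => g.2) s, ?_, rfl⟩
  apply Units.ext
  exact s.1.2

end U03_aux

open U03_aux

/-- the image is a normal subgroup (kernel of the determinant, times scalars) -/
theorem suPG_normal : (suPG σ).range.Normal := by
  constructor
  intro n hn g
  obtain ⟨a, ha, rfl⟩ := mem_dt hn
  obtain ⟨b, rfl⟩ := QuotientGroup.mk'_surjective (zgu σ) g
  rw [← map_inv, ← map_mul, ← map_mul]
  apply dt_mem
  rw [map_mul, map_mul, ha, mul_one, map_inv, mul_inv_cancel]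

variable {σ}

/-- its index divides `|Fˣ|` -/
theorem suPG_index [Finite F] (h2 : (2 : F) = 0) : Odd (suPG σ).range.index := by
  have : Fintype F := Fintype.ofFinite F
  have : CharP F 2 := CharTwo.of_one_ne_zero_of_two_eq_zero one_ne_zero h2
  obtain ⟨k, -, hk⟩ := FiniteField.card F 2
  have h3 : (suPG σ).range.index ∣ Nat.card Fˣ := by
    rw [← Subgroup.index_comap_of_surjective _ (QuotientGroup.mk'_surjective (zgu σ))]
    have h4 : (dt σ).ker ≤ (suPG σ).range.comap (QuotientGroup.mk' (zgu σ)) := fun g hg =>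
      Subgroup.mem_comap.2 (dt_mem (MonoidHom.mem_ker.1 hg))
    refine (Subgroup.index_dvd_of_le h4).trans ?_
    rw [Subgroup.index_ker]
    exact Subgroup.card_subgroup_dvd_card _
  rw [Nat.card_units, Nat.card_eq_fintype_card (α := F), hk] at h3
  refine Odd.of_dvd_nat ?_ h3
  have h4 : Even (2 ^ (k : ℕ)) := (Nat.even_pow.2 ⟨even_two, k.pos.ne'⟩)
  have h5 : 1 ≤ 2 ^ (k : ℕ) := Nat.one_le_two_pow
  exact Nat.Even.sub_odd h5 h4 odd_one

/-- the element of `PGU_3` of a unitary matrix -/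
def pgu (g : Matrix (Fin 3) (Fin 3) F) (hg : IsU σ g) (hd : g.det ≠ 0) : PGU σ :=
  QuotientGroup.mk' (zgu σ) ⟨Matrix.GeneralLinearGroup.mkOfDetNeZero g hd, hg⟩

namespace U03_aux

/-- `g` is the class of the unitary matrix `A` -/
def Rep (g : PGU σ) (A : Matrix (Fin 3) (Fin 3) F) : Prop :=
  ∃ (hA : IsU σ A) (dA : A.det ≠ 0), g = pgu A hA dA

theorem Rep.mul {g h : PGU σ} {A B : Matrix (Fin 3) (Fin 3) F} (hg : Rep g A) (hh : Rep h B) :
    Rep (g * h) (A * B) := by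
  obtain ⟨hA, dA, rfl⟩ := hg
  obtain ⟨hB, dB, rfl⟩ := hh
  refine ⟨isU_mul σ hA hB, by rw [Matrix.det_mul]; exact mul_ne_zero dA dB, ?_⟩
  unfold pgu
  rw [← map_mul]
  refine congrArg (QuotientGroup.mk' (zgu σ)) ?_
  apply Subtype.ext
  apply Units.ext
  rfl

theorem Rep.one : Rep (1 : PGU σ) 1 := by
  refine ⟨isU_one σ, by rw [Matrix.det_one]; exact one_ne_zero, ?_⟩
  unfold pgu
  rw [← map_one (QuotientGroup.mk' (zgu σ))]
  refine congrArg (QuotientGroup.mk' (zgu σ)) ?_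
  apply Subtype.ext
  apply Units.ext
  rfl

theorem Rep.eq {g h : PGU σ} {A B : Matrix (Fin 3) (Fin 3) F} (hg : Rep g A) (hh : Rep h B)
    (μ : F) (hAB : B = μ • A) : g = h := by
  obtain ⟨hA, dA, rfl⟩ := hg
  obtain ⟨hB, dB, rfl⟩ := hh
  unfold pgu
  refine QuotientGroup.eq.2 ⟨μ, ?_⟩
  set a : gu3 σ := ⟨Matrix.GeneralLinearGroup.mkOfDetNeZero A dA, hA⟩ with ha
  set b : gu3 σ := ⟨Matrix.GeneralLinearGroup.mkOfDetNeZero B dB, hB⟩ with hb
  have h1 : (((a⁻¹ * b : gu3 σ) : GL (Fin 3) F) : Matrix (Fin 3) (Fin 3) F) =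
      (((a⁻¹ : gu3 σ) : GL (Fin 3) F) : Matrix (Fin 3) (Fin 3) F) * B := rfl
  have h2 : (((a⁻¹ : gu3 σ) : GL (Fin 3) F) : Matrix (Fin 3) (Fin 3) F) * A = 1 := by
    have h3 : (a⁻¹ : gu3 σ) * a = 1 := inv_mul_cancel a
    exact congrArg (fun g : gu3 σ => ((g : GL (Fin 3) F) : Matrix (Fin 3) (Fin 3) F)) h3
  rw [h1, hAB, mul_smul_comm, h2]

theorem Rep.eq' {g h : PGU σ} {A : Matrix (Fin 3) (Fin 3) F} (hg : Rep g A) (hh : Rep h A) :
    g = h := hg.eq hh 1 (one_smul _ _).symm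

theorem Rep.smul {g h : PGU σ} {A B : Matrix (Fin 3) (Fin 3) F} (hg : Rep g A) (hh : Rep h B)
    (hgh : g = h) : ∃ μ : F, μ ≠ 0 ∧ B = μ • A := by
  obtain ⟨hA, dA, rfl⟩ := hg
  obtain ⟨hB, dB, rfl⟩ := hh
  unfold pgu at hgh
  obtain ⟨μ, hμ⟩ := QuotientGroup.eq.1 hgh
  set a : gu3 σ := ⟨Matrix.GeneralLinearGroup.mkOfDetNeZero A dA, hA⟩ with ha
  set b : gu3 σ := ⟨Matrix.GeneralLinearGroup.mkOfDetNeZero B dB, hB⟩ with hb
  have h1 : A * (((a⁻¹ * b : gu3 σ) : GL (Fin 3) F) : Matrix (Fin 3) (Fin 3) F) = B := by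
    have h3 : a * (a⁻¹ * b) = b := mul_inv_cancel_left a b
    exact congrArg (fun g : gu3 σ => ((g : GL (Fin 3) F) : Matrix (Fin 3) (Fin 3) F)) h3
  rw [hμ, mul_smul_comm, mul_one] at h1
  refine ⟨μ, ?_, h1.symm⟩
  rintro rfl
  rw [zero_smul] at h1
  rw [← h1] at dB
  exact dB Matrix.det_zero

theorem rep_surj (g : PGU σ) : ∃ A, Rep g A := by
  obtain ⟨a, rfl⟩ := QuotientGroup.mk'_surjective (zgu σ) g
  refine ⟨((a : GL (Fin 3) F) : Matrix (Fin 3) (Fin 3) F), a.2, ?_, ?_⟩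
  · exact (Matrix.GeneralLinearGroup.det (a : GL (Fin 3) F)).ne_zero
  · unfold pgu
    refine congrArg (QuotientGroup.mk' (zgu σ)) ?_
    apply Subtype.ext
    apply Units.ext
    rfl

theorem Rep.isU {g : PGU σ} {A : Matrix (Fin 3) (Fin 3) F} (hg : Rep g A) : IsU σ A := hg.1

variable (σ)

/-- the unipotent matrices -/
def um (a b : F) : Matrix (Fin 3) (Fin 3) F := !![1, -σ a, b; 0, 1, a; 0, 0, 1]

/-- the torus -/
def dm (x : F) : Matrix (Fin 3) (Fin 3) F := !![x, 0, 0; 0, 1, 0; 0, 0, (σ x)⁻¹]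

variable {σ}

theorem um_mul (a b c d : F) : um σ a b * um σ c d = um σ (a + c) (b + d - σ a * c) := by
  ext i j
  fin_cases i <;> fin_cases j <;>
    simp [um, Matrix.mul_apply, Fin.sum_univ_three] <;> ring

theorem um_zero : um σ 0 0 = 1 := by
  ext i j
  fin_cases i <;> fin_cases j <;> simp [um]

theorem dm_one : dm σ 1 = 1 := by
  ext i j
  fin_cases i <;> fin_cases j <;> simp [dm]

theorem dm_mul (x y : F) : dm σ x * dm σ y = dm σ (x * y) := by
  ext i j
  fin_cases i <;> fin_cases j <;>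
    simp [dm, Matrix.mul_apply, Fin.sum_univ_three, mul_comm]

theorem dm_um (hσ : ∀ x, σ (σ x) = x) {x : F} (hx : x ≠ 0) (a b : F) :
    dm σ x * um σ a b * dm σ x⁻¹ = um σ (σ x * a) (x * σ x * b) := by
  have hx' : σ x ≠ 0 := fun h => hx ((map_eq_zero σ).1 h)
  ext i j
  fin_cases i <;> fin_cases j <;>
    simp [um, dm, Matrix.mul_apply, Fin.sum_univ_three, hσ, hx, hx'] <;> ring

theorem JJ : J3 F * J3 F = 1 := by
  ext i j
  fin_cases i <;> fin_cases j <;> simp [J3, Matrix.mul_apply, Fin.sum_univ_three]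

theorem J_dm (hσ : ∀ x, σ (σ x) = x) {x : F} (hx : x ≠ 0) :
    J3 F * dm σ x * J3 F * dm σ (σ x) = 1 := by
  have hx' : σ x ≠ 0 := fun h => hx ((map_eq_zero σ).1 h)
  ext i j
  fin_cases i <;> fin_cases j <;>
    simp [J3, dm, Matrix.mul_apply, Fin.sum_univ_three, hσ, hx, hx']

theorem um_map (a b : F) : (um σ a b).map σ = um σ (σ a) (σ b) := by
  ext i j
  fin_cases i <;> fin_cases j <;> simp [um]

theorem dm_map (x : F) : (dm σ x).map σ = dm σ (σ x) := by
  ext i j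
  fin_cases i <;> fin_cases j <;> simp [dm]

theorem J_map : (J3 F).map σ = J3 F := by
  ext i j
  fin_cases i <;> fin_cases j <;> simp [J3]

theorem rep_um (hσ : ∀ x, σ (σ x) = x) {a b : F} (h : b + σ b + a * σ a = 0) :
    ∃ g : PGU σ, Rep g (um σ a b) :=
  ⟨pgu (um σ a b) (isU_unip hσ h) (by rw [Matrix.det_fin_three]; simp [um]),
    isU_unip hσ h, by rw [Matrix.det_fin_three]; simp [um], rfl⟩

theorem dm_isU (hσ : ∀ x, σ (σ x) = x) {x : F} (hx : x ≠ 0) : IsU σ (dm σ x) := by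
  have hx' : σ x ≠ 0 := fun h => hx ((map_eq_zero σ).1 h)
  exact isU_diag hσ (mul_inv_cancel₀ hx') (by rw [map_one, mul_one])

theorem dm_det {x : F} (hx : x ≠ 0) : (dm σ x).det ≠ 0 := by
  have hx' : σ x ≠ 0 := fun h => hx ((map_eq_zero σ).1 h)
  rw [Matrix.det_fin_three]
  simp [dm, hx, hx']

/-- the torus -/
def th (hσ : ∀ x, σ (σ x) = x) : Fˣ →* PGU σ where
  toFun x := pgu (dm σ x) (dm_isU hσ x.ne_zero) (dm_det x.ne_zero)
  map_one' := by
    have h1 : Rep (pgu (dm σ ((1 : Fˣ) : F)) (dm_isU hσ (1 : Fˣ).ne_zero)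
      (dm_det (1 : Fˣ).ne_zero)) (dm σ ((1 : Fˣ) : F)) := ⟨_, _, rfl⟩
    refine h1.eq Rep.one 1 ?_
    rw [Units.val_one, dm_one, one_smul]
  map_mul' x y := by
    have h1 : Rep (pgu (dm σ ((x * y : Fˣ) : F)) (dm_isU hσ (x * y : Fˣ).ne_zero)
      (dm_det (x * y : Fˣ).ne_zero)) (dm σ ((x * y : Fˣ) : F)) := ⟨_, _, rfl⟩
    have h2 : Rep (pgu (dm σ (x : F)) (dm_isU hσ x.ne_zero)
      (dm_det x.ne_zero)) (dm σ (x : F)) := ⟨_, _, rfl⟩
    have h3 : Rep (pgu (dm σ (y : F)) (dm_isU hσ y.ne_zero)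
      (dm_det y.ne_zero)) (dm σ (y : F)) := ⟨_, _, rfl⟩
    refine h1.eq (h2.mul h3) 1 ?_
    rw [dm_mul, one_smul, Units.val_mul]

theorem rep_th (hσ : ∀ x, σ (σ x) = x) (x : Fˣ) : Rep (th hσ x) (dm σ (x : F)) := ⟨_, _, rfl⟩

/-- the unipotent group -/
def Ug (hσ : ∀ x, σ (σ x) = x) : Subgroup (PGU σ) where
  carrier := {g | ∃ a b : F, b + σ b + a * σ a = 0 ∧ Rep g (um σ a b)}
  mul_mem' := by
    rintro g h ⟨a, b, hab, hg⟩ ⟨c, d, hcd, hh⟩
    refine ⟨a + c, b + d - σ a * c, ?_, ?_⟩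
    · rw [map_sub, map_add, map_add, map_mul, hσ]
      linear_combination hab + hcd
    · rw [← um_mul]
      exact hg.mul hh
  one_mem' := ⟨0, 0, by simp, by rw [um_zero]; exact Rep.one⟩
  inv_mem' := by
    rintro g ⟨a, b, hab, hg⟩
    have h1 : σ b + σ (σ b) + -a * σ (-a) = 0 := by
      rw [hσ, map_neg]
      linear_combination hab
    obtain ⟨h, hh⟩ := rep_um hσ h1
    refine ⟨-a, σ b, h1, ?_⟩
    have h2 : g * h = 1 := by
      refine (hg.mul hh).eq' ?_
      rw [um_mul]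
      have h3 : a + -a = 0 := by ring
      have h4 : b + σ b - σ a * -a = 0 := by linear_combination hab
      rw [h3, h4, um_zero]
      exact Rep.one
    rw [inv_eq_of_mul_eq_one_right h2]
    exact hh

/-- the field automorphism on the unitary group -/
def ge (hσ : ∀ x, σ (σ x) = x) : gu3 σ ≃* gu3 σ where
  toFun g := ⟨Units.mapEquiv (σ.mapMatrix (m := Fin 3)).toMulEquiv (g : GL (Fin 3) F), by
    have h1 := congrArg (fun A : Matrix (Fin 3) (Fin 3) F => A.map σ) g.2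
    have h2 : IsU σ (((g : GL (Fin 3) F) : Matrix (Fin 3) (Fin 3) F).map σ) := by
      unfold IsU
      refine Eq.trans ?_ (h1.trans (J_map (σ := σ)))
      rw [Matrix.map_mul, Matrix.map_mul, J_map]
      rfl
    exact h2⟩
  invFun g := ⟨Units.mapEquiv (σ.mapMatrix (m := Fin 3)).toMulEquiv (g : GL (Fin 3) F), by
    have h1 := congrArg (fun A : Matrix (Fin 3) (Fin 3) F => A.map σ) g.2
    have h2 : IsU σ (((g : GL (Fin 3) F) : Matrix (Fin 3) (Fin 3) F).map σ) := by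
      unfold IsU
      refine Eq.trans ?_ (h1.trans (J_map (σ := σ)))
      rw [Matrix.map_mul, Matrix.map_mul, J_map]
      rfl
    exact h2⟩
  left_inv g := by
    apply Subtype.ext
    apply Units.ext
    ext i j
    exact hσ _
  right_inv g := by
    apply Subtype.ext
    apply Units.ext
    ext i j
    exact hσ _
  map_mul' g h := by
    apply Subtype.ext
    apply Units.ext
    exact map_mul (σ.mapMatrix (m := Fin 3)) _ _

theorem ge_val (hσ : ∀ x, σ (σ x) = x) (g : gu3 σ) :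
    (((ge hσ g : gu3 σ) : GL (Fin 3) F) : Matrix (Fin 3) (Fin 3) F) =
      ((g : GL (Fin 3) F) : Matrix (Fin 3) (Fin 3) F).map σ := rfl

theorem ge_zgu (hσ : ∀ x, σ (σ x) = x) :
    Subgroup.map ((ge hσ : gu3 σ ≃* gu3 σ) : gu3 σ →* gu3 σ) (zgu σ) = zgu σ := by
  have h1 : ∀ g ∈ zgu σ, ge hσ g ∈ zgu σ := by
    rintro g ⟨μ, hg⟩
    refine ⟨σ μ, ?_⟩
    rw [ge_val, hg]
    ext i j
    by_cases hij : i = j
    · subst hij
      simp
    · simp [hij]
  ext g
  constructor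
  · rintro ⟨h, hh, rfl⟩
    exact h1 h hh
  · intro hg
    refine ⟨ge hσ g, h1 g hg, ?_⟩
    exact (ge hσ).left_inv g

/-- the field automorphism on `PGU` -/
def Ph (hσ : ∀ x, σ (σ x) = x) : PGU σ ≃* PGU σ :=
  QuotientGroup.congr (zgu σ) (zgu σ) (ge hσ) (ge_zgu hσ)

theorem Rep.ph (hσ : ∀ x, σ (σ x) = x) {g : PGU σ} {A : Matrix (Fin 3) (Fin 3) F}
    (hg : Rep g A) : Rep (Ph hσ g) (A.map σ) := by
  obtain ⟨hA, dA, rfl⟩ := hg
  have h1 := (ge hσ ⟨Matrix.GeneralLinearGroup.mkOfDetNeZero A dA, hA⟩).2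
  refine ⟨h1, (Matrix.GeneralLinearGroup.det
    (ge hσ ⟨Matrix.GeneralLinearGroup.mkOfDetNeZero A dA, hA⟩ : GL (Fin 3) F)).ne_zero, ?_⟩
  unfold pgu Ph
  refine (QuotientGroup.congr_mk (zgu σ) (zgu σ) (ge hσ) (ge_zgu hσ) _).trans ?_
  refine congrArg (QuotientGroup.mk' (zgu σ)) ?_
  apply Subtype.ext
  apply Units.ext
  rfl

/-- the parameter of a unipotent element -/
def rr (g : PGU σ) : F := (rep_surj g).choose 1 2 / (rep_surj g).choose 2 2

theorem Rep.rr_eq {g : PGU σ} {A : Matrix (Fin 3) (Fin 3) F} (hg : Rep g A) :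
    rr g = A 1 2 / A 2 2 := by
  obtain ⟨μ, hμ, h⟩ := (rep_surj g).choose_spec.smul hg rfl
  unfold rr
  rw [h, Matrix.smul_apply, Matrix.smul_apply, smul_eq_mul, smul_eq_mul, mul_div_mul_left _ _ hμ]

theorem Rep.rr_um {g : PGU σ} {a b : F} (hg : Rep g (um σ a b)) : rr g = a := by
  rw [hg.rr_eq]
  simp [um]

/-- signs -/
def sg (z : ZMod 2) : ℤˣ := if z = 0 then 1 else -1

theorem sg_add : ∀ z z' : ZMod 2, sg (z + z') = sg z * sg z' := by decide

theorem sg_ne : ∀ z : ZMod 2, z ≠ 0 → sg z ≠ 1 := by decide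

end U03_aux

open scoped commutatorElement in
/-- Rank one data for `PGU_3(q)`, `q` even: `U` the images of the unipotent matrices `u(a,b)`,
`T` the images of `diag(x, 1, σ(x)⁻¹)`, `w` the image of `J3`, the automorphism `Φ` is induced by
`σ` (entrywise). `U / [U,U] = F` (the commutators `[u(a,*), u(c,*)] = u(0, a σ(c) + σ(a) c)` are
all `u(0,b)` with `σ b = b`), `u(a,b)² = u(0, a σ(a))`, the torus acts on it by
multiplication with `σ(x)⁻¹` or `x`, transitively on the nontrivial characters `F → {±1}`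
(`P39_aux.dual_surj`); a character fixed by `σ`: `a ↦ χ(a + σ a)`. -/
theorem pgu_rankOneEven [Finite F] (h2 : (2 : F) = 0) (hσ : ∀ x, σ (σ x) = x)
    (h1 : ∃ x, σ x ≠ x) :
    ∃ (U T : Subgroup (PGU σ)) (w : PGU σ) (Φ : PGU σ ≃* PGU σ), RankOneEven U T w Φ ∧
      ∀ u ∈ U, u ^ 4 = 1 := by
  classical
  have : Fintype F := Fintype.ofFinite F
  have hchar : CharP F 2 := CharTwo.of_one_ne_zero_of_two_eq_zero one_ne_zero h2
  have hneg : ∀ x : F, -x = x := fun x => CharTwo.neg_eq x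
  have hdbl : ∀ x : F, x + x = 0 := fun x => CharTwo.add_self_eq_zero x
  have hs0 : ∀ x : F, x ≠ 0 → σ x ≠ 0 := fun x hx h => hx ((map_eq_zero σ).1 h)
  -- trace one
  obtain ⟨x0, hx0⟩ := h1
  have hx0' : x0 + σ x0 ≠ 0 := by
    intro h
    apply hx0
    have h3 := eq_neg_of_add_eq_zero_left h
    rw [hneg] at h3
    exact h3.symm
  have hfix0 : σ (x0 + σ x0) = x0 + σ x0 := by rw [map_add, hσ, add_comm]
  set c0 : F := x0 / (x0 + σ x0) with hc0
  have hc01 : c0 + σ c0 = 1 := by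
    rw [hc0, map_div₀, hfix0, ← add_div, div_self hx0']
  have hb : ∀ a : F, ∃ b : F, b + σ b + a * σ a = 0 := exists_b hσ ⟨x0, hx0⟩
  have hwrep : Rep (pgu (J3 F) isU_J (by rw [Matrix.det_fin_three]; simp [J3]) : PGU σ) (J3 F) :=
    ⟨_, _, rfl⟩
  set w : PGU σ := pgu (J3 F) isU_J (by rw [Matrix.det_fin_three]; simp [J3]) with hw
  have hww : w * w = 1 := (hwrep.mul hwrep).eq' (by rw [JJ]; exact Rep.one)
  have hmemT : ∀ g, g ∈ (th hσ).range ↔ ∃ x : Fˣ, g = th hσ x := fun g =>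
    ⟨fun ⟨x, hx⟩ => ⟨x, hx.symm⟩, fun ⟨x, hx⟩ => ⟨x, hx.symm⟩⟩
  have hu4 : ∀ u ∈ Ug hσ, u ^ 4 = 1 := by
    rintro u ⟨a, b, hab, hu⟩
    have h3 := (hu.mul hu).mul (hu.mul hu)
    have e1 : a + a + (a + a) = 0 := hdbl _
    have e2 : b + b - σ a * a + (b + b - σ a * a) - σ (a + a) * (a + a) = 0 := by
      rw [hdbl (b + b - σ a * a), hdbl a, mul_zero, sub_zero]
    rw [um_mul, um_mul, e1, e2, um_zero] at h3
    have h4 : u ^ 4 = (u * u) * (u * u) := by rw [← pow_two, ← pow_two, ← pow_mul]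
    rw [h4]
    exact h3.eq' Rep.one
  -- conjugation by the torus
  have hconj : ∀ (x : Fˣ) (g : PGU σ) (a b : F), Rep g (um σ a b) →
      Rep (th hσ x * g * (th hσ x)⁻¹) (um σ (σ x * a) (x * σ x * b)) := by
    intro x g a b hg
    rw [← dm_um hσ x.ne_zero, ← map_inv]
    have h3 := rep_th hσ x⁻¹
    rw [Units.val_inv_eq_inv_val] at h3
    exact ((rep_th hσ x).mul hg).mul h3
  have hcond : ∀ (x : Fˣ) (a b : F), b + σ b + a * σ a = 0 →
      x * σ x * b + σ (x * σ x * b) + σ x * a * σ (σ x * a) = 0 := by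
    intro x a b hab
    simp only [map_mul, hσ]
    linear_combination ((x : F) * σ x) * hab
  have hnorm : ∀ t ∈ (th hσ).range, ∀ u ∈ Ug hσ, t * u * t⁻¹ ∈ Ug hσ := by
    intro t ht u hu
    obtain ⟨x, rfl⟩ := (hmemT t).1 ht
    obtain ⟨a, b, hab, hu⟩ := hu
    exact ⟨_, _, hcond x a b hab, hconj x u a b hu⟩
  have hFT' : ∀ x : Fˣ, Ph hσ (th hσ x) = th hσ (Units.map (σ : F →* F) x) := by
    intro x
    have h3 := (rep_th hσ x).ph hσ
    rw [dm_map] at h3
    exact h3.eq' (rep_th hσ (Units.map (σ : F →* F) x))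
  have hinv : ∀ t ∈ (th hσ).range, w * t * w = (Ph hσ t)⁻¹ := by
    intro t ht
    obtain ⟨x, rfl⟩ := (hmemT t).1 ht
    rw [eq_inv_iff_mul_eq_one, hFT']
    have h3 := ((hwrep.mul (rep_th hσ x)).mul hwrep).mul
      (rep_th hσ (Units.map (σ : F →* F) x))
    have h4 : J3 F * dm σ (x : F) * J3 F *
        dm σ ((Units.map (σ : F →* F) x : Fˣ) : F) = 1 := J_dm hσ x.ne_zero
    rw [h4] at h3
    exact h3.eq' Rep.one
  have hFT : ∀ t ∈ (th hσ).range, Ph hσ t ∈ (th hσ).range := by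
    intro t ht
    obtain ⟨x, rfl⟩ := (hmemT t).1 ht
    rw [hFT']
    exact ⟨_, rfl⟩
  -- the elements of the commutator subgroup
  have hcent : ∀ t : F, σ t = t → ∀ z : Ug hσ, Rep (z : PGU σ) (um σ 0 t) →
      ∃ x y : Ug hσ, x * y = z * (y * x) := by
    intro t ht z hz
    obtain ⟨b1, hb1⟩ := hb 1
    obtain ⟨b2, hb2⟩ := hb (t * c0)
    obtain ⟨g1, hg1⟩ := rep_um hσ hb1
    obtain ⟨g2, hg2⟩ := rep_um hσ hb2
    refine ⟨⟨g1, 1, b1, hb1, hg1⟩, ⟨g2, t * c0, b2, hb2, hg2⟩, Subtype.ext ?_⟩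
    have h3 := hg1.mul hg2
    have h4 := hz.mul (hg2.mul hg1)
    rw [um_mul] at h3
    rw [um_mul, um_mul] at h4
    refine h3.eq' ?_
    have h5 : (0 : F) + (t * c0 + 1) = 1 + t * c0 := by ring
    have h6 : t + (b2 + b1 - σ (t * c0) * 1) - σ 0 * (t * c0 + 1) =
        b1 + b2 - σ 1 * (t * c0) := by
      rw [map_zero, map_one, map_mul, ht]
      linear_combination (-t) * hc01 + t * (c0 * h2)
    rw [h5, h6] at h4
    exact h4
  have hcomm : ∀ t : F, σ t = t → ∀ z : Ug hσ, Rep (z : PGU σ) (um σ 0 t) →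
      z ∈ commutator (Ug hσ) := by
    intro t ht z hz
    obtain ⟨x, y, hxy⟩ := hcent t ht z hz
    have h3 : z = ⁅x, y⁆ := by
      rw [commutatorElement_def, hxy]
      group
    rw [h3]
    exact Subgroup.commutator_mem_commutator (Subgroup.mem_top x) (Subgroup.mem_top y)
  -- representatives
  choose bb hbb using hb
  have hel : ∀ a : F, ∃ g : Ug hσ, Rep (g : PGU σ) (um σ a (bb a)) := by
    intro a
    obtain ⟨g, hg⟩ := rep_um hσ (hbb a)
    exact ⟨⟨g, a, bb a, hbb a, hg⟩, hg⟩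
  choose el hel using hel
  -- a character only depends on the first parameter
  have hdep : ∀ (nu : Ug hσ →* ℤˣ) (x : Ug hσ) (a b : F), Rep (x : PGU σ) (um σ a b) →
      nu x = nu (el a) := by
    intro nu x a b hx
    have h3 := x.2
    obtain ⟨a', b', hab', hx'⟩ := h3
    obtain ⟨μ, hμ, hE⟩ := hx.smul hx' rfl
    have hμ1 : μ = 1 := by
      have h4 := congrArg (fun A : Matrix (Fin 3) (Fin 3) F => A 0 0) hE
      simpa [um] using h4.symm
    rw [hμ1, one_smul] at hE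
    have ha : a' = a := by
      have h4 := congrArg (fun A : Matrix (Fin 3) (Fin 3) F => A 1 2) hE
      simpa [um] using h4
    have hb' : b' = b := by
      have h4 := congrArg (fun A : Matrix (Fin 3) (Fin 3) F => A 0 2) hE
      simpa [um] using h4
    subst ha hb'
    have ht : σ (b' - bb a') = b' - bb a' := by
      have h4 := hbb a'
      rw [map_sub]
      linear_combination hab' - h4 - b' * h2 + bb a' * h2
    have hcz : (b' - bb a') + σ (b' - bb a') + 0 * σ 0 = 0 := by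
      rw [ht, hdbl, zero_mul, add_zero]
    obtain ⟨z, hz⟩ := rep_um hσ hcz
    have hzm : z ∈ Ug hσ := ⟨0, _, hcz, hz⟩
    obtain ⟨p, q, hpq⟩ := hcent _ ht ⟨z, hzm⟩ hz
    have h5 : nu ⟨z, hzm⟩ = 1 := by
      have h6 := congrArg nu hpq
      rw [map_mul, map_mul, map_mul, mul_comm (nu q) (nu p)] at h6
      exact mul_right_cancel (h6.symm.trans (one_mul _).symm)
    have h7 : x = ⟨z, hzm⟩ * el a' := by
      apply Subtype.ext
      refine hx.eq' ?_
      have h8 := hz.mul (hel a')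
      rw [um_mul] at h8
      have h9 : (0 : F) + a' = a' := zero_add _
      have h10 : b' - bb a' + bb a' - σ 0 * a' = b' := by rw [map_zero]; ring
      rw [h9, h10] at h8
      exact h8
    rw [h7, map_mul, h5, one_mul]
  have hels : ∀ (nu : Ug hσ →* ℤˣ) (x : Ug hσ), nu x = nu (el (rr (x : PGU σ))) := by
    intro nu x
    obtain ⟨a, b, hab, hx⟩ := x.2
    rw [hx.rr_um]
    exact hdep nu x a b hx
  refine ⟨Ug hσ, (th hσ).range, w, Ph hσ, ⟨?_, ?_, ?_, hnorm, ?_, hww, ?_, hFT, ?_, hinv, ?_, ?_,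
    ?_, ?_⟩, hu4⟩
  · -- two
    have : Fact (Nat.Prime 2) := ⟨Nat.prime_two⟩
    refine IsPGroup.iff_card.1 fun u => ⟨2, ?_⟩
    apply Subtype.ext
    exact hu4 u u.2
  · -- ne
    intro h
    have h3 : ((el 1 : Ug hσ) : PGU σ) = 1 := Subgroup.mem_bot.1 (h.le (el 1).2)
    obtain ⟨μ, hμ, hE⟩ := Rep.one.smul (hel 1) h3.symm
    have h4 := congrArg (fun A : Matrix (Fin 3) (Fin 3) F => A 1 2) hE
    simp [um] at h4
  · -- odd
    have h3 : Nat.card (th hσ).range ∣ Nat.card Fˣ := Subgroup.card_range_dvd (th hσ)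
    obtain ⟨k, -, hk⟩ := FiniteField.card F 2
    rw [Nat.card_units, Nat.card_eq_fintype_card (α := F), hk] at h3
    refine Odd.of_dvd_nat ?_ h3
    have h4 : Even (2 ^ (k : ℕ)) := (Nat.even_pow.2 ⟨even_two, k.pos.ne'⟩)
    have h5 : 1 ≤ 2 ^ (k : ℕ) := Nat.one_le_two_pow
    exact Nat.Even.sub_odd h5 h4 odd_one
  · -- bruhat
    intro g
    obtain ⟨A, hA⟩ := rep_surj g
    have hdiag : ∀ x y z : F, σ x * z = 1 → σ y * y = 1 → ∃ x' : Fˣ, y ≠ 0 ∧
        !![x, 0, 0; 0, y, 0; 0, 0, z] = y • dm σ (x' : F) := by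
      intro x y z h3 h4
      have hy : y ≠ 0 := right_ne_zero_of_mul_eq_one h4
      have hx : x ≠ 0 := by
        rintro rfl
        rw [map_zero, zero_mul] at h3
        exact zero_ne_one h3
      have hsx := hs0 x hx
      have hsy := hs0 y hy
      refine ⟨Units.mk0 (x / y) (div_ne_zero hx hy), hy, ?_⟩
      have h5 : z = y * (σ (x / y))⁻¹ := by
        rw [map_div₀, inv_div, mul_div_assoc']
        rw [eq_div_iff hsx]
        linear_combination h3 - h4
      ext i j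
      fin_cases i <;> fin_cases j <;> simp [dm, h5, mul_div_cancel₀, hy]
    by_cases h0 : A 2 0 = 0
    · left
      obtain ⟨a, b, x, y, z, hab, h3, h4, hE⟩ := isU_upper hσ hA.isU h0
      obtain ⟨x', hy, hD⟩ := hdiag x y z h3 h4
      obtain ⟨u, hu⟩ := rep_um hσ hab
      refine ⟨u, ⟨a, b, hab, hu⟩, th hσ x', ⟨x', rfl⟩, ?_⟩
      refine ((hu.mul (rep_th hσ x')).eq hA y ?_).symm
      rw [hE, hD, mul_smul_comm]
      rfl
    · right
      obtain ⟨a, b, a', b', x, y, z, hab, hab', h3, h4, hE⟩ := isU_bruhat hσ hA.isU h0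
      obtain ⟨x', hy, hD⟩ := hdiag x y z h3 h4
      obtain ⟨u, hu⟩ := rep_um hσ hab
      obtain ⟨u', hu'⟩ := rep_um hσ hab'
      have hg : g = u * w * (u' * th hσ x') := by
        refine (((hu.mul hwrep).mul (hu'.mul (rep_th hσ x'))).eq hA y ?_).symm
        rw [hE, hD, mul_smul_comm, mul_smul_comm]
        rfl
      have ht : th hσ x' ∈ (th hσ).range := ⟨x', rfl⟩
      have hwt : w * th hσ x' * w ∈ (th hσ).range := by
        rw [hinv _ ht]
        exact Subgroup.inv_mem _ (hFT _ ht)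
      have hu'' : (th hσ x')⁻¹ * u' * th hσ x' ∈ Ug hσ := by
        have h5 := hnorm _ (Subgroup.inv_mem _ ht) u' ⟨a', b', hab', hu'⟩
        rwa [inv_inv] at h5
      refine ⟨u, ⟨a, b, hab, hu⟩, _, hwt, _, hu'', ?_⟩
      rw [hg]
      have h6 : u * (w * th hσ x' * w) * w * ((th hσ x')⁻¹ * u' * th hσ x') =
          u * w * th hσ x' * (w * w) * ((th hσ x')⁻¹ * u' * th hσ x') := by group
      rw [h6, hww]
      group
  · -- FU
    rintro u ⟨a, b, hab, hu⟩
    refine ⟨σ a, σ b, ?_, ?_⟩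
    · rw [← map_mul, ← map_add, ← map_add, hab, map_zero]
    · rw [← um_map]
      exact hu.ph hσ
  · -- Fw
    have h3 := hwrep.ph hσ
    rw [J_map] at h3
    exact h3.eq' hwrep
  · -- triv
    rintro u ⟨a, b, hab, hu⟩ u' ⟨a', b', hab', hu'⟩ t ht h
    obtain ⟨x, rfl⟩ := (hmemT t).1 ht
    have h3 := (hwrep.mul (hu'.mul (rep_th hσ x))).mul hwrep
    obtain ⟨μ, hμ, hE⟩ := h3.smul hu h.symm
    have ha : a = 0 := by
      have h4 := congrArg (fun A : Matrix (Fin 3) (Fin 3) F => A 1 2) hE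
      simpa [um, dm, J3, Matrix.mul_apply, Fin.sum_univ_three] using h4
    have hb : b = 0 := by
      have h4 := congrArg (fun A : Matrix (Fin 3) (Fin 3) F => A 0 2) hE
      simpa [um, dm, J3, Matrix.mul_apply, Fin.sum_univ_three] using h4
    rw [ha, hb, um_zero] at hu
    exact hu.eq' Rep.one
  · -- sq
    intro x
    obtain ⟨a, b, hab, hx⟩ := x.2
    have h3 := hx.mul hx
    rw [um_mul, hdbl, hdbl, zero_sub, hneg] at h3
    refine hcomm (σ a * a) ?_ (x * x) h3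
    rw [map_mul, hσ, mul_comm]
  · -- trans
    intro lam mu hlam hmu
    have hadd : ∀ (nu : Ug hσ →* ℤˣ) (x y : F),
        P39_aux.gs (nu (el (x + y))) = P39_aux.gs (nu (el x)) + P39_aux.gs (nu (el y)) := by
      intro nu x y
      have h3 := (hel x).mul (hel y)
      rw [um_mul] at h3
      rw [← P39_aux.gs_mul, ← map_mul, hdep nu (el x * el y) _ _ h3]
    have hne : ∀ nu : Ug hσ →* ℤˣ, nu ≠ 1 → ∃ x, P39_aux.gs (nu (el x)) ≠ 0 := by
      intro nu hnu
      by_contra hcon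
      push Not at hcon
      apply hnu
      ext u
      have h3 := hcon (rr (u : PGU σ))
      rw [← hels nu u, ← P39_aux.gs_one] at h3
      rw [P39_aux.gs_inj _ _ h3]
      rfl
    have hel0 : ∀ nu : Ug hσ →* ℤˣ, nu (el 0) = 1 := by
      intro nu
      rw [← hdep nu 1 0 0 (by rw [um_zero]; exact Rep.one), map_one]
    obtain ⟨c, hc, hcu⟩ := P39_aux.dual_surj (fun x => P39_aux.gs (lam (el x)))
      (fun x => P39_aux.gs (mu (el x))) (hadd lam) (hadd mu) (hne lam hlam)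
    have hcne : c ≠ 0 := by
      rintro rfl
      obtain ⟨x, hx⟩ := hne mu hmu
      apply hx
      have h3 := hc x
      beta_reduce at h3
      rw [h3, zero_mul, hel0, P39_aux.gs_one]
    -- the condition for the torus element `x`
    have key : ∀ x : Fˣ, (∀ X Y : Ug hσ,
        (Y : PGU σ) = (th hσ x)⁻¹ * X * th hσ x → mu X = lam Y) ↔
        ∀ ξ : F, P39_aux.gs (mu (el ξ)) = P39_aux.gs (lam (el ((σ (x : F))⁻¹ * ξ))) := by
      intro x
      have hrep : ∀ (g : PGU σ) (a b : F), Rep g (um σ a b) →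
          Rep ((th hσ x)⁻¹ * g * th hσ x)
            (um σ ((σ (x : F))⁻¹ * a) (((x⁻¹ : Fˣ) : F) * σ ((x⁻¹ : Fˣ) : F) * b)) := by
        intro g a b hg
        have h3 := hconj x⁻¹ g a b hg
        rw [map_inv, inv_inv] at h3
        rw [Units.val_inv_eq_inv_val, map_inv₀] at h3
        rw [Units.val_inv_eq_inv_val, map_inv₀]
        exact h3
      constructor
      · intro h ξ
        have h3 := hrep _ _ _ (hel ξ)
        have hmem : (th hσ x)⁻¹ * ((el ξ : Ug hσ) : PGU σ) * th hσ x ∈ Ug hσ := by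
          have h5 := hnorm _ (Subgroup.inv_mem _ (⟨x, rfl⟩ : th hσ x ∈ (th hσ).range)) _ (el ξ).2
          rwa [inv_inv] at h5
        rw [h (el ξ) ⟨_, hmem⟩ rfl, hdep lam ⟨_, hmem⟩ _ _ h3]
      · intro h X Y hXY
        obtain ⟨a, b, hab, hX⟩ := X.2
        have h3 := hrep _ _ _ hX
        rw [← hXY] at h3
        rw [hdep mu X a b hX, hdep lam Y _ _ h3]
        exact P39_aux.gs_inj _ _ (h a)
    have hsc : σ (c⁻¹) ≠ 0 := hs0 _ (inv_ne_zero hcne)
    refine ⟨⟨th hσ (Units.mk0 (σ c⁻¹) hsc), ⟨_, rfl⟩⟩, ?_, ?_⟩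
    · refine (key _).2 fun ξ => ?_
      rw [Units.val_mk0, hσ, inv_inv]
      exact hc ξ
    · rintro ⟨t, ht⟩ h
      obtain ⟨x, rfl⟩ := (hmemT t).1 ht
      have h3 := (key x).1 h
      have h4 : (σ (x : F))⁻¹ = c := hcu _ h3
      have h5 : x = Units.mk0 (σ c⁻¹) hsc := by
        apply Units.ext
        rw [Units.val_mk0, ← h4, inv_inv, hσ]
      exact Subtype.ext (congrArg (th hσ) h5)
  · -- fixed
    let _ : Algebra (ZMod 2) F := ZMod.algebra F 2
    have : Fact (Nat.Prime 2) := ⟨Nat.prime_two⟩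
    obtain ⟨f, hf⟩ : ∃ f : Module.Dual (ZMod 2) F, f (x0 + σ x0) ≠ 0 := by
      by_contra hcon
      push Not at hcon
      exact hx0' ((Module.forall_dual_apply_eq_zero_iff (ZMod 2) (x0 + σ x0)).1 hcon)
    have hrmul : ∀ x y : Ug hσ, rr ((x * y : Ug hσ) : PGU σ) = rr (x : PGU σ) + rr (y : PGU σ) := by
      intro x y
      obtain ⟨a, b, hab, hx⟩ := x.2
      obtain ⟨c, d, hcd, hy⟩ := y.2
      have h3 := hx.mul hy
      rw [um_mul] at h3
      have h4 : rr ((x : PGU σ) * (y : PGU σ)) = a + c := h3.rr_um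
      rw [hx.rr_um, hy.rr_um]
      exact h4
    let lam : Ug hσ →* ℤˣ := MonoidHom.mk' (fun u => sg (f (rr (u : PGU σ) + σ (rr (u : PGU σ)))))
      (by
        intro x y
        rw [hrmul, ← sg_add, ← map_add, map_add σ]
        congr 2
        ring)
    have hlam : ∀ u : Ug hσ, lam u = sg (f (rr (u : PGU σ) + σ (rr (u : PGU σ)))) := fun u => rfl
    refine ⟨lam, ?_, ?_⟩
    · intro h
      have h3 := hlam (el x0)
      rw [h, (hel x0).rr_um] at h3
      exact sg_ne _ hf h3.symm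
    · intro x y hxy
      obtain ⟨a, b, hab, hx⟩ := x.2
      have h3 := hx.ph hσ
      rw [um_map, ← hxy] at h3
      rw [hlam, hlam, hx.rr_um, h3.rr_um, hσ, add_comm]

/-- a nonabelian simple image of `SU_3` is an image of its image in `PGU_3` (the kernel of `suPG`
consists of scalars, so it is central, and the center of a nonabelian simple group is trivial) -/
theorem su3_image {S : Type} [Group S] (hs : IsSimpleGroup S) (hn : ∃ x y : S, x * y ≠ y * x)
    (f : su3 σ →* S) (hf : Function.Surjective f) :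
    ∃ f' : (suPG σ).range →* S, Function.Surjective f' := by
  have hker : (suPG σ).ker ≤ f.ker := by
    intro a ha
    rw [MonoidHom.mem_ker] at ha ⊢
    -- `a` is a scalar
    have h1 : ∃ μ : F, ((a : SpecialLinearGroup (Fin 3) F) : Matrix (Fin 3) (Fin 3) F) = μ • 1 :=
      (QuotientGroup.eq_one_iff _).1 ha
    obtain ⟨μ, hμ⟩ := h1
    have hcen : ∀ b : su3 σ, a * b = b * a := by
      intro b
      apply Subtype.ext
      apply Subtype.ext
      have h2 : (((a * b : su3 σ) : SpecialLinearGroup (Fin 3) F) : Matrix (Fin 3) (Fin 3) F) =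
        ((a : SpecialLinearGroup (Fin 3) F) : Matrix (Fin 3) (Fin 3) F) *
          ((b : SpecialLinearGroup (Fin 3) F) : Matrix (Fin 3) (Fin 3) F) := rfl
      have h3 : (((b * a : su3 σ) : SpecialLinearGroup (Fin 3) F) : Matrix (Fin 3) (Fin 3) F) =
        ((b : SpecialLinearGroup (Fin 3) F) : Matrix (Fin 3) (Fin 3) F) *
          ((a : SpecialLinearGroup (Fin 3) F) : Matrix (Fin 3) (Fin 3) F) := rfl
      rw [h2, h3, hμ, smul_mul_assoc, mul_smul_comm, one_mul, mul_one]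
    have hfc : f a ∈ Subgroup.center S := by
      rw [Subgroup.mem_center_iff]
      intro s
      obtain ⟨b, rfl⟩ := hf s
      rw [← map_mul, ← map_mul, hcen b]
    rcases (inferInstance : (Subgroup.center S).Normal).eq_bot_or_eq_top with h4 | h4
    · rw [h4] at hfc
      exact Subgroup.mem_bot.1 hfc
    · exfalso
      obtain ⟨x, y, hxy⟩ := hn
      apply hxy
      have h5 : y ∈ Subgroup.center S := by
        rw [h4]
        exact Subgroup.mem_top y
      exact Subgroup.mem_center_iff.1 h5 x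
  refine ⟨(QuotientGroup.lift (suPG σ).ker f hker).comp
    (QuotientGroup.quotientKerEquivRange (suPG σ)).symm.toMonoidHom, ?_⟩
  intro s
  obtain ⟨a, rfl⟩ := hf s
  refine ⟨QuotientGroup.quotientKerEquivRange (suPG σ) (a : su3 σ ⧸ (suPG σ).ker), ?_⟩
  rw [MonoidHom.comp_apply]
  have h6 : (QuotientGroup.quotientKerEquivRange (suPG σ)).symm.toMonoidHom
      (QuotientGroup.quotientKerEquivRange (suPG σ) (a : su3 σ ⧸ (suPG σ).ker)) =
      (a : su3 σ ⧸ (suPG σ).ker) := MulEquiv.symm_apply_apply _ _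
  rw [h6]
  rfl

end

end Parker
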