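import Pool.Agent.Parker.Defs
import Pool.Agent.Parker.P01
import Pool.Agent.Parker.P05
import Pool.Agent.Parker.P08

/-!
# MP_6c3636_al, module X03: Hecke lines (helper7)
-/

namespace Parker

universe u v w

noncomputable section

variable {Ω : Type} [Field Ω] [IsAlgClosed Ω] [CharZero Ω] {G : Type u} [Group G] [Finite G]
  {V : Type v} [AddCommGroup V] [Module Ω V] [FiniteDimensional Ω V]
  {W : Type w} [AddCommGroup W] [Module Ω W] [FiniteDimensional Ω W]

/-- the idempotent of a character of order two of the subgroup `H` -/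
def lav (H : Subgroup G) (lam : H →* ℤˣ) (ρ : Representation Ω G V) : Module.End Ω V :=
  act (rs H ρ) (fun h => (Nat.card H : Ω)⁻¹ * ((lam h : ℤ) : Ω))

namespace X03_aux

omit [IsAlgClosed Ω] [CharZero Ω] [FiniteDimensional Ω V] in
theorem lav_eq (H : Subgroup G) [Fintype H] (lam : H →* ℤˣ) (ρ : Representation Ω G V) (v : V) :
    lav H lam ρ v = ∑ h : H, ((Nat.card H : Ω)⁻¹ * ((lam h : ℤ) : Ω)) • ρ h v := by
  unfold lav
  rw [act_eq, LinearMap.sum_apply]
  rfl

omit [IsAlgClosed Ω] [CharZero Ω] in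
theorem unit_sq (u : ℤˣ) : ((u : ℤ) : Ω) * ((u : ℤ) : Ω) = 1 := by
  rw [← Int.cast_mul, ← Units.val_mul, Int.units_mul_self, Units.val_one, Int.cast_one]

end X03_aux

open X03_aux

theorem lav_apply {H : Subgroup G} {lam : H →* ℤˣ} {ρ : Representation Ω G V} {v : V}
    (hv : ∀ h : H, ρ h v = ((lam h : ℤ) : Ω) • v) : lav H lam ρ v = v := by
  let _ := Fintype.ofFinite H
  rw [lav_eq]
  have h1 : ∀ h : H, ((Nat.card H : Ω)⁻¹ * ((lam h : ℤ) : Ω)) • ρ h v = (Nat.card H : Ω)⁻¹ • v := by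
    intro h
    rw [hv h, smul_smul, mul_assoc, unit_sq, mul_one]
  have h2 : (Nat.card H : Ω) ≠ 0 := by exact_mod_cast Nat.card_pos.ne'
  rw [Finset.sum_congr rfl fun h _ => h1 h, Finset.sum_const, Finset.card_univ,
    ← Nat.card_eq_fintype_card, ← Nat.cast_smul_eq_nsmul Ω, smul_smul, mul_inv_cancel₀ h2, one_smul]

theorem lav_mem {H : Subgroup G} {lam : H →* ℤˣ} {ρ : Representation Ω G V} (v : V) (h : H) :
    ρ h (lav H lam ρ v) = ((lam h : ℤ) : Ω) • lav H lam ρ v := by
  let _ := Fintype.ofFinite H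
  have key : ∑ k : H, ((Nat.card H : Ω)⁻¹ * ((lam k : ℤ) : Ω)) • ρ k v =
      ∑ k : H, ((Nat.card H : Ω)⁻¹ * ((lam (h * k) : ℤ) : Ω)) • ρ (h * k : H) v :=
    (Equiv.sum_comp (Equiv.mulLeft h)
      (fun k : H => ((Nat.card H : Ω)⁻¹ * ((lam k : ℤ) : Ω)) • ρ k v)).symm
  rw [lav_eq, map_sum]
  conv_rhs => rw [key]
  rw [Finset.smul_sum]
  refine Finset.sum_congr rfl fun k _ => ?_
  rw [map_smul, smul_smul, Subgroup.coe_mul, map_mul ρ, Module.End.mul_apply,
    map_mul lam, Units.val_mul, Int.cast_mul]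
  have h1 := unit_sq (Ω := Ω) (lam h)
  have h2 : ((lam h : ℤ) : Ω) * ((Nat.card H : Ω)⁻¹ * (((lam h : ℤ) : Ω) * ((lam k : ℤ) : Ω))) =
      (Nat.card H : Ω)⁻¹ * ((lam k : ℤ) : Ω) := by
    linear_combination ((Nat.card H : Ω)⁻¹ * ((lam k : ℤ) : Ω)) * h1
  rw [h2]

/-- Let `v`, `v'` be nonzero vectors of irreducible representations on which `H` acts by `lam`, and
suppose `e ρ(g) v = c(g) v`, `e τ(g) v' = c(g) v'` for all `g`, where `e` is the idempotent of
`lam`. Then the characters agree. (Otherwise `V × W` is spanned by the orbit of `(v, v')`, and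
`e (V × W)` is the line of `(v, v')`, but `(v, 0)` lies in it.) -/
theorem char_of_hecke {H : Subgroup G} {lam : H →* ℤˣ} {ρ : Representation Ω G V}
    {τ : Representation Ω G W} (hρ : ρ.IsIrreducible) (hτ : τ.IsIrreducible) {v : V} {v' : W}
    (hv0 : v ≠ 0) (hv0' : v' ≠ 0) (hv : ∀ h : H, ρ h v = ((lam h : ℤ) : Ω) • v)
    (hv' : ∀ h : H, τ h v' = ((lam h : ℤ) : Ω) • v') (c : G → Ω)
    (hc : ∀ g, lav H lam ρ (ρ g v) = c g • v) (hc' : ∀ g, lav H lam τ (τ g v') = c g • v') :
    ρ.character = τ.character := by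
  -- the span of the orbit of `(v, v')`
  obtain ⟨U, hU⟩ : ∃ U : Submodule Ω (V × W),
      U = Submodule.span Ω (Set.range fun g : G => (ρ g v, τ g v')) := ⟨_, rfl⟩
  have hUinv : ∀ g : G, ∀ x ∈ U, (ρ g x.1, τ g x.2) ∈ U := by
    intro g
    have h1 : U ≤ U.comap ((ρ g).prodMap (τ g)) := by
      conv_lhs => rw [hU]
      rw [Submodule.span_le]
      rintro _ ⟨k, rfl⟩
      show ((ρ g).prodMap (τ g)) (ρ k v, τ k v') ∈ U
      rw [LinearMap.prodMap_apply, ← Module.End.mul_apply, ← Module.End.mul_apply, ← map_mul,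
        ← map_mul, hU]
      exact Submodule.subset_span ⟨g * k, rfl⟩
    intro x hx
    exact h1 hx
  have hUmem : ∀ g : G, (ρ g v, τ g v') ∈ U := fun g => by
    rw [hU]
    exact Submodule.subset_span ⟨g, rfl⟩
  have hUmem1 : (v, v') ∈ U := by
    have h1 := hUmem 1
    rwa [map_one, map_one] at h1
  have hUe : ∀ x ∈ U, ∃ a : Ω, lav H lam ρ x.1 = a • v ∧ lav H lam τ x.2 = a • v' := by
    have h1 : U ≤ (Submodule.span Ω {(v, v')}).comap ((lav H lam ρ).prodMap (lav H lam τ)) := by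
      rw [hU, Submodule.span_le]
      rintro _ ⟨k, rfl⟩
      show ((lav H lam ρ).prodMap (lav H lam τ)) (ρ k v, τ k v') ∈ Submodule.span Ω {(v, v')}
      rw [LinearMap.prodMap_apply, hc, hc', ← Prod.smul_mk]
      exact Submodule.smul_mem _ _ (Submodule.mem_span_singleton_self _)
    intro x hx
    obtain ⟨a, ha⟩ := Submodule.mem_span_singleton.1 (h1 hx)
    rw [LinearMap.prodMap_apply, Prod.smul_mk, Prod.mk.injEq] at ha
    exact ⟨a, ha.1.symm, ha.2.symm⟩
  -- the two kernels
  have hk1 : ∀ x : V, (x, (0 : W)) ∈ U → x = 0 := by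
    have hinv : ∀ g, ∀ x ∈ U.comap (LinearMap.inl Ω V W), ρ g x ∈ U.comap (LinearMap.inl Ω V W) := by
      intro g x hx
      have h1 := hUinv g _ hx
      rw [LinearMap.inl_apply] at h1
      show LinearMap.inl Ω V W (ρ g x) ∈ U
      rw [LinearMap.inl_apply]
      rwa [map_zero] at h1
    rcases irr_sub hρ hinv with h1 | h1
    · intro x hx
      have h2 : x ∈ U.comap (LinearMap.inl Ω V W) := hx
      rwa [h1, Submodule.mem_bot] at h2
    · exfalso
      have h2 : v ∈ U.comap (LinearMap.inl Ω V W) := by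
        rw [h1]
        trivial
      obtain ⟨a, ha1, ha2⟩ := hUe _ h2
      rw [LinearMap.inl_apply, lav_apply hv] at ha1
      rw [LinearMap.inl_apply, map_zero] at ha2
      rcases smul_eq_zero.1 ha2.symm with h3 | h3
      · rw [h3, zero_smul] at ha1
        exact hv0 ha1
      · exact hv0' h3
  have hk2 : ∀ y : W, ((0 : V), y) ∈ U → y = 0 := by
    have hinv : ∀ g, ∀ x ∈ U.comap (LinearMap.inr Ω V W), τ g x ∈ U.comap (LinearMap.inr Ω V W) := by
      intro g x hx
      have h1 := hUinv g _ hx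
      rw [LinearMap.inr_apply] at h1
      show LinearMap.inr Ω V W (τ g x) ∈ U
      rw [LinearMap.inr_apply]
      rwa [map_zero] at h1
    rcases irr_sub hτ hinv with h1 | h1
    · intro x hx
      have h2 : x ∈ U.comap (LinearMap.inr Ω V W) := hx
      rwa [h1, Submodule.mem_bot] at h2
    · exfalso
      have h2 : v' ∈ U.comap (LinearMap.inr Ω V W) := by
        rw [h1]
        trivial
      obtain ⟨a, ha1, ha2⟩ := hUe _ h2
      rw [LinearMap.inr_apply, lav_apply hv'] at ha2
      rw [LinearMap.inr_apply, map_zero] at ha1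
      rcases smul_eq_zero.1 ha1.symm with h3 | h3
      · rw [h3, zero_smul] at ha2
        exact hv0' ha2
      · exact hv0 h3
  -- the two projections
  have hs1 : ∀ x : V, ∃ u ∈ U, u.1 = x := by
    have hinv : ∀ g, ∀ x ∈ U.map (LinearMap.fst Ω V W), ρ g x ∈ U.map (LinearMap.fst Ω V W) := by
      rintro g _ ⟨u, hu, rfl⟩
      exact ⟨_, hUinv g u hu, rfl⟩
    rcases irr_sub hρ hinv with h1 | h1
    · exfalso
      have h2 : v ∈ U.map (LinearMap.fst Ω V W) := ⟨(v, v'), hUmem1, rfl⟩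
      rw [h1, Submodule.mem_bot] at h2
      exact hv0 h2
    · intro x
      have h2 : x ∈ U.map (LinearMap.fst Ω V W) := by
        rw [h1]
        trivial
      obtain ⟨u, hu, hx⟩ := h2
      exact ⟨u, hu, hx⟩
  have hs2 : ∀ y : W, ∃ u ∈ U, u.2 = y := by
    have hinv : ∀ g, ∀ x ∈ U.map (LinearMap.snd Ω V W), τ g x ∈ U.map (LinearMap.snd Ω V W) := by
      rintro g _ ⟨u, hu, rfl⟩
      exact ⟨_, hUinv g u hu, rfl⟩
    rcases irr_sub hτ hinv with h1 | h1
    · exfalso
      have h2 : v' ∈ U.map (LinearMap.snd Ω V W) := ⟨(v, v'), hUmem1, rfl⟩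
      rw [h1, Submodule.mem_bot] at h2
      exact hv0' h2
    · intro x
      have h2 : x ∈ U.map (LinearMap.snd Ω V W) := by
        rw [h1]
        trivial
      obtain ⟨u, hu, hx⟩ := h2
      exact ⟨u, hu, hx⟩
  -- `U` is the graph of an equivalence
  have hb1 : Function.Bijective (LinearMap.fst Ω V W ∘ₗ U.subtype) := by
    constructor
    · rw [← LinearMap.ker_eq_bot, LinearMap.ker_eq_bot']
      rintro ⟨⟨x, y⟩, hu⟩ hx
      have hx' : x = 0 := hx
      subst hx'
      have hy := hk2 y hu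
      subst hy
      rfl
    · intro x
      obtain ⟨u, hu, hx⟩ := hs1 x
      exact ⟨⟨u, hu⟩, hx⟩
  have hb2 : Function.Bijective (LinearMap.snd Ω V W ∘ₗ U.subtype) := by
    constructor
    · rw [← LinearMap.ker_eq_bot, LinearMap.ker_eq_bot']
      rintro ⟨⟨x, y⟩, hu⟩ hx
      have hx' : y = 0 := hx
      subst hx'
      have hy := hk1 x hu
      subst hy
      rfl
    · intro x
      obtain ⟨u, hu, hx⟩ := hs2 x
      exact ⟨⟨u, hu⟩, hx⟩
  obtain ⟨e1, he1⟩ : ∃ e1 : U ≃ₗ[Ω] V, ∀ u : U, e1 u = u.1.1 :=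
    ⟨LinearEquiv.ofBijective _ hb1, fun u => rfl⟩
  obtain ⟨e2, he2⟩ : ∃ e2 : U ≃ₗ[Ω] W, ∀ u : U, e2 u = u.1.2 :=
    ⟨LinearEquiv.ofBijective _ hb2, fun u => rfl⟩
  funext g
  have hconj : (e1.symm.trans e2).conj (ρ g) = τ g := by
    refine LinearMap.ext fun y => ?_
    rw [LinearEquiv.conj_apply_apply]
    have hsymm : (e1.symm.trans e2).symm y = e1 (e2.symm y) := rfl
    rw [hsymm]
    obtain ⟨u, rfl⟩ := e2.surjective y
    rw [LinearEquiv.symm_apply_apply]
    have h1 : ρ g (e1 u) = e1 ⟨_, hUinv g _ u.2⟩ := by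
      rw [he1, he1]
    have h2 : (e1.symm.trans e2) (ρ g (e1 u)) = e2 ⟨_, hUinv g _ u.2⟩ := by
      rw [h1, LinearEquiv.trans_apply, LinearEquiv.symm_apply_apply]
    rw [h2, he2, he2]
  show LinearMap.trace Ω V (ρ g) = LinearMap.trace Ω W (τ g)
  rw [← hconj, LinearMap.trace_conj']

/-- if `c` has rational values, the character is fixed by all automorphisms (apply `char_of_hecke`
to the twist `tw σ τ` of a matrix representation `τ` equivalent to `ρ`) -/
theorem fixes_of_hecke {H : Subgroup G} {lam : H →* ℤˣ} {ρ : Representation Ω G V}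
    (hρ : ρ.IsIrreducible) {v : V} (hv0 : v ≠ 0)
    (hv : ∀ h : H, ρ h v = ((lam h : ℤ) : Ω) • v) (c : G → ℚ)
    (hc : ∀ g, lav H lam ρ (ρ g v) = (c g : Ω) • v) (σ : RingAut Ω) : Fixes σ ρ := by
  obtain ⟨τ, ⟨e⟩⟩ := exists_fin ρ
  have hτ : τ.IsIrreducible := equiv_irr e hρ
  have hchar : ρ.character = τ.character := Representation.char_iso e
  have hcomm : ∀ (g : G) (x : V), e (ρ g x) = τ g (e x) := fun g x => P08_aux.equiv_comm e g x
  -- the vector of `τ`
  have hw0 : e v ≠ 0 := fun h => hv0 (e.toLinearEquiv.injective (by rw [map_zero]; exact h))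
  have hw : ∀ h : H, τ h (e v) = ((lam h : ℤ) : Ω) • e v := by
    intro h
    rw [← hcomm, hv h]
    exact map_smul e.toLinearEquiv _ _
  have hcw : ∀ g, lav H lam τ (τ g (e v)) = (c g : Ω) • e v := by
    intro g
    have h1 : ∀ x, e (lav H lam ρ x) = lav H lam τ (e x) := by
      intro x
      unfold lav rs
      rw [act_push, act_push]
      exact equiv_act e _ x
    rw [← hcomm, ← h1, hc g]
    exact map_smul e.toLinearEquiv _ _
  have hlav : ∀ x : Fin (Module.finrank Ω V) → Ω,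
      lav H lam (tw σ τ) (fun i => σ (x i)) = fun i => σ (lav H lam τ x i) := by
    intro x
    let _ := Fintype.ofFinite H
    rw [lav_eq, lav_eq]
    funext i
    rw [Finset.sum_apply, Finset.sum_apply, map_sum]
    refine Finset.sum_congr rfl fun h _ => ?_
    rw [tw_apply_comp, Pi.smul_apply, Pi.smul_apply, smul_eq_mul, smul_eq_mul, map_mul, map_mul,
      map_inv₀, map_natCast, map_intCast]
  have hmain : ρ.character = (tw σ τ).character := by
    refine char_of_hecke (H := H) (lam := lam) hρ (tw_irr σ hτ) (v := v)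
      (v' := fun i => σ (e v i)) hv0 ?_ hv ?_ (fun g => (c g : Ω)) hc ?_
    · intro h0
      apply hw0
      funext i
      have h1 := congrFun h0 i
      exact (map_eq_zero_iff σ σ.injective).mp h1
    · intro h
      rw [tw_apply_comp, hw h]
      funext i
      rw [Pi.smul_apply, Pi.smul_apply, smul_eq_mul, smul_eq_mul, map_mul, map_intCast]
    · intro g
      rw [tw_apply_comp, hlav, hcw g]
      funext i
      rw [Pi.smul_apply, Pi.smul_apply, smul_eq_mul, smul_eq_mul, map_mul, map_ratCast]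
  intro g
  have h1 := congrFun hmain g
  rw [tw_char, ← hchar] at h1
  exact h1.symm

/-- (A), (B) pass to homomorphic images -/
theorem propA_of_surj {G' : Type w} [Group G'] [Finite G'] {c : Ctx Ω} {m : ℕ} (f : G →* G')
    (hf : Function.Surjective f) (h : PropA c m G) : PropA c m G' := by
  classical
  let _ := Fintype.ofFinite G
  intro Γ hΓ n ρ hρ hn hO hF s hs hsk hdet
  -- the fibres of `f` have the same cardinality
  obtain ⟨k, hk⟩ : ∃ k : ℕ, k = (Finset.univ.filter fun g : G => f g = 1).card := ⟨_, rfl⟩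
  have hk0 : (k : Ω) ≠ 0 := by
    have h1 : 0 < k := by
      rw [hk]
      exact Finset.card_pos.2 ⟨1, Finset.mem_filter.2 ⟨Finset.mem_univ _, map_one f⟩⟩
    exact_mod_cast h1.ne'
  have hfib : ∀ g' : G', (Finset.univ.filter fun g : G => f g = g').card = k := by
    intro g'
    rw [hk]
    exact MonoidHom.card_fiber_eq_of_mem_range f (hf g') (hf 1)
  have hpush : push f (fun g => (k : Ω)⁻¹ * s (f g)) = s := by
    funext g'
    rw [push]
    have h1 : ∀ g : G, (if f g = g' then (k : Ω)⁻¹ * s (f g) else 0) =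
        if f g = g' then (k : Ω)⁻¹ * s g' else 0 := by
      intro g
      by_cases hg : f g = g'
      · rw [if_pos hg, if_pos hg, hg]
      · rw [if_neg hg, if_neg hg]
    have h2 : (∑ g : G, if f g = g' then (k : Ω)⁻¹ * s (f g) else 0) = s g' := by
      rw [Finset.sum_congr rfl fun g _ => h1 g, ← Finset.sum_filter, Finset.sum_const, hfib,
        nsmul_eq_mul, ← mul_assoc, mul_inv_cancel₀ hk0, one_mul]
    exact Eq.trans (Finset.sum_congr rfl fun g _ => rfl) h2
  have hirr : Representation.IsIrreducible (MonoidHom.comp ρ f : Representation Ω G (Fin n → Ω)) := by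
    refine irr_of_sub (irr_pos hρ) fun U hU => irr_sub hρ fun g x hx => ?_
    obtain ⟨g, rfl⟩ := hf g
    exact hU g x hx
  have hO' : Orth (MonoidHom.comp ρ f : Representation Ω G (Fin n → Ω)) := by
    obtain ⟨B, h1, h2, h3⟩ := hO
    exact ⟨B, h1, h2, fun g x y => h3 (f g) x y⟩
  have hact : act (MonoidHom.comp ρ f : Representation Ω G (Fin n → Ω))
      (fun g => (k : Ω)⁻¹ * s (f g)) = act ρ s := by
    rw [act_push, hpush]
  have hmain := h Γ hΓ n (MonoidHom.comp ρ f) hirr hn hO' (fun g => hF (f g))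
    (fun g => (k : Ω)⁻¹ * s (f g)) (fun g => fx_mul (fx_inv (fx_natCast Γ k)) (hs _))
    (fun g => by rw [map_inv, hsk, mul_neg]) (by rw [hact]; exact hdet)
  rwa [hact] at hmain

theorem propB_of_surj {G' : Type w} [Group G'] [Finite G'] {c : Ctx Ω} {m : ℕ} (f : G →* G')
    (hf : Function.Surjective f) (h : PropB c m G) : PropB c m G' := by
  intro Γ hΓ n ρ hρ hn hγ d hd hσ
  have hirr : Representation.IsIrreducible (MonoidHom.comp ρ f : Representation Ω G (Fin n → Ω)) := by
    refine irr_of_sub (irr_pos hρ) fun U hU => irr_sub hρ fun g x hx => ?_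
    obtain ⟨g, rfl⟩ := hf g
    exact hU g x hx
  refine h Γ hΓ n (MonoidHom.comp ρ f) hirr hn ?_ d hd ?_
  · obtain ⟨γ, hγ1, hγ2⟩ := hγ
    refine ⟨γ, hγ1, fun g => ?_⟩
    have h1 := hγ2 (f g)
    rw [← map_inv] at h1
    exact h1
  · intro σ hσΓ
    rw [hσ σ hσΓ]
    have h3 : Fixes σ ρ ↔ Fixes σ (MonoidHom.comp ρ f : Representation Ω G (Fin n → Ω)) := by
      constructor
      · intro h g
        exact h _
      · intro h g
        obtain ⟨g, rfl⟩ := hf g
        exact h g
    by_cases h4 : Fixes σ ρ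
    · rw [if_pos h4, if_pos (h3.1 h4)]
    · rw [if_neg h4, if_neg fun h => h4 (h3.2 h)]

end

end Parker
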