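import Pool.Agent.Parker.Defs
import Pool.Agent.Parker.Q07
import Pool.Agent.Parker.X03
import Pool.Agent.Parker.U02
import Pool.Agent.Parker.U03

/-!
# MP_6c3636_al, module U04: (A) and (B) for the nonabelian simple images of `SU_3(q)` (helper7)
-/

namespace Parker

open Matrix

noncomputable section

variable {F : Type} [Field F] [Finite F] {σ : F ≃+* F} {Ω : Type} [Field Ω] [IsAlgClosed Ω]
  [CharZero Ω] {c : Ctx Ω}

theorem su3_simple {S : Type} [Group S] [Finite S] (hσ : ∀ x, σ (σ x) = x)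
    (h1 : ∃ x, σ x ≠ x) (hs : IsSimpleGroup S) (hn : ∃ x y : S, x * y ≠ y * x)
    (f : su3 σ →* S) (hf : Function.Surjective f) : PropA c 1 S ∧ PropB c 1 S := by
  by_cases h2 : (2 : F) = 0
  · obtain ⟨U, T, w, Φ, h, h4⟩ := pgu_rankOneEven h2 hσ h1
    haveI := suPG_normal σ
    obtain ⟨f', hf'⟩ := su3_image hs hn f hf
    exact ⟨propA_of_surj f' hf' (h.propA _ (suPG_index h2)),
      propB_of_surj f' hf' (h.propB h4 _ (suPG_index h2))⟩
  · exact ⟨propA_of_surj f hf (su3_propA_odd h2 hσ h1),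
      propB_of_surj f hf (su3_propB_odd h2 hσ h1)⟩

end

end Parker
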