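import Mathlib

/-!
# MP_6c3636_al, module V01: the Mathieu group `M_11` (helper7)

`M11` is generated by `a = (0,1,...,10)` and `b = (2,6,10,7)(3,9,4,5)`. It has order 7920 and is
sharply 4-transitive. The representatives below are the words
`1, bb, abb, b, aaab, aabbb, aab, a` in the generators (product of functions, `(ab)(i) = a(b(i))`).
Their centralizers in `M11` have the orders `7920, 48, 18, 8, 5, 6, 8, 11`; all but the last two are
conjugate in `M11` to their inverses; `aab` and `a` are not conjugate to their inverses. The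
elements of `M11` with the same cycle type as a representative `p` are the conjugates of `p`, `p⁻¹`.
(All computer checked.) Enumeration: transversals for the chain of the stabilizers of `0`, `0,1`,
`0,1,2` (11, 10, 9, 8 cosets); for kernel computations (`decide +kernel`) encode permutations as
natural numbers (base 16) or as lists; avoid quadratic searches over the 7920 elements.
-/

namespace Parker

noncomputable section

/-- the Mathieu group `M_11` -/
def M11 : Subgroup (Equiv.Perm (Fin 11)) :=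
  Subgroup.closure {c[0, 1, 2, 3, 4, 5, 6, 7, 8, 9, 10], c[2, 6, 10, 7] * c[3, 9, 4, 5]}

/-- representatives of the classes (up to inversion) with the number of the elements of this cycle
type -/
def reps11 : List (Equiv.Perm (Fin 11) × ℕ) :=
  [(1, 1),
   (c[2, 10] * c[3, 4] * c[5, 9] * c[6, 7], 165),
   (c[0, 1, 2] * c[3, 5, 10] * c[6, 8, 9], 440),
   (c[2, 6, 10, 7] * c[3, 9, 4, 5], 990),
   (c[0, 3, 1, 4, 8] * c[2, 9, 7, 5, 6], 1584),
   (c[0, 2, 9, 5, 6, 4] * c[1, 3, 7] * c[8, 10], 1320),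
   (c[0, 2, 8, 10, 9, 6, 1, 3] * c[4, 7], 1980),
   (c[0, 1, 2, 3, 4, 5, 6, 7, 8, 9, 10], 1440)]

namespace V01_aux

/-! ### permutations as natural numbers in base 16 -/

/-- digit `x` of `e` -/
def get (e x : ℕ) : ℕ := Nat.land (Nat.shiftRight e (Nat.mul 4 x)) 15

/-- the number with the digits `g 0, …, g 10` -/
def mk (g : ℕ → ℕ) : ℕ :=
  Nat.add (g 0) (Nat.mul 16 (Nat.add (g 1) (Nat.mul 16 (Nat.add (g 2) (Nat.mul 16
    (Nat.add (g 3) (Nat.mul 16 (Nat.add (g 4) (Nat.mul 16 (Nat.add (g 5) (Nat.mul 16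
      (Nat.add (g 6) (Nat.mul 16 (Nat.add (g 7) (Nat.mul 16 (Nat.add (g 8) (Nat.mul 16
        (Nat.add (g 9) (Nat.mul 16 (g 10))))))))))))))))))))

/-- composition -/
def comp (e f : ℕ) : ℕ := mk fun x => get e (get f x)

theorem get_eq (e x : ℕ) : get e x = e / 16 ^ x % 16 := by
  have h1 : get e x = (e >>> (4 * x)) &&& 15 := rfl
  rw [h1, Nat.shiftRight_eq_div_pow, show (15 : ℕ) = 2 ^ 4 - 1 from rfl,
    Nat.and_two_pow_sub_one_eq_mod, pow_mul]
  norm_num

theorem get_lt (e x : ℕ) : get e x < 16 := by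
  rw [get_eq]
  exact Nat.mod_lt _ (by norm_num)

theorem get_mk (g : ℕ → ℕ) (hg : ∀ x, g x < 16) {x : ℕ} (hx : x < 11) : get (mk g) x = g x := by
  have h0 := hg 0
  have h1 := hg 1
  have h2 := hg 2
  have h3 := hg 3
  have h4 := hg 4
  have h5 := hg 5
  have h6 := hg 6
  have h7 := hg 7
  have h8 := hg 8
  have h9 := hg 9
  have h10 := hg 10
  have e1 : mk g = g 0 + 16 * (g 1 + 16 * (g 2 + 16 * (g 3 + 16 * (g 4 + 16 * (g 5 + 16 * (g 6 +
    16 * (g 7 + 16 * (g 8 + 16 * (g 9 + 16 * (g 10)))))))))) := rfl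
  rw [get_eq, e1]
  interval_cases x <;> norm_num only <;> omega

/-- the table of a permutation -/
def Rep (σ : Equiv.Perm (Fin 11)) (e : ℕ) : Prop := ∀ x : Fin 11, get e x = (σ x : ℕ)

instance (σ : Equiv.Perm (Fin 11)) (e : ℕ) : Decidable (Rep σ e) := by
  unfold Rep
  infer_instance

theorem Rep.mul {σ τ : Equiv.Perm (Fin 11)} {e f : ℕ} (h : Rep σ e) (h' : Rep τ f) :
    Rep (σ * τ) (comp e f) := by
  intro x
  unfold comp
  rw [get_mk _ (fun _ => get_lt _ _) x.2, h' x, h (τ x)]
  rfl

theorem Rep.inj {σ τ : Equiv.Perm (Fin 11)} {e : ℕ} (h : Rep σ e) (h' : Rep τ e) : σ = τ := by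
  ext x
  rw [← h x, ← h' x]

/-- the generators -/
def A : Equiv.Perm (Fin 11) := c[0, 1, 2, 3, 4, 5, 6, 7, 8, 9, 10]
/-- the generators -/
def B : Equiv.Perm (Fin 11) := c[2, 6, 10, 7] * c[3, 9, 4, 5]

/-- the table of the identity -/
def e1 : ℕ := 11649936536080

theorem rep_one : Rep 1 e1 := by decide +kernel
theorem rep_A : Rep A 728121033505 := by decide +kernel
theorem rep_Ai : Rep A⁻¹ 10477124133130 := by decide +kernel
theorem rep_B : Rep B 8006527194640 := by decide +kernel
theorem rep_Bi : Rep B⁻¹ 6840310650640 := by decide +kernel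

/-- the value of a word -/
def wp : List Bool → Equiv.Perm (Fin 11)
  | [] => 1
  | true :: w => A * wp w
  | false :: w => B * wp w

/-- its table -/
def tab : List Bool → ℕ
  | [] => e1
  | true :: w => comp 728121033505 (tab w)
  | false :: w => comp 8006527194640 (tab w)

/-- the table of the inverse -/
def tabI : List Bool → ℕ
  | [] => e1
  | true :: w => comp (tabI w) 10477124133130
  | false :: w => comp (tabI w) 6840310650640

theorem rep_wp (w : List Bool) : Rep (wp w) (tab w) := by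
  induction w with
  | nil => exact rep_one
  | cons b w ih =>
    cases b
    · exact rep_B.mul ih
    · exact rep_A.mul ih

theorem rep_wpI (w : List Bool) : Rep (wp w)⁻¹ (tabI w) := by
  induction w with
  | nil =>
    show Rep (1 : Equiv.Perm (Fin 11))⁻¹ e1
    rw [inv_one]
    exact rep_one
  | cons b w ih =>
    cases b
    · show Rep (B * wp w)⁻¹ _
      rw [mul_inv_rev]
      exact ih.mul rep_Bi
    · show Rep (A * wp w)⁻¹ _
      rw [mul_inv_rev]
      exact ih.mul rep_Ai

theorem A_mem : A ∈ M11 := Subgroup.subset_closure (by left; rfl)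
theorem B_mem : B ∈ M11 := Subgroup.subset_closure (by right; rfl)

theorem wp_mem (w : List Bool) : wp w ∈ M11 := by
  induction w with
  | nil => exact one_mem _
  | cons b w ih =>
    cases b
    · exact mul_mem B_mem ih
    · exact mul_mem A_mem ih

/-! ### the transversals -/

/-- words -/
def W0 : List (List Bool) :=
  [[], [true], [true, true], [true, true, true], [true, true, true, true], [true, true, true, true, true], [false, true, true], [true, false, true, true], [true, true, false, true, true], [false, true, true, true], [false, false, true, true]]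
/-- tables -/
def T0 : List (ℕ × ℕ) :=
  [(11649936536080, 11649936536080), (728121033505, 10477124133130), (1145019192370, 9304311730345), (2270586955075, 8131499330200), (3440446568020, 6958686972295), (4613074421605, 5785875290230), (1130787124630, 4494685844905), (2303598806695, 1546229340820), (3476411209480, 7147483408705), (6667743961945, 3322057991320), (1109584745290, 233093277865)]
/-- words -/
def W1 : List (List Bool) :=
  [[], [false, true, true, false, true, true, true], [false, true, false, false, true, true], [false, false, false, true, false, false, true, true], [true, false, false, true, true], [true, false, true, false, true, true, true, true], [true, true, false, true, true, true], [true, false, true, false, false, false, true, true, true], [false, false, true, false, false, true, true], [true, true, false, true, true, false, true]]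
/-- tables -/
def T1 : List (ℕ × ℕ) :=
  [(11649936536080, 11649936536080), (9441587303200, 7259975786800), (6707198063920, 8264492651920), (7787373947200, 5654920128400), (2282397148240, 3729492445840), (9033008652640, 3755970238240), (9013368722800, 6021915646000), (10386142241920, 3992546605120), (11082985382800, 11082985382800), (9215241700000, 1625263657600)]
/-- words -/
def W2 : List (List Bool) :=
  [[], [true, false, true, true, true, true, true, false, true, false], [true, false, true, true, true, true, true, false, true, false, false], [true, false, true, false, true, false, true, false, false, true, true, true], [false], [false, false, false], [true, true, false, true, false, false, true, false, true, true, false, true], [false, true, false, true, true, true, true, true, false, true, false], [false, false]]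
/-- tables -/
def T2 : List (ℕ × ℕ) :=
  [(11649936536080, 11649936536080), (8339291775760, 8339291775760), (11429833380880, 11220224734480), (8399117370640, 10396591425040), (8006527194640, 6840310650640), (6840310650640, 8006527194640), (5031187666960, 7225330009360), (2488758069520, 4558896597520), (2578718083600, 2578718083600)]
/-- words -/
def W3 : List (List Bool) :=
  [[], [true, true, true, false, false, true, false, true, false, true, false, true, false, true, true], [true, true, true, false, false, true, false, true, false, true, true, false, true], [false, true, true, false, false, true, false, true, true, true, false, true, true], [false, true, true, true, true, false, true, false, true, false, true, false, true, false, true], [false, false, true, false, true, true, true, true, true, false, true], [false, false, true, false, true, true, true, true, false, true, false, true, true], [true, false, true, false, true, false, true, false, false, true, true, true, false]]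
/-- tables -/
def T3 : List (ℕ × ℕ) :=
  [(11649936536080, 11649936536080), (6005346353680, 6895983358480), (8128286052880, 4774547710480), (4774547710480, 8128286052880), (6895983358480, 6005346353680), (4026069778960, 10459709612560), (9046365540880, 9046365540880), (10459709612560, 4026069778960)]

/-- both tables of a word -/
def tt (w : List Bool) : ℕ × ℕ := (tab w, tabI w)

set_option maxRecDepth 100000 in
theorem hT0 : W0.map tt = T0 := by decide +kernel
set_option maxRecDepth 100000 in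
theorem hT1 : W1.map tt = T1 := by decide +kernel
set_option maxRecDepth 100000 in
theorem hT2 : W2.map tt = T2 := by decide +kernel
set_option maxRecDepth 100000 in
theorem hT3 : W3.map tt = T3 := by decide +kernel

/-- permutations with a table in the list -/
def Mem (T : List (ℕ × ℕ)) : Set (Equiv.Perm (Fin 11)) := {σ | ∃ p ∈ T, Rep σ p.1}

/-- products -/
def Pr (X Y : Set (Equiv.Perm (Fin 11))) : Set (Equiv.Perm (Fin 11)) :=
  {σ | ∃ x ∈ X, ∃ y ∈ Y, σ = x * y}

/-- test for the stabilizer of `0, 1, 2` -/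
def in3 (g : ℕ) : Bool := T3.any fun p => p.1 == g
/-- test for the stabilizer of `0, 1` -/
def in2 (g : ℕ) : Bool := T2.any fun p => (get p.1 2 == get g 2) && in3 (comp p.2 g)
/-- test for the stabilizer of `0` -/
def in1 (g : ℕ) : Bool := T1.any fun p => (get p.1 1 == get g 1) && in2 (comp p.2 g)
/-- test for the group -/
def in0 (g : ℕ) : Bool := T0.any fun p => (get p.1 0 == get g 0) && in1 (comp p.2 g)

theorem in3_ok {σ : Equiv.Perm (Fin 11)} {g : ℕ} (h : Rep σ g) (hg : in3 g = true) :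
    σ ∈ Mem T3 := by
  unfold in3 at hg
  rw [List.any_eq_true] at hg
  obtain ⟨p, hp, hpg⟩ := hg
  rw [beq_iff_eq] at hpg
  exact ⟨p, hp, by rw [hpg]; exact h⟩

theorem step_ok {T : List (ℕ × ℕ)} {W : List (List Bool)} (hT : W.map tt = T)
    {S : Set (Equiv.Perm (Fin 11))} {q : ℕ → Bool} {x : ℕ}
    (hq : ∀ {σ : Equiv.Perm (Fin 11)} {g : ℕ}, Rep σ g → q g = true → σ ∈ S)
    {σ : Equiv.Perm (Fin 11)} {g : ℕ} (h : Rep σ g)
    (hg : (T.any fun p => (get p.1 x == get g x) && q (comp p.2 g)) = true) :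
    σ ∈ Pr (Mem T) S := by
  rw [List.any_eq_true] at hg
  obtain ⟨p, hp, hpg⟩ := hg
  rw [Bool.and_eq_true] at hpg
  have hp' := hp
  rw [← hT, List.mem_map] at hp'
  obtain ⟨w, -, rfl⟩ := hp'
  refine ⟨wp w, ⟨_, hp, rep_wp w⟩, (wp w)⁻¹ * σ, hq ((rep_wpI w).mul h) hpg.2, ?_⟩
  rw [mul_inv_cancel_left]

/-- the stabilizers -/
def S2 : Set (Equiv.Perm (Fin 11)) := Pr (Mem T2) (Mem T3)
/-- the stabilizers -/
def S1 : Set (Equiv.Perm (Fin 11)) := Pr (Mem T1) S2
/-- the group -/
def S0 : Set (Equiv.Perm (Fin 11)) := Pr (Mem T0) S1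

theorem in2_ok {σ : Equiv.Perm (Fin 11)} {g : ℕ} (h : Rep σ g) (hg : in2 g = true) : σ ∈ S2 :=
  step_ok hT2 in3_ok h hg
theorem in1_ok {σ : Equiv.Perm (Fin 11)} {g : ℕ} (h : Rep σ g) (hg : in1 g = true) : σ ∈ S1 :=
  step_ok hT1 in2_ok h hg
theorem in0_ok {σ : Equiv.Perm (Fin 11)} {g : ℕ} (h : Rep σ g) (hg : in0 g = true) : σ ∈ S0 :=
  step_ok hT0 in1_ok h hg

set_option maxRecDepth 100000 in
theorem c33 : (T3.all fun p => T3.all fun q => in3 (comp p.1 q.1)) = true := by decide +kernel
set_option maxRecDepth 100000 in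
theorem c22 : (T2.all fun p => T2.all fun q => in2 (comp p.1 q.1)) = true := by decide +kernel
set_option maxRecDepth 100000 in
theorem c32 : (T3.all fun p => T2.all fun q => in2 (comp p.1 q.1)) = true := by decide +kernel
set_option maxRecDepth 100000 in
theorem c11 : (T1.all fun p => T1.all fun q => in1 (comp p.1 q.1)) = true := by decide +kernel
set_option maxRecDepth 100000 in
theorem c21 : (T2.all fun p => T1.all fun q => in1 (comp p.1 q.1)) = true := by decide +kernel
set_option maxRecDepth 100000 in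
theorem c31 : (T3.all fun p => T1.all fun q => in1 (comp p.1 q.1)) = true := by decide +kernel
set_option maxRecDepth 100000 in
theorem cA0 : (T0.all fun q => in0 (comp 728121033505 q.1)) = true := by decide +kernel
set_option maxRecDepth 100000 in
theorem cB0 : (T0.all fun q => in0 (comp 8006527194640 q.1)) = true := by decide +kernel

theorem all2 {T U : List (ℕ × ℕ)} {S : Set (Equiv.Perm (Fin 11))} {q : ℕ → Bool}
    (hq : ∀ {σ : Equiv.Perm (Fin 11)} {g : ℕ}, Rep σ g → q g = true → σ ∈ S)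
    (h : (T.all fun p => U.all fun r => q (comp p.1 r.1)) = true)
    {x y : Equiv.Perm (Fin 11)} (hx : x ∈ Mem T) (hy : y ∈ Mem U) : x * y ∈ S := by
  obtain ⟨p, hp, hxp⟩ := hx
  obtain ⟨r, hr, hyr⟩ := hy
  rw [List.all_eq_true] at h
  have h1 := h p hp
  rw [List.all_eq_true] at h1
  exact hq (hxp.mul hyr) (h1 r hr)

theorem clos {X T S : Set (Equiv.Perm (Fin 11))} (hS : ∀ a ∈ S, ∀ b ∈ S, a * b ∈ S)
    (h : ∀ x ∈ X, ∀ t ∈ T, x * t ∈ Pr T S) : ∀ x ∈ X, ∀ s ∈ Pr T S, x * s ∈ Pr T S := by
  rintro x hx _ ⟨t, ht, s, hs, rfl⟩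
  obtain ⟨t', ht', s', hs', h1⟩ := h x hx t ht
  exact ⟨t', ht', s' * s, hS _ hs' _ hs, by rw [← mul_assoc, h1, mul_assoc]⟩

theorem m33 : ∀ a ∈ Mem T3, ∀ b ∈ Mem T3, a * b ∈ Mem T3 :=
  fun _ ha _ hb => all2 in3_ok c33 ha hb

theorem m22 : ∀ a ∈ S2, ∀ b ∈ S2, a * b ∈ S2 := by
  rintro _ ⟨t, ht, s, hs, rfl⟩ b hb
  rw [mul_assoc]
  exact clos m33 (fun _ ha _ hb => all2 in2_ok c22 ha hb) t ht _
    (clos m33 (fun _ ha _ hb => all2 in2_ok c32 ha hb) s hs b hb)

theorem m11 : ∀ a ∈ S1, ∀ b ∈ S1, a * b ∈ S1 := by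
  rintro _ ⟨t, ht, _, ⟨u, hu, s, hs, rfl⟩, rfl⟩ b hb
  rw [mul_assoc, mul_assoc]
  exact clos m22 (fun _ ha _ hb => all2 in1_ok c11 ha hb) t ht _
    (clos m22 (fun _ ha _ hb => all2 in1_ok c21 ha hb) u hu _
      (clos m22 (fun _ ha _ hb => all2 in1_ok c31 ha hb) s hs b hb))

theorem mA : ∀ s ∈ S0, A * s ∈ S0 := by
  refine clos (X := {A}) m11 (fun x hx t ht => ?_) A rfl
  rw [Set.mem_singleton_iff] at hx
  subst hx
  obtain ⟨r, hr, htr⟩ := ht
  have h1 := List.all_eq_true.1 cA0 r hr
  exact in0_ok (rep_A.mul htr) h1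

theorem mB : ∀ s ∈ S0, B * s ∈ S0 := by
  refine clos (X := {B}) m11 (fun x hx t ht => ?_) B rfl
  rw [Set.mem_singleton_iff] at hx
  subst hx
  obtain ⟨r, hr, htr⟩ := ht
  have h1 := List.all_eq_true.1 cB0 r hr
  exact in0_ok (rep_B.mul htr) h1

theorem inv_of {g : Equiv.Perm (Fin 11)} (hg : ∀ s ∈ S0, g * s ∈ S0) :
    ∀ s, g * s ∈ S0 ↔ s ∈ S0 := by
  intro s
  refine ⟨fun h => ?_, hg s⟩
  have hn : ∀ n : ℕ, ∀ s ∈ S0, g ^ n * s ∈ S0 := by
    intro n
    induction n with
    | zero => intro s hs; simpa using hs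
    | succ n ih =>
      intro s hs
      rw [pow_succ, mul_assoc]
      exact ih _ (hg s hs)
  have h1 := hn (orderOf g - 1) _ h
  rw [← mul_assoc, ← pow_succ, Nat.sub_add_cancel (orderOf_pos g), pow_orderOf_eq_one, one_mul] at h1
  exact h1

theorem one_mem_S0 : (1 : Equiv.Perm (Fin 11)) ∈ S0 := in0_ok rep_one (by decide +kernel)

theorem m11_sub {g : Equiv.Perm (Fin 11)} (hg : g ∈ M11) : g ∈ S0 := by
  have h : ∀ g ∈ M11, ∀ s, g * s ∈ S0 ↔ s ∈ S0 := by
    intro g hg
    unfold M11 at hg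
    induction hg using Subgroup.closure_induction with
    | mem x hx =>
      rcases hx with rfl | hx
      · exact inv_of mA
      · rw [Set.mem_singleton_iff] at hx
        subst hx
        exact inv_of mB
    | one => intro s; rw [one_mul]
    | mul x y _ _ hx hy => intro s; rw [mul_assoc, hx, hy]
    | inv x _ hx =>
      intro s
      rw [← hx (x⁻¹ * s), mul_inv_cancel_left]
  have h1 := (h g hg 1).2 one_mem_S0
  rwa [mul_one] at h1

/-! ### enumeration -/

/-- element number `i` of a transversal -/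
def sq (W : List (List Bool)) (i : ℕ) : Equiv.Perm (Fin 11) := wp (W.getD i [])

theorem rep_sq {W : List (List Bool)} {T : List (ℕ × ℕ)} (hT : W.map tt = T) (i : ℕ) :
    Rep (sq W i) (T.getD i (e1, e1)).1 := by
  have h : T.getD i (e1, e1) = tt (W.getD i []) := by
    rw [← hT]
    exact List.getD_map W [] tt
  rw [h]
  exact rep_wp _

theorem mem_sq {W : List (List Bool)} {T : List (ℕ × ℕ)} (hT : W.map tt = T)
    {σ : Equiv.Perm (Fin 11)} (h : σ ∈ Mem T) : ∃ i < W.length, σ = sq W i := by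
  obtain ⟨p, hp, hσ⟩ := h
  rw [← hT, List.mem_map] at hp
  obtain ⟨w, hw, rfl⟩ := hp
  obtain ⟨i, hi, rfl⟩ := List.getElem_of_mem hw
  refine ⟨i, hi, hσ.inj ?_⟩
  unfold sq
  rw [List.getD_eq_getElem _ _ hi]
  exact rep_wp _

/-- the indices -/
abbrev Ix := Fin 11 × Fin 10 × Fin 9 × Fin 8

/-- the elements of the group -/
def Ph (x : Ix) : Equiv.Perm (Fin 11) :=
  sq W0 x.1 * (sq W1 x.2.1 * (sq W2 x.2.2.1 * sq W3 x.2.2.2))

theorem Ph_mem (x : Ix) : Ph x ∈ M11 :=
  mul_mem (wp_mem _) (mul_mem (wp_mem _) (mul_mem (wp_mem _) (wp_mem _)))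

theorem Ph_surj {g : Equiv.Perm (Fin 11)} (hg : g ∈ M11) : ∃ x, Ph x = g := by
  obtain ⟨a, ha, _, ⟨b, hb, _, ⟨c, hc, d, hd, rfl⟩, rfl⟩, rfl⟩ := m11_sub hg
  obtain ⟨i, hi, rfl⟩ := mem_sq hT0 ha
  obtain ⟨j, hj, rfl⟩ := mem_sq hT1 hb
  obtain ⟨k, hk, rfl⟩ := mem_sq hT2 hc
  obtain ⟨l, hl, rfl⟩ := mem_sq hT3 hd
  exact ⟨(⟨i, hi⟩, ⟨j, hj⟩, ⟨k, hk⟩, ⟨l, hl⟩), rfl⟩

theorem v0 (i : Fin 11) : sq W0 i 0 = i := by
  have h : ∀ i : Fin 11, get (T0.getD i (e1, e1)).1 0 = i := by decide +kernel
  have h1 := rep_sq hT0 i 0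
  have h2 := h i
  exact Fin.ext (h1.symm.trans h2)

theorem v1 (i : Fin 10) : sq W1 i 0 = 0 ∧ ((sq W1 i 1 : Fin 11) : ℕ) = i + 1 := by
  have h : ∀ i : Fin 10, get (T1.getD i (e1, e1)).1 0 = 0 ∧ get (T1.getD i (e1, e1)).1 1 = i + 1 := by
    decide +kernel
  refine ⟨Fin.ext ?_, ?_⟩
  · rw [← rep_sq hT1 i 0]
    exact (h i).1
  · rw [← rep_sq hT1 i 1]
    exact (h i).2

theorem v2 (i : Fin 9) : sq W2 i 0 = 0 ∧ sq W2 i 1 = 1 ∧ ((sq W2 i 2 : Fin 11) : ℕ) = i + 2 := by
  have h : ∀ i : Fin 9, get (T2.getD i (e1, e1)).1 0 = 0 ∧ get (T2.getD i (e1, e1)).1 1 = 1 ∧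
      get (T2.getD i (e1, e1)).1 2 = i + 2 := by
    decide +kernel
  refine ⟨Fin.ext ?_, Fin.ext ?_, ?_⟩
  · rw [← rep_sq hT2 i 0]
    exact (h i).1
  · rw [← rep_sq hT2 i 1]
    exact (h i).2.1
  · rw [← rep_sq hT2 i 2]
    exact (h i).2.2

theorem v3 (i : Fin 8) : sq W3 i 0 = 0 ∧ sq W3 i 1 = 1 ∧ sq W3 i 2 = 2 ∧
    ((sq W3 i 3 : Fin 11) : ℕ) = i + 3 := by
  have h : ∀ i : Fin 8, get (T3.getD i (e1, e1)).1 0 = 0 ∧ get (T3.getD i (e1, e1)).1 1 = 1 ∧
      get (T3.getD i (e1, e1)).1 2 = 2 ∧ get (T3.getD i (e1, e1)).1 3 = i + 3 := by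
    decide +kernel
  refine ⟨Fin.ext ?_, Fin.ext ?_, Fin.ext ?_, ?_⟩
  · rw [← rep_sq hT3 i 0]
    exact (h i).1
  · rw [← rep_sq hT3 i 1]
    exact (h i).2.1
  · rw [← rep_sq hT3 i 2]
    exact (h i).2.2.1
  · rw [← rep_sq hT3 i 3]
    exact (h i).2.2.2

theorem Ph_inj : Function.Injective Ph := by
  rintro ⟨i, j, k, l⟩ ⟨i', j', k', l'⟩ h
  unfold Ph at h
  simp only at h
  have h0 : i = i' := by
    have h1 := congrArg (fun σ : Equiv.Perm (Fin 11) => σ 0) h
    simp only [Equiv.Perm.mul_apply, (v3 l).1, (v3 l').1, (v2 k).1, (v2 k').1, (v1 j).1,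
      (v1 j').1, v0] at h1
    exact h1
  subst h0
  have h := mul_left_cancel h
  have h0 : j = j' := by
    have h1 := congrArg (fun σ : Equiv.Perm (Fin 11) => ((σ 1 : Fin 11) : ℕ)) h
    simp only [Equiv.Perm.mul_apply, (v3 l).2.1, (v3 l').2.1, (v2 k).2.1, (v2 k').2.1, (v1 j).2,
      (v1 j').2] at h1
    exact Fin.ext (by omega)
  subst h0
  have h := mul_left_cancel h
  have h0 : k = k' := by
    have h1 := congrArg (fun σ : Equiv.Perm (Fin 11) => ((σ 2 : Fin 11) : ℕ)) h
    simp only [Equiv.Perm.mul_apply, (v3 l).2.2.1, (v3 l').2.2.1, (v2 k).2.2, (v2 k').2.2] at h1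
    exact Fin.ext (by omega)
  subst h0
  have h := mul_left_cancel h
  have h0 : l = l' := by
    have h1 := congrArg (fun σ : Equiv.Perm (Fin 11) => ((σ 3 : Fin 11) : ℕ)) h
    simp only [(v3 l).2.2.2, (v3 l').2.2.2] at h1
    exact Fin.ext (by omega)
  subst h0
  rfl

/-- the enumeration as an equivalence -/
def Pe : Ix ≃ M11 :=
  Equiv.ofBijective (fun x => ⟨Ph x, Ph_mem x⟩)
    ⟨fun x y h => Ph_inj (congrArg Subtype.val h),
      fun g => by
        obtain ⟨x, hx⟩ := Ph_surj g.2
        exact ⟨x, Subtype.ext hx⟩⟩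

theorem Pe_coe (x : Ix) : ((Pe x : M11) : Equiv.Perm (Fin 11)) = Ph x := rfl

/-! ### counting -/

/-- the numbers `0, …, 10` -/
def xs : List ℕ := [0, 1, 2, 3, 4, 5, 6, 7, 8, 9, 10]

/-- apply a product of four -/
def ap (a b c d x : ℕ) : ℕ := get a (get b (get c (get d x)))

/-- the product `h` of four satisfies `h p = q h` -/
def chk (p q a b c d : ℕ) : Bool := xs.all fun x => ap a b c d (get p x) == get q (ap a b c d x)

/-- number of `h` with `h p = q h` -/
def count (p q : ℕ) : ℕ :=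
  (T0.map fun a => (T1.map fun b => (T2.map fun c => (T3.map fun d =>
    bif chk p q a.1 b.1 c.1 d.1 then 1 else 0).sum).sum).sum).sum

theorem chk_iff {σ τ a b c d : Equiv.Perm (Fin 11)} {p q a' b' c' d' : ℕ} (hp : Rep σ p)
    (hq : Rep τ q) (ha : Rep a a') (hb : Rep b b') (hc : Rep c c') (hd : Rep d d') :
    chk p q a' b' c' d' = true ↔ (a * (b * (c * d))) * σ = τ * (a * (b * (c * d))) := by
  have hap : ∀ x : Fin 11, ap a' b' c' d' x = ((a * (b * (c * d))) x : ℕ) := by
    intro x
    unfold ap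
    rw [hd x, hc (d x), hb (c (d x)), ha (b (c (d x)))]
    rfl
  unfold chk
  rw [List.all_eq_true]
  constructor
  · intro h
    ext x
    have hx : (x : ℕ) ∈ xs := by
      have : ∀ x : Fin 11, (x : ℕ) ∈ xs := by decide
      exact this x
    have h1 := h x hx
    rw [beq_iff_eq, hp x, hap, hap, hq] at h1
    exact h1
  · intro h x hx
    have hx' : x < 11 := by
      have : ∀ x ∈ xs, x < 11 := by decide
      exact this x hx
    have h1 := congrArg (fun ρ : Equiv.Perm (Fin 11) => ((ρ ⟨x, hx'⟩ : Fin 11) : ℕ)) h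
    have h2 := hp ⟨x, hx'⟩
    have h3 := hap ⟨x, hx'⟩
    simp only [Equiv.Perm.mul_apply] at h1 h2 h3
    rw [beq_iff_eq, h2, h3, hap, hq]
    simpa only [Equiv.Perm.mul_apply] using h1

theorem sum_getD {n : ℕ} (T : List (ℕ × ℕ)) (hn : T.length = n) (F : ℕ × ℕ → ℕ) :
    ∑ i : Fin n, F (T.getD i (e1, e1)) = (T.map F).sum := by
  subst hn
  rw [← Fin.sum_univ_fun_getElem]
  refine Finset.sum_congr rfl fun i _ => ?_
  rw [List.getD_eq_getElem _ _ i.2]

theorem card_eq_count {σ τ : Equiv.Perm (Fin 11)} {p q : ℕ} (hp : Rep σ p) (hq : Rep τ q) :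
    Nat.card {h : M11 // (h : Equiv.Perm (Fin 11)) * σ = τ * h} = count p q := by
  classical
  have h1 : Nat.card {h : M11 // (h : Equiv.Perm (Fin 11)) * σ = τ * h} =
      Nat.card {x : Ix // Ph x * σ = τ * Ph x} := by
    refine Nat.card_congr (Equiv.subtypeEquiv Pe.symm (fun h => ?_))
    have h2 : ((h : M11) : Equiv.Perm (Fin 11)) = Ph (Pe.symm h) := by
      rw [← Pe_coe, Equiv.apply_symm_apply]
    rw [h2]
  rw [h1, Nat.card_eq_fintype_card, Fintype.card_subtype, Finset.card_filter, Fintype.sum_prod_type]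
  unfold count
  rw [← sum_getD (n := 11) T0 rfl]
  refine Finset.sum_congr rfl fun i _ => ?_
  rw [Fintype.sum_prod_type, ← sum_getD (n := 10) T1 rfl]
  refine Finset.sum_congr rfl fun j _ => ?_
  rw [Fintype.sum_prod_type, ← sum_getD (n := 9) T2 rfl]
  refine Finset.sum_congr rfl fun k _ => ?_
  rw [← sum_getD (n := 8) T3 rfl]
  refine Finset.sum_congr rfl fun l _ => ?_
  have h3 := chk_iff hp hq (rep_sq hT0 i) (rep_sq hT1 j) (rep_sq hT2 k) (rep_sq hT3 l)
  by_cases h4 : Ph (i, j, k, l) * σ = τ * Ph (i, j, k, l)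
  · rw [if_pos h4, h3.2 h4, cond_true]
  · rw [if_neg h4]
    have h5 : chk p q (T0.getD i (e1, e1)).1 (T1.getD j (e1, e1)).1 (T2.getD k (e1, e1)).1
        (T3.getD l (e1, e1)).1 = false := by
      rw [← Bool.not_eq_true]
      exact fun h => h4 (h3.1 h)
    rw [h5, cond_false]

/-! ### the representatives -/

/-- representatives of all classes -/
def rr : Fin 10 → Equiv.Perm (Fin 11) :=
  ![1, c[2, 10] * c[3, 4] * c[5, 9] * c[6, 7], c[0, 1, 2] * c[3, 5, 10] * c[6, 8, 9],
    c[2, 6, 10, 7] * c[3, 9, 4, 5], c[0, 3, 1, 4, 8] * c[2, 9, 7, 5, 6],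
    c[0, 2, 9, 5, 6, 4] * c[1, 3, 7] * c[8, 10],
    c[0, 2, 8, 10, 9, 6, 1, 3] * c[4, 7],
    (c[0, 2, 8, 10, 9, 6, 1, 3] * c[4, 7])⁻¹,
    c[0, 1, 2, 3, 4, 5, 6, 7, 8, 9, 10],
    (c[0, 1, 2, 3, 4, 5, 6, 7, 8, 9, 10])⁻¹]

/-- their tables -/
def rt : Fin 10 → ℕ :=
  ![11649936536080, 2578718083600, 3751530483745, 8006527194640, 11477535168835, 9182981945650,
    10351967406130, 9493108166755, 728121033505, 10477124133130]

/-- orders of the centralizers -/
def rc : Fin 10 → ℕ := ![7920, 48, 18, 8, 5, 6, 8, 8, 11, 11]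

/-- sizes of the classes -/
def rn : Fin 10 → ℕ := ![1, 165, 440, 990, 1584, 1320, 990, 990, 720, 720]

theorem rep_rr : ∀ i, Rep (rr i) (rt i) := by decide +kernel

/-- words for the representatives -/
def rw' : Fin 10 → List Bool :=
  ![[], [false, false], [true, false, false], [false], [true, true, true, false],
    [true, true, false, false, false], [true, true, false], [], [true], []]

theorem rr_mem (i : Fin 10) : rr i ∈ M11 := by
  have h : ∀ i : Fin 10, i ≠ 7 → i ≠ 9 → tab (rw' i) = rt i := by decide +kernel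
  have h1 : ∀ i : Fin 10, i ≠ 7 → i ≠ 9 → rr i ∈ M11 := by
    intro i h7 h9
    have h2 := rep_wp (rw' i)
    rw [h i h7 h9] at h2
    rw [(rep_rr i).inj h2]
    exact wp_mem _
  by_cases h7 : i = 7
  · subst h7
    exact inv_mem (h1 6 (by decide) (by decide))
  · by_cases h9 : i = 9
    · subst h9
      exact inv_mem (h1 8 (by decide) (by decide))
    · exact h1 i h7 h9

set_option maxRecDepth 100000 in
theorem cc1 : count 2578718083600 2578718083600 = 48 := by decide +kernel
set_option maxRecDepth 100000 in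
theorem cc2 : count 3751530483745 3751530483745 = 18 := by decide +kernel
set_option maxRecDepth 100000 in
theorem cc3 : count 8006527194640 8006527194640 = 8 := by decide +kernel
set_option maxRecDepth 100000 in
theorem cc4 : count 11477535168835 11477535168835 = 5 := by decide +kernel
set_option maxRecDepth 100000 in
theorem cc5 : count 9182981945650 9182981945650 = 6 := by decide +kernel
set_option maxRecDepth 100000 in
theorem cc6 : count 10351967406130 10351967406130 = 8 := by decide +kernel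
set_option maxRecDepth 100000 in
theorem cc8 : count 728121033505 728121033505 = 11 := by decide +kernel
set_option maxRecDepth 100000 in
theorem ci6 : count 10351967406130 9493108166755 = 0 := by decide +kernel
set_option maxRecDepth 100000 in
theorem ci8 : count 728121033505 10477124133130 = 0 := by decide +kernel

/-- the representatives in the group -/
def rq (i : Fin 10) : M11 := ⟨rr i, rr_mem i⟩

theorem card_m11' : Nat.card M11 = 7920 := by
  rw [← Nat.card_congr Pe, Nat.card_eq_fintype_card]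
  simp only [Ix, Fintype.card_prod, Fintype.card_fin]

theorem class_card {G : Type*} [Group G] [Finite G] (p : G) :
    Nat.card {g : G // IsConj p g} * Nat.card {h : G // h * p = p * h} = Nat.card G := by
  have h1 : Nat.card (MulAction.orbit (ConjAct G) p) *
      Nat.card (MulAction.stabilizer (ConjAct G) p) = Nat.card (ConjAct G) := by
    rw [← Nat.card_prod, Nat.card_congr (MulAction.orbitProdStabilizerEquivGroup (ConjAct G) p)]
  have h2 : Nat.card {g : G // IsConj p g} = Nat.card (MulAction.orbit (ConjAct G) p) := by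
    refine Nat.card_congr (Equiv.subtypeEquivRight fun g => ?_)
    rw [ConjAct.mem_orbit_conjAct]
    exact ⟨fun h => h.symm, fun h => h.symm⟩
  have h3 : Nat.card {h : G // h * p = p * h} =
      Nat.card (MulAction.stabilizer (ConjAct G) p) := by
    refine Nat.card_congr (Equiv.subtypeEquiv ConjAct.toConjAct.toEquiv fun h => ?_)
    rw [MulAction.mem_stabilizer_iff]
    show _ ↔ ConjAct.toConjAct h • p = p
    rw [ConjAct.toConjAct_smul, mul_inv_eq_iff_eq_mul]
  rw [h2, h3, h1]
  exact Nat.card_congr ConjAct.ofConjAct.toEquiv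

theorem cover {G : Type*} [Group G] [Fintype G] {k : ℕ} (q : Fin k → G) (n : Fin k → ℕ)
    (hn : ∀ i, Nat.card {g : G // IsConj (q i) g} = n i)
    (hne : ∀ i j, i ≠ j → ¬ IsConj (q i) (q j)) (hs : ∑ i, n i = Fintype.card G) :
    (∀ g, ∃ i, IsConj (q i) g) ∧ ∀ {M : Type*} [AddCommMonoid M] (f : G → M),
      (∀ g h, f (h * g * h⁻¹) = f g) → ∑ g, f g = ∑ i, n i • f (q i) := by
  classical
  set K : Fin k → Finset G := fun i => Finset.univ.filter (fun g => IsConj (q i) g) with hK
  have hcard : ∀ i, (K i).card = n i := by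
    intro i
    rw [← hn i, Nat.card_eq_fintype_card, Fintype.card_subtype]
  have hdis : ∀ i ∈ (Finset.univ : Finset (Fin k)), ∀ j ∈ (Finset.univ : Finset (Fin k)),
      i ≠ j → Disjoint (K i) (K j) := by
    intro i _ j _ hij
    rw [Finset.disjoint_left]
    intro g hg hg'
    simp only [hK, Finset.mem_filter, Finset.mem_univ, true_and] at hg hg'
    exact hne i j hij (hg.trans hg'.symm)
  have huniv : Finset.univ.biUnion K = Finset.univ := by
    rw [← Finset.card_eq_iff_eq_univ, Finset.card_biUnion hdis, ← hs]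
    exact Finset.sum_congr rfl fun i _ => hcard i
  refine ⟨fun g => ?_, fun {M} _ f hf => ?_⟩
  · have h1 : g ∈ Finset.univ.biUnion K := by rw [huniv]; exact Finset.mem_univ g
    rw [Finset.mem_biUnion] at h1
    obtain ⟨i, -, hi⟩ := h1
    simp only [hK, Finset.mem_filter, Finset.mem_univ, true_and] at hi
    exact ⟨i, hi⟩
  · rw [← huniv, Finset.sum_biUnion (fun i _ j _ hij => hdis i (Finset.mem_univ _) j
      (Finset.mem_univ _) hij)]
    refine Finset.sum_congr rfl fun i _ => ?_
    rw [← hcard i, ← Finset.sum_const]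
    refine Finset.sum_congr rfl fun g hg => ?_
    simp only [hK, Finset.mem_filter, Finset.mem_univ, true_and] at hg
    obtain ⟨c, hc⟩ := isConj_iff.1 hg
    rw [← hc, hf]

/-- an invariant of classes -/
def dd (σ : Equiv.Perm (Fin 11)) : ℕ × ℕ := (σ.support.card, (σ * σ).support.card)

theorem dd_conj (σ τ : Equiv.Perm (Fin 11)) : dd (τ * σ * τ⁻¹) = dd σ := by
  unfold dd
  rw [show τ * σ * τ⁻¹ * (τ * σ * τ⁻¹) = τ * (σ * σ) * τ⁻¹ by group,
    Equiv.Perm.card_support_conj, Equiv.Perm.card_support_conj]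

theorem dd_rr : ∀ i j : Fin 10, i ≠ j → dd (rr i) = dd (rr j) →
    (i = 6 ∧ j = 7) ∨ (i = 7 ∧ j = 6) ∨ (i = 8 ∧ j = 9) ∨ (i = 9 ∧ j = 8) := by
  decide +kernel

theorem rq_ne (i j : Fin 10) (hij : i ≠ j) : ¬ IsConj (rq i) (rq j) := by
  intro h
  have hex : ∀ i j : Fin 10, IsConj (rq i) (rq j) → ∃ h : M11,
      (h : Equiv.Perm (Fin 11)) * rr i = rr j * h := by
    intro i j hc
    obtain ⟨c, hc⟩ := isConj_iff.1 hc
    refine ⟨c, ?_⟩
    have h1 : (c : Equiv.Perm (Fin 11)) * rr i * (c : Equiv.Perm (Fin 11))⁻¹ = rr j :=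
      congrArg Subtype.val hc
    rw [← h1, inv_mul_cancel_right]
  have hno : ∀ i j : Fin 10, count (rt i) (rt j) = 0 → ¬ IsConj (rq i) (rq j) := by
    intro i j h0 hc
    obtain ⟨c, hc⟩ := hex i j hc
    rw [← card_eq_count (rep_rr i) (rep_rr j)] at h0
    have : Finite {h : M11 // (h : Equiv.Perm (Fin 11)) * rr i = rr j * h} := inferInstance
    rw [Nat.card_eq_zero] at h0
    rcases h0 with h0 | h0
    · exact h0.elim ⟨c, hc⟩
    · exact (not_finite_iff_infinite.2 h0) this
  have hd : dd (rr i) = dd (rr j) := by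
    obtain ⟨c, hc⟩ := isConj_iff.1 h
    have h1 : (c : Equiv.Perm (Fin 11)) * rr i * (c : Equiv.Perm (Fin 11))⁻¹ = rr j :=
      congrArg Subtype.val hc
    rw [← h1, dd_conj]
  rcases dd_rr i j hij hd with ⟨rfl, rfl⟩ | ⟨rfl, rfl⟩ | ⟨rfl, rfl⟩ | ⟨rfl, rfl⟩
  · exact hno 6 7 ci6 h
  · exact hno 6 7 ci6 h.symm
  · exact hno 8 9 ci8 h
  · exact hno 8 9 ci8 h.symm

theorem cent_card (i : Fin 10) : Nat.card {h : M11 // h * rq i = rq i * h} = rc i := by
  have h2 : ∀ i : Fin 10, count (rt i) (rt i) = rc i →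
      Nat.card {h : M11 // h * rq i = rq i * h} = rc i := by
    intro i hi
    rw [← hi, ← card_eq_count (rep_rr i) (rep_rr i)]
    refine Nat.card_congr (Equiv.subtypeEquivRight fun h => ?_)
    rw [Subtype.ext_iff]
    rfl
  have h3 : ∀ p : M11, Nat.card {h : M11 // h * p⁻¹ = p⁻¹ * h} =
      Nat.card {h : M11 // h * p = p * h} := by
    intro p
    refine Nat.card_congr (Equiv.subtypeEquivRight fun h => ?_)
    rw [mul_inv_eq_iff_eq_mul, mul_assoc, eq_inv_mul_iff_mul_eq]
    exact eq_comm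
  have h7 : rq 7 = (rq 6)⁻¹ := rfl
  have h9 : rq 9 = (rq 8)⁻¹ := rfl
  have h0 : rq 0 = 1 := rfl
  match i with
  | 0 =>
    rw [h0]
    show _ = 7920
    rw [← card_m11']
    exact Nat.card_congr ((Equiv.subtypeEquivRight fun h => by
      simp).trans (Equiv.subtypeUnivEquiv (p := fun _ => True) fun _ => trivial))
  | 1 => exact h2 1 cc1
  | 2 => exact h2 2 cc2
  | 3 => exact h2 3 cc3
  | 4 => exact h2 4 cc4
  | 5 => exact h2 5 cc5
  | 6 => exact h2 6 cc6
  | 7 => rw [h7, h3]; exact h2 6 cc6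
  | 8 => exact h2 8 cc8
  | 9 => rw [h9, h3]; exact h2 8 cc8

theorem rq_card (i : Fin 10) : Nat.card {g : M11 // IsConj (rq i) g} = rn i := by
  have h1 := class_card (rq i)
  rw [cent_card i, card_m11'] at h1
  have h3 : ∀ i : Fin 10, 0 < rc i ∧ rn i * rc i = 7920 := by decide
  exact Nat.eq_of_mul_eq_mul_right (h3 i).1 (h1.trans (h3 i).2.symm)

theorem sum_rn [Fintype M11] : ∑ i, rn i = Fintype.card M11 := by
  rw [← Nat.card_eq_fintype_card, card_m11']
  decide

end V01_aux

open V01_aux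

theorem reps11_mem : ∀ p ∈ reps11, p.1 ∈ M11 := by
  intro p hp
  unfold reps11 at hp
  simp only [List.mem_cons, List.not_mem_nil, or_false] at hp
  rcases hp with rfl | rfl | rfl | rfl | rfl | rfl | rfl | rfl
  · exact rr_mem 0
  · exact rr_mem 1
  · exact rr_mem 2
  · exact rr_mem 3
  · exact rr_mem 4
  · exact rr_mem 5
  · exact rr_mem 6
  · exact rr_mem 8

theorem card_m11 : Nat.card M11 = 7920 := card_m11'

/-- every element is conjugate in `M11` to a representative or to its inverse -/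
theorem exists_rep11 (g : M11) : ∃ p ∈ reps11, ∃ h : M11,
    (g : Equiv.Perm (Fin 11)) = h * p.1 * (h : Equiv.Perm (Fin 11))⁻¹ ∨
      (g : Equiv.Perm (Fin 11)) = h * p.1⁻¹ * (h : Equiv.Perm (Fin 11))⁻¹ := by
  have : Fintype M11 := Fintype.ofFinite _
  obtain ⟨i, hi⟩ := (cover.{0, 0} rq rn rq_card rq_ne sum_rn).1 g
  obtain ⟨c, hc⟩ := isConj_iff.1 hi
  have h1 : (c : Equiv.Perm (Fin 11)) * rr i * (c : Equiv.Perm (Fin 11))⁻¹ = g :=
    congrArg Subtype.val hc
  have h2 : ∀ i : Fin 10, ∃ p ∈ reps11, rr i = p.1 ∨ rr i = p.1⁻¹ := by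
    intro i
    fin_cases i
    · exact ⟨reps11.get ⟨0, by decide⟩, List.get_mem _ _, Or.inl rfl⟩
    · exact ⟨reps11.get ⟨1, by decide⟩, List.get_mem _ _, Or.inl rfl⟩
    · exact ⟨reps11.get ⟨2, by decide⟩, List.get_mem _ _, Or.inl rfl⟩
    · exact ⟨reps11.get ⟨3, by decide⟩, List.get_mem _ _, Or.inl rfl⟩
    · exact ⟨reps11.get ⟨4, by decide⟩, List.get_mem _ _, Or.inl rfl⟩
    · exact ⟨reps11.get ⟨5, by decide⟩, List.get_mem _ _, Or.inl rfl⟩
    · exact ⟨reps11.get ⟨6, by decide⟩, List.get_mem _ _, Or.inl rfl⟩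
    · exact ⟨reps11.get ⟨6, by decide⟩, List.get_mem _ _, Or.inr rfl⟩
    · exact ⟨reps11.get ⟨7, by decide⟩, List.get_mem _ _, Or.inl rfl⟩
    · exact ⟨reps11.get ⟨7, by decide⟩, List.get_mem _ _, Or.inr rfl⟩
  obtain ⟨p, hp, hpi⟩ := h2 i
  refine ⟨p, hp, c, ?_⟩
  rcases hpi with h3 | h3
  · left
    rw [← h1, h3]
  · right
    rw [← h1, h3]

/-- the sum of a self dual class function -/
theorem sum_class11 [Fintype M11] {M : Type*} [CommSemiring M] (f : M11 → M)
    (hf : ∀ g h, f (h * g * h⁻¹) = f g) (hd : ∀ g, f g⁻¹ = f g) :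
    ∑ g, f g = (reps11.attach.map fun p => (p.1.2 : M) * f ⟨p.1.1, reps11_mem p.1 p.2⟩).sum := by
  classical
  rw [(cover rq rn rq_card rq_ne sum_rn).2 f hf]
  set F : Equiv.Perm (Fin 11) → M := fun σ => if h : σ ∈ M11 then f ⟨σ, h⟩ else 0 with hF
  have hFi : ∀ i, f (rq i) = F (rr i) := by
    intro i
    rw [hF]
    simp only [dif_pos (rr_mem i)]
    rfl
  have h7 : F (rr 7) = F (rr 6) := by
    rw [← hFi, ← hFi]
    exact hd (rq 6)
  have h9 : F (rr 9) = F (rr 8) := by
    rw [← hFi, ← hFi]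
    exact hd (rq 8)
  have h1 : (reps11.attach.map fun p => (p.1.2 : M) * f ⟨p.1.1, reps11_mem p.1 p.2⟩) =
      reps11.map fun p => (p.2 : M) * F p.1 := by
    have h2 : (fun p : {x // x ∈ reps11} => (p.1.2 : M) * f ⟨p.1.1, reps11_mem p.1 p.2⟩) =
        (fun p => (p.2 : M) * F p.1) ∘ Subtype.val := by
      funext p
      simp only [Function.comp, hF, dif_pos (reps11_mem p.1 p.2)]
    rw [h2, ← List.map_map, List.attach_map_subtype_val]
  rw [h1]
  have h3 : (reps11.map fun p => (p.2 : M) * F p.1).sum =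
      (1 : ℕ) * F (rr 0) + ((165 : ℕ) * F (rr 1) + ((440 : ℕ) * F (rr 2) + ((990 : ℕ) * F (rr 3) +
        ((1584 : ℕ) * F (rr 4) + ((1320 : ℕ) * F (rr 5) + ((1980 : ℕ) * F (rr 6) +
          ((1440 : ℕ) * F (rr 8) + 0))))))) := rfl
  rw [h3]
  simp only [hFi]
  have h4 : ∑ i, rn i • F (rr i) = 1 • F (rr 0) + 165 • F (rr 1) + 440 • F (rr 2) +
      990 • F (rr 3) + 1584 • F (rr 4) + 1320 • F (rr 5) + 990 • F (rr 6) + 990 • F (rr 7) +
      720 • F (rr 8) + 720 • F (rr 9) := by
    rw [Fin.sum_univ_castSucc, Fin.sum_univ_castSucc, Fin.sum_univ_eight]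
    rfl
  rw [h4, h7, h9]
  simp only [nsmul_eq_mul]
  push_cast
  ring

/-- the same for functions of permutations -/
theorem sum_perm11 [Fintype M11] {M : Type*} [CommSemiring M] (f : Equiv.Perm (Fin 11) → M)
    (hf : ∀ g τ, f (τ * g * τ⁻¹) = f g) (hd : ∀ g, f g⁻¹ = f g) :
    ∑ g : M11, f (g : Equiv.Perm (Fin 11)) = (reps11.map fun p => (p.2 : M) * f p.1).sum := by
  rw [sum_class11 (fun g : M11 => f (g : Equiv.Perm (Fin 11))) (fun g h => hf _ _) (fun g => hd _)]
  have h2 : (fun p : {x // x ∈ reps11} => (p.1.2 : M) *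
      f ((⟨p.1.1, reps11_mem p.1 p.2⟩ : M11) : Equiv.Perm (Fin 11))) =
      (fun p => (p.2 : M) * f p.1) ∘ Subtype.val := rfl
  rw [h2, ← List.map_map, List.attach_map_subtype_val]

end

end Parker
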