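import Pool.Agent.Parker.Defs
import Pool.Agent.Parker.P01
import Pool.Agent.Parker.P03
import Pool.Agent.Parker.P08
import Pool.Agent.Parker.P09
import Pool.Agent.Parker.P11
import Pool.Agent.Parker.P31

/-!
# MP_6c3636_al, module W01: virtual characters; differences of permutation characters (helper7)
-/

namespace Parker

universe u v w

noncomputable section

variable {Ω : Type} [Field Ω] [IsAlgClosed Ω] [CharZero Ω] {G : Type u} [Group G] [Finite G]
  {V : Type v} [AddCommGroup V] [Module Ω V] [FiniteDimensional Ω V]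

/-- virtual characters -/
def Virt (φ : G → Ω) : Prop :=
  ∃ a : (G → Ω) → ℤ, φ = ∑ χ ∈ irr Ω G, (a χ : Ω) • χ

namespace W01_aux

theorem virt_zero : Virt (0 : G → Ω) := ⟨fun _ => 0, by simp⟩

theorem virt_add {φ ψ : G → Ω} (h : Virt φ) (h' : Virt ψ) : Virt (φ + ψ) := by
  obtain ⟨a, rfl⟩ := h
  obtain ⟨b, rfl⟩ := h'
  refine ⟨fun χ => a χ + b χ, ?_⟩
  rw [← Finset.sum_add_distrib]
  refine Finset.sum_congr rfl fun χ _ => ?_
  push_cast
  rw [add_smul]

theorem virt_zsmul {φ : G → Ω} (h : Virt φ) (n : ℤ) : Virt ((n : Ω) • φ) := by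
  obtain ⟨a, rfl⟩ := h
  refine ⟨fun χ => n * a χ, ?_⟩
  rw [Finset.smul_sum]
  refine Finset.sum_congr rfl fun χ _ => ?_
  push_cast
  rw [smul_smul]

theorem virt_sum {ι : Type*} (S : Finset ι) (f : ι → G → Ω) (h : ∀ i ∈ S, Virt (f i)) :
    Virt (∑ i ∈ S, f i) := by
  classical
  induction S using Finset.induction_on with
  | empty =>
    rw [Finset.sum_empty]
    exact virt_zero
  | insert b S hb ih =>
    rw [Finset.sum_insert hb]
    exact virt_add (h b (Finset.mem_insert_self b S))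
      (ih fun i hi => h i (Finset.mem_insert_of_mem hi))

theorem coef (a : (G → Ω) → ℤ) {χ : G → Ω} (hχ : χ ∈ irr Ω G) :
    ip (∑ ψ ∈ irr Ω G, (a ψ : Ω) • ψ) χ = (a χ : Ω) := by
  classical
  rw [ip_sum_left, Finset.sum_eq_single χ]
  · rw [ip_smul_left, ip_irr hχ hχ, if_pos rfl, mul_one]
  · intro b hb hne
    rw [ip_smul_left, ip_irr hb hχ, if_neg hne, mul_zero]
  · intro h
    exact absurd hχ h

theorem norm (a : (G → Ω) → ℤ) :
    ip (∑ ψ ∈ irr Ω G, (a ψ : Ω) • ψ) (∑ ψ ∈ irr Ω G, (a ψ : Ω) • ψ) =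
      ((∑ ψ ∈ irr Ω G, a ψ * a ψ : ℤ) : Ω) := by
  rw [ip_sum_left]
  push_cast
  refine Finset.sum_congr rfl fun ψ hψ => ?_
  rw [ip_smul_left, ip_comm, coef a hψ]

/-- the square over `ℚ` from the Gram matrix -/
theorem tau_sq (X : Type w) [Fintype X] [DecidableEq X] [MulAction G X] (x₀ : X) (s : G → ℚ)
    (hs : ∀ g, s g⁻¹ = - s g) :
    ∃ a : ℚ, ((Fintype.card X : ℕ) : Ω) *
      LinearMap.det (act (P31_aux.tau (G := G) Ω x₀) (fun g => (s g : Ω))) = (a : Ω) ^ 2 := by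
  classical
  let _ := Fintype.ofFinite G
  set M : Matrix {x : X // x ≠ x₀} {x : X // x ≠ x₀} ℚ := ∑ g, s g • P31_aux.R ℚ x₀ g with hM
  have h2 : P31_aux.A ℚ x₀ * M = - (M.transpose * P31_aux.A ℚ x₀) := by
    rw [hM, Finset.mul_sum, Matrix.transpose_sum, Finset.sum_mul, ← Finset.sum_neg_distrib]
    refine Fintype.sum_equiv (Equiv.inv G) _ _ fun g => ?_
    rw [Equiv.inv_apply, Matrix.transpose_smul, Matrix.mul_smul, Matrix.smul_mul, P31_aux.A_R, hs,
      neg_smul, neg_neg]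
  obtain ⟨a, ha⟩ := det_skew_sq' (F := ℚ) (by norm_num) (P31_aux.A_symm ℚ x₀) h2
  rw [P31_aux.A_det] at ha
  refine ⟨a, ?_⟩
  rw [P31_aux.tau_det]
  exact_mod_cast congrArg (fun q : ℚ => (q : Ω)) ha

end W01_aux

theorem virt_char (ρ : Representation Ω G V) : Virt ρ.character := by
  refine ⟨fun χ => (mul ρ.character χ : ℤ), ?_⟩
  refine (char_eq_sum ρ).trans ?_
  refine Finset.sum_congr rfl fun χ _ => ?_
  push_cast
  rfl

theorem W01_aux.virt_const : Virt (fun _ : G => (1 : Ω)) := by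
  have h1 := virt_char (1 : Representation Ω G Ω)
  have h2 : (1 : Representation Ω G Ω).character = fun _ : G => (1 : Ω) := by
    funext g
    show LinearMap.trace Ω Ω (1 : Module.End Ω Ω) = 1
    rw [LinearMap.trace_one, Module.finrank_self, Nat.cast_one]
  rw [h2] at h1
  exact h1

/-- permutation characters (`P31_aux.tau` has the character `fixp X - 1`) -/
theorem virt_fixp (X : Type u) [Finite X] [MulAction G X] :
    Virt (fun g : G => (fixp X g : Ω)) := by
  classical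
  let _ := Fintype.ofFinite X
  by_cases hX : Nonempty X
  · obtain ⟨x₀⟩ := hX
    have h1 := W01_aux.virt_add (virt_char (P31_aux.tau (G := G) Ω x₀)) (W01_aux.virt_const (G := G))
    have h2 : (P31_aux.tau (G := G) Ω x₀).character + (fun _ : G => (1 : Ω)) =
        fun g : G => (fixp X g : Ω) := by
      funext g
      rw [Pi.add_apply, P31_aux.tau_char, sub_add_cancel]
    rw [← h2]
    exact h1
  · have h2 : (fun g : G => (fixp X g : Ω)) = 0 := by
      funext g
      have h3 : fixp X g = 0 := by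
        rw [fixp, Nat.card_eq_zero]
        left
        exact ⟨fun x => hX ⟨x.1⟩⟩
      rw [h3, Nat.cast_zero]
      rfl
    rw [h2]
    exact W01_aux.virt_zero

theorem virt_one : Virt (fun _ : G => (1 : Ω)) := by
  exact W01_aux.virt_const

theorem Virt.add {φ ψ : G → Ω} (h : Virt φ) (h' : Virt ψ) : Virt (φ + ψ) := by
  exact W01_aux.virt_add h h'

theorem Virt.sub {φ ψ : G → Ω} (h : Virt φ) (h' : Virt ψ) : Virt (φ - ψ) := by
  have h1 := W01_aux.virt_add h (W01_aux.virt_zsmul h' (-1))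
  have h2 : φ + ((-1 : ℤ) : Ω) • ψ = φ - ψ := by
    push_cast
    rw [neg_one_smul, sub_eq_add_neg]
  rw [h2] at h1
  exact h1

/-- products (tensor products of representations) -/
theorem Virt.mul {φ ψ : G → Ω} (h : Virt φ) (h' : Virt ψ) : Virt (φ * ψ) := by
  obtain ⟨a, rfl⟩ := h
  obtain ⟨b, rfl⟩ := h'
  rw [Finset.sum_mul_sum]
  refine W01_aux.virt_sum _ _ fun χ hχ => W01_aux.virt_sum _ _ fun ψ hψ => ?_
  obtain ⟨n, ρ, -, rfl⟩ := mem_irr.1 hχ
  obtain ⟨m, τ, -, rfl⟩ := mem_irr.1 hψ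
  rw [smul_mul_smul_comm, ← Representation.char_tensor]
  have h3 := W01_aux.virt_zsmul (virt_char (ρ.tprod τ)) (a ρ.character * b τ.character)
  push_cast at h3
  exact h3

/-- a virtual character of norm one and positive degree is irreducible -/
theorem Virt.irr {φ : G → Ω} (h : Virt φ) (h1 : ip φ φ = 1) {n : ℕ} (hn : φ 1 = (n : Ω))
    (hn0 : 0 < n) : φ ∈ Parker.irr Ω G := by
  classical
  obtain ⟨a, rfl⟩ := h
  rw [W01_aux.norm] at h1
  have h2 : ∑ ψ ∈ Parker.irr Ω G, a ψ * a ψ = 1 := by exact_mod_cast h1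
  obtain ⟨χ, hχ, hne⟩ : ∃ χ ∈ Parker.irr Ω G, a χ ≠ 0 := by
    by_contra hcon
    push Not at hcon
    rw [Finset.sum_eq_zero fun ψ hψ => by rw [hcon ψ hψ, mul_zero]] at h2
    exact zero_ne_one h2
  rw [← Finset.add_sum_erase _ _ hχ] at h2
  have h3 : 0 ≤ ∑ ψ ∈ (Parker.irr Ω G).erase χ, a ψ * a ψ :=
    Finset.sum_nonneg fun ψ _ => mul_self_nonneg (a ψ)
  have h4 : 0 < a χ * a χ := mul_self_pos.2 hne
  have h5 : ∑ ψ ∈ (Parker.irr Ω G).erase χ, a ψ * a ψ = 0 := by omega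
  have h6 : a χ * a χ = 1 := by omega
  have h7 : ∀ ψ ∈ Parker.irr Ω G, ψ ≠ χ → a ψ = 0 := by
    intro ψ hψ hψχ
    have h8 := (Finset.sum_eq_zero_iff_of_nonneg fun ψ _ => mul_self_nonneg (a ψ)).1 h5 ψ
      (Finset.mem_erase.2 ⟨hψχ, hψ⟩)
    exact mul_self_eq_zero.1 h8
  have h9 : ∑ ψ ∈ Parker.irr Ω G, (a ψ : Ω) • ψ = (a χ : Ω) • χ := by
    refine Finset.sum_eq_single χ (fun ψ hψ hψχ => ?_) fun h => absurd hχ h
    rw [h7 ψ hψ hψχ, Int.cast_zero, zero_smul]
  rw [h9] at hn ⊢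
  rw [Pi.smul_apply, smul_eq_mul, ← (dg_spec hχ).1] at hn
  have h10 : a χ * (dg χ : ℤ) = (n : ℤ) := by exact_mod_cast hn
  have h11 := (dg_spec hχ).2
  rcases mul_self_eq_one_iff.1 h6 with h12 | h12
  · rw [h12, Int.cast_one, one_smul]
    exact hχ
  · rw [h12] at h10
    omega

/-- an irreducible character is not a multiple of a virtual character of norm two -/
theorem Virt.norm_two {φ χ : G → Ω} (h : Virt φ) (h2 : ip φ φ = 2) (hχ : χ ∈ Parker.irr Ω G)
    {a : Ω} (ha : χ = a • φ) : False := by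
  classical
  obtain ⟨b, rfl⟩ := h
  rw [W01_aux.norm] at h2
  have h3 : ∑ ψ ∈ Parker.irr Ω G, b ψ * b ψ = 2 := by exact_mod_cast h2
  have ha0 : a ≠ 0 := by
    rintro rfl
    have h4 := ip_irr hχ hχ
    rw [if_pos rfl] at h4
    nth_rewrite 1 [ha] at h4
    rw [ip_smul_left, zero_mul] at h4
    exact zero_ne_one h4
  have h5 : ∀ ψ ∈ Parker.irr Ω G, ψ ≠ χ → b ψ = 0 := by
    intro ψ hψ hne
    have h6 := ip_irr hχ hψ
    rw [if_neg hne.symm, ha, ip_smul_left, W01_aux.coef b hψ] at h6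
    have h7 := (mul_eq_zero.1 h6).resolve_left ha0
    exact_mod_cast h7
  rw [Finset.sum_eq_single χ (fun ψ hψ hne => by rw [h5 ψ hψ hne, mul_zero])
    fun h => absurd hχ h] at h3
  rcases le_or_gt (b χ) 1 with h8 | h8
  · rcases le_or_gt (-1) (b χ) with h9 | h9
    · interval_cases b χ <;> omega
    · nlinarith
  · nlinarith

/-- `X`, `Y` finite `G`-sets of odd cardinality, the irreducible constituents of the character
`fix_Y - 1` have even degree, `ρ` irreducible of even degree with character `fix_X - fix_Y`: `ρ` is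
good for every `Γ`. (Take a rational skew `s` with nonzero determinant in `ρ` and in
`P31_aux.tau Ω y₀`. With `P31_aux.tau` over `ℚ`: `|X| det_X(s)` and `|Y| det_Y(s)` are squares of
rational numbers and `det_X(s) = det_Y(s) det_ρ(s)`.) -/
theorem good_perm3 (X : Type u) [Finite X] [MulAction G X] (Y : Type u) [Finite Y] [MulAction G Y]
    (hX : Odd (Nat.card X)) (hY : Odd (Nat.card Y)) {Γ : Subgroup (RingAut Ω)} {c : Ctx Ω}
    {ρ : Representation Ω G V} (hρ : ρ.IsIrreducible) (hev : Even (Module.finrank Ω V))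
    (hYc : ∀ χ ∈ Parker.irr Ω G, ip (fun g : G => (fixp Y g : Ω) - 1) χ ≠ 0 → Even (dg χ))
    (hρc : ∀ g, ρ.character g = (fixp X g : Ω) - (fixp Y g : Ω)) : GoodV c Γ ρ := by
  classical
  let _ := Fintype.ofFinite X
  let _ := Fintype.ofFinite Y
  let _ := Fintype.ofFinite G
  obtain ⟨x₀⟩ : Nonempty X := (Nat.card_pos_iff.1 hX.pos).1
  obtain ⟨y₀⟩ : Nonempty Y := (Nat.card_pos_iff.1 hY.pos).1
  have hchar : (P31_aux.tau (G := G) Ω x₀).character =
      ρ.character + (P31_aux.tau (G := G) Ω y₀).character := by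
    funext g
    rw [Pi.add_apply, P31_aux.tau_char, P31_aux.tau_char, hρc]
    ring
  have hmul : ∀ φ ∈ Parker.irr Ω G, mul (P31_aux.tau (G := G) Ω x₀).character φ =
      mul ρ.character φ + mul (P31_aux.tau (G := G) Ω y₀).character φ := by
    intro φ hφ
    have h1 := mul_spec (P31_aux.tau (G := G) Ω x₀) hφ
    rw [hchar, ip_add_left, ← mul_spec ρ hφ, ← mul_spec (P31_aux.tau (G := G) Ω y₀) hφ,
      ← hchar] at h1
    exact_mod_cast h1
  have hY' : ∀ φ ∈ Parker.irr Ω G, mul (P31_aux.tau (G := G) Ω y₀).character φ ≠ 0 →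
      Even (dg φ) := by
    intro φ hφ hne
    refine hYc φ hφ fun h0 => hne ?_
    have h1 := mul_spec (P31_aux.tau (G := G) Ω y₀) hφ
    have h2 : (P31_aux.tau (G := G) Ω y₀).character = fun g : G => (fixp Y g : Ω) - 1 := by
      funext g
      rw [P31_aux.tau_char]
    rw [h2, h0] at h1
    rw [h2]
    exact_mod_cast h1
  have hρ' : ∀ φ ∈ Parker.irr Ω G, mul ρ.character φ ≠ 0 → φ = ρ.character := by
    intro φ hφ hne
    by_contra hcon
    apply hne
    have h1 := mul_spec ρ hφ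
    rw [ip_irr (mem_irr.2 (mem_irrSet hρ)) hφ, if_neg (Ne.symm hcon)] at h1
    exact_mod_cast h1
  have hno : NoOdd (P31_aux.tau (G := G) Ω x₀) := by
    rw [noOdd_iff]
    intro φ hφ hne _
    rw [hmul φ hφ] at hne
    by_cases h0 : mul ρ.character φ = 0
    · exact hY' φ hφ (by omega)
    · rw [hρ' φ hφ h0, dg_char]
      exact hev
  obtain ⟨s, hs, hd⟩ := exists_skew_rat hno
  have hdet : LinearMap.det (act (P31_aux.tau (G := G) Ω x₀) fun g => (s g : Ω)) =
      LinearMap.det (act ρ fun g => (s g : Ω)) *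
        LinearMap.det (act (P31_aux.tau (G := G) Ω y₀) fun g => (s g : Ω)) := by
    rw [det_eq_prod, det_eq_prod ρ, det_eq_prod (P31_aux.tau (G := G) Ω y₀),
      ← Finset.prod_mul_distrib]
    refine Finset.prod_congr rfl fun φ hφ => ?_
    rw [hmul φ hφ, pow_add]
  rw [hdet] at hd
  have hdρ := left_ne_zero_of_mul hd
  have hdY := right_ne_zero_of_mul hd
  have hsd : SD ρ := by
    intro g
    rw [hρc, hρc, P31_aux.fixp_inv, P31_aux.fixp_inv]
  have horth : Orth ρ := by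
    rcases exists_form hρ hsd with h | ⟨b, hb, hnd, hinv⟩
    · exact h
    · exfalso
      have h1 := even_mul (P31_aux.tau_orth (G := G) Ω x₀) hρ hb hnd hinv
      have h2 := even_mul (P31_aux.tau_orth (G := G) Ω y₀) hρ hb hnd hinv
      rw [hmul _ (mem_irr.2 (mem_irrSet hρ)), mul_self hρ, Nat.even_add] at h1
      have h3 := h1.2 h2
      exact absurd h3 (by decide)
  obtain ⟨B, hB⟩ := horth
  obtain ⟨a, ha⟩ := W01_aux.tau_sq (Ω := Ω) X x₀ s hs
  obtain ⟨b, hb⟩ := W01_aux.tau_sq (Ω := Ω) Y y₀ s hs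
  have hodd : ∀ n : ℕ, Odd n → (n : Ω) ≠ 0 := by
    intro n hn
    exact_mod_cast hn.pos.ne'
  have hX' : Odd (Fintype.card X) := by
    rw [← Nat.card_eq_fintype_card]
    exact hX
  have hY2 : Odd (Fintype.card Y) := by
    rw [← Nat.card_eq_fintype_card]
    exact hY
  have ha0 : (a : Ω) ≠ 0 := by
    intro h0
    rw [h0, hdet, zero_pow two_ne_zero] at ha
    exact mul_ne_zero (hodd _ hX') hd ha
  have hb0 : (b : Ω) ≠ 0 := by
    intro h0
    rw [h0, zero_pow two_ne_zero] at hb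
    exact mul_ne_zero (hodd _ hY2) hdY hb
  refine ⟨B, hB, act ρ (fun g => (s g : Ω)), ⟨_, fun g => fx_ratCast Γ _, rfl⟩,
    skew_of_skew hB (fun g => by rw [hs]; push_cast; rfl), hdρ, ?_⟩
  refine ⟨(a : Ω) * (b : Ω)⁻¹, mul_ne_zero ha0 (inv_ne_zero hb0),
    fx_mul (fx_ratCast Γ a) (fx_inv (fx_ratCast Γ b)), ?_⟩
  have e1 : c.av (LinearMap.det (act ρ fun g => (s g : Ω))) *
      c.av (LinearMap.det (act (P31_aux.tau (G := G) Ω y₀) fun g => (s g : Ω))) =
      c.av (a : Ω) ^ 2 := by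
    rw [← map_pow, ← ha, map_mul, c.odd _ hX', one_mul, hdet, map_mul]
  have e2 : c.av (LinearMap.det (act (P31_aux.tau (G := G) Ω y₀) fun g => (s g : Ω))) =
      c.av (b : Ω) ^ 2 := by
    rw [← map_pow, ← hb, map_mul, c.odd _ hY2, one_mul]
  have hb1 : c.av (b : Ω) ≠ 0 := by
    rw [Ne, AbsoluteValue.eq_zero]
    exact hb0
  rw [map_mul, map_inv₀, mul_pow, ← e1, e2, inv_pow, mul_assoc,
    mul_inv_cancel₀ (pow_ne_zero 2 hb1), mul_one]

end

end Parker
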