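import Pool.Agent.Parker.Defs
import Pool.Agent.Parker.P08
import Pool.Agent.Parker.P09
import Pool.Agent.Parker.P31
import Pool.Agent.Parker.W01
import Pool.Agent.Parker.V01

/-!
# MP_6c3636_al, module V02: characters of the Mathieu group `M_11` (helper7), compare W03
-/

namespace Parker

noncomputable section

/-- the `k`-subsets of eleven points -/
def KM (k : ℕ) : Type := {s : Finset (Fin 11) // s.card = k}

instance (k : ℕ) : Finite (KM k) := inferInstanceAs (Finite {s : Finset (Fin 11) // s.card = k})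

instance (k : ℕ) : MulAction M11 (KM k) where
  smul g s := ⟨s.1.map (g : Equiv.Perm (Fin 11)).toEmbedding, by rw [Finset.card_map]; exact s.2⟩
  one_smul s := Subtype.ext (by
    change s.1.map (1 : Equiv.Perm (Fin 11)).toEmbedding = s.1
    exact Finset.map_refl)
  mul_smul g h s := Subtype.ext (by
    change s.1.map ((g : Equiv.Perm (Fin 11)) * (h : Equiv.Perm (Fin 11))).toEmbedding =
      (s.1.map (h : Equiv.Perm (Fin 11)).toEmbedding).map (g : Equiv.Perm (Fin 11)).toEmbedding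
    rw [Finset.map_map]
    rfl)

/-- the number of `k`-subsets fixed by a permutation -/
def fx11 (k : ℕ) (g : Equiv.Perm (Fin 11)) : ℕ :=
  ((Finset.univ.powersetCard k).filter fun s : Finset (Fin 11) =>
    s.map g.toEmbedding = s).card

theorem fixp_km (k : ℕ) (g : M11) : fixp (KM k) g = fx11 k (g : Equiv.Perm (Fin 11)) := by
  have hsm : ∀ x : KM k, g • x = x ↔ x.1.map (g : Equiv.Perm (Fin 11)).toEmbedding = x.1 :=
    fun x => ⟨fun h => congrArg Subtype.val h, fun h => Subtype.ext h⟩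
  rw [fixp, fx11, ← Fintype.card_coe, ← Nat.card_eq_fintype_card]
  refine Nat.card_congr ⟨fun x => ⟨x.1.1, ?_⟩, fun s => ⟨⟨s.1, ?_⟩, ?_⟩, fun x => rfl, fun s => rfl⟩
  · rw [Finset.mem_filter, Finset.mem_powersetCard]
    exact ⟨⟨Finset.subset_univ _, x.1.2⟩, (hsm x.1).1 x.2⟩
  · exact (Finset.mem_powersetCard.1 (Finset.mem_filter.1 s.2).1).2
  · exact (hsm _).2 (Finset.mem_filter.1 s.2).2

theorem fx11_conj (k : ℕ) (g τ : Equiv.Perm (Fin 11)) : fx11 k (τ * g * τ⁻¹) = fx11 k g := by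
  rw [fx11, fx11]
  have e : ∀ (a b : Equiv.Perm (Fin 11)) (s : Finset (Fin 11)),
      s.map (a * b).toEmbedding = (s.map b.toEmbedding).map a.toEmbedding := by
    intro a b s
    rw [Finset.map_map]
    rfl
  have e1 : ∀ s : Finset (Fin 11), s.map (1 : Equiv.Perm (Fin 11)).toEmbedding = s :=
    fun s => Finset.map_refl
  refine Finset.card_nbij' (fun s => s.map (τ⁻¹).toEmbedding) (fun s => s.map τ.toEmbedding)
    ?_ ?_ ?_ ?_
  · intro s hs
    rw [Finset.mem_coe, Finset.mem_filter, Finset.mem_powersetCard] at hs ⊢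
    refine ⟨⟨Finset.subset_univ _, by rw [Finset.card_map]; exact hs.1.2⟩, ?_⟩
    dsimp only
    rw [← e]
    have h := congrArg (fun t : Finset (Fin 11) => t.map (τ⁻¹).toEmbedding) hs.2
    rw [← e] at h
    rw [← h]
    congr 2
    group
  · intro s hs
    rw [Finset.mem_coe, Finset.mem_filter, Finset.mem_powersetCard] at hs ⊢
    refine ⟨⟨Finset.subset_univ _, by rw [Finset.card_map]; exact hs.1.2⟩, ?_⟩
    dsimp only
    rw [← e]
    have h := congrArg (fun t : Finset (Fin 11) => t.map τ.toEmbedding) hs.2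
    rw [← e] at h
    rw [← h]
    congr 2
    group
  · intro s _
    dsimp only
    rw [← e, mul_inv_cancel, e1]
  · intro s _
    dsimp only
    rw [← e, inv_mul_cancel, e1]

theorem fx11_inv (k : ℕ) (g : Equiv.Perm (Fin 11)) : fx11 k g⁻¹ = fx11 k g := by
  rw [fx11, fx11]
  have e : ∀ (a b : Equiv.Perm (Fin 11)) (s : Finset (Fin 11)),
      s.map (a * b).toEmbedding = (s.map b.toEmbedding).map a.toEmbedding := by
    intro a b s
    rw [Finset.map_map]
    rfl
  have e1 : ∀ s : Finset (Fin 11), s.map (1 : Equiv.Perm (Fin 11)).toEmbedding = s :=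
    fun s => Finset.map_refl
  congr 1
  refine Finset.filter_congr fun s _ => ⟨fun h => ?_, fun h => ?_⟩
  · have h' := congrArg (fun t : Finset (Fin 11) => t.map g.toEmbedding) h
    rw [← e, mul_inv_cancel, e1] at h'
    exact h'.symm
  · have h' := congrArg (fun t : Finset (Fin 11) => t.map (g⁻¹).toEmbedding) h
    rw [← e, inv_mul_cancel, e1] at h'
    exact h'.symm

theorem fx11_vals : (reps11.map fun p => (fx11 1 p.1, fx11 2 p.1, fx11 3 p.1)) =
    [(11, 55, 165), (3, 7, 13), (2, 1, 3), (3, 3, 1), (1, 0, 0), (0, 1, 1), (1, 1, 1),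
      (0, 0, 0)] := by
  decide +kernel

/-- degree 10 -/
def m10 (g : Equiv.Perm (Fin 11)) : ℤ := fx11 1 g - 1

/-- degree 44 -/
def m44 (g : Equiv.Perm (Fin 11)) : ℤ := fx11 2 g - fx11 1 g

/-- degree 45 -/
def m45 (g : Equiv.Perm (Fin 11)) : ℤ := m10 g * m10 g - 1 - m10 g - m44 g

/-- `11 + 55` -/
def m66 (g : Equiv.Perm (Fin 11)) : ℤ := fx11 3 g - fx11 2 g - m44 g

/-- `2 * 55 + 32` -/
def mx1 (g : Equiv.Perm (Fin 11)) : ℤ := m10 g * m44 g - m10 g - 3 * m44 g - 2 * m45 g - m66 g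

/-- `3 * 55 + 20 + 32` -/
def mx2 (g : Equiv.Perm (Fin 11)) : ℤ := m10 g * m45 g - m10 g - 2 * m44 g - 3 * m45 g

/-- `9 * 55 + 2 * 20 + 4 * 32` -/
def mx4 (g : Equiv.Perm (Fin 11)) : ℤ :=
  m44 g * m44 g - 1 - 3 * m10 g - 12 * m44 g - 10 * m45 g - 4 * m66 g

/-- degree 55 -/
def m55 (g : Equiv.Perm (Fin 11)) : ℤ := 2 * mx1 g + 2 * mx2 g - mx4 g

/-- degree 11 -/
def m11 (g : Equiv.Perm (Fin 11)) : ℤ := m66 g - m55 g

/-- the sum of the two characters of degree 16 -/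
def m32 (g : Equiv.Perm (Fin 11)) : ℤ := mx1 g - 2 * m55 g

/-- the sum of the two characters of degree 10 which are not self dual -/
def m20 (g : Equiv.Perm (Fin 11)) : ℤ := mx2 g - 3 * m55 g - m32 g

/-- the rational irreducible characters -/
def irrs11 : List (Equiv.Perm (Fin 11) → ℤ) := [fun _ => 1, m10, m11, m44, m45, m55]

/-- these and the two sums of characters which are not self dual -/
def all11 : List (Equiv.Perm (Fin 11) → ℤ) := [fun _ => 1, m10, m11, m44, m45, m55, m20, m32]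

theorem all11_vals : (reps11.map fun p => all11.map fun f => f p.1) =
    [[1, 10, 11, 44, 45, 55, 20, 32], [1, 2, 3, 4, -3, -1, -4, 0], [1, 1, 2, -1, 0, 1, 2, -4],
     [1, 2, -1, 0, 1, -1, 0, 0], [1, 0, 1, -1, 0, 0, 0, 2], [1, -1, 0, 1, 0, -1, 2, 0],
     [1, 0, -1, 0, -1, 1, 0, 0], [1, -1, 0, 0, 1, 0, -2, -1]] := by
  decide +kernel

theorem all11_conj : ∀ f ∈ all11, ∀ g τ : Equiv.Perm (Fin 11), f (τ * g * τ⁻¹) = f g := by
  intro f hf g τ
  simp only [all11, List.mem_cons, List.not_mem_nil, or_false] at hf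
  rcases hf with rfl | rfl | rfl | rfl | rfl | rfl | rfl | rfl <;>
    simp only [m10, m11, m44, m45, m55, m20, m32, m66, mx1, mx2, mx4, fx11_conj]

theorem all11_inv : ∀ f ∈ all11, ∀ g : Equiv.Perm (Fin 11), f g⁻¹ = f g := by
  intro f hf g
  simp only [all11, List.mem_cons, List.not_mem_nil, or_false] at hf
  rcases hf with rfl | rfl | rfl | rfl | rfl | rfl | rfl | rfl <;>
    simp only [m10, m11, m44, m45, m55, m20, m32, m66, mx1, mx2, mx4, fx11_inv]

/-- as functions on `M11` -/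
def ch11 (Ω : Type) [Field Ω] (f : Equiv.Perm (Fin 11) → ℤ) : M11 → Ω :=
  fun g => (f (g : Equiv.Perm (Fin 11)) : Ω)

variable {Ω : Type} [Field Ω] [IsAlgClosed Ω] [CharZero Ω]

theorem ip_ch11 (f f' : Equiv.Perm (Fin 11) → ℤ) (hf : ∀ g τ, f (τ * g * τ⁻¹) = f g)
    (hf' : ∀ g τ, f' (τ * g * τ⁻¹) = f' g) (hi : ∀ g, f g⁻¹ = f g) (hi' : ∀ g, f' g⁻¹ = f' g) :
    ip (ch11 Ω f) (ch11 Ω f') =
      (7920 : Ω)⁻¹ * (((reps11.map fun p => (p.2 : ℤ) * (f p.1 * f' p.1)).sum : ℤ) : Ω) := by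
  classical
  let _ := Fintype.ofFinite M11
  have h1 := sum_perm11 (M := ℤ) (fun g => f g * f' g) (fun g τ => by rw [hf, hf'])
    (fun g => by rw [hi, hi'])
  rw [ip_eq, card_m11, ← h1]
  push_cast
  congr 1
  refine Finset.sum_congr rfl fun g _ => ?_
  have h2 : f' ((g⁻¹ : M11) : Equiv.Perm (Fin 11)) = f' g := by
    rw [← hi' g]
    rfl
  simp only [ch11]
  rw [h2]

namespace V02_aux

theorem vk (k : ℕ) : Virt (ch11 Ω (fun g => (fx11 k g : ℤ))) := by
  have h := virt_fixp (Ω := Ω) (G := M11) (KM k)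
  have e : ch11 Ω (fun g => (fx11 k g : ℤ)) =
      fun g : M11 => (fixp (KM k) g : Ω) := by
    funext g
    rw [fixp_km, ch11, Int.cast_natCast]
  rw [e]
  exact h

theorem v1 : Virt (ch11 Ω (fun _ => 1)) := by
  have e : ch11 Ω (fun _ => 1) = fun _ : M11 => (1 : Ω) := by
    funext g
    rw [ch11, Int.cast_one]
  rw [e]
  exact virt_one

theorem vadd {f f' : Equiv.Perm (Fin 11) → ℤ} (h : Virt (ch11 Ω f)) (h' : Virt (ch11 Ω f')) :
    Virt (ch11 Ω (fun g => f g + f' g)) := by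
  have e : ch11 Ω (fun g => f g + f' g) = ch11 Ω f + ch11 Ω f' := by
    funext g
    rw [Pi.add_apply, ch11, ch11, ch11, Int.cast_add]
  rw [e]
  exact h.add h'

theorem vsub {f f' : Equiv.Perm (Fin 11) → ℤ} (h : Virt (ch11 Ω f)) (h' : Virt (ch11 Ω f')) :
    Virt (ch11 Ω (fun g => f g - f' g)) := by
  have e : ch11 Ω (fun g => f g - f' g) = ch11 Ω f - ch11 Ω f' := by
    funext g
    rw [Pi.sub_apply, ch11, ch11, ch11, Int.cast_sub]
  rw [e]
  exact h.sub h'

theorem vmul {f f' : Equiv.Perm (Fin 11) → ℤ} (h : Virt (ch11 Ω f)) (h' : Virt (ch11 Ω f')) :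
    Virt (ch11 Ω (fun g => f g * f' g)) := by
  have e : ch11 Ω (fun g => f g * f' g) = ch11 Ω f * ch11 Ω f' := by
    funext g
    rw [Pi.mul_apply, ch11, ch11, ch11, Int.cast_mul]
  rw [e]
  exact h.mul h'

theorem vsmul (n : ℤ) {f : Equiv.Perm (Fin 11) → ℤ} (h : Virt (ch11 Ω f)) :
    Virt (ch11 Ω (fun g => n * f g)) := by
  have e : ch11 Ω (fun g => n * f g) = (n : Ω) • ch11 Ω f := by
    funext g
    rw [Pi.smul_apply, ch11, ch11, Int.cast_mul, smul_eq_mul]
  rw [e]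
  exact W01_aux.virt_zsmul h n

theorem v_m10 : Virt (ch11 Ω m10) := vsub (vk 1) v1

theorem v_m44 : Virt (ch11 Ω m44) := vsub (vk 2) (vk 1)

theorem v_m45 : Virt (ch11 Ω m45) :=
  vsub (vsub (vsub (vmul v_m10 v_m10) v1) v_m10) v_m44

theorem v_m66 : Virt (ch11 Ω m66) := vsub (vsub (vk 3) (vk 2)) v_m44

theorem v_mx1 : Virt (ch11 Ω mx1) :=
  vsub (vsub (vsub (vsub (vmul v_m10 v_m44) v_m10) (vsmul 3 v_m44)) (vsmul 2 v_m45)) v_m66

theorem v_mx2 : Virt (ch11 Ω mx2) :=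
  vsub (vsub (vsub (vmul v_m10 v_m45) v_m10) (vsmul 2 v_m44)) (vsmul 3 v_m45)

theorem v_mx4 : Virt (ch11 Ω mx4) :=
  vsub (vsub (vsub (vsub (vsub (vmul v_m44 v_m44) v1) (vsmul 3 v_m10)) (vsmul 12 v_m44))
    (vsmul 10 v_m45)) (vsmul 4 v_m66)

theorem v_m55 : Virt (ch11 Ω m55) := vsub (vadd (vsmul 2 v_mx1) (vsmul 2 v_mx2)) v_mx4

theorem v_m11 : Virt (ch11 Ω m11) := vsub v_m66 v_m55

theorem v_m32 : Virt (ch11 Ω m32) := vsub v_mx1 (vsmul 2 v_m55)

theorem v_m20 : Virt (ch11 Ω m20) := vsub (vsub v_mx2 (vsmul 3 v_m55)) v_m32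

theorem norms : ∀ f ∈ irrs11, (reps11.map fun p => (p.2 : ℤ) * (f p.1 * f p.1)).sum = 7920 := by
  decide +kernel

theorem degs : ∀ f ∈ irrs11, 0 < f 1 := by
  decide +kernel

theorem norm20 : (reps11.map fun p => (p.2 : ℤ) * (m20 p.1 * m20 p.1)).sum = 15840 := by
  decide +kernel

theorem norm32 : (reps11.map fun p => (p.2 : ℤ) * (m32 p.1 * m32 p.1)).sum = 15840 := by
  decide +kernel

theorem orth : (reps11.map fun p => (p.2 : ℤ) * (m20 p.1 * m32 p.1)).sum = 0 := by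
  decide +kernel

theorem irrs_sub : ∀ f ∈ irrs11, f ∈ all11 := by
  intro f hf
  simp only [irrs11, all11, List.mem_cons, List.not_mem_nil, or_false] at hf ⊢
  tauto

theorem m20_mem : m20 ∈ all11 := by
  simp only [all11, List.mem_cons, true_or, or_true]

theorem m32_mem : m32 ∈ all11 := by
  simp only [all11, List.mem_cons, true_or, or_true]

end V02_aux

theorem all11_virt : ∀ f ∈ all11, Virt (ch11 Ω f) := by
  intro f hf
  simp only [all11, List.mem_cons, List.not_mem_nil, or_false] at hf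
  rcases hf with rfl | rfl | rfl | rfl | rfl | rfl | rfl | rfl
  · exact V02_aux.v1
  · exact V02_aux.v_m10
  · exact V02_aux.v_m11
  · exact V02_aux.v_m44
  · exact V02_aux.v_m45
  · exact V02_aux.v_m55
  · exact V02_aux.v_m20
  · exact V02_aux.v_m32

theorem irrs11_irr : ∀ f ∈ irrs11, ch11 Ω f ∈ irr Ω M11 := by
  intro f hf
  have hd := V02_aux.degs f hf
  have hm := V02_aux.irrs_sub f hf
  have hn : ch11 Ω f 1 = ((f 1).toNat : Ω) := by
    have h1 : (((f 1).toNat : ℤ) : Ω) = ((f 1 : ℤ) : Ω) := by rw [Int.toNat_of_nonneg hd.le]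
    rw [Int.cast_natCast] at h1
    rw [h1]
    rfl
  refine (all11_virt f hm).irr ?_ hn (by omega)
  rw [ip_ch11 f f (all11_conj f hm) (all11_conj f hm) (all11_inv f hm) (all11_inv f hm),
    V02_aux.norms f hf]
  norm_num

theorem m20_norm : ip (ch11 Ω m20) (ch11 Ω m20) = 2 := by
  rw [ip_ch11 m20 m20 (all11_conj _ V02_aux.m20_mem) (all11_conj _ V02_aux.m20_mem)
    (all11_inv _ V02_aux.m20_mem) (all11_inv _ V02_aux.m20_mem), V02_aux.norm20]
  norm_num

theorem m32_norm : ip (ch11 Ω m32) (ch11 Ω m32) = 2 := by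
  rw [ip_ch11 m32 m32 (all11_conj _ V02_aux.m32_mem) (all11_conj _ V02_aux.m32_mem)
    (all11_inv _ V02_aux.m32_mem) (all11_inv _ V02_aux.m32_mem), V02_aux.norm32]
  norm_num

theorem m20_m32 : ip (ch11 Ω m20) (ch11 Ω m32) = 0 := by
  rw [ip_ch11 m20 m32 (all11_conj _ V02_aux.m20_mem) (all11_conj _ V02_aux.m32_mem)
    (all11_inv _ V02_aux.m20_mem) (all11_inv _ V02_aux.m32_mem), V02_aux.orth]
  norm_num

end

end Parker
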