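import Pool.Agent.Parker.Defs
import Pool.Agent.Parker.P06
import Pool.Agent.Parker.P08
import Pool.Agent.Parker.P09
import Pool.Agent.Parker.P10
import Pool.Agent.Parker.P31
import Pool.Agent.Parker.P32
import Pool.Agent.Parker.W01
import Pool.Agent.Parker.V01
import Pool.Agent.Parker.V02

/-!
# MP_6c3636_al, module V03: (A) and (B) for the Mathieu group `M_11` (helper7), compare W04
-/

namespace Parker

noncomputable section

variable {Ω : Type} [Field Ω] [IsAlgClosed Ω] [CharZero Ω]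

namespace V03_aux

open Classical in
/-- extension by zero to all permutations -/
def ext0 (χ : M11 → Ω) (g : Equiv.Perm (Fin 11)) : Ω :=
  if h : g ∈ M11 then χ ⟨g, h⟩ else 0

omit [IsAlgClosed Ω] [CharZero Ω] in
theorem ext0_coe (χ : M11 → Ω) (g : M11) :
    ext0 χ (g : Equiv.Perm (Fin 11)) = χ g := by
  unfold ext0
  rw [dif_pos g.2]

omit [IsAlgClosed Ω] [CharZero Ω] in
theorem ext0_mem (χ : M11 → Ω) {g : Equiv.Perm (Fin 11)} (h : g ∈ M11) :
    ext0 χ g = χ ⟨g, h⟩ := by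
  unfold ext0
  rw [dif_pos h]

/-- irreducible characters are class functions -/
theorem char_class {χ : M11 → Ω} (hχ : χ ∈ irr Ω M11) (g h : M11) :
    χ (h * g * h⁻¹) = χ g := by
  obtain ⟨n, ρ, -, rfl⟩ := mem_irr.1 hχ
  exact Representation.char_conj ρ g h

/-- the inner product as a sum over the representatives -/
theorem ip_sum {χ : M11 → Ω} (hc : ∀ g h, χ (h * g * h⁻¹) = χ g) (hd : ∀ g, χ g⁻¹ = χ g)
    (f : Equiv.Perm (Fin 11) → ℤ) (hf : ∀ g τ : Equiv.Perm (Fin 11), f (τ * g * τ⁻¹) = f g)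
    (hi : ∀ g, f g⁻¹ = f g) :
    ip χ (ch11 Ω f) = (7920 : Ω)⁻¹ *
      (reps11.map fun p => (p.2 : Ω) * (ext0 χ p.1 * (f p.1 : Ω))).sum := by
  let _ := Fintype.ofFinite M11
  rw [ip_eq, card_m11]
  have h1 := sum_class11 (fun g : M11 => χ g * ((f (g : Equiv.Perm (Fin 11)) : ℤ) : Ω))
    (fun g h => by
      rw [hc]
      congr 2
      show f ((h : Equiv.Perm (Fin 11)) * g * ((h⁻¹ : M11) : Equiv.Perm (Fin 11))) = _
      rw [Subgroup.coe_inv, hf])
    (fun g => by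
      rw [hd]
      congr 2
      rw [Subgroup.coe_inv, hi])
  have h2 : (reps11.attach.map fun p => ((p.1.2 : ℕ) : Ω) *
      (χ ⟨p.1.1, reps11_mem p.1 p.2⟩ * ((f p.1.1 : ℤ) : Ω))) =
      reps11.map fun p => (p.2 : Ω) * (ext0 χ p.1 * (f p.1 : Ω)) := by
    rw [← List.attach_map_val (l := reps11)
      (f := fun p => (p.2 : Ω) * (ext0 χ p.1 * (f p.1 : Ω)))]
    refine List.map_congr_left fun p _ => ?_
    rw [ext0_mem χ (reps11_mem p.1 p.2)]
  rw [← h2, ← h1]
  congr 1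
  refine Finset.sum_congr rfl fun g _ => ?_
  congr 1
  show ((f ((g⁻¹ : M11) : Equiv.Perm (Fin 11)) : ℤ) : Ω) = _
  rw [Subgroup.coe_inv, hi]

theorem sub_all : ∀ f ∈ irrs11, f ∈ all11 := by
  intro f hf
  simp only [irrs11, all11, List.mem_cons, List.not_mem_nil, or_false] at hf ⊢
  rcases hf with h | h | h | h | h | h
  · exact Or.inl h
  · exact Or.inr (Or.inl h)
  · exact Or.inr (Or.inr (Or.inl h))
  · exact Or.inr (Or.inr (Or.inr (Or.inl h)))
  · exact Or.inr (Or.inr (Or.inr (Or.inr (Or.inl h))))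
  · exact Or.inr (Or.inr (Or.inr (Or.inr (Or.inr (Or.inl h)))))

theorem m20_mem : m20 ∈ all11 := by
  simp only [all11, List.mem_cons, true_or, or_true]

theorem m32_mem : m32 ∈ all11 := by
  simp only [all11, List.mem_cons, true_or, or_true]

theorem class_eq {R : Type} (F : Equiv.Perm (Fin 11) → R)
    (hF : ∀ g τ : Equiv.Perm (Fin 11), F (τ * g * τ⁻¹) = F g) (hi : ∀ g, F g⁻¹ = F g)
    {g h p : Equiv.Perm (Fin 11)} (hg : g = h * p * h⁻¹ ∨ g = h * p⁻¹ * h⁻¹) : F g = F p := by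
  rcases hg with rfl | rfl
  · exact hF _ _
  · rw [hF, hi]

end V03_aux

open V03_aux

/-- a self dual class function orthogonal to the six rational irreducible characters is a linear
combination of `m20` and `m32` (eight linear equations, as in `classify7`) -/
theorem span11 {χ : M11 → Ω} (hc : ∀ g h, χ (h * g * h⁻¹) = χ g) (hd : ∀ g, χ g⁻¹ = χ g)
    (h0 : ∀ f ∈ irrs11, ip χ (ch11 Ω f) = 0) :
    ∃ a b : Ω, χ = a • ch11 Ω m20 + b • ch11 Ω m32 := by
  have hv := all11_vals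
  set x : Equiv.Perm (Fin 11) → Ω := ext0 χ with hx
  have hsum : ∀ f ∈ irrs11, (reps11.map fun p => (p.2 : Ω) * (x p.1 * (f p.1 : Ω))).sum = 0 := by
    intro f hf
    have h1 := h0 f hf
    rw [ip_sum hc hd f (all11_conj f (sub_all f hf)) (all11_inv f (sub_all f hf))] at h1
    rcases mul_eq_zero.1 h1 with h2 | h2
    · exact absurd h2 (by norm_num)
    · exact h2
  simp only [reps11, all11, List.map_cons, List.map_nil, List.cons.injEq, and_true] at hv
  simp only [irrs11, List.mem_cons, List.not_mem_nil, or_false, forall_eq_or_imp, forall_eq,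
    reps11, List.map_cons, List.map_nil, List.sum_cons, List.sum_nil] at hsum
  obtain ⟨e0, e1, e2, e3, e4, e5⟩ := hsum
  obtain ⟨⟨-, v01, v02, v03, v04, v05, v06, v07⟩,
    ⟨-, v11, v12, v13, v14, v15, v16, v17⟩,
    ⟨-, v21, v22, v23, v24, v25, v26, v27⟩,
    ⟨-, v31, v32, v33, v34, v35, v36, v37⟩,
    ⟨-, v41, v42, v43, v44, v45, v46, v47⟩,
    ⟨-, v51, v52, v53, v54, v55, v56, v57⟩,
    ⟨-, v61, v62, v63, v64, v65, v66, v67⟩,
    ⟨-, v71, v72, v73, v74, v75, v76, v77⟩⟩ := hv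
  simp only [v01, v11, v21, v31, v41, v51, v61, v71] at e1
  simp only [v02, v12, v22, v32, v42, v52, v62, v72] at e2
  simp only [v03, v13, v23, v33, v43, v53, v63, v73] at e3
  simp only [v04, v14, v24, v34, v44, v54, v64, v74] at e4
  simp only [v05, v15, v25, v35, v45, v55, v65, v75] at e5
  push_cast at e0 e1 e2 e3 e4 e5
  set X0 : Ω := x (1 : Equiv.Perm (Fin 11)) with hX0
  set X1 : Ω := x (c[2, 10] * c[3, 4] * c[5, 9] * c[6, 7]) with hX1
  set X2 : Ω := x (c[0, 1, 2] * c[3, 5, 10] * c[6, 8, 9]) with hX2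
  set X3 : Ω := x (c[2, 6, 10, 7] * c[3, 9, 4, 5]) with hX3
  set X4 : Ω := x (c[0, 3, 1, 4, 8] * c[2, 9, 7, 5, 6]) with hX4
  set X5 : Ω := x (c[0, 2, 9, 5, 6, 4] * c[1, 3, 7] * c[8, 10]) with hX5
  set X6 : Ω := x (c[0, 2, 8, 10, 9, 6, 1, 3] * c[4, 7]) with hX6
  set X7 : Ω := x c[0, 1, 2, 3, 4, 5, 6, 7, 8, 9, 10] with hX7
  set a : Ω := (15840 : Ω)⁻¹ * (20 * X0 - 660 * X1 + 880 * X2 + 2640 * X5 - 2880 * X7) with ha
  set b : Ω := (15840 : Ω)⁻¹ * (32 * X0 - 1760 * X2 + 3168 * X4 - 1440 * X7) with hb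
  have y0 : X0 = a * (20 : Ω) + b * (32 : Ω) := by
    rw [ha, hb]
    linear_combination (1 / 7920) * e0 + (10 / 7920) * e1 + (11 / 7920) * e2 + (44 / 7920) * e3 + (45 / 7920) * e4 + (55 / 7920) * e5
  have y1 : X1 = a * (-4 : Ω) + b * (0 : Ω) := by
    rw [ha, hb]
    linear_combination (1 / 7920) * e0 + (2 / 7920) * e1 + (3 / 7920) * e2 + (4 / 7920) * e3 + (-3 / 7920) * e4 + (-1 / 7920) * e5
  have y2 : X2 = a * (2 : Ω) + b * (-4 : Ω) := by
    rw [ha, hb]
    linear_combination (1 / 7920) * e0 + (1 / 7920) * e1 + (2 / 7920) * e2 + (-1 / 7920) * e3 + (0 / 7920) * e4 + (1 / 7920) * e5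
  have y3 : X3 = a * (0 : Ω) + b * (0 : Ω) := by
    rw [ha, hb]
    linear_combination (1 / 7920) * e0 + (2 / 7920) * e1 + (-1 / 7920) * e2 + (0 / 7920) * e3 + (1 / 7920) * e4 + (-1 / 7920) * e5
  have y4 : X4 = a * (0 : Ω) + b * (2 : Ω) := by
    rw [ha, hb]
    linear_combination (1 / 7920) * e0 + (0 / 7920) * e1 + (1 / 7920) * e2 + (-1 / 7920) * e3 + (0 / 7920) * e4 + (0 / 7920) * e5
  have y5 : X5 = a * (2 : Ω) + b * (0 : Ω) := by
    rw [ha, hb]
    linear_combination (1 / 7920) * e0 + (-1 / 7920) * e1 + (0 / 7920) * e2 + (1 / 7920) * e3 + (0 / 7920) * e4 + (-1 / 7920) * e5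
  have y6 : X6 = a * (0 : Ω) + b * (0 : Ω) := by
    rw [ha, hb]
    linear_combination (1 / 7920) * e0 + (0 / 7920) * e1 + (-1 / 7920) * e2 + (0 / 7920) * e3 + (-1 / 7920) * e4 + (1 / 7920) * e5
  have y7 : X7 = a * (-2 : Ω) + b * (-1 : Ω) := by
    rw [ha, hb]
    linear_combination (1 / 7920) * e0 + (-1 / 7920) * e1 + (0 / 7920) * e2 + (0 / 7920) * e3 + (1 / 7920) * e4 + (0 / 7920) * e5
  refine ⟨a, b, ?_⟩
  funext g
  obtain ⟨p, hp, h, hg⟩ := exists_rep11 g
  have h1 : χ g = x p.1 := by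
    have hpm := reps11_mem p hp
    rw [hx, ext0_mem χ hpm]
    rcases hg with hg | hg
    · have : g = h * ⟨p.1, hpm⟩ * h⁻¹ := Subtype.ext hg
      rw [this, hc]
    · have : g = h * (⟨p.1, hpm⟩ : M11)⁻¹ * h⁻¹ := Subtype.ext hg
      rw [this, hc, hd]
  have h2 : m20 (g : Equiv.Perm (Fin 11)) = m20 p.1 :=
    class_eq m20 (all11_conj m20 m20_mem) (all11_inv m20 m20_mem) hg
  have h3 : m32 (g : Equiv.Perm (Fin 11)) = m32 p.1 :=
    class_eq m32 (all11_conj m32 m32_mem) (all11_inv m32 m32_mem) hg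
  show χ g = a * ((m20 (g : Equiv.Perm (Fin 11)) : ℤ) : Ω) +
    b * ((m32 (g : Equiv.Perm (Fin 11)) : ℤ) : Ω)
  rw [h1, h2, h3]
  simp only [reps11, List.mem_cons, List.not_mem_nil, or_false] at hp
  rcases hp with rfl | rfl | rfl | rfl | rfl | rfl | rfl | rfl
  · show X0 = _
    rw [v06, v07, y0]; push_cast; ring
  · show X1 = _
    rw [v16, v17, y1]; push_cast; ring
  · show X2 = _
    rw [v26, v27, y2]; push_cast; ring
  · show X3 = _
    rw [v36, v37, y3]; push_cast; ring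
  · show X4 = _
    rw [v46, v47, y4]; push_cast; ring
  · show X5 = _
    rw [v56, v57, y5]; push_cast; ring
  · show X6 = _
    rw [v66, v67, y6]; push_cast; ring
  · show X7 = _
    rw [v76, v77, y7]; push_cast; ring

namespace V03_aux

theorem irr_fn {f : Equiv.Perm (Fin 11) → ℤ} (hf : f ∈ irrs11) (g : M11) :
    ch11 Ω f g⁻¹ = ch11 Ω f g := by
  show ((f ((g⁻¹ : M11) : Equiv.Perm (Fin 11)) : ℤ) : Ω) = ((f (g : Equiv.Perm (Fin 11)) : ℤ) : Ω)
  rw [Subgroup.coe_inv, all11_inv f (sub_all f hf)]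

/-- `ip` of a character with a virtual character is an integer -/
theorem ip_virt {χ φ : M11 → Ω} (hχ : χ ∈ irr Ω M11) (h : Virt φ) : ∃ n : ℤ, ip χ φ = (n : Ω) := by
  obtain ⟨b, rfl⟩ := h
  exact ⟨b χ, by rw [ip_comm, W01_aux.coef b hχ]⟩

/-- the coefficients of a combination of `m20` and `m32` -/
theorem coeffs {φ : M11 → Ω} {a b : Ω} (h : φ = a • ch11 Ω m20 + b • ch11 Ω m32) :
    ip φ (ch11 Ω m20) = 2 * a ∧ ip φ (ch11 Ω m32) = 2 * b ∧ ip φ φ = 2 * a ^ 2 + 2 * b ^ 2 := by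
  have e1 : ip φ (ch11 Ω m20) = 2 * a := by
    rw [h, ip_add_left, ip_smul_left, ip_smul_left, m20_norm, ip_comm (ch11 Ω m32), m20_m32]
    ring
  have e2 : ip φ (ch11 Ω m32) = 2 * b := by
    rw [h, ip_add_left, ip_smul_left, ip_smul_left, m32_norm, m20_m32]
    ring
  refine ⟨e1, e2, ?_⟩
  have e3 : ip φ φ = a * ip (ch11 Ω m20) φ + b * ip (ch11 Ω m32) φ := by
    conv_lhs => rw [h]
    rw [ip_add_left, ip_smul_left, ip_smul_left, ← h]
  rw [e3, ip_comm (ch11 Ω m20), ip_comm (ch11 Ω m32), e1, e2]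
  ring

theorem vals_last : m20 c[0, 1, 2, 3, 4, 5, 6, 7, 8, 9, 10] = -2 ∧
    m32 c[0, 1, 2, 3, 4, 5, 6, 7, 8, 9, 10] = -1 := by
  have hv := all11_vals
  simp only [reps11, all11, List.map_cons, List.map_nil, List.cons.injEq, and_true] at hv
  exact ⟨hv.2.2.2.2.2.2.2.2.2.2.2.2.2.1, hv.2.2.2.2.2.2.2.2.2.2.2.2.2.2⟩

theorem vals_one : m10 1 = 10 ∧ m11 1 = 11 ∧ m44 1 = 44 ∧ m45 1 = 45 ∧ m55 1 = 55 ∧
    m20 1 = 20 ∧ m32 1 = 32 := by
  have hv := all11_vals
  simp only [reps11, all11, List.map_cons, List.map_nil, List.cons.injEq, and_true] at hv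
  exact hv.1.2

end V03_aux

/-- the self dual irreducible characters. If such a `χ` is different from the six characters,
`χ = a m20 + b m32`, and `2 a = ip χ m20`, `2 b = ip χ m32` are integers with
`(2a)² + (2b)² = 2`, so `2a, 2b = ± 1`. The value at the element `a` of order 11 is
`(∓ 2 ∓ 1)/2`, which is not an algebraic integer (`P32_aux.char_integral`,
`P32_aux.exists_int_of_two_mul`). -/
theorem classify11 {χ : M11 → Ω} (hχ : χ ∈ irr Ω M11) (hd : ∀ g, χ g⁻¹ = χ g) :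
    ∃ f ∈ irrs11, χ = ch11 Ω f := by
  classical
  by_contra hcon
  push Not at hcon
  have h0 : ∀ f ∈ irrs11, ip χ (ch11 Ω f) = 0 := by
    intro f hf
    rw [ip_irr hχ (irrs11_irr f hf), if_neg (hcon f hf)]
  obtain ⟨a, b, hab⟩ := span11 (char_class hχ) hd h0
  obtain ⟨e1, e2, e3⟩ := coeffs hab
  obtain ⟨A, hA⟩ := ip_virt hχ (all11_virt (Ω := Ω) m20 m20_mem)
  obtain ⟨B, hB⟩ := ip_virt hχ (all11_virt (Ω := Ω) m32 m32_mem)
  rw [hA] at e1
  rw [hB] at e2
  rw [ip_irr hχ hχ, if_pos rfl] at e3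
  have h2 : A ^ 2 + B ^ 2 = 2 := by
    have : ((A ^ 2 + B ^ 2 : ℤ) : Ω) = ((2 : ℤ) : Ω) := by
      push_cast
      rw [e1, e2]
      linear_combination (-2) * e3
    exact_mod_cast this
  have hBo : B = 1 ∨ B = -1 := by
    have hB1 : B ≤ 1 := by nlinarith [sq_nonneg A]
    have hB2 : -1 ≤ B := by nlinarith [sq_nonneg A]
    have hA1 : A ≤ 1 := by nlinarith [sq_nonneg B]
    have hA2 : -1 ≤ A := by nlinarith [sq_nonneg B]
    interval_cases B
    · right; rfl
    · exfalso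
      interval_cases A <;> omega
    · left; rfl
  -- the value at the element of order eleven
  have hmem : (c[0, 1, 2, 3, 4, 5, 6, 7, 8, 9, 10] : Equiv.Perm (Fin 11)) ∈ M11 :=
    Subgroup.subset_closure (Set.mem_insert _ _)
  have hval : χ ⟨_, hmem⟩ = a * (-2) + b * (-1) := by
    have h3 := congrFun hab ⟨_, hmem⟩
    rw [h3]
    show a * ((m20 c[0, 1, 2, 3, 4, 5, 6, 7, 8, 9, 10] : ℤ) : Ω) +
      b * ((m32 c[0, 1, 2, 3, 4, 5, 6, 7, 8, 9, 10] : ℤ) : Ω) = _
    rw [vals_last.1, vals_last.2]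
    push_cast
    ring
  have hint : IsIntegral ℤ (χ ⟨_, hmem⟩) := by
    obtain ⟨n, ρ, -, hρ⟩ := mem_irr.1 hχ
    rw [← hρ]
    exact P32_aux.char_integral ρ _
  obtain ⟨k, hk⟩ := P32_aux.exists_int_of_two_mul hint (m := -2 * A - B) (by
    rw [hval]
    push_cast
    rw [e1, e2]
    ring)
  omega

namespace V03_aux

theorem dg_even_aux {A B : ℤ} {d : ℕ} (h2 : A ^ 2 + B ^ 2 = 4) (hd : (d : ℤ) = 5 * A + 8 * B) :
    Even d := by
  have hA : A ≤ 2 := by nlinarith [sq_nonneg B]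
  have hA' : -2 ≤ A := by nlinarith [sq_nonneg B]
  have hB : B ≤ 2 := by nlinarith [sq_nonneg A]
  have hB' : -2 ≤ B := by nlinarith [sq_nonneg A]
  rw [Nat.even_iff]
  interval_cases A <;> interval_cases B <;> omega

end V03_aux

/-- the irreducible characters which are not self dual have even degree: `φ = χ + χ*` is self dual
and orthogonal to the six characters, so `φ = a m20 + b m32` where `2a`, `2b` are integers and
`(2a)² + (2b)² = 4` (`φ` has norm 2), so `φ = ± m20` or `φ = ± m32` and `2 χ(1) = 20` or `32`. -/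
theorem odd11 {χ : M11 → Ω} (hχ : χ ∈ irr Ω M11) (hodd : Odd (dg χ)) :
    ∃ f ∈ irrs11, χ = ch11 Ω f := by
  classical
  by_cases hsd : ∀ g, χ g⁻¹ = χ g
  · exact classify11 hχ hsd
  exfalso
  have hdu : du χ ∈ irr Ω M11 := du_mem_irr hχ
  have hne : χ ≠ du χ := by
    intro h
    exact hsd fun g => (congrFun h g).symm
  set φ : M11 → Ω := χ + du χ with hφ
  have hc : ∀ g h, φ (h * g * h⁻¹) = φ g := by
    intro g h
    rw [hφ, Pi.add_apply, Pi.add_apply, char_class hχ, char_class hdu]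
  have hd : ∀ g, φ g⁻¹ = φ g := by
    intro g
    rw [hφ, Pi.add_apply, Pi.add_apply]
    show χ g⁻¹ + χ g⁻¹⁻¹ = χ g + χ g⁻¹
    rw [inv_inv, add_comm]
  have h0 : ∀ f ∈ irrs11, ip φ (ch11 Ω f) = 0 := by
    intro f hf
    have n1 : χ ≠ ch11 Ω f := by
      intro h
      apply hsd
      intro g
      rw [h, irr_fn hf]
    have n2 : du χ ≠ ch11 Ω f := by
      intro h
      apply hsd
      intro g
      have h1 : χ g⁻¹ = ch11 Ω f g := congrFun h g
      have h2 : χ g = ch11 Ω f g⁻¹ := by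
        have := congrFun h g⁻¹
        rw [← this]
        show χ g = χ g⁻¹⁻¹
        rw [inv_inv]
      rw [h1, h2, irr_fn hf]
    rw [hφ, ip_add_left, ip_irr hχ (irrs11_irr f hf), if_neg n1, ip_irr hdu (irrs11_irr f hf),
      if_neg n2, add_zero]
  obtain ⟨a, b, hab⟩ := span11 hc hd h0
  obtain ⟨e1, e2, e3⟩ := coeffs hab
  obtain ⟨A, hA⟩ := ip_virt hχ (all11_virt (Ω := Ω) m20 m20_mem)
  obtain ⟨A', hA'⟩ := ip_virt hdu (all11_virt (Ω := Ω) m20 m20_mem)
  obtain ⟨B, hB⟩ := ip_virt hχ (all11_virt (Ω := Ω) m32 m32_mem)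
  obtain ⟨B', hB'⟩ := ip_virt hdu (all11_virt (Ω := Ω) m32 m32_mem)
  have f1 : ip φ (ch11 Ω m20) = ((A + A' : ℤ) : Ω) := by
    rw [hφ, ip_add_left, hA, hA']; push_cast; rfl
  have f2 : ip φ (ch11 Ω m32) = ((B + B' : ℤ) : Ω) := by
    rw [hφ, ip_add_left, hB, hB']; push_cast; rfl
  have f3 : ip φ φ = 2 := by
    have g1 : ip χ φ = 1 := by
      rw [ip_comm, hφ, ip_add_left, ip_irr hχ hχ, if_pos rfl, ip_irr hdu hχ,
        if_neg hne.symm, add_zero]
    have g2 : ip (du χ) φ = 1 := by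
      rw [ip_comm, hφ, ip_add_left, ip_irr hχ hdu, if_neg hne, ip_irr hdu hdu, if_pos rfl,
        zero_add]
    have g3 : ip φ φ = ip χ φ + ip (du χ) φ := by
      conv_lhs => rw [hφ]
      rw [ip_add_left]
    rw [g3, g1, g2]
    norm_num
  rw [f1] at e1
  rw [f2] at e2
  rw [f3] at e3
  have h2 : (A + A') ^ 2 + (B + B') ^ 2 = 4 := by
    have : (((A + A') ^ 2 + (B + B') ^ 2 : ℤ) : Ω) = ((4 : ℤ) : Ω) := by
      push_cast
      push_cast at e1 e2
      rw [e1, e2]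
      linear_combination (-2) * e3
    exact_mod_cast this
  have hdg : ((dg χ : ℕ) : ℤ) = 5 * (A + A') + 8 * (B + B') := by
    have h1 : φ 1 = a * 20 + b * 32 := by
      rw [hab]
      show a * ((m20 ((1 : M11) : Equiv.Perm (Fin 11)) : ℤ) : Ω) +
        b * ((m32 ((1 : M11) : Equiv.Perm (Fin 11)) : ℤ) : Ω) = _
      rw [Subgroup.coe_one, vals_one.2.2.2.2.2.1, vals_one.2.2.2.2.2.2]
      push_cast
      ring
    have h3 : φ 1 = 2 * (dg χ : Ω) := by
      rw [(dg_spec hχ).1, hφ, Pi.add_apply]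
      show χ 1 + χ 1⁻¹ = _
      rw [inv_one]
      ring
    have h4 : (2 : Ω) * (((dg χ : ℕ) : ℤ) : Ω) = 2 * ((5 * (A + A') + 8 * (B + B') : ℤ) : Ω) := by
      push_cast
      push_cast at e1 e2
      rw [← h3, h1]
      linear_combination (-10) * e1 + (-16) * e2
    have h5 := mul_left_cancel₀ (two_ne_zero : (2 : Ω) ≠ 0) h4
    exact_mod_cast h5
  have hev := dg_even_aux h2 hdg
  exact (Nat.not_even_iff_odd.2 hodd) hev

/-- the irreducible characters of even degree -/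
theorem even11 {n : ℕ} {ρ : Representation Ω M11 (Fin n → Ω)}
    (hρ : ρ.IsIrreducible) (hn : Even n) (hd : SD ρ) :
    (∀ g, ρ.character g = (fixp (KM 1) g : Ω) - 1) ∨
    (∀ g, ρ.character g = (fixp (KM 2) g : Ω) - (fixp (KM 1) g : Ω)) := by
  obtain ⟨f, hf, hχ⟩ := classify11 (mem_irr.2 (mem_irrSet hρ)) hd
  obtain ⟨v1, v2, v3, v4, v5, -, -⟩ := vals_one
  have h1 : ρ.character 1 = (n : Ω) := by
    rw [Representation.char_one]; simp
  have h2 : (n : ℤ) = f 1 := by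
    have : (n : Ω) = ((f 1 : ℤ) : Ω) := by
      rw [← h1, hχ]; rfl
    exact_mod_cast this
  have h3 : Even (f 1) := by rw [← h2]; exact_mod_cast hn
  simp only [irrs11, List.mem_cons, List.not_mem_nil, or_false] at hf
  rcases hf with rfl | rfl | rfl | rfl | rfl | rfl
  · exact absurd h3 (by decide)
  · left
    intro g
    rw [hχ, fixp_km]
    show ((m10 (g : Equiv.Perm (Fin 11)) : ℤ) : Ω) = _
    rw [m10]; push_cast; ring
  · rw [v2] at h3; exact absurd h3 (by decide)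
  · right
    intro g
    rw [hχ, fixp_km, fixp_km]
    show ((m44 (g : Equiv.Perm (Fin 11)) : ℤ) : Ω) = _
    rw [m44]; push_cast; ring
  · rw [v4] at h3; exact absurd h3 (by decide)
  · rw [v5] at h3; exact absurd h3 (by decide)

namespace V03_aux

theorem card_km : Nat.card (KM 1) = 11 ∧ Nat.card (KM 2) = 55 := by
  have h : ∀ k, Nat.card (KM k) = Nat.choose 11 k := by
    intro k
    show Nat.card {s : Finset (Fin 11) // s.card = k} = _
    rw [Nat.card_eq_fintype_card, Fintype.card_finset_len, Fintype.card_fin]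
  rw [h, h]
  decide

/-- the constituents of `fix - 1` have degree 10 -/
theorem km_even : ∀ χ ∈ irr Ω M11,
    ip (fun g : M11 => (fixp (KM 1) g : Ω) - 1) χ ≠ 0 → Even (dg χ) := by
  classical
  intro χ hχ h
  have hm : m10 ∈ irrs11 := by simp only [irrs11, List.mem_cons, true_or, or_true]
  have e1 : (fun g : M11 => (fixp (KM 1) g : Ω) - 1) = ch11 Ω m10 := by
    funext g
    rw [fixp_km]
    show _ = ((m10 (g : Equiv.Perm (Fin 11)) : ℤ) : Ω)
    rw [m10]; push_cast; ring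
  rw [e1, ip_irr (irrs11_irr m10 hm) hχ] at h
  split_ifs at h with h1
  · have h2 := (dg_spec hχ).1
    rw [← h1] at h2
    have h3 : ((dg (ch11 Ω m10) : ℕ) : Ω) = ((m10 1 : ℤ) : Ω) := h2
    have h4 : ((dg (ch11 Ω m10) : ℕ) : ℤ) = m10 1 := by exact_mod_cast h3
    rw [← h1]
    have h5 : Even ((dg (ch11 Ω m10) : ℕ) : ℤ) := by rw [h4, vals_one.1]; decide
    exact_mod_cast h5
  · exact absurd rfl h

end V03_aux

/-- (A), with `good_perm`, `good_perm3` -/
theorem m11_propA (c : Ctx Ω) : PropA c 1 M11 := by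
  obtain ⟨k1, k2⟩ := card_km
  refine propA_of_good fun Γ hΓ n ρ hρ hn hO hF => ?_
  have hfr : Even (Module.finrank Ω (Fin n → Ω)) := by simpa using hn
  rcases even11 hρ hn (sd_of_orth hO) with h | h
  · exact good_perm (KM 1) (by rw [k1]; decide) hρ hfr h
  · exact good_perm3 (KM 2) (KM 1) (by rw [k2]; decide) (by rw [k1]; decide) hρ hfr
      km_even h

/-- if the irreducible characters of odd degree are fixed by all automorphisms, (B) holds -/
theorem propB_of_fixes {G : Type} [Group G] [Finite G] {c : Ctx Ω} {m : ℕ}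
    (h : ∀ (n : ℕ) (ρ : Representation Ω G (Fin n → Ω)), ρ.IsIrreducible → Odd n →
      ∀ σ : RingAut Ω, Fixes σ ρ) : PropB c m G := by
  intro Γ _ n ρ hρ hn _ d hd hd'
  refine ⟨d, hd, fun σ hσ => ?_, rfl⟩
  rw [hd' σ hσ, if_pos (h n ρ hρ hn σ)]

theorem m11_propB (c : Ctx Ω) : PropB c 1 M11 := by
  refine propB_of_fixes fun n ρ hρ hn σ => ?_
  have hχ : ρ.character ∈ irr Ω M11 := mem_irr.2 (mem_irrSet hρ)
  have hdg : dg ρ.character = n := by
    have h1 := (dg_spec hχ).1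
    rw [Representation.char_one] at h1
    have h2 : ((dg ρ.character : ℕ) : Ω) = ((n : ℕ) : Ω) := by
      rw [h1]; simp
    exact_mod_cast h2
  obtain ⟨f, -, hf⟩ := odd11 hχ (by rw [hdg]; exact hn)
  intro g
  rw [hf]
  show σ ((f (g : Equiv.Perm (Fin 11)) : ℤ) : Ω) = _
  rw [map_intCast]
  rfl

end

end Parker
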