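import Pool.Agent.Parker.Defs
import Pool.Agent.Parker.P08

/-!
# MP_6c3636_al, module W02: conjugacy classes of the alternating group of degree seven (helper7)
-/

namespace Parker

noncomputable section

/-- representatives of the classes of even permutations of seven points with the class sizes -/
def reps7 : List (Equiv.Perm (Fin 7) × ℕ) :=
  [(1, 1),
   (c[0, 1] * c[2, 3], 105),
   (c[0, 1, 2], 70),
   (c[0, 1, 2] * c[3, 4, 5], 280),
   (c[0, 1, 2, 3] * c[4, 5], 630),
   (c[0, 1, 2, 3, 4], 504),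
   (c[0, 1, 2] * c[3, 4] * c[5, 6], 210),
   (c[0, 1, 2, 3, 4, 5, 6], 720)]

namespace W02_aux

/-- the cycle types of the representatives -/
def types7 : List (Multiset ℕ) := [0, {2, 2}, {3}, {3, 3}, {4, 2}, {5}, {3, 2, 2}, {7}]

theorem types7_eq : reps7.map (fun p => p.1.cycleType) = types7 := by
  unfold reps7 types7
  simp only [List.map_cons, List.map_nil, List.cons.injEq, and_true]
  refine ⟨?_, ?_, ?_, ?_, ?_, ?_, ?_, ?_⟩ <;> decide

theorem type_mem (m : Multiset ℕ) (h2 : ∀ a ∈ m, 2 ≤ a) (hs : m.sum ≤ 7)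
    (he : Even (m.sum + Multiset.card m)) : m ∈ types7 := by
  have hcard : Multiset.card m ≤ 3 := by
    have h := Multiset.card_nsmul_le_sum (s := m) (a := 2) h2
    rw [smul_eq_mul] at h
    omega
  obtain h | h | h | h : Multiset.card m = 0 ∨ Multiset.card m = 1 ∨ Multiset.card m = 2 ∨
      Multiset.card m = 3 := by omega
  · rw [Multiset.card_eq_zero] at h
    subst h
    decide
  · obtain ⟨a, rfl⟩ := Multiset.card_eq_one.1 h
    have ha : 2 ≤ a := h2 a (by simp)
    have ha' : a ≤ 7 := by simpa using hs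
    interval_cases a <;> revert he <;> decide
  · obtain ⟨a, b, rfl⟩ := Multiset.card_eq_two.1 h
    have ha : 2 ≤ a := h2 a (by simp)
    have hb : 2 ≤ b := h2 b (by simp)
    have hab : a + b ≤ 7 := by simpa using hs
    have ha' : a ≤ 5 := by omega
    have hb' : b ≤ 5 := by omega
    clear h h2 hcard
    interval_cases a <;> interval_cases b <;>
      first
        | (exfalso; revert hab; decide)
        | (revert he; decide)
  · obtain ⟨a, b, c, rfl⟩ := Multiset.card_eq_three.1 h
    have ha : 2 ≤ a := h2 a (by simp)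
    have hb : 2 ≤ b := h2 b (by simp)
    have hc : 2 ≤ c := h2 c (by simp)
    have hab : a + (b + c) ≤ 7 := by simpa using hs
    have ha' : a ≤ 3 := by omega
    have hb' : b ≤ 3 := by omega
    have hc' : c ≤ 3 := by omega
    clear h h2 hcard
    interval_cases a <;> interval_cases b <;> interval_cases c <;>
      first
        | (exfalso; revert hab; decide)
        | (revert he; decide)

theorem cycleType_mem (g : Equiv.Perm (Fin 7)) (hg : g ∈ alternatingGroup (Fin 7)) :
    g.cycleType ∈ types7 := by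
  apply type_mem
  · intro a ha; exact Equiv.Perm.two_le_of_mem_cycleType ha
  · rw [Equiv.Perm.sum_cycleType]
    exact le_trans (Finset.card_le_univ _) (by simp)
  · rw [Equiv.Perm.mem_alternatingGroup, Equiv.Perm.sign_of_cycleType] at hg
    rcases Nat.even_or_odd (g.cycleType.sum + Multiset.card g.cycleType) with h | h
    · exact h
    · rw [h.neg_one_pow] at hg
      exact absurd hg (by decide)

end W02_aux

open W02_aux

/-- every even permutation is conjugate in the symmetric group to one of the representatives -/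
theorem exists_rep7 (g : Equiv.Perm (Fin 7)) (hg : g ∈ alternatingGroup (Fin 7)) :
    ∃ p ∈ reps7, ∃ τ : Equiv.Perm (Fin 7), g = τ * p.1 * τ⁻¹ := by
  have h := cycleType_mem g hg
  rw [← types7_eq, List.mem_map] at h
  obtain ⟨p, hp, hpt⟩ := h
  refine ⟨p, hp, ?_⟩
  have hc : IsConj p.1 g := Equiv.Perm.isConj_iff_cycleType_eq.2 hpt
  obtain ⟨τ, hτ⟩ := isConj_iff.1 hc
  exact ⟨τ, hτ.symm⟩

/-- sum of a class function over the alternating group (`Equiv.Perm.card_of_cycleType`) -/
theorem sum_class7 {M : Type*} [CommSemiring M] (f : Equiv.Perm (Fin 7) → M)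
    (hf : ∀ g τ, f (τ * g * τ⁻¹) = f g) :
    ∑ g : alternatingGroup (Fin 7), f (g : Equiv.Perm (Fin 7)) =
      (reps7.map fun p => (p.2 : M) * f p.1).sum := by
  classical
  have hconst : ∀ g h : Equiv.Perm (Fin 7), g.cycleType = h.cycleType → f g = f h := by
    intro g h hgh
    obtain ⟨τ, hτ⟩ := isConj_iff.1 (Equiv.Perm.isConj_iff_cycleType_eq.2 hgh)
    rw [← hτ, hf]
  have hnd : types7.Nodup := by decide
  have hsum := Finset.sum_fiberwise_of_maps_to (s := Finset.univ) (t := types7.toFinset)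
    (g := fun g : alternatingGroup (Fin 7) => (g : Equiv.Perm (Fin 7)).cycleType)
    (fun g _ => List.mem_toFinset.2 (cycleType_mem _ g.2))
    (fun g : alternatingGroup (Fin 7) => f (g : Equiv.Perm (Fin 7)))
  rw [← hsum, List.sum_toFinset _ hnd, ← types7_eq, List.map_map]
  congr 1
  apply List.map_congr_left
  intro p hp
  simp only [Function.comp_apply]
  rw [Finset.sum_congr rfl (g := fun _ => f p.1)]
  · rw [Finset.sum_const, nsmul_eq_mul]
    congr 2
    rw [AlternatingGroup.card_of_cycleType]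
    have hall : ∀ q ∈ reps7, (if (q.1.cycleType.sum ≤ Fintype.card (Fin 7) ∧
        ∀ a ∈ q.1.cycleType, 2 ≤ a) ∧
        Even (q.1.cycleType.sum + Multiset.card q.1.cycleType) then
        (Fintype.card (Fin 7)).factorial /
          ((Fintype.card (Fin 7) - q.1.cycleType.sum).factorial *
            (q.1.cycleType.prod * (∏ n ∈ q.1.cycleType.toFinset, (q.1.cycleType.count n).factorial)))
      else 0) = q.2 := by
      unfold reps7
      simp only [List.forall_mem_cons]
      refine ⟨?_, ?_, ?_, ?_, ?_, ?_, ?_, ?_, ?_⟩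
      · decide
      · decide
      · decide
      · decide
      · decide
      · decide
      · decide
      · decide
      · simp
    exact hall p hp
  · intro g hg
    rw [Finset.mem_filter] at hg
    exact hconst _ _ hg.2

/-- conjugation of an even permutation by a permutation -/
def cj7 (τ : Equiv.Perm (Fin 7)) (g : alternatingGroup (Fin 7)) : alternatingGroup (Fin 7) :=
  ⟨τ * (g : Equiv.Perm (Fin 7)) * τ⁻¹, by
    have := g.2
    rw [Equiv.Perm.mem_alternatingGroup] at this ⊢
    rw [map_mul, map_mul, this, mul_one, map_inv, mul_inv_cancel]⟩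

namespace W02_aux

theorem odd_helper : ∀ p ∈ reps7, ∃ η : Equiv.Perm (Fin 7), Equiv.Perm.sign η = -1 ∧
    (η * p.1 * η⁻¹ = p.1 ∨ η * p.1 * η⁻¹ = p.1⁻¹) := by
  unfold reps7
  simp only [List.forall_mem_cons]
  refine ⟨⟨Equiv.swap 0 1, by decide, Or.inl (by decide)⟩,
    ⟨Equiv.swap 0 1, by decide, Or.inl (by decide)⟩,
    ⟨Equiv.swap 3 4, by decide, Or.inl (by decide)⟩,
    ⟨Equiv.swap 0 3 * Equiv.swap 1 4 * Equiv.swap 2 5, by decide, Or.inl (by decide)⟩,
    ⟨Equiv.swap 4 5, by decide, Or.inl (by decide)⟩,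
    ⟨Equiv.swap 5 6, by decide, Or.inl (by decide)⟩,
    ⟨Equiv.swap 3 4, by decide, Or.inl (by decide)⟩,
    ⟨Equiv.swap 1 6 * Equiv.swap 2 5 * Equiv.swap 3 4, by decide, Or.inr (by decide)⟩, ?_⟩
  simp

theorem odd_conj (g : Equiv.Perm (Fin 7)) (hg : g ∈ alternatingGroup (Fin 7)) :
    ∃ η : Equiv.Perm (Fin 7), Equiv.Perm.sign η = -1 ∧
    (η * g * η⁻¹ = g ∨ η * g * η⁻¹ = g⁻¹) := by
  obtain ⟨p, hp, τ, rfl⟩ := exists_rep7 g hg
  obtain ⟨η, hη, h⟩ := odd_helper p hp
  refine ⟨τ * η * τ⁻¹, ?_, ?_⟩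
  · rw [map_mul, map_mul, map_inv, hη, mul_right_comm, mul_inv_cancel, one_mul]
  · rcases h with h | h
    · left
      calc τ * η * τ⁻¹ * (τ * p.1 * τ⁻¹) * (τ * η * τ⁻¹)⁻¹
          = τ * (η * p.1 * η⁻¹) * τ⁻¹ := by group
        _ = τ * p.1 * τ⁻¹ := by rw [h]
    · right
      calc τ * η * τ⁻¹ * (τ * p.1 * τ⁻¹) * (τ * η * τ⁻¹)⁻¹
          = τ * (η * p.1 * η⁻¹) * τ⁻¹ := by group
        _ = τ * p.1⁻¹ * τ⁻¹ := by rw [h]
        _ = (τ * p.1 * τ⁻¹)⁻¹ := by group

theorem isConj_of {x y : alternatingGroup (Fin 7)} (σ : Equiv.Perm (Fin 7))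
    (hσ : Equiv.Perm.sign σ = 1)
    (h : σ * (y : Equiv.Perm (Fin 7)) * σ⁻¹ = (x : Equiv.Perm (Fin 7))) : IsConj x y := by
  apply IsConj.symm
  rw [isConj_iff]
  refine ⟨⟨σ, Equiv.Perm.mem_alternatingGroup.2 hσ⟩, ?_⟩
  apply Subtype.ext
  simpa using h

end W02_aux

/-- conjugate of `g` by an arbitrary permutation is conjugate to `g` or to `g⁻¹` in the
alternating group (if the centralizer of `g` contains an odd permutation it is conjugate to `g`;
otherwise `g` is a `7`-cycle, inverted by an odd permutation) -/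
theorem conj7 (τ : Equiv.Perm (Fin 7)) (g : alternatingGroup (Fin 7)) :
    IsConj (cj7 τ g) g ∨ IsConj (cj7 τ g) g⁻¹ := by
  rcases Int.units_eq_one_or (Equiv.Perm.sign τ) with hτ | hτ
  · left
    exact isConj_of τ hτ rfl
  · obtain ⟨η, hη, h⟩ := odd_conj (g : Equiv.Perm (Fin 7)) g.2
    have hs : Equiv.Perm.sign (τ * η⁻¹) = 1 := by
      rw [map_mul, map_inv, hη, hτ]; decide
    rcases h with h | h
    · left
      apply isConj_of (τ * η⁻¹) hs
      have h' : (g : Equiv.Perm (Fin 7)) = η⁻¹ * (g : Equiv.Perm (Fin 7)) * η := by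
        calc (g : Equiv.Perm (Fin 7)) = η⁻¹ * (η * (g : Equiv.Perm (Fin 7)) * η⁻¹) * η := by group
          _ = _ := by rw [h]
      change _ = τ * (g : Equiv.Perm (Fin 7)) * τ⁻¹
      calc τ * η⁻¹ * (g : Equiv.Perm (Fin 7)) * (τ * η⁻¹)⁻¹
          = τ * (η⁻¹ * (g : Equiv.Perm (Fin 7)) * η) * τ⁻¹ := by group
        _ = _ := by rw [← h']
    · right
      apply isConj_of (τ * η⁻¹) hs
      have h' : (g : Equiv.Perm (Fin 7)) = η⁻¹ * (g : Equiv.Perm (Fin 7))⁻¹ * η := by
        calc (g : Equiv.Perm (Fin 7)) = η⁻¹ * (η * (g : Equiv.Perm (Fin 7)) * η⁻¹) * η := by group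
          _ = _ := by rw [h]
      change τ * η⁻¹ * (g : Equiv.Perm (Fin 7))⁻¹ * (τ * η⁻¹)⁻¹ =
        τ * (g : Equiv.Perm (Fin 7)) * τ⁻¹
      calc τ * η⁻¹ * (g : Equiv.Perm (Fin 7))⁻¹ * (τ * η⁻¹)⁻¹
          = τ * (η⁻¹ * (g : Equiv.Perm (Fin 7))⁻¹ * η) * τ⁻¹ := by group
        _ = _ := by rw [← h']

/-- so self dual class functions are invariant under conjugation by all permutations -/
theorem inv7 {M : Type*} (f : alternatingGroup (Fin 7) → M)
    (hf : ∀ g h, f (h * g * h⁻¹) = f g) (hd : ∀ g, f g⁻¹ = f g) (τ : Equiv.Perm (Fin 7))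
    (g : alternatingGroup (Fin 7)) : f (cj7 τ g) = f g := by
  have hc : ∀ x y : alternatingGroup (Fin 7), IsConj x y → f x = f y := by
    intro x y hxy
    obtain ⟨c, hc⟩ := isConj_iff.1 hxy
    rw [← hc, hf]
  rcases conj7 τ g with h | h
  · exact hc _ _ h
  · rw [hc _ _ h, hd]

/-- a class function for conjugation by all permutations, extended by zero to odd permutations -/
theorem sum_class7' {M : Type*} [CommSemiring M] (f : alternatingGroup (Fin 7) → M)
    (hf : ∀ g τ, f (cj7 τ g) = f g) (hmem : ∀ p ∈ reps7, p.1 ∈ alternatingGroup (Fin 7)) :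
    ∑ g, f g = (reps7.attach.map fun p => (p.1.2 : M) * f ⟨p.1.1, hmem p.1 p.2⟩).sum := by
  classical
  let f' : Equiv.Perm (Fin 7) → M := fun g =>
    if h : g ∈ alternatingGroup (Fin 7) then f ⟨g, h⟩ else 0
  have hf' : ∀ g : alternatingGroup (Fin 7), f' g = f g := by
    intro g
    change (if h : (g : Equiv.Perm (Fin 7)) ∈ alternatingGroup (Fin 7) then f ⟨g, h⟩ else 0) = f g
    rw [dif_pos g.2]
  have hinv : ∀ g τ, f' (τ * g * τ⁻¹) = f' g := by
    intro g τ
    by_cases hg : g ∈ alternatingGroup (Fin 7)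
    · have h1 := hf' (cj7 τ ⟨g, hg⟩)
      have h2 := hf' ⟨g, hg⟩
      change f' (τ * g * τ⁻¹) = _ at h1
      rw [h1, hf]
      exact h2.symm
    · have hg' : τ * g * τ⁻¹ ∉ alternatingGroup (Fin 7) := by
        intro h
        apply hg
        rw [Equiv.Perm.mem_alternatingGroup] at h ⊢
        rwa [map_mul, map_mul, map_inv, mul_right_comm, mul_inv_cancel, one_mul] at h
      change (if h : (τ * g * τ⁻¹) ∈ alternatingGroup (Fin 7) then f ⟨_, h⟩ else 0) =
        (if h : g ∈ alternatingGroup (Fin 7) then f ⟨_, h⟩ else 0)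
      rw [dif_neg hg, dif_neg hg']
  calc ∑ g, f g = ∑ g : alternatingGroup (Fin 7), f' (g : Equiv.Perm (Fin 7)) :=
        Finset.sum_congr rfl fun g _ => (hf' g).symm
    _ = (reps7.map fun p => (p.2 : M) * f' p.1).sum := sum_class7 f' hinv
    _ = (reps7.attach.map fun p => (p.1.2 : M) * f' p.1.1).sum := by
        rw [← List.attach_map_val (f := fun p : Equiv.Perm (Fin 7) × ℕ => (p.2 : M) * f' p.1)]
    _ = _ := by
        congr 1
        apply List.map_congr_left
        intro p _
        have := hf' ⟨p.1.1, hmem p.1 p.2⟩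
        change f' p.1.1 = _ at this
        rw [this]

theorem reps7_mem : ∀ p ∈ reps7, p.1 ∈ alternatingGroup (Fin 7) := by
  have h : ∀ p ∈ reps7, Equiv.Perm.sign p.1 = 1 := by
    unfold reps7
    simp only [List.forall_mem_cons]
    refine ⟨?_, ?_, ?_, ?_, ?_, ?_, ?_, ?_, ?_⟩
    · decide
    · decide
    · decide
    · decide
    · decide
    · decide
    · decide
    · decide
    · simp
  intro p hp
  exact Equiv.Perm.mem_alternatingGroup.2 (h p hp)

theorem card_a7 : Nat.card (alternatingGroup (Fin 7)) = 2520 := by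
  rw [nat_card_alternatingGroup, Nat.card_eq_fintype_card, Fintype.card_fin]
  decide

/-- exponent -/
theorem exp_a7 (g : alternatingGroup (Fin 7)) : g ^ (4 * 105) = 1 := by
  have h : (g : Equiv.Perm (Fin 7)) ^ (4 * 105) = 1 := by
    apply orderOf_dvd_iff_pow_eq_one.1
    rw [← Equiv.Perm.lcm_cycleType]
    have hall : ∀ t ∈ types7, t.lcm ∣ 4 * 105 := by decide
    exact hall _ (cycleType_mem _ g.2)
  apply Subtype.ext
  simpa using h

end

end Parker
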