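import Pool.Agent.Parker.Defs
import Pool.Agent.Parker.P08
import Pool.Agent.Parker.P09
import Pool.Agent.Parker.W01
import Pool.Agent.Parker.W02

/-!
# MP_6c3636_al, module W03: characters of the alternating group of degree seven (helper7)
-/

namespace Parker

noncomputable section

/-- the `k`-subsets of seven points -/
def KS (k : ℕ) : Type := {s : Finset (Fin 7) // s.card = k}

instance (k : ℕ) : Finite (KS k) := inferInstanceAs (Finite {s : Finset (Fin 7) // s.card = k})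

instance (k : ℕ) : MulAction (alternatingGroup (Fin 7)) (KS k) where
  smul g s := ⟨s.1.map (g : Equiv.Perm (Fin 7)).toEmbedding, by rw [Finset.card_map]; exact s.2⟩
  one_smul s := Subtype.ext (by
    change s.1.map (1 : Equiv.Perm (Fin 7)).toEmbedding = s.1
    exact Finset.map_refl)
  mul_smul g h s := Subtype.ext (by
    change s.1.map ((g : Equiv.Perm (Fin 7)) * (h : Equiv.Perm (Fin 7))).toEmbedding =
      (s.1.map (h : Equiv.Perm (Fin 7)).toEmbedding).map (g : Equiv.Perm (Fin 7)).toEmbedding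
    rw [Finset.map_map]
    rfl)

/-- the number of `k`-subsets fixed by a permutation -/
def fx7 (k : ℕ) (g : Equiv.Perm (Fin 7)) : ℕ :=
  ((Finset.univ.powersetCard k).filter fun s : Finset (Fin 7) =>
    s.map g.toEmbedding = s).card

theorem fixp_ks (k : ℕ) (g : alternatingGroup (Fin 7)) :
    fixp (KS k) g = fx7 k (g : Equiv.Perm (Fin 7)) := by
  have hsm : ∀ x : KS k, g • x = x ↔ x.1.map (g : Equiv.Perm (Fin 7)).toEmbedding = x.1 :=
    fun x => ⟨fun h => congrArg Subtype.val h, fun h => Subtype.ext h⟩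
  rw [fixp, fx7, ← Fintype.card_coe, ← Nat.card_eq_fintype_card]
  refine Nat.card_congr ⟨fun x => ⟨x.1.1, ?_⟩, fun s => ⟨⟨s.1, ?_⟩, ?_⟩, fun x => rfl, fun s => rfl⟩
  · rw [Finset.mem_filter, Finset.mem_powersetCard]
    exact ⟨⟨Finset.subset_univ _, x.1.2⟩, (hsm x.1).1 x.2⟩
  · exact (Finset.mem_powersetCard.1 (Finset.mem_filter.1 s.2).1).2
  · exact (hsm _).2 (Finset.mem_filter.1 s.2).2

theorem fx7_conj (k : ℕ) (g τ : Equiv.Perm (Fin 7)) : fx7 k (τ * g * τ⁻¹) = fx7 k g := by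
  rw [fx7, fx7]
  have e : ∀ (a b : Equiv.Perm (Fin 7)) (s : Finset (Fin 7)),
      s.map (a * b).toEmbedding = (s.map b.toEmbedding).map a.toEmbedding := by
    intro a b s
    rw [Finset.map_map]
    rfl
  have e1 : ∀ s : Finset (Fin 7), s.map (1 : Equiv.Perm (Fin 7)).toEmbedding = s :=
    fun s => Finset.map_refl
  refine Finset.card_nbij' (fun s => s.map (τ⁻¹).toEmbedding) (fun s => s.map τ.toEmbedding)
    ?_ ?_ ?_ ?_
  · intro s hs
    rw [Finset.mem_coe, Finset.mem_filter, Finset.mem_powersetCard] at hs ⊢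
    refine ⟨⟨Finset.subset_univ _, by rw [Finset.card_map]; exact hs.1.2⟩, ?_⟩
    dsimp only
    rw [← e]
    have h := congrArg (fun t : Finset (Fin 7) => t.map (τ⁻¹).toEmbedding) hs.2
    rw [← e] at h
    rw [← h]
    congr 2
    group
  · intro s hs
    rw [Finset.mem_coe, Finset.mem_filter, Finset.mem_powersetCard] at hs ⊢
    refine ⟨⟨Finset.subset_univ _, by rw [Finset.card_map]; exact hs.1.2⟩, ?_⟩
    dsimp only
    rw [← e]
    have h := congrArg (fun t : Finset (Fin 7) => t.map τ.toEmbedding) hs.2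
    rw [← e] at h
    rw [← h]
    congr 2
    group
  · intro s _
    dsimp only
    rw [← e, mul_inv_cancel, e1]
  · intro s _
    dsimp only
    rw [← e, inv_mul_cancel, e1]

theorem fx7_inv (k : ℕ) (g : Equiv.Perm (Fin 7)) : fx7 k g⁻¹ = fx7 k g := by
  rw [fx7, fx7]
  have e : ∀ (a b : Equiv.Perm (Fin 7)) (s : Finset (Fin 7)),
      s.map (a * b).toEmbedding = (s.map b.toEmbedding).map a.toEmbedding := by
    intro a b s
    rw [Finset.map_map]
    rfl
  have e1 : ∀ s : Finset (Fin 7), s.map (1 : Equiv.Perm (Fin 7)).toEmbedding = s :=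
    fun s => Finset.map_refl
  congr 1
  refine Finset.filter_congr fun s _ => ⟨fun h => ?_, fun h => ?_⟩
  · have h' := congrArg (fun t : Finset (Fin 7) => t.map g.toEmbedding) h
    rw [← e, mul_inv_cancel, e1] at h'
    exact h'.symm
  · have h' := congrArg (fun t : Finset (Fin 7) => t.map (g⁻¹).toEmbedding) h
    rw [← e, inv_mul_cancel, e1] at h'
    exact h'.symm

theorem fx7_vals : (reps7.map fun p => (fx7 1 p.1, fx7 2 p.1, fx7 3 p.1)) =
    [(7, 21, 35), (3, 5, 7), (4, 6, 5), (1, 0, 2), (1, 1, 1), (2, 1, 0), (0, 2, 1), (0, 0, 0)] := by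
  decide +kernel
/-- degree 6 -/
def c6 (g : Equiv.Perm (Fin 7)) : ℤ := fx7 1 g - 1

/-- degree 14 -/
def c14 (g : Equiv.Perm (Fin 7)) : ℤ := fx7 2 g - fx7 1 g

/-- degree 14 -/
def c14' (g : Equiv.Perm (Fin 7)) : ℤ := fx7 3 g - fx7 2 g

/-- degree 15 -/
def c15 (g : Equiv.Perm (Fin 7)) : ℤ := fx7 1 g * (fx7 1 g - 1) - fx7 2 g - fx7 1 g + 1

/-- degree 35 -/
def c35 (g : Equiv.Perm (Fin 7)) : ℤ := c6 g * c14 g - c6 g - c14 g - c14' g - c15 g

/-- degree 21 -/
def c21 (g : Equiv.Perm (Fin 7)) : ℤ := c6 g * c14' g - c14 g - c14' g - c35 g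

/-- the sum of the two characters of degree 10 -/
def c20 (g : Equiv.Perm (Fin 7)) : ℤ := c6 g * c15 g - c6 g - c14 g - c15 g - c35 g

/-- the rational irreducible characters -/
def irrs7 : List (Equiv.Perm (Fin 7) → ℤ) := [fun _ => 1, c6, c14, c14', c15, c35, c21]

/-- the values -/
theorem irrs7_vals : (reps7.map fun p => irrs7.map fun f => f p.1) =
    [[1, 6, 14, 14, 15, 35, 21], [1, 2, 2, 2, -1, -1, 1], [1, 3, 2, -1, 3, -1, -3],
     [1, 0, -1, 2, 0, -1, 0], [1, 0, 0, 0, -1, 1, -1], [1, 1, -1, -1, 0, 0, 1],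
     [1, -1, 2, -1, -1, -1, 1], [1, -1, 0, 0, 1, 0, 0]] := by
  decide +kernel

theorem c20_vals : (reps7.map fun p => c20 p.1) = [20, -4, 2, 2, 0, 0, 2, -1] := by
  decide +kernel

theorem irrs7_conj : ∀ f ∈ irrs7, ∀ g τ : Equiv.Perm (Fin 7), f (τ * g * τ⁻¹) = f g := by
  intro f hf g τ
  simp only [irrs7, List.mem_cons, List.not_mem_nil, or_false] at hf
  rcases hf with rfl | rfl | rfl | rfl | rfl | rfl | rfl <;>
    simp only [c6, c14, c14', c15, c35, c21, fx7_conj]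

theorem c20_conj : ∀ g τ : Equiv.Perm (Fin 7), c20 (τ * g * τ⁻¹) = c20 g := by
  intro g τ
  simp only [c6, c14, c14', c15, c35, c20, fx7_conj]

theorem irrs7_inv : ∀ f ∈ irrs7, ∀ g : Equiv.Perm (Fin 7), f g⁻¹ = f g := by
  intro f hf g
  simp only [irrs7, List.mem_cons, List.not_mem_nil, or_false] at hf
  rcases hf with rfl | rfl | rfl | rfl | rfl | rfl | rfl <;>
    simp only [c6, c14, c14', c15, c35, c21, fx7_inv]

theorem c20_inv : ∀ g : Equiv.Perm (Fin 7), c20 g⁻¹ = c20 g := by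
  intro g
  simp only [c6, c14, c14', c15, c35, c20, fx7_inv]

/-- as functions on the alternating group -/
def ch7 (Ω : Type) [Field Ω] (f : Equiv.Perm (Fin 7) → ℤ) : alternatingGroup (Fin 7) → Ω :=
  fun g => (f (g : Equiv.Perm (Fin 7)) : Ω)

variable {Ω : Type} [Field Ω] [IsAlgClosed Ω] [CharZero Ω]

theorem ip_ch7 (f f' : Equiv.Perm (Fin 7) → ℤ) (hf : ∀ g τ, f (τ * g * τ⁻¹) = f g)
    (hf' : ∀ g τ, f' (τ * g * τ⁻¹) = f' g) (hi : ∀ g, f' g⁻¹ = f' g) :
    ip (ch7 Ω f) (ch7 Ω f') =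
      (2520 : Ω)⁻¹ * (((reps7.map fun p => (p.2 : ℤ) * (f p.1 * f' p.1)).sum : ℤ) : Ω) := by
  have h1 := sum_class7 (M := ℤ) (fun g => f g * f' g) (fun g τ => by rw [hf, hf'])
  rw [ip_eq, card_a7, ← h1]
  push_cast
  congr 1
  refine Finset.sum_congr rfl fun g _ => ?_
  have h2 : f' ((g⁻¹ : alternatingGroup (Fin 7)) : Equiv.Perm (Fin 7)) = f' g := by
    rw [← hi g]
    rfl
  simp only [ch7]
  rw [h2]

namespace W03_aux

theorem vk (k : ℕ) : Virt (ch7 Ω (fun g => (fx7 k g : ℤ))) := by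
  have h := virt_fixp (Ω := Ω) (G := alternatingGroup (Fin 7)) (KS k)
  have e : ch7 Ω (fun g => (fx7 k g : ℤ)) =
      fun g : alternatingGroup (Fin 7) => (fixp (KS k) g : Ω) := by
    funext g
    rw [fixp_ks, ch7, Int.cast_natCast]
  rw [e]
  exact h

theorem v1 : Virt (ch7 Ω (fun _ => 1)) := by
  have e : ch7 Ω (fun _ => 1) = fun _ : alternatingGroup (Fin 7) => (1 : Ω) := by
    funext g
    rw [ch7, Int.cast_one]
  rw [e]
  exact virt_one

theorem vadd {f f' : Equiv.Perm (Fin 7) → ℤ} (h : Virt (ch7 Ω f)) (h' : Virt (ch7 Ω f')) :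
    Virt (ch7 Ω (fun g => f g + f' g)) := by
  have e : ch7 Ω (fun g => f g + f' g) = ch7 Ω f + ch7 Ω f' := by
    funext g
    rw [Pi.add_apply, ch7, ch7, ch7, Int.cast_add]
  rw [e]
  exact h.add h'

theorem vsub {f f' : Equiv.Perm (Fin 7) → ℤ} (h : Virt (ch7 Ω f)) (h' : Virt (ch7 Ω f')) :
    Virt (ch7 Ω (fun g => f g - f' g)) := by
  have e : ch7 Ω (fun g => f g - f' g) = ch7 Ω f - ch7 Ω f' := by
    funext g
    rw [Pi.sub_apply, ch7, ch7, ch7, Int.cast_sub]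
  rw [e]
  exact h.sub h'

theorem vmul {f f' : Equiv.Perm (Fin 7) → ℤ} (h : Virt (ch7 Ω f)) (h' : Virt (ch7 Ω f')) :
    Virt (ch7 Ω (fun g => f g * f' g)) := by
  have e : ch7 Ω (fun g => f g * f' g) = ch7 Ω f * ch7 Ω f' := by
    funext g
    rw [Pi.mul_apply, ch7, ch7, ch7, Int.cast_mul]
  rw [e]
  exact h.mul h'

theorem v_c6 : Virt (ch7 Ω c6) := vsub (vk 1) v1

theorem v_c14 : Virt (ch7 Ω c14) := vsub (vk 2) (vk 1)

theorem v_c14' : Virt (ch7 Ω c14') := vsub (vk 3) (vk 2)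

theorem v_c15 : Virt (ch7 Ω c15) :=
  vadd (vsub (vsub (vmul (vk 1) (vsub (vk 1) v1)) (vk 2)) (vk 1)) v1

theorem v_c35 : Virt (ch7 Ω c35) :=
  vsub (vsub (vsub (vsub (vmul v_c6 v_c14) v_c6) v_c14) v_c14') v_c15

theorem v_c21 : Virt (ch7 Ω c21) :=
  vsub (vsub (vsub (vmul v_c6 v_c14') v_c14) v_c14') v_c35

theorem v_c20 : Virt (ch7 Ω c20) :=
  vsub (vsub (vsub (vsub (vmul v_c6 v_c15) v_c6) v_c14) v_c15) v_c35

theorem norms : ∀ f ∈ irrs7, (reps7.map fun p => (p.2 : ℤ) * (f p.1 * f p.1)).sum = 2520 := by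
  decide +kernel

theorem degs : ∀ f ∈ irrs7, 0 < f 1 := by
  decide +kernel

theorem norm20 : (reps7.map fun p => (p.2 : ℤ) * (c20 p.1 * c20 p.1)).sum = 5040 := by
  decide +kernel

end W03_aux

theorem irrs7_virt : ∀ f ∈ irrs7, Virt (ch7 Ω f) := by
  intro f hf
  simp only [irrs7, List.mem_cons, List.not_mem_nil, or_false] at hf
  rcases hf with rfl | rfl | rfl | rfl | rfl | rfl | rfl
  · exact W03_aux.v1
  · exact W03_aux.v_c6
  · exact W03_aux.v_c14
  · exact W03_aux.v_c14'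
  · exact W03_aux.v_c15
  · exact W03_aux.v_c35
  · exact W03_aux.v_c21

theorem c20_virt : Virt (ch7 Ω c20) := W03_aux.v_c20

theorem irrs7_irr : ∀ f ∈ irrs7, ch7 Ω f ∈ irr Ω (alternatingGroup (Fin 7)) := by
  intro f hf
  have hd := W03_aux.degs f hf
  have hn : ch7 Ω f 1 = ((f 1).toNat : Ω) := by
    have h1 : (((f 1).toNat : ℤ) : Ω) = ((f 1 : ℤ) : Ω) := by rw [Int.toNat_of_nonneg hd.le]
    rw [Int.cast_natCast] at h1
    rw [h1]
    rfl
  refine (irrs7_virt f hf).irr ?_ hn (by omega)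
  rw [ip_ch7 f f (irrs7_conj f hf) (irrs7_conj f hf) (irrs7_inv f hf), W03_aux.norms f hf]
  norm_num

theorem c20_norm : ip (ch7 Ω c20) (ch7 Ω c20) = 2 := by
  rw [ip_ch7 c20 c20 c20_conj c20_conj c20_inv, W03_aux.norm20]
  norm_num

end

end Parker
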