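import Pool.Agent.Parker.Defs
import Pool.Agent.Parker.P06
import Pool.Agent.Parker.P08
import Pool.Agent.Parker.P09
import Pool.Agent.Parker.P10
import Pool.Agent.Parker.P30
import Pool.Agent.Parker.P31
import Pool.Agent.Parker.W01
import Pool.Agent.Parker.W02
import Pool.Agent.Parker.W03

/-!
# MP_6c3636_al, module W04: (A) and (B) for the alternating group of degree seven (helper7)
-/

namespace Parker

noncomputable section

variable {Ω : Type} [Field Ω] [IsAlgClosed Ω] [CharZero Ω]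

namespace W04_aux

open Classical in
/-- extension by zero to all permutations -/
def ext0 (χ : alternatingGroup (Fin 7) → Ω) (g : Equiv.Perm (Fin 7)) : Ω :=
  if h : g ∈ alternatingGroup (Fin 7) then χ ⟨g, h⟩ else 0

omit [IsAlgClosed Ω] [CharZero Ω] in
theorem ext0_coe (χ : alternatingGroup (Fin 7) → Ω) (g : alternatingGroup (Fin 7)) :
    ext0 χ (g : Equiv.Perm (Fin 7)) = χ g := by
  unfold ext0
  rw [dif_pos g.2]

theorem mem_conj_iff (g τ : Equiv.Perm (Fin 7)) :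
    τ * g * τ⁻¹ ∈ alternatingGroup (Fin 7) ↔ g ∈ alternatingGroup (Fin 7) := by
  rw [Equiv.Perm.mem_alternatingGroup, Equiv.Perm.mem_alternatingGroup, map_mul, map_mul, map_inv]
  constructor
  · intro h
    rwa [mul_comm, ← mul_assoc, inv_mul_cancel, one_mul] at h
  · intro h
    rw [h, mul_one, mul_inv_cancel]

omit [IsAlgClosed Ω] [CharZero Ω] in
theorem ext0_conj {χ : alternatingGroup (Fin 7) → Ω} (hinv : ∀ τ g, χ (cj7 τ g) = χ g)
    (g τ : Equiv.Perm (Fin 7)) : ext0 χ (τ * g * τ⁻¹) = ext0 χ g := by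
  unfold ext0
  by_cases h : g ∈ alternatingGroup (Fin 7)
  · rw [dif_pos h, dif_pos ((mem_conj_iff g τ).2 h)]
    exact hinv τ ⟨g, h⟩
  · rw [dif_neg h, dif_neg (fun h' => h ((mem_conj_iff g τ).1 h'))]

/-- irreducible characters are class functions -/
theorem char_class {χ : alternatingGroup (Fin 7) → Ω} (hχ : χ ∈ irr Ω (alternatingGroup (Fin 7)))
    (g h : alternatingGroup (Fin 7)) : χ (h * g * h⁻¹) = χ g := by
  obtain ⟨n, ρ, -, rfl⟩ := mem_irr.1 hχ
  exact Representation.char_conj ρ g h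

omit [IsAlgClosed Ω] [CharZero Ω] in
theorem sum_eq {χ : alternatingGroup (Fin 7) → Ω} (hinv : ∀ τ g, χ (cj7 τ g) = χ g)
    (f : Equiv.Perm (Fin 7) → ℤ) (hf : ∀ g τ : Equiv.Perm (Fin 7), f (τ * g * τ⁻¹) = f g)
    (hi : ∀ g, f g⁻¹ = f g) :
    ip χ (ch7 Ω f) = (2520 : Ω)⁻¹ *
      (reps7.map fun p => (p.2 : Ω) * (ext0 χ p.1 * (f p.1 : Ω))).sum := by
  rw [ip_eq, card_a7]
  congr 1
  rw [← sum_class7 (fun g => ext0 χ g * (f g : Ω)) (fun g τ => by
    rw [ext0_conj hinv, hf])]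
  refine Finset.sum_congr rfl fun g _ => ?_
  rw [ext0_coe]
  congr 1
  show ((f ((g⁻¹ : alternatingGroup (Fin 7)) : Equiv.Perm (Fin 7)) : ℤ) : Ω) = _
  rw [Subgroup.coe_inv, hi]

end W04_aux

open W04_aux

/-- the self dual irreducible characters: such a character is invariant under conjugation by all
permutations (`inv7`); if it is different from the characters of `irrs7` it is orthogonal to them,
and it is a multiple of `c20` (solve the linear equations for the eight values) -/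
theorem classify7 {χ : alternatingGroup (Fin 7) → Ω}
    (hχ : χ ∈ irr Ω (alternatingGroup (Fin 7))) (hd : ∀ g, χ g⁻¹ = χ g) :
    ∃ f ∈ irrs7, χ = ch7 Ω f := by
  classical
  by_contra hcon
  push Not at hcon
  have hinv : ∀ τ g, χ (cj7 τ g) = χ g := fun τ g =>
    inv7 χ (fun g h => char_class hχ g h) hd τ g
  have h0 : ∀ f ∈ irrs7, ip χ (ch7 Ω f) = 0 := by
    intro f hf
    rw [ip_irr hχ (irrs7_irr f hf), if_neg (hcon f hf)]
  -- the values
  have hv := irrs7_vals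
  have hv20 := c20_vals
  set x : Equiv.Perm (Fin 7) → Ω := ext0 χ with hx
  have hsum : ∀ f ∈ irrs7, (reps7.map fun p => (p.2 : Ω) * (x p.1 * (f p.1 : Ω))).sum = 0 := by
    intro f hf
    have h1 := h0 f hf
    rw [sum_eq hinv f (irrs7_conj f hf) (irrs7_inv f hf)] at h1
    rcases mul_eq_zero.1 h1 with h2 | h2
    · exact absurd h2 (by norm_num)
    · exact h2
  simp only [reps7, irrs7, List.map_cons, List.map_nil, List.cons.injEq, and_true] at hv hv20
  simp only [irrs7, List.mem_cons, List.not_mem_nil, or_false, forall_eq_or_imp, forall_eq,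
    reps7, List.map_cons, List.map_nil, List.sum_cons, List.sum_nil] at hsum
  obtain ⟨e0, e1, e2, e3, e4, e5, e6⟩ := hsum
  obtain ⟨⟨-, a1, a2, a3, a4, a5, a6⟩, ⟨-, b1, b2, b3, b4, b5, b6⟩, ⟨-, c1, c2, c3, c4, c5, c6⟩,
    ⟨-, d1, d2, d3, d4, d5, d6⟩, ⟨-, f1, f2, f3, f4, f5, f6⟩, ⟨-, g1, g2, g3, g4, g5, g6⟩,
    ⟨-, k1, k2, k3, k4, k5, k6⟩, ⟨-, l1, l2, l3, l4, l5, l6⟩⟩ := hv
  obtain ⟨m0, m1, m2, m3, m4, m5, m6, m7⟩ := hv20
  simp only [a1, b1, c1, d1, f1, g1, k1, l1] at e1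
  simp only [a2, b2, c2, d2, f2, g2, k2, l2] at e2
  simp only [a3, b3, c3, d3, f3, g3, k3, l3] at e3
  simp only [a4, b4, c4, d4, f4, g4, k4, l4] at e4
  simp only [a5, b5, c5, d5, f5, g5, k5, l5] at e5
  simp only [a6, b6, c6, d6, f6, g6, k6, l6] at e6
  push_cast at e0 e1 e2 e3 e4 e5 e6
  set X0 : Ω := x (1 : Equiv.Perm (Fin 7)) with hX0
  set X1 : Ω := x (c[0, 1] * c[2, 3]) with hX1
  set X2 : Ω := x c[0, 1, 2] with hX2
  set X3 : Ω := x (c[0, 1, 2] * c[3, 4, 5]) with hX3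
  set X4 : Ω := x (c[0, 1, 2, 3] * c[4, 5]) with hX4
  set X5 : Ω := x c[0, 1, 2, 3, 4] with hX5
  set X6 : Ω := x (c[0, 1, 2] * c[3, 4] * c[5, 6]) with hX6
  set X7 : Ω := x c[0, 1, 2, 3, 4, 5, 6] with hX7
  set a : Ω := (5040 : Ω)⁻¹ * (20 * X0 - 420 * X1 + 140 * X2 + 560 * X3 + 420 * X6 - 720 * X7)
    with ha
  have y0 : X0 = a * (20 : Ω) := by
    rw [ha]
    linear_combination (1 / 2520) * e0 + (6 / 2520) * e1 + (14 / 2520) * e2 + (14 / 2520) * e3 + (15 / 2520) * e4 + (35 / 2520) * e5 + (21 / 2520) * e6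
  have y1 : X1 = a * (-4 : Ω) := by
    rw [ha]
    linear_combination (1 / 2520) * e0 + (2 / 2520) * e1 + (2 / 2520) * e2 + (2 / 2520) * e3 + (-1 / 2520) * e4 + (-1 / 2520) * e5 + (1 / 2520) * e6
  have y2 : X2 = a * (2 : Ω) := by
    rw [ha]
    linear_combination (1 / 2520) * e0 + (3 / 2520) * e1 + (2 / 2520) * e2 + (-1 / 2520) * e3 + (3 / 2520) * e4 + (-1 / 2520) * e5 + (-3 / 2520) * e6
  have y3 : X3 = a * (2 : Ω) := by
    rw [ha]
    linear_combination (1 / 2520) * e0 + (0 / 2520) * e1 + (-1 / 2520) * e2 + (2 / 2520) * e3 + (0 / 2520) * e4 + (-1 / 2520) * e5 + (0 / 2520) * e6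
  have y4 : X4 = a * (0 : Ω) := by
    rw [ha]
    linear_combination (1 / 2520) * e0 + (0 / 2520) * e1 + (0 / 2520) * e2 + (0 / 2520) * e3 + (-1 / 2520) * e4 + (1 / 2520) * e5 + (-1 / 2520) * e6
  have y5 : X5 = a * (0 : Ω) := by
    rw [ha]
    linear_combination (1 / 2520) * e0 + (1 / 2520) * e1 + (-1 / 2520) * e2 + (-1 / 2520) * e3 + (0 / 2520) * e4 + (0 / 2520) * e5 + (1 / 2520) * e6
  have y6 : X6 = a * (2 : Ω) := by
    rw [ha]
    linear_combination (1 / 2520) * e0 + (-1 / 2520) * e1 + (2 / 2520) * e2 + (-1 / 2520) * e3 + (-1 / 2520) * e4 + (-1 / 2520) * e5 + (1 / 2520) * e6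
  have y7 : X7 = a * (-1 : Ω) := by
    rw [ha]
    linear_combination (1 / 2520) * e0 + (-1 / 2520) * e1 + (0 / 2520) * e2 + (0 / 2520) * e3 + (1 / 2520) * e4 + (0 / 2520) * e5 + (0 / 2520) * e6
  have key : χ = a • ch7 Ω c20 := by
    funext g
    obtain ⟨p, hp, τ, hg⟩ := exists_rep7 g g.2
    have h1 : χ g = x p.1 := by
      rw [← ext0_coe χ g, hg, ext0_conj hinv]
    have h2 : c20 (g : Equiv.Perm (Fin 7)) = c20 p.1 := by rw [hg, c20_conj]
    show χ g = a * ((c20 (g : Equiv.Perm (Fin 7)) : ℤ) : Ω)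
    rw [h1, h2]
    simp only [reps7, List.mem_cons, List.not_mem_nil, or_false] at hp
    rcases hp with rfl | rfl | rfl | rfl | rfl | rfl | rfl | rfl
    · show X0 = _
      rw [m0, y0]; push_cast; ring
    · show X1 = _
      rw [m1, y1]; push_cast; ring
    · show X2 = _
      rw [m2, y2]; push_cast; ring
    · show X3 = _
      rw [m3, y3]; push_cast; ring
    · show X4 = _
      rw [m4, y4]; push_cast; ring
    · show X5 = _
      rw [m5, y5]; push_cast; ring
    · show X6 = _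
      rw [m6, y6]; push_cast; ring
    · show X7 = _
      rw [m7, y7]; push_cast; ring
  exact c20_virt.norm_two c20_norm hχ key

theorem W04_aux.val_one : c6 1 = 6 ∧ c14 1 = 14 ∧ c14' 1 = 14 ∧ c15 1 = 15 ∧ c35 1 = 35 ∧
    c21 1 = 21 := by
  have hv := irrs7_vals
  simp only [reps7, irrs7, List.map_cons, List.map_nil, List.cons.injEq, and_true] at hv
  exact hv.1.2

/-- the irreducible characters of even degree -/
theorem even7 {n : ℕ} {ρ : Representation Ω (alternatingGroup (Fin 7)) (Fin n → Ω)}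
    (hρ : ρ.IsIrreducible) (hn : Even n) (hd : SD ρ) :
    (∀ g, ρ.character g = (fixp (KS 1) g : Ω) - 1) ∨
    (∀ g, ρ.character g = (fixp (KS 2) g : Ω) - (fixp (KS 1) g : Ω)) ∨
    (∀ g, ρ.character g = (fixp (KS 3) g : Ω) - (fixp (KS 2) g : Ω)) := by
  obtain ⟨f, hf, hχ⟩ := classify7 (mem_irr.2 (mem_irrSet hρ)) hd
  obtain ⟨v1, v2, v3, v4, v5, v6⟩ := W04_aux.val_one
  have h1 : ρ.character 1 = (n : Ω) := by
    rw [Representation.char_one]; simp
  have h2 : (n : ℤ) = f 1 := by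
    have : (n : Ω) = ((f 1 : ℤ) : Ω) := by
      rw [← h1, hχ]; rfl
    exact_mod_cast this
  have h3 : Even (f 1) := by rw [← h2]; exact_mod_cast hn
  simp only [irrs7, List.mem_cons, List.not_mem_nil, or_false] at hf
  rcases hf with rfl | rfl | rfl | rfl | rfl | rfl | rfl
  · exact absurd h3 (by decide)
  · left
    intro g
    rw [hχ, fixp_ks]
    show ((c6 (g : Equiv.Perm (Fin 7)) : ℤ) : Ω) = _
    rw [c6]; push_cast; ring
  · right; left
    intro g
    rw [hχ, fixp_ks, fixp_ks]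
    show ((c14 (g : Equiv.Perm (Fin 7)) : ℤ) : Ω) = _
    rw [c14]; push_cast; ring
  · right; right
    intro g
    rw [hχ, fixp_ks, fixp_ks]
    show ((c14' (g : Equiv.Perm (Fin 7)) : ℤ) : Ω) = _
    rw [c14']; push_cast; ring
  · rw [v4] at h3; exact absurd h3 (by decide)
  · rw [v5] at h3; exact absurd h3 (by decide)
  · rw [v6] at h3; exact absurd h3 (by decide)

theorem card_ks : Nat.card (KS 1) = 7 ∧ Nat.card (KS 2) = 21 ∧ Nat.card (KS 3) = 35 := by
  have h : ∀ k, Nat.card (KS k) = Nat.choose 7 k := by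
    intro k
    show Nat.card {s : Finset (Fin 7) // s.card = k} = _
    rw [Nat.card_eq_fintype_card, Fintype.card_finset_len, Fintype.card_fin]
  rw [h, h, h]
  decide

/-- the constituents of `fix - 1` for the pairs have the degrees 6 and 14 -/
theorem ks_even : (∀ χ ∈ irr Ω (alternatingGroup (Fin 7)),
      ip (fun g : alternatingGroup (Fin 7) => (fixp (KS 1) g : Ω) - 1) χ ≠ 0 → Even (dg χ)) ∧
    (∀ χ ∈ irr Ω (alternatingGroup (Fin 7)),
      ip (fun g : alternatingGroup (Fin 7) => (fixp (KS 2) g : Ω) - 1) χ ≠ 0 → Even (dg χ)) := by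
  classical
  obtain ⟨v1, v2, v3, v4, v5, v6⟩ := W04_aux.val_one
  have key : ∀ f ∈ irrs7, Even (f 1) → ∀ χ ∈ irr Ω (alternatingGroup (Fin 7)),
      ip (ch7 Ω f) χ ≠ 0 → Even (dg χ) := by
    intro f hf hev χ hχ h
    rw [ip_irr (irrs7_irr f hf) hχ] at h
    split_ifs at h with h1
    · have h2 := (dg_spec hχ).1
      rw [← h1] at h2
      have h3 : ((dg (ch7 Ω f) : ℕ) : Ω) = ((f 1 : ℤ) : Ω) := h2
      have h4 : ((dg (ch7 Ω f) : ℕ) : ℤ) = f 1 := by exact_mod_cast h3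
      rw [← h1]
      have h5 : Even ((dg (ch7 Ω f) : ℕ) : ℤ) := by rw [h4]; exact hev
      exact_mod_cast h5
    · exact absurd rfl h
  have m6 : c6 ∈ irrs7 := by simp [irrs7]
  have m14 : c14 ∈ irrs7 := by simp [irrs7]
  have e1 : (fun g : alternatingGroup (Fin 7) => (fixp (KS 1) g : Ω) - 1) = ch7 Ω c6 := by
    funext g
    rw [fixp_ks]
    show _ = ((c6 (g : Equiv.Perm (Fin 7)) : ℤ) : Ω)
    rw [c6]; push_cast; ring
  have e2 : (fun g : alternatingGroup (Fin 7) => (fixp (KS 2) g : Ω) - 1) =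
      ch7 Ω c14 + ch7 Ω c6 := by
    funext g
    rw [fixp_ks]
    show _ = ((c14 (g : Equiv.Perm (Fin 7)) : ℤ) : Ω) + ((c6 (g : Equiv.Perm (Fin 7)) : ℤ) : Ω)
    rw [c6, c14]; push_cast; ring
  refine ⟨fun χ hχ h => ?_, fun χ hχ h => ?_⟩
  · rw [e1] at h
    exact key c6 m6 (by rw [v1]; decide) χ hχ h
  · rw [e2, ip_add_left] at h
    by_cases h1 : ip (ch7 Ω c14) χ = 0
    · rw [h1, zero_add] at h
      exact key c6 m6 (by rw [v1]; decide) χ hχ h
    · exact key c14 m14 (by rw [v2]; decide) χ hχ h1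

/-- (A), with `good_perm`, `good_perm3` -/
theorem a7_propA (c : Ctx Ω) : PropA c 1 (alternatingGroup (Fin 7)) := by
  obtain ⟨k1, k2, k3⟩ := card_ks
  refine propA_of_good fun Γ hΓ n ρ hρ hn hO hF => ?_
  have hfr : Even (Module.finrank Ω (Fin n → Ω)) := by simpa using hn
  rcases even7 hρ hn (sd_of_orth hO) with h | h | h
  · exact good_perm (KS 1) (by rw [k1]; decide) hρ hfr h
  · exact good_perm3 (KS 2) (KS 1) (by rw [k2]; decide) (by rw [k1]; decide) hρ hfr
      ks_even.1 h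
  · exact good_perm3 (KS 3) (KS 2) (by rw [k3]; decide) (by rw [k2]; decide) hρ hfr
      ks_even.2 h

/-- (B), with `propB_exp4` and `exp_a7` -/
theorem a7_propB (c : Ctx Ω) : PropB c 1 (alternatingGroup (Fin 7)) :=
  propB_exp4 (r := 105) (by decide) exp_a7

end

end Parker
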