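import Mathlib

/-!
# MP_6c3636_al, module X01: `SL_3` over a field, Bruhat decomposition, relations (helper7)
-/

namespace Parker

open Matrix

noncomputable section

variable {F : Type} [Field F]

/-- unitriangular matrices -/
def u3 (x y z : F) : SpecialLinearGroup (Fin 3) F :=
  ⟨!![1, x, z; 0, 1, y; 0, 0, 1], by simp [Matrix.det_fin_three]⟩

/-- the torus -/
def t3 (a b : Fˣ) : SpecialLinearGroup (Fin 3) F :=
  ⟨!![(a : F), 0, 0; 0, (b : F), 0; 0, 0, (((a * b)⁻¹ : Fˣ) : F)], by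
    have h : (a : F) * b ≠ 0 := mul_ne_zero a.ne_zero b.ne_zero
    simp [Matrix.det_fin_three]
    field_simp⟩

/-- simple reflections -/
def s3 (F : Type) [Field F] : SpecialLinearGroup (Fin 3) F :=
  ⟨!![0, 1, 0; -1, 0, 0; 0, 0, 1], by simp [Matrix.det_fin_three]⟩

def r3 (F : Type) [Field F] : SpecialLinearGroup (Fin 3) F :=
  ⟨!![1, 0, 0; 0, 0, 1; 0, -1, 0], by simp [Matrix.det_fin_three]⟩

/-! ## auxiliary lemmas -/

private theorem X01_ext {g h : SpecialLinearGroup (Fin 3) F} (h00 : g.1 0 0 = h.1 0 0)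
    (h01 : g.1 0 1 = h.1 0 1) (h02 : g.1 0 2 = h.1 0 2) (h10 : g.1 1 0 = h.1 1 0)
    (h11 : g.1 1 1 = h.1 1 1) (h12 : g.1 1 2 = h.1 1 2) (h20 : g.1 2 0 = h.1 2 0)
    (h21 : g.1 2 1 = h.1 2 1) (h22 : g.1 2 2 = h.1 2 2) : g = h := by
  refine Matrix.SpecialLinearGroup.ext _ _ (fun i j => ?_)
  fin_cases i <;> fin_cases j
  · exact h00
  · exact h01
  · exact h02
  · exact h10
  · exact h11
  · exact h12
  · exact h20
  · exact h21
  · exact h22

private theorem X01_mul (g h : SpecialLinearGroup (Fin 3) F) (i j : Fin 3) :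
    (g * h).1 i j = g.1 i 0 * h.1 0 j + g.1 i 1 * h.1 1 j + g.1 i 2 * h.1 2 j := by
  rw [Matrix.SpecialLinearGroup.coe_mul, Matrix.mul_apply, Fin.sum_univ_three]

private theorem X01_one (i j : Fin 3) :
    (1 : SpecialLinearGroup (Fin 3) F).1 i j = if i = j then 1 else 0 := by
  rw [Matrix.SpecialLinearGroup.coe_one, Matrix.one_apply]

private theorem X01_det (g : SpecialLinearGroup (Fin 3) F) :
    g.1 0 0 * g.1 1 1 * g.1 2 2 - g.1 0 0 * g.1 1 2 * g.1 2 1 - g.1 0 1 * g.1 1 0 * g.1 2 2 +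
      g.1 0 1 * g.1 1 2 * g.1 2 0 + g.1 0 2 * g.1 1 0 * g.1 2 1 - g.1 0 2 * g.1 1 1 * g.1 2 0
      = 1 := by
  have := g.2
  rw [Matrix.det_fin_three] at this
  exact this

private theorem X01_inv10 (g : SpecialLinearGroup (Fin 3) F) :
    (g⁻¹).1 1 0 = -(g.1 1 0 * g.1 2 2) + g.1 1 2 * g.1 2 0 := by
  rw [Matrix.SpecialLinearGroup.coe_inv, Matrix.adjugate_fin_three]
  rfl

private theorem X01_inv20 (g : SpecialLinearGroup (Fin 3) F) :
    (g⁻¹).1 2 0 = g.1 1 0 * g.1 2 1 - g.1 1 1 * g.1 2 0 := by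
  rw [Matrix.SpecialLinearGroup.coe_inv, Matrix.adjugate_fin_three]
  rfl

private theorem X01_inv21 (g : SpecialLinearGroup (Fin 3) F) :
    (g⁻¹).1 2 1 = -(g.1 0 0 * g.1 2 1) + g.1 0 1 * g.1 2 0 := by
  rw [Matrix.SpecialLinearGroup.coe_inv, Matrix.adjugate_fin_three]
  rfl

section entries

variable (x y z : F) (a b : Fˣ)

private theorem u00 : (u3 x y z).1 0 0 = 1 := rfl
private theorem u01 : (u3 x y z).1 0 1 = x := rfl
private theorem u02 : (u3 x y z).1 0 2 = z := rfl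
private theorem u10 : (u3 x y z).1 1 0 = 0 := rfl
private theorem u11 : (u3 x y z).1 1 1 = 1 := rfl
private theorem u12 : (u3 x y z).1 1 2 = y := rfl
private theorem u20 : (u3 x y z).1 2 0 = 0 := rfl
private theorem u21 : (u3 x y z).1 2 1 = 0 := rfl
private theorem u22 : (u3 x y z).1 2 2 = 1 := rfl
private theorem t00 : (t3 a b).1 0 0 = a := rfl
private theorem t01 : (t3 a b).1 0 1 = 0 := rfl
private theorem t02 : (t3 a b).1 0 2 = 0 := rfl
private theorem t10 : (t3 a b).1 1 0 = 0 := rfl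
private theorem t11 : (t3 a b).1 1 1 = b := rfl
private theorem t12 : (t3 a b).1 1 2 = 0 := rfl
private theorem t20 : (t3 a b).1 2 0 = 0 := rfl
private theorem t21 : (t3 a b).1 2 1 = 0 := rfl
private theorem t22 : (t3 a b).1 2 2 = ((a * b)⁻¹ : Fˣ) := rfl
private theorem s00 : (s3 F).1 0 0 = 0 := rfl
private theorem s01 : (s3 F).1 0 1 = 1 := rfl
private theorem s02 : (s3 F).1 0 2 = 0 := rfl
private theorem s10 : (s3 F).1 1 0 = -1 := rfl
private theorem s11 : (s3 F).1 1 1 = 0 := rfl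
private theorem s12 : (s3 F).1 1 2 = 0 := rfl
private theorem s20 : (s3 F).1 2 0 = 0 := rfl
private theorem s21 : (s3 F).1 2 1 = 0 := rfl
private theorem s22 : (s3 F).1 2 2 = 1 := rfl
private theorem r00 : (r3 F).1 0 0 = 1 := rfl
private theorem r01 : (r3 F).1 0 1 = 0 := rfl
private theorem r02 : (r3 F).1 0 2 = 0 := rfl
private theorem r10 : (r3 F).1 1 0 = 0 := rfl
private theorem r11 : (r3 F).1 1 1 = 0 := rfl
private theorem r12 : (r3 F).1 1 2 = 1 := rfl
private theorem r20 : (r3 F).1 2 0 = 0 := rfl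
private theorem r21 : (r3 F).1 2 1 = -1 := rfl
private theorem r22 : (r3 F).1 2 2 = 0 := rfl

end entries

/-- inverse of `s3` -/
private def si : SpecialLinearGroup (Fin 3) F :=
  ⟨!![0, -1, 0; 1, 0, 0; 0, 0, 1], by simp [Matrix.det_fin_three]⟩

/-- inverse of `r3` -/
private def ri : SpecialLinearGroup (Fin 3) F :=
  ⟨!![1, 0, 0; 0, 0, -1; 0, 1, 0], by simp [Matrix.det_fin_three]⟩

section entries2

private theorem si00 : (si : SpecialLinearGroup (Fin 3) F).1 0 0 = 0 := rfl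
private theorem si01 : (si : SpecialLinearGroup (Fin 3) F).1 0 1 = -1 := rfl
private theorem si02 : (si : SpecialLinearGroup (Fin 3) F).1 0 2 = 0 := rfl
private theorem si10 : (si : SpecialLinearGroup (Fin 3) F).1 1 0 = 1 := rfl
private theorem si11 : (si : SpecialLinearGroup (Fin 3) F).1 1 1 = 0 := rfl
private theorem si12 : (si : SpecialLinearGroup (Fin 3) F).1 1 2 = 0 := rfl
private theorem si20 : (si : SpecialLinearGroup (Fin 3) F).1 2 0 = 0 := rfl
private theorem si21 : (si : SpecialLinearGroup (Fin 3) F).1 2 1 = 0 := rfl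
private theorem si22 : (si : SpecialLinearGroup (Fin 3) F).1 2 2 = 1 := rfl
private theorem ri00 : (ri : SpecialLinearGroup (Fin 3) F).1 0 0 = 1 := rfl
private theorem ri01 : (ri : SpecialLinearGroup (Fin 3) F).1 0 1 = 0 := rfl
private theorem ri02 : (ri : SpecialLinearGroup (Fin 3) F).1 0 2 = 0 := rfl
private theorem ri10 : (ri : SpecialLinearGroup (Fin 3) F).1 1 0 = 0 := rfl
private theorem ri11 : (ri : SpecialLinearGroup (Fin 3) F).1 1 1 = 0 := rfl
private theorem ri12 : (ri : SpecialLinearGroup (Fin 3) F).1 1 2 = -1 := rfl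
private theorem ri20 : (ri : SpecialLinearGroup (Fin 3) F).1 2 0 = 0 := rfl
private theorem ri21 : (ri : SpecialLinearGroup (Fin 3) F).1 2 1 = 1 := rfl
private theorem ri22 : (ri : SpecialLinearGroup (Fin 3) F).1 2 2 = 0 := rfl

end entries2

attribute [local simp] u00 u01 u02 u10 u11 u12 u20 u21 u22
  t00 t01 t02 t10 t11 t12 t20 t21 t22
  s00 s01 s02 s10 s11 s12 s20 s21 s22
  r00 r01 r02 r10 r11 r12 r20 r21 r22
  si00 si01 si02 si10 si11 si12 si20 si21 si22
  ri00 ri01 ri02 ri10 ri11 ri12 ri20 ri21 ri22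

private theorem s3_inv' : (s3 F)⁻¹ = si := by
  apply inv_eq_of_mul_eq_one_right
  apply X01_ext <;> simp [X01_mul, X01_one]

private theorem r3_inv' : (r3 F)⁻¹ = ri := by
  apply inv_eq_of_mul_eq_one_right
  apply X01_ext <;> simp [X01_mul, X01_one]

theorem u3_mul (x y z x' y' z' : F) :
    u3 x y z * u3 x' y' z' = u3 (x + x') (y + y') (z + z' + x * y') := by
  apply X01_ext <;> simp [X01_mul] <;> ring

theorem u3_inv (x y z : F) : (u3 x y z)⁻¹ = u3 (-x) (-y) (-z + x * y) := by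
  apply inv_eq_of_mul_eq_one_right
  apply X01_ext <;> simp [X01_mul, X01_one]

theorem u3_inj {x y z x' y' z' : F} (h : u3 x y z = u3 x' y' z') :
    x = x' ∧ y = y' ∧ z = z' := by
  have h1 := congrArg (fun g : SpecialLinearGroup (Fin 3) F => g.1 0 1) h
  have h2 := congrArg (fun g : SpecialLinearGroup (Fin 3) F => g.1 1 2) h
  have h3 := congrArg (fun g : SpecialLinearGroup (Fin 3) F => g.1 0 2) h
  exact ⟨h1, h2, h3⟩

theorem t3_mul (a b a' b' : Fˣ) : t3 a b * t3 a' b' = t3 (a * a') (b * b') := by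
  apply X01_ext <;> simp [X01_mul]
  ring

theorem t3_inv (a b : Fˣ) : (t3 a b)⁻¹ = t3 a⁻¹ b⁻¹ := by
  apply inv_eq_of_mul_eq_one_right
  rw [t3_mul]
  apply X01_ext <;> simp [X01_one]

theorem t3_u3 (a b : Fˣ) (x y z : F) :
    t3 a b * u3 x y z * (t3 a b)⁻¹ =
      u3 ((a : F) * (b : F)⁻¹ * x) ((a : F) * (b : F) ^ 2 * y) ((a : F) ^ 2 * b * z) := by
  rw [mul_inv_eq_iff_eq_mul]
  have ha : (a : F) ≠ 0 := a.ne_zero
  have hb : (b : F) ≠ 0 := b.ne_zero
  apply X01_ext <;> simp [X01_mul] <;> field_simp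

/-- the Borel subgroup -/
def bor3 (F : Type) [Field F] : Subgroup (SpecialLinearGroup (Fin 3) F) where
  carrier := {g | g.1 1 0 = 0 ∧ g.1 2 0 = 0 ∧ g.1 2 1 = 0}
  mul_mem' := by
    rintro g h ⟨g1, g2, g3⟩ ⟨h1, h2, h3⟩
    simp only [Set.mem_ofPred_eq, X01_mul, g1, g2, g3, h1, h2, h3]
    simp
  one_mem' := by
    simp [X01_one]
  inv_mem' := by
    rintro g ⟨g1, g2, g3⟩
    simp only [Set.mem_ofPred_eq, X01_inv10, X01_inv20, X01_inv21, g1, g2, g3]
    simp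

/-- the unitriangular subgroup -/
def uni3 (F : Type) [Field F] : Subgroup (SpecialLinearGroup (Fin 3) F) where
  carrier := Set.range fun p : F × F × F => u3 p.1 p.2.1 p.2.2
  mul_mem' := by
    rintro _ _ ⟨p, rfl⟩ ⟨p', rfl⟩
    exact ⟨(p.1 + p'.1, p.2.1 + p'.2.1, p.2.2 + p'.2.2 + p.1 * p'.2.1), (u3_mul _ _ _ _ _ _).symm⟩
  one_mem' := ⟨(0, 0, 0), by
    ext i j
    fin_cases i <;> fin_cases j <;> simp [u3]⟩
  inv_mem' := by
    rintro _ ⟨p, rfl⟩
    exact ⟨(-p.1, -p.2.1, -p.2.2 + p.1 * p.2.1), (u3_inv _ _ _).symm⟩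

/-- the stabilizer of the line `⟨e₁⟩` -/
def par1 (F : Type) [Field F] : Subgroup (SpecialLinearGroup (Fin 3) F) where
  carrier := {g | g.1 1 0 = 0 ∧ g.1 2 0 = 0}
  mul_mem' := by
    rintro g h ⟨g1, g2⟩ ⟨h1, h2⟩
    simp only [Set.mem_ofPred_eq, X01_mul, g1, g2, h1, h2]
    simp
  one_mem' := by
    simp [X01_one]
  inv_mem' := by
    rintro g ⟨g1, g2⟩
    simp only [Set.mem_ofPred_eq, X01_inv10, X01_inv20, g1, g2]
    simp

/-- the stabilizer of the plane `⟨e₁, e₂⟩` -/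
def par2 (F : Type) [Field F] : Subgroup (SpecialLinearGroup (Fin 3) F) where
  carrier := {g | g.1 2 0 = 0 ∧ g.1 2 1 = 0}
  mul_mem' := by
    rintro g h ⟨g1, g2⟩ ⟨h1, h2⟩
    simp only [Set.mem_ofPred_eq, X01_mul, g1, g2, h1, h2]
    simp
  one_mem' := by
    simp [X01_one]
  inv_mem' := by
    rintro g ⟨g1, g2⟩
    simp only [Set.mem_ofPred_eq, X01_inv20, X01_inv21, g1, g2]
    simp

private theorem memb {g : SpecialLinearGroup (Fin 3) F} :
    g ∈ bor3 F ↔ g.1 1 0 = 0 ∧ g.1 2 0 = 0 ∧ g.1 2 1 = 0 := Iff.rfl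

private theorem memp1 {g : SpecialLinearGroup (Fin 3) F} :
    g ∈ par1 F ↔ g.1 1 0 = 0 ∧ g.1 2 0 = 0 := Iff.rfl

private theorem memp2 {g : SpecialLinearGroup (Fin 3) F} :
    g ∈ par2 F ↔ g.1 2 0 = 0 ∧ g.1 2 1 = 0 := Iff.rfl

private theorem memu {g : SpecialLinearGroup (Fin 3) F} :
    g ∈ uni3 F ↔ ∃ x y z, g = u3 x y z := by
  constructor
  · rintro ⟨p, rfl⟩
    exact ⟨_, _, _, rfl⟩
  · rintro ⟨x, y, z, rfl⟩
    exact ⟨(x, y, z), rfl⟩

private theorem bdet {g : SpecialLinearGroup (Fin 3) F} (hg : g ∈ bor3 F) :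
    g.1 0 0 * g.1 1 1 * g.1 2 2 = 1 := by
  obtain ⟨h1, h2, h3⟩ := hg
  have := X01_det g
  rw [h1, h2, h3] at this
  linear_combination this

theorem mem_bor3 {g : SpecialLinearGroup (Fin 3) F} :
    g ∈ bor3 F ↔ ∃ x y z a b, g = u3 x y z * t3 a b := by
  constructor
  · intro hg
    have hd := bdet hg
    obtain ⟨h1, h2, h3⟩ := hg
    have h00 : g.1 0 0 ≠ 0 := by
      intro h; rw [h] at hd; simp at hd
    have h11 : g.1 1 1 ≠ 0 := by
      intro h; rw [h] at hd; simp at hd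
    have h22 : g.1 2 2 ≠ 0 := by
      intro h; rw [h] at hd; simp at hd
    refine ⟨g.1 0 1 / g.1 1 1, g.1 1 2 / g.1 2 2, g.1 0 2 / g.1 2 2, Units.mk0 _ h00,
      Units.mk0 _ h11, ?_⟩
    have h4 : g.1 2 2 = (g.1 0 0 * g.1 1 1)⁻¹ := by
      field_simp
      linear_combination hd
    have h5 : (g.1 1 1)⁻¹ * (g.1 0 0)⁻¹ = g.1 2 2 := by
      rw [h4, mul_inv, mul_comm]
    apply X01_ext <;> simp [X01_mul, h1, h2, h3, h5]
    all_goals field_simp
  · rintro ⟨x, y, z, a, b, rfl⟩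
    refine ⟨?_, ?_, ?_⟩ <;> simp [X01_mul]

private theorem uni_le {g : SpecialLinearGroup (Fin 3) F} (hg : g ∈ uni3 F) : g ∈ bor3 F := by
  obtain ⟨x, y, z, rfl⟩ := memu.1 hg
  exact ⟨rfl, rfl, rfl⟩

private theorem bor_p1 {g : SpecialLinearGroup (Fin 3) F} (hg : g ∈ bor3 F) : g ∈ par1 F :=
  ⟨hg.1, hg.2.1⟩

private theorem bor_p2 {g : SpecialLinearGroup (Fin 3) F} (hg : g ∈ bor3 F) : g ∈ par2 F :=
  ⟨hg.2.1, hg.2.2⟩

private theorem u_mem (x y z : F) : u3 x y z ∈ uni3 F := memu.2 ⟨x, y, z, rfl⟩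

private theorem r_p1 : r3 F ∈ par1 F := ⟨rfl, rfl⟩

private theorem s_p2 : s3 F ∈ par2 F := ⟨rfl, rfl⟩

theorem mem_par1 {g : SpecialLinearGroup (Fin 3) F} :
    g ∈ par1 F ↔ g ∈ bor3 F ∨ ∃ y, ∃ b ∈ bor3 F, g = u3 0 y 0 * r3 F * b := by
  constructor
  · intro hg
    by_cases h21 : g.1 2 1 = 0
    · exact Or.inl ⟨hg.1, hg.2, h21⟩
    · refine Or.inr ⟨g.1 1 1 / g.1 2 1, (r3 F)⁻¹ * (u3 0 (g.1 1 1 / g.1 2 1) 0)⁻¹ * g, ?_, ?_⟩
      · obtain ⟨h1, h2⟩ := hg
        rw [r3_inv', u3_inv, memb]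
        simp [X01_mul, h1, h2]
        field_simp
        ring
      · group
  · rintro (hg | ⟨y, b, hb, rfl⟩)
    · exact bor_p1 hg
    · exact mul_mem (mul_mem (bor_p1 (uni_le (u_mem _ _ _))) r_p1) (bor_p1 hb)

theorem mem_par2 {g : SpecialLinearGroup (Fin 3) F} :
    g ∈ par2 F ↔ g ∈ bor3 F ∨ ∃ x, ∃ b ∈ bor3 F, g = u3 x 0 0 * s3 F * b := by
  constructor
  · intro hg
    by_cases h10 : g.1 1 0 = 0
    · exact Or.inl ⟨h10, hg.1, hg.2⟩
    · refine Or.inr ⟨g.1 0 0 / g.1 1 0, (s3 F)⁻¹ * (u3 (g.1 0 0 / g.1 1 0) 0 0)⁻¹ * g, ?_, ?_⟩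
      · obtain ⟨h1, h2⟩ := hg
        rw [s3_inv', u3_inv, memb]
        simp [X01_mul, h1, h2]
        field_simp
        ring
      · group
  · rintro (hg | ⟨y, b, hb, rfl⟩)
    · exact bor_p2 hg
    · exact mul_mem (mul_mem (bor_p2 (uni_le (u_mem _ _ _))) s_p2) (bor_p2 hb)

private theorem X01_dec (w u g : SpecialLinearGroup (Fin 3) F) :
    g = u * w * (w⁻¹ * (u⁻¹ * g)) := by group

/-- Bruhat decomposition -/
theorem bruhat3 (g : SpecialLinearGroup (Fin 3) F) :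
    ∃ u ∈ uni3 F, ∃ b ∈ bor3 F, g = u * b ∨ g = u * s3 F * b ∨ g = u * r3 F * b ∨
      g = u * (s3 F * r3 F) * b ∨ g = u * (r3 F * s3 F) * b ∨ g = u * (s3 F * r3 F * s3 F) * b := by
  by_cases h20 : g.1 2 0 = 0
  · by_cases h10 : g.1 1 0 = 0
    · have hg : g ∈ par1 F := ⟨h10, h20⟩
      rcases mem_par1.1 hg with hg | ⟨y, b, hb, hg⟩
      · exact ⟨1, one_mem _, g, hg, Or.inl (one_mul g).symm⟩
      · exact ⟨_, u_mem 0 y 0, b, hb, Or.inr (Or.inr (Or.inl hg))⟩
    · -- clear the entry (0, 0)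
      set u := u3 (g.1 0 0 / g.1 1 0) 0 0 with hu
      set k := u⁻¹ * g with hk
      have k00 : k.1 0 0 = 0 := by
        rw [hk, hu, u3_inv]; simp [X01_mul]; field_simp; ring
      have k10 : k.1 1 0 = g.1 1 0 := by
        rw [hk, hu, u3_inv]; simp [X01_mul]
      have k20 : k.1 2 0 = 0 := by
        rw [hk, hu, u3_inv]; simp [X01_mul, h20]
      by_cases k21 : k.1 2 1 = 0
      · refine ⟨u, u_mem _ _ _, _, ?_, Or.inr (Or.inl (X01_dec (s3 F) u g))⟩
        rw [← hk, s3_inv', memb]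
        simp [X01_mul, k00, k20, k21]
      · set v := u3 0 0 (k.1 0 1 / k.1 2 1) with hv
        set l := v⁻¹ * k with hl
        have l00 : l.1 0 0 = 0 := by
          rw [hl, hv, u3_inv]; simp [X01_mul, k00, k20]
        have l20 : l.1 2 0 = 0 := by
          rw [hl, hv, u3_inv]; simp [X01_mul, k20]
        have l01 : l.1 0 1 = 0 := by
          rw [hl, hv, u3_inv]; simp [X01_mul]; field_simp; ring
        have hl' : (u * v)⁻¹ * g = l := by rw [hl, hk]; group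
        refine ⟨u * v, mul_mem (u_mem _ _ _) (u_mem _ _ _), _, ?_,
          Or.inr (Or.inr (Or.inr (Or.inl (X01_dec (s3 F * r3 F) (u * v) g))))⟩
        rw [hl', _root_.mul_inv_rev, s3_inv', r3_inv', memb]
        simp [X01_mul, l00, l20, l01]
  · -- clear the entries (0, 0) and (1, 0)
    set u := u3 0 (g.1 1 0 / g.1 2 0) (g.1 0 0 / g.1 2 0) with hu
    set k := u⁻¹ * g with hk
    have k00 : k.1 0 0 = 0 := by
      rw [hk, hu, u3_inv]; simp [X01_mul]; field_simp; ring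
    have k10 : k.1 1 0 = 0 := by
      rw [hk, hu, u3_inv]; simp [X01_mul]; field_simp; ring
    by_cases k11 : k.1 1 1 = 0
    · refine ⟨u, u_mem _ _ _, _, ?_,
        Or.inr (Or.inr (Or.inr (Or.inr (Or.inl (X01_dec (r3 F * s3 F) u g)))))⟩
      rw [← hk, _root_.mul_inv_rev, s3_inv', r3_inv', memb]
      simp [X01_mul, k00, k10, k11]
    · set v := u3 (k.1 0 1 / k.1 1 1) 0 0 with hv
      set l := v⁻¹ * k with hl
      have l00 : l.1 0 0 = 0 := by
        rw [hl, hv, u3_inv]; simp [X01_mul, k00, k10]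
      have l10 : l.1 1 0 = 0 := by
        rw [hl, hv, u3_inv]; simp [X01_mul, k10]
      have l01 : l.1 0 1 = 0 := by
        rw [hl, hv, u3_inv]; simp [X01_mul]; field_simp; ring
      have hl' : (u * v)⁻¹ * g = l := by rw [hl, hk]; group
      refine ⟨u * v, mul_mem (u_mem _ _ _) (u_mem _ _ _), _, ?_,
        Or.inr (Or.inr (Or.inr (Or.inr (Or.inr (X01_dec (s3 F * r3 F * s3 F) (u * v) g)))))⟩
      rw [hl', _root_.mul_inv_rev, _root_.mul_inv_rev, s3_inv', r3_inv', memb]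
      simp [X01_mul, l00, l10, l01]

theorem braid3 : s3 F * r3 F * s3 F = r3 F * s3 F * r3 F := by
  apply X01_ext <;> simp [X01_mul]

theorem s3_sq : s3 F * s3 F = t3 (-1) (-1) := by
  apply X01_ext <;> simp [X01_mul]

theorem r3_sq : r3 F * r3 F = t3 1 (-1) := by
  apply X01_ext <;> simp [X01_mul]

theorem s3_t3 (a b : Fˣ) : s3 F * t3 a b * (s3 F)⁻¹ = t3 b a := by
  rw [mul_inv_eq_iff_eq_mul]
  apply X01_ext <;> simp [X01_mul, mul_comm]

theorem r3_t3 (a b : Fˣ) : r3 F * t3 a b * (r3 F)⁻¹ = t3 a (a * b)⁻¹ := by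
  rw [mul_inv_eq_iff_eq_mul]
  apply X01_ext <;> simp [X01_mul]

theorem s3_u3 (y z : F) : s3 F * u3 0 y z * (s3 F)⁻¹ = u3 0 (-z) y := by
  rw [mul_inv_eq_iff_eq_mul]
  apply X01_ext <;> simp [X01_mul]

theorem r3_u3 (x z : F) : r3 F * u3 x 0 z * (r3 F)⁻¹ = u3 z 0 (-x) := by
  rw [mul_inv_eq_iff_eq_mul]
  apply X01_ext <;> simp [X01_mul]

/-- rank one relation -/
theorem s3_rank_one (x : Fˣ) :
    s3 F * u3 (x : F) 0 0 * (s3 F)⁻¹ =
      u3 (-(x : F)⁻¹) 0 0 * t3 x⁻¹ x * s3 F * u3 (-(x : F)⁻¹) 0 0 := by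
  rw [mul_inv_eq_iff_eq_mul]
  apply X01_ext <;> simp [X01_mul]

theorem r3_rank_one (x : Fˣ) :
    r3 F * u3 0 (x : F) 0 * (r3 F)⁻¹ =
      u3 0 (-(x : F)⁻¹) 0 * t3 1 x⁻¹ * r3 F * u3 0 (-(x : F)⁻¹) 0 := by
  rw [mul_inv_eq_iff_eq_mul]
  apply X01_ext <;> simp [X01_mul]

private theorem uni_iff {g : SpecialLinearGroup (Fin 3) F} :
    g ∈ uni3 F ↔ g ∈ bor3 F ∧ g.1 0 0 = 1 ∧ g.1 1 1 = 1 := by
  constructor
  · intro hg
    refine ⟨uni_le hg, ?_⟩
    obtain ⟨x, y, z, rfl⟩ := memu.1 hg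
    exact ⟨rfl, rfl⟩
  · rintro ⟨hb, h0, h1⟩
    obtain ⟨x, y, z, a, b, rfl⟩ := mem_bor3.1 hb
    simp [X01_mul] at h0 h1
    subst h0
    subst h1
    have : (t3 1 1 : SpecialLinearGroup (Fin 3) F) = 1 := by
      apply X01_ext <;> simp [X01_one]
    rw [this, mul_one]
    exact u_mem _ _ _

private theorem bor_mul00 {g h : SpecialLinearGroup (Fin 3) F} (hh : h ∈ bor3 F) :
    (g * h).1 0 0 = g.1 0 0 * h.1 0 0 := by
  rw [X01_mul, hh.1, hh.2.1]; ring

private theorem bor_mul11 {g h : SpecialLinearGroup (Fin 3) F} (hg : g ∈ bor3 F)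
    (hh : h ∈ bor3 F) : (g * h).1 1 1 = g.1 1 1 * h.1 1 1 := by
  rw [X01_mul, hh.2.2, hg.1]; ring

private theorem bor_inv00 {g : SpecialLinearGroup (Fin 3) F} (hg : g ∈ bor3 F) :
    g.1 0 0 * (g⁻¹).1 0 0 = 1 := by
  rw [← bor_mul00 (inv_mem hg), mul_inv_cancel]; rfl

private theorem bor_inv11 {g : SpecialLinearGroup (Fin 3) F} (hg : g ∈ bor3 F) :
    g.1 1 1 * (g⁻¹).1 1 1 = 1 := by
  rw [← bor_mul11 hg (inv_mem hg), mul_inv_cancel]; rfl

/-- `B / U` is commutative -/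
theorem bor3_comm {a b : SpecialLinearGroup (Fin 3) F} (ha : a ∈ bor3 F) (hb : b ∈ bor3 F) :
    a * b * a⁻¹ * b⁻¹ ∈ uni3 F := by
  rw [uni_iff]
  refine ⟨mul_mem (mul_mem (mul_mem ha hb) (inv_mem ha)) (inv_mem hb), ?_, ?_⟩
  · rw [bor_mul00 (inv_mem hb), bor_mul00 (inv_mem ha), bor_mul00 hb]
    have h1 := bor_inv00 ha
    have h2 := bor_inv00 hb
    linear_combination h1 + (a.1 0 0 * (a⁻¹).1 0 0) * h2
  · rw [bor_mul11 (mul_mem (mul_mem ha hb) (inv_mem ha)) (inv_mem hb),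
      bor_mul11 (mul_mem ha hb) (inv_mem ha), bor_mul11 ha hb]
    have h1 := bor_inv11 ha
    have h2 := bor_inv11 hb
    linear_combination h1 + (a.1 1 1 * (a⁻¹).1 1 1) * h2

theorem uni3_le : uni3 F ≤ bor3 F := fun _ hg => uni_le hg

/-- `U` is normal in `B` -/
theorem bor3_norm {b u : SpecialLinearGroup (Fin 3) F} (hb : b ∈ bor3 F) (hu : u ∈ uni3 F) :
    b * u * b⁻¹ ∈ uni3 F := by
  have hu' := uni_iff.1 hu
  rw [uni_iff]
  refine ⟨mul_mem (mul_mem hb hu'.1) (inv_mem hb), ?_, ?_⟩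
  · rw [bor_mul00 (inv_mem hb), bor_mul00 hu'.1, hu'.2.1, mul_one, bor_inv00 hb]
  · rw [bor_mul11 (mul_mem hb hu'.1) (inv_mem hb), bor_mul11 hb hu'.1, hu'.2.2, mul_one,
      bor_inv11 hb]

theorem bor3_solvable : Group.IsSolvable (bor3 F) := by
  refine ⟨3, ?_⟩
  have h1 : derivedSeries (bor3 F) 1 ≤ (uni3 F).subgroupOf (bor3 F) := by
    rw [derivedSeries_succ, Subgroup.commutator_le]
    intro a _ b _
    rw [Subgroup.mem_subgroupOf]
    exact bor3_comm a.2 b.2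
  set Z : Subgroup (bor3 F) :=
    { carrier := {g | ∃ z, (g : SpecialLinearGroup (Fin 3) F) = u3 0 0 z}
      mul_mem' := by
        rintro a b ⟨z, hz⟩ ⟨z', hz'⟩
        exact ⟨z + z', by rw [Subgroup.coe_mul, hz, hz', u3_mul]; simp⟩
      one_mem' := ⟨0, by
        apply X01_ext <;> simp [X01_one]⟩
      inv_mem' := by
        rintro a ⟨z, hz⟩
        exact ⟨-z, by rw [Subgroup.coe_inv, hz, u3_inv]; simp⟩ } with hZ
  have h2 : derivedSeries (bor3 F) 2 ≤ Z := by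
    rw [derivedSeries_succ, Subgroup.commutator_le]
    intro a ha b hb
    obtain ⟨x, y, z, ha'⟩ := memu.1 ((Subgroup.mem_subgroupOf).1 (h1 ha))
    obtain ⟨x', y', z', hb'⟩ := memu.1 ((Subgroup.mem_subgroupOf).1 (h1 hb))
    refine ⟨x * y' - x' * y, ?_⟩
    rw [commutatorElement_def, Subgroup.coe_mul, Subgroup.coe_mul, Subgroup.coe_mul,
      Subgroup.coe_inv, Subgroup.coe_inv, ha', hb', u3_inv, u3_inv, u3_mul, u3_mul, u3_mul]
    congr 1 <;> ring
  rw [derivedSeries_succ, eq_bot_iff, Subgroup.commutator_le]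
  intro a ha b hb
  obtain ⟨z, ha'⟩ := h2 ha
  obtain ⟨z', hb'⟩ := h2 hb
  rw [Subgroup.mem_bot]
  apply Subtype.ext
  rw [commutatorElement_def, Subgroup.coe_mul, Subgroup.coe_mul, Subgroup.coe_mul,
    Subgroup.coe_inv, Subgroup.coe_inv, ha', hb', u3_inv, u3_inv, u3_mul, u3_mul, u3_mul]
  apply X01_ext <;> simp [X01_one]

theorem bor3_ne_top : bor3 F ≠ ⊤ := by
  intro h
  have h1 : s3 F ∈ bor3 F := by rw [h]; trivial
  have h2 := h1.1
  simp at h2

theorem par1_ne_top : par1 F ≠ ⊤ := by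
  intro h
  have h1 : s3 F ∈ par1 F := by rw [h]; trivial
  have h2 := h1.1
  simp at h2

theorem par2_ne_top : par2 F ≠ ⊤ := by
  intro h
  have h1 : r3 F ∈ par2 F := by rw [h]; trivial
  have h2 := h1.2
  simp at h2

theorem card_uni3 : Nat.card (uni3 F) = Nat.card F ^ 3 := by
  have e : F × F × F ≃ uni3 F := by
    refine Equiv.ofBijective (fun p => ⟨u3 p.1 p.2.1 p.2.2, u_mem _ _ _⟩) ⟨?_, ?_⟩
    · rintro ⟨x, y, z⟩ ⟨x', y', z'⟩ h
      obtain ⟨h1, h2, h3⟩ := u3_inj (Subtype.ext_iff.1 h)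
      simp only at h1 h2 h3
      rw [h1, h2, h3]
    · rintro ⟨g, hg⟩
      obtain ⟨x, y, z, rfl⟩ := memu.1 hg
      exact ⟨(x, y, z), rfl⟩
  rw [← Nat.card_congr e, Nat.card_prod, Nat.card_prod]
  ring

private theorem two_trans_of {G : Type} [Group G] (P : Subgroup G) (w : G)
    (h : ∀ k : G, k ∉ P → ∃ p ∈ P, ∃ p' ∈ P, k = p * w * p') :
    ∀ x y x' y' : G ⧸ P, x ≠ y → x' ≠ y' → ∃ g : G, g • x = x' ∧ g • y = y' := by
  have key : ∀ x y : G ⧸ P, x ≠ y → ∃ m : G, m • ((1 : G) : G ⧸ P) = x ∧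
      m • ((w : G) : G ⧸ P) = y := by
    intro x y hxy
    induction x using QuotientGroup.induction_on with | _ a => ?_
    induction y using QuotientGroup.induction_on with | _ b => ?_
    have hk : a⁻¹ * b ∉ P := fun hk => hxy (QuotientGroup.eq.2 hk)
    obtain ⟨p, hp, p', hp', hk⟩ := h _ hk
    refine ⟨a * p, ?_, ?_⟩
    · rw [MulAction.Quotient.smul_coe, smul_eq_mul, mul_one, QuotientGroup.eq]
      have : (a * p)⁻¹ * a = p⁻¹ := by group
      rw [this]
      exact inv_mem hp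
    · rw [MulAction.Quotient.smul_coe, smul_eq_mul, QuotientGroup.eq]
      have : (a * p * w)⁻¹ * b = p' := by
        have hb : b = a * (p * w * p') := by rw [← hk]; group
        rw [hb]; group
      rw [this]
      exact hp'
  intro x y x' y' hxy hxy'
  obtain ⟨m, hm1, hm2⟩ := key x y hxy
  obtain ⟨m', hm1', hm2'⟩ := key x' y' hxy'
  refine ⟨m' * m⁻¹, ?_, ?_⟩
  · rw [mul_smul, ← hm1, inv_smul_smul, hm1']
  · rw [mul_smul, ← hm2, inv_smul_smul, hm2']

/-- doubly transitive on the points and on the lines of the projective plane -/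
theorem par1_two_trans : ∀ x y x' y' : SpecialLinearGroup (Fin 3) F ⧸ par1 F,
    x ≠ y → x' ≠ y' → ∃ g : SpecialLinearGroup (Fin 3) F, g • x = x' ∧ g • y = y' := by
  refine two_trans_of (par1 F) (s3 F) (fun k hk => ?_)
  obtain ⟨u, hu, b, hb, h | h | h | h | h | h⟩ := bruhat3 k
  · exact absurd (h ▸ mul_mem (bor_p1 (uni_le hu)) (bor_p1 hb)) hk
  · exact ⟨u, bor_p1 (uni_le hu), b, bor_p1 hb, h⟩
  · exact absurd (h ▸ mul_mem (mul_mem (bor_p1 (uni_le hu)) r_p1) (bor_p1 hb)) hk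
  · exact ⟨u, bor_p1 (uni_le hu), r3 F * b, mul_mem r_p1 (bor_p1 hb), by rw [h]; group⟩
  · exact ⟨u * r3 F, mul_mem (bor_p1 (uni_le hu)) r_p1, b, bor_p1 hb, by rw [h]; group⟩
  · rw [braid3] at h
    exact ⟨u * r3 F, mul_mem (bor_p1 (uni_le hu)) r_p1, r3 F * b, mul_mem r_p1 (bor_p1 hb),
      by rw [h]; group⟩

theorem par2_two_trans : ∀ x y x' y' : SpecialLinearGroup (Fin 3) F ⧸ par2 F,
    x ≠ y → x' ≠ y' → ∃ g : SpecialLinearGroup (Fin 3) F, g • x = x' ∧ g • y = y' := by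
  refine two_trans_of (par2 F) (r3 F) (fun k hk => ?_)
  obtain ⟨u, hu, b, hb, h | h | h | h | h | h⟩ := bruhat3 k
  · exact absurd (h ▸ mul_mem (bor_p2 (uni_le hu)) (bor_p2 hb)) hk
  · exact absurd (h ▸ mul_mem (mul_mem (bor_p2 (uni_le hu)) s_p2) (bor_p2 hb)) hk
  · exact ⟨u, bor_p2 (uni_le hu), b, bor_p2 hb, h⟩
  · exact ⟨u * s3 F, mul_mem (bor_p2 (uni_le hu)) s_p2, b, bor_p2 hb, by rw [h]; group⟩
  · exact ⟨u, bor_p2 (uni_le hu), s3 F * b, mul_mem s_p2 (bor_p2 hb), by rw [h]; group⟩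
  · exact ⟨u * s3 F, mul_mem (bor_p2 (uni_le hu)) s_p2, s3 F * b, mul_mem s_p2 (bor_p2 hb),
      by rw [h]; group⟩

/-- two cosets of `par1` agree iff the first columns are proportional -/
private theorem coset_p1 (g h : SpecialLinearGroup (Fin 3) F) :
    (g : SpecialLinearGroup (Fin 3) F ⧸ par1 F) = h ↔
      ∃ c : F, ∀ i, h.1 i 0 = c * g.1 i 0 := by
  rw [QuotientGroup.eq]
  constructor
  · intro hm
    refine ⟨(g⁻¹ * h).1 0 0, fun i => ?_⟩
    have h1 : h = g * (g⁻¹ * h) := by group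
    conv_lhs => rw [h1]
    rw [X01_mul, hm.1, hm.2]
    ring
  · rintro ⟨c, hc⟩
    have h2 : ∀ i, (g⁻¹ * h).1 i 0 = c * (g⁻¹ * g).1 i 0 := by
      intro i
      rw [X01_mul, X01_mul, hc 0, hc 1, hc 2]
      ring
    rw [inv_mul_cancel] at h2
    refine ⟨?_, ?_⟩
    · rw [h2 1, X01_one]; simp
    · rw [h2 2, X01_one]; simp

theorem card_quot_par1 [Finite F] :
    Nat.card (SpecialLinearGroup (Fin 3) F ⧸ par1 F) = Nat.card F ^ 2 + Nat.card F + 1 := by
  classical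
  have e : (F × F) ⊕ (F ⊕ Unit) ≃ (SpecialLinearGroup (Fin 3) F ⧸ par1 F) := by
    refine Equiv.ofBijective (fun p => match p with
      | Sum.inl p => ((u3 0 p.2 p.1 * r3 F * s3 F : SpecialLinearGroup (Fin 3) F) :
          SpecialLinearGroup (Fin 3) F ⧸ par1 F)
      | Sum.inr (Sum.inl x) => ((u3 x 0 0 * s3 F : SpecialLinearGroup (Fin 3) F) :
          SpecialLinearGroup (Fin 3) F ⧸ par1 F)
      | Sum.inr (Sum.inr _) => ((1 : SpecialLinearGroup (Fin 3) F) :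
          SpecialLinearGroup (Fin 3) F ⧸ par1 F)) ⟨?_, ?_⟩
    · rintro (⟨x, y⟩ | x | x) (⟨x', y'⟩ | x' | x') h
      · obtain ⟨c, hc⟩ := (coset_p1 _ _).1 h
        have h0 := hc 0
        have h1 := hc 1
        have h2 := hc 2
        simp [X01_mul] at h0 h1 h2
        subst h2
        rw [h0, h1]
        simp
      · obtain ⟨c, hc⟩ := (coset_p1 _ _).1 h
        have h1 := hc 1
        have h2 := hc 2
        simp [X01_mul] at h1 h2
        subst h2
        simp at h1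
      · obtain ⟨c, hc⟩ := (coset_p1 _ _).1 h
        have h0 := hc 0
        have h2 := hc 2
        simp [X01_mul, X01_one] at h0 h2
        subst h2
        simp at h0
      · obtain ⟨c, hc⟩ := (coset_p1 _ _).1 h
        have h2 := hc 2
        simp [X01_mul] at h2
      · obtain ⟨c, hc⟩ := (coset_p1 _ _).1 h
        have h0 := hc 0
        have h1 := hc 1
        simp [X01_mul] at h0 h1
        subst h1
        simp at h0
        rw [h0]
      · obtain ⟨c, hc⟩ := (coset_p1 _ _).1 h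
        have h0 := hc 0
        have h1 := hc 1
        simp [X01_mul, X01_one] at h0 h1
        subst h1
        simp at h0
      · obtain ⟨c, hc⟩ := (coset_p1 _ _).1 h
        have h2 := hc 2
        simp [X01_mul, X01_one] at h2
      · obtain ⟨c, hc⟩ := (coset_p1 _ _).1 h
        have h1 := hc 1
        simp [X01_mul, X01_one] at h1
      · rfl
    · intro x
      induction x using QuotientGroup.induction_on with | _ g => ?_
      by_cases h2 : g.1 2 0 = 0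
      · by_cases h1 : g.1 1 0 = 0
        · refine ⟨Sum.inr (Sum.inr ()), ?_⟩
          refine (coset_p1 _ _).2 ⟨g.1 0 0, fun i => ?_⟩
          fin_cases i
          · simp [X01_one]
          · simp [X01_one, h1]
          · simp [X01_one, h2]
        · refine ⟨Sum.inr (Sum.inl (g.1 0 0 / g.1 1 0)), ?_⟩
          refine (coset_p1 _ _).2 ⟨-g.1 1 0, fun i => ?_⟩
          fin_cases i
          · simp [X01_mul]
            field_simp
          · simp [X01_mul]
          · simp [X01_mul, h2]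
      · refine ⟨Sum.inl (g.1 0 0 / g.1 2 0, g.1 1 0 / g.1 2 0), ?_⟩
        refine (coset_p1 _ _).2 ⟨g.1 2 0, fun i => ?_⟩
        fin_cases i
        · simp [X01_mul]
          field_simp
        · simp [X01_mul]
          field_simp
        · simp [X01_mul]
  rw [← Nat.card_congr e, Nat.card_sum, Nat.card_prod, Nat.card_sum, Nat.card_unique (α := Unit)]
  ring

/-- the duality -/
private def dual3 : SpecialLinearGroup (Fin 3) F →* SpecialLinearGroup (Fin 3) F where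
  toFun g := (s3 F * r3 F * s3 F) * (g⁻¹).transpose * (s3 F * r3 F * s3 F)⁻¹
  map_one' := by
    have : ((1 : SpecialLinearGroup (Fin 3) F)⁻¹).transpose = 1 := by
      rw [inv_one]
      apply X01_ext <;> simp [X01_one, Matrix.SpecialLinearGroup.transpose]
    rw [this, mul_one, mul_inv_cancel]
  map_mul' g h := by
    have : ((g * h)⁻¹).transpose = (g⁻¹).transpose * (h⁻¹).transpose := by
      apply Subtype.ext
      rw [Matrix.SpecialLinearGroup.coe_mul, Matrix.SpecialLinearGroup.coe_transpose,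
        Matrix.SpecialLinearGroup.coe_transpose, Matrix.SpecialLinearGroup.coe_transpose,
        _root_.mul_inv_rev, Matrix.SpecialLinearGroup.coe_mul, Matrix.transpose_mul]
    rw [this]
    group

private theorem dual3_surj : Function.Surjective (dual3 (F := F)) := by
  intro g
  set J := s3 F * r3 F * s3 F with hJ
  refine ⟨((J⁻¹ * g * J).transpose)⁻¹, ?_⟩
  show J * ((((J⁻¹ * g * J).transpose)⁻¹)⁻¹).transpose * J⁻¹ = g
  rw [inv_inv]
  have : ((J⁻¹ * g * J).transpose).transpose = J⁻¹ * g * J := by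
    apply Subtype.ext
    rw [Matrix.SpecialLinearGroup.coe_transpose, Matrix.SpecialLinearGroup.coe_transpose,
      Matrix.transpose_transpose]
  rw [this]
  group

theorem card_quot_par2 [Finite F] :
    Nat.card (SpecialLinearGroup (Fin 3) F ⧸ par2 F) = Nat.card F ^ 2 + Nat.card F + 1 := by
  have h1 : par2 F = (par1 F).comap dual3 := by
    ext g
    rw [Subgroup.mem_comap, ← inv_mem_iff (H := par2 F)]
    have ht : ∀ (k : SpecialLinearGroup (Fin 3) F) (i j : Fin 3), (k.transpose).1 i j = k.1 j i :=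
      fun k i j => rfl
    have h10 : (dual3 g).1 1 0 = -(g⁻¹).1 2 1 := by
      show ((s3 F * r3 F * s3 F) * (g⁻¹).transpose * (s3 F * r3 F * s3 F)⁻¹).1 1 0 = _
      rw [_root_.mul_inv_rev, _root_.mul_inv_rev, s3_inv', r3_inv']
      simp [X01_mul, ht]
    have h20 : (dual3 g).1 2 0 = (g⁻¹).1 2 0 := by
      show ((s3 F * r3 F * s3 F) * (g⁻¹).transpose * (s3 F * r3 F * s3 F)⁻¹).1 2 0 = _
      rw [_root_.mul_inv_rev, _root_.mul_inv_rev, s3_inv', r3_inv']
      simp [X01_mul, ht]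
    rw [memp1, memp2, h10, h20, neg_eq_zero]
    exact And.comm
  rw [← card_quot_par1]
  show (par2 F).index = (par1 F).index
  rw [h1, Subgroup.index_comap_of_surjective _ dual3_surj]

end

end Parker
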