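import Pool.Agent.Parker.Defs
import Pool.Agent.Parker.P01
import Pool.Agent.Parker.P08
import Pool.Agent.Parker.P32
import Pool.Agent.Parker.X01

/-!
# MP_6c3636_al, module X02: the operators `E_s = e_U s`, `E_r = e_U r` on representations of
`SL_3(q)` (helper7)
-/

namespace Parker

open Matrix

universe v

noncomputable section

variable {F : Type} [Field F] [Fintype F] {Ω : Type} [Field Ω] [IsAlgClosed Ω] [CharZero Ω]
  {V : Type v} [AddCommGroup V] [Module Ω V] [FiniteDimensional Ω V]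
  {ρ : Representation Ω (SpecialLinearGroup (Fin 3) F) V}

/-- `v` is fixed by `U` -/
def UFix (ρ : Representation Ω (SpecialLinearGroup (Fin 3) F) V) (v : V) : Prop :=
  ∀ u ∈ uni3 F, ρ u v = v

/-- the torus acts on `v` through `lam` -/
def TChar (ρ : Representation Ω (SpecialLinearGroup (Fin 3) F) V) (lam : Fˣ → Fˣ → Ω) (v : V) :
    Prop := ∀ a b, ρ (t3 a b) v = lam a b • v

/-- `E_s = e_U s` -/
def Es (ρ : Representation Ω (SpecialLinearGroup (Fin 3) F) V) : Module.End Ω V :=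
  av_idem (uni3 F) ρ * ρ (s3 F)

/-- `E_r = e_U r` -/
def Er (ρ : Representation Ω (SpecialLinearGroup (Fin 3) F) V) : Module.End Ω V :=
  av_idem (uni3 F) ρ * ρ (r3 F)

theorem uFix_av (x : V) : UFix ρ (av_idem (uni3 F) ρ x) := by
  intro u hu
  exact (P32_aux.av_proj (uni3 F) ρ).map_mem x ⟨u, hu⟩

theorem av_of_uFix {x : V} (h : UFix ρ x) : av_idem (uni3 F) ρ x = x :=
  (P32_aux.av_proj (uni3 F) ρ).map_id x (fun u => h u.1 u.2)

namespace X02_aux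

theorem ρmul (g h : SpecialLinearGroup (Fin 3) F) (x : V) : ρ (g * h) x = ρ g (ρ h x) := by
  rw [map_mul, Module.End.mul_apply]

theorem av_conj (t : SpecialLinearGroup (Fin 3) F)
    (hn : ∀ u : SpecialLinearGroup (Fin 3) F, u ∈ uni3 F ↔ t * u * t⁻¹ ∈ uni3 F) (x : V) :
    av_idem (uni3 F) ρ (ρ t x) = ρ t (av_idem (uni3 F) ρ x) := by
  have h := congrArg (fun T : Module.End Ω V => T x) (P32_aux.av_comm (uni3 F) ρ t hn)
  exact h.symm

end X02_aux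

open X02_aux

theorem av_mul_u {u : SpecialLinearGroup (Fin 3) F} (hu : u ∈ uni3 F) (x : V) :
    av_idem (uni3 F) ρ (ρ u x) = av_idem (uni3 F) ρ x := by
  rw [av_conj u, uFix_av x u hu]
  intro w
  constructor
  · intro hw
    exact (uni3 F).mul_mem ((uni3 F).mul_mem hu hw) ((uni3 F).inv_mem hu)
  · intro hw
    have h1 := (uni3 F).mul_mem ((uni3 F).mul_mem ((uni3 F).inv_mem hu) hw) hu
    have h2 : u⁻¹ * (u * w * u⁻¹) * u = w := by group
    rwa [h2] at h1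

theorem uFix_Es (x : V) : UFix ρ (Es ρ x) := uFix_av _

theorem uFix_Er (x : V) : UFix ρ (Er ρ x) := uFix_av _

namespace X02_aux

theorem u3_mem (x y z : F) : u3 x y z ∈ uni3 F := ⟨(x, y, z), rfl⟩

theorem t3_norm (a b : Fˣ) (u : SpecialLinearGroup (Fin 3) F) :
    u ∈ uni3 F ↔ t3 a b * u * (t3 a b)⁻¹ ∈ uni3 F := by
  constructor
  · rintro ⟨⟨x, y, z⟩, rfl⟩
    rw [t3_u3]
    exact u3_mem _ _ _
  · intro h
    have key : ∀ (a b : Fˣ) (w : SpecialLinearGroup (Fin 3) F), w ∈ uni3 F →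
        t3 a b * w * (t3 a b)⁻¹ ∈ uni3 F := by
      rintro a b _ ⟨⟨x, y, z⟩, rfl⟩
      rw [t3_u3]
      exact u3_mem _ _ _
    have h1 := key a⁻¹ b⁻¹ _ h
    rw [← t3_inv, inv_inv] at h1
    have h2 : (t3 a b)⁻¹ * (t3 a b * u * (t3 a b)⁻¹) * t3 a b = u := by group
    rwa [h2] at h1

/-- the unipotent elements are parametrised by `F × F × F` -/
theorem av_eq (x : V) : av_idem (uni3 F) ρ x =
    ((Fintype.card F : Ω)⁻¹) ^ 3 • ∑ p : F × F × F, ρ (u3 p.1 p.2.1 p.2.2) x := by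
  classical
  let _ := Fintype.ofFinite (uni3 F)
  have hbij : Function.Bijective (fun p : F × F × F => (⟨u3 p.1 p.2.1 p.2.2, u3_mem _ _ _⟩ :
      uni3 F)) := by
    constructor
    · rintro ⟨x, y, z⟩ ⟨x', y', z'⟩ h
      obtain ⟨h1, h2, h3⟩ := u3_inj (congrArg Subtype.val h)
      subst h1; subst h2; subst h3
      rfl
    · rintro ⟨_, ⟨p, rfl⟩⟩
      exact ⟨p, rfl⟩
  have hcard : (Nat.card (uni3 F) : Ω) = (Fintype.card F : Ω) ^ 3 := by
    rw [card_uni3, Nat.card_eq_fintype_card]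
    push_cast
    rfl
  rw [av_idem, act_eq, LinearMap.sum_apply, Finset.smul_sum,
    ← Equiv.sum_comp (Equiv.ofBijective _ hbij)]
  refine Finset.sum_congr rfl fun p _ => ?_
  rw [LinearMap.smul_apply, hcard, inv_pow]
  rfl

theorem card_ne : (Fintype.card F : Ω) ≠ 0 := by
  exact_mod_cast Fintype.card_ne_zero

theorem u3_s3 (y z : F) : u3 0 y z * s3 F = s3 F * u3 0 z (-y) := by
  have h := s3_u3 z (-y)
  rw [neg_neg] at h
  rw [← h]
  group

theorem u3_r3 (x z : F) : u3 x 0 z * r3 F = r3 F * u3 (-z) 0 x := by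
  have h := r3_u3 (-z) x
  rw [neg_neg] at h
  rw [← h]
  group

theorem s3_u3' (y z : F) : s3 F * u3 0 y z = u3 0 (-z) y * s3 F := by
  rw [← s3_u3]
  group

theorem r3_u3' (x z : F) : r3 F * u3 x 0 z = u3 z 0 (-x) * r3 F := by
  rw [← r3_u3]
  group

theorem t3_s3 (a b : Fˣ) : t3 a b * s3 F = s3 F * t3 b a := by
  rw [← s3_t3 b a]
  group

theorem t3_r3 (a b : Fˣ) : t3 a b * r3 F = r3 F * t3 a (a * b)⁻¹ := by
  have h := r3_t3 a (a * b)⁻¹
  have h2 : (a * (a * b)⁻¹)⁻¹ = b := by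
    rw [_root_.mul_inv_rev, inv_inv, mul_comm a b, mul_inv_cancel_right]
  rw [h2] at h
  rw [← h]
  group

end X02_aux

/-- `E_s v = q⁻¹ ∑_x u(x,0,0) s v` for `v ∈ V^U` (`s` normalizes `{u(0,y,z)}`) -/
theorem Es_eq {v : V} (h : UFix ρ v) :
    Es ρ v = (Fintype.card F : Ω)⁻¹ • ∑ x : F, ρ (u3 x 0 0 * s3 F) v := by
  have hq : (Fintype.card F : Ω) ≠ 0 := card_ne
  rw [Es, Module.End.mul_apply, av_eq, Fintype.sum_prod_type]
  have h1 : ∀ x : F, ∑ p : F × F, ρ (u3 x p.1 p.2) (ρ (s3 F) v) =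
      ((Fintype.card F : Ω) ^ 2) • ρ (u3 x 0 0 * s3 F) v := by
    intro x
    have h2 : ∀ p : F × F, ρ (u3 x p.1 p.2) (ρ (s3 F) v) = ρ (u3 x 0 0 * s3 F) v := by
      rintro ⟨y, z⟩
      have h3 : u3 x y z = u3 x 0 0 * u3 0 y (z - x * y) := by
        rw [u3_mul]
        congr 1 <;> ring
      dsimp only
      rw [h3, ← ρmul, mul_assoc, u3_s3, ← mul_assoc, ρmul, h _ (u3_mem _ _ _)]
    rw [Finset.sum_congr rfl (fun p _ => h2 p), Finset.sum_const, Finset.card_univ,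
      Fintype.card_prod, ← Nat.cast_smul_eq_nsmul Ω]
    push_cast
    rw [sq]
  rw [Finset.sum_congr rfl (fun x _ => h1 x), ← Finset.smul_sum, smul_smul]
  congr 1
  field_simp

theorem Er_eq {v : V} (h : UFix ρ v) :
    Er ρ v = (Fintype.card F : Ω)⁻¹ • ∑ y : F, ρ (u3 0 y 0 * r3 F) v := by
  have hq : (Fintype.card F : Ω) ≠ 0 := card_ne
  rw [Er, Module.End.mul_apply, av_eq, Fintype.sum_prod_type]
  have h1 : ∀ x : F, ∑ p : F × F, ρ (u3 x p.1 p.2) (ρ (r3 F) v) =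
      (Fintype.card F : Ω) • ∑ y : F, ρ (u3 0 y 0 * r3 F) v := by
    intro x
    rw [Fintype.sum_prod_type, Finset.smul_sum]
    refine Finset.sum_congr rfl fun y _ => ?_
    have h2 : ∀ z : F, ρ (u3 x y z) (ρ (r3 F) v) = ρ (u3 0 y 0 * r3 F) v := by
      intro z
      have h3 : u3 x y z = u3 0 y 0 * u3 x 0 z := by
        rw [u3_mul]
        congr 1 <;> ring
      rw [h3, ← ρmul, mul_assoc, u3_r3, ← mul_assoc, ρmul, h _ (u3_mem _ _ _)]
    rw [Finset.sum_congr rfl (fun p _ => h2 p), Finset.sum_const, Finset.card_univ,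
      ← Nat.cast_smul_eq_nsmul Ω]
  rw [Finset.sum_congr rfl (fun x _ => h1 x), Finset.sum_const, Finset.card_univ,
      ← Nat.cast_smul_eq_nsmul Ω, smul_smul, smul_smul]
  congr 1
  field_simp

namespace X02_aux

theorem av_smul_sum {ι : Type*} (S : Finset ι) (c : Ω) (f : ι → V) (w : V)
    (hc : c * (S.card : Ω) = 1)
    (hf : ∀ i ∈ S, av_idem (uni3 F) ρ (f i) = w) :
    av_idem (uni3 F) ρ (c • ∑ i ∈ S, f i) = w := by
  rw [map_smul, map_sum, Finset.sum_congr rfl hf, Finset.sum_const,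
    ← Nat.cast_smul_eq_nsmul Ω, smul_smul, hc, one_smul]

theorem inv_card : (Fintype.card F : Ω)⁻¹ * ((Finset.univ : Finset F).card : Ω) = 1 := by
  rw [Finset.card_univ]
  exact inv_mul_cancel₀ card_ne

end X02_aux

theorem Es_Er {v : V} (h : UFix ρ v) :
    av_idem (uni3 F) ρ (ρ (s3 F * r3 F) v) = Es ρ (Er ρ v) := by
  rw [Er_eq h, Es, Module.End.mul_apply, map_smul, map_sum]
  symm
  refine av_smul_sum _ _ _ _ inv_card fun y _ => ?_
  rw [← ρmul, ← mul_assoc, s3_u3', mul_assoc, ρmul, av_mul_u (u3_mem _ _ _)]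

theorem Er_Es {v : V} (h : UFix ρ v) :
    av_idem (uni3 F) ρ (ρ (r3 F * s3 F) v) = Er ρ (Es ρ v) := by
  rw [Es_eq h, Er, Module.End.mul_apply, map_smul, map_sum]
  symm
  refine av_smul_sum _ _ _ _ inv_card fun y _ => ?_
  rw [← ρmul, ← mul_assoc, r3_u3', mul_assoc, ρmul, av_mul_u (u3_mem _ _ _)]

theorem Es_Er_Es {v : V} (h : UFix ρ v) :
    av_idem (uni3 F) ρ (ρ (s3 F * r3 F * s3 F) v) = Es ρ (Er ρ (Es ρ v)) := by
  rw [Er_eq (uFix_Es v), Es, Module.End.mul_apply, map_smul, map_sum]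
  symm
  refine av_smul_sum _ _ _ _ inv_card fun y _ => ?_
  have h1 : av_idem (uni3 F) ρ * ρ (s3 F) = Es ρ := rfl
  rw [h1, Es_eq h, ← ρmul, ← mul_assoc, s3_u3', mul_assoc, ρmul, av_mul_u (u3_mem _ _ _),
    map_smul, map_sum]
  refine av_smul_sum _ _ _ _ inv_card fun x _ => ?_
  rw [← ρmul]
  have h2 : s3 F * r3 F * (u3 x 0 0 * s3 F) = u3 0 x 0 * (s3 F * r3 F * s3 F) := by
    have h3 : r3 F * u3 x 0 0 = u3 0 0 (-x) * r3 F := r3_u3' x 0
    have h4 : s3 F * u3 0 0 (-x) = u3 0 x 0 * s3 F := by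
      rw [s3_u3', neg_neg]
    calc s3 F * r3 F * (u3 x 0 0 * s3 F) = s3 F * (r3 F * u3 x 0 0) * s3 F := by
          simp only [mul_assoc]
      _ = s3 F * (u3 0 0 (-x) * r3 F) * s3 F := by rw [h3]
      _ = (s3 F * u3 0 0 (-x)) * r3 F * s3 F := by simp only [mul_assoc]
      _ = _ := by rw [h4]; simp only [mul_assoc]
  rw [h2, ρmul, av_mul_u (u3_mem _ _ _)]

theorem Er_Es_Er {v : V} (h : UFix ρ v) :
    av_idem (uni3 F) ρ (ρ (s3 F * r3 F * s3 F) v) = Er ρ (Es ρ (Er ρ v)) := by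
  rw [braid3, Es_eq (uFix_Er v), Er, Module.End.mul_apply, map_smul, map_sum]
  symm
  refine av_smul_sum _ _ _ _ inv_card fun y _ => ?_
  have h1 : av_idem (uni3 F) ρ * ρ (r3 F) = Er ρ := rfl
  rw [h1, Er_eq h, ← ρmul, ← mul_assoc, r3_u3', mul_assoc, ρmul, av_mul_u (u3_mem _ _ _),
    map_smul, map_sum]
  refine av_smul_sum _ _ _ _ inv_card fun x _ => ?_
  rw [← ρmul]
  have h2 : r3 F * s3 F * (u3 0 x 0 * r3 F) = u3 x 0 0 * (r3 F * s3 F * r3 F) := by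
    have h3 : s3 F * u3 0 x 0 = u3 0 0 x * s3 F := by
      rw [s3_u3', neg_zero]
    have h4 : r3 F * u3 0 0 x = u3 x 0 0 * r3 F := by
      rw [r3_u3', neg_zero]
    calc r3 F * s3 F * (u3 0 x 0 * r3 F) = r3 F * (s3 F * u3 0 x 0) * r3 F := by
          simp only [mul_assoc]
      _ = r3 F * (u3 0 0 x * s3 F) * r3 F := by rw [h3]
      _ = (r3 F * u3 0 0 x) * s3 F * r3 F := by simp only [mul_assoc]
      _ = _ := by rw [h4]; simp only [mul_assoc]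
  rw [h2, ρmul, av_mul_u (u3_mem _ _ _)]

theorem Es_tchar {v : V} {lam : Fˣ → Fˣ → Ω} (h : TChar ρ lam v) :
    TChar ρ (fun a b => lam b a) (Es ρ v) := by
  intro a b
  rw [Es, Module.End.mul_apply, ← av_conj _ (t3_norm a b), ← ρmul, t3_s3, ρmul, h, map_smul,
    map_smul]

theorem Er_tchar {v : V} {lam : Fˣ → Fˣ → Ω} (h : TChar ρ lam v) :
    TChar ρ (fun a b => lam a (a * b)⁻¹) (Er ρ v) := by
  intro a b
  rw [Er, Module.End.mul_apply, ← av_conj _ (t3_norm a b), ← ρmul, t3_r3, ρmul, h, map_smul,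
    map_smul]

namespace X02_aux

theorem sum_units {M : Type*} [AddCommMonoid M] [Fintype Fˣ] (f : F → M) :
    ∑ x : F, f x = f 0 + ∑ x : Fˣ, f x := by
  classical
  rw [Fintype.sum_eq_add_sum_compl (0 : F)]
  congr 1
  refine Finset.sum_bij' (fun x hx => Units.mk0 x (by simpa using hx)) (fun u _ => (u : F))
    (fun _ _ => Finset.mem_univ _) (fun u _ => by simp) (fun _ _ => rfl)
    (fun u _ => Units.ext rfl) (fun _ _ => rfl)

theorem s_u_s (x : Fˣ) : s3 F * (u3 (x : F) 0 0 * s3 F) =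
    u3 (-(x : F)⁻¹) 0 0 * (s3 F * (t3 x x⁻¹ * (u3 (-(x : F)⁻¹) 0 0 * t3 (-1) (-1)))) := by
  have h1 := s3_rank_one x
  have h2 : s3 F * u3 (x : F) 0 0 =
      u3 (-(x : F)⁻¹) 0 0 * t3 x⁻¹ x * s3 F * u3 (-(x : F)⁻¹) 0 0 * s3 F := by
    rw [← h1]
    group
  rw [← mul_assoc, h2, mul_assoc _ (s3 F) (s3 F), s3_sq]
  have h3 := t3_s3 x⁻¹ x
  calc u3 (-(x : F)⁻¹) 0 0 * t3 x⁻¹ x * s3 F * u3 (-(x : F)⁻¹) 0 0 * t3 (-1) (-1)
      = u3 (-(x : F)⁻¹) 0 0 * (t3 x⁻¹ x * s3 F) * u3 (-(x : F)⁻¹) 0 0 * t3 (-1) (-1) := by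
        simp only [mul_assoc]
    _ = _ := by rw [h3]; simp only [mul_assoc]

theorem r_u_r (x : Fˣ) : r3 F * (u3 0 (x : F) 0 * r3 F) =
    u3 0 (-(x : F)⁻¹) 0 * (r3 F * (t3 1 x * (u3 0 (-(x : F)⁻¹) 0 * t3 1 (-1)))) := by
  have h1 := r3_rank_one x
  have h2 : r3 F * u3 0 (x : F) 0 =
      u3 0 (-(x : F)⁻¹) 0 * t3 1 x⁻¹ * r3 F * u3 0 (-(x : F)⁻¹) 0 * r3 F := by
    rw [← h1]
    group
  rw [← mul_assoc, h2, mul_assoc _ (r3 F) (r3 F), r3_sq]
  have h3 := t3_r3 1 x⁻¹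
  rw [one_mul, inv_inv] at h3
  calc u3 0 (-(x : F)⁻¹) 0 * t3 1 x⁻¹ * r3 F * u3 0 (-(x : F)⁻¹) 0 * t3 1 (-1)
      = u3 0 (-(x : F)⁻¹) 0 * (t3 1 x⁻¹ * r3 F) * u3 0 (-(x : F)⁻¹) 0 * t3 1 (-1) := by
        simp only [mul_assoc]
    _ = _ := by rw [h3]; simp only [mul_assoc]

/-- `s u(x) s v` -/
theorem s_u_s_v {v : V} (h : UFix ρ v) {lam : Fˣ → Fˣ → Ω} (hT : TChar ρ lam v) (x : Fˣ) :
    ρ (s3 F) (ρ (u3 (x : F) 0 0 * s3 F) v) =
      lam (-x) (-x)⁻¹ • ρ (u3 (-(x : F)⁻¹) 0 0 * s3 F) v := by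
  have h1 : ρ (u3 (-(x : F)⁻¹) 0 0) (ρ (t3 (-1) (-1)) v) = ρ (t3 (-1) (-1)) v := by
    rw [hT, map_smul, h _ (u3_mem _ _ _)]
  have h2 : t3 x x⁻¹ * t3 (-1) (-1) = t3 (-x) (-x)⁻¹ := by
    rw [t3_mul, mul_neg_one, mul_neg_one, inv_neg]
  rw [← ρmul, s_u_s, ρmul, ρmul, ρmul, ρmul, h1, ← ρmul (t3 x x⁻¹) (t3 (-1) (-1)), h2, hT,
    map_smul, map_smul, ← ρmul]

theorem r_u_r_v {v : V} (h : UFix ρ v) {lam : Fˣ → Fˣ → Ω} (hT : TChar ρ lam v) (x : Fˣ) :
    ρ (r3 F) (ρ (u3 0 (x : F) 0 * r3 F) v) =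
      lam 1 (-x) • ρ (u3 0 (-(x : F)⁻¹) 0 * r3 F) v := by
  have h1 : ρ (u3 0 (-(x : F)⁻¹) 0) (ρ (t3 1 (-1)) v) = ρ (t3 1 (-1)) v := by
    rw [hT, map_smul, h _ (u3_mem _ _ _)]
  have h2 : t3 1 x * t3 1 (-1) = t3 1 (-x) := by
    rw [t3_mul, mul_neg_one, one_mul]
  rw [← ρmul, r_u_r, ρmul, ρmul, ρmul, ρmul, h1, ← ρmul (t3 1 x) (t3 1 (-1)), h2, hT,
    map_smul, map_smul, ← ρmul]

theorem u3_zero : u3 (0 : F) 0 0 = 1 := by
  ext i j
  fin_cases i <;> fin_cases j <;> simp [u3]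

end X02_aux

/-- quadratic relations -/
theorem Es_sq [Fintype Fˣ] {v : V} (h : UFix ρ v) {lam : Fˣ → Fˣ → Ω} (hT : TChar ρ lam v) :
    Es ρ (Es ρ v) = (Fintype.card F : Ω)⁻¹ •
      (lam (-1) (-1) • v + (∑ x : Fˣ, lam x x⁻¹) • Es ρ v) := by
  have h0 : Es ρ (Es ρ v) = av_idem (uni3 F) ρ (ρ (s3 F) (Es ρ v)) := rfl
  rw [h0]
  nth_rewrite 1 [Es_eq h]
  rw [map_smul, map_smul, map_sum, map_sum, sum_units]
  congr 2
  · rw [u3_zero, one_mul, ← ρmul, s3_sq, hT, map_smul, av_of_uFix h]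
  · have h1 : ∀ x : Fˣ, av_idem (uni3 F) ρ (ρ (s3 F) (ρ (u3 (x : F) 0 0 * s3 F) v)) =
        lam (-x) (-x)⁻¹ • Es ρ v := by
      intro x
      rw [s_u_s_v h hT, map_smul, ρmul, av_mul_u (u3_mem _ _ _)]
      rfl
    rw [Finset.sum_congr rfl (fun x _ => h1 x), ← Finset.sum_smul]
    congr 1
    exact Equiv.sum_comp (Equiv.neg Fˣ) (fun x => lam x x⁻¹)

theorem Er_sq [Fintype Fˣ] {v : V} (h : UFix ρ v) {lam : Fˣ → Fˣ → Ω} (hT : TChar ρ lam v) :
    Er ρ (Er ρ v) = (Fintype.card F : Ω)⁻¹ •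
      (lam 1 (-1) • v + (∑ x : Fˣ, lam 1 x) • Er ρ v) := by
  have h0 : Er ρ (Er ρ v) = av_idem (uni3 F) ρ (ρ (r3 F) (Er ρ v)) := rfl
  rw [h0]
  nth_rewrite 1 [Er_eq h]
  rw [map_smul, map_smul, map_sum, map_sum, sum_units]
  congr 2
  · rw [u3_zero, one_mul, ← ρmul, r3_sq, hT, map_smul, av_of_uFix h]
  · have h1 : ∀ x : Fˣ, av_idem (uni3 F) ρ (ρ (r3 F) (ρ (u3 0 (x : F) 0 * r3 F) v)) =
        lam 1 (-x) • Er ρ v := by
      intro x
      rw [r_u_r_v h hT, map_smul, ρmul, av_mul_u (u3_mem _ _ _)]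
      rfl
    rw [Finset.sum_congr rfl (fun x _ => h1 x), ← Finset.sum_smul]
    congr 1
    exact Equiv.sum_comp (Equiv.neg Fˣ) (fun x => lam 1 x)

/-- `V^U` is spanned by the six vectors `e_U w v` if `V` is spanned by the orbit of `v` -/
theorem span6 {v : V} (h : UFix ρ v) {lam : Fˣ → Fˣ → Ω} (hT : TChar ρ lam v)
    (hspan : Submodule.span Ω (Set.range fun g => ρ g v) = ⊤) {y : V} (hy : UFix ρ y) :
    ∃ a b c d e f : Ω, y = a • v + b • Es ρ v + c • Er ρ v + d • Es ρ (Er ρ v) +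
      e • Er ρ (Es ρ v) + f • Es ρ (Er ρ (Es ρ v)) := by
  have key : ∀ w ∈ Submodule.span Ω (Set.range fun g => ρ g v), ∃ a b c d e f : Ω,
      av_idem (uni3 F) ρ w = a • v + b • Es ρ v + c • Er ρ v + d • Es ρ (Er ρ v) +
      e • Er ρ (Es ρ v) + f • Es ρ (Er ρ (Es ρ v)) := by
    intro w hw
    induction hw using Submodule.span_induction with
    | mem w hw =>
      obtain ⟨g, rfl⟩ := hw
      obtain ⟨u, hu, b, hb, hg⟩ := bruhat3 g
      have hbv : ∃ k : Ω, ρ b v = k • v := by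
        obtain ⟨x, y, z, a, a', rfl⟩ := mem_bor3.1 hb
        refine ⟨lam a a', ?_⟩
        rw [ρmul, hT, map_smul, h _ (u3_mem _ _ _)]
      obtain ⟨k, hk⟩ := hbv
      have hred : ∀ w0, av_idem (uni3 F) ρ (ρ (u * w0 * b) v) =
          k • av_idem (uni3 F) ρ (ρ w0 v) := by
        intro w0
        rw [ρmul, hk, map_smul, map_smul, ρmul, av_mul_u hu]
      dsimp only
      rcases hg with rfl | rfl | rfl | rfl | rfl | rfl
      · refine ⟨k, 0, 0, 0, 0, 0, ?_⟩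
        have := hred 1
        rw [mul_one, map_one, Module.End.one_apply, av_of_uFix h] at this
        rw [this]
        simp only [zero_smul, add_zero]
      · refine ⟨0, k, 0, 0, 0, 0, ?_⟩
        rw [hred (s3 F)]
        simp only [zero_smul, add_zero, zero_add]
        rfl
      · refine ⟨0, 0, k, 0, 0, 0, ?_⟩
        rw [hred (r3 F)]
        simp only [zero_smul, add_zero, zero_add]
        rfl
      · refine ⟨0, 0, 0, k, 0, 0, ?_⟩
        rw [hred (s3 F * r3 F), Es_Er h]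
        simp only [zero_smul, add_zero, zero_add]
      · refine ⟨0, 0, 0, 0, k, 0, ?_⟩
        rw [hred (r3 F * s3 F), Er_Es h]
        simp only [zero_smul, add_zero, zero_add]
      · refine ⟨0, 0, 0, 0, 0, k, ?_⟩
        rw [hred (s3 F * r3 F * s3 F), Es_Er_Es h]
        simp only [zero_smul, zero_add]
    | zero => exact ⟨0, 0, 0, 0, 0, 0, by simp⟩
    | add x y _ _ hx hy =>
      obtain ⟨a, b, c, d, e, f, hx⟩ := hx
      obtain ⟨a', b', c', d', e', f', hy⟩ := hy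
      refine ⟨a + a', b + b', c + c', d + d', e + e', f + f', ?_⟩
      rw [map_add, hx, hy]
      simp only [add_smul]
      abel
    | smul t x _ hx =>
      obtain ⟨a, b, c, d, e, f, hx⟩ := hx
      refine ⟨t * a, t * b, t * c, t * d, t * e, t * f, ?_⟩
      rw [map_smul, hx]
      simp only [smul_add, smul_smul]
  obtain ⟨a, b, c, d, e, f, he⟩ := key y (by rw [hspan]; trivial)
  rw [av_of_uFix hy] at he
  exact ⟨a, b, c, d, e, f, he⟩

namespace X02_aux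

theorem fix_bor {v : V} (h : UFix ρ v) (hT : TChar ρ (fun _ _ => 1) v)
    {g : SpecialLinearGroup (Fin 3) F} (hg : g ∈ bor3 F) : ρ g v = v := by
  obtain ⟨x, y, z, a, b, rfl⟩ := mem_bor3.1 hg
  rw [ρmul, hT, one_smul, h _ (u3_mem _ _ _)]

theorem fix_par2 {v : V} (h : UFix ρ v) (hT : TChar ρ (fun _ _ => 1) v)
    (hs : ρ (s3 F) v = v) {g : SpecialLinearGroup (Fin 3) F} (hg : g ∈ par2 F) : ρ g v = v := by
  rcases mem_par2.1 hg with hb | ⟨x, b, hb, rfl⟩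
  · exact fix_bor h hT hb
  · rw [ρmul, fix_bor h hT hb, ρmul, hs, h _ (u3_mem _ _ _)]

theorem fix_par1 {v : V} (h : UFix ρ v) (hT : TChar ρ (fun _ _ => 1) v)
    (hs : ρ (r3 F) v = v) {g : SpecialLinearGroup (Fin 3) F} (hg : g ∈ par1 F) : ρ g v = v := by
  rcases mem_par1.1 hg with hb | ⟨x, b, hb, rfl⟩
  · exact fix_bor h hT hb
  · rw [ρmul, fix_bor h hT hb, ρmul, hs, h _ (u3_mem _ _ _)]

/-- `x ↦ -x⁻¹` on the units -/
def negInv : Fˣ ≃ Fˣ := (Equiv.inv Fˣ).trans (Equiv.neg Fˣ)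

theorem negInv_coe (x : Fˣ) : ((negInv x : Fˣ) : F) = -(x : F)⁻¹ := by
  simp [negInv]

theorem s_sum {v : V} (h : UFix ρ v) (hT : TChar ρ (fun _ _ => 1) v) :
    ρ (s3 F) (v + ∑ x : F, ρ (u3 x 0 0 * s3 F) v) = v + ∑ x : F, ρ (u3 x 0 0 * s3 F) v := by
  classical
  let _ : Fintype Fˣ := Fintype.ofFinite Fˣ
  rw [sum_units, map_add, map_add, map_sum, u3_zero, one_mul]
  have h1 : ρ (s3 F) (ρ (s3 F) v) = v := by
    rw [← ρmul, s3_sq, hT, one_smul]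
  have h2 : ∀ x : Fˣ, ρ (s3 F) (ρ (u3 (x : F) 0 0 * s3 F) v) =
      ρ (u3 ((negInv x : Fˣ) : F) 0 0 * s3 F) v := by
    intro x
    rw [s_u_s_v h hT, one_smul, negInv_coe]
  rw [h1, Finset.sum_congr rfl (fun x _ => h2 x),
    Equiv.sum_comp negInv (fun x : Fˣ => ρ (u3 (x : F) 0 0 * s3 F) v)]
  abel

theorem r_sum {v : V} (h : UFix ρ v) (hT : TChar ρ (fun _ _ => 1) v) :
    ρ (r3 F) (v + ∑ x : F, ρ (u3 0 x 0 * r3 F) v) = v + ∑ x : F, ρ (u3 0 x 0 * r3 F) v := by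
  classical
  let _ : Fintype Fˣ := Fintype.ofFinite Fˣ
  rw [sum_units, map_add, map_add, map_sum, u3_zero, one_mul]
  have h1 : ρ (r3 F) (ρ (r3 F) v) = v := by
    rw [← ρmul, r3_sq, hT, one_smul]
  have h2 : ∀ x : Fˣ, ρ (r3 F) (ρ (u3 0 (x : F) 0 * r3 F) v) =
      ρ (u3 0 ((negInv x : Fˣ) : F) 0 * r3 F) v := by
    intro x
    rw [r_u_r_v h hT, one_smul, negInv_coe]
  rw [h1, Finset.sum_congr rfl (fun x _ => h2 x),
    Equiv.sum_comp negInv (fun x : Fˣ => ρ (u3 0 (x : F) 0 * r3 F) v)]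
  abel

theorem sum_Es {v : V} (h : UFix ρ v) :
    ∑ x : F, ρ (u3 x 0 0 * s3 F) v = (Fintype.card F : Ω) • Es ρ v := by
  rw [Es_eq h, smul_smul, mul_inv_cancel₀ card_ne, one_smul]

theorem sum_Er {v : V} (h : UFix ρ v) :
    ∑ x : F, ρ (u3 0 x 0 * r3 F) v = (Fintype.card F : Ω) • Er ρ v := by
  rw [Er_eq h, smul_smul, mul_inv_cancel₀ card_ne, one_smul]

theorem card_ne' : (1 : Ω) + (Fintype.card F : Ω) ≠ 0 := by
  have h : (1 : Ω) + (Fintype.card F : Ω) = ((1 + Fintype.card F : ℕ) : Ω) := by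
    push_cast; rfl
  rw [h, Nat.cast_ne_zero]
  omega

theorem uFix_add {v w : V} (hv : UFix ρ v) (hw : UFix ρ w) : UFix ρ (v + w) := by
  intro u hu
  rw [map_add, hv u hu, hw u hu]

theorem uFix_smul {v : V} (c : Ω) (hv : UFix ρ v) : UFix ρ (c • v) := by
  intro u hu
  rw [map_smul, hv u hu]

theorem tOne_add {v w : V} (hv : TChar ρ (fun _ _ => 1) v) (hw : TChar ρ (fun _ _ => 1) w) :
    TChar ρ (fun _ _ => 1) (v + w) := by
  intro a b
  rw [map_add, hv, hw, one_smul, one_smul, one_smul]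

theorem tOne_smul {v : V} (c : Ω) (hv : TChar ρ (fun _ _ => 1) v) :
    TChar ρ (fun _ _ => 1) (c • v) := by
  intro a b
  rw [map_smul, hv, one_smul, one_smul]

end X02_aux

/-- `par2 = ⟨B, s⟩`: a vector fixed by `B` with `E_s v = v` is fixed by `par2`
(the average of `v` over `par2` is `(v + q E_s v)/(q+1) = v`) -/
theorem fixed_par2 {v : V} (h : UFix ρ v) (hT : TChar ρ (fun _ _ => 1) v) (hs : Es ρ v = v)
    {g : SpecialLinearGroup (Fin 3) F} (hg : g ∈ par2 F) : ρ g v = v := by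
  refine fix_par2 h hT ?_ hg
  have h1 := s_sum h hT
  rw [sum_Es h, hs] at h1
  have h2 : v + (Fintype.card F : Ω) • v = ((1 : Ω) + (Fintype.card F : Ω)) • v := by
    rw [add_smul, one_smul]
  rw [h2, map_smul] at h1
  exact smul_right_injective V card_ne' h1

theorem fixed_par1 {v : V} (h : UFix ρ v) (hT : TChar ρ (fun _ _ => 1) v) (hr : Er ρ v = v)
    {g : SpecialLinearGroup (Fin 3) F} (hg : g ∈ par1 F) : ρ g v = v := by
  refine fix_par1 h hT ?_ hg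
  have h1 := r_sum h hT
  rw [sum_Er h, hr] at h1
  have h2 : v + (Fintype.card F : Ω) • v = ((1 : Ω) + (Fintype.card F : Ω)) • v := by
    rw [add_smul, one_smul]
  rw [h2, map_smul] at h1
  exact smul_right_injective V card_ne' h1

/-- if no nonzero vector is fixed by `par1` or `par2`, then `E_s` and `E_r` act on the vectors
fixed by `B` as `- q⁻¹` -/
theorem steinberg_line {v : V} (h : UFix ρ v) (hT : TChar ρ (fun _ _ => 1) v)
    (h1 : ∀ x : V, (∀ g ∈ par1 F, ρ g x = x) → x = 0)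
    (h2 : ∀ x : V, (∀ g ∈ par2 F, ρ g x = x) → x = 0) :
    Es ρ v = -((Fintype.card F : Ω)⁻¹ • v) ∧ Er ρ v = -((Fintype.card F : Ω)⁻¹ • v) := by
  have hq : (Fintype.card F : Ω) ≠ 0 := card_ne
  constructor
  · have hw := s_sum h hT
    rw [sum_Es h] at hw
    have h3 : v + (Fintype.card F : Ω) • Es ρ v = 0 := by
      refine h2 _ fun g hg => fix_par2 (uFix_add h (uFix_smul _ (uFix_Es v)))
        (tOne_add hT (tOne_smul _ (Es_tchar hT))) hw hg
    have h4 : (Fintype.card F : Ω) • Es ρ v = -v := by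
      rw [eq_neg_iff_add_eq_zero, add_comm]
      exact h3
    calc Es ρ v = (Fintype.card F : Ω)⁻¹ • ((Fintype.card F : Ω) • Es ρ v) := by
          rw [smul_smul, inv_mul_cancel₀ hq, one_smul]
      _ = _ := by rw [h4, smul_neg]
  · have hw := r_sum h hT
    rw [sum_Er h] at hw
    have h3 : v + (Fintype.card F : Ω) • Er ρ v = 0 := by
      refine h1 _ fun g hg => fix_par1 (uFix_add h (uFix_smul _ (uFix_Er v)))
        (tOne_add hT (tOne_smul _ (Er_tchar hT))) hw hg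
    have h4 : (Fintype.card F : Ω) • Er ρ v = -v := by
      rw [eq_neg_iff_add_eq_zero, add_comm]
      exact h3
    calc Er ρ v = (Fintype.card F : Ω)⁻¹ • ((Fintype.card F : Ω) • Er ρ v) := by
          rw [smul_smul, inv_mul_cancel₀ hq, one_smul]
      _ = _ := by rw [h4, smul_neg]

end

end Parker
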