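import Pool.Agent.Parker.Defs
import Pool.Agent.Parker.P01
import Pool.Agent.Parker.P08
import Pool.Agent.Parker.P10
import Pool.Agent.Parker.P32
import Pool.Agent.Parker.Q02
import Pool.Agent.Parker.X01
import Pool.Agent.Parker.X02
import Pool.Agent.Parker.X03

/-!
# MP_6c3636_al, module X04: `SL_3(q)`, `q` odd: vectors on which the Borel subgroup acts by signs
(helper7)
-/

namespace Parker

open Matrix

universe v

noncomputable section

universe u

namespace X04_aux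

section Gen

variable {Ω : Type} [Field Ω] [IsAlgClosed Ω] [CharZero Ω] {S : Type u} [Group S] [Finite S]
  {V : Type v} [AddCommGroup V] [Module Ω V] [FiniteDimensional Ω V]
  {B Q : Subgroup S}

theorem exists_line_gen (hle : Q ≤ B) (hQo : Odd (Nat.card Q))
    (hnorm0 : ∀ b ∈ B, ∀ q ∈ Q, b * q * b⁻¹ ∈ Q)
    (hcomm0 : ∀ b ∈ B, ∀ b' ∈ B, b * b' * b⁻¹ * b'⁻¹ ∈ Q) {ρ : Representation Ω S V}
    (W : Subrepresentation (rs B ρ)) (hW : W.toRepresentation.IsIrreducible)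
    (hodd : Odd (Module.finrank Ω W.toSubmodule)) (hsd : SD W.toRepresentation) :
    ∃ (v : V) (lam : B →* ℤˣ), v ≠ 0 ∧ (∀ b : B, ρ b v = ((lam b : ℤ) : Ω) • v) ∧
      ∀ b : B, (b : S) ∈ Q → lam b = 1 := by
  classical
  set τ : Representation Ω B W.toSubmodule := W.toRepresentation with hτ
  set Q' : Subgroup B := Q.subgroupOf B with hQ'
  have hmem : ∀ b : B, b ∈ Q' ↔ (b : S) ∈ Q := fun b => Iff.rfl
  have hcard : Nat.card Q' = Nat.card Q :=
    Nat.card_congr (Subgroup.subgroupOfEquivOfLe hle).toEquiv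
  have hnorm : ∀ b : B, ∀ q ∈ Q', b * q * b⁻¹ ∈ Q' := by
    intro b q hq
    exact hnorm0 b b.2 q hq
  -- the invariants of `Q'`
  have hinv_ne : (rs Q' τ).invariants ≠ ⊥ := by
    have h1 : Odd (Module.finrank Ω (rs Q' τ).invariants) := by
      rw [← parity_odd (G := Q') (ρ := rs Q' τ) (by rw [hcard]; exact hQo)
        (fun g => hsd (g : B))]
      exact hodd
    intro h0
    rw [h0, finrank_bot] at h1
    exact absurd h1 (by decide)
  have hinv_top : (rs Q' τ).invariants = ⊤ := by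
    rcases irr_sub hW (U := (rs Q' τ).invariants) (by
      intro g x hx q
      have h1 : (rs Q' τ) q = τ (q : B) := rfl
      rw [h1, ← Module.End.mul_apply, ← map_mul]
      have h2 : (q : B) * g = g * (g⁻¹ * q * g) := by group
      have h3 : g⁻¹ * (q : B) * g ∈ Q' := by
        have := hnorm g⁻¹ q q.2
        rwa [inv_inv] at this
      rw [h2, map_mul, Module.End.mul_apply]
      congr 1
      exact hx ⟨_, h3⟩) with h0 | h0
    · exact absurd h0 hinv_ne
    · exact h0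
  have hQ1 : ∀ b : B, b ∈ Q' → ∀ x, τ b x = x := by
    intro b hb x
    have h1 : x ∈ (rs Q' τ).invariants := by rw [hinv_top]; exact Submodule.mem_top
    exact h1 ⟨b, hb⟩
  have hcomm : ∀ b b' : B, τ b * τ b' = τ b' * τ b := by
    intro b b'
    ext x
    have h1 : b * b' = (b * b' * b⁻¹ * b'⁻¹) * (b' * b) := by group
    have h2 : b * b' * b⁻¹ * b'⁻¹ ∈ Q' := hcomm0 b b.2 b' b'.2
    rw [← map_mul, ← map_mul, h1, map_mul, Module.End.mul_apply, hQ1 _ h2]
  have hsc : ∀ b : B, ∃ a : Ω, τ b = a • 1 := fun b => schur hW (fun g => hcomm b g)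
  choose a ha using hsc
  have hpos := irr_pos hW
  have hmul : ∀ b b' : B, a (b * b') = a b * a b' := by
    intro b b'
    obtain ⟨x, hx⟩ : ∃ x : W.toSubmodule, x ≠ 0 := by
      have := Module.nontrivial_of_finrank_pos hpos
      exact exists_ne 0
    have h1 : a (b * b') • x = (a b * a b') • x := by
      have h2 := congrArg (fun T : Module.End Ω W.toSubmodule => T x) (ha (b * b'))
      have h3 : τ (b * b') x = (a b * a b') • x := by
        rw [map_mul, Module.End.mul_apply, ha b', ha b]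
        simp only [LinearMap.smul_apply, Module.End.one_apply, smul_smul]
      rw [← h3]
      simpa using h2.symm
    have h2 : (a (b * b') - a b * a b') • x = 0 := by rw [sub_smul, h1, sub_self]
    exact sub_eq_zero.1 ((smul_eq_zero.1 h2).resolve_right hx)
  have hfin : (Module.finrank Ω W.toSubmodule : Ω) ≠ 0 := Nat.cast_ne_zero.2 hpos.ne'
  have hchar : ∀ b : B, τ.character b = a b * Module.finrank Ω W.toSubmodule := by
    intro b
    show LinearMap.trace Ω _ (τ b) = _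
    rw [ha b, map_smul, LinearMap.trace_one, smul_eq_mul]
  have hone : a 1 = 1 := by
    have h1 := hchar 1
    rw [Representation.char_one] at h1
    have h2 : (1 : Ω) * Module.finrank Ω W.toSubmodule = a 1 * Module.finrank Ω W.toSubmodule := by
      rw [one_mul]; exact h1
    exact (mul_right_cancel₀ hfin h2).symm
  have hsq : ∀ b : B, a b = 1 ∨ a b = -1 := by
    intro b
    have h1 : a b⁻¹ = a b := by
      have h2 := hsd b
      change τ.character b⁻¹ = τ.character b at h2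
      rw [hchar, hchar] at h2
      exact mul_right_cancel₀ hfin h2
    have h2 : a b * a b = 1 := by
      have h3 := hmul b b⁻¹
      rw [mul_inv_cancel, hone, h1] at h3
      exact h3.symm
    exact mul_self_eq_one_iff.1 h2
  have hneg : (1 : Ω) ≠ -1 := by
    intro h0
    have h1 : (2 : Ω) = 0 := by linear_combination h0
    exact two_ne_zero h1
  let lam : B →* ℤˣ :=
    { toFun := fun b => if a b = 1 then 1 else -1
      map_one' := by rw [if_pos hone]
      map_mul' := by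
        intro b b'
        rw [hmul]
        rcases hsq b with h1 | h1 <;> rcases hsq b' with h2 | h2 <;> rw [h1, h2] <;>
          simp [hneg.symm] }
  have hlam : ∀ b : B, ((lam b : ℤ) : Ω) = a b := by
    intro b
    show (((if a b = 1 then (1 : ℤˣ) else -1 : ℤˣ) : ℤ) : Ω) = a b
    rcases hsq b with h1 | h1
    · rw [if_pos h1, h1]; simp
    · rw [if_neg (by rw [h1]; exact hneg.symm), h1]; simp
  obtain ⟨x, hx⟩ : ∃ x : W.toSubmodule, x ≠ 0 := by
    have := Module.nontrivial_of_finrank_pos hpos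
    exact exists_ne 0
  refine ⟨x, lam, fun h0 => hx (Subtype.ext h0), fun b => ?_, fun b hb => ?_⟩
  · have h1 : ρ (b : S) (x : V) = ((τ b x : W.toSubmodule) : V) := rfl
    rw [hlam, h1, ha b]
    rfl
  · have h1 : a b = 1 := by
      have h2 := congrArg (fun T : Module.End Ω W.toSubmodule => T x) (ha b)
      have h3 := hQ1 b hb x
      simp only [LinearMap.smul_apply, Module.End.one_apply] at h2
      rw [h3] at h2
      have h4 : (a b - 1) • x = 0 := by rw [sub_smul, one_smul, ← h2, sub_self]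
      exact sub_eq_zero.1 ((smul_eq_zero.1 h4).resolve_right hx)
    show (if a b = 1 then (1 : ℤˣ) else -1) = 1
    rw [if_pos h1]


omit [IsAlgClosed Ω] [CharZero Ω] [FiniteDimensional Ω V] in
theorem lav_mul (H : Subgroup S) (lam : H →* ℤˣ) (ρ : Representation Ω S V) (h : H) (x : V) :
    lav H lam ρ (ρ h x) = ((lam h : ℤ) : Ω) • lav H lam ρ x := by
  classical
  let _ := Fintype.ofFinite H
  rw [lav, act_eq, LinearMap.sum_apply, LinearMap.sum_apply, Finset.smul_sum]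
  refine Fintype.sum_equiv (Equiv.mulRight h) _ _ fun y => ?_
  have h1 : rs H ρ y = ρ (y : S) := rfl
  have h2 : rs H ρ (Equiv.mulRight h y) = ρ ((y : S) * h) := rfl
  rw [LinearMap.smul_apply, LinearMap.smul_apply, h1, h2, map_mul, Module.End.mul_apply, smul_smul]
  congr 1
  have h3 : lam (Equiv.mulRight h y) = lam y * lam h := map_mul lam y h
  rw [h3]
  have h4 : ((lam h : ℤ) : Ω) * ((lam h : ℤ) : Ω) = 1 := by
    rcases Int.units_eq_one_or (lam h) with h5 | h5 <;> rw [h5] <;> simp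
  push_cast
  linear_combination (-(Nat.card H : Ω)⁻¹ * ((lam y : ℤ) : Ω)) * h4

omit [IsAlgClosed Ω] [FiniteDimensional Ω V] in
theorem lav_av (H : Subgroup S) (lam : H →* ℤˣ) (U : Subgroup S) (hU : U ≤ H)
    (hl : ∀ b : H, (b : S) ∈ U → lam b = 1) (ρ : Representation Ω S V) (x : V) :
    lav H lam ρ (av_idem U ρ x) = lav H lam ρ x := by
  classical
  let _ := Fintype.ofFinite U
  have hc : (Nat.card U : Ω) ≠ 0 := Nat.cast_ne_zero.2 Nat.card_pos.ne'
  rw [av_idem, act_eq, LinearMap.sum_apply, map_sum]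
  have h1 : ∀ u : U, lav H lam ρ (((Nat.card U : Ω)⁻¹ • rs U ρ u) x) =
      (Nat.card U : Ω)⁻¹ • lav H lam ρ x := by
    intro u
    have h2 : rs U ρ u = ρ (u : S) := rfl
    have h3 := lav_mul H lam ρ ⟨u, hU u.2⟩ x
    rw [hl ⟨u, hU u.2⟩ u.2] at h3
    rw [LinearMap.smul_apply, h2, map_smul]
    congr 1
    simpa using h3
  rw [Finset.sum_congr rfl (fun u _ => h1 u), Finset.sum_const, Finset.card_univ,
    ← Nat.card_eq_fintype_card, ← Nat.cast_smul_eq_nsmul Ω, smul_smul, mul_inv_cancel₀ hc, one_smul]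

end Gen

section Signs

variable {F : Type} [Field F] [Fintype F] {Ω : Type} [Field Ω] [CharZero Ω]

/-- a sign in `Ω` -/
def sg (Ω : Type) [Field Ω] (e : ℤˣ) : Ω := ((e : ℤ) : Ω)

omit [CharZero Ω] in
theorem sg_mul (a b : ℤˣ) : sg Ω (a * b) = sg Ω a * sg Ω b := by
  simp [sg]

omit [CharZero Ω] in
@[simp] theorem sg_one : sg Ω 1 = 1 := by simp [sg]

omit [CharZero Ω] in
theorem sg_sq (a : ℤˣ) : sg Ω a * sg Ω a = 1 := by
  rcases Int.units_eq_one_or a with h | h <;> rw [h] <;> simp [sg]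

omit [CharZero Ω] in
theorem sg_ne_zero (a : ℤˣ) : sg Ω a ≠ 0 := by
  intro h
  have := sg_sq (Ω := Ω) a
  rw [h] at this
  simp at this

theorem sg_inj {a b : ℤˣ} (h : sg Ω a = sg Ω b) : a = b := by
  have h1 : ((a : ℤ) : Ω) = ((b : ℤ) : Ω) := h
  exact Units.ext (by exact_mod_cast h1)

theorem inv_sign (ε : Fˣ →* ℤˣ) (x : Fˣ) : ε x⁻¹ = ε x := by
  rw [map_inv, Int.units_inv_eq_self]

theorem sign_unique {α β : Fˣ →* ℤˣ} (hα : α ≠ 1) (hβ : β ≠ 1) : α = β := by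
  obtain ⟨g, hg⟩ := IsCyclic.exists_generator (α := Fˣ)
  have key : ∀ γ : Fˣ →* ℤˣ, γ ≠ 1 → γ g = -1 := by
    intro γ hγ
    rcases Int.units_eq_one_or (γ g) with h | h
    · exfalso
      apply hγ
      ext x
      obtain ⟨n, rfl⟩ := hg x
      simp only [map_zpow, h]
      simp
    · exact h
  refine MonoidHom.ext fun x => ?_
  obtain ⟨n, rfl⟩ := hg x
  simp only [map_zpow, key α hα, key β hβ]

theorem exists_neg {ε : Fˣ →* ℤˣ} (h : ε ≠ 1) : ∃ g, ε g = -1 := by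
  by_contra hc
  push Not at hc
  apply h
  refine MonoidHom.ext fun x => ?_
  rcases Int.units_eq_one_or (ε x) with h | h
  · exact h
  · exact absurd h (hc x)

theorem sum_sign [Fintype Fˣ] {ε : Fˣ →* ℤˣ} (h : ε ≠ 1) : ∑ x : Fˣ, sg Ω (ε x) = 0 := by
  obtain ⟨g, hg⟩ := exists_neg h
  have h1 : ∑ x : Fˣ, sg Ω (ε x) = ∑ x : Fˣ, sg Ω (ε (g * x)) :=
    (Equiv.sum_comp (Equiv.mulLeft g) (fun x => sg Ω (ε x))).symm
  have h2 : ∑ x : Fˣ, sg Ω (ε (g * x)) = - ∑ x : Fˣ, sg Ω (ε x) := by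
    rw [← Finset.sum_neg_distrib]
    refine Finset.sum_congr rfl fun x _ => ?_
    rw [map_mul, sg_mul, hg]
    simp [sg]
  rw [h2] at h1
  have h3 : (2 : Ω) * ∑ x : Fˣ, sg Ω (ε x) = 0 := by linear_combination h1
  exact (mul_eq_zero.1 h3).resolve_left two_ne_zero

end Signs

section Borel

variable {F : Type} [Field F]

theorem bor3_det (g : bor3 F) : g.1.1 0 0 * g.1.1 1 1 * g.1.1 2 2 = 1 := by
  have h := g.1.2
  obtain ⟨h1, h2, h3⟩ := g.2
  rw [Matrix.det_fin_three, h1, h2, h3] at h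
  linear_combination h

theorem bor3_00 (g : bor3 F) : g.1.1 0 0 ≠ 0 := by
  intro h
  have := bor3_det g
  rw [h] at this
  simp at this

theorem bor3_11 (g : bor3 F) : g.1.1 1 1 ≠ 0 := by
  intro h
  have := bor3_det g
  rw [h] at this
  simp at this

/-- first diagonal entry -/
def d1 (F : Type) [Field F] : bor3 F →* Fˣ where
  toFun g := Units.mk0 (g.1.1 0 0) (bor3_00 g)
  map_one' := by
    apply Units.ext
    change ((1 : SpecialLinearGroup (Fin 3) F) : Matrix (Fin 3) (Fin 3) F) 0 0 = 1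
    simp
  map_mul' g h := by
    apply Units.ext
    change ((g.1 * h.1 : SpecialLinearGroup (Fin 3) F) : Matrix (Fin 3) (Fin 3) F) 0 0
      = g.1.1 0 0 * h.1.1 0 0
    obtain ⟨h1, h2, h3⟩ := h.2
    rw [Matrix.SpecialLinearGroup.coe_mul, Matrix.mul_apply, Fin.sum_univ_three]
    have e1 : (h.1 : Matrix (Fin 3) (Fin 3) F) 1 0 = 0 := h1
    have e2 : (h.1 : Matrix (Fin 3) (Fin 3) F) 2 0 = 0 := h2
    rw [e1, e2]
    simp

/-- second diagonal entry -/
def d2 (F : Type) [Field F] : bor3 F →* Fˣ where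
  toFun g := Units.mk0 (g.1.1 1 1) (bor3_11 g)
  map_one' := by
    apply Units.ext
    change ((1 : SpecialLinearGroup (Fin 3) F) : Matrix (Fin 3) (Fin 3) F) 1 1 = 1
    simp
  map_mul' g h := by
    apply Units.ext
    change ((g.1 * h.1 : SpecialLinearGroup (Fin 3) F) : Matrix (Fin 3) (Fin 3) F) 1 1
      = g.1.1 1 1 * h.1.1 1 1
    obtain ⟨h1, h2, h3⟩ := h.2
    obtain ⟨g1, g2, g3⟩ := g.2
    rw [Matrix.SpecialLinearGroup.coe_mul, Matrix.mul_apply, Fin.sum_univ_three]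
    have e1 : (h.1 : Matrix (Fin 3) (Fin 3) F) 2 1 = 0 := h3
    have e2 : (g.1 : Matrix (Fin 3) (Fin 3) F) 1 0 = 0 := g1
    rw [e1, e2]
    simp

theorem t3_mem (a b : Fˣ) : t3 a b ∈ bor3 F := by
  refine ⟨?_, ?_, ?_⟩ <;> simp [t3]

theorem t3_one_one : t3 (1 : Fˣ) 1 = 1 := by
  ext i j
  fin_cases i <;> fin_cases j <;> simp [t3]

/-- the torus as a homomorphism -/
def tb (F : Type) [Field F] : Fˣ × Fˣ →* bor3 F where
  toFun p := ⟨t3 p.1 p.2, t3_mem _ _⟩
  map_one' := Subtype.ext t3_one_one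
  map_mul' p p' := Subtype.ext (t3_mul _ _ _ _).symm

theorem d1_t3 (a b : Fˣ) : d1 F ⟨t3 a b, t3_mem a b⟩ = a := by
  apply Units.ext
  change (t3 a b).1 0 0 = a
  simp [t3]

theorem d2_t3 (a b : Fˣ) : d2 F ⟨t3 a b, t3_mem a b⟩ = b := by
  apply Units.ext
  change (t3 a b).1 1 1 = b
  simp [t3]

theorem u3_mem_bor (x y z : F) : u3 x y z ∈ bor3 F := by
  refine ⟨?_, ?_, ?_⟩ <;> simp [u3]

theorem d1_u3 (x y z : F) : d1 F ⟨u3 x y z, u3_mem_bor x y z⟩ = 1 := by
  apply Units.ext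
  change (u3 x y z).1 0 0 = 1
  simp [u3]

theorem d2_u3 (x y z : F) : d2 F ⟨u3 x y z, u3_mem_bor x y z⟩ = 1 := by
  apply Units.ext
  change (u3 x y z).1 1 1 = 1
  simp [u3]

theorem u3_mem_uni (x y z : F) : u3 x y z ∈ uni3 F := ⟨(x, y, z), rfl⟩

/-- the character of `B` with given restriction to `T` -/
def lamOf (α β : Fˣ →* ℤˣ) : bor3 F →* ℤˣ := (α.comp (d1 F)) * (β.comp (d2 F))

theorem lamOf_t3 (α β : Fˣ →* ℤˣ) (a b : Fˣ) :
    lamOf α β ⟨t3 a b, t3_mem a b⟩ = α a * β b := by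
  simp [lamOf, d1_t3, d2_t3]

theorem lamOf_u3 (α β : Fˣ →* ℤˣ) (x y z : F) :
    lamOf α β ⟨u3 x y z, u3_mem_bor x y z⟩ = 1 := by
  simp [lamOf, d1_u3, d2_u3]

theorem bor_cases (b : bor3 F) : ∃ x y z a c, b = ⟨u3 x y z, u3_mem_bor x y z⟩ *
    ⟨t3 a c, t3_mem a c⟩ := by
  obtain ⟨x, y, z, a, c, h⟩ := mem_bor3.1 b.2
  exact ⟨x, y, z, a, c, Subtype.ext h⟩

end Borel

section Main

variable {F : Type} [Field F] [Fintype F] {Ω : Type} [Field Ω] [IsAlgClosed Ω] [CharZero Ω]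
  {V : Type v} [AddCommGroup V] [Module Ω V] [FiniteDimensional Ω V]
  {ρ : Representation Ω (SpecialLinearGroup (Fin 3) F) V}

theorem odd_card_F (h2 : (2 : F) ≠ 0) : Odd (Nat.card F) := by
  rw [Nat.odd_iff, Nat.card_eq_fintype_card]
  apply FiniteField.odd_card_of_char_ne_two
  intro h
  apply h2
  have h1 : ((ringChar F : ℕ) : F) = 0 := ringChar.Nat.cast_ringChar
  rw [h] at h1
  exact_mod_cast h1

theorem odd_card_uni (h2 : (2 : F) ≠ 0) : Odd (Nat.card (uni3 F)) := by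
  rw [card_uni3]
  exact (odd_card_F h2).pow

/-- signs are trivial on `U` -/
theorem lam_uni (h2 : (2 : F) ≠ 0) (lam : bor3 F →* ℤˣ) (b : bor3 F)
    (hb : (b : SpecialLinearGroup (Fin 3) F) ∈ uni3 F) : lam b = 1 := by
  have h1 : b ^ (Nat.card (uni3 F)) = 1 := by
    apply Subtype.ext
    rw [Subgroup.coe_pow]
    have h8 : (⟨b, hb⟩ : uni3 F) ^ (Nat.card (uni3 F)) = 1 := pow_card_eq_one'
    exact congrArg Subtype.val h8
  have h6 : (lam b) ^ (Nat.card (uni3 F)) = 1 := by rw [← map_pow, h1, map_one]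
  rcases Int.units_eq_one_or (lam b) with h7 | h7
  · exact h7
  · rw [h7, (odd_card_uni h2).neg_one_pow] at h6
    exact absurd h6 (by decide)

/-- the torus acts through two signs -/
def TC (ρ : Representation Ω (SpecialLinearGroup (Fin 3) F) V) (α β : Fˣ →* ℤˣ) (v : V) : Prop :=
  TChar ρ (fun a b => sg Ω (α a) * sg Ω (β b)) v

theorem TC.es {α β : Fˣ →* ℤˣ} {v : V} (h : TC ρ α β v) : TC ρ β α (Es ρ v) := by
  intro a b
  have := Es_tchar h a b
  rw [this]
  change (sg Ω (α b) * sg Ω (β a)) • Es ρ v = (sg Ω (β a) * sg Ω (α b)) • Es ρ v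
  rw [mul_comm]

theorem TC.er {α β : Fˣ →* ℤˣ} {v : V} (h : TC ρ α β v) : TC ρ (α * β) β (Er ρ v) := by
  intro a b
  have := Er_tchar h a b
  rw [this]
  congr 1
  change sg Ω (α a) * sg Ω (β (a * b)⁻¹) = sg Ω ((α * β) a) * sg Ω (β b)
  rw [inv_sign, map_mul, sg_mul, MonoidHom.mul_apply, sg_mul]
  ring

theorem TC.smul {α β : Fˣ →* ℤˣ} {v : V} (h : TC ρ α β v) (c : Ω) : TC ρ α β (c • v) := by
  intro a b
  rw [map_smul, h a b, smul_comm]

theorem TC.add {α β : Fˣ →* ℤˣ} {v w : V} (h : TC ρ α β v) (h' : TC ρ α β w) :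
    TC ρ α β (v + w) := by
  intro a b
  rw [map_add, h a b, h' a b, smul_add]

theorem uFix_smul {v : V} (h : UFix ρ v) (c : Ω) : UFix ρ (c • v) := by
  intro u hu
  rw [map_smul, h u hu]

theorem uFix_add {v w : V} (h : UFix ρ v) (h' : UFix ρ w) : UFix ρ (v + w) := by
  intro u hu
  rw [map_add, h u hu, h' u hu]

theorem card_ne : (Fintype.card F : Ω) ≠ 0 := Nat.cast_ne_zero.2 Fintype.card_ne_zero

theorem es_sq_off {α β : Fˣ →* ℤˣ} {v : V} (hu : UFix ρ v) (h : TC ρ α β v) (hab : α * β ≠ 1) :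
    Es ρ (Es ρ v) = ((Fintype.card F : Ω)⁻¹ * (sg Ω (α (-1)) * sg Ω (β (-1)))) • v := by
  classical
  rw [Es_sq hu h]
  have h1 : ∑ x : Fˣ, sg Ω (α x) * sg Ω (β x⁻¹) = 0 := by
    rw [← sum_sign (Ω := Ω) hab]
    refine Finset.sum_congr rfl fun x _ => ?_
    rw [inv_sign, MonoidHom.mul_apply, sg_mul]
  rw [h1, zero_smul, add_zero, smul_smul]

theorem es_sq_diag {α : Fˣ →* ℤˣ} {v : V} (hu : UFix ρ v) (h : TC ρ α α v) :
    Es ρ (Es ρ v) = (Fintype.card F : Ω)⁻¹ • (v + ((Fintype.card F : Ω) - 1) • Es ρ v) := by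
  classical
  rw [Es_sq hu h]
  have h1 : ∑ x : Fˣ, sg Ω (α x) * sg Ω (α x⁻¹) = (Fintype.card F : Ω) - 1 := by
    have h2 : ∀ x : Fˣ, sg Ω (α x) * sg Ω (α x⁻¹) = 1 := by
      intro x
      rw [inv_sign, sg_sq]
    rw [Finset.sum_congr rfl (fun x _ => h2 x), Finset.sum_const, Finset.card_univ,
      Fintype.card_units, nsmul_eq_mul, mul_one, Nat.cast_sub Fintype.card_pos, Nat.cast_one]
  rw [h1, sg_sq, one_smul]

theorem er_sq_off {α β : Fˣ →* ℤˣ} {v : V} (hu : UFix ρ v) (h : TC ρ α β v) (hb : β ≠ 1) :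
    Er ρ (Er ρ v) = ((Fintype.card F : Ω)⁻¹ * sg Ω (β (-1))) • v := by
  classical
  rw [Er_sq hu h]
  have h1 : ∑ x : Fˣ, sg Ω (α 1) * sg Ω (β x) = 0 := by
    rw [← Finset.mul_sum, sum_sign (Ω := Ω) hb, mul_zero]
  rw [h1, zero_smul, add_zero, smul_smul, map_one, sg_one, one_mul]

theorem es_ne {α β : Fˣ →* ℤˣ} {v : V} (hv : v ≠ 0) (hu : UFix ρ v) (h : TC ρ α β v)
    (hab : α * β ≠ 1) : Es ρ v ≠ 0 := by
  intro h0
  have h1 := es_sq_off hu h hab
  rw [h0, map_zero] at h1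
  have h2 := smul_eq_zero.1 h1.symm
  rcases h2 with h2 | h2
  · exact mul_ne_zero (inv_ne_zero card_ne) (mul_ne_zero (sg_ne_zero _) (sg_ne_zero _)) h2
  · exact hv h2

theorem er_ne {α β : Fˣ →* ℤˣ} {v : V} (hv : v ≠ 0) (hu : UFix ρ v) (h : TC ρ α β v)
    (hb : β ≠ 1) : Er ρ v ≠ 0 := by
  intro h0
  have h1 := er_sq_off hu h hb
  rw [h0, map_zero] at h1
  have h2 := smul_eq_zero.1 h1.symm
  rcases h2 with h2 | h2
  · exact mul_ne_zero (inv_ne_zero card_ne) (sg_ne_zero _) h2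
  · exact hv h2

/-- sign data of a vector on which `B` acts by signs -/
theorem BSign_to {lam : bor3 F →* ℤˣ} {v : V} (hact : ∀ b : bor3 F, ρ b v = ((lam b : ℤ) : Ω) • v) :
    TC ρ ((lam.comp (tb F)).comp (MonoidHom.inl Fˣ Fˣ)) ((lam.comp (tb F)).comp (MonoidHom.inr Fˣ Fˣ)) v
      := by
  intro a b
  have h1 := hact (tb F (a, b))
  have h2 : ((tb F (a, b) : bor3 F) : SpecialLinearGroup (Fin 3) F) = t3 a b := rfl
  rw [h2] at h1
  rw [h1]
  congr 1
  change _ = sg Ω (lam (tb F (a, 1))) * sg Ω (lam (tb F (1, b)))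
  rw [← sg_mul, ← map_mul, ← map_mul, Prod.mk_mul_mk, mul_one, one_mul]
  rfl

theorem lam_eq_lamOf (h2 : (2 : F) ≠ 0) (lam : bor3 F →* ℤˣ) :
    lam = lamOf ((lam.comp (tb F)).comp (MonoidHom.inl Fˣ Fˣ))
      ((lam.comp (tb F)).comp (MonoidHom.inr Fˣ Fˣ)) := by
  refine MonoidHom.ext fun b => ?_
  obtain ⟨x, y, z, a, c, rfl⟩ := bor_cases b
  rw [map_mul, map_mul, lamOf_u3, lamOf_t3, lam_uni h2 lam _ (u3_mem_uni x y z)]
  congr 1
  change lam (tb F (a, c)) = lam (tb F (a, 1)) * lam (tb F (1, c))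
  rw [← map_mul, ← map_mul, Prod.mk_mul_mk, mul_one, one_mul]

theorem act_lamOf {α β : Fˣ →* ℤˣ} {v : V} (hu : UFix ρ v) (h : TC ρ α β v) (b : bor3 F) :
    ρ b v = ((lamOf α β b : ℤ) : Ω) • v := by
  obtain ⟨x, y, z, a, c, rfl⟩ := bor_cases b
  rw [map_mul, lamOf_u3, lamOf_t3, one_mul]
  have h1 : (((⟨u3 x y z, u3_mem_bor x y z⟩ : bor3 F) * ⟨t3 a c, t3_mem a c⟩ : bor3 F) :
      SpecialLinearGroup (Fin 3) F) = u3 x y z * t3 a c := rfl
  rw [h1, map_mul, Module.End.mul_apply, h a c, map_smul, hu _ (u3_mem_uni x y z)]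
  congr 1
  exact (sg_mul (Ω := Ω) _ _).symm

/-- `e x = 0` if `T` acts on `x` through other signs -/
theorem lav_zero {lam : bor3 F →* ℤˣ} {α β : Fˣ →* ℤˣ} {x : V} (h : TC ρ α β x) (a b : Fˣ)
    (hne : lam ⟨t3 a b, t3_mem a b⟩ ≠ α a * β b) : lav (bor3 F) lam ρ x = 0 := by
  have h1 := lav_mul (bor3 F) lam ρ ⟨t3 a b, t3_mem a b⟩ x
  have h2 : ρ (((⟨t3 a b, t3_mem a b⟩ : bor3 F)) : SpecialLinearGroup (Fin 3) F) x =
      (sg Ω (α a) * sg Ω (β b)) • x := h a b
  rw [h2, map_smul, ← sg_mul] at h1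
  have h3 : (sg Ω (α a * β b) - sg Ω (lam ⟨t3 a b, t3_mem a b⟩)) • lav (bor3 F) lam ρ x = 0 := by
    rw [sub_smul, h1]
    exact sub_self _
  rcases smul_eq_zero.1 h3 with h4 | h4
  · exact absurd (sg_inj (sub_eq_zero.1 h4)).symm hne
  · exact h4

/-- reduction to the six Weyl elements -/
theorem hecke_red {lam : bor3 F →* ℤˣ}
    (hl : ∀ b : bor3 F, (b : SpecialLinearGroup (Fin 3) F) ∈ uni3 F → lam b = 1) {v : V}
    (hact : ∀ b : bor3 F, ρ b v = ((lam b : ℤ) : Ω) • v)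
    (hs : ∃ c : ℚ, lav (bor3 F) lam ρ (Es ρ v) = (c : Ω) • v)
    (hr : ∃ c : ℚ, lav (bor3 F) lam ρ (Er ρ v) = (c : Ω) • v)
    (hsr : ∃ c : ℚ, lav (bor3 F) lam ρ (Es ρ (Er ρ v)) = (c : Ω) • v)
    (hrs : ∃ c : ℚ, lav (bor3 F) lam ρ (Er ρ (Es ρ v)) = (c : Ω) • v)
    (hsrs : ∃ c : ℚ, lav (bor3 F) lam ρ (Es ρ (Er ρ (Es ρ v))) = (c : Ω) • v) :
    ∃ c : SpecialLinearGroup (Fin 3) F → ℚ, ∀ g, lav (bor3 F) lam ρ (ρ g v) = (c g : Ω) • v := by
  have hu : UFix ρ v := by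
    intro u hu
    have h1 := hact ⟨u, uni3_le hu⟩
    rw [hl ⟨u, uni3_le hu⟩ hu] at h1
    simpa using h1
  have hw : ∀ (u : SpecialLinearGroup (Fin 3) F) (_ : u ∈ uni3 F) (w : SpecialLinearGroup (Fin 3) F)
      (b : bor3 F), (∃ c : ℚ, lav (bor3 F) lam ρ (av_idem (uni3 F) ρ (ρ w v)) = (c : Ω) • v) →
      ∃ c : ℚ, lav (bor3 F) lam ρ (ρ (u * w * b) v) = (c : Ω) • v := by
    rintro u hu w b ⟨c, hc⟩
    refine ⟨(lam b : ℤ) * c, ?_⟩
    rw [map_mul, map_mul, Module.End.mul_apply, Module.End.mul_apply, hact b, map_smul, map_smul,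
      map_smul]
    have h1 := lav_mul (bor3 F) lam ρ ⟨u, uni3_le hu⟩ (ρ w v)
    rw [hl ⟨u, uni3_le hu⟩ hu] at h1
    have h2 : lav (bor3 F) lam ρ (ρ u (ρ w v)) = lav (bor3 F) lam ρ (ρ w v) := by simpa using h1
    rw [h2, ← lav_av (bor3 F) lam (uni3 F) uni3_le hl ρ (ρ w v), hc, smul_smul]
    push_cast
    rfl
  have key : ∀ g, ∃ c : ℚ, lav (bor3 F) lam ρ (ρ g v) = (c : Ω) • v := by
    intro g
    obtain ⟨u, hu', b, hb, h⟩ := bruhat3 g
    rcases h with rfl | rfl | rfl | rfl | rfl | rfl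
    · have h1 := hw u hu' 1 ⟨b, hb⟩ ⟨1, by
        rw [map_one, Module.End.one_apply, av_of_uFix hu, lav_apply hact]; simp⟩
      rw [mul_one] at h1
      exact h1
    · exact hw u hu' (s3 F) ⟨b, hb⟩ hs
    · exact hw u hu' (r3 F) ⟨b, hb⟩ hr
    · exact hw u hu' (s3 F * r3 F) ⟨b, hb⟩ (by rw [Es_Er hu]; exact hsr)
    · exact hw u hu' (r3 F * s3 F) ⟨b, hb⟩ (by rw [Er_Es hu]; exact hrs)
    · exact hw u hu' (s3 F * r3 F * s3 F) ⟨b, hb⟩ (by rw [Es_Er_Es hu]; exact hsrs)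
  choose c hc using key
  exact ⟨c, hc⟩

end Main

end X04_aux

open X04_aux

variable {F : Type} [Field F] [Fintype F] {Ω : Type} [Field Ω] [IsAlgClosed Ω] [CharZero Ω]
  {V : Type v} [AddCommGroup V] [Module Ω V] [FiniteDimensional Ω V]
  {ρ : Representation Ω (SpecialLinearGroup (Fin 3) F) V}

/-- `B` acts on `v ≠ 0` through the signs `lam` -/
structure BSign (ρ : Representation Ω (SpecialLinearGroup (Fin 3) F) V) (lam : bor3 F →* ℤˣ)
    (v : V) : Prop where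
  ne : v ≠ 0
  act : ∀ b : bor3 F, ρ b v = ((lam b : ℤ) : Ω) • v

/-- an irreducible self dual constituent of odd dimension of `V|B` is a line on which `B` acts by
signs (`U` has odd order and acts trivially: `parity_odd`, `exists_inv_rep`; `B/U` is commutative;
as `RankOneOdd.exists_line`) -/
theorem sl3_exists_line (h2 : (2 : F) ≠ 0) (W : Subrepresentation (rs (bor3 F) ρ))
    (hW : W.toRepresentation.IsIrreducible) (hodd : Odd (Module.finrank Ω W.toSubmodule))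
    (hsd : SD W.toRepresentation) : ∃ (v : V) (lam : bor3 F →* ℤˣ), BSign ρ lam v := by
  obtain ⟨v, lam, h1, h3, _⟩ := exists_line_gen uni3_le (odd_card_uni h2)
    (fun b hb q hq => bor3_norm hb hq) (fun b hb b' hb' => bor3_comm hb hb') W hW hodd hsd
  exact ⟨v, lam, h1, h3⟩

/-- `U` acts trivially (`|U|` is odd) -/
theorem BSign.uFix (h2 : (2 : F) ≠ 0) {lam : bor3 F →* ℤˣ} {v : V} (h : BSign ρ lam v) :
    UFix ρ v := by
  intro u hu
  have h1 := h.act ⟨u, uni3_le hu⟩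
  rw [lam_uni h2 lam ⟨u, uni3_le hu⟩ hu] at h1
  simpa using h1

namespace X04_aux

/-- the normal form from the two signs -/
theorem nform_of {ε : Fˣ →* ℤˣ} (hε : ε ≠ 1) {v : V} (hv : v ≠ 0) (hu : UFix ρ v)
    (h : TC ρ ε ε v) : ∃ v' : V, v' ≠ 0 ∧ UFix ρ v' ∧ TC ρ ε ε v' ∧
      (Es ρ v' = v' ∨ Es ρ v' = -((Fintype.card F : Ω)⁻¹ • v')) := by
  have h1 := es_sq_diag hu h
  have hq : (Fintype.card F : Ω) ≠ 0 := card_ne
  by_cases h0 : Es ρ v + (Fintype.card F : Ω)⁻¹ • v = 0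
  · exact ⟨v, hv, hu, h, Or.inr (eq_neg_of_add_eq_zero_left h0)⟩
  · refine ⟨Es ρ v + (Fintype.card F : Ω)⁻¹ • v, h0, uFix_add (uFix_Es v) (uFix_smul hu _),
      (h.es).add (h.smul _), Or.inl ?_⟩
    rw [map_add, map_smul, h1, smul_add, smul_smul]
    have h2 : (Fintype.card F : Ω)⁻¹ * ((Fintype.card F : Ω) - 1) =
        1 - (Fintype.card F : Ω)⁻¹ := by field_simp
    rw [h2, sub_smul, one_smul]
    abel

end X04_aux

/-- a normal form: `B` acts through `lam b = ε(b₃₃)`, `ε` the quadratic character, and `v` is an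
eigenvector of `E_s` -/
structure NForm (ρ : Representation Ω (SpecialLinearGroup (Fin 3) F) V) (lam : bor3 F →* ℤˣ)
    (v : V) : Prop extends BSign ρ lam v where
  one : ∀ (a : Fˣ) (b : bor3 F), (b : SpecialLinearGroup (Fin 3) F) = t3 a a⁻¹ → lam b = 1
  ne1 : ∃ (a : Fˣ) (b : bor3 F), (b : SpecialLinearGroup (Fin 3) F) = t3 1 a ∧ lam b ≠ 1
  eig : Es ρ v = v ∨ Es ρ v = -((Fintype.card F : Ω)⁻¹ • v)

/-- If `B` acts on `v` by nontrivial signs `lam`, there is a vector in normal form. (`lam` is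
trivial on `U` and `lam (t3 a b) = ε(a)^i ε(b)^j` with `(i,j) ≠ (0,0)`. If `i = j = 1`,
`lam (t3 a a⁻¹) = 1`. If `(i,j) = (1,0)` replace `v` by `E_r v`, on which `T` acts by
`lam (t3 a (ab)⁻¹) = ε(a)`; hmm: use `Er_tchar`, `Es_tchar`: the three nontrivial sign characters
`ε(a)`, `ε(b)`, `ε(ab)` of `T` are permuted by `E_s: (a,b) ↦ (b,a)` and
`E_r: (a,b) ↦ (a,(ab)⁻¹)`, so `E_s` exchanges `ε(a)`, `ε(b)` and `E_r` exchanges `ε(b)`, `ε(ab)`.
In these cases `E² v = ± q⁻¹ v` by `Es_sq`, `Er_sq` (the sum over `x` of a nontrivial character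
vanishes), so `E v ≠ 0`. For `lam = ε(ab)` the relation `Es_sq` is
`(E_s - 1)(E_s + q⁻¹) v = 0`; take `v' = (E_s + q⁻¹) v` if it is nonzero and `v' = v`
otherwise.) -/
theorem exists_nform (h2 : (2 : F) ≠ 0) {lam : bor3 F →* ℤˣ} {v : V} (h : BSign ρ lam v)
    (hne : ∃ b, lam b ≠ 1) : ∃ (lam' : bor3 F →* ℤˣ) (v' : V), NForm ρ lam' v' := by
  have hu := h.uFix h2
  have hT := BSign_to h.act
  have hl := lam_eq_lamOf h2 lam
  set α := (lam.comp (tb F)).comp (MonoidHom.inl Fˣ Fˣ) with hα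
  set β := (lam.comp (tb F)).comp (MonoidHom.inr Fˣ Fˣ) with hβ
  -- it is enough to find a vector for `(ε, ε)`
  have fin : ∀ (ε : Fˣ →* ℤˣ), ε ≠ 1 → ∀ x : V, x ≠ 0 → UFix ρ x → TC ρ ε ε x →
      ∃ (lam' : bor3 F →* ℤˣ) (v' : V), NForm ρ lam' v' := by
    intro ε hε x hx hux hTx
    obtain ⟨v', h1, h2', h3, h4⟩ := nform_of hε hx hux hTx
    refine ⟨lamOf ε ε, v', ⟨⟨h1, act_lamOf h2' h3⟩, ?_, ?_, h4⟩⟩
    · intro a b hb
      have h5 : b = ⟨t3 a a⁻¹, t3_mem a a⁻¹⟩ := Subtype.ext hb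
      rw [h5, lamOf_t3, inv_sign]
      rcases Int.units_eq_one_or (ε a) with h6 | h6 <;> rw [h6] <;> simp
    · obtain ⟨g, hg⟩ := exists_neg hε
      refine ⟨g, ⟨t3 1 g, t3_mem 1 g⟩, rfl, ?_⟩
      rw [lamOf_t3, hg, map_one]
      decide
  have step : ∀ (ε : Fˣ →* ℤˣ), ε ≠ 1 → ∀ x : V, x ≠ 0 → UFix ρ x → TC ρ 1 ε x →
      ∃ (lam' : bor3 F →* ℤˣ) (v' : V), NForm ρ lam' v' := by
    intro ε hε x hx hux hTx
    have h3 := hTx.er
    rw [one_mul] at h3
    exact fin ε hε _ (er_ne hx hux hTx hε) (uFix_Er x) h3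
  by_cases hα1 : α = 1
  · by_cases hβ1 : β = 1
    · exfalso
      obtain ⟨b, hb⟩ := hne
      apply hb
      rw [hl, hα1, hβ1]
      simp [lamOf]
    · exact step β hβ1 v h.ne hu (by rw [hα1] at hT; exact hT)
  · by_cases hβ1 : β = 1
    · have h3 := hT.es
      rw [hβ1] at h3 hT
      exact step α hα1 _ (es_ne h.ne hu hT (by rw [mul_one]; exact hα1)) (uFix_Es v) h3
    · have h4 : α = β := sign_unique hα1 hβ1
      rw [h4] at hT
      exact fin β hβ1 v h.ne hu hT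

namespace X04_aux

/-- the sign data of a normal form -/
theorem nform_data (h2 : (2 : F) ≠ 0) {lam : bor3 F →* ℤˣ} {v : V} (h : NForm ρ lam v) :
    ∃ ε : Fˣ →* ℤˣ, ε ≠ 1 ∧ lam = lamOf ε ε ∧ UFix ρ v ∧ TC ρ ε ε v := by
  have hu := h.toBSign.uFix h2
  have hT := BSign_to h.act
  have hl := lam_eq_lamOf h2 lam
  set α := (lam.comp (tb F)).comp (MonoidHom.inl Fˣ Fˣ) with hα
  set β := (lam.comp (tb F)).comp (MonoidHom.inr Fˣ Fˣ) with hβ
  have h3 : α = β := by
    refine MonoidHom.ext fun a => ?_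
    have h4 := h.one a ⟨t3 a a⁻¹, t3_mem a a⁻¹⟩ rfl
    rw [hl, lamOf_t3, inv_sign] at h4
    rcases Int.units_eq_one_or (α a) with h5 | h5 <;> rcases Int.units_eq_one_or (β a) with h6 | h6
      <;> rw [h5, h6] at h4 ⊢ <;> simp at h4
  have h4 : β ≠ 1 := by
    intro h5
    obtain ⟨a, b, hb, hne⟩ := h.ne1
    apply hne
    rw [hl, h3, h5]
    simp [lamOf]
  refine ⟨β, h4, ?_, hu, ?_⟩
  · rw [h3] at hl; exact hl
  · rw [h3] at hT; exact hT

theorem es_eig {v : V} (h : Es ρ v = v ∨ Es ρ v = -((Fintype.card F : Ω)⁻¹ • v)) :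
    ∃ c : ℚ, (c : Ω) ≠ 0 ∧ Es ρ v = (c : Ω) • v := by
  rcases h with h | h
  · exact ⟨1, by simp, by simp [h]⟩
  · refine ⟨-((Fintype.card F : ℚ)⁻¹), ?_, ?_⟩
    · push_cast
      exact neg_ne_zero.2 (inv_ne_zero card_ne)
    · push_cast
      rw [h, neg_smul]

end X04_aux

/-- In normal form `e ρ(g) v` is a rational multiple of `v` (`e` the idempotent of `lam`): by
`bruhat3` it suffices to consider `g = w`; `e_U r v`, `e_U s r v`, `e_U r s v`, `e_U s r s v` are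
eigenvectors of `T` for characters different from `lam`. -/
theorem NForm.hecke (h2 : (2 : F) ≠ 0) {lam : bor3 F →* ℤˣ} {v : V} (h : NForm ρ lam v) :
    ∃ c : SpecialLinearGroup (Fin 3) F → ℚ, ∀ g, lav (bor3 F) lam ρ (ρ g v) = (c g : Ω) • v := by
  obtain ⟨ε, hε, hlam, hu, hT⟩ := nform_data h2 h
  obtain ⟨c, _, hc⟩ := es_eig h.eig
  obtain ⟨g, hg⟩ := exists_neg hε
  have hr : TC ρ (ε * ε) ε (Er ρ v) := hT.er
  have hee : ε * ε = 1 := by
    refine MonoidHom.ext fun x => ?_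
    rw [MonoidHom.mul_apply]
    rcases Int.units_eq_one_or (ε x) with h6 | h6 <;> rw [h6] <;> simp
  rw [hee] at hr
  have hsr := hr.es
  have z1 : lav (bor3 F) lam ρ (Er ρ v) = 0 := by
    apply lav_zero hr g 1
    rw [hlam, lamOf_t3, hg]
    simp
  have z2 : lav (bor3 F) lam ρ (Es ρ (Er ρ v)) = 0 := by
    apply lav_zero hsr 1 g
    rw [hlam, lamOf_t3, hg]
    simp
  refine hecke_red (lam_uni h2 lam) h.act ?_ ⟨0, by rw [z1]; simp⟩ ⟨0, by rw [z2]; simp⟩ ?_ ?_
  · refine ⟨c, ?_⟩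
    rw [hc, map_smul, lav_apply h.act]
  · refine ⟨0, ?_⟩
    rw [hc, map_smul, map_smul, z1]
    simp
  · refine ⟨0, ?_⟩
    rw [hc, map_smul, map_smul, map_smul, z2]
    simp

/-- the case of the trivial character: `E_s v = E_r v = - q⁻¹ v` -/
theorem st_hecke {v : V} (hB : ∀ b ∈ bor3 F, ρ b v = v)
    (hs : Es ρ v = -((Fintype.card F : Ω)⁻¹ • v)) (hr : Er ρ v = -((Fintype.card F : Ω)⁻¹ • v)) :
    ∃ c : SpecialLinearGroup (Fin 3) F → ℚ, ∀ g, lav (bor3 F) 1 ρ (ρ g v) = (c g : Ω) • v := by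
  have hact : ∀ b : bor3 F, ρ b v = (((1 : bor3 F →* ℤˣ) b : ℤ) : Ω) • v := by
    intro b
    rw [hB b b.2]
    simp
  have hs' : Es ρ v = ((-((Fintype.card F : ℚ)⁻¹) : ℚ) : Ω) • v := by
    push_cast
    rw [hs, neg_smul]
  have hr' : Er ρ v = ((-((Fintype.card F : ℚ)⁻¹) : ℚ) : Ω) • v := by
    push_cast
    rw [hr, neg_smul]
  set k : ℚ := -((Fintype.card F : ℚ)⁻¹) with hk
  have hv1 := lav_apply hact
  refine hecke_red (fun b _ => rfl) hact ⟨k, ?_⟩ ⟨k, ?_⟩ ⟨k * k, ?_⟩ ⟨k * k, ?_⟩ ⟨k * k * k, ?_⟩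
  · rw [hs', map_smul, hv1]
  · rw [hr', map_smul, hv1]
  · rw [hr', map_smul, map_smul, hs', map_smul, hv1, smul_smul]
    push_cast; rfl
  · rw [hs', map_smul, map_smul, hr', map_smul, hv1, smul_smul]
    push_cast; rfl
  · rw [hs', map_smul, map_smul, map_smul, hr', map_smul, map_smul, hs', map_smul, hv1, smul_smul,
      smul_smul]
    push_cast; rfl

/-- in normal form `V^U` is three dimensional: spanned by `v`, `E_r v`, `E_s E_r v`, which are
nonzero and have three different characters under `T` -/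
theorem NForm.finrank (h2 : (2 : F) ≠ 0) {lam : bor3 F →* ℤˣ} {v : V} (h : NForm ρ lam v)
    (hspan : Submodule.span Ω (Set.range fun g => ρ g v) = ⊤) :
    Module.finrank Ω (rs (uni3 F) ρ).invariants = 3 := by
  obtain ⟨ε, hε, hlam, hu, hT⟩ := nform_data h2 h
  obtain ⟨c, _, hc⟩ := es_eig h.eig
  obtain ⟨g, hg⟩ := exists_neg hε
  have hr : TC ρ (ε * ε) ε (Er ρ v) := hT.er
  have hee : ε * ε = 1 := by
    refine MonoidHom.ext fun x => ?_
    rw [MonoidHom.mul_apply]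
    rcases Int.units_eq_one_or (ε x) with h6 | h6 <;> rw [h6] <;> simp
  rw [hee] at hr
  have hsr := hr.es
  have n1 : v ≠ 0 := h.ne
  have n2 : Er ρ v ≠ 0 := er_ne n1 hu hT hε
  have n3 : Es ρ (Er ρ v) ≠ 0 := es_ne n2 (uFix_Er v) hr (by rw [one_mul]; exact hε)
  set w := Er ρ v with hw
  set z := Es ρ w with hz
  have hgs : sg Ω (ε g) = -1 := by rw [hg]; simp [sg]
  have av1 : ρ (t3 g 1) v = -v := by
    have h1 := hT g 1
    change ρ (t3 g 1) v = (sg Ω (ε g) * sg Ω (ε 1)) • v at h1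
    rw [h1, hgs, map_one, sg_one, mul_one, neg_smul, one_smul]
  have aw1 : ρ (t3 g 1) w = w := by
    have h1 := hr g 1
    change ρ (t3 g 1) w = (sg Ω ((1 : Fˣ →* ℤˣ) g) * sg Ω (ε 1)) • w at h1
    rw [h1, MonoidHom.one_apply, map_one, sg_one, mul_one, one_smul]
  have az1 : ρ (t3 g 1) z = -z := by
    have h1 := hsr g 1
    change ρ (t3 g 1) z = (sg Ω (ε g) * sg Ω ((1 : Fˣ →* ℤˣ) 1)) • z at h1
    rw [h1, hgs, MonoidHom.one_apply, sg_one, mul_one, neg_smul, one_smul]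
  have av2 : ρ (t3 1 g) v = -v := by
    have h1 := hT 1 g
    change ρ (t3 1 g) v = (sg Ω (ε 1) * sg Ω (ε g)) • v at h1
    rw [h1, hgs, map_one, sg_one, one_mul, neg_smul, one_smul]
  have aw2 : ρ (t3 1 g) w = -w := by
    have h1 := hr 1 g
    change ρ (t3 1 g) w = (sg Ω ((1 : Fˣ →* ℤˣ) 1) * sg Ω (ε g)) • w at h1
    rw [h1, hgs, MonoidHom.one_apply, sg_one, one_mul, neg_smul, one_smul]
  have az2 : ρ (t3 1 g) z = z := by
    have h1 := hsr 1 g
    change ρ (t3 1 g) z = (sg Ω (ε 1) * sg Ω ((1 : Fˣ →* ℤˣ) g)) • z at h1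
    rw [h1, MonoidHom.one_apply, map_one, sg_one, one_mul, one_smul]
  have two : ∀ (b : Ω) (x : V), x ≠ 0 → (b + b) • x = 0 → b = 0 := by
    intro b x hx hb
    have h1 := (smul_eq_zero.1 hb).resolve_right hx
    have h3 : (2 : Ω) * b = 0 := by linear_combination h1
    exact (mul_eq_zero.1 h3).resolve_left two_ne_zero
  have hli0 : ∀ a b d : Ω, a • v + b • w + d • z = 0 → a = 0 ∧ b = 0 ∧ d = 0 := by
    intro a b d h0
    have e1 := congrArg (ρ (t3 g 1)) h0
    rw [map_add, map_add, map_smul, map_smul, map_smul, av1, aw1, az1, map_zero] at e1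
    have e2 := congrArg (ρ (t3 1 g)) h0
    rw [map_add, map_add, map_smul, map_smul, map_smul, av2, aw2, az2, map_zero] at e2
    have hb : b = 0 := by
      apply two b w n2
      have h3 : (b + b) • w = (a • v + b • w + d • z) + (a • -v + b • w + d • -z) := by
        simp only [smul_neg, add_smul]; abel
      rw [h3, h0, e1, add_zero]
    have hd : d = 0 := by
      apply two d z n3
      have h3 : (d + d) • z = (a • v + b • w + d • z) + (a • -v + b • -w + d • z) := by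
        simp only [smul_neg, add_smul]; abel
      rw [h3, h0, e2, add_zero]
    rw [hb, hd, zero_smul, zero_smul, add_zero, add_zero] at h0
    exact ⟨(smul_eq_zero.1 h0).resolve_right n1, hb, hd⟩
  have hli : LinearIndependent Ω ![v, w, z] := by
    rw [Fintype.linearIndependent_iff]
    intro f hf
    rw [Fin.sum_univ_three] at hf
    obtain ⟨h3, h4, h5⟩ := hli0 (f 0) (f 1) (f 2) hf
    intro i
    fin_cases i
    · exact h3
    · exact h4
    · exact h5
  have hinv : (rs (uni3 F) ρ).invariants = Submodule.span Ω (Set.range ![v, w, z]) := by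
    apply le_antisymm
    · intro y hy
      have hyu : UFix ρ y := fun u hu' => hy ⟨u, hu'⟩
      obtain ⟨a, b, c', d, e, f, hy'⟩ := span6 hu hT hspan hyu
      have mv : v ∈ Submodule.span Ω (Set.range ![v, w, z]) := Submodule.subset_span ⟨0, rfl⟩
      have mw : w ∈ Submodule.span Ω (Set.range ![v, w, z]) := Submodule.subset_span ⟨1, rfl⟩
      have mz : z ∈ Submodule.span Ω (Set.range ![v, w, z]) := Submodule.subset_span ⟨2, rfl⟩
      rw [hy', hc, map_smul, map_smul, ← hw, ← hz]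
      exact add_mem (add_mem (add_mem (add_mem (add_mem (Submodule.smul_mem _ _ mv)
        (Submodule.smul_mem _ _ (Submodule.smul_mem _ _ mv))) (Submodule.smul_mem _ _ mw))
        (Submodule.smul_mem _ _ mz)) (Submodule.smul_mem _ _ (Submodule.smul_mem _ _ mw)))
        (Submodule.smul_mem _ _ (Submodule.smul_mem _ _ mz))
    · rw [Submodule.span_le]
      rintro _ ⟨i, rfl⟩
      fin_cases i
      · exact fun u => hu u u.2
      · exact fun u => uFix_Er (ρ := ρ) v u.1 u.2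
      · exact fun u => uFix_Es (ρ := ρ) w u.1 u.2
  rw [hinv, finrank_span_eq_card hli, Fintype.card_fin]

/-- for `E_s v = E_r v = - q⁻¹ v`, `V^U` is the line of `v` -/
theorem st_finrank {v : V} (hv : v ≠ 0) (hB : ∀ b ∈ bor3 F, ρ b v = v)
    (hspan : Submodule.span Ω (Set.range fun g => ρ g v) = ⊤)
    (hs : Es ρ v = -((Fintype.card F : Ω)⁻¹ • v)) (hr : Er ρ v = -((Fintype.card F : Ω)⁻¹ • v)) :
    Module.finrank Ω (rs (uni3 F) ρ).invariants = 1 := by
  have hu : UFix ρ v := fun u hu => hB u (uni3_le hu)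
  have hT : TChar ρ (fun _ _ => 1) v := by
    intro a b
    rw [hB _ (t3_mem a b), one_smul]
  have hinv : (rs (uni3 F) ρ).invariants = Submodule.span Ω {v} := by
    apply le_antisymm
    · intro y hy
      have hyu : UFix ρ y := fun u hu' => hy ⟨u, hu'⟩
      obtain ⟨a, b, c', d, e, f, hy'⟩ := span6 hu hT hspan hyu
      have mv : v ∈ Submodule.span Ω {v} := Submodule.mem_span_singleton_self v
      have ms : Es ρ v ∈ Submodule.span Ω {v} := by
        rw [hs]; exact neg_mem (Submodule.smul_mem _ _ mv)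
      have mr : Er ρ v ∈ Submodule.span Ω {v} := by
        rw [hr]; exact neg_mem (Submodule.smul_mem _ _ mv)
      have msr : Es ρ (Er ρ v) ∈ Submodule.span Ω {v} := by
        rw [hr, map_neg, map_smul]; exact neg_mem (Submodule.smul_mem _ _ ms)
      have mrs : Er ρ (Es ρ v) ∈ Submodule.span Ω {v} := by
        rw [hs, map_neg, map_smul]; exact neg_mem (Submodule.smul_mem _ _ mr)
      have msrs : Es ρ (Er ρ (Es ρ v)) ∈ Submodule.span Ω {v} := by
        rw [hs, map_neg, map_smul, map_neg, map_smul]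
        exact neg_mem (Submodule.smul_mem _ _ msr)
      rw [hy']
      exact add_mem (add_mem (add_mem (add_mem (add_mem (Submodule.smul_mem _ _ mv)
        (Submodule.smul_mem _ _ ms)) (Submodule.smul_mem _ _ mr)) (Submodule.smul_mem _ _ msr))
        (Submodule.smul_mem _ _ mrs)) (Submodule.smul_mem _ _ msrs)
    · rw [Submodule.span_le]
      rintro _ rfl
      exact fun u => hu u u.2
  rw [hinv, finrank_span_singleton hv]

end

end Parker
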