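import Pool.Agent.Parker.Defs
import Pool.Agent.Parker.P05
import Pool.Agent.Parker.P06
import Pool.Agent.Parker.P08
import Pool.Agent.Parker.P10
import Pool.Agent.Parker.P13
import Pool.Agent.Parker.P29
import Pool.Agent.Parker.P30
import Pool.Agent.Parker.P31
import Pool.Agent.Parker.P32
import Pool.Agent.Parker.Q01
import Pool.Agent.Parker.Q03
import Pool.Agent.Parker.X01
import Pool.Agent.Parker.X02
import Pool.Agent.Parker.X03
import Pool.Agent.Parker.X04

/-!
# MP_6c3636_al, module X05: (A) and (B) for `SL_3(q)`, `q` odd (helper7)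
-/

namespace Parker

open Matrix

universe v

noncomputable section

variable {F : Type} [Field F] [Fintype F] {Ω : Type} [Field Ω] [IsAlgClosed Ω] [CharZero Ω]
  {V : Type v} [AddCommGroup V] [Module Ω V] [FiniteDimensional Ω V]
  {ρ : Representation Ω (SpecialLinearGroup (Fin 3) F) V}

/-- An irreducible representation with a nonzero vector fixed by `par1` or by `par2` has the
character `1` or `(fixed points) - 1` on a set of `q² + q + 1` elements (`char_two_trans`) -/
theorem sl3_par_fixed (hρ : ρ.IsIrreducible)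
    (h : (∃ v : V, v ≠ 0 ∧ ∀ g ∈ par1 F, ρ g v = v) ∨ ∃ v : V, v ≠ 0 ∧ ∀ g ∈ par2 F, ρ g v = v) :
    (∀ g, ρ.character g = 1) ∨
      (∀ g, ρ.character g = (fixp (SpecialLinearGroup (Fin 3) F ⧸ par1 F) g : Ω) - 1) ∨
      (∀ g, ρ.character g = (fixp (SpecialLinearGroup (Fin 3) F ⧸ par2 F) g : Ω) - 1) := by
  have hpos : 1 ≤ Nat.card F := Nat.card_pos
  rcases h with ⟨v, hv, hfix⟩ | ⟨v, hv, hfix⟩
  · have h2 : 2 ≤ Nat.card (SpecialLinearGroup (Fin 3) F ⧸ par1 F) := by
      rw [card_quot_par1]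
      omega
    rcases char_two_trans (SpecialLinearGroup (Fin 3) F ⧸ par1 F) par1_two_trans h2
      (x₀ := ((1 : SpecialLinearGroup (Fin 3) F) : SpecialLinearGroup (Fin 3) F ⧸ par1 F)) hρ hv
      (by
        intro g hg
        apply hfix
        have h3 : ((g * 1 : SpecialLinearGroup (Fin 3) F) :
          SpecialLinearGroup (Fin 3) F ⧸ par1 F) = ((1 : SpecialLinearGroup (Fin 3) F) :
          SpecialLinearGroup (Fin 3) F ⧸ par1 F) := hg
        rw [mul_one, QuotientGroup.eq, mul_one] at h3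
        exact inv_mem_iff.1 h3) with h | h
    · exact Or.inl h
    · exact Or.inr (Or.inl h)
  · have h2 : 2 ≤ Nat.card (SpecialLinearGroup (Fin 3) F ⧸ par2 F) := by
      rw [card_quot_par2]
      omega
    rcases char_two_trans (SpecialLinearGroup (Fin 3) F ⧸ par2 F) par2_two_trans h2
      (x₀ := ((1 : SpecialLinearGroup (Fin 3) F) : SpecialLinearGroup (Fin 3) F ⧸ par2 F)) hρ hv
      (by
        intro g hg
        apply hfix
        have h3 : ((g * 1 : SpecialLinearGroup (Fin 3) F) :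
          SpecialLinearGroup (Fin 3) F ⧸ par2 F) = ((1 : SpecialLinearGroup (Fin 3) F) :
          SpecialLinearGroup (Fin 3) F ⧸ par2 F) := hg
        rw [mul_one, QuotientGroup.eq, mul_one] at h3
        exact inv_mem_iff.1 h3) with h | h
    · exact Or.inl h
    · exact Or.inr (Or.inr h)

namespace X05_aux

omit [Fintype F] in
theorem t3_mem (a b : Fˣ) : t3 a b ∈ bor3 F := by
  rw [mem_bor3]
  refine ⟨0, 0, 0, a, b, ?_⟩
  have h : (u3 (0 : F) 0 0) = 1 := by
    ext i j
    fin_cases i <;> fin_cases j <;> simp [u3]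
  rw [h, one_mul]

theorem card_odd (h2 : (2 : F) ≠ 0) : Odd (Nat.card F) := by
  rw [Nat.card_eq_fintype_card, Nat.odd_iff]
  refine FiniteField.odd_card_of_char_ne_two ?_
  intro h
  apply h2
  have h1 : ((ringChar F : ℕ) : F) = 0 := CharP.cast_eq_zero F (ringChar F)
  rw [h] at h1
  exact_mod_cast h1

omit [Fintype F] [IsAlgClosed Ω] [CharZero Ω] [FiniteDimensional Ω V] in
/-- a vector on which `B` acts by the trivial sign -/
theorem fixed_of_triv {lam : bor3 F →* ℤˣ} {v : V}
    (hv : ∀ b : bor3 F, ρ b v = ((lam b : ℤ) : Ω) • v) (hl : ∀ b, lam b = 1) :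
    ∀ b ∈ bor3 F, ρ b v = v := by
  intro b hb
  have h1 := hv ⟨b, hb⟩
  rw [hl] at h1
  simpa using h1

/-- the line of a vector fixed by `B`, if nothing is fixed by the parabolic subgroups -/
theorem st_eig {v : V} (hB : ∀ b ∈ bor3 F, ρ b v = v)
    (hpar : ¬ ((∃ v : V, v ≠ 0 ∧ ∀ g ∈ par1 F, ρ g v = v) ∨
      ∃ v : V, v ≠ 0 ∧ ∀ g ∈ par2 F, ρ g v = v)) :
    Es ρ v = -((Fintype.card F : Ω)⁻¹ • v) ∧ Er ρ v = -((Fintype.card F : Ω)⁻¹ • v) := by
  refine steinberg_line (fun u hu => hB u (uni3_le hu)) ?_ ?_ ?_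
  · intro a b
    rw [hB _ (t3_mem a b), one_smul]
  · intro x hx
    by_contra h0
    exact hpar (Or.inl ⟨x, h0, hx⟩)
  · intro x hx
    by_contra h0
    exact hpar (Or.inr ⟨x, h0, hx⟩)

end X05_aux

open X05_aux

/-- (A), `q` odd: if `V|B` has no self dual constituent of odd dimension use `good_of_res`
(`bor3_solvable`, `of_solvable`). Otherwise there is a line (`sl3_exists_line`). If there is a
vector fixed by `par1` or `par2`: `sl3_par_fixed`, `good_perm` (`q² + q + 1` is odd; the trivial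
character has odd degree). Otherwise `V^U` has dimension `1` (`steinberg_line`, `st_finrank`) or
`3` (`exists_nform`, `NForm.finrank`), and `dim V ≡ dim V^U` (`parity_odd` for `U`, `sd_of_orth`):
contradiction. -/
theorem sl3_propA_odd (h2 : (2 : F) ≠ 0) {c : Ctx Ω} :
    PropA c 1 (SpecialLinearGroup (Fin 3) F) := by
  classical
  have hsol : Group.IsSolvable (bor3 F) := bor3_solvable
  have hq := card_odd h2
  refine propA_of_good fun Γ hΓ n ρ hρ hn hO hF => ?_
  have hfr : Module.finrank Ω (Fin n → Ω) = n := by simp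
  by_cases hN : NoOdd (rs (bor3 F) ρ)
  · exact good_of_res (bor3 F) (of_solvable (bor3 F)).1 (of_solvable (bor3 F)).2 hΓ hO hF hN
  unfold NoOdd at hN
  push Not at hN
  obtain ⟨W, hW, hodd, hsd⟩ := hN
  obtain ⟨v, lam, hBS⟩ := sl3_exists_line h2 W hW hodd hsd
  by_cases hpar : (∃ v : Fin n → Ω, v ≠ 0 ∧ ∀ g ∈ par1 F, ρ g v = v) ∨
      ∃ v : Fin n → Ω, v ≠ 0 ∧ ∀ g ∈ par2 F, ρ g v = v
  · have hX : Odd (Nat.card F ^ 2 + Nat.card F + 1) := by
      rcases hq with ⟨k, hk⟩
      exact ⟨2 * k ^ 2 + 3 * k + 1, by rw [hk]; ring⟩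
    rcases sl3_par_fixed hρ hpar with h | h | h
    · exfalso
      have h1 := h 1
      rw [Representation.char_one, hfr] at h1
      have h3 : n = 1 := by exact_mod_cast h1
      rw [h3] at hn
      exact absurd hn (by decide)
    · exact good_perm (SpecialLinearGroup (Fin 3) F ⧸ par1 F) (by rw [card_quot_par1]; exact hX)
        hρ (by rw [hfr]; exact hn) h
    · exact good_perm (SpecialLinearGroup (Fin 3) F ⧸ par2 F) (by rw [card_quot_par2]; exact hX)
        hρ (by rw [hfr]; exact hn) h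
  · exfalso
    have hU : Odd (Nat.card (uni3 F)) := by
      rw [card_uni3]
      exact hq.pow
    have hsdρ : SD (rs (uni3 F) ρ) := fun q => sd_of_orth hO (q : SpecialLinearGroup (Fin 3) F)
    have h3 := parity_odd hU hsdρ
    rw [hfr] at h3
    have h4 : Odd (Module.finrank Ω (rs (uni3 F) ρ).invariants) := by
      by_cases hl : ∀ b, lam b = 1
      · have hB := fixed_of_triv hBS.act hl
        obtain ⟨h5, h6⟩ := st_eig hB hpar
        rw [st_finrank hBS.ne hB (Q03_aux.span_orbit hρ hBS.ne) h5 h6]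
        exact odd_one
      · push Not at hl
        obtain ⟨lam', v', hNF⟩ := exists_nform h2 hBS hl
        rw [hNF.finrank h2 (Q03_aux.span_orbit hρ hNF.ne)]
        exact ⟨1, rfl⟩
    exact (Nat.not_even_iff_odd.2 (h3.2 h4)) hn

/-- (B), `q` odd: `propB_res` for `B` (with `propB_one`, `propB_mono`). In the second case the
character is fixed by all automorphisms: `sl3_par_fixed`, or `fixes_of_hecke` with `st_hecke`,
`NForm.hecke`. -/
theorem sl3_propB_odd (h2 : (2 : F) ≠ 0) {c : Ctx Ω} :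
    PropB c 1 (SpecialLinearGroup (Fin 3) F) := by
  classical
  have hsol : Group.IsSolvable (bor3 F) := bor3_solvable
  have hm : Nat.card (SpecialLinearGroup (Fin 3) F) ≠ 0 := Nat.card_pos.ne'
  refine propB_one hm (dvd_refl _) ?_
  intro Γ hΓ n ρ hρ hn hγ d hd hσ
  have hfr : Module.finrank Ω (Fin n → Ω) = n := by simp
  rcases propB_res (bor3 F) (propB_mono (of_solvable (bor3 F)).2) hΓ hm (dvd_refl _)
    (by rw [hfr]; exact hn) hγ hd hσ with h1 | ⟨W, hW, hodd, hsd⟩
  · exact h1
  obtain ⟨v, lam, hBS⟩ := sl3_exists_line h2 W hW hodd hsd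
  have hall : ∀ σ : RingAut Ω, Fixes σ ρ := by
    intro σ
    by_cases hpar : (∃ v : Fin n → Ω, v ≠ 0 ∧ ∀ g ∈ par1 F, ρ g v = v) ∨
        ∃ v : Fin n → Ω, v ≠ 0 ∧ ∀ g ∈ par2 F, ρ g v = v
    · intro g
      rcases sl3_par_fixed hρ hpar with h | h | h
      · rw [h g, map_one]
      · rw [h g, map_sub, map_natCast, map_one]
      · rw [h g, map_sub, map_natCast, map_one]
    · by_cases hl : ∀ b, lam b = 1
      · have hB := fixed_of_triv hBS.act hl
        obtain ⟨h5, h6⟩ := st_eig hB hpar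
        obtain ⟨c', hc⟩ := st_hecke hB h5 h6
        refine fixes_of_hecke (H := bor3 F) (lam := 1) hρ hBS.ne ?_ c' hc σ
        intro b
        have h7 := hB b b.2
        simpa using h7
      · push Not at hl
        obtain ⟨lam', v', hNF⟩ := exists_nform h2 hBS hl
        obtain ⟨c', hc⟩ := hNF.hecke h2
        exact fixes_of_hecke hρ hNF.ne hNF.act c' hc σ
  refine inV_of_fx hd fun σ _ => ?_
  rw [hσ σ (by assumption), if_pos (hall σ)]

end

end Parker
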