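import Pool.Agent.Parker.Defs
import Pool.Agent.Parker.P01
import Pool.Agent.Parker.P08
import Pool.Agent.Parker.P33
import Pool.Agent.Parker.X01

/-!
# MP_6c3636_al, module Y02: `GL_3(q)`, `q` even, uniqueness of Whittaker vectors (helper7)
-/

namespace Parker

open Matrix

universe v

noncomputable section

variable {F : Type} [Field F]

/-- unitriangular matrices in `GL_3` -/
def ug (x y z : F) : GL (Fin 3) F := Matrix.SpecialLinearGroup.toGL (u3 x y z)

/-- diagonal matrices -/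
def dg3 (a b c : Fˣ) : GL (Fin 3) F where
  val := Matrix.diagonal ![(a : F), (b : F), (c : F)]
  inv := Matrix.diagonal ![((a⁻¹ : Fˣ) : F), ((b⁻¹ : Fˣ) : F), ((c⁻¹ : Fˣ) : F)]
  val_inv := by
    rw [Matrix.diagonal_mul_diagonal]
    ext i j
    fin_cases i <;> fin_cases j <;> simp
  inv_val := by
    rw [Matrix.diagonal_mul_diagonal]
    ext i j
    fin_cases i <;> fin_cases j <;> simp

private theorem dg3_val (a b c : Fˣ) :
    (dg3 a b c).1 = !![(a : F), 0, 0; 0, (b : F), 0; 0, 0, (c : F)] := by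
  ext i j
  fin_cases i <;> fin_cases j <;> simp [dg3]

private theorem ug_val (x y z : F) : (ug x y z).1 = !![1, x, z; 0, 1, y; 0, 0, 1] := rfl

/-- reduction of identities in `GL_3` to identities of matrix entries -/
private theorem gl_ext {g h : GL (Fin 3) F} (e : g.1 = h.1) : g = h := Units.ext e

theorem dg3_mul (a b c a' b' c' : Fˣ) : dg3 a b c * dg3 a' b' c' = dg3 (a * a') (b * b') (c * c') := by
  apply gl_ext
  rw [Units.val_mul, dg3_val, dg3_val, dg3_val]
  ext i j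
  fin_cases i <;> fin_cases j <;> simp [Matrix.mul_apply, Fin.sum_univ_three]

theorem dg3_inv (a b c : Fˣ) : (dg3 a b c)⁻¹ = dg3 a⁻¹ b⁻¹ c⁻¹ := by
  rw [inv_eq_iff_mul_eq_one, dg3_mul, mul_inv_cancel, mul_inv_cancel, mul_inv_cancel]
  apply gl_ext
  rw [dg3_val]
  ext i j
  fin_cases i <;> fin_cases j <;> simp

theorem toGL_t3 (a b : Fˣ) : Matrix.SpecialLinearGroup.toGL (t3 a b) = dg3 a b (a * b)⁻¹ := by
  apply gl_ext
  rw [dg3_val]
  rfl

theorem dg3_ug (a b c : Fˣ) (x y z : F) : dg3 a b c * ug x y z * (dg3 a b c)⁻¹ =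
    ug ((a : F) * (b : F)⁻¹ * x) ((b : F) * (c : F)⁻¹ * y) ((a : F) * (c : F)⁻¹ * z) := by
  rw [mul_inv_eq_iff_eq_mul]
  apply gl_ext
  rw [Units.val_mul, Units.val_mul, dg3_val, ug_val, ug_val]
  have ha := a.ne_zero
  have hb := b.ne_zero
  have hc := c.ne_zero
  ext i j
  fin_cases i <;> fin_cases j <;> simp [Matrix.mul_apply, Fin.sum_univ_three] <;> field_simp

/-- `GL_3 = SL_3 {diag(d,1,1)}` -/
theorem gl3_eq (g : GL (Fin 3) F) : ∃ (d : Fˣ) (x : SpecialLinearGroup (Fin 3) F),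
    g = dg3 d 1 1 * Matrix.SpecialLinearGroup.toGL x := by
  set d : Fˣ := Matrix.GeneralLinearGroup.det g with hd
  have hdet : (dg3 d⁻¹ 1 1 * g).1.det = 1 := by
    rw [Units.val_mul, Matrix.det_mul, dg3_val]
    have h1 : g.1.det = d := rfl
    rw [h1]
    simp [Matrix.det_fin_three]
  refine ⟨d, ⟨(dg3 d⁻¹ 1 1 * g).1, hdet⟩, ?_⟩
  have h1 : Matrix.SpecialLinearGroup.toGL (⟨(dg3 d⁻¹ 1 1 * g).1, hdet⟩ :
      SpecialLinearGroup (Fin 3) F) = dg3 d⁻¹ 1 1 * g := gl_ext rfl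
  rw [h1, ← mul_assoc, dg3_mul, mul_inv_cancel, one_mul]
  have h2 : dg3 (1 : Fˣ) 1 1 = 1 := by
    apply gl_ext
    rw [dg3_val]
    ext i j
    fin_cases i <;> fin_cases j <;> simp
  rw [h2, one_mul]

/-- additive characters with values `±1` -/
def AC (m : F → ℤˣ) : Prop := ∀ x y, m (x + y) = m x * m y

namespace Y02_aux

/-- signs as elements of the field with two elements -/
private def gs (e : ℤˣ) : ZMod 2 := if e = 1 then 0 else 1

private theorem gs_mul : ∀ e e' : ℤˣ, gs (e * e') = gs e + gs e' := by decide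

private theorem gs_inj : ∀ e e' : ℤˣ, gs e = gs e' → e = e' := by decide

private theorem gs_one : gs 1 = 0 := rfl

/-- duality: every additive map is a translate of a given nonzero one -/
private theorem dual_surj {F : Type} [Field F] [Fintype F] [CharP F 2] (L M : F → ZMod 2)
    (hL : ∀ x y, L (x + y) = L x + L y)
    (hM : ∀ x y, M (x + y) = M x + M y) (hL0 : ∃ x, L x ≠ 0) :
    ∃ c : F, ∀ x, M x = L (c * x) := by
  classical
  let _ : Algebra (ZMod 2) F := ZMod.algebra F 2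
  have : Fact (Nat.Prime 2) := ⟨Nat.prime_two⟩
  set L' : F →+ ZMod 2 := AddMonoidHom.mk' L hL with hL'
  set M' : F →+ ZMod 2 := AddMonoidHom.mk' M hM with hM'
  set Ll : F →ₗ[ZMod 2] ZMod 2 := L'.toZModLinearMap 2 with hLl
  set Ml : F →ₗ[ZMod 2] ZMod 2 := M'.toZModLinearMap 2 with hMl
  set Φ : F →ₗ[ZMod 2] Module.Dual (ZMod 2) F := (LinearMap.mul (ZMod 2) F).compr₂ Ll with hΦ
  have hΦa : ∀ c x, Φ c x = L (c * x) := fun c x => rfl
  have hinj : Function.Injective Φ := by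
    rw [← LinearMap.ker_eq_bot, LinearMap.ker_eq_bot']
    intro c hc
    by_contra hc0
    obtain ⟨x, hx⟩ := hL0
    apply hx
    have h1 := hΦa c (c⁻¹ * x)
    rw [hc, ← mul_assoc, mul_inv_cancel₀ hc0, one_mul] at h1
    rw [← h1]
    rfl
  have hsurj : Function.Surjective Φ :=
    (LinearMap.injective_iff_surjective_of_finrank_eq_finrank
      (Subspace.dual_finrank_eq (K := ZMod 2) (V := F)).symm).1 hinj
  obtain ⟨c, hc⟩ := hsurj Ml
  refine ⟨c, fun x => ?_⟩
  rw [← hΦa, hc]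
  rfl

end Y02_aux

open Y02_aux

variable [Fintype F] {Ω : Type} [Field Ω] [IsAlgClosed Ω] [CharZero Ω]
  {V : Type v} [AddCommGroup V] [Module Ω V] [FiniteDimensional Ω V]

/-- all nontrivial characters are multiples of one of them (`P39_aux.dual_surj`) -/
theorem ac_trans (h2 : (2 : F) = 0) {m m' : F → ℤˣ} (hm : AC m) (hm' : AC m')
    (h : ∃ x, m x ≠ 1) (h' : ∃ x, m' x ≠ 1) : ∃ c : Fˣ, ∀ x, m' x = m (c * x) := by
  have hchar : CharP F 2 := by
    have : Fact (Nat.Prime 2) := ⟨Nat.prime_two⟩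
    exact CharTwo.of_one_ne_zero_of_two_eq_zero one_ne_zero h2
  obtain ⟨c, hc⟩ := dual_surj (fun x => gs (m x)) (fun x => gs (m' x))
    (fun x y => by rw [hm, gs_mul]) (fun x y => by rw [hm', gs_mul]) (by
      obtain ⟨x, hx⟩ := h
      exact ⟨x, fun e => hx (gs_inj _ _ (by rw [e, gs_one]))⟩)
  have hc' : ∀ x, m' x = m (c * x) := fun x => gs_inj _ _ (hc x)
  have hc0 : c ≠ 0 := by
    rintro rfl
    obtain ⟨x, hx⟩ := h'
    apply hx
    have h3 : m 0 = m 0 * m 0 := by
      have := hm 0 0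
      rwa [add_zero] at this
    rw [hc' x, zero_mul]
    exact (mul_eq_left.mp h3.symm)
  exact ⟨Units.mk0 c hc0, hc'⟩

namespace Y02_aux

omit [Fintype F] in
private theorem s3_val : (Matrix.SpecialLinearGroup.toGL (s3 F)).1 =
    !![0, 1, 0; -1, 0, 0; 0, 0, 1] := rfl

omit [Fintype F] in
private theorem r3_val : (Matrix.SpecialLinearGroup.toGL (r3 F)).1 =
    !![1, 0, 0; 0, 0, 1; 0, -1, 0] := rfl

/-- reverse transpose -/
private def rt (A : Matrix (Fin 3) (Fin 3) F) : Matrix (Fin 3) (Fin 3) F :=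
  !![A 2 2, A 1 2, A 0 2; A 2 1, A 1 1, A 0 1; A 2 0, A 1 0, A 0 0]

omit [Fintype F] in
private theorem rt_mul (A B : Matrix (Fin 3) (Fin 3) F) : rt (A * B) = rt B * rt A := by
  ext i j
  fin_cases i <;> fin_cases j <;> simp [rt, Matrix.mul_apply, Fin.sum_univ_three] <;> ring

omit [Fintype F] in
private theorem rt_one : rt (1 : Matrix (Fin 3) (Fin 3) F) = 1 := by
  ext i j
  fin_cases i <;> fin_cases j <;> simp [rt]

/-- the antiautomorphism `g ↦ w₀ gᵀ w₀` -/
private def tau (g : GL (Fin 3) F) : GL (Fin 3) F where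
  val := rt g.1
  inv := rt g⁻¹.1
  val_inv := by rw [← rt_mul, ← Units.val_mul, inv_mul_cancel, Units.val_one, rt_one]
  inv_val := by rw [← rt_mul, ← Units.val_mul, mul_inv_cancel, Units.val_one, rt_one]

omit [Fintype F] in
private theorem tau_mul (g h : GL (Fin 3) F) : tau (g * h) = tau h * tau g :=
  gl_ext (by
    change rt (g * h).1 = rt h.1 * rt g.1
    rw [Units.val_mul, rt_mul])

omit [Fintype F] in
private theorem tau_ug (x y z : F) : tau (ug x y z) = ug y x z :=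
  gl_ext (by
    change rt (ug x y z).1 = _
    rw [ug_val, ug_val]
    ext i j
    fin_cases i <;> fin_cases j <;> simp [rt])

omit [Fintype F] in
private theorem ug_mul (x y z x' y' z' : F) :
    ug x y z * ug x' y' z' = ug (x + x') (y + y') (z + z' + x * y') := by
  unfold ug
  rw [← map_mul, u3_mul]

omit [Fintype F] in
private theorem ug_zero : ug (0 : F) 0 0 = 1 :=
  gl_ext (by
    rw [ug_val]
    ext i j
    fin_cases i <;> fin_cases j <;> simp)

/-! ### monomial matrices -/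

/-- monomial matrices -/
private def mo (w : SpecialLinearGroup (Fin 3) F) (a b c : Fˣ) : GL (Fin 3) F :=
  dg3 a b c * Matrix.SpecialLinearGroup.toGL w

omit [Fintype F] in
private theorem mo_one_val (a b c : Fˣ) :
    (mo 1 a b c).1 = !![(a : F), 0, 0; 0, (b : F), 0; 0, 0, (c : F)] := by
  unfold mo
  rw [map_one, mul_one, dg3_val]

omit [Fintype F] in
private theorem mo_s_val (a b c : Fˣ) :
    (mo (s3 F) a b c).1 = !![0, (a : F), 0; -(b : F), 0, 0; 0, 0, (c : F)] := by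
  unfold mo
  rw [Units.val_mul, dg3_val, s3_val]
  ext i j
  fin_cases i <;> fin_cases j <;> simp [Matrix.mul_apply, Fin.sum_univ_three]

omit [Fintype F] in
private theorem mo_r_val (a b c : Fˣ) :
    (mo (r3 F) a b c).1 = !![(a : F), 0, 0; 0, 0, (b : F); 0, -(c : F), 0] := by
  unfold mo
  rw [Units.val_mul, dg3_val, r3_val]
  ext i j
  fin_cases i <;> fin_cases j <;> simp [Matrix.mul_apply, Fin.sum_univ_three]

omit [Fintype F] in
private theorem mo_sr_val (a b c : Fˣ) :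
    (mo (s3 F * r3 F) a b c).1 = !![0, 0, (a : F); -(b : F), 0, 0; 0, -(c : F), 0] := by
  unfold mo
  rw [map_mul, Units.val_mul, Units.val_mul, dg3_val, s3_val, r3_val]
  ext i j
  fin_cases i <;> fin_cases j <;> simp [Matrix.mul_apply, Fin.sum_univ_three]

omit [Fintype F] in
private theorem mo_rs_val (a b c : Fˣ) :
    (mo (r3 F * s3 F) a b c).1 = !![0, (a : F), 0; 0, 0, (b : F); (c : F), 0, 0] := by
  unfold mo
  rw [map_mul, Units.val_mul, Units.val_mul, dg3_val, s3_val, r3_val]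
  ext i j
  fin_cases i <;> fin_cases j <;> simp [Matrix.mul_apply, Fin.sum_univ_three]

omit [Fintype F] in
private theorem mo_srs_val (a b c : Fˣ) :
    (mo (s3 F * r3 F * s3 F) a b c).1 = !![0, 0, (a : F); 0, -(b : F), 0; (c : F), 0, 0] := by
  unfold mo
  rw [map_mul, map_mul, Units.val_mul, Units.val_mul, Units.val_mul, dg3_val, s3_val, r3_val]
  ext i j
  fin_cases i <;> fin_cases j <;> simp [Matrix.mul_apply, Fin.sum_univ_three]

omit [Fintype F] in
private theorem tau_mo_one (a b c : Fˣ) : tau (mo 1 a b c) = mo 1 c b a :=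
  gl_ext (by
    change rt (mo 1 a b c).1 = _
    rw [mo_one_val, mo_one_val]
    ext i j
    fin_cases i <;> fin_cases j <;> simp [rt])

omit [Fintype F] in
private theorem tau_mo_s (a b c : Fˣ) : tau (mo (s3 F) a b c) = mo (r3 F) c a b :=
  gl_ext (by
    change rt (mo (s3 F) a b c).1 = _
    rw [mo_s_val, mo_r_val]
    ext i j
    fin_cases i <;> fin_cases j <;> simp [rt])

omit [Fintype F] in
private theorem tau_mo_r (a b c : Fˣ) : tau (mo (r3 F) a b c) = mo (s3 F) b c a :=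
  gl_ext (by
    change rt (mo (r3 F) a b c).1 = _
    rw [mo_s_val, mo_r_val]
    ext i j
    fin_cases i <;> fin_cases j <;> simp [rt])

omit [Fintype F] in
private theorem tau_mo_sr (a b c : Fˣ) :
    tau (mo (s3 F * r3 F) a b c) = mo (s3 F * r3 F) a c b :=
  gl_ext (by
    change rt (mo (s3 F * r3 F) a b c).1 = _
    rw [mo_sr_val, mo_sr_val]
    ext i j
    fin_cases i <;> fin_cases j <;> simp [rt])

omit [Fintype F] in
private theorem tau_mo_rs (a b c : Fˣ) :
    tau (mo (r3 F * s3 F) a b c) = mo (r3 F * s3 F) b a c :=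
  gl_ext (by
    change rt (mo (r3 F * s3 F) a b c).1 = _
    rw [mo_rs_val, mo_rs_val]
    ext i j
    fin_cases i <;> fin_cases j <;> simp [rt])

omit [Fintype F] in
private theorem tau_mo_srs (a b c : Fˣ) :
    tau (mo (s3 F * r3 F * s3 F) a b c) = mo (s3 F * r3 F * s3 F) a b c :=
  gl_ext (by
    change rt (mo (s3 F * r3 F * s3 F) a b c).1 = _
    rw [mo_srs_val]
    ext i j
    fin_cases i <;> fin_cases j <;> simp [rt])

omit [Fintype F] in
private theorem mo_one_ug (a b c : Fˣ) (x y : F) : mo 1 a b c * ug x y 0 =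
    ug ((a : F) * (b : F)⁻¹ * x) ((b : F) * (c : F)⁻¹ * y) 0 * mo 1 a b c := by
  have ha := a.ne_zero
  have hb := b.ne_zero
  have hc := c.ne_zero
  apply gl_ext
  rw [Units.val_mul, Units.val_mul, mo_one_val, ug_val, ug_val]
  ext i j
  fin_cases i <;> fin_cases j <;> simp [Matrix.mul_apply, Fin.sum_univ_three] <;> field_simp

omit [Fintype F] in
private theorem mo_s_ug (a b c : Fˣ) (y : F) : mo (s3 F) a b c * ug 0 y 0 =
    ug 0 0 ((a : F) * (c : F)⁻¹ * y) * mo (s3 F) a b c := by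
  have ha := a.ne_zero
  have hb := b.ne_zero
  have hc := c.ne_zero
  apply gl_ext
  rw [Units.val_mul, Units.val_mul, mo_s_val, ug_val, ug_val]
  ext i j
  fin_cases i <;> fin_cases j <;> simp [Matrix.mul_apply, Fin.sum_univ_three]
  field_simp

omit [Fintype F] in
private theorem mo_r_ug (a b c : Fˣ) (x : F) : mo (r3 F) a b c * ug x 0 0 =
    ug 0 0 (-((a : F) * (c : F)⁻¹ * x)) * mo (r3 F) a b c := by
  have ha := a.ne_zero
  have hb := b.ne_zero
  have hc := c.ne_zero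
  apply gl_ext
  rw [Units.val_mul, Units.val_mul, mo_r_val, ug_val, ug_val]
  ext i j
  fin_cases i <;> fin_cases j <;> simp [Matrix.mul_apply, Fin.sum_univ_three]
  field_simp

omit [Fintype F] in
private theorem mo_sr_ug (a b c : Fˣ) (x : F) : mo (s3 F * r3 F) a b c * ug x 0 0 =
    ug 0 ((b : F) * (c : F)⁻¹ * x) 0 * mo (s3 F * r3 F) a b c := by
  have ha := a.ne_zero
  have hb := b.ne_zero
  have hc := c.ne_zero
  apply gl_ext
  rw [Units.val_mul, Units.val_mul, mo_sr_val, ug_val, ug_val]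
  ext i j
  fin_cases i <;> fin_cases j <;> simp [Matrix.mul_apply, Fin.sum_univ_three]
  field_simp

omit [Fintype F] in
private theorem mo_rs_ug (a b c : Fˣ) (y : F) : mo (r3 F * s3 F) a b c * ug 0 y 0 =
    ug ((a : F) * (b : F)⁻¹ * y) 0 0 * mo (r3 F * s3 F) a b c := by
  have ha := a.ne_zero
  have hb := b.ne_zero
  have hc := c.ne_zero
  apply gl_ext
  rw [Units.val_mul, Units.val_mul, mo_rs_val, ug_val, ug_val]
  ext i j
  fin_cases i <;> fin_cases j <;> simp [Matrix.mul_apply, Fin.sum_univ_three]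
  field_simp

omit [Fintype F] in
private theorem mo_s_dg (a b c a' b' c' : Fˣ) :
    mo (s3 F) a b c * dg3 a' b' c' = mo (s3 F) (a * b') (b * a') (c * c') := by
  apply gl_ext
  rw [Units.val_mul, mo_s_val, mo_s_val, dg3_val]
  ext i j
  fin_cases i <;> fin_cases j <;> simp [Matrix.mul_apply, Fin.sum_univ_three]

omit [Fintype F] in
private theorem mo_r_dg (a b c a' b' c' : Fˣ) :
    mo (r3 F) a b c * dg3 a' b' c' = mo (r3 F) (a * a') (b * c') (c * b') := by
  apply gl_ext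
  rw [Units.val_mul, mo_r_val, mo_r_val, dg3_val]
  ext i j
  fin_cases i <;> fin_cases j <;> simp [Matrix.mul_apply, Fin.sum_univ_three]

omit [Fintype F] in
private theorem mo_one_dg (a b c a' b' c' : Fˣ) :
    mo 1 a b c * dg3 a' b' c' = mo 1 (a * a') (b * b') (c * c') := by
  apply gl_ext
  rw [Units.val_mul, mo_one_val, mo_one_val, dg3_val]
  ext i j
  fin_cases i <;> fin_cases j <;> simp [Matrix.mul_apply, Fin.sum_univ_three]

omit [Fintype F] in
private theorem mo_sr_dg (a b c a' b' c' : Fˣ) :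
    mo (s3 F * r3 F) a b c * dg3 a' b' c' = mo (s3 F * r3 F) (a * c') (b * a') (c * b') := by
  apply gl_ext
  rw [Units.val_mul, mo_sr_val, mo_sr_val, dg3_val]
  ext i j
  fin_cases i <;> fin_cases j <;> simp [Matrix.mul_apply, Fin.sum_univ_three]

omit [Fintype F] in
private theorem mo_rs_dg (a b c a' b' c' : Fˣ) :
    mo (r3 F * s3 F) a b c * dg3 a' b' c' = mo (r3 F * s3 F) (a * b') (b * c') (c * a') := by
  apply gl_ext
  rw [Units.val_mul, mo_rs_val, mo_rs_val, dg3_val]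
  ext i j
  fin_cases i <;> fin_cases j <;> simp [Matrix.mul_apply, Fin.sum_univ_three]

omit [Fintype F] in
private theorem mo_srs_dg (a b c a' b' c' : Fˣ) :
    mo (s3 F * r3 F * s3 F) a b c * dg3 a' b' c' =
      mo (s3 F * r3 F * s3 F) (a * c') (b * b') (c * a') := by
  apply gl_ext
  rw [Units.val_mul, mo_srs_val, mo_srs_val, dg3_val]
  ext i j
  fin_cases i <;> fin_cases j <;> simp [Matrix.mul_apply, Fin.sum_univ_three]

/-- the six types of monomial matrices -/
private def Mo (n : GL (Fin 3) F) : Prop :=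
  ∃ a b c : Fˣ, n = mo 1 a b c ∨ n = mo (s3 F) a b c ∨ n = mo (r3 F) a b c ∨
    n = mo (s3 F * r3 F) a b c ∨ n = mo (r3 F * s3 F) a b c ∨ n = mo (s3 F * r3 F * s3 F) a b c

omit [Fintype F] in
private theorem dg3_conj (t1 t2 t3 : Fˣ) (x y z : F) : ∃ x' y' z' : F,
    ug x y z * dg3 t1 t2 t3 = dg3 t1 t2 t3 * ug x' y' z' := by
  refine ⟨((t1⁻¹ : Fˣ) : F) * ((t2⁻¹ : Fˣ) : F)⁻¹ * x, ((t2⁻¹ : Fˣ) : F) * ((t3⁻¹ : Fˣ) : F)⁻¹ * y,
    ((t1⁻¹ : Fˣ) : F) * ((t3⁻¹ : Fˣ) : F)⁻¹ * z, ?_⟩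
  have h := dg3_ug t1⁻¹ t2⁻¹ t3⁻¹ x y z
  rw [dg3_inv, inv_inv, inv_inv, inv_inv] at h
  rw [← h, ← mul_assoc, ← mul_assoc, dg3_mul, mul_inv_cancel, mul_inv_cancel, mul_inv_cancel]
  have h2 : dg3 (1 : Fˣ) 1 1 = 1 := by
    apply gl_ext
    rw [dg3_val]
    ext i j
    fin_cases i <;> fin_cases j <;> simp
  rw [h2, one_mul]

omit [Fintype F] in
/-- Bruhat decomposition of `GL_3` -/
private theorem bruhat_gl (g : GL (Fin 3) F) : ∃ x y z x' y' z' : F, ∃ n, Mo n ∧
    g = ug x y z * n * ug x' y' z' := by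
  obtain ⟨d, h, rfl⟩ := gl3_eq g
  obtain ⟨_, ⟨⟨x, y, z⟩, rfl⟩, b, hb, hh⟩ := bruhat3 h
  obtain ⟨x', y', z', t1, t2, rfl⟩ := mem_bor3.1 hb
  set L : GL (Fin 3) F := ug ((d : F) * ((1 : Fˣ) : F)⁻¹ * x)
    (((1 : Fˣ) : F) * ((1 : Fˣ) : F)⁻¹ * y) ((d : F) * ((1 : Fˣ) : F)⁻¹ * z) with hL
  have e1 : dg3 d 1 1 * ug x y z = L * dg3 d 1 1 := by
    rw [hL, ← dg3_ug d 1 1 x y z, inv_mul_cancel_right]
  obtain ⟨x2, y2, z2, e2⟩ := dg3_conj t1 t2 (t1 * t2)⁻¹ x' y' z'
  -- for a Weyl group element `w` such that `w` normalizes the torus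
  have key : ∀ w : SpecialLinearGroup (Fin 3) F,
      h = u3 x y z * w * (u3 x' y' z' * t3 t1 t2) →
      dg3 d 1 1 * Matrix.SpecialLinearGroup.toGL h =
        L * (mo w d 1 1 * dg3 t1 t2 (t1 * t2)⁻¹) * ug x2 y2 z2 := by
    intro w hw
    rw [hw, map_mul, map_mul, map_mul, toGL_t3]
    change dg3 d 1 1 * (ug x y z * _ * (ug x' y' z' * _)) = _
    rw [e2, mo]
    simp only [mul_assoc]
    rw [← mul_assoc (dg3 d 1 1) (ug x y z), e1]
    simp only [mul_assoc]
  rcases hh with hh | hh | hh | hh | hh | hh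
  · refine ⟨_, _, _, _, _, _, _, ?_, key 1 (by rw [mul_one]; exact hh)⟩
    exact ⟨_, _, _, Or.inl (mo_one_dg _ _ _ _ _ _)⟩
  · refine ⟨_, _, _, _, _, _, _, ?_, key _ hh⟩
    exact ⟨_, _, _, Or.inr (Or.inl (mo_s_dg _ _ _ _ _ _))⟩
  · refine ⟨_, _, _, _, _, _, _, ?_, key _ hh⟩
    exact ⟨_, _, _, Or.inr (Or.inr (Or.inl (mo_r_dg _ _ _ _ _ _)))⟩
  · refine ⟨_, _, _, _, _, _, _, ?_, key _ hh⟩
    exact ⟨_, _, _, Or.inr (Or.inr (Or.inr (Or.inl (mo_sr_dg _ _ _ _ _ _))))⟩
  · refine ⟨_, _, _, _, _, _, _, ?_, key _ hh⟩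
    exact ⟨_, _, _, Or.inr (Or.inr (Or.inr (Or.inr (Or.inl (mo_rs_dg _ _ _ _ _ _)))))⟩
  · refine ⟨_, _, _, _, _, _, _, ?_, key _ hh⟩
    exact ⟨_, _, _, Or.inr (Or.inr (Or.inr (Or.inr (Or.inr (mo_srs_dg _ _ _ _ _ _)))))⟩

/-! ### the idempotent of a regular character -/

section idem

/-- the values of the character -/
private def ps (Ω : Type) [Field Ω] (m : F → ℤˣ) (x y : F) : Ω := (((m x * m y : ℤˣ) : ℤ) : Ω)

omit [Field F] [Fintype F] [IsAlgClosed Ω] [CharZero Ω] in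
private theorem ps_sq (m : F → ℤˣ) (x y : F) : ps Ω m x y * ps Ω m x y = 1 := by
  unfold ps
  rcases Int.units_eq_one_or (m x * m y) with h | h <;> simp [h]

omit [Fintype F] [IsAlgClosed Ω] [CharZero Ω] in
private theorem ps_add {m : F → ℤˣ} (hm : AC m) (x y x' y' : F) :
    ps Ω m (x + x') (y + y') = ps Ω m x y * ps Ω m x' y' := by
  unfold ps
  rw [hm, hm, ← Int.cast_mul, ← Units.val_mul]
  have h : m x * m x' * (m y * m y') = m x * m y * (m x' * m y') := mul_mul_mul_comm _ _ _ _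
  rw [h]

omit [Field F] [Fintype F] [IsAlgClosed Ω] [CharZero Ω] in
private theorem ps_comm (m : F → ℤˣ) (x y : F) : ps Ω m x y = ps Ω m y x := by
  unfold ps
  rw [mul_comm]

omit [Field F] [Fintype F] [IsAlgClosed Ω] in
private theorem ps_inj {m : F → ℤˣ} {x y x' y' : F} (h : ps Ω m x y = ps Ω m x' y') :
    m x * m y = m x' * m y' := by
  unfold ps at h
  exact Units.ext (by exact_mod_cast h)

/-- the idempotent -/
private def EE (ρ : Representation Ω (GL (Fin 3) F) V) (m : F → ℤˣ) : Module.End Ω V :=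
  (Fintype.card (F × F × F) : Ω)⁻¹ • ∑ p : F × F × F, ps Ω m p.1 p.2.1 • ρ (ug p.1 p.2.1 p.2.2)

omit [IsAlgClosed Ω] [CharZero Ω] [FiniteDimensional Ω V] in
private theorem EE_right (ρ : Representation Ω (GL (Fin 3) F) V) {m : F → ℤˣ} (hm : AC m)
    (x y z : F) : EE ρ m * ρ (ug x y z) = ps Ω m x y • EE ρ m := by
  unfold EE
  have key : ∑ p : F × F × F, (ps Ω m p.1 p.2.1 • ρ (ug p.1 p.2.1 p.2.2)) * ρ (ug x y z) =
      ∑ p : F × F × F, ps Ω m x y • (ps Ω m p.1 p.2.1 • ρ (ug p.1 p.2.1 p.2.2)) := by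
    let e : F × F × F ≃ F × F × F :=
      { toFun := fun p => (p.1 + x, p.2.1 + y, p.2.2 + z + p.1 * y)
        invFun := fun p => (p.1 - x, p.2.1 - y, p.2.2 - z - (p.1 - x) * y)
        left_inv := fun p => by
          refine Prod.ext ?_ (Prod.ext ?_ ?_)
          · simp
          · simp
          · change p.2.2 + z + p.1 * y - z - (p.1 + x - x) * y = p.2.2
            ring
        right_inv := fun p => by
          refine Prod.ext ?_ (Prod.ext ?_ ?_)
          · simp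
          · simp
          · change p.2.2 - z - (p.1 - x) * y + z + (p.1 - x) * y = p.2.2
            ring }
    refine Fintype.sum_equiv e _ _ (fun p => ?_)
    change _ = ps Ω m x y • (ps Ω m (p.1 + x) (p.2.1 + y) •
      ρ (ug (p.1 + x) (p.2.1 + y) (p.2.2 + z + p.1 * y)))
    rw [← ug_mul, map_mul, smul_mul_assoc, ps_add hm, smul_smul]
    congr 1
    have := ps_sq (Ω := Ω) m x y
    calc ps Ω m p.1 p.2.1 = ps Ω m p.1 p.2.1 * (ps Ω m x y * ps Ω m x y) := by rw [this, mul_one]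
      _ = _ := by ring
  rw [smul_mul_assoc, Finset.sum_mul, key, ← Finset.smul_sum, smul_comm]

omit [IsAlgClosed Ω] [CharZero Ω] [FiniteDimensional Ω V] in
private theorem EE_left (ρ : Representation Ω (GL (Fin 3) F) V) {m : F → ℤˣ} (hm : AC m)
    (x y z : F) : ρ (ug x y z) * EE ρ m = ps Ω m x y • EE ρ m := by
  unfold EE
  have key : ∑ p : F × F × F, ρ (ug x y z) * (ps Ω m p.1 p.2.1 • ρ (ug p.1 p.2.1 p.2.2)) =
      ∑ p : F × F × F, ps Ω m x y • (ps Ω m p.1 p.2.1 • ρ (ug p.1 p.2.1 p.2.2)) := by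
    let e : F × F × F ≃ F × F × F :=
      { toFun := fun p => (x + p.1, y + p.2.1, z + p.2.2 + x * p.2.1)
        invFun := fun p => (p.1 - x, p.2.1 - y, p.2.2 - z - x * (p.2.1 - y))
        left_inv := fun p => by
          refine Prod.ext ?_ (Prod.ext ?_ ?_)
          · simp
          · simp
          · change z + p.2.2 + x * p.2.1 - z - x * (y + p.2.1 - y) = p.2.2
            ring
        right_inv := fun p => by
          refine Prod.ext ?_ (Prod.ext ?_ ?_)
          · simp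
          · simp
          · change z + (p.2.2 - z - x * (p.2.1 - y)) + x * (p.2.1 - y) = p.2.2
            ring }
    refine Fintype.sum_equiv e _ _ (fun p => ?_)
    change _ = ps Ω m x y • (ps Ω m (x + p.1) (y + p.2.1) •
      ρ (ug (x + p.1) (y + p.2.1) (z + p.2.2 + x * p.2.1)))
    rw [← ug_mul, map_mul, mul_smul_comm, ps_add hm, smul_smul]
    congr 1
    have := ps_sq (Ω := Ω) m x y
    calc ps Ω m p.1 p.2.1 = ps Ω m p.1 p.2.1 * (ps Ω m x y * ps Ω m x y) := by rw [this, mul_one]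
      _ = _ := by ring
  rw [mul_smul_comm, Finset.mul_sum, key, ← Finset.smul_sum, smul_comm]

omit [IsAlgClosed Ω] [FiniteDimensional Ω V] in
private theorem EE_fix (ρ : Representation Ω (GL (Fin 3) F) V) (m : F → ℤˣ) {v : V}
    (h1 : ∀ x y z, ρ (ug x y z) v = ps Ω m x y • v) : EE ρ m v = v := by
  have hc : (Fintype.card (F × F × F) : Ω) ≠ 0 := Nat.cast_ne_zero.mpr Fintype.card_ne_zero
  unfold EE
  rw [LinearMap.smul_apply, LinearMap.sum_apply]
  have : ∀ p : F × F × F, (ps Ω m p.1 p.2.1 • ρ (ug p.1 p.2.1 p.2.2)) v = v := by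
    intro p
    rw [LinearMap.smul_apply, h1, smul_smul, ps_sq, one_smul]
  rw [Finset.sum_congr rfl fun p _ => this p, Finset.sum_const, Finset.card_univ,
    ← Nat.cast_smul_eq_nsmul Ω, smul_smul, inv_mul_cancel₀ hc, one_smul]

omit [IsAlgClosed Ω] [FiniteDimensional Ω V] in
private theorem EE_idem (ρ : Representation Ω (GL (Fin 3) F) V) {m : F → ℤˣ} (hm : AC m) :
    EE ρ m * EE ρ m = EE ρ m := by
  ext v
  rw [Module.End.mul_apply]
  apply EE_fix
  intro x y z
  have := congrArg (fun f : Module.End Ω V => f v) (EE_left ρ hm x y z)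
  simpa using this

omit [IsAlgClosed Ω] [CharZero Ω] [FiniteDimensional Ω V] in
private theorem EE_bi (ρ : Representation Ω (GL (Fin 3) F) V) {m : F → ℤˣ} (hm : AC m)
    (x y z x' y' z' : F) (g : GL (Fin 3) F) :
    EE ρ m * ρ (ug x y z * g * ug x' y' z') * EE ρ m =
      (ps Ω m x y * ps Ω m x' y') • (EE ρ m * ρ g * EE ρ m) := by
  rw [map_mul, map_mul, ← mul_assoc, ← mul_assoc, EE_right ρ hm, mul_assoc (_ * _) (ρ (ug x' y' z')),
    EE_left ρ hm, smul_mul_assoc, smul_mul_assoc, mul_smul_comm, smul_smul]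

omit [IsAlgClosed Ω] [FiniteDimensional Ω V] in
private theorem EE_zero (ρ : Representation Ω (GL (Fin 3) F) V) {m : F → ℤˣ} (hm : AC m)
    {x y z x' y' z' : F} {g : GL (Fin 3) F} (h : g * ug x y z = ug x' y' z' * g)
    (hne : m x * m y ≠ m x' * m y') : EE ρ m * ρ g * EE ρ m = 0 := by
  have e1 := EE_bi ρ hm 0 0 0 x y z g
  have e2 := EE_bi ρ hm x' y' z' 0 0 0 g
  rw [ug_zero, one_mul] at e1
  rw [ug_zero, mul_one, ← h, e1] at e2
  have h0 : ps Ω m (0 : F) 0 = 1 := by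
    have h3 := ps_add (Ω := Ω) hm 0 0 0 0
    rw [add_zero, ps_sq] at h3
    exact h3
  rw [h0, one_mul, mul_one] at e2
  have h3 : (ps Ω m x y - ps Ω m x' y') • (EE ρ m * ρ g * EE ρ m) = 0 := by
    rw [sub_smul, e2, sub_self]
  rcases smul_eq_zero.mp h3 with h4 | h4
  · exact absurd (ps_inj (sub_eq_zero.mp h4)) hne
  · exact h4

omit [Fintype F] in
private theorem m_zero {m : F → ℤˣ} (hm : AC m) : m 0 = 1 := by
  have h3 : m 0 = m 0 * m 0 := by
    have := hm 0 0
    rwa [add_zero] at this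
  exact (mul_eq_left.mp h3.symm)

omit [Fintype F] in
private theorem m_ne {m : F → ℤˣ} (hm : AC m) (hn : ∃ x, m x ≠ 1) {a b : Fˣ} (hab : a ≠ b) :
    ∃ x : F, m x ≠ m ((a : F) * (b : F)⁻¹ * x) := by
  by_contra hcon
  push Not at hcon
  obtain ⟨x, hx⟩ := hn
  apply hx
  have hb := b.ne_zero
  have hab' : (a : F) - b ≠ 0 := fun h => hab (Units.ext (sub_eq_zero.mp h))
  have h1 : m ((b : F) * ((a : F) - b)⁻¹ * x + x) = m ((b : F) * ((a : F) - b)⁻¹ * x) := by
    rw [hcon ((b : F) * ((a : F) - b)⁻¹ * x)]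
    congr 1
    field_simp
    ring
  rw [hm] at h1
  exact mul_eq_left.mp h1

omit [IsAlgClosed Ω] [FiniteDimensional Ω V] in
private theorem EE_tau_mo (ρ : Representation Ω (GL (Fin 3) F) V) {m : F → ℤˣ} (hm : AC m)
    (hn : ∃ x, m x ≠ 1) {n : GL (Fin 3) F} (h : Mo n) :
    EE ρ m * ρ (tau n) * EE ρ m = EE ρ m * ρ n * EE ρ m := by
  have hs : ∀ a b c : Fˣ, EE ρ m * ρ (mo (s3 F) a b c) * EE ρ m = 0 := by
    intro a b c
    obtain ⟨x, hx⟩ := hn
    refine EE_zero ρ hm (mo_s_ug a b c x) ?_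
    rw [m_zero hm, one_mul, one_mul]
    exact hx
  have hr : ∀ a b c : Fˣ, EE ρ m * ρ (mo (r3 F) a b c) * EE ρ m = 0 := by
    intro a b c
    obtain ⟨x, hx⟩ := hn
    refine EE_zero ρ hm (mo_r_ug a b c x) ?_
    rw [m_zero hm, mul_one, one_mul]
    exact hx
  have hsr : ∀ a b c : Fˣ, b ≠ c → EE ρ m * ρ (mo (s3 F * r3 F) a b c) * EE ρ m = 0 := by
    intro a b c hbc
    obtain ⟨x, hx⟩ := m_ne hm hn hbc
    refine EE_zero ρ hm (mo_sr_ug a b c x) ?_
    rw [m_zero hm, mul_one, one_mul]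
    exact hx
  have hrs : ∀ a b c : Fˣ, a ≠ b → EE ρ m * ρ (mo (r3 F * s3 F) a b c) * EE ρ m = 0 := by
    intro a b c hab
    obtain ⟨x, hx⟩ := m_ne hm hn hab
    refine EE_zero ρ hm (mo_rs_ug a b c x) ?_
    rw [m_zero hm, mul_one, one_mul]
    exact hx
  have h1 : ∀ a b c : Fˣ, a ≠ b ∨ b ≠ c → EE ρ m * ρ (mo 1 a b c) * EE ρ m = 0 := by
    intro a b c hab
    rcases hab with hab | hab
    · obtain ⟨x, hx⟩ := m_ne hm hn hab
      refine EE_zero ρ hm (mo_one_ug a b c x 0) ?_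
      rw [mul_zero, m_zero hm, mul_one, mul_one]
      exact hx
    · obtain ⟨x, hx⟩ := m_ne hm hn hab
      refine EE_zero ρ hm (mo_one_ug a b c 0 x) ?_
      rw [mul_zero, m_zero hm, one_mul, one_mul]
      exact hx
  obtain ⟨a, b, c, rfl | rfl | rfl | rfl | rfl | rfl⟩ := h
  · rw [tau_mo_one]
    by_cases hab : a = b
    · by_cases hbc : b = c
      · rw [hab, hbc]
      · rw [h1 a b c (Or.inr hbc), h1 c b a (Or.inl (Ne.symm hbc))]
    · rw [h1 a b c (Or.inl hab), h1 c b a (Or.inr (Ne.symm hab))]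
  · rw [tau_mo_s, hs, hr]
  · rw [tau_mo_r, hs, hr]
  · rw [tau_mo_sr]
    by_cases hbc : b = c
    · rw [hbc]
    · rw [hsr a b c hbc, hsr a c b (Ne.symm hbc)]
  · rw [tau_mo_rs]
    by_cases hab : a = b
    · rw [hab]
    · rw [hrs a b c hab, hrs b a c (Ne.symm hab)]
  · rw [tau_mo_srs]

omit [IsAlgClosed Ω] [FiniteDimensional Ω V] in
private theorem EE_tau (ρ : Representation Ω (GL (Fin 3) F) V) {m : F → ℤˣ} (hm : AC m)
    (hn : ∃ x, m x ≠ 1) (g : GL (Fin 3) F) :
    EE ρ m * ρ (tau g) * EE ρ m = EE ρ m * ρ g * EE ρ m := by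
  obtain ⟨x, y, z, x', y', z', n, hMo, rfl⟩ := bruhat_gl g
  rw [tau_mul, tau_mul, tau_ug, tau_ug, ← mul_assoc, EE_bi ρ hm, EE_bi ρ hm,
    EE_tau_mo ρ hm hn hMo, ps_comm m y' x', ps_comm m y x, mul_comm]

omit [IsAlgClosed Ω] [FiniteDimensional Ω V] in
private theorem EE_comm (ρ : Representation Ω (GL (Fin 3) F) V) {m : F → ℤˣ} (hm : AC m)
    (hn : ∃ x, m x ≠ 1) (g k : GL (Fin 3) F) :
    EE ρ m * ρ g * EE ρ m * ρ k * EE ρ m = EE ρ m * ρ k * EE ρ m * ρ g * EE ρ m := by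
  have expand : ∀ g k : GL (Fin 3) F, EE ρ m * ρ g * EE ρ m * ρ k * EE ρ m =
      (Fintype.card (F × F × F) : Ω)⁻¹ • ∑ p : F × F × F, ps Ω m p.1 p.2.1 •
        (EE ρ m * ρ (g * ug p.1 p.2.1 p.2.2 * k) * EE ρ m) := by
    intro g k
    have : EE ρ m * ρ g * EE ρ m * ρ k * EE ρ m =
        EE ρ m * (ρ g * ((Fintype.card (F × F × F) : Ω)⁻¹ • ∑ p : F × F × F,
          ps Ω m p.1 p.2.1 • ρ (ug p.1 p.2.1 p.2.2)) * ρ k) * EE ρ m := by
      change _ = EE ρ m * (ρ g * EE ρ m * ρ k) * EE ρ m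
      simp only [mul_assoc]
    rw [this, mul_smul_comm, smul_mul_assoc, mul_smul_comm, smul_mul_assoc, Finset.mul_sum,
      Finset.sum_mul, Finset.mul_sum, Finset.sum_mul]
    congr 1
    refine Finset.sum_congr rfl (fun p _ => ?_)
    rw [mul_smul_comm, smul_mul_assoc, mul_smul_comm, smul_mul_assoc, map_mul, map_mul]
  have step : EE ρ m * ρ g * EE ρ m * ρ k * EE ρ m =
      EE ρ m * ρ (tau k) * EE ρ m * ρ (tau g) * EE ρ m := by
    rw [expand, expand]
    congr 1
    let e : F × F × F ≃ F × F × F :=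
      { toFun := fun p => (p.2.1, p.1, p.2.2)
        invFun := fun p => (p.2.1, p.1, p.2.2)
        left_inv := fun p => rfl
        right_inv := fun p => rfl }
    refine Fintype.sum_equiv e _ _ (fun p => ?_)
    change _ = ps Ω m p.2.1 p.1 • (EE ρ m * ρ (tau k * ug p.2.1 p.1 p.2.2 * tau g) * EE ρ m)
    have e1 : tau k * ug p.2.1 p.1 p.2.2 * tau g = tau (g * ug p.1 p.2.1 p.2.2 * k) := by
      rw [tau_mul, tau_mul, tau_ug, ← mul_assoc]
    rw [e1, EE_tau ρ hm hn, ps_comm]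
  have fin : ∀ g k : GL (Fin 3) F, EE ρ m * ρ g * EE ρ m * ρ k * EE ρ m =
      (EE ρ m * ρ g * EE ρ m) * (EE ρ m * ρ k * EE ρ m) := by
    intro g k
    have e2 := EE_idem ρ hm
    calc EE ρ m * ρ g * EE ρ m * ρ k * EE ρ m
        = EE ρ m * ρ g * (EE ρ m * EE ρ m) * ρ k * EE ρ m := by rw [e2]
      _ = _ := by simp only [mul_assoc]
  rw [step, fin, EE_tau ρ hm hn g, EE_tau ρ hm hn k, ← fin]

/-- the case of equal characters -/
private theorem mult_one_eq {ρ : Representation Ω (GL (Fin 3) F) V}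
    (hρ : ρ.IsIrreducible) {m : F → ℤˣ} (hm : AC m) (hn : ∃ x, m x ≠ 1) {v v' : V} (hv : v ≠ 0)
    (h1 : ∀ x y z, ρ (ug x y z) v = ps Ω m x y • v)
    (h2 : ∀ x y z, ρ (ug x y z) v' = ps Ω m x y • v') : ∃ a : Ω, v' = a • v := by
  classical
  set E := EE ρ m with hE
  have hEv : E v = v := EE_fix ρ m h1
  have hEv' : E v' = v' := EE_fix ρ m h2
  have hid : ∀ x, E (E x) = E x := by
    intro x
    have := congrArg (fun f : Module.End Ω V => f x) (EE_idem ρ hm)
    simpa [hE] using this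
  -- the orbit of a nonzero vector spans
  have hspan : ∀ x : V, x ≠ 0 →
      Submodule.span Ω (Set.range fun g : GL (Fin 3) F => ρ g x) = ⊤ := by
    intro x hx
    let W : Subrepresentation ρ :=
      { toSubmodule := Submodule.span Ω (Set.range fun g : GL (Fin 3) F => ρ g x)
        apply_mem_toSubmodule := by
          intro g y hy
          induction hy using Submodule.span_induction with
          | mem y hy =>
            obtain ⟨k, rfl⟩ := hy
            refine Submodule.subset_span ⟨g * k, ?_⟩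
            simp
          | zero => simp
          | add y z _ _ hy hz => rw [map_add]; exact Submodule.add_mem _ hy hz
          | smul a y _ hy => rw [map_smul]; exact Submodule.smul_mem _ a hy }
    rcases hρ.eq_bot_or_eq_top W with hW | hW
    · exfalso
      apply hx
      have h3 : x ∈ W.toSubmodule := Submodule.subset_span ⟨1, by simp⟩
      rw [hW] at h3
      exact (Submodule.mem_bot Ω).mp h3
    · have := congrArg Subrepresentation.toSubmodule hW
      exact this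
  -- every element of the range of E is a combination of E ρ g x
  have hspan' : ∀ x : V, x ≠ 0 → ∀ y : V, E y = y →
      y ∈ Submodule.span Ω (Set.range fun g : GL (Fin 3) F => E (ρ g x)) := by
    intro x hx y hy
    have h3 : y ∈ Submodule.span Ω (Set.range fun g : GL (Fin 3) F => ρ g x) := by
      rw [hspan x hx]; trivial
    rw [← hy]
    have h4 := Submodule.mem_map_of_mem (f := E) h3
    rw [Submodule.map_span, ← Set.range_comp] at h4
    exact h4
  -- the operators E ρ g act as scalars on the range of E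
  have hscal : ∀ g : GL (Fin 3) F, ∃ c : Ω, ∀ y : V, E y = y → E (ρ g y) = c • y := by
    intro g
    let M := LinearMap.range E
    have hM : ∀ y : V, y ∈ M ↔ E y = y := by
      intro y
      constructor
      · rintro ⟨z, rfl⟩; exact hid z
      · intro hy; exact ⟨y, hy⟩
    let X : M →ₗ[Ω] M := LinearMap.restrict (E * ρ g) (p := M) (q := M) (by
      intro y _
      exact ⟨ρ g y, rfl⟩)
    have : Nontrivial M := ⟨⟨⟨v, (hM v).2 hEv⟩, 0, by
      intro h0
      exact hv (congrArg Subtype.val h0)⟩⟩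
    obtain ⟨c, hc⟩ := Module.End.exists_eigenvalue X
    obtain ⟨x, hx⟩ := hc.exists_hasEigenvector
    have hx0 : (x : V) ≠ 0 := fun h0 => hx.2 (Subtype.ext h0)
    have hxE : E x = x := (hM x).1 x.2
    have hxg : E (ρ g x) = c • (x : V) := by
      have := congrArg Subtype.val hx.apply_eq_smul
      exact this
    refine ⟨c, fun y hy => ?_⟩
    have h3 := hspan' x hx0 y hy
    have key : ∀ z ∈ Submodule.span Ω (Set.range fun k : GL (Fin 3) F => E (ρ k x)),
        E (ρ g z) = c • z := by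
      intro z hz
      induction hz using Submodule.span_induction with
      | mem z hz =>
        obtain ⟨k, rfl⟩ := hz
        have h4 := congrArg (fun f : Module.End Ω V => f x) (EE_comm ρ hm hn g k)
        simp only [Module.End.mul_apply] at h4
        rw [← hE, hxE, hxg, map_smul, map_smul] at h4
        exact h4
      | zero => simp
      | add a b _ _ ha hb => rw [map_add, map_add, ha, hb, smul_add]
      | smul a b _ hb => rw [map_smul, map_smul, hb, smul_comm]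
    exact key y h3
  have h5 := hspan' v hv v' hEv'
  have h6 : Submodule.span Ω (Set.range fun g : GL (Fin 3) F => E (ρ g v)) ≤
      Submodule.span Ω {v} := by
    rw [Submodule.span_le]
    rintro _ ⟨g, rfl⟩
    obtain ⟨c, hc⟩ := hscal g
    change E (ρ g v) ∈ Submodule.span Ω {v}
    rw [hc v hEv]
    exact Submodule.smul_mem _ _ (Submodule.mem_span_singleton_self v)
  obtain ⟨a, ha⟩ := Submodule.mem_span_singleton.mp (h6 h5)
  exact ⟨a, ha.symm⟩

end idem

end Y02_aux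

/-- Uniqueness of Whittaker vectors (Gelfand-Graev). By `ac_trans` and conjugation by diagonal
matrices one may assume `m₁ = m₂ = m`. Let `e` be the idempotent of the character
`u(x,y,z) ↦ m(x) m(y)`. The antiautomorphism `τ(g) = w₀ gᵀ w₀` (`w₀` the antidiagonal permutation
matrix) maps `u(x,y,z)` to `u(y,x,z)`, so it fixes `e`. `e GL_3 e` is spanned by the `e n e`, `n`
monomial (Bruhat), and `e n e ≠ 0` implies that `n` is a scalar matrix or of the form
`[0 0 c; a 0 0; 0 a 0]`, `[0 a 0; 0 0 a; c 0 0]` or antidiagonal; these are fixed by `τ`. (If `n`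
conjugates `u(x,0,0)` or `u(0,y,0)` into `{u(0,0,z)}`, then `e n e = 0`; if it maps the simple root
groups to simple root groups the scalars must match.) So `e GL_3 e` is commutative and acts on
`e V` irreducibly, `e V` is at most one dimensional. Compare `RankOne.mult_one` (P33). -/
theorem gl3_mult_one (h2 : (2 : F) = 0) {ρ : Representation Ω (GL (Fin 3) F) V}
    (hρ : ρ.IsIrreducible) {m₁ m₂ : F → ℤˣ} (h₁ : AC m₁) (h₂ : AC m₂) (n₁ : ∃ x, m₁ x ≠ 1)
    (n₂ : ∃ x, m₂ x ≠ 1) {v v' : V} (hv0 : v ≠ 0)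
    (hv : ∀ x y z, ρ (ug x y z) v = (((m₁ x * m₂ y : ℤˣ) : ℤ) : Ω) • v)
    (hv' : ∀ x y z, ρ (ug x y z) v' = (((m₁ x * m₂ y : ℤˣ) : ℤ) : Ω) • v') :
    ∃ a : Ω, v' = a • v := by
  obtain ⟨c, hc⟩ := ac_trans h2 h₂ h₁ n₂ n₁
  -- `m₁ x = m₂ (c x)`; conjugate by `diag(c, 1, 1)`
  have key : ∀ w : V, (∀ x y z, ρ (ug x y z) w = (((m₁ x * m₂ y : ℤˣ) : ℤ) : Ω) • w) →
      ∀ x y z, ρ (ug x y z) (ρ (dg3 c 1 1) w) = ps Ω m₂ x y • ρ (dg3 c 1 1) w := by
    intro w hw x y z
    have e1 := dg3_ug c 1 1 ((c : F)⁻¹ * x) y ((c : F)⁻¹ * z)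
    have hc0 := c.ne_zero
    have e2 : (c : F) * ((1 : Fˣ) : F)⁻¹ * ((c : F)⁻¹ * x) = x := by
      rw [Units.val_one, inv_one, mul_one, mul_inv_cancel_left₀ hc0]
    have e3 : (c : F) * ((1 : Fˣ) : F)⁻¹ * ((c : F)⁻¹ * z) = z := by
      rw [Units.val_one, inv_one, mul_one, mul_inv_cancel_left₀ hc0]
    have e4 : ((1 : Fˣ) : F) * ((1 : Fˣ) : F)⁻¹ * y = y := by
      rw [Units.val_one, inv_one, mul_one, one_mul]
    rw [e2, e3, e4, mul_inv_eq_iff_eq_mul] at e1
    have e5 : ρ (ug x y z) (ρ (dg3 c 1 1) w) =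
        ρ (dg3 c 1 1) (ρ (ug ((c : F)⁻¹ * x) y ((c : F)⁻¹ * z)) w) := by
      rw [← Module.End.mul_apply, ← Module.End.mul_apply, ← map_mul, ← map_mul, e1]
    rw [e5, hw, map_smul]
    congr 1
    unfold ps
    rw [hc, mul_inv_cancel_left₀ hc0]
  have hv1 : ρ (dg3 c 1 1) v ≠ 0 := by
    intro h0
    apply hv0
    have : ρ (dg3 c 1 1)⁻¹ (ρ (dg3 c 1 1) v) = v := by
      rw [← Module.End.mul_apply, ← map_mul, inv_mul_cancel, map_one, Module.End.one_apply]
    rw [← this, h0, map_zero]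
  obtain ⟨a, ha⟩ := mult_one_eq hρ h₂ n₂ hv1 (key v hv) (key v' hv')
  refine ⟨a, ?_⟩
  have h3 : ∀ w : V, ρ (dg3 c 1 1)⁻¹ (ρ (dg3 c 1 1) w) = w := by
    intro w
    rw [← Module.End.mul_apply, ← map_mul, inv_mul_cancel, map_one, Module.End.one_apply]
  rw [← h3 v', ha, map_smul, h3]

end

end Parker
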