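import Pool.Agent.Parker.Defs
import Pool.Agent.Parker.P01
import Pool.Agent.Parker.P08
import Pool.Agent.Parker.P32
import Pool.Agent.Parker.P33
import Pool.Agent.Parker.P34
import Pool.Agent.Parker.Q05
import Pool.Agent.Parker.Q06

/-!
# MP_6c3636_al, module Y01: rank one data in characteristic two: generic representations without
fixed vectors of the Borel subgroup have odd degree (helper7)
-/

namespace Parker

universe u v

noncomputable section

variable {Ω : Type} [Field Ω] [IsAlgClosed Ω] [CharZero Ω] {S : Type u} [Group S] [Finite S]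
  {U T : Subgroup S} {w : S} {V : Type v} [AddCommGroup V] [Module Ω V] [FiniteDimensional Ω V]

namespace Y01_aux

omit [CharZero Ω] [Finite S] in
/-- a common eigenvector of a commutative group of operators in an invariant subspace -/
theorem exists_simul {T : Subgroup S} (hT : ∀ s ∈ T, ∀ t ∈ T, s * t = t * s)
    (ρ : Representation Ω S V) : ∀ (n : ℕ) (W : Submodule Ω V), Module.finrank Ω W = n → W ≠ ⊥ →
      (∀ t ∈ T, ∀ x ∈ W, ρ t x ∈ W) → ∃ y ∈ W, y ≠ 0 ∧ ∀ t ∈ T, ∃ a : Ω, ρ t y = a • y := by
  intro n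
  induction n using Nat.strong_induction_on with
  | _ n ih =>
    intro W hn hW hst
    by_cases hall : ∀ t ∈ T, ∀ μ : Ω, (W ⊓ LinearMap.ker (ρ t - μ • 1)) ≠ ⊥ →
        W ≤ LinearMap.ker (ρ t - μ • 1)
    · obtain ⟨y, hy, hy0⟩ := Submodule.exists_mem_ne_zero_of_ne_bot hW
      refine ⟨y, hy, hy0, fun t ht => ?_⟩
      have hnt : Nontrivial W := (Submodule.nontrivial_iff_ne_bot).2 hW
      obtain ⟨μ, hμ⟩ := Module.End.exists_eigenvalue ((ρ t).restrict (hst t ht))
      obtain ⟨v, hv⟩ := hμ.exists_hasEigenvector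
      have h1 : ρ t (v : V) = μ • (v : V) := by
        have h1 := hv.apply_eq_smul
        have h2 := congrArg (fun z : W => (z : V)) h1
        simpa using h2
      have h2 : (W ⊓ LinearMap.ker (ρ t - μ • 1)) ≠ ⊥ := by
        intro hb
        apply hv.2
        apply Subtype.ext
        have h3 : (v : V) ∈ W ⊓ LinearMap.ker (ρ t - μ • 1) := by
          refine ⟨v.2, ?_⟩
          change (v : V) ∈ LinearMap.ker (ρ t - μ • 1)
          rw [LinearMap.mem_ker, LinearMap.sub_apply, h1]
          simp
        rw [hb, Submodule.mem_bot] at h3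
        exact h3
      have h3 := hall t ht μ h2 hy
      refine ⟨μ, ?_⟩
      rw [LinearMap.mem_ker, LinearMap.sub_apply, sub_eq_zero] at h3
      rw [h3]
      simp
    · push Not at hall
      obtain ⟨t, ht, μ, h1, h2⟩ := hall
      have hlt : (W ⊓ LinearMap.ker (ρ t - μ • 1)) < W := by
        refine lt_of_le_of_ne inf_le_left fun he => h2 ?_
        rw [← he]
        exact inf_le_right
      have hlt' := Submodule.finrank_lt_finrank_of_lt hlt
      rw [hn] at hlt'
      obtain ⟨y, hy, hy0, h⟩ := ih _ hlt' (W ⊓ LinearMap.ker (ρ t - μ • 1)) rfl h1 (by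
        rintro s hs x ⟨hx1, hx2⟩
        refine ⟨hst s hs x hx1, ?_⟩
        have h4 : ρ t x = μ • x := by
          have h5 : x ∈ LinearMap.ker (ρ t - μ • 1) := hx2
          rw [LinearMap.mem_ker, LinearMap.sub_apply, sub_eq_zero] at h5
          rw [h5]
          simp
        change ρ s x ∈ LinearMap.ker (ρ t - μ • 1)
        rw [LinearMap.mem_ker, LinearMap.sub_apply, sub_eq_zero, ← Module.End.mul_apply,
          ← map_mul, hT t ht s hs, map_mul, Module.End.mul_apply, h4]
        simp)
      exact ⟨y, hy.1, hy0, h⟩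

omit [IsAlgClosed Ω] [CharZero Ω] [Finite S] [FiniteDimensional Ω V] in
/-- the orbit of a nonzero vector of an irreducible representation spans -/
theorem span_orbit {ρ : Representation Ω S V} (hρ : ρ.IsIrreducible) {x : V} (hx : x ≠ 0) :
    Submodule.span Ω (Set.range fun g : S => ρ g x) = ⊤ := by
  let W : Subrepresentation ρ :=
    { toSubmodule := Submodule.span Ω (Set.range fun g : S => ρ g x)
      apply_mem_toSubmodule := by
        intro g y hy
        induction hy using Submodule.span_induction with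
        | mem y hy =>
          obtain ⟨k, rfl⟩ := hy
          refine Submodule.subset_span ⟨g * k, ?_⟩
          simp
        | zero => simp
        | add y z _ _ hy hz => rw [map_add]; exact Submodule.add_mem _ hy hz
        | smul a y _ hy => rw [map_smul]; exact Submodule.smul_mem _ a hy }
  rcases hρ.eq_bot_or_eq_top W with hW | hW
  · exfalso
    apply hx
    have h3 : x ∈ W.toSubmodule := Submodule.subset_span ⟨1, by simp⟩
    rw [hW] at h3
    exact (Submodule.mem_bot Ω).mp h3
  · exact congrArg Subrepresentation.toSubmodule hW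

omit [IsAlgClosed Ω] [CharZero Ω] [FiniteDimensional Ω V] in
theorem av_right (U : Subgroup S) (ρ : Representation Ω S V) {u : S} (hu : u ∈ U) (x : V) :
    av_idem U ρ (ρ u x) = av_idem U ρ x := by
  classical
  let _ := Fintype.ofFinite U
  rw [av_idem, act_eq, LinearMap.sum_apply, LinearMap.sum_apply]
  refine Fintype.sum_equiv (Equiv.mulRight (⟨u, hu⟩ : U)) _ _ fun v => ?_
  rw [LinearMap.smul_apply, LinearMap.smul_apply, Equiv.coe_mulRight]
  have h1 : rs U ρ v = ρ (v : S) := rfl
  have h2 : rs U ρ (v * ⟨u, hu⟩) = ρ ((v : S) * u) := rfl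
  rw [h1, h2, map_mul, Module.End.mul_apply]

end Y01_aux

open Y01_aux

/-- `V^U` is zero or two dimensional if there is no nonzero vector fixed by the Borel subgroup: let
`y ∈ V^U` be an eigenvector of `T` with character `α ≠ 1`. `V^U` is spanned by `y` and
`y' = e_U w y` (Bruhat), `y' ≠ 0` (if `∑_u u w y = 0`, multiply by `w`: `y + ∑_{u ≠ 1} w u w y = 0`
and `w u w = u' t w u''` for `u ≠ 1` by `triv`, so applying `e_U` gives `y = 0`), and `T` acts on
`y'` through `α⁻¹ ≠ α` (`|T|` is odd). -/
theorem RankOne.finrank_fixed (h : RankOne U T w) {ρ : Representation Ω S V}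
    (hρ : ρ.IsIrreducible) (hB : ∀ v : V, (∀ b ∈ h.borel, ρ b v = v) → v = 0) :
    Module.finrank Ω (rs U ρ).invariants = 0 ∨ Module.finrank Ω (rs U ρ).invariants = 2 := by
  classical
  have hcomm : ∀ s ∈ T, ∀ t ∈ T, s * t = t * s := fun s hs t ht => h.toEven.T_comm hs ht
  have hP := P32_aux.av_proj U ρ
  set E := av_idem U ρ with hE
  have hn' : ∀ t ∈ T, ∀ u : S, u ∈ U ↔ t * u * t⁻¹ ∈ U := by
    intro t ht u
    refine ⟨fun hu => h.norm t ht u hu, fun hu => ?_⟩
    have := h.norm t⁻¹ (T.inv_mem ht) _ hu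
    have h2 : t⁻¹ * (t * u * t⁻¹) * t⁻¹⁻¹ = u := by group
    rwa [h2] at this
  have hEt : ∀ t ∈ T, ∀ x, ρ t (E x) = E (ρ t x) := by
    intro t ht x
    have := congrArg (fun f : Module.End Ω V => f x) (P32_aux.av_comm U ρ t (hn' t ht))
    exact this
  have hmul : ∀ (g k : S) (x : V), ρ (g * k) x = ρ g (ρ k x) := fun g k x => by
    rw [map_mul]; rfl
  have hEu : ∀ u ∈ U, ∀ x, E (ρ u x) = E x := fun u hu x => av_right U ρ hu x
  have hfix : ∀ x ∈ (rs U ρ).invariants, ∀ u ∈ U, ρ u x = x := fun x hx u hu => hx ⟨u, hu⟩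
  by_cases hbot : (rs U ρ).invariants = ⊥
  · left
    rw [hbot, finrank_bot]
  right
  obtain ⟨y, hyI, hy0, hyT⟩ := exists_simul hcomm ρ _ (rs U ρ).invariants rfl hbot (by
    intro t ht x hx
    have h1 : ρ t x = E (ρ t x) := by
      rw [← hEt t ht, hP.map_id x hx]
    rw [h1]
    exact hP.map_mem _)
  have hEy : E y = y := hP.map_id y hyI
  have hinj : ∀ a b : Ω, a • y = b • y → a = b := by
    intro a b hab
    have h0 : (a - b) • y = 0 := by rw [sub_smul, hab, sub_self]
    exact sub_eq_zero.1 ((smul_eq_zero.1 h0).resolve_right hy0)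
  -- the character
  obtain ⟨a, ha⟩ : ∃ a : T → Ω, ∀ t : T, ρ t y = a t • y := by
    choose a ha using fun t : T => hyT t t.2
    exact ⟨a, ha⟩
  have ha1 : a 1 = 1 := by
    apply hinj
    rw [← ha, one_smul, Subgroup.coe_one, map_one]; rfl
  have ham : ∀ s t : T, a (s * t) = a s * a t := by
    intro s t
    apply hinj
    rw [← ha, Subgroup.coe_mul, hmul, ha, map_smul, ha, smul_smul, mul_comm]
  let α : T →* Ω := { toFun := a, map_one' := ha1, map_mul' := ham }
  obtain ⟨t0, ht0⟩ : ∃ t : T, a t ≠ 1 := by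
    by_contra hcon
    push Not at hcon
    apply hy0
    apply hB
    rintro b ⟨u, hu, t, ht, rfl⟩
    have h1 := ha ⟨t, ht⟩
    rw [hcon, one_smul] at h1
    change ρ t y = y at h1
    rw [hmul, h1, hfix y hyI u hu]
  set y' := E (ρ w y) with hy'
  have hwt : ∀ t ∈ T, t * w = w * t⁻¹ := by
    intro t ht
    have h1 := h.inv t ht
    have h2 : w * (w * t * w) = t * w := by
      rw [← mul_assoc, ← mul_assoc, h.ww, one_mul]
    rw [← h2, h1]
  have hTy' : ∀ t : T, ρ t y' = a t⁻¹ • y' := by
    intro t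
    have h1 := ha t⁻¹
    rw [hy', hEt t t.2, ← hmul, hwt t t.2, hmul]
    have h2 : ρ ((t : S)⁻¹) y = a t⁻¹ • y := h1
    rw [h2, map_smul, map_smul]
  have hEg : ∀ g : S, (∃ c : Ω, E (ρ g y) = c • y) ∨ ∃ c : Ω, E (ρ g y) = c • y' := by
    intro g
    rcases h.bruhat g with ⟨u, hu, t, ht, rfl⟩ | ⟨u, hu, t, ht, u', hu', rfl⟩
    · left
      refine ⟨a ⟨t, ht⟩, ?_⟩
      rw [hmul, hEu u hu]
      have h1 : ρ t y = a ⟨t, ht⟩ • y := ha ⟨t, ht⟩
      rw [h1, map_smul, hEy]
    · right
      refine ⟨a ⟨t, ht⟩⁻¹, ?_⟩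
      rw [hmul, hfix y hyI u' hu', hmul, hmul, hEu u hu, ← hEt t ht]
      exact hTy' ⟨t, ht⟩
  have hspan : (rs U ρ).invariants = Submodule.span Ω {y, y'} := by
    apply le_antisymm
    · intro x hx
      have hx1 : x ∈ Submodule.span Ω (Set.range fun g : S => ρ g y) := by
        rw [span_orbit hρ hy0]; trivial
      rw [← hP.map_id x hx]
      have h4 := Submodule.mem_map_of_mem (f := E) hx1
      rw [Submodule.map_span, ← Set.range_comp] at h4
      refine (Submodule.span_le.2 ?_) h4
      rintro _ ⟨g, rfl⟩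
      change E (ρ g y) ∈ Submodule.span Ω {y, y'}
      rcases hEg g with ⟨c, hc⟩ | ⟨c, hc⟩
      · rw [hc]
        exact Submodule.smul_mem _ _ (Submodule.subset_span (by simp))
      · rw [hc]
        exact Submodule.smul_mem _ _ (Submodule.subset_span (by simp))
    · rw [Submodule.span_le]
      rintro x hx
      simp only [Set.mem_insert_iff, Set.mem_singleton_iff] at hx
      rcases hx with rfl | rfl
      · exact hyI
      · exact hP.map_mem _
  -- `y'` is nonzero
  have hy'0 : y' ≠ 0 := by
    intro h0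
    let _ := Fintype.ofFinite U
    have hc : (Nat.card U : Ω) ≠ 0 := Nat.cast_ne_zero.2 Nat.card_pos.ne'
    have h1 : ∑ u : U, ρ (u : S) (ρ w y) = 0 := by
      have h2 : y' = (Nat.card U : Ω)⁻¹ • ∑ u : U, ρ (u : S) (ρ w y) := by
        rw [hy', hE, av_idem, act_eq, LinearMap.sum_apply, Finset.smul_sum]
        rfl
      rw [h2] at h0
      exact (smul_eq_zero.1 h0).resolve_left (inv_ne_zero hc)
    have h2 : ∑ u : U, E (ρ (w * u * w) y) = 0 := by
      have h3 := congrArg (fun x => E (ρ w x)) h1
      simp only [map_sum, map_zero] at h3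
      rw [← h3]
      refine Finset.sum_congr rfl fun u _ => ?_
      rw [hmul, hmul]
    rw [Finset.sum_eq_single (1 : U)] at h2
    · rw [Subgroup.coe_one, mul_one, h.ww, map_one] at h2
      change E y = 0 at h2
      rw [hEy] at h2
      exact hy0 h2
    · intro u _ hu
      rcases h.bruhat (w * u * w) with ⟨u', hu', t, ht, e⟩ | ⟨u', hu', t, ht, u'', hu'', e⟩
      · exfalso
        apply hu
        apply Subtype.ext
        refine h.triv u u.2 u' hu' t ht ?_
        rw [← e]
        have : w * (w * (u : S) * w) * w = (w * w) * u * (w * w) := by group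
        rw [this, h.ww]; group
      · rw [e, hmul, hfix y hyI u'' hu'', hmul, hmul, hEu u' hu', ← hEt t ht, ← hy', h0, map_zero]
    · intro h3
      exact absurd (Finset.mem_univ _) h3
  -- independence
  have hlin : LinearIndependent Ω ![y, y'] := by
    rw [LinearIndependent.pair_iff' hy0]
    intro c hc
    have h1 := hTy' t0
    have hc0 : c ≠ 0 := by
      rintro rfl
      rw [zero_smul] at hc
      exact hy'0 hc.symm
    rw [← hc, map_smul, ha, smul_smul, smul_smul] at h1
    have h2 := hinj _ _ h1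
    rw [mul_comm] at h2
    have h3 : a t0 = a t0⁻¹ := mul_right_cancel₀ hc0 h2
    have h4 : a t0 * a t0 = 1 := by
      nth_rewrite 2 [h3]
      rw [← ham, mul_inv_cancel, ha1]
    have h5 : a t0 ^ Nat.card T = 1 := by
      have h6 : α (t0 ^ Nat.card T) = α t0 ^ Nat.card T := map_pow α _ _
      rw [pow_card_eq_one', map_one] at h6
      exact h6.symm
    obtain ⟨m, hm⟩ := h.odd
    rw [hm, pow_succ, pow_mul, pow_two, h4, one_pow, one_mul] at h5
    exact ht0 h5
  have hr : Set.range ![y, y'] = {y, y'} := by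
    simp [Matrix.range_cons, Set.pair_comm]
  rw [hspan, ← hr, finrank_span_eq_card hlin, Fintype.card_fin]

/-- An irreducible representation without nonzero vectors fixed by the Borel subgroup and with an
eigenvector for a nontrivial linear character of `U` has odd degree:
`dim V ≡ dim V^{[U,U]} = dim V^U + |T|` (`parity_two_group`, `RankOneEven.linear_part` for
`h.toEven`). -/
theorem RankOne.odd_dim (h : RankOne U T w) {ρ : Representation Ω S V}
    (hρ : ρ.IsIrreducible) (hB : ∀ v : V, (∀ b ∈ h.borel, ρ b v = v) → v = 0)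
    {lam : U →* ℤˣ} (hl : lam ≠ 1) {v : V} (hv0 : v ≠ 0)
    (hv : ∀ u : U, ρ u v = ((lam u : ℤ) : Ω) • v) : Odd (Module.finrank Ω V) := by
  obtain ⟨k, hk⟩ := h.two
  rw [parity_two_group hk (rs U ρ), h.toEven.linear_part hρ hl hv0 hv]
  rcases h.finrank_fixed hρ hB with h1 | h1
  · rw [h1, zero_add]; exact h.odd
  · rw [h1]; exact (even_two).add_odd h.odd

end

end Parker
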