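import Pool.Agent.Parker.Defs
import Pool.Agent.Parker.P01
import Pool.Agent.Parker.P08
import Pool.Agent.Parker.P09
import Pool.Agent.Parker.P15
import Pool.Agent.Parker.P16
import Pool.Agent.Parker.P32
import Pool.Agent.Parker.P33
import Pool.Agent.Parker.P39
import Pool.Agent.Parker.X01
import Pool.Agent.Parker.Y01
import Pool.Agent.Parker.Y02

/-!
# MP_6c3636_al, module Y03: representations of `GL_3(q)`, `q` even, induced from the parabolic
subgroup (helper7)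
-/

namespace Parker

open Matrix

universe v

noncomputable section

variable {F : Type} [Field F] [Fintype F] {Ω : Type} [Field Ω] [IsAlgClosed Ω] [CharZero Ω]
  {V : Type v} [AddCommGroup V] [Module Ω V] [FiniteDimensional Ω V]

namespace Y03_aux

theorem two_eq {F : Type} [Field F] {x y p q r s : F} (hd : p * s - q * r ≠ 0)
    (h1 : x * p + y * r = 0) (h2 : x * q + y * s = 0) : x = 0 ∧ y = 0 := by
  have hx : x * (p * s - q * r) = 0 := by linear_combination s * h1 - r * h2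
  have hy : y * (p * s - q * r) = 0 := by linear_combination p * h2 - q * h1
  exact ⟨(mul_eq_zero.1 hx).resolve_right hd, (mul_eq_zero.1 hy).resolve_right hd⟩

theorem det_ne {F : Type} [Field F] (g : GL (Fin 3) F) : g.1.det ≠ 0 :=
  ((Matrix.isUnit_iff_isUnit_det _).1 g.isUnit).ne_zero

theorem blk_ne {F : Type} [Field F] {g : GL (Fin 3) F} (h0 : g.1 2 0 = 0) (h1 : g.1 2 1 = 0) :
    g.1 0 0 * g.1 1 1 - g.1 0 1 * g.1 1 0 ≠ 0 ∧ g.1 2 2 ≠ 0 := by
  have hd := det_ne g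
  rw [Matrix.det_fin_three, h0, h1] at hd
  constructor
  · intro h
    apply hd
    linear_combination g.1 2 2 * h
  · intro h
    apply hd
    rw [h]
    ring

theorem mul3 {F : Type} [Field F] (g h : GL (Fin 3) F) (i j : Fin 3) :
    (g * h).1 i j = g.1 i 0 * h.1 0 j + g.1 i 1 * h.1 1 j + g.1 i 2 * h.1 2 j := by
  show (g.1 * h.1) i j = _
  rw [Matrix.mul_apply, Fin.sum_univ_three]

theorem inv3 {F : Type} [Field F] (g : GL (Fin 3) F) (i j : Fin 3) :
    g⁻¹.1 i 0 * g.1 0 j + g⁻¹.1 i 1 * g.1 1 j + g⁻¹.1 i 2 * g.1 2 j =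
      (1 : Matrix (Fin 3) (Fin 3) F) i j := by
  rw [← mul3, inv_mul_cancel]
  rfl

end Y03_aux

open Y03_aux

/-- the stabilizer of the plane `⟨e₁, e₂⟩` in `GL_3` -/
def pg2 (F : Type) [Field F] : Subgroup (GL (Fin 3) F) where
  carrier := {g | (g : Matrix (Fin 3) (Fin 3) F) 2 0 = 0 ∧ (g : Matrix (Fin 3) (Fin 3) F) 2 1 = 0}
  mul_mem' := by
    rintro g h ⟨hg0, hg1⟩ ⟨hh0, hh1⟩
    refine ⟨?_, ?_⟩
    · rw [mul3, hg0, hg1, hh0]
      ring
    · rw [mul3, hg0, hg1, hh1]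
      ring
  one_mem' := ⟨rfl, rfl⟩
  inv_mem' := by
    rintro g ⟨h0, h1⟩
    obtain ⟨hd, -⟩ := blk_ne h0 h1
    have e0 := inv3 g 2 0
    have e1 := inv3 g 2 1
    rw [h0, mul_zero, add_zero] at e0
    rw [h1, mul_zero, add_zero] at e1
    exact two_eq hd e0 e1

namespace Y03_aux

theorem toGL_mem {F : Type} [Field F] (x : SpecialLinearGroup (Fin 3) F) :
    Matrix.SpecialLinearGroup.toGL x ∈ pg2 F ↔ x ∈ par2 F := Iff.rfl

theorem mem_pg2 {F : Type} [Field F] {g : GL (Fin 3) F} :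
    g ∈ pg2 F ↔ g.1 2 0 = 0 ∧ g.1 2 1 = 0 := Iff.rfl

theorem dg3_val {F : Type} [Field F] (a b c : Fˣ) :
    (dg3 a b c).1 = Matrix.diagonal ![(a : F), (b : F), (c : F)] := rfl

theorem ug_val {F : Type} [Field F] (x y z : F) :
    (ug x y z).1 = !![1, x, z; 0, 1, y; 0, 0, 1] := rfl

theorem dg3_mem {F : Type} [Field F] (a b c : Fˣ) : dg3 a b c ∈ pg2 F := by
  rw [mem_pg2, dg3_val]
  simp

end Y03_aux

/-- `q² + q + 1` (compare with `card_quot_par2` through `gl3_eq`) -/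
theorem index_pg2 : (pg2 F).index = Fintype.card F ^ 2 + Fintype.card F + 1 := by
  have h := card_quot_par2 (F := F)
  rw [Nat.card_eq_fintype_card (α := F)] at h
  rw [← h, Subgroup.index]
  symm
  have hwd : ∀ a b : SpecialLinearGroup (Fin 3) F, QuotientGroup.leftRel (par2 F) a b →
      (QuotientGroup.mk (Matrix.SpecialLinearGroup.toGL a) : GL (Fin 3) F ⧸ pg2 F) =
        QuotientGroup.mk (Matrix.SpecialLinearGroup.toGL b) := by
    intro a b hab
    rw [QuotientGroup.leftRel_apply] at hab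
    rw [QuotientGroup.eq, ← map_inv, ← map_mul]
    exact (toGL_mem _).2 hab
  refine Nat.card_eq_of_bijective (fun x : SpecialLinearGroup (Fin 3) F ⧸ par2 F =>
    Quotient.liftOn' x (fun a => (QuotientGroup.mk (Matrix.SpecialLinearGroup.toGL a) :
      GL (Fin 3) F ⧸ pg2 F)) hwd) ⟨?_, ?_⟩
  · intro x y hxy
    obtain ⟨a, rfl⟩ := QuotientGroup.mk_surjective x
    obtain ⟨b, rfl⟩ := QuotientGroup.mk_surjective y
    have h1 : (QuotientGroup.mk (Matrix.SpecialLinearGroup.toGL a) : GL (Fin 3) F ⧸ pg2 F) =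
        QuotientGroup.mk (Matrix.SpecialLinearGroup.toGL b) := hxy
    rw [QuotientGroup.eq, ← map_inv, ← map_mul] at h1
    rw [QuotientGroup.eq]
    exact (toGL_mem _).1 h1
  · intro x
    obtain ⟨g, rfl⟩ := QuotientGroup.mk_surjective x
    obtain ⟨d, y, hy⟩ := gl3_eq g⁻¹
    refine ⟨QuotientGroup.mk y⁻¹, ?_⟩
    show (QuotientGroup.mk (Matrix.SpecialLinearGroup.toGL y⁻¹) : GL (Fin 3) F ⧸ pg2 F) =
      QuotientGroup.mk g
    rw [QuotientGroup.eq, map_inv, inv_inv]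
    have h2 : Matrix.SpecialLinearGroup.toGL y * g = (dg3 d 1 1)⁻¹ := by
      have h3 : Matrix.SpecialLinearGroup.toGL y = (dg3 d 1 1)⁻¹ * g⁻¹ := by
        rw [hy, inv_mul_cancel_left]
      rw [h3, inv_mul_cancel_right]
    rw [h2]
    exact (pg2 F).inv_mem (dg3_mem _ _ _)

/-- two double cosets: `GL_3 = P ∪ P r P` -/
theorem pg2_double (g : GL (Fin 3) F) : g ∈ pg2 F ∨ ∃ p ∈ pg2 F, ∃ p' ∈ pg2 F,
    g = p * Matrix.SpecialLinearGroup.toGL (r3 F) * p' := by
  obtain ⟨d, x, rfl⟩ := gl3_eq g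
  by_cases hx : x ∈ par2 F
  · left
    exact (pg2 F).mul_mem (dg3_mem _ _ _) ((toGL_mem _).2 hx)
  · right
    have hr : r3 F ∉ par2 F := by
      intro h
      have h1 : (r3 F).1 2 1 = 0 := h.2
      have h2 : (r3 F).1 2 1 = -1 := rfl
      rw [h2] at h1
      exact one_ne_zero (neg_eq_zero.1 h1)
    have h1 : ((1 : SpecialLinearGroup (Fin 3) F) : SpecialLinearGroup (Fin 3) F ⧸ par2 F) ≠
        (r3 F : SpecialLinearGroup (Fin 3) F ⧸ par2 F) := by
      intro h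
      rw [QuotientGroup.eq, inv_one, one_mul] at h
      exact hr h
    have h2 : ((1 : SpecialLinearGroup (Fin 3) F) : SpecialLinearGroup (Fin 3) F ⧸ par2 F) ≠
        (x : SpecialLinearGroup (Fin 3) F ⧸ par2 F) := by
      intro h
      rw [QuotientGroup.eq, inv_one, one_mul] at h
      exact hx h
    obtain ⟨k, hk1, hk2⟩ := par2_two_trans (F := F) _ _ _ _ h1 h2
    rw [MulAction.Quotient.smul_coe, smul_eq_mul, mul_one, QuotientGroup.eq, mul_one] at hk1
    rw [MulAction.Quotient.smul_coe, smul_eq_mul, QuotientGroup.eq] at hk2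
    have hk : k ∈ par2 F := by
      have := (par2 F).inv_mem hk1
      rwa [inv_inv] at this
    refine ⟨dg3 d 1 1 * Matrix.SpecialLinearGroup.toGL k,
      (pg2 F).mul_mem (dg3_mem _ _ _) ((toGL_mem _).2 hk),
      Matrix.SpecialLinearGroup.toGL ((k * r3 F)⁻¹ * x), (toGL_mem _).2 hk2, ?_⟩
    rw [mul_assoc, mul_assoc, ← map_mul, ← map_mul]
    congr 2
    group

namespace Y03_aux

section general

variable {Ω : Type} [Field Ω] [CharZero Ω] {V : Type v} [AddCommGroup V] [Module Ω V]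
  {G : Type} [Group G] (N : Subgroup G) [Fintype N] (ρ : Representation Ω G V)

/-- the averaging operator -/
def avn : Module.End Ω V := (Fintype.card N : Ω)⁻¹ • ∑ n : N, ρ (n : G)

theorem card_ne : (Fintype.card N : Ω) ≠ 0 := Nat.cast_ne_zero.2 Fintype.card_ne_zero

theorem abs_right (A : Module.End Ω V) (h : ∀ n ∈ N, A * ρ n = A) : A * avn N ρ = A := by
  unfold avn
  rw [mul_smul_comm, Finset.mul_sum, Finset.sum_congr rfl fun (n : N) _ => h (n : G) n.2, Finset.sum_const,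
    Finset.card_univ, ← Nat.cast_smul_eq_nsmul Ω, smul_smul, inv_mul_cancel₀ (card_ne N), one_smul]

theorem abs_left (A : Module.End Ω V) (h : ∀ n ∈ N, ρ n * A = A) : avn N ρ * A = A := by
  unfold avn
  rw [smul_mul_assoc, Finset.sum_mul, Finset.sum_congr rfl fun (n : N) _ => h (n : G) n.2, Finset.sum_const,
    Finset.card_univ, ← Nat.cast_smul_eq_nsmul Ω, smul_smul, inv_mul_cancel₀ (card_ne N), one_smul]

theorem avn_fix {v : V} (h : ∀ n ∈ N, ρ n v = v) : avn N ρ v = v := by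
  unfold avn
  rw [LinearMap.smul_apply, LinearMap.sum_apply, Finset.sum_congr rfl fun (n : N) _ => h (n : G) n.2,
    Finset.sum_const, Finset.card_univ, ← Nat.cast_smul_eq_nsmul Ω, smul_smul,
    inv_mul_cancel₀ (card_ne N), one_smul]

omit [CharZero Ω] in
theorem avn_left {n : G} (hn : n ∈ N) : ρ n * avn N ρ = avn N ρ := by
  unfold avn
  rw [mul_smul_comm, Finset.mul_sum]
  congr 1
  refine Fintype.sum_equiv (Equiv.mulLeft (⟨n, hn⟩ : N)) _ _ fun x => ?_
  rw [Equiv.coe_mulLeft, ← map_mul]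
  rfl

omit [CharZero Ω] in
theorem avn_right {n : G} (hn : n ∈ N) : avn N ρ * ρ n = avn N ρ := by
  unfold avn
  rw [smul_mul_assoc, Finset.sum_mul]
  congr 1
  refine Fintype.sum_equiv (Equiv.mulRight (⟨n, hn⟩ : N)) _ _ fun x => ?_
  rw [Equiv.coe_mulRight, ← map_mul]
  rfl

theorem avn_idem : avn N ρ * avn N ρ = avn N ρ :=
  abs_left N ρ _ fun _ hn => avn_left N ρ hn

theorem avn_comm {p : G} (h : ∀ n ∈ N, p * n * p⁻¹ ∈ N) (h' : ∀ n ∈ N, p⁻¹ * n * p ∈ N) :
    ρ p * avn N ρ = avn N ρ * ρ p := by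
  have h1 : avn N ρ * (ρ p * avn N ρ) = ρ p * avn N ρ := by
    refine abs_left N ρ _ fun n hn => ?_
    rw [← mul_assoc, ← map_mul]
    have e : n * p = p * (p⁻¹ * n * p) := by group
    rw [e, map_mul, mul_assoc, avn_left N ρ (h' n hn)]
  have h2 : avn N ρ * ρ p * avn N ρ = avn N ρ * ρ p := by
    refine abs_right N ρ _ fun n hn => ?_
    rw [mul_assoc, ← map_mul]
    have e : p * n = (p * n * p⁻¹) * p := by group
    rw [e, map_mul, ← mul_assoc, avn_right N ρ (h n hn)]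
  rw [← h1, ← mul_assoc, h2]

end general

/-- the group `R Z₁` -/
def nz (F : Type) [Field F] : Subgroup (GL (Fin 3) F) where
  carrier := {g | g.1 2 0 = 0 ∧ g.1 2 1 = 0 ∧ g.1 0 1 = 0 ∧ g.1 1 0 = 0 ∧ g.1 0 0 = g.1 1 1}
  mul_mem' := by
    rintro g h ⟨g1, g2, g3, g4, g5⟩ ⟨h1, h2, h3, h4, h5⟩
    refine ⟨?_, ?_, ?_, ?_, ?_⟩
    · rw [mul3, g1, g2, h1]; ring
    · rw [mul3, g1, g2, h2]; ring
    · rw [mul3, h3, g3, h2]; ring
    · rw [mul3, g4, h4, h1]; ring
    · rw [mul3, mul3, g3, g4, h1, h2, g5, h5]; ring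
  one_mem' := ⟨rfl, rfl, rfl, rfl, rfl⟩
  inv_mem' := by
    rintro g ⟨g1, g2, g3, g4, g5⟩
    obtain ⟨hd, -⟩ := blk_ne g1 g2
    have hi : g⁻¹ ∈ pg2 F := (pg2 F).inv_mem ⟨g1, g2⟩
    have hg : g.1 1 1 ≠ 0 := by
      intro h
      apply hd
      rw [h, g3]
      ring
    have e1 := inv3 g 0 1
    have e2 := inv3 g 1 0
    have e3 := inv3 g 0 0
    have e4 := inv3 g 1 1
    rw [g3, g2, mul_zero, mul_zero, zero_add, add_zero] at e1
    rw [g4, g1, mul_zero, mul_zero, add_zero, add_zero, g5] at e2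
    rw [g4, g1, mul_zero, mul_zero, add_zero, add_zero, g5] at e3
    rw [g3, g2, mul_zero, mul_zero, zero_add, add_zero] at e4
    refine ⟨hi.1, hi.2, (mul_eq_zero.1 e1).resolve_right hg, (mul_eq_zero.1 e2).resolve_right hg,
      mul_right_cancel₀ hg (e3.trans ?_)⟩
    rw [e4]
    rfl

theorem mem_nz {F : Type} [Field F] {g : GL (Fin 3) F} : g ∈ nz F ↔
    g.1 2 0 = 0 ∧ g.1 2 1 = 0 ∧ g.1 0 1 = 0 ∧ g.1 1 0 = 0 ∧ g.1 0 0 = g.1 1 1 := Iff.rfl

theorem nz_conj {F : Type} [Field F] {p n : GL (Fin 3) F} (hp : p ∈ pg2 F) (hn : n ∈ nz F) :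
    p * n * p⁻¹ ∈ nz F := by
  obtain ⟨n1, n2, n3, n4, n5⟩ := hn
  have hnp : n ∈ pg2 F := ⟨n1, n2⟩
  have hm : p * n * p⁻¹ ∈ pg2 F := (pg2 F).mul_mem ((pg2 F).mul_mem hp hnp) ((pg2 F).inv_mem hp)
  obtain ⟨hd, -⟩ := blk_ne hp.1 hp.2
  generalize hM : p * n * p⁻¹ = M at hm ⊢
  have hMp : M * p = p * n := by rw [← hM, inv_mul_cancel_right]
  have e : ∀ i j, M.1 i 0 * p.1 0 j + M.1 i 1 * p.1 1 j + M.1 i 2 * p.1 2 j =
      p.1 i 0 * n.1 0 j + p.1 i 1 * n.1 1 j + p.1 i 2 * n.1 2 j := by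
    intro i j
    rw [← mul3, ← mul3, hMp]
  have e00 := e 0 0
  have e01 := e 0 1
  have e10 := e 1 0
  have e11 := e 1 1
  rw [hp.1, n4, n1, mul_zero, mul_zero, mul_zero, add_zero, add_zero, add_zero, n5] at e00 e10
  rw [hp.2, n3, n2, mul_zero, mul_zero, mul_zero, zero_add, add_zero, add_zero] at e01 e11
  have r1 := two_eq (x := M.1 0 0 - n.1 1 1) (y := M.1 0 1) hd (by linear_combination e00)
    (by linear_combination e01)
  have r2 := two_eq (x := M.1 1 0) (y := M.1 1 1 - n.1 1 1) hd (by linear_combination e10)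
    (by linear_combination e11)
  refine ⟨hm.1, hm.2, r1.2, r2.1, ?_⟩
  rw [sub_eq_zero.1 r1.1, sub_eq_zero.1 r2.2]

theorem ug_nz {F : Type} [Field F] (y z : F) : ug 0 y z ∈ nz F := by
  rw [mem_nz, ug_val]
  exact ⟨rfl, rfl, rfl, rfl, rfl⟩

theorem dg3_nz {F : Type} [Field F] (a c : Fˣ) : dg3 a a c ∈ nz F := by
  rw [mem_nz, dg3_val]
  simp

theorem nz_dec {F : Type} [Field F] {g : GL (Fin 3) F} (hg : g ∈ nz F) :
    ∃ a c y z, g = dg3 a a c * ug 0 y z := by
  obtain ⟨g1, g2, g3, g4, g5⟩ := hg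
  obtain ⟨hd, hc⟩ := blk_ne g1 g2
  have ha : g.1 1 1 ≠ 0 := by
    intro h
    apply hd
    rw [h, g3]
    ring
  refine ⟨Units.mk0 _ ha, Units.mk0 _ hc, g.1 1 2 / g.1 1 1, g.1 0 2 / g.1 1 1, ?_⟩
  apply Units.ext
  ext i j
  rw [mul3, dg3_val, ug_val]
  fin_cases i <;> fin_cases j <;> simp [g1, g2, g3, g4, g5, mul_div_cancel₀, ha]

theorem abs_mid {Ω : Type} [Field Ω] [CharZero Ω] {V : Type v} [AddCommGroup V] [Module Ω V]
    {G : Type} [Group G] (N : Subgroup G) [Fintype N] (ρ : Representation Ω G V)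
    (A B : Module.End Ω V) (h : ∀ n ∈ N, A * ρ n * B = A * B) : A * avn N ρ * B = A * B := by
  unfold avn
  rw [mul_smul_comm, Finset.mul_sum, smul_mul_assoc, Finset.sum_mul,
    Finset.sum_congr rfl fun (n : N) _ => h (n : G) n.2, Finset.sum_const,
    Finset.card_univ, ← Nat.cast_smul_eq_nsmul Ω, smul_smul, inv_mul_cancel₀ (card_ne N), one_smul]

theorem r_ug {F : Type} [Field F] (x : F) :
    Matrix.SpecialLinearGroup.toGL (r3 F) * ug x 0 0 =
      ug 0 0 (-x) * Matrix.SpecialLinearGroup.toGL (r3 F) := by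
  have h := r3_u3 (F := F) x 0
  have h1 : r3 F * u3 x 0 0 = u3 0 0 (-x) * r3 F := by rw [← h, inv_mul_cancel_right]
  have h2 := congrArg (fun g => Matrix.SpecialLinearGroup.toGL g) h1
  simp only [map_mul] at h2
  exact h2

theorem r_dg3 {F : Type} [Field F] (a b : Fˣ) :
    Matrix.SpecialLinearGroup.toGL (r3 F) * dg3 a b a =
      dg3 a a b * Matrix.SpecialLinearGroup.toGL (r3 F) := by
  apply Units.ext
  ext i j
  rw [mul3, mul3, dg3_val, dg3_val]
  have e : (Matrix.SpecialLinearGroup.toGL (r3 F)).1 = !![1, 0, 0; 0, 0, 1; 0, -1, 0] := rfl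
  rw [e]
  fin_cases i <;> fin_cases j <;> simp

theorem bor_dec0 {F : Type} [Field F] {b : SpecialLinearGroup (Fin 3) F} (hb : b ∈ bor3 F) :
    ∃ x y z a b', Matrix.SpecialLinearGroup.toGL b = ug x 0 0 * ug 0 y z * dg3 a b' (a * b')⁻¹ := by
  obtain ⟨x, y, z, a, b', rfl⟩ := mem_bor3.1 hb
  refine ⟨x, y, z - x * y, a, b', ?_⟩
  rw [map_mul, toGL_t3]
  congr 1
  unfold ug
  rw [← map_mul, u3_mul]
  congr 2 <;> ring

theorem swap_nz {F : Type} [Field F] (y z : F) {d d' : GL (Fin 3) F} (hd : d ∈ pg2 F)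
    (hd' : d' ∈ nz F) : ∃ n ∈ nz F, ug 0 y z * (d * d') = d * n := by
  refine ⟨d⁻¹ * ug 0 y z * d * d', (nz F).mul_mem ?_ hd', by group⟩
  have := nz_conj ((pg2 F).inv_mem hd) (ug_nz y z)
  rwa [inv_inv] at this

/-- decomposition of elements of the Borel subgroup -/
theorem bor_dec1 {F : Type} [Field F] {b : SpecialLinearGroup (Fin 3) F} (hb : b ∈ bor3 F) :
    ∃ x a b', ∃ n ∈ nz F,
      Matrix.SpecialLinearGroup.toGL b = ug x 0 0 * dg3 a b' a * n := by
  obtain ⟨x, y, z, a, b', h⟩ := bor_dec0 hb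
  obtain ⟨n, hn, h1⟩ := swap_nz y z (dg3_mem a b' a) (dg3_nz 1 (a⁻¹ * (a * b')⁻¹))
  refine ⟨x, a, b', n, hn, ?_⟩
  rw [h, mul_assoc, mul_assoc, ← h1, dg3_mul, mul_one, mul_one, mul_inv_cancel_left]

theorem bor_dec2 (h2 : (2 : F) = 0) {b : SpecialLinearGroup (Fin 3) F}
    (hb : b ∈ bor3 F) : ∃ x t, ∃ n ∈ nz F,
      Matrix.SpecialLinearGroup.toGL b = ug x 0 0 * dg3 t t⁻¹ 1 * n := by
  have : CharP F 2 := CharTwo.of_one_ne_zero_of_two_eq_zero one_ne_zero h2
  obtain ⟨x, y, z, a, b', h⟩ := bor_dec0 hb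
  obtain ⟨s, hs⟩ := FiniteField.isSquare_of_char_two (F := F) (ringChar.eq F 2) ((a * b' : Fˣ) : F)
  have hs0 : s ≠ 0 := by
    rintro rfl
    rw [mul_zero] at hs
    exact (a * b').ne_zero hs
  have hsu : a * b' = Units.mk0 s hs0 * Units.mk0 s hs0 := Units.ext (by rw [hs]; rfl)
  obtain ⟨n, hn, h1⟩ := swap_nz y z (dg3_mem (a * (Units.mk0 s hs0)⁻¹) (a * (Units.mk0 s hs0)⁻¹)⁻¹ 1)
    (dg3_nz (Units.mk0 s hs0) (a * b')⁻¹)
  refine ⟨x, a * (Units.mk0 s hs0)⁻¹, n, hn, ?_⟩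
  rw [h, mul_assoc, mul_assoc, ← h1, dg3_mul, one_mul, inv_mul_cancel_right]
  have e : (a * (Units.mk0 s hs0)⁻¹)⁻¹ * Units.mk0 s hs0 = b' := by
    rw [_root_.mul_inv_rev, inv_inv, mul_comm (Units.mk0 s hs0) a⁻¹, mul_assoc, ← hsu,
      inv_mul_cancel_left]
  rw [e]

/-- the block idempotent -/
theorem off_r {ρ : Representation Ω (GL (Fin 3) F) V} [Fintype (nz F)]
    (hb : ∀ x : V, (∀ b ∈ bor3 F, ρ (Matrix.SpecialLinearGroup.toGL b) x = x) → x = 0) :
    avn (nz F) ρ * ρ (Matrix.SpecialLinearGroup.toGL (r3 F)) * avn (nz F) ρ = 0 := by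
  let _ : Fintype (bor3 F) := Fintype.ofFinite _
  set E := avn (nz F) ρ with hE
  let ρ' : Representation Ω (SpecialLinearGroup (Fin 3) F) V :=
    MonoidHom.comp ρ Matrix.SpecialLinearGroup.toGL
  have h0 : avn (bor3 F) ρ' * E = 0 := by
    apply LinearMap.ext
    intro x
    rw [LinearMap.zero_apply, Module.End.mul_apply]
    apply hb
    intro b hb'
    have := congrArg (fun f : Module.End Ω V => f (E x)) (avn_left (bor3 F) ρ' hb')
    exact this
  have h1 : ∀ b ∈ bor3 F, (E * ρ (Matrix.SpecialLinearGroup.toGL (r3 F))) * ρ' b * E =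
      (E * ρ (Matrix.SpecialLinearGroup.toGL (r3 F))) * E := by
    intro b hb'
    obtain ⟨x, a, b', n, hn, h⟩ := bor_dec1 hb'
    have e1 : ρ' b = ρ (ug x 0 0) * ρ (dg3 a b' a) * ρ n := by
      rw [← map_mul, ← map_mul, ← h]
      rfl
    have e2 : E * ρ (Matrix.SpecialLinearGroup.toGL (r3 F)) * ρ (ug x 0 0) =
        E * ρ (Matrix.SpecialLinearGroup.toGL (r3 F)) := by
      rw [mul_assoc, ← map_mul, r_ug, map_mul, ← mul_assoc, avn_right (nz F) ρ (ug_nz _ _)]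
    have e3 : E * ρ (Matrix.SpecialLinearGroup.toGL (r3 F)) * ρ (dg3 a b' a) =
        E * ρ (Matrix.SpecialLinearGroup.toGL (r3 F)) := by
      rw [mul_assoc, ← map_mul, r_dg3, map_mul, ← mul_assoc, avn_right (nz F) ρ (dg3_nz _ _)]
    rw [e1, ← mul_assoc, ← mul_assoc, e2, e3, mul_assoc, avn_left (nz F) ρ hn]
  have h3 := abs_mid (bor3 F) ρ' _ _ h1
  rw [← h3, mul_assoc, h0, mul_zero]

theorem blk_nz {ρ : Representation Ω (GL (Fin 3) F) V} [Fintype (nz F)]
    (hb : ∀ x : V, (∀ b ∈ bor3 F, ρ (Matrix.SpecialLinearGroup.toGL b) x = x) → x = 0)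
    (hne : avn (nz F) ρ ≠ 0) : Blk ρ (pg2 F) (avn (nz F) ρ) := by
  have hc : ∀ p ∈ pg2 F, ρ p * avn (nz F) ρ = avn (nz F) ρ * ρ p := by
    intro p hp
    refine avn_comm (nz F) ρ (fun n hn => nz_conj hp hn) fun n hn => ?_
    have := nz_conj ((pg2 F).inv_mem hp) hn
    rwa [inv_inv] at this
  refine ⟨avn_idem _ _, hne, hc, fun g hg => ?_⟩
  rcases pg2_double g with h | ⟨p, hp, p', hp', rfl⟩
  · exact absurd h hg
  · rw [map_mul, map_mul, ← mul_assoc, ← mul_assoc, ← hc p hp]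
    have e := off_r hb
    rw [mul_assoc (ρ p), mul_assoc (ρ p * _), hc p' hp', mul_assoc, ← mul_assoc, ← mul_assoc,
      mul_assoc (ρ p), e, mul_zero, zero_mul]

/-- the embedding of matrices -/
def i2m {F : Type} [Field F] (g : Matrix (Fin 2) (Fin 2) F) : Matrix (Fin 3) (Fin 3) F :=
  !![g 0 0, g 0 1, 0; g 1 0, g 1 1, 0; 0, 0, 1]

theorem i2m_mul {F : Type} [Field F] (g h : Matrix (Fin 2) (Fin 2) F) :
    i2m (g * h) = i2m g * i2m h := by
  ext i j
  fin_cases i <;> fin_cases j <;>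
    simp [i2m, Matrix.mul_apply, Fin.sum_univ_two, Fin.sum_univ_three]

/-- `SL_2` in the upper left corner -/
def i2 (F : Type) [Field F] : SpecialLinearGroup (Fin 2) F →* SpecialLinearGroup (Fin 3) F where
  toFun g := ⟨i2m g.1, by
    have h := P35_aux.det' g
    rw [Matrix.det_fin_three]
    simp [i2m]
    linear_combination h⟩
  map_one' := by
    apply Subtype.ext
    ext i j
    fin_cases i <;> fin_cases j <;> simp [i2m]
  map_mul' g h := Subtype.ext (i2m_mul g.1 h.1)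

theorem i2_ux {F : Type} [Field F] (x : F) : i2 F (ux x) = u3 x 0 0 := by
  apply Subtype.ext
  show i2m (ux x).1 = (u3 x 0 0).1
  ext i j
  fin_cases i <;> fin_cases j <;> simp [i2m, ux, u3]

theorem i2_tx {F : Type} [Field F] (t : Fˣ) :
    Matrix.SpecialLinearGroup.toGL (i2 F (tx t)) = dg3 t t⁻¹ 1 := by
  have : i2 F (tx t) = t3 t t⁻¹ := by
    apply Subtype.ext
    show i2m (tx t).1 = (t3 t t⁻¹).1
    ext i j
    fin_cases i <;> fin_cases j <;> simp [i2m, tx, t3]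
  rw [this, toGL_t3, mul_inv_cancel, inv_one]

theorem i2_mem {F : Type} [Field F] (g : SpecialLinearGroup (Fin 2) F) :
    Matrix.SpecialLinearGroup.toGL (i2 F g) ∈ pg2 F := ⟨rfl, rfl⟩

/-- `P = N SL_2` -/
theorem pg2_dec (h2 : (2 : F) = 0) {p : GL (Fin 3) F} (hp : p ∈ pg2 F) :
    ∃ n ∈ nz F, ∃ A : SpecialLinearGroup (Fin 2) F,
      p = n * Matrix.SpecialLinearGroup.toGL (i2 F A) := by
  have : CharP F 2 := CharTwo.of_one_ne_zero_of_two_eq_zero one_ne_zero h2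
  obtain ⟨hd, -⟩ := blk_ne hp.1 hp.2
  obtain ⟨s, hs⟩ := FiniteField.isSquare_of_char_two (F := F) (ringChar.eq F 2)
    (p.1 0 0 * p.1 1 1 - p.1 0 1 * p.1 1 0)
  have hs0 : s ≠ 0 := by
    rintro rfl
    rw [mul_zero] at hs
    exact hd hs
  set A : SpecialLinearGroup (Fin 2) F :=
    ⟨!![p.1 0 0 / s, p.1 0 1 / s; p.1 1 0 / s, p.1 1 1 / s], by
      rw [Matrix.det_fin_two]
      simp
      field_simp
      linear_combination hs⟩ with hA
  have hn : p * (Matrix.SpecialLinearGroup.toGL (i2 F A))⁻¹ ∈ pg2 F :=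
    (pg2 F).mul_mem hp ((pg2 F).inv_mem (i2_mem A))
  refine ⟨p * (Matrix.SpecialLinearGroup.toGL (i2 F A))⁻¹, ?_, A, by rw [inv_mul_cancel_right]⟩
  generalize hN : p * (Matrix.SpecialLinearGroup.toGL (i2 F A))⁻¹ = n at hn ⊢
  have hNp : n * Matrix.SpecialLinearGroup.toGL (i2 F A) = p := by
    rw [← hN, inv_mul_cancel_right]
  have e : ∀ i j, n.1 i 0 * (Matrix.SpecialLinearGroup.toGL (i2 F A)).1 0 j +
      n.1 i 1 * (Matrix.SpecialLinearGroup.toGL (i2 F A)).1 1 j +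
      n.1 i 2 * (Matrix.SpecialLinearGroup.toGL (i2 F A)).1 2 j = p.1 i j := by
    intro i j
    rw [← mul3, hNp]
  have a00 : (Matrix.SpecialLinearGroup.toGL (i2 F A)).1 0 0 = p.1 0 0 / s := rfl
  have a01 : (Matrix.SpecialLinearGroup.toGL (i2 F A)).1 0 1 = p.1 0 1 / s := rfl
  have a10 : (Matrix.SpecialLinearGroup.toGL (i2 F A)).1 1 0 = p.1 1 0 / s := rfl
  have a11 : (Matrix.SpecialLinearGroup.toGL (i2 F A)).1 1 1 = p.1 1 1 / s := rfl
  have a20 : (Matrix.SpecialLinearGroup.toGL (i2 F A)).1 2 0 = 0 := rfl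
  have a21 : (Matrix.SpecialLinearGroup.toGL (i2 F A)).1 2 1 = 0 := rfl
  have e00 := e 0 0
  have e01 := e 0 1
  have e10 := e 1 0
  have e11 := e 1 1
  rw [a00, a10, a20, mul_zero, add_zero] at e00 e10
  rw [a01, a11, a21, mul_zero, add_zero] at e01 e11
  field_simp at e00 e01 e10 e11
  have r1 := two_eq (x := n.1 0 0 - s) (y := n.1 0 1) hd (by linear_combination e00)
    (by linear_combination e01)
  have r2 := two_eq (x := n.1 1 0) (y := n.1 1 1 - s) hd (by linear_combination e10)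
    (by linear_combination e11)
  refine ⟨hn.1, hn.2, r1.2, r2.1, ?_⟩
  rw [sub_eq_zero.1 r1.1, sub_eq_zero.1 r2.2]

/-- rank one data for `SL_2(q)`, `q` even, `q > 2` or `q = 2` -/
theorem rankOne_sl2' (h2 : (2 : F) = 0) :
    RankOne (P39_aux.uh F).range (P39_aux.th F).range (wx F) := by
  classical
  have : CharP F 2 := CharTwo.of_one_ne_zero_of_two_eq_zero one_ne_zero h2
  have hcard := FiniteField.card F 2
  obtain ⟨k, -, hk⟩ := hcard
  have hneg : (-1 : SpecialLinearGroup (Fin 2) F) = 1 := by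
    apply Subtype.ext
    ext i j
    fin_cases i <;> fin_cases j <;> simp [CharTwo.neg_eq]
  have hww : wx F * wx F = 1 := by rw [wx_sq, hneg]
  have hwinv : (wx F)⁻¹ = wx F := inv_eq_of_mul_eq_one_left hww
  have huu : ∀ x : F, ux x * ux x = 1 := fun x => by
    rw [← ux_add, CharTwo.add_self_eq_zero, ux_zero]
  have hmemU : ∀ g, g ∈ (P39_aux.uh F).range ↔ ∃ x, g = ux x := fun g =>
    ⟨fun ⟨x, hx⟩ => ⟨Multiplicative.toAdd x, hx.symm⟩,
      fun ⟨x, hx⟩ => ⟨Multiplicative.ofAdd x, hx.symm⟩⟩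
  have hmemT : ∀ g, g ∈ (P39_aux.th F).range ↔ ∃ a, g = tx a := fun g =>
    ⟨fun ⟨x, hx⟩ => ⟨x, hx.symm⟩, fun ⟨x, hx⟩ => ⟨x, hx.symm⟩⟩
  have huinj : Function.Injective (P39_aux.uh F) := fun x y h =>
    Multiplicative.toAdd.injective (ux_injective (F := F) h)
  have hcU : Nat.card (P39_aux.uh F).range = Fintype.card F := by
    rw [← Nat.card_congr (MonoidHom.ofInjective huinj).toEquiv,
      Nat.card_congr Multiplicative.toAdd, Nat.card_eq_fintype_card]
  refine ⟨⟨k, by rw [hcU, hk]⟩, ?_, ?_, ?_, ?_, hww, ?_, ?_, ?_, ?_⟩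
  · intro h
    have h1 : ux (1 : F) ∈ (P39_aux.uh F).range := (hmemU _).2 ⟨1, rfl⟩
    rw [h, Subgroup.mem_bot, ← ux_zero] at h1
    exact one_ne_zero (ux_injective h1)
  · have h1 : Nat.card (P39_aux.th F).range ∣ Nat.card Fˣ := Subgroup.card_range_dvd (P39_aux.th F)
    rw [Nat.card_units, Nat.card_eq_fintype_card (α := F), hk] at h1
    refine Odd.of_dvd_nat ?_ h1
    have h3 : Even (2 ^ (k : ℕ)) := (Nat.even_pow.2 ⟨even_two, k.pos.ne'⟩)
    have h4 : 1 ≤ 2 ^ (k : ℕ) := Nat.one_le_two_pow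
    exact Nat.Even.sub_odd h4 h3 odd_one
  · intro t ht u hu
    obtain ⟨a, rfl⟩ := (hmemT t).1 ht
    obtain ⟨x, rfl⟩ := (hmemU u).1 hu
    rw [tx_conj]
    exact (hmemU _).2 ⟨_, rfl⟩
  · intro g
    rcases bruhat g with ⟨x, a, h⟩ | ⟨x, a, y, h⟩
    · exact Or.inl ⟨ux x, (hmemU _).2 ⟨x, rfl⟩, tx a, (hmemT _).2 ⟨a, rfl⟩, h⟩
    · exact Or.inr ⟨ux x, (hmemU _).2 ⟨x, rfl⟩, tx a, (hmemT _).2 ⟨a, rfl⟩, ux y,
        (hmemU _).2 ⟨y, rfl⟩, h⟩
  · intro t ht
    obtain ⟨a, rfl⟩ := (hmemT t).1 ht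
    have := wx_conj a
    rw [hwinv] at this
    rw [this, tx_inv]
  · intro u hu u' hu' t ht h
    obtain ⟨a, rfl⟩ := (hmemT t).1 ht
    obtain ⟨x, rfl⟩ := (hmemU u).1 hu
    obtain ⟨y, rfl⟩ := (hmemU u').1 hu'
    have h1 := congrArg (fun g : SpecialLinearGroup (Fin 2) F => g.1 0 1) h
    have h3 : x = 0 := by
      simp only [Matrix.SpecialLinearGroup.coe_mul] at h1
      simpa [ux, tx, wx, Matrix.mul_apply, Fin.sum_univ_two] using h1
    rw [h3, ux_zero]
  · rintro ⟨x, hx⟩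
    obtain ⟨y, rfl⟩ := (hmemU x).1 hx
    have : (⟨ux y, hx⟩ : (P39_aux.uh F).range) * ⟨ux y, hx⟩ = 1 := Subtype.ext (huu y)
    rw [this]
    exact Subgroup.one_mem _
  · intro lam mu hlam hmu
    set el : F → (P39_aux.uh F).range := fun x => ⟨ux x, (hmemU _).2 ⟨x, rfl⟩⟩ with hel
    have hela : ∀ x y, el (x + y) = el x * el y := fun x y => Subtype.ext (ux_add x y)
    have hels : ∀ u : (P39_aux.uh F).range, ∃ x, u = el x := fun u => by
      obtain ⟨x, hx⟩ := (hmemU u).1 u.2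
      exact ⟨x, Subtype.ext hx⟩
    have hadd : ∀ (nu : (P39_aux.uh F).range →* ℤˣ) (x y : F),
        P39_aux.gs (nu (el (x + y))) = P39_aux.gs (nu (el x)) + P39_aux.gs (nu (el y)) := fun nu x y => by
      rw [hela, map_mul, P39_aux.gs_mul]
    have hne : ∀ nu : (P39_aux.uh F).range →* ℤˣ, nu ≠ 1 → ∃ x, P39_aux.gs (nu (el x)) ≠ 0 := by
      intro nu hnu
      by_contra hcon
      push Not at hcon
      apply hnu
      ext u
      obtain ⟨x, rfl⟩ := hels u
      have h3 := hcon x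
      rw [← P39_aux.gs_one] at h3
      rw [P39_aux.gs_inj _ _ h3]
      rfl
    obtain ⟨c, hc, hcu⟩ := P39_aux.dual_surj (fun x => P39_aux.gs (lam (el x))) (fun x => P39_aux.gs (mu (el x)))
      (hadd lam) (hadd mu) (hne lam hlam)
    have hc0 : c ≠ 0 := by
      rintro rfl
      obtain ⟨x, hx⟩ := hne mu hmu
      apply hx
      have h3 := hc x
      beta_reduce at h3
      rw [h3, zero_mul]
      have h4 : el 0 = 1 := Subtype.ext ux_zero
      rw [h4, map_one, P39_aux.gs_one]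
    obtain ⟨b, hb⟩ := FiniteField.isSquare_of_char_two (F := F) (ringChar.eq F 2) c
    have hb0 : b ≠ 0 := by
      rintro rfl
      rw [mul_zero] at hb
      exact hc0 hb
    -- the condition for the torus element `a`
    have key : ∀ a : Fˣ, (∀ x y : (P39_aux.uh F).range,
        (y : SpecialLinearGroup (Fin 2) F) = (tx a)⁻¹ * x * tx a → mu x = lam y) ↔
        ∀ ξ : F, P39_aux.gs (mu (el ξ)) = P39_aux.gs (lam (el (((a⁻¹ : Fˣ) : F) ^ 2 * ξ))) := by
      intro a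
      have h3 : ∀ ξ : F, (tx a)⁻¹ * ux ξ * tx a = ux (((a⁻¹ : Fˣ) : F) ^ 2 * ξ) := by
        intro ξ
        have h4 := tx_conj a⁻¹ ξ
        rw [← tx_inv, inv_inv] at h4
        exact h4
      constructor
      · intro h ξ
        rw [h (el ξ) (el (((a⁻¹ : Fˣ) : F) ^ 2 * ξ)) (h3 ξ).symm]
      · intro h x y hxy
        obtain ⟨ξ, rfl⟩ := hels x
        have h4 : y = el (((a⁻¹ : Fˣ) : F) ^ 2 * ξ) := Subtype.ext (hxy.trans (h3 ξ))
        rw [h4]
        exact P39_aux.gs_inj _ _ (h ξ)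
    have hbu : (((Units.mk0 b hb0)⁻¹)⁻¹ : Fˣ) = Units.mk0 b hb0 := inv_inv _
    refine ⟨⟨tx (Units.mk0 b hb0)⁻¹, (hmemT _).2 ⟨_, rfl⟩⟩, ?_, ?_⟩
    · refine (key _).2 fun ξ => ?_
      rw [hbu, Units.val_mk0, sq, ← hb]
      exact hc ξ
    · rintro ⟨t, ht⟩ h
      obtain ⟨a, rfl⟩ := (hmemT t).1 ht
      have h3 := (key a).1 h
      have h4 : ((a⁻¹ : Fˣ) : F) ^ 2 = c := hcu _ h3
      have h5 : ((a⁻¹ : Fˣ) : F) = b := by
        rw [hb, ← sq] at h4
        exact frobenius_inj F 2 (by simpa [frobenius_def] using h4)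
      have h6 : a = (Units.mk0 b hb0)⁻¹ := by
        rw [← _root_.inv_inj, inv_inv]
        exact Units.ext h5
      exact Subtype.ext (congrArg tx h6)


/-- the linear character of `U` -/
def lc {F : Type} [Field F] (m : F → ℤˣ) (hm : AC m) : (P39_aux.uh F).range →* ℤˣ where
  toFun u := m (u.1.1 0 1)
  map_one' := by
    have h := hm 0 0
    rw [add_zero] at h
    have h1 : m 0 = 1 := by
      have := mul_left_cancel (a := m 0) (b := m 0) (c := 1) (by rw [mul_one]; exact h.symm)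
      exact this
    exact h1
  map_mul' := by
    rintro ⟨_, ⟨x, rfl⟩⟩ ⟨_, ⟨y, rfl⟩⟩
    rw [← hm]
    congr 1
    show ((ux (Multiplicative.toAdd x) * ux (Multiplicative.toAdd y) :
      SpecialLinearGroup (Fin 2) F)).1 0 1 = _
    rw [← ux_add]
    show (Multiplicative.toAdd x) + (Multiplicative.toAdd y) =
      (Multiplicative.toAdd x) + (Multiplicative.toAdd y)
    rfl

end Y03_aux

/-- Let `v ≠ 0` be fixed by `R = {u(0,y,z)}` and by `Z₁ = {diag(a,a,c)}`, with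
`u(x,0,0) v = m(x) v`, `m ≠ 1`. Then `dim V` is odd or there is a nonzero vector fixed by the
Borel subgroup of `SL_3`.

Proof. `R Z₁` is normal in `P = pg2 F`; let `E` be the projection to its fixed vectors. If there is
no nonzero vector fixed by the Borel subgroup of `SL_3` then `E g E = 0` for `g ∉ P`: by
`pg2_double` it suffices that `E r E = 0`, and `E r b E = E r E` for `b` in the Borel subgroup,
so `E r E = E r e_B E = 0`. Hence `E` is a block idempotent (`Blk`),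
`dim V = [GL_3 : P] dim (range E)` (`blk_finrank`), and the range of `E` is irreducible
(`blk_irr`). `P = R Z₁ SL_2`, so the range of `E` is an irreducible representation of `SL_2(q)`
without nonzero vectors fixed by the Borel subgroup, and its dimension is odd
(`RankOne.odd_dim`). The index is odd. -/
theorem gl3_induced (h2 : (2 : F) = 0) {ρ : Representation Ω (GL (Fin 3) F) V}
    (hρ : ρ.IsIrreducible) {m : F → ℤˣ} (hm : AC m) (hn : ∃ x, m x ≠ 1) {v : V} (hv0 : v ≠ 0)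
    (hR : ∀ y z, ρ (ug 0 y z) v = v) (hZ : ∀ a c, ρ (dg3 a a c) v = v)
    (hv : ∀ x, ρ (ug x 0 0) v = ((m x : ℤ) : Ω) • v) :
    Odd (Module.finrank Ω V) ∨ ∃ v' : V, v' ≠ 0 ∧
      ∀ b ∈ bor3 F, ρ (Matrix.SpecialLinearGroup.toGL b) v' = v' := by
  classical
  by_cases hb : ∃ v' : V, v' ≠ 0 ∧ ∀ b ∈ bor3 F, ρ (Matrix.SpecialLinearGroup.toGL b) v' = v'
  · exact Or.inr hb
  left
  have hb' : ∀ x : V, (∀ b ∈ bor3 F, ρ (Matrix.SpecialLinearGroup.toGL b) x = x) → x = 0 := by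
    intro x hx
    by_contra h0
    exact hb ⟨x, h0, hx⟩
  let _ : Fintype (nz F) := Fintype.ofFinite _
  have hEv : avn (nz F) ρ v = v := by
    refine avn_fix _ _ fun n hn => ?_
    obtain ⟨a, c, y, z, rfl⟩ := nz_dec hn
    rw [map_mul, Module.End.mul_apply, hR, hZ]
  have hE : Blk ρ (pg2 F) (avn (nz F) ρ) := by
    refine blk_nz hb' fun h => hv0 ?_
    rw [← hEv, h, LinearMap.zero_apply]
  generalize hEE : avn (nz F) ρ = E at hEv hE
  have hfin := blk_finrank hE hρ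
  have hirr := blk_irr hE hρ
  have hNE : ∀ n ∈ nz F, ∀ x ∈ LinearMap.range E, ρ n x = x := by
    rintro n hn _ ⟨y, rfl⟩
    have := congrArg (fun f : Module.End Ω V => f y) (avn_left (nz F) ρ hn)
    rw [hEE] at this
    exact this
  -- the representation of `SL_2`
  let io : SpecialLinearGroup (Fin 2) F →* pg2 F :=
    (Matrix.SpecialLinearGroup.toGL.comp (i2 F)).codRestrict (pg2 F) fun g => i2_mem g
  let σ : Representation Ω (SpecialLinearGroup (Fin 2) F) (LinearMap.range E) :=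
    MonoidHom.comp hE.rep io
  have hσc : ∀ g (x : LinearMap.range E), ((σ g x : LinearMap.range E) : V) =
      ρ (Matrix.SpecialLinearGroup.toGL (i2 F g)) (x : V) := fun g x => rfl
  have hσ : σ.IsIrreducible := by
    refine irr_of_sub (irr_pos hirr) fun W hW => irr_sub hirr fun p x hx => ?_
    obtain ⟨n, hn', A, hA⟩ := pg2_dec h2 p.2
    have e : hE.rep p x = σ A x := by
      apply Subtype.ext
      rw [hσc]
      show ρ (p : GL (Fin 3) F) (x : V) = _
      rw [hA, map_mul, Module.End.mul_apply]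
      refine hNE n hn' _ ?_
      rw [← hσc]
      exact (σ A x).2
    rw [e]
    exact hW A x hx
  have hodd : Odd (Module.finrank Ω (LinearMap.range E)) := by
    refine (rankOne_sl2' h2).odd_dim hσ ?_ (lam := lc m hm) ?_ (v := ⟨v, v, hEv⟩) ?_ ?_
    · intro x hx
      apply Subtype.ext
      refine hb' _ fun b hbb => ?_
      obtain ⟨ξ, t, n, hn', e⟩ := bor_dec2 h2 hbb
      rw [e, map_mul, map_mul, Module.End.mul_apply, Module.End.mul_apply, hNE n hn' _ x.2]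
      have h1 := hx (ux ξ * tx t) ⟨ux ξ, ⟨Multiplicative.ofAdd ξ, rfl⟩, tx t, ⟨t, rfl⟩, rfl⟩
      have h3 := congrArg Subtype.val h1
      rw [hσc, map_mul, map_mul, map_mul, Module.End.mul_apply, i2_tx, i2_ux] at h3
      exact h3
    · intro h
      obtain ⟨x, hx⟩ := hn
      apply hx
      have h1 := congrArg (fun f : (P39_aux.uh F).range →* ℤˣ =>
        f ⟨ux x, ⟨Multiplicative.ofAdd x, rfl⟩⟩) h
      exact h1
    · intro h
      exact hv0 (congrArg Subtype.val h)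
    · rintro ⟨_, ⟨x, rfl⟩⟩
      apply Subtype.ext
      rw [hσc]
      have h1 := hv (Multiplicative.toAdd x)
      show ρ (Matrix.SpecialLinearGroup.toGL (i2 F (ux (Multiplicative.toAdd x)))) v =
        ((m (Multiplicative.toAdd x) : ℤ) : Ω) • v
      rw [i2_ux]
      exact h1
  rw [hfin, index_pg2]
  refine Odd.mul ?_ hodd
  refine Even.add_one ?_
  rw [sq, ← Nat.mul_succ]
  exact Nat.even_mul_succ_self _

end

end Parker
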