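import Pool.Agent.Parker.Defs
import Pool.Agent.Parker.P01
import Pool.Agent.Parker.P08
import Pool.Agent.Parker.P09
import Pool.Agent.Parker.P15
import Pool.Agent.Parker.Q06
import Pool.Agent.Parker.X01
import Pool.Agent.Parker.Y02

/-!
# MP_6c3636_al, module Y04: representations of `SL_3` and `GL_3` (helper7)
-/

namespace Parker

open Matrix

universe v

noncomputable section

variable {F : Type} [Field F] [Fintype F] {Ω : Type} [Field Ω] [IsAlgClosed Ω] [CharZero Ω]
  {V : Type v} [AddCommGroup V] [Module Ω V] [FiniteDimensional Ω V]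

/-- conjugation of elements of `SL_3` by `diag(d,1,1)` -/
def cdg (d : Fˣ) (x : SpecialLinearGroup (Fin 3) F) : SpecialLinearGroup (Fin 3) F :=
  ⟨!![x.1 0 0, d * x.1 0 1, d * x.1 0 2;
      ((d⁻¹ : Fˣ) : F) * x.1 1 0, x.1 1 1, x.1 1 2;
      ((d⁻¹ : Fˣ) : F) * x.1 2 0, x.1 2 1, x.1 2 2], by
    have h := x.2
    have hd : (d : F) ≠ 0 := d.ne_zero
    rw [Matrix.det_fin_three] at h
    rw [Matrix.det_fin_three]
    simp only [Matrix.of_apply, Matrix.cons_val', Matrix.cons_val_zero, Matrix.cons_val_one,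
      Matrix.cons_val, Units.val_inv_eq_inv_val]
    field_simp
    linear_combination h⟩

theorem toGL_cdg (d : Fˣ) (x : SpecialLinearGroup (Fin 3) F) :
    Matrix.SpecialLinearGroup.toGL (cdg d x) =
      dg3 d 1 1 * Matrix.SpecialLinearGroup.toGL x * (dg3 d 1 1)⁻¹ := by
  rw [dg3_inv]
  apply Units.ext
  ext i j
  rw [Units.val_mul, Units.val_mul, Matrix.mul_apply, Fin.sum_univ_three]
  simp only [Matrix.mul_apply, Fin.sum_univ_three]
  fin_cases i <;> fin_cases j <;>
    simp [cdg, dg3, Matrix.SpecialLinearGroup.toGL, Matrix.diagonal, Matrix.of_apply] <;>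
    first
      | ring1
      | (have hd : (d : F) ≠ 0 := d.ne_zero
         field_simp)

theorem cdg_mul (d : Fˣ) (x y : SpecialLinearGroup (Fin 3) F) :
    cdg d (x * y) = cdg d x * cdg d y := by
  apply Matrix.SpecialLinearGroup.toGL_injective
  rw [map_mul, toGL_cdg, toGL_cdg, toGL_cdg, map_mul]
  group

theorem cdg_u3 (d : Fˣ) (x y z : F) : cdg d (u3 x y z) = u3 (d * x) y (d * z) := by
  apply Subtype.ext
  ext i j
  fin_cases i <;> fin_cases j <;> simp [cdg, u3]

theorem cdg_t3 (d a b : Fˣ) : cdg d (t3 a b) = t3 a b := by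
  apply Subtype.ext
  ext i j
  fin_cases i <;> fin_cases j <;> simp [cdg, t3]

namespace Y04_aux

open Matrix.SpecialLinearGroup (toGL toGL_injective)

/-- the image of `SL_3` in `GL_3` -/
abbrev NN (F : Type) [Field F] : Subgroup (GL (Fin 3) F) :=
  (toGL (n := Fin 3) (R := F)).range

theorem mem_NN {F : Type} [Field F] {g : GL (Fin 3) F} :
    g ∈ NN F ↔ (g : Matrix (Fin 3) (Fin 3) F).det = 1 := by
  constructor
  · rintro ⟨x, rfl⟩
    exact x.2
  · intro h
    exact ⟨⟨(g : Matrix (Fin 3) (Fin 3) F), h⟩, Units.ext rfl⟩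

instance {F : Type} [Field F] : (NN F).Normal := by
  refine ⟨fun n hn g => ?_⟩
  rw [mem_NN] at hn ⊢
  rw [Units.val_mul, Units.val_mul, Matrix.det_mul, Matrix.det_mul, hn, mul_one,
    ← Matrix.det_mul, ← Units.val_mul, mul_inv_cancel, Units.val_one, Matrix.det_one]

/-- `SL_3` is isomorphic to its image -/
def ee (F : Type) [Field F] : SpecialLinearGroup (Fin 3) F ≃* NN F :=
  MonoidHom.ofInjective toGL_injective

theorem coe_ee {F : Type} [Field F] (x : SpecialLinearGroup (Fin 3) F) :
    ((ee F x : NN F) : GL (Fin 3) F) = toGL x := rfl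

/-- the character on the image -/
def ph (ρ : Representation Ω (SpecialLinearGroup (Fin 3) F) V) : NN F → Ω :=
  fun n => ρ.character ((ee F).symm n)

theorem ph_mem {ρ : Representation Ω (SpecialLinearGroup (Fin 3) F) V}
    (hρ : ρ.IsIrreducible) : ph ρ ∈ irr Ω (NN F) := by
  let τ : Representation Ω (NN F) V := MonoidHom.comp ρ (ee F).symm.toMonoidHom
  have hτ' : ∀ x, τ x = ρ ((ee F).symm x) := fun x => rfl
  have h1 : τ.IsIrreducible := by
    refine irr_of_sub (irr_pos hρ) fun U hU => irr_sub hρ fun k x hx => ?_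
    have h2 := hU (ee F k) x hx
    rw [hτ', MulEquiv.symm_apply_apply] at h2
    exact h2
  have h2 : ph ρ = τ.character := rfl
  rw [h2]
  exact mem_irr.2 (mem_irrSet h1)

theorem cj_ph {ρ : Representation Ω (SpecialLinearGroup (Fin 3) F) V}
    (hρ : ρ.IsIrreducible) (g : GL (Fin 3) F) : ∃ d : Fˣ, ∀ x,
      cj (NN F) g (ph ρ) (ee F x) = ρ.character (cdg d x) := by
  obtain ⟨d, y, rfl⟩ := gl3_eq g
  refine ⟨d⁻¹, fun x => ?_⟩
  have h1 : cj (NN F) (toGL y) (ph ρ) = ph ρ := cj_self (NN F) (ph_mem hρ) (ee F y)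
  rw [cj_mul, h1]
  have h2 : (MulAut.conjNormal (dg3 d 1 1)⁻¹ (ee F x) : NN F) = ee F (cdg d⁻¹ x) := by
    apply Subtype.ext
    rw [MulAut.conjNormal_apply, coe_ee, coe_ee, toGL_cdg, inv_inv]
    rw [dg3_inv, dg3_inv]
    simp only [inv_one, inv_inv]
  change ph ρ (MulAut.conjNormal (dg3 d 1 1)⁻¹ (ee F x)) = _
  rw [h2]
  change ρ.character ((ee F).symm (ee F (cdg d⁻¹ x))) = _
  rw [MulEquiv.symm_apply_apply]

theorem cdg_one (x : SpecialLinearGroup (Fin 3) F) : cdg 1 x = x := by
  apply Subtype.ext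
  ext i j
  fin_cases i <;> fin_cases j <;> simp [cdg]

end Y04_aux

open Y04_aux

/-- Every irreducible representation `ρ` of `SL_3` lies under an irreducible representation `ρ'` of
`GL_3`, and the restriction of `ρ'` to `SL_3` is a sum of conjugates of `ρ` by matrices
`diag(d,1,1)` (`exists_over` for the image `N` of `SL_3`; Clifford: the constituents of `ρ'|N` are
conjugate, `clifford_trans`, conjugation by elements of `N` does not change characters, and
`GL_3 = {diag(d,1,1)} SL_3`, `gl3_eq`) -/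
theorem exists_gl {ρ : Representation Ω (SpecialLinearGroup (Fin 3) F) V}
    (hρ : ρ.IsIrreducible) :
    ∃ (n : ℕ) (ρ' : Representation Ω (GL (Fin 3) F) (Fin n → Ω)) (L : List Fˣ),
      ρ'.IsIrreducible ∧ 1 ∈ L ∧ ∀ x, ρ'.character (Matrix.SpecialLinearGroup.toGL x) =
        (L.map fun d => ρ.character (cdg d x)).sum := by
  classical
  obtain ⟨n, ρ', hρ', hmul⟩ := exists_over (NN F) (ph_mem hρ)
  set ψ := (rs (NN F) ρ').character with hψ
  have key : ∀ S : Finset (NN F → Ω), S ⊆ irr Ω (NN F) → ∃ L : List Fˣ,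
      (ph ρ ∈ S → (1 : Fˣ) ∈ L) ∧ ∀ x, ∑ φ ∈ S, (mul ψ φ : Ω) * φ (ee F x)
        = (L.map fun d => ρ.character (cdg d x)).sum := by
    intro S
    induction S using Finset.induction_on with
    | empty => exact fun _ => ⟨[], fun h => absurd h (Finset.notMem_empty _), fun x => by simp⟩
    | insert φ S hφS ih =>
      intro hS
      obtain ⟨L, hL1, hL2⟩ := ih fun x hx => hS (Finset.mem_insert_of_mem hx)
      have hφ : φ ∈ irr Ω (NN F) := hS (Finset.mem_insert_self _ _)
      by_cases h0 : mul ψ φ = 0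
      · refine ⟨L, fun h => ?_, fun x => ?_⟩
        · rcases Finset.mem_insert.1 h with h1 | h1
          · rw [h1] at hmul
            exact absurd h0 hmul
          · exact hL1 h1
        · rw [Finset.sum_insert hφS, h0, Nat.cast_zero, zero_mul, zero_add, hL2]
      · have hd : ∃ d : Fˣ, (φ = ph ρ → d = 1) ∧ ∀ x, φ (ee F x) = ρ.character (cdg d x) := by
          by_cases hc : φ = ph ρ
          · refine ⟨1, fun _ => rfl, fun x => ?_⟩
            rw [hc, cdg_one]
            change ρ.character ((ee F).symm (ee F x)) = _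
            rw [MulEquiv.symm_apply_apply]
          · obtain ⟨g, hg⟩ := clifford_trans (NN F) hρ' (ph_mem hρ) hφ hmul h0
            obtain ⟨d, hd⟩ := cj_ph hρ g
            exact ⟨d, fun h => absurd h hc, fun x => by rw [hg, hd]⟩
        obtain ⟨d, hd1, hd2⟩ := hd
        refine ⟨List.replicate (mul ψ φ) d ++ L, fun h => ?_, fun x => ?_⟩
        · rcases Finset.mem_insert.1 h with h1 | h1
          · rw [List.mem_append]
            left
            rw [List.mem_replicate]
            exact ⟨h0, (hd1 h1.symm).symm⟩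
          · exact List.mem_append_right _ (hL1 h1)
        · rw [Finset.sum_insert hφS, hL2, List.map_append, List.sum_append, List.map_replicate,
            List.sum_replicate, hd2, nsmul_eq_mul]
  obtain ⟨L, hL1, hL2⟩ := key _ (Finset.Subset.refl _)
  refine ⟨n, ρ', L, hρ', hL1 (ph_mem hρ), fun x => ?_⟩
  rw [← hL2 x]
  have h1 : ρ'.character (Matrix.SpecialLinearGroup.toGL x) = ψ (ee F x) := rfl
  rw [h1]
  have h2 := congrFun (char_eq_sum (rs (NN F) ρ')) (ee F x)
  rw [Finset.sum_apply] at h2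
  exact h2

/-- twist of a representation of `GL_3` by a character of the determinant: irreducible, the same
on `SL_3` -/
theorem exists_twist {n : ℕ} {ρ' : Representation Ω (GL (Fin 3) F) (Fin n → Ω)}
    (hρ : ρ'.IsIrreducible) (κ : Fˣ →* Ωˣ) :
    ∃ ρ'' : Representation Ω (GL (Fin 3) F) (Fin n → Ω), ρ''.IsIrreducible ∧
      ∀ (g : GL (Fin 3) F), ρ'' g = (κ (Matrix.GeneralLinearGroup.det g) : Ω) • ρ' g := by
  let ρ'' : Representation Ω (GL (Fin 3) F) (Fin n → Ω) :=
    { toFun := fun g => (κ (Matrix.GeneralLinearGroup.det g) : Ω) • ρ' g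
      map_one' := by
        rw [map_one, map_one, Units.val_one, one_smul, map_one]
      map_mul' := by
        intro g h
        rw [map_mul, map_mul, Units.val_mul, map_mul, smul_mul_smul_comm] }
  have h1 : ∀ g, ρ'' g = (κ (Matrix.GeneralLinearGroup.det g) : Ω) • ρ' g := fun g => rfl
  refine ⟨ρ'', ?_, h1⟩
  refine irr_of_sub (irr_pos hρ) fun U hU => irr_sub hρ fun g x hx => ?_
  have h2 := hU g x hx
  rw [h1, LinearMap.smul_apply] at h2
  exact (U.smul_mem_iff (Units.ne_zero _)).1 h2

end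

end Parker
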