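import Pool.Agent.Parker.Defs
import Pool.Agent.Parker.P01
import Pool.Agent.Parker.P08
import Pool.Agent.Parker.P32
import Pool.Agent.Parker.X01
import Pool.Agent.Parker.Y02
import Pool.Agent.Parker.Y03
import Pool.Agent.Parker.Y04

/-!
# MP_6c3636_al, module Y05: `SL_3(q)`, `q` even: degenerate Whittaker vectors (helper7)
-/

namespace Parker

open Matrix

universe v

noncomputable section

namespace Y05_aux

section Eig

variable {Ω : Type} [Field Ω] {G : Type*} [Group G] {H : Type*} [Group H]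
  {V : Type v} [AddCommGroup V] [Module Ω V]

/-- the eigenspace of a linear character -/
def Eg (τ : Representation Ω G V) (j : H →* G) (χ : H →* Ωˣ) : Submodule Ω V where
  carrier := {v | ∀ h, τ (j h) v = (χ h : Ω) • v}
  add_mem' := by
    intro a b ha hb h
    rw [map_add, ha h, hb h, smul_add]
  zero_mem' := by
    intro h
    rw [map_zero, smul_zero]
  smul_mem' := by
    intro r a ha h
    rw [map_smul, ha h, smul_comm]

/-- the twisted representation -/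
def tw (τ : Representation Ω G V) (j : H →* G) (χ : H →* Ωˣ) : Representation Ω H V where
  toFun h := (((χ h)⁻¹ : Ωˣ) : Ω) • τ (j h)
  map_one' := by simp
  map_mul' a b := by
    rw [map_mul, map_mul, map_mul, mul_inv, smul_mul_smul_comm, Units.val_mul]

theorem eg_eq (τ : Representation Ω G V) (j : H →* G) (χ : H →* Ωˣ) :
    Eg τ j χ = (tw τ j χ).invariants := by
  ext v
  constructor
  · intro hv h
    change (((χ h)⁻¹ : Ωˣ) : Ω) • τ (j h) v = v
    rw [hv h, smul_smul, Units.inv_mul, one_smul]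
  · intro hv h
    have h1 : (((χ h)⁻¹ : Ωˣ) : Ω) • τ (j h) v = v := hv h
    conv_rhs => rw [← h1]
    rw [smul_smul, Units.mul_inv, one_smul]

theorem finrank_eg [CharZero Ω] [Fintype H] [FiniteDimensional Ω V]
    (τ : Representation Ω G V) (j : H →* G) (χ : H →* Ωˣ) :
    (Module.finrank Ω (Eg τ j χ) : Ω) =
      (Nat.card H : Ω)⁻¹ * ∑ h, (((χ h)⁻¹ : Ωˣ) : Ω) * τ.character (j h) := by
  have : Invertible (Nat.card H : Ω) :=
    invertibleOfNonzero (Nat.cast_ne_zero.2 Nat.card_pos.ne')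
  rw [eg_eq, ← Representation.card_inv_mul_sum_char_eq_finrank]
  congr 1
  refine Finset.sum_congr rfl fun h _ => ?_
  change LinearMap.trace Ω V ((((χ h)⁻¹ : Ωˣ) : Ω) • τ (j h)) = _
  rw [map_smul]
  rfl

theorem sum_list {ι : Type*} {X : Type*} [Fintype X] (L : List ι) (a : X → Ω) (b : Ω)
    (f : ι → X → Ω) :
    b * ∑ h, a h * (L.map fun d => f d h).sum = (L.map fun d => b * ∑ h, a h * f d h).sum := by
  induction L with
  | nil => simp
  | cons d L ih =>
    simp only [List.map_cons, List.sum_cons, mul_add, Finset.sum_add_distrib]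
    rw [← ih]

/-- signs as units -/
def sg (Ω : Type) [Field Ω] : ℤˣ →* Ωˣ := Units.map (Int.castRingHom Ω).toMonoidHom

theorem sg_val (e : ℤˣ) : ((sg Ω e : Ωˣ) : Ω) = ((e : ℤ) : Ω) := rfl

variable {F : Type} [Field F]

/-- the linear character `m ∘ f` -/
def mkc (Ω : Type) [Field Ω] (f : H → F) (hf : ∀ a b, f (a * b) = f a + f b) {m : F → ℤˣ}
    (hm : AC m) : H →* Ωˣ :=
  (sg Ω).comp (MonoidHom.mk' (fun h => m (f h)) (by intro a b; rw [hf, hm]))

theorem mkc_val (f : H → F) (hf : ∀ a b, f (a * b) = f a + f b) {m : F → ℤˣ} (hm : AC m) (h : H) :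
    ((mkc Ω f hf hm h : Ωˣ) : Ω) = ((m (f h) : ℤ) : Ω) := rfl

theorem ac_zero {m : F → ℤˣ} (hm : AC m) : m 0 = 1 := by
  have h := hm 0 0
  rw [add_zero] at h
  exact (mul_eq_left.1 h.symm)

end Eig

section Grp

variable {F : Type} [Field F]

theorem u3_zero : u3 (0 : F) 0 0 = 1 := by
  apply Subtype.ext
  ext i j
  fin_cases i <;> fin_cases j <;> simp [u3]

theorem t3_one : t3 (1 : Fˣ) 1 = 1 := by
  apply Subtype.ext
  ext i j
  fin_cases i <;> fin_cases j <;> simp [t3]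

theorem tu (a b : Fˣ) (x y z : F) : t3 a b * u3 x y z =
    u3 ((a : F) * (b : F)⁻¹ * x) ((a : F) * (b : F) ^ 2 * y) ((a : F) ^ 2 * b * z) * t3 a b := by
  rw [← t3_u3, inv_mul_cancel_right]

theorem h1_mul_aux (x y z : F) (a : Fˣ) (x' y' z' : F) (a' : Fˣ) :
    u3 x y z * t3 a a * (u3 x' y' z' * t3 a' a') =
      u3 (x + (a : F) * (a : F)⁻¹ * x') (y + (a : F) * (a : F) ^ 2 * y')
        (z + (a : F) ^ 2 * a * z' + x * ((a : F) * (a : F) ^ 2 * y')) * t3 (a * a') (a * a') := by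
  have h : u3 x y z * t3 a a * (u3 x' y' z' * t3 a' a') =
      u3 x y z * (t3 a a * u3 x' y' z') * t3 a' a' := by group
  rw [h, tu, ← mul_assoc, u3_mul, mul_assoc, t3_mul]

/-- the group `{u3 x y z * t3 a a}` -/
def h1 (F : Type) [Field F] : Subgroup (SpecialLinearGroup (Fin 3) F) where
  carrier := {g | ∃ (x y z : F) (a : Fˣ), g = u3 x y z * t3 a a}
  mul_mem' := by
    rintro _ _ ⟨x, y, z, a, rfl⟩ ⟨x', y', z', a', rfl⟩
    rw [Set.mem_ofPred_eq, h1_mul_aux]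
    exact ⟨_, _, _, _, rfl⟩
  one_mem' := ⟨0, 0, 0, 1, by rw [u3_zero, t3_one, one_mul]⟩
  inv_mem' := by
    rintro _ ⟨x, y, z, a, rfl⟩
    rw [Set.mem_ofPred_eq, _root_.mul_inv_rev, u3_inv, t3_inv, tu]
    exact ⟨_, _, _, _, rfl⟩

theorem mem_h1 (x y z : F) (a : Fˣ) : u3 x y z * t3 a a ∈ h1 F := ⟨x, y, z, a, rfl⟩

theorem mem_uni3 (x y z : F) : u3 x y z ∈ uni3 F := ⟨(x, y, z), rfl⟩

/-- the first coordinate -/
def f1 (g : SpecialLinearGroup (Fin 3) F) : F := g.1 0 1 / g.1 1 1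

theorem f1_eq (x y z : F) (a : Fˣ) : f1 (u3 x y z * t3 a a) = x := by
  have h1 : (u3 x y z * t3 a a).1 0 1 = x * a := by
    rw [Matrix.SpecialLinearGroup.coe_mul]
    simp [u3, t3, Matrix.mul_apply, Fin.sum_univ_three]
  have h2 : (u3 x y z * t3 a a).1 1 1 = a := by
    rw [Matrix.SpecialLinearGroup.coe_mul]
    simp [u3, t3, Matrix.mul_apply, Fin.sum_univ_three]
  rw [f1, h1, h2, mul_div_cancel_right₀ _ a.ne_zero]

theorem f1_mul (g g' : h1 F) : f1 (g * g' : h1 F).1 = f1 g.1 + f1 g'.1 := by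
  obtain ⟨g, hg⟩ := g
  obtain ⟨g', hg'⟩ := g'
  obtain ⟨x, y, z, a, rfl⟩ := id hg
  obtain ⟨x', y', z', a', rfl⟩ := id hg'
  change f1 (u3 x y z * t3 a a * (u3 x' y' z' * t3 a' a')) = _
  rw [h1_mul_aux, f1_eq, f1_eq, f1_eq, mul_inv_cancel₀ a.ne_zero, one_mul]

/-- coordinates of the unitriangular group -/
def f2 (g : SpecialLinearGroup (Fin 3) F) : F := g.1 0 1

/-- coordinates of the unitriangular group -/
def f3 (g : SpecialLinearGroup (Fin 3) F) : F := g.1 1 2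

theorem f2_eq (x y z : F) : f2 (u3 x y z) = x := by
  simp [f2, u3]

theorem f3_eq (x y z : F) : f3 (u3 x y z) = y := by
  simp [f3, u3]

theorem f2_mul (g g' : uni3 F) : f2 (g * g' : uni3 F).1 = f2 g.1 + f2 g'.1 := by
  obtain ⟨g, hg⟩ := g
  obtain ⟨g', hg'⟩ := g'
  obtain ⟨⟨x, y, z⟩, rfl⟩ := id hg
  obtain ⟨⟨x', y', z'⟩, rfl⟩ := id hg'
  change f2 (u3 x y z * u3 x' y' z') = f2 (u3 x y z) + f2 (u3 x' y' z')
  rw [u3_mul, f2_eq, f2_eq, f2_eq]

theorem f3_mul (g g' : uni3 F) : f3 (g * g' : uni3 F).1 = f3 g.1 + f3 g'.1 := by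
  obtain ⟨g, hg⟩ := g
  obtain ⟨g', hg'⟩ := g'
  obtain ⟨⟨x, y, z⟩, rfl⟩ := id hg
  obtain ⟨⟨x', y', z'⟩, rfl⟩ := id hg'
  change f3 (u3 x y z * u3 x' y' z') = f3 (u3 x y z) + f3 (u3 x' y' z')
  rw [u3_mul, f3_eq, f3_eq, f3_eq]

section

variable [Fintype F]

/-- conjugation by `diag(d,1,1)` as a homomorphism -/
def cdh (d : Fˣ) : SpecialLinearGroup (Fin 3) F →* SpecialLinearGroup (Fin 3) F :=
  MonoidHom.mk' (cdg d) (cdg_mul d)

theorem cdh_apply (d : Fˣ) (g : SpecialLinearGroup (Fin 3) F) : cdh d g = cdg d g := rfl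

theorem cdg_one (g : SpecialLinearGroup (Fin 3) F) : cdg 1 g = g := by
  apply Matrix.SpecialLinearGroup.toGL_injective
  rw [toGL_cdg]
  have h : dg3 (1 : Fˣ) 1 1 = 1 := by
    apply Units.ext
    ext i j
    fin_cases i <;> fin_cases j <;> simp [dg3]
  rw [h, one_mul, inv_one, mul_one]

end

end Grp

section Rp

variable {F : Type} [Field F] {Ω : Type} [Field Ω] {G : Type*} [Group G]
  {V : Type v} [AddCommGroup V] [Module Ω V]

/-- the character of the unitriangular group -/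
def cu (Ω : Type) [Field Ω] {m₁ m₂ : F → ℤˣ} (h₁ : AC m₁) (h₂ : AC m₂) : uni3 F →* Ωˣ :=
  mkc Ω (fun g : uni3 F => f2 g.1) f2_mul h₁ * mkc Ω (fun g : uni3 F => f3 g.1) f3_mul h₂

theorem cu_val {m₁ m₂ : F → ℤˣ} (h₁ : AC m₁) (h₂ : AC m₂) (x y z : F) :
    ((cu Ω h₁ h₂ ⟨u3 x y z, mem_uni3 x y z⟩ : Ωˣ) : Ω) = (((m₁ x * m₂ y : ℤˣ) : ℤ) : Ω) := by
  rw [cu, MonoidHom.mul_apply, Units.val_mul, mkc_val, mkc_val, f2_eq, f3_eq, Units.val_mul,
    Int.cast_mul]

/-- the character of `h1` -/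
def ch (Ω : Type) [Field Ω] {m : F → ℤˣ} (hm : AC m) : h1 F →* Ωˣ :=
  mkc Ω (fun g : h1 F => f1 g.1) f1_mul hm

theorem ch_val {m : F → ℤˣ} (hm : AC m) (x y z : F) (a : Fˣ) :
    ((ch Ω hm ⟨u3 x y z * t3 a a, mem_h1 x y z a⟩ : Ωˣ) : Ω) = ((m x : ℤ) : Ω) := by
  rw [ch, mkc_val, f1_eq]

theorem mem_eg_u {τ : Representation Ω G V} {j : SpecialLinearGroup (Fin 3) F →* G}
    {m₁ m₂ : F → ℤˣ} (h₁ : AC m₁) (h₂ : AC m₂) (v : V) :
    v ∈ Eg τ (j.comp (uni3 F).subtype) (cu Ω h₁ h₂) ↔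
      ∀ x y z, τ (j (u3 x y z)) v = (((m₁ x * m₂ y : ℤˣ) : ℤ) : Ω) • v := by
  constructor
  · intro hv x y z
    have h := hv ⟨u3 x y z, mem_uni3 x y z⟩
    rw [cu_val] at h
    exact h
  · rintro hv ⟨g, hg⟩
    obtain ⟨⟨x, y, z⟩, rfl⟩ := id hg
    refine (hv x y z).trans ?_
    rw [← cu_val h₁ h₂ x y z]

theorem mem_eg_h {τ : Representation Ω G V} {j : SpecialLinearGroup (Fin 3) F →* G}
    {m : F → ℤˣ} (hm : AC m) (v : V) :
    v ∈ Eg τ (j.comp (h1 F).subtype) (ch Ω hm) ↔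
      ∀ x y z a, τ (j (u3 x y z * t3 a a)) v = ((m x : ℤ) : Ω) • v := by
  constructor
  · intro hv x y z a
    have h := hv ⟨u3 x y z * t3 a a, mem_h1 x y z a⟩
    rw [ch_val] at h
    exact h
  · rintro hv ⟨g, hg⟩
    obtain ⟨x, y, z, a, rfl⟩ := id hg
    refine (hv x y z a).trans ?_
    rw [← ch_val hm x y z a]

theorem finrank_gl [CharZero Ω] [Fintype F] [FiniteDimensional Ω V] {n : ℕ}
    {ρ : Representation Ω (SpecialLinearGroup (Fin 3) F) V}
    {ρ' : Representation Ω (GL (Fin 3) F) (Fin n → Ω)} {L : List Fˣ}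
    (hL : ∀ x, ρ'.character (Matrix.SpecialLinearGroup.toGL x) =
        (L.map fun d => ρ.character (cdg d x)).sum)
    (K : Subgroup (SpecialLinearGroup (Fin 3) F)) (χ : K →* Ωˣ) :
    Module.finrank Ω (Eg ρ' (Matrix.SpecialLinearGroup.toGL.comp K.subtype) χ) =
      (L.map fun d => Module.finrank Ω (Eg ρ ((cdh d).comp K.subtype) χ)).sum := by
  classical
  let _ : Fintype K := Fintype.ofFinite K
  apply Nat.cast_injective (R := Ω)
  rw [finrank_eg]
  have h1 : ∀ h : K, ρ'.character ((Matrix.SpecialLinearGroup.toGL.comp K.subtype) h) =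
      (L.map fun d => ρ.character (cdg d h)).sum := fun h => hL h
  simp only [h1]
  rw [sum_list, Nat.cast_list_sum, List.map_map]
  congr 1
  refine List.map_congr_left fun d _ => ?_
  rw [Function.comp_apply, finrank_eg]
  rfl

theorem finrank_eq [CharZero Ω] [Fintype F] [FiniteDimensional Ω V] {n : ℕ}
    {ρ : Representation Ω (SpecialLinearGroup (Fin 3) F) V}
    {ρ' : Representation Ω (GL (Fin 3) F) (Fin n → Ω)} {L : List Fˣ}
    (hL : ∀ x, ρ'.character (Matrix.SpecialLinearGroup.toGL x) =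
        (L.map fun d => ρ.character (cdg d x)).sum) :
    n = L.length * Module.finrank Ω V := by
  have h1 := hL 1
  rw [map_one, Representation.char_one, Module.finrank_fin_fun] at h1
  have h2 : ∀ d ∈ L, ρ.character (cdg d 1) = (Module.finrank Ω V : Ω) := by
    intro d _
    rw [← cdh_apply, map_one, Representation.char_one]
  rw [List.map_congr_left h2, List.map_const', List.sum_replicate, nsmul_eq_mul] at h1
  exact_mod_cast h1

end Rp

end Y05_aux

variable {F : Type} [Field F] [Fintype F] {Ω : Type} [Field Ω] [IsAlgClosed Ω] [CharZero Ω]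
  {V : Type v} [AddCommGroup V] [Module Ω V] [FiniteDimensional Ω V]

namespace Y05_aux

omit [IsAlgClosed Ω] [CharZero Ω] in
theorem pos_of_ne {U : Submodule Ω V} {v : V} (hv : v ∈ U) (h : v ≠ 0) :
    0 < Module.finrank Ω U :=
  Module.finrank_pos_iff_exists_ne_zero.2 ⟨⟨v, hv⟩, fun h0 => h (congrArg Subtype.val h0)⟩

omit [IsAlgClosed Ω] [CharZero Ω] in
theorem exists_of_pos {U : Submodule Ω V} (h : 0 < Module.finrank Ω U) :
    ∃ v ∈ U, v ≠ 0 := by
  obtain ⟨v, hv⟩ := Module.finrank_pos_iff_exists_ne_zero.1 h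
  exact ⟨v, v.2, fun h0 => hv (Subtype.ext h0)⟩

omit [Fintype F] in
theorem dg3_ug' (a b c : Fˣ) (x y z : F) : ug x y z * dg3 a b c =
    dg3 a b c * ug ((a : F)⁻¹ * (b : F) * x) ((b : F)⁻¹ * (c : F) * y) ((a : F)⁻¹ * (c : F) * z) := by
  have h := dg3_ug a b c ((a : F)⁻¹ * (b : F) * x) ((b : F)⁻¹ * (c : F) * y)
    ((a : F)⁻¹ * (c : F) * z)
  have ha := a.ne_zero
  have hb := b.ne_zero
  have hc := c.ne_zero
  have e1 : (a : F) * (b : F)⁻¹ * ((a : F)⁻¹ * (b : F) * x) = x := by field_simp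
  have e2 : (b : F) * (c : F)⁻¹ * ((b : F)⁻¹ * (c : F) * y) = y := by field_simp
  have e3 : (a : F) * (c : F)⁻¹ * ((a : F)⁻¹ * (c : F) * z) = z := by field_simp
  rw [e1, e2, e3] at h
  rw [← h, inv_mul_cancel_right]

omit [CharZero Ω] in
/-- common eigenvectors of the diagonal matrices `diag(1,1,c)` -/
theorem exists_eigen {n : ℕ} {ρ : Representation Ω (GL (Fin 3) F) (Fin n → Ω)}
    {W : Submodule Ω (Fin n → Ω)} (hW : 0 < Module.finrank Ω W)
    (h : ∀ c : Fˣ, ∀ w ∈ W, ρ (dg3 1 1 c) w ∈ W) :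
    ∃ w ∈ W, w ≠ 0 ∧ ∃ κ : Fˣ →* Ωˣ, ∀ c, ρ (dg3 1 1 c) w = (κ c : Ω) • w := by
  classical
  obtain ⟨c₀, hc₀⟩ := IsCyclic.exists_generator (α := Fˣ)
  have : Nontrivial W := Module.nontrivial_of_finrank_pos hW
  obtain ⟨μ, hμ⟩ := Module.End.exists_eigenvalue
    ((ρ (dg3 1 1 c₀)).restrict (p := W) (q := W) (fun w hw => h c₀ w hw))
  obtain ⟨w, hw⟩ := hμ.exists_hasEigenvector
  have hw0 : (w : Fin n → Ω) ≠ 0 := fun h0 => hw.2 (Subtype.ext h0)
  have hw1 : ρ (dg3 1 1 c₀) w = μ • (w : Fin n → Ω) := by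
    have h1 := hw.apply_eq_smul
    exact congrArg Subtype.val h1
  have hdg : ∀ c c' : Fˣ, dg3 1 1 (c * c') = dg3 1 1 c * dg3 (F := F) 1 1 c' := by
    intro c c'
    rw [dg3_mul, mul_one]
  have hdg1 : dg3 1 1 (1 : Fˣ) = 1 := by
    have h1 := hdg 1 1
    rw [mul_one] at h1
    exact (mul_eq_left.1 h1.symm)
  have hall : ∀ c : Fˣ, ∃ a : Ω, ρ (dg3 1 1 c) w = a • (w : Fin n → Ω) := by
    intro c
    obtain ⟨k, hk⟩ := (mem_powers_iff_mem_zpowers.2 (hc₀ c) : c ∈ Submonoid.powers c₀)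
    subst hk
    refine ⟨μ ^ k, ?_⟩
    induction k with
    | zero =>
      simp only [pow_zero]
      rw [hdg1, map_one, Module.End.one_apply, one_smul]
    | succ k ih =>
      simp only [pow_succ] at ih ⊢
      rw [hdg, map_mul, Module.End.mul_apply, hw1, map_smul, ih, smul_smul, mul_comm μ]
  choose a ha using hall
  have hinj : ∀ x y : Ω, x • (w : Fin n → Ω) = y • (w : Fin n → Ω) → x = y := by
    intro x y hxy
    have h0 : (x - y) • (w : Fin n → Ω) = 0 := by rw [sub_smul, hxy, sub_self]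
    exact sub_eq_zero.1 ((smul_eq_zero.1 h0).resolve_right hw0)
  let α : Fˣ →* Ω :=
    { toFun := a
      map_one' := by
        apply hinj
        rw [← ha, hdg1, map_one, Module.End.one_apply, one_smul]
      map_mul' := fun x y => by
        apply hinj
        rw [← ha, hdg, map_mul, Module.End.mul_apply, ha y, map_smul, ha x, smul_smul, mul_comm] }
  exact ⟨w, w.2, hw0, α.toHomUnits, fun c => ha c⟩

end Y05_aux

open Y05_aux

/-- Let `ρ` be irreducible of even degree without nonzero vectors fixed by the Borel subgroup.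
Then a vector fixed by `{u(0,y,z)}` and by `{t3 a a}` with `u(x,0,0) v = m(x) v`, `m ≠ 1`, is zero.

Proof: suppose `v ≠ 0`; let `ρ'`, `L` be as in `exists_gl`. The dimension of the space of the
vectors of `ρ'` with the same properties is `∑_{d ∈ L}` of the dimensions of the corresponding
spaces for the conjugates of `ρ` (traces of idempotents), so it is not zero (`1 ∈ L`).
`Z₁ = {diag(a,a,c)}` acts on it (it commutes with `u(x,0,0)` and normalizes `{u(0,y,z)}`), through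
characters trivial on `{diag(a,a,a⁻²)}`, i.e. characters `κ(a² c)` of the determinant. Twist `ρ'` by
`κ⁻¹ ∘ det` (`exists_twist`), so that there is a nonzero vector fixed by `Z₁`, and apply
`gl3_induced`: either `dim ρ' = |L| dim ρ` is odd, a contradiction, or `ρ'` has a nonzero vector
fixed by the Borel subgroup of `SL_3`; but the dimension of the space of these vectors is
`∑_{d ∈ L}` of the dimensions for the conjugates of `ρ`, which are all zero (`cdg d` maps the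
Borel subgroup onto itself). -/
theorem sl3_no_left (h2 : (2 : F) = 0) {ρ : Representation Ω (SpecialLinearGroup (Fin 3) F) V}
    (hρ : ρ.IsIrreducible) (hev : Even (Module.finrank Ω V))
    (hB : ∀ v : V, (∀ b ∈ bor3 F, ρ b v = v) → v = 0) {m : F → ℤˣ} (hm : AC m)
    (hn : ∃ x, m x ≠ 1) {v : V} (hR : ∀ y z, ρ (u3 0 y z) v = v) (hZ : ∀ a, ρ (t3 a a) v = v)
    (hv : ∀ x, ρ (u3 x 0 0) v = ((m x : ℤ) : Ω) • v) : v = 0 := by
  classical
  by_contra hv0
  obtain ⟨n, ρ', L, hρ', h1L, hL⟩ := exists_gl hρ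
  have hnL := finrank_eq hL
  -- the space of vectors
  set W := Eg ρ' (Matrix.SpecialLinearGroup.toGL.comp (h1 F).subtype) (ch Ω hm) with hW
  have hWpos : 0 < Module.finrank Ω W := by
    rw [hW, finrank_gl hL]
    have h3 : 0 < Module.finrank Ω (Eg ρ ((cdh (1 : Fˣ)).comp (h1 F).subtype) (ch Ω hm)) := by
      refine pos_of_ne (v := v) ((mem_eg_h hm v).2 fun x y z a => ?_) hv0
      rw [cdh_apply, cdg_one, map_mul, Module.End.mul_apply, hZ]
      have h4 : u3 x y z = u3 x 0 0 * u3 0 y (z - x * y) := by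
        rw [u3_mul]
        congr 1 <;> ring
      rw [h4, map_mul, Module.End.mul_apply, hR, hv]
    exact lt_of_lt_of_le h3 (List.single_le_sum (fun _ _ => Nat.zero_le _) _
      (List.mem_map.2 ⟨1, h1L, rfl⟩))
  have hWmem : ∀ w, w ∈ W ↔ ∀ x y z a,
      ρ' (Matrix.SpecialLinearGroup.toGL (u3 x y z * t3 a a)) w = ((m x : ℤ) : Ω) • w :=
    fun w => mem_eg_h hm w
  have hstab : ∀ c : Fˣ, ∀ w ∈ W, ρ' (dg3 1 1 c) w ∈ W := by
    intro c w hw
    rw [hWmem] at hw ⊢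
    intro x y z a
    have h3 : Matrix.SpecialLinearGroup.toGL (u3 x y z * t3 a a) * dg3 1 1 c =
        dg3 1 1 c * Matrix.SpecialLinearGroup.toGL (u3 x (c * y) (c * z) * t3 a a) := by
      rw [map_mul, map_mul, toGL_t3]
      change ug x y z * dg3 a a (a * a)⁻¹ * dg3 1 1 c = dg3 1 1 c * (ug x (c * y) (c * z) * _)
      rw [mul_assoc, dg3_mul, mul_comm a 1, mul_comm (a * a)⁻¹ c, ← dg3_mul, ← mul_assoc, dg3_ug',
        mul_assoc]
      simp
    rw [← Module.End.mul_apply, ← map_mul, h3, map_mul, Module.End.mul_apply, hw, map_smul]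
  obtain ⟨w, hwW, hw0, κ, hκ⟩ := exists_eigen hWpos hstab
  obtain ⟨ρ'', hρ'', htw⟩ := exists_twist hρ' κ⁻¹
  have hsl : ∀ x, ρ'' (Matrix.SpecialLinearGroup.toGL x) =
      ρ' (Matrix.SpecialLinearGroup.toGL x) := by
    intro x
    rw [htw, Matrix.SpecialLinearGroup.coeToGL_det, map_one, Units.val_one, one_smul]
  rw [hWmem] at hwW
  have hdet : ∀ c : Fˣ, Matrix.GeneralLinearGroup.det (dg3 1 1 c) = c := by
    intro c
    apply Units.ext
    simp [dg3, Matrix.det_fin_three, Matrix.diagonal]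
  have k1 : ∀ y z, ρ'' (ug 0 y z) w = w := by
    intro y z
    have h3 := hwW 0 y z 1
    rw [t3_one, mul_one, ac_zero hm, Units.val_one, Int.cast_one, one_smul] at h3
    rw [ug, hsl, h3]
  have k2 : ∀ a c, ρ'' (dg3 a a c) w = w := by
    intro a c
    have h3 : dg3 a a c = Matrix.SpecialLinearGroup.toGL (t3 a a) * dg3 1 1 (a * a * c) := by
      rw [toGL_t3, dg3_mul, mul_one, inv_mul_cancel_left]
    have h4 := hwW 0 0 0 a
    rw [u3_zero, one_mul, ac_zero hm, Units.val_one, Int.cast_one, one_smul] at h4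
    rw [h3, map_mul, Module.End.mul_apply, htw (dg3 1 1 _), hdet, LinearMap.smul_apply, hκ,
      smul_smul, MonoidHom.inv_apply, Units.inv_mul, one_smul, hsl, h4]
  have k3 : ∀ x, ρ'' (ug x 0 0) w = ((m x : ℤ) : Ω) • w := by
    intro x
    have h3 := hwW x 0 0 1
    rw [t3_one, mul_one] at h3
    rw [ug, hsl, h3]
  rcases gl3_induced h2 hρ'' hm hn hw0 k1 k2 k3 with hodd | ⟨v', hv'0, hv'⟩
  · rw [Module.finrank_fin_fun, hnL] at hodd
    exact (Nat.not_odd_iff_even.2 (hev.mul_left _)) hodd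
  · have h3 : 0 < Module.finrank Ω
        (Eg ρ' (Matrix.SpecialLinearGroup.toGL.comp (bor3 F).subtype) 1) := by
      refine pos_of_ne (v := v') (fun b => ?_) hv'0
      rw [MonoidHom.one_apply, Units.val_one, one_smul]
      refine Eq.trans ?_ (hv' b b.2)
      rw [hsl]
      rfl
    rw [finrank_gl hL] at h3
    have h4 : ∀ k ∈ L.map fun d => Module.finrank Ω (Eg ρ ((cdh d).comp (bor3 F).subtype) 1),
        k = 0 := by
      intro k hk
      obtain ⟨d, -, rfl⟩ := List.mem_map.1 hk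
      by_contra hne
      obtain ⟨u, hu, hu0⟩ := exists_of_pos (Nat.pos_of_ne_zero hne)
      refine hu0 (hB u fun b hb => ?_)
      obtain ⟨x, y, z, a, b', rfl⟩ := mem_bor3.1 hb
      have h5 := hu ⟨u3 (((d⁻¹ : Fˣ) : F) * x) y (((d⁻¹ : Fˣ) : F) * z) * t3 a b',
        mem_bor3.2 ⟨_, _, _, _, _, rfl⟩⟩
      rw [MonoidHom.one_apply, Units.val_one, one_smul] at h5
      have h6 : ((cdh d).comp (bor3 F).subtype)
          ⟨u3 (((d⁻¹ : Fˣ) : F) * x) y (((d⁻¹ : Fˣ) : F) * z) * t3 a b',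
            mem_bor3.2 ⟨_, _, _, _, _, rfl⟩⟩ = u3 x y z * t3 a b' := by
        change cdg d (u3 (((d⁻¹ : Fˣ) : F) * x) y (((d⁻¹ : Fˣ) : F) * z) * t3 a b') = _
        rw [cdg_mul, cdg_u3, cdg_t3, Units.mul_inv_cancel_left, Units.mul_inv_cancel_left]
      rw [h6] at h5
      exact h5
    rw [List.sum_eq_zero h4] at h3
    exact lt_irrefl _ h3

namespace Y05_aux

section Th

variable {F : Type} [Field F]

/-- antidiagonal matrix -/
def wm (F : Type) [Field F] : SpecialLinearGroup (Fin 3) F :=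
  ⟨!![0, 0, 1; 0, -1, 0; 1, 0, 0], by simp [Matrix.det_fin_three]⟩

theorem wm_sq : wm F * wm F = 1 := by
  apply Subtype.ext
  rw [Matrix.SpecialLinearGroup.coe_mul]
  ext i j
  fin_cases i <;> fin_cases j <;> simp [wm, Matrix.mul_apply, Fin.sum_univ_three]

theorem wm_tr : (wm F).transpose = wm F := by
  apply Subtype.ext
  rw [Matrix.SpecialLinearGroup.coe_transpose]
  ext i j
  fin_cases i <;> fin_cases j <;> simp [wm]

theorem tr_mul (g h : SpecialLinearGroup (Fin 3) F) :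
    (g * h).transpose = h.transpose * g.transpose := by
  apply Subtype.ext
  rw [Matrix.SpecialLinearGroup.coe_transpose, Matrix.SpecialLinearGroup.coe_mul,
    Matrix.SpecialLinearGroup.coe_mul, Matrix.SpecialLinearGroup.coe_transpose,
    Matrix.SpecialLinearGroup.coe_transpose, Matrix.transpose_mul]

theorem tr_tr (g : SpecialLinearGroup (Fin 3) F) : g.transpose.transpose = g := by
  apply Subtype.ext
  rw [Matrix.SpecialLinearGroup.coe_transpose, Matrix.SpecialLinearGroup.coe_transpose,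
    Matrix.transpose_transpose]

/-- the automorphism `g ↦ w₀ (gᵀ)⁻¹ w₀` -/
def tht (F : Type) [Field F] :
    SpecialLinearGroup (Fin 3) F →* SpecialLinearGroup (Fin 3) F :=
  MonoidHom.mk' (fun g => wm F * (g.transpose)⁻¹ * wm F) (by
    intro a b
    have h : wm F * (a.transpose)⁻¹ * wm F * (wm F * (b.transpose)⁻¹ * wm F) =
        wm F * (a.transpose)⁻¹ * (wm F * wm F) * (b.transpose)⁻¹ * wm F := by group
    rw [h, wm_sq, tr_mul, _root_.mul_inv_rev]
    group)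

theorem tht_apply (g : SpecialLinearGroup (Fin 3) F) :
    tht F g = wm F * (g.transpose)⁻¹ * wm F := rfl

theorem tht_eq {g g' : SpecialLinearGroup (Fin 3) F}
    (h : wm F * g'.transpose * wm F * g = 1) : tht F g = g' := by
  have h1 : g'.transpose = wm F * g⁻¹ * wm F := by
    have h2 : wm F * (wm F * g'.transpose * wm F * g) * g⁻¹ * wm F = wm F * g⁻¹ * wm F := by
      rw [h, mul_one]
    rw [← h2]
    have h3 : wm F * (wm F * g'.transpose * wm F * g) * g⁻¹ * wm F =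
        (wm F * wm F) * g'.transpose * (wm F * wm F) := by group
    rw [h3, wm_sq, one_mul, mul_one]
  have h4 : g' = wm F * (g⁻¹).transpose * wm F := by
    rw [← tr_tr g', h1, tr_mul, tr_mul, wm_tr, mul_assoc]
  have h5 : (g⁻¹).transpose = (g.transpose)⁻¹ := by
    rw [eq_inv_iff_mul_eq_one, ← tr_mul, mul_inv_cancel]
    apply Subtype.ext
    rw [Matrix.SpecialLinearGroup.coe_transpose, Matrix.SpecialLinearGroup.coe_one,
      Matrix.transpose_one]
  rw [h4, h5, tht_apply]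

omit [Field F] in
theorem tr3 (a b c d e f g h i : F) :
    (!![a, b, c; d, e, f; g, h, i] : Matrix (Fin 3) (Fin 3) F).transpose =
      !![a, d, g; b, e, h; c, f, i] := by
  ext x y
  fin_cases x <;> fin_cases y <;> rfl

theorem tht_u3 (x y z : F) : tht F (u3 x y z) = u3 y x (-z + x * y) := by
  apply tht_eq
  apply Subtype.ext
  rw [Matrix.SpecialLinearGroup.coe_mul, Matrix.SpecialLinearGroup.coe_mul,
    Matrix.SpecialLinearGroup.coe_mul, Matrix.SpecialLinearGroup.coe_transpose,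
    Matrix.SpecialLinearGroup.coe_one]
  simp only [wm, u3]
  rw [tr3]
  ext i j
  fin_cases i <;> fin_cases j <;> simp

theorem tht_t3 (a b : Fˣ) : tht F (t3 a b) = t3 (a * b) b⁻¹ := by
  apply tht_eq
  apply Subtype.ext
  rw [Matrix.SpecialLinearGroup.coe_mul, Matrix.SpecialLinearGroup.coe_mul,
    Matrix.SpecialLinearGroup.coe_mul, Matrix.SpecialLinearGroup.coe_transpose,
    Matrix.SpecialLinearGroup.coe_one]
  simp only [wm, t3]
  rw [tr3]
  have hab : (a : F) * b * ((b : F)⁻¹ * (a : F)⁻¹) = 1 := by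
    rw [← mul_inv, mul_comm (b : F) a, mul_inv_cancel₀ (mul_ne_zero a.ne_zero b.ne_zero)]
  ext i j
  fin_cases i <;> fin_cases j <;> simp [hab]

theorem tht_tht (g : SpecialLinearGroup (Fin 3) F) : tht F (tht F g) = g := by
  apply tht_eq
  have h : wm F * g.transpose * wm F * (wm F * (g.transpose)⁻¹ * wm F) =
      wm F * g.transpose * (wm F * wm F) * (g.transpose)⁻¹ * wm F := by group
  rw [tht_apply, h, wm_sq, mul_one, mul_inv_cancel_right, wm_sq]

end Th

end Y05_aux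

/-- the symmetric statement (apply `sl3_no_left` to the composition of `ρ` with the automorphism
`g ↦ w₀ (gᵀ)⁻¹ w₀` of `SL_3`, which maps `u3 x y z` to `u3 y x (z + x y)` in characteristic two,
`t3 a b` to `t3 (a b) b⁻¹`, and the Borel subgroup to itself) -/
theorem sl3_no_right (h2 : (2 : F) = 0) {ρ : Representation Ω (SpecialLinearGroup (Fin 3) F) V}
    (hρ : ρ.IsIrreducible) (hev : Even (Module.finrank Ω V))
    (hB : ∀ v : V, (∀ b ∈ bor3 F, ρ b v = v) → v = 0) {m : F → ℤˣ} (hm : AC m)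
    (hn : ∃ x, m x ≠ 1) {v : V} (hR : ∀ x z, ρ (u3 x 0 z) v = v)
    (hZ : ∀ a b : Fˣ, a * b * b = 1 → ρ (t3 a b) v = v)
    (hv : ∀ y, ρ (u3 0 y 0) v = ((m y : ℤ) : Ω) • v) : v = 0 := by
  classical
  have hsurj : Function.Surjective (tht F) := fun g => ⟨tht F g, tht_tht g⟩
  have hap : ∀ g, P39_aux.pl (tht F) ρ g = ρ (tht F g) := fun _ => rfl
  refine sl3_no_left h2 (ρ := P39_aux.pl (tht F) ρ) (P39_aux.irr_comp (tht F) hsurj hρ) hev ?_ hm hn
    ?_ ?_ ?_
  · intro u hu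
    refine hB u fun b hb => ?_
    obtain ⟨x, y, z, a, b', rfl⟩ := mem_bor3.1 hb
    have h3 := hu (u3 y x (-z + x * y) * t3 (a * b') b'⁻¹) (mem_bor3.2 ⟨_, _, _, _, _, rfl⟩)
    rw [hap, map_mul, tht_u3, tht_t3] at h3
    have e1 : -(-z + x * y) + y * x = z := by ring
    have e2 : a * b' * b'⁻¹ = a := by group
    rw [e1, e2, inv_inv] at h3
    exact h3
  · intro y z
    rw [hap, tht_u3, hR]
  · intro a
    rw [hap, tht_t3]
    exact hZ _ _ (by group)
  · intro x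
    rw [hap, tht_u3]
    simpa using hv x

/-- the eigenspace of the character `u(x,y,z) ↦ m₁(x) m₂(y)` of `U` -/
def Dm (ρ : Representation Ω (SpecialLinearGroup (Fin 3) F) V) (m₁ m₂ : F → ℤˣ) :
    Submodule Ω V where
  carrier := {v | ∀ x y z, ρ (u3 x y z) v = (((m₁ x * m₂ y : ℤˣ) : ℤ) : Ω) • v}
  add_mem' := by
    intro a b ha hb x y z
    rw [map_add, ha x y z, hb x y z, smul_add]
  zero_mem' := by
    intro x y z
    rw [map_zero, smul_zero]
  smul_mem' := by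
    intro r a ha x y z
    rw [map_smul, ha x y z, smul_comm]

namespace Y05_aux

section Dgs

variable {F : Type} [Field F] {Ω : Type} [Field Ω] {G : Type*} [Group G]
  {V : Type v} [AddCommGroup V] [Module Ω V]

/-- the eigenspace of the character `u(x,y,z) ↦ m₁(x) m₂(y)` of `U`, general form -/
def Dg (τ : Representation Ω G V) (j : SpecialLinearGroup (Fin 3) F →* G) (m₁ m₂ : F → ℤˣ) :
    Submodule Ω V where
  carrier := {v | ∀ x y z, τ (j (u3 x y z)) v = (((m₁ x * m₂ y : ℤˣ) : ℤ) : Ω) • v}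
  add_mem' := by
    intro a b ha hb x y z
    rw [map_add, ha x y z, hb x y z, smul_add]
  zero_mem' := by
    intro x y z
    rw [map_zero, smul_zero]
  smul_mem' := by
    intro r a ha x y z
    rw [map_smul, ha x y z, smul_comm]

theorem mem_dg {τ : Representation Ω G V} {j : SpecialLinearGroup (Fin 3) F →* G}
    {m₁ m₂ : F → ℤˣ} {v : V} : v ∈ Dg τ j m₁ m₂ ↔
      ∀ x y z, τ (j (u3 x y z)) v = (((m₁ x * m₂ y : ℤˣ) : ℤ) : Ω) • v := Iff.rfl

theorem eg_eq_dg (τ : Representation Ω G V) (j : SpecialLinearGroup (Fin 3) F →* G)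
    {m₁ m₂ : F → ℤˣ} (h₁ : AC m₁) (h₂ : AC m₂) :
    Eg τ (j.comp (uni3 F).subtype) (cu Ω h₁ h₂) = Dg τ j m₁ m₂ := by
  ext v
  exact mem_eg_u h₁ h₂ v

theorem dg_gl [CharZero Ω] [Fintype F] [FiniteDimensional Ω V] {n : ℕ}
    {ρ : Representation Ω (SpecialLinearGroup (Fin 3) F) V}
    {ρ' : Representation Ω (GL (Fin 3) F) (Fin n → Ω)} {L : List Fˣ}
    (hL : ∀ x, ρ'.character (Matrix.SpecialLinearGroup.toGL x) =
        (L.map fun d => ρ.character (cdg d x)).sum)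
    {m₁ m₂ : F → ℤˣ} (h₁ : AC m₁) (h₂ : AC m₂) :
    Module.finrank Ω (Dg ρ' Matrix.SpecialLinearGroup.toGL m₁ m₂) =
      (L.map fun d => Module.finrank Ω (Dg ρ (cdh d) m₁ m₂)).sum := by
  rw [← eg_eq_dg ρ' _ h₁ h₂, finrank_gl hL]
  congr 1
  refine List.map_congr_left fun d _ => ?_
  rw [eg_eq_dg]

theorem dg_cdh [Fintype F] [FiniteDimensional Ω V]
    (ρ : Representation Ω (SpecialLinearGroup (Fin 3) F) V) (d : Fˣ) (m₁ m₂ : F → ℤˣ) :
    Dg ρ (cdh d) m₁ m₂ = Dm ρ (fun x => m₁ (((d⁻¹ : Fˣ) : F) * x)) m₂ := by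
  ext v
  constructor
  · intro h x y z
    have h1 := h (((d⁻¹ : Fˣ) : F) * x) y (((d⁻¹ : Fˣ) : F) * z)
    rw [cdh_apply, cdg_u3, Units.mul_inv_cancel_left, Units.mul_inv_cancel_left] at h1
    exact h1
  · intro h x y z
    have h1 : ρ (u3 ((d : F) * x) y ((d : F) * z)) v =
        (((m₁ (((d⁻¹ : Fˣ) : F) * ((d : F) * x)) * m₂ y : ℤˣ) : ℤ) : Ω) • v :=
      h ((d : F) * x) y ((d : F) * z)
    rw [Units.inv_mul_cancel_left] at h1
    rw [cdh_apply, cdg_u3]
    exact h1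

theorem sum_list_nat {ι κ : Type*} (s : Finset ι) (L : List κ) (f : ι → κ → ℕ) :
    ∑ i ∈ s, (L.map (f i)).sum = (L.map fun d => ∑ i ∈ s, f i d).sum := by
  induction L with
  | nil => simp
  | cons d L ih => simp only [List.map_cons, List.sum_cons, Finset.sum_add_distrib, ih]

end Dgs

section AcL

variable {F : Type} [Field F]

theorem ac_mulL {m : F → ℤˣ} (hm : AC m) (c : F) : AC (fun x => m (c * x)) :=
  fun x y => by
    change m (c * (x + y)) = m (c * x) * m (c * y)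
    rw [mul_add, hm]

theorem ac_inj {m : F → ℤˣ} (hm : AC m) (hn : ∃ x, m x ≠ 1) {c c' : F}
    (h : ∀ x, m (c * x) = m (c' * x)) : c = c' := by
  by_contra hne
  obtain ⟨x, hx⟩ := hn
  apply hx
  have h0 : c - c' ≠ 0 := sub_ne_zero.2 hne
  have h1 := h ((c - c')⁻¹ * x)
  have h3 : c * ((c - c')⁻¹ * x) = x + c' * ((c - c')⁻¹ * x) := by
    have h4 : (c - c') * ((c - c')⁻¹ * x) = x := mul_inv_cancel_left₀ h0 x
    have h5 : c * ((c - c')⁻¹ * x) = (c - c') * ((c - c')⁻¹ * x) + c' * ((c - c')⁻¹ * x) := by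
      ring
    rw [h5, h4]
  rw [h3, hm] at h1
  exact mul_eq_right.1 h1

theorem nt_mulL {m : F → ℤˣ} (hn : ∃ x, m x ≠ 1) (c : Fˣ) : ∃ x, m ((c : F) * x) ≠ 1 := by
  obtain ⟨x, hx⟩ := hn
  exact ⟨((c⁻¹ : Fˣ) : F) * x, by rwa [Units.mul_inv_cancel_left]⟩

theorem charTwo (h2 : (2 : F) = 0) : CharP F 2 :=
  CharTwo.of_one_ne_zero_of_two_eq_zero one_ne_zero h2

/-- signs -/
def sz (a : ZMod 2) : ℤˣ := if a = 0 then 1 else -1

theorem sz_add : ∀ a b : ZMod 2, sz (a + b) = sz a * sz b := by decide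

theorem sz_ne : ∀ a : ZMod 2, a ≠ 0 → sz a ≠ 1 := by decide

theorem exists_ac (h2 : (2 : F) = 0) {x : F} (hx : x ≠ 0) : ∃ m : F → ℤˣ, AC m ∧ m x ≠ 1 := by
  have := charTwo h2
  let _ : Algebra (ZMod 2) F := ZMod.algebra F 2
  have : Fact (Nat.Prime 2) := ⟨Nat.prime_two⟩
  have h3 : ¬ ∀ φ : Module.Dual (ZMod 2) F, φ x = 0 := fun h =>
    hx ((Module.forall_dual_apply_eq_zero_iff (ZMod 2) x).1 h)
  push Not at h3
  obtain ⟨φ, hφ⟩ := h3
  exact ⟨fun y => sz (φ y), fun a b => by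
    change sz (φ (a + b)) = sz (φ a) * sz (φ b)
    rw [map_add, sz_add], sz_ne _ hφ⟩

variable [Fintype F]

theorem even_card (h2 : (2 : F) = 0) : Even (Fintype.card F) := by
  have := charTwo h2
  rw [even_iff_two_dvd, ← CharP.cast_eq_zero_iff F 2]
  exact Nat.cast_card_eq_zero F

theorem odd_card (h2 : (2 : F) = 0) (P : Finset (F → ℤˣ))
    (hP : ∀ m, m ∈ P ↔ AC m ∧ ∃ x, m x ≠ 1) (hne : P.Nonempty) : Odd P.card := by
  classical
  obtain ⟨m₀, hm₀⟩ := hne
  obtain ⟨h0, hn0⟩ := (hP m₀).1 hm₀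
  have h3 : P = Finset.univ.image (fun (c : Fˣ) => fun x => m₀ ((c : F) * x)) := by
    ext m
    rw [hP, Finset.mem_image]
    constructor
    · rintro ⟨h, hn⟩
      obtain ⟨c, hc⟩ := ac_trans h2 h0 h hn0 hn
      exact ⟨c, Finset.mem_univ _, funext fun x => (hc x).symm⟩
    · rintro ⟨c, -, rfl⟩
      exact ⟨ac_mulL h0 c, nt_mulL hn0 c⟩
  have h4 : P.card = Fintype.card F - 1 := by
    rw [h3, Finset.card_image_of_injective, Finset.card_univ, Fintype.card_units]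
    intro c c' h
    exact Units.ext (ac_inj h0 hn0 fun x => congrFun h x)
  rw [h4]
  exact Nat.Even.sub_odd Fintype.card_pos (even_card h2) odd_one

theorem card_all (h2 : (2 : F) = 0) (P : Finset (F → ℤˣ)) (hP : ∀ m, m ∈ P ↔ AC m) :
    P.card = Fintype.card F := by
  classical
  obtain ⟨m₀, h0, h1⟩ := exists_ac h2 (one_ne_zero (α := F))
  have hn0 : ∃ x, m₀ x ≠ 1 := ⟨1, h1⟩
  have h3 : P = Finset.univ.image (fun (c : F) => fun x => m₀ (c * x)) := by
    ext m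
    rw [hP, Finset.mem_image]
    constructor
    · intro h
      by_cases hn : ∃ x, m x ≠ 1
      · obtain ⟨c, hc⟩ := ac_trans h2 h0 h hn0 hn
        exact ⟨c, Finset.mem_univ _, funext fun x => (hc x).symm⟩
      · push Not at hn
        refine ⟨0, Finset.mem_univ _, funext fun x => ?_⟩
        rw [zero_mul, ac_zero h0, hn]
    · rintro ⟨c, -, rfl⟩
      exact ac_mulL h0 c
  rw [h3, Finset.card_image_of_injective, Finset.card_univ]
  intro c c' h
  exact ac_inj h0 hn0 fun x => congrFun h x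

theorem sum_ac {Ω : Type} [Field Ω] [CharZero Ω] (h2 : (2 : F) = 0) (P : Finset (F → ℤˣ))
    (hP : ∀ m, m ∈ P ↔ AC m) (x : F) [Decidable (x = 0)] :
    ∑ m ∈ P, ((m x : ℤ) : Ω) = if x = 0 then (Fintype.card F : Ω) else 0 := by
  classical
  split_ifs with hx
  · rw [← card_all h2 P hP, hx]
    have h3 : ∀ m ∈ P, ((m 0 : ℤ) : Ω) = 1 := by
      intro m hm
      rw [ac_zero ((hP m).1 hm), Units.val_one, Int.cast_one]
    rw [Finset.sum_congr rfl h3]
    simp
  · obtain ⟨m₀, h0, h1⟩ := exists_ac h2 hx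
    have h3 : m₀ x = -1 := (Int.units_eq_one_or (m₀ x)).resolve_left h1
    have hsq : ∀ y, m₀ y * m₀ y = 1 := fun y => Int.units_mul_self (m₀ y)
    have h4 : ∑ m ∈ P, ((m x : ℤ) : Ω) = ∑ m ∈ P, (((m₀ x * m x : ℤˣ) : ℤ) : Ω) := by
      refine Finset.sum_nbij' (fun m => fun y => m₀ y * m y) (fun m => fun y => m₀ y * m y)
        ?_ ?_ ?_ ?_ ?_
      · intro m hm
        rw [hP] at hm ⊢
        intro a b
        change m₀ (a + b) * m (a + b) = m₀ a * m a * (m₀ b * m b)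
        rw [h0, hm, mul_mul_mul_comm]
      · intro m hm
        rw [hP] at hm ⊢
        intro a b
        change m₀ (a + b) * m (a + b) = m₀ a * m a * (m₀ b * m b)
        rw [h0, hm, mul_mul_mul_comm]
      · intro m _
        funext y
        change m₀ y * (m₀ y * m y) = m y
        rw [← mul_assoc, hsq, one_mul]
      · intro m _
        funext y
        change m₀ y * (m₀ y * m y) = m y
        rw [← mul_assoc, hsq, one_mul]
      · intro m _
        change ((m x : ℤ) : Ω) = (((m₀ x * (m₀ x * m x) : ℤˣ) : ℤ) : Ω)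
        rw [← mul_assoc, hsq, one_mul]
    have h5 : ∑ m ∈ P, (((m₀ x * m x : ℤˣ) : ℤ) : Ω) = - ∑ m ∈ P, ((m x : ℤ) : Ω) := by
      rw [← Finset.sum_neg_distrib]
      refine Finset.sum_congr rfl fun m _ => ?_
      rw [h3, neg_one_mul, Units.val_neg, Int.cast_neg]
    rw [h5] at h4
    have h6 : (2 : Ω) * ∑ m ∈ P, ((m x : ℤ) : Ω) = 0 := by
      rw [two_mul]
      nth_rewrite 1 [h4]
      exact neg_add_cancel _
    exact (mul_eq_zero.1 h6).resolve_left two_ne_zero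

end AcL

end Y05_aux

/-- the sum of the dimensions over the pairs of nontrivial characters is zero or odd: with `ρ'`, `L`
as in `exists_gl`, `|L|` times this sum is the sum for `ρ'`, which is `0` or `(q - 1)²`
(`gl3_mult_one`, `ac_trans`, conjugation by diagonal matrices) -/
theorem sum_regular (h2 : (2 : F) = 0) {ρ : Representation Ω (SpecialLinearGroup (Fin 3) F) V}
    (hρ : ρ.IsIrreducible) (P : Finset (F → ℤˣ)) (hP : ∀ m, m ∈ P ↔ AC m ∧ ∃ x, m x ≠ 1) :
    (∑ m₁ ∈ P, ∑ m₂ ∈ P, Module.finrank Ω (Dm ρ m₁ m₂)) = 0 ∨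
      Odd (∑ m₁ ∈ P, ∑ m₂ ∈ P, Module.finrank Ω (Dm ρ m₁ m₂)) := by
  classical
  obtain ⟨n, ρ', L, hρ', h1L, hL⟩ := exists_gl hρ
  set S := ∑ m₁ ∈ P, ∑ m₂ ∈ P, Module.finrank Ω (Dm ρ m₁ m₂) with hS
  set T := ∑ m₁ ∈ P, ∑ m₂ ∈ P,
    Module.finrank Ω (Dg ρ' Matrix.SpecialLinearGroup.toGL m₁ m₂) with hT
  have hLlen : L.length ≠ 0 := fun h0 => by
    rw [List.length_eq_zero_iff] at h0
    rw [h0] at h1L
    exact List.not_mem_nil h1L
  have hd : ∀ d : Fˣ, ∑ m₁ ∈ P, ∑ m₂ ∈ P, Module.finrank Ω (Dg ρ (cdh d) m₁ m₂) = S := by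
    intro d
    rw [hS]
    refine Finset.sum_nbij' (fun m => fun x => m (((d⁻¹ : Fˣ) : F) * x))
      (fun m => fun x => m ((d : F) * x)) ?_ ?_ ?_ ?_ ?_
    · intro m hm
      rw [hP] at hm ⊢
      exact ⟨ac_mulL hm.1 _, nt_mulL hm.2 _⟩
    · intro m hm
      rw [hP] at hm ⊢
      exact ⟨ac_mulL hm.1 _, nt_mulL hm.2 _⟩
    · intro m _
      funext x
      change m (((d⁻¹ : Fˣ) : F) * ((d : F) * x)) = m x
      rw [Units.inv_mul_cancel_left]
    · intro m _
      funext x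
      change m ((d : F) * (((d⁻¹ : Fˣ) : F) * x)) = m x
      rw [Units.mul_inv_cancel_left]
    · intro m _
      refine Finset.sum_congr rfl fun m₂ _ => ?_
      rw [dg_cdh]
  have hTS : T = L.length * S := by
    have h3 : T = ∑ m₁ ∈ P, ∑ m₂ ∈ P, (L.map fun d =>
        Module.finrank Ω (Dg ρ (cdh d) m₁ m₂)).sum := by
      rw [hT]
      refine Finset.sum_congr rfl fun m₁ hm₁ => Finset.sum_congr rfl fun m₂ hm₂ => ?_
      exact dg_gl hL ((hP m₁).1 hm₁).1 ((hP m₂).1 hm₂).1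
    rw [h3]
    simp only [sum_list_nat, hd]
    rw [List.map_const', List.sum_replicate, smul_eq_mul]
  by_cases hex : ∃ m₁ ∈ P, ∃ m₂ ∈ P,
      0 < Module.finrank Ω (Dg ρ' Matrix.SpecialLinearGroup.toGL m₁ m₂)
  · right
    obtain ⟨m₁, hm₁, m₂, hm₂, hpos⟩ := hex
    obtain ⟨v, hv, hv0⟩ := exists_of_pos hpos
    have h1 := (hP m₁).1 hm₁
    have h3 := (hP m₂).1 hm₂
    have hone : ∀ m₁' ∈ P, ∀ m₂' ∈ P,
        Module.finrank Ω (Dg ρ' Matrix.SpecialLinearGroup.toGL m₁' m₂') = 1 := by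
      intro m₁' hm₁' m₂' hm₂'
      have h1' := (hP m₁').1 hm₁'
      have h3' := (hP m₂').1 hm₂'
      obtain ⟨c₁, hc₁⟩ := ac_trans h2 h1.1 h1'.1 h1.2 h1'.2
      obtain ⟨c₂, hc₂⟩ := ac_trans h2 h3.1 h3'.1 h3.2 h3'.2
      set w := ρ' (dg3 c₁⁻¹ 1 c₂) v with hw
      have hw0 : w ≠ 0 := by
        intro h0
        apply hv0
        have h5 : ρ' (dg3 c₁⁻¹ 1 c₂)⁻¹ w = v := by
          rw [hw, ← Module.End.mul_apply, ← map_mul, inv_mul_cancel, map_one,
            Module.End.one_apply]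
        rw [← h5, h0, map_zero]
      have hwm : w ∈ Dg ρ' Matrix.SpecialLinearGroup.toGL m₁' m₂' := by
        intro x y z
        have h5 := hv ((((c₁⁻¹ : Fˣ) : F))⁻¹ * ((1 : Fˣ) : F) * x)
          ((((1 : Fˣ) : F))⁻¹ * (c₂ : F) * y) ((((c₁⁻¹ : Fˣ) : F))⁻¹ * (c₂ : F) * z)
        have h6 : ρ' (Matrix.SpecialLinearGroup.toGL (u3 x y z)) w =
            ρ' (ug x y z * dg3 c₁⁻¹ 1 c₂) v := by
          rw [map_mul]
          rfl
        rw [h6, dg3_ug', map_mul, Module.End.mul_apply]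
        have h7 : ρ' (ug ((((c₁⁻¹ : Fˣ) : F))⁻¹ * ((1 : Fˣ) : F) * x)
          ((((1 : Fˣ) : F))⁻¹ * (c₂ : F) * y) ((((c₁⁻¹ : Fˣ) : F))⁻¹ * (c₂ : F) * z)) v = _ := h5
        rw [h7, map_smul, hc₁, hc₂]
        have e1 : (((c₁⁻¹ : Fˣ) : F))⁻¹ * ((1 : Fˣ) : F) * x = c₁ * x := by
          rw [Units.val_inv_eq_inv_val, inv_inv, Units.val_one, mul_one]
        have e2 : (((1 : Fˣ) : F))⁻¹ * (c₂ : F) * y = c₂ * y := by
          rw [Units.val_one, inv_one, one_mul]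
        rw [e1, e2]
      apply le_antisymm
      · refine finrank_le_one (⟨w, hwm⟩ : Dg ρ' Matrix.SpecialLinearGroup.toGL m₁' m₂')
          fun u => ?_
        obtain ⟨a, ha⟩ := gl3_mult_one h2 hρ' h1'.1 h3'.1 h1'.2 h3'.2 hw0
          (fun x y z => hwm x y z) (v' := (u : Fin n → Ω)) (fun x y z => u.2 x y z)
        exact ⟨a, Subtype.ext ha.symm⟩
      · exact pos_of_ne hwm hw0
    have hTP : T = P.card * P.card := by
      rw [hT, Finset.sum_congr rfl fun m₁' hm₁' => Finset.sum_congr rfl fun m₂' hm₂' =>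
        hone m₁' hm₁' m₂' hm₂']
      simp
    have hodd := odd_card h2 P hP ⟨m₁, hm₁⟩
    have hTo : Odd T := by
      rw [hTP]
      exact hodd.mul hodd
    rw [hTS] at hTo
    exact (Nat.odd_mul.1 hTo).2
  · left
    push Not at hex
    have hT0 : T = 0 := by
      rw [hT]
      exact Finset.sum_eq_zero fun m₁ h₁ => Finset.sum_eq_zero fun m₂ h₂ =>
        Nat.le_zero.1 (hex m₁ h₁ m₂ h₂)
    rw [hTS] at hT0
    exact (Nat.mul_eq_zero.1 hT0).resolve_left hLlen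

namespace Y05_aux

/-- the center of `U` -/
def zh (F : Type) [Field F] : Multiplicative F →* SpecialLinearGroup (Fin 3) F :=
  MonoidHom.mk' (fun z => u3 0 0 (Multiplicative.toAdd z)) (by
    intro a b
    rw [u3_mul, toAdd_mul]
    congr 1 <;> ring)

omit [Fintype F] in
theorem zh_apply (z : F) : zh F (Multiplicative.ofAdd z) = u3 0 0 z := rfl

omit [Fintype F] [IsAlgClosed Ω] [CharZero Ω] [FiniteDimensional Ω V] in
theorem inv_eq (ρ : Representation Ω (SpecialLinearGroup (Fin 3) F) V) :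
    (rs (commutator (uni3 F)) (rs (uni3 F) ρ)).invariants = Eg ρ (zh F) 1 := by
  ext v
  constructor
  · intro hv z
    obtain ⟨z, rfl⟩ := Multiplicative.ofAdd.surjective z
    rw [MonoidHom.one_apply, Units.val_one, one_smul, zh_apply]
    have h1 := Subgroup.commutator_mem_commutator
      (Subgroup.mem_top (⟨u3 1 0 0, mem_uni3 1 0 0⟩ : uni3 F))
      (Subgroup.mem_top (⟨u3 0 z 0, mem_uni3 0 z 0⟩ : uni3 F))
    have h2 := hv ⟨_, h1⟩
    have h3 : rs (commutator (uni3 F)) (rs (uni3 F) ρ) ⟨_, h1⟩ =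
        ρ (u3 1 0 0 * u3 0 z 0 * (u3 1 0 0)⁻¹ * (u3 0 z 0)⁻¹) := rfl
    rw [h3, u3_inv, u3_inv, u3_mul, u3_mul, u3_mul] at h2
    have e1 : (1 : F) + 0 + -1 + -0 = 0 := by ring
    have e2 : (0 : F) + z + -0 + -z = 0 := by ring
    have e3 : 0 + 0 + 1 * z + (-0 + 1 * 0) + (1 + 0) * -0 + (-0 + 0 * z) + (1 + 0 + -1) * -z = z := by
      ring
    rw [e1, e2, e3] at h2
    exact h2
  · intro hv g
    obtain ⟨⟨g, hg⟩, hc⟩ := g
    obtain ⟨⟨x, y, z⟩, rfl⟩ := id hg
    have h2 : f2 (u3 x y z) = 0 := by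
      let φ : uni3 F →* Multiplicative F :=
        MonoidHom.mk' (fun g => Multiplicative.ofAdd (f2 g.1)) (by
          intro a b
          rw [f2_mul, ofAdd_add])
      exact Abelianization.commutator_subset_ker φ hc
    have h3 : f3 (u3 x y z) = 0 := by
      let φ : uni3 F →* Multiplicative F :=
        MonoidHom.mk' (fun g => Multiplicative.ofAdd (f3 g.1)) (by
          intro a b
          rw [f3_mul, ofAdd_add])
      exact Abelianization.commutator_subset_ker φ hc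
    rw [f2_eq] at h2
    rw [f3_eq] at h3
    subst h2 h3
    have h4 := hv (Multiplicative.ofAdd z)
    rw [MonoidHom.one_apply, Units.val_one, one_smul, zh_apply] at h4
    exact h4

/-- parametrization of `U` -/
def eu (F : Type) [Field F] : F × F × F ≃ uni3 F :=
  Equiv.ofBijective (fun p => ⟨u3 p.1 p.2.1 p.2.2, mem_uni3 _ _ _⟩) (by
    constructor
    · rintro ⟨x, y, z⟩ ⟨x', y', z'⟩ h
      obtain ⟨h1, h2, h3⟩ := u3_inj (congrArg Subtype.val h)
      simp only at h1 h2 h3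
      rw [h1, h2, h3]
    · rintro ⟨_, ⟨x, y, z⟩, rfl⟩
      exact ⟨(x, y, z), rfl⟩)

omit [IsAlgClosed Ω] in
theorem finrank_dm (ρ : Representation Ω (SpecialLinearGroup (Fin 3) F) V) {m₁ m₂ : F → ℤˣ}
    (h₁ : AC m₁) (h₂ : AC m₂) : (Module.finrank Ω (Dm ρ m₁ m₂) : Ω) =
      ((Fintype.card F : Ω) ^ 3)⁻¹ * ∑ x, ∑ y, ∑ z,
        ((m₁ x : ℤ) : Ω) * ((m₂ y : ℤ) : Ω) * ρ.character (u3 x y z) := by
  classical
  let _ : Fintype (uni3 F) := Fintype.ofFinite _
  have h3 : Dm ρ m₁ m₂ = Eg ρ ((MonoidHom.id _).comp (uni3 F).subtype) (cu Ω h₁ h₂) := by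
    rw [eg_eq_dg]
    rfl
  rw [h3, finrank_eg, card_uni3, Nat.cast_pow, Nat.card_eq_fintype_card]
  congr 1
  rw [← Equiv.sum_comp (eu F), Fintype.sum_prod_type]
  refine Finset.sum_congr rfl fun x _ => ?_
  rw [Fintype.sum_prod_type]
  refine Finset.sum_congr rfl fun y _ => Finset.sum_congr rfl fun z _ => ?_
  have h4 : ((cu Ω h₁ h₂ (eu F (x, y, z)) : Ωˣ) : Ω) = (((m₁ x * m₂ y : ℤˣ) : ℤ) : Ω) :=
    cu_val h₁ h₂ x y z
  have h5 : (((cu Ω h₁ h₂ (eu F (x, y, z)))⁻¹ : Ωˣ) : Ω) = ((m₁ x : ℤ) : Ω) * ((m₂ y : ℤ) : Ω) := by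
    rw [Units.val_inv_eq_inv_val, h4, Units.val_mul, Int.cast_mul, mul_inv]
    have h6 : ∀ e : ℤˣ, (((e : ℤ) : Ω))⁻¹ = ((e : ℤ) : Ω) := by
      intro e
      rcases Int.units_eq_one_or e with rfl | rfl <;> simp
    rw [h6, h6]
  rw [h5]
  rfl

theorem sum_dm (h2 : (2 : F) = 0) (ρ : Representation Ω (SpecialLinearGroup (Fin 3) F) V)
    (P : Finset (F → ℤˣ)) (hP : ∀ m, m ∈ P ↔ AC m) :
    ∑ m₁ ∈ P, ∑ m₂ ∈ P, Module.finrank Ω (Dm ρ m₁ m₂) = Module.finrank Ω (Eg ρ (zh F) 1) := by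
  classical
  apply Nat.cast_injective (R := Ω)
  have hq : (Fintype.card F : Ω) ≠ 0 := Nat.cast_ne_zero.2 Fintype.card_ne_zero
  rw [finrank_eg, Nat.cast_sum]
  have h3 : ∀ m₁ ∈ P, ((∑ m₂ ∈ P, Module.finrank Ω (Dm ρ m₁ m₂) : ℕ) : Ω) =
      ∑ m₂ ∈ P, ((Fintype.card F : Ω) ^ 3)⁻¹ * ∑ x, ∑ y, ∑ z,
        ((m₁ x : ℤ) : Ω) * ((m₂ y : ℤ) : Ω) * ρ.character (u3 x y z) := by
    intro m₁ hm₁
    rw [Nat.cast_sum]
    exact Finset.sum_congr rfl fun m₂ hm₂ => finrank_dm ρ ((hP _).1 hm₁) ((hP _).1 hm₂)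
  rw [Finset.sum_congr rfl h3, Finset.sum_congr rfl fun m₁ _ => (Finset.mul_sum _ _ _).symm,
    ← Finset.mul_sum]
  have h4 : ∑ m₁ ∈ P, ∑ m₂ ∈ P, ∑ x, ∑ y, ∑ z,
        ((m₁ x : ℤ) : Ω) * ((m₂ y : ℤ) : Ω) * ρ.character (u3 x y z) =
      ∑ x, ∑ y, (∑ m₁ ∈ P, ((m₁ x : ℤ) : Ω)) * (∑ m₂ ∈ P, ((m₂ y : ℤ) : Ω)) *
        ∑ z, ρ.character (u3 x y z) := by
    calc _ = ∑ m₁ ∈ P, ∑ x, ∑ m₂ ∈ P, ∑ y, ∑ z,
          ((m₁ x : ℤ) : Ω) * ((m₂ y : ℤ) : Ω) * ρ.character (u3 x y z) :=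
          Finset.sum_congr rfl fun m₁ _ => Finset.sum_comm
      _ = ∑ x, ∑ m₁ ∈ P, ∑ m₂ ∈ P, ∑ y, ∑ z,
          ((m₁ x : ℤ) : Ω) * ((m₂ y : ℤ) : Ω) * ρ.character (u3 x y z) := Finset.sum_comm
      _ = ∑ x, ∑ m₁ ∈ P, ∑ y, ∑ m₂ ∈ P, ∑ z,
          ((m₁ x : ℤ) : Ω) * ((m₂ y : ℤ) : Ω) * ρ.character (u3 x y z) :=
          Finset.sum_congr rfl fun x _ => Finset.sum_congr rfl fun m₁ _ => Finset.sum_comm
      _ = ∑ x, ∑ y, ∑ m₁ ∈ P, ∑ m₂ ∈ P, ∑ z,
          ((m₁ x : ℤ) : Ω) * ((m₂ y : ℤ) : Ω) * ρ.character (u3 x y z) :=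
          Finset.sum_congr rfl fun x _ => Finset.sum_comm
      _ = _ := by
          refine Finset.sum_congr rfl fun x _ => Finset.sum_congr rfl fun y _ => ?_
          rw [Finset.sum_mul_sum, Finset.sum_mul]
          refine Finset.sum_congr rfl fun m₁ _ => ?_
          rw [Finset.sum_mul]
          refine Finset.sum_congr rfl fun m₂ _ => ?_
          rw [Finset.mul_sum]
  rw [h4, Finset.sum_eq_single 0]
  · rw [Finset.sum_eq_single 0]
    · rw [sum_ac h2 P hP 0, if_pos rfl]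
      have h5 : ∑ h : Multiplicative F, (((((1 : Multiplicative F →* Ωˣ) h)⁻¹ : Ωˣ)) : Ω) *
          ρ.character (zh F h) = ∑ z : F, ρ.character (u3 0 0 z) := by
        rw [← Equiv.sum_comp (Multiplicative.ofAdd : F ≃ Multiplicative F)]
        refine Finset.sum_congr rfl fun z _ => ?_
        rw [MonoidHom.one_apply, inv_one, Units.val_one, one_mul, zh_apply]
      rw [h5]
      have h6 : (Nat.card (Multiplicative F) : Ω) = Fintype.card F := by
        rw [← Nat.card_eq_fintype_card, Nat.card_congr (Multiplicative.ofAdd : F ≃ Multiplicative F)]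
      rw [h6]
      field_simp
    · intro y _ hy
      rw [sum_ac h2 P hP y, if_neg hy, mul_zero, zero_mul]
    · intro h
      exact absurd (Finset.mem_univ _) h
  · intro x _ hx
    refine Finset.sum_eq_zero fun y _ => ?_
    rw [sum_ac h2 P hP x, if_neg hx, zero_mul, zero_mul]
  · intro h
    exact absurd (Finset.mem_univ _) h

end Y05_aux

/-- `dim V ≡ ∑ dim (Dm ρ m₁ m₂)` over all pairs of characters (`parity_two_group` for `U`; the
commutator subgroup of `U` is `{u(0,0,z)}`, and a representation of `F × F` is the direct sum of its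
eigenspaces, all characters of `F` being `±1`-valued) -/
theorem parity_uni3 (h2 : (2 : F) = 0)
    {ρ : Representation Ω (SpecialLinearGroup (Fin 3) F) V} (P : Finset (F → ℤˣ))
    (hP : ∀ m, m ∈ P ↔ AC m) :
    (Odd (Module.finrank Ω V) ↔
      Odd (∑ m₁ ∈ P, ∑ m₂ ∈ P, Module.finrank Ω (Dm ρ m₁ m₂))) := by
  classical
  have := charTwo h2
  obtain ⟨k, -, hk⟩ := FiniteField.card F 2
  have hU : Nat.card (uni3 F) = 2 ^ ((k : ℕ) * 3) := by
    rw [card_uni3, Nat.card_eq_fintype_card, hk, pow_mul]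
  rw [parity_two_group hU (rs (uni3 F) ρ), inv_eq, sum_dm h2 ρ P hP]

end

end Parker
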