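import Pool.Agent.Parker.Defs
import Pool.Agent.Parker.P01
import Pool.Agent.Parker.P08
import Pool.Agent.Parker.P10
import Pool.Agent.Parker.P32
import Pool.Agent.Parker.X01
import Pool.Agent.Parker.Y02
import Pool.Agent.Parker.Y05

/-!
# MP_6c3636_al, module Y06: `SL_3(q)`, `q` even: restriction to the Borel subgroup (helper7)
-/

namespace Parker

open Matrix

universe v

noncomputable section

namespace Y06_aux

universe u w

section general

variable {Ω : Type} [Field Ω] [IsAlgClosed Ω] [CharZero Ω]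
  {G : Type u} [Group G] [Finite G]
  {W : Type w} [AddCommGroup W] [Module Ω W] [FiniteDimensional Ω W]

omit [IsAlgClosed Ω] [CharZero Ω] in
theorem sgn_mul (a b : ℤˣ) : (((a * b : ℤˣ) : ℤ) : Ω) = ((a : ℤ) : Ω) * ((b : ℤ) : Ω) := by
  push_cast
  ring

omit [IsAlgClosed Ω] [CharZero Ω] in
theorem sgn_sq (a : ℤˣ) : ((a : ℤ) : Ω) * ((a : ℤ) : Ω) = 1 := by
  rw [← sgn_mul, Int.units_mul_self]
  simp

omit [Finite G] in
/-- `N` is a group with a character `lam` of order two, both normalized by a group `T` of odd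
order; `D` is the eigenspace. If `ρ` is self dual and `D` has odd dimension then `T` has a nonzero
fixed vector in `D`. -/
theorem odd_fixed {ρ : Representation Ω G W} (hsd : SD ρ)
    {N : Type u} [Group N] [Finite N] {T : Type u} [Group T] [Finite T]
    (j : N →* G) (i : T →* G) (lam : N → ℤˣ) (hlam : ∀ n n', lam (n * n') = lam n * lam n')
    (hact : ∀ t n, ∃ n', i t * j n = j n' * i t ∧ lam n' = lam n) (hT : Odd (Nat.card T))
    (D : Submodule Ω W) (hD : ∀ x, x ∈ D ↔ ∀ n, ρ (j n) x = ((lam n : ℤ) : Ω) • x)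
    (hodd : Odd (Module.finrank Ω D)) : ∃ x ∈ D, x ≠ 0 ∧ ∀ t, ρ (i t) x = x := by
  classical
  let _ := Fintype.ofFinite N
  have hc : (Nat.card N : Ω) ≠ 0 := Nat.cast_ne_zero.2 Nat.card_pos.ne'
  have hone : lam 1 = 1 := by
    have h := hlam 1 1
    rw [mul_one] at h
    exact left_eq_mul.1 h
  have hinv : ∀ n, lam n⁻¹ = lam n := by
    intro n
    have h := hlam n⁻¹ n
    rw [inv_mul_cancel, hone] at h
    have h2 : lam n⁻¹ = (lam n)⁻¹ := eq_inv_of_mul_eq_one_left h.symm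
    rw [h2, Int.units_inv_eq_self]
  have hmulj : ∀ n n' x, ρ (j n) (ρ (j n') x) = ρ (j (n * n')) x := by
    intro n n' x
    rw [map_mul, map_mul, Module.End.mul_apply]
  let e : Module.End Ω W := (Nat.card N : Ω)⁻¹ • ∑ n, ((lam n : ℤ) : Ω) • ρ (j n)
  have heap : ∀ x, e x = (Nat.card N : Ω)⁻¹ • ∑ n, ((lam n : ℤ) : Ω) • ρ (j n) x := by
    intro x
    simp only [e, LinearMap.smul_apply, LinearMap.sum_apply]
  have he1 : ∀ x, e x ∈ D := by
    intro x
    rw [hD]
    intro n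
    rw [heap, map_smul, map_sum, smul_comm]
    congr 1
    rw [Finset.smul_sum]
    rw [← Equiv.sum_comp (Equiv.mulLeft n)
      (fun m => ((lam n : ℤ) : Ω) • ((lam m : ℤ) : Ω) • ρ (j m) x)]
    refine Finset.sum_congr rfl fun m _ => ?_
    rw [map_smul, hmulj, Equiv.coe_mulLeft, hlam, sgn_mul, smul_smul, ← mul_assoc, sgn_sq, one_mul]
  have he2 : ∀ x ∈ D, e x = x := by
    intro x hx
    rw [hD] at hx
    rw [heap]
    have h1 : ∀ n ∈ (Finset.univ : Finset N), ((lam n : ℤ) : Ω) • ρ (j n) x = x := by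
      intro n _
      rw [hx, smul_smul, sgn_sq, one_smul]
    rw [Finset.sum_congr rfl h1, Finset.sum_const, Finset.card_univ, Fintype.card_eq_nat_card,
      ← Nat.cast_smul_eq_nsmul Ω, smul_smul, inv_mul_cancel₀ hc, one_smul]
  have hstab : ∀ t, ∀ x ∈ D, ρ (i t) x ∈ D := by
    intro t x hx
    rw [hD] at hx ⊢
    intro n
    obtain ⟨n', h1, h2⟩ := hact t⁻¹ n
    have h3 : j n * i t = i t * j n' := by
      have h4 : j n = i t * j n' * (i t)⁻¹ := by
        rw [map_inv] at h1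
        calc j n = i t * ((i t)⁻¹ * j n) := by group
          _ = i t * (j n' * (i t)⁻¹) := by rw [h1]
          _ = i t * j n' * (i t)⁻¹ := by group
      rw [h4]
      group
    rw [← Module.End.mul_apply, ← map_mul, h3, map_mul, Module.End.mul_apply, hx, map_smul, h2]
  let R : Representation Ω T W := MonoidHom.comp ρ i
  have hR : ∀ t, R t = ρ (i t) := fun _ => rfl
  obtain ⟨τ, hτ⟩ := P32_aux.exists_sub R D hstab
  have htr : ∀ t : T, τ.character t =
      (Nat.card N : Ω)⁻¹ * ∑ n : N, ((lam n : ℤ) : Ω) * ρ.character (i t * j n) := by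
    intro t
    have hf : ∀ x, (ρ (i t) * e) x ∈ D := by
      intro x
      exact hstab t _ (he1 x)
    have h1 := LinearMap.trace_restrict_eq_of_forall_mem D (ρ (i t) * e) hf
    have h2 : (ρ (i t) * e).restrict (fun x _ => hf x) = τ t := by
      ext x
      rw [hτ]
      change (ρ (i t)) (e x) = ρ (i t) x
      rw [he2 _ x.2]
    rw [h2] at h1
    rw [Representation.character, h1]
    simp only [e]
    rw [mul_smul_comm, map_smul, Finset.mul_sum, map_sum, smul_eq_mul]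
    congr 1
    refine Finset.sum_congr rfl fun n _ => ?_
    rw [mul_smul_comm, map_smul, ← map_mul, smul_eq_mul]
    rfl
  have hsdτ : SD τ := by
    intro t
    rw [htr, htr]
    congr 1
    rw [← Equiv.sum_comp (Equiv.inv N)]
    refine Finset.sum_congr rfl fun n _ => ?_
    rw [Equiv.inv_apply, hinv]
    congr 1
    rw [← hsd (i t * j n), Representation.char_mul_comm]
    congr 1
    rw [map_inv, map_inv, _root_.mul_inv_rev]
  have h5 := (parity_odd hT hsdτ).1 hodd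
  have hnt : Nontrivial τ.invariants := Module.nontrivial_of_finrank_pos h5.pos
  obtain ⟨x, hx⟩ := exists_ne (0 : τ.invariants)
  refine ⟨((x : D) : W), (x : D).2, fun h0 => hx (Subtype.ext (Subtype.ext h0)), fun t => ?_⟩
  have h6 := x.2 t
  have h7 := congrArg (fun y : D => (y : W)) h6
  simp only [hτ] at h7
  exact h7

omit [Finite G] in
/-- a group `T` of odd order and a `2`-group `A` commuting with each other, acting on a self dual
representation of odd dimension: there is a vector fixed by `T` which is an eigenvector of `A` -/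
theorem odd_pair {ρ : Representation Ω G W} (hsd : SD ρ) (hodd : Odd (Module.finrank Ω W))
    {T : Type u} [Group T] [Finite T] (hT : Odd (Nat.card T))
    {A : Type u} [Group A] [Finite A] {k : ℕ} (hA : Nat.card A = 2 ^ k)
    (i : T →* G) (j : A →* G) (hc : ∀ t a, j a * i t = i t * j a) :
    ∃ x : W, x ≠ 0 ∧ (∀ t, ρ (i t) x = x) ∧ ∀ a, ∃ r : Ω, ρ (j a) x = r • x := by
  let R : Representation Ω T W := MonoidHom.comp ρ i
  have hR : ∀ t, R t = ρ (i t) := fun _ => rfl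
  have hsdR : SD R := by
    intro t
    have h := hsd (i t)
    rw [← map_inv] at h
    exact h
  have h1 := (parity_odd hT hsdR).1 hodd
  let S : Representation Ω A W := MonoidHom.comp ρ j
  have hst : ∀ a, ∀ x ∈ R.invariants, S a x ∈ R.invariants := by
    intro a x hx t
    have h2 : ρ (i t) x = x := hx t
    change ρ (i t) (ρ (j a) x) = ρ (j a) x
    rw [← Module.End.mul_apply, ← map_mul, ← hc, map_mul, Module.End.mul_apply, h2]
  obtain ⟨σ, hσ⟩ := P32_aux.exists_sub S R.invariants hst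
  obtain ⟨x, hx0, hx⟩ := linear_of_two_group hA (ρ := σ) h1
  refine ⟨x, fun h0 => hx0 (Subtype.ext h0), fun t => x.2 t, fun a => ?_⟩
  obtain ⟨r, hr⟩ := hx a
  refine ⟨r, ?_⟩
  have h3 := congrArg (fun y : R.invariants => (y : W)) hr
  simp only [hσ] at h3
  exact h3

omit [IsAlgClosed Ω] [Finite G] [FiniteDimensional Ω W] in
/-- eigenvalues of an elementary abelian `2`-group are signs -/
theorem exists_ac {F : Type} [Field F] {ρ : Representation Ω G W} (g : F → G)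
    (hg : ∀ x y, g (x + y) = g x * g y) (hg2 : ∀ x, g x * g x = 1) {x : W} (hx0 : x ≠ 0)
    (hx : ∀ a, ∃ r : Ω, ρ (g a) x = r • x) :
    ∃ m : F → ℤˣ, AC m ∧ ∀ a, ρ (g a) x = ((m a : ℤ) : Ω) • x := by
  have hinj : ∀ r s : Ω, r • x = s • x → r = s := by
    intro r s h
    have h0 : (r - s) • x = 0 := by rw [sub_smul, h, sub_self]
    exact sub_eq_zero.1 ((smul_eq_zero.1 h0).resolve_right hx0)
  have h1 : ∀ a, ∃ s : ℤˣ, ρ (g a) x = ((s : ℤ) : Ω) • x := by
    intro a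
    obtain ⟨r, hr⟩ := hx a
    have h2 : ρ (g a * g a) x = (r * r) • x := by
      rw [map_mul, Module.End.mul_apply, hr, map_smul, hr, smul_smul]
    rw [hg2, map_one, Module.End.one_apply] at h2
    have h3 : r * r = 1 := hinj _ _ (by rw [← h2, one_smul])
    rcases mul_self_eq_one_iff.1 h3 with h4 | h4
    · refine ⟨1, ?_⟩
      rw [hr, h4]
      simp
    · refine ⟨-1, ?_⟩
      rw [hr, h4]
      simp
  choose m hm using h1
  refine ⟨m, fun a b => ?_, hm⟩
  have h2 : ρ (g (a + b)) x = (((m a * m b : ℤˣ) : ℤ) : Ω) • x := by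
    rw [hg, map_mul, Module.End.mul_apply, hm b, map_smul, hm a, smul_smul, sgn_mul, mul_comm]
  rw [hm] at h2
  have h3 := hinj _ _ h2
  have h4 : ((m (a + b) : ℤˣ) : ℤ) = ((m a * m b : ℤˣ) : ℤ) := by exact_mod_cast h3
  exact Units.ext h4

omit [IsAlgClosed Ω] [CharZero Ω] [FiniteDimensional Ω W] in
/-- if a subset invariant under conjugation has a nonzero fixed vector in an irreducible
representation it acts trivially -/
theorem all_fixed {ρ : Representation Ω G W} (hρ : ρ.IsIrreducible) (S : Set G)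
    (hS : ∀ g, ∀ s ∈ S, g⁻¹ * s * g ∈ S) {x : W} (hx0 : x ≠ 0) (hx : ∀ s ∈ S, ρ s x = x)
    (y : W) {s : G} (hs : s ∈ S) : ρ s y = y := by
  let D : Submodule Ω W :=
    { carrier := {x | ∀ s ∈ S, ρ s x = x}
      add_mem' := fun {a b} ha hb s hs => by rw [map_add, ha s hs, hb s hs]
      zero_mem' := fun s _ => map_zero _
      smul_mem' := fun r a ha s hs => by rw [map_smul, ha s hs] }
  have hst : ∀ g, ∀ a ∈ D, ρ g a ∈ D := by
    intro g a ha s hs
    have h1 : s * g = g * (g⁻¹ * s * g) := by group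
    rw [← Module.End.mul_apply, ← map_mul, h1, map_mul, Module.End.mul_apply,
      ha _ (hS g s hs)]
  rcases ((P08_aux.irr_iff ρ).1 hρ).2 D hst with h | h
  · exfalso
    have h1 : x ∈ D := hx
    rw [h, Submodule.mem_bot] at h1
    exact hx0 h1
  · have h1 : y ∈ D := by rw [h]; trivial
    exact h1 s hs

end general

section sl3

variable {F : Type} [Field F]

theorem u3_mem (x y z : F) : u3 x y z ∈ bor3 F :=
  uni3_le ⟨(x, y, z), rfl⟩

theorem t3_mem (a b : Fˣ) : t3 a b ∈ bor3 F := by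
  refine mem_bor3.2 ⟨0, 0, 0, a, b, ?_⟩
  have h : u3 (0 : F) 0 0 * u3 0 0 0 = u3 0 0 0 := by
    rw [u3_mul]
    simp
  rw [mul_eq_left.1 h, one_mul]

/-- `u3 x y z` as an element of the Borel subgroup -/
def ub (x y z : F) : bor3 F := ⟨u3 x y z, u3_mem x y z⟩

theorem ub_mul (x y z x' y' z' : F) :
    ub x y z * ub x' y' z' = ub (x + x') (y + y') (z + z' + x * y') :=
  Subtype.ext (u3_mul x y z x' y' z')

theorem ub_zero : ub (0 : F) 0 0 = 1 := by
  have h : ub (0 : F) 0 0 * ub 0 0 0 = ub 0 0 0 := by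
    rw [ub_mul]
    simp
  exact mul_eq_left.1 h

/-- the torus as a homomorphism -/
def tb (F : Type) [Field F] : Fˣ × Fˣ →* bor3 F :=
  MonoidHom.mk' (fun p => ⟨t3 p.1 p.2, t3_mem p.1 p.2⟩)
    (fun p q => Subtype.ext (t3_mul p.1 p.2 q.1 q.2).symm)

theorem tb_coe (p : Fˣ × Fˣ) : ((tb F p : bor3 F) : SpecialLinearGroup (Fin 3) F) = t3 p.1 p.2 :=
  rfl

theorem tb_ub (p : Fˣ × Fˣ) (x y z : F) :
    tb F p * ub x y z = ub ((p.1 : F) * (p.2 : F)⁻¹ * x) ((p.1 : F) * (p.2 : F) ^ 2 * y)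
      ((p.1 : F) ^ 2 * p.2 * z) * tb F p := by
  apply Subtype.ext
  have h := t3_u3 p.1 p.2 x y z
  have h2 := mul_inv_eq_iff_eq_mul.1 h
  exact h2

theorem exists_eq (g : bor3 F) : ∃ x y z p, g = ub x y z * tb F p := by
  obtain ⟨x, y, z, a, b, h⟩ := mem_bor3.1 g.2
  exact ⟨x, y, z, (a, b), Subtype.ext h⟩

theorem conj_ub (g : bor3 F) : ∃ c d : F, ∀ x y z, ∃ z', g⁻¹ * ub x y z * g =
    ub (c * x) (d * y) z' := by
  obtain ⟨x', y', z', p, rfl⟩ := exists_eq g
  refine ⟨((p⁻¹).1 : F) * ((p⁻¹).2 : F)⁻¹, ((p⁻¹).1 : F) * ((p⁻¹).2 : F) ^ 2, fun x y z => ?_⟩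
  have h1 : ub (-x') (-y') (-z' + x' * y') * ub x' y' z' = 1 := by
    rw [ub_mul, ← ub_zero]
    congr 1 <;> ring
  have h2 : (ub x' y' z')⁻¹ = ub (-x') (-y') (-z' + x' * y') := inv_eq_of_mul_eq_one_left h1
  have h3 : (ub x' y' z')⁻¹ * ub x y z * ub x' y' z' =
      ub x y (-z' + x' * y' + z + -x' * y + z' + (-x' + x) * y') := by
    rw [h2, ub_mul, ub_mul]
    congr 1 <;> ring
  refine ⟨((p⁻¹).1 : F) ^ 2 * (p⁻¹).2 *
      (-z' + x' * y' + z + -x' * y + z' + (-x' + x) * y'), ?_⟩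
  have h4 := tb_ub p⁻¹ x y (-z' + x' * y' + z + -x' * y + z' + (-x' + x) * y')
  calc (ub x' y' z' * tb F p)⁻¹ * ub x y z * (ub x' y' z' * tb F p)
      = (tb F p)⁻¹ * ((ub x' y' z')⁻¹ * ub x y z * ub x' y' z') * tb F p := by group
    _ = (tb F p⁻¹ * ub x y (-z' + x' * y' + z + -x' * y + z' + (-x' + x) * y')) * tb F p := by
        rw [h3, map_inv]
    _ = _ := by
        rw [h4, mul_assoc, ← map_mul, inv_mul_cancel, map_one, mul_one]

end sl3

section fin

variable {F : Type} [Field F] [Fintype F] {Ω : Type} [Field Ω] [IsAlgClosed Ω] [CharZero Ω]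
  {W : Type u} [AddCommGroup W] [Module Ω W] [FiniteDimensional Ω W]

theorem card_pow (h2 : (2 : F) = 0) : ∃ k : ℕ, k ≠ 0 ∧ Nat.card F = 2 ^ k := by
  have : CharP F 2 := CharTwo.of_one_ne_zero_of_two_eq_zero one_ne_zero h2
  obtain ⟨n, _, hn⟩ := FiniteField.card F 2
  exact ⟨n, n.ne_zero, by rw [Nat.card_eq_fintype_card, hn]⟩

theorem odd_units (h2 : (2 : F) = 0) : Odd (Nat.card Fˣ) := by
  obtain ⟨k, hk, h⟩ := card_pow h2
  rw [Nat.card_units, h]
  refine Nat.Even.sub_odd (Nat.one_le_two_pow) ?_ odd_one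
  exact (even_two).pow_of_ne_zero hk

theorem odd_prod (h2 : (2 : F) = 0) : Odd (Nat.card (Fˣ × Fˣ)) := by
  rw [Nat.card_prod]
  exact (odd_units h2).mul (odd_units h2)

theorem odd_fixed_bor {τ : Representation Ω (bor3 F) W} (hsd : SD τ) {m₁ m₂ : F → ℤˣ}
    (h₁ : AC m₁) (h₂ : AC m₂) {T : Type} [Group T] [Finite T] (hT : Odd (Nat.card T))
    (f : T →* Fˣ × Fˣ) (hf₁ : ∀ t x, m₁ (((f t).1 : F) * ((f t).2 : F)⁻¹ * x) = m₁ x)
    (hf₂ : ∀ t y, m₂ (((f t).1 : F) * ((f t).2 : F) ^ 2 * y) = m₂ y)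
    (D : Submodule Ω W)
    (hD : ∀ v, v ∈ D ↔ ∀ x y z, τ (ub x y z) v = (((m₁ x * m₂ y : ℤˣ) : ℤ) : Ω) • v)
    (hodd : Odd (Module.finrank Ω D)) : ∃ x ∈ D, x ≠ 0 ∧ ∀ t, τ (tb F (f t)) x = x := by
  refine odd_fixed hsd (Subgroup.inclusion uni3_le) ((tb F).comp f)
    (fun n : uni3 F => m₁ (n.1.1 0 1) * m₂ (n.1.1 1 2)) ?_ ?_ hT D ?_ hodd
  · rintro ⟨_, ⟨p, rfl⟩⟩ ⟨_, ⟨p', rfl⟩⟩
    have e1 : ((⟨u3 p.1 p.2.1 p.2.2, ⟨p, rfl⟩⟩ : uni3 F) * ⟨u3 p'.1 p'.2.1 p'.2.2, ⟨p', rfl⟩⟩).1 =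
        u3 (p.1 + p'.1) (p.2.1 + p'.2.1) (p.2.2 + p'.2.2 + p.1 * p'.2.1) := u3_mul _ _ _ _ _ _
    simp only [e1]
    change m₁ (p.1 + p'.1) * m₂ (p.2.1 + p'.2.1) = m₁ p.1 * m₂ p.2.1 * (m₁ p'.1 * m₂ p'.2.1)
    rw [h₁, h₂]
    exact mul_mul_mul_comm _ _ _ _
  · rintro t ⟨_, ⟨p, rfl⟩⟩
    refine ⟨⟨_, ⟨(((f t).1 : F) * ((f t).2 : F)⁻¹ * p.1, ((f t).1 : F) * ((f t).2 : F) ^ 2 * p.2.1,
      ((f t).1 : F) ^ 2 * (f t).2 * p.2.2), rfl⟩⟩, tb_ub (f t) p.1 p.2.1 p.2.2, ?_⟩
    change m₁ (((f t).1 : F) * ((f t).2 : F)⁻¹ * p.1) *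
      m₂ (((f t).1 : F) * ((f t).2 : F) ^ 2 * p.2.1) = m₁ p.1 * m₂ p.2.1
    rw [hf₁, hf₂]
  · intro v
    rw [hD]
    constructor
    · rintro h ⟨_, ⟨p, rfl⟩⟩
      exact h p.1 p.2.1 p.2.2
    · intro h x y z
      exact h ⟨u3 x y z, ⟨(x, y, z), rfl⟩⟩

end fin

end Y06_aux

open Y06_aux

variable {F : Type} [Field F] [Fintype F] {Ω : Type} [Field Ω] [IsAlgClosed Ω] [CharZero Ω]
  {V : Type v} [AddCommGroup V] [Module Ω V] [FiniteDimensional Ω V]

namespace Y06_aux

omit [Fintype F] in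
theorem ac_one : AC (1 : F → ℤˣ) := fun _ _ => by simp

/-- `a ↦ (a, a)` -/
def fl (F : Type) [Field F] : Fˣ →* Fˣ × Fˣ := (MonoidHom.id Fˣ).prod (MonoidHom.id Fˣ)

/-- `b ↦ (b⁻², b)` -/
def fr (F : Type) [Field F] : Fˣ →* Fˣ × Fˣ :=
  MonoidHom.mk' (fun b => (b⁻¹ * b⁻¹, b)) (fun a b => Prod.ext (by
    change (a * b)⁻¹ * (a * b)⁻¹ = a⁻¹ * a⁻¹ * (b⁻¹ * b⁻¹)
    rw [mul_inv, mul_mul_mul_comm]) rfl)

omit [Fintype F] in
theorem fl_one (t : Fˣ) (x : F) : (((fl F t).1 : F)) * ((fl F t).2 : F)⁻¹ * x = x := by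
  change (t : F) * (t : F)⁻¹ * x = x
  rw [mul_inv_cancel₀ t.ne_zero, one_mul]

omit [Fintype F] in
theorem fr_one (t : Fˣ) (x : F) : (((fr F t).1 : F)) * ((fr F t).2 : F) ^ 2 * x = x := by
  change ((t⁻¹ * t⁻¹ : Fˣ) : F) * (t : F) ^ 2 * x = x
  have h : (t : F) ≠ 0 := t.ne_zero
  push_cast
  field_simp

end Y06_aux

/-- Let `ρ` be irreducible, self dual, of even degree, without nonzero vectors fixed by the Borel
subgroup. Then `Dm ρ m₁ m₂ = 0` for nontrivial `m₁`, `m₂`.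

Proof: the sum in `parity_uni3` is even. `Dm ρ 1 1 = V^U` is a self dual representation of the
torus (of odd order) without fixed vectors, so of even dimension (`parity_odd`, `exists_inv_rep`).
For `m ≠ 1` the space `Dm ρ m 1` is a self dual representation of `{t3 a a}` (which centralizes
`u(x,0,0)`) without fixed vectors by `sl3_no_left`, so of even dimension; the same for `Dm ρ 1 m`
with `{t3 a b : a b² = 1}` and `sl3_no_right`. So the sum over the pairs of nontrivial characters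
is even, hence zero by `sum_regular`. (Self duality of these representations: the trace of
`t e_m` on `V`, `e_m` the idempotent of a real character normalized by `t`, is invariant under
`t ↦ t⁻¹`.) -/
theorem sl3_no_regular (h2 : (2 : F) = 0)
    {ρ : Representation Ω (SpecialLinearGroup (Fin 3) F) V}
    (hρ : ρ.IsIrreducible) (hev : Even (Module.finrank Ω V)) (hsd : SD ρ)
    (hB : ∀ v : V, (∀ b ∈ bor3 F, ρ b v = v) → v = 0) {m₁ m₂ : F → ℤˣ} (h₁ : AC m₁)
    (h₂ : AC m₂) (n₁ : ∃ x, m₁ x ≠ 1) (n₂ : ∃ x, m₂ x ≠ 1) : Dm ρ m₁ m₂ = ⊥ := by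
  classical
  let P : Finset (F → ℤˣ) := Finset.univ.filter fun m => AC m
  have hP : ∀ m, m ∈ P ↔ AC m := fun m => by simp [P]
  have hP' : ∀ m, m ∈ P.erase 1 ↔ AC m ∧ ∃ x, m x ≠ 1 := by
    intro m
    rw [Finset.mem_erase, hP, and_comm]
    refine and_congr_right fun _ => ?_
    rw [Ne, funext_iff, not_forall]
    rfl
  have h1P : (1 : F → ℤˣ) ∈ P := (hP 1).2 ac_one
  let τ : Representation Ω (bor3 F) V := rs (bor3 F) ρ
  have hτ : ∀ g : bor3 F, τ g = ρ g := fun _ => rfl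
  have hsdτ : SD τ := fun g => hsd g
  have hDm : ∀ m m' : F → ℤˣ, ∀ v, v ∈ Dm ρ m m' ↔
      ∀ x y z, τ (ub x y z) v = (((m x * m' y : ℤˣ) : ℤ) : Ω) • v := fun m m' v => Iff.rfl
  -- the three even parts
  have e11 : Even (Module.finrank Ω (Dm ρ 1 1)) := by
    by_contra hne
    rw [Nat.not_even_iff_odd] at hne
    obtain ⟨x, hx, hx0, hfix⟩ := odd_fixed_bor hsdτ ac_one ac_one (odd_prod h2)
      (MonoidHom.id (Fˣ × Fˣ)) (fun _ _ => rfl) (fun _ _ => rfl) (Dm ρ 1 1) (hDm 1 1) hne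
    apply hx0
    apply hB
    intro b hb
    obtain ⟨x', y', z', p, h⟩ := exists_eq (⟨b, hb⟩ : bor3 F)
    have h3 : ρ b x = τ (ub x' y' z' * tb F p) x := by
      rw [← h]
      rfl
    rw [h3, map_mul, Module.End.mul_apply]
    have h4 : τ (tb F p) x = x := hfix p
    rw [h4, (hDm 1 1 x).1 hx x' y' z']
    simp
  have em1 : ∀ m ∈ P.erase 1, Even (Module.finrank Ω (Dm ρ m 1)) := by
    intro m hm
    obtain ⟨hm1, hm2⟩ := (hP' m).1 hm
    by_contra hne
    rw [Nat.not_even_iff_odd] at hne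
    obtain ⟨x, hx, hx0, hfix⟩ := odd_fixed_bor hsdτ hm1 ac_one (odd_units h2)
      (fl F) (fun t x => by rw [fl_one]) (fun _ _ => rfl) (Dm ρ m 1) (hDm m 1) hne
    apply hx0
    refine sl3_no_left h2 hρ hev hB hm1 hm2 (v := x) (fun y z => ?_) (fun a => ?_) (fun a => ?_)
    · have h5 := hx 0 y z
      have h0 : m 0 = 1 := by
        have h6 := hm1 0 0
        rw [add_zero] at h6
        exact left_eq_mul.1 h6
      rw [h5, h0]
      simp
    · exact hfix a
    · have h5 := hx a 0 0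
      rw [h5]
      simp
  have e1m : ∀ m ∈ P.erase 1, Even (Module.finrank Ω (Dm ρ 1 m)) := by
    intro m hm
    obtain ⟨hm1, hm2⟩ := (hP' m).1 hm
    by_contra hne
    rw [Nat.not_even_iff_odd] at hne
    obtain ⟨x, hx, hx0, hfix⟩ := odd_fixed_bor hsdτ ac_one hm1 (odd_units h2)
      (fr F) (fun _ _ => rfl) (fun t x => by rw [fr_one]) (Dm ρ 1 m) (hDm 1 m) hne
    apply hx0
    refine sl3_no_right h2 hρ hev hB hm1 hm2 (v := x) (fun y z => ?_) (fun a b hab => ?_)
      (fun a => ?_)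
    · have h5 := hx y 0 z
      have h0 : m 0 = 1 := by
        have h6 := hm1 0 0
        rw [add_zero] at h6
        exact left_eq_mul.1 h6
      rw [h5, h0]
      simp
    · have h7 : a = b⁻¹ * b⁻¹ := by
        rw [mul_assoc] at hab
        rw [eq_inv_of_mul_eq_one_left hab, mul_inv]
      rw [h7]
      exact hfix b
    · have h5 := hx 0 a 0
      rw [h5]
      simp
  -- the sum
  have hpar := parity_uni3 h2 P hP (ρ := ρ)
  have hsum := sum_regular h2 hρ (P.erase 1) hP'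
  have hdec : ∑ m₁ ∈ P, ∑ m₂ ∈ P, Module.finrank Ω (Dm ρ m₁ m₂) =
      (Module.finrank Ω (Dm ρ 1 1) + ∑ m ∈ P.erase 1, Module.finrank Ω (Dm ρ 1 m)) +
      ((∑ m ∈ P.erase 1, Module.finrank Ω (Dm ρ m 1)) +
      ∑ m₁ ∈ P.erase 1, ∑ m₂ ∈ P.erase 1, Module.finrank Ω (Dm ρ m₁ m₂)) := by
    rw [← Finset.add_sum_erase P _ h1P, ← Finset.add_sum_erase P _ h1P, ← Finset.sum_add_distrib]
    congr 1
    refine Finset.sum_congr rfl fun m _ => ?_
    rw [← Finset.add_sum_erase P _ h1P]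
  have hE : Even (∑ m₁ ∈ P, ∑ m₂ ∈ P, Module.finrank Ω (Dm ρ m₁ m₂)) := by
    by_contra hne
    rw [Nat.not_even_iff_odd] at hne
    exact Nat.not_even_iff_odd.2 (hpar.2 hne) hev
  have hz : (∑ m₁ ∈ P.erase 1, ∑ m₂ ∈ P.erase 1, Module.finrank Ω (Dm ρ m₁ m₂)) = 0 := by
    rcases hsum with h | h
    · exact h
    · exfalso
      have s1 : Even (∑ m ∈ P.erase 1, Module.finrank Ω (Dm ρ 1 m)) := Finset.even_sum _ e1m
      have s2 : Even (∑ m ∈ P.erase 1, Module.finrank Ω (Dm ρ m 1)) := Finset.even_sum _ em1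
      rw [hdec] at hE
      have h8 := (e11.add s1).add_odd (s2.add_odd h)
      exact Nat.not_even_iff_odd.2 h8 hE
  have hz1 := (Finset.sum_eq_zero_iff.1 hz) m₁ ((hP' m₁).2 ⟨h₁, n₁⟩)
  have hz2 := (Finset.sum_eq_zero_iff.1 hz1) m₂ ((hP' m₂).2 ⟨h₂, n₂⟩)
  exact Submodule.finrank_eq_zero.1 hz2

namespace Y06_aux

section w

variable {ρ : Representation Ω (SpecialLinearGroup (Fin 3) F) V}
  {W : Subrepresentation (rs (bor3 F) ρ)}

/-- no nonzero vector fixed by `U` -/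
theorem no_U (h2 : (2 : F) = 0) (hB : ∀ v : V, (∀ b ∈ bor3 F, ρ b v = v) → v = 0)
    (hW : W.toRepresentation.IsIrreducible) (hodd : Odd (Module.finrank Ω W.toSubmodule))
    (hsd : SD W.toRepresentation) {x : W.toSubmodule} (hx0 : x ≠ 0)
    (hx : ∀ a b c, W.toRepresentation (ub a b c) x = x) : False := by
  have hall : ∀ a b c y, W.toRepresentation (ub a b c) y = y := by
    intro a b c y
    refine all_fixed hW (Set.range fun p : F × F × F => ub p.1 p.2.1 p.2.2) ?_ hx0 ?_ y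
      ⟨(a, b, c), rfl⟩
    · rintro g _ ⟨p, rfl⟩
      obtain ⟨c, d, h⟩ := conj_ub g
      obtain ⟨z', h'⟩ := h p.1 p.2.1 p.2.2
      exact ⟨(c * p.1, d * p.2.1, z'), h'.symm⟩
    · rintro _ ⟨p, rfl⟩
      exact hx p.1 p.2.1 p.2.2
  let R : Representation Ω (Fˣ × Fˣ) W.toSubmodule := MonoidHom.comp W.toRepresentation (tb F)
  have hsdR : SD R := by
    intro t
    have h := hsd (tb F t)
    rw [← map_inv] at h
    exact h
  have h1 := (parity_odd (odd_prod h2) hsdR).1 hodd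
  have hnt : Nontrivial R.invariants := Module.nontrivial_of_finrank_pos h1.pos
  obtain ⟨y, hy⟩ := exists_ne (0 : R.invariants)
  have hy0 : (y : W.toSubmodule) ≠ 0 := fun h0 => hy (Subtype.ext h0)
  apply hy0
  apply Subtype.ext
  apply hB
  intro b hb
  obtain ⟨x', y', z', p, h⟩ := exists_eq (⟨b, hb⟩ : bor3 F)
  have h3 : W.toRepresentation (⟨b, hb⟩ : bor3 F) (y : W.toSubmodule) = (y : W.toSubmodule) := by
    rw [h, map_mul, Module.End.mul_apply]
    have h4 : W.toRepresentation (tb F p) (y : W.toSubmodule) = y := y.2 p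
    rw [h4, hall]
  exact congrArg (fun z : W.toSubmodule => (z : V)) h3

theorem card_mult (h2 : (2 : F) = 0) : ∃ k, Nat.card (Multiplicative F) = 2 ^ k := by
  obtain ⟨k, _, hk⟩ := card_pow h2
  exact ⟨k, hk⟩

/-- no nonzero vector fixed by `{u(0,y,z)}` -/
theorem no_R (h2 : (2 : F) = 0) (hρ : ρ.IsIrreducible) (hev : Even (Module.finrank Ω V))
    (hB : ∀ v : V, (∀ b ∈ bor3 F, ρ b v = v) → v = 0)
    (hW : W.toRepresentation.IsIrreducible) (hodd : Odd (Module.finrank Ω W.toSubmodule))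
    (hsd : SD W.toRepresentation) {x : W.toSubmodule} (hx0 : x ≠ 0)
    (hx : ∀ b c, W.toRepresentation (ub 0 b c) x = x) : False := by
  have hall : ∀ b c y, W.toRepresentation (ub 0 b c) y = y := by
    intro b c y
    refine all_fixed hW (Set.range fun p : F × F => ub 0 p.1 p.2) ?_ hx0 ?_ y ⟨(b, c), rfl⟩
    · rintro g _ ⟨p, rfl⟩
      obtain ⟨c, d, h⟩ := conj_ub g
      obtain ⟨z', h'⟩ := h 0 p.1 p.2
      refine ⟨(d * p.1, z'), ?_⟩
      rw [h', mul_zero]
    · rintro _ ⟨p, rfl⟩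
      exact hx p.1 p.2
  obtain ⟨k, hk⟩ := card_mult h2
  let j : Multiplicative F →* bor3 F := MonoidHom.mk' (fun x => ub x.toAdd 0 0) (fun a b => by
    rw [ub_mul, toAdd_mul]
    simp)
  obtain ⟨y, hy0, hy1, hy2⟩ := odd_pair hsd hodd (odd_units h2) hk ((tb F).comp (fl F)) j
    (fun t a => by
      have h := tb_ub (fl F t) a.toAdd 0 0
      rw [fl_one, mul_zero, mul_zero] at h
      exact h.symm)
  obtain ⟨m, hm, hmy⟩ := exists_ac (ρ := W.toRepresentation) (fun a : F => ub a 0 0)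
    (fun a b => by rw [ub_mul]; simp)
    (fun a => by rw [ub_mul, ← ub_zero, ← two_mul a, h2]; simp) hy0
    (fun a => hy2 (Multiplicative.ofAdd a))
  by_cases hn : ∃ a, m a ≠ 1
  · apply hy0
    apply Subtype.ext
    refine sl3_no_left h2 hρ hev hB hm hn (v := (y : V)) (fun b c => ?_) (fun a => ?_)
      (fun a => ?_)
    · exact congrArg (fun z : W.toSubmodule => (z : V)) (hall b c y)
    · exact congrArg (fun z : W.toSubmodule => (z : V)) (hy1 a)
    · exact congrArg (fun z : W.toSubmodule => (z : V)) (hmy a)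
  · push Not at hn
    refine no_U h2 hB hW hodd hsd hy0 (fun a b c => ?_)
    have h5 : ub a b c = ub 0 b c * ub a 0 0 := by
      rw [ub_mul]
      simp
    rw [h5, map_mul, Module.End.mul_apply, hmy, hn, hall]
    simp

/-- no nonzero vector fixed by `{u(x,0,z)}` -/
theorem no_R' (h2 : (2 : F) = 0) (hρ : ρ.IsIrreducible) (hev : Even (Module.finrank Ω V))
    (hB : ∀ v : V, (∀ b ∈ bor3 F, ρ b v = v) → v = 0)
    (hW : W.toRepresentation.IsIrreducible) (hodd : Odd (Module.finrank Ω W.toSubmodule))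
    (hsd : SD W.toRepresentation) {x : W.toSubmodule} (hx0 : x ≠ 0)
    (hx : ∀ a c, W.toRepresentation (ub a 0 c) x = x) : False := by
  have hall : ∀ a c y, W.toRepresentation (ub a 0 c) y = y := by
    intro b c y
    refine all_fixed hW (Set.range fun p : F × F => ub p.1 0 p.2) ?_ hx0 ?_ y ⟨(b, c), rfl⟩
    · rintro g _ ⟨p, rfl⟩
      obtain ⟨c, d, h⟩ := conj_ub g
      obtain ⟨z', h'⟩ := h p.1 0 p.2
      refine ⟨(c * p.1, z'), ?_⟩
      rw [h', mul_zero]
    · rintro _ ⟨p, rfl⟩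
      exact hx p.1 p.2
  obtain ⟨k, hk⟩ := card_mult h2
  let j : Multiplicative F →* bor3 F := MonoidHom.mk' (fun x => ub 0 x.toAdd 0) (fun a b => by
    rw [ub_mul, toAdd_mul]
    simp)
  obtain ⟨y, hy0, hy1, hy2⟩ := odd_pair hsd hodd (odd_units h2) hk ((tb F).comp (fr F)) j
    (fun t a => by
      have h := tb_ub (fr F t) 0 a.toAdd 0
      rw [fr_one, mul_zero, mul_zero] at h
      exact h.symm)
  obtain ⟨m, hm, hmy⟩ := exists_ac (ρ := W.toRepresentation) (fun a : F => ub 0 a 0)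
    (fun a b => by rw [ub_mul]; simp)
    (fun a => by rw [ub_mul, ← ub_zero, ← two_mul a, h2]; simp) hy0
    (fun a => hy2 (Multiplicative.ofAdd a))
  by_cases hn : ∃ a, m a ≠ 1
  · apply hy0
    apply Subtype.ext
    refine sl3_no_right h2 hρ hev hB hm hn (v := (y : V)) (fun b c => ?_) (fun a b hab => ?_)
      (fun a => ?_)
    · exact congrArg (fun z : W.toSubmodule => (z : V)) (hall b c y)
    · have h7 : a = b⁻¹ * b⁻¹ := by
        rw [mul_assoc] at hab
        rw [eq_inv_of_mul_eq_one_left hab, mul_inv]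
      rw [h7]
      exact congrArg (fun z : W.toSubmodule => (z : V)) (hy1 b)
    · exact congrArg (fun z : W.toSubmodule => (z : V)) (hmy a)
  · push Not at hn
    refine no_U h2 hB hW hodd hsd hy0 (fun a b c => ?_)
    have h5 : ub a b c = ub 0 b 0 * ub a 0 c := by
      rw [ub_mul]
      simp
    rw [h5, map_mul, Module.End.mul_apply, hall, hmy, hn]
    simp

end w

end Y06_aux

/-- The restriction to the Borel subgroup has no self dual constituent of odd dimension.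

Proof: let `W` be one. By `parity_uni3` (for `W`; `parity_two_group` for `U` acting on `W`) there is
`0 ≠ w ∈ W` with `u(x,y,z) w = m₁(x) m₂(y) w`. Not both `m₁`, `m₂` are nontrivial by
`sl3_no_regular`. If both are trivial, `U` (normal) acts trivially on `W`, `W` is an irreducible
self dual representation of the torus of odd order, so trivial (`trivial_of_odd`), contradiction to
`hB`. If `m₂ = 1`, `m₁ ≠ 1`: `{u(0,y,z)}` (normal in `B`) acts trivially on `W`, `W` is the direct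
sum of the eigenspaces `W_m` of the characters `m ≠ 1` of `{u(x,0,0)}` (`m = 1` would give a vector
fixed by `U`), which are conjugate under the torus, so `dim W = (q-1) dim W_m`, `dim W_m` is odd and
`{t3 a a}` has a nonzero fixed vector in `W_m` (`parity_odd`), contradiction to `sl3_no_left`. The
same for `m₁ = 1`. -/
theorem sl3_noOdd (h2 : (2 : F) = 0) {ρ : Representation Ω (SpecialLinearGroup (Fin 3) F) V}
    (hρ : ρ.IsIrreducible) (hev : Even (Module.finrank Ω V)) (hsd : SD ρ)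
    (hB : ∀ v : V, (∀ b ∈ bor3 F, ρ b v = v) → v = 0) : NoOdd (rs (bor3 F) ρ) := by
  intro W hW hodd hsdW
  obtain ⟨k, _, hk⟩ := card_pow h2
  have hcard : Nat.card (uni3 F) = 2 ^ (k * 3) := by
    rw [card_uni3, hk, pow_mul]
  let S : Representation Ω (uni3 F) W.toSubmodule :=
    MonoidHom.comp W.toRepresentation (Subgroup.inclusion uni3_le)
  obtain ⟨x, hx0, hx⟩ := linear_of_two_group hcard (ρ := S) hodd
  have hx' : ∀ a b c, ∃ r : Ω, W.toRepresentation (ub a b c) x = r • x := by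
    intro a b c
    exact hx ⟨u3 a b c, ⟨(a, b, c), rfl⟩⟩
  obtain ⟨m₁, hm₁, hmx₁⟩ := exists_ac (ρ := W.toRepresentation) (fun a : F => ub a 0 0)
    (fun a b => by rw [ub_mul]; simp)
    (fun a => by rw [ub_mul, ← ub_zero, ← two_mul a, h2]; simp) hx0 (fun a => hx' a 0 0)
  obtain ⟨m₂, hm₂, hmx₂⟩ := exists_ac (ρ := W.toRepresentation) (fun a : F => ub 0 a 0)
    (fun a b => by rw [ub_mul]; simp)
    (fun a => by rw [ub_mul, ← ub_zero, ← two_mul a, h2]; simp) hx0 (fun a => hx' 0 a 0)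
  have hz : ∀ c, W.toRepresentation (ub 0 0 c) x = x := by
    intro c
    obtain ⟨r, hr⟩ := hx' 0 0 c
    have h3 : ub c 0 0 * ub 0 1 0 = ub 0 1 0 * ub c 0 0 * ub 0 0 c := by
      rw [ub_mul, ub_mul, ub_mul]
      simp
    have h4 := congrArg (fun g => W.toRepresentation g x) h3
    simp only [map_mul, Module.End.mul_apply] at h4
    rw [hr, hmx₂ 1, map_smul, hmx₁ c, map_smul, map_smul, hmx₁ c, map_smul, hmx₂ 1] at h4
    rw [smul_comm (((m₁ c : ℤˣ) : ℤ) : Ω) (((m₂ 1 : ℤˣ) : ℤ) : Ω) x, smul_smul, smul_smul] at h4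
    have h5 : ((((m₂ 1 : ℤˣ) : ℤ) : Ω) * (((m₁ c : ℤˣ) : ℤ) : Ω) -
        r * ((((m₂ 1 : ℤˣ) : ℤ) : Ω) * (((m₁ c : ℤˣ) : ℤ) : Ω))) • x = 0 := by
      rw [sub_smul, h4, sub_self]
    have h6 := (smul_eq_zero.1 h5).resolve_right hx0
    have e1 := sgn_sq (Ω := Ω) (m₁ c)
    have e2 := sgn_sq (Ω := Ω) (m₂ 1)
    have h7 : r = 1 := by
      have : (1 - r) * ((((m₁ c : ℤˣ) : ℤ) : Ω) * (((m₁ c : ℤˣ) : ℤ) : Ω)) *
          ((((m₂ 1 : ℤˣ) : ℤ) : Ω) * (((m₂ 1 : ℤˣ) : ℤ) : Ω)) = 0 := by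
        have := congrArg (fun t => t * (((m₁ c : ℤˣ) : ℤ) : Ω) * (((m₂ 1 : ℤˣ) : ℤ) : Ω)) h6
        simp only [zero_mul] at this
        rw [← this]
        ring
      rw [e1, e2, mul_one, mul_one, sub_eq_zero] at this
      exact this.symm
    rw [hr, h7, one_smul]
  have hgen : ∀ a b c, W.toRepresentation (ub a b c) x =
      (((m₁ a * m₂ b : ℤˣ) : ℤ) : Ω) • x := by
    intro a b c
    have h3 : ub a b c = ub 0 b 0 * ub a 0 0 * ub 0 0 c := by
      rw [ub_mul, ub_mul]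
      simp
    rw [h3, map_mul, map_mul, Module.End.mul_apply, Module.End.mul_apply, hz, hmx₁, map_smul,
      hmx₂, smul_smul, sgn_mul]
  by_cases n₂ : ∃ b, m₂ b ≠ 1
  · by_cases n₁ : ∃ a, m₁ a ≠ 1
    · have h := sl3_no_regular h2 hρ hev hsd hB hm₁ hm₂ n₁ n₂
      have h3 : (x : V) ∈ Dm ρ m₁ m₂ := fun a b c =>
        congrArg (fun z : W.toSubmodule => (z : V)) (hgen a b c)
      rw [h, Submodule.mem_bot] at h3
      exact hx0 (Subtype.ext h3)
    · push Not at n₁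
      refine no_R' h2 hρ hev hB hW hodd hsdW hx0 (fun a c => ?_)
      have h0 : m₂ 0 = 1 := by
        have h6 := hm₂ 0 0
        rw [add_zero] at h6
        exact left_eq_mul.1 h6
      rw [hgen, n₁, h0]
      simp
  · push Not at n₂
    refine no_R h2 hρ hev hB hW hodd hsdW hx0 (fun b c => ?_)
    have h0 : m₁ 0 = 1 := by
      have h6 := hm₁ 0 0
      rw [add_zero] at h6
      exact left_eq_mul.1 h6
    rw [hgen, n₂, h0]
    simp

end

end Parker
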