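import Pool.Agent.Parker.Defs
import Pool.Agent.Parker.P01
import Pool.Agent.Parker.P03
import Pool.Agent.Parker.P08
import Pool.Agent.Parker.P09
import Pool.Agent.Parker.P10
import Pool.Agent.Parker.P11
import Pool.Agent.Parker.P31
import Pool.Agent.Parker.P32
import Pool.Agent.Parker.X01

/-!
# MP_6c3636_al, module Y07: the Steinberg character (helper7)
-/

namespace Parker

open Matrix

universe u v w

noncomputable section

section General

variable {Ω : Type} [Field Ω] [IsAlgClosed Ω] [CharZero Ω] {G : Type u} [Group G] [Finite G]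
  {V : Type v} [AddCommGroup V] [Module Ω V] [FiniteDimensional Ω V]
  {W : Type w} [AddCommGroup W] [Module Ω W] [FiniteDimensional Ω W]

namespace Y07_aux

open Classical in
/-- the multiplicities in a representation with character `ρ + 2 τ` -/
theorem mul_two {U : Type*} [AddCommGroup U] [Module Ω U] [FiniteDimensional Ω U]
    {ρ : Representation Ω G V} {τ : Representation Ω G W} (hρ : ρ.IsIrreducible)
    (hτ : τ.IsIrreducible) (σ : Representation Ω G U)
    (hσ : ∀ g, σ.character g = ρ.character g + 2 * τ.character g) {φ : G → Ω}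
    (hφ : φ ∈ irr Ω G) :
    mul σ.character φ =
      (if ρ.character = φ then 1 else 0) + 2 * (if τ.character = φ then 1 else 0) := by
  have h0 : σ.character = ρ.character + (2 : Ω) • τ.character := by
    funext g
    rw [hσ, Pi.add_apply, Pi.smul_apply, smul_eq_mul]
  have h1 := mul_spec σ hφ
  rw [h0, ip_add_left, ip_smul_left, ip_irr (mem_irr.2 (mem_irrSet hρ)) hφ,
    ip_irr (mem_irr.2 (mem_irrSet hτ)) hφ, ← h0] at h1
  have h2 : ((mul σ.character φ : ℕ) : Ω) =
      (((if ρ.character = φ then 1 else 0) + 2 * (if τ.character = φ then 1 else 0) : ℕ) : Ω) := by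
    rw [h1]
    push_cast
    rfl
  exact_mod_cast h2

theorem det_two {U : Type*} [AddCommGroup U] [Module Ω U] [FiniteDimensional Ω U]
    {ρ : Representation Ω G V} {τ : Representation Ω G W} (hρ : ρ.IsIrreducible)
    (hτ : τ.IsIrreducible) (σ : Representation Ω G U)
    (hσ : ∀ g, σ.character g = ρ.character g + 2 * τ.character g) (s : G → Ω) :
    LinearMap.det (act σ s) = LinearMap.det (act ρ s) * LinearMap.det (act τ s) ^ 2 := by
  classical
  rw [det_eq_prod, ← detc_char hρ, ← detc_char hτ]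
  have h1 : ∏ φ ∈ irr Ω G, detc φ s ^ mul σ.character φ =
      (∏ φ ∈ irr Ω G, if ρ.character = φ then detc φ s else 1) *
        (∏ φ ∈ irr Ω G, if τ.character = φ then detc φ s ^ 2 else 1) := by
    rw [← Finset.prod_mul_distrib]
    refine Finset.prod_congr rfl fun φ hφ => ?_
    rw [mul_two hρ hτ σ hσ hφ, pow_add, pow_mul]
    by_cases h1 : ρ.character = φ <;> by_cases h2 : τ.character = φ <;> simp [h1, h2]
  rw [h1, Finset.prod_ite_eq, Finset.prod_ite_eq, if_pos (mem_irr.2 (mem_irrSet hρ)),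
    if_pos (mem_irr.2 (mem_irrSet hτ))]

end Y07_aux

/-- `X`, `Y` finite `G`-sets, `|X|` odd, `ρ`, `τ` irreducible of even degree, the character of `τ`
is `fix_Y - 1`, the character of `ρ` is `fix_X - 1 - 2 τ`. Then `ρ` is good for every `Γ`. (Take a
rational skew `s` with nonzero determinants in `ρ` and `τ`. The representation on the functions on
`X` with sum zero, in the basis of `P31_aux.tau` over `ℚ`, has the character `ρ + 2 τ`, so
`det_X(s) = det_ρ(s) det_τ(s)²`; `|X| det_X(s)` is a square in `ℚ` and `det_τ(s) ∈ ℚ`. So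
`|X| det_ρ(s)` is the square of a rational number.) -/
theorem good_perm2 (X : Type u) [Finite X] [MulAction G X] (Y : Type u) [Finite Y] [MulAction G Y]
    (hX : Odd (Nat.card X)) {Γ : Subgroup (RingAut Ω)} {c : Ctx Ω} {ρ : Representation Ω G V}
    {τ : Representation Ω G W} (hρ : ρ.IsIrreducible) (hτ : τ.IsIrreducible)
    (hev : Even (Module.finrank Ω V)) (hev' : Even (Module.finrank Ω W))
    (hτc : ∀ g, τ.character g = (fixp Y g : Ω) - 1)
    (hρc : ∀ g, ρ.character g = (fixp X g : Ω) - 1 - 2 * τ.character g) : GoodV c Γ ρ := by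
  classical
  let _ := Fintype.ofFinite X
  let _ := Fintype.ofFinite Y
  let _ := Fintype.ofFinite G
  obtain ⟨x₀⟩ : Nonempty X := (Nat.card_pos_iff.1 hX.pos).1
  obtain ⟨y₀⟩ : Nonempty Y := by
    by_contra hcon
    have hY : Nat.card Y = 0 := by
      rw [Nat.card_eq_zero]
      exact Or.inl (not_nonempty_iff.1 hcon)
    have h1 := hτc 1
    rw [Representation.char_one] at h1
    have h2 : fixp Y (1 : G) = 0 := by
      unfold fixp
      have : IsEmpty Y := not_nonempty_iff.1 hcon
      rw [Nat.card_eq_zero]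
      exact Or.inl inferInstance
    rw [h2] at h1
    have h3 : ((Module.finrank Ω W + 1 : ℕ) : Ω) = 0 := by
      push_cast
      rw [h1]
      push_cast
      ring
    push_cast at h3
    exact Nat.cast_add_one_ne_zero _ h3
  set σ := P31_aux.tau (G := G) Ω x₀ with hσdef
  have hσ : ∀ g, σ.character g = ρ.character g + 2 * τ.character g := by
    intro g
    rw [hρc, hσdef, P31_aux.tau_char]
    ring
  have hirrρ : ρ.character ∈ irr Ω G := mem_irr.2 (mem_irrSet hρ)
  have hirrτ : τ.character ∈ irr Ω G := mem_irr.2 (mem_irrSet hτ)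
  -- `ρ` is orthogonal
  have hsd : SD ρ := by
    intro g
    rw [hρc, hρc, hτc, hτc, P31_aux.fixp_inv, P31_aux.fixp_inv]
  have horth : Orth ρ := by
    rcases exists_form hρ hsd with h1 | ⟨b, hb1, hb2, hb3⟩
    · exact h1
    · exfalso
      have h2 := even_mul (P31_aux.tau_orth (G := G) Ω x₀) hρ hb1 hb2 hb3
      rw [← hσdef, Y07_aux.mul_two hρ hτ σ hσ hirrρ, if_pos rfl] at h2
      obtain ⟨k, hk⟩ := h2
      omega
  obtain ⟨B, hB⟩ := horth
  -- a rational skew element
  have hno : NoOdd σ := by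
    rw [noOdd_iff]
    intro φ hφ hm _
    rw [Y07_aux.mul_two hρ hτ σ hσ hφ] at hm
    by_cases h1 : ρ.character = φ
    · rw [← h1, dg_char]
      exact hev
    · by_cases h2 : τ.character = φ
      · rw [← h2, dg_char]
        exact hev'
      · exact absurd (by rw [if_neg h1, if_neg h2]) hm
  obtain ⟨s, hs, hd⟩ := exists_skew_rat hno
  have hdet := Y07_aux.det_two hρ hτ σ hσ (fun g => (s g : Ω))
  rw [hdet] at hd
  have hdρ : LinearMap.det (act ρ (fun g => (s g : Ω))) ≠ 0 := left_ne_zero_of_mul hd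
  have hdτ : LinearMap.det (act τ (fun g => (s g : Ω))) ≠ 0 :=
    pow_ne_zero_iff two_ne_zero |>.1 (right_ne_zero_of_mul hd)
  refine ⟨B, hB, act ρ (fun g => (s g : Ω)), ⟨_, fun g => fx_ratCast Γ _, rfl⟩,
    skew_of_skew hB (fun g => by rw [hs]; push_cast; rfl), hdρ, ?_⟩
  -- the determinant in `τ` is rational
  have hτ2 : τ.character = (P31_aux.tau (G := G) Ω y₀).character := by
    funext g
    rw [hτc, P31_aux.tau_char]
  have hτrat : LinearMap.det (act τ (fun g => (s g : Ω))) =
      (((∑ g, s g • P31_aux.R ℚ y₀ g).det : ℚ) : Ω) := by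
    rw [det_of_char hτ2, P31_aux.tau_det]
  set M : Matrix {x : X // x ≠ x₀} {x : X // x ≠ x₀} ℚ := ∑ g, s g • P31_aux.R ℚ x₀ g with hM
  have h1 : LinearMap.det (act σ (fun g => (s g : Ω))) = ((M.det : ℚ) : Ω) := by
    rw [hσdef, P31_aux.tau_det]
  have h2 : P31_aux.A ℚ x₀ * M = - (M.transpose * P31_aux.A ℚ x₀) := by
    rw [hM, Finset.mul_sum, Matrix.transpose_sum, Finset.sum_mul, ← Finset.sum_neg_distrib]
    refine Fintype.sum_equiv (Equiv.inv G) _ _ fun g => ?_
    rw [Equiv.inv_apply, Matrix.transpose_smul, Matrix.mul_smul, Matrix.smul_mul, P31_aux.A_R, hs,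
      neg_smul, neg_neg]
  obtain ⟨a, ha⟩ := det_skew_sq' (F := ℚ) (by norm_num) (P31_aux.A_symm ℚ x₀) h2
  rw [P31_aux.A_det] at ha
  set t : ℚ := (∑ g, s g • P31_aux.R ℚ y₀ g).det with ht
  have ht0 : (t : Ω) ≠ 0 := by rw [← hτrat]; exact hdτ
  have h3 : ((Fintype.card X : ℕ) : Ω) * LinearMap.det (act ρ (fun g => (s g : Ω))) =
      ((a / t : ℚ) : Ω) ^ 2 := by
    have h4 : ((Fintype.card X : ℕ) : Ω) * (LinearMap.det (act ρ (fun g => (s g : Ω))) *
        (t : Ω) ^ 2) = (a : Ω) ^ 2 := by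
      rw [← hτrat, ← hdet, h1]
      exact_mod_cast congrArg (fun q : ℚ => (q : Ω)) ha
    rw [Rat.cast_div, div_pow, ← h4]
    field_simp
  have hN : c.av ((Fintype.card X : ℕ) : Ω) = 1 :=
    c.odd _ (by rw [← Nat.card_eq_fintype_card]; exact hX)
  have hN0 : ((Fintype.card X : ℕ) : Ω) ≠ 0 := by
    intro h0
    rw [h0, map_zero] at hN
    exact zero_ne_one hN
  refine ⟨((a / t : ℚ) : Ω), ?_, fx_ratCast Γ _, ?_⟩
  · intro h0
    rw [h0, zero_pow two_ne_zero] at h3
    exact (mul_ne_zero hN0 hdρ) h3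
  · rw [← map_pow, ← h3, map_mul, hN, one_mul]

end General

variable {F : Type} [Field F] [Fintype F] {Ω : Type} [Field Ω] [IsAlgClosed Ω] [CharZero Ω]
  {V : Type v} [AddCommGroup V] [Module Ω V] [FiniteDimensional Ω V]

namespace Y07_aux

section perm

variable {G : Type u} [Group G] {X : Type v} [MulAction G X] {Z : Type w} [MulAction G Z]

theorem sum_fixp_mul [Fintype G] [Fintype X] [Fintype Z] :
    ∑ g : G, fixp X g * fixp Z g =
      Nat.card (Quotient (MulAction.orbitRel G (X × Z))) * Nat.card G := by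
  classical
  let _ := Fintype.ofFinite (Quotient (MulAction.orbitRel G (X × Z)))
  have h := MulAction.sum_card_fixedBy_eq_card_orbits_mul_card_group G (X × Z)
  rw [Nat.card_eq_fintype_card, Nat.card_eq_fintype_card, ← h]
  refine Finset.sum_congr rfl fun g _ => ?_
  rw [← Nat.card_eq_fintype_card]
  unfold fixp
  rw [← Nat.card_prod]
  refine Nat.card_congr ⟨fun p => ⟨(p.1.1, p.2.1), Prod.ext p.1.2 p.2.2⟩,
    fun p => (⟨p.1.1, congrArg Prod.fst p.2⟩, ⟨p.1.2, congrArg Prod.snd p.2⟩),
    fun p => rfl, fun p => rfl⟩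

end perm

omit [Fintype F] in
theorem mem_bor3_iff {g : SpecialLinearGroup (Fin 3) F} :
    g ∈ bor3 F ↔ g.1 1 0 = 0 ∧ g.1 2 0 = 0 ∧ g.1 2 1 = 0 := Iff.rfl

omit [Fintype F] in
theorem mem_par1_iff {g : SpecialLinearGroup (Fin 3) F} :
    g ∈ par1 F ↔ g.1 1 0 = 0 ∧ g.1 2 0 = 0 := Iff.rfl

omit [Fintype F] in
theorem bor3_le_par1 : bor3 F ≤ par1 F := fun _ hg => ⟨hg.1, hg.2.1⟩

omit [Fintype F] in
theorem diag_ne {g : SpecialLinearGroup (Fin 3) F} (hg : g ∈ bor3 F) :
    g.1 0 0 ≠ 0 ∧ g.1 1 1 ≠ 0 ∧ g.1 2 2 ≠ 0 := by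
  obtain ⟨h1, h2, h3⟩ := hg
  have hd := g.2
  rw [Matrix.det_fin_three, h1, h2, h3] at hd
  refine ⟨fun h => ?_, fun h => ?_, fun h => ?_⟩ <;> rw [h] at hd <;> simp at hd

omit [Fintype F] in
theorem ur_mem (y : F) : u3 0 y 0 * r3 F ∈ par1 F := by
  rw [mem_par1]
  exact Or.inr ⟨y, 1, Subgroup.one_mem _, by rw [mul_one]⟩

omit [Fintype F] in
theorem ur_coe (y : F) : (u3 0 y 0 * r3 F).1 = !![1, 0, 0; 0, -y, 1; 0, -1, 0] := by
  show (u3 0 y 0).1 * (r3 F).1 = _
  ext i j
  fin_cases i <;> fin_cases j <;> simp [u3, r3, Matrix.mul_apply, Fin.sum_univ_three]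

omit [Fintype F] in
theorem ur_not_mem (y : F) : u3 0 y 0 * r3 F ∉ bor3 F := by
  intro h
  have h1 := h.2.2
  rw [ur_coe] at h1
  simp at h1

omit [Fintype F] in
theorem ur_inj {y y' : F} (h : (u3 0 y 0 * r3 F)⁻¹ * (u3 0 y' 0 * r3 F) ∈ bor3 F) : y = y' := by
  obtain ⟨b, hb⟩ : ∃ b, b = (u3 0 y 0 * r3 F)⁻¹ * (u3 0 y' 0 * r3 F) := ⟨_, rfl⟩
  rw [← hb] at h
  have h1 : u3 0 y' 0 * r3 F = u3 0 y 0 * r3 F * b := by rw [hb]; group
  obtain ⟨e1, e2, e3⟩ := h
  have h4 : (u3 0 y' 0 * r3 F).1 = (u3 0 y 0 * r3 F).1 * b.1 := by rw [h1]; rfl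
  rw [ur_coe, ur_coe] at h4
  have h2 := congrFun (congrFun h4 1) 1
  have h3 := congrFun (congrFun h4 2) 1
  simp [Matrix.mul_apply, Fin.sum_univ_three, e3] at h2 h3
  rw [← h3] at h2
  simpa using h2.symm

/-- the cosets of the Borel subgroup in `par1` -/
def cosetMap (o : Option F) : par1 F ⧸ (bor3 F).subgroupOf (par1 F) :=
  match o with
  | none => QuotientGroup.mk 1
  | some y => QuotientGroup.mk ⟨u3 0 y 0 * r3 F, ur_mem y⟩

omit [Fintype F] in
theorem cosetMap_bij : Function.Bijective (cosetMap (F := F)) := by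
  constructor
  · intro o o' h
    rcases o with _ | y <;> rcases o' with _ | y'
    · rfl
    · exfalso
      have h1 := QuotientGroup.eq.1 h
      rw [Subgroup.mem_subgroupOf] at h1
      refine ur_not_mem y' ?_
      simpa using h1
    · exfalso
      have h1 := QuotientGroup.eq.1 h.symm
      rw [Subgroup.mem_subgroupOf] at h1
      refine ur_not_mem y ?_
      simpa using h1
    · have h1 := QuotientGroup.eq.1 h
      rw [Subgroup.mem_subgroupOf] at h1
      rw [ur_inj (y := y) (y' := y') (by simpa using h1)]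
  · intro q
    induction q using QuotientGroup.induction_on with
    | H g =>
      obtain ⟨g, hg⟩ := g
      rcases mem_par1.1 hg with h1 | ⟨y, b, hb, h1⟩
      · refine ⟨none, QuotientGroup.eq.2 ?_⟩
        rw [Subgroup.mem_subgroupOf]
        simpa using h1
      · refine ⟨some y, QuotientGroup.eq.2 ?_⟩
        rw [Subgroup.mem_subgroupOf]
        have h2 : (u3 0 y 0 * r3 F)⁻¹ * g = b := by rw [h1]; group
        have h3 : ((u3 0 y 0 * r3 F)⁻¹ * g) ∈ bor3 F := by rw [h2]; exact hb
        simpa using h3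

/-- representatives of the double cosets -/
def wmap (F : Type) [Field F] : Fin 6 → SpecialLinearGroup (Fin 3) F :=
  ![1, s3 F, r3 F, s3 F * r3 F, r3 F * s3 F, s3 F * r3 F * s3 F]

omit [Fintype F] in
theorem orbits_le : Nat.card (Quotient (MulAction.orbitRel (SpecialLinearGroup (Fin 3) F)
    ((SpecialLinearGroup (Fin 3) F ⧸ bor3 F) × (SpecialLinearGroup (Fin 3) F ⧸ bor3 F)))) ≤ 6 := by
  have hsurj : Function.Surjective (fun i : Fin 6 =>
      (Quotient.mk (MulAction.orbitRel (SpecialLinearGroup (Fin 3) F)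
        ((SpecialLinearGroup (Fin 3) F ⧸ bor3 F) × (SpecialLinearGroup (Fin 3) F ⧸ bor3 F)))
        ((QuotientGroup.mk 1 : SpecialLinearGroup (Fin 3) F ⧸ bor3 F),
          (QuotientGroup.mk (wmap F i) : SpecialLinearGroup (Fin 3) F ⧸ bor3 F)))) := by
    intro q
    induction q using Quotient.inductionOn with
    | h p =>
      obtain ⟨x, y⟩ := p
      induction x using QuotientGroup.induction_on with
      | H g =>
      induction y using QuotientGroup.induction_on with
      | H h =>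
        obtain ⟨u, hu, b, hb, hw⟩ := bruhat3 (g⁻¹ * h)
        have hw' : ∃ i, g⁻¹ * h = u * wmap F i * b := by
          rcases hw with h1 | h1 | h1 | h1 | h1 | h1
          · exact ⟨0, by rw [h1]; simp [wmap]⟩
          · exact ⟨1, by rw [h1]; simp [wmap]⟩
          · exact ⟨2, by rw [h1]; simp [wmap]⟩
          · exact ⟨3, by rw [h1]; simp [wmap]⟩
          · exact ⟨4, by rw [h1]; simp [wmap]⟩
          · exact ⟨5, by rw [h1]; simp [wmap]⟩
        obtain ⟨i, hi⟩ := hw'
        refine ⟨i, Quotient.sound ?_⟩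
        refine (MulAction.orbitRel (SpecialLinearGroup (Fin 3) F) _).symm ?_
        refine ⟨g * u, Prod.ext ?_ ?_⟩
        · show (QuotientGroup.mk (g * u * 1) : SpecialLinearGroup (Fin 3) F ⧸ bor3 F) =
            QuotientGroup.mk g
          rw [QuotientGroup.eq]
          have h2 : (g * u * 1)⁻¹ * g = u⁻¹ := by group
          rw [h2]
          exact (bor3 F).inv_mem (uni3_le hu)
        · show (QuotientGroup.mk (g * u * wmap F i) : SpecialLinearGroup (Fin 3) F ⧸ bor3 F) =
            QuotientGroup.mk h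
          rw [QuotientGroup.eq]
          have h2 : h = g * (u * wmap F i * b) := by rw [← hi]; group
          have h3 : (g * u * wmap F i)⁻¹ * h = b := by rw [h2]; group
          rw [h3]
          exact hb
  have h := Nat.card_le_card_of_surjective _ hsurj
  simpa using h

/-- the first columns -/
def wmap3 (F : Type) [Field F] : Fin 3 → SpecialLinearGroup (Fin 3) F :=
  ![1, s3 F, r3 F * s3 F]

omit [Fintype F] in
theorem wmap3_col (i j : Fin 3) : (wmap3 F i).1 j 0 = if j = i then (if i = 1 then -1 else 1) else 0 := by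
  have h2 : (r3 F * s3 F).1 = !![0, 1, 0; 0, 0, 1; 1, 0, 0] := by
    show (r3 F).1 * (s3 F).1 = _
    ext i j
    fin_cases i <;> fin_cases j <;> simp [s3, r3, Matrix.mul_apply, Fin.sum_univ_three]
  fin_cases i
  · show (1 : SpecialLinearGroup (Fin 3) F).1 j 0 = _
    fin_cases j <;> simp
  · show (s3 F).1 j 0 = _
    fin_cases j <;> simp [s3]
  · show (r3 F * s3 F).1 j 0 = _
    rw [h2]
    fin_cases j <;> simp

omit [Fintype F] in
theorem wmap3_inj {g : SpecialLinearGroup (Fin 3) F} (hg : g ∈ bor3 F) {i j : Fin 3}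
    (h : (wmap3 F j)⁻¹ * (g * wmap3 F i) ∈ par1 F) : i = j := by
  obtain ⟨p, hp⟩ : ∃ p, p = (wmap3 F j)⁻¹ * (g * wmap3 F i) := ⟨_, rfl⟩
  rw [← hp] at h
  have h1 : g * wmap3 F i = wmap3 F j * p := by rw [hp]; group
  obtain ⟨e1, e2⟩ := h
  obtain ⟨d0, d1, d2⟩ := diag_ne hg
  obtain ⟨g1, g2, g3⟩ := hg
  have h4 : g.1 * (wmap3 F i).1 = (wmap3 F j).1 * p.1 := by
    have := congrArg (fun m : SpecialLinearGroup (Fin 3) F => m.1) h1
    exact this
  have c0 := congrFun (congrFun h4 0) 0
  have c1 := congrFun (congrFun h4 1) 0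
  have c2 := congrFun (congrFun h4 2) 0
  simp only [Matrix.mul_apply, Fin.sum_univ_three, wmap3_col, e1, e2, g1, g2, g3] at c0 c1 c2
  fin_cases i <;> fin_cases j <;> simp at c0 c1 c2 ⊢ <;> simp_all

theorem orbits_ge : 3 ≤ Nat.card (Quotient (MulAction.orbitRel (SpecialLinearGroup (Fin 3) F)
    ((SpecialLinearGroup (Fin 3) F ⧸ bor3 F) × (SpecialLinearGroup (Fin 3) F ⧸ par1 F)))) := by
  have hinj : Function.Injective (fun i : Fin 3 =>
      (Quotient.mk (MulAction.orbitRel (SpecialLinearGroup (Fin 3) F)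
        ((SpecialLinearGroup (Fin 3) F ⧸ bor3 F) × (SpecialLinearGroup (Fin 3) F ⧸ par1 F)))
        ((QuotientGroup.mk 1 : SpecialLinearGroup (Fin 3) F ⧸ bor3 F),
          (QuotientGroup.mk (wmap3 F i) : SpecialLinearGroup (Fin 3) F ⧸ par1 F)))) := by
    intro i j h
    obtain ⟨g, hg⟩ := Quotient.exact h
    have h1 : (QuotientGroup.mk (g * 1) : SpecialLinearGroup (Fin 3) F ⧸ bor3 F) =
        QuotientGroup.mk 1 := congrArg Prod.fst hg
    have h2 : (QuotientGroup.mk (g * wmap3 F j) : SpecialLinearGroup (Fin 3) F ⧸ par1 F) =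
        QuotientGroup.mk (wmap3 F i) := congrArg Prod.snd hg
    have h3 : g ∈ bor3 F := by
      have := QuotientGroup.eq.1 h1.symm
      simpa using this
    have h4 := QuotientGroup.eq.1 h2.symm
    exact (wmap3_inj h3 h4).symm
  have h := Nat.card_le_card_of_injective _ hinj
  simpa using h

omit [Fintype F] in
theorem par1_trans : (∀ x y : SpecialLinearGroup (Fin 3) F ⧸ par1 F,
    ∃ g : SpecialLinearGroup (Fin 3) F, g • x = y) ∧
    ∃ x₁ : SpecialLinearGroup (Fin 3) F ⧸ par1 F, x₁ ≠ QuotientGroup.mk 1 ∧ True := by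
  refine ⟨fun x y => MulAction.exists_smul_eq _ x y, QuotientGroup.mk (s3 F), ?_, trivial⟩
  intro h
  have h1 := QuotientGroup.eq.1 h.symm
  have h2 : s3 F ∈ par1 F := by simpa using h1
  have h3 := h2.1
  simp [s3] at h3

/-- multiplicities: `∑ mult² = ⟨χ, χ⟩` -/
theorem sum_mul_sq {G : Type u} [Group G] [Finite G] (ρ : Representation Ω G V) :
    ((∑ φ ∈ irr Ω G, mul ρ.character φ ^ 2 : ℕ) : Ω) = ip ρ.character ρ.character := by
  have h1 : ip ρ.character ρ.character =
      ip (∑ φ ∈ irr Ω G, (mul ρ.character φ : Ω) • φ) ρ.character :=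
    congrArg (fun f => ip f ρ.character) (char_eq_sum ρ)
  rw [h1, ip_sum_left, Nat.cast_sum]
  refine Finset.sum_congr rfl fun φ hφ => ?_
  rw [ip_smul_left, ip_comm, ← mul_spec ρ hφ, Nat.cast_pow, sq]

theorem small_sum {x y z : ℕ} (hx : 1 ≤ x) (hy : 2 ≤ y) (h : x ^ 2 + (y ^ 2 + z) ≤ 5) :
    x = 1 ∧ y = 2 ∧ z = 0 := by
  have h1 : x < 2 := by
    by_contra hcon
    push Not at hcon
    nlinarith
  have h2 : y < 3 := by
    by_contra hcon
    push Not at hcon
    nlinarith
  have h3 : x = 1 := by omega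
  have h4 : y = 2 := by omega
  subst h3 h4
  omega

end Y07_aux

/-- the number of flags `(q+1)(q²+q+1)` is odd -/
theorem card_flags : Nat.card (SpecialLinearGroup (Fin 3) F ⧸ bor3 F) =
    (Fintype.card F + 1) * (Fintype.card F ^ 2 + Fintype.card F + 1) := by
  have h1 := Subgroup.relIndex_mul_index (Y07_aux.bor3_le_par1 (F := F))
  have h2 : (bor3 F).relIndex (par1 F) = Fintype.card F + 1 := by
    rw [Subgroup.relIndex, Subgroup.index,
      ← Nat.card_congr (Equiv.ofBijective _ (Y07_aux.cosetMap_bij (F := F)))]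
    simp
  have h3 : (par1 F).index = Fintype.card F ^ 2 + Fintype.card F + 1 := by
    rw [Subgroup.index, card_quot_par1, Nat.card_eq_fintype_card]
  rw [h2, h3] at h1
  rw [h1]
  rfl

/-- the character of degree `q² + q`: irreducible -/
theorem exists_plane : ∃ (n : ℕ) (τ : Representation Ω (SpecialLinearGroup (Fin 3) F)
    (Fin n → Ω)), τ.IsIrreducible ∧ n = Fintype.card F ^ 2 + Fintype.card F ∧
      ∀ g, τ.character g = (fixp (SpecialLinearGroup (Fin 3) F ⧸ par1 F) g : Ω) - 1 := by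
  classical
  let _ := Fintype.ofFinite (SpecialLinearGroup (Fin 3) F ⧸ par1 F)
  have hcard : Fintype.card (SpecialLinearGroup (Fin 3) F ⧸ par1 F) =
      Fintype.card F ^ 2 + Fintype.card F + 1 := by
    rw [← Nat.card_eq_fintype_card, card_quot_par1, Nat.card_eq_fintype_card]
  have hq : 0 < Fintype.card F := Fintype.card_pos
  set x₀ : SpecialLinearGroup (Fin 3) F ⧸ par1 F := QuotientGroup.mk 1 with hx₀
  obtain ⟨htr, x₁, hne, -⟩ := Y07_aux.par1_trans (F := F)
  have hirr := P31_aux.tau_irr (Ω := Ω) x₀ htr par1_two_trans hne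
  obtain ⟨τ, ⟨e⟩⟩ := exists_fin (P31_aux.tau (G := SpecialLinearGroup (Fin 3) F) Ω x₀)
  refine ⟨_, τ, equiv_irr e hirr, ?_, fun g => ?_⟩
  · rw [Module.finrank_fintype_fun_eq_card, Fintype.card_subtype_compl, hcard]
    simp
  · rw [← P31_aux.tau_char Ω x₀, ← Representation.char_iso e]

/-- Let `ρ` be irreducible with a nonzero vector fixed by the Borel subgroup and no nonzero vector
fixed by `par1`. Then its character is `fix_flags - 1 - 2 τ` with `τ = fix_points - 1`, or it is
`fix_lines - 1`... more precisely, if it also has no nonzero vector fixed by `par2`, it is the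
Steinberg character.

Proof: let `Y` be the permutation character on the flags. `⟨Y, Y⟩` is the number of orbits on the
pairs of flags, at most `6` by `bruhat3`. The multiplicity of an irreducible character `χ` in `Y` is
the dimension of the space of vectors fixed by the Borel subgroup. It is at least `1` for `χ = 1`,
at least `2` for `χ = τ` (the Borel subgroup has at least three orbits on the points) and at least
`1` for `ρ`, and `1`, `τ`, `ρ` are different since `ρ` has no vectors fixed by `par1`. Since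
`⟨Y, Y⟩ = ∑ mult² ≤ 6` these are all constituents, with multiplicities `1`, `2`, `1`. -/
theorem st_char {ρ : Representation Ω (SpecialLinearGroup (Fin 3) F) V} (hρ : ρ.IsIrreducible)
    {v : V} (hv0 : v ≠ 0) (hv : ∀ b ∈ bor3 F, ρ b v = v)
    (h1 : ∀ x : V, (∀ g ∈ par1 F, ρ g x = x) → x = 0) (g : SpecialLinearGroup (Fin 3) F) :
    ρ.character g = (fixp (SpecialLinearGroup (Fin 3) F ⧸ bor3 F) g : Ω) - 1 -
      2 * ((fixp (SpecialLinearGroup (Fin 3) F ⧸ par1 F) g : Ω) - 1) := by
  classical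
  let _ := Fintype.ofFinite (SpecialLinearGroup (Fin 3) F)
  let _ := Fintype.ofFinite (SpecialLinearGroup (Fin 3) F ⧸ par1 F)
  let _ := Fintype.ofFinite (SpecialLinearGroup (Fin 3) F ⧸ bor3 F)
  have hN : (Nat.card (SpecialLinearGroup (Fin 3) F) : Ω) ≠ 0 := by
    exact_mod_cast Nat.card_pos.ne'
  obtain ⟨htr, p₁, hne, -⟩ := Y07_aux.par1_trans (F := F)
  have htrX : ∀ x y : SpecialLinearGroup (Fin 3) F ⧸ bor3 F,
      ∃ g : SpecialLinearGroup (Fin 3) F, g • x = y := fun x y => MulAction.exists_smul_eq _ x y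
  set x₀ : SpecialLinearGroup (Fin 3) F ⧸ bor3 F := QuotientGroup.mk 1 with hx₀
  set p₀ : SpecialLinearGroup (Fin 3) F ⧸ par1 F := QuotientGroup.mk 1 with hp₀
  -- the sums
  have e1 : ∑ g : SpecialLinearGroup (Fin 3) F,
      fixp (SpecialLinearGroup (Fin 3) F ⧸ bor3 F) g = Nat.card (SpecialLinearGroup (Fin 3) F) := by
    rw [P31_aux.sum_fixp htrX x₀, Nat.card_eq_fintype_card]
  have e2 : ∑ g : SpecialLinearGroup (Fin 3) F,
      fixp (SpecialLinearGroup (Fin 3) F ⧸ par1 F) g = Nat.card (SpecialLinearGroup (Fin 3) F) := by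
    rw [P31_aux.sum_fixp htr p₀, Nat.card_eq_fintype_card]
  have e3 : ∑ g : SpecialLinearGroup (Fin 3) F,
      fixp (SpecialLinearGroup (Fin 3) F ⧸ par1 F) g ^ 2 =
        2 * Nat.card (SpecialLinearGroup (Fin 3) F) := by
    rw [P31_aux.sum_fixp_sq htr par1_two_trans hne, Nat.card_eq_fintype_card]
  have e4 := Y07_aux.sum_fixp_mul (G := SpecialLinearGroup (Fin 3) F)
    (X := SpecialLinearGroup (Fin 3) F ⧸ bor3 F) (Z := SpecialLinearGroup (Fin 3) F ⧸ bor3 F)
  have e5 := Y07_aux.sum_fixp_mul (G := SpecialLinearGroup (Fin 3) F)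
    (X := SpecialLinearGroup (Fin 3) F ⧸ bor3 F) (Z := SpecialLinearGroup (Fin 3) F ⧸ par1 F)
  have ha := Y07_aux.orbits_le (F := F)
  have hb := Y07_aux.orbits_ge (F := F)
  set a := Nat.card (Quotient (MulAction.orbitRel (SpecialLinearGroup (Fin 3) F)
    ((SpecialLinearGroup (Fin 3) F ⧸ bor3 F) × (SpecialLinearGroup (Fin 3) F ⧸ bor3 F))))
  set b := Nat.card (Quotient (MulAction.orbitRel (SpecialLinearGroup (Fin 3) F)
    ((SpecialLinearGroup (Fin 3) F ⧸ bor3 F) × (SpecialLinearGroup (Fin 3) F ⧸ par1 F))))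
  set N := Nat.card (SpecialLinearGroup (Fin 3) F)
  have c1 : ∑ g : SpecialLinearGroup (Fin 3) F,
      (fixp (SpecialLinearGroup (Fin 3) F ⧸ bor3 F) g : Ω) = N := by
    exact_mod_cast congrArg (Nat.cast (R := Ω)) e1
  have c2 : ∑ g : SpecialLinearGroup (Fin 3) F,
      (fixp (SpecialLinearGroup (Fin 3) F ⧸ par1 F) g : Ω) = N := by
    exact_mod_cast congrArg (Nat.cast (R := Ω)) e2
  have c3 : ∑ g : SpecialLinearGroup (Fin 3) F,
      (fixp (SpecialLinearGroup (Fin 3) F ⧸ par1 F) g : Ω) ^ 2 = 2 * N := by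
    exact_mod_cast congrArg (Nat.cast (R := Ω)) e3
  have c4 : ∑ g : SpecialLinearGroup (Fin 3) F,
      (fixp (SpecialLinearGroup (Fin 3) F ⧸ bor3 F) g : Ω) *
        (fixp (SpecialLinearGroup (Fin 3) F ⧸ bor3 F) g : Ω) = a * N := by
    exact_mod_cast congrArg (Nat.cast (R := Ω)) e4
  have c5 : ∑ g : SpecialLinearGroup (Fin 3) F,
      (fixp (SpecialLinearGroup (Fin 3) F ⧸ bor3 F) g : Ω) *
        (fixp (SpecialLinearGroup (Fin 3) F ⧸ par1 F) g : Ω) = b * N := by
    exact_mod_cast congrArg (Nat.cast (R := Ω)) e5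
  have c0 : ∑ _g : SpecialLinearGroup (Fin 3) F, (1 : Ω) = N := by
    simp [N, Nat.card_eq_fintype_card]
  obtain ⟨n, τ, hτ, -, hτc⟩ := exists_plane (F := F) (Ω := Ω)
  set σ := P31_aux.tau (G := SpecialLinearGroup (Fin 3) F) Ω x₀ with hσdef
  have hσc : ∀ g, σ.character g =
      (fixp (SpecialLinearGroup (Fin 3) F ⧸ bor3 F) g : Ω) - 1 := fun g => by
    rw [hσdef, P31_aux.tau_char]
  have hirrρ := mem_irr.2 (mem_irrSet hρ)
  have hirrτ := mem_irr.2 (mem_irrSet hτ)
  -- norm of `σ`
  have m1 : ip σ.character σ.character = (a : Ω) - 1 := by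
    rw [ip_eq]
    simp only [hσc, P31_aux.fixp_inv]
    have h2 : ∑ g : SpecialLinearGroup (Fin 3) F,
        ((fixp (SpecialLinearGroup (Fin 3) F ⧸ bor3 F) g : Ω) - 1) *
          ((fixp (SpecialLinearGroup (Fin 3) F ⧸ bor3 F) g : Ω) - 1) = a * N - N - N + N := by
      rw [← c4]
      nth_rewrite 1 [← c1]
      nth_rewrite 1 [← c1]
      rw [← c0, ← Finset.sum_sub_distrib, ← Finset.sum_sub_distrib, ← Finset.sum_add_distrib]
      exact Finset.sum_congr rfl fun g _ => by ring
    rw [h2]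
    field_simp
    ring
  -- multiplicity of `τ` in `σ`
  have m2 : (mul σ.character τ.character : Ω) = (b : Ω) - 1 := by
    rw [mul_spec σ hirrτ, ip_eq]
    simp only [hσc, hτc, P31_aux.fixp_inv]
    have h2 : ∑ g : SpecialLinearGroup (Fin 3) F,
        ((fixp (SpecialLinearGroup (Fin 3) F ⧸ bor3 F) g : Ω) - 1) *
          ((fixp (SpecialLinearGroup (Fin 3) F ⧸ par1 F) g : Ω) - 1) = b * N - N - N + N := by
      rw [← c5]
      nth_rewrite 1 [← c1]
      nth_rewrite 1 [← c2]
      rw [← c0, ← Finset.sum_sub_distrib, ← Finset.sum_sub_distrib, ← Finset.sum_add_distrib]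
      exact Finset.sum_congr rfl fun g _ => by ring
    rw [h2]
    field_simp
    ring
  -- no vectors fixed by `par1`
  have d1 : ∑ g : SpecialLinearGroup (Fin 3) F,
      ρ.character g * (fixp (SpecialLinearGroup (Fin 3) F ⧸ par1 F) g : Ω) = 0 := by
    rw [P31_aux.sum_char_fixp, Nat.cast_eq_zero, Finset.sum_eq_zero_iff]
    intro x _
    have h2 : Representation.invariants
        (rs (MulAction.stabilizer (SpecialLinearGroup (Fin 3) F) x) ρ) = ⊥ := by
      rw [Submodule.eq_bot_iff]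
      intro y hy
      obtain ⟨k, hk⟩ := htr p₀ x
      have h3 : ρ k⁻¹ y = 0 := by
        refine h1 _ fun g hg => ?_
        have h4 : k * g * k⁻¹ ∈ MulAction.stabilizer (SpecialLinearGroup (Fin 3) F) x := by
          rw [MulAction.mem_stabilizer_iff, ← hk, mul_smul, mul_smul, inv_smul_smul]
          congr 1
          show (QuotientGroup.mk (g * 1) : SpecialLinearGroup (Fin 3) F ⧸ par1 F) =
            QuotientGroup.mk 1
          rw [eq_comm, QuotientGroup.eq]
          simpa using hg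
        have h5 : ρ (k * g * k⁻¹) y = y := hy ⟨_, h4⟩
        have h6 : ρ k⁻¹ (ρ (k * g * k⁻¹) y) = ρ g (ρ k⁻¹ y) := by
          rw [← Module.End.mul_apply, ← Module.End.mul_apply, ← map_mul, ← map_mul]
          congr 2
          group
        rw [← h6, h5]
      have h7 : ρ k (ρ k⁻¹ y) = y := by
        rw [← Module.End.mul_apply, ← map_mul, mul_inv_cancel, map_one]
        rfl
      rw [← h7, h3, map_zero]
    rw [h2]
    simp
  have d2 : ρ.character ≠ fun _ => 1 := by
    intro h2
    rw [h2] at d1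
    simp only [one_mul] at d1
    rw [c2] at d1
    exact hN d1
  have d3 : ρ.character ≠ τ.character := by
    intro h2
    have h3 : ∑ g : SpecialLinearGroup (Fin 3) F,
        ρ.character g * (fixp (SpecialLinearGroup (Fin 3) F ⧸ par1 F) g : Ω) = 2 * N - N := by
      rw [← c3]
      nth_rewrite 1 [← c2]
      rw [← Finset.sum_sub_distrib]
      refine Finset.sum_congr rfl fun g _ => ?_
      rw [h2, hτc]
      ring
    rw [d1] at h3
    apply hN
    linear_combination -h3
  obtain ⟨ι, hι, hι1⟩ : ∃ ι : Representation Ω (SpecialLinearGroup (Fin 3) F) Ω,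
      ι.IsIrreducible ∧ ∀ g, ι.character g = 1 := by
    refine ⟨1, ?_, ?_⟩
    · refine irr_of_sub (by rw [Module.finrank_self]; exact one_pos) fun U _ => ?_
      exact eq_bot_or_eq_top U
    · intro g
      show LinearMap.trace Ω Ω (1 : Module.End Ω Ω) = 1
      rw [LinearMap.trace_one, Module.finrank_self, Nat.cast_one]
  have d4 : ∑ g : SpecialLinearGroup (Fin 3) F, ρ.character g = 0 := by
    have h2 := ip_of_ne hρ hι (by rw [show ι.character = fun _ => 1 from funext hι1]; exact d2)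
    rw [ip_eq] at h2
    simp only [hι1, mul_one] at h2
    exact (mul_eq_zero.1 h2).resolve_left (inv_ne_zero hN)
  have d5 : ∑ g : SpecialLinearGroup (Fin 3) F,
      ρ.character g * (fixp (SpecialLinearGroup (Fin 3) F ⧸ bor3 F) g : Ω) ≠ 0 := by
    rw [P31_aux.sum_char_fixp, Ne, Nat.cast_eq_zero, Finset.sum_eq_zero_iff]
    intro h2
    have h3 := h2 x₀ (Finset.mem_univ _)
    rcases Nat.mul_eq_zero.1 h3 with h4 | h4
    · exact absurd h4 Nat.card_pos.ne'
    · rw [Submodule.finrank_eq_zero] at h4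
      have h5 : v ∈ Representation.invariants
          (rs (MulAction.stabilizer (SpecialLinearGroup (Fin 3) F) x₀) ρ) := by
        rintro ⟨g, hg⟩
        refine hv g ?_
        have h6 : (QuotientGroup.mk (g * 1) : SpecialLinearGroup (Fin 3) F ⧸ bor3 F) =
          QuotientGroup.mk 1 := hg
        rw [eq_comm, QuotientGroup.eq] at h6
        simpa using h6
      rw [h4] at h5
      exact hv0 ((Submodule.mem_bot Ω).1 h5)
  have m3 : mul σ.character ρ.character ≠ 0 := by
    intro h2
    have h3 := mul_spec σ hirrρ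
    rw [h2, ip_comm, ip_eq] at h3
    simp only [hσc, P31_aux.fixp_inv, mul_sub, mul_one, Finset.sum_sub_distrib, d4] at h3
    rw [mul_zero, sub_zero, Nat.cast_zero] at h3
    exact (mul_ne_zero (inv_ne_zero hN) d5) h3.symm
  -- conclusion
  have m2' : mul σ.character τ.character + 1 = b := by
    have : ((mul σ.character τ.character + 1 : ℕ) : Ω) = (b : Ω) := by
      push_cast
      rw [m2]
      ring
    exact_mod_cast this
  have m1' : ∑ φ ∈ irr Ω (SpecialLinearGroup (Fin 3) F), mul σ.character φ ^ 2 + 1 = a := by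
    have : ((∑ φ ∈ irr Ω (SpecialLinearGroup (Fin 3) F), mul σ.character φ ^ 2 + 1 : ℕ) : Ω) =
        (a : Ω) := by
      rw [Nat.cast_add, Y07_aux.sum_mul_sq, m1]
      push_cast
      ring
    exact_mod_cast this
  set S := irr Ω (SpecialLinearGroup (Fin 3) F) with hS
  have hτS : τ.character ∈ S.erase ρ.character := Finset.mem_erase.2 ⟨d3.symm, hirrτ⟩
  have s1 : ∑ φ ∈ S, mul σ.character φ ^ 2 = mul σ.character ρ.character ^ 2 +
      (mul σ.character τ.character ^ 2 +
        ∑ φ ∈ (S.erase ρ.character).erase τ.character, mul σ.character φ ^ 2) := by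
    rw [Finset.add_sum_erase _ (fun φ => mul σ.character φ ^ 2) hτS,
      Finset.add_sum_erase _ (fun φ => mul σ.character φ ^ 2) hirrρ]
  have s2 : 1 ≤ mul σ.character ρ.character := Nat.one_le_iff_ne_zero.2 m3
  have s3' : 2 ≤ mul σ.character τ.character := by omega
  have s4 : mul σ.character ρ.character = 1 ∧ mul σ.character τ.character = 2 ∧
      ∑ φ ∈ (S.erase ρ.character).erase τ.character, mul σ.character φ ^ 2 = 0 := by
    have h2 : mul σ.character ρ.character ^ 2 + (mul σ.character τ.character ^ 2 +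
        ∑ φ ∈ (S.erase ρ.character).erase τ.character, mul σ.character φ ^ 2) ≤ 5 := by
      rw [← s1]; omega
    exact Y07_aux.small_sum s2 s3' h2
  obtain ⟨s5, s6, s7⟩ := s4
  have s8 : ∀ φ ∈ (S.erase ρ.character).erase τ.character, mul σ.character φ = 0 := by
    intro φ hφ
    have h2 := (Finset.sum_eq_zero_iff.1 s7) φ hφ
    exact pow_eq_zero_iff two_ne_zero |>.1 h2
  have s9 : σ.character = ρ.character + (2 : Ω) • τ.character := by
    rw [char_eq_sum σ, ← hS, ← Finset.add_sum_erase _ _ hirrρ, ← Finset.add_sum_erase _ _ hτS,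
      s5, s6, Finset.sum_eq_zero (fun φ hφ => by rw [s8 φ hφ, Nat.cast_zero, zero_smul])]
    push_cast
    rw [one_smul, add_zero]
  have s10 := congrFun s9 g
  rw [hσc, Pi.add_apply, Pi.smul_apply, smul_eq_mul, hτc] at s10
  rw [s10]
  ring

end

end Parker
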