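import Pool.Agent.Parker.Defs
import Pool.Agent.Parker.P06
import Pool.Agent.Parker.P08
import Pool.Agent.Parker.P10
import Pool.Agent.Parker.P13
import Pool.Agent.Parker.P29
import Pool.Agent.Parker.P30
import Pool.Agent.Parker.P31
import Pool.Agent.Parker.X01
import Pool.Agent.Parker.X03
import Pool.Agent.Parker.X05
import Pool.Agent.Parker.Y06
import Pool.Agent.Parker.Y07

/-!
# MP_6c3636_al, module Y08: (A) and (B) for `SL_3(q)` (helper7)
-/

namespace Parker

open Matrix

universe v

noncomputable section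

variable {F : Type} [Field F] {Ω : Type} [Field Ω] [IsAlgClosed Ω] [CharZero Ω] {c : Ctx Ω}

namespace Y08_aux

theorem char_two (h2 : (2 : F) = 0) : CharP F 2 :=
  CharTwo.of_one_ne_zero_of_two_eq_zero one_ne_zero h2

theorem card_even [Fintype F] (h2 : (2 : F) = 0) : Even (Fintype.card F) := by
  have h := char_two h2
  rw [Nat.even_iff, ← FiniteField.even_card_iff_char_two]
  exact ringChar.eq F 2

theorem even_sq_add (q : ℕ) : Even (q ^ 2 + q) := by
  have h := Nat.even_mul_succ_self q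
  have h3 : q ^ 2 + q = q * q.succ := by rw [Nat.succ_eq_add_one]; ring
  rwa [h3]

theorem nilp {M : Matrix (Fin 3) (Fin 3) F} (h : IsNilpotent M) : M ^ 3 = 0 := by
  have h1 := Matrix.isNilpotent_charpoly_sub_pow_of_isNilpotent h
  have h3 := sub_eq_zero.1 h1.eq_zero
  have h4 := Matrix.aeval_self_charpoly M
  rw [h3] at h4
  simpa using h4

theorem unip (h2 : (2 : F) = 0) {M : Matrix (Fin 3) (Fin 3) F} {k : ℕ}
    (h : M ^ (2 ^ k) = 1) : M ^ 4 = 1 := by
  have hc := char_two h2
  have hm : CharP (Matrix (Fin 3) (Fin 3) F) 2 := inferInstance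
  have h1 : (M - 1) ^ (2 ^ k) = 0 := by
    rw [sub_pow_char_pow_of_commute 2 k (Commute.one_right M), h, one_pow, sub_self]
  have h3 : (M - 1) ^ 3 = 0 := nilp ⟨2 ^ k, h1⟩
  have h4 : (M - 1) ^ 4 = 0 := by rw [pow_succ, h3, zero_mul]
  have h5 : (M - 1) ^ (2 ^ 2) = M ^ (2 ^ 2) - 1 ^ (2 ^ 2) :=
    sub_pow_char_pow_of_commute 2 2 (Commute.one_right M)
  rw [show (2 : ℕ) ^ 2 = 4 from rfl, h4, one_pow] at h5
  exact (sub_eq_zero.1 h5.symm)

end Y08_aux

open Y08_aux

/-- (A), `q` even: `propA_of_good`. If there is a nonzero vector fixed by `par1` or `par2`: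
`sl3_par_fixed`, `good_perm`. Otherwise, if there is a nonzero vector fixed by the Borel subgroup:
`st_char`, `exists_plane`, `good_perm2`, `card_flags`. Otherwise `sl3_noOdd`, `good_of_res`,
`bor3_solvable`, `of_solvable`, `sd_of_orth`. -/
theorem sl3_propA_even [Fintype F] (h2 : (2 : F) = 0) :
    PropA c 1 (SpecialLinearGroup (Fin 3) F) := by
  classical
  refine propA_of_good fun Γ hΓ n ρ hρ hn hO hF => ?_
  have hfr : Module.finrank Ω (Fin n → Ω) = n := Module.finrank_fin_fun Ω
  have hev : Even (Module.finrank Ω (Fin n → Ω)) := by rw [hfr]; exact hn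
  have hq := even_sq_add (Fintype.card F)
  have hq' : Odd (Fintype.card F ^ 2 + Fintype.card F + 1) := hq.add_one
  by_cases hp : (∃ v : Fin n → Ω, v ≠ 0 ∧ ∀ g ∈ par1 F, ρ g v = v) ∨
      ∃ v : Fin n → Ω, v ≠ 0 ∧ ∀ g ∈ par2 F, ρ g v = v
  · rcases sl3_par_fixed hρ hp with h | h | h
    · exfalso
      have h1 := h 1
      rw [Representation.char_one, hfr] at h1
      have h3 : n = 1 := by exact_mod_cast h1
      rw [h3] at hn
      exact (by decide : ¬ Even 1) hn
    · refine good_perm (SpecialLinearGroup (Fin 3) F ⧸ par1 F) ?_ hρ hev h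
      rw [card_quot_par1, Nat.card_eq_fintype_card]
      exact hq'
    · refine good_perm (SpecialLinearGroup (Fin 3) F ⧸ par2 F) ?_ hρ hev h
      rw [card_quot_par2, Nat.card_eq_fintype_card]
      exact hq'
  · by_cases hb : ∃ v : Fin n → Ω, v ≠ 0 ∧ ∀ b ∈ bor3 F, ρ b v = v
    · obtain ⟨v, hv0, hv⟩ := hb
      have h1 : ∀ x : Fin n → Ω, (∀ g ∈ par1 F, ρ g x = x) → x = 0 := by
        intro x hx
        by_contra hx0
        exact hp (Or.inl ⟨x, hx0, hx⟩)
      obtain ⟨n', τ, hτ, hn', hτc⟩ := exists_plane (F := F) (Ω := Ω)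
      have hev' : Even (Module.finrank Ω (Fin n' → Ω)) := by
        rw [Module.finrank_fin_fun, hn']
        exact hq
      refine good_perm2 (SpecialLinearGroup (Fin 3) F ⧸ bor3 F)
        (SpecialLinearGroup (Fin 3) F ⧸ par1 F) ?_ hρ hτ hev hev' hτc fun g => ?_
      · rw [card_flags]
        exact (card_even h2).add_one.mul hq'
      · rw [st_char hρ hv0 hv h1 g, hτc]
    · have hB : ∀ v : Fin n → Ω, (∀ b ∈ bor3 F, ρ b v = v) → v = 0 := by
        intro v hv
        by_contra hv0
        exact hb ⟨v, hv0, hv⟩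
      have hN := sl3_noOdd h2 hρ hev (sd_of_orth hO) hB
      have : Group.IsSolvable (bor3 F) := bor3_solvable
      obtain ⟨hA, hBB⟩ := of_solvable (c := c) (bor3 F)
      exact good_of_res (bor3 F) hA hBB hΓ hO hF hN

/-- (B), `q` even: `propB_exp4` with `r` the odd part of the group order: an element of order a
power of `2` is unipotent, `(g - 1)³ = 0` (Cayley-Hamilton or nilpotency), so `g⁴ = 1` -/
theorem sl3_propB_even [Fintype F] (h2 : (2 : F) = 0) :
    PropB c 1 (SpecialLinearGroup (Fin 3) F) := by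
  obtain ⟨k, r, hr, hcard⟩ := Nat.exists_eq_two_pow_mul_odd
    (Nat.card_pos (α := SpecialLinearGroup (Fin 3) F)).ne'
  refine propB_exp4 hr fun g => ?_
  have h1 : (g ^ r) ^ (2 ^ k) = 1 := by
    rw [← pow_mul, mul_comm, ← hcard]
    exact pow_card_eq_one'
  have h3 : (g ^ r).val ^ (2 ^ k) = 1 :=
    (Matrix.SpecialLinearGroup.coe_pow (g ^ r) (2 ^ k)).symm.trans (congrArg Subtype.val h1)
  have h4 := unip h2 h3
  rw [mul_comm, pow_mul]
  apply Subtype.ext
  exact (Matrix.SpecialLinearGroup.coe_pow (g ^ r) 4).trans h4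

theorem sl3_propA [Finite F] : PropA c 1 (SpecialLinearGroup (Fin 3) F) := by
  let _ := Fintype.ofFinite F
  by_cases h2 : (2 : F) = 0
  · exact sl3_propA_even h2
  · exact sl3_propA_odd h2

theorem sl3_propB [Finite F] : PropB c 1 (SpecialLinearGroup (Fin 3) F) := by
  let _ := Fintype.ofFinite F
  by_cases h2 : (2 : F) = 0
  · exact sl3_propB_even h2
  · exact sl3_propB_odd h2

end

end Parker
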