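import Mathlib

/-!
# MP_6c3636_al, module Z01: the Suzuki groups (helper7)

`F` is a field of characteristic two with an automorphism `π` such that `π (π x) = x²`.
-/

namespace Parker

open Matrix

noncomputable section

variable {F : Type} [Field F] (π : F ≃+* F)

/-- the unipotent matrices of the Suzuki group -/
def suz (a b : F) : Matrix (Fin 4) (Fin 4) F :=
  !![1, 0, 0, 0;
     a, 1, 0, 0;
     b, π a, 1, 0;
     a ^ 2 * π a + a * b + π b, a * π a + b, a, 1]

/-- the torus -/
def hz (k : F) : Matrix (Fin 4) (Fin 4) F :=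
  !![k * π k, 0, 0, 0;
     0, k, 0, 0;
     0, 0, k⁻¹, 0;
     0, 0, 0, (k * π k)⁻¹]

/-- the Weyl element -/
def wz (F : Type) [Field F] : Matrix (Fin 4) (Fin 4) F :=
  !![0, 0, 0, 1;
     0, 0, 1, 0;
     0, 1, 0, 0;
     1, 0, 0, 0]

/-- the Suzuki group: generated by the matrices `suz a b` and `wz` -/
def Sz : Subgroup (GL (Fin 4) F) :=
  Subgroup.closure {g | (∃ a b : F, (g : Matrix (Fin 4) (Fin 4) F) = suz π a b) ∨
    (g : Matrix (Fin 4) (Fin 4) F) = wz F}

variable {π} (h2 : (2 : F) = 0) (hπ : ∀ x, π (π x) = x ^ 2)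
include h2 hπ

theorem suz_mul (a b c d : F) : suz π a b * suz π c d = suz π (a + c) (b + d + π a * c) := by
  have e : π (π a * c) = a ^ 2 * π c := by rw [map_mul, hπ]
  unfold suz
  rw [map_add, map_add, map_add, e]
  ext i j
  fin_cases i <;> fin_cases j <;>
    simp [Matrix.mul_apply, Fin.sum_univ_four]
  all_goals first
    | ring1
    | linear_combination (-(a ^ 2 * π c + c ^ 2 * π a + a * c * (π a + π c))) * h2
    | linear_combination (-(c * π a)) * h2

omit h2 hπ in
theorem suz_zero : suz π 0 0 = 1 := by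
  unfold suz
  ext i j
  fin_cases i <;> fin_cases j <;> simp

theorem suz_mul_inv (a b : F) : suz π a b * suz π a (b + π a * a) = 1 := by
  rw [suz_mul h2 hπ]
  have h1 : a + a = 0 := by linear_combination a * h2
  have h3 : b + (b + π a * a) + π a * a = 0 := by linear_combination (b + π a * a) * h2
  rw [h1, h3, suz_zero]

omit h2 hπ in
theorem suz_inj {a b c d : F} (h : suz π a b = suz π c d) : a = c ∧ b = d := by
  have h1 := congrFun (congrFun h 1) 0
  have h3 := congrFun (congrFun h 2) 0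
  simp [suz] at h1 h3
  exact ⟨h1, h3⟩

omit h2 hπ in
theorem wz_wz : wz F * wz F = 1 := by
  unfold wz
  ext i j
  fin_cases i <;> fin_cases j <;> simp [Matrix.mul_apply, Fin.sum_univ_four]

omit h2 hπ in
theorem hz_mul {k l : F} (hk : k ≠ 0) (hl : l ≠ 0) : hz π k * hz π l = hz π (k * l) := by
  have hπk : π k ≠ 0 := (map_ne_zero π).2 hk
  have hπl : π l ≠ 0 := (map_ne_zero π).2 hl
  unfold hz
  rw [map_mul]
  ext i j
  fin_cases i <;> fin_cases j <;> simp [Matrix.mul_apply, Fin.sum_univ_four]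
  all_goals first
    | ring
    | (field_simp)

omit h2 hπ in
theorem wz_hz {k : F} (hk : k ≠ 0) : wz F * hz π k * wz F = hz π k⁻¹ := by
  unfold hz wz
  rw [map_inv₀]
  ext i j
  fin_cases i <;> fin_cases j <;> simp [Matrix.mul_apply, Fin.sum_univ_four]
  all_goals first
    | ring
    | (field_simp)

theorem hz_suz {k : F} (hk : k ≠ 0) (a b : F) :
    hz π k * suz π a b * hz π k⁻¹ = suz π (a * (π k)⁻¹) (b * (k ^ 2 * π k)⁻¹) := by
  have hπk : π k ≠ 0 := (map_ne_zero π).2 hk
  have e1 : π (a * (π k)⁻¹) = π a * (k ^ 2)⁻¹ := by rw [map_mul, map_inv₀, hπ]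
  have e2 : π (b * (k ^ 2 * π k)⁻¹) = π b * (π k ^ 2 * k ^ 2)⁻¹ := by
    rw [map_mul, map_inv₀, map_mul, map_pow, hπ]
  unfold hz suz
  rw [e1, e2, map_inv₀]
  ext i j
  fin_cases i <;> fin_cases j <;> simp [Matrix.mul_apply, Fin.sum_univ_four]
  all_goals first
    | (field_simp; done)
    | (field_simp; ring)

/-- `k ↦ k π(k)` is injective on the nonzero elements -/
theorem kpi_inj {k l : F} (hk : k ≠ 0) (hl : l ≠ 0) (h : k * π k = l * π l) : k = l := by
  have hπk : π k ≠ 0 := (map_ne_zero π).2 hk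
  have h1 : π k * k ^ 2 = π l * l ^ 2 := by
    have h3 := congrArg π h
    rwa [map_mul, map_mul, hπ, hπ] at h3
  have h3 : π l * l * k = π l * l * l := by
    have h4 : π k * k ^ 2 = (k * π k) * k := by ring
    rw [h4, h] at h1
    linear_combination h1
  exact mul_left_cancel₀ (mul_ne_zero ((map_ne_zero π).2 hl) hl) h3

theorem kpi_surj [Finite F] {z : F} (hz0 : z ≠ 0) : ∃ k, k ≠ 0 ∧ k * π k = z := by
  have hinj : Function.Injective (fun k : F => k * π k) := by
    intro k l h
    have h' : k * π k = l * π l := h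
    by_cases hk : k = 0
    · by_cases hl : l = 0
      · rw [hk, hl]
      · rw [hk, zero_mul] at h'
        exact absurd h'.symm (mul_ne_zero hl ((map_ne_zero π).2 hl))
    · by_cases hl : l = 0
      · rw [hl, zero_mul] at h'
        exact absurd h' (mul_ne_zero hk ((map_ne_zero π).2 hk))
      · exact kpi_inj h2 hπ hk hl h'
  obtain ⟨k, hk⟩ := (Finite.injective_iff_surjective.1 hinj) z
  have hk' : k * π k = z := hk
  refine ⟨k, fun h => hz0 ?_, hk'⟩
  rw [← hk', h, zero_mul]

/-- `z = a² π(a) + a b + π(b)` vanishes only for `a = b = 0` (if `a ≠ 0` write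
`b = a π(a) y`: `z = a² π(a) (1 + y + π y)`; `π y = y + 1` gives `y² = y`) -/
theorem z_ne {a b : F} (h : a ≠ 0 ∨ b ≠ 0) : a ^ 2 * π a + a * b + π b ≠ 0 := by
  intro h0
  by_cases ha : a = 0
  · rw [ha, map_zero] at h0
    have hb : b ≠ 0 := h.resolve_left fun h' => h' ha
    have h3 : π b = 0 := by linear_combination h0
    exact (map_ne_zero π).2 hb h3
  · have hπa : π a ≠ 0 := (map_ne_zero π).2 ha
    obtain ⟨y, hy⟩ : ∃ y, b = a * π a * y := ⟨b / (a * π a), by field_simp⟩
    have e : π b = π a * a ^ 2 * π y := by rw [hy, map_mul, map_mul, hπ]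
    have h3 : a ^ 2 * π a * (1 + y + π y) = 0 := by
      rw [e, hy] at h0
      linear_combination h0
    have h4 : 1 + y + π y = 0 :=
      (mul_eq_zero.1 h3).resolve_left (mul_ne_zero (pow_ne_zero _ ha) hπa)
    have h5 : 1 + π y + y ^ 2 = 0 := by
      have h6 := congrArg π h4
      rwa [map_add, map_add, map_one, map_zero, hπ] at h6
    have h6 : y * (y - 1) = 0 := by linear_combination h5 - h4
    rcases mul_eq_zero.1 h6 with h7 | h7
    · rw [h7, map_zero] at h4
      simp at h4
    · have h8 : y = 1 := by linear_combination h7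
      rw [h8, map_one] at h4
      have h9 : (1 : F) = 0 := by linear_combination h4 - h2
      exact one_ne_zero h9

/-- `w u(a,b) w = u(b/z, a/z) h(k) w u(a₂, a/z + a₂ π(a₂))` with
`a₂ = (a π(a) + b)/z`, `k π(k) = z` -/
theorem wz_suz_wz {a b z k : F} (hzz : z = a ^ 2 * π a + a * b + π b) (hz0 : z ≠ 0)
    (hk : k ≠ 0) (hkz : k * π k = z) :
    wz F * suz π a b * wz F =
      suz π (b / z) (a / z) * hz π k * wz F *
        suz π ((a * π a + b) / z) (a / z + (a * π a + b) / z * π ((a * π a + b) / z)) := by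
  have hZ0 : π z ≠ 0 := (map_ne_zero π).2 hz0
  have hZ : π z = a ^ 2 * π a ^ 2 + π a * π b + b ^ 2 := by
    rw [hzz]
    simp only [map_add, map_mul, map_pow, hπ]
    ring
  have e1 : π (b / z) = π b / π z := map_div₀ π b z
  have e2 : π (a / z) = π a / π z := map_div₀ π a z
  have e3 : π ((a * π a + b) / z) = (π a * a ^ 2 + π b) / π z := by
    rw [map_div₀, map_add, map_mul, hπ]
  have e4 : π (a / z + (a * π a + b) / z * π ((a * π a + b) / z))
      = π a / π z + (π a * a ^ 2 + π b) / π z * ((a * π a + b) / z) ^ 2 := by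
    rw [map_add, map_mul, hπ, e2, e3]
  have hk2 : k = π z / z := by
    have h3 := congrArg π hkz
    rw [map_mul, hπ] at h3
    rw [eq_div_iff hz0, ← h3, ← hkz]
    ring
  have hki : k⁻¹ = z / π z := by
    rw [hk2, inv_div]
  unfold suz hz wz
  rw [e4, e1, e2, e3, hkz, hki, hk2]
  generalize π a = A at *
  generalize π b = B at *
  generalize π z = Z at *
  clear e1 e2 e3 e4 hk2 hki hkz
  ext i j
  fin_cases i <;> fin_cases j <;> simp [Matrix.mul_apply, Fin.sum_univ_four]
  all_goals grind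

end

end Parker
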