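import Pool.Agent.Parker.Defs
import Pool.Agent.Parker.P33
import Pool.Agent.Parker.P34
import Pool.Agent.Parker.P39
import Pool.Agent.Parker.Z01

/-!
# MP_6c3636_al, module Z02: (A) and (B) for the Suzuki groups (helper7)
-/

namespace Parker

open Matrix
open scoped commutatorElement

noncomputable section

variable {F : Type} [Field F] [Finite F] {π : F ≃+* F} {Ω : Type} [Field Ω] [IsAlgClosed Ω]
  [CharZero Ω] {c : Ctx Ω}

namespace Z02_aux

variable {F : Type} [Field F] {π : F ≃+* F}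

theorem add_self (h2 : (2 : F) = 0) (x : F) : x + x = 0 := by
  rw [← two_mul, h2, zero_mul]

/-- the unipotent elements -/
def uG (h2 : (2 : F) = 0) (hπ : ∀ x, π (π x) = x ^ 2) (a b : F) : GL (Fin 4) F where
  val := suz π a b
  inv := suz π a (b + π a * a)
  val_inv := suz_mul_inv h2 hπ a b
  inv_val := by
    rw [suz_mul h2 hπ, add_self h2]
    have h1 : b + π a * a + b + π a * a = (b + π a * a) + (b + π a * a) := by ring
    rw [h1, add_self h2, suz_zero]

/-- the Weyl element -/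
def wG (F : Type) [Field F] : GL (Fin 4) F where
  val := wz F
  inv := wz F
  val_inv := wz_wz
  inv_val := wz_wz

theorem hz_one : hz π 1 = 1 := by
  ext i j
  fin_cases i <;> fin_cases j <;> simp [hz]

/-- the torus -/
def hG (π : F ≃+* F) (k : Fˣ) : GL (Fin 4) F where
  val := hz π k
  inv := hz π ((k⁻¹ : Fˣ) : F)
  val_inv := by
    rw [hz_mul k.ne_zero (k⁻¹).ne_zero, Units.mul_inv, hz_one]
  inv_val := by
    rw [hz_mul (k⁻¹).ne_zero k.ne_zero, Units.inv_mul, hz_one]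

section

variable (h2 : (2 : F) = 0) (hπ : ∀ x, π (π x) = x ^ 2)

theorem uG_mul (a b c d : F) :
    uG h2 hπ a b * uG h2 hπ c d = uG h2 hπ (a + c) (b + d + π a * c) :=
  Units.ext (suz_mul h2 hπ a b c d)

theorem uG_zero : uG h2 hπ 0 0 = 1 := Units.ext (suz_zero (π := π))

theorem uG_inv (a b : F) : (uG h2 hπ a b)⁻¹ = uG h2 hπ a (b + π a * a) := Units.ext rfl

theorem uG_inj {a b c d : F} (h : uG h2 hπ a b = uG h2 hπ c d) : a = c ∧ b = d :=
  suz_inj (congrArg Units.val h)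

theorem wG_wG : wG F * wG F = 1 := Units.ext wz_wz

theorem hG_mul (k l : Fˣ) : hG π k * hG π l = hG π (k * l) :=
  Units.ext (hz_mul k.ne_zero l.ne_zero)

theorem hG_one : hG π 1 = 1 := Units.ext hz_one

theorem hG_inv (k : Fˣ) : (hG π k)⁻¹ = hG π k⁻¹ := Units.ext rfl

theorem hG_inj {k l : Fˣ} (h : hG π k = hG π l) : k = l := by
  have h1 := congrArg Units.val h
  have h3 := congrFun (congrFun h1 1) 1
  have h4 : (k : F) = l := h3
  exact Units.ext h4

theorem wG_hG (k : Fˣ) : wG F * hG π k * wG F = (hG π k)⁻¹ := by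
  rw [hG_inv]
  apply Units.ext
  have h1 := wz_hz (π := π) k.ne_zero
  rw [← Units.val_inv_eq_inv_val] at h1
  exact h1

theorem hG_uG (k : Fˣ) (a b : F) : hG π k * uG h2 hπ a b * (hG π k)⁻¹ =
    uG h2 hπ (a * (π k)⁻¹) (b * ((k : F) ^ 2 * π k)⁻¹) := by
  rw [hG_inv]
  apply Units.ext
  have h1 := hz_suz h2 hπ k.ne_zero a b
  rw [← Units.val_inv_eq_inv_val] at h1
  exact h1

theorem wG_uG_wG {a b z : F} {k : Fˣ} (hzz : z = a ^ 2 * π a + a * b + π b) (hz0 : z ≠ 0)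
    (hkz : (k : F) * π k = z) : wG F * uG h2 hπ a b * wG F =
      uG h2 hπ (b / z) (a / z) * hG π k * wG F *
        uG h2 hπ ((a * π a + b) / z) (a / z + (a * π a + b) / z * π ((a * π a + b) / z)) :=
  Units.ext (wz_suz_wz h2 hπ hzz hz0 k.ne_zero hkz)

theorem uG_mem (a b : F) : uG h2 hπ a b ∈ Sz π := Subgroup.subset_closure (Or.inl ⟨a, b, rfl⟩)

theorem wG_mem : wG F ∈ Sz π := Subgroup.subset_closure (Or.inr rfl)

include h2 hπ in
theorem hG_mem (k : Fˣ) : hG π k ∈ Sz π := by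
  have hkk : (k : F) * π k ≠ 0 := mul_ne_zero k.ne_zero (by simp)
  have h1 := wG_uG_wG h2 hπ (a := 0) (b := π.symm (k * π k)) (z := k * π k) (k := k)
    (by simp) hkk rfl
  set u1 := uG h2 hπ (π.symm (k * π k) / (k * π k)) (0 / (k * π k))
  set u2 := uG h2 hπ ((0 * π 0 + π.symm (k * π k)) / (k * π k)) (0 / (k * π k) +
    (0 * π 0 + π.symm (k * π k)) / (k * π k) * π ((0 * π 0 + π.symm (k * π k)) / (k * π k)))
  have h3 : hG π k = u1⁻¹ * (wG F * uG h2 hπ 0 (π.symm (k * π k)) * wG F) * u2⁻¹ * (wG F)⁻¹ := by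
    rw [h1]
    group
  rw [h3]
  exact (Sz π).mul_mem ((Sz π).mul_mem ((Sz π).mul_mem ((Sz π).inv_mem (uG_mem h2 hπ _ _))
    ((Sz π).mul_mem ((Sz π).mul_mem wG_mem (uG_mem h2 hπ _ _)) wG_mem))
    ((Sz π).inv_mem (uG_mem h2 hπ _ _))) ((Sz π).inv_mem wG_mem)

/-- the two Bruhat cells -/
def Cell (g : GL (Fin 4) F) : Prop :=
  (∃ a b k, g = uG h2 hπ a b * hG π k) ∨
    ∃ a b k c d, g = uG h2 hπ a b * hG π k * wG F * uG h2 hπ c d

theorem cell_u {g : GL (Fin 4) F} (hg : Cell h2 hπ g) (a' b' : F) :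
    Cell h2 hπ (g * uG h2 hπ a' b') := by
  rcases hg with ⟨a, b, k, rfl⟩ | ⟨a, b, k, c, d, rfl⟩
  · left
    refine ⟨a + a' * (π k)⁻¹, b + b' * ((k : F) ^ 2 * π k)⁻¹ + π a * (a' * (π k)⁻¹), k, ?_⟩
    rw [← uG_mul, ← hG_uG]
    group
  · right
    refine ⟨a, b, k, c + a', d + b' + π c * a', ?_⟩
    rw [← uG_mul]
    group

theorem cell_w [Finite F] {g : GL (Fin 4) F} (hg : Cell h2 hπ g) :
    Cell h2 hπ (g * wG F) := by
  rcases hg with ⟨a, b, k, rfl⟩ | ⟨a, b, k, c, d, rfl⟩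
  · right
    refine ⟨a, b, k, 0, 0, ?_⟩
    rw [uG_zero, mul_one]
  · by_cases hcd : c ≠ 0 ∨ d ≠ 0
    · right
      have hz := z_ne h2 hπ hcd
      obtain ⟨l, hl0, hl⟩ := kpi_surj h2 hπ hz
      have h1 := wG_uG_wG h2 hπ (a := c) (b := d) (k := Units.mk0 l hl0) rfl hz hl
      set z := c ^ 2 * π c + c * d + π d with hzdef
      refine ⟨a + d / z * (π k)⁻¹, b + c / z * ((k : F) ^ 2 * π k)⁻¹ + π a * (d / z * (π k)⁻¹),
        k * Units.mk0 l hl0, (c * π c + d) / z, c / z + (c * π c + d) / z * π ((c * π c + d) / z),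
        ?_⟩
      rw [← uG_mul, ← hG_uG, ← hG_mul]
      have h3 : uG h2 hπ a b * hG π k * wG F * uG h2 hπ c d * wG F =
          uG h2 hπ a b * hG π k * (wG F * uG h2 hπ c d * wG F) := by group
      rw [h3, h1]
      group
    · push Not at hcd
      left
      refine ⟨a, b, k, ?_⟩
      rw [hcd.1, hcd.2, uG_zero, mul_one, mul_assoc, wG_wG, mul_one]

theorem cell_all [Finite F] {g : GL (Fin 4) F} (hg : g ∈ Sz π) : Cell h2 hπ g := by
  have hw : (wG F)⁻¹ = wG F := inv_eq_of_mul_eq_one_left wG_wG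
  unfold Sz at hg
  induction hg using Subgroup.closure_induction_right with
  | one =>
    left
    exact ⟨0, 0, 1, by rw [uG_zero, hG_one, mul_one]⟩
  | mul_right x hx y hy ih =>
    rcases hy with ⟨a, b, h⟩ | h
    · have : y = uG h2 hπ a b := Units.ext h
      rw [this]
      exact cell_u h2 hπ ih a b
    · have : y = wG F := Units.ext h
      rw [this]
      exact cell_w h2 hπ ih
  | mul_inv_cancel x hx y hy ih =>
    rcases hy with ⟨a, b, h⟩ | h
    · have : y = uG h2 hπ a b := Units.ext h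
      rw [this, uG_inv]
      exact cell_u h2 hπ ih _ _
    · have : y = wG F := Units.ext h
      rw [this, hw]
      exact cell_w h2 hπ ih

/-- unipotent elements of `Sz` -/
def ue (a b : F) : Sz π := ⟨uG h2 hπ a b, uG_mem h2 hπ a b⟩

/-- the Weyl element of `Sz` -/
def we : Sz π := ⟨wG F, wG_mem⟩

/-- torus elements of `Sz` -/
def he (k : Fˣ) : Sz π := ⟨hG π k, hG_mem h2 hπ k⟩

theorem ue_mul (a b c d : F) :
    ue h2 hπ a b * ue h2 hπ c d = ue h2 hπ (a + c) (b + d + π a * c) :=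
  Subtype.ext (uG_mul h2 hπ a b c d)

theorem ue_zero : ue h2 hπ 0 0 = 1 := Subtype.ext (uG_zero h2 hπ)

theorem ue_inv (a b : F) : (ue h2 hπ a b)⁻¹ = ue h2 hπ a (b + π a * a) :=
  Subtype.ext (uG_inv h2 hπ a b)

theorem ue_inj {a b c d : F} (h : ue h2 hπ a b = ue h2 hπ c d) : a = c ∧ b = d :=
  uG_inj h2 hπ (congrArg Subtype.val h)

theorem he_mul (k l : Fˣ) : he h2 hπ k * he h2 hπ l = he h2 hπ (k * l) :=
  Subtype.ext (hG_mul k l)

theorem he_one : he h2 hπ 1 = 1 := Subtype.ext hG_one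

theorem he_inv (k : Fˣ) : (he h2 hπ k)⁻¹ = he h2 hπ k⁻¹ := Subtype.ext (hG_inv k)

theorem he_ue (k : Fˣ) (a b : F) : he h2 hπ k * ue h2 hπ a b * (he h2 hπ k)⁻¹ =
    ue h2 hπ (a * (π k)⁻¹) (b * ((k : F) ^ 2 * π k)⁻¹) :=
  Subtype.ext (hG_uG h2 hπ k a b)

/-- the unipotent subgroup -/
def Us : Subgroup (Sz π) where
  carrier := {g | ∃ a b, g = ue h2 hπ a b}
  mul_mem' := by
    rintro _ _ ⟨a, b, rfl⟩ ⟨c, d, rfl⟩
    exact ⟨_, _, ue_mul h2 hπ a b c d⟩
  one_mem' := ⟨0, 0, (ue_zero h2 hπ).symm⟩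
  inv_mem' := by
    rintro _ ⟨a, b, rfl⟩
    exact ⟨_, _, ue_inv h2 hπ a b⟩

/-- the torus -/
def Ts : Subgroup (Sz π) where
  carrier := {g | ∃ k, g = he h2 hπ k}
  mul_mem' := by
    rintro _ _ ⟨a, rfl⟩ ⟨c, rfl⟩
    exact ⟨_, he_mul h2 hπ a c⟩
  one_mem' := ⟨1, (he_one h2 hπ).symm⟩
  inv_mem' := by
    rintro _ ⟨a, rfl⟩
    exact ⟨_, he_inv h2 hπ a⟩

/-- elements of `U` -/
def el (a b : F) : Us h2 hπ := ⟨ue h2 hπ a b, ⟨a, b, rfl⟩⟩

theorem el_mul (a b c d : F) :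
    el h2 hπ a b * el h2 hπ c d = el h2 hπ (a + c) (b + d + π a * c) :=
  Subtype.ext (ue_mul h2 hπ a b c d)

theorem el_zero : el h2 hπ 0 0 = 1 := Subtype.ext (ue_zero h2 hπ)

theorem el_surj (x : Us h2 hπ) : ∃ a b, x = el h2 hπ a b := by
  obtain ⟨a, b, h⟩ := x.2
  exact ⟨a, b, Subtype.ext h⟩

theorem el_inj {a b c d : F} (h : el h2 hπ a b = el h2 hπ c d) : a = c ∧ b = d :=
  ue_inj h2 hπ (congrArg Subtype.val h)

/-- the center is in the commutator subgroup -/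
theorem el_comm [Finite F] (hF : 2 < Nat.card F) (b : F) :
    el h2 hπ 0 b ∈ commutator (Us h2 hπ) := by
  have hadd := add_self h2
  by_cases hb : b = 0
  · rw [hb, el_zero]
    exact Subgroup.one_mem _
  · -- an element that is not fixed by `π`
    obtain ⟨a, ha⟩ : ∃ a, π a + a ≠ 0 := by
      by_contra hcon
      push Not at hcon
      have h3 : ∀ a : F, a = 0 ∨ a = 1 := by
        intro a
        have h4 : π a = a := by
          have h5 := hcon a
          have h6 := hadd a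
          exact add_right_cancel (h5.trans h6.symm)
        have h5 := hπ a
        rw [h4, h4] at h5
        have h6 : a * (a - 1) = 0 := by
          rw [mul_sub, mul_one, ← sq, ← h5, sub_self]
        rcases mul_eq_zero.1 h6 with h7 | h7
        · exact Or.inl h7
        · exact Or.inr (sub_eq_zero.1 h7)
      have h4 : (Set.univ : Set F) ⊆ {0, 1} := fun a _ => h3 a
      have h5 : Nat.card F ≤ 2 := by
        rw [← Set.ncard_univ]
        refine (Set.ncard_le_ncard h4 (Set.toFinite _)).trans ?_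
        rw [Set.ncard_pair zero_ne_one]
      omega
    obtain ⟨k, hk0, hk⟩ := kpi_surj h2 hπ (z := b / (π a + a)) (div_ne_zero hb ha)
    have hb' : b = π (k * a) * k + π k * (k * a) := by
      have h3 : b = (b / (π a + a)) * (π a + a) := (div_mul_cancel₀ b ha).symm
      rw [h3, ← hk, map_mul]
      ring
    have h3 : el h2 hπ 0 b = ⁅el h2 hπ (k * a) 0, el h2 hπ k 0⁆ := by
      rw [commutatorElement_def, eq_mul_inv_iff_mul_eq, eq_mul_inv_iff_mul_eq, el_mul, el_mul,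
        el_mul]
      congr 1
      · ring
      · rw [hb']
        have h4 : π (k * a) * k + π k * (k * a) + 0 + π 0 * k + 0 + π (0 + k) * (k * a) =
            (0 + 0 + π (k * a) * k) + (π k * (k * a) + π k * (k * a)) := by
          rw [map_zero, zero_add]
          ring
        rw [h4, hadd (π k * (k * a))]
        ring
    rw [h3, commutator_def]
    exact Subgroup.commutator_mem_commutator (Subgroup.mem_top _) (Subgroup.mem_top _)

theorem lam_center [Finite F] (hF : 2 < Nat.card F) (lam : Us h2 hπ →* ℤˣ) (b : F) :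
    lam (el h2 hπ 0 b) = 1 := by
  have h1 : commutator (Us h2 hπ) ≤ lam.ker := Abelianization.commutator_subset_ker lam
  exact h1 (el_comm h2 hπ hF b)

theorem lam_el [Finite F] (hF : 2 < Nat.card F) (lam : Us h2 hπ →* ℤˣ) (a b : F) :
    lam (el h2 hπ a b) = lam (el h2 hπ a 0) := by
  have h1 : el h2 hπ a b = el h2 hπ a 0 * el h2 hπ 0 b := by
    rw [el_mul]
    simp
  rw [h1, map_mul, lam_center h2 hπ hF, mul_one]

end

end Z02_aux

open Z02_aux P39_aux

/-- Rank one data for the Suzuki group: `U = {suz a b}`, `T = {hz k}`, `w = wz`. (Bruhat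
decomposition: `U T ∪ U T w U` is closed under right multiplication by the generators, by
`wz_suz_wz`; all `hz k` lie in the group. For `|F| > 2`: the commutators
`[suz a 0, suz c 0] = suz 0 (π(a) c + π(c) a)` generate `{suz 0 b}`, since the set of the sums of
values `π(a) c + π(c) a` is nonzero and stable under the multiplication by `k π(k)`; so
`U / [U,U] = F`, on which `hz k` acts by `a ↦ a / π(k)`, simply transitively on the nontrivial
characters `F → {±1}` (`P39_aux.dual_surj`).) -/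
theorem sz_rankOne (h2 : (2 : F) = 0) (hπ : ∀ x, π (π x) = x ^ 2) (hF : 2 < Nat.card F) :
    ∃ (U T : Subgroup (Sz π)) (w : Sz π), RankOne U T w ∧ ∀ u ∈ U, u ^ 4 = 1 := by
  classical
  have := Fintype.ofFinite F
  have : CharP F 2 := CharTwo.of_one_ne_zero_of_two_eq_zero one_ne_zero h2
  have hadd := add_self h2
  obtain ⟨k, -, hk⟩ := FiniteField.card F 2
  have hww : (we : Sz π) * we = 1 := Subtype.ext wG_wG
  have hwinv : (we : Sz π)⁻¹ = we := inv_eq_of_mul_eq_one_left hww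
  have hsq : ∀ a b : F, ue h2 hπ a b * ue h2 hπ a b = ue h2 hπ 0 (π a * a) := by
    intro a b
    rw [ue_mul, hadd, hadd, zero_add]
  refine ⟨Us h2 hπ, Ts h2 hπ, we, ⟨?_, ?_, ?_, ?_, ?_, hww, ?_, ?_, ?_, ?_⟩, ?_⟩
  · refine ⟨2 * k, ?_⟩
    have e : F × F ≃ Us h2 hπ := Equiv.ofBijective (fun x => el h2 hπ x.1 x.2) ⟨by
      rintro ⟨a, b⟩ ⟨c, d⟩ h
      obtain ⟨h3, h4⟩ := el_inj h2 hπ h
      exact Prod.ext h3 h4, by
      intro x
      obtain ⟨a, b, h⟩ := el_surj h2 hπ x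
      exact ⟨(a, b), h.symm⟩⟩
    rw [← Nat.card_congr e, Nat.card_prod, Nat.card_eq_fintype_card, hk]
    ring
  · intro h
    have h1 : ue h2 hπ 1 0 ∈ Us h2 hπ := ⟨1, 0, rfl⟩
    rw [h, Subgroup.mem_bot, ← ue_zero h2 hπ] at h1
    exact one_ne_zero (ue_inj h2 hπ h1).1
  · have e : Fˣ ≃ Ts h2 hπ := Equiv.ofBijective (fun k => ⟨he h2 hπ k, ⟨k, rfl⟩⟩) ⟨by
      intro k l h
      exact hG_inj (congrArg Subtype.val (congrArg Subtype.val h)), by
      rintro ⟨x, l, rfl⟩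
      exact ⟨l, rfl⟩⟩
    rw [← Nat.card_congr e, Nat.card_units, Nat.card_eq_fintype_card (α := F), hk]
    have h3 : Even (2 ^ (k : ℕ)) := (Nat.even_pow.2 ⟨even_two, k.pos.ne'⟩)
    have h4 : 1 ≤ 2 ^ (k : ℕ) := Nat.one_le_two_pow
    exact Nat.Even.sub_odd h4 h3 odd_one
  · rintro _ ⟨k, rfl⟩ _ ⟨a, b, rfl⟩
    rw [he_ue]
    exact ⟨_, _, rfl⟩
  · intro g
    rcases cell_all h2 hπ g.2 with ⟨a, b, l, h⟩ | ⟨a, b, l, c, d, h⟩
    · exact Or.inl ⟨ue h2 hπ a b, ⟨a, b, rfl⟩, he h2 hπ l, ⟨l, rfl⟩, Subtype.ext h⟩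
    · exact Or.inr ⟨ue h2 hπ a b, ⟨a, b, rfl⟩, he h2 hπ l, ⟨l, rfl⟩, ue h2 hπ c d,
        ⟨c, d, rfl⟩, Subtype.ext h⟩
  · rintro _ ⟨l, rfl⟩
    exact Subtype.ext (wG_hG l)
  · rintro _ ⟨a, b, rfl⟩ _ ⟨c, d, rfl⟩ _ ⟨l, rfl⟩ h
    have h1 : suz π a b = wz F * (suz π c d * hz π l) * wz F :=
      congrArg Units.val (congrArg Subtype.val h)
    have h3 := congrFun (congrFun h1 1) 0
    have h4 := congrFun (congrFun h1 2) 0
    have h5 : a = 0 := by
      simpa [suz, hz, wz, Matrix.mul_apply, Fin.sum_univ_four] using h3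
    have h6 : b = 0 := by
      simpa [suz, hz, wz, Matrix.mul_apply, Fin.sum_univ_four] using h4
    rw [h5, h6, ue_zero]
  · intro x
    obtain ⟨a, b, rfl⟩ := el_surj h2 hπ x
    have h1 : el h2 hπ a b * el h2 hπ a b = el h2 hπ 0 (π a * a) := Subtype.ext (hsq a b)
    rw [h1]
    exact el_comm h2 hπ hF _
  · intro lam mu hlam hmu
    have hadd' : ∀ (nu : Us h2 hπ →* ℤˣ) (x y : F),
        gs (nu (el h2 hπ (x + y) 0)) = gs (nu (el h2 hπ x 0)) + gs (nu (el h2 hπ y 0)) := by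
      intro nu x y
      rw [← gs_mul, ← map_mul, el_mul, ← lam_el h2 hπ hF nu (x + y) (0 + 0 + π x * y)]
    have hne : ∀ nu : Us h2 hπ →* ℤˣ, nu ≠ 1 → ∃ x, gs (nu (el h2 hπ x 0)) ≠ 0 := by
      intro nu hnu
      by_contra hcon
      push Not at hcon
      apply hnu
      ext u
      obtain ⟨x, y, rfl⟩ := el_surj h2 hπ u
      have h3 := hcon x
      rw [← gs_one] at h3
      rw [lam_el h2 hπ hF, gs_inj _ _ h3]
      rfl
    obtain ⟨c, hc, hcu⟩ := dual_surj (fun x => gs (lam (el h2 hπ x 0)))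
      (fun x => gs (mu (el h2 hπ x 0))) (hadd' lam) (hadd' mu) (hne lam hlam)
    have hc0 : c ≠ 0 := by
      rintro rfl
      obtain ⟨x, hx⟩ := hne mu hmu
      apply hx
      have h3 := hc x
      beta_reduce at h3
      rw [h3, zero_mul, el_zero, map_one, gs_one]
    have hconj : ∀ (l : Fˣ) (a b : F), ∃ b', (he h2 hπ l)⁻¹ * ue h2 hπ a b * he h2 hπ l =
        ue h2 hπ (π l * a) b' := by
      intro l a b
      have h3 := he_ue h2 hπ l⁻¹ a b
      rw [← he_inv, inv_inv] at h3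
      have h4 : a * (π ((l⁻¹ : Fˣ) : F))⁻¹ = π l * a := by
        rw [Units.val_inv_eq_inv_val, map_inv₀, inv_inv, mul_comm]
      rw [h4] at h3
      exact ⟨_, h3⟩
    -- the condition for the torus element `l`
    have key : ∀ l : Fˣ, (∀ x y : Us h2 hπ,
        (y : Sz π) = (he h2 hπ l)⁻¹ * x * he h2 hπ l → mu x = lam y) ↔
        ∀ ξ : F, gs (mu (el h2 hπ ξ 0)) = gs (lam (el h2 hπ (π l * ξ) 0)) := by
      intro l
      constructor
      · intro h ξ
        obtain ⟨b', hb'⟩ := hconj l ξ 0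
        rw [h (el h2 hπ ξ 0) (el h2 hπ (π l * ξ) b') hb'.symm, lam_el h2 hπ hF]
      · intro h x y hxy
        obtain ⟨ξ, b, rfl⟩ := el_surj h2 hπ x
        obtain ⟨b', hb'⟩ := hconj l ξ b
        have h4 : y = el h2 hπ (π l * ξ) b' := Subtype.ext (hxy.trans hb')
        rw [h4, lam_el h2 hπ hF, lam_el h2 hπ hF lam]
        exact gs_inj _ _ (h ξ)
    have hs0 : π.symm c ≠ 0 := by
      intro h
      apply hc0
      have := congrArg π h
      rwa [RingEquiv.apply_symm_apply, map_zero] at this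
    refine ⟨⟨he h2 hπ (Units.mk0 (π.symm c) hs0), ⟨_, rfl⟩⟩, ?_, ?_⟩
    · refine (key _).2 fun ξ => ?_
      rw [Units.val_mk0, RingEquiv.apply_symm_apply]
      exact hc ξ
    · rintro ⟨t, l, rfl⟩ h
      have h3 := (key l).1 h
      have h4 : π (l : F) = c := hcu _ h3
      have h5 : l = Units.mk0 (π.symm c) hs0 := by
        apply Units.ext
        rw [Units.val_mk0, ← h4, RingEquiv.symm_apply_apply]
      exact Subtype.ext (congrArg (he h2 hπ) h5)
  · rintro _ ⟨a, b, rfl⟩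
    have h1 : ue h2 hπ a b ^ 4 = (ue h2 hπ a b * ue h2 hπ a b) ^ 2 := by rw [← sq, ← pow_mul]
    rw [h1, hsq, sq, hsq, map_zero, zero_mul, ue_zero]

theorem sz_propA (h2 : (2 : F) = 0) (hπ : ∀ x, π (π x) = x ^ 2) (hF : 2 < Nat.card F) :
    PropA c 1 (Sz π) := by
  obtain ⟨U, T, w, h, h4⟩ := sz_rankOne h2 hπ hF
  exact h.propA

theorem sz_propB (h2 : (2 : F) = 0) (hπ : ∀ x, π (π x) = x ^ 2) (hF : 2 < Nat.card F) :
    PropB c 1 (Sz π) := by
  obtain ⟨U, T, w, h, h4⟩ := sz_rankOne h2 hπ hF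
  exact h.propB h4

end

end Parker
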