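import Pool.Agent.Parker.Defs
import Pool.Agent.Parker.P39
import Pool.Agent.Parker.P46
import Pool.Agent.Parker.Q03
import Pool.Agent.Parker.Q04
import Pool.Agent.Parker.U04
import Pool.Agent.Parker.V03
import Pool.Agent.Parker.W04
import Pool.Agent.Parker.X03
import Pool.Agent.Parker.Y08
import Pool.Agent.Parker.Z02

/-!
# MP_6c3636_al, module R02: the class theorem (helper7)
-/

namespace Parker

open Matrix

noncomputable section

variable {Ω : Type} [Field Ω] [IsAlgClosed Ω] [CharZero Ω] {c : Ctx Ω}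

/-- a nonabelian simple image of `SL_2(F)` is an image of `PSL_2(F)` -/
theorem sl2_image {F : Type} [Field F] {S : Type} [Group S] (hs : IsSimpleGroup S)
    (hn : ∃ x y : S, x * y ≠ y * x) (f : SpecialLinearGroup (Fin 2) F →* S)
    (hf : Function.Surjective f) :
    ∃ f' : ProjectiveSpecialLinearGroup (Fin 2) F →* S, Function.Surjective f' := by
  have hc : Subgroup.center S = ⊥ := by
    rcases hs.eq_bot_or_eq_top_of_normal (Subgroup.center S) inferInstance with h | h
    · exact h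
    · exfalso
      obtain ⟨x, y, hxy⟩ := hn
      apply hxy
      have hx : y ∈ Subgroup.center S := by
        rw [h]
        exact Subgroup.mem_top y
      exact Subgroup.mem_center_iff.1 hx x
  have hk : ∀ z ∈ Subgroup.center (SpecialLinearGroup (Fin 2) F), f z = 1 := by
    intro z hz
    have h1 : f z ∈ Subgroup.center S := by
      rw [Subgroup.mem_center_iff]
      intro s
      obtain ⟨x, rfl⟩ := hf s
      rw [← map_mul, ← map_mul, Subgroup.mem_center_iff.1 hz x]
    rw [hc] at h1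
    exact Subgroup.mem_bot.1 h1
  refine ⟨QuotientGroup.lift _ f hk, ?_⟩
  intro s
  obtain ⟨x, rfl⟩ := hf s
  exact ⟨QuotientGroup.mk x, QuotientGroup.lift_mk' _ _ x⟩

theorem sl2_simple {F : Type} [Field F] [Finite F] {S : Type} [Group S] [Finite S]
    (hs : IsSimpleGroup S) (hn : ∃ x y : S, x * y ≠ y * x)
    (f : SpecialLinearGroup (Fin 2) F →* S) (hf : Function.Surjective f) :
    PropA c 1 S ∧ PropB c 1 S := by
  obtain ⟨f', hf'⟩ := sl2_image hs hn f hf
  exact ⟨propA_of_surj f' hf' (psl2_propA F c), propB_of_surj f' hf' (psl2_propB F c)⟩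

/-- the class of groups: images of `SL_2(q)`, `SL_3(q)`, `SU_3(q)`, Suzuki groups, the
alternating group of degree seven, `M_11`, and groups with rank one data in odd characteristic -/
def Cls (S : Type) [Group S] : Prop :=
  (∃ (F : Type) (_ : Field F) (_ : Finite F) (f : SpecialLinearGroup (Fin 2) F →* S),
    Function.Surjective f) ∨
  (∃ (F : Type) (_ : Field F) (_ : Finite F) (f : SpecialLinearGroup (Fin 3) F →* S),
    Function.Surjective f) ∨
  (∃ (F : Type) (_ : Field F) (_ : Finite F) (σ : F ≃+* F) (f : su3 σ →* S),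
    (∀ x, σ (σ x) = x) ∧ (∃ x, σ x ≠ x) ∧ Function.Surjective f) ∨
  (∃ (F : Type) (_ : Field F) (_ : Finite F) (π : F ≃+* F), (2 : F) = 0 ∧
    (∀ x, π (π x) = x ^ 2) ∧ 2 < Nat.card F ∧ Nonempty (Sz π ≃* S)) ∨
  Nonempty (alternatingGroup (Fin 7) ≃* S) ∨ Nonempty (M11 ≃* S) ∨
  ∃ B Q : Subgroup S, Q ≤ B ∧ Odd (Nat.card Q) ∧ (∀ b ∈ B, ∀ q ∈ Q, b * q * b⁻¹ ∈ Q) ∧
    (∀ b ∈ B, ∀ b' ∈ B, b * b' * b⁻¹ * b'⁻¹ ∈ Q) ∧ 2 < B.index ∧
    ∀ g h : S, g ∉ B → h ∉ B → ∃ q ∈ Q, ∃ b ∈ B, h = q * g * b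

theorem cls_propAB' {S : Type} [Group S] [Finite S] (hs : IsSimpleGroup S)
    (hn : ∃ x y : S, x * y ≠ y * x) (h : Cls S) : PropAB' c S := by
  intro hsub
  rcases h with ⟨F, _, _, f, hf⟩ | ⟨F, _, _, f, hf⟩ | ⟨F, _, _, σ, f, h1, h2, hf⟩ |
    ⟨F, _, _, π, h1, h2, h3, ⟨e⟩⟩ | ⟨⟨e⟩⟩ |
    ⟨⟨e⟩⟩ | ⟨B, Q, hle, hodd, hnorm, hcomm, hind, htrans⟩
  · exact sl2_simple hs hn f hf
  · exact ⟨propA_of_surj f hf sl3_propA, propB_of_surj f hf sl3_propB⟩
  · exact su3_simple h1 h2 hs hn f hf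
  · exact ⟨propA_congr e (sz_propA h1 h2 h3), propB_congr e (sz_propB h1 h2 h3)⟩
  · exact ⟨propA_congr e (a7_propA c), propB_congr e (a7_propB c)⟩
  · exact ⟨propA_congr e (m11_propA c), propB_congr e (m11_propB c)⟩
  · have hB : B ≠ ⊤ := by
      rintro rfl
      rw [Subgroup.index_top] at hind
      omega
    obtain ⟨w, hw⟩ : ∃ w, w ∉ B := by
      by_contra hcon
      push Not at hcon
      exact hB ((Subgroup.eq_top_iff' B).2 hcon)
    have h : RankOneOdd B Q w := by
      refine ⟨hle, hodd, hnorm, hcomm, ?_, hind⟩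
      intro g hg
      obtain ⟨q, hq, b, hb, h⟩ := htrans w g hw hg
      exact ⟨q, hq, b, hb, h⟩
    obtain ⟨hA, hB'⟩ := hsub B hB
    exact ⟨h.propA hA hB', h.propB hB'⟩

/-- Parker's conjecture for the groups all of whose nonabelian simple sections are in the class -/
theorem parker_cls (G : Type) [Group G] [Finite G]
    (h : ∀ (H : Subgroup G) (N : Subgroup H) [N.Normal], IsSimpleGroup (H ⧸ N) →
      (∃ x y : H ⧸ N, x * y ≠ y * x) → Cls (H ⧸ N)) : ParkerOdd G := by
  obtain ⟨hA, hB⟩ := main_reduction' (c := ctx2) G (fun H N hN hs hn => by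
    have hn' : ∃ x y : H ⧸ N, x * y ≠ y * x := by
      by_contra hcon
      push Not at hcon
      exact hn hcon
    exact cls_propAB' hs hn' (h H N hs hn'))
  exact parker_of_AB hA hB

end

end Parker
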