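import Pool.Agent.Parker.N05
import Pool.Agent.Parker.R01
import Pool.Agent.Parker.R02

/-!
# MP_6c3636_al, module R03: characters outside of the principal block and the reduction theorem
(helper7)
-/

namespace Parker

open Matrix

noncomputable section

theorem ctx2_two : ctx2.av 2 < 1 := by
  have h1 : ctx2.av ((2 : ℚ_[2]) : PadicAlgCl 2) = ‖(2 : ℚ_[2])‖ := by
    rw [ctx2_av, PadicAlgCl.norm_extends]
  have h2 : ‖(2 : ℚ_[2])‖ < 1 := by
    have h3 : ((2 : ℕ) : ℚ_[2]) = (2 : ℚ_[2]) := by norm_num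
    have := Padic.norm_p_lt_one (p := 2)
    rwa [h3] at this
  have h3 : ((2 : ℚ_[2]) : PadicAlgCl 2) = (2 : PadicAlgCl 2) := by
    exact map_ofNat (algebraMap ℚ_[2] (PadicAlgCl 2)) 2
  rw [← h3, h1]
  exact h2

/-- the exponent of `S` divides `4 r`, `r` odd, and all irreducible self dual characters of even
degree lie outside of the principal block -/
def OutP2 (S : Type) [Group S] : Prop :=
  (∀ g : S, ∃ r : ℕ, Odd r ∧ g ^ (4 * r) = 1) ∧
  ∀ (n : ℕ) (ρ : Representation (PadicAlgCl 2) S (Fin n → PadicAlgCl 2)), ρ.IsIrreducible →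
    Even n → (∀ g, ρ.character g⁻¹ = ρ.character g) →
    ∃ g : S, ‖(Nat.card {x : S // IsConj g x} : PadicAlgCl 2) * (ρ.character g / n - 1)‖ = 1

theorem outP2_propAB {S : Type} [Group S] [Finite S] (h : OutP2 S) :
    PropA ctx2 1 S ∧ PropB ctx2 1 S := by
  classical
  constructor
  · intro Γ hΓ n ρ hρ hn hO hF s hs hk hd
    exact sqV_outP ctx2_two hΓ.pres hρ hO hF (h.2 n ρ hρ hn (sd_of_orth hO)) hs hk hd
  · obtain ⟨h1, -⟩ := h
    choose r hr hr' using h1
    let _ := Fintype.ofFinite S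
    refine propB_exp4 (r := ∏ g, r g) ?_ ?_
    · refine Finset.prod_induction _ Odd (fun a b ha hb => ha.mul hb) odd_one fun g _ => hr g
    · intro g
      obtain ⟨k, hk⟩ := Finset.dvd_prod_of_mem r (Finset.mem_univ g)
      rw [hk, ← mul_assoc, pow_mul, hr', one_pow]

/-- Parker's conjecture for the groups all of whose nonabelian simple sections are in the class or
have no self dual characters of even degree in the principal block -/
theorem parker_cls' (G : Type) [Group G] [Finite G]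
    (h : ∀ (H : Subgroup G) (N : Subgroup H) [N.Normal], IsSimpleGroup (H ⧸ N) →
      (∃ x y : H ⧸ N, x * y ≠ y * x) → Cls (H ⧸ N) ∨ OutP2 (H ⧸ N)) : ParkerOdd G := by
  obtain ⟨hA, hB⟩ := main_reduction' (c := ctx2) G (fun H N hN hs hn => by
    have hn' : ∃ x y : H ⧸ N, x * y ≠ y * x := by
      by_contra hcon
      push Not at hcon
      exact hn hcon
    rcases h H N hs hn' with h1 | h1
    · exact cls_propAB' hs hn' h1
    · exact fun _ => outP2_propAB h1)
  exact parker_of_AB hA hB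

/-- the local form of the conjecture for the irreducible orthogonal characters of even degree in
the principal block whose restriction to every proper subgroup has a self dual constituent of odd
degree -/
def LocA' (S : Type) [Group S] [Finite S] : Prop :=
  ∀ (n : ℕ) (ρ : Representation (PadicAlgCl 2) S (Fin n → PadicAlgCl 2)), ρ.IsIrreducible →
    Even n → Orth ρ → ¬ OutP ctx2 ρ → (∀ H : Subgroup S, H ≠ ⊤ → ¬ NoOdd (rs H ρ)) →
    ∀ s : S → ℚ, (∀ g, s g⁻¹ = - s g) →
      LinearMap.det (act ρ (fun g => (s g : PadicAlgCl 2))) ≠ 0 →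
      ∃ x ∈ chf ρ, ‖LinearMap.det (act ρ (fun g => (s g : PadicAlgCl 2)))‖ = ‖x‖ ^ 2

theorem loc_propAB' {S : Type} [Group S] [Finite S] (hA : LocA' S) (hB : LocB S) :
    PropAB' ctx2 S := by
  intro hsub
  refine ⟨?_, locB_propB hB⟩
  intro Γ hΓ n ρ hρ hn hO hF s hs hk hd
  by_cases h1 : OutP ctx2 ρ
  · exact sqV_outP ctx2_two hΓ.pres hρ hO hF h1 hs hk hd
  by_cases h2 : ∀ H : Subgroup S, H ≠ ⊤ → ¬ NoOdd (rs H ρ)
  · have hNo : NoOdd ρ := by
      intro W hW hodd _
      rcases irr_sub hρ (U := W.toSubmodule) (fun g x hx => W.apply_mem_toSubmodule g hx) with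
        h1 | h1
      · have := irr_pos hW
        have h2 : Module.finrank (PadicAlgCl 2) W.toSubmodule = 0 := by
          rw [h1]
          exact finrank_bot _ _
        rw [h2] at hodd
        exact absurd hodd (by decide)
      · have h2 : Module.finrank (PadicAlgCl 2) W.toSubmodule = n := by
          rw [h1, finrank_top]
          simp
        rw [h2] at hodd
        exact (Nat.not_even_iff_odd.2 hodd) hn
    obtain ⟨s₀, hs₀, hd₀⟩ := exists_skew_rat hNo
    obtain ⟨x, hx, hxn⟩ := hA n ρ hρ hn hO h1 h2 s₀ hs₀ hd₀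
    obtain ⟨B, hB⟩ := hO
    have hs₀' : ∀ g, ((s₀ g⁻¹ : ℚ) : PadicAlgCl 2) = - ((s₀ g : ℚ) : PadicAlgCl 2) := by
      intro g
      rw [hs₀ g]
      push_cast
      rfl
    have hx0 : x ≠ 0 := by
      rintro rfl
      rw [norm_zero] at hxn
      exact hd₀ (norm_eq_zero.1 (by rw [hxn]; norm_num))
    have hgood : GoodV ctx2 Γ ρ := by
      refine ⟨B, hB, act ρ (fun g => (s₀ g : PadicAlgCl 2)), ⟨_, fun g => fx_ratCast Γ _, rfl⟩,
        skew_of_skew hB hs₀', hd₀, x, hx0, ?_, ?_⟩
      · intro σ hσ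
        exact fix_chf (hΓ.pres σ hσ) (fun g => hF g σ hσ) hx
      · rw [ctx2_av, ctx2_av]
        exact hxn.symm
    exact sqV_of_good hρ hF hgood hs hk hd
  · push Not at h2
    obtain ⟨H, hH, hNH⟩ := h2
    obtain ⟨hA', hB'⟩ := hsub H hH
    exact sqV_of_good hρ hF (good_of_res H hA' hB' hΓ hO hF hNH) hs hk hd

/-- the reduction theorem -/
theorem parker_reduction' (G : Type) [Group G] [Finite G]
    (h : ∀ (H : Subgroup G) (N : Subgroup H) [N.Normal], IsSimpleGroup (H ⧸ N) →
      (∃ x y : H ⧸ N, x * y ≠ y * x) → LocA' (H ⧸ N) ∧ LocB (H ⧸ N)) : ParkerOdd G := by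
  obtain ⟨hA, hB⟩ := main_reduction' (c := ctx2) G (fun H N hN hs hn => by
    have hn' : ∃ x y : H ⧸ N, x * y ≠ y * x := by
      by_contra hcon
      push Not at hcon
      exact hn hcon
    obtain ⟨h1, h2⟩ := h H N hs hn'
    exact loc_propAB' h1 h2)
  exact parker_of_AB hA hB

end

end Parker
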