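import Mathlib

/-!
# MP_6c3636_al (Parker's conjecture): definitions (helper7)

`Ω` is an algebraically closed field of characteristic `0` with a nonarchimedean absolute value
(`Ctx`), `Γ` a group of automorphisms of `Ω`.
-/

namespace Parker

universe u v

noncomputable section

/-- A nonarchimedean absolute value on `Ω` which is trivial on the odd natural numbers. -/
structure Ctx (Ω : Type) [Field Ω] where
  /-- the absolute value -/
  av : AbsoluteValue Ω ℝ
  na : ∀ x y : Ω, av (x + y) ≤ max (av x) (av y)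
  odd : ∀ n : ℕ, Odd n → av (n : Ω) = 1

section Gam

variable {Ω : Type} [Field Ω]

/-- The groups `Γ` of automorphisms which are allowed: they preserve the absolute value and act on
the `m`-th roots of unity through a `2`-group (no condition if `m = 1`). -/
structure Ok (c : Ctx Ω) (m : ℕ) (Γ : Subgroup (RingAut Ω)) : Prop where
  pres : ∀ σ ∈ Γ, ∀ x : Ω, c.av (σ x) = c.av x
  two : ∀ σ ∈ Γ, ∃ j : ℕ, ∀ ζ : Ω, ζ ^ m = 1 → (σ ^ (2 ^ j)) ζ = ζ

/-- `x` is fixed by `Γ`. -/
def Fx (Γ : Subgroup (RingAut Ω)) (x : Ω) : Prop := ∀ σ ∈ Γ, σ x = x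

/-- `r` is the absolute value of a nonzero element fixed by `Γ`. -/
def InV (c : Ctx Ω) (Γ : Subgroup (RingAut Ω)) (r : ℝ) : Prop :=
  ∃ x : Ω, x ≠ 0 ∧ Fx Γ x ∧ c.av x = r

/-- `r` is the square of the absolute value of a nonzero element fixed by `Γ`. -/
def SqV (c : Ctx Ω) (Γ : Subgroup (RingAut Ω)) (r : ℝ) : Prop :=
  ∃ x : Ω, x ≠ 0 ∧ Fx Γ x ∧ c.av x ^ 2 = r

end Gam

section Rep

variable {Ω : Type} [Field Ω] {G : Type u} [Group G] {V : Type v} [AddCommGroup V] [Module Ω V]

/-- The action on `V` of the element `∑ g, s g • g` of the group algebra. -/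
def act [Finite G] (ρ : Representation Ω G V) (s : G → Ω) : Module.End Ω V :=
  letI := Fintype.ofFinite G
  ∑ g, s g • ρ g

/-- restriction to a subgroup -/
def rs (H : Subgroup G) (ρ : Representation Ω G V) : Representation Ω H V :=
  MonoidHom.comp ρ H.subtype

/-- The operators `∑ g, s g • ρ g` with coefficients fixed by `Γ`. -/
def Rat [Finite G] (Γ : Subgroup (RingAut Ω)) (ρ : Representation Ω G V) :
    Set (Module.End Ω V) :=
  {T | ∃ s : G → Ω, (∀ g, Fx Γ (s g)) ∧ act ρ s = T}

/-- `B` is a nondegenerate symmetric invariant bilinear form. -/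
structure InvForm (ρ : Representation Ω G V) (B : LinearMap.BilinForm Ω V) : Prop where
  symm : ∀ x y, B x y = B y x
  nondeg : ∀ x, (∀ y, B x y = 0) → x = 0
  inv : ∀ g x y, B (ρ g x) (ρ g y) = B x y

/-- `ρ` is orthogonal: it has a nondegenerate symmetric invariant bilinear form. -/
def Orth (ρ : Representation Ω G V) : Prop := ∃ B : LinearMap.BilinForm Ω V, InvForm ρ B

/-- the character of `ρ` takes values fixed by `Γ`. -/
def FxC (Γ : Subgroup (RingAut Ω)) (ρ : Representation Ω G V) : Prop :=
  ∀ g, Fx Γ (ρ.character g)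

/-- the character of `ρ` is self dual -/
def SD (ρ : Representation Ω G V) : Prop := ∀ g, ρ.character g⁻¹ = ρ.character g

/-- the character of `ρ` is fixed by the single automorphism `σ` -/
def Fixes (σ : RingAut Ω) (ρ : Representation Ω G V) : Prop :=
  ∀ g, σ (ρ.character g) = ρ.character g

/-- `ρ` has no self dual irreducible constituent of odd dimension. -/
def NoOdd (ρ : Representation Ω G V) : Prop :=
  ∀ W : Subrepresentation ρ, W.toRepresentation.IsIrreducible →
    Odd (Module.finrank Ω W.toSubmodule) → ¬ SD W.toRepresentation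

/-- `T` is skew for the form `B`. -/
def Skew (B : LinearMap.BilinForm Ω V) (T : Module.End Ω V) : Prop :=
  ∀ x y, B (T x) y = - B x (T y)

/-- `T` is self adjoint for the form `B`. -/
def SelfAdj (B : LinearMap.BilinForm Ω V) (T : Module.End Ω V) : Prop :=
  ∀ x y, B (T x) y = B x (T y)

/-- `ρ` is good for `Γ`: for some invariant symmetric form there is an invertible rational skew
operator whose determinant has its absolute value in `V(Γ)²`. -/
def GoodV [Finite G] (c : Ctx Ω) (Γ : Subgroup (RingAut Ω)) (ρ : Representation Ω G V) : Prop :=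
  ∃ B : LinearMap.BilinForm Ω V, InvForm ρ B ∧ ∃ T ∈ Rat Γ ρ, Skew B T ∧
    LinearMap.det T ≠ 0 ∧ SqV c Γ (c.av (LinearMap.det T))

end Rep

section Irr

variable {Ω : Type} [Field Ω] {G : Type u} [Group G]

/-- the inner product of two functions on `G` -/
def ip [Finite G] (φ ψ : G → Ω) : Ω :=
  letI := Fintype.ofFinite G
  (Nat.card G : Ω)⁻¹ * ∑ g, φ g * ψ g⁻¹

/-- the set of irreducible characters -/
def IrrSet (Ω : Type) [Field Ω] (G : Type u) [Group G] : Set (G → Ω) :=
  {φ | ∃ (n : ℕ) (ρ : Representation Ω G (Fin n → Ω)), ρ.IsIrreducible ∧ ρ.character = φ}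

open Classical in
/-- the finite set of irreducible characters -/
def irr (Ω : Type) [Field Ω] (G : Type u) [Group G] : Finset (G → Ω) :=
  if h : (IrrSet Ω G).Finite then h.toFinset else ∅

open Classical in
/-- the multiplicity of `φ` in `ψ`, as a natural number -/
def mul [Finite G] (ψ φ : G → Ω) : ℕ :=
  if h : ∃ k : ℕ, (k : Ω) = ip ψ φ then h.choose else 0

open Classical in
/-- the degree of a character, as a natural number -/
def dg (φ : G → Ω) : ℕ :=
  if h : ∃ k : ℕ, (k : Ω) = φ 1 then h.choose else 0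

/-- the dual of a character -/
def du (φ : G → Ω) : G → Ω := fun g => φ g⁻¹

/-- the coefficients of the central idempotent of an irreducible character `φ` -/
def es [Finite G] (φ : G → Ω) : G → Ω := fun g => φ 1 * (Nat.card G : Ω)⁻¹ * φ g⁻¹

open Classical in
/-- the determinant of the action of `∑ g, s g • g` on a representation with irreducible
character `φ` -/
def detc [Finite G] (φ s : G → Ω) : Ω :=
  if h : ∃ (n : ℕ) (ρ : Representation Ω G (Fin n → Ω)), ρ.IsIrreducible ∧ ρ.character = φ then
    LinearMap.det (act h.choose_spec.choose s) else 1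

/-- conjugation of functions on a normal subgroup: `(cj N g φ) n = φ (g⁻¹ n g)` -/
def cj (N : Subgroup G) [N.Normal] (g : G) (φ : N → Ω) : N → Ω :=
  fun n => φ (MulAut.conjNormal g⁻¹ n)

end Irr

section Blocks

variable {Ω : Type} [Field Ω] {G : Type u} [Group G] {V : Type v} [AddCommGroup V] [Module Ω V]

/-- block idempotents: `E` is idempotent, nonzero, commutes with `H`, and `E g E = 0` for `g ∉ H` -/
structure Blk (ρ : Representation Ω G V) (H : Subgroup G) (E : Module.End Ω V) : Prop where
  idem : E * E = E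
  ne : E ≠ 0
  comm : ∀ h ∈ H, ρ h * E = E * ρ h
  off : ∀ g, g ∉ H → E * ρ g * E = 0

/-- the representation of `H` on the range of `E` -/
def Blk.rep {ρ : Representation Ω G V} {H : Subgroup G} {E : Module.End Ω V} (h : Blk ρ H E) :
    Representation Ω H (LinearMap.range E) where
  toFun x := (ρ x).restrict (by
    rintro _ ⟨v, rfl⟩
    exact ⟨ρ x v, by
      have := congrArg (fun f : Module.End Ω V => f v) (h.comm x x.2)
      simpa using this.symm⟩)
  map_one' := by ext; simp
  map_mul' x y := by ext; simp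

end Blocks

section PropAB

variable {Ω : Type} [Field Ω]

/-- property (A) of the group `G`: for every irreducible orthogonal representation of even degree
with `Γ`-fixed character and every skew element `s` of the group algebra with `Γ`-fixed
coefficients, if `det (act ρ s) ≠ 0`, then its absolute value is in `V(Γ)²`. -/
def PropA (c : Ctx Ω) (m : ℕ) (G : Type u) [Group G] [Finite G] : Prop :=
  ∀ Γ : Subgroup (RingAut Ω), Ok c m Γ → ∀ (n : ℕ) (ρ : Representation Ω G (Fin n → Ω)),
    ρ.IsIrreducible → Even n → Orth ρ → FxC Γ ρ →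
    ∀ s : G → Ω, (∀ g, Fx Γ (s g)) → (∀ g, s g⁻¹ = - s g) → LinearMap.det (act ρ s) ≠ 0 →
      SqV c Γ (c.av (LinearMap.det (act ρ s)))

open Classical in
/-- property (B) of the group `G`: let `ρ` be irreducible of odd degree with character `ψ`, let
`γ ∈ Γ` with `γ ψ = ψ*`, and let `d ≠ 0` with `σ d = d` if `σ ψ = ψ` and `σ d = - d` otherwise, for
all `σ ∈ Γ`. Then the absolute value of `d` is in `V(Γ)`. -/
def PropB (c : Ctx Ω) (m : ℕ) (G : Type u) [Group G] [Finite G] : Prop :=
  ∀ Γ : Subgroup (RingAut Ω), Ok c m Γ → ∀ (n : ℕ) (ρ : Representation Ω G (Fin n → Ω)),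
    ρ.IsIrreducible → Odd n →
    (∃ γ ∈ Γ, ∀ g, γ (ρ.character g) = ρ.character g⁻¹) →
    ∀ d : Ω, d ≠ 0 → (∀ σ ∈ Γ, σ d = if Fixes σ ρ then d else - d) → InV c Γ (c.av d)

/-- `P` holds for all nonabelian simple sections of `G`. -/
def OnSimple (P : ∀ (S : Type u) [Group S] [Finite S], Prop) (G : Type u) [Group G] [Finite G] :
    Prop :=
  ∀ (H : Subgroup G) (N : Subgroup H) [N.Normal], IsSimpleGroup (H ⧸ N) →
    ¬ (∀ x y : H ⧸ N, x * y = y * x) → P (H ⧸ N)

end PropAB

end

end Parker
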