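import Pool.Agent.Parker.Defs
import Pool.Agent.Parker.P01
import Pool.Agent.Parker.P02
import Pool.Agent.Parker.N02
import Pool.Agent.Parker.N03

/-!
# MP_6c3636_al, module N04: invertible skew elements with coefficients roots of unity (helper7)
-/

namespace Parker

universe u v

noncomputable section

namespace N04_aux

section Aux

variable {k : Type} [Field k] {G : Type u} [Group G] [Finite G]
  {V : Type v} [AddCommGroup V] [Module k V]

/-- restriction to an invariant subspace -/
def subR (ρ : Representation k G V) (U : Submodule k V) (hU : ∀ g, U ≤ U.comap (ρ g)) :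
    Representation k G U where
  toFun g := (ρ g).restrict (fun x hx => hU g hx)
  map_one' := by
    ext x
    simp
  map_mul' x y := by
    ext z
    simp

/-- the quotient by an invariant subspace -/
def quoR (ρ : Representation k G V) (U : Submodule k V) (hU : ∀ g, U ≤ U.comap (ρ g)) :
    Representation k G (V ⧸ U) where
  toFun g := U.mapQ U (ρ g) (hU g)
  map_one' := by
    apply LinearMap.ext
    intro x
    induction x using Submodule.Quotient.induction_on with
    | H x => simp
  map_mul' x y := by
    apply LinearMap.ext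
    intro z
    induction z using Submodule.Quotient.induction_on with
    | H z => simp

theorem act_inv (ρ : Representation k G V) (U : Submodule k V) (hU : ∀ g, U ≤ U.comap (ρ g))
    (y : G → k) : U ≤ U.comap (act ρ y) := by
  let _ := Fintype.ofFinite G
  intro x hx
  rw [Submodule.mem_comap, act_eq, LinearMap.sum_apply]
  refine Submodule.sum_mem _ fun g _ => ?_
  rw [LinearMap.smul_apply]
  exact Submodule.smul_mem _ _ (hU g hx)

theorem act_subR (ρ : Representation k G V) (U : Submodule k V) (hU : ∀ g, U ≤ U.comap (ρ g))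
    (y : G → k) :
    act (subR ρ U hU) y = (act ρ y).restrict (p := U) (q := U) (act_inv ρ U hU y) := by
  let _ := Fintype.ofFinite G
  apply LinearMap.ext
  intro x
  apply Subtype.ext
  rw [LinearMap.coe_restrict_apply, act_eq, act_eq, LinearMap.sum_apply, LinearMap.sum_apply,
    Submodule.coe_sum]
  rfl

theorem act_quoR (ρ : Representation k G V) (U : Submodule k V) (hU : ∀ g, U ≤ U.comap (ρ g))
    (y : G → k) :
    act (quoR ρ U hU) y = U.mapQ U (act ρ y) (act_inv ρ U hU y) := by
  let _ := Fintype.ofFinite G
  apply LinearMap.ext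
  intro x
  induction x using Submodule.Quotient.induction_on with
  | H x =>
    rw [← Submodule.mkQ_apply, Submodule.mkQ_apply, Submodule.mapQ_apply, act_eq, act_eq,
      LinearMap.sum_apply, LinearMap.sum_apply, ← Submodule.mkQ_apply, ← Submodule.mkQ_apply,
      map_sum]
    rfl

theorem det_act (ρ : Representation k G V) (U : Submodule k V) (hU : ∀ g, U ≤ U.comap (ρ g))
    [FiniteDimensional k V] (y : G → k) :
    LinearMap.det (act ρ y) =
      LinearMap.det (act (subR ρ U hU) y) * LinearMap.det (act (quoR ρ U hU) y) := by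
  rw [act_subR, act_quoR]
  exact LinearMap.det_eq_det_mul_det U (act ρ y) (act_inv ρ U hU y)

open Polynomial in
theorem exists_poly [FiniteDimensional k V] (A B : Module.End k V)
    (h : LinearMap.det A ≠ 0 ∨ LinearMap.det B ≠ 0) :
    ∃ p : Polynomial k, p ≠ 0 ∧ ∀ t : k, p.eval t = LinearMap.det (A + t • B) := by
  classical
  set b := Module.finBasis k V
  refine ⟨Matrix.det ((X : k[X]) • (LinearMap.toMatrix b b B).map C +
    (LinearMap.toMatrix b b A).map C), ?_, ?_⟩
  · intro h0
    rcases h with h | h
    · apply h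
      have := Polynomial.coeff_det_X_add_C_zero (LinearMap.toMatrix b b B)
        (LinearMap.toMatrix b b A)
      rw [h0, Polynomial.coeff_zero, LinearMap.det_toMatrix] at this
      exact this.symm
    · apply h
      have := Polynomial.coeff_det_X_add_C_card (LinearMap.toMatrix b b B)
        (LinearMap.toMatrix b b A)
      rw [h0, Polynomial.coeff_zero, LinearMap.det_toMatrix] at this
      exact this.symm
  · intro t
    rw [← Polynomial.coe_evalRingHom, RingHom.map_det, ← LinearMap.det_toMatrix b]
    congr 1
    ext i j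
    rw [RingHom.mapMatrix_apply, Matrix.map_apply, Matrix.add_apply, Matrix.smul_apply,
      Matrix.map_apply, Matrix.map_apply, smul_eq_mul, map_add, map_mul,
      Polynomial.coe_evalRingHom, Polynomial.eval_X, Polynomial.eval_C, Polynomial.eval_C,
      add_comm, map_add (LinearMap.toMatrix b b), map_smul (LinearMap.toMatrix b b),
      Matrix.add_apply, Matrix.smul_apply, smul_eq_mul]

omit [Finite G] in
theorem du_add (a b : G → k) : du (a + b) = du a + du b := rfl

omit [Finite G] in
theorem du_smul (t : k) (a : G → k) : du (t • a) = t • du a := rfl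

theorem act_lin (ρ : Representation k G V) (y₁ y₂ : G → k) (t : k) :
    act ρ ((y₁ + t • y₂) - du (y₁ + t • y₂)) =
      act ρ (y₁ - du y₁) + t • act ρ (y₂ - du y₂) := by
  rw [← act_smul, ← act_add, du_add, du_smul]
  congr 1
  rw [smul_sub]
  abel

end Aux

end N04_aux

open N04_aux

/-- Let `k` be algebraically closed of characteristic two and `ρ` a representation for which there
is an element `z` of the group algebra with augmentation zero which acts invertibly (so the trivial
representation is not a composition factor). Then there is `y` with `y - y*` acting invertibly.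

Strong induction on `m = finrank V`. `m = 0`: any `y`. `V` irreducible: `∑ z = 0` and `act ρ z ≠ 0`
give `g` with `ρ g ≠ 1`; `exists_one` gives `y` with `act ρ (y - du y) = 1`. Otherwise there is an
invariant subspace `U`, `0 < finrank U < m`. The hypothesis with the same `z` holds for the
representations on `U` and on `V ⧸ U`. Get `y₁` for `U` and `y₂` for `V ⧸ U`. For `t : k` let
`y = y₁ + t y₂`; `det (act ρ (y - du y))` is the product of the determinants on `U` and `V ⧸ U`
(`LinearMap.det_eq_det_mul_det`-type lemma), each is a polynomial in `t`: the first one is nonzero at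
`t = 0`, the second has the nonzero coefficient `det (y₂ - y₂*)` at `t^dim` (or: the second, as
`t^dim det((y₂ - y₂*) + t⁻¹ (y₁ - y₁*))`, is nonzero for all but finitely many `t`). `k` is infinite. -/
theorem exists_skew_inv {k : Type} [Field k] [IsAlgClosed k] (h2 : (2 : k) = 0)
    {G : Type u} [Group G] [Finite G] : ∀ (m : ℕ) (V : Type v) [AddCommGroup V] [Module k V]
    [FiniteDimensional k V] (ρ : Representation k G V), Module.finrank k V = m →
    (∃ z : G → k, ∑ᶠ g, z g = 0 ∧ LinearMap.det (act ρ z) ≠ 0) →
    ∃ y : G → k, LinearMap.det (act ρ (y - du y)) ≠ 0 := by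
  intro m
  induction m using Nat.strong_induction_on with
  | _ m ih =>
  intro V _ _ _ ρ hm ⟨z, hz, hdz⟩
  rcases Nat.eq_zero_or_pos m with h0 | hpos
  · refine ⟨0, ?_⟩
    rw [LinearMap.det_eq_one_of_finrank_eq_zero (hm.trans h0)]
    exact one_ne_zero
  by_cases hirr : ρ.IsIrreducible
  · have hn : ∃ g, ρ g ≠ 1 := by
      by_contra hcon
      push Not at hcon
      apply hdz
      let _ := Fintype.ofFinite G
      have h1 : act ρ z = 0 := by
        rw [act_eq, Finset.sum_congr rfl fun g _ => by rw [hcon g], ← Finset.sum_smul,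
          ← finsum_eq_sum_of_fintype, hz, zero_smul]
      rw [h1, LinearMap.det_zero, hm, zero_pow hpos.ne']
    obtain ⟨y, hy⟩ := exists_one h2 hirr hn
    refine ⟨y, ?_⟩
    rw [hy, map_one]
    exact one_ne_zero
  · obtain ⟨U, hU, hb, ht⟩ : ∃ U : Submodule k V, (∀ g, ∀ x ∈ U, ρ g x ∈ U) ∧ U ≠ ⊥ ∧ U ≠ ⊤ := by
      by_contra hcon
      push Not at hcon
      apply hirr
      rw [P08_aux.irr_iff]
      refine ⟨Module.finrank_pos_iff_exists_ne_zero.1 (by rw [hm]; exact hpos), ?_⟩
      intro U hU
      by_cases hb : U = ⊥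
      · exact Or.inl hb
      · exact Or.inr (hcon U hU hb)
    have hU' : ∀ g, U ≤ U.comap (ρ g) := fun g x hx => hU g x hx
    have hlt : Module.finrank k U < m := by
      rw [← hm]
      exact Submodule.finrank_lt ht
    have hlt' : Module.finrank k (V ⧸ U) < m := by
      have h3 := Submodule.finrank_quotient_add_finrank U
      have h4 : 0 < Module.finrank k U := by
        rw [Nat.pos_iff_ne_zero]
        intro h5
        exact hb (Submodule.finrank_eq_zero.1 h5)
      omega
    have hd := hdz
    rw [det_act ρ U hU'] at hd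
    obtain ⟨y₁, hy₁⟩ := ih _ hlt U (subR ρ U hU') rfl ⟨z, hz, left_ne_zero_of_mul hd⟩
    obtain ⟨y₂, hy₂⟩ := ih _ hlt' (V ⧸ U) (quoR ρ U hU') rfl ⟨z, hz, right_ne_zero_of_mul hd⟩
    obtain ⟨p, hp, hpe⟩ := exists_poly (act (subR ρ U hU') (y₁ - du y₁))
      (act (subR ρ U hU') (y₂ - du y₂)) (Or.inl hy₁)
    obtain ⟨q, hq, hqe⟩ := exists_poly (act (quoR ρ U hU') (y₁ - du y₁))
      (act (quoR ρ U hU') (y₂ - du y₂)) (Or.inr hy₂)
    have hinf : Infinite k := IsAlgClosed.instInfinite
    obtain ⟨t, ht'⟩ : ∃ t : k, (p * q).eval t ≠ 0 := by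
      by_contra hcon
      push Not at hcon
      apply mul_ne_zero hp hq
      apply Polynomial.funext
      intro t
      rw [hcon t, Polynomial.eval_zero]
    refine ⟨y₁ + t • y₂, ?_⟩
    rw [det_act ρ U hU', act_lin, act_lin, ← hpe, ← hqe, ← Polynomial.eval_mul]
    exact ht'

variable {Ω : Type} [Field Ω] [IsAlgClosed Ω] [CharZero Ω] {c : Ctx Ω} {G : Type u} [Group G]
  [Finite G] {n : ℕ}

/-- over an infinite subset `T` of a field: if `det (act ρ' (y - du y)) ≠ 0` for some `y`, then for
some `y` with values in `T` (`MvPolynomial.funext_set`: the determinant is a polynomial in the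
coordinates of `y`). -/
theorem exists_in_set {k : Type} [Field k] {T : Set k} (hT : T.Infinite)
    (ρ' : Representation k G (Fin n → k)) (h : ∃ y : G → k, LinearMap.det (act ρ' (y - du y)) ≠ 0) :
    ∃ y : G → k, (∀ g, y g ∈ T) ∧ LinearMap.det (act ρ' (y - du y)) ≠ 0 := by
  classical
  let _ := Fintype.ofFinite G
  set b := Pi.basisFun k (Fin n)
  let P : MvPolynomial G k := Matrix.det (Matrix.of fun i j : Fin n =>
    ∑ g : G, (MvPolynomial.X g - MvPolynomial.X g⁻¹) *
      MvPolynomial.C (LinearMap.toMatrix b b (ρ' g) i j))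
  have hP : ∀ y : G → k, MvPolynomial.eval y P = LinearMap.det (act ρ' (y - du y)) := by
    intro y
    rw [← LinearMap.det_toMatrix b]
    change MvPolynomial.eval y (Matrix.det _) = _
    rw [RingHom.map_det]
    congr 1
    ext i j
    rw [act_eq, map_sum, Matrix.sum_apply]
    rw [RingHom.mapMatrix_apply, Matrix.map_apply, Matrix.of_apply, map_sum]
    refine Finset.sum_congr rfl fun g _ => ?_
    rw [map_mul, map_sub, MvPolynomial.eval_X, MvPolynomial.eval_X, MvPolynomial.eval_C,
      map_smul, Matrix.smul_apply, smul_eq_mul]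
    rfl
  by_contra hcon
  push Not at hcon
  have h0 : P = 0 := by
    apply MvPolynomial.funext_set (fun _ : G => T) (fun _ => hT)
    intro x hx
    rw [map_zero, hP]
    exact hcon x fun g => hx g (Set.mem_univ g)
  obtain ⟨y, hy⟩ := h
  apply hy
  rw [← hP, h0, map_zero]

/-- If some element `z` of the group algebra with coefficients of absolute value `≤ 1` and
augmentation zero acts as a scalar of absolute value one, then there is `y` whose coefficients are
`r`-th roots of unity, `r` odd, such that `det (y - y*)` has absolute value one.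

`exists_reduction` gives `ρ'`; `z` reduces to an element of augmentation zero which acts invertibly
(its determinant is the residue of `a ^ n`), `exists_skew_inv` (with `rf_algClosed`, `rf_two`),
`exists_in_set` with the residues of roots of unity of odd order (`rf_infinite`); lift the
coefficients; `r` is the product of the orders; `residue_ne_zero`. -/
theorem exists_unit_skew (h2 : c.av 2 < 1) (ρ : Representation Ω G (Fin n → Ω))
    (hz : ∃ z : G → Ω, (∀ g, c.av (z g) ≤ 1) ∧ ∑ᶠ g, z g = 0 ∧ ∃ a : Ω, act ρ z = a • 1 ∧
      c.av a = 1) :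
    ∃ r : ℕ, Odd r ∧ ∃ y : G → Ω, (∀ g, y g ^ r = 1) ∧
      c.av (LinearMap.det (act ρ (y - du y))) = 1 := by
  classical
  let _ := Fintype.ofFinite G
  have hac : IsAlgClosed (rf c) := rf_algClosed c
  obtain ⟨ρ', hρ'⟩ := exists_reduction c ρ
  obtain ⟨z, hz1, hz0, a, haz, ha⟩ := hz
  have hy0 : ∃ y : G → rf c, LinearMap.det (act ρ' (y - du y)) ≠ 0 := by
    refine exists_skew_inv (rf_two h2) n (Fin n → rf c) ρ' (by simp)
      ⟨fun g => IsLocalRing.residue (vr c) (⟨z g, hz1 g⟩ : vr c), ?_, ?_⟩
    · rw [finsum_eq_sum_of_fintype] at hz0 ⊢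
      rw [← map_sum]
      have : (∑ g, (⟨z g, hz1 g⟩ : vr c)) = 0 := by
        apply Subtype.ext
        rw [AddSubmonoidClass.coe_finsetSum]
        exact hz0
      rw [this, map_zero]
    · obtain ⟨D, hD1, hD2⟩ := hρ' (fun g => (⟨z g, hz1 g⟩ : vr c))
      rw [← hD2, residue_ne_zero, hD1]
      have : act ρ (fun g => ((⟨z g, hz1 g⟩ : vr c) : Ω)) = a • 1 := haz
      rw [this, LinearMap.det_smul, map_one, mul_one, map_pow, ha, one_pow]
  obtain ⟨y, hyT, hy⟩ := exists_in_set (rf_infinite c) ρ' hy0
  choose x hx hxy using hyT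
  choose r hr hxr using hx
  refine ⟨∏ g, r g, ?_, fun g => (x g : Ω), ?_, ?_⟩
  · exact Finset.prod_induction r Odd (fun _ _ => Odd.mul) odd_one fun g _ => hr g
  · intro g
    obtain ⟨s, hs⟩ := Finset.dvd_prod_of_mem r (Finset.mem_univ g)
    rw [hs, pow_mul, hxr g, one_pow]
  · obtain ⟨D, hD1, hD2⟩ := hρ' (fun g => x g - x g⁻¹)
    have h1 : (fun g => ((x g - x g⁻¹ : vr c) : Ω)) =
        (fun g => (x g : Ω)) - du (fun g => (x g : Ω)) := by
      funext g
      rfl
    have h3 : (fun g => IsLocalRing.residue (vr c) (x g - x g⁻¹)) = y - du y := by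
      funext g
      rw [map_sub, hxy, hxy]
      rfl
    rw [h1] at hD1
    rw [h3] at hD2
    rw [← hD1, ← residue_ne_zero, hD2]
    exact hy

end

end Parker
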