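import Pool.Agent.Parker.Defs
import Pool.Agent.Parker.P01
import Pool.Agent.Parker.P02
import Pool.Agent.Parker.P06
import Pool.Agent.Parker.P08
import Pool.Agent.Parker.N01
import Pool.Agent.Parker.N04

/-!
# MP_6c3636_al, module N05: characters outside of the principal block (helper7)
-/

namespace Parker

universe u

noncomputable section

variable {Ω : Type} [Field Ω] [IsAlgClosed Ω] [CharZero Ω] {c : Ctx Ω} {G : Type u} [Group G]
  [Finite G] {n : ℕ}

/-- the irreducible representation `ρ` of degree `n` is outside of the principal block: for some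
`g` the central characters of `ρ` and of the trivial representation have different residues at the
class sum of `g` -/
def OutP (c : Ctx Ω) (ρ : Representation Ω G (Fin n → Ω)) : Prop :=
  ∃ g : G, c.av ((Nat.card {x : G // IsConj g x} : Ω) * (ρ.character g / n - 1)) = 1

/-- the element `z = (class sum of g) - |class| 1` of augmentation zero acts as the scalar
`|class| (χ(g) / n - 1)` (`schur`, trace) -/
theorem outP_elem {ρ : Representation Ω G (Fin n → Ω)} (hρ : ρ.IsIrreducible)
    (h : OutP c ρ) :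
    ∃ z : G → Ω, (∀ g, c.av (z g) ≤ 1) ∧ ∑ᶠ g, z g = 0 ∧ ∃ a : Ω, act ρ z = a • 1 ∧
      c.av a = 1 := by
  classical
  let _ := Fintype.ofFinite G
  obtain ⟨g₀, hg₀⟩ := h
  set K : ℕ := Nat.card {x : G // IsConj g₀ x} with hK
  have hKs : ∑ x : G, (if IsConj g₀ x then (1 : Ω) else 0) = K := by
    rw [Finset.sum_boole, hK, Nat.card_eq_fintype_card, Fintype.card_subtype]
  have hn : (n : Ω) ≠ 0 := by
    have h1 := irr_pos hρ
    rw [Module.finrank_fin_fun] at h1
    exact_mod_cast h1.ne'
  have hav : ∀ m : ℕ, c.av (m : Ω) ≤ 1 := by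
    intro m
    rcases Nat.even_or_odd m with h1 | h1
    · rcases Nat.eq_zero_or_pos m with h2 | h2
      · rw [h2, Nat.cast_zero, map_zero]
        exact zero_le_one
      · obtain ⟨k, rfl⟩ : ∃ k, m = k + 1 := ⟨m - 1, by omega⟩
        have h3 : Odd k := by
          rw [Nat.even_add_one, Nat.not_even_iff_odd] at h1
          exact h1
        rw [Nat.cast_add, Nat.cast_one]
        refine (c.na _ _).trans (max_le (c.odd k h3).le ?_)
        rw [map_one]
    · exact (c.odd m h1).le
  have hconj : ∀ y x : G, IsConj g₀ (y * x * y⁻¹) ↔ IsConj g₀ x := by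
    intro y x
    have h1 : IsConj x (y * x * y⁻¹) := isConj_iff.2 ⟨y, rfl⟩
    exact ⟨fun h2 => h2.trans h1.symm, fun h2 => h2.trans h1⟩
  have hone : ∀ y x : G, y * x * y⁻¹ = 1 ↔ x = 1 := by
    intro y x
    constructor
    · intro h1
      have h2 : y * x = y := by
        have := congrArg (fun t => t * y) h1
        simpa [mul_assoc] using this
      exact mul_eq_left.1 h2
    · rintro rfl
      rw [mul_one, mul_inv_cancel]
  set z : G → Ω := fun x => (if IsConj g₀ x then 1 else 0) - (if x = 1 then (K : Ω) else 0)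
    with hz
  have hcl : ∀ y x : G, z (y * x * y⁻¹) = z x := by
    intro y x
    simp only [hz, hconj, hone]
  have hcomm : ∀ y, act ρ z * ρ y = ρ y * act ρ z := by
    intro y
    rw [act_eq, Finset.sum_mul, Finset.mul_sum]
    have h1 : ∀ x : G, z (y * x * y⁻¹) • ρ (y * x * y⁻¹) * ρ y = ρ y * z x • ρ x := by
      intro x
      rw [hcl, smul_mul_assoc, mul_smul_comm, ← map_mul, ← map_mul, inv_mul_cancel_right]
    rw [← Finset.sum_congr rfl fun x _ => h1 x]
    exact (Equiv.sum_comp (MulAut.conj y).toEquiv (fun x => z x • ρ x * ρ y)).symm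
  have hchar : ∀ x, IsConj g₀ x → ρ.character x = ρ.character g₀ := by
    intro x hx
    obtain ⟨y, rfl⟩ := isConj_iff.1 hx
    exact Representation.char_conj ρ g₀ y
  obtain ⟨a, ha⟩ := schur hρ hcomm
  have htr : a * n = K * ρ.character g₀ - K * n := by
    have h1 := trace_act ρ z
    rw [ha, map_smul, LinearMap.trace_one, Module.finrank_fin_fun, smul_eq_mul] at h1
    rw [h1]
    have h2 : ∀ x : G, z x * ρ.character x =
        (if IsConj g₀ x then (1 : Ω) else 0) * ρ.character g₀ -
          (if x = 1 then (K : Ω) * ρ.character 1 else 0) := by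
      intro x
      rw [hz]
      simp only
      by_cases h3 : IsConj g₀ x
      · rw [if_pos h3, hchar x h3]
        by_cases h4 : x = 1
        · rw [if_pos h4, if_pos h4, ← hchar 1 (by rwa [h4] at h3)]
          ring
        · rw [if_neg h4, if_neg h4]
          ring
      · rw [if_neg h3]
        by_cases h4 : x = 1
        · rw [if_pos h4, if_pos h4, h4]
          ring
        · rw [if_neg h4, if_neg h4]
          ring
    rw [Finset.sum_congr rfl fun x _ => h2 x, Finset.sum_sub_distrib, ← Finset.sum_mul, hKs,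
      Finset.sum_ite_eq' Finset.univ (1 : G) (fun _ => (K : Ω) * ρ.character 1),
      if_pos (Finset.mem_univ _), Representation.char_one, Module.finrank_fin_fun]
  refine ⟨z, ?_, ?_, a, ha, ?_⟩
  · intro x
    rw [hz]
    simp only
    rw [sub_eq_add_neg]
    refine (c.na _ _).trans (max_le ?_ ?_)
    · split_ifs
      · rw [map_one]
      · rw [map_zero]
        exact zero_le_one
    · rw [AbsoluteValue.map_neg]
      split_ifs
      · exact hav K
      · rw [map_zero]
        exact zero_le_one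
  · rw [finsum_eq_sum_of_fintype]
    simp only [hz]
    rw [Finset.sum_sub_distrib, hKs, Finset.sum_ite_eq' Finset.univ (1 : G) (fun _ => (K : Ω)),
      if_pos (Finset.mem_univ _), sub_self]
  · have h1 : a = (K : Ω) * (ρ.character g₀ / n - 1) := by
      apply mul_right_cancel₀ hn
      rw [htr]
      field_simp
    rw [h1]
    exact hg₀

/-- (A) for the characters outside of the principal block -/
theorem sqV_outP (h2 : c.av 2 < 1) {Γ : Subgroup (RingAut Ω)}
    (hp : ∀ σ ∈ Γ, ∀ x : Ω, c.av (σ x) = c.av x) {ρ : Representation Ω G (Fin n → Ω)}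
    (hρ : ρ.IsIrreducible) (hO : Orth ρ) (hF : FxC Γ ρ) (h : OutP c ρ) {s : G → Ω}
    (hs : ∀ g, Fx Γ (s g)) (hk : ∀ g, s g⁻¹ = - s g) (hd : LinearMap.det (act ρ s) ≠ 0) :
    SqV c Γ (c.av (LinearMap.det (act ρ s))) := by
  obtain ⟨r, hr, y, hy, hyd⟩ := exists_unit_skew h2 ρ (outP_elem hρ h)
  obtain ⟨Γ', hΓ'⟩ : ∃ Γ' : Subgroup (RingAut Ω), ∀ σ, σ ∈ Γ' ↔ σ ∈ Γ ∧
      ∀ ζ : Ω, ζ ^ r = 1 → σ ζ = ζ := by
    refine ⟨Γ ⊓ ⨅ (ζ : Ω) (_ : ζ ^ r = 1), MulAction.stabilizer (RingAut Ω) ζ, fun σ => ?_⟩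
    rw [Subgroup.mem_inf]
    simp only [Subgroup.mem_iInf, MulAction.mem_stabilizer_iff]
    rfl
  have hle : Γ' ≤ Γ := fun σ hσ => ((hΓ' σ).1 hσ).1
  have hyf : ∀ g, Fx Γ' ((y - du y) g) := by
    intro g σ hσ
    have h1 := ((hΓ' σ).1 hσ).2
    rw [Pi.sub_apply, map_sub]
    show σ (y g) - σ (y g⁻¹) = y g - y g⁻¹
    rw [h1 _ (hy g), h1 _ (hy g⁻¹)]
  have hysk : ∀ g, (y - du y) g⁻¹ = - (y - du y) g := by
    intro g
    simp only [Pi.sub_apply, du, inv_inv]
    ring
  obtain ⟨B, hB⟩ := hO
  have hgood : GoodV c Γ' ρ := by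
    refine ⟨B, hB, act ρ (y - du y), ⟨_, hyf, rfl⟩, skew_of_skew hB hysk, ?_, ?_⟩
    · intro h0
      rw [h0, map_zero] at hyd
      exact zero_ne_one hyd
    · rw [hyd]
      exact sqV_one
  have hF' : FxC Γ' ρ := fun g => fx_mono hle (hF g)
  have h1 := sqV_of_good hρ hF' hgood (fun g => fx_mono hle (hs g)) hk hd
  exact sqV_unram hp hr (fun σ hσ h3 => (hΓ' σ).2 ⟨hσ, h3⟩) h1

end

end Parker
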